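import Pool.Agent.P.MP_8d2e9f_nt.AO.Iface

/-! Step CHAIN. -/

set_option autoImplicit false

namespace Pool.Agent.P.MP_8d2e9f_nt.AO

section

open Function

variable {T : Type} {g : T → T}

theorem chain_per {x : T} (hx : x ∈ periodicPts g) (n : ℕ) : g^[n] x ∈ periodicPts g := by
  obtain ⟨m, hm, h⟩ := hx
  exact ⟨m, hm, h.apply_iterate n⟩

theorem chain_back {x : T} (hx : x ∈ periodicPts g) (n : ℕ) : ∃ m, g^[m] (g^[n] x) = x := by
  obtain ⟨m, hm, h⟩ := hx
  refine ⟨m * n - n, ?_⟩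
  rw [← iterate_add_apply, Nat.sub_add_cancel (Nat.le_mul_of_pos_left n hm)]
  exact h.mul_const n

theorem chain_mk {U : Set T} (hU : ∀ x ∈ U, ∃ z ∈ U, g z = x) {x : T} (hx : x ∈ U)
    (hp : x ∉ periodicPts g) :
    ∃ y : ℕ → T, y 0 = x ∧ (∀ n, y n ∈ U ∧ g (y (n + 1)) = y n) ∧ (Set.range y).Infinite := by
  choose! s h1 h2 using hU
  have h3 : ∀ n, s^[n] x ∈ U := fun n => by
    induction n with
    | zero => exact hx
    | succ n ih => rw [iterate_succ_apply']; exact h1 _ ih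
  have h4 : ∀ n, g (s^[n + 1] x) = s^[n] x := fun n => by
    rw [iterate_succ_apply']; exact h2 _ (h3 n)
  have h5 : ∀ k n, g^[k] (s^[n + k] x) = s^[n] x := fun k n => by
    induction k with
    | zero => rfl
    | succ k ih => rw [iterate_succ_apply, ← add_assoc, h4, ih]
  refine ⟨fun n => s^[n] x, rfl, fun n => ⟨h3 n, h4 n⟩,
    Set.infinite_range_of_injective (Function.Injective.of_lt_imp_ne fun m n hmn e => hp ?_)⟩
  obtain ⟨k, rfl⟩ := Nat.exists_eq_add_of_lt hmn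
  have h6 : s^[m] x ∈ periodicPts g := ⟨k + 1, k.succ_pos, by
    have := h5 (k + 1) m
    rwa [← add_assoc, ← e] at this⟩
  have h7 := chain_per h6 m
  have h8 := h5 m 0
  rw [zero_add] at h8
  rwa [h8] at h7

theorem chain_good {S : Set T} (hS : ∀ x ∈ S, g x ∈ S) (hf : ∀ x, {z | g z = x}.Finite) {α : T}
    (h0 : α ∈ S) (hα : {z ∈ S | ∃ n : ℕ, g^[n] z = α}.Infinite) (hp : α ∉ periodicPts g) :
    ∃ y : ℕ → T, y 0 = α ∧ (∀ n, y n ∈ S ∧ g (y (n + 1)) = y n) ∧ (Set.range y).Infinite := by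
  obtain ⟨y, h1, h2, h3⟩ := chain_mk (g := g)
    (U := {a ∈ S | {z ∈ S | ∃ n : ℕ, g^[n] z = a}.Infinite}) (x := α) (fun a ha => by
      by_contra h
      push Not at h
      refine ha.2 (((((hf a).inter_of_left S).biUnion
        (t := fun b => {z ∈ S | ∃ n : ℕ, g^[n] z = b}) fun b hb => ?_).insert a).subset ?_)
      · by_contra h4
        exact h b ⟨hb.2, h4⟩ hb.1
      · rintro z ⟨hz, n, rfl⟩
        rcases n with _ | n
        · exact Or.inl rfl
        · refine Or.inr (Set.mem_biUnion (x := g^[n] z) ⟨(iterate_succ_apply' g n z).symm,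
            Set.MapsTo.iterate hS n hz⟩ ⟨hz, n, rfl⟩)) ⟨h0, hα⟩ hp
  exact ⟨y, h1, fun n => ⟨(h2 n).1.1, (h2 n).2⟩, h3⟩

theorem chain_pre {S : Set T} (hS : ∀ x ∈ S, g x ∈ S) {b : T}
    (h : ∃ y : ℕ → T, y 0 = b ∧ (∀ n, y n ∈ S ∧ g (y (n + 1)) = y n) ∧ (Set.range y).Infinite)
    (k : ℕ) : ∃ y : ℕ → T, y 0 = g^[k] b ∧ (∀ n, y n ∈ S ∧ g (y (n + 1)) = y n) ∧
      (Set.range y).Infinite := by
  induction k with
  | zero => exact h
  | succ k ih =>
    obtain ⟨y, h1, h2, h3⟩ := ih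
    refine ⟨fun n => Nat.casesOn n (g (y 0)) y, by rw [iterate_succ_apply', ← h1]; rfl, fun n => ?_,
      h3.mono ?_⟩
    · rcases n with _ | n
      · exact ⟨hS _ (h2 0).1, rfl⟩
      · exact ⟨(h2 n).1, (h2 n).2⟩
    · rintro _ ⟨n, rfl⟩
      exact ⟨n + 1, rfl⟩

end

open Polynomial NumberField Pool.Agent.P.MP_8d2e9f_nt.G
open scoped IntermediateField

theorem p_CHAIN :
    S_CHAIN := by
  intro T g
  refine ⟨fun S hS h => ?_, fun S hS hf => ⟨fun α hα => ?_, fun h => ?_⟩⟩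
  · refine (Set.finite_or_infinite _).symm.imp_right fun h1 => ?_
    obtain ⟨x, hx, h2⟩ := hS.exists_notMem_finite h1
    obtain ⟨y, -, h3⟩ := chain_mk h hx fun h4 => h2 ⟨hx, h4⟩
    exact ⟨y, h3⟩
  · by_cases hp : α ∈ Function.periodicPts g
    swap
    · obtain ⟨z, hz, n, rfl⟩ := hα.nonempty
      exact chain_good hS hf (Set.MapsTo.iterate hS n hz) hα hp
    have hC : (Set.range fun n => g^[n] α).Finite := by
      obtain ⟨m, hm, h⟩ := hp
      refine ((Set.finite_lt_nat m).image fun n => g^[n] α).subset ?_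
      rintro _ ⟨n, rfl⟩
      exact ⟨n % m, Nat.mod_lt _ hm, h.iterate_mod_apply n⟩
    have hB : {b ∈ S | b ∉ Function.periodicPts g ∧ g b ∈ Set.range fun n => g^[n] α}.Finite :=
      (hC.biUnion fun x _ => hf x).subset fun b hb => Set.mem_biUnion hb.2.2 rfl
    by_contra h0
    refine hα ((hC.union (hB.biUnion (t := fun b => {z ∈ S | ∃ n : ℕ, g^[n] z = b})
      fun b hb => ?_)).subset ?_)
    · by_contra h1
      obtain ⟨n, hn⟩ := hb.2.2
      obtain ⟨m, hm⟩ := chain_back hp n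
      have h2 := chain_pre hS (chain_good hS hf hb.1 h1 hb.2.1) (m + 1)
      rw [Function.iterate_succ_apply, ← hn, hm] at h2
      exact h0 h2
    · rintro z ⟨hz, n, hn⟩
      induction n generalizing z with
      | zero => exact Or.inl ⟨0, hn.symm⟩
      | succ n ih =>
        rcases ih (hS z hz) hn with h1 | h1
        · by_cases h2 : z ∈ Function.periodicPts g
          · obtain ⟨m, hm⟩ := chain_back h2 (n + 1)
            exact Or.inl ⟨m, by rw [← hn]; exact hm⟩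
          · exact Or.inr (Set.mem_biUnion (x := z) ⟨hz, h2, h1⟩ ⟨hz, 0, rfl⟩)
        · obtain ⟨b, hb, -, k, hk⟩ := Set.mem_iUnion₂.1 h1
          exact Or.inr (Set.mem_biUnion hb ⟨hz, k + 1, hk⟩)
  · refine (Set.finite_or_infinite _).symm.imp_right fun h1 => ?_
    by_contra h2
    push Not at h2
    refine h ((h1.biUnion fun α _ => h2 α).subset ?_)
    rintro z ⟨hz, n, hn⟩
    exact Set.mem_biUnion (x := g^[n] z) ⟨Set.MapsTo.iterate hS n hz, hn⟩ ⟨hz, n, rfl⟩

end Pool.Agent.P.MP_8d2e9f_nt.AO
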