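import Pool.Agent.P.MP_8d2e9f_nt.AO.TPPAR
import Pool.Agent.P.MP_8d2e9f_nt.AO.TCHAIN

/-! Infinite sets `S` with `S ⊆ f(S)` in an abelian extension. -/

set_option autoImplicit false

namespace Pool.Agent.P.MP_8d2e9f_nt.AO

open Polynomial NumberField Pool.Agent.P.MP_8d2e9f_nt.G
open scoped IntermediateField

lemma fin_excl {f : Qbar[X]} {a b : Qbar} (ha : a ≠ 0) (hd : 2 ≤ f.natDegree)
    (h1 : LinConj f a b (X ^ f.natDegree))
    (h2 : LinConj f a b (Chebyshev.C Qbar f.natDegree) ∨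
      LinConj f a b (-Chebyshev.C Qbar f.natDegree)) : False := by
  have h3 : (2 : ℤ) ^ 2 ≤ 2 ^ f.natDegree := pow_le_pow_right₀ one_le_two hd
  rcases h2 with h2 | h2
  · have h := congrArg (eval 2) (h1.symm.trans h2)
    simp only [eval_add, eval_mul, eval_C, eval_pow, eval_X, Chebyshev.C_eval_two, add_left_inj,
      mul_right_inj' ha] at h
    have : (2 : ℤ) ^ f.natDegree = 2 := by exact_mod_cast h
    omega
  · have h := congrArg (eval 2) (h1.symm.trans h2)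
    simp only [eval_add, eval_mul, eval_C, eval_pow, eval_X, eval_neg, Chebyshev.C_eval_two,
      add_left_inj, mul_right_inj' ha] at h
    have : (2 : ℤ) ^ f.natDegree = -2 := by exact_mod_cast h
    omega

lemma fin_pow {f : Qbar[X]} {a b z : Qbar} (ha : a ≠ 0) (hd : 2 ≤ f.natDegree)
    (h : LinConj f a b (X ^ f.natDegree)) (hz : z ∈ Function.periodicPts fun x => f.eval x) :
    z = b ∨ ∃ ζ : Qbar, IsOfFinOrder ζ ∧ z = a * ζ + b := by
  obtain ⟨t, n, n0, rfl, ht⟩ := ppar_conj ha h hz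
  by_cases t0 : t = 0
  · exact Or.inl (by simp [t0])
  simp only [eval_pow, eval_X] at ht
  rw [pow_iterate] at ht
  obtain ⟨m, hm⟩ := Nat.exists_eq_add_of_lt (Nat.one_lt_pow n0.ne' (by omega : 1 < f.natDegree))
  refine Or.inr ⟨t, isOfFinOrder_iff_pow_eq_one.2 ⟨m + 1, by omega, mul_left_cancel₀ t0 ?_⟩, rfl⟩
  simp only [hm] at ht
  linear_combination ht

lemma fin_ch {f : Qbar[X]} {a b z : Qbar} (ha : a ≠ 0) (hd : 2 ≤ f.natDegree)
    (h : LinConj f a b (Chebyshev.C Qbar f.natDegree) ∨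
      LinConj f a b (-Chebyshev.C Qbar f.natDegree))
    (hz : z ∈ Function.periodicPts fun x => f.eval x) :
    ∃ ζ : Qbar, IsOfFinOrder ζ ∧ z = a * (ζ + ζ⁻¹) + b := by
  have h3 : ∀ v : Qbar, v ≠ 0 → (Chebyshev.C Qbar f.natDegree).eval (v + v⁻¹) =
      v ^ f.natDegree + (v ^ f.natDegree)⁻¹ := fun v v0 => by
    rw [← dickson_one_one_eq_chebyshev_C, dickson_one_one_eval_add_inv _ _ (mul_inv_cancel₀ v0),
      inv_pow]
  rcases h with h | h
  · obtain ⟨t, n, n0, rfl, ht⟩ := ppar_conj ha h hz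
    obtain ⟨ζ, k1, rfl⟩ := ppar_ch hd (fun v v0 => ⟨_, h3 v v0, by ring⟩) n0 ht
    exact ⟨ζ, k1, rfl⟩
  · obtain ⟨t, n, n0, rfl, ht⟩ := ppar_conj ha h hz
    obtain ⟨ζ, k1, rfl⟩ := ppar_ch hd (fun v v0 => ⟨-v ^ f.natDegree, by
      rw [eval_neg, h3 v v0, inv_neg, neg_add], by ring⟩) n0 ht
    exact ⟨ζ, k1, rfl⟩

theorem fin_inv (hABG : S_ABG) (hFORMP : S_FORMP) (hEXC : S_EXC) (hBASE : S_BASE) (hSEQ : S_SEQ)
    {K : IF} (hK : Fd K) (f : K[X]) (hd : 2 ≤ f.natDegree) {S : Set Qbar} (hS : S.Infinite)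
    (hab : ∀ z ∈ S, Ab K z) (hb : ∀ x ∈ S, ∃ z ∈ S, aeval z f = x) :
    ∃ a b : Qbar, a ≠ 0 ∧ b ∈ K ∧ Ab K a ∧
      ((LinConj (f.map (algebraMap K Qbar)) a b (X ^ f.natDegree) ∧
          ∀ z ∈ S, z = b ∨ ∃ ζ : Qbar, IsOfFinOrder ζ ∧ z = a * ζ + b) ∨
        (LinConj (f.map (algebraMap K Qbar)) a b (Chebyshev.C Qbar f.natDegree) ∨
            LinConj (f.map (algebraMap K Qbar)) a b (-Chebyshev.C Qbar f.natDegree)) ∧
          ∀ z ∈ S, ∃ ζ : Qbar, IsOfFinOrder ζ ∧ z = a * (ζ + ζ⁻¹) + b) := by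
  have ed : (f.map (algebraMap K Qbar)).natDegree = f.natDegree := natDegree_map _
  have ev : (fun x => (f.map (algebraMap K Qbar)).eval x) = fun x : Qbar => aeval x f :=
    funext fun x => eval_map_algebraMap _ _
  rw [← ed] at hd ⊢
  obtain ⟨a, b, hs, ha⟩ : ∃ a b, Shape K (f.map (algebraMap K Qbar)) a b ∧ Ab K a := by
    rcases (p_CHAIN Qbar fun x => aeval x f).1 S hS hb with h | ⟨y, hy, hi⟩
    · obtain ⟨a, b, hs⟩ := hEXC K f hK (ed ▸ hd) (hFORMP K f hK (ed ▸ hd)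
        (h.mono fun z hz => ⟨hz.2, hab z hz.1⟩))
      exact ⟨a, b, hs, (p_PPAR hABG K _ a b _ hd hs (ev ▸ Set.inter_subset_right)
        (fun z hz => hab z hz.1) h).2.2.1⟩
    · obtain ⟨a, b, h0, h1, h2, h3⟩ := hSEQ K f y hK (ed ▸ hd) (fun n => (hy n).2)
        (fun n => hab _ (hy n).1) hi
      exact ⟨a, b, ⟨h0, h1, h3.imp And.left fun h => ⟨h.1, h.2.1⟩⟩, h2⟩
  have key : ∀ z ∈ S, z ∉ Function.periodicPts (fun x => (f.map (algebraMap K Qbar)).eval x) →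
      Par K (f.map (algebraMap K Qbar)) a b {z} := fun z hz hp => by
    obtain ⟨y, h0, hy, hi⟩ := chain_mk (g := fun x => aeval x f) hb hz (ev ▸ hp)
    obtain ⟨k0, k1, k2, k3⟩ := hBASE K _ a b y hK hd hs
      (fun n => (congrFun ev _).trans (hy n).2) (fun n => hab _ (hy n).1) hi
    have hm : ∀ w ∈ ({z} : Set Qbar), w ∈ Set.range y := fun w hw => ⟨0, h0.trans hw.symm⟩
    exact ⟨k0, k1, k2, k3.imp (fun h => ⟨h.1, fun w hw => h.2 w (hm w hw)⟩)
      fun h => ⟨h.1, h.2.1, fun w hw => h.2.2 w (hm w hw)⟩⟩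
  obtain ⟨h0, h1, h2⟩ := hs
  refine ⟨a, b, h0, h1, ha, h2.imp (fun h => ⟨h, fun z hz => ?_⟩) fun h => ⟨h.2, fun z hz => ?_⟩⟩
  · by_cases hp : z ∈ Function.periodicPts fun x => (f.map (algebraMap K Qbar)).eval x
    · exact fin_pow h0 hd h hp
    · rcases (key z hz hp).2.2.2 with k | k
      · exact Or.inr (k.2 z rfl)
      · exact (fin_excl h0 hd h k.2.1).elim
  · by_cases hp : z ∈ Function.periodicPts fun x => (f.map (algebraMap K Qbar)).eval x
    · exact fin_ch h0 hd h.2 hp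
    · rcases (key z hz hp).2.2.2 with k | k
      · exact (fin_excl h0 hd k.1 h.2).elim
      · exact k.2.2 z rfl

end Pool.Agent.P.MP_8d2e9f_nt.AO
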