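import Pool.Agent.P.MP_8d2e9f_nt.AO.Iface

/-! Step ABG. -/

set_option autoImplicit false

namespace Pool.Agent.P.MP_8d2e9f_nt.AO

open Polynomial NumberField Pool.Agent.P.MP_8d2e9f_nt.G
open scoped IntermediateField

theorem abg_adj {K : IF} {S : Set Qbar} (hS : ∀ z ∈ S, Ab K z) :
    ∀ x ∈ IntermediateField.adjoin K S, Ab K x := by
  intro x hx σ ρ
  induction hx using IntermediateField.adjoin_induction with
  | mem z hz => exact hS z hz σ ρ
  | algebraMap c => simp only [AlgEquiv.commutes]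
  | add a b _ _ ha hb => simp only [map_add, ha, hb]
  | inv a _ ha => simp only [map_inv₀, ha]
  | mul a b _ _ ha hb => simp only [map_mul, ha, hb]

theorem abg_top (K : IF) : IsGalois K Qbar := IsGalois.tower_top_of_isGalois ℚ K Qbar

theorem abg_stab {K : IF} {M : IntermediateField K Qbar} (hM : ∀ x ∈ M, Ab K x) (σ : GK K)
    {x : Qbar} (hx : x ∈ M) : σ x ∈ M := by
  have := abg_top K
  rw [← InfiniteGalois.fixedField_fixingSubgroup M, IntermediateField.mem_fixedField_iff]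
  intro ρ hρ
  rw [hM x hx ρ σ, (IntermediateField.mem_fixingSubgroup_iff M ρ).1 hρ x hx]

theorem abg_abel {K : IF} {M : IntermediateField K Qbar} (hM : ∀ x ∈ M, Ab K x) :
    IsAbelianGalois K M := by
  have := abg_top K
  have hn : Normal K M := IntermediateField.normal_iff_forall_map_le'.2 fun σ => by
    rintro _ ⟨x, hx, rfl⟩
    exact abg_stab hM σ hx
  have hg : IsGalois K M := {}
  have hc : IsMulCommutative (M ≃ₐ[K] M) := ⟨⟨fun s t => by
    obtain ⟨σ, rfl⟩ := AlgEquiv.restrictNormalHom_surjective (F := K) (K₁ := M) Qbar s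
    obtain ⟨ρ, rfl⟩ := AlgEquiv.restrictNormalHom_surjective (F := K) (K₁ := M) Qbar t
    rw [← map_mul, ← map_mul]
    ext x
    have h1 := AlgEquiv.restrictNormal_commutes (σ * ρ) M x
    have h2 := AlgEquiv.restrictNormal_commutes (ρ * σ) M x
    exact h1.trans ((hM x x.2 σ ρ).trans h2.symm)⟩⟩
  exact {}

theorem p_ABG :
    S_ABG := by
  intro K
  refine ⟨fun z hz => ?_, fun a b ha hb => ?_, fun K' hK z hz σ ρ => ?_, fun L hL z hz => ?_,
    fun ζ hζ σ ρ => ?_, fun a ha σ ρ => ?_⟩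
  · have h : ∀ x ∈ K⟮z⟯, Ab K x := abg_adj (by rintro _ rfl; exact hz)
    exact ⟨(abg_abel h).toIsGalois, h, fun σ =>
      abg_stab h σ (IntermediateField.mem_adjoin_simple_self K z)⟩
  · have h : ∀ x ∈ K⟮a, b⟯, Ab K x := abg_adj (by rintro _ (rfl | rfl) <;> assumption)
    exact ⟨abg_abel h, h⟩
  · exact hz (AlgEquiv.ofRingEquiv (f := σ.toRingEquiv) fun c => σ.commutes ⟨c, hK c.2⟩)
      (AlgEquiv.ofRingEquiv (f := ρ.toRingEquiv) fun c => ρ.commutes ⟨c, hK c.2⟩)
  · have key : ∀ (σ : GK K) (x : L), σ x = ((σ.restrictNormal L x : L) : Qbar) :=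
      fun σ x => (AlgEquiv.restrictNormal_commutes σ L x).symm
    refine ⟨fun σ ρ => ?_, fun σ => ?_⟩
    · have e := congrArg (fun t : L ≃ₐ[K] L => ((t ⟨z, hz⟩ : L) : Qbar))
        (mul_comm' (σ.restrictNormal L) (ρ.restrictNormal L))
      simp only [AlgEquiv.mul_apply, ← key] at e
      exact e
    · rw [key σ ⟨z, hz⟩]
      exact Subtype.property _
  · have hp := IsPrimitiveRoot.orderOf ζ
    have : NeZero (orderOf ζ) := ⟨hζ.orderOf_pos.ne'⟩
    have key : ∀ σ : GK K, ∃ i, ζ ^ i = σ ζ := fun σ => by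
      obtain ⟨i, -, hi⟩ := hp.eq_pow_of_pow_eq_one (ξ := σ ζ)
        (by rw [← map_pow, pow_orderOf_eq_one, map_one])
      exact ⟨i, hi⟩
    obtain ⟨i, hi⟩ := key σ
    obtain ⟨j, hj⟩ := key ρ
    rw [← hj, map_pow, ← hi, map_pow, ← hj, ← pow_mul, ← pow_mul, mul_comm]
  · have key : ∀ σ : GK K, σ a = a ∨ σ a = -a := fun σ =>
      sq_eq_sq_iff_eq_or_eq_neg.1 (by rw [← map_pow]; exact σ.commutes ⟨_, ha⟩)
    rcases key σ with h | h <;> rcases key ρ with h' | h' <;> simp [h, h']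

end Pool.Agent.P.MP_8d2e9f_nt.AO
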