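import Pool.Agent.P.MP_8d2e9f_nt.AO.Iface

/-! Step AUX1. -/

set_option autoImplicit false

namespace Pool.Agent.P.MP_8d2e9f_nt.AO

open Polynomial NumberField Pool.Agent.P.MP_8d2e9f_nt.G
open scoped IntermediateField

lemma aux1_eval {p : ℕ} [Fact p.Prime] (P : ℤ_[p][X]) {x : Om p} (hx : ‖x‖ ≤ 1) {c : ℝ}
    (hc : 0 ≤ c) (h : ∀ i, ‖P.coeff i‖ ≤ c) : ‖eval₂ (zo p) x P‖ ≤ c := by
  rw [eval₂_eq_sum_range]
  refine IsUltrametricDist.norm_sum_le_of_forall_le_of_nonneg hc fun i _ => ?_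
  rw [norm_mul, norm_pow, zo_apply, norm_algebraMap']
  exact (mul_le_of_le_one_right (norm_nonneg _) (pow_le_one₀ (norm_nonneg _) hx)).trans (h i)

lemma aux1_lift {p : ℕ} [Fact p.Prime] (P : ℚ_[p][X]) (h : ∀ l, ‖P.coeff l‖ ≤ 1) :
    ∃ P₀ : ℤ_[p][X], P₀.map (zq p) = P :=
  (mem_lifts P).1 ((lifts_iff_coeff_lifts P).2 fun l => ⟨⟨_, h l⟩, rfl⟩)

lemma aux1_ne {K : Type} [Field K] [CharZero K] {n : ℕ} (b : Fin n → K[X])
    (hb : ∀ i, b i ≠ 0 ∧ (b i).natDegree = i) {a : Fin n → ℤ} (ha : a ≠ 0) :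
    ∑ s, C (a s : K) * b s ≠ 0 := fun e => by
  obtain ⟨s₁, h₁⟩ := Function.ne_iff.1 ha
  obtain ⟨s, hs, hm⟩ := Finset.exists_max_image (Finset.univ.filter fun s => a s ≠ 0) id
    ⟨s₁, by simpa using h₁⟩
  have h := congrArg (coeff · s) e
  simp only [finsetSum_coeff, coeff_C_mul, coeff_zero] at h
  rw [Finset.sum_eq_single s (fun t _ ht => ?_) (by simp)] at h
  · rw [← (hb s).2, coeff_natDegree] at h
    exact mul_ne_zero (Int.cast_ne_zero.2 (Finset.mem_filter.1 hs).2)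
      (leadingCoeff_ne_zero.2 (hb s).1) h
  · by_cases h0 : a t = 0
    · simp [h0]
    · have h2 : t < s := lt_of_le_of_ne (hm t (by simpa using h0)) ht
      rw [coeff_eq_zero_of_natDegree_lt (by rw [(hb t).2]; exact h2), mul_zero]

lemma aux1_orbit (K : IF) {B : Set Qbar} (hB : B.Finite) :
    {z | ∃ σ : GK K, σ z ∈ B}.Finite := by
  refine (hB.biUnion fun w _ => (minpoly K w).rootSet_finite Qbar).subset ?_
  rintro z ⟨σ, h⟩
  refine Set.mem_biUnion h ?_
  have hz : IsIntegral K z := (int_Q z).tower_top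
  rw [minpoly.algEquiv_eq, mem_rootSet]
  exact ⟨minpoly.ne_zero hz, minpoly.aeval K z⟩

theorem p_AUX1 (hNORM : S_NORM) (hPH : S_PH) (hNUM : S_NUM) (hBAS : S_BAS) :
    S_AUX1 := by
  intro K f Y p _ φ j δ G hK hd hY hj hf hz hδ hG hfin
  have hp : (1 : ℝ) < p := by exact_mod_cast (Fact.out : p.Prime).one_lt
  have hp0 : (0 : ℝ) ≤ (p : ℝ)⁻¹ := by positivity
  obtain ⟨H, hH, hb⟩ := hBAS K f Y hd hY
  obtain ⟨k, M, h1, h2⟩ := hNUM p f.natDegree (Module.finrank ℚ K) G.natDegree H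
    (max δ (p : ℝ)⁻¹) hd hH (hp0.trans (le_max_right _ _)) (max_lt hδ (inv_lt_one_of_one_lt₀ hp))
  obtain ⟨b, hb1, hb2, hb3⟩ := hb k
  choose b₀ hb₀ using fun s => aux1_lift ((b s).map φ) fun l => by
    rw [coeff_map]; exact hb2 p φ hf s l
  set G₀ : ℤ_[p][X] := G.map (Int.castRingHom ℤ_[p]) ^ M with hG₀
  have hm : G₀.Monic := (hG.map _).pow M
  have hdeg : G₀.natDegree = M * G.natDegree := by
    rw [hG₀, (hG.map _).natDegree_pow, hG.natDegree_map]
  have hn : 0 < f.natDegree ^ k := by positivity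
  obtain ⟨a, ha, ha1, ha2⟩ := hPH p (Fin (M * G.natDegree)) (Fin (f.natDegree ^ k))
    (fun s l => ((b₀ s %ₘ G₀).coeff l : ℚ_[p])) M (fun s l => PadicInt.norm_le_one _)
    (by simpa using hn) (by simpa using h1)
  have hA := aux1_ne b hb1 ha
  set A : K[X] := ∑ s, C (a s : K) * b s with hAd
  have hev : ∀ z : Qbar, aeval z A = ∑ s, (a s : Qbar) * aeval z (b s) := fun z => by
    simp [hAd]
  have hδ0 : 0 ≤ max δ (p : ℝ)⁻¹ ^ M := pow_nonneg (hp0.trans (le_max_right _ _)) M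
  have key : ∀ z ∈ Y, ‖aeval (j z) G‖ ≤ δ → ‖j (aeval z A)‖ ≤ max δ (p : ℝ)⁻¹ ^ M := by
    intro z hzY hzG
    have e1 : ∀ s, j (aeval z (b s)) = eval₂ (zo p) (j z) (b₀ s) := fun s => by
      rw [zo, ← eval₂_map, hb₀, eval₂_map, aeval_def, hom_eval₂]
      congr 1
      exact RingHom.ext hj
    have e2 : j (aeval z A) = eval₂ (zo p) (j z) (∑ s, C (a s : ℤ_[p]) * (b₀ s %ₘ G₀)) +
        aeval (j z) G ^ M * eval₂ (zo p) (j z) (∑ s, C (a s : ℤ_[p]) * (b₀ s /ₘ G₀)) := by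
      have e3 : eval₂ (zo p) (j z) G₀ = aeval (j z) G ^ M := by
        rw [hG₀, eval₂_pow, eval₂_map, aeval_def]
        congr 2
      rw [hev, map_sum, eval₂_finsetSum, eval₂_finsetSum, Finset.mul_sum, ← Finset.sum_add_distrib]
      refine Finset.sum_congr rfl fun s _ => ?_
      rw [map_mul, e1, ← e3]
      conv_lhs => rw [← modByMonic_add_div (b₀ s) G₀]
      simp only [eval₂_mul, eval₂_add, eval₂_C]
      simp only [map_intCast]
      ring
    rw [e2]
    refine (IsUltrametricDist.norm_add_le_max _ _).trans (max_le ?_ ?_)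
    · refine aux1_eval _ (hz z hzY) hδ0 fun i => ?_
      simp only [finsetSum_coeff, coeff_C_mul]
      rcases lt_or_ge i (M * G.natDegree) with h | h
      · refine le_trans ?_ ((ha2 ⟨i, h⟩).trans (pow_le_pow_left₀ hp0 (le_max_right _ _) M))
        rw [← PadicInt.padic_norm_e_of_padicInt, ← PadicInt.algebraMap_apply, map_sum]
        simp
      · rw [Finset.sum_eq_zero fun s _ => ?_, norm_zero]
        · exact hδ0
        · rw [coeff_eq_zero_of_degree_lt ((degree_modByMonic_lt _ hm).trans_le ?_), mul_zero]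
          rw [degree_eq_natDegree hm.ne_zero, hdeg]
          exact_mod_cast h
    · rw [norm_mul, norm_pow]
      exact (mul_le_of_le_one_right (by positivity) (aux1_eval _ (hz z hzY) zero_le_one fun i =>
        PadicInt.norm_le_one _)).trans (pow_le_pow_left₀ (norm_nonneg _)
          (hzG.trans (le_max_left _ _)) M)
  refine hY.inf ((((aux1_orbit K hfin).union hb3).union (A.rootSet_finite Qbar)).subset
    fun z hzY => ?_)
  by_contra hc
  simp only [Set.mem_union, Set.mem_ofPred_eq, not_or, not_exists, not_and, not_not] at hc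
  obtain ⟨⟨c1, c2⟩, c3⟩ := hc
  have hn1 : (1 : ℝ) ≤ (f.natDegree : ℝ) ^ k := by exact_mod_cast hn
  have hHk : (1 : ℝ) ≤ H ^ k := one_le_pow₀ hH
  refine c3 (mem_rootSet.2 ⟨hA, hNORM K p j _ _ (((f.natDegree : ℝ) ^ k) ^ 2 * p * H ^ k) hK ?_
    (one_le_mul_of_one_le_of_one_le (one_le_mul_of_one_le_of_one_le (one_le_pow₀ hn1) hp.le) hHk)
    (fun σ => ?_) (fun ψ => ?_) h2⟩)
  · rw [hev]
    refine IsIntegral.sum _ fun s _ => IsIntegral.mul (isIntegral_algebraMap (x := a s)) ?_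
    simpa using (c2 hzY s).1
  · rw [← aeval_algHom_apply]
    exact key _ (hY.gal σ z hzY) (c1 σ (hY.gal σ z hzY))
  · rw [hev, map_sum]
    refine (norm_sum_le _ _).trans ((Finset.sum_le_card_nsmul _ _ (p * H ^ k) fun s _ => ?_).trans ?_)
    · rw [map_mul, norm_mul, map_intCast, Complex.norm_intCast]
      exact mul_le_mul (by exact_mod_cast ha1 s) ((c2 hzY s).2 ψ) (norm_nonneg _) (by positivity)
    · simp only [Finset.card_univ, Fintype.card_fin, nsmul_eq_mul, Nat.cast_pow]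
      rw [mul_assoc]
      exact mul_le_mul_of_nonneg_right (by nlinarith) (by positivity)

end Pool.Agent.P.MP_8d2e9f_nt.AO
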