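import Pool.Agent.P.MP_8d2e9f_nt.AO.Iface

/-! Step AUX2. -/

set_option autoImplicit false

namespace Pool.Agent.P.MP_8d2e9f_nt.AO

open Polynomial NumberField Pool.Agent.P.MP_8d2e9f_nt.G
open scoped IntermediateField

lemma aux2_indep {R : Type} [CommRing R] [IsDomain R] {n : ℕ} (b : Fin n → R[X])
    (hb : ∀ i, b i ≠ 0 ∧ (b i).natDegree = i) (c : Fin n → R) (h : ∑ i, C (c i) * b i = 0) :
    ∀ i, c i = 0 := by
  classical
  by_contra hne
  push Not at hne
  obtain ⟨i, hi, hmax⟩ := Finset.exists_max_image (Finset.univ.filter fun i => c i ≠ 0) id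
    (by obtain ⟨i, hi⟩ := hne; exact ⟨i, by simpa using hi⟩)
  have h1 := congrArg (fun g => g.coeff i) h
  simp only [finsetSum_coeff, coeff_C_mul, coeff_zero] at h1
  rw [Finset.sum_eq_single i (fun k _ hk => ?_) (by simp)] at h1
  · rw [← (hb i).2] at h1
    exact mul_ne_zero (by simpa using hi) (leadingCoeff_ne_zero.mpr (hb i).1) h1
  · by_cases hc : c k = 0
    · rw [hc, zero_mul]
    · have h2 : k ≤ i := hmax k (by simpa using hc)
      have h3 : (k : ℕ) < i := lt_of_le_of_ne h2 fun e => hk (Fin.ext e)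
      rw [coeff_eq_zero_of_natDegree_lt (by rw [(hb k).2]; exact h3), mul_zero]

lemma aux2_hasse {R S : Type} [CommRing R] [CommRing S] (ψ : R →+* S) (k : ℕ) (g : R[X]) :
    hasseDeriv k (g.map ψ) = (hasseDeriv k g).map ψ := by
  ext n
  simp [hasseDeriv_coeff]

lemma aux2_int {K : Type} [Field K] {p : ℕ} [Fact p.Prime] (φ : K →+* ℚ_[p]) {g h : K[X]}
    (hg : ∀ l, ‖φ (g.coeff l)‖ ≤ 1) (hh : ∀ l, ‖φ (h.coeff l)‖ ≤ 1) (k q l : ℕ) :
    ‖φ ((g * (hasseDeriv k h).comp (X ^ q)).coeff l)‖ ≤ 1 := by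
  let O : Subring K := (PadicInt.subring p).comap φ
  have key : ∀ u : K[X], (∀ l, ‖φ (u.coeff l)‖ ≤ 1) → ∃ u₀ : O[X], u₀.map O.subtype = u :=
    fun u hu => (mem_lifts u).mp ((lifts_iff_coeff_lifts u).mpr fun l => ⟨⟨_, hu l⟩, rfl⟩)
  obtain ⟨g₀, rfl⟩ := key g hg
  obtain ⟨h₀, rfl⟩ := key h hh
  have : g₀.map O.subtype * (hasseDeriv k (h₀.map O.subtype)).comp (X ^ q) =
      (g₀ * (hasseDeriv k h₀).comp (X ^ q)).map O.subtype := by
    rw [Polynomial.map_mul, map_comp, aux2_hasse, Polynomial.map_pow, map_X]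
  rw [this, coeff_map]
  exact ((g₀ * (hasseDeriv k h₀).comp (X ^ q)).coeff l).2

lemma aux2_taylor {F : Type} [CommRing F] (B : F[X]) {n : ℕ} (hn : B.natDegree < n) (r w : F) :
    B.eval w = ∑ κ ∈ Finset.range n, (hasseDeriv κ B).eval r * (w - r) ^ κ := by
  rw [← taylor_eval_sub r B w, eval_eq_sum_range' (n := n) (by rwa [natDegree_taylor])]
  simp only [taylor_coeff]

lemma aux2_small {K : Type} [Field K] {p : ℕ} [Fact p.Prime] (φ : K →+* ℚ_[p]) {J : Type}
    [Fintype J] (g : J → K[X]) (a : J → ℤ) {N : ℕ} (hN : ∀ s, (g s).natDegree < N) {ε : ℝ}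
    (hε : 0 ≤ ε) (h : ∀ l < N, ‖∑ s, (a s : ℚ_[p]) * φ ((g s).coeff l)‖ ≤ ε) {u : Om p}
    (hu : ‖u‖ ≤ 1) :
    ‖∑ s, (a s : Om p) * ((g s).map ((algebraMap ℚ_[p] (Om p)).comp φ)).eval u‖ ≤ ε := by
  have e : ∑ s, (a s : Om p) * ((g s).map ((algebraMap ℚ_[p] (Om p)).comp φ)).eval u =
      ∑ l ∈ Finset.range N,
        algebraMap ℚ_[p] (Om p) (∑ s, (a s : ℚ_[p]) * φ ((g s).coeff l)) * u ^ l := by
    simp only [map_sum, Finset.sum_mul]
    rw [Finset.sum_comm]
    refine Finset.sum_congr rfl fun s _ => ?_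
    rw [eval_eq_sum_range' (n := N) (natDegree_map_le.trans_lt (hN s)), Finset.mul_sum]
    refine Finset.sum_congr rfl fun l _ => ?_
    simp [mul_assoc]
  rw [e]
  refine IsUltrametricDist.norm_sum_le_of_forall_le_of_nonneg hε fun l hl => ?_
  rw [norm_mul, norm_algebraMap', norm_pow]
  exact (mul_le_of_le_one_right (norm_nonneg _) (pow_le_one₀ (norm_nonneg _) hu)).trans
    (h l (Finset.mem_range.mp hl))

theorem p_AUX2 (hNORM : S_NORM) (hPH : S_PH) (hNUM : S_NUM) (hBAS : S_BAS) :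
    S_AUX2 := by
  classical
  intro K f Y p _ φ j δ q P hK hd hY hj hf hY1 hδ hP hFib hσ hq
  have hp : p.Prime := Fact.out
  have hp1 : (1 : ℝ) < p := by exact_mod_cast hp.one_lt
  have hpi : (0 : ℝ) ≤ (p : ℝ)⁻¹ := by positivity
  obtain ⟨ε, hε⟩ : ∃ ε, ε = max δ (p : ℝ)⁻¹ := ⟨_, rfl⟩
  have e0 : 0 ≤ ε := hε ▸ le_max_of_le_right hpi
  have e1 : ε < 1 := hε ▸ max_lt hδ (inv_lt_one_of_one_lt₀ hp1)
  have e2 : δ ≤ ε := hε ▸ le_max_left _ _
  have e3 : (p : ℝ)⁻¹ ≤ ε := hε ▸ le_max_right _ _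
  obtain ⟨H, hH, hb⟩ := hBAS K f Y hd hY
  obtain ⟨k, M, hM, hlt⟩ := hNUM p f.natDegree (Module.finrank ℚ K) (q + 1) (H ^ 2) ε hd
    (one_le_pow₀ hH) e0 e1
  obtain ⟨b, hb1, hb2, hb3⟩ := hb k
  rw [← Nat.cast_pow] at hlt
  have hn0 : 0 < f.natDegree ^ k := pow_pos (by omega) k
  generalize f.natDegree ^ k = n at b hb1 hb2 hb3 hM hlt hn0
  let g : ℕ → Fin n × Fin n → K[X] := fun κ s => b s.1 * (hasseDeriv κ (b s.2)).comp (X ^ q)
  have hg1 : ∀ κ s l, ‖φ ((g κ s).coeff l)‖ ≤ 1 := fun κ s l =>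
    aux2_int φ (hb2 p φ hf s.1) (hb2 p φ hf s.2) κ q l
  have hg2 : ∀ κ s, (g κ s).natDegree < (q + 1) * n := fun κ s => by
    have h1 : (g κ s).natDegree ≤ (b s.1).natDegree + (hasseDeriv κ (b s.2)).natDegree * q :=
      natDegree_mul_le.trans (Nat.add_le_add_left (natDegree_comp_le.trans (by
        rw [natDegree_X_pow])) _)
    have h2 : (hasseDeriv κ (b s.2)).natDegree ≤ n :=
      (natDegree_hasseDeriv_le _ _).trans (by rw [(hb1 s.2).2]; have := s.2.2; omega)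
    have h3 := Nat.mul_le_mul_right q h2
    have h4 := s.1.2
    rw [(hb1 s.1).2] at h1
    nlinarith
  obtain ⟨a, ha0, ha1, ha2⟩ := hPH p (Fin M × Fin ((q + 1) * n)) (Fin n × Fin n)
    (fun s i => φ ((g i.1 s).coeff i.2)) M (fun s i => hg1 _ _ _) (by simpa using hn0.ne') (by
      simp only [Fintype.card_prod, Fintype.card_fin]
      calc M * (M * ((q + 1) * n)) = M * (M * (q + 1)) * n := by ring
        _ ≤ n * n := Nat.mul_le_mul_right n hM)
  let A : K[X][X] := ∑ t, C (∑ s, C (a (s, t) : K) * b s) * (b t).map C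
  have hA : ∀ x y : Qbar, aevalAeval x y A =
      ∑ s : Fin n × Fin n, (a s : Qbar) * (aeval x (b s.1) * aeval y (b s.2)) := fun x y => by
    have h1 : ∀ u : K[X], aevalAeval x y (u.map C) = aeval y u := fun u => by
      induction u using Polynomial.induction_on' with
      | add u v hu hv => simp only [Polynomial.map_add, map_add, hu, hv]
      | monomial m c => simp [← C_mul_X_pow_eq_monomial]
    rw [Fintype.sum_prod_type_right]
    simp only [A, map_sum, map_mul, aevalAeval_C, h1, Finset.sum_mul, map_intCast,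
      mul_assoc]
  refine ⟨A, fun h0 => ha0 (funext fun s => ?_), ?_⟩
  · have h1 : ∑ r, C (a (r, s.2) : K) * b r = 0 :=
      aux2_indep (fun t => (b t).map C) (fun t => ⟨(Polynomial.map_ne_zero_iff
        C_injective).mpr (hb1 t).1, by rw [natDegree_map_eq_of_injective C_injective, (hb1 t).2]⟩)
        (fun t => ∑ r, C (a (r, t) : K) * b r) h0 s.2
    have h2 : (a (s.1, s.2) : K) = 0 := aux2_indep b hb1 (fun r => (a (r, s.2) : K)) h1 s.1
    exact Int.cast_eq_zero.mp h2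
  have hsmall : ∀ x ∈ P, ‖j (aevalAeval x.1 x.2 A)‖ ≤ ε ^ M := by
    intro x hx
    let ψ : K →+* Om p := (algebraMap ℚ_[p] (Om p)).comp φ
    have hψ : ∀ (z : Qbar) (u : K[X]), j (aeval z u) = (u.map ψ).eval (j z) := fun z u => by
      rw [aeval_def, hom_eval₂, eval_map]
      congr 1
      ext c
      exact hj c
    have hu := hY1 _ (hP hx).1
    have hw := (hq x hx).trans e2
    have e : j (aevalAeval x.1 x.2 A) = ∑ κ ∈ Finset.range n,
        (∑ s, (a s : Om p) * ((g κ s).map ψ).eval (j x.1)) * (j x.2 - j x.1 ^ q) ^ κ := by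
      rw [hA, map_sum]
      simp only [Finset.sum_mul]
      rw [Finset.sum_comm]
      refine Finset.sum_congr rfl fun s _ => ?_
      rw [map_mul, map_mul, map_intCast, hψ, hψ, aux2_taylor ((b s.2).map ψ) (n := n)
        (natDegree_map_le.trans_lt (by rw [(hb1 s.2).2]; exact s.2.2)) (j x.1 ^ q) (j x.2),
        Finset.mul_sum, Finset.mul_sum]
      refine Finset.sum_congr rfl fun κ _ => ?_
      simp only [g, Polynomial.map_mul, map_comp, eval_mul, eval_comp, aux2_hasse,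
        Polynomial.map_pow, map_X, eval_pow, eval_X]
      ring
    rw [e]
    refine IsUltrametricDist.norm_sum_le_of_forall_le_of_nonneg (pow_nonneg e0 M) fun κ _ => ?_
    rw [norm_mul, norm_pow]
    have hpw : ‖j x.2 - j x.1 ^ q‖ ^ κ ≤ ε ^ κ := pow_le_pow_left₀ (norm_nonneg _) hw κ
    by_cases hκ : κ < M
    · have h1 := aux2_small φ (g κ) a (hg2 κ) (pow_nonneg hpi M)
        (fun l hl => ha2 (⟨κ, hκ⟩, ⟨l, hl⟩)) hu
      exact (mul_le_of_le_one_right (norm_nonneg _) (hpw.trans (pow_le_one₀ e0 e1.le))).trans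
        (h1.trans (pow_le_pow_left₀ hpi e3 M))
    · have h1 := aux2_small φ (g κ) a (hg2 κ) zero_le_one (fun l _ =>
        IsUltrametricDist.norm_sum_le_of_forall_le_of_nonneg zero_le_one fun s _ => by
          rw [norm_mul]
          exact mul_le_one₀ (Padic.norm_int_le_one _) (norm_nonneg _) (hg1 _ _ _)) hu
      exact (mul_le_of_le_one_left (by positivity) h1).trans
        (hpw.trans (pow_le_pow_of_le_one e0 e1.le (not_lt.mp hκ)))
  have hfin : ((⋃ z ∈ {z ∈ Y | ¬ ∀ i, Bd 1 (H ^ k) (aeval z (b i))},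
      (fun w => (z, w)) '' {w | (z, w) ∈ P}) ∪ ⋃ w ∈ {z ∈ Y | ¬ ∀ i, Bd 1 (H ^ k) (aeval z (b i))},
      (fun z => (z, w)) '' {z | (z, w) ∈ P}).Finite :=
    (hb3.biUnion fun z _ => (hFib.1 z).image _).union (hb3.biUnion fun w _ => (hFib.2 w).image _)
  refine hfin.subset ?_
  rintro ⟨z, w⟩ ⟨hx, hne⟩
  by_contra hnot
  simp only [Set.mem_union, Set.mem_iUnion, not_or, not_exists] at hnot
  have hz : ∀ i, Bd 1 (H ^ k) (aeval z (b i)) := by
    by_contra h
    exact hnot.1 z ⟨(hP hx).1, h⟩ ⟨w, hx, rfl⟩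
  have hw : ∀ i, Bd 1 (H ^ k) (aeval w (b i)) := by
    by_contra h
    exact hnot.2 w ⟨(hP hx).2, h⟩ ⟨z, hx, rfl⟩
  have hn1 : (1 : ℝ) ≤ n := by exact_mod_cast hn0
  have hHk : 0 ≤ H ^ k := by positivity
  refine hne (hNORM K p j _ (ε ^ M) ((n : ℝ) ^ 2 * p * (H ^ 2) ^ k) hK ?_ ?_ (fun σ => ?_)
    (fun ψ => ?_) hlt)
  · rw [hA]
    refine IsIntegral.sum _ fun s _ => (isIntegral_intCast _).mul (IsIntegral.mul ?_ ?_)
    · simpa using (hz s.1).1
    · simpa using (hw s.2).1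
  · exact one_le_mul_of_one_le_of_one_le
      (one_le_mul_of_one_le_of_one_le (one_le_pow₀ hn1) hp1.le) (one_le_pow₀ (one_le_pow₀ hH))
  · have h1 := hsmall _ (hσ σ _ hx)
    have h2 : σ (aevalAeval z w A) = aevalAeval (σ z) (σ w) A := by
      rw [hA, hA, map_sum]
      simp only [map_mul, map_intCast, aeval_algHom_apply]
    rwa [h2]
  · rw [hA, map_sum]
    refine (norm_sum_le _ _).trans ((Finset.sum_le_card_nsmul _ _ (p * (H ^ 2) ^ k)
      fun s _ => ?_).trans_eq ?_)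
    · rw [map_mul, map_mul, map_intCast, norm_mul, norm_mul, Complex.norm_intCast,
        show (H ^ 2) ^ k = H ^ k * H ^ k by ring]
      refine mul_le_mul (by exact_mod_cast ha1 s)
        (mul_le_mul ((hz s.1).2 ψ) ((hw s.2).2 ψ) (norm_nonneg _) hHk) (by positivity)
        (by positivity)
    · simp only [Finset.card_univ, Fintype.card_prod, Fintype.card_fin, nsmul_eq_mul]
      push_cast
      ring

end Pool.Agent.P.MP_8d2e9f_nt.AO
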