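import Pool.Agent.P.MP_8d2e9f_nt.AO.Iface

/-! Step BAS. -/

set_option autoImplicit false

namespace Pool.Agent.P.MP_8d2e9f_nt.AO

open Polynomial NumberField Pool.Agent.P.MP_8d2e9f_nt.G
open scoped IntermediateField

/-- The polynomials given by the digits of `i` in base the degree of `f`. -/
noncomputable def bas_b {k : Type} [Field k] (f : k[X]) (N : k) : ℕ → ℕ → k[X]
  | 0, _ => 1
  | n + 1, i => (C N * X) ^ (i % f.natDegree) * (bas_b f N n (i / f.natDegree)).comp f

theorem bas_div {d n i : ℕ} (hi : i < d ^ (n + 1)) : i / d < d ^ n :=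
  Nat.div_lt_of_lt_mul (by rwa [pow_succ'] at hi)

theorem bas_deg {k : Type} [Field k] (f : k[X]) (N : k) (hN : N ≠ 0) (hd : 0 < f.natDegree)
    (n : ℕ) : ∀ i < f.natDegree ^ n, bas_b f N n i ≠ 0 ∧ (bas_b f N n i).natDegree = i := by
  induction n with
  | zero =>
    intro i hi
    have : i = 0 := by simpa using hi
    simp [bas_b, this]
  | succ n ih =>
    intro i hi
    obtain ⟨h1, h2⟩ := ih _ (bas_div hi)
    have h3 : (C N * X : k[X]) ≠ 0 := mul_ne_zero (C_ne_zero.2 hN) X_ne_zero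
    have h4 : (bas_b f N n (i / f.natDegree)).comp f ≠ 0 := by
      intro h
      rcases comp_eq_zero_iff.1 h with h | ⟨-, h⟩
      · exact h1 h
      · rw [h, natDegree_C] at hd
        exact hd.ne rfl
    refine ⟨mul_ne_zero (pow_ne_zero _ h3) h4, ?_⟩
    rw [bas_b, natDegree_mul (pow_ne_zero _ h3) h4, natDegree_pow, natDegree_C_mul_X _ hN,
      natDegree_comp, h2, mul_one]
    exact Nat.mod_add_div' _ _

theorem bas_lift {p : ℕ} [Fact p.Prime] (g : ℚ_[p][X]) :
    (∃ g₀ : ℤ_[p][X], g₀.map (zq p) = g) ↔ ∀ l, ‖g.coeff l‖ ≤ 1 := by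
  rw [← mem_lifts, lifts_iff_coeff_lifts]
  refine forall_congr' fun l => ⟨?_, fun h => ⟨⟨_, h⟩, rfl⟩⟩
  rintro ⟨x, hx⟩
  rw [← hx]
  exact x.2

theorem bas_int {k : Type} [Field k] (f : k[X]) (N : ℕ) {p : ℕ} [Fact p.Prime] (φ : k →+* ℚ_[p])
    (f₀ : ℤ_[p][X]) (hf : f₀.map (zq p) = f.map φ) (n : ℕ) :
    ∀ i, ∃ g₀ : ℤ_[p][X], g₀.map (zq p) = (bas_b f N n i).map φ := by
  induction n with
  | zero => exact fun i => ⟨1, by simp [bas_b]⟩
  | succ n ih =>
    intro i
    obtain ⟨g₀, hg⟩ := ih (i / f.natDegree)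
    refine ⟨(C (N : ℤ_[p]) * X) ^ (i % f.natDegree) * g₀.comp f₀, ?_⟩
    simp [bas_b, map_comp, hg, hf]

theorem bas_fib {K : IF} (f : K[X]) (hd : 0 < f.natDegree) (y : Qbar) :
    ((fun z : Qbar => aeval z f) ⁻¹' {y}).Finite := by
  have h : f.map (algebraMap K Qbar) - C y ≠ 0 := by
    intro h
    have := congrArg natDegree (sub_eq_zero.1 h)
    rw [natDegree_map, natDegree_C] at this
    omega
  refine (finite_setOf_isRoot h).subset fun z hz => ?_
  have hz' : aeval z f = y := hz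
  simp [eval_map_algebraMap, hz']

theorem p_BAS :
    S_BAS := by
  intro K f Y hd hY
  obtain ⟨N, H, hN, hb⟩ := hY.bdd
  have hd0 : 0 < f.natDegree := by omega
  have m1 : (1 : ℝ) ≤ max 1 (N * H) := le_max_left _ _
  refine ⟨max 1 (N * H) ^ f.natDegree, one_le_pow₀ m1, fun k =>
    ⟨fun i => bas_b f N k i, fun i => bas_deg f N (Nat.cast_ne_zero.2 hN.ne') hd0 k i i.2,
      fun p _ φ hφ i l => ?_, ?_⟩⟩
  · obtain ⟨f₀, hf⟩ := (bas_lift (f.map φ)).2 fun l => by simpa using hφ l
    simpa using (bas_lift _).1 (bas_int f N φ f₀ hf k i) l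
  · have key : {z ∈ Y | ¬ ∀ i, Bd 1 ((max 1 (N * H) ^ f.natDegree) ^ k)
        (aeval z (bas_b f (N : K) k i))}.Finite := by
      induction k with
      | zero =>
        refine Set.finite_empty.subset fun z hz => hz.2 fun i => ⟨?_, fun ψ => ?_⟩
        · simpa [bas_b] using isIntegral_one
        · simp [bas_b]
      | succ k ih =>
        refine (hY.fwd.union (ih.preimage' fun y _ => bas_fib f hd0 y)).subset fun z hz => ?_
        by_contra hc
        simp only [Set.mem_union, Set.mem_setOf_eq, Set.mem_preimage, not_or, not_and,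
          not_not] at hc
        refine hz.2 fun i => ?_
        obtain ⟨h1, h2⟩ := hc.2 (hc.1 hz.1) (i / f.natDegree)
        obtain ⟨h3, h4⟩ := hb z hz.1
        have e : aeval z (bas_b f (N : K) (k + 1) i) = ((N : Qbar) * z) ^ (i % f.natDegree) *
            aeval (aeval z f) (bas_b f (N : K) k (i / f.natDegree)) := by
          simp [bas_b, aeval_comp]
        rw [e]
        rw [Nat.cast_one, one_mul] at h1
        refine ⟨by rw [Nat.cast_one, one_mul]; exact (h3.pow _).mul h1, fun ψ => ?_⟩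
        have h5 : ‖ψ ((N : Qbar) * z)‖ ≤ max 1 (N * H) := by
          rw [map_mul, map_natCast, norm_mul, Complex.norm_natCast]
          exact (mul_le_mul_of_nonneg_left (h4 ψ) N.cast_nonneg).trans (le_max_right _ _)
        rw [map_mul, map_pow, norm_mul, norm_pow, pow_succ']
        exact mul_le_mul ((pow_le_pow_left₀ (norm_nonneg _) h5 _).trans
          (pow_le_pow_right₀ m1 (Nat.mod_lt _ hd0).le)) (h2 ψ) (norm_nonneg _) (by positivity)
    exact key.subset fun z hz => ⟨hz.1, fun h => hz.2 fun i => h i⟩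

end Pool.Agent.P.MP_8d2e9f_nt.AO
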