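import Pool.Agent.P.MP_8d2e9f_nt.AO.Iface

/-! Step BASE. -/

set_option autoImplicit false

namespace Pool.Agent.P.MP_8d2e9f_nt.AO

open Polynomial NumberField Pool.Agent.P.MP_8d2e9f_nt.G
open scoped IntermediateField

theorem base_fix {K : IF} (σ : GK K) {c : Qbar} (hc : c ∈ K) : σ c = c := σ.commutes ⟨c, hc⟩

theorem base_mem {K : IF} {c : Qbar} (hc : c ∈ K) : Ab K c := fun σ ρ => by
  rw [base_fix ρ hc, base_fix σ hc, base_fix ρ hc]

theorem base_div {K : IF} {x y z : Qbar} (hx : Ab K x) (hy : Ab K y) (hz : Ab K z) :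
    Ab K ((x - y) / z) := fun σ ρ => by
  simp only [map_div₀, map_sub, hx σ ρ, hy σ ρ, hz σ ρ]

theorem base_field (K : IF) (hK : Fd K) (a c : Qbar) :
    ∃ K' : IF, Fd K' ∧ K ≤ K' ∧ a ∈ K' ∧ c ∈ K' := by
  have : FiniteDimensional ℚ ℚ⟮a, c⟯ :=
    IntermediateField.finiteDimensional_adjoin_pair (int_Q a) (int_Q c)
  refine ⟨K ⊔ ℚ⟮a, c⟯, inferInstance, le_sup_left, ?_, ?_⟩
  · exact (le_sup_right : ℚ⟮a, c⟯ ≤ _) (IntermediateField.subset_adjoin _ _ (by simp))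
  · exact (le_sup_right : ℚ⟮a, c⟯ ≤ _) (IntermediateField.subset_adjoin _ _ (by simp))

theorem base_conj {f g : Qbar[X]} {a b : Qbar} (ha : a ≠ 0) (h : LinConj f a b g) {x y : Qbar}
    (hx : f.eval x = y) : g.eval ((x - b) / a) = (y - b) / a := by
  have h1 := congrArg (eval ((x - b) / a)) h
  simp only [eval_comp, eval_add, eval_mul, eval_C, eval_X] at h1
  rw [mul_div_cancel₀ _ ha, sub_add_cancel, hx] at h1
  rw [h1, add_sub_cancel_right, mul_div_cancel_left₀ _ ha]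

theorem base_root (u : Qbar) : ∃ t : Qbar, t ≠ 0 ∧ t + t⁻¹ = u := by
  obtain ⟨s, hs⟩ := IsAlgClosed.exists_pow_nat_eq (u ^ 2 - 4) two_pos
  have h : (u + s) / 2 * ((u - s) / 2) = 1 := by linear_combination (-1 / 4 : Qbar) * hs
  refine ⟨(u + s) / 2, left_ne_zero_of_mul_eq_one h, ?_⟩
  rw [← eq_inv_of_mul_eq_one_right h]
  ring

theorem base_pm {s t : Qbar} (hs : s ≠ 0) (ht : t ≠ 0) (h : s + s⁻¹ = t + t⁻¹) :
    s = t ∨ s * t = 1 := by
  have h1 : (s - t) * (s * t - 1) = 0 := by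
    field_simp at h
    linear_combination h
  rcases mul_eq_zero.1 h1 with h2 | h2
  · exact Or.inl (sub_eq_zero.1 h2)
  · exact Or.inr (sub_eq_zero.1 h2)

theorem base_step {d : ℕ} {ε u s : Qbar} (hε : ε * ε = 1) (hs : s ≠ 0)
    (h : ε * (Chebyshev.C Qbar d).eval u = s + s⁻¹) :
    ∃ t : Qbar, t ≠ 0 ∧ t + t⁻¹ = u ∧ (t ^ 2) ^ d = s ^ 2 := by
  obtain ⟨t, ht, rfl⟩ := base_root u
  have hε0 : ε ≠ 0 := left_ne_zero_of_mul_eq_one hε
  rw [← dickson_one_one_eq_chebyshev_C,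
    dickson_one_one_eval_add_inv t t⁻¹ (mul_inv_cancel₀ ht)] at h
  have h1 : ε * t ^ d + (ε * t ^ d)⁻¹ = s + s⁻¹ := by
    rw [← h, mul_inv, ← eq_inv_of_mul_eq_one_right hε, inv_pow, mul_add]
  have h2 : (ε * t ^ d) ^ 2 = (t ^ 2) ^ d := by
    rw [mul_pow, sq ε, hε, one_mul, ← pow_mul, ← pow_mul, mul_comm]
  rcases base_pm (mul_ne_zero hε0 (pow_ne_zero _ ht)) hs h1 with h3 | h3
  · exact ⟨t, ht, rfl, by rw [← h2, h3]⟩
  · refine ⟨t⁻¹, inv_ne_zero ht, by rw [inv_inv, add_comm], ?_⟩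
    rw [inv_pow, inv_pow, ← h2, ← inv_pow, ← eq_inv_of_mul_eq_one_right h3]

theorem base_cheb (hABG : S_ABG) (hKUM : S_KUM) {K : IF} (hK : Fd K) {d : ℕ} (hd : 2 ≤ d)
    {ε a b : Qbar} (hε : ε * ε = 1) (hb : b ∈ K) {y : ℕ → Qbar} (hy : ∀ n, Ab K (y n))
    (h : ∀ n, ε * (Chebyshev.C Qbar d).eval ((y (n + 1) - b) / a) = (y n - b) / a) (n : ℕ) :
    ∃ ζ : Qbar, IsOfFinOrder ζ ∧ ζ + ζ⁻¹ = (y n - b) / a := by
  obtain ⟨t₀, h0, e0⟩ := base_root ((y 0 - b) / a)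
  have ex : ∀ n, ∃ s : Qbar, s ≠ 0 ∧ s + s⁻¹ = (y n - b) / a ∧ (s ^ 2) ^ d ^ n = t₀ ^ 2 := by
    intro n
    induction n with
    | zero => exact ⟨t₀, h0, e0, by simp⟩
    | succ n ih =>
      obtain ⟨s, h1, h2, h3⟩ := ih
      obtain ⟨t, k1, k2, k3⟩ := base_step hε h1 ((h n).trans h2.symm)
      exact ⟨t, k1, k2, by rw [pow_succ' d, pow_mul, k3, h3]⟩
  choose t t1 t2 t3 using ex
  obtain ⟨K', hK', hle, ha', ht'⟩ := base_field K hK a t₀
  have fo : IsOfFinOrder (t₀ ^ 2) := by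
    by_cases hab : ∀ n, Ab K' (t n)
    · refine hKUM K' d (t₀ ^ 2) (fun n => t n ^ 2) hK' hd (pow_mem ht' 2) (pow_ne_zero _ h0) t3
        fun n σ ρ => ?_
      simp only [map_pow, hab n σ ρ]
    · simp only [Ab, not_forall] at hab
      obtain ⟨m, σ, ρ, hm⟩ := hab
      have h1 : Ab K' ((y m - b) / a) :=
        base_div ((hABG K).2.2.1 K' hle _ (hy m)) (base_mem (hle hb)) (base_mem ha')
      have h2 := h1 σ ρ
      rw [← t2 m] at h2
      simp only [map_add, map_inv₀] at h2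
      have h3 := (base_pm (by simpa using t1 m) (by simpa using t1 m) h2).resolve_left hm
      have h4 : ∀ σ ρ : GK K', (σ (ρ (t m)) ^ 2) ^ d ^ m = t₀ ^ 2 := fun σ ρ => by
        rw [← map_pow, ← map_pow, ← map_pow, ← map_pow, t3 m, base_fix ρ (pow_mem ht' 2),
          base_fix σ (pow_mem ht' 2)]
      refine isOfFinOrder_iff_pow_eq_one.2 ⟨2, two_pos, ?_⟩
      rw [sq (t₀ ^ 2)]
      nth_rewrite 1 [← h4 σ ρ]
      rw [← h4 ρ σ, ← mul_pow, ← mul_pow, h3, one_pow, one_pow]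
  refine ⟨t n, ?_, t2 n⟩
  rw [← t3 n] at fo
  exact (fo.of_pow (by positivity)).of_pow two_ne_zero

theorem p_BASE (hABG : S_ABG) (hKUM : S_KUM) :
    S_BASE := by
  intro K f a b y hK hd ⟨ha, hb, hs⟩ hf hy hinf
  have ey : ∀ n, y n = a * ((y n - b) / a) + b := fun n => by
    rw [mul_div_cancel₀ _ ha, sub_add_cancel]
  rcases hs with hs | ⟨ha2, hs⟩
  · have h1 : ∀ n, ((y n - b) / a) ^ f.natDegree ^ n = (y 0 - b) / a := by
      intro n
      induction n with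
      | zero => simp
      | succ n ih =>
        have := base_conj ha hs (hf n)
        rw [eval_pow, eval_X] at this
        rw [pow_succ' f.natDegree, pow_mul, this, ih]
    have h0 : (y 0 - b) / a ≠ 0 := fun h0 => hinf ((Set.finite_singleton b).subset (by
      rintro _ ⟨n, rfl⟩
      rw [Set.mem_singleton_iff, ey n, pow_eq_zero_iff (by positivity) |>.1 ((h1 n).trans h0),
        mul_zero, zero_add]))
    obtain ⟨K', hK', hle, ha', hy'⟩ := base_field K hK a (y 0)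
    have fo := hKUM K' f.natDegree _ (fun n => (y n - b) / a) hK' hd
      (div_mem (sub_mem hy' (hle hb)) ha') h0 h1 fun n =>
        base_div ((hABG K).2.2.1 K' hle _ (hy n)) (base_mem (hle hb)) (base_mem ha')
    refine ⟨ha, hb, ?_, Or.inl ⟨hs, ?_⟩⟩
    · have h2 := base_div (hy 0) (base_mem hb) ((hABG K).2.2.2.2.1 _ fo)
      have h3 : y 0 - b ≠ 0 := fun h => h0 (by rw [h, zero_div])
      rwa [div_div_cancel₀ h3] at h2
    · rintro _ ⟨n, rfl⟩
      rw [← h1 n] at fo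
      exact ⟨_, fo.of_pow (by positivity), ey n⟩
  · refine ⟨ha, hb, (hABG K).2.2.2.2.2 a ha2, Or.inr ⟨ha2, hs, ?_⟩⟩
    rintro _ ⟨n, rfl⟩
    have : ∃ ζ : Qbar, IsOfFinOrder ζ ∧ ζ + ζ⁻¹ = (y n - b) / a := by
      rcases hs with hs | hs
      · exact base_cheb hABG hKUM hK hd (one_mul 1) hb hy
          (fun n => by rw [one_mul, base_conj ha hs (hf n)]) n
      · exact base_cheb hABG hKUM hK hd (ε := -1) (by norm_num) hb hy
          (fun n => by rw [neg_one_mul, ← eval_neg, base_conj ha hs (hf n)]) n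
    obtain ⟨ζ, h1, h2⟩ := this
    exact ⟨ζ, h1, by rw [h2]; exact ey n⟩

end Pool.Agent.P.MP_8d2e9f_nt.AO
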