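import Pool.Agent.P.MP_8d2e9f_nt.AO.Iface

/-! Step BP. -/

set_option autoImplicit false

namespace Pool.Agent.P.MP_8d2e9f_nt.AO

open Polynomial NumberField Pool.Agent.P.MP_8d2e9f_nt.G
open scoped IntermediateField

theorem bp_fin (x : Qbar) : (Set.range fun ψ : Qbar →+* ℂ => ψ x).Finite :=
  (rootSet_finite (minpoly ℚ x) ℂ).subset <| by
    rintro _ ⟨ψ, rfl⟩
    refine (mem_rootSet.2 ⟨minpoly.ne_zero (int_Q x), ?_⟩)
    have := aeval_algHom_apply ψ.toRatAlgHom x (minpoly ℚ x)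
    rw [minpoly.aeval, map_zero] at this
    exact this

theorem bp_finp (f : Qbar[X]) : (Set.range fun ψ : Qbar →+* ℂ => f.map ψ).Finite := by
  induction f using Polynomial.induction_on' with
  | add p q hp hq =>
    refine (hp.image2 (· + ·) hq).subset ?_
    rintro _ ⟨ψ, rfl⟩
    exact ⟨_, ⟨ψ, rfl⟩, _, ⟨ψ, rfl⟩, (Polynomial.map_add ψ).symm⟩
  | monomial n a =>
    refine ((bp_fin a).image (monomial n)).subset ?_
    rintro _ ⟨ψ, rfl⟩
    exact ⟨_, ⟨ψ, rfl⟩, (Polynomial.map_monomial ψ).symm⟩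

theorem bp_esc (f : Qbar[X]) (hd : 2 ≤ f.natDegree) :
    ∃ R : ℝ, ∀ (ψ : Qbar →+* ℂ) (z : Qbar), R ≤ ‖ψ z‖ → 2 * ‖ψ z‖ ≤ ‖ψ (f.eval z)‖ := by
  have h : ∀ g : ℂ[X], ∃ R : ℝ, 2 ≤ g.natDegree →
      ∀ z : ℂ, R ≤ ‖z‖ → 2 * ‖z‖ ≤ ‖g.eval z‖ := fun g => by
    by_cases c : 2 ≤ g.natDegree
    · have c' : 2 ≤ (C (2⁻¹ : ℂ) * g).natDegree := by
        rwa [natDegree_C_mul (by norm_num)]
      obtain ⟨R, hR⟩ := exists_escape_radius _ c'
      refine ⟨R, fun _ z hz => ?_⟩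
      have := hR z hz
      rw [eval_mul, eval_C, norm_mul, norm_inv, Complex.norm_two] at this
      linarith
    · exact ⟨0, fun k => absurd k c⟩
  choose R hR using h
  obtain ⟨B, hB⟩ := ((bp_finp f).image R).bddAbove
  refine ⟨B, fun ψ z hz => ?_⟩
  have := hR (f.map ψ) (by rwa [natDegree_map]) (ψ z) ((hB ⟨_, ⟨ψ, rfl⟩, rfl⟩).trans hz)
  rwa [eval_map, eval₂_at_apply] at this

theorem bp_esc_per {α β : Type*} [LinearOrder β] (F : α → α) (h : α → β) (r : β)
    (hF : ∀ z, r < h z → h z < h (F z)) (z : α) (hz : z ∈ Function.periodicPts F) : h z ≤ r := by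
  by_contra c
  have c' : r < h z := not_le.1 c
  have key : ∀ n : ℕ, h z < h (F^[n + 1] z) := fun n => by
    induction n with
    | zero => exact hF z c'
    | succ n ih =>
      rw [Function.iterate_succ_apply']
      exact ih.trans (hF _ (c'.trans ih))
  obtain ⟨n, hn, hp⟩ := hz
  obtain ⟨m, rfl⟩ : ∃ m, n = m + 1 := ⟨n - 1, by omega⟩
  have := key m
  rw [hp.eq] at this
  exact lt_irrefl _ this

theorem bp_val {Γ : Type*} [LinearOrderedCommGroupWithZero Γ] (v : Valuation Qbar Γ)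
    (P : Qbar[X]) (hm : P.Monic) (hc : ∀ j, v (P.coeff j) ≤ 1) (y : Qbar) (hy : 1 < v y) :
    v (P.eval y) = v y ^ P.natDegree := by
  have h0 : 0 < v y := zero_lt_one.trans hy
  rw [eval_eq_sum_range, Finset.sum_range_succ, hm.coeff_natDegree, one_mul,
    v.map_add_eq_of_lt_right, map_pow]
  rw [map_pow]
  refine v.map_sum_lt (pow_pos h0 _).ne' fun i hi => ?_
  rw [map_mul, map_pow]
  exact (mul_le_of_le_one_left' (hc i)).trans_lt (pow_lt_pow_right₀ hy (Finset.mem_range.1 hi))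

theorem bp_int (g : Qbar[X]) (hd : 2 ≤ g.natDegree) :
    ∃ (D : ℕ) (P : Qbar[X]) (c : Qbar), 0 < D ∧ P.Monic ∧ P.natDegree = g.natDegree ∧
      (∀ j, IsIntegral ℤ (P.coeff j)) ∧ IsIntegral ℤ c ∧
      ∀ z, P.eval ((D : Qbar) * z) = c * ((D : Qbar) * g.eval z) := by
  classical
  have hg0 : g ≠ 0 := by rintro rfl; simp at hd
  set g₁ : Qbar[X] := g * C g.leadingCoeff⁻¹ with hg₁
  have hmon : g₁.Monic := monic_mul_leadingCoeff_inv hg0
  have hdeg : g₁.natDegree = g.natDegree := natDegree_mul_leadingCoeff_inv _ hg0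
  obtain ⟨D, hD0, hD⟩ := exists_common_denominator (insert g.leadingCoeff⁻¹ g₁.coeffs)
  have hDint : IsIntegral ℤ (D : Qbar) := isIntegral_natCast D
  obtain ⟨e, he⟩ : ∃ e, g.natDegree = e + 2 := ⟨g.natDegree - 2, by omega⟩
  refine ⟨D, g₁.scaleRoots D, (D : Qbar) ^ e * ((D : Qbar) * g.leadingCoeff⁻¹),
    Nat.pos_of_ne_zero hD0, (monic_scaleRoots_iff _).2 hmon,
    by rw [natDegree_scaleRoots, hdeg], fun j => ?_, (hDint.pow e).mul (hD _ (by simp)),
    fun z => ?_⟩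
  · rw [coeff_scaleRoots]
    rcases lt_trichotomy j g₁.natDegree with h | h | h
    · obtain ⟨e, he⟩ : ∃ e, g₁.natDegree - j = e + 1 := ⟨g₁.natDegree - j - 1, by omega⟩
      by_cases hc : g₁.coeff j = 0
      · rw [hc, zero_mul]; exact isIntegral_zero
      · have : g₁.coeff j * (D : Qbar) ^ (g₁.natDegree - j) =
            (D : Qbar) ^ e * ((D : Qbar) * g₁.coeff j) := by
          rw [he]; ring
        rw [this]
        exact (hDint.pow e).mul (hD _ (Finset.mem_insert_of_mem (coeff_mem_coeffs hc)))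
    · rw [h, hmon.coeff_natDegree, Nat.sub_self, pow_zero, one_mul]; exact isIntegral_one
    · rw [coeff_eq_zero_of_natDegree_lt h, zero_mul]; exact isIntegral_zero
  · rw [scaleRoots_eval_mul, hdeg, hg₁, eval_mul, eval_C, he]; ring

theorem bp_isInt (x : Qbar)
    (h : ∀ V : ValuationSubring Qbar, (∀ y : Qbar, IsIntegral ℤ y → y ∈ V) → x ∈ V) :
    IsIntegral ℤ x := by
  have h1 : x ∈ (integralClosure (Subring.closure {y : Qbar | IsIntegral ℤ y}) Qbar).toSubring := by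
    rw [← iInf_valuationSubring_superset, Subring.mem_iInf]
    exact fun V => h V.1 fun y hy => V.2 hy
  have h2 : Subring.closure {y : Qbar | IsIntegral ℤ y} ≤ (integralClosure ℤ Qbar).toSubring :=
    Subring.closure_le.2 fun y hy => hy
  have : Algebra.IsIntegral ℤ (Subring.closure {y : Qbar | IsIntegral ℤ y}) := ⟨fun y =>
    (isIntegral_algHom_iff (Subring.closure {y : Qbar | IsIntegral ℤ y}).subtype.toIntAlgHom
      Subtype.val_injective).1 (show IsIntegral ℤ (y : Qbar) from h2 y.2)⟩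
  exact isIntegral_trans x h1

theorem p_BP :
    S_BP := by
  intro f hd
  obtain ⟨D, P, c, D0, hm, hdeg, hP, hc, hev⟩ := bp_int f hd
  obtain ⟨R, hR⟩ := bp_esc f hd
  refine ⟨D, max R 0, D0, fun z hz => ⟨bp_isInt _ fun V hV => ?_, fun ψ => ?_⟩⟩
  · rw [← V.valuation_le_one_iff]
    refine bp_esc_per _ (fun x => V.valuation ((D : Qbar) * x)) 1 (fun x hx => ?_) z hz
    have h1 := bp_val V.valuation P hm (fun j => (V.valuation_le_one_iff _).2 (hV _ (hP j))) _ hx
    rw [hev, map_mul, hdeg] at h1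
    have h2 : V.valuation ((D : Qbar) * x) ^ 1 < V.valuation ((D : Qbar) * x) ^ f.natDegree :=
      pow_lt_pow_right₀ hx (by omega)
    rw [pow_one, ← h1] at h2
    exact h2.trans_le (mul_le_of_le_one_left' ((V.valuation_le_one_iff _).2 (hV _ hc)))
  · refine bp_esc_per _ (fun x => ‖ψ x‖) (max R 0) (fun x hx => ?_) z hz
    have h1 := hR ψ x ((le_max_left _ _).trans hx.le)
    have h2 : 0 < ‖ψ x‖ := (le_max_right _ _).trans_lt hx
    linarith

end Pool.Agent.P.MP_8d2e9f_nt.AO
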