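import Pool.Agent.P.MP_8d2e9f_nt.AO.Iface

/-! Step CLS. -/

set_option autoImplicit false

namespace Pool.Agent.P.MP_8d2e9f_nt.AO

open Polynomial NumberField Pool.Agent.P.MP_8d2e9f_nt.G
open scoped IntermediateField

section
variable {K : Type} [Field K] [CharZero K]

omit [CharZero K] in
lemma cls_theta (h : K[X]) (n : ℕ) : (X * derivative h).coeff n = n * h.coeff n := by
  rcases n with _ | n
  · simp
  · rw [coeff_X_mul, coeff_derivative]; push_cast; ring

lemma cls_ode {h : K[X]} {d : ℕ} (h0 : h ≠ 0)
    (e : (1 - X ^ 2) * derivative (derivative h) = X * derivative h - C ((d : K) ^ 2) * h) :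
    h.natDegree = d := by
  have e1 : derivative (derivative h) = X * derivative (X * derivative h) - C ((d : K) ^ 2) * h := by
    rw [derivative_mul, derivative_X]
    linear_combination e
  have e2 := congrArg (fun p => coeff p h.natDegree) e1
  simp only [coeff_sub, cls_theta, coeff_C_mul, coeff_derivative] at e2
  rw [coeff_eq_zero_of_natDegree_lt (p := h) (n := h.natDegree + 1 + 1) (by omega)] at e2
  have h1 : h.coeff h.natDegree ≠ 0 := leadingCoeff_ne_zero.2 h0
  have h2 : ((h.natDegree : K) ^ 2 - (d : K) ^ 2) * h.coeff h.natDegree = 0 := by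
    linear_combination -e2
  have h3 : (h.natDegree : K) ^ 2 = (d : K) ^ 2 :=
    sub_eq_zero.1 ((mul_eq_zero.1 h2).resolve_right h1)
  have h4 : h.natDegree ^ 2 = d ^ 2 := by exact_mod_cast h3
  exact Nat.pow_left_injective (by norm_num) h4

lemma cls_T {G : K[X]} {d : ℕ}
    (e : (1 - X ^ 2) * derivative (derivative G) = X * derivative G - C ((d : K) ^ 2) * G) :
    G = C (G.eval 1) * Chebyshev.T K d := by
  have hT := Chebyshev.one_sub_X_sq_mul_derivative_derivative_T_eq_poly_in_T (R := K) d
  have hd : (Chebyshev.T K d).natDegree = d := by simp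
  have hl : (Chebyshev.T K d).coeff d ≠ 0 := by
    have := Chebyshev.leadingCoeff_T K d
    rw [leadingCoeff, hd] at this
    rw [this]
    exact pow_ne_zero _ two_ne_zero
  obtain ⟨c, hc⟩ : ∃ c, c * (Chebyshev.T K d).coeff d = G.coeff d := ⟨_, div_mul_cancel₀ _ hl⟩
  have h : G - C c * Chebyshev.T K d = 0 := by
    by_contra h0
    have h1 := cls_ode (d := d) h0 (by
      simp only [Function.iterate_succ, Function.iterate_zero, Function.comp, id] at hT
      simp only [derivative_sub, derivative_C_mul, map_pow, C_eq_natCast] at e ⊢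
      push_cast at hT
      linear_combination e - C c * hT)
    have h2 := leadingCoeff_ne_zero.2 h0
    rw [leadingCoeff, h1, coeff_sub, coeff_C_mul, hc, sub_self] at h2
    exact h2 rfl
  have h3 : G = C c * Chebyshev.T K d := sub_eq_zero.1 h
  have h4 : G.eval 1 = c := by rw [h3]; simp
  rw [h4]; exact h3

end

theorem p_CLS :
    S_CLS := by
  intro f hd he
  set d := f.natDegree with hdd
  have hf0 : f ≠ 0 := by rintro rfl; simp at hdd; omega
  have ha : f.coeff d ≠ 0 := leadingCoeff_ne_zero.2 hf0
  have hdK : (d : Qbar) ≠ 0 := by exact_mod_cast (by omega : d ≠ 0)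
  have hu : (d : Qbar) * f.coeff d ≠ 0 := mul_ne_zero hdK ha
  unfold cheb at he
  by_cases hb : f.coeff (d - 2) = 0
  · rw [hb] at he
    have h1 : C ((d : Qbar) * f.coeff d) *
        ((C (d : Qbar) * f - X * derivative f) * (C (d : Qbar) * f + X * derivative f)) = 0 := by
      simp only [mul_zero, map_zero, add_zero, map_pow] at he
      linear_combination he
    have h2 := (mul_eq_zero.1 h1).resolve_left (C_ne_zero.2 hu)
    have h3 : C (d : Qbar) * f - X * derivative f = 0 := by
      refine (mul_eq_zero.1 h2).resolve_right fun h => ?_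
      have h4 := congrArg (fun p => coeff p d) h
      simp only [coeff_add, cls_theta, coeff_C_mul, coeff_zero] at h4
      exact hu (by linear_combination (1 / 2 : Qbar) * h4)
    have h5 : f = C (f.coeff d) * X ^ d := by
      ext n
      rw [coeff_C_mul, coeff_X_pow]
      split_ifs with hn
      · rw [hn, mul_one]
      · have h4 := congrArg (fun p => coeff p n) h3
        simp only [coeff_sub, cls_theta, coeff_C_mul, coeff_zero] at h4
        have h6 : ((d : Qbar) - n) * f.coeff n = 0 := by linear_combination h4
        have h7 : (d : Qbar) - n ≠ 0 := sub_ne_zero.2 (by exact_mod_cast (Ne.symm hn))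
        rw [(mul_eq_zero.1 h6).resolve_left h7, mul_zero]
    obtain ⟨a, ha1⟩ := IsAlgClosed.exists_pow_nat_eq (f.coeff d)⁻¹ (n := d - 1) (by omega)
    have ha0 : a ≠ 0 := by
      rintro rfl
      rw [zero_pow (by omega)] at ha1
      exact inv_ne_zero ha ha1.symm
    refine ⟨a, ha0, Or.inl ?_⟩
    have h8 : f.coeff d * a ^ d = a := by
      have : a ^ d = a ^ (d - 1) * a := by rw [← pow_succ]; congr 1; omega
      rw [this, ha1, ← mul_assoc, mul_inv_cancel₀ ha, one_mul]
    unfold LinConj
    conv_lhs => rw [h5]
    simp only [map_zero, add_zero, mul_comp, C_comp, pow_comp, X_comp, mul_pow]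
    rw [← map_pow, ← mul_assoc, ← map_mul, h8]
  · obtain ⟨a, ha1⟩ := IsAlgClosed.exists_pow_nat_eq
      (-f.coeff (d - 2) / ((d : Qbar) * f.coeff d)) (n := 2) (by omega)
    have ha2 : a ^ 2 * (d * f.coeff d) = -f.coeff (d - 2) := by rw [ha1, div_mul_cancel₀ _ hu]
    have ha0 : a ≠ 0 := by
      rintro rfl
      apply hb
      linear_combination ha2
    refine ⟨a, ha0, Or.inr ⟨ha2, ?_⟩⟩
    set G := f.comp (C (2 * a) * X) with hG
    have hG' : derivative G = C (2 * a) * (derivative f).comp (C (2 * a) * X) := by
      rw [hG, derivative_comp]; simp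
    have hb' : f.coeff (d - 2) = -(a ^ 2 * (d * f.coeff d)) := by linear_combination ha2
    have h1 : C ((d : Qbar) ^ 2) * (G ^ 2 - C (2 * a) ^ 2) = (X ^ 2 - 1) * derivative G ^ 2 := by
      have h2 := congrArg (fun p => p.comp (C (2 * a) * X)) he
      simp only [sub_comp, mul_comp, add_comp, pow_comp, C_comp, X_comp, zero_comp] at h2
      rw [← hG, hb'] at h2
      apply mul_left_cancel₀ (C_ne_zero.2 hu)
      rw [hG']
      have h4 : (C (4 : Qbar) : Qbar[X]) = 4 := rfl
      have h5 : (C (2 : Qbar) : Qbar[X]) = 2 := rfl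
      simp only [map_mul, map_neg, map_pow, h4, h5] at h2 ⊢
      linear_combination h2
    have hG0 : derivative G ≠ 0 := by
      intro h0
      have h2 := derivative_eq_zero.1 h0
      rw [hG, natDegree_comp, natDegree_C_mul_X _ (mul_ne_zero two_ne_zero ha0)] at h2
      omega
    have h3 : (1 - X ^ 2) * derivative (derivative G)
        = X * derivative G - C ((d : Qbar) ^ 2) * G := by
      have h2 := congrArg derivative h1
      simp only [derivative_mul, derivative_sub, derivative_C, derivative_X, derivative_one,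
        pow_two, zero_mul, mul_zero, add_zero, zero_add, mul_one, one_mul, sub_zero] at h2
      apply mul_left_cancel₀ (mul_ne_zero (two_ne_zero (α := Qbar[X])) hG0)
      simp only [pow_two]
      linear_combination h2
    have h4 := cls_T h3
    have h5 : (G.eval 1 - 2 * a) * (G.eval 1 + 2 * a) = 0 := by
      have h2 := congrArg (eval 1) h1
      simp only [eval_mul, eval_sub, eval_pow, eval_C, eval_X, eval_one] at h2
      apply mul_left_cancel₀ (pow_ne_zero 2 hdK)
      linear_combination h2
    have h6 : f.comp (C a * X + C 0)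
        = C (G.eval 1) * (Chebyshev.T Qbar d).comp (C ⅟(2 : Qbar) * X) := by
      have h7 := congrArg (fun p => p.comp (C ⅟(2 : Qbar) * X)) h4
      simp only [mul_comp, C_comp] at h7
      rw [← h7, hG, comp_assoc]
      congr 1
      simp only [mul_comp, C_comp, X_comp, map_zero, add_zero]
      rw [← mul_assoc, ← map_mul]
      congr 2
      rw [invOf_eq_inv]; field_simp
    have h5' : (C (2 : Qbar) : Qbar[X]) = 2 := rfl
    unfold LinConj
    rw [h6, Chebyshev.C_eq_two_mul_T_comp_half_mul_X]
    rcases mul_eq_zero.1 h5 with h | h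
    · left
      rw [sub_eq_zero.1 h, map_mul, h5', map_zero]; ring
    · right
      rw [eq_neg_of_add_eq_zero_left h, map_neg, map_mul, h5', map_zero]; ring

end Pool.Agent.P.MP_8d2e9f_nt.AO
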