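import Pool.Agent.P.MP_8d2e9f_nt.AO.Iface

/-! Step COEF. -/

set_option autoImplicit false

namespace Pool.Agent.P.MP_8d2e9f_nt.AO

open Polynomial NumberField Pool.Agent.P.MP_8d2e9f_nt.G
open scoped IntermediateField

lemma coef_Xd {k : Type} [Field k] (f : k[X]) (n : ℕ) :
    (X * derivative f).coeff n = n * f.coeff n := by
  cases n with
  | zero => simp
  | succ n =>
    rw [coeff_X_mul, coeff_derivative]
    push_cast
    ring

theorem p_COEF :
    S_COEF := by
  intro k _ f s t hd hi hc h
  obtain ⟨m, hm⟩ : ∃ m, f.natDegree = m + 2 := ⟨f.natDegree - 2, by omega⟩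
  have hf0 : f ≠ 0 := by
    rintro rfl
    simp at hd
  have ha : f.coeff (m + 2) ≠ 0 := by
    rw [← hm]
    exact leadingCoeff_ne_zero.2 hf0
  have h3 : f.coeff (m + 3) = 0 := coeff_eq_zero_of_natDegree_lt (by omega)
  rw [hm] at hi hc h
  rw [hm]
  have h1 : f.coeff (m + 1) = 0 := hc
  have nd : (m : k) + 2 ≠ 0 := by exact_mod_cast hi (m + 2) (by omega) (by omega)
  have n1 : (m : k) + 1 ≠ 0 := by exact_mod_cast hi (m + 1) (by omega) (by omega)
  have n2 : (2 : k) ≠ 0 := by exact_mod_cast hi 2 (by omega) (by omega)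
  have n3 : 2 * (m : k) + 3 ≠ 0 := by exact_mod_cast hi (2 * m + 3) (by omega) (by omega)
  have hf' : derivative f ≠ 0 := by
    intro h0
    have := congrArg (fun g => coeff g (m + 1)) h0
    simp only [coeff_derivative, coeff_zero] at this
    push_cast at this
    rcases mul_eq_zero.1 this with h' | h'
    · exact ha h'
    · exact nd (by linear_combination h')
  set D : k := ((m + 2 : ℕ) : k) with hD
  have E : C (D ^ 2 * 2) * f - C (D ^ 2 * (s + t)) =
      C 2 * (X * derivative (X * derivative f)) - C (s + t) * derivative f -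
        C (2 * (s + t)) * (X * derivative (derivative f)) +
          C (2 * (s * t)) * derivative (derivative f) := by
    have hh := congrArg derivative h
    simp only [derivative_mul, derivative_C, derivative_sub, derivative_X, derivative_sq,
      zero_mul, zero_add, sub_zero, one_mul, mul_one] at hh
    apply mul_right_cancel₀ hf'
    simp only [derivative_mul, derivative_X, one_mul, map_mul, map_add, map_pow] at hh ⊢
    have c2 : (C 2 : k[X]) = 2 := rfl
    rw [c2] at hh ⊢
    linear_combination hh
  have Ec : ∀ n, D ^ 2 * 2 * f.coeff n - (C (D ^ 2 * (s + t))).coeff n =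
      2 * (n * (n * f.coeff n)) - (s + t) * (f.coeff (n + 1) * (n + 1)) -
        2 * (s + t) * (n * (f.coeff (n + 1) * (n + 1))) +
          2 * (s * t) * (f.coeff (n + 1 + 1) * ((n + 1 : ℕ) + 1) * (n + 1)) := fun n => by
    have := congrArg (fun g => coeff g n) E
    simpa only [coeff_add, coeff_sub, coeff_C_mul, coef_Xd, coeff_derivative] using this
  have hu : s + t = 0 := by
    have e := Ec (m + 1)
    rw [coeff_C_succ, h1, show m + 1 + 1 + 1 = m + 3 from rfl, h3,
      show m + 1 + 1 = m + 2 from rfl] at e
    push_cast at e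
    have : (s + t) * (f.coeff (m + 2) * (((m : k) + 2) * (2 * m + 3))) = 0 := by
      linear_combination e
    exact (mul_eq_zero.1 this).resolve_right (mul_ne_zero ha (mul_ne_zero nd n3))
  have hw : D * f.coeff (m + 2) * (s * t) = 4 * f.coeff m := by
    have e := Ec m
    rw [hu, mul_zero, C_0, coeff_zero, show m + 1 + 1 = m + 2 from rfl, hD] at e
    rw [hD]
    push_cast at e ⊢
    apply mul_left_cancel₀ (mul_ne_zero n2 n1)
    linear_combination -e
  have ht : t = -s := by linear_combination hu
  rw [cheb, Nat.add_sub_cancel, ← hD, ← hw]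
  subst ht
  simp only [map_mul, map_neg, map_pow] at h ⊢
  linear_combination (C D * C (f.coeff (m + 2))) * h

end Pool.Agent.P.MP_8d2e9f_nt.AO
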