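import Pool.Agent.P.MP_8d2e9f_nt.AO.Iface

/-! Step CRV. -/

set_option autoImplicit false

namespace Pool.Agent.P.MP_8d2e9f_nt.AO

open Polynomial NumberField Pool.Agent.P.MP_8d2e9f_nt.G
open scoped IntermediateField

lemma crv_sub {k k' : Type} [Field k] [Field k'] (φ : k →+* k') (f : k[X]) (A : k[X][X]) :
    sub (f.map φ) (A.map (mapRingHom φ)) = (sub f A).map (mapRingHom φ) := by
  unfold sub
  rw [map_comp, Polynomial.map_map, Polynomial.map_map, Polynomial.map_map, Polynomial.map_map]
  congr 2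
  · ext x <;> simp
  · ext x; simp

theorem p_CRV (hDX : S_DX) :
    S_CRV := by
  refine ⟨fun k k' _ _ φ f A h => ?_, fun k _ f A c hc h => ?_⟩
  · have hi : ∀ r : k[X], r ≠ 0 → r.map φ ≠ 0 := fun r hr =>
      (Polynomial.map_ne_zero_iff φ.injective).2 hr
    have hd : dX (A.map (mapRingHom φ)) = (dX A).map (mapRingHom φ) := by
      refine Polynomial.ext fun i => ?_
      rw [(hDX k').1, coeff_map, coeff_map, (hDX k).1]
      simp
    obtain ⟨⟨r, B, hr, h1⟩, ⟨U, V, s, hs, h2⟩, U', V', t, ht, h3⟩ := h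
    refine ⟨⟨r.map φ, B.map (mapRingHom φ), hi r hr, ?_⟩,
      ⟨U.map (mapRingHom φ), V.map (mapRingHom φ), s.map φ, hi s hs, ?_⟩,
      U'.map (mapRingHom φ), V'.map (mapRingHom φ), t.map φ, hi t ht, ?_⟩
    · have := congrArg (Polynomial.map (mapRingHom φ)) h1
      rw [crv_sub]
      simpa [Polynomial.map_mul] using this
    · have := congrArg (Polynomial.map (mapRingHom φ)) h2
      rw [derivative_map]
      simpa [Polynomial.map_mul] using this
    · have := congrArg (Polynomial.map (mapRingHom φ)) h3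
      rw [hd]
      simpa [Polynomial.map_mul] using this
  · obtain ⟨⟨r, B, hr, h1⟩, ⟨U, V, s, hs, h2⟩, U', V', t, ht, h3⟩ := h
    have e1 : sub f (C (C c) * A) = C (C c) * sub f A := by
      unfold sub
      simp [Polynomial.map_mul]
    have e2 : dX (C (C c) * A) = C (C c) * dX A := by
      rw [((hDX k).2.1 _ _).2, (hDX k).2.2.1]
      simp
    refine ⟨⟨r * C c, C (C c) * B, mul_ne_zero hr (C_ne_zero.2 hc), ?_⟩,
      ⟨U * C (C c), V * C (C c), s, hs, ?_⟩, U' * C (C c), V' * C (C c), t, ht, ?_⟩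
    · rw [e1] at h1
      rw [map_mul]
      linear_combination h1
    · rw [derivative_C_mul] at h2
      linear_combination h2
    · rw [e2] at h3
      linear_combination h3

end Pool.Agent.P.MP_8d2e9f_nt.AO
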