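import Pool.Agent.P.MP_8d2e9f_nt.AO.Iface

/-! Step CURVE. -/

set_option autoImplicit false

namespace Pool.Agent.P.MP_8d2e9f_nt.AO

open Polynomial NumberField Pool.Agent.P.MP_8d2e9f_nt.G
open scoped IntermediateField

section

variable {k Ω : Type} [Field k] [Field Ω] [Algebra k Ω]

/-- `Q` vanishes at all but finitely many points of `P`. -/
def curve_J (P : Set (Ω × Ω)) (Q : k[X][X]) : Prop :=
  {x ∈ P | aevalAeval x.1 x.2 Q ≠ 0}.Finite

theorem curve_mul {P : Set (Ω × Ω)} {Q : k[X][X]} (h : curve_J P Q) (B : k[X][X]) :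
    curve_J P (Q * B) := by
  refine Set.Finite.subset h ?_
  rintro x ⟨hx, h0⟩
  refine ⟨hx, fun h1 => h0 ?_⟩
  rw [map_mul, h1, zero_mul]

theorem curve_sub {P : Set (Ω × Ω)} {Q R : k[X][X]} (h : curve_J P Q) (h' : curve_J P R) :
    curve_J P (Q - R) := by
  refine Set.Finite.subset (Set.Finite.union h h') ?_
  rintro x ⟨hx, h0⟩
  by_contra hc
  simp only [Set.mem_union, Set.mem_ofPred_eq, not_or, not_and, not_not] at hc
  apply h0
  rw [map_sub, hc.1 hx, hc.2 hx, sub_zero]

theorem curve_rad {P : Set (Ω × Ω)} {Q : k[X][X]} (h : curve_J P (Q * Q)) : curve_J P Q := by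
  refine Set.Finite.subset h ?_
  rintro x ⟨hx, h0⟩
  refine ⟨hx, ?_⟩
  rw [map_mul]
  exact mul_ne_zero h0 h0

theorem curve_roots {r : k[X]} (hr : r ≠ 0) : {z : Ω | aeval z r = 0}.Finite := by
  refine Set.Finite.subset (r.rootSet_finite Ω) ?_
  intro z hz
  exact mem_rootSet.2 ⟨hr, hz⟩

theorem curve_C {P : Set (Ω × Ω)} (hF : Fib P) {r : k[X]} (hr : r ≠ 0) {Q : k[X][X]}
    (h : curve_J P (C r * Q)) : curve_J P Q := by
  have h1 : (⋃ z ∈ {z : Ω | aeval z r = 0}, (fun w => (z, w)) '' {w | (z, w) ∈ P}).Finite :=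
    (curve_roots hr).biUnion fun z _ => (hF.1 z).image _
  refine Set.Finite.subset (Set.Finite.union h h1) ?_
  rintro ⟨z, w⟩ ⟨hx, h0⟩
  by_cases hz : aeval z r = 0
  · right
    simp only [Set.mem_iUnion]
    exact ⟨z, hz, w, hx, rfl⟩
  · left
    refine ⟨hx, ?_⟩
    rw [map_mul, aevalAeval_C]
    exact mul_ne_zero hz h0

theorem curve_evY (x y : Ω) (T : k[X]) : aevalAeval x y (T.map C) = aeval y T := by
  induction T using Polynomial.induction_on' with
  | add p q hp hq => rw [Polynomial.map_add, map_add, map_add, hp, hq]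
  | monomial n a =>
    rw [← C_mul_X_pow_eq_monomial, Polynomial.map_mul, Polynomial.map_pow, map_C, map_X, map_mul,
      map_pow, map_mul, map_pow, aevalAeval_C, aevalAeval_Y, aeval_X, aeval_C, aeval_C]

theorem curve_Y {P : Set (Ω × Ω)} (hF : Fib P) {T : k[X]} (hT : T ≠ 0) {Q : k[X][X]}
    (h : curve_J P (T.map C * Q)) : curve_J P Q := by
  have h1 : (⋃ w ∈ {z : Ω | aeval z T = 0}, (fun z => (z, w)) '' {z | (z, w) ∈ P}).Finite :=
    (curve_roots hT).biUnion fun w _ => (hF.2 w).image _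
  refine Set.Finite.subset (Set.Finite.union h h1) ?_
  rintro ⟨z, w⟩ ⟨hx, h0⟩
  by_cases hz : aeval w T = 0
  · right
    simp only [Set.mem_iUnion]
    exact ⟨w, hz, z, hx, rfl⟩
  · left
    refine ⟨hx, ?_⟩
    rw [map_mul, curve_evY]
    exact mul_ne_zero hz h0

theorem curve_evsub (x y : Ω) (f : k[X]) (Q : k[X][X]) :
    aevalAeval x y (sub f Q) = aevalAeval (aeval x f) (aeval y f) Q := by
  unfold sub
  induction Q using Polynomial.induction_on' with
  | add p q hp hq => rw [Polynomial.map_add, add_comp, map_add, map_add, hp, hq]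
  | monomial n a =>
    rw [← C_mul_X_pow_eq_monomial, Polynomial.map_mul, Polynomial.map_pow, map_C, map_X, mul_comp,
      C_comp, X_pow_comp, map_mul, map_pow, map_mul, map_pow, aevalAeval_C, aevalAeval_C,
      aevalAeval_Y, curve_evY, coe_compRingHom_apply, aeval_comp]

theorem curve_fib {f : k[X]} (hf : 0 < f.natDegree) (c : Ω) : {z : Ω | aeval z f = c}.Finite := by
  have h0 : f.map (algebraMap k Ω) - C c ≠ 0 := by
    intro h
    have h1 := congrArg natDegree h
    rw [natDegree_sub_C, natDegree_map, natDegree_zero] at h1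
    omega
  refine Set.Finite.subset (curve_roots (k := Ω) (Ω := Ω) h0) ?_
  intro z hz
  simp only [Set.mem_ofPred_eq] at hz ⊢
  rw [map_sub, aeval_C, aeval_map_algebraMap, hz]
  simp

theorem curve_subJ {P : Set (Ω × Ω)} {f : k[X]} (hf : 0 < f.natDegree)
    (hP : {x ∈ P | (aeval x.1 f, aeval x.2 f) ∉ P}.Finite) {Q : k[X][X]} (h : curve_J P Q) :
    curve_J P (sub f Q) := by
  have h1 : (⋃ y ∈ {x ∈ P | aevalAeval x.1 x.2 Q ≠ 0},
      {z : Ω | aeval z f = y.1} ×ˢ {z : Ω | aeval z f = y.2}).Finite :=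
    Set.Finite.biUnion h fun y _ => (curve_fib hf y.1).prod (curve_fib hf y.2)
  refine Set.Finite.subset (Set.Finite.union hP h1) ?_
  rintro ⟨z, w⟩ ⟨hx, h0⟩
  by_cases hz : (aeval z f, aeval w f) ∈ P
  · right
    simp only [Set.mem_iUnion]
    rw [curve_evsub] at h0
    exact ⟨(aeval z f, aeval w f), ⟨hz, h0⟩, rfl, rfl⟩
  · left
    exact ⟨hx, hz⟩

theorem curve_div {P : Set (Ω × Ω)} {A : k[X][X]} (hA0 : A ≠ 0) (hA : curve_J P A)
    (hmin : ∀ A' : k[X][X], A' ≠ 0 → curve_J P A' → A.natDegree ≤ A'.natDegree) :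
    ∀ (n : ℕ) (Q : k[X][X]), Q.degree < n → curve_J P Q →
      ∃ (r : k[X]) (B : k[X][X]), r ≠ 0 ∧ C r * Q = A * B := by
  intro n
  induction n with
  | zero =>
    intro Q hQ _
    have : Q = 0 := by
      by_contra h
      rw [degree_eq_natDegree h] at hQ
      exact absurd hQ (by norm_cast)
    exact ⟨1, 0, one_ne_zero, by simp [this]⟩
  | succ n ih =>
    intro Q hQ hJ
    by_cases h0 : Q = 0
    · exact ⟨1, 0, one_ne_zero, by simp [h0]⟩
    have hle := hmin Q h0 hJ
    have hla : A.leadingCoeff ≠ 0 := leadingCoeff_ne_zero.2 hA0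
    have hlq : Q.leadingCoeff ≠ 0 := leadingCoeff_ne_zero.2 h0
    set m := Q.natDegree - A.natDegree with hm
    have hJ' : curve_J P (C A.leadingCoeff * Q - A * (C Q.leadingCoeff * X ^ m)) :=
      curve_sub (by rw [mul_comm]; exact curve_mul hJ _) (curve_mul hA _)
    have hd1 : (C A.leadingCoeff * Q).degree = Q.degree := degree_C_mul hla
    have hd2 : (A * (C Q.leadingCoeff * X ^ m)).degree = Q.degree := by
      rw [degree_mul, degree_C_mul_X_pow _ hlq, degree_eq_natDegree hA0, degree_eq_natDegree h0]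
      norm_cast
      omega
    have hlt : (C A.leadingCoeff * Q - A * (C Q.leadingCoeff * X ^ m)).degree < Q.degree := by
      rw [← hd1]
      refine degree_sub_lt_left (hd1.trans hd2.symm) (mul_ne_zero (C_ne_zero.2 hla) h0) ?_
      rw [leadingCoeff_mul, leadingCoeff_mul, leadingCoeff_C, leadingCoeff_C_mul_X_pow]
    have hlt' : (C A.leadingCoeff * Q - A * (C Q.leadingCoeff * X ^ m)).degree <
        (n : WithBot ℕ) := by
      refine lt_of_lt_of_le hlt ?_
      rw [degree_eq_natDegree h0] at hQ ⊢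
      norm_cast at hQ ⊢
      omega
    obtain ⟨r, B, hr, hB⟩ := ih _ hlt' hJ'
    refine ⟨r * A.leadingCoeff, B + C r * (C Q.leadingCoeff * X ^ m), mul_ne_zero hr hla, ?_⟩
    rw [C_mul]
    linear_combination hB

theorem curve_clear (p : (FractionRing k[X])[X]) :
    ∃ (r : k[X]) (p₀ : k[X][X]), r ≠ 0 ∧
      p₀.map (algebraMap k[X] (FractionRing k[X])) =
        C (algebraMap k[X] (FractionRing k[X]) r) * p := by
  obtain ⟨b, hb, h⟩ := IsLocalization.integerNormalization_spec (nonZeroDivisors k[X]) p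
  refine ⟨b, _, nonZeroDivisors.ne_zero hb, h.trans ?_⟩
  rw [← smul_eq_C_mul, algebraMap_smul]

theorem curve_inj : Function.Injective
    (Polynomial.map (algebraMap k[X] (FractionRing k[X]))) :=
  map_injective _ (IsFractionRing.injective _ _)

theorem curve_bez {A D : k[X][X]}
    (h : IsCoprime (A.map (algebraMap k[X] (FractionRing k[X])))
      (D.map (algebraMap k[X] (FractionRing k[X])))) :
    ∃ (U V : k[X][X]) (r : k[X]), r ≠ 0 ∧ U * A + V * D = C r := by
  obtain ⟨U, V, hUV⟩ := h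
  obtain ⟨a, U₀, ha, hU⟩ := curve_clear U
  obtain ⟨b, V₀, hb, hV⟩ := curve_clear V
  refine ⟨C b * U₀, C a * V₀, a * b, mul_ne_zero ha hb, curve_inj ?_⟩
  simp only [Polynomial.map_add, Polynomial.map_mul, map_C, hU, hV, map_mul]
  linear_combination (C (algebraMap k[X] (FractionRing k[X]) a) *
    C (algebraMap k[X] (FractionRing k[X]) b)) * hUV

theorem curve_wr [CharZero k] {l : k[X]} (hl : l ≠ 0) (a : k[X])
    (h : l * derivative a = derivative l * a) : ∃ t : k, a = C t * l := by
  have key : ∀ b : k[X], b ≠ 0 → l * derivative b = derivative l * b →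
      b.natDegree = l.natDegree := by
    intro b hb hw
    have h1 : l * (derivative b * X) = (derivative l * X) * b := by linear_combination X * hw
    have hc : ∀ p : k[X], (derivative p * X).coeff p.natDegree = p.natDegree * p.leadingCoeff ∧
        (derivative p * X).natDegree ≤ p.natDegree := by
      intro p
      rcases hn : p.natDegree with _ | n
      · rw [eq_C_of_natDegree_eq_zero hn]
        simp
      · constructor
        · rw [coeff_mul_X, coeff_derivative, leadingCoeff, hn]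
          push_cast
          ring
        · refine natDegree_mul_le.trans ?_
          have := natDegree_derivative_le p
          rw [natDegree_X]
          omega
    have h2 := congrArg (fun p => coeff p (l.natDegree + b.natDegree)) h1
    rw [coeff_mul_add_eq_of_natDegree_le le_rfl (hc b).2,
      coeff_mul_add_eq_of_natDegree_le (hc l).2 le_rfl, (hc b).1, (hc l).1] at h2
    have hl' : l.leadingCoeff ≠ 0 := leadingCoeff_ne_zero.2 hl
    have hb' : b.leadingCoeff ≠ 0 := leadingCoeff_ne_zero.2 hb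
    have h3 : (l.leadingCoeff * b.leadingCoeff) * ((b.natDegree : k) - l.natDegree) = 0 := by
      unfold leadingCoeff at h2 ⊢
      linear_combination h2
    have h4 := (mul_eq_zero.1 h3).resolve_left (mul_ne_zero hl' hb')
    exact_mod_cast sub_eq_zero.1 h4
  by_cases ha : a = 0
  · exact ⟨0, by simp [ha]⟩
  have hl' : l.leadingCoeff ≠ 0 := leadingCoeff_ne_zero.2 hl
  have ha' : a.leadingCoeff ≠ 0 := leadingCoeff_ne_zero.2 ha
  have ht : a.leadingCoeff / l.leadingCoeff ≠ 0 := div_ne_zero ha' hl'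
  refine ⟨a.leadingCoeff / l.leadingCoeff, ?_⟩
  by_contra hne
  have hne' := sub_ne_zero.2 hne
  have h1 := key _ hne' (by
    rw [derivative_sub, derivative_C_mul]
    linear_combination h)
  have h2 := key a ha h
  have h3 : (a - C (a.leadingCoeff / l.leadingCoeff) * l).degree < a.degree := by
    refine degree_sub_lt_left ?_ ha ?_
    · rw [degree_C_mul ht, degree_eq_natDegree ha, degree_eq_natDegree hl, h2]
    · rw [leadingCoeff_mul, leadingCoeff_C, div_mul_cancel₀ _ hl']
  rw [degree_eq_natDegree hne', degree_eq_natDegree ha, h1, h2] at h3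
  exact lt_irrefl _ h3

theorem curve_key {P : Set (Ω × Ω)} (hF : Fib P) {A : k[X][X]} (hA0 : A ≠ 0) (hA : curve_J P A)
    (hmin : ∀ A' : k[X][X], A' ≠ 0 → curve_J P A' → A.natDegree ≤ A'.natDegree)
    {π : (FractionRing k[X])[X]} (hπ : Irreducible π)
    (hd : π ∣ A.map (algebraMap k[X] (FractionRing k[X]))) :
    ∃ (r : k[X]) (π₀ S₀ : k[X][X]) (u : FractionRing k[X]), r ≠ 0 ∧ C r * A = π₀ * S₀ ∧ u ≠ 0 ∧
      π₀.map (algebraMap k[X] (FractionRing k[X])) = C u * π ∧ 0 < π₀.natDegree ∧
        ¬ curve_J P S₀ ∧ ¬ π ∣ S₀.map (algebraMap k[X] (FractionRing k[X])) := by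
  obtain ⟨S, hS⟩ := hd
  obtain ⟨a, π₀, ha, hπ₀⟩ := curve_clear π
  obtain ⟨b, S₀, hb, hS₀⟩ := curve_clear S
  have hinj := IsFractionRing.injective k[X] (FractionRing k[X])
  have hu : algebraMap k[X] (FractionRing k[X]) a ≠ 0 := (map_ne_zero_iff _ hinj).2 ha
  have hE : C (a * b) * A = π₀ * S₀ := by
    refine curve_inj ?_
    simp only [Polynomial.map_mul, map_C, hπ₀, hS₀, hS, map_mul]
    ring
  have hdeg : 0 < π₀.natDegree := by
    rw [← natDegree_map_eq_of_injective hinj, hπ₀, natDegree_C_mul hu]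
    exact hπ.natDegree_pos
  have hne : π₀ * S₀ ≠ 0 := by
    rw [← hE]
    exact mul_ne_zero (C_ne_zero.2 (mul_ne_zero ha hb)) hA0
  have hnJ : ¬ curve_J P S₀ := by
    intro hJ
    have h1 := hmin S₀ (right_ne_zero_of_mul hne) hJ
    have h2 := congrArg natDegree hE
    rw [natDegree_C_mul (mul_ne_zero ha hb),
      natDegree_mul (left_ne_zero_of_mul hne) (right_ne_zero_of_mul hne)] at h2
    omega
  refine ⟨a * b, π₀, S₀, _, mul_ne_zero ha hb, hE, hu, hπ₀, hdeg, hnJ, ?_⟩
  rintro ⟨T, hT⟩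
  obtain ⟨c, T₀, hc, hT₀⟩ := curve_clear T
  apply hnJ
  have h1 : C c * (S₀ * S₀) = A * (C b * T₀) := by
    refine curve_inj ?_
    simp only [Polynomial.map_mul, map_C, hT₀, hS]
    linear_combination (C (algebraMap k[X] (FractionRing k[X]) c) *
      map (algebraMap k[X] (FractionRing k[X])) S₀) * hT +
      (C (algebraMap k[X] (FractionRing k[X]) c) * π * T) * hS₀
  refine curve_rad (curve_C hF hc ?_)
  rw [h1]
  exact curve_mul hA _

end

theorem p_CURVE (hDX : S_DX) :
    S_CURVE := by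
  intro k Ω _ _ _ _ f P A₀ hf hPinf hF hfwd hA₀ hJ₀
  classical
  have hex : ∃ n, ∃ A : k[X][X], A ≠ 0 ∧ curve_J P A ∧ A.natDegree = n := ⟨_, A₀, hA₀, hJ₀, rfl⟩
  obtain ⟨A, hA0, hA, hn⟩ := Nat.find_spec hex
  have hmin : ∀ A' : k[X][X], A' ≠ 0 → curve_J P A' → A.natDegree ≤ A'.natDegree := by
    intro A' h0 hJ
    rw [hn]
    exact Nat.find_min' hex ⟨A', h0, hJ, rfl⟩
  have hinj := IsFractionRing.injective k[X] (FractionRing k[X])
  have hA0' : A.map (algebraMap k[X] (FractionRing k[X])) ≠ 0 :=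
    (Polynomial.map_ne_zero_iff hinj).2 hA0
  obtain ⟨hX1, hX2, hX3, -⟩ := hDX k
  refine ⟨A, hA, ⟨?_, ?_, ?_⟩, hmin⟩
  · exact curve_div hA0 hA hmin ((sub f A).natDegree + 1) _
      (lt_of_le_of_lt degree_le_natDegree (by norm_cast; omega)) (curve_subJ hf hfwd hA)
  · refine curve_bez (isCoprime_of_irreducible_dvd (fun h => hA0' h.1) fun π hπ h1 h2 => ?_)
    obtain ⟨r, π₀, S₀, u, hr, hE, hu, hπ₀, hdeg, hnJ, hnd⟩ := curve_key hF hA0 hA hmin hπ h1
    have h3 : C r * derivative A = derivative π₀ * S₀ + π₀ * derivative S₀ := by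
      rw [← derivative_mul, ← hE, derivative_C_mul]
    have h4 := congrArg (Polynomial.map (algebraMap k[X] (FractionRing k[X]))) h3
    simp only [Polynomial.map_mul, Polynomial.map_add, hπ₀] at h4
    have h5 : π ∣ (derivative π₀).map (algebraMap k[X] (FractionRing k[X])) *
        S₀.map (algebraMap k[X] (FractionRing k[X])) := by
      rw [← dvd_add_left (Dvd.dvd.mul_right (Dvd.intro_left _ rfl : π ∣ C u * π)
        ((derivative S₀).map (algebraMap k[X] (FractionRing k[X])))), ← h4]
      exact Dvd.dvd.mul_left h2 _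
    have h6 := (hπ.prime.dvd_or_dvd h5).resolve_right hnd
    have h7 : derivative π₀ ≠ 0 := by
      intro h
      have := derivative_eq_zero.1 h
      omega
    have h8 := natDegree_le_of_dvd h6 ((Polynomial.map_ne_zero_iff hinj).2 h7)
    have h9 : π₀.natDegree = π.natDegree := by
      rw [← natDegree_map_eq_of_injective hinj, hπ₀, natDegree_C_mul hu]
    rw [natDegree_map_eq_of_injective hinj] at h8
    have := natDegree_derivative_le π₀
    omega
  · refine curve_bez (isCoprime_of_irreducible_dvd (fun h => hA0' h.1) fun π hπ h1 h2 => ?_)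
    obtain ⟨r, π₀, S₀, u, hr, hE, hu, hπ₀, hdeg, hnJ, hnd⟩ := curve_key hF hA0 hA hmin hπ h1
    have h3 : C (derivative r) * A + C r * dX A = dX π₀ * S₀ + π₀ * dX S₀ := by
      rw [← (hX2 _ _).2, ← hE, (hX2 _ _).2, hX3]
    have h4 := congrArg (Polynomial.map (algebraMap k[X] (FractionRing k[X]))) h3
    simp only [Polynomial.map_mul, Polynomial.map_add, hπ₀] at h4
    have h5 : π ∣ (dX π₀).map (algebraMap k[X] (FractionRing k[X])) *
        S₀.map (algebraMap k[X] (FractionRing k[X])) := by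
      rw [← dvd_add_left (Dvd.dvd.mul_right (Dvd.intro_left _ rfl : π ∣ C u * π)
        ((dX S₀).map (algebraMap k[X] (FractionRing k[X])))), ← h4]
      exact dvd_add (Dvd.dvd.mul_left h1 _) (Dvd.dvd.mul_left h2 _)
    have h6 := (hπ.prime.dvd_or_dvd h5).resolve_right hnd
    have hπ0 : π₀ ≠ 0 := by
      rintro rfl
      simp at hdeg
    have hl : π₀.leadingCoeff ≠ 0 := leadingCoeff_ne_zero.2 hπ0
    have h9 : π₀.natDegree = π.natDegree := by
      rw [← natDegree_map_eq_of_injective hinj, hπ₀, natDegree_C_mul hu]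
    have h7 : C π₀.leadingCoeff * dX π₀ - C (derivative π₀.leadingCoeff) * π₀ = 0 := by
      by_contra hne
      have h10 : π ∣ (C π₀.leadingCoeff * dX π₀ - C (derivative π₀.leadingCoeff) * π₀).map
          (algebraMap k[X] (FractionRing k[X])) := by
        simp only [Polynomial.map_mul, Polynomial.map_sub, hπ₀]
        exact dvd_sub (Dvd.dvd.mul_left h6 _) (Dvd.dvd.mul_left (Dvd.intro_left _ rfl) _)
      have h8 := natDegree_le_of_dvd h10 ((Polynomial.map_ne_zero_iff hinj).2 hne)
      rw [natDegree_map_eq_of_injective hinj, ← h9] at h8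
      refine leadingCoeff_ne_zero.2 hne ?_
      rw [leadingCoeff, coeff_sub, coeff_C_mul, coeff_C_mul, hX1]
      rcases h8.eq_or_lt with h | h
      · rw [← h, ← leadingCoeff]
        ring
      · rw [coeff_eq_zero_of_natDegree_lt h]
        simp
    have h8 : ∀ i, ∃ t : k, π₀.coeff i = C t * π₀.leadingCoeff := by
      intro i
      refine curve_wr hl _ ?_
      have := congrArg (fun p => coeff p i) h7
      simp only [coeff_sub, coeff_C_mul, hX1, coeff_zero] at this
      exact sub_eq_zero.1 this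
    choose t ht using h8
    have h10 : π₀ = C π₀.leadingCoeff *
        (∑ i ∈ Finset.range (π₀.natDegree + 1), monomial i (t i)).map C := by
      conv_lhs => rw [π₀.as_sum_range]
      rw [Polynomial.map_sum, Finset.mul_sum]
      refine Finset.sum_congr rfl fun i _ => ?_
      rw [map_monomial, C_mul_monomial, ht i, mul_comm]
    have hT : (∑ i ∈ Finset.range (π₀.natDegree + 1), monomial i (t i) : k[X]) ≠ 0 := by
      intro h
      rw [h, Polynomial.map_zero, mul_zero] at h10
      exact hπ0 h10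
    apply hnJ
    refine curve_Y hF hT (curve_C hF hl ?_)
    rw [← mul_assoc, ← h10, ← hE, mul_comm]
    exact curve_mul hA _

end Pool.Agent.P.MP_8d2e9f_nt.AO
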