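import Pool.Agent.P.MP_8d2e9f_nt.AO.Iface

/-! Step FORMP. -/

set_option autoImplicit false

namespace Pool.Agent.P.MP_8d2e9f_nt.AO

open Polynomial NumberField Pool.Agent.P.MP_8d2e9f_nt.G
open scoped IntermediateField

theorem formp_norm {p : ℕ} [Fact p.Prime] {x : Om p} (hx : IsIntegral ℤ x) : ‖x‖ ≤ 1 := by
  have h : x ∈ (PadicAlgCl.valued p).v.integer :=
    (Valuation.integer.integers (PadicAlgCl.valued p).v).mem_of_integral hx.tower_top
  exact h

theorem formp_le {p : ℕ} [Fact p.Prime] (j : Qbar →+* Om p) {N : ℕ} {z : Qbar} (hN : 0 < N)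
    (hp : N < p) (hz : IsIntegral ℤ ((N : Qbar) * z)) : ‖j z‖ ≤ 1 := by
  have h := formp_norm (hz.map j.toIntAlgHom)
  have h1 : ‖(N : Om p)‖ = 1 := by
    rw [← map_natCast (algebraMap ℚ_[p] (Om p)), norm_algebraMap', Padic.norm_natCast_eq_one_iff]
    exact (Nat.coprime_of_lt_prime hN.ne' hp Fact.out)
  have e : j.toIntAlgHom ((N : Qbar) * z) = (N : Om p) * j z := by simp
  rwa [e, norm_mul, h1, one_mul] at h

theorem formp_fix {K : IF} {σ : GK K} {w x : Qbar} (h : σ w = w) (hx : x ∈ K⟮w⟯) : σ x = x := by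
  have h1 : K⟮w⟯ ≤ IntermediateField.fixedField (MulAction.stabilizer (GK K) w) :=
    IntermediateField.adjoin_simple_le_iff.2
      ((IntermediateField.mem_fixedField_iff _ _).2 fun g hg => hg)
  exact (IntermediateField.mem_fixedField_iff _ _).1 (h1 hx) σ h

theorem formp_tame {K : IF} {p : ℕ} [Fact p.Prime] {j : Qbar →+* Om p} {D : Subgroup (GK K)}
    {z w : Qbar} (e : K⟮z⟯ = K⟮w⟯) (h : Tame K j D z) : Tame K j D w := by
  intro σ hσ h1 h2
  refine formp_fix (h σ hσ (e ▸ h1) (formp_fix h2 ?_)) ?_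
  · exact e ▸ IntermediateField.mem_adjoin_simple_self K z
  · exact e ▸ IntermediateField.mem_adjoin_simple_self K w

theorem formp_aeval {K : IF} (f : K[X]) (L : IntermediateField K Qbar) {x : Qbar} (hx : x ∈ L) :
    aeval x f ∈ L :=
  (Algebra.adjoin_le (S := L.toSubalgebra) (Set.singleton_subset_iff.2 hx))
    (aeval_mem_adjoin_singleton K x)

theorem formp_orb (hABG : S_ABG) {K : IF} (f : K[X]) (Q : Qbar → Prop)
    (hQ : ∀ z w, K⟮z⟯ = K⟮w⟯ → Q z → Q w) {N : ℕ} {H : ℝ} (hN : 0 < N)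
    (hb : ∀ z ∈ Function.periodicPts fun x : Qbar => aeval x f, Bd N H z)
    (hi : {z ∈ Function.periodicPts (fun x : Qbar => aeval x f) | Ab K z ∧ Q z}.Infinite) :
    Orb K f {z ∈ Function.periodicPts (fun x : Qbar => aeval x f) | Ab K z ∧ Q z} := by
  have hA := (hABG K).1
  refine ⟨hi, fun σ z hz => ?_, Set.finite_empty.subset fun z hz => hz.2 ?_,
    N, H, hN, fun z hz => hb z hz.1⟩
  · obtain ⟨-, h2, h3⟩ := hA z hz.2.1
    have h4 := h2 _ (h3 σ)
    have h5 := (hA _ h4).2.2 σ⁻¹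
    have e : σ⁻¹ (σ z) = z := σ.symm_apply_apply z
    rw [e] at h5
    have hs : Function.Semiconj σ (fun x : Qbar => aeval x f) fun x : Qbar => aeval x f :=
      fun x => (aeval_algHom_apply σ x f).symm
    exact ⟨hs.mapsTo_periodicPts hz.1, h4, hQ _ _ (le_antisymm
      (IntermediateField.adjoin_simple_le_iff.2 h5)
      (IntermediateField.adjoin_simple_le_iff.2 (h3 σ))) hz.2.2⟩
  · obtain ⟨⟨n, hn, hp⟩, ha, hq⟩ := hz.1
    have h1 := formp_aeval f _ (IntermediateField.mem_adjoin_simple_self K z)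
    have h2 : ∀ m, (fun x : Qbar => aeval x f)^[m + 1] z ∈ K⟮aeval z f⟯ := by
      intro m
      induction m with
      | zero => exact IntermediateField.mem_adjoin_simple_self K _
      | succ m ih =>
        rw [Function.iterate_succ_apply']
        exact formp_aeval f _ ih
    have h3 := h2 (n - 1)
    rw [Nat.sub_add_cancel hn, hp.eq] at h3
    exact ⟨⟨n, hn, hp.apply⟩, (hA z ha).2.1 _ h1, hQ _ _ (le_antisymm
      (IntermediateField.adjoin_simple_le_iff.2 h3)
      (IntermediateField.adjoin_simple_le_iff.2 h1)) hq⟩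

theorem p_FORMP (hABG : S_ABG) (hFROB : S_FROB) (hBP : S_BP) (hLOCT : S_LOCT) (hLOCW : S_LOCW) :
    S_FORMP := by
  intro K f hK hd hi
  obtain ⟨N, H, hN, hb⟩ := hBP (f.map (algebraMap K Qbar)) (by rwa [natDegree_map])
  simp only [eval_map_algebraMap] at hb
  refine ⟨max N f.natDegree, fun p _ φ j f₀ hp hl hf hdeg => ?_⟩
  obtain ⟨hp1, hp2⟩ := max_lt_iff.1 hp
  obtain ⟨D, τ, hD⟩ := hFROB K p φ j hl
  have hder : derivative (f₀.map (zr p)) ≠ 0 := by
    intro h
    have h1 := coeff_derivative (f₀.map (zr p)) (f.natDegree - 1)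
    rw [h, coeff_zero, ← Nat.cast_succ, Nat.succ_eq_add_one,
      Nat.sub_add_cancel (by omega)] at h1
    rcases mul_eq_zero.1 h1.symm with h2 | h2
    · rw [← hdeg, coeff_natDegree, leadingCoeff_eq_zero] at h2
      rw [h2, natDegree_zero] at hdeg
      omega
    · exact absurd (Nat.le_of_dvd (by omega) ((ZMod.natCast_eq_zero_iff _ p).1 h2)) (by omega)
  have hj : ∀ z ∈ Function.periodicPts fun x : Qbar => aeval x f, ‖j z‖ ≤ 1 :=
    fun z hz => formp_le j hN hp1 (hb z hz).1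
  by_cases ht : {z ∈ Function.periodicPts (fun x : Qbar => aeval x f) |
      Ab K z ∧ Tame K j D z}.Infinite
  · exact hLOCT K f _ p φ j D τ f₀ hK hd
      (formp_orb hABG f _ (fun z w e => formp_tame e) hN hb ht) (fun z hz => hz.2.1) hl hD hf hder
      (fun z hz => hj z hz.1) fun z hz => hz.2.2
  · have hw : {z ∈ Function.periodicPts (fun x : Qbar => aeval x f) |
        Ab K z ∧ ¬ Tame K j D z}.Infinite := fun h => hi (((Set.not_infinite.1 ht).union h).subset
      fun z hz => (em (Tame K j D z)).imp (fun t => ⟨hz.1, hz.2, t⟩) fun t => ⟨hz.1, hz.2, t⟩)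
    exact hLOCW K f _ p φ j D τ f₀ hK hd
      (formp_orb hABG f _ (fun z w e h t => h (formp_tame e.symm t)) hN hb hw)
      (fun z hz => hz.2.1) hl hD hf hder (fun z hz => hj z hz.1) (by omega) (fun z hz => hz.1)
      fun z hz => hz.2.2

end Pool.Agent.P.MP_8d2e9f_nt.AO
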