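import Pool.Agent.P.MP_8d2e9f_nt.AO.Iface

/-! Step FORMT. -/

set_option autoImplicit false

namespace Pool.Agent.P.MP_8d2e9f_nt.AO

open Polynomial NumberField Pool.Agent.P.MP_8d2e9f_nt.G
open scoped IntermediateField

lemma formt_int {p : ℕ} [Fact p.Prime] {x : Om p} (hx : IsIntegral ℤ x) : ‖x‖ ≤ 1 := by
  let O := (NormedField.valuation (K := Om p)).valuationSubring
  have h : IsIntegral O x := hx.tower_top
  obtain ⟨y, rfl⟩ := IsIntegrallyClosed.isIntegral_iff.1 h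
  exact NNReal.coe_le_coe.2 ((Valuation.mem_valuationSubring_iff _ _).1 y.2)

lemma formt_nat {p N : ℕ} [Fact p.Prime] (h0 : 0 < N) (h : N < p) : ‖(N : Om p)‖ = 1 := by
  have e : (N : Om p) = algebraMap ℚ_[p] (Om p) N := (map_natCast _ _).symm
  rw [e, norm_algebraMap', Padic.norm_natCast_eq_one_iff]
  exact (Nat.coprime_of_lt_prime h0.ne' h Fact.out)

lemma formt_le {p N : ℕ} [Fact p.Prime] (j : Qbar →+* Om p) (h0 : 0 < N) (h : N < p) {z : Qbar}
    (hz : IsIntegral ℤ ((N : Qbar) * z)) : ‖j z‖ ≤ 1 := by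
  have := formt_int (hz.map j.toIntAlgHom)
  change ‖j (N * z)‖ ≤ 1 at this
  rwa [map_mul, map_natCast, norm_mul, formt_nat h0 h, one_mul] at this

lemma formt_der {p : ℕ} [Fact p.Prime] {g : (ZMod p)[X]} (h0 : 0 < g.natDegree)
    (h : g.natDegree < p) : derivative g ≠ 0 := fun e => by
  obtain ⟨d, hd⟩ : ∃ d, g.natDegree = d + 1 := ⟨_, (Nat.succ_pred_eq_of_pos h0).symm⟩
  have h1 := congrArg (coeff · d) e
  simp only [coeff_derivative, coeff_zero, mul_eq_zero] at h1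
  rcases h1 with h1 | h1
  · rw [← hd, coeff_natDegree, leadingCoeff_eq_zero] at h1
    rw [h1, natDegree_zero] at h0
    exact h0.false
  · rw [← Nat.cast_succ, ZMod.natCast_eq_zero_iff] at h1
    have := Nat.le_of_dvd d.succ_pos h1
    omega

theorem p_FORMT (hFROB : S_FROB) (hLOCT : S_LOCT) :
    S_FORMT := by
  intro K f Y hK hd hO hab ⟨M, hM⟩
  obtain ⟨N, H, hN, hb⟩ := hO.bdd
  refine ⟨M + N + f.natDegree, fun p _ φ j f₀ hp hl e1 e2 => ?_⟩
  obtain ⟨D, τ, hD⟩ := hFROB K p φ j hl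
  exact hLOCT K f Y p φ j D τ f₀ hK hd hO hab hl hD e1 (formt_der (by omega) (by omega))
    (fun z hz => formt_le j hN (by omega) (hb z hz).1)
    fun z hz σ _ => hM p j (by omega) z hz σ (Subgroup.mem_top σ)

end Pool.Agent.P.MP_8d2e9f_nt.AO
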