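import Pool.Agent.P.MP_8d2e9f_nt.AO.Iface

/-! Step FROB. -/

set_option autoImplicit false

namespace Pool.Agent.P.MP_8d2e9f_nt.AO

section

open Finset MvPolynomial

/-- a Frobenius element for finitely many integers -/
theorem frob_fin {E G ι : Type*} [NormedField E] [IsUltrametricDist E] [Group G] [Fintype ι]
    [MulSemiringAction G E] {p : ℕ} (hp : p.Prime) (hiso : ∀ (g : G) (x : E), ‖g • x‖ = ‖x‖)
    (hpn : ‖(p : E)‖ < 1) (hfix : ∀ a : E, (∀ g : G, g • a = a) → ‖a‖ ≤ 1 → ‖a ^ p - a‖ < 1)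
    (z : ι → E) (hz : ∀ i, ‖z i‖ ≤ 1) (hfin : (MulAction.orbit G z).Finite) :
    ∃ g : G, ∀ i, ‖g • z i - z i ^ p‖ < 1 := by
  classical
  let O := (NormedField.valuation (K := E)).valuationSubring
  have mO : ∀ z : E, z ∈ O ↔ ‖z‖ ≤ 1 := fun z => by
    rw [Valuation.mem_valuationSubring_iff]
    exact NNReal.coe_le_coe.symm
  let res := IsLocalRing.residue O
  have r0 : ∀ a : O, res a = 0 ↔ ‖(a : E)‖ < 1 := fun a => by
    rw [IsLocalRing.residue_eq_zero_iff, Valuation.mem_maximalIdeal_iff]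
    exact NNReal.coe_lt_coe.symm
  let act : G → O →+* O := fun g => ((MulSemiringAction.toRingHom G E g).comp O.subtype).codRestrict
    O fun a => (mO _).2 ((hiso g a).le.trans ((mO _).1 a.2))
  have ha : ∀ g (a : O), (act g a : E) = g • (a : E) := fun _ _ => rfl
  have : Fact p.Prime := ⟨hp⟩
  have : CharP (IsLocalRing.ResidueField O) p := (CharP.charP_iff_prime_eq_zero hp).2 (by
    rw [← map_natCast res, r0]
    simpa using hpn)
  have := hfin.fintype
  let val : MulAction.orbit G z → ι → O := fun y i => ⟨y.1 i, (mO _).2 (by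
    obtain ⟨g, hg⟩ := y.2
    rw [← hg]
    exact (hiso g _).le.trans (hz i))⟩
  let W : MvPolynomial (Option ι) O := ∏ y, (X none - ∑ i, X (some i) * C (val y i))
  have h1 : ∀ g, map (act g) W = W := fun g => by
    rw [map_prod]
    refine Fintype.prod_equiv (MulAction.toPerm g) _ _ fun y => ?_
    simp only [map_sub, map_sum, map_mul, map_X, map_C]
    rfl
  have h2 : map (frobenius _ p) (map res W) = map res W := by
    ext m
    rw [coeff_map, coeff_map, frobenius_def, ← map_pow, ← sub_eq_zero, ← map_sub, r0]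
    refine hfix _ (fun g => ?_) ((mO _).1 (Subtype.prop _))
    rw [← ha, ← coeff_map, h1]
  let o : MulAction.orbit G z := ⟨z, MulAction.mem_orbit_self z⟩
  have h3 := congrArg (aeval fun j : Option ι => j.elim
    (∑ i, X i * C (res (val o i) ^ p) : MvPolynomial ι (IsLocalRing.ResidueField O)) X) h2
  simp only [W, map_prod, map_sub, map_sum, map_mul, map_X, map_C, aeval_X, aeval_C,
    Option.elim_none, Option.elim_some, algebraMap_eq, frobenius_def] at h3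
  rw [prod_eq_zero (mem_univ o) (sub_self _), eq_comm, prod_eq_zero_iff] at h3
  obtain ⟨y, -, h4⟩ := h3
  obtain ⟨g, hg⟩ := y.2
  refine ⟨g, fun i => ?_⟩
  have h5 := congrArg (eval (Pi.single i 1)) (sub_eq_zero.1 h4)
  simp only [map_sum, map_mul, eval_X, eval_C, Pi.single_apply, ite_mul, one_mul, zero_mul,
    sum_ite_eq', mem_univ, if_true] at h5
  rw [← map_pow, eq_comm, ← sub_eq_zero, ← map_sub, r0] at h5
  have e : g • z i = y.1 i := congrFun hg i
  rw [e]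
  exact h5

variable (p : ℕ) [hp : Fact p.Prime]

theorem frob_norm_gal (g : PadicAlgCl p ≃ₐ[ℚ_[p]] PadicAlgCl p) (x : PadicAlgCl p) : ‖g x‖ = ‖x‖ :=
  (spectralNorm_eq_of_equiv g x).symm

theorem frob_norm_p : ‖(p : PadicAlgCl p)‖ < 1 := by
  rw [← map_natCast (algebraMap ℚ_[p] _), PadicAlgCl.norm_extends]
  exact Padic.norm_p_lt_one

theorem frob_pow_sub {a : ℚ_[p]} (ha : ‖a‖ ≤ 1) : ‖a ^ p - a‖ < 1 := by
  have h : ∀ b : ℤ_[p], ‖b ^ p - b‖ < 1 := fun b => by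
    rw [← PadicInt.mem_nonunits, ← IsLocalRing.mem_maximalIdeal, ← PadicInt.ker_toZMod,
      RingHom.mem_ker, map_sub, map_pow, ZMod.pow_card, sub_self]
  exact h ⟨a, ha⟩

/-- a Frobenius automorphism of the algebraic closure of the `p`-adic field -/
theorem frob_exists : ∃ Φ : PadicAlgCl p ≃ₐ[ℚ_[p]] PadicAlgCl p,
    ∀ z, ‖z‖ ≤ 1 → ‖Φ z - z ^ p‖ < 1 := by
  classical
  let C : {z : PadicAlgCl p // ‖z‖ ≤ 1} → Set (PadicAlgCl p ≃ₐ[ℚ_[p]] PadicAlgCl p) :=
    fun z => {Φ | ‖Φ z - z ^ p‖ < 1}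
  have h1 : ∀ z, IsClosed (C z) := fun z => by
    have h : IsLocallyConstant fun Φ : PadicAlgCl p ≃ₐ[ℚ_[p]] PadicAlgCl p => Φ z := by
      refine (IsLocallyConstant.iff_exists_open _).2 fun Φ => ⟨(fun Ψ => Φ⁻¹ * Ψ) ⁻¹' _,
        (stabilizer_isOpen_of_isIntegral (K := ℚ_[p]) z.1).preimage (by fun_prop), by simp,
        fun Ψ hΨ => ?_⟩
      have h2 : Φ.symm (Ψ z) = z := hΨ
      exact (Φ.symm_apply_eq.1 h2)
    exact isOpen_compl_iff.1 (h {y | ‖y - z ^ p‖ < 1}ᶜ)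
  have h2 : (⋂ z, C z).Nonempty := by
    refine CompactSpace.iInter_nonempty h1 fun S => ?_
    obtain ⟨g, hg⟩ := frob_fin (G := PadicAlgCl p ≃ₐ[ℚ_[p]] PadicAlgCl p) hp.out (frob_norm_gal p)
      (frob_norm_p p) (fun a ha h => by
        obtain ⟨b, rfl⟩ := IntermediateField.mem_bot.1 ((InfiniteGalois.mem_bot_iff_fixed a).2 ha)
        rw [← map_pow, ← map_sub, PadicAlgCl.norm_extends]
        exact frob_pow_sub p (by rwa [PadicAlgCl.norm_extends] at h))
      (fun i : S => i.1.1) (fun i => i.1.2) (by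
        refine (Set.Finite.pi' fun i : S =>
          (minpoly ℚ_[p] i.1.1).rootSet_finite (PadicAlgCl p)).subset ?_
        rintro _ ⟨g, rfl⟩ i
        rw [Polynomial.mem_rootSet]
        refine ⟨minpoly.ne_zero (Algebra.IsIntegral.isIntegral _), ?_⟩
        change Polynomial.aeval (g i.1.1) _ = 0
        rw [Polynomial.aeval_algHom_apply, minpoly.aeval, map_zero])
    exact ⟨g, Set.mem_iInter₂.2 fun z hz => hg ⟨z, hz⟩⟩
  obtain ⟨Φ, hΦ⟩ := h2
  exact ⟨Φ, fun z hz => Set.mem_iInter.1 hΦ ⟨z, hz⟩⟩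

end

open Polynomial NumberField Pool.Agent.P.MP_8d2e9f_nt.G
open scoped IntermediateField

theorem p_FROB :
    S_FROB := by
  intro K p _ φ j hj
  let : Algebra Qbar (Om p) := j.toAlgebra
  have : Normal K Qbar := Normal.tower_top_of_normal ℚ K Qbar
  let D : Subgroup (GK K) :=
    { carrier := {g | ∃ γ : Om p ≃ₐ[ℚ_[p]] Om p, ∀ z, j (g z) = γ (j z)}
      one_mem' := ⟨1, fun _ => rfl⟩
      mul_mem' := fun ⟨γ, hγ⟩ ⟨δ, hδ⟩ => ⟨γ * δ, fun z => by
        rw [AlgEquiv.mul_apply, hγ, hδ, AlgEquiv.mul_apply]⟩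
      inv_mem' := fun {g} ⟨γ, hγ⟩ => ⟨γ.symm, fun z => by
        rw [AlgEquiv.eq_symm_apply, ← hγ]
        exact congrArg j (g.apply_symm_apply z)⟩ }
  have h : ∀ γ : Om p ≃ₐ[ℚ_[p]] Om p, ∃ g ∈ D, ∀ z, j (g z) = γ (j z) := fun γ => by
    let ψ : Qbar →ₐ[K] Om p :=
      { (γ : Om p →+* Om p).comp j with
        commutes' := fun c => (congrArg γ (hj c)).trans ((γ.commutes _).trans (hj c).symm) }
    have hg : ∀ z, j (ψ.restrictNormal' Qbar z) = γ (j z) := fun z =>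
      ψ.restrictNormal_commutes Qbar z
    exact ⟨_, ⟨γ, hg⟩, hg⟩
  obtain ⟨Φ, hΦ⟩ := frob_exists p
  obtain ⟨τ, hτ, h1⟩ := h Φ
  refine ⟨D, τ, fun g ⟨γ, hγ⟩ z => by rw [hγ, frob_norm_gal], fun z hz => ?_, hτ,
    fun z hz => by rw [h1]; exact hΦ _ hz⟩
  obtain ⟨c, hc⟩ := IntermediateField.mem_bot.1
    ((InfiniteGalois.mem_bot_iff_fixed (k := ℚ_[p]) (j z)).2 fun γ => by
      obtain ⟨g, hg, h2⟩ := h γ
      rw [← h2, hz g hg])
  exact ⟨c, hc.symm⟩

end Pool.Agent.P.MP_8d2e9f_nt.AO
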