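import Pool.Agent.P.MP_8d2e9f_nt.AO.Iface

/-! Step GF. -/

set_option autoImplicit false

namespace Pool.Agent.P.MP_8d2e9f_nt.AO

open Polynomial NumberField Pool.Agent.P.MP_8d2e9f_nt.G
open scoped IntermediateField

theorem gf_lift (K M : Type) [Field K] [Field M] [IsAlgClosed M] (s : K →+* M) :
    ∃ σ : AlgebraicClosure K →+* M, ∀ x, σ (algebraMap K (AlgebraicClosure K) x) = s x := by
  letI : Algebra K M := s.toAlgebra
  let σ : AlgebraicClosure K →ₐ[K] M := IsAlgClosed.lift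
  exact ⟨σ.toRingHom, fun x => σ.commutes x⟩

theorem gf_closure (K : Type) [NontriviallyNormedField K] [IsUltrametricDist K] [CompleteSpace K]
    [CharZero K] (s : K →+* K) (hs : ∀ x, ‖s x‖ = ‖x‖) :
    ∃ (F : Type) (_ : NormedField F) (_ : IsUltrametricDist F) (_ : IsAlgClosed F)
      (ι : K →+* F) (σ : F →+* F) (Γ : Set (F ≃+* F)),
      (∀ x, ‖ι x‖ = ‖x‖) ∧ (∀ x, ‖σ x‖ = ‖x‖) ∧ (∀ x, σ (ι x) = ι (s x)) ∧
        (∀ γ ∈ Γ, (∀ x, ‖γ x‖ = ‖x‖) ∧ ∀ x, γ (ι x) = ι x) ∧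
          ∀ x, (∀ γ ∈ Γ, γ x = x) → ∃ y, ι y = x := by
  obtain ⟨σ, hσ⟩ := gf_lift K (AlgebraicClosure K) ((algebraMap K (AlgebraicClosure K)).comp s)
  letI : NormedField (AlgebraicClosure K) := spectralNorm.normedField K (AlgebraicClosure K)
  have hn : ∀ x : AlgebraicClosure K, ‖x‖ = spectralNorm K (AlgebraicClosure K) x := fun _ => rfl
  have hu : IsUltrametricDist (AlgebraicClosure K) :=
    IsUltrametricDist.isUltrametricDist_of_forall_norm_add_le_max_norm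
      (fun x y => isNonarchimedean_spectralNorm (K := K) x y)
  have hι : ∀ x : K, ‖algebraMap K (AlgebraicClosure K) x‖ = ‖x‖ := fun x =>
    spectralNorm_extends x
  have key : ∀ τ : AlgebraicClosure K →+* AlgebraicClosure K,
      (∀ x : K, ‖τ (algebraMap K (AlgebraicClosure K) x)‖ = ‖x‖) → ∀ x, ‖τ x‖ = ‖x‖ := by
    intro τ hτ x
    let v : AbsoluteValue (AlgebraicClosure K) ℝ :=
      { toFun := fun y => ‖τ y‖
        map_mul' := fun a b => by rw [map_mul, norm_mul]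
        nonneg' := fun a => norm_nonneg _
        eq_zero' := fun a => by rw [norm_eq_zero, map_eq_zero]
        add_le' := fun a b => by rw [map_add]; exact norm_add_le _ _ }
    exact spectralNorm_unique_field_norm_ext (K := K) (f := v) hτ x
  refine ⟨AlgebraicClosure K, inferInstance, hu, inferInstance, algebraMap K (AlgebraicClosure K),
    σ, {γ | ∀ x : K, γ (algebraMap K (AlgebraicClosure K) x) = algebraMap K (AlgebraicClosure K) x},
    hι, ?_, hσ, ?_, ?_⟩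
  · refine key σ fun x => ?_
    rw [hσ, RingHom.comp_apply, hι, hs]
  · intro γ hγ
    refine ⟨key γ.toRingHom fun x => ?_, hγ⟩
    have h1 : γ.toRingHom (algebraMap K (AlgebraicClosure K) x) =
      algebraMap K (AlgebraicClosure K) x := hγ x
    rw [h1, hι]
  · intro x hx
    refine (InfiniteGalois.mem_range_algebraMap_iff_fixed (k := K) x).2 fun γ => ?_
    exact hx γ.toRingEquiv fun y => γ.commutes y

theorem gf_compl (E : Type) [NormedField E] [IsUltrametricDist E] [CharZero E]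
    (hnt : ∃ x : E, 1 < ‖x‖) (s : E →+* E) (hs : ∀ x, ‖s x‖ = ‖x‖) :
    ∃ (F : Type) (_ : NormedField F) (_ : IsUltrametricDist F) (_ : IsAlgClosed F)
      (ι : E →+* F) (σ : F →+* F) (Γ : Set (F ≃+* F)),
      (∀ x, ‖ι x‖ = ‖x‖) ∧ (∀ x, ‖σ x‖ = ‖x‖) ∧ (∀ x, σ (ι x) = ι (s x)) ∧
        (∀ γ ∈ Γ, (∀ x, ‖γ x‖ = ‖x‖) ∧ ∀ x, γ (ι x) = ι x) ∧
          ∀ x, x ≠ 0 → (∀ γ ∈ Γ, γ x = x) → ∃ y, ‖x - ι y‖ < ‖x‖ := by
  let c : E →+* UniformSpace.Completion E := UniformSpace.Completion.coeRingHom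
  have hc : ∀ x : E, c x = (x : UniformSpace.Completion E) := fun _ => rfl
  have hcn : ∀ x : E, ‖c x‖ = ‖x‖ := fun x => UniformSpace.Completion.norm_coe x
  letI : NontriviallyNormedField (UniformSpace.Completion E) :=
    { (inferInstance : NormedField (UniformSpace.Completion E)) with
      non_trivial := by
        obtain ⟨x, hx⟩ := hnt
        exact ⟨c x, by rw [hcn]; exact hx⟩ }
  haveI : IsUltrametricDist (UniformSpace.Completion E) :=
    IsUltrametricDist.isUltrametricDist_of_forall_norm_natCast_le_one fun n => by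
      rw [← map_natCast c n, hcn]
      exact IsUltrametricDist.norm_natCast_le_one E n
  haveI : CharZero (UniformSpace.Completion E) := c.charZero_iff c.injective |>.1 inferInstance
  have hiso : Isometry s := AddMonoidHomClass.isometry_of_norm s hs
  let s' : UniformSpace.Completion E →+* UniformSpace.Completion E := hiso.mapRingHom
  have hs' : ∀ x, ‖s' x‖ = ‖x‖ := fun x =>
    hiso.isometry_mapRingHom.norm_map_of_map_zero (map_zero _) x
  have hsc : ∀ x, s' (c x) = c (s x) := fun x => hiso.mapRingHom_coe x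
  obtain ⟨F, i1, i2, i3, ι, σ, Γ, h1, h2, h3, h4, h5⟩ :=
    gf_closure (UniformSpace.Completion E) s' hs'
  refine ⟨F, i1, i2, i3, ι.comp c, σ, Γ, fun x => ?_, h2, fun x => ?_,
    fun γ hγ => ⟨(h4 γ hγ).1, fun x => (h4 γ hγ).2 _⟩, fun x hx hΓ => ?_⟩
  · rw [RingHom.comp_apply, h1, hcn]
  · rw [RingHom.comp_apply, RingHom.comp_apply, h3, hsc]
  · obtain ⟨y, rfl⟩ := h5 x hΓ
    obtain ⟨z, hz⟩ := (UniformSpace.Completion.denseRange_coe (α := E)).exists_dist_lt y
      (norm_pos_iff.2 hx)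
    refine ⟨z, ?_⟩
    rw [RingHom.comp_apply, ← map_sub, h1, hc, ← dist_eq_norm]
    exact hz

theorem gf_frac (R : Type) [CommRing R] [IsDomain R] [CharZero R] (nu : R → ℝ)
    (h0 : ∀ a, 0 ≤ nu a) (hz : ∀ a, nu a = 0 ↔ a = 0) (hm : ∀ a b, nu (a * b) = nu a * nu b)
    (ha : ∀ a b, nu (a + b) ≤ max (nu a) (nu b)) (t : R →+* R) (ht : ∀ a, nu (t a) = nu a) :
    ∃ (E : Type) (_ : NormedField E) (_ : IsUltrametricDist E) (_ : CharZero E) (j : R →+* E)
      (s : E →+* E), Function.Injective j ∧ (∀ a, ‖j a‖ = nu a) ∧ (∀ x, ‖s x‖ = ‖x‖) ∧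
        (∀ a, s (j a) = j (t a)) ∧ ∀ x, ∃ a b, b ≠ 0 ∧ j a / j b = x := by
  let j : R →+* FractionRing R := algebraMap R (FractionRing R)
  have hj : Function.Injective j := IsFractionRing.injective R (FractionRing R)
  have hj0 : ∀ b, b ≠ 0 → j b ≠ 0 := fun b hb h => hb (hj (by rw [h, map_zero]))
  have hsurj : ∀ x : FractionRing R, ∃ a b, b ≠ 0 ∧ j a / j b = x := fun x => by
    obtain ⟨a, b, hb, h⟩ := IsFractionRing.div_surjective (A := R) x
    exact ⟨a, b, nonZeroDivisors.ne_zero hb, h⟩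
  have hpos : ∀ b, b ≠ 0 → 0 < nu b := fun b hb =>
    lt_of_le_of_ne (h0 b) fun h => hb ((hz b).1 h.symm)
  have h1 : nu 1 = 1 := by
    have h := hm 1 1
    rw [one_mul] at h
    have h' := hpos 1 one_ne_zero
    exact (mul_left_cancel₀ h'.ne' (by rw [mul_one]; exact h)).symm
  obtain ⟨N, hN⟩ : ∃ N : FractionRing R → ℝ, ∀ a b, b ≠ 0 → N (j a / j b) = nu a / nu b := by
    choose num den hden hx using hsurj
    refine ⟨fun x => nu (num x) / nu (den x), fun a b hb => ?_⟩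
    have h := hx (j a / j b)
    have hd := hden (j a / j b)
    rw [div_eq_div_iff (hj0 _ hd) (hj0 _ hb), ← map_mul, ← map_mul] at h
    have h' := congrArg nu (hj h)
    rw [hm, hm] at h'
    show nu (num (j a / j b)) / nu (den (j a / j b)) = nu a / nu b
    rw [div_eq_div_iff (hpos _ hd).ne' (hpos _ hb).ne']
    exact h'
  have hadd : ∀ x y, N (x + y) ≤ max (N x) (N y) := by
    intro x y
    obtain ⟨a, b, hb, rfl⟩ := hsurj x
    obtain ⟨c, d, hd, rfl⟩ := hsurj y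
    rw [div_add_div _ _ (hj0 _ hb) (hj0 _ hd), ← map_mul, ← map_mul, ← map_mul, ← map_add,
      hN _ _ (mul_ne_zero hb hd), hN _ _ hb, hN _ _ hd, hm,
      div_le_iff₀ (mul_pos (hpos _ hb) (hpos _ hd)),
      max_mul_of_nonneg _ _ (mul_pos (hpos _ hb) (hpos _ hd)).le]
    refine (ha _ _).trans (le_of_eq ?_)
    have e1 := (hpos _ hb).ne'
    have e2 := (hpos _ hd).ne'
    have e3 : nu a / nu b * (nu b * nu d) = nu a * nu d := by field_simp
    have e4 : nu c / nu d * (nu b * nu d) = nu b * nu c := by field_simp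
    rw [hm, hm, e3, e4]
  have hnn : ∀ x, 0 ≤ N x := by
    intro x
    obtain ⟨a, b, hb, rfl⟩ := hsurj x
    rw [hN _ _ hb]
    exact div_nonneg (h0 _) (h0 _)
  let v : AbsoluteValue (FractionRing R) ℝ :=
    { toFun := N
      map_mul' := fun x y => by
        obtain ⟨a, b, hb, rfl⟩ := hsurj x
        obtain ⟨c, d, hd, rfl⟩ := hsurj y
        rw [div_mul_div_comm, ← map_mul, ← map_mul, hN _ _ (mul_ne_zero hb hd), hN _ _ hb,
          hN _ _ hd, hm, hm, div_mul_div_comm]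
      nonneg' := hnn
      eq_zero' := fun x => by
        obtain ⟨a, b, hb, rfl⟩ := hsurj x
        show N (j a / j b) = 0 ↔ j a / j b = 0
        rw [hN _ _ hb, div_eq_zero_iff, div_eq_zero_iff, hz, hz, map_eq_zero_iff j hj,
          map_eq_zero_iff j hj]
      add_le' := fun x y => (hadd x y).trans
        (max_le (le_add_of_nonneg_right (hnn y)) (le_add_of_nonneg_left (hnn x))) }
  have ht0 : ∀ b, b ≠ 0 → t b ≠ 0 := fun b hb h => hb ((hz b).1 (by rw [← ht, h, hz]))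
  have hti : Function.Injective (j.comp t) := by
    rw [injective_iff_map_eq_zero]
    intro a h
    by_contra ha'
    exact hj0 _ (ht0 a ha') h
  let s : FractionRing R →+* FractionRing R := IsFractionRing.lift hti
  have hs : ∀ a, s (j a) = j (t a) := fun a => IsFractionRing.lift_algebraMap hti a
  letI : NormedField (FractionRing R) := v.toNormedField
  have hnv : ∀ x : FractionRing R, ‖x‖ = N x := fun _ => rfl
  refine ⟨FractionRing R, inferInstance,
    IsUltrametricDist.isUltrametricDist_of_forall_norm_add_le_max_norm hadd,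
    (j.charZero_iff hj).1 inferInstance, j, s, hj, fun a => ?_, fun x => ?_, hs, hsurj⟩
  · have h := hN a 1 one_ne_zero
    rw [map_one, div_one, h1, div_one] at h
    exact h
  · obtain ⟨a, b, hb, rfl⟩ := hsurj x
    rw [map_div₀, hs, hs, hnv, hnv, hN _ _ (ht0 b hb), hN _ _ hb, ht, ht]

/-- The Gauss norm on `ℚ_[p][X]`. -/
noncomputable def gf_nu (p : ℕ) [Fact p.Prime] (g : ℚ_[p][X]) : ℝ :=
  g.gaussNorm (NormedField.toAbsoluteValue ℚ_[p]) 1

theorem gf_na (p : ℕ) [Fact p.Prime] :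
    IsNonarchimedean (NormedField.toAbsoluteValue ℚ_[p]) := fun a b =>
  IsUltrametricDist.norm_add_le_max a b

theorem gf_mul {p : ℕ} [Fact p.Prime] (a b : ℚ_[p][X]) :
    gf_nu p (a * b) = gf_nu p a * gf_nu p b := gaussNorm_mul (gf_na p) one_pos a b

theorem gf_C {p : ℕ} [Fact p.Prime] (c : ℚ_[p]) : gf_nu p (C c) = ‖c‖ := gaussNorm_C _ _ c

theorem gf_le {p : ℕ} [Fact p.Prime] (g : ℚ_[p][X]) (i : ℕ) : ‖g.coeff i‖ ≤ gf_nu p g := by
  have h := le_gaussNorm (NormedField.toAbsoluteValue ℚ_[p]) g zero_le_one i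
  rw [one_pow, mul_one] at h
  exact h

theorem gf_ex {p : ℕ} [Fact p.Prime] (g : ℚ_[p][X]) : ∃ i, gf_nu p g = ‖g.coeff i‖ := by
  obtain ⟨i, h⟩ := exists_eq_gaussNorm (NormedField.toAbsoluteValue ℚ_[p]) 1 g
  rw [one_pow, mul_one] at h
  exact ⟨i, h⟩

theorem gf_zero {p : ℕ} [Fact p.Prime] (g : ℚ_[p][X]) : gf_nu p g = 0 ↔ g = 0 :=
  gaussNorm_eq_zero_iff _ _ (fun _ hx => norm_eq_zero.1 hx) one_pos

theorem gf_red {p : ℕ} [Fact p.Prime] (c : ℤ_[p]) : ‖zq p c‖ < 1 ↔ zr p c = 0 := by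
  rw [← RingHom.mem_ker, PadicInt.ker_toZMod, IsLocalRing.mem_maximalIdeal,
    PadicInt.mem_nonunits]
  rfl

theorem gf_int {p : ℕ} [Fact p.Prime] (g : ℤ_[p][X]) :
    gf_nu p (g.map (zq p)) ≤ 1 ∧ (gf_nu p (g.map (zq p)) < 1 ↔ g.map (zr p) = 0) := by
  obtain ⟨i, hi⟩ := gf_ex (g.map (zq p))
  refine ⟨?_, fun h => ?_, fun h => ?_⟩
  · rw [hi, coeff_map]
    exact (g.coeff i).2
  · ext k
    rw [coeff_map, coeff_zero, ← gf_red, ← coeff_map]
    exact (gf_le _ k).trans_lt h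
  · rw [hi, coeff_map, gf_red, ← coeff_map, h, coeff_zero]

theorem gf_comp {p : ℕ} [Fact p.Prime] (f : ℤ_[p][X]) (hf : 0 < (f.map (zr p)).natDegree)
    (g : ℚ_[p][X]) : gf_nu p (g.comp (f.map (zq p))) = gf_nu p g := by
  rcases eq_or_ne g 0 with rfl | hg
  · rw [zero_comp]
  obtain ⟨i, hi⟩ := gf_ex g
  have hc : g.coeff i ≠ 0 := fun h => hg ((gf_zero g).1 (by rw [hi, h, norm_zero]))
  have hcp : 0 < ‖g.coeff i‖ := norm_pos_iff.2 hc
  have hl : C (g.coeff i)⁻¹ * g ∈ lifts (zq p) := by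
    rw [lifts_iff_coeff_lifts]
    intro k
    refine ⟨⟨(C (g.coeff i)⁻¹ * g).coeff k, ?_⟩, rfl⟩
    rw [coeff_C_mul, norm_mul, norm_inv, inv_mul_le_one₀ hcp, ← hi]
    exact gf_le g k
  obtain ⟨h, hh⟩ := (mem_lifts _).1 hl
  have hg' : g = C (g.coeff i) * h.map (zq p) := by
    rw [hh, ← mul_assoc, ← C_mul, mul_inv_cancel₀ hc, C_1, one_mul]
  have h1 : h.map (zr p) ≠ 0 := by
    intro h0
    have h2 := (gf_int h).2.2 h0
    rw [hh, gf_mul, gf_C, hi, norm_inv, inv_mul_cancel₀ hcp.ne'] at h2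
    exact lt_irrefl _ h2
  have h2 : (h.comp f).map (zr p) ≠ 0 := by
    rw [map_comp, Ne, comp_eq_zero_iff]
    rintro (h0 | ⟨_, h0⟩)
    · exact h1 h0
    · rw [h0, natDegree_C] at hf
      exact lt_irrefl _ hf
  have h3 : gf_nu p ((h.comp f).map (zq p)) = 1 :=
    le_antisymm (gf_int _).1 (not_lt.1 fun h4 => h2 ((gf_int _).2.1 h4))
  have h4 : g.comp (f.map (zq p)) = C (g.coeff i) * (h.comp f).map (zq p) := by
    rw [map_comp]
    conv_lhs => rw [hg', mul_comp, C_comp]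
  rw [h4, gf_mul, gf_C, h3, mul_one, hi]

theorem p_GF :
    S_GF := by
  intro p _ f hf
  obtain ⟨E, j1, j2, j3, j, s, k1, k2, k3, k4, k5⟩ := gf_frac ℚ_[p][X] (gf_nu p)
    (fun a => gaussNorm_nonneg _ a zero_le_one) gf_zero gf_mul
    (fun a b => isNonarchimedean_gaussNorm _ (gf_na p) zero_le_one a b)
    (compRingHom (f.map (zq p))) (fun a => gf_comp f hf a)
  have hnt : ∃ x : E, 1 < ‖x‖ := by
    obtain ⟨c, hc⟩ := NontriviallyNormedField.non_trivial (α := ℚ_[p])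
    exact ⟨j (C c), by rw [k2, gf_C]; exact hc⟩
  obtain ⟨F, i1, i2, i3, ι, σ, Γ, h1, h2, h3, h4, h5⟩ := gf_compl E hnt s k3
  refine ⟨F, i1, i2, i3, ι.comp j, σ, Γ, ι.injective.comp k1, fun c => ?_, fun g => ?_, h2,
    fun g => ?_, fun γ hγ => ⟨(h4 γ hγ).1, fun g => (h4 γ hγ).2 _⟩, fun x hx hΓ => ?_⟩
  · rw [RingHom.comp_apply, h1, k2, gf_C]
  · rw [RingHom.comp_apply, h1, k2]
    exact gf_int g
  · rw [RingHom.comp_apply, RingHom.comp_apply, h3, k4]
    rfl
  · obtain ⟨y, hy⟩ := h5 x hx hΓ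
    obtain ⟨a, b, hb, rfl⟩ := k5 y
    refine ⟨a, b, hb, ?_⟩
    rw [RingHom.comp_apply, RingHom.comp_apply, ← map_div₀]
    exact hy

end Pool.Agent.P.MP_8d2e9f_nt.AO
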