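import Pool.Agent.P.MP_8d2e9f_nt.AO.Iface

/-! Step HASP. -/

set_option autoImplicit false

namespace Pool.Agent.P.MP_8d2e9f_nt.AO

open Polynomial NumberField Pool.Agent.P.MP_8d2e9f_nt.G
open scoped IntermediateField

lemma hasp_field (K : IF) (L : IntermediateField K Qbar) (hK : Fd K) (F : Qbar[X])
    (hF : ∀ i, F.coeff i ∈ L) :
    ∃ K' : IF, Fd K' ∧ K ≤ K' ∧ (∀ x ∈ K', x ∈ L) ∧ ∀ i, F.coeff i ∈ K' := by
  classical
  have fin : Finite (F.coeffs : Set Qbar) := F.coeffs.finite_toSet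
  have h1 : FiniteDimensional ℚ (IntermediateField.adjoin ℚ (F.coeffs : Set Qbar)) :=
    IntermediateField.finiteDimensional_adjoin fun x _ => int_Q x
  refine ⟨K ⊔ IntermediateField.adjoin ℚ (F.coeffs : Set Qbar),
    IntermediateField.finiteDimensional_sup _ _, le_sup_left, fun x hx => ?_, fun i => ?_⟩
  · have : K ⊔ IntermediateField.adjoin ℚ (F.coeffs : Set Qbar) ≤ L.restrictScalars ℚ := by
      refine sup_le (fun y hy => L.algebraMap_mem ⟨y, hy⟩) ?_
      rw [IntermediateField.adjoin_le_iff]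
      intro y hy
      obtain ⟨i, -, rfl⟩ := mem_coeffs_iff.1 hy
      exact hF i
    exact this hx
  · by_cases h : F.coeff i = 0
    · rw [h]
      exact zero_mem _
    · exact (le_sup_right : _ ≤ K ⊔ _) (IntermediateField.subset_adjoin ℚ _ (coeff_mem_coeffs h))

theorem p_HASP (hABG : S_ABG) (hFORMP : S_FORMP) (hEXC : S_EXC) (hPPAR : S_PPAR) (hSEQ : S_SEQ) (hCHAIN : S_CHAIN) (hMANY : S_MANY) :
    S_HASP := by
  intro K L hK hL hc f h0 ⟨S, hS, hf⟩
  by_contra h1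
  have hd : 2 ≤ (f.map L.toSubfield.subtype).natDegree := by
    rw [natDegree_map]
    omega
  obtain ⟨K', fd, le, sub, hco⟩ := hasp_field K L hK (f.map L.toSubfield.subtype) fun i => by
    rw [coeff_map]
    exact (f.coeff i).2
  obtain ⟨f₀, e₀⟩ : ∃ f₀ : K'[X], f₀.map (algebraMap K' Qbar) = f.map L.toSubfield.subtype :=
    (mem_lifts _).1 ((lifts_iff_coeff_lifts _).2 fun i => ⟨⟨_, hco i⟩, rfl⟩)
  have hd₀ : 2 ≤ f₀.natDegree := by rwa [← e₀, natDegree_map] at hd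
  have ev : (fun x => (f₀.map (algebraMap K' Qbar)).eval x) = fun x : Qbar => aeval x f₀ :=
    funext fun x => eval_map_algebraMap _ _
  have hab : ∀ z ∈ L, Ab K' z := fun z hz =>
    (hABG K).2.2.1 K' le z ((hABG K).2.2.2.1 L hL z hz).1
  have hT : ((↑) '' S : Set Qbar).Infinite := hS.image Subtype.val_injective.injOn
  have hTL : ∀ x ∈ ((↑) '' S : Set Qbar), x ∈ L := by
    rintro _ ⟨x, -, rfl⟩
    exact x.2
  have hback : ∀ x ∈ ((↑) '' S : Set Qbar), ∃ z ∈ ((↑) '' S : Set Qbar),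
      (fun x => (f₀.map (algebraMap K' Qbar)).eval x) z = x := by
    rintro _ ⟨x, hx, rfl⟩
    rw [← hf] at hx
    obtain ⟨z, hz, rfl⟩ := hx
    refine ⟨z, ⟨z, hz, rfl⟩, ?_⟩
    simp only [e₀, eval_map]
    exact eval₂_at_apply L.toSubfield.subtype z
  rw [← e₀] at hd
  rcases (hCHAIN Qbar _).1 _ hT hback with h2 | ⟨y, hy, hi⟩
  · obtain ⟨a, b, hs⟩ := hEXC K' f₀ fd hd₀ (hFORMP K' f₀ fd hd₀
      (h2.mono fun z hz => ⟨ev ▸ hz.2, hab z (hTL z hz.1)⟩))
    exact hMANY L.toSubfield K' _ a b _ sub (hPPAR K' _ a b _ hd hs Set.inter_subset_right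
      (fun z hz => hab z (hTL z hz.1)) h2) (h2.sdiff (Set.finite_singleton b))
      (fun z hz => hTL z hz.1.1) hc
  · obtain ⟨a, b, hp⟩ := hSEQ K' f₀ y fd hd₀ (fun n => (congrFun ev _).symm.trans (hy n).2)
      (fun n => hab _ (hTL _ (hy n).1)) hi
    refine hMANY L.toSubfield K' _ a b _ sub hp hi ?_ hc
    rintro _ ⟨n, rfl⟩
    exact hTL _ (hy n).1

end Pool.Agent.P.MP_8d2e9f_nt.AO
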