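import Pool.Agent.P.MP_8d2e9f_nt.AO.Iface

/-! Step INV. -/

set_option autoImplicit false

namespace Pool.Agent.P.MP_8d2e9f_nt.AO

open Polynomial NumberField Pool.Agent.P.MP_8d2e9f_nt.G
open scoped IntermediateField

section ultra

variable {F : Type} [NormedField F] [IsUltrametricDist F]

lemma inv_add {a b : F} (ha : ‖a‖ < 1) (hb : ‖b‖ < 1) : ‖a + b‖ < 1 :=
  (IsUltrametricDist.norm_add_le_max a b).trans_lt (max_lt ha hb)

lemma inv_mul {a a' b b' : F} (ha : ‖a - a'‖ < 1) (hb : ‖b - b'‖ < 1) (ha' : ‖a'‖ ≤ 1)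
    (hb' : ‖b'‖ ≤ 1) : ‖a * b - a' * b'‖ < 1 := by
  have e : a * b - a' * b' = (a - a') * (b - b') + ((a - a') * b' + (b - b') * a') := by ring
  rw [e]
  refine inv_add ?_ (inv_add ?_ ?_) <;> rw [norm_mul]
  · exact mul_lt_one_of_nonneg_of_lt_one_left (norm_nonneg _) ha hb.le
  · exact mul_lt_one_of_nonneg_of_lt_one_left (norm_nonneg _) ha hb'
  · exact mul_lt_one_of_nonneg_of_lt_one_left (norm_nonneg _) hb ha'

lemma inv_prod {ι : Type} (s : Finset ι) (a : ι → F) {b : F} (hb : ‖b‖ ≤ 1)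
    (h : ∀ i ∈ s, ‖a i - b‖ < 1) : ‖∏ i ∈ s, a i - b ^ s.card‖ < 1 := by
  classical
  induction s using Finset.induction_on with
  | empty => simp
  | insert i s hi ih =>
    rw [Finset.prod_insert hi, Finset.card_insert_of_notMem hi, pow_succ']
    exact inv_mul (h i (Finset.mem_insert_self _ _))
      (ih fun j hj => h j (Finset.mem_insert_of_mem hj)) hb
      (by rw [norm_pow]; exact pow_le_one₀ (norm_nonneg _) hb)

lemma inv_eval {R : Type} [CommRing R] (c : R →+* F) (hc : ∀ z, ‖c z‖ ≤ 1) {x y : F}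
    (hxy : ‖x - y‖ < 1) (hy : ‖y‖ ≤ 1) (g : R[X]) : ‖g.eval₂ c x - g.eval₂ c y‖ < 1 := by
  induction g using Polynomial.induction_on' with
  | add a b ha hb =>
    rw [eval₂_add, eval₂_add, add_sub_add_comm]
    exact inv_add ha hb
  | monomial n a =>
    rw [eval₂_monomial, eval₂_monomial]
    refine inv_mul (by simp) ?_ (hc a) (by rw [norm_pow]; exact pow_le_one₀ (norm_nonneg _) hy)
    simpa using inv_prod (Finset.range n) (fun _ => x) hy fun _ _ => hxy

end ultra

lemma inv_sub {R F : Type} [CommRing R] [CommRing F] (e : R[X] →+* F) (σ : F →+* F) (f : R[X])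
    (hσ : ∀ g, σ (e g) = e (g.comp f)) {x y : F} (h : σ y = f.eval₂ (e.comp C) x) (T : R[X][X]) :
    (sub f T).eval₂ e x = σ (T.eval₂ e y) := by
  have h1 : σ.comp e = e.comp (compRingHom f) := RingHom.ext fun g => by simpa using hσ g
  rw [sub, eval₂_comp, eval₂_map, eval₂_map, hom_eval₂, h1, h]

lemma inv_frob (p : ℕ) [Fact p.Prime] (g : (ZMod p)[X]) : g.comp (X ^ p) = g ^ p := by
  rw [← expand_eq_comp_X_pow, ZMod.expand_card]

theorem p_INV (hDX : S_DX) (hGF : S_GF) (hPERM : S_PERM) (hAPPR : S_APPR) :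
    S_INV := by
  intro p hp f A₀ hd hA hX hC
  classical
  have hp1 : 1 < p := hp.out.one_lt
  have hdeg : 0 < (f.map (zr p)).natDegree :=
    Nat.pos_of_ne_zero fun h => hd (derivative_of_natDegree_zero h)
  obtain ⟨F, _, _, _, e, σ, Γ, hG⟩ := hGF p f hdeg
  obtain ⟨⟨r, B, hr, hB⟩, ⟨U, V, r₁, hr₁, hY⟩, U', V', r₂, hr₂, hXX⟩ := hC
  obtain ⟨Z, π, hZ, hmem, hbij, hπ⟩ :=
    hPERM p f F e σ Γ p A₀ r B hG hp.out.pos (inv_frob p _) hd hA hX hr hB
  have hG' := hG
  obtain ⟨hinj, hCn, hint, -, hσ, hΓ, -⟩ := hG'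
  obtain ⟨-, hmul, hdC, hsub⟩ := hDX ℚ_[p]
  set fq := f.map (zq p) with hfq
  set A := A₀.map (mapRingHom (zq p)) with hAq
  have he : ∀ s : ℚ_[p][X], s ≠ 0 → e s ≠ 0 := fun s hs h => hs (hinj (by rw [h, map_zero]))
  have hAY : ∀ x ∈ Z, (derivative A).eval₂ e x ≠ 0 := fun x hx h => he r₁ hr₁ (by
    have := congrArg (eval₂ e x) hY
    rw [eval₂_add, eval₂_mul, eval₂_mul, ((hmem x).1 hx).1, h, eval₂_C] at this
    rw [← this]; simp)
  have hAX : ∀ x ∈ Z, (dX A).eval₂ e x ≠ 0 := fun x hx h => he r₂ hr₂ (by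
    have := congrArg (eval₂ e x) hXX
    rw [eval₂_add, eval₂_mul, eval₂_mul, ((hmem x).1 hx).1, h, eval₂_C] at this
    rw [← this]; simp)
  have hDq : derivative fq = (derivative f).map (zq p) := by rw [hfq, derivative_map]
  have hD1 : ‖e (derivative fq)‖ = 1 := by
    rw [hDq]
    refine le_antisymm (hint _).1 (not_lt.1 fun h => hd ?_)
    rw [derivative_map]
    exact (hint _).2.1 h
  have hD0 : e (derivative fq) ≠ 0 := fun h => by simp [h] at hD1
  let g : F → F := fun x => (dX A).eval₂ e x / (derivative A).eval₂ e x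
  let w : F → F := fun x => (derivative fq).eval₂ (e.comp C) x / e (derivative fq)
  have hkey : ∀ x ∈ Z, σ (g (π x)) = g x * w x := fun x hx => by
    have h0 : A.eval₂ e x = 0 := ((hmem x).1 hx).1
    have h1 : (sub fq A).eval₂ e x = 0 := by
      rw [inv_sub e σ fq hσ (hπ x hx), ((hmem _).1 (hbij.mapsTo hx)).1, map_zero]
    have a := congrArg (fun T => eval₂ e x (dX T)) hB
    have b := congrArg (fun T => eval₂ e x (derivative T)) hB
    simp only [(hmul _ _).2, hdC, (hsub _ _).1, eval₂_add, eval₂_mul, eval₂_C, h0, h1,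
      inv_sub e σ fq hσ (hπ x hx) (dX A), mul_zero, zero_mul, zero_add, add_zero] at a
    simp only [derivative_mul, derivative_C, (hsub _ _).2, eval₂_add, eval₂_mul, eval₂_C, h0,
      inv_sub e σ fq hσ (hπ x hx) (derivative A), eval₂_map, zero_mul, zero_add, add_zero] at b
    have n1 : σ ((derivative A).eval₂ e (π x)) ≠ 0 :=
      (map_ne_zero σ).2 (hAY _ (hbij.mapsTo hx))
    have n2 := hAY x hx
    have n3 := he r hr
    simp only [g, w, map_div₀]
    rw [div_mul_div_comm, div_eq_div_iff n1 (mul_ne_zero n2 hD0)]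
    refine mul_left_cancel₀ n3 ?_
    linear_combination (derivative A).eval₂ e x * a - (dX A).eval₂ e x * b
  have hH0 : ∏ x ∈ Z, g x ≠ 0 :=
    Finset.prod_ne_zero_iff.2 fun x hx => div_ne_zero (hAX x hx) (hAY x hx)
  have hHΓ : ∀ γ ∈ Γ, γ (∏ x ∈ Z, g x) = ∏ x ∈ Z, g x := fun γ hγ => by
    have h1 : (γ : F →+* F).comp e = e := RingHom.ext fun s => (hΓ γ hγ).2 s
    have h2 : ∀ (T : ℚ_[p][X][X]) (x : F), γ (T.eval₂ e x) = T.eval₂ e (γ x) := fun T x => by
      have := hom_eval₂ T e (γ : F →+* F) x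
      rwa [h1] at this
    have h3 : Set.MapsTo γ Z Z := fun x hx => (hmem _).2 ⟨by
      rw [← h2, ((hmem x).1 hx).1, map_zero], by
        rw [← (hΓ γ hγ).2 X, ← map_pow, ← map_sub, (hΓ γ hγ).1]
        exact ((hmem x).1 hx).2⟩
    have h4 : Set.BijOn γ Z Z :=
      (Z.finite_toSet.injOn_iff_bijOn_of_mapsTo h3).1 γ.injective.injOn
    rw [map_prod]
    refine Finset.prod_nbij γ h4.mapsTo h4.injOn h4.surjOn fun x _ => ?_
    simp only [g, map_div₀, h2]
  have hHσ : σ (∏ x ∈ Z, g x) = (∏ x ∈ Z, g x) * ∏ x ∈ Z, w x := by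
    have h1 : ∏ x ∈ Z, g (π x) = ∏ x ∈ Z, g x :=
      Finset.prod_nbij π hbij.mapsTo hbij.injOn hbij.surjOn fun _ _ => rfl
    rw [← Finset.prod_mul_distrib, ← Finset.prod_congr rfl hkey, ← map_prod, h1]
  have hw : ∀ x ∈ Z, ‖w x - e (derivative fq) ^ (p - 1)‖ < 1 := fun x hx => by
    have hX1 : ‖e X ^ p‖ ≤ 1 := by
      have := (hint X).1
      rw [map_X] at this
      rw [norm_pow]
      exact pow_le_one₀ (norm_nonneg _) this
    have h1 := inv_eval ((e.comp C).comp (zq p)) (fun z => by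
      simpa [hCn] using PadicInt.norm_le_one z) ((hmem x).1 hx).2 hX1 (derivative f)
    have h2 := (hint ((derivative f).comp (X ^ p) - derivative f ^ p)).2.2 (by
      rw [Polynomial.map_sub, Polynomial.map_comp, Polynomial.map_pow, Polynomial.map_pow, map_X,
        inv_frob, sub_self])
    have h3 : (derivative f).eval₂ ((e.comp C).comp (zq p)) (e X ^ p) =
        e (((derivative f).comp (X ^ p)).map (zq p)) := by
      rw [Polynomial.map_comp, Polynomial.map_pow, map_X, comp, hom_eval₂, eval₂_map, map_pow]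
    rw [Polynomial.map_sub, map_sub, ← h3, Polynomial.map_pow, map_pow, ← hDq] at h2
    have h4 := inv_add h1 h2
    rw [sub_add_sub_cancel, ← eval₂_map, ← hDq] at h4
    have h5 : w x - e (derivative fq) ^ (p - 1) =
        ((derivative fq).eval₂ (e.comp C) x - e (derivative fq) ^ p) / e (derivative fq) := by
      have hk' : e (derivative fq) ^ p = e (derivative fq) ^ (p - 1) * e (derivative fq) := by
        rw [← pow_succ]; congr 1; omega
      rw [hk', sub_div, mul_div_cancel_right₀ _ hD0]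
    rw [h5, norm_div, hD1, div_one]
    exact h4
  have hu := inv_prod Z w (by rw [norm_pow, hD1, one_pow]) hw
  obtain ⟨P, Q, hP, hQ, hPQ⟩ := hAPPR p f (derivative f ^ ((p - 1) * Z.card)) F e σ Γ _ _ hG hH0
    hHΓ hHσ (by rw [Polynomial.map_pow, map_pow, ← hDq, pow_mul]; exact hu)
  refine ⟨P, Q, (p - 1) * Z.card, hP, hQ, Nat.mul_pos (by omega) hZ.card_pos, ?_⟩
  rw [hPQ, Polynomial.map_pow, derivative_map]

end Pool.Agent.P.MP_8d2e9f_nt.AO
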