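import Pool.Agent.P.MP_8d2e9f_nt.AO.Iface

/-! Step INVW. -/

set_option autoImplicit false

namespace Pool.Agent.P.MP_8d2e9f_nt.AO

open Polynomial NumberField Pool.Agent.P.MP_8d2e9f_nt.G
open scoped IntermediateField

/-- the closed unit ball of an ultrametric field -/
def invw_O (F : Type) [NormedField F] [IsUltrametricDist F] : Subring F where
  carrier := {x | ‖x‖ ≤ 1}
  mul_mem' := fun {a b} ha hb => by
    simp only [Set.mem_ofPred_eq, norm_mul] at *
    exact mul_le_one₀ ha (norm_nonneg _) hb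
  one_mem' := by simp
  add_mem' := fun {a b} ha hb => (IsUltrametricDist.norm_add_le_max a b).trans (max_le ha hb)
  zero_mem' := by simp
  neg_mem' := fun {a} ha => by simpa using ha

theorem invw_taylor {R F : Type} [CommRing R] [NormedField F] [IsUltrametricDist F]
    (ι : R →+* F) (hι : ∀ c, ‖ι c‖ ≤ 1) (f : R[X]) (t x : F) (ht : ‖t‖ ≤ 1) (hx : ‖x - t‖ < 1) :
    ∃ u : F, f.eval₂ ι x - f.eval₂ ι t = (x - t) * u ∧
      ‖u - (derivative f).eval₂ ι t‖ < 1 := by
  let ρ : R →+* invw_O F := ι.codRestrict (invw_O F) hι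
  let t' : invw_O F := ⟨t, ht⟩
  let y : invw_O F := ⟨x - t, hx.le⟩
  obtain ⟨k, hk⟩ := binomExpansion (f.map ρ) t' y
  have hc : (invw_O F).subtype.comp ρ = ι := by ext; rfl
  have he : ∀ (g : R[X]) (z : invw_O F), (((g.map ρ).eval z : invw_O F) : F) = g.eval₂ ι z := by
    intro g z
    rw [eval_map, ← hc, ← Subring.coe_subtype, hom_eval₂]
  have h2 := congrArg (fun z : invw_O F => (z : F)) hk
  simp only [Subring.coe_add, Subring.coe_mul, SubmonoidClass.coe_pow, derivative_map, he] at h2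
  have h3 : (t' : F) + (y : F) = x := by simp [t', y]
  rw [h3] at h2
  refine ⟨(derivative f).eval₂ ι t + k * (x - t), ?_, ?_⟩
  · rw [h2]
    simp only [t', y]
    ring
  · rw [add_sub_cancel_left, norm_mul]
    exact mul_lt_one_of_nonneg_of_lt_one_right k.2 (norm_nonneg _) hx

theorem invw_prod {F T : Type} [NormedField F] [IsUltrametricDist F] (Z : Finset T) (u : T → F)
    (c : F) (hc : ‖c‖ ≤ 1) (hu : ∀ x ∈ Z, ‖u x - c‖ < 1) :
    ‖∏ x ∈ Z, u x - c ^ Z.card‖ < 1 := by
  classical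
  induction Z using Finset.induction_on with
  | empty => simp
  | insert a s ha ih =>
    have h1 := ih fun x hx => hu x (Finset.mem_insert_of_mem hx)
    have h2 := hu a (Finset.mem_insert_self _ _)
    have h3 : ‖u a‖ ≤ 1 := by
      have := IsUltrametricDist.norm_add_le_max (u a - c) c
      rw [sub_add_cancel] at this
      exact this.trans (max_le h2.le hc)
    have h4 : ‖c ^ s.card‖ ≤ 1 := by
      rw [norm_pow]
      exact pow_le_one₀ (norm_nonneg _) hc
    rw [Finset.prod_insert ha, Finset.card_insert_of_notMem ha]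
    have : u a * ∏ x ∈ s, u x - c ^ (s.card + 1) =
        u a * (∏ x ∈ s, u x - c ^ s.card) + c ^ s.card * (u a - c) := by ring
    rw [this]
    refine (IsUltrametricDist.norm_add_le_max _ _).trans_lt (max_lt ?_ ?_)
    · rw [norm_mul]
      exact mul_lt_one_of_nonneg_of_lt_one_right h3 (norm_nonneg _) h1
    · rw [norm_mul]
      exact mul_lt_one_of_nonneg_of_lt_one_right h4 (norm_nonneg _) h2

theorem p_INVW (hGF : S_GF) (hPERM : S_PERM) (hAPPR : S_APPR) :
    S_INVW := by
  classical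
  intro p _ f A₀ hd hA hev hne hC
  have hdeg : 0 < (f.map (zr p)).natDegree :=
    Nat.pos_of_ne_zero fun h => hd (derivative_of_natDegree_zero h)
  obtain ⟨F, _, _, _, e, σ, Γ, hG⟩ := hGF p f hdeg
  obtain ⟨r, B, hr, hB⟩ := hC.1
  obtain ⟨Z, π, hZne, hZ, hπ, hσ⟩ := hPERM p f F e σ Γ 1 A₀ r B hG one_pos (by simp) hd hA
    (by simpa using hev) hr hB
  obtain ⟨hinj, hC1, hle, -, hσe, hΓ, -⟩ := id hG
  simp only [pow_one] at hZ
  have hee : ∀ g : ℚ_[p][X], e g = g.eval₂ (e.comp C) (e X) := fun g => by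
    rw [← hom_eval₂, eval₂_C_X]
  have hee' : ∀ g : ℤ_[p][X], e (g.map (zq p)) = g.eval₂ ((e.comp C).comp (zq p)) (e X) :=
    fun g => by rw [hee, eval₂_map]
  have ht : ‖e X‖ ≤ 1 := by simpa using (hle X).1
  have hι : ∀ c, ‖((e.comp C).comp (zq p)) c‖ ≤ 1 := fun c => by simpa using (hle (C c)).1
  have hxt : ∀ x ∈ Z, x - e X ≠ 0 := fun x hx h => by
    have h1 := ((hZ x).1 hx).1
    rw [sub_eq_zero.1 h, eval₂_hom, eval_map] at h1
    have h2 : eval₂ (mapRingHom (zq p)) X A₀ = (A₀.eval X).map (zq p) := by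
      have := eval₂_hom (mapRingHom (zq p)) (p := A₀) X
      simpa using this
    rw [h2, ← map_zero e] at h1
    exact hne (map_injective _ (IsFractionRing.injective ℤ_[p] ℚ_[p])
      (by rw [hinj h1, Polynomial.map_zero]))
  have hH : ∏ x ∈ Z, (x - e X) ≠ 0 := Finset.prod_ne_zero_iff.2 hxt
  have hinv : ∀ γ ∈ Γ, γ (∏ x ∈ Z, (x - e X)) = ∏ x ∈ Z, (x - e X) := fun γ hγ => by
    obtain ⟨hn, hfix⟩ := hΓ γ hγ
    have hc : (γ : F →+* F).comp e = e := RingHom.ext fun g => hfix g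
    have hm : ∀ x ∈ Z, γ x ∈ Z := fun x hx => by
      obtain ⟨h1, h2⟩ := (hZ x).1 hx
      refine (hZ _).2 ⟨?_, ?_⟩
      · have := hom_eval₂ (A₀.map (mapRingHom (zq p))) e (γ : F →+* F) x
        rw [h1, map_zero, hc] at this
        exact this.symm
      · rw [← hfix X, ← map_sub, hn]
        exact h2
    have him : Z.image γ = Z :=
      Finset.eq_of_subset_of_card_le (Finset.image_subset_iff.2 hm)
        (Finset.card_image_of_injective Z γ.injective).ge
    rw [map_prod]
    conv_rhs => rw [← him, Finset.prod_image γ.injective.injOn]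
    exact Finset.prod_congr rfl fun x _ => by rw [map_sub, hfix]
  choose! u hu1 hu2 using fun x (hx : x ∈ Z) =>
    invw_taylor _ hι f (e X) x ht ((hZ x).1 hx).2
  have hσH : σ (∏ x ∈ Z, (x - e X)) = (∏ x ∈ Z, (x - e X)) * ∏ x ∈ Z, u x := by
    rw [map_prod, ← Finset.prod_mul_distrib,
      ← Finset.prod_nbij π (fun x hx => hπ.mapsTo hx) hπ.injOn hπ.surjOn
        (f := fun x => σ (π x - e X)) (g := fun x => σ (x - e X)) fun _ _ => rfl]
    refine Finset.prod_congr rfl fun x hx => ?_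
    rw [map_sub, hσ x hx, hσe, X_comp, hee', eval₂_map, hu1 x hx]
  have hu : ‖∏ x ∈ Z, u x - e ((derivative f ^ Z.card).map (zq p))‖ < 1 := by
    rw [Polynomial.map_pow, map_pow]
    refine invw_prod Z u _ (hle _).1 fun x hx => ?_
    rw [hee']
    exact hu2 x hx
  obtain ⟨P, Q, hP, hQ, h⟩ := hAPPR p f (derivative f ^ Z.card) F e σ Γ _ _ hG hH hinv hσH hu
  refine ⟨P, Q, Z.card, hP, hQ, hZne.card_pos, ?_⟩
  rw [h, Polynomial.map_pow, derivative_map]

end Pool.Agent.P.MP_8d2e9f_nt.AO
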