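import Pool.Agent.P.MP_8d2e9f_nt.AO.Iface

/-! Step KUM. -/

set_option autoImplicit false

namespace Pool.Agent.P.MP_8d2e9f_nt.AO

open Polynomial NumberField Pool.Agent.P.MP_8d2e9f_nt.G
open scoped IntermediateField

lemma kum_root {F : Type} [NormedField F] [IsUltrametricDist F] (u : F) (m : ℕ)
    (hm : ‖(m : F)‖ = 1) (hu : u ^ m = 1) (h : ‖u - 1‖ < 1) : u = 1 := by
  by_contra hne
  have h1 : ∑ i ∈ Finset.range m, u ^ i = 0 := by
    have := geom_sum_mul u m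
    rw [hu, sub_self, mul_eq_zero] at this
    exact this.resolve_right (sub_ne_zero.2 hne)
  have hu1 : ‖u‖ ≤ 1 := by
    have := IsUltrametricDist.norm_add_le_max (u - 1) 1
    rw [sub_add_cancel, norm_one] at this
    exact this.trans (max_le h.le le_rfl)
  have h2 : ∀ i : ℕ, ‖1 - u ^ i‖ ≤ ‖u - 1‖ := by
    intro i
    induction i with
    | zero => simp
    | succ i ih =>
      have e : 1 - u ^ (i + 1) = (1 - u ^ i) + -(u ^ i * (u - 1)) := by ring
      rw [e]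
      refine (IsUltrametricDist.norm_add_le_max _ _).trans (max_le ih ?_)
      rw [norm_neg, norm_mul, norm_pow]
      exact mul_le_of_le_one_left (norm_nonneg _) (pow_le_one₀ (norm_nonneg _) hu1)
  have h3 : ∀ k : ℕ, ‖∑ i ∈ Finset.range k, (1 - u ^ i)‖ ≤ ‖u - 1‖ := by
    intro k
    induction k with
    | zero => simp
    | succ k ih =>
      rw [Finset.sum_range_succ]
      exact (IsUltrametricDist.norm_add_le_max _ _).trans (max_le ih (h2 k))
  have h4 := h3 m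
  rw [Finset.sum_sub_distrib, h1] at h4
  simp only [Finset.sum_const, Finset.card_range, nsmul_eq_mul, mul_one, sub_zero] at h4
  rw [hm] at h4
  exact absurd (h4.trans_lt h) (lt_irrefl _)

lemma kum_frob {K : IF} {p : ℕ} [hp : Fact p.Prime] {j : Qbar →+* Om p} {τ : GK K}
    (hτ : ∀ x, ‖j x‖ ≤ 1 → ‖j (τ x) - j x ^ p‖ < 1) {m : ℕ} (hm : p.Coprime m) {η : Qbar}
    (hη : η ^ m = 1) : τ η = η ^ p := by
  have hm0 : m ≠ 0 := by
    rintro rfl
    exact hp.out.one_lt.ne' (by simpa using hm)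
  have h1 : ‖j η‖ = 1 := by
    have : ‖j η‖ ^ m = 1 := by rw [← norm_pow, ← map_pow, hη, map_one, norm_one]
    exact (pow_eq_one_iff_of_nonneg (norm_nonneg _) hm0).1 this
  have hη0 : η ≠ 0 := by
    rintro rfl
    simp at h1
  have hj0 : j η ^ p ≠ 0 := pow_ne_zero _ ((map_ne_zero j).2 hη0)
  have hmn : ‖(m : Om p)‖ = 1 := by
    have := PadicAlgCl.norm_extends p (m : ℚ_[p])
    rw [Padic.norm_natCast_eq_one_iff.2 hm] at this
    rw [← this]
    congr 1
  have h2 : j (τ η) / j η ^ p = 1 := by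
    refine kum_root _ m hmn ?_ ?_
    · rw [div_pow, ← map_pow, ← map_pow, hη, map_one, map_one, ← pow_mul, mul_comm, pow_mul,
        ← map_pow, hη, map_one, one_pow, div_one]
    · rw [div_sub_one hj0, norm_div, norm_pow, h1, one_pow, div_one]
      exact hτ η h1.le
  rw [div_eq_one_iff_eq hj0, ← map_pow] at h2
  exact j.injective h2

lemma kum_fin {K : IF} (hK : Fd K) {β : K} (hβ : β ≠ 0) {d : ℕ} (hd : 2 ≤ d) (δ : ℕ → K)
    (h : ∀ n, δ n ^ d ^ n = β) : ∃ k : ℕ, 0 < k ∧ β ^ k = 1 := by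
  obtain ⟨N, hN0, hN⟩ := exists_integral_multiples ℤ ℚ ({β} : Finset K)
  have hN := hN β (Finset.mem_singleton_self β)
  let B : ℝ := 1 + ∑ φ : K →+* ℂ, ‖φ β‖
  have hpos : ∀ n, 0 < d ^ n := fun n => pow_pos (by omega) n
  have hmem : ∀ n, (N : K) * δ n ∈
      {x : K | IsIntegral ℤ x ∧ ∀ φ : K →+* ℂ, ‖φ x‖ ≤ ‖(N : ℂ)‖ * B} := by
    intro n
    refine ⟨IsIntegral.of_pow (hpos n) ?_, fun φ => ?_⟩
    · obtain ⟨k, hk⟩ := Nat.exists_eq_succ_of_ne_zero (hpos n).ne'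
      have e : ((N : K) * δ n) ^ d ^ n = (N : K) ^ k * (N • β) := by
        rw [mul_pow, h n, hk, pow_succ, zsmul_eq_mul, mul_assoc]
      rw [e]
      refine IsIntegral.mul (IsIntegral.pow ?_ k) hN
      exact_mod_cast isIntegral_algebraMap (R := ℤ) (A := K) (x := N)
    · rw [map_mul, norm_mul, map_intCast]
      refine mul_le_mul_of_nonneg_left ?_ (norm_nonneg _)
      have h1 : ‖φ β‖ ≤ ∑ φ : K →+* ℂ, ‖φ β‖ :=
        Finset.single_le_sum (f := fun φ : K →+* ℂ => ‖φ β‖) (fun _ _ => norm_nonneg _)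
          (Finset.mem_univ φ)
      have h2 : ‖φ (δ n)‖ ^ d ^ n = ‖φ β‖ := by rw [← norm_pow, ← map_pow, h n]
      rcases le_or_gt ‖φ (δ n)‖ 1 with h3 | h3
      · have := norm_nonneg (φ β)
        simp only [B]; linarith
      · have := le_self_pow₀ h3.le (hpos n).ne'
        simp only [B]; linarith
  have hfin := NumberField.Embeddings.finite_of_norm_le K ℂ (‖(N : ℂ)‖ * B)
  obtain ⟨a, b, hab, e⟩ := Set.Finite.exists_lt_map_eq_of_forall_mem hmem hfin
  have hN1 : (N : K) ≠ 0 := by exact_mod_cast hN0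
  have e' : δ a = δ b := mul_left_cancel₀ hN1 e
  obtain ⟨c, rfl⟩ := Nat.exists_eq_add_of_lt hab
  have h1 : β ^ d ^ (c + 1) = β := by
    conv_rhs => rw [← h (a + c + 1), ← e', add_assoc, pow_add, pow_mul, h a]
  have h2 : 1 < d ^ (c + 1) := Nat.one_lt_pow (by omega) (by omega)
  refine ⟨d ^ (c + 1) - 1, by omega, ?_⟩
  apply mul_right_cancel₀ hβ
  rw [← pow_succ, Nat.sub_add_cancel h2.le, h1, one_mul]

theorem p_KUM (hPLACE : S_PLACE) (hFROB : S_FROB) :
    S_KUM := by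
  intro K d γ z hK hd hγ hγ0 hz hab
  obtain ⟨p, hp, φ, j, hdp, hloc, -⟩ := hPLACE K d ∅ hK
  obtain ⟨D, τ, -, -, -, hτ⟩ := hFROB K p φ j hloc
  have hcop : ∀ n, p.Coprime (d ^ n) := fun n =>
    Nat.Coprime.pow_right n ((Nat.Prime.coprime_iff_not_dvd hp.out).2
      (Nat.not_dvd_of_pos_of_lt (by omega) hdp))
  have hfix : ∀ ρ : GK K, ρ γ = γ := fun ρ => ρ.commutes ⟨γ, hγ⟩
  have hz0 : ∀ n, z n ≠ 0 := by
    intro n h0
    apply hγ0
    rw [← hz n, h0, zero_pow (pow_pos (by omega) n).ne']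
  have hτ0 : ∀ n, τ (z n) ≠ 0 := fun n => (map_ne_zero τ).2 (hz0 n)
  have hδ : ∀ n, ∃ c : K, (c : Qbar) = z n ^ p / τ (z n) := by
    intro n
    have : z n ^ p / τ (z n) ∈ Set.range (algebraMap K Qbar) := by
      rw [InfiniteGalois.mem_range_algebraMap_iff_fixed]
      intro ρ
      have hη : (ρ (z n) / z n) ^ d ^ n = 1 := by
        rw [div_pow, ← map_pow, hz n, hfix, div_self hγ0]
      have h1 := kum_frob hτ (hcop n) hη
      have hρ0 : ρ (z n) ≠ 0 := (map_ne_zero ρ).2 (hz0 n)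
      rw [map_div₀, div_pow, div_eq_div_iff (hτ0 n) (pow_ne_zero _ (hz0 n))] at h1
      rw [map_div₀, map_pow, hab n ρ τ,
        div_eq_div_iff ((map_ne_zero τ).2 hρ0) (hτ0 n)]
      linear_combination -h1
    exact this
  choose δ hδ using hδ
  have hp1 : 1 < p := hp.out.one_lt
  have hβ : ((⟨γ, hγ⟩ : K) ^ (p - 1)) ≠ 0 := pow_ne_zero _ fun e => hγ0 (congrArg Subtype.val e)
  obtain ⟨k, hk, e⟩ := kum_fin hK hβ hd δ fun n => by
    apply Subtype.ext
    push_cast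
    rw [hδ, div_pow, ← map_pow, hz n, hfix, ← pow_mul, mul_comm, pow_mul, hz n, div_eq_iff hγ0,
      ← pow_succ, Nat.sub_add_cancel hp1.le]
  rw [isOfFinOrder_iff_pow_eq_one]
  refine ⟨(p - 1) * k, Nat.mul_pos (by omega) hk, ?_⟩
  have := congrArg Subtype.val e
  push_cast at this
  rw [pow_mul]
  exact this

end Pool.Agent.P.MP_8d2e9f_nt.AO
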