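import Pool.Agent.P.MP_8d2e9f_nt.AO.Iface

/-! Step LIFT. -/

set_option autoImplicit false

namespace Pool.Agent.P.MP_8d2e9f_nt.AO

open Polynomial NumberField Pool.Agent.P.MP_8d2e9f_nt.G
open scoped IntermediateField

lemma lift_cheb {R S : Type} [CommRing R] [CommRing S] (φ : R →+* S) (g : R[X]) (d : ℕ) :
    (cheb g d).map φ = cheb (g.map φ) d := by
  simp only [cheb, Polynomial.map_sub, Polynomial.map_mul, Polynomial.map_add, Polynomial.map_pow,
    map_C, map_X, coeff_map, derivative_map, map_mul, map_pow, map_natCast, map_ofNat,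
    Polynomial.map_natCast, Polynomial.map_ofNat]

lemma lift_tr {R S : Type} [CommRing R] [CommRing S] (φ : R →+* S) (f : R[X]) (s : R) :
    (f.comp (X + C s) - C s).map φ = (f.map φ).comp (X + C (φ s)) - C (φ s) := by
  simp [Polynomial.map_sub, map_comp]

lemma lift_form_map {R S : Type} [Field R] [Field S] (φ : R →+* S) {f : R[X]} (h : Form f) :
    Form (f.map φ) := by
  obtain ⟨P, Q, N, hP, hQ, hN, e⟩ := h
  refine ⟨P.map φ, Q.map φ, N, Polynomial.map_ne_zero hP, Polynomial.map_ne_zero hQ, hN, ?_⟩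
  have := congrArg (Polynomial.map φ) e
  simpa only [Polynomial.map_mul, Polynomial.map_pow, map_comp, ← derivative_map] using this

lemma lift_form_tr {R : Type} [Field R] {f : R[X]} (t : R) (h : Form f) :
    Form (f.comp (X + C t) - C t) := by
  obtain ⟨P, Q, N, hP, hQ, hN, e⟩ := h
  have hc : ∀ A : R[X], (A.comp (X + C t)).comp (f.comp (X + C t) - C t) =
      (A.comp f).comp (X + C t) := fun A => by
    rw [comp_assoc, comp_assoc]
    simp
  refine ⟨P.comp (X + C t), Q.comp (X + C t), N, by rwa [Ne, comp_X_add_C_eq_zero_iff],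
    by rwa [Ne, comp_X_add_C_eq_zero_iff], hN, ?_⟩
  have := congrArg (fun A : R[X] => A.comp (X + C t)) e
  simp only [mul_comp, pow_comp] at this
  rw [hc, hc, this]
  simp [derivative_comp]

lemma lift_deg {R : Type} [Field R] (f : R[X]) (t : R) :
    (f.comp (X + C t) - C t).natDegree = f.natDegree := by
  rw [natDegree_sub_C, natDegree_comp, natDegree_X_add_C, mul_one]

lemma lift_zr {p : ℕ} [Fact p.Prime] {x : ℤ_[p]} (h : ‖zq p x‖ = 1) : zr p x ≠ 0 := by
  have hu : IsUnit x := PadicInt.isUnit_iff.2 h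
  exact (hu.map (zr p)).ne_zero

theorem p_LIFT (hPLACE : S_PLACE) (hORB : S_ORB) (hCOEF : S_COEF) :
    S_LIFT := by
  classical
  intro K f s hK hd ⟨N, hN⟩ h0
  by_contra hne
  obtain ⟨i, hi⟩ : ∃ i, (cheb (f.comp (X + C s) - C s) f.natDegree).coeff i ≠ 0 := by
    by_contra hh
    exact hne (Polynomial.ext fun i => by simpa using not_exists.1 hh i)
  obtain ⟨p, hp, φ, j, hpN, hloc, hs⟩ := hPLACE K (max N (2 * f.natDegree))
    (insert s (insert ((cheb (f.comp (X + C s) - C s) f.natDegree).coeff i) f.coeffs)) hK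
  have hf0 : f ≠ 0 := by rintro rfl; simp at hd
  have hco : ∀ l, f.coeff l ≠ 0 → ‖φ (f.coeff l)‖ = 1 := fun l hl =>
    hs _ (Finset.mem_insert_of_mem (Finset.mem_insert_of_mem (coeff_mem_coeffs hl))) hl
  have hle : ∀ l, ‖φ (f.coeff l)‖ ≤ 1 := fun l => by
    rcases eq_or_ne (f.coeff l) 0 with e | e
    · simp [e]
    · exact (hco l e).le
  have hs1 : ‖φ s‖ ≤ 1 := by
    rcases eq_or_ne s 0 with e | e
    · simp [e]
    · exact (hs _ (Finset.mem_insert_self _ _) e).le
  have hc := hs _ (Finset.mem_insert_of_mem (Finset.mem_insert_self _ _)) hi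
  obtain ⟨f₀, hf₀⟩ : ∃ f₀ : ℤ_[p][X], f₀.map (zq p) = f.map φ := by
    rw [← mem_lifts, lifts_iff_coeff_lifts]
    intro l
    exact ⟨⟨φ (f.coeff l), hle l⟩, by rw [coeff_map]; rfl⟩
  obtain ⟨s₀, hs₀⟩ : ∃ s₀ : ℤ_[p], zq p s₀ = φ s := ⟨⟨φ s, hs1⟩, rfl⟩
  have inj : Function.Injective (zq p) := Subtype.val_injective
  have hd₀ : f₀.natDegree = f.natDegree := by
    rw [← natDegree_map_eq_of_injective inj, hf₀, natDegree_map]
  have hdr : (f₀.map (zr p)).natDegree = f.natDegree := by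
    rw [← hd₀]
    refine natDegree_map_of_leadingCoeff_ne_zero _ (lift_zr ?_)
    rw [leadingCoeff, ← coeff_map, hf₀, coeff_map, hd₀]
    exact hco _ (leadingCoeff_ne_zero.2 hf0)
  have hF := hN p φ j f₀ ((le_max_left _ _).trans_lt hpN) hloc hf₀ hdr
  set k := AlgebraicClosure (ZMod p)
  set ι : ZMod p →+* k := algebraMap (ZMod p) k
  set g₀ := f₀.comp (X + C s₀) - C s₀ with hg₀
  have e1 : g₀.map (zq p) = (f.comp (X + C s) - C s).map φ := by
    rw [lift_tr, lift_tr, hf₀, hs₀]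
  have e2 : (g₀.map (zr p)).map ι =
      ((f₀.map (zr p)).map ι).comp (X + C (ι (zr p s₀))) - C (ι (zr p s₀)) := by
    rw [lift_tr, lift_tr]
  set G := (g₀.map (zr p)).map ι with hG
  have hGd : G.natDegree = f.natDegree := by rw [e2, lift_deg, natDegree_map, hdr]
  have hGF : Form G := e2 ▸ lift_form_tr _ (lift_form_map ι hF)
  have hch : ∀ n : ℕ, 0 < n → n ≤ 2 * f.natDegree → (n : k) ≠ 0 := fun n h1 h2 h3 => by
    have := Nat.le_of_dvd h1 ((CharP.cast_eq_zero_iff k p n).1 h3)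
    have := (le_max_right _ _).trans_lt hpN
    omega
  have hz : g₀.coeff (f.natDegree - 1) = 0 := by
    apply inj
    rw [← coeff_map, e1, coeff_map, coeff_sub, h0, coeff_C_of_ne_zero (by omega)]
    simp
  obtain ⟨a, b, hab⟩ := hORB k G (hGd ▸ hd) (fun n h1 h2 => hch n h1 (by omega)) hGF
  have hC := hCOEF k G a b (hGd ▸ hd) (fun n h1 h2 => hch n h1 (by omega))
    (by rw [hGd, hG, coeff_map, coeff_map, hz]; simp) hab
  rw [hGd, hG, ← lift_cheb, ← lift_cheb, Polynomial.map_eq_zero] at hC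
  refine lift_zr (x := (cheb g₀ f.natDegree).coeff i) ?_ (by rw [← coeff_map, hC]; simp)
  rw [← coeff_map, lift_cheb, e1, ← lift_cheb, coeff_map]
  exact hc

end Pool.Agent.P.MP_8d2e9f_nt.AO
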