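import Pool.Agent.P.MP_8d2e9f_nt.AO.Iface

/-! Step LOCT. -/

set_option autoImplicit false

namespace Pool.Agent.P.MP_8d2e9f_nt.AO

open Polynomial NumberField Pool.Agent.P.MP_8d2e9f_nt.G
open scoped IntermediateField

theorem loct_delta (p : ℕ) (hp : 2 ≤ p) :
    ∃ δ : ℝ, δ < 1 ∧ ∀ t : ℝ, 0 ≤ t → t ^ (p - 1) ≤ (p : ℝ)⁻¹ → t ≤ δ := by
  have h1 : (1 : ℝ) < p := by exact_mod_cast hp
  have h0 : (0 : ℝ) ≤ (p : ℝ)⁻¹ := by positivity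
  have hn : p - 1 ≠ 0 := by omega
  have hpos : (0 : ℝ) < ((p - 1 : ℕ) : ℝ)⁻¹ := by
    have : (0 : ℝ) < ((p - 1 : ℕ) : ℝ) := by exact_mod_cast Nat.pos_of_ne_zero hn
    positivity
  refine ⟨((p : ℝ)⁻¹) ^ (((p - 1 : ℕ) : ℝ)⁻¹), Real.rpow_lt_one h0 (inv_lt_one_of_one_lt₀ h1) hpos,
    fun t ht h => ?_⟩
  have h2 := Real.rpow_inv_natCast_pow h0 hn
  rw [← h2] at h
  exact le_of_pow_le_pow_left₀ hn (Real.rpow_nonneg h0 _) h

theorem loct_ne {k : Type} [Field k] {f : k[X]} {A : k[X][X]} (h : Crv f A) : A ≠ 0 := by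
  rintro rfl
  obtain ⟨-, ⟨U, V, r, hr, h⟩, -⟩ := h
  rw [derivative_zero, mul_zero, mul_zero, add_zero] at h
  exact hr (C_eq_zero.1 h.symm)

theorem p_LOCT (hCRV : S_CRV) (hABG : S_ABG) (hPRIM : S_PRIM) (hRAM : S_RAM) (hAUX2 : S_AUX2) (hRED : S_RED) (hCURVE : S_CURVE) (hINV : S_INV) :
    S_LOCT := by
  intro K f Y p _ φ j D τ f₀ hK hd hO hAb hL hD hf hder hY hT
  obtain ⟨δ, hδ, hδ'⟩ := loct_delta p (Fact.out : p.Prime).two_le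
  set P : Set (Qbar × Qbar) := {x | x.1 ∈ Y ∧ x.2 = τ x.1} with hP
  have hsub : P ⊆ Y ×ˢ Y := fun x hx => ⟨hx.1, hx.2 ▸ hO.gal τ _ hx.1⟩
  have hfib : Fib P := by
    refine ⟨fun z => (Set.finite_singleton (τ z)).subset fun w hw => hw.2,
      fun w => (Set.finite_singleton (τ.symm w)).subset fun z hz => ?_⟩
    have h : w = τ z := hz.2
    rw [Set.mem_singleton_iff, h, AlgEquiv.symm_apply_apply]
  have hgal : ∀ σ : GK K, ∀ x ∈ P, (σ x.1, σ x.2) ∈ P := by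
    intro σ x hx
    refine ⟨hO.gal σ _ hx.1, ?_⟩
    change σ x.2 = τ (σ x.1)
    rw [hx.2]
    exact hAb _ hx.1 σ τ
  have hnear : ∀ x ∈ P, ‖j x.2 - j x.1 ^ p‖ ≤ δ := by
    intro x hx
    have hz := hAb _ hx.1
    have hmem : τ x.1 - x.1 ^ p ∈ K⟮x.1⟯ :=
      sub_mem (((hABG K).1 _ hz).2.2 τ)
        (pow_mem (IntermediateField.mem_adjoin_simple_self K x.1) p)
    have he : j (τ x.1 - x.1 ^ p) = j x.2 - j x.1 ^ p := by rw [map_sub, map_pow, hx.2]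
    have hlt : ‖j (τ x.1 - x.1 ^ p)‖ < 1 := by
      rw [map_sub, map_pow]
      exact hD.2.2.2 _ (hY _ hx.1)
    rw [← he]
    exact hδ' _ (norm_nonneg _) (hRAM K p j D τ hD _ hz (hT _ hx.1) _ hmem hlt)
  have hco : ∀ l, ‖φ (f.coeff l)‖ ≤ 1 := by
    intro l
    rw [← coeff_map, ← hf, coeff_map]
    exact PadicInt.norm_le_one _
  obtain ⟨A₁, hA₁, hfin₁⟩ := hAUX2 K f Y p φ j δ p P hK hd hO hL hco hY hδ hsub hfib hgal hnear
  have hinf : P.Infinite := by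
    refine Set.Infinite.of_image Prod.fst (hO.inf.mono fun z hz => ?_)
    exact ⟨(z, τ z), ⟨hz, rfl⟩, rfl⟩
  have hfw : {x ∈ P | (aeval x.1 f, aeval x.2 f) ∉ P}.Finite := by
    refine (hO.fwd.image fun z => (z, τ z)).subset fun x hx => ?_
    refine ⟨x.1, ⟨hx.1.1, fun h => hx.2 ⟨h, ?_⟩⟩, Prod.ext rfl hx.1.2.symm⟩
    change aeval x.2 f = τ (aeval x.1 f)
    rw [hx.1.2]
    exact aeval_algHom_apply τ _ f
  obtain ⟨A, hfin, hC, -⟩ := hCURVE K Qbar f P A₁ (by omega) hinf hfib hfw hA₁ hfin₁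
  have hC' := hCRV.1 K ℚ_[p] φ f A hC
  obtain ⟨c, A₀, hc, hA, hA₀⟩ := hPRIM p _ (loct_ne hC')
  have hred := hRED K f Y p φ j δ p P A c A₀ hK hd hO hL hco hY hδ hsub
    (fun z hz => ⟨τ z, hz, rfl⟩) hnear hfin hc hA
  rw [hA, ← hf] at hC'
  exact hINV p f₀ A₀ hder hA₀ hred (hCRV.2 _ _ _ c hc hC')

end Pool.Agent.P.MP_8d2e9f_nt.AO
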