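import Pool.Agent.P.MP_8d2e9f_nt.AO.Iface

/-! Step LOCW. -/

set_option autoImplicit false

namespace Pool.Agent.P.MP_8d2e9f_nt.AO

open Polynomial NumberField Pool.Agent.P.MP_8d2e9f_nt.G
open scoped IntermediateField

lemma locw_pow {F : Type} [NormedField F] [IsUltrametricDist F] {a b : F} (ha : ‖a‖ ≤ 1)
    (hb : ‖b‖ ≤ 1) (n : ℕ) : ‖a ^ n - b ^ n‖ ≤ ‖a - b‖ := by
  induction n with
  | zero => simp
  | succ n ih =>
    have e : a ^ (n + 1) - b ^ (n + 1) = a * (a ^ n - b ^ n) + (a - b) * b ^ n := by ring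
    rw [e]
    refine (IsUltrametricDist.norm_add_le_max _ _).trans (max_le ?_ ?_)
    · rw [norm_mul]
      exact (mul_le_of_le_one_left (norm_nonneg _) ha).trans ih
    · rw [norm_mul, norm_pow]
      exact mul_le_of_le_one_right (norm_nonneg _) (pow_le_one₀ (norm_nonneg _) hb)

lemma locw_eval {F : Type} [NormedField F] [IsUltrametricDist F] {a b : F} (ha : ‖a‖ ≤ 1)
    (hb : ‖b‖ ≤ 1) (g : F[X]) (hg : ∀ i, ‖g.coeff i‖ ≤ 1) : ‖g.eval a - g.eval b‖ ≤ ‖a - b‖ := by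
  rw [eval_eq_sum_range, eval_eq_sum_range, ← Finset.sum_sub_distrib]
  refine IsUltrametricDist.norm_sum_le_of_forall_le_of_nonneg (norm_nonneg _) fun i _ => ?_
  rw [← mul_sub, norm_mul]
  exact (mul_le_of_le_one_left (norm_nonneg _) (hg i)).trans (locw_pow ha hb i)

lemma locw_orbit (K : IF) (z : Qbar) : {w | ∃ s : GK K, w = s z}.Finite := by
  have hz : IsIntegral K z := (int_Q z).tower_top
  refine ((minpoly K z).rootSet_finite Qbar).subset ?_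
  rintro w ⟨s, rfl⟩
  rw [mem_rootSet]
  refine ⟨minpoly.ne_zero hz, ?_⟩
  rw [aeval_algEquiv]
  simp

lemma locw_comm {K : IF} (s : GK K) (z : Qbar) (f : K[X]) : aeval (s z) f = s (aeval z f) := by
  rw [aeval_algEquiv]
  rfl

lemma locw_j {K : IF} {p : ℕ} [Fact p.Prime] (j : Qbar →+* Om p) (z : Qbar) (f : K[X]) :
    j (aeval z f) = (f.map (j.comp (algebraMap K Qbar))).eval (j z) := by
  rw [aeval_def, hom_eval₂, eval_map]

theorem p_LOCW (hCRV : S_CRV) (hABG : S_ABG) (hPRIM : S_PRIM) (hWILD : S_WILD) (hAUX2 : S_AUX2) (hRED : S_RED) (hCURVE : S_CURVE) (hINVW : S_INVW) :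
    S_LOCW := by
  intro K f Y p _ φ j D τ f₀ hFd hdeg hOrb hAb hLoc hDec hf0 hder hint hp3 hper hwild
  obtain ⟨δ, hδ, hW⟩ := hWILD K p j D τ hDec hp3
  set P : Set (Qbar × Qbar) := {x | x.1 ∈ Y ∧ (∃ s : GK K, x.2 = s x.1) ∧ x.2 ≠ x.1 ∧
    ∀ ρ : GK K, ‖j (ρ x.2) - j (ρ x.1)‖ ≤ δ} with hP
  have hc : ∀ l, ‖φ (f.coeff l)‖ ≤ 1 := fun l => by
    rw [← coeff_map, ← hf0, coeff_map]
    exact (f₀.coeff l).2
  have hPY : P ⊆ Y ×ˢ Y := by
    rintro ⟨z, w⟩ ⟨hz, ⟨s, hs⟩, -, -⟩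
    refine ⟨hz, ?_⟩
    have : w = s z := hs
    rw [this]
    exact hOrb.gal s z hz
  have hFib : Fib P := by
    refine ⟨fun z => (locw_orbit K z).subset fun w hw => hw.2.1,
      fun w => (locw_orbit K w).subset fun z hz => ?_⟩
    obtain ⟨s, hs⟩ := hz.2.1
    have : w = s z := hs
    exact ⟨s⁻¹, by rw [this]; simp⟩
  have hGal : ∀ σ : GK K, ∀ x ∈ P, (σ x.1, σ x.2) ∈ P := by
    rintro σ ⟨z, w⟩ ⟨hz, ⟨s, hs⟩, hne, hn⟩
    refine ⟨hOrb.gal σ z hz, ⟨σ * s * σ⁻¹, ?_⟩, fun e => hne (σ.injective e), fun ρ => hn (ρ * σ)⟩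
    have : w = s z := hs
    simp [this]
  have hnear : ∀ x ∈ P, ‖j x.2 - j x.1 ^ 1‖ ≤ δ := fun x hx => by
    rw [pow_one]
    exact hx.2.2.2 1
  have hpart : ∀ z ∈ Y, ∃ w, (z, w) ∈ P := fun z hz => by
    obtain ⟨s, hs, hs'⟩ := hW z (hAb z hz) (hwild z hz)
    refine ⟨s z, hz, ⟨s, rfl⟩, hs, fun ρ => ?_⟩
    have := hs' (ρ z) (((hABG K).1 z (hAb z hz)).2.2 ρ) (hint _ (hOrb.gal ρ z hz))
    rw [hAb z hz s ρ] at this
    exact this
  have hinf : P.Infinite := by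
    refine Set.Infinite.of_image Prod.fst (hOrb.inf.mono fun z hz => ?_)
    obtain ⟨w, hw⟩ := hpart z hz
    exact ⟨(z, w), hw, rfl⟩
  have hfwd : {x ∈ P | (aeval x.1 f, aeval x.2 f) ∉ P}.Finite := by
    refine (hOrb.fwd.biUnion fun z _ => (hFib.1 z).image fun w => (z, w)).subset ?_
    rintro ⟨z, w⟩ ⟨hx, hn⟩
    have hY := hPY hx
    simp only [Set.mem_iUnion]
    refine ⟨z, ⟨hY.1, fun hf => hn ?_⟩, w, hx, rfl⟩
    obtain ⟨hz, ⟨s, hs⟩, hne, hb⟩ := hx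
    have hs' : w = s z := hs
    refine ⟨hf, ⟨s, ?_⟩, fun e => hne ?_, fun ρ => ?_⟩
    · change aeval w f = s (aeval z f)
      rw [hs', locw_comm]
    · exact (Function.bijOn_periodicPts (fun x : Qbar => aeval x f)).injOn (hper hY.2) (hper hY.1) e
    · change ‖j (ρ (aeval w f)) - j (ρ (aeval z f))‖ ≤ δ
      rw [← locw_comm, ← locw_comm, locw_j, locw_j]
      refine (locw_eval (hint _ (hOrb.gal ρ w hY.2)) (hint _ (hOrb.gal ρ z hY.1)) _
        fun i => ?_).trans (hb ρ)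
      rw [coeff_map]
      change ‖j ((f.coeff i : K) : Qbar)‖ ≤ 1
      rw [hLoc]
      exact (PadicAlgCl.norm_extends p _).trans_le (hc i)
  obtain ⟨A₁, hA₁, hA₁'⟩ :=
    hAUX2 K f Y p φ j δ 1 P hFd hdeg hOrb hLoc hc hint hδ hPY hFib hGal hnear
  obtain ⟨A, hA, hCrv, hmin⟩ := hCURVE K Qbar f P A₁ (by omega) hinf hFib hfwd hA₁ hA₁'
  have hA0 : A ≠ 0 := by
    rintro rfl
    obtain ⟨U, V, r, hr, e⟩ := hCrv.2.1
    simp only [mul_zero, derivative_zero, add_zero] at e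
    exact hr (C_eq_zero.1 e.symm)
  have hinj : Function.Injective (mapRingHom φ) := map_injective φ φ.injective
  obtain ⟨c, A₀, hc0, hAc, hA₀⟩ := hPRIM p (A.map (mapRingHom φ))
    ((Polynomial.map_ne_zero_iff hinj).2 hA0)
  have hred := hRED K f Y p φ j δ 1 P A c A₀ hFd hdeg hOrb hLoc hc hint hδ hPY hpart hnear hA
    hc0 hAc
  rw [pow_one] at hred
  have hX : A₀.eval X ≠ 0 := fun e => by
    have e1 : (mapRingHom φ) (A.eval X) = 0 := by
      have h1 := eval_map_apply (p := A) (mapRingHom φ) X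
      have h2 := eval_map_apply (p := A₀) (mapRingHom (zq p)) X
      simp only [coe_mapRingHom, map_X] at h1 h2
      rw [coe_mapRingHom, ← h1, hAc, eval_mul, h2, e]
      simp
    have e2 : A.eval X = 0 := hinj (by rw [e1, map_zero])
    obtain ⟨B, hB⟩ := dvd_iff_isRoot.2 e2
    have hB0 : B ≠ 0 := fun h => hA0 (by rw [hB, h, mul_zero])
    have h3 := hmin B hB0 (hA.subset fun x hx => ⟨hx.1, fun h => hx.2 ?_⟩)
    · rw [hB, natDegree_mul (X_sub_C_ne_zero _) hB0, natDegree_X_sub_C] at h3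
      omega
    · rw [hB, map_mul, map_sub, aevalAeval_X, aevalAeval_Y, mul_eq_zero] at h
      exact h.resolve_left (sub_ne_zero.2 hx.1.2.2.1)
  have hC := hCRV.1 K ℚ_[p] φ f A hCrv
  rw [hAc, ← hf0] at hC
  exact hINVW p f₀ A₀ hder hA₀ hred hX (hCRV.2 _ _ _ c hc0 hC)

end Pool.Agent.P.MP_8d2e9f_nt.AO
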