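import Pool.Agent.P.MP_8d2e9f_nt.AO.Iface

/-! Step MANY. -/

set_option autoImplicit false

namespace Pool.Agent.P.MP_8d2e9f_nt.AO

open Polynomial NumberField Pool.Agent.P.MP_8d2e9f_nt.G
open scoped IntermediateField

lemma many_quad (b u v : Qbar) : {z : Qbar | (z - b) ^ 2 - u * (z - b) + v = 0}.Finite := by
  have hm : (X ^ 2 - C u * X + C v : Qbar[X]).Monic := by monicity!
  have hf := (Polynomial.finite_setOfPred_isRoot hm.ne_zero).image (fun w => w + b)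
  refine hf.subset ?_
  intro z hz
  refine ⟨z - b, ?_, by ring⟩
  simpa [IsRoot.def] using hz

lemma many_ne {ζ : Qbar} (h : IsOfFinOrder ζ) : ζ ≠ 0 := h.isUnit.ne_zero

lemma many_inv {ζ : Qbar} (h : IsOfFinOrder ζ) : IsOfFinOrder ζ⁻¹ := by
  obtain ⟨n, hn, h1⟩ := isOfFinOrder_iff_pow_eq_one.1 h
  exact isOfFinOrder_iff_pow_eq_one.2 ⟨n, hn, by rw [inv_pow, h1, inv_one]⟩

theorem p_MANY :
    S_MANY := by
  intro F K f a b S hK hP hS hSF hfin
  obtain ⟨ha, hb, -, hP⟩ := hP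
  have hbF := hK b hb
  apply hS
  rcases hP with ⟨-, h⟩ | ⟨ha2, -, h⟩
  · obtain ⟨z0, hz0⟩ := hS.nonempty
    obtain ⟨ζ0, h0, e0⟩ := h z0 hz0
    refine (hfin.biUnion (fun c _ => many_quad b (c * (z0 - b)) ((z0 - b) ^ 2))).subset ?_
    intro z hz
    obtain ⟨ζ, h1, e1⟩ := h z hz
    have n0 := many_ne h0
    have n1 := many_ne h1
    have hw : ζ * ζ0⁻¹ ∈ F := by
      have : ζ * ζ0⁻¹ = (z - b) / (z0 - b) := by
        rw [e0, e1, add_sub_cancel_right, add_sub_cancel_right]; field_simp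
      rw [this]
      exact F.div_mem (F.sub_mem (hSF z hz) hbF) (F.sub_mem (hSF z0 hz0) hbF)
    refine Set.mem_biUnion (x := ζ * ζ0⁻¹ + (ζ * ζ0⁻¹)⁻¹)
      ⟨F.add_mem hw (F.inv_mem hw), ζ * ζ0⁻¹, h1.mul (many_inv h0), rfl⟩ ?_
    simp only [Set.mem_ofPred_eq]
    rw [e0, e1, add_sub_cancel_right, add_sub_cancel_right]
    field_simp
    ring
  · refine (hfin.biUnion (fun c _ => many_quad b 0 (-(a ^ 2 * (c + 2))))).subset ?_
    intro z hz
    obtain ⟨ζ, h1, e1⟩ := h z hz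
    have n1 := many_ne h1
    have hw : ζ ^ 2 + (ζ ^ 2)⁻¹ ∈ F := by
      have : ζ ^ 2 + (ζ ^ 2)⁻¹ = (z - b) ^ 2 / a ^ 2 - 2 := by
        rw [e1, add_sub_cancel_right]; field_simp; ring
      rw [this]
      exact F.sub_mem (F.div_mem (F.pow_mem (F.sub_mem (hSF z hz) hbF) 2) (hK _ ha2))
        (by exact_mod_cast natCast_mem F 2)
    refine Set.mem_biUnion (x := ζ ^ 2 + (ζ ^ 2)⁻¹) ⟨hw, ζ ^ 2, h1.pow, rfl⟩ ?_
    simp only [Set.mem_ofPred_eq]
    rw [e1, add_sub_cancel_right]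
    field_simp
    ring

end Pool.Agent.P.MP_8d2e9f_nt.AO
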