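import Pool.Agent.P.MP_8d2e9f_nt.AO.Iface

/-! Step NORM. -/

set_option autoImplicit false

namespace Pool.Agent.P.MP_8d2e9f_nt.AO

open Polynomial NumberField Pool.Agent.P.MP_8d2e9f_nt.G
open scoped IntermediateField

theorem norm_int {F : Type} [NormedField F] [IsUltrametricDist F] {x : F} (hx : IsIntegral ℤ x) :
    ‖x‖ ≤ 1 := by
  have : x ∈ (NormedField.valuation (K := F)).integer :=
    (Valuation.integer.integers _).mem_of_integral hx.tower_top
  exact this

theorem norm_coeff (K : IF) (w : Qbar) : ∃ s : Multiset Qbar, s.card = (minpoly K w).natDegree ∧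
    (∀ r ∈ s, ∃ σ : GK K, σ w = r) ∧
      (((minpoly K w).coeff 0 : K) : Qbar) = (-1) ^ (minpoly K w).natDegree * s.prod := by
  have hw : IsIntegral K w := (int_Q w).tower_top
  have hs := IsAlgClosed.splits ((minpoly K w).map (algebraMap K Qbar))
  refine ⟨((minpoly K w).map (algebraMap K Qbar)).roots, ?_, fun r hr => ?_, ?_⟩
  · rw [← hs.natDegree_eq_card_roots, natDegree_map]
  · exact minpoly.exists_algEquiv_of_root' hw.isAlgebraic (mem_aroots.1 hr).2
  · have := hs.coeff_zero_eq_prod_roots_of_monic ((minpoly.monic hw).map _)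
    rwa [coeff_map, natDegree_map] at this

theorem norm_root {F : Type} [NormedField F] (φ : Qbar →+* F) (K : IF) (w : Qbar) {B : ℝ}
    (h : ∀ σ : GK K, ‖φ (σ w)‖ ≤ B) :
    ‖φ (((minpoly K w).coeff 0 : K) : Qbar)‖ ≤ B ^ (minpoly K w).natDegree := by
  obtain ⟨s, h1, h2, h3⟩ := norm_coeff K w
  have h0 : 0 ≤ B := (norm_nonneg _).trans (h 1)
  have key : ∀ t : Multiset Qbar, (∀ r ∈ t, ‖φ r‖ ≤ B) → ‖φ t.prod‖ ≤ B ^ t.card := fun t => by
    induction t using Multiset.induction_on with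
    | empty => simp
    | cons a t ih =>
      intro ht
      rw [Multiset.prod_cons, Multiset.card_cons, map_mul, norm_mul, pow_succ']
      exact mul_le_mul (ht a (Multiset.mem_cons_self _ _))
        (ih fun r hr => ht r (Multiset.mem_cons_of_mem hr)) (norm_nonneg _) h0
  rw [h3, map_mul, norm_mul, map_pow, map_neg, map_one, norm_pow, norm_neg, norm_one, one_pow,
    one_mul, ← h1]
  exact key s fun r hr => by
    obtain ⟨σ, rfl⟩ := h2 r hr
    exact h σ

theorem norm_pf (p : ℕ) [Fact p.Prime] {z : ℤ} (hz : z ≠ 0) : 1 ≤ |(z : ℝ)| * ‖(z : Om p)‖ := by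
  have hp : (0 : ℝ) < p := by exact_mod_cast (Fact.out : p.Prime).pos
  have e : ‖(z : Om p)‖ = ((p : ℝ) ^ padicValInt p z)⁻¹ := by
    rw [← map_intCast (algebraMap ℚ_[p] (Om p)), norm_algebraMap',
      Padic.norm_eq_zpow_neg_valuation (by exact_mod_cast hz), Padic.valuation_intCast, zpow_neg,
      zpow_natCast]
  have h : (p : ℤ) ^ padicValInt p z ≤ |z| :=
    Int.le_of_dvd (abs_pos.2 hz) ((dvd_abs _ _).2 (padicValInt_dvd z))
  rw [e, ← div_eq_mul_inv, one_le_div (by positivity)]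
  exact_mod_cast h

theorem p_NORM :
    S_NORM := by
  intro K p _ j w δ H hK hw hH hδ hψ hlt
  classical
  by_contra hne
  have hwK : IsIntegral K w := (int_Q w).tower_top
  have hm : (minpoly K w).natDegree ≠ 0 := (minpoly.natDegree_pos hwK).ne'
  have hc0 : (minpoly K w).coeff 0 ≠ 0 := minpoly.coeff_zero_ne_zero hwK hne
  have hci : IsIntegral ℤ ((minpoly K w).coeff 0) := by
    obtain ⟨s, -, h2, h3⟩ := norm_coeff K w
    refine (isIntegral_algHom_iff (algebraMap K Qbar).toIntAlgHom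
      (algebraMap K Qbar).injective).1 ?_
    change IsIntegral ℤ (((minpoly K w).coeff 0 : K) : Qbar)
    rw [h3]
    refine (isIntegral_one.neg.pow _).mul (IsIntegral.multiset_prod fun r hr => ?_)
    obtain ⟨σ, rfl⟩ := h2 r hr
    exact hw.map (σ : Qbar →+* Qbar).toIntAlgHom
  have h1 := norm_root j K w hδ
  have h2 : ∀ τ : K →ₐ[ℚ] ℂ, ‖τ ((minpoly K w).coeff 0)‖ ≤ H ^ (minpoly K w).natDegree := by
    intro τ
    obtain ⟨ψ, rfl⟩ := IsAlgClosed.surjective_domRestrict_of_isAlgebraic (E := Qbar) τ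
    exact norm_root (ψ : Qbar →+* ℂ) K w fun σ =>
      hψ ((ψ : Qbar →+* ℂ).comp (σ : Qbar →+* Qbar))
  generalize (minpoly K w).coeff 0 = c at hc0 hci h1 h2
  generalize (minpoly K w).natDegree = m at hm h1 h2
  obtain ⟨z, hz⟩ := IsIntegrallyClosed.isIntegral_iff.1 (Algebra.isIntegral_norm ℚ hci)
  have hz' : Algebra.norm ℚ c = (z : ℚ) := hz.symm
  have z0 : z ≠ 0 := by
    rintro rfl
    exact hc0 (Algebra.norm_eq_zero_iff.1 (hz'.trans Int.cast_zero))
  have e1 : |(z : ℝ)| ≤ (H ^ m) ^ Module.finrank ℚ K := by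
    have := Algebra.norm_eq_prod_embeddings ℚ ℂ c
    rw [hz', map_intCast] at this
    rw [← Complex.norm_intCast, this, norm_prod, ← AlgHom.card ℚ K ℂ, ← Finset.card_univ,
      ← Finset.prod_const]
    exact Finset.prod_le_prod (fun _ _ => norm_nonneg _) fun τ _ => h2 τ
  have e2 : ‖(z : Om p)‖ ≤ δ ^ m := by
    have := congrArg j (Algebra.norm_eq_prod_embeddings ℚ Qbar c)
    rw [hz', map_intCast, map_intCast, map_prod] at this
    rw [this, norm_prod]
    refine (Finset.mul_prod_erase _ (fun τ : K →ₐ[ℚ] Qbar => ‖j (τ c)‖)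
      (Finset.mem_univ K.val)).symm.trans_le ?_
    refine (mul_le_of_le_one_right (norm_nonneg _) (Finset.prod_le_one (fun _ _ => norm_nonneg _)
      fun τ _ => ?_)).trans h1
    exact norm_int ((hci.map (τ : K →+* Qbar).toIntAlgHom).map j.toIntAlgHom)
  have h0 : 0 ≤ δ := (norm_nonneg _).trans (hδ 1)
  have e3 : (H ^ Module.finrank ℚ K * δ) ^ m < 1 := pow_lt_one₀ (by positivity) hlt hm
  rw [mul_pow, ← pow_mul, mul_comm _ m, pow_mul] at e3
  exact ((norm_pf p z0).trans (mul_le_mul e1 e2 (norm_nonneg _) (by positivity))).not_gt e3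

end Pool.Agent.P.MP_8d2e9f_nt.AO
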