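import Pool.Agent.P.MP_8d2e9f_nt.AO.Iface

/-! Step NOTP. -/

set_option autoImplicit false

namespace Pool.Agent.P.MP_8d2e9f_nt.AO

open Polynomial NumberField Pool.Agent.P.MP_8d2e9f_nt.G
open scoped IntermediateField

theorem notp_nat (F : Subfield Qbar) {ζ : Qbar} (h0 : ζ ≠ 0) (h : ζ + ζ⁻¹ ∈ F) (n : ℕ) :
    ζ ^ n + (ζ ^ n)⁻¹ ∈ F := by
  induction n using Nat.twoStepInduction with
  | zero => simpa using F.add_mem F.one_mem F.one_mem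
  | one => simpa using h
  | more n h1 h2 =>
    have e : ζ ^ (n + 2) + (ζ ^ (n + 2))⁻¹ =
        (ζ + ζ⁻¹) * (ζ ^ (n + 1) + (ζ ^ (n + 1))⁻¹) - (ζ ^ n + (ζ ^ n)⁻¹) := by
      have : ζ ^ n ≠ 0 := pow_ne_zero _ h0
      field_simp
      ring
    rw [e]
    exact F.sub_mem (F.mul_mem h h2) h1

theorem notp_int (F : Subfield Qbar) {ζ : Qbar} (h0 : ζ ≠ 0) (h : ζ + ζ⁻¹ ∈ F) (z : ℤ) :
    ζ ^ z + (ζ ^ z)⁻¹ ∈ F := by
  obtain ⟨n, rfl | rfl⟩ := Int.eq_nat_or_neg z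
  · simpa using notp_nat F h0 h n
  · have := notp_nat F h0 h n
    rw [add_comm] at this
    simpa using this

/-- the numbers `ζ + ζ⁻¹` of `F` with `ζ` of order prime to `l` -/
def notp_T (F : Subfield Qbar) (l : ℕ) : Set Qbar :=
  {x | x ∈ F ∧ ∃ (ζ : Qbar) (n : ℕ), 0 < n ∧ n.Coprime l ∧ ζ ^ n = 1 ∧ x = ζ + ζ⁻¹}

theorem notp_ne {ζ : Qbar} {n : ℕ} (hn : 0 < n) (h : ζ ^ n = 1) : ζ ≠ 0 := by
  rintro rfl
  rw [zero_pow hn.ne'] at h
  exact zero_ne_one h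

theorem notp_perm (F : Subfield Qbar) (l : ℕ) (f : F[X])
    (hf : ∀ (x : F) (ζ : Qbar), ζ ≠ 0 → (x : Qbar) = ζ + ζ⁻¹ →
      ((f.eval x : F) : Qbar) = ζ ^ l + (ζ ^ l)⁻¹) (hi : (notp_T F l).Infinite) :
    ∃ S : Set F, S.Infinite ∧ (fun x => f.eval x) '' S = S := by
  refine ⟨{x : F | (x : Qbar) ∈ notp_T F l}, ?_, ?_⟩
  · intro hfin
    apply hi
    refine (hfin.image (fun x : F => (x : Qbar))).subset ?_
    intro x hx
    exact ⟨⟨x, hx.1⟩, hx, rfl⟩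
  · ext y
    constructor
    · rintro ⟨x, ⟨-, ζ, n, hn, hc, h1, hx⟩, rfl⟩
      refine ⟨(f.eval x).2, ζ ^ l, n, hn, hc, ?_, hf x ζ (notp_ne hn h1) hx⟩
      rw [← pow_mul, mul_comm, pow_mul, h1, one_pow]
    · rintro ⟨hy, ζ, n, hn, hc, h1, hx⟩
      have h0 := notp_ne hn h1
      have hc' : l.Coprime (orderOf ζ) :=
        (Nat.Coprime.coprime_dvd_left (orderOf_dvd_of_pow_eq_one h1) hc).symm
      obtain ⟨m, hm⟩ := exists_pow_eq_self_of_coprime hc'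
      have hmem : ζ ^ m + (ζ ^ m)⁻¹ ∈ F := notp_nat F h0 (hx ▸ hy) m
      refine ⟨⟨_, hmem⟩, ⟨hmem, ζ ^ m, n, hn, hc, ?_, rfl⟩, ?_⟩
      · rw [← pow_mul, mul_comm, pow_mul, h1, one_pow]
      · apply Subtype.ext
        have e : (ζ ^ m) ^ l = ζ := by rw [← pow_mul, mul_comm, pow_mul, hm]
        have := hf ⟨_, hmem⟩ (ζ ^ m) (pow_ne_zero _ h0) rfl
        rw [e] at this
        rw [hx]
        exact this

theorem notp_fib {T : Set Qbar} (hT : T.Finite) : {ζ : Qbar | ζ ≠ 0 ∧ ζ + ζ⁻¹ ∈ T}.Finite := by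
  have hb : (⋃ x ∈ T, {ζ : Qbar | (X ^ 2 - C x * X + 1 : Qbar[X]).IsRoot ζ}).Finite := by
    refine hT.biUnion fun x _ => ?_
    apply Polynomial.finite_setOfPred_isRoot
    intro h
    have := congrArg (fun p : Qbar[X] => p.eval 0) h
    simp at this
  refine hb.subset ?_
  rintro ζ ⟨h0, h⟩
  simp only [Set.mem_iUnion]
  refine ⟨_, h, ?_⟩
  simp only [Set.mem_ofPred_eq, IsRoot, eval_add, eval_sub, eval_pow, eval_X, eval_mul, eval_C,
    eval_one]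
  field_simp
  ring

theorem notp_fin (F : Subfield Qbar) (h2 : (notp_T F 2).Finite) (h3 : (notp_T F 3).Finite) :
    (cyc F).Finite := by
  refine (((notp_fib h2).prod (notp_fib h3)).image
    (fun p : Qbar × Qbar => p.1 * p.2 + (p.1 * p.2)⁻¹)).subset ?_
  rintro x ⟨hx, ζ, hζ, rfl⟩
  obtain ⟨n, hn, h1⟩ := isOfFinOrder_iff_pow_eq_one.1 hζ
  have h0 := notp_ne hn h1
  obtain ⟨k, m, hm, rfl⟩ := Nat.exists_eq_two_pow_mul_odd hn.ne'
  have hc : (2 ^ k).Coprime m := (Nat.coprime_two_left.2 hm).pow_left k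
  have hb := Nat.gcd_eq_gcd_ab (2 ^ k) m
  rw [hc] at hb
  have h1' : ζ ^ (((2 ^ k * m : ℕ) : ℤ)) = 1 := by rw [zpow_natCast, h1]
  refine ⟨(ζ ^ (((2 ^ k : ℕ) : ℤ) * Nat.gcdA (2 ^ k) m), ζ ^ ((m : ℤ) * Nat.gcdB (2 ^ k) m)),
    ⟨⟨zpow_ne_zero _ h0, notp_int F h0 hx _, _, m, hm.pos, (Nat.coprime_two_left.2 hm).symm, ?_,
      rfl⟩, ⟨zpow_ne_zero _ h0, notp_int F h0 hx _, _, 2 ^ k, by positivity,
      Nat.Coprime.pow_left k (by norm_num), ?_, rfl⟩⟩, ?_⟩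
  · rw [← zpow_natCast, ← zpow_mul]
    have e : ((2 ^ k : ℕ) : ℤ) * Nat.gcdA (2 ^ k) m * (m : ℤ) =
        ((2 ^ k * m : ℕ) : ℤ) * Nat.gcdA (2 ^ k) m := by push_cast; ring
    rw [e, zpow_mul, h1', one_zpow]
  · rw [← zpow_natCast, ← zpow_mul]
    have e : (m : ℤ) * Nat.gcdB (2 ^ k) m * ((2 ^ k : ℕ) : ℤ) =
        ((2 ^ k * m : ℕ) : ℤ) * Nat.gcdB (2 ^ k) m := by push_cast; ring
    rw [e, zpow_mul, h1', one_zpow]
  · have e : ζ ^ (((2 ^ k : ℕ) : ℤ) * Nat.gcdA (2 ^ k) m) * ζ ^ ((m : ℤ) * Nat.gcdB (2 ^ k) m) =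
        ζ := by
      rw [← zpow_add₀ h0, ← hb]
      simp
    simp only [e]

theorem p_NOTP :
    S_NOTP := by
  intro F hi hP
  by_cases h2 : (notp_T F 2).Finite
  · have h3 : (notp_T F 3).Infinite := fun h3 => hi (notp_fin F h2 h3)
    have hd : (X ^ 3 - C 3 * X : F[X]).natDegree = 3 := by compute_degree!
    have := hP (X ^ 3 - C 3 * X) (by omega) (notp_perm F 3 _ ?_ h3)
    · omega
    · intro x ζ h0 hx
      have e3 : ((3 : F) : Qbar) = 3 := rfl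
      simp only [eval_sub, eval_pow, eval_X, eval_mul, eval_C, Subfield.coe_sub, Subfield.coe_mul,
        SubmonoidClass.coe_pow, hx, e3]
      field_simp
      ring
  · have hd : (X ^ 2 - C 2 : F[X]).natDegree = 2 := by compute_degree!
    have := hP (X ^ 2 - C 2) (by omega) (notp_perm F 2 _ ?_ h2)
    · omega
    · intro x ζ h0 hx
      have e2 : ((2 : F) : Qbar) = 2 := rfl
      simp only [eval_sub, eval_pow, eval_X, eval_C, Subfield.coe_sub,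
        SubmonoidClass.coe_pow, hx, e2]
      field_simp
      ring

end Pool.Agent.P.MP_8d2e9f_nt.AO
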