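import Pool.Agent.P.MP_8d2e9f_nt.AO.Iface

/-! Step NUM. -/

set_option autoImplicit false

namespace Pool.Agent.P.MP_8d2e9f_nt.AO

open Polynomial NumberField Pool.Agent.P.MP_8d2e9f_nt.G
open scoped IntermediateField

theorem num_nat (c x : ℕ) : ∃ k : ℕ, k ^ 2 * c ≤ 2 ^ k ∧ x < 2 ^ k := by
  obtain ⟨j, hj⟩ : ∃ j, j = 9 * c + x := ⟨_, rfl⟩
  have h : j < 2 ^ j := Nat.lt_two_pow_self
  refine ⟨j * 3, ?_, ?_⟩
  · calc (j * 3) ^ 2 * c = j * j * (9 * c) := by ring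
      _ ≤ 2 ^ j * 2 ^ j * 2 ^ j := by gcongr; omega
      _ = _ := by ring
  · exact lt_of_le_of_lt (by omega) (h.trans_le (Nat.pow_le_pow_right two_pos (by omega)))

theorem p_NUM :
    S_NUM := by
  intro p d e Q H δ hd hH h0 h1
  have d0 : (0 : ℝ) < d := by exact_mod_cast (show 0 < d by omega)
  have hA : (0 : ℝ) < ((d : ℝ) ^ 2 * H) ^ e := by positivity
  obtain ⟨T, hT⟩ := exists_pow_lt_of_lt_one (show 0 < 1 / 2 / ((d : ℝ) ^ 2 * H) ^ e by positivity) h1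
  rw [lt_div_iff₀ hA] at hT
  obtain ⟨k, k1, k2⟩ := num_nat (T ^ 2 * Q) (p ^ e)
  refine ⟨k, T * k, ?_, ?_⟩
  · calc T * k * (T * k * Q) = k ^ 2 * (T ^ 2 * Q) := by ring
      _ ≤ 2 ^ k := k1
      _ ≤ d ^ k := Nat.pow_le_pow_left hd k
  · have k3 : (p : ℝ) ^ e < 2 ^ k := by exact_mod_cast k2
    calc (((d : ℝ) ^ k) ^ 2 * p * H ^ k) ^ e * δ ^ (T * k)
        = (δ ^ T * ((d : ℝ) ^ 2 * H) ^ e) ^ k * (p : ℝ) ^ e := by ring
      _ ≤ (1 / 2) ^ k * (p : ℝ) ^ e := by gcongr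
      _ < (1 / 2) ^ k * 2 ^ k := by gcongr
      _ = 1 := by rw [← mul_pow]; norm_num

end Pool.Agent.P.MP_8d2e9f_nt.AO
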