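import Pool.Agent.P.MP_8d2e9f_nt.AO.Iface

/-! Step ORB. -/

set_option autoImplicit false

namespace Pool.Agent.P.MP_8d2e9f_nt.AO

open Polynomial NumberField Pool.Agent.P.MP_8d2e9f_nt.G
open scoped IntermediateField

theorem orb_lc {k : Type} [Field k] {A B : k[X]} {a : k} (h : A ∣ B) (hB : B ≠ 0)
    (hd : B.natDegree ≤ A.natDegree) (hl : B.leadingCoeff = a * A.leadingCoeff) :
    C a * A = B := by
  obtain ⟨w, rfl⟩ := h
  have hA : A ≠ 0 := left_ne_zero_of_mul hB
  have hw : w ≠ 0 := right_ne_zero_of_mul hB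
  rw [natDegree_mul hA hw] at hd
  obtain ⟨c, rfl⟩ : ∃ c, w = C c := ⟨_, eq_C_of_natDegree_eq_zero (by omega)⟩
  rw [leadingCoeff_mul, leadingCoeff_C, mul_comm] at hl
  rw [mul_right_cancel₀ (leadingCoeff_ne_zero.2 hA) hl, mul_comm]

theorem orb_der {k : Type} [Field k] {f : k[X]} (h2 : 2 ≤ f.natDegree)
    (hd : (f.natDegree : k) ≠ 0) : (derivative f).natDegree = f.natDegree - 1 ∧
      (derivative f).leadingCoeff = f.natDegree * f.leadingCoeff ∧ derivative f ≠ 0 := by
  have hf : f ≠ 0 := by rintro rfl; simp at h2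
  have e : (derivative f).coeff (f.natDegree - 1) = f.natDegree * f.leadingCoeff := by
    obtain ⟨m, hm⟩ : ∃ m, f.natDegree = m + 1 := ⟨f.natDegree - 1, by omega⟩
    rw [leadingCoeff, hm, Nat.add_sub_cancel, coeff_derivative]
    push_cast
    ring
  have n : (derivative f).coeff (f.natDegree - 1) ≠ 0 :=
    e ▸ mul_ne_zero hd (leadingCoeff_ne_zero.2 hf)
  have g := natDegree_eq_of_le_of_coeff_ne_zero (natDegree_derivative_le f) n
  exact ⟨g, by rw [leadingCoeff, g, e], fun z => n (by simp [z])⟩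

theorem orb_red {k : Type} [Field k] {f : k[X]} (h2 : 2 ≤ f.natDegree) (h : Form f) :
    ∃ (u : k[X]) (N : ℕ), u ≠ 0 ∧ 0 < N ∧ u.comp f = u * derivative f ^ N := by
  classical
  obtain ⟨P, Q, N, hP, hQ, hN, e⟩ := h
  obtain ⟨u, v, hu, hv, hc⟩ := extract_gcd P Q
  generalize gcd P Q = g at hu hv
  subst hu hv
  have hne : ∀ w : k[X], w ≠ 0 → w.comp f ≠ 0 := fun w hw z => by
    rcases comp_eq_zero_iff.1 z with z | ⟨-, z⟩
    · exact hw z
    · rw [z, natDegree_C] at h2
      omega
  have hg := left_ne_zero_of_mul hP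
  have hu := right_ne_zero_of_mul hP
  have hv := right_ne_zero_of_mul hQ
  have e1 : u.comp f * v = u * v.comp f * derivative f ^ N := by
    apply mul_left_cancel₀ (mul_ne_zero hg (hne g hg))
    rw [mul_comp, mul_comp] at e
    linear_combination e
  have c1 : IsCoprime (v.comp f) (u.comp f) := by
    obtain ⟨a, b, hab⟩ := (gcd_isUnit_iff u v).1 hc
    refine ⟨b.comp f, a.comp f, ?_⟩
    rw [← mul_comp, ← mul_comp, ← add_comp, add_comm, hab, one_comp]
  have d1 : v.comp f ∣ v := c1.dvd_of_dvd_mul_left ⟨u * derivative f ^ N, by rw [e1]; ring⟩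
  have d2 := natDegree_le_of_dvd d1 hv
  rw [natDegree_comp] at d2
  obtain ⟨c, rfl⟩ : ∃ c, v = C c := ⟨_, eq_C_of_natDegree_eq_zero (by nlinarith)⟩
  refine ⟨u, N, hu, hN, mul_right_cancel₀ hv ?_⟩
  rw [e1, C_comp]
  ring

theorem orb_dvd {k : Type} [Field k] [IsAlgClosed k] {f u R : k[X]} {N : ℕ} {s : k}
    (h2 : 2 ≤ f.natDegree) (hf : derivative f ≠ 0) (e : u.comp f = u * derivative f ^ N)
    (hR : R ≠ 0) (hr : ∀ c, u.IsRoot c → R.IsRoot c) (hs : u.IsRoot s) :
    f - C s ∣ R * derivative f ^ 2 := by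
  classical
  have h0 : f - C s ≠ 0 := fun z => by
    rw [sub_eq_zero.1 z, natDegree_C] at h2
    omega
  have h1 := mul_ne_zero hR (pow_ne_zero 2 hf)
  rw [IsAlgClosed.dvd_iff_roots_le_roots h0 h1, Multiset.le_iff_count]
  intro c
  rw [count_roots, count_roots, rootMultiplicity_mul h1, pow_two,
    rootMultiplicity_mul (mul_ne_zero hf hf)]
  have hd : derivative (f - C s) = derivative f := by simp
  have a1 := rootMultiplicity_sub_one_le_derivative_rootMultiplicity_of_ne_zero (f - C s) c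
    (hd ▸ hf)
  rw [hd] at a1
  by_cases h : rootMultiplicity c (f - C s) = 1
  · have r1 : (f - C s).IsRoot c := ((rootMultiplicity_pos h0).1 (by omega))
    have r2 : ¬ (derivative f).IsRoot c := fun z => by
      have := (one_lt_rootMultiplicity_iff_isRoot h0).2 ⟨r1, hd ▸ z⟩
      omega
    have r3 : f.eval c = s := by simpa [sub_eq_zero] using r1
    have r4 := congrArg (eval c) e
    rw [eval_comp, r3, hs.eq_zero, eval_mul, eval_pow] at r4
    have r5 : u.IsRoot c := (mul_eq_zero.1 r4.symm).resolve_right (pow_ne_zero _ r2)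
    have := (rootMultiplicity_pos hR).2 (hr c r5)
    omega
  · omega

theorem p_ORB :
    S_ORB := by
  classical
  intro k _ _ f h2 hc hF
  obtain ⟨g1, g2, g3⟩ := orb_der h2 (hc _ (by omega) le_rfl)
  obtain ⟨u, N, hu, hN, e⟩ := orb_red h2 hF
  have hd : u.natDegree = N := by
    have := congrArg natDegree e
    rw [natDegree_comp, natDegree_mul hu (pow_ne_zero _ g3), natDegree_pow, g1] at this
    obtain ⟨m, hm⟩ : ∃ m, f.natDegree = m + 2 := ⟨f.natDegree - 2, by omega⟩
    rw [hm, show m + 2 - 1 = m + 1 by omega] at this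
    exact Nat.eq_of_mul_eq_mul_right (show 0 < m + 1 by omega) (by linarith)
  have n1 : ∀ s, (f - C s).natDegree = f.natDegree := fun s => natDegree_sub_C
  have n2 : ∀ s, (f - C s).leadingCoeff = f.leadingCoeff := fun s => by
    rw [leadingCoeff, n1, coeff_sub, coeff_C, if_neg (by omega), sub_zero, leadingCoeff]
  have n3 : ∀ s, f - C s ≠ 0 := fun s z => by
    have := n1 s
    rw [z, natDegree_zero] at this
    omega
  set S := u.roots.toFinset with hS
  have hm : (∏ s ∈ S, (X - C s)).Monic := monic_prod_of_monic _ _ fun s _ => monic_X_sub_C s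
  have mem : ∀ c, c ∈ S ↔ u.IsRoot c := fun c => by rw [hS, Multiset.mem_toFinset, mem_roots hu]
  have dv : ∏ s ∈ S, (f - C s) ∣ (∏ s ∈ S, (X - C s)) * derivative f ^ 2 := by
    refine Finset.prod_dvd_of_coprime (fun s _ t _ hst => ?_) fun s hs =>
      orb_dvd h2 g3 e hm.ne_zero (fun c h => ?_) ((mem s).1 hs)
    · refine ⟨C (t - s)⁻¹, -C (t - s)⁻¹, ?_⟩
      have : C (t - s)⁻¹ * C (t - s) = (1 : k[X]) := by
        rw [← C_mul, inv_mul_cancel₀ (sub_ne_zero.2 hst.symm), C_1]
      rw [C_sub] at this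
      linear_combination this
    · rw [IsRoot.def, eval_prod]
      exact Finset.prod_eq_zero ((mem c).2 h) (by simp)
  have h1 := mul_ne_zero hm.ne_zero (pow_ne_zero 2 g3)
  have dg := natDegree_le_of_dvd dv h1
  rw [natDegree_mul hm.ne_zero (pow_ne_zero 2 g3), natDegree_prod _ _ fun s _ => n3 s,
    natDegree_prod _ _ fun s _ => X_sub_C_ne_zero s, natDegree_pow, g1] at dg
  simp only [n1, natDegree_X_sub_C, Finset.sum_const, smul_eq_mul, mul_one] at dg
  have cr := (IsAlgClosed.splits u).natDegree_eq_card_roots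
  have c2 : S.card ≤ 2 := by
    obtain ⟨m, hm⟩ : ∃ m, f.natDegree = m + 2 := ⟨f.natDegree - 2, by omega⟩
    rw [hm, show m + 2 - 1 = m + 1 by omega] at dg
    exact Nat.le_of_mul_le_mul_right (by linarith) (show 0 < m + 1 by omega)
  have c0 : S.card ≠ 0 := fun z => by
    rw [Finset.card_eq_zero, hS, Multiset.toFinset_eq_empty] at z
    rw [z, Multiset.card_zero] at cr
    omega
  by_cases c1 : S.card = 1
  · obtain ⟨s, hs⟩ := Finset.card_eq_one.1 c1
    have rr : u.roots = Multiset.replicate N s := Multiset.eq_replicate.2 ⟨by omega, fun b hb => by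
      have : b ∈ S := Multiset.mem_toFinset.2 hb
      rwa [hs, Finset.mem_singleton] at this⟩
    have eu := (IsAlgClosed.splits u).eq_prod_roots
    rw [rr, Multiset.map_replicate, Multiset.prod_replicate] at eu
    have hl : (C u.leadingCoeff : k[X]) ≠ 0 := C_ne_zero.2 (leadingCoeff_ne_zero.2 hu)
    generalize u.leadingCoeff = c at eu hl
    have e2 : (f - C s) ^ N = ((X - C s) * derivative f) ^ N := by
      apply mul_left_cancel₀ hl
      rw [eu, mul_comp, pow_comp, sub_comp, C_comp, C_comp, X_comp] at e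
      rw [e, mul_pow, mul_assoc]
    have e3 : f - C s ∣ (X - C s) * derivative f :=
      (IsIntegrallyClosed.pow_dvd_pow_iff hN.ne').1 (dvd_of_eq e2)
    have e4 := orb_lc (a := (f.natDegree : k)) e3 (mul_ne_zero (X_sub_C_ne_zero s) g3)
      (by rw [natDegree_mul (X_sub_C_ne_zero s) g3, natDegree_X_sub_C, g1, n1]; omega)
      (by rw [leadingCoeff_mul, leadingCoeff_X_sub_C, one_mul, g2, n2])
    refine ⟨s, s, ?_⟩
    rw [C_pow]
    linear_combination (C (f.natDegree : k) * (f - C s) + (X - C s) * derivative f) * e4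
  · obtain ⟨s, t, hst, hs⟩ := Finset.card_eq_two.1 (show S.card = 2 by omega)
    rw [hs, Finset.prod_pair hst] at dv h1
    rw [Finset.prod_pair hst] at dv
    refine ⟨s, t, orb_lc dv h1 ?_ ?_⟩
    · rw [natDegree_mul (left_ne_zero_of_mul h1) (pow_ne_zero 2 g3), natDegree_mul (n3 s) (n3 t),
        natDegree_mul (X_sub_C_ne_zero s) (X_sub_C_ne_zero t), natDegree_pow, g1, n1, n1,
        natDegree_X_sub_C, natDegree_X_sub_C]
      omega
    · simp only [leadingCoeff_mul, leadingCoeff_pow, leadingCoeff_X_sub_C, g2, n2]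
      ring

end Pool.Agent.P.MP_8d2e9f_nt.AO
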