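import Pool.Agent.P.MP_8d2e9f_nt.AO.Iface

/-! Step PERM. -/

set_option autoImplicit false

namespace Pool.Agent.P.MP_8d2e9f_nt.AO

open Polynomial NumberField Pool.Agent.P.MP_8d2e9f_nt.G
open scoped IntermediateField

section aux

variable {F : Type} [NormedField F] [IsUltrametricDist F]

lemma perm_add_le {x y : F} {t : ℝ} (hx : ‖x‖ ≤ t) (hy : ‖y‖ ≤ t) : ‖x + y‖ ≤ t :=
  (IsUltrametricDist.norm_add_le_max x y).trans (max_le hx hy)

lemma perm_add_lt {x y : F} {t : ℝ} (hx : ‖x‖ < t) (hy : ‖y‖ < t) : ‖x + y‖ < t :=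
  (IsUltrametricDist.norm_add_le_max x y).trans_lt (max_lt hx hy)

lemma perm_sub_le {x y : F} {t : ℝ} (hx : ‖x‖ ≤ t) (hy : ‖y‖ ≤ t) : ‖x - y‖ ≤ t := by
  rw [sub_eq_add_neg]
  exact perm_add_le hx (by rwa [norm_neg])

lemma perm_sub_lt {x y : F} {t : ℝ} (hx : ‖x‖ < t) (hy : ‖y‖ < t) : ‖x - y‖ < t := by
  rw [sub_eq_add_neg]
  exact perm_add_lt hx (by rwa [norm_neg])

/-- If all roots are far from `ξ`, the value at `ξ` bounds all coefficients. -/
lemma perm_coeff (ξ : F) (hξ : ‖ξ‖ ≤ 1) (c : F) (s : Multiset F) (hs : ∀ r ∈ s, 1 ≤ ‖r - ξ‖) :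
    ∀ n, ‖(C c * (s.map fun r => X - C r).prod).coeff n‖ ≤
      ‖(C c * (s.map fun r => X - C r).prod).eval ξ‖ := by
  induction s using Multiset.induction_on with
  | empty =>
    intro n
    simp only [Multiset.map_zero, Multiset.prod_zero, mul_one, eval_C, coeff_C]
    split_ifs <;> simp
  | cons r s ih =>
    intro n
    have ih' := ih fun t ht => hs t (Multiset.mem_cons_of_mem ht)
    have hr := hs r (Multiset.mem_cons_self r s)
    set P : F[X] := C c * (s.map fun r => X - C r).prod with hP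
    have e : C c * ((r ::ₘ s).map fun r => X - C r).prod = (X - C r) * P := by
      rw [Multiset.map_cons, Multiset.prod_cons, hP]; ring
    have hrn : ‖r‖ ≤ ‖r - ξ‖ := by
      have : r = (r - ξ) + ξ := by ring
      conv_lhs => rw [this]
      exact perm_add_le le_rfl (hξ.trans hr)
    have h0 := norm_nonneg (P.eval ξ)
    have hm : ∀ k, ‖r * P.coeff k‖ ≤ ‖r - ξ‖ * ‖P.eval ξ‖ := fun k => by
      rw [norm_mul]
      exact mul_le_mul hrn (ih' k) (norm_nonneg _) (norm_nonneg _)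
    rw [e, eval_mul, norm_mul, eval_sub, eval_X, eval_C, norm_sub_rev ξ r]
    cases n with
    | zero =>
      rw [mul_coeff_zero]
      simpa using hm 0
    | succ n =>
      rw [coeff_X_sub_C_mul]
      refine perm_sub_le ((ih' n).trans ?_) (hm _)
      nlinarith

lemma perm_root [IsAlgClosed F] (a : F[X]) (ξ : F) (hξ : ‖ξ‖ ≤ 1) (n : ℕ)
    (hn : 1 ≤ ‖a.coeff n‖) (hv : ‖a.eval ξ‖ < 1) : ∃ r ∈ a.roots, ‖r - ξ‖ < 1 := by
  by_contra h
  push Not at h
  have := perm_coeff ξ hξ a.leadingCoeff a.roots h n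
  rw [← (IsAlgClosed.splits a).eq_prod_roots] at this
  linarith

/-- The elements of norm at most one. -/
def perm_O (F : Type) [NormedField F] [IsUltrametricDist F] : Subring F where
  carrier := {x | ‖x‖ ≤ 1}
  mul_mem' := fun {a b} ha hb => by
    have ha' : ‖a‖ ≤ 1 := ha
    have hb' : ‖b‖ ≤ 1 := hb
    change ‖a * b‖ ≤ 1
    rw [norm_mul]
    exact mul_le_one₀ ha' (norm_nonneg _) hb'
  one_mem' := by
    change ‖(1 : F)‖ ≤ 1
    simp
  add_mem' := fun ha hb => perm_add_le ha hb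
  zero_mem' := by
    change ‖(0 : F)‖ ≤ 1
    simp
  neg_mem' := fun {a} ha => by
    change ‖-a‖ ≤ 1
    rw [norm_neg]
    exact ha

lemma perm_taylor {R : Type} [CommRing R] (φ : R →+* F) (hφ : ∀ c, ‖φ c‖ ≤ 1) (g : R[X])
    (x y : F) (hx : ‖x‖ ≤ 1) (hy : ‖y‖ ≤ 1) :
    ∃ k : F, ‖k‖ ≤ 1 ∧ ‖(derivative g).eval₂ φ y‖ ≤ 1 ∧
      g.eval₂ φ x - g.eval₂ φ y = (x - y) * ((derivative g).eval₂ φ y + k * (x - y)) := by
  let ψ : R →+* perm_O F := φ.codRestrict (perm_O F) hφ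
  have hψ : (perm_O F).subtype.comp ψ = φ := by ext; rfl
  have hev : ∀ (h : R[X]) (t : perm_O F),
      (perm_O F).subtype ((h.map ψ).eval t) = h.eval₂ φ (t : F) := fun h t => by
    rw [eval_map, hom_eval₂, hψ]; rfl
  let x' : perm_O F := ⟨x, hx⟩
  let y' : perm_O F := ⟨y, hy⟩
  obtain ⟨k, hk⟩ := binomExpansion (g.map ψ) y' (x' - y')
  refine ⟨k, k.2, ?_, ?_⟩
  · rw [← hev (derivative g) y']
    exact ((derivative g).map ψ |>.eval y').2
  · have h := congrArg (perm_O F).subtype hk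
    rw [add_sub_cancel, derivative_map, map_add, map_add, map_mul, map_mul, map_pow, map_sub,
      hev, hev, hev] at h
    have e1 : (perm_O F).subtype x' = x := rfl
    have e2 : (perm_O F).subtype y' = y := rfl
    have e3 : (perm_O F).subtype k = (k : F) := rfl
    rw [e1, e2, e3] at h
    change g.eval₂ φ x = g.eval₂ φ y + (derivative g).eval₂ φ y * (x - y) + k * (x - y) ^ 2 at h
    rw [h]; ring

lemma perm_lip {R : Type} [CommRing R] (φ : R →+* F) (hφ : ∀ c, ‖φ c‖ ≤ 1) (g : R[X])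
    (x y : F) (hx : ‖x‖ ≤ 1) (hy : ‖y‖ ≤ 1) (hxy : ‖x - y‖ < 1) :
    ‖g.eval₂ φ x - g.eval₂ φ y‖ < 1 := by
  obtain ⟨k, hk, hd, e⟩ := perm_taylor φ hφ g x y hx hy
  have h1 : ‖(derivative g).eval₂ φ y + k * (x - y)‖ ≤ 1 := perm_add_le hd (by
    rw [norm_mul]
    exact mul_le_one₀ hk (norm_nonneg _) hxy.le)
  rw [e, norm_mul]
  exact mul_lt_one_of_nonneg_of_lt_one_left (norm_nonneg _) hxy h1

end aux

theorem p_PERM :
    S_PERM := by
  classical
  intro p _ f F _ _ _ e σ Γ q A₀ r B hGF hq hfq hder hA hAq hr hid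
  obtain ⟨he, -, hn, hσ, hσe, -⟩ := hGF
  let ε : ℤ_[p][X] →+* F := e.comp (mapRingHom (zq p))
  have hε : ∀ g, ε g = e (g.map (zq p)) := fun g => rfl
  let φ : ℤ_[p] →+* F := ε.comp C
  have hφ : ∀ c, ‖φ c‖ ≤ 1 := fun c => (hn (C c)).1
  have hφe : (e.comp C).comp (zq p) = φ := by
    ext c
    simp [φ, hε]
  set ξ : F := e X ^ q with hξ
  have hξε : ε (X ^ q) = ξ := by simp [hε, hξ]
  have hξ1 : ‖ξ‖ ≤ 1 := by
    rw [← hξε]
    exact (hn _).1
  have hcomp : ∀ g : ℤ_[p][X], g.eval₂ φ ξ = ε (g.comp (X ^ q)) := fun g => by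
    rw [comp, hom_eval₂, hξε]
  let a : F[X] := A₀.map ε
  have ha : ∀ x, (A₀.map (mapRingHom (zq p))).eval₂ e x = a.eval x := fun x => by
    rw [eval₂_map, eval_map]
  have hf : ∀ x, (f.map (zq p)).eval₂ (e.comp C) x = f.eval₂ φ x := fun x => by
    rw [eval₂_map, hφe]
  obtain ⟨n, hn0⟩ : ∃ n, (A₀.coeff n).map (zr p) ≠ 0 := by
    by_contra h
    push Not at h
    exact hA (Polynomial.ext fun n => by simpa using h n)
  have hn1 : 1 ≤ ‖a.coeff n‖ := by
    rw [coeff_map, hε]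
    exact not_lt.1 fun h => hn0 ((hn _).2.1 h)
  have ha0 : a ≠ 0 := by
    intro h
    rw [h] at hn1
    norm_num at hn1
  have hav : ‖a.eval ξ‖ < 1 := by
    have : a.eval ξ = ε (A₀.eval (X ^ q)) := by
      rw [← hξε, eval_map, eval₂_at_apply]
    rw [this, hε]
    exact (hn _).2.2 hAq
  let Z : Finset F := a.roots.toFinset.filter fun x => ‖x - ξ‖ < 1
  have hZ : ∀ x, x ∈ Z ↔ a.eval x = 0 ∧ ‖x - ξ‖ < 1 := fun x => by
    simp [Z, ha0]
  have hZ1 : ∀ x ∈ Z, ‖x‖ ≤ 1 := fun x hx => by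
    have : x = (x - ξ) + ξ := by ring
    rw [this]
    exact perm_add_le ((hZ x).1 hx).2.le hξ1
  have hstep : ∀ x ∈ Z, ∃ z ∈ Z, σ z = f.eval₂ φ x := fun x hx => by
    obtain ⟨hx0, hx1⟩ := (hZ x).1 hx
    have h := congrArg (eval₂ e x) hid
    rw [eval₂_mul, eval₂_mul, eval₂_C, ha, hx0, zero_mul, sub, eval₂_comp, eval₂_map,
      eval₂_map, eval₂_map, eval₂_map, hφe] at h
    have her : e r ≠ 0 := fun h0 => hr (he (by rw [h0, map_zero]))
    have h2 := (mul_eq_zero.1 h).resolve_left her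
    have h3 : (e.comp (compRingHom (f.map (zq p)))).comp (mapRingHom (zq p)) = σ.comp ε := by
      refine RingHom.ext fun g => ?_
      simp only [RingHom.comp_apply, hε, hσe]
      rfl
    rw [h3] at h2
    have h4 : f.eval₂ φ x ∈ (a.map σ).roots := by
      rw [mem_roots (map_ne_zero ha0), IsRoot.def, map_map, eval_map]
      exact h2
    rw [(IsAlgClosed.splits a).roots_map, Multiset.mem_map] at h4
    obtain ⟨z, hz, hzx⟩ := h4
    refine ⟨z, (hZ z).2 ⟨((mem_roots ha0).1 hz), ?_⟩, hzx⟩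
    have h5 : σ ξ = ε (f ^ q) := by
      rw [hξ, map_pow, hσe, X_comp, map_pow, hε]
    have h6 : ‖f.eval₂ φ ξ - ε (f ^ q)‖ < 1 := by
      rw [hcomp, ← map_sub, hε]
      refine (hn _).2.2 ?_
      rw [Polynomial.map_sub, map_comp, Polynomial.map_pow, Polynomial.map_pow, map_X, hfq,
        sub_self]
    have h7 := perm_lip φ hφ f x ξ (hZ1 x hx) hξ1 hx1
    rw [← hσ, map_sub, hzx, h5]
    have : f.eval₂ φ x - ε (f ^ q) =
        (f.eval₂ φ x - f.eval₂ φ ξ) + (f.eval₂ φ ξ - ε (f ^ q)) := by ring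
    rw [this]
    exact perm_add_lt h7 h6
  choose! π hπZ hπ using hstep
  have hd : ¬ ‖(derivative f).eval₂ φ ξ‖ < 1 := by
    rw [hcomp, hε, (hn _).2, map_comp, Polynomial.map_pow, map_X, ← derivative_map,
      comp_eq_zero_iff]
    rintro (h | ⟨-, h⟩)
    · exact hder h
    · have := congrArg natDegree h
      rw [natDegree_X_pow, natDegree_C] at this
      omega
  have hinj : Set.InjOn π Z := by
    intro x hx y hy hxy
    have hx' : x ∈ Z := hx
    have hy' : y ∈ Z := hy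
    have h1 : f.eval₂ φ x = f.eval₂ φ y := by rw [← hπ x hx', ← hπ y hy', hxy]
    obtain ⟨k, hk, -, h2⟩ := perm_taylor φ hφ f x y (hZ1 x hx') (hZ1 y hy')
    rw [h1, sub_self] at h2
    rcases mul_eq_zero.1 h2.symm with h | h
    · exact sub_eq_zero.1 h
    · exfalso
      have h3 : ‖x - y‖ < 1 := by
        have : x - y = (x - ξ) - (y - ξ) := by ring
        rw [this]
        exact perm_sub_lt ((hZ x).1 hx').2 ((hZ y).1 hy').2
      have h4 : ‖k * (x - y)‖ < 1 := by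
        rw [norm_mul]
        exact mul_lt_one_of_nonneg_of_lt_one_right hk (norm_nonneg _) h3
      have h5 := perm_lip φ hφ (derivative f) y ξ (hZ1 y hy') hξ1 ((hZ y).1 hy').2
      apply hd
      have : (derivative f).eval₂ φ ξ =
          -(k * (x - y)) - ((derivative f).eval₂ φ y - (derivative f).eval₂ φ ξ) := by
        linear_combination h
      rw [this]
      exact perm_sub_lt (by rwa [norm_neg]) h5
  obtain ⟨r₀, hr₀, hr₁⟩ := perm_root a ξ hξ1 n hn1 hav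
  refine ⟨Z, π, ⟨r₀, (hZ r₀).2 ⟨(mem_roots ha0).1 hr₀, hr₁⟩⟩, fun x => ?_, ?_, fun x hx => ?_⟩
  · rw [ha, hZ]
  · exact (Z.finite_toSet.injOn_iff_bijOn_of_mapsTo fun x hx => hπZ x hx).1 hinj
  · rw [hf, hπ x hx]

end Pool.Agent.P.MP_8d2e9f_nt.AO
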