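import Pool.Agent.P.MP_8d2e9f_nt.AO.Iface

/-! Step PH. -/

set_option autoImplicit false

namespace Pool.Agent.P.MP_8d2e9f_nt.AO

open Polynomial NumberField Pool.Agent.P.MP_8d2e9f_nt.G
open scoped IntermediateField

theorem p_PH :
    S_PH := by
  intro p _ I J _ _ v M hv hJ hM
  classical
  have hp : p.Prime := Fact.out
  have : NeZero (p ^ M) := ⟨pow_ne_zero _ hp.ne_zero⟩
  let w : J → I → ℤ_[p] := fun s i => ⟨v s i, hv s i⟩
  let Φ : (J → Fin (p + 1)) → I → ZMod (p ^ M) := fun b i =>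
    PadicInt.toZModPow M (∑ s, (((b s : ℕ) : ℤ) : ℤ_[p]) * w s i)
  have hc : Fintype.card (I → ZMod (p ^ M)) < Fintype.card (J → Fin (p + 1)) := by
    rw [Fintype.card_fun, Fintype.card_fun, ZMod.card, Fintype.card_fin, ← pow_mul]
    exact (Nat.pow_le_pow_right hp.pos hM).trans_lt
      (Nat.pow_lt_pow_left (Nat.lt_succ_self p) hJ.ne')
  obtain ⟨b, b', hne, he⟩ := Fintype.exists_ne_map_eq_of_card_lt Φ hc
  refine ⟨fun s => ((b s : ℕ) : ℤ) - ((b' s : ℕ) : ℤ), fun h => hne (funext fun s => ?_),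
    fun s => ?_, fun i => ?_⟩
  · have h1 : ((b s : ℕ) : ℤ) - ((b' s : ℕ) : ℤ) = 0 := congrFun h s
    exact Fin.ext (by omega)
  · have h1 := (b s).2
    have h2 := (b' s).2
    beta_reduce
    rw [abs_le]
    constructor <;> omega
  · let x : ℤ_[p] := ∑ s, ((((b s : ℕ) : ℤ) - ((b' s : ℕ) : ℤ) : ℤ) : ℤ_[p]) * w s i
    have hx : x ∈ RingHom.ker (PadicInt.toZModPow M : ℤ_[p] →+* ZMod (p ^ M)) := by
      have h1 : Φ b i = Φ b' i := congrFun he i
      rw [RingHom.mem_ker]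
      simp only [x, Int.cast_sub, sub_mul, Finset.sum_sub_distrib, map_sub]
      exact sub_eq_zero.2 h1
    rw [PadicInt.ker_toZModPow, ← PadicInt.norm_le_pow_iff_mem_span_pow] at hx
    have h2 : (x : ℚ_[p]) = ∑ s, ((((b s : ℕ) : ℤ) - ((b' s : ℕ) : ℤ) : ℤ) : ℚ_[p]) * v s i := by
      simp only [x, PadicInt.coe_sum, PadicInt.coe_mul, PadicInt.coe_intCast, w]
    rw [← h2, inv_pow, ← zpow_natCast, ← zpow_neg]
    exact hx

end Pool.Agent.P.MP_8d2e9f_nt.AO
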