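import Pool.Agent.P.MP_8d2e9f_nt.AO.Iface
import Pool.Agent.P.MP_8d2e9f_nt.G.MB

/-! Step PLACE. -/

set_option autoImplicit false

namespace Pool.Agent.P.MP_8d2e9f_nt.AO

open Polynomial NumberField Pool.Agent.P.MP_8d2e9f_nt.G
open scoped IntermediateField

theorem p_PLACE :
    S_PLACE := by
  classical
  intro K N s hK
  have : FiniteDimensional ℚ K := hK
  obtain ⟨D, hD, hint⟩ := exists_common_denominator (s ∪ s.image fun c => c⁻¹)
  obtain ⟨p, hp, j, hN, hle⟩ := p_SPL K (max N D) hK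
  choose f hf using fun c : K => mem_TT.1 (hle c.2)
  have inj := (algebraMap ℚ_[p] (Om p)).injective
  obtain ⟨φ, hφ⟩ : ∃ φ : K →+* ℚ_[p], ∀ c : K, algebraMap ℚ_[p] (Om p) (φ c) = j (c : Qbar) :=
    ⟨⟨⟨⟨f, inj (by simp [hf])⟩, fun x y => inj (by simp [hf])⟩,
      inj (by simp [hf]), fun x y => inj (by simp [hf])⟩, hf⟩
  refine ⟨p, hp, φ, j, (le_max_left _ _).trans_lt hN, fun c => (hφ c).symm, fun c hc hc0 => ?_⟩
  have hDn : ‖(D : ℚ_[p])‖ = 1 := by
    rw [Padic.norm_natCast_eq_one_iff]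
    exact (Nat.Prime.coprime_iff_not_dvd hp.out).2 fun h =>
      absurd (Nat.le_of_dvd (Nat.pos_of_ne_zero hD) h) (not_le.2 ((le_max_right _ _).trans_lt hN))
  have hb : ∀ a ∈ s ∪ s.image fun c => c⁻¹, ‖φ a‖ ≤ 1 := fun a ha => by
    have h2 := norm_le_one_of_isIntegral ((hint a ha).map φ.toIntAlgHom)
    simpa only [RingHom.toIntAlgHom_apply, map_mul, map_natCast, norm_mul, hDn, one_mul] using h2
  have h1 := hb c (Finset.mem_union_left _ hc)
  have h2 := hb c⁻¹ (Finset.mem_union_right _ (Finset.mem_image_of_mem _ hc))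
  have hpos : 0 < ‖φ c‖ := norm_pos_iff.2 ((map_ne_zero φ).2 hc0)
  rw [map_inv₀, norm_inv, inv_le_one₀ hpos] at h2
  exact le_antisymm h1 h2

end Pool.Agent.P.MP_8d2e9f_nt.AO
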