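import Pool.Agent.P.MP_8d2e9f_nt.AO.Iface

/-! Step PPAR. -/

set_option autoImplicit false

namespace Pool.Agent.P.MP_8d2e9f_nt.AO

open Polynomial NumberField Pool.Agent.P.MP_8d2e9f_nt.G
open scoped IntermediateField

theorem ppar_conj {f g : Qbar[X]} {a b z : Qbar} (ha : a ≠ 0) (h : LinConj f a b g)
    (hz : z ∈ Function.periodicPts fun x => f.eval x) :
    ∃ t n, 0 < n ∧ z = a * t + b ∧ (fun x => g.eval x)^[n] t = t := by
  obtain ⟨n, n0, hn⟩ := hz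
  have h1 : Function.Semiconj (fun t => a * t + b) (fun x => g.eval x) fun x => f.eval x :=
    fun t => by simpa using (congrArg (eval t) h).symm
  have h2 : z = a * ((z - b) / a) + b := by rw [mul_div_cancel₀ _ ha, sub_add_cancel]
  refine ⟨_, n, n0, h2, mul_left_cancel₀ ha (add_right_cancel (b := b) ?_)⟩
  have h3 := h1.iterate_right n ((z - b) / a)
  simp only [← h2] at h3 ⊢
  exact h3.trans hn

theorem ppar_ch {g : Qbar[X]} {d : ℕ} (hd : 2 ≤ d)
    (hg : ∀ v : Qbar, v ≠ 0 → ∃ w, g.eval (v + v⁻¹) = w + w⁻¹ ∧ w ^ 2 = (v ^ 2) ^ d) {t : Qbar}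
    {n : ℕ} (n0 : 0 < n) (h : (fun x => g.eval x)^[n] t = t) :
    ∃ ζ : Qbar, IsOfFinOrder ζ ∧ t = ζ + ζ⁻¹ := by
  obtain ⟨u, hu⟩ := IsAlgClosed.exists_root (C 1 * X ^ 2 + C (-t) * X + C 1 : Qbar[X])
    (by rw [degree_quadratic one_ne_zero]; decide)
  have h1 : u * (t - u) = 1 := by
    simp only [IsRoot.def, eval_add, eval_mul, eval_C, eval_pow, eval_X] at hu
    linear_combination -hu
  have u0 : u ≠ 0 := left_ne_zero_of_mul_eq_one h1
  obtain rfl : t = u + u⁻¹ := by rw [← eq_inv_of_mul_eq_one_right h1, add_sub_cancel]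
  have h2 : ∀ k : ℕ, ∃ v, (fun x => g.eval x)^[k] (u + u⁻¹) = v + v⁻¹ ∧
      v ^ 2 = (u ^ 2) ^ d ^ k := fun k => by
    induction k with
    | zero => exact ⟨u, rfl, by simp⟩
    | succ k ih =>
      obtain ⟨v, a1, a2⟩ := ih
      obtain ⟨w, a3, a4⟩ := hg v fun e => pow_ne_zero _ (pow_ne_zero 2 u0) (by rw [← a2, e]; simp)
      exact ⟨w, by rw [Function.iterate_succ_apply', a1, a3], by rw [a4, a2, ← pow_mul, pow_succ d]⟩
  obtain ⟨v, a1, a2⟩ := h2 n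
  have v0 : v ≠ 0 := fun e => pow_ne_zero _ (pow_ne_zero 2 u0) (by rw [← a2, e]; simp)
  obtain ⟨m, hm⟩ := Nat.exists_eq_add_of_lt (Nat.one_lt_pow n0.ne' (by omega : 1 < d))
  rw [hm] at a2
  have h3 : (v - u) * (v * u - 1) = 0 := by
    have := h.symm.trans a1
    field_simp at this
    linear_combination -this
  refine ⟨u, isOfFinOrder_iff_pow_eq_one.2 ?_, rfl⟩
  rcases mul_eq_zero.1 h3 with k | k
  · refine ⟨2 * (m + 1), by omega, mul_left_cancel₀ (pow_ne_zero 2 u0) ?_⟩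
    rw [sub_eq_zero.1 k] at a2
    linear_combination -a2
  · exact ⟨2 * (m + 3), by omega, by linear_combination (v * u + 1) * k - u ^ 2 * a2⟩

theorem p_PPAR (hABG : S_ABG) :
    S_PPAR := by
  rintro K f a b S hd ⟨ha, hb, h⟩ hS hA hI
  obtain ⟨-, A1, -, -, A2, A3⟩ := hABG K
  rcases h with h | ⟨h2, h⟩
  · have h1 : ∀ z ∈ S \ {b}, ∃ ζ : Qbar, IsOfFinOrder ζ ∧ z = a * ζ + b := fun z hz => by
      obtain ⟨t, n, n0, rfl, ht⟩ := ppar_conj ha h (hS hz.1)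
      have t0 : t ≠ 0 := by
        rintro rfl
        exact hz.2 (by simp)
      simp only [eval_pow, eval_X] at ht
      rw [pow_iterate] at ht
      obtain ⟨m, hm⟩ := Nat.exists_eq_add_of_lt (Nat.one_lt_pow n0.ne' (by omega : 1 < f.natDegree))
      refine ⟨t, isOfFinOrder_iff_pow_eq_one.2 ⟨m + 1, by omega, mul_left_cancel₀ t0 ?_⟩, rfl⟩
      simp only [hm] at ht
      linear_combination ht
    refine ⟨ha, hb, ?_, .inl ⟨h, h1⟩⟩
    obtain ⟨z, hz⟩ := (hI.sdiff (Set.finite_singleton b)).nonempty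
    obtain ⟨ζ, k1, k2⟩ := h1 z hz
    have z0 : ζ ≠ 0 := by
      rintro rfl
      exact hz.2 (by simp [k2])
    refine (A1 z ζ (hA z hz.1) (A2 ζ k1)).2 a ?_
    rw [show a = (z - b) / ζ by rw [k2, add_sub_cancel_right, mul_div_cancel_right₀ _ z0]]
    exact div_mem (sub_mem (IntermediateField.subset_adjoin _ _ (by simp))
      (IntermediateField.algebraMap_mem _ (⟨b, hb⟩ : K))) (IntermediateField.subset_adjoin _ _ (by simp))
  · refine ⟨ha, hb, A3 a h2, .inr ⟨h2, h, fun z hz => ?_⟩⟩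
    have h3 : ∀ v : Qbar, v ≠ 0 → (Chebyshev.C Qbar f.natDegree).eval (v + v⁻¹) =
        v ^ f.natDegree + (v ^ f.natDegree)⁻¹ := fun v v0 => by
      rw [← dickson_one_one_eq_chebyshev_C, dickson_one_one_eval_add_inv _ _ (mul_inv_cancel₀ v0),
        inv_pow]
    rcases h with h | h
    · obtain ⟨t, n, n0, rfl, ht⟩ := ppar_conj ha h (hS hz.1)
      obtain ⟨ζ, k1, rfl⟩ := ppar_ch hd (fun v v0 => ⟨_, h3 v v0, by ring⟩) n0 ht
      exact ⟨ζ, k1, rfl⟩
    · obtain ⟨t, n, n0, rfl, ht⟩ := ppar_conj ha h (hS hz.1)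
      obtain ⟨ζ, k1, rfl⟩ := ppar_ch hd (fun v v0 => ⟨-v ^ f.natDegree, by
        rw [eval_neg, h3 v v0, inv_neg, neg_add], by ring⟩) n0 ht
      exact ⟨ζ, k1, rfl⟩

end Pool.Agent.P.MP_8d2e9f_nt.AO
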