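import Pool.Agent.P.MP_8d2e9f_nt.AO.Iface

/-! Step PRIM. -/

set_option autoImplicit false

namespace Pool.Agent.P.MP_8d2e9f_nt.AO

open Polynomial NumberField Pool.Agent.P.MP_8d2e9f_nt.G
open scoped IntermediateField

theorem p_PRIM :
    S_PRIM := by
  classical
  intro p _ A hA
  obtain ⟨i₀, h0⟩ := support_nonempty.2 hA
  obtain ⟨l₀, h1⟩ := support_nonempty.2 (mem_support_iff.1 h0)
  obtain ⟨⟨i, l⟩, hm, hmax⟩ := Finset.exists_max_image
    (A.support.sigma fun i => (A.coeff i).support) (fun x => ‖(A.coeff x.1).coeff x.2‖)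
    ⟨⟨i₀, l₀⟩, Finset.mem_sigma.2 ⟨h0, h1⟩⟩
  have hc : (A.coeff i).coeff l ≠ 0 := mem_support_iff.1 (Finset.mem_sigma.1 hm).2
  obtain ⟨c, ec⟩ : ∃ c, c = (A.coeff i).coeff l := ⟨_, rfl⟩
  rw [← ec] at hc
  have hle : ∀ a b, ‖c⁻¹ * (A.coeff a).coeff b‖ ≤ 1 := fun a b => by
    rw [norm_mul, norm_inv, inv_mul_le_iff₀ (norm_pos_iff.2 hc), mul_one]
    by_cases h : (A.coeff a).coeff b = 0
    · rw [h, norm_zero]
      exact norm_nonneg _
    · rw [ec]
      exact hmax ⟨a, b⟩ (Finset.mem_sigma.2 ⟨mem_support_iff.2 fun e => h (by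
        simp only at e
        rw [e, coeff_zero]), mem_support_iff.2 h⟩)
  obtain ⟨A₀, e⟩ : ∃ A₀ : ℤ_[p][X][X], A₀.map (mapRingHom (zq p)) = C (C c⁻¹) * A :=
    (mem_lifts _).1 ((lifts_iff_coeff_lifts _).2 fun a =>
      (mem_lifts _).1 ((lifts_iff_coeff_lifts _).2 fun b => ⟨⟨_, hle a b⟩, by simp⟩))
  refine ⟨c, A₀, hc, ?_, fun h => ?_⟩
  · rw [e, ← mul_assoc, ← C_mul, ← C_mul, mul_inv_cancel₀ hc, C_1, C_1, one_mul]
  · have h2 := congrArg (fun B => (coeff B i).coeff l) e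
    have h3 := congrArg (fun B => (coeff B i).coeff l) h
    simp only [coeff_map, coe_mapRingHom, coeff_C_mul, ← ec, inv_mul_cancel₀ hc, coeff_zero] at h2 h3
    have h4 : (A₀.coeff i).coeff l = 1 := Subtype.ext h2
    rw [h4, map_one] at h3
    exact one_ne_zero h3

end Pool.Agent.P.MP_8d2e9f_nt.AO
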