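import Pool.Agent.P.MP_8d2e9f_nt.AO.Iface

/-! Step RAM. -/

set_option autoImplicit false

namespace Pool.Agent.P.MP_8d2e9f_nt.AO

section

open Finset

/-- tame abelian actions have ramification index dividing `p - 1` -/
theorem ram_fix {E G : Type*} [NormedField E] [IsUltrametricDist E] [CommGroup G] [Fintype G]
    [MulSemiringAction G E] {p : ℕ} (hp : p.Prime) (hiso : ∀ (g : G) (x : E), ‖g • x‖ = ‖x‖)
    (hpn : ‖(p : E)‖ < 1)
    (hG : ∀ g : G, (∀ z : E, ‖z‖ ≤ 1 → ‖g • z - z‖ < 1) → g ^ p = 1 → g = 1) (τ : G)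
    (hτ : ∀ z : E, ‖z‖ ≤ 1 → ‖τ • z - z ^ p‖ < 1) {x : E} (hx : x ≠ 0) :
    ∃ a : E, (∀ g : G, g • a = a) ∧ ‖a‖ = ‖x‖ ^ (p - 1) := by
  classical
  have tri : ∀ a b c : E, ‖a - b‖ < 1 → ‖b - c‖ < 1 → ‖a - c‖ < 1 := fun a b c h1 h2 => by
    rw [show a - c = (a - b) + (b - c) by ring]
    exact (IsUltrametricDist.norm_add_le_max _ _).trans_lt (max_lt h1 h2)
  let O := (NormedField.valuation (K := E)).valuationSubring
  have mO : ∀ z : E, z ∈ O ↔ ‖z‖ ≤ 1 := fun z => by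
    rw [Valuation.mem_valuationSubring_iff]
    exact NNReal.coe_le_coe.symm
  let res := IsLocalRing.residue O
  have r0 : ∀ a : O, res a = 0 ↔ ‖(a : E)‖ < 1 := fun a => by
    rw [IsLocalRing.residue_eq_zero_iff, Valuation.mem_maximalIdeal_iff]
    exact NNReal.coe_lt_coe.symm
  let act : G → O →+* O := fun g => ((MulSemiringAction.toRingHom G E g).comp O.subtype).codRestrict
    O fun a => (mO _).2 ((hiso g a).le.trans ((mO _).1 a.2))
  have ha : ∀ g (a : O), (act g a : E) = g • (a : E) := fun _ _ => rfl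
  let χ : G → O →* IsLocalRing.ResidueField O := fun g => (res.comp (act g) : O →+* _)
  let I : Subgroup G :=
    { carrier := {g | ∀ z : E, ‖z‖ ≤ 1 → ‖g • z - z‖ < 1}
      one_mem' := fun z _ => by simp
      mul_mem' := fun {g h} hg hh z hz => by
        refine tri _ (g • z) _ ?_ (hg z hz)
        rw [mul_smul, ← smul_sub, hiso]
        exact hh z hz
      inv_mem' := fun {g} hg z hz => by
        rw [← hiso g, smul_sub, smul_inv_smul, norm_sub_rev]
        exact hg z hz }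
  have hI : ∀ g, χ g = χ 1 ↔ g ∈ I := fun g => by
    have e : ∀ a : O, χ g a = χ 1 a ↔ ‖g • (a : E) - a‖ < 1 := fun a => by
      change res (act g a) = res (act 1 a) ↔ _
      rw [← sub_eq_zero, ← map_sub, r0]
      simp [ha]
    exact ⟨fun h z hz => (e ⟨z, (mO z).2 hz⟩).1 (by rw [h]),
      fun h => MonoidHom.ext fun a => (e a).2 (h a ((mO _).1 a.2))⟩
  have n1 : ∀ (g : G) {y : E}, y ≠ 0 → ‖g • y / y‖ = 1 := fun g y hy => by
    rw [norm_div, hiso, div_self (norm_ne_zero_iff.2 hy)]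
  have hu : x ^ (p - 1) ≠ 0 := pow_ne_zero _ hx
  let c : G → O := fun g => ⟨g • x ^ (p - 1) / x ^ (p - 1), (mO _).2 (n1 g hu).le⟩
  have hc : ∀ g ∈ I, res (c g) = 1 := fun g hg => by
    have g0 : ∀ h : G, h • x ≠ 0 := fun h => (smul_ne_zero_iff_ne h).2 hx
    have h1 := hτ _ (n1 g hx).le
    have h2 := hg _ (n1 τ hx).le
    have h3 : ‖g • x / x - τ • (g • x / x)‖ < 1 := by
      have e : g • x / x - τ • (g • x / x) =
          -(g • (τ • x / x) - τ • x / x) * (g • x / x) / (τ • x / x) := by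
        rw [smul_div₀', smul_div₀', smul_comm τ g x]
        have := g0 g
        have := g0 τ
        field_simp
        ring
      rw [e, norm_div, norm_mul, n1 g hx, n1 τ hx, norm_neg]
      simpa using h2
    have h4 := tri _ _ _ h3 h1
    have e : g • x / x - (g • x / x) ^ p = -(g • x / x) * (g • x ^ (p - 1) / x ^ (p - 1) - 1) := by
      rw [smul_pow', ← div_pow]
      conv_lhs => rw [← Nat.sub_add_cancel hp.one_le, pow_succ]
      ring
    rw [e, norm_mul, norm_neg, n1 g hx, one_mul] at h4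
    rw [← sub_eq_zero, ← map_one res, ← map_sub, r0]
    exact h4
  obtain ⟨a, h1⟩ : ∃ a : O, ∑ g, res (c g) * χ g a ≠ 0 := by
    by_contra h0
    push Not at h0
    have h1 := linearIndependent_iff.1 (linearIndependent_monoidHom O (IsLocalRing.ResidueField O))
      (∑ g, Finsupp.single (χ g) (res (c g))) (by
        rw [map_sum]
        ext a
        simpa using h0 a)
    have h2 : ((Nat.card I : ℕ) : IsLocalRing.ResidueField O) = 0 := by
      have h3 := congrArg (· (χ 1)) h1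
      simp only [Finsupp.finsetSum_apply, Finsupp.single_apply, hI, Finsupp.zero_apply] at h3
      rw [← h3, ← sum_filter, sum_congr rfl fun g hg => hc g (mem_filter.1 hg).2]
      simp [Fintype.card_subtype]
    have : Fact p.Prime := ⟨hp⟩
    have h3 : CharP (IsLocalRing.ResidueField O) p := (CharP.charP_iff_prime_eq_zero hp).2 (by
      rw [← map_natCast res, r0]
      simpa using hpn)
    obtain ⟨g, hg⟩ := exists_prime_orderOf_dvd_card' p ((CharP.cast_eq_zero_iff _ p _).1 h2)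
    have h4 : g = 1 := Subtype.ext (hG g g.2 (by
      rw [← hg, ← Subgroup.coe_pow, pow_orderOf_eq_one, Subgroup.coe_one]))
    rw [h4, orderOf_one] at hg
    exact hp.one_lt.ne hg
  refine ⟨∑ g : G, g • (x ^ (p - 1) * a), fun h => ?_, ?_⟩
  · rw [smul_sum]
    exact Fintype.sum_equiv (Equiv.mulLeft h) _ _ fun g => by simp [mul_smul]
  · have e : ∑ g : G, g • (x ^ (p - 1) * a) = x ^ (p - 1) * (∑ g, c g * act g a : O) := by
      push_cast
      rw [mul_sum]
      refine sum_congr rfl fun g _ => ?_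
      rw [smul_mul', ha]
      simp only [c]
      field_simp
    have h2 : ‖((∑ g, c g * act g a : O) : E)‖ = 1 := by
      refine le_antisymm ((mO _).1 (Subtype.prop _)) (not_lt.1 fun h => h1 ?_)
      rw [← r0, map_sum] at h
      simp only [map_mul] at h
      exact h
    rw [e, norm_mul, h2, norm_pow, mul_one]

/-- the form used for congruences: small elements have norm at most `p^(-1/(p-1))` -/
theorem ram_le {E G : Type*} [NormedField E] [IsUltrametricDist E] [CommGroup G] [Fintype G]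
    [MulSemiringAction G E] {p : ℕ} (hp : p.Prime) (hiso : ∀ (g : G) (x : E), ‖g • x‖ = ‖x‖)
    (hpn : ‖(p : E)‖ < 1)
    (hG : ∀ g : G, (∀ z : E, ‖z‖ ≤ 1 → ‖g • z - z‖ < 1) → g ^ p = 1 → g = 1) (τ : G)
    (hτ : ∀ z : E, ‖z‖ ≤ 1 → ‖τ • z - z ^ p‖ < 1)
    (hfix : ∀ a : E, (∀ g : G, g • a = a) → ‖a‖ < 1 → ‖a‖ ≤ ‖(p : E)‖) {x : E} (hx : ‖x‖ < 1) :
    ‖x‖ ^ (p - 1) ≤ ‖(p : E)‖ := by
  have h1 : p - 1 ≠ 0 := by have := hp.two_le; omega
  rcases eq_or_ne x 0 with rfl | h0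
  · simp [h1]
  obtain ⟨a, ha, h2⟩ := ram_fix hp hiso hpn hG τ hτ h0
  rw [← h2]
  exact hfix a ha (h2 ▸ pow_lt_one₀ (norm_nonneg x) hx h1)

end

open Polynomial NumberField Pool.Agent.P.MP_8d2e9f_nt.G
open scoped IntermediateField

theorem p_RAM (hABG : S_ABG) :
    S_RAM := by
  classical
  intro K p hp j D τ ⟨h1, h2, hτ, h3⟩ z hz ht w hw hw1
  obtain ⟨hg, hab, -⟩ := (hABG K).1 z hz
  have : FiniteDimensional K K⟮z⟯ :=
    IntermediateField.adjoin.finiteDimensional (int_Q z).tower_top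
  let φ : K⟮z⟯ →+* Om p := j.comp (algebraMap K⟮z⟯ Qbar)
  let : NormedField K⟮z⟯ := NormedField.induced K⟮z⟯ (Om p) φ φ.injective
  have e : ∀ x : K⟮z⟯, ‖x‖ = ‖j x‖ := fun _ => rfl
  have : IsUltrametricDist K⟮z⟯ :=
    IsUltrametricDist.isUltrametricDist_of_forall_norm_add_le_max_norm fun x y => by
      simp only [e, IntermediateField.coe_add, map_add]
      exact IsUltrametricDist.norm_add_le_max _ _
  let ρ : GK K →* (K⟮z⟯ ≃ₐ[K] K⟮z⟯) := AlgEquiv.restrictNormalHom K⟮z⟯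
  have hρ : ∀ σ (x : K⟮z⟯), (ρ σ x : Qbar) = σ x := fun σ x =>
    AlgEquiv.restrictNormalHom_apply _ σ x
  have hs : ∀ g : D.map ρ, ∃ σ ∈ D, ρ σ = g ∧ ∀ x : K⟮z⟯, ((g • x : K⟮z⟯) : Qbar) = σ x := by
    rintro ⟨_, σ, hσ, rfl⟩
    exact ⟨σ, hσ, rfl, hρ σ⟩
  let : CommGroup (D.map ρ) := { mul_comm := fun g h => Subtype.ext (AlgEquiv.ext fun x => by
    obtain ⟨σ, -, -, hσ⟩ := hs g
    obtain ⟨σ', -, -, hσ'⟩ := hs h
    refine Subtype.ext ?_
    change ((g • h • x : K⟮z⟯) : Qbar) = (h • g • x : K⟮z⟯)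
    rw [hσ, hσ', hσ', hσ]
    exact hab x x.2 _ _) }
  have ep : ‖(p : K⟮z⟯)‖ = (p : ℝ)⁻¹ := by
    change ‖φ p‖ = _
    rw [map_natCast, ← map_natCast (algebraMap ℚ_[p] _), PadicAlgCl.norm_extends, Padic.norm_p]
  have hp1 : (p : ℝ)⁻¹ < 1 := inv_lt_one_of_one_lt₀ (by exact_mod_cast hp.out.one_lt)
  rw [← ep]
  refine ram_le (E := K⟮z⟯) (G := D.map ρ) (x := ⟨w, hw⟩) hp.out (fun g x => ?_) (ep ▸ hp1)
    (fun g hi hq => ?_) ⟨ρ τ, τ, hτ, rfl⟩ (fun x hx => ?_) (fun a ha h => ?_) hw1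
  · obtain ⟨σ, hσ, -, h4⟩ := hs g
    rw [e, h4, h1 σ hσ, e]
  · obtain ⟨σ, hσ, h5, h4⟩ := hs g
    have h6 : σ z = z := ht σ hσ (fun x hx hx1 => by
      have := hi ⟨x, hx⟩ hx1
      rwa [e, AddSubgroupClass.coe_sub, map_sub, h4] at this) (by
      have h7 : ρ (σ ^ p) = 1 := by rw [map_pow, h5, ← Subgroup.coe_pow, hq, Subgroup.coe_one]
      have := hρ (σ ^ p) (IntermediateField.AdjoinSimple.gen K z)
      rw [h7] at this
      exact this.symm)
    refine Subtype.ext (AlgEquiv.coe_toAlgHom_injective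
      (IntermediateField.adjoin_algHom_ext K fun x hx => Subtype.ext ?_))
    obtain rfl := Set.mem_singleton_iff.1 hx
    exact (h4 _).trans h6
  · have := h3 x hx
    rwa [← hρ, ← map_pow, ← map_sub] at this
  · obtain ⟨c, hc⟩ := h2 a fun σ hσ => by
      rw [← hρ]
      exact congrArg Subtype.val (ha ⟨ρ σ, σ, hσ, rfl⟩)
    rw [e, hc, PadicAlgCl.norm_extends] at h ⊢
    rw [ep, ← zpow_neg_one, Padic.norm_le_pow_iff_norm_lt_pow_add_one]
    simpa using h

end Pool.Agent.P.MP_8d2e9f_nt.AO
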