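import Pool.Agent.P.MP_8d2e9f_nt.AO.Iface

/-! Step RED. -/

set_option autoImplicit false

namespace Pool.Agent.P.MP_8d2e9f_nt.AO

open Polynomial NumberField Pool.Agent.P.MP_8d2e9f_nt.G
open scoped IntermediateField

theorem red_lift {p : ℕ} [Fact p.Prime] (g : ℤ_[p][X]) (hg : g.map (zr p) ≠ 0) :
    ∃ (G : ℤ[X]) (v : ℤ_[p]) (h : ℤ_[p][X]), G.Monic ∧
      G.map (Int.castRingHom ℤ_[p]) = C v * g + C (p : ℤ_[p]) * h := by
  obtain ⟨G, h1, -, h2⟩ := lifts_and_natDegree_eq_and_monic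
    (map_surjective (Int.castRingHom (ZMod p)) ZMod.intCast_surjective _)
    (monic_mul_leadingCoeff_inv hg)
  obtain ⟨v, hv⟩ := ZMod.ringHom_surjective (zr p) (g.map (zr p)).leadingCoeff⁻¹
  have h3 : (G.map (Int.castRingHom ℤ_[p]) - C v * g).map (zr p) = 0 := by
    rw [Polynomial.map_sub, Polynomial.map_mul, map_C, hv, map_map,
      Subsingleton.elim ((zr p).comp _) (Int.castRingHom _), h1, mul_comm, sub_self]
  obtain ⟨h, hh⟩ : C (p : ℤ_[p]) ∣ G.map (Int.castRingHom ℤ_[p]) - C v * g := by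
    refine (C_dvd_iff_dvd_coeff _ _).2 fun i => ?_
    rw [← Ideal.mem_span_singleton, ← PadicInt.maximalIdeal_eq_span_p, ← PadicInt.ker_toZMod,
      RingHom.mem_ker, ← coeff_map, h3, coeff_zero]
  exact ⟨G, v, h, h2, by rw [← hh, add_sub_cancel]⟩

theorem p_RED (hAUX1 : S_AUX1) :
    S_RED := by
  intro K f Y p hp φ j δ q P A c A₀ hK hd hY hj hf hY1 hδ hP hz hq hA hc hA₀
  by_contra hg
  obtain ⟨G, v, h, hG, e⟩ := red_lift _ hg
  have ep : ‖(p : Om p)‖ < 1 := by
    rw [← map_natCast (algebraMap ℚ_[p] _), PadicAlgCl.norm_extends]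
    exact Padic.norm_p_lt_one
  refine hAUX1 K f Y p φ j (max δ ‖(p : Om p)‖) G hK hd hY hj hf hY1 (max_lt hδ ep) hG
    ((hA.image Prod.fst).subset fun z hzY => ?_)
  obtain ⟨w, hw⟩ := hz z hzY.1
  refine ⟨(z, w), ⟨hw, fun h0 => hzY.2 ?_⟩, rfl⟩
  let O := (NormedField.valuation (K := Om p)).valuationSubring
  have mO : ∀ x : Om p, x ∈ O ↔ ‖x‖ ≤ 1 := fun x => by
    rw [Valuation.mem_valuationSubring_iff]
    exact NNReal.coe_le_coe.symm
  let ι : ℤ_[p] →+* O := (zo p).codRestrict O fun x => (mO _).2 (by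
    rw [zo_apply, PadicAlgCl.norm_extends]
    exact x.2)
  let x : O := ⟨j z, (mO _).2 (hY1 z hzY.1)⟩
  let y : O := ⟨j w, (mO _).2 (hY1 w (hP hw).2)⟩
  let ev : ℤ_[p][X] →+* O := eval₂RingHom ι x
  have h1 : eval₂ ev y A₀ = 0 := by
    let E : ℚ_[p][X][X] →+* Om p :=
      eval₂RingHom (eval₂RingHom (algebraMap ℚ_[p] (Om p)) (j z)) (j w)
    have e1 : E.comp (mapRingHom (mapRingHom φ)) = j.comp (aevalAeval z w).toRingHom := by
      ext a
      · simpa [E] using (hj a).symm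
      all_goals simp [E]
    have e2 : E.comp (mapRingHom (mapRingHom (zq p))) = O.subtype.comp (eval₂RingHom ev y) := by
      ext a
      · simp [E, ev, ι, zo_apply]
      all_goals simp [E, ev, x, y]
    have e3 := DFunLike.congr_fun e1 A
    have e4 := DFunLike.congr_fun e2 A₀
    simp only [RingHom.comp_apply, coe_mapRingHom, coe_eval₂RingHom] at e3 e4
    have e5 : (aevalAeval z w).toRingHom A = 0 := h0
    rw [hA₀, map_mul, e4, e5, map_zero, mul_eq_zero] at e3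
    exact Subtype.ext (e3.resolve_left (by simpa [E] using hc))
  obtain ⟨t, ht⟩ := sub_dvd_eval_sub (x ^ q) y (A₀.map ev)
  rw [eval_map, eval_map, h1, sub_zero] at ht
  have h2 : ev (A₀.eval (X ^ q)) = (x ^ q - y) * t := by
    rw [← ht, ← eval₂_hom]
    simp [ev]
  have h3 : aeval (j z) G = (ev (G.map (Int.castRingHom ℤ_[p])) : O) := by
    rw [coe_eval₂RingHom, eval₂_map]
    change _ = O.subtype _
    rw [hom_eval₂, aeval_def]
    congr 1
  have n1 : ∀ a : O, ‖(a : Om p)‖ ≤ 1 := fun a => (mO _).1 a.2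
  have h5 : ((ev (C (p : ℤ_[p])) : O) : Om p) = p := by simp [ev]
  have h6 : aeval (j z) G = (ev (C v) : Om p) * ((j z ^ q - j w) * t) + (p : Om p) * ev h := by
    rw [h3, e, map_add, map_mul, map_mul, h2, ← h5]
    rfl
  rw [h6]
  refine (IsUltrametricDist.norm_add_le_max _ _).trans (max_le_max ?_ ?_)
  · have h4 : ‖j z ^ q - j w‖ ≤ δ := (norm_sub_rev _ _).trans_le (hq (z, w) hw)
    rw [norm_mul, norm_mul]
    exact (mul_le_of_le_one_left (mul_nonneg (norm_nonneg _) (norm_nonneg _)) (n1 _)).trans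
      ((mul_le_of_le_one_right (norm_nonneg _) (n1 _)).trans h4)
  · rw [norm_mul]
    exact mul_le_of_le_one_right (norm_nonneg _) (n1 _)

end Pool.Agent.P.MP_8d2e9f_nt.AO
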