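import Pool.Agent.P.MP_8d2e9f_nt.AO.Iface

/-! Step SEQ. -/

set_option autoImplicit false

namespace Pool.Agent.P.MP_8d2e9f_nt.AO

open Polynomial NumberField Pool.Agent.P.MP_8d2e9f_nt.G
open scoped IntermediateField

lemma seq_iter {K : IF} (f : K[X]) (σ : GK K) (n : ℕ) (z : Qbar) :
    (fun x => aeval x f)^[n] (σ z) = σ ((fun x => aeval x f)^[n] z) := by
  induction n generalizing z with
  | zero => rfl
  | succ n ih =>
    rw [Function.iterate_succ_apply, Function.iterate_succ_apply, ← ih]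
    exact congrArg _ (aeval_algHom_apply σ z f)

lemma seq_bd {K : IF} {N : ℕ} {H : ℝ} {z : Qbar} (σ : GK K) (h : Bd N H z) : Bd N H (σ z) := by
  refine ⟨?_, fun ψ => h.2 (ψ.comp (σ : Qbar →+* Qbar))⟩
  have := h.1.map (σ : Qbar →+* Qbar).toIntAlgHom
  simpa using this

lemma seq_conj (K : IF) (y : Qbar) : (Set.range fun σ : GK K => σ y).Finite := by
  classical
  have hi : IsIntegral K y := (int_Q y).tower_top
  refine ((minpoly K y).rootSet_finite Qbar).subset ?_
  rintro _ ⟨σ, rfl⟩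
  rw [mem_rootSet_of_ne (minpoly.ne_zero hi), aeval_algHom_apply, minpoly.aeval, map_zero]

theorem p_SEQ (hABG : S_ABG) (hTAMEB : S_TAMEB) (hBT : S_BT) (hFORMT : S_FORMT) (hEXC : S_EXC) (hBASE : S_BASE) :
    S_SEQ := by
  intro K f y hK hd hy hab hi
  have hd' : 2 ≤ (f.map (algebraMap K Qbar)).natDegree := by rwa [natDegree_map]
  have ev : (fun x => (f.map (algebraMap K Qbar)).eval x) = fun x : Qbar => aeval x f :=
    funext fun x => eval_map_algebraMap _ _
  have it : ∀ n, (fun x => aeval x f)^[n] (y n) = y 0 := fun n => by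
    induction n with
    | zero => rfl
    | succ n ih => rw [Function.iterate_succ_apply]; exact (congrArg _ (hy n)).trans ih
  let Y : Set Qbar := {z | Ab K z ∧ ∃ (n : ℕ) (σ : GK K), (fun x => aeval x f)^[n] z = σ (y 0)}
  obtain ⟨N, H, hN, hb⟩ := hBT _ (y 0) hd'
  rw [ev] at hb
  have hO : Orb K f Y := by
    refine ⟨hi.mono ?_, ?_, ?_, N, H, hN, ?_⟩
    · rintro _ ⟨n, rfl⟩
      exact ⟨hab n, n, 1, it n⟩
    · rintro σ z ⟨h1, n, ρ, h2⟩
      refine ⟨((hABG K).1 z h1).2.1 _ (((hABG K).1 z h1).2.2 σ), n, σ * ρ, ?_⟩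
      rw [seq_iter, h2]
      rfl
    · refine (seq_conj K (y 0)).subset ?_
      rintro z ⟨⟨h1, n, ρ, h2⟩, h3⟩
      cases n with
      | zero => exact ⟨ρ, h2.symm⟩
      | succ n =>
        refine (h3 ⟨fun s t => ?_, n, ρ, h2⟩).elim
        rw [← aeval_algHom_apply t, ← aeval_algHom_apply s, ← aeval_algHom_apply s,
          ← aeval_algHom_apply t, h1 s t]
    · rintro z ⟨-, n, ρ, h2⟩
      have := seq_bd ρ (hb n (ρ.symm z) (by rw [seq_iter, h2, AlgEquiv.symm_apply_apply]))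
      rwa [AlgEquiv.apply_symm_apply] at this
  obtain ⟨M, hM⟩ := hTAMEB K f (y 0) (by omega)
  obtain ⟨a, b, hs⟩ := hEXC K f hK hd (hFORMT K f Y hK hd hO (fun z hz => hz.1)
    ⟨M, fun p _ j hp z hz => hM p j hp z hz.2⟩)
  exact ⟨a, b, hBASE K _ a b y hK hd' hs (fun n => (congrFun ev _).trans (hy n)) hab hi⟩

end Pool.Agent.P.MP_8d2e9f_nt.AO
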