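import Pool.Agent.P.MP_8d2e9f_nt.AO.Iface

/-! Step TAMEB. -/

set_option autoImplicit false

namespace Pool.Agent.P.MP_8d2e9f_nt.AO

open Polynomial NumberField Pool.Agent.P.MP_8d2e9f_nt.G
open scoped IntermediateField

theorem tameb_fix {T : Type} [Field T] (s : T → T) (z : T) {p : ℕ} (hp : p.Prime)
    (h : s^[p] z = z) (g : T[X]) (hg : g ≠ 0) (hd : g.natDegree < p)
    (hr : ∀ i, g.eval (s^[i] z) = 0) : s z = z := by
  classical
  rcases (Nat.dvd_prime hp).1 (Function.IsPeriodicPt.minimalPeriod_dvd h) with e | e
  · exact Function.minimalPeriod_eq_one_iff_isFixedPt.1 e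
  · exfalso
    have h1 : (Finset.range p).card ≤ g.roots.toFinset.card :=
      Finset.card_le_card_of_injOn (fun i => s^[i] z)
        (fun i _ => by simpa [hg] using hr i) fun i hi j hj e' =>
          Function.iterate_injOn_Iio_minimalPeriod (f := s) (x := z) (by simpa [e] using hi)
            (by simpa [e] using hj) e'
    have h2 := (Multiset.toFinset_card_le g.roots).trans (card_roots' g)
    rw [Finset.card_range] at h1
    omega

theorem tameb_pow {K : IF} (σ : GK K) (i : ℕ) (z : Qbar) : (σ ^ i) z = σ^[i] z := by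
  rw [AlgEquiv.coe_pow]

theorem p_TAMEB :
    S_TAMEB := by
  intro K f y hf
  refine ⟨max f.natDegree (minpoly K y).natDegree, fun p hp j hN z hz σ _ h0 h => ?_⟩
  clear h0
  obtain ⟨n, ρ, hz⟩ := hz
  have hinj := (algebraMap K Qbar).injective
  induction n generalizing z with
  | zero =>
    have hy : IsIntegral K y := (int_Q y).tower_top
    refine tameb_fix σ z hp.out (by rw [← tameb_pow, h]) ((minpoly K y).map (algebraMap K Qbar))
      ((Polynomial.map_ne_zero_iff hinj).2 (minpoly.ne_zero hy))
      (by rw [natDegree_map]; omega) fun i => ?_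
    have e : z = ρ y := hz
    rw [eval_map_algebraMap, ← tameb_pow, e, aeval_algHom_apply, aeval_algHom_apply,
      minpoly.aeval, map_zero, map_zero]
  | succ n ih =>
    have h1 : σ (aeval z f) = aeval z f :=
      ih (aeval z f) (by rw [← aeval_algHom_apply, h]) hz
    have hd : (f.map (algebraMap K Qbar) - C (aeval z f)).natDegree = f.natDegree := by
      rw [natDegree_sub_C, natDegree_map]
    refine tameb_fix σ z hp.out (by rw [← tameb_pow, h])
      (f.map (algebraMap K Qbar) - C (aeval z f)) (fun e => ?_) (by omega) fun i => ?_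
    · rw [e, natDegree_zero] at hd
      omega
    · rw [eval_sub, eval_C, eval_map_algebraMap, ← tameb_pow, aeval_algHom_apply, tameb_pow,
        Function.iterate_fixed h1, sub_self]

end Pool.Agent.P.MP_8d2e9f_nt.AO
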