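import Pool.Agent.P.MP_8d2e9f_nt.AO.Cyc

set_option autoImplicit false

namespace Pool.Agent.P.MP_8d2e9f_nt.AO

open Finset Subgroup

/-- an element fixed by the wild group, with leading term fixed by inertia, has the norm of a fixed element -/
theorem wT0 {E G : Type*} [NormedField E] [IsUltrametricDist E] [CommGroup G] [Fintype G]
    [MulSemiringAction G E] {p : ℕ} (hp : p.Prime) (hiso : ∀ (g : G) (x : E), ‖g • x‖ = ‖x‖)
    (hpn : ‖(p : E)‖ < 1) (τ : G) (hτ : ∀ z : E, ‖z‖ ≤ 1 → ‖τ • z - z ^ p‖ < 1)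
    (W : Subgroup G) (hWp : IsPGroup p W)
    (hW1 : ∀ g ∈ W, ∀ z : E, ‖z‖ ≤ 1 → ‖g • z - z‖ < 1)
    (hW2 : ∀ g : G, (∀ z : E, ‖z‖ ≤ 1 → ‖g • z - z‖ < 1) → g ^ p ∈ W → g ∈ W)
    {v : E} (hv0 : v ≠ 0) (hvW : ∀ g ∈ W, g • v = v)
    (hv : ∀ g : G, (∀ z : E, ‖z‖ ≤ 1 → ‖g • z - z‖ < 1) → ‖g • v - v‖ < ‖v‖) :
    ∃ a : E, (∀ g : G, g • a = a) ∧ ‖a‖ = ‖v‖ := by
  classical
  have := Fact.mk hp
  let O := (NormedField.valuation (K := E)).valuationSubring
  have mO : ∀ z : E, z ∈ O ↔ ‖z‖ ≤ 1 := fun z => by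
    rw [Valuation.mem_valuationSubring_iff]
    exact NNReal.coe_le_coe.symm
  let res := IsLocalRing.residue O
  have r0 : ∀ a : O, res a = 0 ↔ ‖(a : E)‖ < 1 := fun a => by
    rw [IsLocalRing.residue_eq_zero_iff, Valuation.mem_maximalIdeal_iff]
    exact NNReal.coe_lt_coe.symm
  have r1 : ∀ a b : O, res a = res b ↔ ‖(a : E) - b‖ < 1 := fun a b => by
    rw [← sub_eq_zero, ← map_sub, r0]
    rfl
  have : CharP (IsLocalRing.ResidueField O) p := (CharP.charP_iff_prime_eq_zero hp).2 (by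
    rw [← map_natCast res, r0]
    simpa using hpn)
  let act : G → O →+* O := fun g => ((MulSemiringAction.toRingHom G E g).comp O.subtype).codRestrict
    O fun a => (mO _).2 ((hiso g a).le.trans ((mO _).1 a.2))
  have ha : ∀ g (a : O), (act g a : E) = g • (a : E) := fun _ _ => rfl
  have hm : ∀ g h (a : O), act (g * h) a = act g (act h a) := fun g h a =>
    Subtype.ext (mul_smul g h (a : E))
  have hr : ∀ g (a b : O), res a = res b → res (act g a) = res (act g b) := fun g a b h => by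
    rw [r1] at h ⊢
    rwa [ha, ha, ← smul_sub, hiso]
  let χ : G → O →* IsLocalRing.ResidueField O := fun g => (res.comp (act g) : O →+* _)
  let I : Subgroup G :=
    { carrier := {g | ∀ a : O, res (act g a) = res a}
      one_mem' := fun a => (r1 _ _).2 (by simp [ha])
      mul_mem' := fun {g h} hg hh a => by rw [hm, hg, hh]
      inv_mem' := fun {g} hg a => by
        rw [← hg, ← hm, mul_inv_cancel]
        exact (r1 _ _).2 (by simp [ha]) }
  have mI : ∀ g, g ∈ I ↔ ∀ z : E, ‖z‖ ≤ 1 → ‖g • z - z‖ < 1 := fun g =>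
    ⟨fun h z hz => (r1 _ _).1 (h ⟨z, (mO z).2 hz⟩), fun h a => (r1 _ _).2 (h a ((mO _).1 a.2))⟩
  have hI : ∀ g, χ g = χ 1 ↔ g ∈ I := fun g =>
    ⟨fun h a => (DFunLike.congr_fun h a).trans (I.one_mem a),
      fun h => MonoidHom.ext fun a => (h a).trans (I.one_mem a).symm⟩
  have hWI : W ≤ I := fun g hg => (mI g).2 (hW1 g hg)
  have hb : ∀ a : O, ∃ b : O, (∀ g ∈ W, g • (b : E) = b) ∧ res b = res a := fun a => by
    obtain ⟨r, hc⟩ := hWp.exists_card_eq
    have h1 : ∀ (n : ℕ) (a : O), res (act (τ ^ n) a) = res a ^ p ^ n := fun n => by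
      induction n with
      | zero => exact fun a => by simpa using I.one_mem a
      | succ n ih =>
        intro a
        rw [pow_succ, hm, ih, pow_succ', pow_mul,
          (r1 (act τ a) (a ^ p)).2 (hτ a ((mO _).1 a.2)), map_pow]
    refine ⟨∏ w : W, act w (act (τ ^ r)⁻¹ a), fun g hg => ?_, ?_⟩
    · push_cast
      rw [Finset.smul_prod']
      exact Fintype.prod_equiv (Equiv.mulLeft ⟨g, hg⟩) _ _ fun w => by simp [ha, mul_smul]
    · rw [map_prod, prod_congr rfl fun (w : W) _ => hWI w.2 _, prod_const, card_univ,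
        ← Nat.card_eq_fintype_card, hc, ← h1, ← hm, mul_inv_cancel]
      exact I.one_mem a
  have n1 : ∀ g : G, ‖g • v / v‖ = 1 := fun g => by
    rw [norm_div, hiso, div_self (norm_ne_zero_iff.2 hv0)]
  let c : G → O := fun g => ⟨g • v / v, (mO _).2 (n1 g).le⟩
  have hc : ∀ g ∈ I, res (c g) = 1 := fun g hg => by
    rw [← map_one res, r1]
    change ‖g • v / v - 1‖ < 1
    rw [div_sub_one hv0, norm_div, div_lt_one (norm_pos_iff.2 hv0)]
    exact hv g ((mI g).1 hg)
  have hq : ∀ q : G ⧸ W, q.out ∈ I ↔ q ∈ I.map (QuotientGroup.mk' W) := fun q => by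
    refine ⟨fun h => ⟨_, h, q.out_eq⟩, ?_⟩
    rintro ⟨g, hg, rfl⟩
    obtain ⟨w, hw⟩ := QuotientGroup.mk_out_eq_mul W g
    exact hw ▸ I.mul_mem hg (hWI w.2)
  obtain ⟨a, h1⟩ : ∃ a : O, ∑ q : G ⧸ W, res (c q.out) * χ q.out a ≠ 0 := by
    by_contra h0
    push Not at h0
    have h1 := linearIndependent_iff.1 (linearIndependent_monoidHom O (IsLocalRing.ResidueField O))
      (∑ q : G ⧸ W, Finsupp.single (χ q.out) (res (c q.out))) (by
        rw [map_sum]
        ext a
        simpa using h0 a)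
    have h2 : ((Nat.card (I.map (QuotientGroup.mk' W)) : ℕ) : IsLocalRing.ResidueField O) = 0 := by
      have h3 := congrArg (· (χ 1)) h1
      simp only [Finsupp.finsetSum_apply, Finsupp.single_apply, hI, Finsupp.zero_apply] at h3
      rw [← h3, ← sum_filter, sum_congr rfl fun g hg => hc _ (mem_filter.1 hg).2]
      simp [Fintype.card_subtype, hq]
    obtain ⟨⟨_, g, hg, rfl⟩, h3⟩ :=
      exists_prime_orderOf_dvd_card' p ((CharP.cast_eq_zero_iff _ p _).1 h2)
    rw [← orderOf_coe] at h3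
    change orderOf (g : G ⧸ W) = p at h3
    have h4 := (QuotientGroup.eq_one_iff g).2 (hW2 g ((mI g).1 hg)
      ((QuotientGroup.eq_one_iff _).1 (by rw [QuotientGroup.mk_pow, ← h3, pow_orderOf_eq_one])))
    exact hp.ne_one (h3.symm.trans (orderOf_eq_one_iff.2 h4))
  obtain ⟨b, h2, h3⟩ := hb a
  have h4 : ∀ g : G, (g : G ⧸ W).out • (v * b) = g • (v * b) := fun g => by
    obtain ⟨w, hw⟩ := QuotientGroup.mk_out_eq_mul W g
    rw [hw, mul_smul, smul_mul' (w : G), hvW _ w.2, h2 _ w.2]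
  refine ⟨∑ q : G ⧸ W, q.out • (v * b), fun h => ?_, ?_⟩
  · rw [smul_sum]
    refine Fintype.sum_equiv (Equiv.mulLeft (h : G ⧸ W)) _ _ fun q => ?_
    rw [← mul_smul, ← h4, QuotientGroup.mk_mul, QuotientGroup.out_eq']
    rfl
  · have e : ∑ q : G ⧸ W, q.out • (v * b) = v * (∑ q : G ⧸ W, c q.out * act q.out b : O) := by
      push_cast
      rw [mul_sum]
      refine sum_congr rfl fun g _ => ?_
      rw [smul_mul', ha]
      simp only [c]
      field_simp
    have h5 : ‖((∑ q : G ⧸ W, c q.out * act q.out b : O) : E)‖ = 1 := by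
      refine le_antisymm ((mO _).1 (Subtype.prop _)) (not_lt.1 fun h => h1 ?_)
      rw [← r0, map_sum] at h
      simp only [map_mul, hr _ _ _ h3] at h
      exact h
    rw [e, norm_mul, h5, mul_one]

theorem pow_jump {E G : Type*} [NormedField E] [IsUltrametricDist E] [Group G]
    [MulSemiringAction G E] {p : ℕ} (hp : p.Prime) {σ : G} {r : ℝ} (h0 : 0 ≤ r) (h1 : r ≤ 1)
    (hσ : ∀ z : E, ‖σ • z - z‖ ≤ r * ‖z‖) {n : ℕ} (hn : ‖(p : E)‖ ≤ r ^ p ^ n) {z : E}
    (hz : ‖z‖ ≤ 1) : ‖σ ^ p ^ n • z - z‖ ≤ r ^ p ^ n := by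
  have h2 : ∀ (k : ℕ) (z : E), (fwdDiff 1)^[k] (fun m : ℕ => σ ^ m • z) =
      fun m => σ ^ m • (fun y => σ • y - y)^[k] z := fun k => by
    induction k with
    | zero => exact fun _ => rfl
    | succ k ih =>
      intro z
      rw [Function.iterate_succ_apply, Function.iterate_succ_apply, ← ih]
      congr 1
      ext m
      simp [fwdDiff, pow_succ, mul_smul, smul_sub]
  have h3 : ∀ k : ℕ, ‖(fun y => σ • y - y)^[k] z‖ ≤ r ^ k := fun k => by
    induction k with
    | zero => simpa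
    | succ k ih =>
      rw [Function.iterate_succ_apply', pow_succ']
      exact (hσ _).trans (mul_le_mul_of_nonneg_left ih h0)
  have h4 := shift_eq_sum_fwdDiff_iter 1 (fun m : ℕ => σ ^ m • z) (p ^ n) 0
  simp only [h2, zero_add, smul_eq_mul, mul_one, pow_zero, one_smul] at h4
  rw [h4, sum_range_succ']
  simp only [Nat.choose_zero_right, one_smul, Function.iterate_zero_apply, add_sub_cancel_right]
  refine IsUltrametricDist.norm_sum_le_of_forall_le_of_nonneg (by positivity) fun k hk => ?_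
  rcases eq_or_ne (k + 1) (p ^ n) with h | h
  · simpa [h] using h3 (p ^ n)
  obtain ⟨c, hc⟩ := hp.dvd_choose_pow k.succ_ne_zero h
  rw [hc, nsmul_eq_mul, Nat.cast_mul, norm_mul, norm_mul, mul_assoc]
  exact (mul_le_of_le_one_right (norm_nonneg _) (mul_le_one₀
    (IsUltrametricDist.norm_natCast_le_one E c) (norm_nonneg _)
    ((h3 _).trans (pow_le_one₀ h0 h1)))).trans hn

/-- the last jump of a wildly ramified abelian action is large -/
theorem wild2 {E G : Type*} [NormedField E] [IsUltrametricDist E] [CommGroup G] [Fintype G]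
    [MulSemiringAction G E] [FaithfulSMul G E] {p : ℕ} (hp : p.Prime) (h2 : p ≠ 2)
    (hiso : ∀ (g : G) (x : E), ‖g • x‖ = ‖x‖) (hpn : ‖(p : E)‖ < 1) (hp0 : (p : E) ≠ 0) (τ : G)
    (hτ : ∀ z : E, ‖z‖ ≤ 1 → ‖τ • z - z ^ p‖ < 1)
    (hfix : ∀ a : E, (∀ g : G, g • a = a) → ‖a‖ < 1 → ‖a‖ ≤ ‖(p : E)‖) {g : G}
    (hg : ∀ z : E, ‖z‖ ≤ 1 → ‖g • z - z‖ < 1) (g1 : g ≠ 1) (gp : g ^ p = 1) :
    ∃ s : G, s ≠ 1 ∧ s ^ p = 1 ∧
      ∀ z : E, ‖z‖ ≤ 1 → ‖s • z - z‖ ^ (p * (p - 1)) ≤ ‖(p : E)‖ := by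
  classical
  have := Fact.mk hp
  have tri : ∀ a b c : E, ‖a - b‖ < 1 → ‖b - c‖ < 1 → ‖a - c‖ < 1 := fun a b c h1 h2 => by
    rw [show a - c = (a - b) + (b - c) by ring]
    exact lt_add h1 h2
  let I : Subgroup G :=
    { carrier := {g | ∀ z : E, ‖z‖ ≤ 1 → ‖g • z - z‖ < 1}
      one_mem' := fun z _ => by simp
      mul_mem' := fun {g h} hg hh z hz => by
        refine tri _ (g • z) _ ?_ (hg z hz)
        rw [mul_smul, ← smul_sub, hiso]
        exact hh z hz
      inv_mem' := fun {g} hg z hz => by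
        rw [← hiso g, smul_sub, smul_inv_smul, norm_sub_rev]
        exact hg z hz }
  have n1 : ∀ (g : G) {y : E}, y ≠ 0 → ‖g • y / y‖ = 1 := fun g y hy => by
    rw [norm_div, hiso, div_self (norm_ne_zero_iff.2 hy)]
  obtain ⟨P⟩ : Nonempty (Sylow p I) := inferInstance
  have hP : ∀ (H : Subgroup I), ¬ p ∣ H.index → ∀ g ∈ I, g ^ p ∈ H.map I.subtype →
      g ∈ H.map I.subtype := fun H hH g hg h => by
    have h1 : (⟨g, hg⟩ : I) ^ p ∈ H := (mem_map_iff_mem I.subtype_injective).1 h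
    have h3 := H.pow_index_mem ⟨g, hg⟩
    obtain ⟨a, b, hab⟩ := Nat.isCoprime_iff_coprime.2 ((hp.coprime_iff_not_dvd).2 hH)
    refine ⟨⟨g, hg⟩, ?_, rfl⟩
    rw [← zpow_one (⟨g, hg⟩ : I), ← hab, zpow_add, mul_comm a, mul_comm b, zpow_mul, zpow_mul,
      zpow_natCast, zpow_natCast]
    exact H.mul_mem (H.zpow_mem h1 a) (H.zpow_mem h3 b)
  have hT : ∀ (H : Subgroup I), IsPGroup p H → ¬ p ∣ H.index → ∀ v : E, (∀ g ∈ H, g • v = v) →
      (v ≠ 0 → ∀ g ∈ I, ‖g • v - v‖ < ‖v‖) → ‖v‖ < 1 → ‖v‖ ≤ ‖(p : E)‖ :=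
    fun H h1 h3 v h4 h5 h6 => by
      rcases eq_or_ne v 0 with rfl | h0
      · simp
      obtain ⟨a, h7, h8⟩ := wT0 hp hiso hpn τ hτ (H.map I.subtype) (h1.map _)
        (fun g hg => map_subtype_le H hg) (hP H h3) h0
        (by rintro _ ⟨g, hg, rfl⟩; exact h4 g hg) (h5 h0)
      exact h8 ▸ hfix a h7 (h8 ▸ h6)
  have hF : ∀ (n : ℕ) (z : E), ‖z‖ ≤ 1 → ‖τ ^ n • z - z ^ p ^ n‖ < 1 := fun n => by
    induction n with
    | zero => simp
    | succ n ih =>
      intro z hz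
      refine tri _ (τ • z ^ p ^ n) _ ?_ ?_
      · rw [pow_succ', mul_smul, ← smul_sub, hiso]
        exact ih z hz
      · rw [pow_succ, pow_mul]
        exact hτ _ (by rw [norm_pow]; exact pow_le_one₀ (norm_nonneg _) hz)
  have hprod : ∀ {ι : Type _} (s : Finset ι) (f : ι → E) (y : E), ‖y‖ ≤ 1 →
      (∀ i, ‖f i‖ ≤ 1) → (∀ i, ‖f i - y‖ < 1) → ‖∏ i ∈ s, f i - y ^ s.card‖ < 1 :=
    fun s f y hy h1 h3 => by
      induction s using Finset.cons_induction with
      | empty => simp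
      | cons a s ha ih =>
        rw [prod_cons, card_cons, show f a * ∏ i ∈ s, f i - y ^ (#s + 1) =
          (∏ i ∈ s, f i - y ^ #s) * f a + (f a - y) * y ^ #s by ring]
        exact lt_add (lt_mul ih (h1 a))
          (lt_mul (h3 a) (by rw [norm_pow]; exact pow_le_one₀ (norm_nonneg _) hy))
  have hN : ∀ (H : Subgroup I) (y : E), ∀ g ∈ H, g • ∏ w : H, w • y = ∏ w : H, w • y :=
    fun H y g hg => by
      rw [Finset.smul_prod']
      exact Fintype.prod_equiv (Equiv.mulLeft (⟨g, hg⟩ : H)) _ _ fun w => (mul_smul g w y).symm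
  obtain ⟨σ, j, h3, h4⟩ := wild_cyc hp h2 hiso hpn hp0 τ hτ I (fun g hg => hg)
    (fun x hx => hT P P.isPGroup' P.not_dvd_index x (fun g _ => hx g g.2) fun h0 g hg => by
      simpa [hx g hg] using h0) fun z hz => by
      obtain ⟨r, hr⟩ := P.isPGroup'.exists_card_eq
      obtain ⟨b, hb⟩ : ∃ b, b = ∏ w : (P : Subgroup I), w • (τ ^ r)⁻¹ • z := ⟨_, rfl⟩
      have h5 : ‖b - z‖ < 1 := by
        have h5 := hprod univ (fun w : (P : Subgroup I) => w • (τ ^ r)⁻¹ • z) ((τ ^ r)⁻¹ • z)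
          (by rwa [hiso]) (fun w => (hiso _ _).le.trans (by rwa [hiso]))
          fun w => w.1.2 _ (by rwa [hiso])
        rw [card_univ, ← Nat.card_eq_fintype_card, hr, ← hb] at h5
        refine tri _ _ _ h5 ?_
        simpa [norm_sub_rev] using hF r ((τ ^ r)⁻¹ • z) (by rwa [hiso])
      have h6 : ‖b‖ ≤ 1 := by simpa using le_add h5.le hz
      have h7 : ∀ g : I, (g : I ⧸ (P : Subgroup I)).out • b = g • b := fun g => by
        obtain ⟨w, hw⟩ := QuotientGroup.mk_out_eq_mul (P : Subgroup I) g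
        rw [hw, mul_smul, hb, hN _ _ _ w.2]
      have h8 : ‖((P : Subgroup I).index : E)‖ = 1 := by
        refine le_antisymm (IsUltrametricDist.norm_natCast_le_one E _) (not_lt.1 fun h => ?_)
        obtain ⟨u, v, huv⟩ := Nat.isCoprime_iff_coprime.2
          ((hp.coprime_iff_not_dvd).2 P.not_dvd_index)
        have h9 := lt_add (lt_mul hpn (IsUltrametricDist.norm_intCast_le_one E u))
          (lt_mul h (IsUltrametricDist.norm_intCast_le_one E v))
        have e := congrArg (Int.cast : ℤ → E) huv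
        push_cast at e
        rw [mul_comm _ (u : E), mul_comm _ (v : E), e, norm_one] at h9
        exact h9.false
      have h9 : ((P : Subgroup I).index : E) ≠ 0 := norm_pos_iff.1 (h8 ▸ one_pos)
      refine ⟨(∑ q : I ⧸ (P : Subgroup I), q.out • b) / (P : Subgroup I).index, fun k hk => ?_, ?_⟩
      · rw [smul_div₀', smul_sum]
        congr 1
        · refine Fintype.sum_equiv (Equiv.mulLeft ((⟨k, hk⟩ : I) : I ⧸ (P : Subgroup I))) _ _
            fun q => ?_
          change (⟨k, hk⟩ : I) • q.out • b = _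
          rw [← mul_smul, ← h7, QuotientGroup.mk_mul, QuotientGroup.out_eq']
          rfl
        · exact map_natCast (MulSemiringAction.toRingHom G E k) _
      · rw [sub_div' h9, norm_div, h8, div_one, index_eq_card, Nat.card_eq_fintype_card,
          mul_comm, ← nsmul_eq_mul, ← card_univ, ← sum_const, ← sum_sub_distrib]
        obtain ⟨q, -, hq⟩ := IsUltrametricDist.exists_norm_finsetSum_le_of_nonempty
          (univ_nonempty (α := I ⧸ (P : Subgroup I))) fun q => z - q.out • b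
        refine hq.trans_lt (tri _ b _ (by rwa [norm_sub_rev]) ?_)
        rw [norm_sub_rev]
        exact q.out.2 b h6
  have h5 : ∀ x : E, ‖x‖ < 1 → ‖x‖ ^ (p ^ j * (p - 1)) ≤ ‖(p : E)‖ := fun y hy => by
    obtain ⟨x, hx⟩ : ∃ x, x = ∏ w : zpowers σ, w • y := ⟨_, rfl⟩
    have e0 : ‖x ^ (p - 1)‖ = ‖y‖ ^ (p ^ j * (p - 1)) := by
      have e : ∀ w : zpowers σ, ‖w • y‖ = ‖y‖ := fun w => hiso w y
      rw [norm_pow, hx, norm_prod, prod_congr rfl fun w _ => e w, prod_const,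
        card_univ, Fintype.card_zpowers, h3, pow_mul]
    have hq : p - 1 ≠ 0 := by have := hp.two_le; omega
    rw [← e0]
    refine hT (zpowers σ) (.of_card (by rw [Nat.card_zpowers, h3])) h4 _
      (fun g hg => by rw [smul_pow', hx, hN _ _ _ hg]) (fun hu g hg => ?_)
      (e0 ▸ pow_lt_one₀ (norm_nonneg _) hy (mul_ne_zero (pow_ne_zero _ hp.ne_zero) hq))
    have hx : x ≠ 0 := fun h => hu (by simp [h, hq])
    have g0 : ∀ h : G, h • x ≠ 0 := fun h => (smul_ne_zero_iff_ne h).2 hx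
    have h3 : ‖g • x / x - τ • (g • x / x)‖ < 1 := by
      have e : g • x / x - τ • (g • x / x) =
          -(g • (τ • x / x) - τ • x / x) * (g • x / x) / (τ • x / x) := by
        rw [smul_div₀', smul_div₀', smul_comm τ g x]
        have := g0 g
        have := g0 τ
        field_simp
        ring
      rw [e, norm_div, norm_mul, n1 g hx, n1 τ hx, norm_neg]
      simpa using hg _ (n1 τ hx).le
    have h4 := tri _ _ _ h3 (hτ _ (n1 g hx).le)
    have e : g • x / x - (g • x / x) ^ p = -(g • x / x) * (g • x ^ (p - 1) / x ^ (p - 1) - 1) := by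
      rw [smul_pow', ← div_pow]
      conv_lhs => rw [← Nat.sub_add_cancel hp.one_le, pow_succ]
      ring
    rwa [e, norm_mul, norm_neg, n1 g hx, one_mul, div_sub_one hu, norm_div,
      div_lt_one (norm_pos_iff.2 hu)] at h4
  rcases j with _ | j
  · rw [pow_zero, orderOf_eq_one_iff] at h3
    have h6 := hP _ h4 g hg (gp ▸ one_mem _)
    simp [h3, g1] at h6
  have hN0 : p ^ (j + 1) * (p - 1) ≠ 0 := by
    have := hp.two_le
    exact mul_ne_zero (by positivity) (by omega)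
  obtain ⟨r, r0, hr⟩ : ∃ r : ℝ, 0 ≤ r ∧ r ^ (p ^ (j + 1) * (p - 1)) = ‖(p : E)‖ :=
    ⟨_, by positivity, Real.rpow_inv_natCast_pow (norm_nonneg _) hN0⟩
  have r1 : r ≤ 1 := by
    rw [← pow_le_one_iff_of_nonneg r0 hN0, hr]
    exact hpn.le
  have h6 : ∀ z : E, ‖(σ : G) • z - z‖ ≤ r * ‖z‖ := fun z => by
    rcases eq_or_ne z 0 with rfl | h0
    · simp
    have h6 : ∀ n : ℕ, ‖((σ : G) • z / z) ^ n - (σ : G) ^ n • z / z‖ < 1 := fun n => by
      induction n with
      | zero => simp [h0]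
      | succ n ih =>
        have e : ((σ : G) • z / z) ^ (n + 1) - (σ : G) ^ (n + 1) • z / z =
            (((σ : G) • z / z) ^ n - (σ : G) ^ n • z / z +
            -((σ : G) • ((σ : G) ^ n • z / z) - (σ : G) ^ n • z / z)) * ((σ : G) • z / z) := by
          have : (σ : G) • z ≠ 0 := (smul_ne_zero_iff_ne _).2 h0
          rw [pow_succ' (σ : G), mul_smul, smul_div₀', pow_succ]
          field_simp
          ring
        rw [e]
        exact lt_mul (lt_add ih (by rw [norm_neg]; exact σ.2 _ (n1 _ h0).le)) (n1 _ h0).le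
    have h7 : ∀ (n : ℕ) (w : E), ‖w‖ ≤ 1 → ‖w ^ p ^ n - 1‖ < 1 → ‖w - 1‖ < 1 := fun n => by
      induction n with
      | zero => simp
      | succ n ih =>
        intro w hw h
        rw [pow_succ, pow_mul] at h
        exact ih w hw ((res_lem hp hpn
          (by rw [norm_pow]; exact pow_le_one₀ (norm_nonneg _) hw)).1 h)
    have h8 := h6 (orderOf σ)
    rw [← Subgroup.coe_pow, pow_orderOf_eq_one, Subgroup.coe_one, one_smul, div_self h0, h3] at h8
    have h9 := h5 _ (h7 _ _ (n1 _ h0).le h8)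
    rwa [← hr, pow_le_pow_iff_left₀ (norm_nonneg _) r0 hN0, div_sub_one h0, norm_div,
      div_le_iff₀ (norm_pos_iff.2 h0)] at h9
  refine ⟨σ ^ p ^ j, fun h => ?_, by
    rw [← pow_mul, ← pow_succ, ← h3, ← Subgroup.coe_pow, pow_orderOf_eq_one, Subgroup.coe_one],
    fun z hz => ?_⟩
  · have h7 := orderOf_dvd_of_pow_eq_one (x := σ) (Subtype.ext h)
    rw [h3, Nat.pow_dvd_pow_iff_le_right hp.one_lt] at h7
    omega
  · have e : p ^ (j + 1) * (p - 1) = p ^ j * (p * (p - 1)) := by ring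
    rw [← hr, e, pow_mul r]
    refine pow_le_pow_left₀ (norm_nonneg _) (pow_jump hp r0 r1 h6 ?_ hz) _
    rw [← hr]
    refine pow_le_pow_of_le_one r0 r1 (e ▸ Nat.le_mul_of_pos_right _ ?_)
    have := hp.two_le
    exact Nat.mul_pos (by omega) (by omega)

end Pool.Agent.P.MP_8d2e9f_nt.AO
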