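import Pool.Agent.P.MP_8d2e9f_nt.AO.Iface
import Pool.Agent.P.MP_8d2e9f_nt.AO.Wild

/-! Step WILD. -/

set_option autoImplicit false

namespace Pool.Agent.P.MP_8d2e9f_nt.AO

open Polynomial NumberField Pool.Agent.P.MP_8d2e9f_nt.G
open scoped IntermediateField

theorem p_WILD (hABG : S_ABG) :
    S_WILD := by
  classical
  intro K p hp j D τ ⟨h1, h2, hτ, h3⟩ hp3
  have hp1 : (p : ℝ)⁻¹ < 1 := inv_lt_one_of_one_lt₀ (by exact_mod_cast hp.out.one_lt)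
  have hN : p * (p - 1) ≠ 0 := mul_ne_zero (by omega) (by omega)
  obtain ⟨δ, δ0, hδ⟩ : ∃ δ : ℝ, 0 ≤ δ ∧ δ ^ (p * (p - 1)) = (p : ℝ)⁻¹ :=
    ⟨_, by positivity, Real.rpow_inv_natCast_pow (by positivity) hN⟩
  refine ⟨δ, (pow_lt_one_iff_of_nonneg δ0 hN).1 (hδ ▸ hp1), fun z hz ht => ?_⟩
  obtain ⟨hg, hab, -⟩ := (hABG K).1 z hz
  have : FiniteDimensional K K⟮z⟯ :=
    IntermediateField.adjoin.finiteDimensional (int_Q z).tower_top
  let φ : K⟮z⟯ →+* Om p := j.comp (algebraMap K⟮z⟯ Qbar)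
  let : NormedField K⟮z⟯ := NormedField.induced K⟮z⟯ (Om p) φ φ.injective
  have e : ∀ x : K⟮z⟯, ‖x‖ = ‖j x‖ := fun _ => rfl
  have : IsUltrametricDist K⟮z⟯ :=
    IsUltrametricDist.isUltrametricDist_of_forall_norm_add_le_max_norm fun x y => by
      simp only [e, IntermediateField.coe_add, map_add]
      exact IsUltrametricDist.norm_add_le_max _ _
  let ρ : GK K →* (K⟮z⟯ ≃ₐ[K] K⟮z⟯) := AlgEquiv.restrictNormalHom K⟮z⟯
  have hρ : ∀ σ (x : K⟮z⟯), (ρ σ x : Qbar) = σ x := fun σ x =>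
    AlgEquiv.restrictNormalHom_apply _ σ x
  have hs : ∀ g : D.map ρ, ∃ σ ∈ D, ρ σ = g ∧ ∀ x : K⟮z⟯, ((g • x : K⟮z⟯) : Qbar) = σ x := by
    rintro ⟨_, σ, hσ, rfl⟩
    exact ⟨σ, hσ, rfl, hρ σ⟩
  let : CommGroup (D.map ρ) := { mul_comm := fun g h => Subtype.ext (AlgEquiv.ext fun x => by
    obtain ⟨σ, -, -, hσ⟩ := hs g
    obtain ⟨σ', -, -, hσ'⟩ := hs h
    refine Subtype.ext ?_
    change ((g • h • x : K⟮z⟯) : Qbar) = (h • g • x : K⟮z⟯)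
    rw [hσ, hσ', hσ', hσ]
    exact hab x x.2 _ _) }
  have ep : ‖(p : K⟮z⟯)‖ = (p : ℝ)⁻¹ := by
    change ‖φ p‖ = _
    rw [map_natCast, ← map_natCast (algebraMap ℚ_[p] _), PadicAlgCl.norm_extends, Padic.norm_p]
  have h0 : ∀ σ, ρ σ = 1 ↔ σ z = z := fun σ => by
    have h4 := hρ σ (IntermediateField.AdjoinSimple.gen K z)
    refine ⟨fun h => by rw [h] at h4; exact h4.symm, fun h => AlgEquiv.coe_toAlgHom_injective
      (IntermediateField.adjoin_algHom_ext K fun x hx => Subtype.ext ?_)⟩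
    obtain rfl := Set.mem_singleton_iff.1 hx
    exact h4.trans h
  simp only [Tame, not_forall] at ht
  obtain ⟨σ, hσ, h4, h5, h6⟩ := ht
  obtain ⟨s, h7, -, h8⟩ := wild2 (E := K⟮z⟯) (G := D.map ρ) hp.out (by omega) (fun g x => by
      obtain ⟨σ, hσ, -, h4⟩ := hs g
      rw [e, h4, h1 σ hσ, e]) (ep ▸ hp1) (Nat.cast_ne_zero.2 hp.out.ne_zero) ⟨ρ τ, τ, hτ, rfl⟩
    (fun x hx => by
      have := h3 x hx
      rwa [← hρ, ← map_pow, ← map_sub] at this)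
    (fun a ha h => by
      obtain ⟨c, hc⟩ := h2 a fun σ hσ => by
        rw [← hρ]
        exact congrArg Subtype.val (ha ⟨ρ σ, σ, hσ, rfl⟩)
      rw [e, hc, PadicAlgCl.norm_extends] at h ⊢
      rw [ep, ← zpow_neg_one, Padic.norm_le_pow_iff_norm_lt_pow_add_one]
      simpa using h) (g := ⟨ρ σ, σ, hσ, rfl⟩)
    (fun x hx => by
      have := h4 x x.2 hx
      rwa [← hρ, ← map_sub] at this)
    (fun h => h6 ((h0 σ).1 (congrArg Subtype.val h)))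
    (Subtype.ext ((map_pow ρ σ p).symm.trans ((h0 _).2 h5)))
  obtain ⟨s', -, h9, h10⟩ := hs s
  refine ⟨s', fun h => h7 (Subtype.ext (h9 ▸ (h0 s').2 h)), fun x hx hx1 => ?_⟩
  have h11 := h8 ⟨x, hx⟩ hx1
  rwa [ep, ← hδ, pow_le_pow_iff_left₀ (norm_nonneg _) δ0 hN, e, AddSubgroupClass.coe_sub,
    map_sub, h10] at h11

end Pool.Agent.P.MP_8d2e9f_nt.AO
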