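import Pool.Agent.P.MP_8d2e9f_nt.AO.TDX
import Pool.Agent.P.MP_8d2e9f_nt.AO.TCRV
import Pool.Agent.P.MP_8d2e9f_nt.AO.TABG
import Pool.Agent.P.MP_8d2e9f_nt.AO.TPRIM
import Pool.Agent.P.MP_8d2e9f_nt.AO.TPLACE
import Pool.Agent.P.MP_8d2e9f_nt.AO.TFROB
import Pool.Agent.P.MP_8d2e9f_nt.AO.TRAM
import Pool.Agent.P.MP_8d2e9f_nt.AO.TWILD
import Pool.Agent.P.MP_8d2e9f_nt.AO.TTAMEB
import Pool.Agent.P.MP_8d2e9f_nt.AO.TNORM
import Pool.Agent.P.MP_8d2e9f_nt.AO.TBT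
import Pool.Agent.P.MP_8d2e9f_nt.AO.TBP
import Pool.Agent.P.MP_8d2e9f_nt.AO.TPH
import Pool.Agent.P.MP_8d2e9f_nt.AO.TNUM
import Pool.Agent.P.MP_8d2e9f_nt.AO.TBAS
import Pool.Agent.P.MP_8d2e9f_nt.AO.TAUX1
import Pool.Agent.P.MP_8d2e9f_nt.AO.TAUX2
import Pool.Agent.P.MP_8d2e9f_nt.AO.TRED
import Pool.Agent.P.MP_8d2e9f_nt.AO.TCURVE
import Pool.Agent.P.MP_8d2e9f_nt.AO.TGF
import Pool.Agent.P.MP_8d2e9f_nt.AO.TPERM
import Pool.Agent.P.MP_8d2e9f_nt.AO.TAPPR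
import Pool.Agent.P.MP_8d2e9f_nt.AO.TINV
import Pool.Agent.P.MP_8d2e9f_nt.AO.TINVW
import Pool.Agent.P.MP_8d2e9f_nt.AO.TORB
import Pool.Agent.P.MP_8d2e9f_nt.AO.TCOEF
import Pool.Agent.P.MP_8d2e9f_nt.AO.TLOCT
import Pool.Agent.P.MP_8d2e9f_nt.AO.TLOCW
import Pool.Agent.P.MP_8d2e9f_nt.AO.TFORMT
import Pool.Agent.P.MP_8d2e9f_nt.AO.TFORMP
import Pool.Agent.P.MP_8d2e9f_nt.AO.TLIFT
import Pool.Agent.P.MP_8d2e9f_nt.AO.TCLS
import Pool.Agent.P.MP_8d2e9f_nt.AO.TEXC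
import Pool.Agent.P.MP_8d2e9f_nt.AO.TKUM
import Pool.Agent.P.MP_8d2e9f_nt.AO.TBASE
import Pool.Agent.P.MP_8d2e9f_nt.AO.TPPAR
import Pool.Agent.P.MP_8d2e9f_nt.AO.TSEQ
import Pool.Agent.P.MP_8d2e9f_nt.AO.TCHAIN
import Pool.Agent.P.MP_8d2e9f_nt.AO.TNOTP
import Pool.Agent.P.MP_8d2e9f_nt.AO.TMANY
import Pool.Agent.P.MP_8d2e9f_nt.AO.THASP
import Pool.Agent.P.MP_8d2e9f_nt.AO.Fin

/-! All steps together. -/

namespace Pool.Agent.P.MP_8d2e9f_nt.AO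

theorem all_DX : S_DX := p_DX
theorem all_CRV : S_CRV := p_CRV all_DX
theorem all_ABG : S_ABG := p_ABG
theorem all_PRIM : S_PRIM := p_PRIM
theorem all_PLACE : S_PLACE := p_PLACE
theorem all_FROB : S_FROB := p_FROB
theorem all_RAM : S_RAM := p_RAM all_ABG
theorem all_WILD : S_WILD := p_WILD all_ABG
theorem all_TAMEB : S_TAMEB := p_TAMEB
theorem all_NORM : S_NORM := p_NORM
theorem all_BT : S_BT := p_BT
theorem all_BP : S_BP := p_BP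
theorem all_PH : S_PH := p_PH
theorem all_NUM : S_NUM := p_NUM
theorem all_BAS : S_BAS := p_BAS
theorem all_AUX1 : S_AUX1 := p_AUX1 all_NORM all_PH all_NUM all_BAS
theorem all_AUX2 : S_AUX2 := p_AUX2 all_NORM all_PH all_NUM all_BAS
theorem all_RED : S_RED := p_RED all_AUX1
theorem all_CURVE : S_CURVE := p_CURVE all_DX
theorem all_GF : S_GF := p_GF
theorem all_PERM : S_PERM := p_PERM
theorem all_APPR : S_APPR := p_APPR all_PRIM
theorem all_INV : S_INV := p_INV all_DX all_GF all_PERM all_APPR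
theorem all_INVW : S_INVW := p_INVW all_GF all_PERM all_APPR
theorem all_ORB : S_ORB := p_ORB
theorem all_COEF : S_COEF := p_COEF
theorem all_LOCT : S_LOCT := p_LOCT all_CRV all_ABG all_PRIM all_RAM all_AUX2 all_RED all_CURVE all_INV
theorem all_LOCW : S_LOCW := p_LOCW all_CRV all_ABG all_PRIM all_WILD all_AUX2 all_RED all_CURVE all_INVW
theorem all_FORMT : S_FORMT := p_FORMT all_FROB all_LOCT
theorem all_FORMP : S_FORMP := p_FORMP all_ABG all_FROB all_BP all_LOCT all_LOCW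
theorem all_LIFT : S_LIFT := p_LIFT all_PLACE all_ORB all_COEF
theorem all_CLS : S_CLS := p_CLS
theorem all_EXC : S_EXC := p_EXC all_LIFT all_CLS
theorem all_KUM : S_KUM := p_KUM all_PLACE all_FROB
theorem all_BASE : S_BASE := p_BASE all_ABG all_KUM
theorem all_PPAR : S_PPAR := p_PPAR all_ABG
theorem all_SEQ : S_SEQ := p_SEQ all_ABG all_TAMEB all_BT all_FORMT all_EXC all_BASE
theorem all_CHAIN : S_CHAIN := p_CHAIN
theorem all_NOTP : S_NOTP := p_NOTP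
theorem all_MANY : S_MANY := p_MANY
theorem all_HASP : S_HASP := p_HASP all_ABG all_FORMP all_EXC all_PPAR all_SEQ all_CHAIN all_MANY

end Pool.Agent.P.MP_8d2e9f_nt.AO
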