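import Pool.Agent.P.MP_8d2e9f_nt.AO.IfaceB

/-! Step ACT. -/

set_option autoImplicit false

namespace Pool.Agent.P.MP_8d2e9f_nt.AO

open Polynomial NumberField Pool.Agent.P.MP_8d2e9f_nt.G
open scoped IntermediateField

theorem act_cl {F : Type} [NormedField F] (q : ℕ) (δ : ℝ) (u v : F) (e : ‖v‖ = ‖u‖)
    (h1 : ‖u‖ ≤ 1 → ‖v - u ^ q‖ ≤ δ) (h2 : ‖u⁻¹‖ ≤ 1 → ‖v⁻¹ - u⁻¹ ^ q‖ ≤ δ) : Cl q δ u v := by
  refine ⟨?_, e⟩
  rcases le_or_gt ‖u‖ 1 with h | h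
  · rw [e, max_eq_left h, one_pow, mul_one, mul_one]
    exact h1 h
  · have hu : u ≠ 0 := norm_pos_iff.1 (one_pos.trans h)
    have hv : v ≠ 0 := norm_pos_iff.1 (e ▸ one_pos.trans h)
    have h3 := h2 (by rw [norm_inv]; exact inv_le_one_of_one_le₀ h.le)
    have h4 : u ^ q - v = (v⁻¹ - u⁻¹ ^ q) * u ^ q * v := by
      rw [inv_pow]
      field_simp
    rw [max_eq_right h.le, max_eq_right (e ▸ h.le : 1 ≤ ‖v‖), norm_sub_rev, h4, norm_mul, norm_mul,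
      norm_pow]
    gcongr

theorem p_ACT (hABG : S_ABG) :
    S_ACT := by
  intro K p _ j q δ s z hz hA
  refine ⟨fun x hx => ⟨⟨hA.1, fun y hy => hA.2 y ?_⟩, ?_⟩, ((hABG K).1 z hz).2.2⟩
  · exact IntermediateField.adjoin_simple_le_iff.2 hx hy
  · refine act_cl q δ _ _ (hA.1 x) (hA.2 x hx) fun h => ?_
    have h1 := hA.2 x⁻¹ (inv_mem hx) (by rwa [map_inv₀])
    rwa [map_inv₀, map_inv₀, map_inv₀] at h1

end Pool.Agent.P.MP_8d2e9f_nt.AO
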