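import Pool.Agent.P.MP_8d2e9f_nt.AO.IfaceB

/-! Step AMP. -/

set_option autoImplicit false

namespace Pool.Agent.P.MP_8d2e9f_nt.AO

open Polynomial NumberField Pool.Agent.P.MP_8d2e9f_nt.G
open scoped IntermediateField

section
variable {F : Type} [NormedField F] [IsUltrametricDist F] {p : ℕ} {d r : ℝ} {u v : F}

theorem amp_pow {P : ℝ} (h1 : 1 ≤ P) (hu : ‖u‖ ≤ P) (hv : ‖v‖ ≤ P) (i : ℕ) :
    ‖u ^ i - v ^ i‖ ≤ ‖u - v‖ * P ^ (i - 1) := by
  induction i with
  | zero => simp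
  | succ i ih =>
    rw [show u ^ (i + 1) - v ^ (i + 1) = u ^ i * (u - v) + v * (u ^ i - v ^ i) by ring,
      Nat.add_sub_cancel]
    refine (IsUltrametricDist.norm_add_le_max _ _).trans (max_le ?_ ?_) <;> rw [norm_mul]
    · rw [norm_pow, mul_comm]
      gcongr
    · rcases i with _ | i
      · simp
      · rw [Nat.add_sub_cancel] at ih
        calc _ ≤ P * (‖u - v‖ * P ^ i) := by gcongr
          _ = _ := by ring

theorem amp_low (R : ℤ[X]) (hR : R.natDegree < p) (u v : F) {P : ℝ} (h1 : 1 ≤ P) (hu : ‖u‖ ≤ P)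
    (hv : ‖v‖ ≤ P) :
    ‖aeval u R - aeval v R‖ ≤ ‖u - v‖ * P ^ (p - 1) ∧ ‖aeval u R‖ ≤ P ^ (p - 1) := by
  rw [aeval_eq_sum_range' hR, aeval_eq_sum_range' hR, ← Finset.sum_sub_distrib]
  constructor <;>
    refine IsUltrametricDist.norm_sum_le_of_forall_le_of_nonneg (by positivity) fun i hi => ?_
  · rw [← smul_sub, zsmul_eq_mul, norm_mul]
    refine (mul_le_of_le_one_left (norm_nonneg _) (IsUltrametricDist.norm_intCast_le_one _ _)).trans
      ((amp_pow h1 hu hv i).trans ?_)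
    have := Finset.mem_range.1 hi
    exact mul_le_mul_of_nonneg_left (pow_le_pow_right₀ h1 (by omega)) (norm_nonneg _)
  · rw [zsmul_eq_mul, norm_mul, norm_pow]
    refine (mul_le_of_le_one_left (by positivity) (IsUltrametricDist.norm_intCast_le_one _ _)).trans
      ((pow_le_pow_left₀ (norm_nonneg _) hu i).trans (pow_le_pow_right₀ h1 ?_))
    have := Finset.mem_range.1 hi
    omega

theorem amp_near (R : ℤ[X]) (hR : R.natDegree < p) (hd : ‖(p : F)‖ ≤ d) (u : F) :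
    ‖u ^ p + p * aeval u R - u ^ p‖ ≤ d * max 1 ‖u‖ ^ p := by
  rw [add_sub_cancel_left, norm_mul]
  exact mul_le_mul hd ((amp_low R hR u u (le_max_left _ _) (le_max_right _ _)
    (le_max_right _ _)).2.trans (pow_le_pow_right₀ (le_max_left _ _) (Nat.sub_le _ _)))
    (norm_nonneg _) ((norm_nonneg _).trans hd)

theorem amp_max (R : ℤ[X]) (hR : R.natDegree < p) (hd : ‖(p : F)‖ ≤ d) (d1 : d < 1) (u : F) :
    max 1 ‖u ^ p + p * aeval u R‖ = max 1 ‖u‖ ^ p := by
  have h1 := amp_near R hR hd u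
  rw [add_sub_cancel_left] at h1
  rcases le_total ‖u‖ 1 with h | h
  · rw [max_eq_left h, one_pow] at h1 ⊢
    refine max_eq_left ((IsUltrametricDist.norm_add_le_max _ _).trans (max_le ?_ (by linarith)))
    rw [norm_pow]
    exact pow_le_one₀ (norm_nonneg _) h
  · rw [max_eq_right h] at h1 ⊢
    have h2 : 1 ≤ ‖u‖ ^ p := one_le_pow₀ h
    have h3 : ‖p * aeval u R‖ < ‖u ^ p‖ := by
      rw [norm_pow]
      nlinarith
    rw [IsUltrametricDist.norm_add_eq_max_of_norm_ne_norm h3.ne', max_eq_left h3.le, norm_pow,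
      max_eq_right h2]

theorem amp_step (hp : p.Prime) (R : ℤ[X]) (hR : R.natDegree < p) (hd : ‖(p : F)‖ ≤ d)
    (d1 : d < 1) (r0 : 0 ≤ r) (hr : r ≤ d) (h : ‖u - v‖ ≤ r * (max 1 ‖u‖ * max 1 ‖v‖)) :
    ‖u ^ p + p * aeval u R - (v ^ p + p * aeval v R)‖ ≤
      d * r * (max 1 ‖u ^ p + p * aeval u R‖ * max 1 ‖v ^ p + p * aeval v R‖) := by
  rw [amp_max R hR hd d1, amp_max R hR hd d1, ← mul_pow]
  have h1 : 1 ≤ max 1 ‖u‖ * max 1 ‖v‖ :=
    one_le_mul_of_one_le_of_one_le (le_max_left _ _) (le_max_left _ _)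
  have hu : ‖u‖ ≤ max 1 ‖u‖ * max 1 ‖v‖ :=
    (le_max_right _ _).trans (le_mul_of_one_le_right (by positivity) (le_max_left _ _))
  have hv : ‖v‖ ≤ max 1 ‖u‖ * max 1 ‖v‖ :=
    (le_max_right _ _).trans (le_mul_of_one_le_left (by positivity) (le_max_left _ _))
  generalize max 1 ‖u‖ * max 1 ‖v‖ = P at *
  have d0 : 0 ≤ d := r0.trans hr
  have h2 := (amp_low R hR u v h1 hu hv).1
  obtain ⟨w, rfl⟩ : ∃ w, u = v + w := ⟨u - v, by ring⟩
  rw [add_sub_cancel_left] at h h2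
  have hw : ‖w‖ ≤ P := h.trans (mul_le_of_le_one_left (by linarith) (by linarith))
  obtain ⟨q, rfl⟩ := Nat.exists_eq_add_of_le' hp.two_le
  have h3 : ‖∑ k ∈ Finset.Ioo 0 (q + 2), v ^ (k - 1) * w ^ (q + 2 - k - 1) *
      (((q + 2).choose k / (q + 2) : ℕ) : F)‖ ≤ P ^ q := by
    refine IsUltrametricDist.norm_sum_le_of_forall_le_of_nonneg (by positivity) fun k hk => ?_
    rw [norm_mul, norm_mul, norm_pow, norm_pow]
    have := Finset.mem_Ioo.1 hk
    calc _ ≤ P ^ (k - 1) * P ^ (q + 2 - k - 1) * 1 := by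
          gcongr
          exact IsUltrametricDist.norm_natCast_le_one _ _
      _ = _ := by rw [mul_one, ← pow_add, show k - 1 + (q + 2 - k - 1) = q by omega]
  rw [add_pow_prime_eq hp v w]
  generalize (∑ k ∈ Finset.Ioo 0 (q + 2), v ^ (k - 1) * w ^ (q + 2 - k - 1) *
    (((q + 2).choose k / (q + 2) : ℕ) : F)) = S at *
  rw [show q + 2 - 1 = q + 1 from rfl] at h2
  rw [show v ^ (q + 2) + w ^ (q + 2) + ((q + 2 : ℕ) : F) * v * w * S +
      ((q + 2 : ℕ) : F) * aeval (v + w) R - (v ^ (q + 2) + ((q + 2 : ℕ) : F) * aeval v R) =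
      w ^ (q + 2) + (((q + 2 : ℕ) : F) * v * w * S +
        ((q + 2 : ℕ) : F) * (aeval (v + w) R - aeval v R)) by ring]
  refine (IsUltrametricDist.norm_add_le_max _ _).trans (max_le ?_
    ((IsUltrametricDist.norm_add_le_max _ _).trans (max_le ?_ ?_)))
  · rw [norm_pow]
    calc _ ≤ (r * P) ^ (q + 2) := by gcongr
      _ = r ^ q * (r * r * P ^ (q + 2)) := by ring
      _ ≤ 1 * (d * r * P ^ (q + 2)) := by
          gcongr
          exact pow_le_one₀ r0 (by linarith)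
      _ = _ := one_mul _
  · rw [norm_mul, norm_mul, norm_mul]
    calc _ ≤ d * P * (r * P) * P ^ q := by gcongr
      _ = _ := by ring
  · rw [norm_mul]
    calc _ ≤ d * (r * P * P ^ (q + 1)) := by
          gcongr
          exact h2.trans (by gcongr)
      _ = _ := by ring

theorem amp_first (R : ℤ[X]) (hR : R.natDegree < p) (hd : ‖(p : F)‖ ≤ d) (d1 : d < 1) (hr : r ≤ d)
    (h : ‖v - u ^ p‖ ≤ r * max 1 ‖u‖ ^ p * max 1 ‖v‖) :
    ‖v - (u ^ p + p * aeval u R)‖ ≤ d * (max 1 ‖v‖ * max 1 ‖u ^ p + p * aeval u R‖) := by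
  have d0 : 0 ≤ d := (norm_nonneg _).trans hd
  have h6 := amp_near R hR hd u
  rw [amp_max R hR hd d1,
    show v - (u ^ p + p * aeval u R) = v - u ^ p + -(u ^ p + p * aeval u R - u ^ p) by ring]
  refine (IsUltrametricDist.norm_add_le_max _ _).trans (max_le (h.trans ?_) ?_)
  · rw [mul_assoc, mul_comm (max 1 ‖v‖)]
    gcongr
  · rw [norm_neg]
    refine h6.trans (mul_le_mul_of_nonneg_left ?_ d0)
    exact le_mul_of_one_le_left (by positivity) (le_max_left _ _)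

theorem amp_iter (hp : p.Prime) (R : ℤ[X]) (hR : R.natDegree < p) (hd : ‖(p : F)‖ ≤ d)
    (d1 : d < 1) (h : ‖u - v‖ ≤ d * (max 1 ‖u‖ * max 1 ‖v‖)) (k : ℕ) :
    ‖(fun x : F => x ^ p + p * aeval x R)^[k] u - (fun x : F => x ^ p + p * aeval x R)^[k] v‖ ≤
      d ^ (k + 1) * (max 1 ‖(fun x : F => x ^ p + p * aeval x R)^[k] u‖ *
        max 1 ‖(fun x : F => x ^ p + p * aeval x R)^[k] v‖) := by
  have d0 : 0 ≤ d := (norm_nonneg _).trans hd
  induction k with
  | zero => simpa using h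
  | succ k ih =>
    rw [Function.iterate_succ_apply', Function.iterate_succ_apply', pow_succ' d (k + 1)]
    exact amp_step hp R hR hd d1 (by positivity) (pow_le_of_le_one d0 d1.le k.succ_ne_zero) ih

end

theorem amp_pf (hPF : S_PF) {K : IF} {p : ℕ} [Fact p.Prime] (j : Qbar →+* Om p) (hK : Fd K)
    {B r : ℝ} (r0 : 0 ≤ r) (r1 : r ≤ 1) (hr : (2 * Real.exp (2 * B)) ^ Module.finrank ℚ K * r < 1)
    {x y : Qbar} (hx : wh x ≤ B) (hy : wh y ≤ B)
    (h : ∀ σ : GK K, ‖j (σ x) - j (σ y)‖ ≤ r * (max 1 ‖j (σ x)‖ * max 1 ‖j (σ y)‖)) : x = y := by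
  by_contra hne
  have h1 := hPF K p j (Fin 2) (Fin 2) ![x, y] (fun _ => 1) ![1, -1] ![![1, 0], ![0, 1]] r hK
    (by decide) (by simpa [← sub_eq_add_neg, sub_eq_zero] using hne) r1
    (by simpa [← sub_eq_add_neg] using h)
  refine absurd (h1.trans ?_) (not_le.2 hr)
  gcongr
  · norm_num
  · simp only [Fin.sum_univ_two, Nat.cast_one, one_mul, Matrix.cons_val_zero, Matrix.cons_val_one]
    linarith

theorem p_AMP (hABG : S_ABG) (hWH : S_WH) (hPF : S_PF) (hACT : S_ACT) :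
    S_AMP := by
  intro K p _ j δ B T hK hδ hT hTp hTm
  have hp : p.Prime := Fact.out
  obtain ⟨R, hR, e⟩ : ∃ R : ℤ[X], R.natDegree < p ∧ T = X ^ p + C (p : ℤ) * R := by
    have h1 : C (p : ℤ) ∣ T - X ^ p := (C_dvd_iff_dvd_coeff _ _).2 fun i => by
      rw [← ZMod.intCast_zmod_eq_zero_iff_dvd, ← eq_intCast (Int.castRingHom (ZMod p)),
        ← coeff_map, Polynomial.map_sub, hTm]
      simp
    obtain ⟨R, hR⟩ := h1
    refine ⟨R, ?_, by rw [← hR]; ring⟩
    have h2 : (T - X ^ p).degree < (p : WithBot ℕ) := by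
      have := degree_sub_lt_left (p := T) (q := X ^ p)
        (by rw [degree_X_pow, degree_eq_natDegree hT.ne_zero, hTp]) hT.ne_zero
        (by rw [hT.leadingCoeff, leadingCoeff_X_pow])
      rwa [degree_eq_natDegree hT.ne_zero, hTp] at this
    rw [hR, degree_C_mul (by exact_mod_cast hp.ne_zero)] at h2
    rcases eq_or_ne R 0 with rfl | h0
    · simpa using hp.pos
    · exact (natDegree_lt_iff_degree_lt h0).2 h2
  have ep : ‖(p : Om p)‖ < 1 := by
    rw [← map_natCast (algebraMap ℚ_[p] (Om p)), norm_algebraMap']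
    exact Padic.norm_p_lt_one
  obtain ⟨d, d1, hd, hδd⟩ : ∃ d, d < 1 ∧ ‖(p : Om p)‖ ≤ d ∧ δ ≤ d :=
    ⟨max δ ‖(p : Om p)‖, max_lt hδ ep, le_max_right _ _, le_max_left _ _⟩
  have d0 : 0 ≤ d := (norm_nonneg _).trans hd
  have c0 : 0 < (2 * Real.exp (2 * B)) ^ Module.finrank ℚ K := by positivity
  obtain ⟨k, hk⟩ := exists_pow_lt_of_lt_one (inv_pos.2 c0) d1
  have hk' : (2 * Real.exp (2 * B)) ^ Module.finrank ℚ K * d ^ (k + 1) < 1 := by
    rw [← lt_inv_mul_iff₀ c0, mul_one]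
    exact (pow_le_pow_of_le_one d0 d1.le k.le_succ).trans_lt hk
  have hc : ∀ (σ : GK K) (n : ℕ) (z : Qbar), σ ((fun x => aeval x T)^[n] z) =
      (fun x => aeval x T)^[n] (σ z) := fun σ n =>
    Function.Semiconj.iterate_right (f := σ)
      (fun x => (aeval_algHom_apply σ.toRingEquiv.toRingHom.toIntAlgHom x T).symm) n
  have hj : ∀ (n : ℕ) (z : Qbar), j ((fun x => aeval x T)^[n] z) =
      (fun x : Om p => x ^ p + p * aeval x R)^[n] (j z) := fun n =>
    Function.Semiconj.iterate_right (f := j) (fun x => by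
      have : aeval (j x) R = j (aeval x R) := aeval_algHom_apply j.toIntAlgHom x R
      simp only [e, this, map_add, map_mul, map_pow, aeval_X,
        map_natCast]) n
  refine ⟨k, fun s z hz => ⟨fun hA h1 h2 => ?_, fun hA h1 => ?_⟩⟩
  · refine amp_pf hPF j hK (by positivity) (pow_le_one₀ d0 d1.le) hk'
      ((hWH.1 K s _).trans_le h1) h2 fun σ => ?_
    obtain ⟨h3, h4⟩ := hACT K p j p δ s z hz hA
    have h5 := (h3 _ (h4 σ)).2.1
    rw [hc s, hc σ, hc σ, hz σ s, hj, hj, Function.iterate_succ_apply]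
    exact amp_iter hp R hR hd d1 (amp_first R hR hd d1 hδd h5) k
  · refine amp_pf hPF j hK (by positivity) (pow_le_one₀ d0 d1.le) hk'
      ((hWH.1 K s _).trans_le h1) h1 fun σ => ?_
    obtain ⟨h3, h4⟩ := hACT K p j 1 δ s z hz hA
    have h5 := (h3 _ (h4 σ)).2.1
    rw [hc s, hc σ, hc σ, hz σ s, hj, hj]
    refine amp_iter hp R hR hd d1 ?_ k
    rw [pow_one, pow_one, mul_assoc, mul_comm (max 1 ‖j (σ z)‖)] at h5
    exact h5.trans (by gcongr)

end Pool.Agent.P.MP_8d2e9f_nt.AO
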