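import Pool.Agent.P.MP_8d2e9f_nt.AO.IfaceB
import Pool.Agent.P.MP_8d2e9f_nt.AO.TAUX1

/-! Step AUXA. -/

set_option autoImplicit false

namespace Pool.Agent.P.MP_8d2e9f_nt.AO

open Polynomial NumberField Pool.Agent.P.MP_8d2e9f_nt.G
open scoped IntermediateField

lemma auxa_eval {p : ℕ} [Fact p.Prime] (P : ℤ_[p][X]) (x : Om p) {c : ℝ} {N : ℕ}
    (hc : 0 ≤ c) (h : ∀ i, ‖P.coeff i‖ ≤ c) (hN : P.natDegree ≤ N) :
    ‖eval₂ (zo p) x P‖ ≤ c * max 1 ‖x‖ ^ N := by
  rw [eval₂_eq_sum_range]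
  refine IsUltrametricDist.norm_sum_le_of_forall_le_of_nonneg (by positivity) fun i hi => ?_
  rw [norm_mul, norm_pow, zo_apply, norm_algebraMap']
  refine mul_le_mul (h i) ((pow_le_pow_left₀ (norm_nonneg _) (le_max_right 1 _) i).trans
    (pow_le_pow_right₀ (le_max_left _ _) ?_)) (by positivity) hc
  have := Finset.mem_range.1 hi
  omega

lemma auxa_iter (K : IF) (f : K[X]) (σ : GK K) (n : ℕ) (z : Qbar) :
    σ ((fun x => aeval x f)^[n] z) = (fun x => aeval x f)^[n] (σ z) := by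
  induction n with
  | zero => rfl
  | succ n ih => rw [Function.iterate_succ_apply', Function.iterate_succ_apply', ← ih,
      aeval_algHom_apply]

lemma auxa_h {K : IF} {f : K[X]} {h : Qbar → ℝ} (hc : Can (f.map (algebraMap K Qbar)) h) (n : ℕ)
    (z : Qbar) : h ((fun x => aeval x f)^[n] z) = (f.natDegree : ℝ) ^ n * h z := by
  induction n with
  | zero => simp
  | succ n ih =>
    rw [Function.iterate_succ_apply', ← eval_map_algebraMap, hc.1, ih, natDegree_map, pow_succ]
    ring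

theorem p_AUXA (hPH : S_PH) (hNUM : S_NUM) (hCANB : S_CANB) (hPF : S_PF) (hGOOD : S_GOOD) (hBASB : S_BASB) :
    S_AUXA := by
  intro K f h Y p _ φ j δ G D hK hd hcan hY hj hf hδ hG ⟨ε, hε, hfin⟩
  have hp : (1 : ℝ) < p := by exact_mod_cast (Fact.out : p.Prime).one_lt
  have hp0 : (0 : ℝ) ≤ (p : ℝ)⁻¹ := by positivity
  obtain ⟨C₀, hC⟩ := hcan.2
  have hC0 : 0 ≤ C₀ := (abs_nonneg _).trans (hC 0)
  have hd1 : (1 : ℝ) ≤ f.natDegree := by exact_mod_cast (by omega : 1 ≤ f.natDegree)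
  have hδ1 : max δ (p : ℝ)⁻¹ < 1 := max_lt hδ (inv_lt_one_of_one_lt₀ hp)
  have hδ2 : 0 ≤ max δ (p : ℝ)⁻¹ := hp0.trans (le_max_right _ _)
  obtain ⟨k, M, h1, h2⟩ := hNUM (p * ⌈Real.exp (2 * (1 + C₀))⌉₊) f.natDegree
    (Module.finrank ℚ K) (G.natDegree + D + 1) (Real.exp (f.natDegree * (1 + C₀)))
    (max δ (p : ℝ)⁻¹) hd (Real.one_le_exp (by positivity)) hδ2 hδ1
  obtain ⟨b, m, hb1, hm1, hb3, hb2⟩ := hBASB K f k hd
  choose b₀ hb₀ using fun s => aux1_lift ((b s).map φ) fun l => by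
    rw [coeff_map]; exact hb2 p φ hf.1 s l
  have hbd : ∀ s, (b₀ s).natDegree ≤ f.natDegree ^ k := fun s => by
    rw [← natDegree_map_eq_of_injective (f := zq p) Subtype.val_injective, hb₀, natDegree_map,
      (hb1 s).2]
    exact s.2.le
  set G₀ : ℤ_[p][X] := G.map (Int.castRingHom ℤ_[p]) ^ M with hG₀
  have hm : G₀.Monic := (hG.map _).pow M
  have hdeg : G₀.natDegree = M * G.natDegree := by
    rw [hG₀, (hG.map _).natDegree_pow, hG.natDegree_map]
  have hn : 0 < f.natDegree ^ k := by positivity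
  have hMD : M * D ≤ f.natDegree ^ k := by
    refine le_trans ?_ h1
    rcases Nat.eq_zero_or_pos M with h0 | h0
    · simp [h0]
    · exact Nat.mul_le_mul_left M (le_trans (by omega) (Nat.le_mul_of_pos_left _ h0))
  obtain ⟨a, ha, ha1, ha2⟩ := hPH p (Fin (M * G.natDegree)) (Fin (f.natDegree ^ k))
    (fun s l => ((b₀ s %ₘ G₀).coeff l : ℚ_[p])) M (fun s l => PadicInt.norm_le_one _)
    (by simpa using hn) (by
      simp only [Fintype.card_fin]
      exact le_trans (Nat.mul_le_mul_left M (Nat.mul_le_mul_left M (by omega))) h1)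
  have hA := aux1_ne b hb1 ha
  set A : K[X] := ∑ s, C (a s : K) * b s with hAd
  have hev : ∀ z : Qbar, aeval z A = ∑ s, (a s : Qbar) * aeval z (b s) := fun z => by
    simp [hAd]
  have hδ0 : 0 ≤ max δ (p : ℝ)⁻¹ ^ M := pow_nonneg hδ2 M
  have key : ∀ z, ‖aeval (j z) G‖ ≤ δ * max 1 ‖j z‖ ^ D → ‖j (aeval z A)‖ ≤
      max δ (p : ℝ)⁻¹ ^ M * (max 1 ‖j z‖ ^ f.natDegree ^ k) ^ 2 := by
    intro z hzG
    have hU : (1 : ℝ) ≤ max 1 ‖j z‖ := le_max_left _ _
    have e1 : ∀ s, j (aeval z (b s)) = eval₂ (zo p) (j z) (b₀ s) := fun s => by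
      rw [zo, ← eval₂_map, hb₀, eval₂_map, aeval_def, hom_eval₂]
      congr 1
      exact RingHom.ext hj
    have e2 : j (aeval z A) = eval₂ (zo p) (j z) (∑ s, C (a s : ℤ_[p]) * (b₀ s %ₘ G₀)) +
        aeval (j z) G ^ M * eval₂ (zo p) (j z) (∑ s, C (a s : ℤ_[p]) * (b₀ s /ₘ G₀)) := by
      have e3 : eval₂ (zo p) (j z) G₀ = aeval (j z) G ^ M := by
        rw [hG₀, eval₂_pow, eval₂_map, aeval_def]
        congr 2
      rw [hev, map_sum, eval₂_finsetSum, eval₂_finsetSum, Finset.mul_sum, ← Finset.sum_add_distrib]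
      refine Finset.sum_congr rfl fun s _ => ?_
      rw [map_mul, e1, ← e3]
      conv_lhs => rw [← modByMonic_add_div (b₀ s) G₀]
      simp only [eval₂_mul, eval₂_add, eval₂_C]
      simp only [map_intCast]
      ring
    rw [e2, ← pow_mul]
    refine (IsUltrametricDist.norm_add_le_max _ _).trans (max_le ?_ ?_)
    · refine auxa_eval _ _ hδ0 (fun i => ?_) (natDegree_sum_le_of_forall_le _ _ fun s _ =>
        (natDegree_C_mul_le _ _).trans ((natDegree_le_natDegree degree_modByMonic_le_left).trans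
          ((hbd s).trans (by omega))))
      simp only [finsetSum_coeff, coeff_C_mul]
      rcases lt_or_ge i (M * G.natDegree) with h | h
      · refine le_trans ?_ ((ha2 ⟨i, h⟩).trans (pow_le_pow_left₀ hp0 (le_max_right _ _) M))
        rw [← PadicInt.padic_norm_e_of_padicInt, ← PadicInt.algebraMap_apply, map_sum]
        simp
      · rw [Finset.sum_eq_zero fun s _ => ?_, norm_zero]
        · exact hδ0
        · rw [coeff_eq_zero_of_degree_lt ((degree_modByMonic_lt _ hm).trans_le ?_), mul_zero]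
          rw [degree_eq_natDegree hm.ne_zero, hdeg]
          exact_mod_cast h
    · rw [norm_mul, norm_pow, mul_two, pow_add, ← mul_assoc]
      refine mul_le_mul ?_ ((auxa_eval _ _ zero_le_one (fun i => PadicInt.norm_le_one _)
        (natDegree_sum_le_of_forall_le _ _ fun s _ => (natDegree_C_mul_le _ _).trans ?_)).trans_eq
          (one_mul _)) (norm_nonneg _) (by positivity)
      · refine (pow_le_pow_left₀ (norm_nonneg _) (hzG.trans (mul_le_mul_of_nonneg_right
          (le_max_left _ (p : ℝ)⁻¹) (by positivity))) M).trans ?_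
        rw [mul_pow, ← pow_mul, mul_comm D]
        exact mul_le_mul_of_nonneg_left (pow_le_pow_right₀ hU hMD) hδ0
      · rw [natDegree_divByMonic _ hm]
        exact (Nat.sub_le _ _).trans (hbd s)
  have hn1 : (1 : ℝ) ≤ (f.natDegree : ℝ) ^ k := one_le_pow₀ hd1
  refine ⟨min ε ((f.natDegree : ℝ) ^ k)⁻¹, lt_min hε (by positivity),
    ((aux1_orbit K hfin).union (A.rootSet_finite Qbar)).subset ?_⟩
  rintro z ⟨hzY, hz, -⟩
  by_contra hc
  simp only [Set.mem_union, Set.mem_ofPred_eq, not_or, not_exists, not_and, not_not] at hc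
  obtain ⟨c1, c3⟩ := hc
  have hz0 : 0 ≤ h z := (hCANB.1 _ h (by rwa [natDegree_map]) hcan).1 z
  have hw : ∀ i ≤ k, wh ((fun x => aeval x f)^[i] z) ≤ 1 + C₀ := fun i hi => by
    have t1 := (abs_le.1 (hC ((fun x => aeval x f)^[i] z))).1
    have t2 : (f.natDegree : ℝ) ^ i * h z ≤ 1 := by
      refine (mul_le_mul (pow_le_pow_right₀ hd1 hi) (hz.le.trans (min_le_right _ _)) hz0
        (by positivity)).trans_eq (mul_inv_cancel₀ (by positivity))
    rw [auxa_h hcan] at t1
    linarith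
  have hs : ∑ t, (a t : Qbar) * ∏ i : Option (Fin k),
      (fun x => aeval x f)^[i.elim k Fin.val] z ^ i.elim 0 (m t) = aeval z A := by
    rw [hev]
    refine Finset.sum_congr rfl fun t _ => ?_
    rw [Fintype.prod_option, hb3]
    simp
  have main := hPF K p j (Option (Fin k)) (Fin (f.natDegree ^ k))
    (fun i => (fun x => aeval x f)^[i.elim k Fin.val] z) (fun i => i.elim 2 fun _ => f.natDegree)
    a (fun t i => i.elim 0 (m t)) (max δ (p : ℝ)⁻¹ ^ M) hK
    (fun t i => by cases i <;> simp [hm1])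
    (by rw [hs]; exact fun h0 => c3 (mem_rootSet.2 ⟨hA, h0⟩)) (pow_le_one₀ hδ2 hδ1.le)
    (fun σ => by
      rw [hs, ← aeval_algHom_apply, Fintype.prod_option]
      refine (key _ (c1 σ (hY σ z hzY) ?_)).trans (mul_le_mul_of_nonneg_left ?_ hδ0)
      · rw [hCANB.2 K f h hd hcan]
        exact hz.trans_le (min_le_left _ _)
      · simp only [Option.elim]
        rw [auxa_iter, hGOOD K f p φ j (by omega) hj hf]
        exact le_mul_of_one_le_right (by positivity) (Finset.one_le_prod fun i _ =>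
          one_le_pow₀ (le_max_left _ _)))
  refine absurd (main.trans (mul_le_mul_of_nonneg_right (pow_le_pow_left₀ (by positivity) ?_ _)
    hδ0)) (not_le.2 h2)
  have t1 : ∑ t, |(a t : ℝ)| ≤ ((f.natDegree : ℝ) ^ k) ^ 2 * p := by
    refine (Finset.sum_le_card_nsmul _ _ (p : ℝ) fun s _ => by exact_mod_cast ha1 s).trans ?_
    simp only [Finset.card_univ, Fintype.card_fin, nsmul_eq_mul, Nat.cast_pow]
    exact mul_le_mul_of_nonneg_right (by nlinarith) (by positivity)
  have t2 : Real.exp (∑ i : Option (Fin k), ((i.elim 2 fun _ => f.natDegree : ℕ) : ℝ) *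
      wh ((fun x => aeval x f)^[i.elim k Fin.val] z)) ≤
      (⌈Real.exp (2 * (1 + C₀))⌉₊ : ℝ) * Real.exp (f.natDegree * (1 + C₀)) ^ k := by
    rw [Fintype.sum_option, Real.exp_add, ← Real.exp_nat_mul]
    refine mul_le_mul (le_trans (Real.exp_le_exp.2 ?_) (Nat.le_ceil _)) (Real.exp_le_exp.2 ?_)
      (by positivity) (by positivity)
    · simp only [Option.elim, Nat.cast_ofNat]
      linarith [hw k le_rfl]
    · refine (Finset.sum_le_card_nsmul _ _ (f.natDegree * (1 + C₀)) fun i _ => ?_).trans_eq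
        (by simp)
      exact mul_le_mul_of_nonneg_left (hw i i.2.le) (by positivity)
  refine (mul_le_mul t1 t2 (by positivity) (by positivity)).trans_eq ?_
  push_cast
  ring

end Pool.Agent.P.MP_8d2e9f_nt.AO
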