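import Pool.Agent.P.MP_8d2e9f_nt.AO.IfaceB
import Pool.Agent.P.MP_8d2e9f_nt.AO.TAUX2

/-! Step AUXB. -/

set_option autoImplicit false

namespace Pool.Agent.P.MP_8d2e9f_nt.AO

open Polynomial NumberField Pool.Agent.P.MP_8d2e9f_nt.G
open scoped IntermediateField

lemma auxb_small {K : Type} [Field K] {p : ℕ} [Fact p.Prime] (φ : K →+* ℚ_[p]) {J : Type}
    [Fintype J] (g : J → K[X]) (a : J → ℤ) {N : ℕ} (hN : ∀ s, (g s).natDegree < N) {ε : ℝ}
    (hε : 0 ≤ ε) (h : ∀ l < N, ‖∑ s, (a s : ℚ_[p]) * φ ((g s).coeff l)‖ ≤ ε) (u : Om p) :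
    ‖∑ s, (a s : Om p) * ((g s).map ((algebraMap ℚ_[p] (Om p)).comp φ)).eval u‖ ≤
      ε * max 1 ‖u‖ ^ N := by
  have e : ∑ s, (a s : Om p) * ((g s).map ((algebraMap ℚ_[p] (Om p)).comp φ)).eval u =
      ∑ l ∈ Finset.range N,
        algebraMap ℚ_[p] (Om p) (∑ s, (a s : ℚ_[p]) * φ ((g s).coeff l)) * u ^ l := by
    simp only [map_sum, Finset.sum_mul]
    rw [Finset.sum_comm]
    refine Finset.sum_congr rfl fun s _ => ?_
    rw [eval_eq_sum_range' (n := N) (natDegree_map_le.trans_lt (hN s)), Finset.mul_sum]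
    refine Finset.sum_congr rfl fun l _ => ?_
    simp [mul_assoc]
  rw [e]
  have hU : (1 : ℝ) ≤ max 1 ‖u‖ := le_max_left _ _
  refine IsUltrametricDist.norm_sum_le_of_forall_le_of_nonneg (by positivity) fun l hl => ?_
  have hl' := Finset.mem_range.mp hl
  rw [norm_mul, norm_algebraMap', norm_pow]
  exact mul_le_mul (h l hl') ((pow_le_pow_left₀ (norm_nonneg _) (le_max_right 1 _) l).trans
    (pow_le_pow_right₀ hU hl'.le)) (by positivity) hε

lemma auxb_gal (K : IF) (f : K[X]) (σ : GK K) (z : Qbar) (i : ℕ) :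
    σ ((fun x => aeval x f)^[i] z) = (fun x => aeval x f)^[i] (σ z) := by
  induction i with
  | zero => rfl
  | succ i ih =>
    rw [Function.iterate_succ_apply', Function.iterate_succ_apply', ← ih]
    exact (aeval_algHom_apply σ _ f).symm

lemma auxb_iter (K : IF) (f : K[X]) (h : Qbar → ℝ)
    (hh : ∀ z, h ((f.map (algebraMap K Qbar)).eval z) =
      (f.map (algebraMap K Qbar)).natDegree * h z) (z : Qbar) (i : ℕ) :
    h ((fun x => aeval x f)^[i] z) = (f.natDegree : ℝ) ^ i * h z := by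
  induction i with
  | zero => simp
  | succ i ih =>
    have h1 := hh ((fun x => aeval x f)^[i] z)
    rw [eval_map_algebraMap, natDegree_map] at h1
    rw [Function.iterate_succ_apply', h1, ih]
    ring

theorem p_AUXB (hPH : S_PH) (hNUM : S_NUM) (hCANB : S_CANB) (hPF : S_PF) (hGOOD : S_GOOD) (hBASB : S_BASB) :
    S_AUXB := by
  classical
  intro K f h p _ φ j δ q P hK hd hcan hj hf hδ hσ hP hq
  have hp : p.Prime := Fact.out
  have hp1 : (1 : ℝ) < p := by exact_mod_cast hp.one_lt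
  have hpi : (0 : ℝ) ≤ (p : ℝ)⁻¹ := by positivity
  obtain ⟨ε, hε⟩ : ∃ ε, ε = max δ (p : ℝ)⁻¹ := ⟨_, rfl⟩
  have e0 : 0 ≤ ε := hε ▸ le_max_of_le_right hpi
  have e1 : ε < 1 := hε ▸ max_lt hδ (inv_lt_one_of_one_lt₀ hp1)
  have e2 : δ ≤ ε := hε ▸ le_max_left _ _
  have e3 : (p : ℝ)⁻¹ ≤ ε := hε ▸ le_max_right _ _
  have h0 : ∀ z, 0 ≤ h z := (hCANB.1 _ h (by rwa [natDegree_map]) hcan).1
  obtain ⟨hcan1, C₀, hC⟩ := hcan
  have hC0 : 0 ≤ C₀ := (abs_nonneg _).trans (hC 0)
  obtain ⟨c, hc⟩ := exists_nat_ge (Real.exp ((2 * q + 2 : ℕ) * (1 + C₀)))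
  obtain ⟨H, hH⟩ : ∃ H, H = Real.exp (2 * f.natDegree * (1 + C₀)) := ⟨_, rfl⟩
  have hH1 : 1 ≤ H := hH ▸ Real.one_le_exp (by positivity)
  obtain ⟨k, M, hM, hlt⟩ := hNUM (p * c) f.natDegree (Module.finrank ℚ K) (q + 1) H ε hd hH1 e0 e1
  obtain ⟨b, m, hb1, hm, hbm, hb2⟩ := hBASB K f k hd
  have hgood := fun z => hGOOD K f p φ j (by omega) hj hf k z
  have hd1 : (1 : ℝ) ≤ f.natDegree := by exact_mod_cast (by omega : 1 ≤ f.natDegree)
  have hwh : ∀ z, h z < (((f.natDegree ^ k : ℕ) : ℝ))⁻¹ → ∀ i ≤ k,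
      wh ((fun x => aeval x f)^[i] z) ≤ 1 + C₀ := fun z hz i hi => by
    have h1 := (abs_le.mp (hC ((fun x => aeval x f)^[i] z))).1
    rw [auxb_iter K f h hcan1] at h1
    have h2 : (f.natDegree : ℝ) ^ i * h z ≤ (f.natDegree : ℝ) ^ k * h z :=
      mul_le_mul_of_nonneg_right (pow_le_pow_right₀ hd1 hi) (h0 z)
    have h3 : (0 : ℝ) < (f.natDegree : ℝ) ^ k := by positivity
    rw [Nat.cast_pow] at hz
    have h4 := mul_lt_mul_of_pos_left hz h3
    rw [mul_inv_cancel₀ h3.ne'] at h4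
    linarith
  rw [← Nat.cast_pow] at hlt
  have hn0 : 0 < f.natDegree ^ k := pow_pos (by omega) k
  generalize f.natDegree ^ k = n at b m hb1 hb2 hm hbm hM hlt hn0 hgood hwh
  let g : ℕ → Fin n × Fin n → K[X] := fun κ s => b s.1 * (hasseDeriv κ (b s.2)).comp (X ^ q)
  have hg1 : ∀ κ s l, ‖φ ((g κ s).coeff l)‖ ≤ 1 := fun κ s l =>
    aux2_int φ (hb2 p φ hf.1 s.1) (hb2 p φ hf.1 s.2) κ q l
  have hg2 : ∀ κ s, (g κ s).natDegree < (q + 1) * n := fun κ s => by
    have h1 : (g κ s).natDegree ≤ (b s.1).natDegree + (hasseDeriv κ (b s.2)).natDegree * q :=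
      natDegree_mul_le.trans (Nat.add_le_add_left (natDegree_comp_le.trans (by
        rw [natDegree_X_pow])) _)
    have h2 : (hasseDeriv κ (b s.2)).natDegree ≤ n :=
      (natDegree_hasseDeriv_le _ _).trans (by rw [(hb1 s.2).2]; have := s.2.2; omega)
    have h3 := Nat.mul_le_mul_right q h2
    have h4 := s.1.2
    rw [(hb1 s.1).2] at h1
    nlinarith
  obtain ⟨a, ha0, ha1, ha2⟩ := hPH p (Fin M × Fin ((q + 1) * n)) (Fin n × Fin n)
    (fun s i => φ ((g i.1 s).coeff i.2)) M (fun s i => hg1 _ _ _) (by simpa using hn0.ne') (by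
      simp only [Fintype.card_prod, Fintype.card_fin]
      calc M * (M * ((q + 1) * n)) = M * (M * (q + 1)) * n := by ring
        _ ≤ n * n := Nat.mul_le_mul_right n hM)
  let A : K[X][X] := ∑ t, C (∑ s, C (a (s, t) : K) * b s) * (b t).map C
  have hA : ∀ x y : Qbar, aevalAeval x y A =
      ∑ s : Fin n × Fin n, (a s : Qbar) * (aeval x (b s.1) * aeval y (b s.2)) := fun x y => by
    have h1 : ∀ u : K[X], aevalAeval x y (u.map C) = aeval y u := fun u => by
      induction u using Polynomial.induction_on' with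
      | add u v hu hv => simp only [Polynomial.map_add, map_add, hu, hv]
      | monomial m c => simp [← C_mul_X_pow_eq_monomial]
    rw [Fintype.sum_prod_type_right]
    simp only [A, map_sum, map_mul, aevalAeval_C, h1, Finset.sum_mul, map_intCast,
      mul_assoc]
  have hnR : (0 : ℝ) < n := by exact_mod_cast hn0
  refine ⟨A, (n : ℝ)⁻¹, fun h0 => ha0 (funext fun s => ?_), by positivity, ?_⟩
  · have h1 : ∑ r, C (a (r, s.2) : K) * b r = 0 :=
      aux2_indep (fun t => (b t).map C) (fun t => ⟨(Polynomial.map_ne_zero_iff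
        C_injective).mpr (hb1 t).1, by rw [natDegree_map_eq_of_injective C_injective, (hb1 t).2]⟩)
        (fun t => ∑ r, C (a (r, t) : K) * b r) h0 s.2
    have h2 : (a (s.1, s.2) : K) = 0 := aux2_indep b hb1 (fun r => (a (r, s.2) : K)) h1 s.1
    exact Int.cast_eq_zero.mp h2
  have hsmall : ∀ x ∈ P, ‖j (aevalAeval x.1 x.2 A)‖ ≤
      ε ^ M * max 1 ‖j ((fun x => aeval x f)^[k] x.1)‖ ^ (2 * q + 2) := by
    intro x hx
    let ψ : K →+* Om p := (algebraMap ℚ_[p] (Om p)).comp φ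
    have hψ : ∀ (z : Qbar) (u : K[X]), j (aeval z u) = (u.map ψ).eval (j z) := fun z u => by
      rw [aeval_def, hom_eval₂, eval_map]
      congr 1
      ext c
      exact hj c
    obtain ⟨hw, hw2⟩ := hq x hx
    rw [hw2] at hw
    rw [hgood]
    have e : j (aevalAeval x.1 x.2 A) = ∑ κ ∈ Finset.range n,
        (∑ s, (a s : Om p) * ((g κ s).map ψ).eval (j x.1)) * (j x.2 - j x.1 ^ q) ^ κ := by
      rw [hA, map_sum]
      simp only [Finset.sum_mul]
      rw [Finset.sum_comm]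
      refine Finset.sum_congr rfl fun s _ => ?_
      rw [map_mul, map_mul, map_intCast, hψ, hψ, aux2_taylor ((b s.2).map ψ) (n := n)
        (natDegree_map_le.trans_lt (by rw [(hb1 s.2).2]; exact s.2.2)) (j x.1 ^ q) (j x.2),
        Finset.mul_sum, Finset.mul_sum]
      refine Finset.sum_congr rfl fun κ _ => ?_
      simp only [g, Polynomial.map_mul, map_comp, eval_mul, eval_comp, aux2_hasse,
        Polynomial.map_pow, map_X, eval_pow, eval_X]
      ring
    rw [e]
    have hsm := fun (κ : ℕ) {η : ℝ} (hη : 0 ≤ η) hh =>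
      auxb_small φ (g κ) a (hg2 κ) (ε := η) hη hh (j x.1)
    have hU : (1 : ℝ) ≤ max 1 ‖j x.1‖ := le_max_left _ _
    generalize max 1 ‖j x.1‖ = U at hU hw hsm ⊢
    have hU0 : 0 ≤ U := zero_le_one.trans hU
    refine IsUltrametricDist.norm_sum_le_of_forall_le_of_nonneg (by positivity) fun κ hκn => ?_
    have hκn' := Finset.mem_range.mp hκn
    rw [norm_mul, norm_pow]
    have hpw : ‖j x.2 - j x.1 ^ q‖ ^ κ ≤ ε ^ κ * U ^ ((q + 1) * n) := by
      have h1 : ‖j x.2 - j x.1 ^ q‖ ≤ ε * U ^ (q + 1) := by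
        refine hw.trans ?_
        rw [mul_assoc, ← pow_succ]
        exact mul_le_mul_of_nonneg_right e2 (by positivity)
      refine (pow_le_pow_left₀ (norm_nonneg _) h1 κ).trans ?_
      rw [mul_pow, ← pow_mul]
      exact mul_le_mul_of_nonneg_left (pow_le_pow_right₀ hU (Nat.mul_le_mul_left _ hκn'.le))
        (by positivity)
    have hE : (U ^ n) ^ (2 * q + 2) = U ^ ((q + 1) * n) * U ^ ((q + 1) * n) := by ring
    rw [hE]
    by_cases hκ : κ < M
    · have h1 := hsm κ (pow_nonneg hpi M) (fun l hl => ha2 (⟨κ, hκ⟩, ⟨l, hl⟩))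
      have h2 : ε ^ κ * U ^ ((q + 1) * n) ≤ U ^ ((q + 1) * n) :=
        mul_le_of_le_one_left (by positivity) (pow_le_one₀ e0 e1.le)
      refine (mul_le_mul h1 (hpw.trans h2) (by positivity) (by positivity)).trans ?_
      rw [mul_assoc]
      exact mul_le_mul_of_nonneg_right (pow_le_pow_left₀ hpi e3 M) (by positivity)
    · have h1 := hsm κ zero_le_one (fun l _ =>
        IsUltrametricDist.norm_sum_le_of_forall_le_of_nonneg zero_le_one fun s _ => by
          rw [norm_mul]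
          exact mul_le_one₀ (Padic.norm_int_le_one _) (norm_nonneg _) (hg1 _ _ _))
      refine (mul_le_mul h1 hpw (by positivity) (by positivity)).trans ?_
      rw [one_mul, mul_left_comm]
      exact mul_le_mul_of_nonneg_right (pow_le_pow_of_le_one e0 e1.le (not_lt.mp hκ))
        (by positivity)
  rintro ⟨z, w⟩ hx hz
  have hw : h w < (n : ℝ)⁻¹ := (hP _ hx).trans_lt hz
  by_contra hne
  let y : Option (Fin k ⊕ Fin k) → Qbar := fun i => i.elim ((fun x => aeval x f)^[k] z)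
    (Sum.elim (fun i => (fun x => aeval x f)^[i] z) fun i => (fun x => aeval x f)^[i] w)
  let D : Option (Fin k ⊕ Fin k) → ℕ := fun i => i.elim (2 * q + 2) fun _ => f.natDegree
  let μ : Fin n × Fin n → Option (Fin k ⊕ Fin k) → ℕ := fun t i =>
    i.elim 0 (Sum.elim (m t.1) (m t.2))
  have hsum : ∑ t, (a t : Qbar) * ∏ i, y i ^ μ t i = aevalAeval z w A := by
    rw [hA]
    refine Finset.sum_congr rfl fun t _ => ?_
    rw [Fintype.prod_option, Fintype.prod_sum_type, hbm, hbm]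
    simp [y, μ]
  have key := hPF K p j (Option (Fin k ⊕ Fin k)) (Fin n × Fin n) y D a μ (ε ^ M) hK
    (by rintro t (_ | i | i) <;> simp [μ, D, hm]) (by rw [hsum]; exact hne)
    (pow_le_one₀ e0 e1.le) (fun σ => by
      have h1 := hsmall _ (hσ σ _ hx)
      have h2 : σ (aevalAeval z w A) = aevalAeval (σ z) (σ w) A := by
        rw [hA, hA, map_sum]
        simp only [map_mul, map_intCast, aeval_algHom_apply]
      rw [hsum, h2]
      refine h1.trans (mul_le_mul_of_nonneg_left ?_ (by positivity))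
      rw [Fintype.prod_option, ← auxb_gal]
      exact le_mul_of_one_le_right (by positivity)
        (Finset.one_le_prod fun i _ => one_le_pow₀ (le_max_left _ _)))
  refine absurd (key.trans ?_) (not_le.mpr hlt)
  refine mul_le_mul_of_nonneg_right (pow_le_pow_left₀ (by positivity) ?_ _) (by positivity)
  have h1 : ∑ t, |(a t : ℝ)| ≤ (n : ℝ) ^ 2 * p := by
    refine (Finset.sum_le_card_nsmul _ _ (p : ℝ) fun s _ => by exact_mod_cast ha1 s).trans_eq ?_
    simp only [Finset.card_univ, Fintype.card_prod, Fintype.card_fin, nsmul_eq_mul]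
    push_cast
    ring
  have h2 : ∑ i, (D i : ℝ) * wh (y i) ≤
      (2 * q + 2 : ℕ) * (1 + C₀) + k * (2 * f.natDegree * (1 + C₀)) := by
    rw [Fintype.sum_option]
    refine add_le_add (mul_le_mul_of_nonneg_left (hwh z hz k le_rfl) (by positivity)) ?_
    refine (Finset.sum_le_card_nsmul _ _ (f.natDegree * (1 + C₀)) fun i _ => ?_).trans_eq ?_
    · refine mul_le_mul_of_nonneg_left ?_ (by positivity)
      rcases i with i | i
      · exact hwh z hz i i.2.le
      · exact hwh w hw i i.2.le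
    · simp only [Finset.card_univ, Fintype.card_sum, Fintype.card_fin, nsmul_eq_mul]
      push_cast
      ring
  have h3 : Real.exp (∑ i, (D i : ℝ) * wh (y i)) ≤ c * H ^ k := by
    refine (Real.exp_le_exp.mpr h2).trans ?_
    rw [Real.exp_add, Real.exp_nat_mul _ k, ← hH]
    exact mul_le_mul_of_nonneg_right hc (by positivity)
  refine (mul_le_mul h1 h3 (by positivity) (by positivity)).trans_eq ?_
  push_cast
  ring

end Pool.Agent.P.MP_8d2e9f_nt.AO
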