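import Pool.Agent.P.MP_8d2e9f_nt.AO.IfaceB
import Pool.Agent.P.MP_8d2e9f_nt.AO.TBAS

/-! Step BASB. -/

set_option autoImplicit false

namespace Pool.Agent.P.MP_8d2e9f_nt.AO

open Polynomial NumberField Pool.Agent.P.MP_8d2e9f_nt.G
open scoped IntermediateField

theorem basb_ev {K : IF} (f : K[X]) (n : ℕ) : ∀ (s : ℕ) (z : Qbar),
    aeval z (bas_b f ((1 : ℕ) : K) n s) =
      ∏ i : Fin n, (fun x => aeval x f)^[i] z ^ (s / f.natDegree ^ i.val % f.natDegree) := by
  induction n with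
  | zero => simp [bas_b]
  | succ n ih =>
    intro s z
    rw [Fin.prod_univ_succ, bas_b, map_mul, aeval_comp, ih]
    simp [pow_succ', Nat.div_div_eq_div_mul]

theorem p_BASB :
    S_BASB := by
  intro K f k hd
  have hd0 : 0 < f.natDegree := by omega
  refine ⟨fun s => bas_b f ((1 : ℕ) : K) k s, fun s i => s / f.natDegree ^ i.val % f.natDegree,
    fun s => bas_deg f _ (by simp) hd0 k s s.2, fun s i => (Nat.mod_lt _ hd0).le,
    fun s z => basb_ev f k s z, fun p _ φ hφ s l => ?_⟩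
  obtain ⟨f₀, hf⟩ := (bas_lift (f.map φ)).2 fun l => by simpa using hφ l
  simpa using (bas_lift _).1 (bas_int f 1 φ f₀ hf k s) l

end Pool.Agent.P.MP_8d2e9f_nt.AO
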