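import Pool.Agent.P.MP_8d2e9f_nt.AO.IfaceB

/-! Step CANB. -/

set_option autoImplicit false

namespace Pool.Agent.P.MP_8d2e9f_nt.AO

open Polynomial NumberField Pool.Agent.P.MP_8d2e9f_nt.G
open scoped IntermediateField

theorem canb_iter {T : Type} {F : T → T} {D : T → ℝ} {d : ℕ} (h : ∀ z, D (F z) = d * D z) (n : ℕ)
    (z : T) : D (F^[n] z) = (d : ℝ) ^ n * D z := by
  induction n with
  | zero => simp
  | succ n ih => rw [Function.iterate_succ_apply', h, ih, pow_succ', mul_assoc]

theorem canb_le {d : ℕ} (hd : 2 ≤ d) {x B : ℝ} (h : ∀ n : ℕ, (d : ℝ) ^ n * x ≤ B) : x ≤ 0 := by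
  by_contra hn
  have hx := not_le.1 hn
  obtain ⟨n, hn'⟩ := pow_unbounded_of_one_lt (B / x) (show (1 : ℝ) < d by exact_mod_cast hd)
  exact (h n).not_gt ((div_lt_iff₀ hx).1 hn')

theorem canb_low {T : Type} {F : T → T} {D : T → ℝ} {d : ℕ} (hd : 2 ≤ d)
    (h : ∀ z, D (F z) = d * D z) {C : ℝ} (hC : ∀ z, -C ≤ D z) (z : T) : 0 ≤ D z :=
  neg_nonpos.1 (canb_le hd (B := C) fun n => by linarith [hC (F^[n] z), canb_iter h n z])

theorem canb_uniq {T : Type} {F : T → T} {D E : T → ℝ} {d : ℕ} (hd : 2 ≤ d)
    (h : ∀ z, D (F z) = d * D z) (h' : ∀ z, E (F z) = d * E z) {C : ℝ}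
    (hC : ∀ z, |D z - E z| ≤ C) (z : T) : D z = E z :=
  le_antisymm
    (sub_nonneg.1 (canb_low (F := F) (D := fun z => E z - D z) hd (fun z => by rw [h, h', mul_sub])
      (fun z => by linarith [(abs_le.1 (hC z)).2]) z))
    (sub_nonneg.1 (canb_low (F := F) (D := fun z => D z - E z) hd (fun z => by rw [h, h', mul_sub])
      (fun z => (abs_le.1 (hC z)).1) z))

theorem p_CANB (hWH : S_WH) :
    S_CANB := by
  obtain ⟨w1, w2, w3, w4, -⟩ := hWH
  refine ⟨fun f h hd ⟨h1, B, h2⟩ => ?_, fun K f h hd ⟨h1, B, h2⟩ σ z => ?_⟩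
  · have h0 : ∀ z, 0 ≤ h z := canb_low (F := fun x => f.eval x) hd h1 (C := B) fun z => by
      linarith [(abs_le.1 (h2 z)).1, w3 z]
    refine ⟨h0, fun z => ⟨fun hz => ?_, fun hz => ?_⟩, fun g hg hc z => ?_,
      fun a b g ha hc => ?_⟩
    · have hS : (insert z (f.coeffs : Set Qbar)).Finite := f.coeffs.finite_toSet.insert z
      have := hS.to_subtype
      refine (w4 (IntermediateField.adjoin ℚ (insert z (f.coeffs : Set Qbar))) B
        (IntermediateField.finiteDimensional_adjoin fun x _ => int_Q x)).subset ?_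
      rintro _ ⟨n, rfl⟩
      refine ⟨?_, ?_⟩
      · induction n with
        | zero => exact IntermediateField.subset_adjoin _ _ (Set.mem_insert _ _)
        | succ n ih =>
          simp only [Function.iterate_succ_apply'] at ih ⊢
          rw [eval_eq_sum, sum_def]
          exact sum_mem fun i hi => mul_mem (IntermediateField.subset_adjoin _ _
            (Set.mem_insert_of_mem _ (coeff_mem_coeffs (mem_support_iff.1 hi)))) (pow_mem ih _)
      · have e := canb_iter (F := fun x => f.eval x) h1 n z
        rw [hz, mul_zero] at e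
        have := (abs_le.1 (h2 ((fun x => f.eval x)^[n] z))).1
        simp only
        linarith
    · obtain ⟨M, hM⟩ := (hz.image h).bddAbove
      exact le_antisymm (canb_le hd (B := M) fun n => by
        rw [← canb_iter (F := fun x => f.eval x) h1 n z]
        exact hM ⟨_, ⟨n, rfl⟩, rfl⟩) (h0 z)
    · obtain ⟨B', hB⟩ := w2 g hg
      refine canb_uniq (F := fun x => f.eval x) (D := fun z => h (g.eval z))
        (E := fun z => g.natDegree * h z) hd (fun z => by simp only [hc, h1])
        (fun z => by simp only [h1]; ring) (C := B + B' + g.natDegree * B) (fun z => ?_) z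
      have a1 := abs_le.1 (h2 (g.eval z))
      have a2 := abs_le.1 (hB z)
      have a3 := abs_le.1 (h2 z)
      have a4 := mul_le_mul_of_nonneg_left a3.1 (Nat.cast_nonneg (α := ℝ) g.natDegree)
      have a5 := mul_le_mul_of_nonneg_left a3.2 (Nat.cast_nonneg (α := ℝ) g.natDegree)
      exact abs_le.2 ⟨by linarith, by linarith⟩
    · have e1 : (C a * X + C b).natDegree = 1 := natDegree_linear ha
      have e2 : g.natDegree = f.natDegree := by
        have := congrArg natDegree hc
        rwa [natDegree_comp, e1, mul_one, natDegree_add_C, natDegree_C_mul ha, eq_comm] at this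
      obtain ⟨B', hB⟩ := w2 (C a * X + C b) (by omega)
      refine ⟨e2, fun z => ?_, B + B', fun z => ?_⟩
      · have := congrArg (eval z) hc
        simp only [eval_comp, eval_add, eval_mul, eval_C, eval_X] at this
        simp only [← this, h1, e2]
      · have a1 := abs_le.1 (h2 (a * z + b))
        have a2 := abs_le.1 (hB z)
        simp only [eval_add, eval_mul, eval_C, eval_X, e1, Nat.cast_one, one_mul] at a2
        exact abs_le.2 ⟨by linarith, by linarith⟩
  · refine canb_uniq (F := fun x => (f.map (algebraMap K Qbar)).eval x) (D := fun z => h (σ z))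
      (E := h) (d := (f.map (algebraMap K Qbar)).natDegree) (by rwa [natDegree_map])
      (fun z => ?_) h1 (C := B + B) (fun z => ?_) z
    · rw [← h1, eval_map_algebraMap, eval_map_algebraMap, aeval_algHom_apply]
    · have a1 := abs_le.1 (h2 (σ z))
      have a2 := abs_le.1 (h2 z)
      rw [w1] at a1
      exact abs_le.2 ⟨by linarith, by linarith⟩

end Pool.Agent.P.MP_8d2e9f_nt.AO
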