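import Pool.Agent.P.MP_8d2e9f_nt.AO.IfaceB

/-! Step COLL. -/

set_option autoImplicit false

namespace Pool.Agent.P.MP_8d2e9f_nt.AO

open Polynomial NumberField Pool.Agent.P.MP_8d2e9f_nt.G
open scoped IntermediateField

lemma coll_pow {F : Type} [NormedField F] [IsUltrametricDist F] (u v : F) (U : ℝ) (h1 : 1 ≤ U)
    (hu : ‖u‖ ≤ U) (hv : ‖v‖ ≤ U) (n : ℕ) :
    ∃ k : F, ‖k‖ ≤ U ^ n ∧ v ^ n - u ^ n = (v - u) * (n * u ^ (n - 1) + (v - u) * k) := by
  induction n with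
  | zero => exact ⟨0, by simp, by simp⟩
  | succ n ih =>
    obtain ⟨k, hk, e⟩ := ih
    have h0 : (0 : ℝ) ≤ U := zero_le_one.trans h1
    refine ⟨v * k + n * u ^ (n - 1), ?_, ?_⟩
    · refine (IsUltrametricDist.norm_add_le_max _ _).trans (max_le ?_ ?_)
      · rw [norm_mul, pow_succ']
        exact mul_le_mul hv hk (norm_nonneg _) h0
      · rw [norm_mul, norm_pow]
        calc ‖(n : F)‖ * ‖u‖ ^ (n - 1) ≤ 1 * U ^ (n - 1) :=
              mul_le_mul (IsUltrametricDist.norm_natCast_le_one F n)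
                (pow_le_pow_left₀ (norm_nonneg _) hu _) (by positivity) zero_le_one
          _ ≤ U ^ (n + 1) := by
              rw [one_mul]
              exact pow_le_pow_right₀ h1 (by omega)
    · have e2 : (n : F) * u ^ (n - 1) * u = n * u ^ n := by
        cases n with
        | zero => simp
        | succ m => rw [Nat.add_sub_cancel, mul_assoc, ← pow_succ]
      rw [Nat.add_sub_cancel]
      push_cast
      linear_combination v * e + (v - u) * e2

lemma coll_tay {R F : Type} [CommRing R] [NormedField F] [IsUltrametricDist F] (ι : R →+* F)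
    (hι : ∀ r, ‖ι r‖ ≤ 1) (P : R[X]) :
    ∃ D : ℕ, ∀ (u v : F) (U : ℝ), 1 ≤ U → ‖u‖ ≤ U → ‖v‖ ≤ U → ∃ k : F, ‖k‖ ≤ U ^ D ∧
      P.eval₂ ι v - P.eval₂ ι u = (v - u) * ((derivative P).eval₂ ι u + (v - u) * k) := by
  induction P using Polynomial.induction_on' with
  | add P Q hP hQ =>
    obtain ⟨D, hD⟩ := hP
    obtain ⟨E, hE⟩ := hQ
    refine ⟨D + E, fun u v U h1 hu hv => ?_⟩
    obtain ⟨k, hk, e⟩ := hD u v U h1 hu hv
    obtain ⟨l, hl, e'⟩ := hE u v U h1 hu hv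
    refine ⟨k + l, (IsUltrametricDist.norm_add_le_max _ _).trans (max_le
      (hk.trans (pow_le_pow_right₀ h1 (by omega))) (hl.trans (pow_le_pow_right₀ h1 (by omega)))), ?_⟩
    rw [derivative_add, eval₂_add, eval₂_add, eval₂_add]
    linear_combination e + e'
  | monomial n a =>
    refine ⟨n, fun u v U h1 hu hv => ?_⟩
    obtain ⟨k, hk, e⟩ := coll_pow u v U h1 hu hv n
    refine ⟨ι a * k, ?_, ?_⟩
    · rw [norm_mul]
      exact (mul_le_of_le_one_left (norm_nonneg _) (hι a)).trans hk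
    · rw [derivative_monomial, eval₂_monomial, eval₂_monomial, eval₂_monomial, map_mul, map_natCast]
      linear_combination ι a * e

lemma coll_ev {K : IF} {p : ℕ} [Fact p.Prime] {φ : K →+* ℚ_[p]} {j : Qbar →+* Om p} (hL : Loc φ j)
    {f : K[X]} {f₀ : ℤ_[p][X]} (hf : f₀.map (zq p) = f.map φ) (x : Qbar) :
    j (aeval x f) = f₀.eval₂ (zo p) (j x) := by
  have e1 : j.comp (algebraMap K Qbar) = (algebraMap ℚ_[p] (Om p)).comp φ := RingHom.ext hL
  rw [aeval_def, hom_eval₂, e1, ← eval₂_map, ← hf, eval₂_map]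
  rfl

theorem p_COLL (hABG : S_ABG) (hGAPG : S_GAPG) (hACT : S_ACT) :
    S_COLL := by
  intro K f h p _ φ j δ f₀ hK hd hC hL hG hf hder hδ
  have hι : ∀ r : ℤ_[p], ‖zo p r‖ ≤ 1 := fun r => by
    rw [zo_apply, norm_algebraMap']
    exact r.2
  obtain ⟨D, hD⟩ := coll_tay (zo p) hι f₀
  refine hGAPG K f h _ p φ j δ (derivative f₀) (D + 2) hK hd hC ?_ hL hG hδ
    (by rwa [← derivative_map]) ⟨1, one_pos, ?_⟩
  · rintro σ z ⟨hz, s, hs, hA, he⟩
    obtain ⟨h1, h2⟩ := hACT K p j 1 δ s z hz hA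
    refine ⟨((hABG K).1 z hz).2.1 _ (h2 σ), s, ?_, (h1 _ (h2 σ)).1, ?_⟩
    · rw [hz s σ]
      exact fun e => hs (σ.injective e)
    · have e1 : ∀ (ρ : GK K) (x : Qbar), ρ (aeval x f) = aeval (ρ x) f := fun ρ x =>
        (aeval_algHom_apply ρ x f).symm
      rw [e1, hz s σ, ← e1, ← e1, he, e1]
  · refine Set.finite_empty.subset ?_
    rintro z ⟨⟨hz, s, hs, hA, he⟩, -, hn⟩
    refine hn ?_
    obtain ⟨h1, -⟩ := hACT K p j 1 δ s z hz hA
    obtain ⟨hc, hn⟩ := (h1 z (IntermediateField.mem_adjoin_simple_self K z)).2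
    obtain ⟨k, hk, e⟩ := hD (j z) (j (s z)) (max 1 ‖j z‖) (le_max_left _ _) (le_max_right _ _)
      (hn ▸ le_max_right _ _)
    have e1 : s (aeval z f) = aeval (s z) f := (aeval_algHom_apply s z f).symm
    rw [← coll_ev hL hf, ← coll_ev hL hf, ← e1, he, sub_self] at e
    have hne : j (s z) - j z ≠ 0 := sub_ne_zero.2 fun e => hs (j.injective e)
    have e2 : (derivative f₀).eval₂ (zo p) (j z) = -((j (s z) - j z) * k) :=
      eq_neg_of_add_eq_zero_left ((mul_eq_zero.1 e.symm).resolve_left hne)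
    rw [hn, pow_one, pow_one] at hc
    rw [e2, norm_neg, norm_mul]
    calc ‖j (s z) - j z‖ * ‖k‖ ≤ (δ * max 1 ‖j z‖ * max 1 ‖j z‖) * max 1 ‖j z‖ ^ D :=
          mul_le_mul hc hk (norm_nonneg _) ((norm_nonneg _).trans hc)
      _ = δ * max 1 ‖j z‖ ^ (D + 2) := by ring

end Pool.Agent.P.MP_8d2e9f_nt.AO
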