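import Pool.Agent.P.MP_8d2e9f_nt.AO.IfaceB

/-! Step CURVB. -/

set_option autoImplicit false

namespace Pool.Agent.P.MP_8d2e9f_nt.AO

open Polynomial NumberField Pool.Agent.P.MP_8d2e9f_nt.G
open scoped IntermediateField

/-- The filter of sets that contain almost all small points of `P`. -/
def curvb_F {T : Type} (h : T → ℝ) (P : Set T) : Filter T where
  sets := {S | AA h P fun x => x ∈ S}
  univ_sets := ⟨1, one_pos, Set.finite_empty.subset fun _ hx => hx.2.2 trivial⟩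
  sets_of_superset := by
    rintro S S' ⟨ε, hε, hS⟩ hSS
    exact ⟨ε, hε, hS.subset fun x hx => ⟨hx.1, hx.2.1, fun hm => hx.2.2 (hSS hm)⟩⟩
  inter_sets := by
    rintro S S' ⟨ε, hε, hS⟩ ⟨ε', hε', hS'⟩
    refine ⟨min ε ε', lt_min hε hε', (hS.union hS').subset fun x hx => ?_⟩
    by_cases hm : x ∈ S
    · exact Or.inr ⟨hx.1, hx.2.1.trans_le (min_le_right _ _), fun hm' => hx.2.2 ⟨hm, hm'⟩⟩
    · exact Or.inl ⟨hx.1, hx.2.1.trans_le (min_le_left _ _), hm⟩

theorem curvb_ev {T : Type} (h : T → ℝ) (P : Set T) (Q : T → Prop) :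
    (∀ᶠ x in curvb_F h P, Q x) ↔ AA h P Q := Iff.rfl

theorem curvb_fib {k Ω : Type} [Field k] [Field Ω] [Algebra k Ω] (f : k[X])
    (hf : 0 < f.natDegree) (c : Ω) : {z : Ω | aeval z f = c}.Finite := by
  have h0 : f.map (algebraMap k Ω) - C c ≠ 0 := by
    intro h0
    have h1 := congrArg natDegree (sub_eq_zero.1 h0)
    rw [natDegree_map, natDegree_C] at h1
    omega
  refine (finite_setOfPred_isRoot h0).subset fun z hz => ?_
  have hz' : aeval z f = c := hz
  show IsRoot _ z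
  rw [IsRoot.def, eval_sub, eval_C, eval_map_algebraMap, hz', sub_self]

theorem p_CURVB (hCURVF : S_CURVF) :
    S_CURVB := by
  intro K f h P A₀ hf hh hL hF hP hA hA'
  have hd : (0 : ℝ) < f.natDegree := Nat.cast_pos.2 hf
  refine hCURVF K Qbar f (curvb_F (fun x => h x.1) P) A₀ ?_ ?_ ?_ hA hA'
  · refine Filter.neBot_iff.2 fun hb => ?_
    obtain ⟨ε, hε, hS⟩ : AA (fun x : Qbar × Qbar => h x.1) P fun _ => False :=
      (curvb_ev _ _ _).1 (Filter.eventually_false_iff_eq_bot.2 hb)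
    exact hL ε hε (hS.subset fun x hx => ⟨hx.1, hx.2, id⟩)
  · intro z
    refine (curvb_ev _ _ _).2 ⟨1, one_pos, (((hF.1 z).image fun w => (z, w)).union
      ((hF.2 z).image fun w => (w, z))).subset ?_⟩
    rintro ⟨a, b⟩ ⟨h1, -, h2⟩
    by_cases ha : a = z
    · subst ha
      exact Or.inl ⟨b, h1, rfl⟩
    · have hb : b = z := by
        by_contra hb
        exact h2 ⟨ha, hb⟩
      subst hb
      exact Or.inr ⟨a, h1, rfl⟩
  · intro S hS
    obtain ⟨ε, hε, hB⟩ : AA (fun x : Qbar × Qbar => h x.1) P fun x => x ∈ S := hS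
    obtain ⟨ε₀, hε₀, hE⟩ := hP
    have hfin : ((fun x : Qbar × Qbar => (aeval x.1 f, aeval x.2 f)) ⁻¹'
        {x ∈ P | h x.1 < ε ∧ ¬ x ∈ S}).Finite := by
      refine hB.preimage' fun y _ => ?_
      refine ((curvb_fib f hf y.1).prod (curvb_fib f hf y.2)).subset fun x hx => ?_
      exact ⟨congrArg Prod.fst hx, congrArg Prod.snd hx⟩
    refine ⟨min ε₀ (ε / f.natDegree), lt_min hε₀ (div_pos hε hd),
      (hE.union hfin).subset fun x hx => ?_⟩
    by_cases hm : (aeval x.1 f, aeval x.2 f) ∈ P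
    · refine Or.inr ⟨hm, ?_, hx.2.2⟩
      show h (aeval x.1 f) < ε
      rw [hh, mul_comm]
      exact (lt_div_iff₀ hd).1 (hx.2.1.trans_le (min_le_right _ _))
    · exact Or.inl ⟨hx.1, hx.2.1.trans_le (min_le_left _ _), hm⟩

end Pool.Agent.P.MP_8d2e9f_nt.AO
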