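import Pool.Agent.P.MP_8d2e9f_nt.AO.IfaceB
import Pool.Agent.P.MP_8d2e9f_nt.AO.TCURVE

/-! Step CURVF. -/

set_option autoImplicit false

namespace Pool.Agent.P.MP_8d2e9f_nt.AO

open Polynomial NumberField Pool.Agent.P.MP_8d2e9f_nt.G
open scoped IntermediateField

section

variable {k Ω : Type} [Field k] [Field Ω] [Algebra k Ω]

/-- `Q` vanishes eventually along `P`. -/
def curvf_J (P : Filter (Ω × Ω)) (Q : k[X][X]) : Prop :=
  ∀ᶠ x in P, aevalAeval x.1 x.2 Q = 0

theorem curvf_mul {P : Filter (Ω × Ω)} {Q : k[X][X]} (h : curvf_J P Q) (B : k[X][X]) :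
    curvf_J P (Q * B) :=
  Filter.Eventually.mono h fun x hx => by rw [map_mul, hx, zero_mul]

theorem curvf_sub {P : Filter (Ω × Ω)} {Q R : k[X][X]} (h : curvf_J P Q) (h' : curvf_J P R) :
    curvf_J P (Q - R) :=
  (Filter.Eventually.and h h').mono fun x hx => by rw [map_sub, hx.1, hx.2, sub_zero]

theorem curvf_rad {P : Filter (Ω × Ω)} {Q : k[X][X]} (h : curvf_J P (Q * Q)) : curvf_J P Q :=
  Filter.Eventually.mono h fun x hx => by
    rw [map_mul] at hx
    exact mul_self_eq_zero.1 hx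

theorem curvf_ne {P : Filter (Ω × Ω)} (hF : ∀ z, ∀ᶠ x in P, x.1 ≠ z ∧ x.2 ≠ z) {r : k[X]}
    (hr : r ≠ 0) : ∀ᶠ x in P, aeval x.1 r ≠ 0 ∧ aeval x.2 r ≠ 0 :=
  ((Filter.eventually_all_finite (curve_roots (Ω := Ω) hr)).2 fun z _ => hF z).mono
    fun x hx => ⟨fun h => (hx x.1 h).1 rfl, fun h => (hx x.2 h).2 rfl⟩

theorem curvf_C {P : Filter (Ω × Ω)} (hF : ∀ z, ∀ᶠ x in P, x.1 ≠ z ∧ x.2 ≠ z) {r : k[X]}
    (hr : r ≠ 0) {Q : k[X][X]} (h : curvf_J P (C r * Q)) : curvf_J P Q :=
  (Filter.Eventually.and h (curvf_ne hF hr)).mono fun x hx => by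
    have h1 := hx.1
    rw [map_mul, aevalAeval_C] at h1
    exact (mul_eq_zero.1 h1).resolve_left hx.2.1

theorem curvf_Y {P : Filter (Ω × Ω)} (hF : ∀ z, ∀ᶠ x in P, x.1 ≠ z ∧ x.2 ≠ z) {T : k[X]}
    (hT : T ≠ 0) {Q : k[X][X]} (h : curvf_J P (T.map C * Q)) : curvf_J P Q :=
  (Filter.Eventually.and h (curvf_ne hF hT)).mono fun x hx => by
    have h1 := hx.1
    rw [map_mul, curve_evY] at h1
    exact (mul_eq_zero.1 h1).resolve_left hx.2.2

theorem curvf_subJ {P : Filter (Ω × Ω)} {f : k[X]}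
    (hP : Filter.Tendsto (fun x : Ω × Ω => (aeval x.1 f, aeval x.2 f)) P P) {Q : k[X][X]}
    (h : curvf_J P Q) : curvf_J P (sub f Q) :=
  (hP.eventually h).mono fun x hx => by
    rw [curve_evsub]
    exact hx

theorem curvf_div {P : Filter (Ω × Ω)} {A : k[X][X]} (hA0 : A ≠ 0) (hA : curvf_J P A)
    (hmin : ∀ A' : k[X][X], A' ≠ 0 → curvf_J P A' → A.natDegree ≤ A'.natDegree) :
    ∀ (n : ℕ) (Q : k[X][X]), Q.degree < n → curvf_J P Q →
      ∃ (r : k[X]) (B : k[X][X]), r ≠ 0 ∧ C r * Q = A * B := by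
  intro n
  induction n with
  | zero =>
    intro Q hQ _
    have : Q = 0 := by
      by_contra h
      rw [degree_eq_natDegree h] at hQ
      exact absurd hQ (by norm_cast)
    exact ⟨1, 0, one_ne_zero, by simp [this]⟩
  | succ n ih =>
    intro Q hQ hJ
    by_cases h0 : Q = 0
    · exact ⟨1, 0, one_ne_zero, by simp [h0]⟩
    have hle := hmin Q h0 hJ
    have hla : A.leadingCoeff ≠ 0 := leadingCoeff_ne_zero.2 hA0
    have hlq : Q.leadingCoeff ≠ 0 := leadingCoeff_ne_zero.2 h0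
    set m := Q.natDegree - A.natDegree with hm
    have hJ' : curvf_J P (C A.leadingCoeff * Q - A * (C Q.leadingCoeff * X ^ m)) :=
      curvf_sub (by rw [mul_comm]; exact curvf_mul hJ _) (curvf_mul hA _)
    have hd1 : (C A.leadingCoeff * Q).degree = Q.degree := degree_C_mul hla
    have hd2 : (A * (C Q.leadingCoeff * X ^ m)).degree = Q.degree := by
      rw [degree_mul, degree_C_mul_X_pow _ hlq, degree_eq_natDegree hA0, degree_eq_natDegree h0]
      norm_cast
      omega
    have hlt : (C A.leadingCoeff * Q - A * (C Q.leadingCoeff * X ^ m)).degree < Q.degree := by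
      rw [← hd1]
      refine degree_sub_lt_left (hd1.trans hd2.symm) (mul_ne_zero (C_ne_zero.2 hla) h0) ?_
      rw [leadingCoeff_mul, leadingCoeff_mul, leadingCoeff_C, leadingCoeff_C_mul_X_pow]
    have hlt' : (C A.leadingCoeff * Q - A * (C Q.leadingCoeff * X ^ m)).degree <
        (n : WithBot ℕ) := by
      refine lt_of_lt_of_le hlt ?_
      rw [degree_eq_natDegree h0] at hQ ⊢
      norm_cast at hQ ⊢
      omega
    obtain ⟨r, B, hr, hB⟩ := ih _ hlt' hJ'
    refine ⟨r * A.leadingCoeff, B + C r * (C Q.leadingCoeff * X ^ m), mul_ne_zero hr hla, ?_⟩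
    rw [C_mul]
    linear_combination hB

theorem curvf_key {P : Filter (Ω × Ω)} (hF : ∀ z, ∀ᶠ x in P, x.1 ≠ z ∧ x.2 ≠ z)
    {A : k[X][X]} (hA0 : A ≠ 0) (hA : curvf_J P A)
    (hmin : ∀ A' : k[X][X], A' ≠ 0 → curvf_J P A' → A.natDegree ≤ A'.natDegree)
    {π : (FractionRing k[X])[X]} (hπ : Irreducible π)
    (hd : π ∣ A.map (algebraMap k[X] (FractionRing k[X]))) :
    ∃ (r : k[X]) (π₀ S₀ : k[X][X]) (u : FractionRing k[X]), r ≠ 0 ∧ C r * A = π₀ * S₀ ∧ u ≠ 0 ∧
      π₀.map (algebraMap k[X] (FractionRing k[X])) = C u * π ∧ 0 < π₀.natDegree ∧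
        ¬ curvf_J P S₀ ∧ ¬ π ∣ S₀.map (algebraMap k[X] (FractionRing k[X])) := by
  obtain ⟨S, hS⟩ := hd
  obtain ⟨a, π₀, ha, hπ₀⟩ := curve_clear π
  obtain ⟨b, S₀, hb, hS₀⟩ := curve_clear S
  have hinj := IsFractionRing.injective k[X] (FractionRing k[X])
  have hu : algebraMap k[X] (FractionRing k[X]) a ≠ 0 := (map_ne_zero_iff _ hinj).2 ha
  have hE : C (a * b) * A = π₀ * S₀ := by
    refine curve_inj ?_
    simp only [Polynomial.map_mul, map_C, hπ₀, hS₀, hS, map_mul]
    ring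
  have hdeg : 0 < π₀.natDegree := by
    rw [← natDegree_map_eq_of_injective hinj, hπ₀, natDegree_C_mul hu]
    exact hπ.natDegree_pos
  have hne : π₀ * S₀ ≠ 0 := by
    rw [← hE]
    exact mul_ne_zero (C_ne_zero.2 (mul_ne_zero ha hb)) hA0
  have hnJ : ¬ curvf_J P S₀ := by
    intro hJ
    have h1 := hmin S₀ (right_ne_zero_of_mul hne) hJ
    have h2 := congrArg natDegree hE
    rw [natDegree_C_mul (mul_ne_zero ha hb),
      natDegree_mul (left_ne_zero_of_mul hne) (right_ne_zero_of_mul hne)] at h2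
    omega
  refine ⟨a * b, π₀, S₀, _, mul_ne_zero ha hb, hE, hu, hπ₀, hdeg, hnJ, ?_⟩
  rintro ⟨T, hT⟩
  obtain ⟨c, T₀, hc, hT₀⟩ := curve_clear T
  apply hnJ
  have h1 : C c * (S₀ * S₀) = A * (C b * T₀) := by
    refine curve_inj ?_
    simp only [Polynomial.map_mul, map_C, hT₀, hS]
    linear_combination (C (algebraMap k[X] (FractionRing k[X]) c) *
      map (algebraMap k[X] (FractionRing k[X])) S₀) * hT +
      (C (algebraMap k[X] (FractionRing k[X]) c) * π * T) * hS₀
  refine curvf_rad (curvf_C hF hc ?_)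
  rw [h1]
  exact curvf_mul hA _

end

theorem p_CURVF (hDX : S_DX) :
    S_CURVF := by
  intro k Ω _ _ _ _ f P A₀ _ hF hfwd hA₀ hJ₀
  classical
  have hex : ∃ n, ∃ A : k[X][X], A ≠ 0 ∧ curvf_J P A ∧ A.natDegree = n := ⟨_, A₀, hA₀, hJ₀, rfl⟩
  obtain ⟨A, hA0, hA, hn⟩ := Nat.find_spec hex
  have hmin : ∀ A' : k[X][X], A' ≠ 0 → curvf_J P A' → A.natDegree ≤ A'.natDegree := by
    intro A' h0 hJ
    rw [hn]
    exact Nat.find_min' hex ⟨A', h0, hJ, rfl⟩
  have hinj := IsFractionRing.injective k[X] (FractionRing k[X])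
  have hA0' : A.map (algebraMap k[X] (FractionRing k[X])) ≠ 0 :=
    (Polynomial.map_ne_zero_iff hinj).2 hA0
  obtain ⟨hX1, hX2, hX3, -⟩ := hDX k
  refine ⟨A, hA, ⟨?_, ?_, ?_⟩, hmin⟩
  · exact curvf_div hA0 hA hmin ((sub f A).natDegree + 1) _
      (lt_of_le_of_lt degree_le_natDegree (by norm_cast; omega)) (curvf_subJ hfwd hA)
  · refine curve_bez (isCoprime_of_irreducible_dvd (fun h => hA0' h.1) fun π hπ h1 h2 => ?_)
    obtain ⟨r, π₀, S₀, u, hr, hE, hu, hπ₀, hdeg, hnJ, hnd⟩ := curvf_key hF hA0 hA hmin hπ h1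
    have h3 : C r * derivative A = derivative π₀ * S₀ + π₀ * derivative S₀ := by
      rw [← derivative_mul, ← hE, derivative_C_mul]
    have h4 := congrArg (Polynomial.map (algebraMap k[X] (FractionRing k[X]))) h3
    simp only [Polynomial.map_mul, Polynomial.map_add, hπ₀] at h4
    have h5 : π ∣ (derivative π₀).map (algebraMap k[X] (FractionRing k[X])) *
        S₀.map (algebraMap k[X] (FractionRing k[X])) := by
      rw [← dvd_add_left (Dvd.dvd.mul_right (Dvd.intro_left _ rfl : π ∣ C u * π)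
        ((derivative S₀).map (algebraMap k[X] (FractionRing k[X])))), ← h4]
      exact Dvd.dvd.mul_left h2 _
    have h6 := (hπ.prime.dvd_or_dvd h5).resolve_right hnd
    have h7 : derivative π₀ ≠ 0 := by
      intro h
      have := derivative_eq_zero.1 h
      omega
    have h8 := natDegree_le_of_dvd h6 ((Polynomial.map_ne_zero_iff hinj).2 h7)
    have h9 : π₀.natDegree = π.natDegree := by
      rw [← natDegree_map_eq_of_injective hinj, hπ₀, natDegree_C_mul hu]
    rw [natDegree_map_eq_of_injective hinj] at h8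
    have := natDegree_derivative_le π₀
    omega
  · refine curve_bez (isCoprime_of_irreducible_dvd (fun h => hA0' h.1) fun π hπ h1 h2 => ?_)
    obtain ⟨r, π₀, S₀, u, hr, hE, hu, hπ₀, hdeg, hnJ, hnd⟩ := curvf_key hF hA0 hA hmin hπ h1
    have h3 : C (derivative r) * A + C r * dX A = dX π₀ * S₀ + π₀ * dX S₀ := by
      rw [← (hX2 _ _).2, ← hE, (hX2 _ _).2, hX3]
    have h4 := congrArg (Polynomial.map (algebraMap k[X] (FractionRing k[X]))) h3
    simp only [Polynomial.map_mul, Polynomial.map_add, hπ₀] at h4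
    have h5 : π ∣ (dX π₀).map (algebraMap k[X] (FractionRing k[X])) *
        S₀.map (algebraMap k[X] (FractionRing k[X])) := by
      rw [← dvd_add_left (Dvd.dvd.mul_right (Dvd.intro_left _ rfl : π ∣ C u * π)
        ((dX S₀).map (algebraMap k[X] (FractionRing k[X])))), ← h4]
      exact dvd_add (Dvd.dvd.mul_left h1 _) (Dvd.dvd.mul_left h2 _)
    have h6 := (hπ.prime.dvd_or_dvd h5).resolve_right hnd
    have hπ0 : π₀ ≠ 0 := by
      rintro rfl
      simp at hdeg
    have hl : π₀.leadingCoeff ≠ 0 := leadingCoeff_ne_zero.2 hπ0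
    have h9 : π₀.natDegree = π.natDegree := by
      rw [← natDegree_map_eq_of_injective hinj, hπ₀, natDegree_C_mul hu]
    have h7 : C π₀.leadingCoeff * dX π₀ - C (derivative π₀.leadingCoeff) * π₀ = 0 := by
      by_contra hne
      have h10 : π ∣ (C π₀.leadingCoeff * dX π₀ - C (derivative π₀.leadingCoeff) * π₀).map
          (algebraMap k[X] (FractionRing k[X])) := by
        simp only [Polynomial.map_mul, Polynomial.map_sub, hπ₀]
        exact dvd_sub (Dvd.dvd.mul_left h6 _) (Dvd.dvd.mul_left (Dvd.intro_left _ rfl) _)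
      have h8 := natDegree_le_of_dvd h10 ((Polynomial.map_ne_zero_iff hinj).2 hne)
      rw [natDegree_map_eq_of_injective hinj, ← h9] at h8
      refine leadingCoeff_ne_zero.2 hne ?_
      rw [leadingCoeff, coeff_sub, coeff_C_mul, coeff_C_mul, hX1]
      rcases h8.eq_or_lt with h | h
      · rw [← h, ← leadingCoeff]
        ring
      · rw [coeff_eq_zero_of_natDegree_lt h]
        simp
    have h8 : ∀ i, ∃ t : k, π₀.coeff i = C t * π₀.leadingCoeff := by
      intro i
      refine curve_wr hl _ ?_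
      have := congrArg (fun p => coeff p i) h7
      simp only [coeff_sub, coeff_C_mul, hX1, coeff_zero] at this
      exact sub_eq_zero.1 this
    choose t ht using h8
    have h10 : π₀ = C π₀.leadingCoeff *
        (∑ i ∈ Finset.range (π₀.natDegree + 1), monomial i (t i)).map C := by
      conv_lhs => rw [π₀.as_sum_range]
      rw [Polynomial.map_sum, Finset.mul_sum]
      refine Finset.sum_congr rfl fun i _ => ?_
      rw [map_monomial, C_mul_monomial, ht i, mul_comm]
    have hT : (∑ i ∈ Finset.range (π₀.natDegree + 1), monomial i (t i) : k[X]) ≠ 0 := by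
      intro h
      rw [h, Polynomial.map_zero, mul_zero] at h10
      exact hπ0 h10
    apply hnJ
    refine curvf_Y hF hT (curvf_C hF hl ?_)
    rw [← mul_assoc, ← h10, ← hE, mul_comm]
    exact curvf_mul hA _

end Pool.Agent.P.MP_8d2e9f_nt.AO
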