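import Pool.Agent.P.MP_8d2e9f_nt.AO.IfaceB

/-! Step EXG. -/

set_option autoImplicit false

namespace Pool.Agent.P.MP_8d2e9f_nt.AO

open Polynomial NumberField Pool.Agent.P.MP_8d2e9f_nt.G
open scoped IntermediateField

theorem exg_field (K : IF) (hK : Fd K) (a c : Qbar) :
    ∃ K' : IF, Fd K' ∧ K ≤ K' ∧ a ∈ K' ∧ c ∈ K' := by
  have : FiniteDimensional ℚ ℚ⟮a, c⟯ :=
    IntermediateField.finiteDimensional_adjoin fun x _ => int_Q x
  refine ⟨K ⊔ ℚ⟮a, c⟯, inferInstance, le_sup_left, ?_, ?_⟩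
  · exact (le_sup_right : ℚ⟮a, c⟯ ≤ _) (IntermediateField.subset_adjoin _ _ (by simp))
  · exact (le_sup_right : ℚ⟮a, c⟯ ≤ _) (IntermediateField.subset_adjoin _ _ (by simp))

theorem exg_mon (R : Type) [CommRing R] [Nontrivial R] (n : ℕ) :
    (Chebyshev.C R n).natDegree ≤ n ∧
      (Chebyshev.C R (n + 1 : ℕ)).IsMonicOfDegree (n + 1) := by
  induction n with
  | zero =>
    refine ⟨?_, by simpa using isMonicOfDegree_X R⟩
    rw [Nat.cast_zero, Chebyshev.C_zero]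
    exact (natDegree_ofNat 2).le
  | succ n ih =>
    refine ⟨ih.2.natDegree_eq.le, ?_⟩
    have h := ((isMonicOfDegree_X R).mul ih.2).sub (q := Chebyshev.C R n) (by omega)
    rw [add_comm 1] at h
    have e : Chebyshev.C R (n + 1 + 1 : ℕ) =
        X * Chebyshev.C R (n + 1 : ℕ) - Chebyshev.C R n := by
      push_cast
      rw [← Chebyshev.C_add_two, add_assoc, one_add_one_eq_two]
    rw [e]
    exact h

theorem exg_mon' (R : Type) [CommRing R] [Nontrivial R] {n : ℕ} (h : 0 < n) :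
    (Chebyshev.C R n).IsMonicOfDegree n := by
  obtain ⟨m, rfl⟩ := Nat.exists_eq_add_one_of_ne_zero h.ne'
  exact (exg_mon R m).2

theorem exg_ev (n : ℕ) {v : Qbar} (h : v ≠ 0) :
    (Chebyshev.C Qbar n).eval (v + v⁻¹) = v ^ n + (v ^ n)⁻¹ := by
  rw [← dickson_one_one_eq_chebyshev_C, dickson_one_one_eval_add_inv _ _ (mul_inv_cancel₀ h),
    inv_pow]

theorem exg_par (x : Qbar) : ∃ v : Qbar, v ≠ 0 ∧ x = v + v⁻¹ := by
  obtain ⟨v, hv⟩ := IsAlgClosed.exists_root (X ^ 2 - C x * X + C 1 : Qbar[X]) (by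
    rw [degree_eq_natDegree (isMonicOfDegree_sub_add_two x 1).ne_zero,
      (isMonicOfDegree_sub_add_two x 1).natDegree_eq]
    decide)
  have h : v ^ 2 - x * v + 1 = 0 := by simpa using hv
  have h0 : v ≠ 0 := by
    rintro rfl
    simp at h
  refine ⟨v, h0, ?_⟩
  field_simp
  linear_combination -h

theorem exg_odd {n : ℕ} (hn : Odd n) (x : Qbar) :
    (Chebyshev.C Qbar n).eval (-x) = -(Chebyshev.C Qbar n).eval x := by
  obtain ⟨v, h, rfl⟩ := exg_par x
  rw [show -(v + v⁻¹) = -v + (-v)⁻¹ by rw [inv_neg]; ring, exg_ev n (neg_ne_zero.2 h), exg_ev n h,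
    hn.neg_pow, inv_neg]
  ring

theorem exg_cc (m n : ℕ) (x : Qbar) :
    (Chebyshev.C Qbar m).eval ((Chebyshev.C Qbar n).eval x) =
      (Chebyshev.C Qbar (m * n : ℕ)).eval x := by
  rw [← eval_comp, ← Chebyshev.C_mul, Nat.cast_mul]

theorem exg_bound (L : Subfield Qbar) (h : (cyc L).Finite) :
    ∃ N : ℕ, ∀ p : ℕ, N < p → ∀ ω : Qbar, IsPrimitiveRoot ω p → ω + ω⁻¹ ∉ L := by
  have h1 : ∀ c ∈ cyc L, ∃ n : ℕ, 0 < n ∧ ∀ ω : Qbar, ω ≠ 0 → ω + ω⁻¹ = c → ω ^ n = 1 := by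
    rintro c ⟨-, ζ, hζ, rfl⟩
    obtain ⟨n, n0, e⟩ := isOfFinOrder_iff_pow_eq_one.1 hζ
    have z0 : ζ ≠ 0 := by
      rintro rfl
      rw [zero_pow n0.ne'] at e
      exact zero_ne_one e
    refine ⟨n, n0, fun ω w0 hw => ?_⟩
    have h2 : (ω - ζ) * (ω - ζ⁻¹) = 0 := by
      have h3 := mul_inv_cancel₀ z0
      have h4 := mul_inv_cancel₀ w0
      linear_combination ω * hw + h3 - h4
    rcases mul_eq_zero.1 h2 with h3 | h3
    · rw [sub_eq_zero.1 h3, e]
    · rw [sub_eq_zero.1 h3, inv_pow, e, inv_one]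
  choose! n hn using h1
  obtain ⟨N, hN⟩ := (h.image n).bddAbove
  refine ⟨N, fun p hp ω hω hL => ?_⟩
  have p0 : p ≠ 0 := by omega
  have hc : ω + ω⁻¹ ∈ cyc L := ⟨hL, ω, hω.isOfFinOrder p0, rfl⟩
  have h2 := Nat.le_of_dvd (hn _ hc).1
    (hω.dvd_of_pow_eq_one _ ((hn _ hc).2 ω (hω.ne_zero p0) rfl))
  have h3 : n (ω + ω⁻¹) ≤ N := hN ⟨_, hc, rfl⟩
  omega

theorem exg_core (hFROB : S_FROB) (hDICH : S_DICH) (hAMP : S_AMP) (K : IF) (hK : Fd K) (p : ℕ)
    [Fact p.Prime] (φ : K →+* ℚ_[p]) (j : Qbar →+* Om p) (hj : Loc φ j) (hp : 3 ≤ p) (T : ℤ[X])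
    (hT : T.IsMonicOfDegree p) (hr : T.map (Int.castRingHom (ZMod p)) = X ^ p) (H : Qbar → ℝ)
    (B : ℝ) (hB : ∀ x, |H x - wh x| ≤ B) (hσ : ∀ (σ : GK K) x, H (σ x) = H x)
    (hH : ∀ x, H (aeval x T) = p * H x) :
    ∃ ε : ℝ, 0 < ε ∧ ∀ x, Ab K x → (∀ (k : ℕ) (s : GK K), s x ≠ x → (s ^ p) x = x →
      s ((fun y => aeval y T)^[k] x) = (fun y => aeval y T)^[k] x → H x = 0) →
      H x < ε → H x = 0 := by
  obtain ⟨D, τ, hD⟩ := hFROB K p φ j hj
  obtain ⟨δ, -, hδ, hdi⟩ := hDICH K p j D τ hD hp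
  obtain ⟨k, hk⟩ := hAMP K p j δ (1 + B) T hK hδ hT.monic hT.natDegree_eq hr
  have p3 : (3 : ℝ) ≤ p := by exact_mod_cast hp
  have hit : ∀ (i : ℕ) x, H ((fun y => aeval y T)^[i] x) = p ^ i * H x := by
    intro i x
    induction i with
    | zero => simp
    | succ i ih => rw [Function.iterate_succ_apply', hH, ih]; ring
  have pk : (0 : ℝ) < p ^ k := by positivity
  refine ⟨((p : ℝ) ^ (k + 1))⁻¹, by positivity, fun x hx hw hε => ?_⟩
  have h1 : (p : ℝ) ^ (k + 1) * H x < 1 := by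
    have h0 : (0 : ℝ) < p ^ (k + 1) := by positivity
    have h1 := mul_lt_mul_of_pos_left hε h0
    rwa [mul_inv_cancel₀ h0.ne'] at h1
  have h2 : (p : ℝ) ^ k * H x < 1 := by
    rw [pow_succ] at h1
    by_contra h3
    push Not at h3
    nlinarith
  have h3 : ∀ i : ℕ, (p : ℝ) ^ i * H x < 1 → wh ((fun y => aeval y T)^[i] x) ≤ 1 + B := by
    intro i hi
    have h4 := (abs_le.1 (hB ((fun y => aeval y T)^[i] x))).1
    rw [hit] at h4
    linarith
  rcases hdi x hx with h | ⟨s, s1, s2, s3⟩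
  · have h4 := congrArg H ((hk τ x hx).1 h (h3 k h2) (h3 (k + 1) h1))
    rw [hσ, hit, hit] at h4
    have h5 : (p : ℝ) ^ k * ((p - 1) * H x) = 0 := by linear_combination -h4
    exact (mul_eq_zero.1 ((mul_eq_zero.1 h5).resolve_left pk.ne')).resolve_left (by linarith)
  · exact hw k s s1 s2 ((hk s x hx).2 s3 (h3 k h2))

theorem p_EXG (hABG : S_ABG) (hPLACE : S_PLACE) (hFROB : S_FROB) (hCANB : S_CANB) (hDICH : S_DICH) (hAMP : S_AMP) (hOMEGA : S_OMEGA) :
    S_EXG := by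
  intro K K' L f h a b hK _ hL hc hd hcan ⟨ha, _, hs⟩
  obtain ⟨E, hE, hKE, haE, hbE⟩ := exg_field K hK a b
  obtain ⟨N, hN⟩ := exg_bound _ hc
  obtain ⟨p, _, φ, j, hp, hj, -⟩ := hPLACE E (N + 3) ∅ hE
  have pp : p.Prime := Fact.out
  have p3 : 3 ≤ p := by omega
  have fa : ∀ s : GK E, s a = a := fun s => s.commutes ⟨a, haE⟩
  have fb : ∀ s : GK E, s b = b := fun s => s.commutes ⟨b, hbE⟩
  have hom : ∀ (k : ℕ) (s : GK E) (x : Qbar), s x ≠ x → (s ^ p) x = x → a * x + b ∈ L → _ :=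
    fun k s x s1 s2 hx => hOMEGA E L.toSubfield p k s a b x pp p3 ha (fa s) (fb s)
      (fun y hy => (((hABG K).2.2.2.1 L hL y hy).2
        (AlgEquiv.ofRingEquiv (f := s.toRingEquiv) fun c => s.commutes ⟨c, hKE c.2⟩)))
      s1 s2 (hN p (by omega)) hx
  have key : ∀ (g : E[X]) (T : ℤ[X]), LinConj f a b (g.map (algebraMap E Qbar)) →
      T.IsMonicOfDegree p → T.map (Int.castRingHom (ZMod p)) = X ^ p →
      (∀ z, aeval ((g.map (algebraMap E Qbar)).eval z) T =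
        (g.map (algebraMap E Qbar)).eval (aeval z T)) →
      (∀ (k : ℕ) (s : GK E) (x : Qbar), s x ≠ x → (s ^ p) x = x → a * x + b ∈ L →
        s ((fun y => aeval y T)^[k] x) = (fun y => aeval y T)^[k] x →
        ∃ u : Qbar[X], 2 ≤ u.natDegree ∧ u.eval x = x ∧
          ∀ z, u.eval ((g.map (algebraMap E Qbar)).eval z) =
            (g.map (algebraMap E Qbar)).eval (u.eval z)) →
      ∃ ε : ℝ, 0 < ε ∧ ∀ z ∈ L, h z < ε → h z = 0 := by
    intro g T hg hT hr hcm hw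
    obtain ⟨g1, g2⟩ := (hCANB.1 f h hd hcan).2.2.2 a b _ ha hg
    have g3 := (hCANB.1 _ _ (g1 ▸ hd) g2).2.2.1
    have g4 := hCANB.2 E g _ (by rwa [← natDegree_map (algebraMap E Qbar), g1]) g2
    obtain ⟨B, hB⟩ := g2.2
    have t1 : (T.map (algebraMap ℤ Qbar)).natDegree = p := by
      rw [hT.monic.natDegree_map, hT.natDegree_eq]
    obtain ⟨ε, e0, he⟩ := exg_core hFROB hDICH hAMP E hE p φ j hj p3 T hT hr
      (fun x => h (a * x + b)) B hB g4 (fun x => by
        have := g3 (T.map (algebraMap ℤ Qbar)) (by omega) (fun z => by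
          simp only [eval_map_algebraMap (P := T)]
          exact hcm z) x
        rwa [eval_map_algebraMap, t1] at this)
    refine ⟨ε, e0, fun z hz hε => ?_⟩
    have e : a * ((z - b) / a) + b = z := by field_simp; ring
    have h1 : Ab E z := (hABG K).2.2.1 E hKE z ((hABG K).2.2.2.1 L hL z hz).1
    have h2 := he ((z - b) / a) (fun σ ρ => by
      simp only [map_div₀, map_sub, fa, fb, h1 σ ρ]) (fun k s s1 s2 s3 => by
        obtain ⟨u, u1, u2, u3⟩ := hw k s _ s1 s2 (e.symm ▸ hz) s3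
        have h3 := g3 u (by omega) u3 ((z - b) / a)
        rw [u2] at h3
        have h4 : (2 : ℝ) ≤ u.natDegree := by exact_mod_cast u1
        have h5 : ((u.natDegree : ℝ) - 1) * h (a * ((z - b) / a) + b) = 0 := by
          linear_combination -h3
        exact (mul_eq_zero.1 h5).resolve_left (by linarith))
    simp only [e] at h2
    exact h2 hε
  have cheb : ∀ g : E[X], LinConj f a b (g.map (algebraMap E Qbar)) →
      (∀ m : ℕ, Odd m → ∀ z, (Chebyshev.C Qbar m).eval ((g.map (algebraMap E Qbar)).eval z) =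
        (g.map (algebraMap E Qbar)).eval ((Chebyshev.C Qbar m).eval z)) →
      ∃ ε : ℝ, 0 < ε ∧ ∀ z ∈ L, h z < ε → h z = 0 := by
    intro g hg hm
    refine key g (Chebyshev.C ℤ p) hg (exg_mon' ℤ pp.pos) ?_ (fun z => ?_) ?_
    · rw [Chebyshev.map_C, ← dickson_one_one_eq_chebyshev_C, dickson_one_one_zmod_p]
    · simp only [Chebyshev.aeval_C]
      exact hm p (pp.odd_of_ne_two (by omega)) z
    · intro k s x s1 s2 hx s3
      have e : ∀ i : ℕ, (fun y : Qbar => aeval y (Chebyshev.C ℤ p))^[i] x =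
          (Chebyshev.C Qbar (p ^ i : ℕ)).eval x := by
        intro i
        induction i with
        | zero => simp
        | succ i ih => rw [Function.iterate_succ_apply', ih, Chebyshev.aeval_C, exg_cc, pow_succ']
      rw [e] at s3
      obtain ⟨ζ, hζ, rfl⟩ := (hom k s x s1 s2 hx).2 s3
      obtain ⟨n, n0, e1⟩ := isOfFinOrder_iff_pow_eq_one.1 hζ
      have z0 : ζ ≠ 0 := by
        rintro rfl
        rw [zero_pow n0.ne'] at e1
        exact zero_ne_one e1
      refine ⟨Chebyshev.C Qbar (2 * n + 1 : ℕ), ?_, ?_, hm _ (odd_two_mul_add_one n)⟩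
      · rw [(exg_mon' Qbar (n := 2 * n + 1) (by omega)).natDegree_eq]
        omega
      · rw [exg_ev _ z0, pow_succ, pow_mul', e1, one_pow, one_mul]
  rcases hs with hs | ⟨-, hs | hs⟩
  · refine key (X ^ f.natDegree) (X ^ p) (by simpa using hs) (isMonicOfDegree_X_pow ℤ p)
      (by simp) (fun z => by simp [← pow_mul, mul_comm]) ?_
    intro k s x s1 s2 hx s3
    have e : ∀ i : ℕ, (fun y : Qbar => aeval y (X ^ p : ℤ[X]))^[i] x = x ^ p ^ i := by
      intro i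
      induction i with
      | zero => simp
      | succ i ih => rw [Function.iterate_succ_apply', ih, aeval_X_pow, ← pow_mul, pow_succ]
    rw [e] at s3
    exact ((hom k s x s1 s2 hx).1 s3).elim
  · refine cheb (Chebyshev.C E f.natDegree) (by simpa using hs) fun m _ z => ?_
    rw [Chebyshev.map_C, exg_cc, exg_cc, mul_comm]
  · refine cheb (-Chebyshev.C E f.natDegree) (by simpa using hs) fun m hm z => ?_
    rw [Polynomial.map_neg, Chebyshev.map_C, eval_neg, eval_neg, exg_odd hm, exg_cc, exg_cc,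
      mul_comm]

end Pool.Agent.P.MP_8d2e9f_nt.AO
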