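import Pool.Agent.P.MP_8d2e9f_nt.AO.IfaceB
import Pool.Agent.P.MP_8d2e9f_nt.AO.TFORMT

/-! Step FORMB. -/

set_option autoImplicit false

namespace Pool.Agent.P.MP_8d2e9f_nt.AO

open Polynomial NumberField Pool.Agent.P.MP_8d2e9f_nt.G
open scoped IntermediateField

lemma formb_lots {T : Type} {h : T → ℝ} {P A B : Set T} (hP : Lots h P) (hs : P ⊆ A ∪ B) :
    Lots h A ∨ Lots h B := by
  by_contra hc
  rw [not_or] at hc
  obtain ⟨hA, hB⟩ := hc
  simp only [Lots, not_forall, Set.not_infinite] at hA hB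
  obtain ⟨ε, hε, hA⟩ := hA
  obtain ⟨ε', hε', hB⟩ := hB
  refine hP (min ε ε') (lt_min hε hε') ((hA.union hB).subset ?_)
  rintro x ⟨hx, hh⟩
  rcases hs hx with h1 | h1
  · exact Or.inl ⟨h1, hh.trans_le (min_le_left _ _)⟩
  · exact Or.inr ⟨h1, hh.trans_le (min_le_right _ _)⟩

lemma formb_good {K : IF} {p : ℕ} [Fact p.Prime] {φ : K →+* ℚ_[p]} {f : K[X]} {f₀ : ℤ_[p][X]}
    (hd : 2 ≤ f.natDegree) (e1 : f₀.map (zq p) = f.map φ)
    (e2 : (f₀.map (zr p)).natDegree = f.natDegree) : Good φ f := by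
  have hc : ∀ l, φ (f.coeff l) = (f₀.coeff l : ℚ_[p]) := fun l => by
    have := congrArg (coeff · l) e1
    simp only [coeff_map] at this
    exact this.symm
  refine ⟨fun l => by rw [hc]; exact (f₀.coeff l).2, ?_⟩
  have h0 : f₀.map (zr p) ≠ 0 := fun e => by
    rw [e, natDegree_zero] at e2
    omega
  have h1 : zr p (f₀.coeff f.natDegree) ≠ 0 := by
    rw [← coeff_map, ← e2, coeff_natDegree]
    exact leadingCoeff_ne_zero.2 h0
  rw [← coeff_natDegree, hc]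
  change ‖f₀.coeff f.natDegree‖ = 1
  rw [← PadicInt.isUnit_iff]
  by_contra hu
  apply h1
  rw [← RingHom.mem_ker, PadicInt.ker_toZMod]
  exact hu

theorem p_FORMB (hFROB : S_FROB) (hDICH : S_DICH) (hLOCA : S_LOCA) (hLOCB : S_LOCB) :
    S_FORMB := by
  intro K f h hK hd hC hL
  refine ⟨f.natDegree, fun p _ φ j f₀ hp hl e1 e2 => ?_⟩
  obtain ⟨D, τ, hD⟩ := hFROB K p φ j hl
  obtain ⟨δ, -, hδ, hz⟩ := hDICH K p j D τ hD (by omega)
  have hg := formb_good hd e1 e2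
  have hder : derivative (f₀.map (zr p)) ≠ 0 := formt_der (by omega) (by omega)
  rcases formb_lots (A := {z | Ab K z ∧ Acts K j p δ τ z})
    (B := {z | Ab K z ∧ ∃ s : GK K, s z ≠ z ∧ Acts K j 1 δ s z}) hL (fun z hab => by
      rcases hz z hab with h1 | ⟨s, h1, -, h2⟩
      · exact Or.inl ⟨hab, h1⟩
      · exact Or.inr ⟨hab, s, h1, h2⟩) with hA | hB
  · exact hLOCA K f h p φ j δ τ f₀ hK hd hC hl hg e1 hder hδ hA
  · exact hLOCB K f h p φ j δ f₀ hK hd hC hl hg e1 hder hδ hB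

end Pool.Agent.P.MP_8d2e9f_nt.AO
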