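import Pool.Agent.P.MP_8d2e9f_nt.AO.IfaceB
import Pool.Agent.P.MP_8d2e9f_nt.AO.TRED

/-! Step GAPG. -/

set_option autoImplicit false

namespace Pool.Agent.P.MP_8d2e9f_nt.AO

open Polynomial NumberField Pool.Agent.P.MP_8d2e9f_nt.G
open scoped IntermediateField

theorem gapg_zo {p : ℕ} [Fact p.Prime] (a : ℤ_[p]) : ‖zo p a‖ ≤ 1 := by
  rw [zo_apply, PadicAlgCl.norm_extends]
  exact a.2

theorem gapg_eval {p : ℕ} [Fact p.Prime] (r : ℤ_[p][X]) (x : Om p) :
    ‖r.eval₂ (zo p) x‖ ≤ max 1 ‖x‖ ^ r.natDegree := by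
  rw [eval₂_eq_sum_range]
  refine IsUltrametricDist.norm_sum_le_of_forall_le_of_nonneg (by positivity) fun i hi => ?_
  rw [norm_mul, norm_pow]
  refine (mul_le_of_le_one_left (by positivity) (gapg_zo _)).trans ?_
  exact (pow_le_pow_left₀ (norm_nonneg _) (le_max_right 1 _) i).trans
    (pow_le_pow_right₀ (le_max_left _ _) (Nat.lt_succ_iff.1 (Finset.mem_range.1 hi)))

theorem p_GAPG (hAUXA : S_AUXA) :
    S_GAPG := by
  intro K f h Y p hp φ j δ g D hK hd hc hY hj hf hδ hg hA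
  obtain ⟨G, v, r, hG, e⟩ := red_lift _ hg
  have ep : ‖(p : Om p)‖ < 1 := by
    rw [← map_natCast (algebraMap ℚ_[p] _), PadicAlgCl.norm_extends]
    exact Padic.norm_p_lt_one
  refine hAUXA K f h Y p φ j (max δ ‖(p : Om p)‖) G (max D r.natDegree) hK hd hc hY hj hf
    (max_lt hδ ep) hG ?_
  obtain ⟨ε, hε, hF⟩ := hA
  refine ⟨ε, hε, hF.subset fun z hz => ⟨hz.1, hz.2.1, fun h0 => hz.2.2 ?_⟩⟩
  have h3 : aeval (j z) G = (G.map (Int.castRingHom ℤ_[p])).eval₂ (zo p) (j z) := by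
    rw [eval₂_map, aeval_def]
    congr 1
  have h0' : 0 ≤ max δ ‖(p : Om p)‖ := le_max_of_le_right (norm_nonneg _)
  have m1 : (1 : ℝ) ≤ max 1 ‖j z‖ := le_max_left _ _
  change ‖aeval (j z) G‖ ≤ _
  rw [h3, e, eval₂_add, eval₂_mul, eval₂_mul, eval₂_C, eval₂_C, map_natCast]
  refine (IsUltrametricDist.norm_add_le_max _ _).trans (max_le ?_ ?_)
  · rw [norm_mul]
    refine (mul_le_of_le_one_left (norm_nonneg _) (gapg_zo _)).trans (h0.trans ?_)
    exact mul_le_mul (le_max_left _ _) (pow_le_pow_right₀ m1 (le_max_left _ _)) (by positivity) h0'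
  · rw [norm_mul]
    exact mul_le_mul (le_max_right _ _)
      ((gapg_eval r _).trans (pow_le_pow_right₀ m1 (le_max_right _ _))) (norm_nonneg _) h0'

end Pool.Agent.P.MP_8d2e9f_nt.AO
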