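import Pool.Agent.P.MP_8d2e9f_nt.AO.IfaceB

/-! Step GOOD. -/

set_option autoImplicit false

namespace Pool.Agent.P.MP_8d2e9f_nt.AO

open Polynomial NumberField Pool.Agent.P.MP_8d2e9f_nt.G
open scoped IntermediateField

lemma good_one {F : Type} [NormedField F] [IsUltrametricDist F] (c : ℕ → F) (d : ℕ)
    (hc : ∀ l, ‖c l‖ ≤ 1) (hd : ‖c (d + 1)‖ = 1) (u : F) :
    max 1 ‖∑ l ∈ Finset.range (d + 1 + 1), c l * u ^ l‖ = max 1 ‖u‖ ^ (d + 1) := by
  have h1 : ∀ n, ‖∑ l ∈ Finset.range (n + 1), c l * u ^ l‖ ≤ max 1 ‖u‖ ^ n := fun n =>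
    IsUltrametricDist.norm_sum_le_of_forall_le_of_nonneg (by positivity) fun l hl => by
      rw [norm_mul, norm_pow]
      calc ‖c l‖ * ‖u‖ ^ l ≤ 1 * max 1 ‖u‖ ^ l := by
            gcongr
            exacts [hc l, le_max_right _ _]
        _ ≤ max 1 ‖u‖ ^ n := by
            rw [one_mul]
            exact pow_le_pow_right₀ (le_max_left _ _) (Nat.lt_succ_iff.1 (Finset.mem_range.1 hl))
  rcases le_or_gt ‖u‖ 1 with h | h
  · have h2 := h1 (d + 1)
    rw [max_eq_left h, one_pow] at h2 ⊢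
    exact max_eq_left h2
  · have h2 := h1 d
    rw [max_eq_right h.le] at h2 ⊢
    have h3 : ‖c (d + 1) * u ^ (d + 1)‖ = ‖u‖ ^ (d + 1) := by rw [norm_mul, norm_pow, hd, one_mul]
    have h4 := h2.trans_lt ((pow_lt_pow_right₀ h d.lt_succ_self).trans_eq h3.symm)
    rw [Finset.sum_range_succ, IsUltrametricDist.norm_add_eq_max_of_norm_ne_norm h4.ne,
      max_eq_right h4.le, h3]
    exact max_eq_right (one_le_pow₀ h.le)

theorem p_GOOD :
    S_GOOD := by
  intro K f p _ φ j hf hl hg n z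
  have hn : ∀ c : K, ‖j c‖ = ‖φ c‖ := fun c => by rw [hl c, PadicAlgCl.norm_extends]
  have h1 : ∀ x : Qbar, max 1 ‖j (aeval x f)‖ = max 1 ‖j x‖ ^ f.natDegree := by
    intro x
    obtain ⟨d, hd⟩ := Nat.exists_eq_succ_of_ne_zero hf.ne'
    have h2 := good_one (fun l => j (f.coeff l)) d (fun l => (hn _).trans_le (hg.1 l))
      ((hn _).trans (by rw [← hg.2, leadingCoeff, hd])) (j x)
    rw [aeval_eq_sum_range, map_sum, hd, ← h2]
    simp only [Algebra.smul_def, map_mul, map_pow]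
    rfl
  induction n with
  | zero => simp
  | succ n ih => rw [Function.iterate_succ_apply', h1, ih, ← pow_mul, pow_succ]

end Pool.Agent.P.MP_8d2e9f_nt.AO
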