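import Pool.Agent.P.MP_8d2e9f_nt.AO.IfaceB

/-! Step LINK. -/

set_option autoImplicit false
set_option linter.unusedSectionVars false

namespace Pool.Agent.P.MP_8d2e9f_nt.AO

open Polynomial NumberField Pool.Agent.P.MP_8d2e9f_nt.G
open scoped IntermediateField Pointwise

section link

open IsDedekindDomain

variable {p : ℕ} [Fact p.Prime] {L : Type} [Field L] [NumberField L]

theorem link_le (φ : L →+* Om p) (x : 𝓞 L) : ‖φ x‖ ≤ 1 := by
  have hx : IsIntegral ℤ (φ x) := x.isIntegral_coe.map φ.toIntAlgHom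
  have h : φ x ∈ (PadicAlgCl.valued p).v.integer :=
    (Valuation.integer.integers (PadicAlgCl.valued p).v).mem_of_integral hx.tower_top
  exact h

/-- The prime ideal of an embedding. -/
def link_P (φ : L →+* Om p) : Ideal (𝓞 L) where
  carrier := {x | ‖φ x‖ < 1}
  zero_mem' := by simp
  add_mem' {a b} ha hb := by
    show ‖φ ((a : L) + b)‖ < 1
    rw [map_add]
    exact (IsUltrametricDist.norm_add_le_max _ _).trans_lt (max_lt ha hb)
  smul_mem' c {a} ha := by
    show ‖φ ((c : L) * a)‖ < 1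
    rw [map_mul, norm_mul]
    exact mul_lt_one_of_nonneg_of_lt_one_right (link_le φ c) (norm_nonneg _) ha

theorem link_mem (φ : L →+* Om p) (x : 𝓞 L) : x ∈ link_P φ ↔ ‖φ x‖ < 1 := Iff.rfl

theorem link_prime (φ : L →+* Om p) : (link_P φ).IsPrime := by
  refine ⟨(Ideal.ne_top_iff_one _).2 (by simp [link_mem]), fun {a b} h => ?_⟩
  replace h : ‖φ ((a : L) * b)‖ < 1 := h
  rw [map_mul, norm_mul] at h
  by_contra k
  rw [not_or, link_mem, link_mem, not_lt, not_lt] at k
  exact absurd h (not_lt.2 (one_le_mul_of_one_le_of_one_le k.1 k.2))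

theorem link_p (φ : L →+* Om p) : (p : 𝓞 L) ∈ link_P φ := by
  show ‖φ (algebraMap (𝓞 L) L p)‖ < 1
  rw [map_natCast, map_natCast, ← map_natCast (algebraMap ℚ_[p] (Om p)), norm_algebraMap']
  exact Padic.norm_p_lt_one

theorem link_equiv (φ : L →+* Om p) (u : FinitePlace L)
    (h : ∀ x : 𝓞 L, x ∈ u.maximalIdeal.asIdeal ↔ ‖φ x‖ < 1) :
    ∃ t : ℝ, 0 < t ∧ ∀ x : L, u x = ‖φ x‖ ^ t := by
  let w : AbsoluteValue L ℝ := (NormedField.toAbsoluteValue (Om p)).comp φ.injective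
  have hw : ∀ x, w x = ‖φ x‖ := fun _ => rfl
  have a1 : ∀ x : 𝓞 L, u x ≤ 1 := fun x => by
    rw [← FinitePlace.norm_embedding_eq]
    exact FinitePlace.norm_le_one L u.maximalIdeal x
  have a2 : ∀ x : 𝓞 L, u x < 1 ↔ x ∈ u.maximalIdeal.asIdeal := fun x => by
    rw [← FinitePlace.norm_embedding_eq]
    exact FinitePlace.norm_lt_one_iff_mem L u.maximalIdeal x
  have e : w.IsEquiv u.1 := by
    rw [AbsoluteValue.isEquiv_iff_lt_one_iff]
    intro x
    rw [hw, ← FinitePlace.coe_apply]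
    obtain ⟨n, ⟨d, hd⟩, k⟩ := u.maximalIdeal.exists_primeCompl_mul_eq_or_mul_eq (K := L) x
    have d1 : u d = 1 := le_antisymm (a1 d) (not_lt.1 fun k => hd ((a2 d).1 k))
    have d2 : ‖φ d‖ = 1 := le_antisymm (link_le φ d) (not_lt.1 fun k => hd ((h d).2 k))
    rcases k with k | k
    · have k1 : u x * u d = u n := by rw [← map_mul]; exact congrArg u k
      have k2 : ‖φ x‖ * ‖φ d‖ = ‖φ n‖ := by
        rw [← norm_mul, ← map_mul]; exact congrArg (fun y => ‖φ y‖) k
      rw [d1, mul_one] at k1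
      rw [d2, mul_one] at k2
      rw [k1, k2, a2, h]
    · have k1 : u x * u n = u d := by rw [← map_mul]; exact congrArg u k
      have k2 : ‖φ x‖ * ‖φ n‖ = ‖φ d‖ := by
        rw [← norm_mul, ← map_mul]; exact congrArg (fun y => ‖φ y‖) k
      refine iff_of_false (fun c => ?_) fun c => ?_
      · exact (mul_lt_one_of_nonneg_of_lt_one_left (norm_nonneg _) c (link_le φ n)).ne
          (k2.trans d2)
      · exact (mul_lt_one_of_nonneg_of_lt_one_left (apply_nonneg u x) c (a1 n)).ne (k1.trans d1)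
  obtain ⟨t, ht, e⟩ := AbsoluteValue.isEquiv_iff_exists_rpow_eq.1 e
  exact ⟨t, ht, fun x => (congrFun e x).symm⟩

theorem link_prod (I : Ideal (𝓞 L)) {x : 𝓞 L} (hx : x ≠ 0) (h : x ∈ I) :
    ∃ U : Finset (FinitePlace L), (∀ u ∈ U, I ≤ u.maximalIdeal.asIdeal) ∧
      (∏ u ∈ U, u x) * Ideal.absNorm I ≤ 1 := by
  have hI : I ≠ ⊥ := fun k => hx (by simpa [k] using h)
  have fin := FinitePlace.hasFiniteMulSupport_fun_pow_multiplicity hI fun J => J
  have e := FinitePlace.finprod_finitePlace_pow_multiplicity hI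
  refine ⟨fin.toFinset, fun u hu => ?_, ?_⟩
  · rw [Set.Finite.mem_toFinset, Function.mem_mulSupport] at hu
    rw [← Ideal.dvd_iff_le]
    by_contra k
    exact hu (by rw [multiplicity_eq_zero.2 k, pow_zero])
  · rw [finprod_eq_prod _ fin] at e
    rw [← congrArg Ideal.absNorm e, map_prod, Nat.cast_prod, ← Finset.prod_mul_distrib]
    refine Finset.prod_le_one (fun u _ => by positivity) fun u _ => ?_
    rw [← u.apply_mul_absNorm_pow_eq_one hx, map_pow, Nat.cast_pow]
    refine mul_le_mul_of_nonneg_left (pow_le_pow_right₀ ?_ ?_) (apply_nonneg u _)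
    · exact_mod_cast (NumberField.HeightOneSpectrum.one_lt_absNorm u.maximalIdeal).le
    · refine (FiniteMultiplicity.of_prime_left u.maximalIdeal.prime
        (mt Submodule.span_singleton_eq_bot.1 hx)).le_multiplicity_of_pow_dvd
        ((pow_multiplicity_dvd _ _).trans ?_)
      rw [Ideal.dvd_iff_le]
      exact (Ideal.span_singleton_le_iff_mem _).2 h

theorem link_main (K : Type) [Field K] [NumberField K] [Algebra K L] [IsGalois K L]
    (φ : L →+* Om p) : ∃ U : Finset (FinitePlace L),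
      (∀ u ∈ U, ∃ (τ : L ≃ₐ[K] L) (t : ℝ), 0 < t ∧ ∀ x : L, u x = ‖φ (τ x)‖ ^ t) ∧
        (∏ u ∈ U, u (p : L)) * (p : ℝ) ^ Module.finrank K L ≤ 1 := by
  have hp : p.Prime := Fact.out
  have := link_prime φ
  have p0 : (p : 𝓞 K) ≠ 0 := Nat.cast_ne_zero.2 hp.ne_zero
  have m0 : (p : 𝓞 K) ∈ (link_P φ).under (𝓞 K) := by
    rw [Ideal.under_def, Ideal.mem_comap, map_natCast]
    exact link_p φ
  have mx : ((link_P φ).under (𝓞 K)).IsMaximal :=
    Ideal.IsPrime.isMaximal inferInstance fun k => p0 (by simpa [k] using m0)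
  obtain ⟨U, h1, h2⟩ := link_prod (((link_P φ).under (𝓞 K)).map (algebraMap (𝓞 K) (𝓞 L)))
    (x := (p : 𝓞 L)) (Nat.cast_ne_zero.2 hp.ne_zero) (by
      simpa using Ideal.mem_map_of_mem (algebraMap (𝓞 K) (𝓞 L)) m0)
  refine ⟨U, fun u hu => ?_, ?_⟩
  · have := u.maximalIdeal.isPrime
    have : u.maximalIdeal.asIdeal.LiesOver ((link_P φ).under (𝓞 K)) :=
      ⟨mx.eq_of_le (Ideal.IsPrime.ne_top inferInstance) (Ideal.map_le_iff_le_comap.1 (h1 u hu))⟩
    obtain ⟨τ, hτ⟩ := Ideal.exists_smul_eq_of_isGaloisGroup ((link_P φ).under (𝓞 K))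
      u.maximalIdeal.asIdeal (link_P φ) (L ≃ₐ[K] L)
    refine ⟨τ, link_equiv (φ.comp τ.toRingEquiv.toRingHom) u fun x => ?_⟩
    rw [← Ideal.smul_mem_pointwise_smul_iff (a := τ), hτ]
    rfl
  · rw [Ideal.absNorm_algebraMap, ← IsFractionRing.finrank_eq (𝓞 K) K (𝓞 L) L,
      show ((p : 𝓞 L) : L) = p from map_natCast (algebraMap (𝓞 L) L) p, Nat.cast_pow] at h2
    refine le_trans (mul_le_mul_of_nonneg_left (pow_le_pow_left₀ (by positivity) ?_ _)
      (Finset.prod_nonneg fun u _ => apply_nonneg u _)) h2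
    have d := Ideal.absNorm_dvd_absNorm_of_le ((Ideal.span_singleton_le_iff_mem _).2 m0)
    rw [Ideal.absNorm_span_natCast, Nat.dvd_prime_pow hp] at d
    obtain ⟨k, -, e⟩ := d
    have k0 : k ≠ 0 := by
      rintro rfl
      exact mx.ne_top (Ideal.absNorm_eq_one_iff.1 e)
    rw [e]
    exact_mod_cast Nat.le_self_pow k0 p

end link

theorem p_LINK :
    S_LINK := by
  intro K L _ p _ j hK hG
  have : FiniteDimensional ℚ K := hK
  obtain ⟨U, h1, h2⟩ := link_main K (j.comp (algebraMap L Qbar))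
  refine ⟨U, fun u hu => ?_, ?_⟩
  · obtain ⟨τ, t, ht, e⟩ := h1 u hu
    refine ⟨τ.liftNormal Qbar, t, ht, fun x => ?_⟩
    rw [e]
    exact congrArg (fun y => ‖j y‖ ^ t) (τ.liftNormal_commutes Qbar x).symm
  · have hp : (0 : ℝ) < p := Nat.cast_pos.2 (Fact.out : p.Prime).pos
    rw [← Module.finrank_mul_finrank ℚ K L, mul_comm, pow_mul]
    refine pow_le_pow_left₀ (Finset.prod_nonneg fun u _ => apply_nonneg u _) ?_ _
    rw [inv_pow, ← one_div, le_div_iff₀ (pow_pos hp _)]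
    exact h2

end Pool.Agent.P.MP_8d2e9f_nt.AO
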