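import Pool.Agent.P.MP_8d2e9f_nt.AO.IfaceB

/-! Step LOCA. -/

set_option autoImplicit false

namespace Pool.Agent.P.MP_8d2e9f_nt.AO

open Polynomial NumberField Pool.Agent.P.MP_8d2e9f_nt.G
open scoped IntermediateField

theorem loca_ne {k : Type} [Field k] {f : k[X]} {A : k[X][X]} (h : Crv f A) : A ≠ 0 := by
  rintro rfl
  obtain ⟨-, ⟨U, V, r, hr, h⟩, -⟩ := h
  rw [derivative_zero, mul_zero, mul_zero, add_zero] at h
  exact hr (C_eq_zero.1 h.symm)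

theorem loca_mem {K : IF} (f : K[X]) (z : Qbar) : aeval z f ∈ K⟮z⟯ :=
  IntermediateField.algebra_adjoin_le_adjoin K {z} (aeval_mem_adjoin_singleton K z)

theorem p_LOCA (hCRV : S_CRV) (hABG : S_ABG) (hPRIM : S_PRIM) (hINV : S_INV) (hCANB : S_CANB) (hAUXB : S_AUXB) (hREDB : S_REDB) (hCURVB : S_CURVB) (hACT : S_ACT) :
    S_LOCA := by
  intro K f h p _ φ j δ τ f₀ hK hd hC hL hG hf hder hδ hLots
  set P : Set (Qbar × Qbar) := {x | (Ab K x.1 ∧ Acts K j p δ τ x.1) ∧ x.2 = τ x.1} with hP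
  have hin : ∀ z, Ab K z ∧ Acts K j p δ τ z → ∀ x ∈ K⟮z⟯, Ab K x ∧ Acts K j p δ τ x :=
    fun z hz x hx => ⟨((hABG K).1 z hz.1).2.1 x hx, ((hACT K p j p δ τ z hz.1 hz.2).1 x hx).1⟩
  have hfib : Fib P := by
    refine ⟨fun z => (Set.finite_singleton (τ z)).subset fun w hw => hw.2,
      fun w => (Set.finite_singleton (τ.symm w)).subset fun z hz => ?_⟩
    have h : w = τ z := hz.2
    rw [Set.mem_singleton_iff, h, AlgEquiv.symm_apply_apply]
  have hgal : ∀ σ : GK K, ∀ x ∈ P, (σ x.1, σ x.2) ∈ P := by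
    intro σ x hx
    refine ⟨hin _ hx.1 _ (((hABG K).1 _ hx.1.1).2.2 σ), ?_⟩
    change σ x.2 = τ (σ x.1)
    rw [hx.2]
    exact hx.1.1 σ τ
  have hh : ∀ x ∈ P, h x.2 = h x.1 := by
    intro x hx
    rw [hx.2]
    exact hCANB.2 K f h hd hC τ x.1
  have hcl : ∀ x ∈ P, Cl p δ (j x.1) (j x.2) := by
    intro x hx
    rw [hx.2]
    exact ((hACT K p j p δ τ _ hx.1.1 hx.1.2).1 _
      (IntermediateField.mem_adjoin_simple_self K x.1)).2
  have hlots : Lots (fun x : Qbar × Qbar => h x.1) P := by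
    intro ε hε
    refine Set.Infinite.of_image Prod.fst ((hLots ε hε).mono fun z hz => ?_)
    exact ⟨(z, τ z), ⟨⟨hz.1, rfl⟩, hz.2⟩, rfl⟩
  have hfw : AA (fun x : Qbar × Qbar => h x.1) P
      (fun x => (aeval x.1 f, aeval x.2 f) ∈ P) := by
    refine ⟨1, one_pos, Set.finite_empty.subset fun x hx => hx.2.2 ?_⟩
    refine ⟨hin _ hx.1.1 _ (loca_mem f x.1), ?_⟩
    change aeval x.2 f = τ (aeval x.1 f)
    rw [hx.1.2]
    exact aeval_algHom_apply τ _ f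
  have hmul : ∀ z, h (aeval z f) = f.natDegree * h z := by
    intro z
    have h1 := hC.1 z
    rwa [eval_map_algebraMap, natDegree_map] at h1
  obtain ⟨A₁, ε, hA₁, hε, hz₁⟩ := hAUXB K f h p φ j δ p P hK hd hC hL hG hδ hgal hh hcl
  have hAA₁ : AA (fun x : Qbar × Qbar => h x.1) P (fun x => aevalAeval x.1 x.2 A₁ = 0) :=
    ⟨ε, hε, Set.finite_empty.subset fun x hx => hx.2.2 (hz₁ x hx.1 hx.2.1)⟩
  obtain ⟨A, hfin, hCv, -⟩ := hCURVB K f h P A₁ (by omega) hmul hlots hfib hfw hA₁ hAA₁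
  have hC' := hCRV.1 K ℚ_[p] φ f A hCv
  obtain ⟨c, A₀, hc, hA, hA₀⟩ := hPRIM p _ (loca_ne hC')
  have hred := hREDB K f h p φ j δ p P A c A₀ hK hd hC hL hG hδ hgal hfib hlots hcl hfin hc hA
  rw [hA, ← hf] at hC'
  exact hINV p f₀ A₀ hder hA₀ hred (hCRV.2 _ _ _ c hc hC')

end Pool.Agent.P.MP_8d2e9f_nt.AO
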