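import Pool.Agent.P.MP_8d2e9f_nt.AO.IfaceB
import Pool.Agent.P.MP_8d2e9f_nt.AO.TLOCW

/-! Step LOCB. -/

set_option autoImplicit false

namespace Pool.Agent.P.MP_8d2e9f_nt.AO

open Polynomial NumberField Pool.Agent.P.MP_8d2e9f_nt.G
open scoped IntermediateField

theorem p_LOCB (hCRV : S_CRV) (hABG : S_ABG) (hPRIM : S_PRIM) (hINVW : S_INVW) (hCANB : S_CANB) (hAUXB : S_AUXB) (hREDB : S_REDB) (hCURVB : S_CURVB) (hACT : S_ACT) (hCOLL : S_COLL) :
    S_LOCB := by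
  intro K f h p _ φ j δ f₀ hFd hdeg hCan hLoc hGood hf0 hder hδ hLots
  set P : Set (Qbar × Qbar) := {x | Ab K x.1 ∧ ∃ s : GK K, x.2 = s x.1 ∧ s x.1 ≠ x.1 ∧
    Acts K j 1 δ s x.1} with hP
  have hFib : Fib P := by
    refine ⟨fun z => (locw_orbit K z).subset fun w hw => hw.2.imp fun s hs => hs.1,
      fun w => (locw_orbit K w).subset fun z hz => ?_⟩
    obtain ⟨s, hs, -⟩ := hz.2
    have : w = s z := hs
    exact ⟨s⁻¹, by rw [this]; simp⟩
  have hGal : ∀ σ : GK K, ∀ x ∈ P, (σ x.1, σ x.2) ∈ P := by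
    rintro σ ⟨z, w⟩ ⟨hz, s, hs, hne, hn⟩
    have h1 := hACT K p j 1 δ s z hz hn
    have h2 : s (σ z) = σ (s z) := hz s σ
    refine ⟨((hABG K).1 z hz).2.1 _ (h1.2 σ), s, ?_, fun e => hne (σ.injective ?_),
      (h1.1 _ (h1.2 σ)).1⟩
    · exact (congrArg σ hs).trans h2.symm
    · exact h2.symm.trans e
  have hh : ∀ x ∈ P, h x.2 = h x.1 := by
    rintro ⟨z, w⟩ ⟨-, s, hs, -⟩
    rw [hs]
    exact hCANB.2 K f h hdeg hCan s z
  have hnear : ∀ x ∈ P, Cl 1 δ (j x.1) (j x.2) := by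
    rintro ⟨z, w⟩ ⟨hz, s, hs, -, hn⟩
    rw [hs]
    exact ((hACT K p j 1 δ s z hz hn).1 z (IntermediateField.mem_adjoin_simple_self K z)).2
  have hinf : Lots (fun x => h x.1) P := fun ε hε => by
    refine Set.Infinite.of_image Prod.fst ((hLots ε hε).mono ?_)
    rintro z ⟨⟨hz, s, hs⟩, hl⟩
    exact ⟨(z, s z), ⟨⟨hz, s, rfl, hs⟩, hl⟩, rfl⟩
  have hfwd : AA (fun x => h x.1) P fun x => (aeval x.1 f, aeval x.2 f) ∈ P := by
    obtain ⟨ε, hε, hfin⟩ := hCOLL K f h p φ j δ f₀ hFd hdeg hCan hLoc hGood hf0 hder hδ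
    refine ⟨ε, hε, (hfin.biUnion fun z _ => (hFib.1 z).image fun w => (z, w)).subset ?_⟩
    rintro ⟨z, w⟩ ⟨hx, hl, hn⟩
    simp only [Set.mem_iUnion]
    refine ⟨z, ?_, w, hx, rfl⟩
    obtain ⟨hz, s, hs, hne, hb⟩ := hx
    refine ⟨⟨hz, s, hne, hb, ?_⟩, hl, not_false⟩
    by_contra e
    have hm : aeval z f ∈ K⟮z⟯ :=
      IntermediateField.algebra_adjoin_le_adjoin K {z} (aeval_mem_adjoin_singleton K z)
    refine hn ⟨((hABG K).1 z hz).2.1 _ hm, s, ?_, e, ((hACT K p j 1 δ s z hz hb).1 _ hm).1⟩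
    change aeval w f = s (aeval z f)
    rw [show w = s z from hs, locw_comm]
  have hfun : ∀ z, h (aeval z f) = f.natDegree * h z := fun z => by
    have := hCan.1 z
    rwa [eval_map_algebraMap, natDegree_map] at this
  obtain ⟨A₁, ε₁, hA₁, hε₁, hA₁'⟩ :=
    hAUXB K f h p φ j δ 1 P hFd hdeg hCan hLoc hGood hδ hGal hh hnear
  obtain ⟨A, hA, hCrv, hmin⟩ := hCURVB K f h P A₁ (by omega) hfun hinf hFib hfwd hA₁
    ⟨ε₁, hε₁, Set.finite_empty.subset fun x hx => hx.2.2 (hA₁' x hx.1 hx.2.1)⟩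
  have hA0 : A ≠ 0 := by
    rintro rfl
    obtain ⟨U, V, r, hr, e⟩ := hCrv.2.1
    simp only [mul_zero, derivative_zero, add_zero] at e
    exact hr (C_eq_zero.1 e.symm)
  have hinj : Function.Injective (mapRingHom φ) := map_injective φ φ.injective
  obtain ⟨c, A₀, hc0, hAc, hA₀⟩ := hPRIM p (A.map (mapRingHom φ))
    ((Polynomial.map_ne_zero_iff hinj).2 hA0)
  have hred := hREDB K f h p φ j δ 1 P A c A₀ hFd hdeg hCan hLoc hGood hδ hGal hFib hinf hnear hA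
    hc0 hAc
  rw [pow_one] at hred
  have hX : A₀.eval X ≠ 0 := fun e => by
    have e1 : (mapRingHom φ) (A.eval X) = 0 := by
      have h1 := eval_map_apply (p := A) (mapRingHom φ) X
      have h2 := eval_map_apply (p := A₀) (mapRingHom (zq p)) X
      simp only [coe_mapRingHom, map_X] at h1 h2
      rw [coe_mapRingHom, ← h1, hAc, eval_mul, h2, e]
      simp
    have e2 : A.eval X = 0 := hinj (by rw [e1, map_zero])
    obtain ⟨B, hB⟩ := dvd_iff_isRoot.2 e2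
    have hB0 : B ≠ 0 := fun h => hA0 (by rw [hB, h, mul_zero])
    obtain ⟨ε, hε, hA'⟩ := hA
    have h3 := hmin B hB0 ⟨ε, hε, hA'.subset fun x hx => ⟨hx.1, hx.2.1, fun h => hx.2.2 ?_⟩⟩
    · rw [hB, natDegree_mul (X_sub_C_ne_zero _) hB0, natDegree_X_sub_C] at h3
      omega
    · have h' : aevalAeval x.1 x.2 ((X - C X : K[X][X]) * B) = 0 := hB ▸ h
      have h'' := map_sub (aevalAeval x.1 x.2 : K[X][X] →ₐ[K] Qbar) X (C X)
      rw [map_mul, h'', aevalAeval_X, aevalAeval_Y, mul_eq_zero] at h'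
      obtain ⟨s, hs, hne, -⟩ := hx.1.2
      exact h'.resolve_left (sub_ne_zero.2 (hs ▸ hne))
  have hC := hCRV.1 K ℚ_[p] φ f A hCrv
  rw [hAc, ← hf0] at hC
  exact hINVW p f₀ A₀ hder hA₀ hred hX (hCRV.2 _ _ _ c hc0 hC)

end Pool.Agent.P.MP_8d2e9f_nt.AO
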