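import Pool.Agent.P.MP_8d2e9f_nt.AO.IfaceB

/-! Step NUSB. -/

set_option autoImplicit false

namespace Pool.Agent.P.MP_8d2e9f_nt.AO

open Polynomial NumberField Pool.Agent.P.MP_8d2e9f_nt.G
open scoped IntermediateField

lemma nusb_map (x : Qbar) :
    ratMap (algebraMap Qbar[X] (RatFunc Qbar) (X ^ 2 - C 2)) (some x) = some (x ^ 2 - 2) := by
  have h : ∀ p : Qbar[X], ratMap (algebraMap Qbar[X] (RatFunc Qbar) p) (some x) =
      some (p.eval x) := fun p => by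
    simp [ratMap, RatFunc.num_algebraMap, RatFunc.denom_algebraMap]
  rw [h]
  simp

lemma nusb_iter (ζ : Qbar) (h : ζ ≠ 0) (n : ℕ) :
    (ratMap (algebraMap Qbar[X] (RatFunc Qbar) (X ^ 2 - C 2)))^[n] (some (ζ + ζ⁻¹)) =
      some (ζ ^ 2 ^ n + (ζ ^ 2 ^ n)⁻¹) := by
  induction n with
  | zero => simp
  | succ n ih =>
    rw [Function.iterate_succ_apply', ih, nusb_map, pow_succ 2 n, pow_mul]
    have : ζ ^ 2 ^ n ≠ 0 := pow_ne_zero _ h
    congr 1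
    field_simp
    ring

theorem p_NUSB (hWH : S_WH) :
    S_NUSB := by
  intro F hF hU
  have hd : 2 ≤ (X ^ 2 - C 2 : Qbar[X]).natDegree := by rw [natDegree_X_pow_sub_C]
  obtain ⟨H, hH⟩ := hWH.2.2.2.2 _ hd
  apply hF
  refine Set.Finite.subset ((hU _ hd H hH).2.preimage (Option.some_injective Qbar).injOn) ?_
  rintro x ⟨hx, ζ, hζ, rfl⟩
  refine ⟨Or.inr ⟨_, hx, rfl⟩, ?_⟩
  have h0 : ζ ≠ 0 := hζ.isUnit.ne_zero
  refine Set.Finite.subset (hζ.finite_powers.image fun y => (some (y + y⁻¹) : ProjLine)) ?_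
  rintro _ ⟨n, rfl⟩
  exact ⟨ζ ^ 2 ^ n, ⟨_, rfl⟩, (nusb_iter ζ h0 n).symm⟩

end Pool.Agent.P.MP_8d2e9f_nt.AO
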