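import Pool.Agent.P.MP_8d2e9f_nt.AO.IfaceB

/-! Step OMEGA. -/

set_option autoImplicit false

namespace Pool.Agent.P.MP_8d2e9f_nt.AO

open Polynomial NumberField Pool.Agent.P.MP_8d2e9f_nt.G
open scoped IntermediateField

section
variable {K F : Type} [Field K] [Field F] [Algebra K F]

theorem omega_geom {p t r : ℕ} (hp : p.Prime) (h3 : 3 ≤ p) (hr : 0 < r)
    (h : p ^ r ∣ ∑ i ∈ Finset.range p, t ^ i) : r = 1 ∧ ∃ c : ℕ, t = 1 + p * c := by
  have h1 : (p : ℤ) ∣ ∑ i ∈ Finset.range p, (t : ℤ) ^ i := by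
    exact_mod_cast (dvd_pow_self p hr.ne').trans h
  have h2 : (p : ℤ) ∣ (t : ℤ) - 1 := by
    have a1 := h1.mul_right ((t : ℤ) - 1)
    rw [geom_sum_mul] at a1
    have a2 := Int.prime_dvd_pow_self_sub hp (t : ℤ)
    have := a1.sub a2
    rwa [show (t : ℤ) ^ p - 1 - ((t : ℤ) ^ p - t) = t - 1 by ring] at this
  obtain ⟨c, hc⟩ := h2
  have hc' : (t : ℤ) = 1 + p * c := by linarith
  have hp3 : (3 : ℤ) ≤ p := by exact_mod_cast h3
  have hc0 : 0 ≤ c := by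
    by_contra hn
    have : (0 : ℤ) ≤ t := Int.natCast_nonneg t
    nlinarith
  refine ⟨?_, c.toNat, by zify; rw [Int.toNat_of_nonneg hc0]; exact hc'⟩
  by_contra hn
  have h4 : (p : ℤ) ^ 2 ∣ ∑ i ∈ Finset.range p, (t : ℤ) ^ i := by
    exact_mod_cast (pow_dvd_pow p (by omega : 2 ≤ r)).trans h
  have h5 := odd_sq_dvd_geom_sum₂_sub (R := ℤ) (a := 1) (b := c) (p := p)
    (hp.odd_of_ne_two (by omega))
  simp only [one_pow, mul_one, ← hc'] at h5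
  have h6 := h4.sub h5
  rw [sub_sub_cancel] at h6
  have := Int.le_of_dvd (by linarith) h6
  nlinarith

theorem omega_key {p k : ℕ} (hp : p.Prime) (h3 : 3 ≤ p) (s : F ≃ₐ[K] F) {v ω : F} (hv : v ≠ 0)
    (h1 : s v = ω * v) (h2 : ω ^ p ^ k = 1) (h4 : ω ≠ 1) (h5 : (s ^ p) v = v) :
    s ω = ω ∧ IsPrimitiveRoot ω p := by
  obtain ⟨r, -, hr⟩ := (Nat.dvd_prime_pow hp).1 (orderOf_dvd_of_pow_eq_one h2)
  have hr0 : 0 < r := Nat.pos_of_ne_zero fun h => h4 (by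
    rwa [h, pow_zero, orderOf_eq_one_iff] at hr)
  have ho : IsPrimitiveRoot ω (p ^ r) := hr ▸ IsPrimitiveRoot.orderOf ω
  have : NeZero (p ^ r) := ⟨pow_ne_zero r hp.ne_zero⟩
  obtain ⟨t, -, ht⟩ := ho.eq_pow_of_pow_eq_one (ξ := s ω) (by rw [← map_pow, ho.pow_eq_one, map_one])
  have h6 : ∀ n : ℕ, (s ^ n) v = ω ^ (∑ i ∈ Finset.range n, t ^ i) * v := fun n => by
    induction n with
    | zero => simp
    | succ n ih =>
      rw [pow_succ', AlgEquiv.mul_apply, ih, map_mul, map_pow, ← ht, h1, geom_sum_succ, pow_succ,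
        pow_mul, mul_assoc]
  have h7 := h6 p
  rw [h5, eq_comm, mul_eq_right₀ hv, ho.pow_eq_one_iff_dvd] at h7
  obtain ⟨rfl, c, rfl⟩ := omega_geom hp h3 hr0 h7
  rw [pow_one] at ho
  refine ⟨?_, ho⟩
  rw [← ht, pow_add, pow_mul, ho.pow_eq_one, one_pow, mul_one, pow_one]

theorem omega_two {u w : F} (hu : u ≠ 0) (hw : w ≠ 0) (h : w + w⁻¹ = u + u⁻¹) :
    w = u ∨ w = u⁻¹ := by
  have h1 : (w - u) * (w - u⁻¹) = 0 := by
    field_simp at h ⊢
    linear_combination h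
  rcases mul_eq_zero.1 h1 with h2 | h2
  exacts [Or.inl (sub_eq_zero.1 h2), Or.inr (sub_eq_zero.1 h2)]

theorem omega_fix (s : F ≃ₐ[K] F) {w : F} (h : s w = w) (n : ℕ) : (s ^ n) w = w := by
  induction n with
  | zero => rfl
  | succ n ih => rw [pow_succ', AlgEquiv.mul_apply, ih, h]

theorem omega_mem (s : F ≃ₐ[K] F) {L : Subfield F} (h : ∀ y ∈ L, s y ∈ L) (n : ℕ) :
    ∀ y ∈ L, (s ^ n) y ∈ L := by
  induction n with
  | zero => exact fun y hy => hy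
  | succ n ih => exact fun y hy => by rw [pow_succ', AlgEquiv.mul_apply]; exact h _ (ih y hy)

theorem omega_pow {L : Subfield F} {p k : ℕ} {s : F ≃ₐ[K] F} {a b x : F} (hp : p.Prime)
    (h3 : 3 ≤ p) (ha : a ≠ 0) (sa : s a = a) (sb : s b = b) (hL : ∀ y ∈ L, s y ∈ L) (hx : s x ≠ x)
    (hs : (s ^ p) x = x) (hω : ∀ ω : F, IsPrimitiveRoot ω p → ω + ω⁻¹ ∉ L) (hy : a * x + b ∈ L)
    (h : s (x ^ p ^ k) = x ^ p ^ k) : False := by
  have x0 : x ≠ 0 := fun e => hx (by rw [e, map_zero])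
  obtain ⟨ω, h1⟩ : ∃ ω, s x = ω * x := ⟨s x / x, by field_simp⟩
  have h4 : ω ≠ 1 := fun e => hx (by rw [h1, e, one_mul])
  have h2 : ω ^ p ^ k = 1 := by
    rwa [map_pow, h1, mul_pow, mul_eq_right₀ (pow_ne_zero _ x0)] at h
  obtain ⟨h5, h6⟩ := omega_key hp h3 s x0 h1 h2 h4 hs
  have h7 := div_mem (sub_mem (hL _ (hL _ hy)) (hL _ hy)) (sub_mem (hL _ hy) hy)
  have h8 : (s (s (a * x + b)) - s (a * x + b)) / (s (a * x + b) - (a * x + b)) = ω := by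
    simp only [map_add, map_mul, sa, sb, h1, h5]
    rw [div_eq_iff]
    · ring
    · rw [show a * (ω * x) + b - (a * x + b) = a * x * (ω - 1) by ring]
      exact mul_ne_zero (mul_ne_zero ha x0) (sub_ne_zero.2 h4)
  rw [h8] at h7
  exact hω ω h6 (add_mem h7 (inv_mem h7))

theorem omega_cheb {L : Subfield F} {p k : ℕ} {s : F ≃ₐ[K] F} {a b u : F} (hp : p.Prime)
    (h3 : 3 ≤ p) (sa : s a = a) (ha : a ≠ 0) (sb : s b = b) (hL : ∀ y ∈ L, s y ∈ L) (u0 : u ≠ 0)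
    (hx : s (u + u⁻¹) ≠ u + u⁻¹) (hs : (s ^ p) (u + u⁻¹) = u + u⁻¹)
    (hω : ∀ ω : F, IsPrimitiveRoot ω p → ω + ω⁻¹ ∉ L) (hy : a * (u + u⁻¹) + b ∈ L)
    (h : s (u ^ p ^ k) = u ^ p ^ k) : IsOfFinOrder u := by
  rw [map_add, map_inv₀] at hs
  rcases omega_two u0 ((_root_.map_ne_zero _).2 u0) hs with e | e
  swap
  · have h1 := omega_fix s h p
    rw [map_pow, e, inv_pow, inv_eq_iff_eq_inv, eq_comm, inv_eq_iff_eq_inv] at h1
    refine isOfFinOrder_iff_pow_eq_one.2 ⟨p ^ k + p ^ k, by have := pow_pos hp.pos k; omega, ?_⟩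
    rw [pow_add]
    nth_rewrite 1 [h1]
    exact inv_mul_cancel₀ (pow_ne_zero _ u0)
  exfalso
  obtain ⟨ω, h1⟩ : ∃ ω, s u = ω * u := ⟨s u / u, by field_simp⟩
  have h4 : ω ≠ 1 := fun e => hx (by rw [map_add, map_inv₀, h1, e, one_mul])
  have h2 : ω ^ p ^ k = 1 := by
    rwa [map_pow, h1, mul_pow, mul_eq_right₀ (pow_ne_zero _ u0)] at h
  obtain ⟨h5, h6⟩ := omega_key hp h3 s u0 h1 h2 h4 e
  have ω0 : ω ≠ 0 := h6.ne_zero hp.ne_zero
  have h9 : (s ^ (p - 1)) u = ω⁻¹ * u := by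
    apply s.injective
    rw [← AlgEquiv.mul_apply, ← pow_succ', Nat.sub_add_cancel hp.one_le, e, map_mul, map_inv₀, h5,
      h1, inv_mul_cancel_left₀ ω0]
  have h7 := div_mem (sub_mem (hL _ (hL _ hy)) (omega_mem s hL (p - 1) _ hy)) (sub_mem (hL _ hy) hy)
  have h10 : s (a * (u + u⁻¹) + b) - (a * (u + u⁻¹) + b) ≠ 0 := by
    rw [map_add, map_mul, sa, sb, add_sub_add_right_eq_sub, ← mul_sub]
    exact mul_ne_zero ha (sub_ne_zero.2 hx)
  have h8 : (s (s (a * (u + u⁻¹) + b)) - (s ^ (p - 1)) (a * (u + u⁻¹) + b)) /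
      (s (a * (u + u⁻¹) + b) - (a * (u + u⁻¹) + b)) = ω + ω⁻¹ + 1 := by
    rw [div_eq_iff h10]
    simp only [map_add, map_mul, map_inv₀, sa, sb, h1, h5, h9, omega_fix s sa, omega_fix s sb]
    field_simp
    ring
  rw [h8] at h7
  exact hω ω h6 (by simpa using sub_mem h7 (one_mem L))

end

theorem p_OMEGA :
    S_OMEGA := by
  intro K L p k s a b x hp h3 ha sa sb hL hx hs hω hy
  refine ⟨omega_pow hp h3 ha sa sb hL hx hs hω hy, fun h => ?_⟩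
  obtain ⟨u, u0, rfl⟩ : ∃ u : Qbar, u ≠ 0 ∧ x = u + u⁻¹ := by
    obtain ⟨d, hd⟩ := IsAlgClosed.exists_pow_nat_eq (x ^ 2 - 4) two_pos
    have h1 : (x + d) / 2 * ((x - d) / 2) = 1 := by linear_combination (-1 / 4 : Qbar) * hd
    refine ⟨(x + d) / 2, left_ne_zero_of_mul_eq_one h1, ?_⟩
    rw [← eq_inv_of_mul_eq_one_right h1]
    ring
  refine ⟨u, ?_, rfl⟩
  rw [← dickson_one_one_eq_chebyshev_C, dickson_one_one_eval_add_inv _ _ (mul_inv_cancel₀ u0),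
    inv_pow, map_add, map_inv₀] at h
  have un : u ^ p ^ k ≠ 0 := pow_ne_zero _ u0
  rcases omega_two un ((_root_.map_ne_zero _).2 un) h with e | e
  · exact omega_cheb hp h3 sa ha sb hL u0 hx hs hω hy e
  · refine omega_cheb (s := s ^ 2) (k := k) hp h3 (omega_fix s sa 2) ha (omega_fix s sb 2)
      (omega_mem s hL 2) u0 (fun h1 => hx ?_) ?_ hω hy ?_
    · obtain ⟨m, hm⟩ := hp.odd_of_ne_two (by omega)
      have h2 := omega_fix _ h1 m
      rw [hm, pow_succ', AlgEquiv.mul_apply, pow_mul, h2] at hs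
      exact hs
    · rw [← pow_mul, mul_comm, pow_mul]
      exact omega_fix _ hs 2
    · rw [sq, AlgEquiv.mul_apply, e, map_inv₀, e, inv_inv]

end Pool.Agent.P.MP_8d2e9f_nt.AO
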