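import Pool.Agent.P.MP_8d2e9f_nt.AO.IfaceB

/-! Step PF. -/

set_option autoImplicit false

namespace Pool.Agent.P.MP_8d2e9f_nt.AO

open Polynomial NumberField Pool.Agent.P.MP_8d2e9f_nt.G
open scoped IntermediateField

theorem pf_mono {L ι : Type} [Field L] [Fintype ι] (u : AbsoluteValue L ℝ) (y : ι → L)
    {m D : ι → ℕ} (h : ∀ i, m i ≤ D i) : u (∏ i, y i ^ m i) ≤ ∏ i, max (u (y i)) 1 ^ D i := by
  rw [map_prod]
  refine Finset.prod_le_prod (fun i _ => u.nonneg _) fun i _ => ?_
  rw [map_pow]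
  exact (pow_le_pow_left₀ (u.nonneg _) (le_max_left _ _) _).trans
    (pow_le_pow_right₀ (le_max_right _ _) (h i))

theorem pf_fin {L : Type} [Field L] [NumberField L] (y : L) :
    (Function.mulSupport fun u : FinitePlace L => max (u y) 1).Finite := by
  rcases eq_or_ne y 0 with rfl | h
  · simp
  · refine (FinitePlace.hasFiniteMulSupport h).subset fun u hu e => hu ?_
    simp only [show u y = 1 from e, max_self]

theorem pf_core {L ι J : Type} [Field L] [NumberField L] [Fintype ι] [Fintype J] (y : ι → L)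
    (D : ι → ℕ) (a : J → ℤ) (m : J → ι → ℕ) (hm : ∀ t i, m t i ≤ D i) (w : L)
    (e : w = ∑ t, (a t : L) * ∏ i, y i ^ m t i) (hw : w ≠ 0) (U : Finset (FinitePlace L))
    (g : FinitePlace L → ℝ) (hU : ∀ u ∈ U, u w ≤ g u * ∏ i, max (u (y i)) 1 ^ D i) :
    1 ≤ (∑ t, |(a t : ℝ)|) ^ Module.finrank ℚ L * (∏ i, Height.mulHeight₁ (y i) ^ D i) *
      ∏ u ∈ U, g u := by
  classical
  have h1 : ∀ v : InfinitePlace L, v w ≤ (∑ t, |(a t : ℝ)|) * ∏ i, max (v (y i)) 1 ^ D i :=
    fun v => by
    rw [e, Finset.sum_mul]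
    refine (v.1.sum_le _ _).trans (Finset.sum_le_sum fun t _ => ?_)
    rw [map_mul]
    refine mul_le_mul (le_of_eq ?_) (pf_mono v.1 y (hm t)) (v.1.nonneg _) (abs_nonneg _)
    rw [← InfinitePlace.coe_apply, ← v.norm_embedding_eq, map_intCast, Complex.norm_intCast]
  have h2 : ∀ u : FinitePlace L, u w ≤ ∏ i, max (u (y i)) 1 ^ D i := fun u => by
    rw [e]
    refine Finset.sum_induction _ (fun z => u z ≤ ∏ i, max (u (y i)) 1 ^ D i)
      (fun a b ha hb => (u.add_le a b).trans (max_le ha hb))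
      ((map_zero u).le.trans (by positivity)) fun t _ => ?_
    rw [map_mul]
    exact (mul_le_of_le_one_left (apply_nonneg u _)
      (IsNonarchimedean.apply_intCast_le_one (f := u.1) u.add_le)).trans (pf_mono u.1 y (hm t))
  have hT : ((U : Set (FinitePlace L)) ∪ (Function.mulSupport fun u : FinitePlace L => u w) ∪
      ⋃ i, Function.mulSupport fun u : FinitePlace L => max (u (y i)) 1).Finite :=
    (U.finite_toSet.union (FinitePlace.hasFiniteMulSupport hw)).union
      (Set.finite_iUnion fun i => pf_fin (y i))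
  have s1 : U ⊆ hT.toFinset := fun u hu => hT.mem_toFinset.2 (.inl (.inl hu))
  have e1 := prod_abs_eq_one hw
  rw [finprod_eq_prod_of_mulSupport_subset (s := hT.toFinset) _ fun u hu =>
    hT.mem_toFinset.2 (.inl (.inr hu))] at e1
  have e2 : ∀ i, Height.mulHeight₁ (y i) = (∏ v : InfinitePlace L, max (v (y i)) 1 ^ v.mult) *
      ∏ u ∈ hT.toFinset, max (u (y i)) 1 := fun i => by
    rw [NumberField.mulHeight₁_eq, finprod_eq_prod_of_mulSupport_subset (s := hT.toFinset) _
      fun u hu => hT.mem_toFinset.2 (.inr (Set.mem_iUnion.2 ⟨i, hu⟩))]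
  have k1 : ∏ v : InfinitePlace L, v w ^ v.mult ≤ (∑ t, |(a t : ℝ)|) ^ Module.finrank ℚ L *
      ∏ i, (∏ v : InfinitePlace L, max (v (y i)) 1 ^ v.mult) ^ D i := by
    refine (Finset.prod_le_prod (fun v _ => pow_nonneg (apply_nonneg v w) _) fun v _ =>
      pow_le_pow_left₀ (apply_nonneg v w) (h1 v) _).trans_eq ?_
    simp only [mul_pow, Finset.prod_mul_distrib, ← Finset.prod_pow]
    rw [Finset.prod_pow_eq_pow_sum, InfinitePlace.sum_mult_eq, Finset.prod_comm]
    simp only [← pow_mul, mul_comm]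
  have k2 : ∏ u ∈ hT.toFinset, u w ≤
      (∏ i, (∏ u ∈ hT.toFinset, max (u (y i)) 1) ^ D i) * ∏ u ∈ U, g u := by
    refine (Finset.prod_le_prod (g := fun u => (if u ∈ U then g u else 1) *
      ∏ i, max (u (y i)) 1 ^ D i) (fun u _ => apply_nonneg u w) fun u _ => ?_).trans_eq ?_
    · split_ifs with k
      · exact hU u k
      · rw [one_mul]
        exact h2 u
    · simp only [← Finset.prod_pow]
      rw [Finset.prod_mul_distrib, Finset.prod_ite_mem, Finset.inter_eq_right.2 s1,
        Finset.prod_comm, mul_comm]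
  refine (e1.ge.trans (mul_le_mul k1 k2 (Finset.prod_nonneg fun u _ => apply_nonneg u w)
    (by positivity))).trans_eq ?_
  simp only [e2, mul_pow, Finset.prod_mul_distrib]
  ring

theorem p_PF (hLINK : S_LINK) :
    S_PF := by
  intro K p _ j ι J _ _ x D a m δ hK hm hw hδ h
  have hG : IsGalois K Qbar := IsGalois.tower_top_of_isGalois ℚ K Qbar
  let L : IntermediateField K Qbar := FiniteGaloisIntermediateField.adjoin K (Set.range x)
  have hx : ∀ i, x i ∈ L := fun i =>
    FiniteGaloisIntermediateField.subset_adjoin K (Set.range x) ⟨i, rfl⟩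
  have f1 : FiniteDimensional K L := inferInstance
  have f2 : IsGalois K L := inferInstance
  have f3 : NumberField L := NumberField.of_module_finite K L
  obtain ⟨U, hU, hp⟩ := hLINK K L p j hK f2
  have p1 : (1 : ℝ) < p := by exact_mod_cast (Fact.out : p.Prime).one_lt
  have p2 : (0 : ℝ) < (p : ℝ)⁻¹ := by positivity
  have p3 : (p : ℝ)⁻¹ < 1 := inv_lt_one_of_one_lt₀ p1
  have d0 : 0 < δ := by
    have k := (norm_pos_iff.2 ((map_ne_zero j).2 ((map_ne_zero (1 : GK K)).2 hw))).trans_le (h 1)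
    exact (mul_pos_iff_of_pos_right (by positivity)).1 k
  have g0 : 0 ≤ Real.logb (p : ℝ)⁻¹ δ := Real.logb_nonneg_of_base_lt_one p2 p3 d0 hδ
  have g1 : (p : ℝ)⁻¹ ^ Real.logb (p : ℝ)⁻¹ δ = δ := Real.rpow_logb p2 p3.ne d0
  generalize Real.logb (p : ℝ)⁻¹ δ = γ at g0 g1
  let y : ι → L := fun i => ⟨x i, hx i⟩
  have ew : ((∑ t, (a t : L) * ∏ i, y i ^ m t i : L) : Qbar) =
      ∑ t, (a t : Qbar) * ∏ i, x i ^ m t i := by
    have := map_sum L.val (fun t => (a t : L) * ∏ i, y i ^ m t i) Finset.univ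
    simp only [map_mul, map_intCast, map_prod, map_pow] at this
    exact this
  have k := pf_core y D a m hm _ rfl (fun e => hw (by rw [← ew, e]; rfl)) U
    (fun u => u (p : L) ^ γ) fun u hu => by
      obtain ⟨σ, t, t0, ht⟩ := hU u hu
      have q : ‖j (σ ((p : L) : Qbar))‖ = (p : ℝ)⁻¹ := by
        rw [show ((p : L) : Qbar) = p from map_natCast L.val p, map_natCast, map_natCast,
          ← map_natCast (algebraMap ℚ_[p] (Om p)), norm_algebraMap', Padic.norm_p]
      simp only [ht]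
      rw [ew, q]
      refine (Real.rpow_le_rpow (norm_nonneg _) (h σ) t0.le).trans_eq ?_
      rw [Real.mul_rpow d0.le (by positivity), ← g1, ← Real.rpow_mul p2.le, ← Real.rpow_mul p2.le,
        mul_comm γ t, ← Real.finsetProd_rpow _ _ (fun i _ => by positivity)]
      congr 1
      refine Finset.prod_congr rfl fun i _ => ?_
      rw [← Real.rpow_natCast, ← Real.rpow_natCast, ← Real.rpow_mul (by positivity), mul_comm,
        Real.rpow_mul (by positivity), Real.rpow_max zero_le_one (norm_nonneg _) t0.le,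
        Real.one_rpow, max_comm]
  have n0 : Module.finrank ℚ L ≠ 0 := Module.finrank_pos.ne'
  have eh : ∀ i, Height.mulHeight₁ (y i) = Real.exp (wh (x i)) ^ Module.finrank ℚ L := fun i => by
    have : FiniteDimensional ℚ (L.restrictScalars ℚ) := inferInstanceAs (FiniteDimensional ℚ L)
    have e : wh (x i) = Height.logHeight₁ (y i) / Module.finrank ℚ L :=
      absLogHeight₁_eq (L.restrictScalars ℚ) (x i) (hx i)
    rw [← Real.exp_nat_mul, e, mul_div_cancel₀ _ (by exact_mod_cast n0),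
      Height.logHeight₁_eq_log_mulHeight₁, Real.exp_log (Height.mulHeight₁_pos _)]
  have e2 : ∏ i, Height.mulHeight₁ (y i) ^ D i =
      Real.exp (∑ i, D i * wh (x i)) ^ Module.finrank ℚ L := by
    rw [Real.exp_sum, ← Finset.prod_pow]
    refine Finset.prod_congr rfl fun i _ => ?_
    rw [eh, Real.exp_nat_mul, ← pow_mul, ← pow_mul, mul_comm]
  have u0 : 0 ≤ ∏ u ∈ U, u (p : L) := Finset.prod_nonneg fun u _ => apply_nonneg u _
  have e3 : (∏ u ∈ U, u (p : L) ^ γ) ^ Module.finrank ℚ K ≤ δ ^ Module.finrank ℚ L := by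
    rw [Real.finsetProd_rpow _ _ (fun u _ => apply_nonneg u _), ← g1, ← Real.rpow_natCast,
      ← Real.rpow_natCast, ← Real.rpow_mul u0, ← Real.rpow_mul p2.le, mul_comm γ, mul_comm γ,
      Real.rpow_mul u0, Real.rpow_mul p2.le, Real.rpow_natCast, Real.rpow_natCast]
    exact Real.rpow_le_rpow (pow_nonneg u0 _) hp g0
  rw [e2, ← mul_pow] at k
  refine (one_le_pow_iff_of_nonneg (by positivity) n0).1
    ((one_le_pow₀ (n := Module.finrank ℚ K) k).trans ?_)
  rw [mul_pow, mul_pow _ δ, ← pow_mul, ← pow_mul, mul_comm (Module.finrank ℚ L)]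
  exact mul_le_mul_of_nonneg_left e3 (by positivity)

end Pool.Agent.P.MP_8d2e9f_nt.AO
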