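import Pool.Agent.P.MP_8d2e9f_nt.AO.IfaceB
import Pool.Agent.P.MP_8d2e9f_nt.AO.Fin
import Pool.Agent.P.MP_8d2e9f_nt.AO.TBASE

/-! Step TOR. -/

set_option autoImplicit false

namespace Pool.Agent.P.MP_8d2e9f_nt.AO

open Polynomial NumberField Pool.Agent.P.MP_8d2e9f_nt.G
open scoped IntermediateField

lemma tor_back {T : Type} {g : T → T} {P : T → Prop} (h1 : ∀ z ∈ Function.periodicPts g, P z)
    (h2 : ∀ z, P (g z) → P z) {z : T} (hz : (Set.range fun n : ℕ => g^[n] z).Finite) : P z := by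
  have key : ∀ (n : ℕ) (x : T), P (g^[n] x) → P x := fun n => by
    induction n with
    | zero => exact fun _ h => h
    | succ n ih => exact fun x h => h2 x (ih _ h)
  obtain ⟨m, -, n, -, hmn, e⟩ := Set.infinite_univ.exists_lt_map_eq_of_mapsTo
    (f := fun n : ℕ => g^[n] z) (fun n _ => Set.mem_range_self n) hz
  refine key m z (h1 _ ⟨n - m, Nat.sub_pos_of_lt hmn, ?_⟩)
  rw [Function.IsPeriodicPt, Function.IsFixedPt, ← Function.iterate_add_apply,
    Nat.sub_add_cancel hmn.le]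
  exact e.symm

lemma tor_ch {f : Qbar[X]} {a b ε z : Qbar} {d : ℕ} (ha : a ≠ 0) (hd : d ≠ 0) (hε : ε * ε = 1)
    (h : LinConj f a b (C ε * Chebyshev.C Qbar d)) (hz : ChebPt a b (f.eval z)) :
    ChebPt a b z := by
  obtain ⟨s, hs, e⟩ := hz
  have h1 := congrArg (eval ((z - b) / a)) h
  simp only [eval_comp, eval_add, eval_mul, eval_C, eval_X] at h1
  rw [mul_div_cancel₀ _ ha, sub_add_cancel, e, add_left_inj, mul_right_inj' ha] at h1
  obtain ⟨t, -, h2, h3⟩ := base_step hε hs.isUnit.ne_zero h1.symm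
  refine ⟨t, ?_, by rw [h2, mul_div_cancel₀ _ ha, sub_add_cancel]⟩
  exact ((h3 ▸ hs.pow : IsOfFinOrder ((t ^ 2) ^ d)).of_pow hd).of_pow two_ne_zero

theorem p_TOR (hCANB : S_CANB) :
    S_TOR := by
  intro K f h a b hd hc ⟨ha, _, hs⟩
  have d0 : f.natDegree ≠ 0 := by omega
  have fin := fun z => ((hCANB.1 f h hd hc).2.1 z).1
  refine hs.imp (fun h1 z hz => tor_back (fun x hx => fin_pow ha hd h1 hx) (fun x hx => ?_)
    (fin z hz)) fun h1 z hz => tor_back (fun x hx => fin_ch ha hd h1.2 hx) (fun x hx => ?_)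
      (fin z hz)
  · have h2 := congrArg (eval ((x - b) / a)) h1
    simp only [eval_comp, eval_add, eval_mul, eval_C, eval_X, eval_pow] at h2
    rw [mul_div_cancel₀ _ ha, sub_add_cancel] at h2
    have h3 : x = a * ((x - b) / a) + b := by rw [mul_div_cancel₀ _ ha, sub_add_cancel]
    rcases hx with hx | ⟨s, hs, hx⟩
    · rw [h2, add_eq_right, mul_eq_zero, or_iff_right ha, pow_eq_zero_iff d0] at hx
      exact Or.inl (by rw [h3, hx, mul_zero, zero_add])
    · rw [h2, add_left_inj, mul_right_inj' ha] at hx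
      exact Or.inr ⟨_, (hx ▸ hs : IsOfFinOrder (((x - b) / a) ^ f.natDegree)).of_pow d0, h3⟩
  · rcases h1.2 with h2 | h2
    · exact tor_ch (ε := 1) ha d0 (one_mul 1) (by simpa using h2) hx
    · exact tor_ch (ε := -1) ha d0 (by simp) (by simpa using h2) hx

end Pool.Agent.P.MP_8d2e9f_nt.AO
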