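import Pool.Agent.P.MP_8d2e9f_nt.AO.IfaceB
import Pool.Agent.P.MP_8d2e9f_nt.AO.THASP

/-! Step USB. -/

set_option autoImplicit false

namespace Pool.Agent.P.MP_8d2e9f_nt.AO

open Polynomial NumberField Pool.Agent.P.MP_8d2e9f_nt.G
open scoped IntermediateField

lemma usb_deg (f : Qbar[X]) : ratDegree (algebraMap Qbar[X] (RatFunc Qbar) f) = f.natDegree := by
  simp [ratDegree, RatFunc.num_algebraMap, RatFunc.denom_algebraMap]

lemma usb_some (f : Qbar[X]) (x : Qbar) :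
    ratMap (algebraMap Qbar[X] (RatFunc Qbar) f) (some x) = some (f.eval x) := by
  simp [ratMap, RatFunc.num_algebraMap, RatFunc.denom_algebraMap]

lemma usb_none {f : Qbar[X]} (hd : 0 < f.natDegree) :
    ratMap (algebraMap Qbar[X] (RatFunc Qbar) f) none = none := by
  simp [ratMap, RatFunc.num_algebraMap, RatFunc.denom_algebraMap, hd.ne']

lemma usb_iter (f : Qbar[X]) (n : ℕ) (x : Qbar) :
    (ratMap (algebraMap Qbar[X] (RatFunc Qbar) f))^[n] (some x) =
      some ((fun y => f.eval y)^[n] x) := by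
  induction n generalizing x with
  | zero => rfl
  | succ n ih => rw [Function.iterate_succ_apply, Function.iterate_succ_apply, usb_some, ih]

lemma usb_pre (f : Qbar[X]) (x : Qbar) :
    some x ∈ PrePer (algebraMap Qbar[X] (RatFunc Qbar) f) ↔
      (Set.range fun n : ℕ => (fun y => f.eval y)^[n] x).Finite := by
  have e : (Set.range fun n : ℕ => (ratMap (algebraMap Qbar[X] (RatFunc Qbar) f))^[n] (some x)) =
      some '' Set.range fun n : ℕ => (fun y => f.eval y)^[n] x := by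
    rw [← Set.range_comp]
    exact congrArg _ (funext fun n => usb_iter f n x)
  change Set.Finite _ ↔ _
  rw [e, Set.finite_image_iff (Option.some_injective _).injOn]

theorem p_USB (hABG : S_ABG) (hEXC : S_EXC) (hCANB : S_CANB) (hFORMB : S_FORMB) (hDESC : S_DESC) (hEXG : S_EXG) (hTOR : S_TOR) :
    S_USB := by
  intro K L hK hL hc f hd H ⟨h1, C, h2⟩
  have hcan : Can f fun z => H (some z) :=
    ⟨fun z => by simp only [← usb_some, h1, usb_deg], C, fun z => h2 _⟩
  obtain ⟨c0, c1, -⟩ := hCANB.1 f _ hd hcan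
  obtain ⟨ε, ε0, hfin⟩ : ∃ ε : ℝ, 0 < ε ∧ {z ∈ L | H (some z) < ε}.Finite := by
    by_contra hn
    have lots : Lots (fun z => H (some z)) L := fun ε ε0 h => hn ⟨ε, ε0, h⟩
    obtain ⟨K', fd, le, -, hco⟩ := hasp_field K ⊤ hK f fun _ => trivial
    obtain ⟨f₀, rfl⟩ : ∃ f₀ : K'[X], f₀.map (algebraMap K' Qbar) = f :=
      (mem_lifts _).1 ((lifts_iff_coeff_lifts _).2 fun i => ⟨⟨_, hco i⟩, rfl⟩)
    have hd₀ : 2 ≤ f₀.natDegree := by rwa [natDegree_map] at hd
    obtain ⟨a, b, hs⟩ := hEXC K' f₀ fd hd₀ (hFORMB K' f₀ _ fd hd₀ hcan fun ε ε0 =>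
      (lots ε ε0).mono fun z hz =>
        ⟨(hABG K).2.2.1 K' le z ((hABG K).2.2.2.1 L hL z hz.1).1, hz.2⟩)
    obtain ⟨ε, ε0, hg⟩ := hEXG K K' L _ _ a b hK fd hL hc hd hcan hs
    refine hDESC L.toSubfield a b hs.1 ?_ hc
    exact (hTOR K' _ _ a b hd hcan hs).imp
      (fun h => (lots ε ε0).mono fun z hz => ⟨hz.1, h z (hg z hz.1 hz.2)⟩)
      fun h => (lots ε ε0).mono fun z hz => ⟨hz.1, h z (hg z hz.1 hz.2)⟩
  have hn : none ∈ PrePer (algebraMap Qbar[X] (RatFunc Qbar) f) :=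
    (Set.finite_singleton none).subset (by
      rintro _ ⟨n, rfl⟩
      exact Function.iterate_fixed (usb_none (by omega)) n)
  refine ⟨?_, ((hfin.image some).insert none).subset ?_⟩
  · obtain ⟨c, hc0, hc1⟩ : ∃ c : ℝ, 0 < c ∧ ∀ z ∈ {z ∈ L | H (some z) < ε},
        0 < H (some z) → c ≤ H (some z) := by
      refine hfin.induction_on _ ⟨1, one_pos, fun _ h => h.elim⟩ ?_
      rintro x s - - ⟨c, hc0, hc1⟩
      by_cases hx : 0 < H (some x)
      · refine ⟨min c (H (some x)), lt_min hc0 hx, ?_⟩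
        rintro z (rfl | hz) h
        · exact min_le_right _ _
        · exact (min_le_left _ _).trans (hc1 z hz h)
      · refine ⟨c, hc0, ?_⟩
        rintro z (rfl | hz) h
        · exact (hx h).elim
        · exact hc1 z hz h
    refine ⟨min c ε, lt_min hc0 ε0, ?_⟩
    rintro _ (rfl | ⟨z, hz, rfl⟩) hp
    · exact (hp hn).elim
    · by_cases h : H (some z) < ε
      · exact (min_le_left _ _).trans (hc1 z ⟨hz, h⟩ ((c0 z).lt_of_ne fun e =>
          hp ((usb_pre f z).2 ((c1 z).1 e.symm))))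
      · exact (min_le_right _ _).trans (not_lt.1 h)
  · rintro _ ⟨rfl | ⟨z, hz, rfl⟩, hp⟩
    · exact Or.inl rfl
    · exact Or.inr ⟨z, ⟨hz, ((c1 z).2 ((usb_pre f z).1 hp)).trans_lt ε0⟩, rfl⟩

end Pool.Agent.P.MP_8d2e9f_nt.AO
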