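import Pool.Agent.P.MP_8d2e9f_nt.AO.IfaceB
import Pool.Agent.P.MP_8d2e9f_nt.G.All

/-! Step WH. -/

set_option autoImplicit false

namespace Pool.Agent.P.MP_8d2e9f_nt.AO

open Polynomial NumberField Pool.Agent.P.MP_8d2e9f_nt.G
open scoped IntermediateField

theorem wh_equiv {K L : Type} [Field K] [NumberField K] [Field L] [NumberField L] (e : K ≃ₐ[ℚ] L)
    (x : K) : Height.logHeight₁ (e x) = Height.logHeight₁ x := by
  let _ : Algebra K L := (e : K →+* L).toAlgebra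
  have h1 : Module.finrank ℚ K * Module.finrank K L = Module.finrank ℚ L :=
    Module.finrank_mul_finrank ℚ K L
  rw [← e.toLinearEquiv.finrank_eq, mul_eq_left₀ Module.finrank_pos.ne'] at h1
  have h2 := mulHeight₁_algebraMap (L := L) x
  rw [h1, pow_one] at h2
  rw [Height.logHeight₁_eq_log_mulHeight₁, Height.logHeight₁_eq_log_mulHeight₁, ← h2]
  rfl

theorem wh_hom (σ : Qbar →ₐ[ℚ] Qbar) (z : Qbar) : wh (σ z) = wh z := by
  have f1 : Fd ℚ⟮z⟯ := IntermediateField.adjoin.finiteDimensional (int_Q z)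
  have e := (ℚ⟮z⟯.equivMap σ).toLinearEquiv
  have f2 : Fd (ℚ⟮z⟯.map σ) := e.finiteDimensional
  have hz := IntermediateField.mem_adjoin_simple_self ℚ z
  change absLogHeight₁ (σ z) = absLogHeight₁ z
  rw [absLogHeight₁_eq ℚ⟮z⟯ z hz, absLogHeight₁_eq (ℚ⟮z⟯.map σ) (σ z) ⟨z, hz, rfl⟩, e.finrank_eq,
    ← wh_equiv (ℚ⟮z⟯.equivMap σ)]
  rfl

theorem wh_poly (g : Qbar[X]) (hg : 0 < g.natDegree) : ∃ C : ℝ, ∀ x,
    |weilHeight (ratMap (algebraMap Qbar[X] (RatFunc Qbar) g) x) - g.natDegree * weilHeight x| ≤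
      C :=
  all_HGT _ _ hg ((main_poly g).1 ▸ all_RF ⊤ _ fun _ => ⟨trivial, trivial⟩)

theorem p_WH :
    S_WH := by
  refine ⟨fun K σ z => wh_hom (σ.restrictScalars ℚ) z, fun g hg => ?_, fun z => ?_,
    fun K B hK => ?_, fun f hf => ?_⟩
  · obtain ⟨C, h⟩ := wh_poly g hg
    exact ⟨C, fun z => by simpa only [(main_poly g).2, wh] using h (some z)⟩
  · have f1 : Fd ℚ⟮z⟯ := IntermediateField.adjoin.finiteDimensional (int_Q z)
    change 0 ≤ absLogHeight₁ z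
    rw [absLogHeight₁_eq ℚ⟮z⟯ z (IntermediateField.mem_adjoin_simple_self ℚ z)]
    exact div_nonneg (Height.zero_le_logHeight₁ _) (Nat.cast_nonneg _)
  · exact ((all_NOR K B hK).preimage (Option.some_injective _).injOn).subset
      fun z hz => ⟨some_mem_pts.2 hz.1, hz.2⟩
  · obtain ⟨C, h⟩ := wh_poly f (by omega)
    obtain ⟨H, h1, h2⟩ := all_CAN _ _ _ _ C hf h
    exact ⟨H, (main_poly f).1.symm ▸ h1, C, h2⟩

end Pool.Agent.P.MP_8d2e9f_nt.AO
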