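import Pool.Agent.P.MP_8d2e9f_nt.AO.All
import Pool.Agent.P.MP_8d2e9f_nt.AO.TWH
import Pool.Agent.P.MP_8d2e9f_nt.AO.TCANB
import Pool.Agent.P.MP_8d2e9f_nt.AO.TLINK
import Pool.Agent.P.MP_8d2e9f_nt.AO.TPF
import Pool.Agent.P.MP_8d2e9f_nt.AO.TGOOD
import Pool.Agent.P.MP_8d2e9f_nt.AO.TBASB
import Pool.Agent.P.MP_8d2e9f_nt.AO.TAUXA
import Pool.Agent.P.MP_8d2e9f_nt.AO.TAUXB
import Pool.Agent.P.MP_8d2e9f_nt.AO.TGAPG
import Pool.Agent.P.MP_8d2e9f_nt.AO.TREDB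
import Pool.Agent.P.MP_8d2e9f_nt.AO.TCURVF
import Pool.Agent.P.MP_8d2e9f_nt.AO.TCURVB
import Pool.Agent.P.MP_8d2e9f_nt.AO.TDICH
import Pool.Agent.P.MP_8d2e9f_nt.AO.TACT
import Pool.Agent.P.MP_8d2e9f_nt.AO.TLOCA
import Pool.Agent.P.MP_8d2e9f_nt.AO.TCOLL
import Pool.Agent.P.MP_8d2e9f_nt.AO.TLOCB
import Pool.Agent.P.MP_8d2e9f_nt.AO.TFORMB
import Pool.Agent.P.MP_8d2e9f_nt.AO.TAMP
import Pool.Agent.P.MP_8d2e9f_nt.AO.TOMEGA
import Pool.Agent.P.MP_8d2e9f_nt.AO.TDESC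
import Pool.Agent.P.MP_8d2e9f_nt.AO.TEXG
import Pool.Agent.P.MP_8d2e9f_nt.AO.TTOR
import Pool.Agent.P.MP_8d2e9f_nt.AO.TUSB
import Pool.Agent.P.MP_8d2e9f_nt.AO.TNUSB

/-! All steps for small points together. -/

namespace Pool.Agent.P.MP_8d2e9f_nt.AO

theorem all_WH : S_WH := p_WH
theorem all_CANB : S_CANB := p_CANB all_WH
theorem all_LINK : S_LINK := p_LINK
theorem all_PF : S_PF := p_PF all_LINK
theorem all_GOOD : S_GOOD := p_GOOD
theorem all_BASB : S_BASB := p_BASB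
theorem all_AUXA : S_AUXA := p_AUXA all_PH all_NUM all_CANB all_PF all_GOOD all_BASB
theorem all_AUXB : S_AUXB := p_AUXB all_PH all_NUM all_CANB all_PF all_GOOD all_BASB
theorem all_GAPG : S_GAPG := p_GAPG all_AUXA
theorem all_REDB : S_REDB := p_REDB all_GAPG
theorem all_CURVF : S_CURVF := p_CURVF all_DX
theorem all_CURVB : S_CURVB := p_CURVB all_CURVF
theorem all_DICH : S_DICH := p_DICH all_ABG all_RAM
theorem all_ACT : S_ACT := p_ACT all_ABG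
theorem all_LOCA : S_LOCA := p_LOCA all_CRV all_ABG all_PRIM all_INV all_CANB all_AUXB all_REDB all_CURVB all_ACT
theorem all_COLL : S_COLL := p_COLL all_ABG all_GAPG all_ACT
theorem all_LOCB : S_LOCB := p_LOCB all_CRV all_ABG all_PRIM all_INVW all_CANB all_AUXB all_REDB all_CURVB all_ACT all_COLL
theorem all_FORMB : S_FORMB := p_FORMB all_FROB all_DICH all_LOCA all_LOCB
theorem all_AMP : S_AMP := p_AMP all_ABG all_WH all_PF all_ACT
theorem all_OMEGA : S_OMEGA := p_OMEGA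
theorem all_DESC : S_DESC := p_DESC
theorem all_EXG : S_EXG := p_EXG all_ABG all_PLACE all_FROB all_CANB all_DICH all_AMP all_OMEGA
theorem all_TOR : S_TOR := p_TOR all_CANB
theorem all_USB : S_USB := p_USB all_ABG all_EXC all_CANB all_FORMB all_DESC all_EXG all_TOR
theorem all_NUSB : S_NUSB := p_NUSB all_WH

end Pool.Agent.P.MP_8d2e9f_nt.AO
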