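import Pool.Agent.P.MP_8d2e9f_nt.AO.IfaceC
import Pool.Agent.P.MP_8d2e9f_nt.G.All

/-! The three properties are equivalent. -/

set_option autoImplicit false

namespace Pool.Agent.P.MP_8d2e9f_nt.AO

open Polynomial Pool.Agent.P.MP_8d2e9f_nt.G

theorem finc_main (hCANH : S_CANH) (hCOMPO : S_COMPO) (hMAING : S_MAING) (hRMF : S_RMF)
    (hRFIN : S_RFIN) (hUSBR : S_USBR) (K : IntermediateField ℚ Qbar) (hK : FiniteDimensional ℚ K)
    (L : IntermediateField K Qbar) (hL : IsAbelianGalois K L) :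
    List.TFAE [∀ E : IntermediateField L Qbar, FiniteDimensional L E → PropertyR E.toSubfield,
      ∀ E : IntermediateField L Qbar, FiniteDimensional L E → ∀ f : RatFunc Qbar,
        2 ≤ ratDegree f → (pointsOver E.toSubfield ∩ PrePer f).Finite,
      ∀ E : IntermediateField L Qbar, FiniteDimensional L E → PropertyUSB E.toSubfield] := by
  obtain ⟨c1, c2, c3⟩ := hCOMPO.2.2 K L
  have rf : ∀ f : RatFunc Qbar, RM ⊤ (ratDegree f) (ratMap f) := fun f =>
    all_RF ⊤ f fun _ => ⟨trivial, trivial⟩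
  tfae_have 1 → 2 := fun h E hE f hf => by
    obtain ⟨K', h1, h2⟩ := c2 E hE
    rw [h2]
    refine hRFIN _ (fun K'' h3 => ?_) K' _ _ h1 hf (rf f)
    obtain ⟨E', h4, h5⟩ := c3 K'' h3
    exact h5 ▸ h E' h4
  tfae_have 2 → 3 := fun h E hE f hf H hH => by
    have hF : FinAll (L.restrictScalars ℚ) := fun K' d φ h1 hd hφ => by
      obtain ⟨E', h4, h5⟩ := c3 K' h1
      obtain ⟨g, -, rfl, rfl⟩ := hRMF ⊤ d φ (by omega) hφ
      have := h E' h4 g hd
      rwa [h5] at this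
    obtain ⟨K', h1, h2⟩ := c2 E hE
    obtain ⟨c, hc, h3⟩ := hMAING K _ _ _ hK (c1 hL) hF hf (rf f) H hH K' h1
    obtain ⟨k1, k2, -⟩ := (hCANH _ _ hf (rf f)).2 H hH
    refine ⟨⟨c, hc, fun α hα hp => h3 α ?_ ((k1 α).lt_of_ne fun e => hp ((k2 α).1 e.symm))⟩,
      h E hE f hf⟩
    rwa [h2] at hα
  tfae_have 3 → 1 := fun h E hE => hUSBR _ (h E hE)
  tfae_finish

end Pool.Agent.P.MP_8d2e9f_nt.AO
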