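import Pool.Agent.P.MP_8d2e9f_nt.AO.Iface

/-! Step APPR. -/

set_option autoImplicit false

namespace Pool.Agent.P.MP_8d2e9f_nt.AO

open Polynomial NumberField Pool.Agent.P.MP_8d2e9f_nt.G
open scoped IntermediateField

theorem appr_prim (hPRIM : S_PRIM) {p : ℕ} [Fact p.Prime] {a : ℚ_[p][X]} (ha : a ≠ 0) :
    ∃ (c : ℚ_[p]) (a₀ : ℤ_[p][X]), c ≠ 0 ∧ a = C c * a₀.map (zq p) ∧ a₀.map (zr p) ≠ 0 := by
  obtain ⟨c, A₀, hc, h1, h2⟩ := hPRIM p (C a) (C_ne_zero.2 ha)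
  have h3 : ∀ i, (C a).coeff i = C c * (A₀.coeff i).map (zq p) := fun i => by
    rw [h1, coeff_C_mul, coeff_map, coe_mapRingHom]
  refine ⟨c, A₀.coeff 0, hc, by simpa using h3 0, fun h => h2 ?_⟩
  ext1 i
  rw [coeff_map, coe_mapRingHom, coeff_zero]
  rcases i with _ | i
  · exact h
  · have h4 := h3 (i + 1)
    rw [coeff_C_succ, eq_comm, mul_eq_zero, C_eq_zero, or_iff_right hc,
      Polynomial.map_eq_zero_iff (IsFractionRing.injective ℤ_[p] ℚ_[p])] at h4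
    rw [h4, Polynomial.map_zero]

theorem appr_core {F : Type} [NormedField F] [IsUltrametricDist F] (σ : F →+* F)
    (hσ : ∀ x, ‖σ x‖ = ‖x‖) {H u α β γ : F} (hα : ‖α‖ = 1) (hβ : ‖β‖ = 1) (hγ : ‖γ‖ ≤ 1)
    (h1 : ‖H - α / β‖ < ‖H‖) (h2 : σ H = H * u) (h3 : ‖u - γ‖ < 1) :
    ‖σ α * β - α * σ β * γ‖ < 1 := by
  have hβ0 : β ≠ 0 := norm_ne_zero_iff.1 (by rw [hβ]; exact one_ne_zero)
  have hβ1 : σ β ≠ 0 := (map_ne_zero σ).2 hβ0
  have hH : ‖H‖ ≤ 1 := by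
    have := IsUltrametricDist.norm_add_le_max (H - α / β) (α / β)
    rw [sub_add_cancel, norm_div, hα, hβ, div_one] at this
    exact (le_max_iff.1 this).resolve_left h1.not_ge
  have k1 : ‖H - α / β‖ < 1 := h1.trans_le hH
  have k2 : ‖σ α / σ β - H * u‖ < 1 := by
    rw [← h2, ← map_div₀, ← map_sub, hσ, norm_sub_rev]; exact k1
  have k3 : ‖H * (u - γ)‖ < 1 := by
    rw [norm_mul]; exact mul_lt_one_of_nonneg_of_lt_one_right hH (norm_nonneg _) h3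
  have k4 : ‖(H - α / β) * γ‖ < 1 := by
    rw [norm_mul]; exact mul_lt_one_of_nonneg_of_lt_one_left (norm_nonneg _) k1 hγ
  have e : σ α * β - α * σ β * γ =
      (σ α / σ β - H * u + H * (u - γ) + (H - α / β) * γ) * (β * σ β) := by
    field_simp
    ring
  rw [e, norm_mul, norm_mul, hσ, hβ, mul_one, mul_one]
  exact (IsUltrametricDist.norm_add_le_max _ _).trans_lt
    (max_lt ((IsUltrametricDist.norm_add_le_max _ _).trans_lt (max_lt k2 k3)) k4)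

theorem p_APPR (hPRIM : S_PRIM) :
    S_APPR := by
  intro p _ f g F _ _ e σ Γ H u ⟨hinj, _, hint, hσ, hσe, _, happ⟩ hH hΓ hu hg
  obtain ⟨a, b, hb, hab⟩ := happ H hH hΓ
  have ha : a ≠ 0 := by
    rintro rfl
    simp at hab
  obtain ⟨c₁, a₀, hc₁, rfl, ha₀⟩ := appr_prim hPRIM ha
  obtain ⟨c₂, b₀, hc₂, rfl, hb₀⟩ := appr_prim hPRIM hb
  have one : ∀ q : ℤ_[p][X], q.map (zr p) ≠ 0 → ‖e (q.map (zq p))‖ = 1 := fun q hq =>
    le_antisymm (hint q).1 (not_lt.1 fun h => hq ((hint q).2.1 h))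
  have ne : ∀ c : ℚ_[p], c ≠ 0 → e (C c) ≠ 0 := fun c hc =>
    (map_ne_zero_iff e hinj).2 (C_ne_zero.2 hc)
  have fix : ∀ c : ℚ_[p], σ (e (C c)) = e (C c) := fun c => by rw [hσe, C_comp]
  have n₁ := ne c₁ hc₁
  have n₂ := ne c₂ hc₂
  have hc : e (C c₂) / e (C c₁) ≠ 0 := div_ne_zero n₂ n₁
  have key := appr_core σ hσ (H := e (C c₂) / e (C c₁) * H) (u := u) (one a₀ ha₀) (one b₀ hb₀)
    (hint g).1 (by
      have : e (C c₂) / e (C c₁) * H - e (a₀.map (zq p)) / e (b₀.map (zq p)) =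
          e (C c₂) / e (C c₁) *
            (H - e (C c₁ * a₀.map (zq p)) / e (C c₂ * b₀.map (zq p))) := by
        rw [map_mul, map_mul]
        field_simp
      rw [this, norm_mul, norm_mul]
      exact mul_lt_mul_of_pos_left hab (norm_pos_iff.2 hc))
    (by rw [map_mul, map_div₀, fix, fix, hu, mul_assoc]) hg
  refine ⟨a₀.map (zr p), b₀.map (zr p), ha₀, hb₀, ?_⟩
  have h0 := (hint (a₀.comp f * b₀ - a₀ * b₀.comp f * g)).2.1 (by
    simpa only [Polynomial.map_sub, Polynomial.map_mul, map_comp, map_sub, map_mul, ← hσe]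
      using key)
  simpa only [Polynomial.map_sub, Polynomial.map_mul, map_comp, sub_eq_zero] using h0

end Pool.Agent.P.MP_8d2e9f_nt.AO
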