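import Pool.Agent.P.MP_8d2e9f_nt.AO.IfaceC
import Pool.Agent.P.MP_8d2e9f_nt.AO.TAPPR

/-! Step APPRR. -/

set_option autoImplicit false

namespace Pool.Agent.P.MP_8d2e9f_nt.AO

open Polynomial NumberField Pool.Agent.P.MP_8d2e9f_nt.G
open scoped IntermediateField Classical

theorem p_APPRR (hPRIM : S_PRIM) (hPRN : S_PRN) (hGOODR : S_GOODR) :
    S_APPRR := by
  intro p _ d a b g₁ g₂ F _ _ e σ Γ H u hG ⟨hinj, _, hint, hσ, hσe, _, happ⟩ hH hΓ hu hg2 hg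
  obtain ⟨A, B, hb, hab⟩ := happ H hH hΓ
  have ha : A ≠ 0 := by
    rintro rfl
    simp at hab
  obtain ⟨c₁, a₀, hc₁, rfl, ha₀⟩ := appr_prim hPRIM ha
  obtain ⟨c₂, b₀, hc₂, rfl, hb₀⟩ := appr_prim hPRIM hb
  have one : ∀ q : ℤ_[p][X], q.map (zr p) ≠ 0 → ‖e (q.map (zq p))‖ = 1 := fun q hq =>
    le_antisymm (hint q).1 (not_lt.1 fun h => hq ((hint q).2.1 h))
  have ne : ∀ c : ℚ_[p], c ≠ 0 → e (C c) ≠ 0 := fun c hc =>
    (map_ne_zero_iff e hinj).2 (C_ne_zero.2 hc)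
  have fix : ∀ c : ℚ_[p], σ (e (C c)) = e (C c) := fun c => by rw [hσe, eval₂_C]; rfl
  have n₁ := ne c₁ hc₁
  have n₂ := ne c₂ hc₂
  have hc : e (C c₂) / e (C c₁) ≠ 0 := div_ne_zero n₂ n₁
  have b1 := one b (hPRN.1 _ d _ _ (hGOODR.1 p d a b hG).1).2.2.1
  have g1 := one g₂ hg2
  have b0 : e (b.map (zq p)) ≠ 0 := norm_ne_zero_iff.1 (by rw [b1]; exact one_ne_zero)
  have g0 : e (g₂.map (zq p)) ≠ 0 := norm_ne_zero_iff.1 (by rw [g1]; exact one_ne_zero)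
  have key := appr_core σ hσ (H := e (C c₂) / e (C c₁) * H) (u := u) (one a₀ ha₀) (one b₀ hb₀)
    (γ := e (g₁.map (zq p)) / e (g₂.map (zq p))) (by rw [norm_div, g1, div_one]; exact (hint g₁).1)
    (by
      have : e (C c₂) / e (C c₁) * H - e (a₀.map (zq p)) / e (b₀.map (zq p)) =
          e (C c₂) / e (C c₁) *
            (H - e (C c₁ * a₀.map (zq p)) / e (C c₂ * b₀.map (zq p))) := by
        rw [map_mul, map_mul]
        field_simp
      rw [this, norm_mul, norm_mul]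
      exact mul_lt_mul_of_pos_left hab (norm_pos_iff.2 hc))
    (by rw [map_mul, map_div₀, fix, fix, hu, mul_assoc]) hg
  have hee : ∀ g : ℚ_[p][X], g.eval₂ (e.comp C) (e X) = e g := fun g => by
    rw [← hom_eval₂, eval₂_C_X]
  have hh : ∀ (n : ℕ) (q : ℤ_[p][X]), q.natDegree ≤ n →
      e ((homg a b n q).map (zq p)) = e (b.map (zq p)) ^ n * σ (e (q.map (zq p))) := fun n q hq => by
    rw [homg_map, ← hee, homg_rv _ _ (by rwa [hee]) (natDegree_map_le.trans hq), hee, hσe, rv, hee,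
      hee]
  obtain ⟨n, h1, h2⟩ : ∃ n, a₀.natDegree ≤ n ∧ b₀.natDegree ≤ n :=
    ⟨_, le_max_left _ _, le_max_right _ _⟩
  refine ⟨a₀.map (zr p), b₀.map (zr p), n, ha₀, hb₀, natDegree_map_le.trans h1,
    natDegree_map_le.trans h2, ?_⟩
  have h0 := (hint (homg a b n a₀ * b₀ * g₂ - a₀ * homg a b n b₀ * g₁)).2.1 (by
    simp only [Polynomial.map_sub, Polynomial.map_mul, map_sub, map_mul, hh n a₀ h1, hh n b₀ h2]
    refine lt_of_eq_of_lt ?_ key
    rw [← mul_one ‖_ - _ * (_ / _)‖, ← g1, ← norm_mul, ← mul_one ‖_ * e (g₂.map (zq p))‖,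
      ← one_pow n, ← b1, ← norm_pow, ← norm_mul]
    congr 1
    field_simp)
  simpa only [Polynomial.map_sub, Polynomial.map_mul, homg_map, sub_eq_zero] using h0

end Pool.Agent.P.MP_8d2e9f_nt.AO
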