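import Pool.Agent.P.MP_8d2e9f_nt.AO.IfaceC

/-! Step AUXBR. -/

set_option autoImplicit false

namespace Pool.Agent.P.MP_8d2e9f_nt.AO

open Polynomial NumberField Pool.Agent.P.MP_8d2e9f_nt.G
open scoped IntermediateField Classical

lemma auxbr_iter {K : IF} (a b : K[X]) (σ : GK K) (n : ℕ) (z : Qbar) :
    σ ((rm a b)^[n] z) = (rm a b)^[n] (σ z) := by
  induction n with
  | zero => rfl
  | succ n ih => rw [Function.iterate_succ_apply', Function.iterate_succ_apply', ← ih, rm_gal]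

lemma auxbr_ne {K J : Type} [Field K] [CharZero K] [Fintype J] {B : J → K[X]}
    (hLI : LinearIndependent K B) {c : J × J → ℤ} (hc : c ≠ 0) :
    (∑ t, C (∑ s, C (c (s, t) : K) * B s) * (B t).map C : K[X][X]) ≠ 0 := fun e => by
  have h1 : ∀ (l : ℕ) (s : J), ∑ t, (c (s, t) : K) * (B t).coeff l = 0 := fun l => by
    refine Fintype.linearIndependent_iff.1 hLI (fun s => ∑ t, (c (s, t) : K) * (B t).coeff l) ?_
    have h2 := congrArg (fun A : K[X][X] => A.coeff l) e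
    simp only [finsetSum_coeff, coeff_C_mul, coeff_map, coeff_zero, Finset.sum_mul] at h2
    rw [← h2, Finset.sum_comm]
    refine Finset.sum_congr rfl fun s _ => ?_
    rw [Finset.sum_smul]
    refine Finset.sum_congr rfl fun t _ => ?_
    rw [smul_eq_C_mul, C_mul]
    ring
  refine hc (funext fun s => ?_)
  have h3 := Fintype.linearIndependent_iff.1 hLI (fun t => (c (s.1, t) : K)) (by
    ext l
    simpa only [finsetSum_coeff, coeff_smul, smul_eq_mul, coeff_zero] using h1 l s.1) s.2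
  exact_mod_cast h3

theorem p_AUXBR (hNUM : S_NUM) (hPF : S_PF) (hCANR : S_CANR) (hBASR : S_BASR) (hSIEG2 : S_SIEG2) :
    S_AUXBR := by
  intro K d a b h p _ φ j a₀ b₀ δ q P S hδ hσ hP hq
  have hd : 2 ≤ d := S.nrm.1
  have hp : (1 : ℝ) < p := by exact_mod_cast (Fact.out : p.Prime).one_lt
  have hp0 : (0 : ℝ) ≤ (p : ℝ)⁻¹ := by positivity
  obtain ⟨C₀, hC⟩ := S.can.2.2
  obtain ⟨-, -, hit⟩ := (hCANR K d a b S.nrm).1 h S.can
  have hC0 : 0 ≤ C₀ := (abs_nonneg _).trans (hC 0)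
  have hd1 : (1 : ℝ) ≤ d := by exact_mod_cast (by omega : 1 ≤ d)
  obtain ⟨ε, hε⟩ : ∃ ε, ε = max δ (p : ℝ)⁻¹ := ⟨_, rfl⟩
  have e0 : 0 ≤ ε := hε ▸ le_max_of_le_right hp0
  have e1 : ε < 1 := hε ▸ max_lt hδ (inv_lt_one_of_one_lt₀ hp)
  have e2 : δ ≤ ε := hε ▸ le_max_left _ _
  have e3 : (p : ℝ)⁻¹ ≤ ε := hε ▸ le_max_right _ _
  obtain ⟨k, M, h1, h2⟩ := hNUM p d (Module.finrank ℚ K) (2 * (q + 1))
    (Real.exp (2 * ((d - 1 : ℕ) * (1 + C₀)))) ε hd (Real.one_le_exp (by positivity)) e0 e1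
  obtain ⟨B, β, hLI, hdeg, hB, hloc⟩ := hBASR K d k a b S.nrm
  obtain ⟨hB₀, hβ⟩ := hloc p φ j a₀ b₀ S.loc S.gd S.ea S.eb
  choose B₀ hB₀ using hB₀
  have hbd : ∀ s, (B₀ s).natDegree ≤ d ^ k - 1 := fun s => by
    rw [← natDegree_map_eq_of_injective (f := zq p) Subtype.val_injective, hB₀, natDegree_map]
    exact hdeg s
  have hn : 0 < d ^ k := by positivity
  have hn' : d ^ k - 1 + 1 = d ^ k := Nat.sub_add_cancel hn
  obtain ⟨c, hc0, hc1, hc2⟩ := hSIEG2 p (Fin k → Fin d) (d ^ k - 1) M q B₀ hbd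
    (by rw [hn']; simp) (by rwa [hn'])
  obtain ⟨A, hAd⟩ : ∃ A : K[X][X], A = ∑ t, C (∑ s, C (c (s, t) : K) * B s) * (B t).map C :=
    ⟨_, rfl⟩
  have hA : ∀ x y : Qbar, aevalAeval x y A =
      ∑ s : (Fin k → Fin d) × (Fin k → Fin d),
        (c s : Qbar) * (aeval x (B s.1) * aeval y (B s.2)) := fun x y => by
    have h1 : ∀ u : K[X], aevalAeval x y (u.map C) = aeval y u := fun u => by
      induction u using Polynomial.induction_on' with
      | add u v hu hv => simp only [Polynomial.map_add, map_add, hu, hv]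
      | monomial m c => simp [← C_mul_X_pow_eq_monomial]
    rw [Fintype.sum_prod_type_right]
    simp only [hAd, map_sum, map_mul, aevalAeval_C, h1, Finset.sum_mul, map_intCast,
      mul_assoc]
  have hδ0 : 0 ≤ ε ^ M := pow_nonneg e0 M
  let y : Qbar → Qbar → Fin k ⊕ Fin k → Qbar := fun z w =>
    Sum.elim (fun i => (rm a b)^[i] z) fun i => (rm a b)^[i] w
  let μ : (Fin k → Fin d) × (Fin k → Fin d) → Fin k ⊕ Fin k → ℕ := fun t =>
    Sum.elim (fun i => t.1 i) fun i => t.2 i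
  have hs : ∀ z w, 0 < h z → 0 < h w → aeval z β ≠ 0 ∧ aeval w β ≠ 0 ∧ aevalAeval z w A =
      aeval z β * aeval w β * ∑ t, (c t : Qbar) * ∏ i, y z w i ^ μ t i := fun z w hz hw => by
    obtain ⟨f1, f2⟩ := hB z fun n => (hit z hz n).1
    obtain ⟨f3, f4⟩ := hB w fun n => (hit w hw n).1
    refine ⟨f1, f3, ?_⟩
    rw [hA, Finset.mul_sum]
    refine Finset.sum_congr rfl fun t _ => ?_
    rw [f2, f4, Fintype.prod_sum_type]
    simp only [y, μ, Sum.elim_inl, Sum.elim_inr]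
    ring
  have key : ∀ z w, (z, w) ∈ P → ‖j (∑ t, (c t : Qbar) * ∏ i, y z w i ^ μ t i)‖ ≤
      ε ^ M * ∏ i, max 1 ‖j (y z w i)‖ ^ (d - 1) := by
    intro z w hx
    obtain ⟨hz, hw⟩ := hP _ hx
    have hw : 0 < h w := hw ▸ hz
    obtain ⟨f1, f2, f3⟩ := hs z w hz hw
    obtain ⟨g1, g2⟩ := hq _ hx
    have f4 := hc2 ε (j z) (j w) e3 e1.le ⟨g1.trans (mul_le_mul_of_nonneg_right
      (mul_le_mul_of_nonneg_right e2 (by positivity)) (by positivity)), g2⟩
    have f5 : j (aevalAeval z w A) = ∑ s, (c s : Om p) *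
        ((B₀ s.1).eval₂ (zo p) (j z) * (B₀ s.2).eval₂ (zo p) (j w)) := by
      rw [hA, map_sum]
      exact Finset.sum_congr rfl fun s _ => by
        rw [map_mul, map_mul, map_intCast, loc_eval S.loc (hB₀ s.1), loc_eval S.loc (hB₀ s.2)]
    rw [← f5, ← hβ z fun n => (hit z hz n).1, ← hβ w fun n => (hit w hw n).1, f3, map_mul,
      map_mul, norm_mul, norm_mul] at f4
    refine le_of_mul_le_mul_left (f4.trans_eq ?_) (mul_pos (norm_pos_iff.2 ((map_ne_zero j).2 f1))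
      (norm_pos_iff.2 ((map_ne_zero j).2 f2)))
    rw [Fintype.prod_sum_type]
    simp only [y, Sum.elim_inl, Sum.elim_inr]
    ring
  refine ⟨A, ((d : ℝ) ^ k)⁻¹, hAd ▸ auxbr_ne hLI hc0, by positivity, ?_⟩
  rintro ⟨z, w⟩ hx hz
  obtain ⟨hz0, hw⟩ := hP _ hx
  have hw0 : 0 < h w := hw ▸ hz0
  have hwh : ∀ u, 0 < h u → h u < ((d : ℝ) ^ k)⁻¹ → ∀ i ≤ k, wh ((rm a b)^[i] u) ≤ 1 + C₀ :=
    fun u hu0 hu i hi => by
      have t1 := (abs_le.1 (hC ((rm a b)^[i] u))).1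
      have t2 : (d : ℝ) ^ i * h u ≤ 1 :=
        (mul_le_mul (pow_le_pow_right₀ hd1 hi) hu.le hu0.le
          (by positivity)).trans_eq (mul_inv_cancel₀ (by positivity))
      rw [(hit u hu0 i).2] at t1
      linarith
  by_contra hne
  have main := hPF K p j (Fin k ⊕ Fin k) _ (y z w) (fun _ => d - 1) c μ (ε ^ M) S.fd
    (by
      rintro t (i | i)
      · exact Nat.le_sub_one_of_lt (t.1 i).2
      · exact Nat.le_sub_one_of_lt (t.2 i).2)
    (fun h0 => hne (by rw [(hs z w hz0 hw0).2.2, h0, mul_zero]))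
    (pow_le_one₀ e0 e1.le)
    (fun σ => by
      have g : ∀ i, σ (y z w i) = y (σ z) (σ w) i := by
        rintro (i | i) <;> exact auxbr_iter a b σ _ _
      simp only [map_sum σ, map_mul σ, map_prod σ, map_pow σ, map_intCast σ, g]
      exact key _ _ (hσ σ _ hx))
  refine absurd (main.trans (mul_le_mul_of_nonneg_right (pow_le_pow_left₀ (by positivity) ?_ _)
    hδ0)) (not_le.2 h2)
  have t1 : ∑ t, |(c t : ℝ)| ≤ ((d : ℝ) ^ k) ^ 2 * p := by
    refine (Finset.sum_le_card_nsmul _ _ (p : ℝ) fun s _ => by exact_mod_cast hc1 s).trans_eq ?_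
    simp only [Finset.card_univ, Fintype.card_prod, Fintype.card_fun, Fintype.card_fin,
      nsmul_eq_mul]
    push_cast
    ring
  have t2 : Real.exp (∑ i, ((d - 1 : ℕ) : ℝ) * wh (y z w i)) ≤
      Real.exp (2 * ((d - 1 : ℕ) * (1 + C₀))) ^ k := by
    rw [← Real.exp_nat_mul]
    refine Real.exp_le_exp.2 ((Finset.sum_le_card_nsmul _ _ ((d - 1 : ℕ) * (1 + C₀))
      fun i _ => ?_).trans_eq ?_)
    · refine mul_le_mul_of_nonneg_left ?_ (by positivity)
      rcases i with i | i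
      · exact hwh z hz0 hz i i.2.le
      · exact hwh w hw0 (hw.trans_lt hz) i i.2.le
    · simp only [Finset.card_univ, Fintype.card_sum, Fintype.card_fin, nsmul_eq_mul]
      push_cast
      ring
  exact mul_le_mul t1 t2 (by positivity) (by positivity)

end Pool.Agent.P.MP_8d2e9f_nt.AO
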