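import Pool.Agent.P.MP_8d2e9f_nt.AO.IfaceC
import Pool.Agent.P.MP_8d2e9f_nt.AO.TWH
import Pool.Agent.P.MP_8d2e9f_nt.AO.TCANB

/-! Step CANH. -/

set_option autoImplicit false

namespace Pool.Agent.P.MP_8d2e9f_nt.AO

open Polynomial NumberField Pool.Agent.P.MP_8d2e9f_nt.G
open scoped IntermediateField Classical

theorem p_CANH :
    S_CANH := by
  intro d φ hd hφ
  obtain ⟨C, hC⟩ := all_HGT d φ (by omega) hφ
  refine ⟨(all_CAN _ φ _ d C hd hC).imp fun H k => ⟨k.1, C, k.2⟩, fun H ⟨h1, B, h2⟩ => ?_⟩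
  have w : ∀ α, 0 ≤ weilHeight α := fun α => by
    cases α
    · exact le_rfl
    · exact p_WH.2.2.1 _
  have h0 : ∀ α, 0 ≤ H α := canb_low hd h1 (C := B) fun α => by
    linarith [(abs_le.1 (h2 α)).1, w α]
  refine ⟨h0, fun α => ⟨fun hz => ?_, fun hz => ?_⟩, fun r => ⟨fun α => ?_, B, h2⟩,
    fun e θ ψ H' he hθ hc ⟨k1, B', k2⟩ α => ?_⟩
  · obtain ⟨E, f1, r1⟩ := all_MOD.2 d φ hφ
    obtain ⟨K, f2, le, hK⟩ := ex_field f1 (Set.finite_singleton (α.getD 0))
    refine (all_NOR K B f2).subset ?_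
    rintro _ ⟨n, rfl⟩
    refine ⟨?_, ?_⟩
    · induction n with
      | zero =>
        cases α
        · exact none_mem_pts K
        · exact some_mem_pts.2 (hK _ rfl)
      | succ n ih =>
        simp only [Function.iterate_succ_apply'] at ih ⊢
        exact (r1.mono le).mem ih
    · have e := canb_iter h1 n α
      rw [hz, mul_zero] at e
      have := (abs_le.1 (h2 (φ^[n] α))).1
      simp only
      linarith
  · obtain ⟨M, hM⟩ := (Set.Finite.image H hz).bddAbove
    exact le_antisymm (canb_le hd (B := M) fun n => by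
      rw [← canb_iter h1 n α]
      exact hM ⟨_, ⟨n, rfl⟩, rfl⟩) (h0 α)
  · rw [canb_iter h1, Nat.cast_pow]
  · obtain ⟨C', hB⟩ := all_HGT e θ he hθ
    refine canb_uniq (F := φ) (D := fun z => H' (θ z)) (E := fun z => e * H z) hd
      (fun z => by simp only [hc, k1]) (fun z => by simp only [h1]; ring)
      (C := B' + C' + e * B) (fun z => ?_) α
    have a1 := abs_le.1 (k2 (θ z))
    have a2 := abs_le.1 (hB z)
    have a3 := abs_le.1 (h2 z)
    have a4 := mul_le_mul_of_nonneg_left a3.1 (Nat.cast_nonneg (α := ℝ) e)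
    have a5 := mul_le_mul_of_nonneg_left a3.2 (Nat.cast_nonneg (α := ℝ) e)
    exact abs_le.2 ⟨by linarith, by linarith⟩

end Pool.Agent.P.MP_8d2e9f_nt.AO
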