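import Pool.Agent.P.MP_8d2e9f_nt.AO.IfaceC

/-! Step CANR. -/

set_option autoImplicit false

namespace Pool.Agent.P.MP_8d2e9f_nt.AO

open Polynomial NumberField Pool.Agent.P.MP_8d2e9f_nt.G
open scoped IntermediateField Classical

lemma canr_pos {ι : Type} {d : ℕ} (hd : 2 ≤ d) (f : ι → ι) (Z : ι → Prop) (g : ι → ℝ) (c : ℝ)
    (h1 : ∀ z, ¬ Z z → g (f z) = d * g z) (h2 : ∀ z, Z z → g z = 0) (h3 : ∀ z, -c ≤ g z) (z : ι) :
    0 ≤ g z := by
  have key : ∀ (n : ℕ) (z : ι), -|c| ≤ (d : ℝ) ^ n * g z := fun n => by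
    induction n with
    | zero => exact fun z => by simpa using (neg_le_neg (le_abs_self c)).trans (h3 z)
    | succ n ih =>
      intro z
      by_cases hz : Z z
      · simp [h2 z hz]
      · rw [pow_succ, mul_assoc, ← h1 z hz]
        exact ih _
  by_contra hz
  rw [not_le] at hz
  obtain ⟨n, hn⟩ := pow_unbounded_of_one_lt (|c| / -g z) (show (1 : ℝ) < d by exact_mod_cast hd)
  rw [div_lt_iff₀ (by linarith)] at hn
  linarith [key n z]

theorem p_CANR (hWH : S_WH) :
    S_CANR := by
  intro K d a b ⟨hd, ha, hb, _⟩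
  have hd' : (2 : ℝ) ≤ d := by exact_mod_cast hd
  refine ⟨fun h ⟨h1, h2, c, hc⟩ => ⟨?_, fun σ z => ?_, fun z hz n => ?_⟩, fun H ⟨h1, c, hc⟩ => ?_,
    fun c => ?_⟩
  · exact canr_pos hd (rm a b) (fun z => aeval z b = 0) h c h1 h2 fun z => by
      linarith [(abs_le.1 (hc z)).1, hWH.2.2.1 z]
  · have e : ∀ z, aeval (σ z) b = 0 ↔ aeval z b = 0 := fun z => by
      rw [aeval_algHom_apply, map_eq_zero]
    have k : ∀ s : ℝ, |s| = 1 → 0 ≤ s * (h (σ z) - h z) := fun s hs =>
      canr_pos hd (rm a b) (fun z => aeval z b = 0) (fun z => s * (h (σ z) - h z)) (c + c)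
        (fun z hz => by
          simp only [rm_gal, h1 z hz, h1 _ (mt (e z).1 hz)]
          ring)
        (fun z hz => by simp only [h2 z hz, h2 _ ((e z).2 hz), sub_zero, mul_zero])
        (fun z => by
          have t1 := abs_le.1 (hc z)
          have t2 := abs_le.1 (hc (σ z))
          rw [hWH.1 K σ z] at t2
          refine (abs_le.1 ?_).1
          rw [abs_mul, hs, one_mul, abs_le]
          constructor <;> linarith [t1.1, t1.2, t2.1, t2.2]) z
    linarith [k 1 abs_one, k (-1) (by simp)]
  · have k : ∀ n : ℕ, h ((rm a b)^[n] z) = d ^ n * h z → aeval ((rm a b)^[n] z) b ≠ 0 :=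
      fun n e e' => (by positivity : 0 < (d : ℝ) ^ n * h z).ne' (e.symm.trans (h2 _ e'))
    have k' : h ((rm a b)^[n] z) = d ^ n * h z := by
      induction n with
      | zero => simp
      | succ n ih => rw [Function.iterate_succ_apply', h1 _ (k n ih), ih, pow_succ]; ring
    exact ⟨k n k', k'⟩
  · have h0 : H none = 0 := by
      have := h1 none
      rw [im_none, coeff_map, coeff_eq_zero_of_natDegree_lt hb, map_zero, if_pos rfl] at this
      have t : ((d : ℝ) - 1) * H none = 0 := by linarith
      exact (mul_eq_zero.1 t).resolve_left (by linarith)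
    have hs := fun z => h1 (some z)
    simp only [im_some (natDegree_map_le.trans ha.le) (natDegree_map_le.trans hb.le), eval_map,
      ← aeval_def] at hs
    refine ⟨h0, fun z hz => ?_, fun z hz => ?_, c, fun z => hc _⟩
    · simpa only [if_neg hz, rm] using hs z
    · have := hs z
      rw [if_pos hz, h0] at this
      exact (mul_eq_zero.1 this.symm).resolve_left (by linarith)
  · have hne : a.map (algebraMap K Qbar) - C c * b.map (algebraMap K Qbar) ≠ 0 := fun e => by
      have := congrArg (coeff · d) e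
      simp only [coeff_sub, coeff_C_mul, coeff_map, coeff_eq_zero_of_natDegree_lt hb, map_zero,
        mul_zero, sub_zero, coeff_zero, map_eq_zero] at this
      rw [← ha, coeff_natDegree, leadingCoeff_eq_zero] at this
      rw [this, natDegree_zero] at ha
      omega
    refine (finite_setOfPred_isRoot hne).subset fun z ⟨h1, h2⟩ => ?_
    rw [rm, div_eq_iff h1] at h2
    simp [eval_map, ← aeval_def, h2]

end Pool.Agent.P.MP_8d2e9f_nt.AO
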