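import Pool.Agent.P.MP_8d2e9f_nt.AO.IfaceC

/-! Step CHN. -/

set_option autoImplicit false

namespace Pool.Agent.P.MP_8d2e9f_nt.AO

open Polynomial NumberField Pool.Agent.P.MP_8d2e9f_nt.G
open scoped IntermediateField Classical

section chn

variable {R : Type} [CommRing R]

lemma chn_hv {a b : R[X]} {d : ℕ} (ha : a.natDegree ≤ d) (hb : b.natDegree ≤ d) (P : R[X]) (n : ℕ)
    (v : R × R) : hv (homg a b n P) (n * d) v = hv P n (vm a b d v) := by
  rw [homg_def, hv_sum, hv]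
  refine Finset.sum_congr rfl fun i hi => ?_
  obtain ⟨k, rfl⟩ := Nat.exists_eq_add_of_le (Nat.lt_succ_iff.1 (Finset.mem_range.1 hi))
  rw [mul_assoc, hv_C_mul, add_tsub_cancel_left, add_mul,
    hv_mul (natDegree_pow_le_of_le i ha) (natDegree_pow_le_of_le k hb), hv_pow ha, hv_pow hb,
    mul_assoc]
  rfl

lemma chn_swap (p q : R[X]) : wr p q = - wr q p := by
  rw [wr, wr]
  ring

lemma chn_self (p : R[X]) : wr p p = 0 := by
  rw [wr]
  ring

lemma chn_mono (a b : R[X]) (i s t : ℕ) :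
    wr (a ^ i * b ^ (s + 1 + t)) (a ^ (i + s + 1) * b ^ t) =
      C (-((s : R) + 1)) * (a ^ (2 * i + s) * b ^ (2 * t + s)) * wr a b := by
  have h1 : a ^ i * b ^ (s + 1 + t) = a ^ i * b ^ t * b ^ (s + 1) := by ring
  have h2 : a ^ (i + s + 1) * b ^ t = a ^ i * b ^ t * a ^ (s + 1) := by ring
  have h3 : a ^ (2 * i + s) * b ^ (2 * t + s) = (a ^ i * b ^ t) ^ 2 * (a ^ s * b ^ s) := by ring
  rw [h1, h2, h3]
  generalize a ^ i * b ^ t = w
  simp only [wr, derivative_mul, derivative_pow_succ, map_neg]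
  ring

lemma chn_X (i s : ℕ) :
    wr (X ^ i : R[X]) (X ^ (i + s + 1)) = C (-((s : R) + 1)) * X ^ (2 * i + s) := by
  have := chn_mono (X : R[X]) 1 i s 0
  simpa [wr] using this

lemma chn_X_deg {i j d : ℕ} (hi : i ≤ d) (hj : j ≤ d) :
    (wr (X ^ i : R[X]) (X ^ j)).natDegree ≤ 2 * d - 2 := by
  have key : ∀ i j : ℕ, i < j → j ≤ d → (wr (X ^ i : R[X]) (X ^ j)).natDegree ≤ 2 * d - 2 := by
    intro i j hij hj
    obtain ⟨s, rfl⟩ := Nat.exists_eq_add_of_lt hij
    rw [chn_X]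
    exact (natDegree_C_mul_X_pow_le _ _).trans (by omega)
  rcases lt_trichotomy i j with h | rfl | h
  · exact key i j h hj
  · rw [chn_self]; simp
  · rw [chn_swap, natDegree_neg]
    exact key j i h hi

lemma chn_X_chain (a b : R[X]) {i j d : ℕ} (hi : i ≤ d) (hj : j ≤ d) :
    wr (a ^ i * b ^ (d - i)) (a ^ j * b ^ (d - j)) =
      homg a b (2 * d - 2) (wr (X ^ i) (X ^ j)) * wr a b := by
  have key : ∀ i j : ℕ, i < j → j ≤ d → wr (a ^ i * b ^ (d - i)) (a ^ j * b ^ (d - j)) =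
      homg a b (2 * d - 2) (wr (X ^ i) (X ^ j)) * wr a b := by
    intro i j hij hj
    obtain ⟨s, rfl⟩ := Nat.exists_eq_add_of_lt hij
    obtain ⟨t, rfl⟩ := Nat.exists_eq_add_of_le hj
    rw [chn_X, homg_C_mul, homg_X_pow a b (by omega), add_tsub_cancel_left,
      show i + s + 1 + t - i = s + 1 + t by omega,
      show 2 * (i + s + 1 + t) - 2 - (2 * i + s) = 2 * t + s by omega, chn_mono]
  rcases lt_trichotomy i j with h | rfl | h
  · exact key i j h hj
  · rw [chn_self, chn_self, homg_def]; simp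
  · rw [chn_swap, key j i h hi, chn_swap (X ^ i), ← zero_sub (wr (X ^ j) (X ^ i)), homg_sub,
      homg_def a b _ 0]
    simp

lemma chn_sum (s : Finset ℕ) (c e : ℕ → R) (f g : ℕ → R[X]) :
    wr (∑ i ∈ s, C (c i) * f i) (∑ j ∈ s, C (e j) * g j) =
      ∑ i ∈ s, ∑ j ∈ s, C (c i * e j) * wr (f i) (g j) := by
  simp only [wr, derivative_sum, Finset.sum_mul_sum, ← Finset.sum_sub_distrib, derivative_C_mul,
    map_mul]
  exact Finset.sum_congr rfl fun i _ => Finset.sum_congr rfl fun j _ => by ring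

lemma chn_exp {a b : R[X]} {d : ℕ} (ha : a.natDegree ≤ d) (hb : b.natDegree ≤ d) :
    wr a b = ∑ i ∈ Finset.range (d + 1), ∑ j ∈ Finset.range (d + 1),
      C (a.coeff i * b.coeff j) * wr (X ^ i) (X ^ j) := by
  rw [← chn_sum, ← as_sum_range_C_mul_X_pow' a (Nat.lt_succ_of_le ha),
    ← as_sum_range_C_mul_X_pow' b (Nat.lt_succ_of_le hb)]

lemma chn_deg {a b : R[X]} {d : ℕ} (ha : a.natDegree ≤ d) (hb : b.natDegree ≤ d) :
    (wr a b).natDegree ≤ 2 * d - 2 := by
  rw [chn_exp ha hb]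
  refine natDegree_sum_le_of_forall_le _ _ fun i hi =>
    natDegree_sum_le_of_forall_le _ _ fun j hj => (natDegree_C_mul_le _ _).trans ?_
  exact chn_X_deg (Nat.lt_succ_iff.1 (Finset.mem_range.1 hi))
    (Nat.lt_succ_iff.1 (Finset.mem_range.1 hj))

lemma chn_chain {a b : R[X]} (a' b' : R[X]) {d : ℕ} (ha : a.natDegree ≤ d) (hb : b.natDegree ≤ d) :
    wr (homg a' b' d a) (homg a' b' d b) = homg a' b' (2 * d - 2) (wr a b) * wr a' b' := by
  rw [chn_exp ha hb, homg_def a' b' d a, homg_def a' b' d b]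
  simp only [mul_assoc (C _)]
  rw [chn_sum, homg_sum, Finset.sum_mul]
  refine Finset.sum_congr rfl fun i hi => ?_
  rw [homg_sum, Finset.sum_mul]
  refine Finset.sum_congr rfl fun j hj => ?_
  rw [homg_C_mul, chn_X_chain a' b' (Nat.lt_succ_iff.1 (Finset.mem_range.1 hi))
    (Nat.lt_succ_iff.1 (Finset.mem_range.1 hj)), mul_assoc]

end chn

theorem p_CHN :
    S_CHN := by
  refine ⟨fun R _ a b P d n ha hb => ⟨chn_hv ha hb P n, fun a' b' => ?_, chn_deg ha hb⟩,
    fun k _ a b a' b' d _ ha hb => chn_chain a' b' ha hb⟩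
  rw [homg, homg_map, chn_hv (natDegree_map_le.trans ha) (natDegree_map_le.trans hb)]
  rfl

end Pool.Agent.P.MP_8d2e9f_nt.AO
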