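import Pool.Agent.P.MP_8d2e9f_nt.AO.IfaceC

/-! Step CJ. -/

set_option autoImplicit false

namespace Pool.Agent.P.MP_8d2e9f_nt.AO

open Polynomial NumberField Pool.Agent.P.MP_8d2e9f_nt.G
open scoped IntermediateField Classical

lemma cj_vm (α β γ δ : Qbar) (v : Qbar × Qbar) :
    vm (C α * X + C β) (C γ * X + C δ) 1 v = (α * v.1 + β * v.2, γ * v.1 + δ * v.2) := by
  simp [vm, hv, Finset.sum_range_succ, coeff_X, coeff_C, add_comm]

lemma cj_pr {α β γ δ : Qbar} (h : α * δ - β * γ ≠ 0) : Pr 1 (C α * X + C β) (C γ * X + C δ) := by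
  refine ⟨natDegree_linear_le, natDegree_linear_le, fun v hv e => hv ?_⟩
  rw [cj_vm, Prod.ext_iff] at e
  obtain ⟨e1, e2⟩ : α * v.1 + β * v.2 = 0 ∧ γ * v.1 + δ * v.2 = 0 := e
  exact Prod.ext ((mul_eq_zero.1 (by linear_combination δ * e1 - β * e2 :
      (α * δ - β * γ) * v.1 = 0)).resolve_left h)
    ((mul_eq_zero.1 (by linear_combination α * e2 - γ * e1 :
      (α * δ - β * γ) * v.2 = 0)).resolve_left h)

lemma cj_inv {α β γ δ α' β' γ' δ' D : Qbar} (h : α * δ - β * γ ≠ 0) (hD : D ≠ 0)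
    (h1 : α' * α + β' * γ = D) (h2 : α' * β + β' * δ = 0) (h3 : γ' * α + δ' * γ = 0)
    (h4 : γ' * β + δ' * δ = D) (x : ProjLine) : mob α' β' γ' δ' (mob α β γ δ x) = x := by
  rw [mob, mob, im.eq_1 _ _ _ x, im_pt _ _ _ ((cj_pr h).2.2 _ (lf_ne x)), cj_vm, cj_vm]
  conv_rhs => rw [← pt_lf x, ← pt_smul hD]
  congr 1
  refine Prod.ext ?_ ?_
  · simp only [Prod.smul_fst, smul_eq_mul]
    linear_combination (lf x).1 * h1 + (lf x).2 * h2
  · simp only [Prod.smul_snd, smul_eq_mul]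
    linear_combination (lf x).1 * h3 + (lf x).2 * h4

lemma cj_wr (α β γ δ : Qbar) : wr (C α * X + C β) (C γ * X + C δ) = C (α * δ - β * γ) := by
  simp only [wr, derivative_add, derivative_C_mul_X, derivative_C, map_sub, map_mul]
  ring

lemma cj_homg (a b : Qbar[X]) (α β : Qbar) : homg a b 1 (C α * X + C β) = C α * a + C β * b := by
  rw [homg_add, homg_C_mul, homg_C, homg_X a b 0]
  ring

lemma cj_back (hCHN : S_CHN) (α β γ δ : Qbar) {P : Qbar[X]} (hP : P.natDegree ≤ 24) :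
    homg (C δ * X + C (-β)) (C (-γ) * X + C α) 24 (homg (C α * X + C β) (C γ * X + C δ) 24 P) =
      C (α * δ - β * γ) ^ 24 * P := by
  have h := (hCHN.1 Qbar (C α * X + C β) (C γ * X + C δ) P 1 24 natDegree_linear_le
    natDegree_linear_le).2.1 (C δ * X + C (-β)) (C (-γ) * X + C α)
  rw [mul_one, cj_homg, cj_homg] at h
  have e : (C α * (C δ * X + C (-β)) + C β * (C (-γ) * X + C α),
      C γ * (C δ * X + C (-β)) + C δ * (C (-γ) * X + C α)) =
      (C (α * δ - β * γ) : Qbar[X]) • ((X, 1) : Qbar[X] × Qbar[X]) := by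
    refine Prod.ext ?_ ?_ <;>
      simp only [Prod.smul_fst, Prod.smul_snd, smul_eq_mul, map_sub, map_mul, map_neg] <;> ring
  rw [h, homg, e, hv_smul, ← homg, homg_comp X hP, comp_X]

theorem p_CJ (hCHN : S_CHN) (hPCOMP : S_PCOMP) :
    S_CJ := by
  intro d a b α β γ δ hd hab hD
  have hD' : δ * α - -β * -γ ≠ 0 := by rwa [show δ * α - -β * -γ = α * δ - β * γ by ring]
  have hm := cj_pr hD
  have hn := cj_pr hD'
  have i1 : ∀ x, mob δ (-β) (-γ) α (mob α β γ δ x) = x :=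
    cj_inv hD hD (by ring) (by ring) (by ring) (by ring)
  have i2 : ∀ x, mob α β γ δ (mob δ (-β) (-γ) α x) = x :=
    cj_inv hD' hD (by ring) (by ring) (by ring) (by ring)
  refine ⟨hm, Function.bijective_iff_has_inverse.2 ⟨_, i1, i2⟩, ?_⟩
  obtain ⟨p1, q1, r1, -⟩ := hPCOMP Qbar d 1 a b _ _ hd hab hm
  rw [mul_one] at p1 q1
  obtain ⟨p2, q2, r2, -⟩ := hPCOMP Qbar 1 d _ _ _ _ one_pos hn p1
  rw [one_mul] at p2 q2
  have q : ∀ x, _ = mob δ (-β) (-γ) α (im a b d (mob α β γ δ x)) := fun x =>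
    (q2 x).trans (congrArg _ (q1 x))
  refine ⟨_, _, p2, fun x => by rw [q, i2], ⟨1, mob δ (-β) (-γ) α, one_pos, hn.rm, fun x => by
    rw [q, i2]⟩, fun P ⟨h0, h24, hP⟩ => ⟨fun e => ?_, ?_, ?_⟩⟩
  · have := cj_back hCHN α β γ δ h24
    rw [e, show (0 : Qbar[X]) = C 0 * 1 by simp, homg_C_mul, C_0, zero_mul] at this
    exact mul_ne_zero (pow_ne_zero _ (C_ne_zero.2 hD)) h0 this.symm
  · exact (homg_deg hm.1 hm.2.1 24 P).trans_eq (mul_one _)
  · refine r2 _ P _ h24 ⟨(α * δ - β * γ) ^ 12, pow_ne_zero _ hD, ?_⟩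
      (r1 P P _ h24 hP ⟨((α * δ - β * γ) ^ 12)⁻¹, inv_ne_zero (pow_ne_zero _ hD), ?_⟩)
    · rw [cj_back hCHN α β γ δ h24, cj_wr, show δ * α - -β * -γ = α * δ - β * γ by ring, C_pow]
      ring
    · rw [cj_wr, mul_right_comm, ← C_pow, ← C_mul, inv_mul_cancel₀ (pow_ne_zero _ hD), C_1, one_mul]

end Pool.Agent.P.MP_8d2e9f_nt.AO
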