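import Pool.Agent.P.MP_8d2e9f_nt.AO.IfaceC

/-! Step CLASS. -/

set_option autoImplicit false

namespace Pool.Agent.P.MP_8d2e9f_nt.AO

open Polynomial NumberField Pool.Agent.P.MP_8d2e9f_nt.G
open scoped IntermediateField Classical

theorem p_CLASS (hTRANS : S_TRANS) (hNORMF : S_NORMF) (hROOTX : S_ROOTX) (hLAT2 : S_LAT2) (hLAT3 : S_LAT3) (hLAT4 : S_LAT4) :
    S_CLASS := by
  intro d a b P hN hE
  obtain ⟨r, a', b', hr, hN', hS, h | ⟨P₀, hP, hE'⟩⟩ := hNORMF d a b P hN hE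
  · exact ⟨r, a', b', hr, hN', hS, Or.inl h⟩
  obtain ⟨k1, k2, k3, k4⟩ := hROOTX a' b'
  rcases hP with ⟨α, β, hD, rfl⟩ | rfl | rfl | rfl
  · exact ⟨r, a', b', hr, hN', hS, Or.inr ⟨1, α, β, a', b', ⟨hD, Or.inl rfl⟩, hN', k1 α β hE',
      by simp, by simp⟩⟩
  · obtain ⟨c, hc, hO⟩ := k2 hE'
    obtain ⟨a'', b'', h1, h2, h3⟩ := hLAT4 _ a' b' c hN' hc hO
    obtain ⟨g₁, g₂, hL⟩ := hLAT3 _ a'' b'' h1 h2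
    exact ⟨r, a'', b'', hr, h1, hTRANS.1 _ _ _ hS h3, Or.inr ⟨_, _, _, _, _, hL⟩⟩
  · obtain ⟨g₁, g₂, hL⟩ := hLAT2 _ a' b' hN' (k3 hE')
    exact ⟨r, a', b', hr, hN', hS, Or.inr ⟨_, _, _, _, _, hL⟩⟩
  · obtain ⟨g₁, g₂, hL⟩ := hLAT3 _ a' b' hN' (k4 hE')
    exact ⟨r, a', b', hr, hN', hS, Or.inr ⟨_, _, _, _, _, hL⟩⟩

end Pool.Agent.P.MP_8d2e9f_nt.AO
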