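import Pool.Agent.P.MP_8d2e9f_nt.AO.IfaceC

/-! Step COMM. -/

set_option autoImplicit false

namespace Pool.Agent.P.MP_8d2e9f_nt.AO

open Polynomial NumberField Pool.Agent.P.MP_8d2e9f_nt.G
open scoped IntermediateField Classical

lemma comm_cub (α β : Qbar) : (cub α β).Monic ∧ (cub α β).natDegree = 3 := by
  unfold cub
  constructor
  · monicity!
  · compute_degree!

lemma comm_nrm {α β : Qbar} (h : 4 * α ^ 3 + 27 * β ^ 2 ≠ 0) : Nrm 4 (dbn α β) (dbd α β) := by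
  refine ⟨by norm_num, by unfold dbn; compute_degree!, ?_, ?_⟩
  · rw [dbd, natDegree_C_mul (by norm_num), (comm_cub α β).2]
    norm_num
  · refine ⟨C (4 * α ^ 3 + 27 * β ^ 2)⁻¹ * (3 * X ^ 2 + 4 * C α),
      -(C (4 * α ^ 3 + 27 * β ^ 2)⁻¹ * C 4⁻¹ * (3 * X ^ 3 - 5 * C α * X - 27 * C β)), ?_⟩
    have h1 : (C (4 * α ^ 3 + 27 * β ^ 2)⁻¹ : Qbar[X]) * (4 * C α ^ 3 + 27 * C β ^ 2) = 1 := by
      have := congrArg (C : Qbar → Qbar[X]) (inv_mul_cancel₀ h)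
      simpa only [map_mul, map_add, map_pow, map_ofNat, map_one] using this
    have h2 : (C 4⁻¹ : Qbar[X]) * C 4 = 1 := by
      rw [← map_mul, inv_mul_cancel₀ (by norm_num), map_one]
    simp only [dbn, dbd, cub, map_mul, map_pow, map_ofNat] at h2 ⊢
    linear_combination h1 - C (4 * α ^ 3 + 27 * β ^ 2)⁻¹ * (3 * X ^ 3 - 5 * C α * X - 27 * C β) *
      (X ^ 3 + C α * X + C β) * h2

lemma comm_ode (α β : Qbar) : Ode 2 (cub α β) 4 (dbn α β) (dbd α β) := by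
  have h : ∀ a b : Qbar[X], homg a b 3 (cub α β) = a ^ 3 + C α * (a * b ^ 2) + C β * b ^ 3 := by
    intro a b
    rw [cub, homg_add, homg_add, homg_X_pow a b le_rfl, homg_C_mul, homg_X, homg_C]
    simp
  rw [Ode, h]
  simp only [wr, dbn, dbd, cub, map_mul, map_pow, map_ofNat, derivative_add, derivative_sub,
    derivative_mul, derivative_C, derivative_X, derivative_ofNat, derivative_pow, Nat.cast_ofNat]
  ring

theorem p_COMM (hPRN : S_PRN) (hPCOMP : S_PCOMP) (hUNIQ : S_UNIQ) :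
    S_COMM := by
  intro α β h
  have hn := comm_nrm h
  refine ⟨hn, fun d g₁ g₂ c hg hc ho x => ?_⟩
  obtain ⟨p1, i1, -⟩ := hPRN.1 _ _ _ _ hn
  obtain ⟨p2, i2, -⟩ := hPRN.1 _ _ _ _ hg
  have hd := hg.1
  obtain ⟨q1, e1, -, o1⟩ := hPCOMP _ _ _ _ _ _ _ (by omega) p2 p1
  obtain ⟨q2, e2, -, o2⟩ := hPCOMP _ _ _ _ _ _ _ (by norm_num) p1 p2
  have n1 := ((hPRN.2 _ _ _ _ (by omega) q1).2 (by rw [e1, i1, i2])).1
  have n2 := ((hPRN.2 _ _ _ _ (by omega) q2).2 (by rw [e2, i2, i1])).1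
  have u := hUNIQ 2 _ _ _ _ _ (c * 4) (.inl rfl) (comm_cub α β).1 (comm_cub α β).2
    (mul_ne_zero hc (by norm_num)) (hPRN.1 _ _ _ _ n1).2.2.1 (hPRN.1 _ _ _ _ n2).2.2.1
    (n1.2.2.1.trans_eq n1.2.1.symm) (n2.2.2.1.trans_eq n2.2.1.symm)
    (o1 _ _ _ (comm_cub α β).2.le ho (comm_ode α β))
    (mul_comm 4 c ▸ o2 _ _ _ (comm_cub α β).2.le (comm_ode α β) ho)
  rw [dbl, ← e1, ← e2]
  refine (pt_eq_iff (q1.2.2 _ (lf_ne x)) (q2.2.2 _ (lf_ne x))).2 ?_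
  simp only [vm]
  rw [← hv_mul q1.1 q2.2.1, ← hv_mul q1.2.1 q2.1, u, mul_comm]

end Pool.Agent.P.MP_8d2e9f_nt.AO
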