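import Pool.Agent.P.MP_8d2e9f_nt.AO.IfaceC
import Pool.Agent.P.MP_8d2e9f_nt.AO.TABG

/-! Step COMPO. -/

set_option autoImplicit false

namespace Pool.Agent.P.MP_8d2e9f_nt.AO

open Polynomial NumberField Pool.Agent.P.MP_8d2e9f_nt.G
open scoped IntermediateField Classical

theorem compo_eq {K : IF} (L : IntermediateField K Qbar) (s : Set Qbar) :
    (IntermediateField.adjoin L s).toSubfield =
      (L.restrictScalars ℚ ⊔ IntermediateField.adjoin ℚ s).toSubfield := by
  refine le_antisymm (fun x hx => ?_) fun x hx => ?_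
  · change x ∈ IntermediateField.adjoin L s at hx
    change x ∈ L.restrictScalars ℚ ⊔ IntermediateField.adjoin ℚ s
    induction hx using IntermediateField.adjoin_induction with
    | mem z hz =>
      exact (le_sup_right : _ ≤ L.restrictScalars ℚ ⊔ _) (IntermediateField.subset_adjoin ℚ s hz)
    | algebraMap c => exact (le_sup_left : L.restrictScalars ℚ ≤ _) c.2
    | add a b _ _ ha hb => exact add_mem ha hb
    | inv a _ ha => exact inv_mem ha
    | mul a b _ _ ha hb => exact mul_mem ha hb
  · have h : L.restrictScalars ℚ ⊔ IntermediateField.adjoin ℚ s ≤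
        ((IntermediateField.adjoin L s).restrictScalars K).restrictScalars ℚ :=
      sup_le (fun y hy => (IntermediateField.adjoin L s).algebraMap_mem ⟨y, hy⟩)
        (IntermediateField.adjoin_le_iff.2 (IntermediateField.subset_adjoin L s))
    exact h hx

theorem compo_le (M L K' : IF) :
    L ⊔ K' ≤ (IntermediateField.adjoin M ((L : Set Qbar) ∪ K')).restrictScalars ℚ :=
  sup_le (fun _ hy => IntermediateField.subset_adjoin M ((L : Set Qbar) ∪ K') (Or.inl hy))
    fun _ hy => IntermediateField.subset_adjoin M ((L : Set Qbar) ∪ K') (Or.inr hy)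

theorem p_COMPO (hABG : S_ABG) :
    S_COMPO := by
  refine ⟨fun K L K' h => ⟨sup_le_sup_right h.1 K', fun z hz => ?_⟩, fun K L h => ?_,
    fun K L => ⟨fun h => ⟨fun c hc => L.algebraMap_mem ⟨c, hc⟩, fun z hz =>
      ((hABG K).2.2.2.1 L h z hz).1⟩, fun E hE => ?_, fun K' hK' => ?_⟩⟩
  · refine abg_adj (S := (L : Set Qbar) ∪ K') ?_ z (compo_le (K ⊔ K') L K' hz)
    rintro y (hy | hy)
    · exact (hABG K).2.2.1 _ le_sup_left y (h.2 y hy)
    · intro σ ρ
      have e : ∀ τ : GK (K ⊔ K'), τ y = y := fun τ =>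
        τ.commutes ⟨y, (le_sup_right : K' ≤ K ⊔ K') hy⟩
      rw [e, e, e]
  · exact ⟨IntermediateField.extendScalars h.1, abg_abel h.2, rfl⟩
  · obtain ⟨s, rfl⟩ : E.FG := IntermediateField.essFiniteType_iff.1 inferInstance
    exact ⟨IntermediateField.adjoin ℚ s,
      IntermediateField.finiteDimensional_adjoin fun x _ => int_Q x, compo_eq L s⟩
  · obtain ⟨s, rfl⟩ : K'.FG := IntermediateField.essFiniteType_iff.1 inferInstance
    exact ⟨IntermediateField.adjoin L s, IntermediateField.finiteDimensional_adjoin fun x _ =>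
      ((int_Q x).tower_top (A := K)).tower_top (A := L), compo_eq L s⟩

end Pool.Agent.P.MP_8d2e9f_nt.AO
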