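import Pool.Agent.P.MP_8d2e9f_nt.AO.IfaceC

/-! Step CONJ. -/

set_option autoImplicit false

namespace Pool.Agent.P.MP_8d2e9f_nt.AO

open Polynomial NumberField Pool.Agent.P.MP_8d2e9f_nt.G
open scoped IntermediateField Classical

theorem p_CONJ (hPRN : S_PRN) (hPCOMP : S_PCOMP) (hMULT : S_MULT) (hCJ : S_CJ) :
    S_CONJ := by
  intro d r a b c hd hp hr hc
  have it : ∀ s : ℕ, ∃ A B : Qbar[X], Pr (d ^ (s + 1)) A B ∧
      im A B (d ^ (s + 1)) = (im a b d)^[s + 1] ∧ ∀ P, Eig a b P → Eig A B P := fun s => by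
    induction s with
    | zero => exact ⟨a, b, by simpa using hp, by simp, fun _ h => h⟩
    | succ s ih =>
      obtain ⟨A, B, h1, h2, h3⟩ := ih
      obtain ⟨k1, k2, k3, -⟩ := hPCOMP _ d _ a b A B (by omega) hp h1
      rw [← pow_succ'] at k1 k2
      exact ⟨_, _, k1, funext fun x => by rw [k2, h2, Function.iterate_succ_apply' _ (s + 1)],
        fun P h => ⟨h.1, h.2.1, k3 P P P h.2.1 h.2.2 (h3 P h).2.2⟩⟩
  obtain ⟨s, rfl⟩ := Nat.exists_eq_add_of_le' hr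
  obtain ⟨A, B, h1, h2, h3⟩ := it s
  have h4 : 2 ≤ d ^ (s + 1) := hd.trans (Nat.le_self_pow (by omega) d)
  obtain ⟨α, β, γ, δ, e1, e2⟩ : ∃ α β γ δ : Qbar, α * δ - β * γ ≠ 0 ∧ mob α β γ δ none = c := by
    cases c with
    | none => exact ⟨1, 0, 0, 1, by simp, by simp [mob, im_none, coeff_one]⟩
    | some c => exact ⟨c, 1, 1, 0, by simp, by simp [mob, im_none, coeff_one]⟩
  obtain ⟨j1, j2, a', b', j3, j4, j5, j6⟩ := hCJ _ A B α β γ δ (by omega) h1 e1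
  rw [h2] at j4 j5
  refine ⟨a', b', mob α β γ δ, ((hPRN.2 _ _ a' b' h4 j3).2 (j2.1 (by rw [j4, e2, hc]))).1, j5, e2,
    j2.1, j4, fun P h => ⟨_, j6 P (h3 P h), fun x => ?_⟩⟩
  obtain ⟨m1, m2, m3⟩ := hMULT _ 1 _ _ one_pos j1
  obtain ⟨t, t1, t2⟩ := m2 (mob α β γ δ x)
  have := (m3 24 P h.1 h.2.1).2 x
  rwa [mul_one, le_antisymm ((Finset.single_le_sum (fun _ _ => Nat.zero_le _)
    ((t1 x).2 rfl)).trans_eq t2) (m1 x), one_mul] at this

end Pool.Agent.P.MP_8d2e9f_nt.AO
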