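import Pool.Agent.P.MP_8d2e9f_nt.AO.IfaceC

/-! Step DEF. -/

set_option autoImplicit false

namespace Pool.Agent.P.MP_8d2e9f_nt.AO

open Polynomial NumberField Pool.Agent.P.MP_8d2e9f_nt.G
open scoped IntermediateField Classical

namespace def_h

lemma hom_biv {k R S : Type} [CommRing k] [CommRing R] [CommRing S] [Algebra k R] [Algebra k S]
    (ψ : R →ₐ[k] S) (a b : R) (A : k[X][X]) :
    ψ (aevalAeval a b A) = aevalAeval (ψ a) (ψ b) A := by
  induction A using Polynomial.induction_on' with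
  | add p q hp hq => rw [map_add, map_add, map_add, hp, hq]
  | monomial n r =>
    rw [← C_mul_X_pow_eq_monomial, map_mul, map_mul, map_mul, map_pow, map_pow, map_pow,
      aevalAeval_C, aevalAeval_C, aevalAeval_Y, aevalAeval_Y, aeval_algHom_apply]

theorem defm (k : Type) [Field k] (A : k[X][X]) (m : ℕ) (hm : 0 < m) (x : ℕ → ℕ → k)
    (T : Set ℕ) (hT : T.Finite) (hper : ∀ n i, x n (i + m) = x n i)
    (hA : ∀ n i, aevalAeval (x n i) (x n (i + 1)) A = 0)
    (hinj : Function.Injective fun n => x n 0) :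
    ∃ n ∉ T, ∃ (W : Type) (_ : Field W) (_ : IsAlgClosed W) (_ : Algebra k W)
      (O : ValuationSubring W) (u : ℕ → W), (∀ c, algebraMap k W c ∈ O) ∧
        (∀ i, u (i + m) = u i) ∧ (∀ i, O.valuation (u i - algebraMap k W (x n i)) < 1) ∧
          (∀ i, aevalAeval (u i) (u (i + 1)) A = 0) ∧ u 0 ≠ algebraMap k W (x n 0) := by
  classical
  have : NeZero m := ⟨hm.ne'⟩
  have hmod : ∀ n i, x n (i % m) = x n i := by
    intro n i
    have : ∀ l r, x n (r + m * l) = x n r := by
      intro l r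
      induction l with
      | zero => simp
      | succ l ih => rw [Nat.mul_succ, ← Nat.add_assoc, hper, ih]
    conv_rhs => rw [← Nat.mod_add_div i m]
    exact (this _ _).symm
  let R := MvPolynomial (ZMod m) k
  let v : ℕ → R := fun i => MvPolynomial.X (i : ZMod m)
  let ev : ℕ → (R →ₐ[k] k) := fun n => MvPolynomial.aeval fun a : ZMod m => x n a.val
  have hev : ∀ n i, ev n (v i) = x n i := by
    intro n i
    simp only [ev, v, R, MvPolynomial.aeval_X, ZMod.val_natCast, hmod]
  let I : Ideal R := Ideal.span (Set.range fun i => aevalAeval (v i) (v (i + 1)) A)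
  have hI : ∀ n, I ≤ RingHom.ker (ev n) := by
    intro n
    refine Ideal.span_le.2 ?_
    rintro _ ⟨i, rfl⟩
    simp only [SetLike.mem_coe, RingHom.mem_ker]
    rw [hom_biv, hev, hev, hA]
  have hex : ∀ n, ∃ P ∈ I.minimalPrimes, P ≤ RingHom.ker (ev n) := fun n =>
    have := RingHom.ker_isPrime (ev n)
    Ideal.exists_minimalPrimes_le (hI n)
  choose Pn hPn hle using hex
  have hfin : I.minimalPrimes.Finite := Ideal.finite_minimalPrimes_of_isNoetherianRing R I
  have : Finite I.minimalPrimes := hfin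
  obtain ⟨P, hP⟩ := Finite.exists_infinite_fiber fun n => (⟨Pn n, hPn n⟩ : I.minimalPrimes)
  have hP' : {n | Pn n = P.1}.Infinite := by
    have := Set.infinite_coe_iff.1 hP
    refine this.mono fun n hn => ?_
    simpa [Subtype.ext_iff] using hn
  obtain ⟨n, hn, hnT⟩ := (hP'.sdiff hT).nonempty
  obtain ⟨n', hn', hne⟩ := (hP'.sdiff (Set.finite_singleton n)).nonempty
  have hPp : P.1.IsPrime := P.2.1.1
  have hIP : I ≤ P.1 := P.2.1.2
  have h1 : P.1 ≤ RingHom.ker (ev n) := (show Pn n = P.1 from hn) ▸ hle n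
  have h2 : P.1 ≤ RingHom.ker (ev n') := (show Pn n' = P.1 from hn') ▸ hle n'
  let D := R ⧸ P.1
  let W := AlgebraicClosure (FractionRing D)
  let φ : R →ₐ[k] W := (IsScalarTower.toAlgHom k D W).comp (Ideal.Quotient.mkₐ k P.1)
  have hφ : ∀ r, φ r = 0 ↔ r ∈ P.1 := by
    intro r
    have hi : Function.Injective (algebraMap D W) := by
      rw [IsScalarTower.algebraMap_eq D (FractionRing D) W]
      exact (algebraMap (FractionRing D) W).injective.comp (IsFractionRing.injective D _)
    change algebraMap D W (Ideal.Quotient.mk P.1 r) = 0 ↔ _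
    rw [map_eq_zero_iff _ hi, Ideal.Quotient.eq_zero_iff_mem]
  let ψ : R →+* (φ : R →+* W).range := (φ : R →+* W).rangeRestrict
  have hψ : Function.Surjective ψ := RingHom.rangeRestrict_surjective _
  have hJ : (RingHom.ker (ev n)).map ψ ≠ ⊤ := by
    intro h
    have h3 : (1 : (φ : R →+* W).range) ∈ (RingHom.ker (ev n)).map ψ := h ▸ Submodule.mem_top
    obtain ⟨r, hr, hr1⟩ := (Ideal.mem_map_iff_of_surjective ψ hψ).1 h3
    have h4 : φ (r - 1) = 0 := by
      have : φ r = 1 := congrArg Subtype.val hr1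
      rw [map_sub, map_one, this, sub_self]
    have h5 := h1 ((hφ _).1 h4)
    rw [RingHom.mem_ker] at hr h5
    rw [map_sub, map_one, hr] at h5
    simp at h5
  obtain ⟨O, hO1, hO2⟩ := Ideal.image_subset_nonunits_valuationSubring _ hJ
  refine ⟨n, hnT, W, inferInstance, inferInstance, inferInstance, O, fun i => φ (v i),
    fun c => hO1 ⟨algebraMap k R c, φ.commutes c⟩, fun i => ?_, fun i => ?_, fun i => ?_,
    fun h => ?_⟩
  · simp only [v, Nat.cast_add, ZMod.natCast_self, add_zero]
  · have h3 : v i - algebraMap k R (x n i) ∈ RingHom.ker (ev n) := by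
      rw [RingHom.mem_ker, map_sub, hev, AlgHom.commutes]
      simp
    have h4 := hO2 ⟨_, Ideal.mem_map_of_mem ψ h3, rfl⟩
    have h5 : φ (v i - algebraMap k R (x n i)) ∈ O.nonunits := h4
    rw [map_sub, AlgHom.commutes] at h5
    exact (O.mem_nonunits_iff).1 h5
  · rw [← hom_biv, hφ]
    exact hIP (Ideal.subset_span ⟨i, rfl⟩)
  · have h3 : φ (v 0 - algebraMap k R (x n 0)) = 0 := by
      rw [map_sub, AlgHom.commutes]
      exact sub_eq_zero.2 h
    have h4 := h2 ((hφ _).1 h3)
    rw [RingHom.mem_ker, map_sub, hev, AlgHom.commutes] at h4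
    exact hne (hinj (sub_eq_zero.1 h4))

end def_h

theorem p_DEF :
    S_DEF := by
  intro A m W hm hper hA hinj
  obtain ⟨n, -, Ω, _, _, _, O, u, hO, h1, h2, h3, h4⟩ := def_h.defm Qbar A m hm W ∅
    Set.finite_empty hper (fun n i => by rw [ev2_aeval]; exact hA n i) hinj
  exact ⟨n, Ω, _, ‹_›, algebraMap Qbar Ω, O, u, m, hm, hO, h1, h2,
    fun i => by rw [← ev2_aeval]; exact h3 i, h4⟩

end Pool.Agent.P.MP_8d2e9f_nt.AO
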