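import Pool.Agent.P.MP_8d2e9f_nt.AO.IfaceC

/-! Step EAMP. -/

set_option autoImplicit false

namespace Pool.Agent.P.MP_8d2e9f_nt.AO

open Polynomial NumberField Pool.Agent.P.MP_8d2e9f_nt.G
open scoped IntermediateField Classical

theorem eamp_mul {A : Type} [AddCommGroup A] (h : A → ℝ) (h0 : ∀ P, 0 ≤ h P) (hz : h 0 = 0)
    (ha : ∀ P Q, h (P + Q) ≤ 2 * h P + 2 * h Q) (T : A) (m : ℕ) : h (m • T) ≤ 4 ^ m * h T := by
  induction m with
  | zero => rw [zero_smul, hz]; simpa using h0 T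
  | succ m ih =>
    have a := ha (m • T) T
    have b : h T ≤ 4 ^ m * h T := le_mul_of_one_le_left (h0 T) (one_le_pow₀ (by norm_num))
    rw [succ_nsmul, pow_succ]
    linarith

theorem p_EAMP (hPF : S_PF) (hETW : S_ETW) (hETX : S_ETX) (hEHT : S_EHT) (hECON : S_ECON) :
    S_EAMP := by
  intro K α β e p _ j r H hK hα hβ hu hT jα jβ hr hH
  have hp : p.Prime := Fact.out
  have he : 0 < 2 * e := by rcases hT.2 with h | ⟨h, -⟩ | ⟨h, -⟩ <;> omega
  obtain ⟨h0, hadd, htw, htor⟩ := hEHT α β H hT.1 hH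
  obtain ⟨hid, -, hx, -⟩ := hETX α β e hT
  obtain ⟨C, hC⟩ := hH.2
  have C0 : 0 ≤ C := (abs_nonneg _).trans (hC none)
  have hρ : 1 < min r (p : ℝ) := lt_min hr (by exact_mod_cast hp.one_lt)
  obtain ⟨n, hn⟩ := pow_unbounded_of_one_lt
    (Real.exp ((2 * e : ℕ) * (1 + C)) ^ Module.finrank ℚ K) hρ
  have hρn : 1 ≤ min r (p : ℝ) ^ n := one_le_pow₀ hρ.le
  have hR : min r (p : ℝ) ^ n ≤ r * min r (p : ℝ) ^ n :=
    le_mul_of_one_le_left (by linarith) hr.le
  have hR0 : 0 < r * min r (p : ℝ) ^ n := by linarith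
  have hg : ∀ σ : GK K, Tw α β σ 1 := fun σ =>
    ⟨one_ne_zero, by rw [one_pow, one_mul]; exact σ.commutes ⟨α, hα⟩,
      by rw [one_pow, one_mul]; exact σ.commutes ⟨β, hβ⟩⟩
  refine ⟨n, (4 ^ (p ^ n + 1))⁻¹, by positivity, fun P s hP hN => ?_⟩
  by_contra hne
  push Not at hne
  have hex : ∀ u : nthRootsFinset (2 * e) (1 : Qbar), ∃ x,
      xp (p ^ n • (twp s 1 P - twp (RingHom.id _) u.1 P)) = some x := fun u =>
    Option.ne_none_iff_exists'.1 fun h =>
      hne u.1 ((mem_nthRootsFinset he 1).1 u.2) ((hx _).2.2.2.1 h)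
  choose x hxu using hex
  have hw : ∀ u, wh (x u) ≤ 1 + C := by
    intro u
    have a1 := eamp_mul (fun T : (ec α β).Point => H (xp T)) h0
      (htor 0 IsOfFinAddOrder.zero) hadd (twp s 1 P - twp (RingHom.id _) u.1 P) (p ^ n)
    have a2 := hadd (twp s 1 P) (-twp (RingHom.id _) u.1 P)
    have e1 : ((1 : GK K) : Qbar →+* Qbar) = RingHom.id _ := RingHom.ext fun _ => rfl
    have a3 := htw K 1 u.1 (e1 ▸ (hid u.1 ((mem_nthRootsFinset he 1).1 u.2)).1) P
    rw [e1] at a3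
    rw [(hx _).2.2.1, a3, htw K s 1 (hg s), ← sub_eq_add_neg] at a2
    simp only [hxu] at a1
    have a4 : (4 : ℝ) ^ (p ^ n + 1) * H (xp P) ≤ 1 := by
      rw [← le_div_iff₀' (by positivity), one_div]
      exact hP.le
    have a5 : (4 : ℝ) ^ p ^ n * H (xp (twp s 1 P - twp (RingHom.id _) u.1 P)) ≤
        4 ^ p ^ n * (2 * H (xp P) + 2 * H (xp P)) := by gcongr
    have a6 := (abs_le.1 (hC (some (x u)))).1
    rw [pow_succ] at a4
    unfold wh
    linarith
  have h1 := hPF K p j (nthRootsFinset (2 * e) (1 : Qbar)) Unit x (fun _ => 1) (fun _ => 1)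
    (fun _ _ => 0) (r * min r (p : ℝ) ^ n)⁻¹ hK (fun _ _ => Nat.zero_le _) (by simp)
    (inv_le_one_of_one_le₀ (by linarith)) fun σ => by
      obtain ⟨u, hu1, hN⟩ := hN σ
      have hm := (mem_nthRootsFinset he (1 : Qbar)).2 hu1
      obtain ⟨b1, -, b2, b3⟩ := hETW α β σ 1 (hg σ)
      have b4 := ((hETW α β _ u (hid u hu1).1).2.2.2 σ 1 (hg σ)).2 P
      have b5 := (b3 _ u (hid u hu1).1).2 P
      have b6 : (σ : Qbar →+* Qbar) u = u := σ.commutes ⟨u, hu u hu1⟩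
      rw [RingHom.id_comp, map_one, mul_one] at b4
      rw [RingHom.comp_id, one_mul, b6, ← b4] at b5
      have b7 : twp σ 1 (p ^ n • (twp s 1 P - twp (RingHom.id _) u P)) =
          p ^ n • (twp σ 1 (twp s 1 P) - twp (RingHom.id _) u (twp σ 1 P)) := by
        rw [← b5]
        exact ((AddMonoidHom.mk' _ b1).map_nsmul _ _).trans
          (congrArg _ ((AddMonoidHom.mk' _ b1).map_sub _ _))
      have b8 := hECON α β p j r hT.1 jα jβ hr n _ hN (σ (x ⟨u, hm⟩)) (by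
        rw [← b7, b2, hxu ⟨u, hm⟩]
        simp)
      have b9 : max 1 ‖j (σ (x ⟨u, hm⟩))‖ ^ 1 ≤ ∏ i, max 1 ‖j (σ (x i))‖ ^ 1 := by
        rw [← Finset.mul_prod_erase _ _
          (Finset.mem_univ (⟨u, hm⟩ : nthRootsFinset (2 * e) (1 : Qbar)))]
        exact le_mul_of_one_le_right (by positivity)
          (Finset.one_le_prod fun i _ => one_le_pow₀ (le_max_left _ _))
      rw [pow_one] at b9
      rw [le_inv_mul_iff₀ hR0]
      simpa using b8.trans ((le_max_right _ _).trans b9)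
  rw [le_mul_inv_iff₀ hR0, one_mul] at h1
  refine absurd (hR.trans h1) (not_le.2 (lt_of_le_of_lt ?_ hn))
  have c1 : (nthRootsFinset (2 * e) (1 : Qbar)).card ≤ 2 * e :=
    (Multiset.toFinset_card_le _).trans (card_nthRoots _ _)
  have c2 : ∑ i, ((1 : ℕ) : ℝ) * wh (x i) ≤ (2 * e : ℕ) * (1 + C) := by
    refine (Finset.sum_le_card_nsmul _ _ (1 + C) fun i _ => by simpa using hw i).trans ?_
    rw [nsmul_eq_mul, Finset.card_univ, Fintype.card_coe]
    gcongr
  gcongr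
  simpa using c2

end Pool.Agent.P.MP_8d2e9f_nt.AO
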