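import Pool.Agent.P.MP_8d2e9f_nt.AO.IfaceC

/-! Step ECON. -/

set_option autoImplicit false

namespace Pool.Agent.P.MP_8d2e9f_nt.AO

open Polynomial NumberField Pool.Agent.P.MP_8d2e9f_nt.G
open scoped IntermediateField Classical

lemma econ_tx {α β : Qbar} {p : ℕ} [Fact p.Prime] (j : Qbar →+* Om p) (hα : ‖j α‖ ≤ 1)
    (hβ : ‖j β‖ ≤ 1) {x y : Qbar} (h : (ec α β).Nonsingular x y) (hx : 1 < ‖j x‖) :
    ‖j (tp (.some x y h))‖ ^ 2 * ‖j x‖ = 1 := by
  have e : y ^ 2 = x ^ 3 + (α * x + β) := by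
    have := (WeierstrassCurve.Affine.equation_iff _ _).1 h.1
    simp only [ec] at this
    linear_combination this
  have h1 : ‖j (α * x + β)‖ ≤ ‖j x‖ := by
    rw [map_add, map_mul]
    refine (IsUltrametricDist.norm_add_le_max _ _).trans (max_le ?_ (hβ.trans hx.le))
    rw [norm_mul]
    exact mul_le_of_le_one_left (norm_nonneg _) hα
  have h2 : ‖j x‖ < ‖j (x ^ 3)‖ := by
    rw [map_pow, norm_pow]
    exact lt_self_pow₀ hx (by norm_num)
  have h3 : ‖j y‖ ^ 2 = ‖j x‖ ^ 3 := by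
    rw [← norm_pow, ← map_pow, e, map_add,
      IsUltrametricDist.norm_add_eq_max_of_norm_ne_norm (h1.trans_lt h2).ne',
      max_eq_left (h1.trans_lt h2).le, map_pow, norm_pow]
  have h4 : 0 < ‖j x‖ := zero_lt_one.trans hx
  simp only [tp, map_div₀, map_neg, norm_div, norm_neg, div_pow]
  rw [h3]
  field_simp

lemma econ_le {α β : Qbar} {p : ℕ} [Fact p.Prime] (j : Qbar →+* Om p) (hα : ‖j α‖ ≤ 1)
    (hβ : ‖j β‖ ≤ 1) {r : ℝ} (hr : 1 < r) {T : (ec α β).Point} (h : Nr j r T) :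
    r * ‖j (tp T)‖ ^ 2 ≤ 1 := by
  rcases T with _ | ⟨x, y, hxy⟩
  · simp [tp]
  · have h1 := h x rfl
    rw [← econ_tx j hα hβ hxy (hr.trans_le h1), mul_comm]
    exact mul_le_mul_of_nonneg_left h1 (sq_nonneg _)

lemma econ_step (hETA : S_ETA) {α β : Qbar} {p : ℕ} [hp : Fact p.Prime] (j : Qbar →+* Om p)
    (hD : 4 * α ^ 3 + 27 * β ^ 2 ≠ 0) (hα : ‖j α‖ ≤ 1) (hβ : ‖j β‖ ≤ 1) {r : ℝ} (hr : 1 < r)
    {T : (ec α β).Point} (h : Nr j r T) : Nr j (r * min r p) (p • T) := by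
  have hr0 : 0 < r := zero_lt_one.trans hr
  have key : ∀ m : ℕ, Nr j r (m • T) ∧ r ^ 3 * ‖j (tp (m • T) - m * tp T)‖ ^ 2 ≤ 1 := by
    intro m
    induction m with
    | zero =>
      rw [zero_nsmul]
      exact ⟨fun x hx => by simp [xp] at hx, by simp [tp]⟩
    | succ m ih =>
      obtain ⟨h1, h2⟩ := hETA α β p j r hD hα hβ hr _ _ ih.1 h
      rw [succ_nsmul]
      refine ⟨h1, ?_⟩
      have e : tp (m • T + T) - ((m + 1 : ℕ) : Qbar) * tp T =
          (tp (m • T + T) - tp (m • T) - tp T) + (tp (m • T) - m * tp T) := by push_cast; ring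
      rw [e, map_add]
      have h3 := IsUltrametricDist.norm_add_le_max (j (tp (m • T + T) - tp (m • T) - tp T))
        (j (tp (m • T) - m * tp T))
      rcases le_max_iff.1 h3 with h4 | h4
      · exact le_trans (by gcongr) h2
      · exact le_trans (by gcongr) ih.2
  obtain ⟨h1, h2⟩ := key p
  have hp1 : (1 : ℝ) < p := by exact_mod_cast hp.out.one_lt
  have hm1 : 1 ≤ min r p := le_min hr.le hp1.le
  have hpn : ‖j p‖ = (p : ℝ)⁻¹ := by
    rw [map_natCast, ← map_natCast (algebraMap ℚ_[p] (Om p)), norm_algebraMap', Padic.norm_p]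
  have h3 : r * min r p * ‖j (tp (p • T))‖ ^ 2 ≤ 1 := by
    have e : tp (p • T) = (tp (p • T) - p * tp T) + p * tp T := by ring
    have h4 := IsUltrametricDist.norm_add_le_max (j (tp (p • T) - p * tp T)) (j (p * tp T))
    rw [← map_add, ← e] at h4
    rcases le_max_iff.1 h4 with h5 | h5
    · refine le_trans ?_ h2
      have : r * min r p ≤ r ^ 3 := by
        have := min_le_left r p
        nlinarith [mul_pos hr0 hr0]
      gcongr
    · refine le_trans ?_ (econ_le j hα hβ hr h)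
      rw [map_mul, norm_mul, hpn] at h5
      have h6 : ‖j (tp (p • T))‖ * p ≤ ‖j (tp T)‖ := by
        rwa [inv_mul_eq_div, le_div_iff₀ (zero_lt_one.trans hp1)] at h5
      have h7 : min r p ≤ (p : ℝ) ^ 2 := (min_le_right _ _).trans (le_self_pow₀ hp1.le two_ne_zero)
      calc r * min r p * ‖j (tp (p • T))‖ ^ 2 ≤ r * (p : ℝ) ^ 2 * ‖j (tp (p • T))‖ ^ 2 := by gcongr
        _ = r * (‖j (tp (p • T))‖ * p) ^ 2 := by ring
        _ ≤ r * ‖j (tp T)‖ ^ 2 := by gcongr
  generalize p • T = S at h1 h3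
  rcases S with _ | ⟨x, y, hxy⟩
  · exact fun x hx => by simp [xp] at hx
  · intro x' hx'
    obtain rfl : x = x' := Option.some.inj hx'
    have h4 := h1 x rfl
    have h5 := econ_tx j hα hβ hxy (hr.trans_le h4)
    have h6 : 0 < ‖j x‖ := hr0.trans_le h4
    calc r * min r p = r * min r p * (‖j (tp (.some x y hxy))‖ ^ 2 * ‖j x‖) := by
          rw [h5, mul_one]
      _ = r * min r p * ‖j (tp (.some x y hxy))‖ ^ 2 * ‖j x‖ := by ring
      _ ≤ 1 * ‖j x‖ := by gcongr
      _ = ‖j x‖ := one_mul _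

theorem p_ECON (hETA : S_ETA) :
    S_ECON := by
  intro α β p hp j r hD hα hβ hr n T h
  have hp1 : (1 : ℝ) < p := by exact_mod_cast hp.out.one_lt
  have hm1 : 1 ≤ min r p := le_min hr.le hp1.le
  induction n with
  | zero => simpa using h
  | succ n ih =>
    have h1 : r ≤ r * min r p ^ n :=
      le_mul_of_one_le_right (zero_lt_one.trans hr).le (one_le_pow₀ hm1)
    have h2 := econ_step hETA j hD hα hβ (hr.trans_le h1) ih
    rw [pow_succ' p n, mul_smul]
    intro x hx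
    refine le_trans ?_ (h2 x hx)
    rw [pow_succ, ← mul_assoc]
    exact mul_le_mul_of_nonneg_left (min_le_min_right _ h1)
      ((zero_lt_one.trans hr).le.trans h1)

end Pool.Agent.P.MP_8d2e9f_nt.AO
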