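import Pool.Agent.P.MP_8d2e9f_nt.AO.IfaceC

/-! Step EDB. -/

set_option autoImplicit false

namespace Pool.Agent.P.MP_8d2e9f_nt.AO

open Polynomial NumberField Pool.Agent.P.MP_8d2e9f_nt.G
open scoped IntermediateField Classical

lemma edb_some (α β x : Qbar) : dbl α β (some x) = if 4 * (x ^ 3 + α * x + β) = 0 then none else
    some ((x ^ 4 - 2 * α * x ^ 2 - 8 * β * x + α ^ 2) / (4 * (x ^ 3 + α * x + β))) := by
  have hA : (dbn α β).natDegree ≤ 4 := by unfold dbn; compute_degree
  have hB : (dbd α β).natDegree ≤ 4 := by unfold dbd cub; compute_degree; all_goals omega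
  rw [dbl, im_some hA hB]
  simp only [dbn, dbd, cub, eval_add, eval_sub, eval_mul, eval_pow, eval_C, eval_X]

lemma edb_none (α β : Qbar) : dbl α β none = none := by
  have hB : (dbd α β).natDegree < 4 := by
    refine Nat.lt_succ_of_le ?_
    unfold dbd cub; compute_degree
  rw [dbl, im_none, if_pos (coeff_eq_zero_of_natDegree_lt hB)]

theorem p_EDB :
    S_EDB := by
  intro α β _ P
  rcases P with _ | ⟨x, y, h⟩
  · change xp (0 + 0 : (ec α β).Point) = dbl α β none
    rw [add_zero, edb_none]; rfl
  · have he : y ^ 2 = x ^ 3 + α * x + β := by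
      simpa [ec] using ((ec α β).equation_iff x y).1 h.1
    have hn : (ec α β).negY x y = -y := by simp [ec, WeierstrassCurve.Affine.negY]
    change _ = dbl α β (some x)
    rw [edb_some, ← he]
    by_cases hy : y = (ec α β).negY x y
    · rw [WeierstrassCurve.Affine.Point.add_self_of_Y_eq hy]
      rw [hn] at hy
      rw [if_pos (by linear_combination (2 * y) * hy)]
      rfl
    · rw [WeierstrassCurve.Affine.Point.add_self_of_Y_ne hy]
      have h0 : y ≠ 0 := fun e => hy (by rw [hn, e, neg_zero])
      rw [if_neg (mul_ne_zero (by norm_num) (pow_ne_zero 2 h0))]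
      change some _ = some _
      rw [WeierstrassCurve.Affine.slope_of_Y_ne rfl hy, hn]
      congr 1
      simp only [WeierstrassCurve.Affine.addX, ec]
      have h2 : y - -y = 2 * y := by ring
      rw [h2]
      field_simp
      linear_combination (-32 * x) * he

end Pool.Agent.P.MP_8d2e9f_nt.AO
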