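import Pool.Agent.P.MP_8d2e9f_nt.AO.IfaceC

/-! Step EHT. -/

set_option autoImplicit false

namespace Pool.Agent.P.MP_8d2e9f_nt.AO

open Polynomial NumberField Pool.Agent.P.MP_8d2e9f_nt.G
open scoped IntermediateField Classical

lemma eht_lim {x C : ℝ} (h : ∀ n : ℕ, 4 ^ n * x ≤ C) : x ≤ 0 := by
  by_contra hx
  have x0 : 0 < x := not_le.1 hx
  obtain ⟨n, hn⟩ := pow_unbounded_of_one_lt (C / x) (show (1 : ℝ) < 4 by norm_num)
  rw [div_lt_iff₀ x0] at hn
  exact absurd (h n) (not_le.2 hn)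

lemma eht_pow {A : Type} [AddCommGroup A] {G : A → ℝ} (h : ∀ P, G (P + P) = 4 * G P) (n : ℕ)
    (P : A) : G (2 ^ n • P) = 4 ^ n * G P := by
  induction n with
  | zero => simp
  | succ n ih => rw [pow_succ', mul_smul, two_smul, h, ih, pow_succ']; ring

theorem p_EHT (hWH : S_WH) (hETW : S_ETW) (hEDB : S_EDB) (hEWK : S_EWK) :
    S_EHT := by
  intro α β H hΔ ⟨h1, C, hC⟩
  obtain ⟨D, hD⟩ := hEWK α β hΔ
  have g : ∀ P : (ec α β).Point, H (xp (P + P)) = 4 * H (xp P) := fun P => by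
    rw [hEDB α β hΔ, h1]
    norm_num
  have gp := eht_pow (G := fun P : (ec α β).Point => H (xp P)) g
  have w0 : ∀ x, 0 ≤ weilHeight x := fun x => by
    cases x with
    | none => exact le_rfl
    | some x => exact hWH.2.2.1 x
  have p0 : ∀ P : (ec α β).Point, 0 ≤ H (xp P) := fun P => by
    have := eht_lim (x := -H (xp P)) (C := C) fun n => by
      linarith [gp n P, (abs_le.1 (hC (xp (2 ^ n • P)))).1, w0 (xp (2 ^ n • P))]
    linarith
  refine ⟨p0, fun P Q => ?_, fun K σ u hu P => ?_, fun P hP => ?_⟩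
  · have := eht_lim (x := H (xp (P + Q)) - 2 * H (xp P) - 2 * H (xp Q)) (C := 5 * C + D) fun n => by
      have a1 := gp n (P + Q)
      rw [nsmul_add] at a1
      linarith [gp n P, gp n Q, hD (2 ^ n • P) (2 ^ n • Q),
        (abs_le.1 (hC (xp (2 ^ n • P + 2 ^ n • Q)))).2, (abs_le.1 (hC (xp (2 ^ n • P)))).1,
        (abs_le.1 (hC (xp (2 ^ n • Q)))).1]
    linarith
  · obtain ⟨t1, -, t3, -⟩ := hETW α β σ u hu
    have dg : (Polynomial.C (u ^ 2) * X : Qbar[X]).natDegree = 1 := natDegree_C_mul_X _ (pow_ne_zero 2 hu.1)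
    obtain ⟨E, hE⟩ := hWH.2.1 (Polynomial.C (u ^ 2) * X) (by rw [dg]; exact one_pos)
    have tp := eht_pow (G := fun P : (ec α β).Point => H (xp (twp σ u P))) fun P => by
      rw [t1, g]
    have b : ∀ Q : (ec α β).Point, |weilHeight (xp (twp σ u Q)) - weilHeight (xp Q)| ≤ E := by
      intro Q
      rw [t3]
      cases xp Q with
      | none => simpa [weilHeight] using (abs_nonneg _).trans (hE 0)
      | some x =>
        have := hE (σ x)
        rw [dg, hWH.1 K σ x, Nat.cast_one, one_mul, eval_mul, eval_C, eval_X] at this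
        exact this
    have a1 := eht_lim (x := H (xp (twp σ u P)) - H (xp P)) (C := 2 * C + E) fun n => by
      linarith [gp n P, tp n P, (abs_le.1 (b (2 ^ n • P))).2, (abs_le.1 (hC (xp (2 ^ n • P)))).1,
        (abs_le.1 (hC (xp (twp σ u (2 ^ n • P))))).2]
    have a2 := eht_lim (x := H (xp P) - H (xp (twp σ u P))) (C := 2 * C + E) fun n => by
      linarith [gp n P, tp n P, (abs_le.1 (b (2 ^ n • P))).1, (abs_le.1 (hC (xp (2 ^ n • P)))).2,
        (abs_le.1 (hC (xp (twp σ u (2 ^ n • P))))).1]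
    linarith
  · obtain ⟨B, hB⟩ := (hP.finite_multiples.image fun Q : (ec α β).Point => H (xp Q)).bddAbove
    refine le_antisymm (eht_lim (C := B) fun n => ?_) (p0 P)
    rw [← gp n P]
    exact hB ⟨_, ⟨2 ^ n, rfl⟩, rfl⟩

end Pool.Agent.P.MP_8d2e9f_nt.AO
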