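import Pool.Agent.P.MP_8d2e9f_nt.AO.IfaceC

/-! Step EIG. -/

set_option autoImplicit false

namespace Pool.Agent.P.MP_8d2e9f_nt.AO

open Polynomial NumberField Pool.Agent.P.MP_8d2e9f_nt.G
open scoped IntermediateField Classical

theorem p_EIG (hCANR : S_CANR) (hFORMR : S_FORMR) (hLIFTR : S_LIFTR) (hCOMPO : S_COMPO) :
    S_EIG := by
  intro K L d a b hK hA hN hG
  simp only [GapA, not_forall, not_exists, not_and] at hG
  obtain ⟨H, hH, K', hK', hG⟩ := hG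
  have : Fd K := hK
  have : Fd K' := hK'
  obtain ⟨K₁, h1, h2, h3⟩ := ex_field (K := K ⊔ K') (IntermediateField.finiteDimensional_sup _ _)
    ((coeff_fin a).union (coeff_fin b))
  obtain ⟨a', rfl⟩ := ex_poly fun i => h3 _ (Or.inl ⟨i, rfl⟩)
  obtain ⟨b', rfl⟩ := ex_poly fun i => h3 _ (Or.inr ⟨i, rfl⟩)
  have hN' := nrm_of_map hN
  obtain ⟨k0, k1⟩ := (hCANR K₁ d a' b' hN').2.1 H hH
  have hA' := hCOMPO.1 K L K₁ hA
  rw [sup_eq_right.2 (le_sup_left.trans h2)] at hA'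
  refine hLIFTR K₁ d a' b' h1 hN' (hFORMR K₁ d a' b' _ h1 hN' k1 fun ε hε hf => ?_)
  obtain ⟨c, hc, hce, hm⟩ : ∃ c : ℝ, 0 < c ∧ c ≤ ε ∧ ∀ z ∈ {x ∈ {z | 0 < H (some z) ∧ Ab K₁ z} |
      H (some x) < ε}, c ≤ H (some z) := by
    rcases Set.eq_empty_or_nonempty {x ∈ {z | 0 < H (some z) ∧ Ab K₁ z} | H (some x) < ε} with e | e
    · exact ⟨ε, hε, le_rfl, by simp only [e, Set.mem_empty_iff_false, false_imp_iff, implies_true]⟩
    · obtain ⟨z, hz, hm⟩ := Set.exists_min_image _ (fun z => H (some z)) hf e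
      exact ⟨_, hz.1.1, hz.2.le, hm⟩
  obtain ⟨α, hα, h4, h5⟩ := hG c hc
  rcases α with _ | z
  · exact absurd h4 (by rw [k0]; exact lt_irrefl _)
  exact h5 (hm z ⟨⟨h4, hA'.2 z (sup_le_sup_left (le_sup_right.trans h2) L (some_mem_pts.1 hα))⟩,
    (not_le.1 h5).trans_le hce⟩)

end Pool.Agent.P.MP_8d2e9f_nt.AO
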