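import Pool.Agent.P.MP_8d2e9f_nt.AO.IfaceC

/-! Step ETA. -/

set_option autoImplicit false

namespace Pool.Agent.P.MP_8d2e9f_nt.AO

open Polynomial NumberField Pool.Agent.P.MP_8d2e9f_nt.G
open scoped IntermediateField Classical

section eta

variable {F : Type} [NormedField F] [IsUltrametricDist F]

lemma eta_le {x y : F} {c : ℝ} (hx : ‖x‖ ≤ c) (hy : ‖y‖ ≤ c) : ‖x + y‖ ≤ c :=
  (IsUltrametricDist.norm_add_le_max x y).trans (max_le hx hy)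

lemma eta_lt {x y : F} {c : ℝ} (hx : ‖x‖ < c) (hy : ‖y‖ < c) : ‖x + y‖ < c :=
  (IsUltrametricDist.norm_add_le_max x y).trans_lt (max_lt hx hy)

lemma eta_eq {x y : F} (h : ‖y‖ < ‖x‖) : ‖x + y‖ = ‖x‖ := by
  rw [IsUltrametricDist.norm_add_eq_max_of_norm_ne_norm h.ne', max_eq_left h.le]

lemma eta_nat (n : ℕ) (x : F) : ‖(n : F) * x‖ ≤ ‖x‖ := by
  rw [norm_mul]
  exact mul_le_of_le_one_left (norm_nonneg x) (IsUltrametricDist.norm_natCast_le_one F n)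

lemma eta_third {a b x₁ x₂ x₃ l ν : F} {r : ℝ} (ha : ‖a‖ ≤ 1) (hb : ‖b‖ ≤ 1) (hr : 1 < r)
    (h1 : r ≤ ‖x₁‖) (h2 : r ≤ ‖x₂‖) (e1 : x₁ + x₂ + x₃ = l ^ 2)
    (e2 : x₁ * x₂ + x₁ * x₃ + x₂ * x₃ = a - 2 * l * ν) (e3 : x₁ * x₂ * x₃ = ν ^ 2 - b) :
    r ≤ ‖x₃‖ := by
  by_contra h3
  rw [not_le] at h3
  have h0 := norm_nonneg x₃
  have e : (x₁ * x₂ + (x₁ * x₃ + x₂ * x₃ + -a)) ^ 2 =
      ((4 : ℕ) : F) * ((x₁ + x₂ + x₃) * (x₁ * x₂ * x₃ + b)) := by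
    have : x₁ * x₂ + (x₁ * x₃ + x₂ * x₃ + -a) = -(2 * l * ν) := by linear_combination e2
    rw [this, e1, e3]
    push_cast
    ring
  obtain ⟨u, hu⟩ : ∃ u, u = ‖x₁‖ := ⟨_, rfl⟩
  obtain ⟨v, hv⟩ : ∃ v, v = ‖x₂‖ := ⟨_, rfl⟩
  have huv : ‖x₁ * x₂‖ = u * v := by rw [norm_mul, hu, hv]
  rw [← hu] at h1
  rw [← hv] at h2
  have hP : r * r ≤ u * v := mul_le_mul h1 h2 (by linarith) (by linarith)
  have hP1 : r < u * v := by nlinarith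
  have hl : ‖x₁ * x₂ + (x₁ * x₃ + x₂ * x₃ + -a)‖ = u * v := by
    rw [eta_eq, huv]
    rw [huv]
    refine eta_lt (eta_lt ?_ ?_) ?_
    · rw [norm_mul, ← hu]
      nlinarith
    · rw [norm_mul, ← hv]
      nlinarith
    · rw [norm_neg]
      linarith
  have hs : ‖x₁ + x₂ + x₃‖ * r ≤ u * v := by
    rw [← le_div_iff₀ (by linarith)]
    refine eta_le (eta_le ?_ ?_) ?_ <;> rw [le_div_iff₀ (by linarith)]
    · rw [← hu]
      nlinarith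
    · rw [← hv]
      nlinarith
    · nlinarith
  have ht : ‖x₁ * x₂ * x₃ + b‖ < u * v * r := by
    refine eta_lt ?_ (by nlinarith)
    rw [norm_mul, huv]
    nlinarith
  have h4 := congrArg norm e
  rw [norm_pow, hl] at h4
  have h5 := eta_nat 4 ((x₁ + x₂ + x₃) * (x₁ * x₂ * x₃ + b))
  rw [← h4, norm_mul] at h5
  have h6 := norm_nonneg (x₁ + x₂ + x₃)
  have h7 := norm_nonneg (x₁ * x₂ * x₃ + b)
  generalize ‖x₁ + x₂ + x₃‖ = s at *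
  generalize ‖x₁ * x₂ * x₃ + b‖ = t at *
  generalize u * v = w at *
  have h8 : s * t * r ≤ w * t := by nlinarith
  have h9 : w * t < w * (w * r) := mul_lt_mul_of_pos_left ht (by linarith)
  nlinarith

lemma eta_y {a b x y : F} (ha : ‖a‖ ≤ 1) (hb : ‖b‖ ≤ 1) (hx : 1 < ‖x‖)
    (e : y ^ 2 = x ^ 3 + a * x + b) : ‖y‖ ^ 2 = ‖x‖ ^ 3 := by
  have h3 : ‖x‖ < ‖x‖ ^ 3 := by nlinarith [mul_pos (sub_pos.2 hx) (sub_pos.2 hx)]
  rw [← norm_pow, e, add_assoc, eta_eq, norm_pow]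
  rw [norm_pow]
  refine eta_lt ?_ (by linarith)
  rw [norm_mul]
  nlinarith [norm_nonneg a]

lemma eta_sum {a b x₁ x₂ x₃ l ν : F} {r : ℝ} (ha : ‖a‖ ≤ 1) (hb : ‖b‖ ≤ 1) (hr : 1 < r)
    (h1 : r ≤ ‖x₁‖) (h2 : r ≤ ‖x₂‖) (h3 : r ≤ ‖x₃‖) (e1 : x₁ + x₂ + x₃ = l ^ 2)
    (e2 : x₁ * x₂ + x₁ * x₃ + x₂ * x₃ = a - 2 * l * ν) (e3 : x₁ * x₂ * x₃ = ν ^ 2 - b) :
    r ^ 3 * ‖x₃ / (l * x₃ + ν) + x₁ / (l * x₁ + ν) + x₂ / (l * x₂ + ν)‖ ^ 2 ≤ 1 := by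
  have y1 : ‖l * x₁ + ν‖ ^ 2 = ‖x₁‖ ^ 3 := eta_y ha hb (hr.trans_le h1) (by
    linear_combination (-x₁ ^ 2) * e1 + x₁ * e2 - e3)
  have y2 : ‖l * x₂ + ν‖ ^ 2 = ‖x₂‖ ^ 3 := eta_y ha hb (hr.trans_le h2) (by
    linear_combination (-x₂ ^ 2) * e1 + x₂ * e2 - e3)
  have y3 : ‖l * x₃ + ν‖ ^ 2 = ‖x₃‖ ^ 3 := eta_y ha hb (hr.trans_le h3) (by
    linear_combination (-x₃ ^ 2) * e1 + x₃ * e2 - e3)
  have hr0 : 0 < r := by linarith
  have nz : ∀ {y x : F}, r ≤ ‖x‖ → ‖y‖ ^ 2 = ‖x‖ ^ 3 → y ≠ 0 := fun {y x} hx h hy => by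
    have : 0 < ‖x‖ ^ 3 := pow_pos (hr0.trans_le hx) 3
    rw [hy, norm_zero] at h
    linarith
  have n1 := nz h1 y1
  have n2 := nz h2 y2
  have n3 := nz h3 y3
  have e : (x₃ / (l * x₃ + ν) + x₁ / (l * x₁ + ν) + x₂ / (l * x₂ + ν)) *
      ((l * x₁ + ν) * (l * x₂ + ν) * (l * x₃ + ν)) =
      ((2 : ℕ) : F) * (a * (l * ν)) + -(((3 : ℕ) : F) * (b * (l * l))) := by
    generalize hy1 : l * x₁ + ν = y₁ at n1
    generalize hy2 : l * x₂ + ν = y₂ at n2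
    generalize hy3 : l * x₃ + ν = y₃ at n3
    have : (x₃ / y₃ + x₁ / y₁ + x₂ / y₂) * (y₁ * y₂ * y₃) =
        x₃ * y₁ * y₂ + x₁ * y₂ * y₃ + x₂ * y₁ * y₃ := by field_simp
    rw [this, ← hy1, ← hy2, ← hy3]
    push_cast
    linear_combination ν ^ 2 * e1 + 2 * l * ν * e2 + 3 * l ^ 2 * e3
  obtain ⟨P, hP⟩ : ∃ P, P = ‖x₁‖ * ‖x₂‖ * ‖x₃‖ := ⟨_, rfl⟩
  have q12 : r * r ≤ ‖x₁‖ * ‖x₂‖ := mul_le_mul h1 h2 hr0.le (norm_nonneg _)
  have q13 : r * r ≤ ‖x₁‖ * ‖x₃‖ := mul_le_mul h1 h3 hr0.le (norm_nonneg _)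
  have q23 : r * r ≤ ‖x₂‖ * ‖x₃‖ := mul_le_mul h2 h3 hr0.le (norm_nonneg _)
  have hrr : 0 < r * r := mul_pos hr0 hr0
  have hr2 : 1 < r * r := by nlinarith
  have hPr : r * r * r ≤ P := hP ▸ mul_le_mul q12 h3 hr0.le (by positivity)
  have hl : ‖l‖ ^ 2 * (r * r) ≤ P := by
    rw [← norm_pow, ← e1, ← le_div_iff₀ hrr]
    refine eta_le (eta_le ?_ ?_) ?_ <;> rw [le_div_iff₀ hrr, hP]
    · nlinarith [norm_nonneg x₁]
    · nlinarith [norm_nonneg x₂]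
    · nlinarith [norm_nonneg x₃]
  have hν : ‖ν‖ ^ 2 ≤ P := by
    rw [← norm_pow, show ν ^ 2 = x₁ * x₂ * x₃ + b by linear_combination -e3]
    refine eta_le (by rw [norm_mul, norm_mul, hP]) (by nlinarith)
  have hl0 := norm_nonneg l
  have hP0 : 0 < P := by nlinarith
  have hs := Real.sq_sqrt hP0.le
  have hs0 := Real.sqrt_nonneg P
  have hν' : ‖ν‖ ≤ √P := Real.le_sqrt_of_sq_le hν
  have hl' : ‖l‖ ≤ √P := Real.le_sqrt_of_sq_le (by nlinarith [sq_nonneg ‖l‖])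
  have hN : ‖((2 : ℕ) : F) * (a * (l * ν)) + -(((3 : ℕ) : F) * (b * (l * l)))‖ ≤ ‖l‖ * √P := by
    refine eta_le ((eta_nat 2 _).trans ?_) ?_
    · rw [norm_mul, norm_mul]
      exact (mul_le_of_le_one_left (by positivity) ha).trans (by gcongr)
    · rw [norm_neg]
      refine (eta_nat 3 _).trans ?_
      rw [norm_mul, norm_mul]
      exact (mul_le_of_le_one_left (by positivity) hb).trans (by gcongr)
  rw [← e, norm_mul] at hN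
  have h4 := pow_le_pow_left₀ (by positivity) hN 2
  rw [mul_pow, norm_mul, norm_mul, mul_pow, mul_pow, y1, y2, y3, ← mul_pow, ← mul_pow, ← hP,
    mul_pow, hs] at h4
  have h5 := sq_nonneg ‖x₃ / (l * x₃ + ν) + x₁ / (l * x₁ + ν) + x₂ / (l * x₂ + ν)‖
  generalize ‖x₃ / (l * x₃ + ν) + x₁ / (l * x₁ + ν) + x₂ / (l * x₂ + ν)‖ ^ 2 = s at *
  generalize ‖l‖ ^ 2 = m at *
  have h6 : s * P ^ 2 ≤ m := le_of_mul_le_mul_right (by nlinarith) hP0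
  have h7 : s * P * (r * r) ≤ 1 := le_of_mul_le_mul_right (by nlinarith) hP0
  have h8 : s * (r * r * r) ≤ s * P := mul_le_mul_of_nonneg_left hPr h5
  have h9 : 0 ≤ s * P := mul_nonneg h5 hP0.le
  nlinarith

end eta

open WeierstrassCurve WeierstrassCurve.Affine in
lemma eta_line {α β x₁ x₂ y₁ y₂ : Qbar} (h₁ : (ec α β).Equation x₁ y₁)
    (h₂ : (ec α β).Equation x₂ y₂) (hxy : ¬(x₁ = x₂ ∧ y₁ = (ec α β).negY x₂ y₂)) :
    ∃ x₃ l ν : Qbar, (ec α β).addX x₁ x₂ ((ec α β).slope x₁ x₂ y₁ y₂) = x₃ ∧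
      (ec α β).addY x₁ x₂ y₁ ((ec α β).slope x₁ x₂ y₁ y₂) = -(l * x₃ + ν) ∧
      y₁ = l * x₁ + ν ∧ y₂ = l * x₂ + ν ∧ x₁ + x₂ + x₃ = l ^ 2 ∧
      x₁ * x₂ + x₁ * x₃ + x₂ * x₃ = α - 2 * l * ν ∧ x₁ * x₂ * x₃ = ν ^ 2 - β := by
  have h := addPolynomial_slope h₁ h₂ hxy
  rw [addPolynomial_eq, neg_inj, Cubic.prod_X_sub_C_eq, Cubic.toPoly_injective] at h
  have hb := congrArg Cubic.b h
  have hc := congrArg Cubic.c h
  have hd := congrArg Cubic.d h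
  have hy : y₂ = (ec α β).slope x₁ x₂ y₁ y₂ * x₂ + (y₁ - (ec α β).slope x₁ x₂ y₁ y₂ * x₁) := by
    by_cases hx : x₁ = x₂
    · rw [Y_eq_of_Y_ne h₁ h₂ hx fun h => hxy ⟨hx, h⟩, hx]
      ring
    · rw [slope_of_X_ne hx]
      have := sub_ne_zero.2 hx
      field_simp
      ring
  refine ⟨_, (ec α β).slope x₁ x₂ y₁ y₂, y₁ - (ec α β).slope x₁ x₂ y₁ y₂ * x₁, rfl, ?_, by ring,
    hy, ?_, ?_, ?_⟩
  · simp only [addY, negY, negAddY, ec]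
    ring
  · generalize (ec α β).addX x₁ x₂ _ = x₃ at *
    generalize (ec α β).slope x₁ x₂ y₁ y₂ = l at *
    simp only [ec] at hb
    linear_combination hb
  · generalize (ec α β).addX x₁ x₂ _ = x₃ at *
    generalize (ec α β).slope x₁ x₂ y₁ y₂ = l at *
    simp only [ec] at hc
    linear_combination -hc
  · generalize (ec α β).addX x₁ x₂ _ = x₃ at *
    generalize (ec α β).slope x₁ x₂ y₁ y₂ = l at *
    simp only [ec] at hd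
    linear_combination hd

open WeierstrassCurve WeierstrassCurve.Affine in
theorem p_ETA :
    S_ETA := by
  intro α β p _ j r _ ha hb hr P Q hP hQ
  rcases P with _ | ⟨x₁, y₁, h₁⟩
  · rw [← Point.zero_def, zero_add]
    exact ⟨hQ, by simp [show tp (0 : (ec α β).Point) = 0 from rfl]⟩
  rcases Q with _ | ⟨x₂, y₂, h₂⟩
  · rw [← Point.zero_def, add_zero]
    exact ⟨hP, by simp [show tp (0 : (ec α β).Point) = 0 from rfl]⟩
  by_cases hxy : x₁ = x₂ ∧ y₁ = (ec α β).negY x₂ y₂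
  · rw [Point.add_of_Y_eq hxy.1 hxy.2]
    refine ⟨fun x hx => (by cases hx), ?_⟩
    have : tp (0 : (ec α β).Point) - tp (Point.some x₁ y₁ h₁) - tp (Point.some x₂ y₂ h₂) = 0 := by
      change (0 : Qbar) - -x₁ / y₁ - -x₂ / y₂ = 0
      rw [hxy.2, hxy.1]
      simp only [negY, ec]
      ring
    rw [this]
    simp
  obtain ⟨x₃, l, ν, f1, f2, f3, f4, e1, e2, e3⟩ := eta_line h₁.1 h₂.1 hxy
  have h1 := hP x₁ rfl
  have h2 := hQ x₂ rfl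
  have g1 := congrArg j e1
  have g2 := congrArg j e2
  have g3 := congrArg j e3
  simp only [map_add, map_mul, map_sub, map_pow, map_ofNat] at g1 g2 g3
  have h3 := eta_third ha hb hr h1 h2 g1 g2 g3
  rw [Point.add_some hxy]
  refine ⟨fun x hx => ?_, ?_⟩
  · have : (ec α β).addX x₁ x₂ ((ec α β).slope x₁ x₂ y₁ y₂) = x := Option.some.inj hx
    rw [← this, f1]
    exact h3
  · have h4 := eta_sum ha hb hr h1 h2 h3 g1 g2 g3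
    change r ^ 3 * ‖j (-(ec α β).addX x₁ x₂ ((ec α β).slope x₁ x₂ y₁ y₂) /
      (ec α β).addY x₁ x₂ y₁ ((ec α β).slope x₁ x₂ y₁ y₂) - -x₁ / y₁ - -x₂ / y₂)‖ ^ 2 ≤ 1
    rw [f1, f2, neg_div_neg_eq, neg_div, neg_div, sub_neg_eq_add, sub_neg_eq_add]
    have : j (x₃ / (l * x₃ + ν) + x₁ / y₁ + x₂ / y₂) = j x₃ / (j l * j x₃ + j ν) +
        j x₁ / (j l * j x₁ + j ν) + j x₂ / (j l * j x₂ + j ν) := by
      rw [f3, f4]
      simp only [map_add, map_mul, map_div₀]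
    rw [this]
    exact h4

end Pool.Agent.P.MP_8d2e9f_nt.AO
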