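import Pool.Agent.P.MP_8d2e9f_nt.AO.IfaceC

/-! Step ETORS. -/

set_option autoImplicit false

namespace Pool.Agent.P.MP_8d2e9f_nt.AO

open Polynomial NumberField Pool.Agent.P.MP_8d2e9f_nt.G
open scoped IntermediateField Classical

lemma etors_mem {K E : IF} (hKE : K ≤ E) {w : Qbar}
    (h : ∀ ρ : GK K, (∀ c ∈ E, ρ c = c) → ρ w = w) : w ∈ E := by
  obtain ⟨c, rfl⟩ := (InfiniteGalois.mem_range_algebraMap_iff_fixed (k := E) w).2 fun ρ =>
    h (AlgEquiv.ofRingEquiv (f := ρ.toRingEquiv) fun c => ρ.commutes ⟨c, hKE c.2⟩)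
      fun c hc => ρ.commutes ⟨c, hc⟩
  exact c.2

theorem p_ETORS (hABG : S_ABG) (hETW : S_ETW) (hETX : S_ETX) :
    S_ETORS := by
  intro K E α β e P x y u s hKE hα hβ hμ hT hx hxE hP hu hT1 hy
  obtain ⟨x1, -, x3, x4⟩ := hETX α β e hT
  have tg : ∀ g : GK K, Tw α β (g : Qbar →+* Qbar) 1 := fun g =>
    ⟨one_ne_zero, by rw [one_pow, one_mul]; exact g.commutes ⟨α, hα⟩,
      by rw [one_pow, one_mul]; exact g.commutes ⟨β, hβ⟩⟩
  have gu : ∀ (g : GK K) (a : Qbar), a ^ (2 * e) = 1 → ∀ Q : (ec α β).Point,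
      twp (g : Qbar →+* Qbar) 1 (twp (RingHom.id _) a Q) =
        twp (RingHom.id _) a (twp (g : Qbar →+* Qbar) 1 Q) := fun g a ha Q => by
    have e1 : (g : Qbar →+* Qbar) a = a := g.commutes ⟨a, hμ a ha⟩
    rw [((hETW α β _ _ (tg g)).2.2.2 _ _ (x1 a ha).1).2, ((hETW α β _ _ (x1 a ha).1).2.2.2 _ _ (tg g)).2,
      RingHom.comp_id, RingHom.id_comp, e1, map_one, one_mul, mul_one]
  have uu : ∀ a b : Qbar, a ^ (2 * e) = 1 → b ^ (2 * e) = 1 → ∀ Q : (ec α β).Point,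
      twp (RingHom.id _) a (twp (RingHom.id _) b Q) = twp (RingHom.id _) (a * b) Q :=
    fun a b ha hb Q => by
      rw [((hETW α β _ _ (x1 a ha).1).2.2.2 _ _ (x1 b hb).1).2, RingHom.comp_id, RingHom.id_apply]
  have gg : ∀ (g g' : GK K) (Q : (ec α β).Point),
      twp (g : Qbar →+* Qbar) 1 (twp (g' : Qbar →+* Qbar) 1 Q) =
        twp ((g * g' : GK K) : Qbar →+* Qbar) 1 Q := fun g g' Q => by
    rw [((hETW α β _ _ (tg g)).2.2.2 _ _ (tg g')).2, map_one, one_mul]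
    rfl
  have gp : ∀ g : GK K, g (x ^ e) = x ^ e → ∃ a : Qbar, a ^ (2 * e) = 1 ∧
      twp (g : Qbar →+* Qbar) 1 P = twp (RingHom.id _) a P := fun g hg =>
    x4 P _ x (g x) hx (by rw [(hETW α β _ _ (tg g)).2.2.1, hx]; simp) (by rw [← map_pow, hg])
  refine etors_mem hKE.1 fun ρ hρ => ?_
  obtain ⟨u1, a1, b1⟩ := gp ρ (hρ _ hxE)
  obtain ⟨u2, a2, b2⟩ := gp (s⁻¹ * ρ * s) (by
    rw [AlgEquiv.mul_apply, AlgEquiv.mul_apply, hKE.2 _ hxE ρ s, hρ _ hxE, ← AlgEquiv.mul_apply,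
      inv_mul_cancel, AlgEquiv.one_apply])
  set T := twp (s : Qbar →+* Qbar) 1 P - twp (RingHom.id _) u P with hTd
  have e0 : twp (s : Qbar →+* Qbar) 1 P = twp (RingHom.id _) u P + T := by
    rw [hTd, add_sub_cancel]
  have e1 : twp (ρ : Qbar →+* Qbar) 1 (twp (s : Qbar →+* Qbar) 1 P) =
      twp (RingHom.id _) u2 (twp (s : Qbar →+* Qbar) 1 P) := by
    rw [← gu s u2 a2, ← b2, gg, gg, ← mul_assoc, ← mul_assoc, mul_inv_cancel, one_mul]
  rw [e0, (hETW α β _ _ (tg ρ)).1, (hETW α β _ _ (x1 u2 a2).1).1, gu ρ u hu, b1, uu _ _ hu a1,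
    uu _ _ a2 hu] at e1
  have m1 : (u * u1) ^ (2 * e) = 1 := by rw [mul_pow, hu, a1, one_mul]
  have m2 : (u2 * u) ^ (2 * e) = 1 := by rw [mul_pow, hu, a2, one_mul]
  have m3 : (u2 * u)⁻¹ ^ (2 * e) = 1 := by rw [inv_pow, m2, inv_one]
  have m4 : ((u2 * u)⁻¹ * (u * u1)) ^ (2 * e) = 1 := by rw [mul_pow, m3, m1, one_mul]
  have n2 : u2 * u ≠ 0 := (x1 _ m2).1.1
  have e2 : u * u1 = u2 * u := by
    by_contra hne
    obtain ⟨N, hN, hN0⟩ := isOfFinAddOrder_iff_nsmul_eq_zero.1 hT1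
    let A := AddMonoidHom.mk' _ (hETW α β _ _ (tg ρ)).1
    let B := AddMonoidHom.mk' _ (hETW α β _ _ (x1 u2 a2).1).1
    let C1 := AddMonoidHom.mk' _ (hETW α β _ _ (x1 _ m1).1).1
    let C2 := AddMonoidHom.mk' _ (hETW α β _ _ (x1 _ m2).1).1
    have e3 : C1 P + A T = C2 P + B T := e1
    have e4 : C1 (N • P) = C2 (N • P) := by
      have := congrArg (N • ·) e3
      simpa only [nsmul_add, ← map_nsmul, hN0, map_zero, add_zero] using this
    have hf := (x1 _ m4).2 fun h => hne (by rwa [inv_mul_eq_one₀ n2, eq_comm] at h)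
    refine hP (IsOfFinAddOrder.of_nsmul (finite_multiples.1 (hf.subset ?_)) hN.ne')
    rintro _ ⟨k, rfl⟩
    have e5 : C1 (k • N • P) = C2 (k • N • P) := by rw [map_nsmul, e4, ← map_nsmul]
    have e6 : twp (RingHom.id _) (u * u1) (k • N • P) = twp (RingHom.id _) (u2 * u) (k • N • P) := e5
    show twp (RingHom.id _) _ (k • N • P) = k • N • P
    rw [← uu _ _ m3 m1, e6, uu _ _ m3 m2, inv_mul_cancel₀ n2, (x3 _).1]
  rw [e2, add_right_inj] at e1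
  have e7 := congrArg xp e1
  rw [(hETW α β _ _ (tg ρ)).2.2.1, (hETW α β _ _ (x1 u2 a2).1).2.2.1, hy] at e7
  have e8 : ρ y = u2 ^ 2 * y := by simpa using e7
  rw [map_pow, e8, mul_pow, ← pow_mul, a2, one_mul]

end Pool.Agent.P.MP_8d2e9f_nt.AO
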