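import Pool.Agent.P.MP_8d2e9f_nt.AO.IfaceC

/-! Step ETW. -/

set_option autoImplicit false

namespace Pool.Agent.P.MP_8d2e9f_nt.AO

open Polynomial NumberField Pool.Agent.P.MP_8d2e9f_nt.G
open scoped IntermediateField Classical

open WeierstrassCurve.Affine WeierstrassCurve.Affine.Point

section
variable {α β : Qbar}

lemma etw_negY (x y : Qbar) : (ec α β).negY x y = -y := by simp [ec, negY]

lemma etw_addX (x₁ x₂ l : Qbar) : (ec α β).addX x₁ x₂ l = l ^ 2 - x₁ - x₂ := by simp [ec, addX]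

lemma etw_addY (x₁ x₂ y l : Qbar) :
    (ec α β).addY x₁ x₂ y l = -(l * (l ^ 2 - x₁ - x₂ - x₁) + y) := by
  rw [addY, etw_negY, negAddY, etw_addX]

lemma etw_slope (x₁ x₂ y₁ y₂ : Qbar) : (ec α β).slope x₁ x₂ y₁ y₂ =
    if x₁ = x₂ then if y₁ = -y₂ then 0 else (3 * x₁ ^ 2 + α) / (2 * y₁)
    else (y₁ - y₂) / (x₁ - x₂) := by
  simp [WeierstrassCurve.Affine.slope, ec, negY, two_mul]

lemma etw_ns_iff {x y : Qbar} : (ec α β).Nonsingular x y ↔
    y ^ 2 = x ^ 3 + α * x + β ∧ (3 * x ^ 2 + α ≠ 0 ∨ 2 * y ≠ 0) := by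
  rw [nonsingular_iff, equation_iff]
  simp only [ec, zero_mul, add_zero, mul_zero, sub_zero]
  refine and_congr Iff.rfl (or_congr ne_comm (not_congr ?_))
  exact ⟨fun h => by linear_combination h, fun h => by linear_combination h⟩

variable {σ : Qbar →+* Qbar} {u : Qbar}

lemma etw_ns (hu : Tw α β σ u) {x y : Qbar} (h : (ec α β).Nonsingular x y) :
    (ec α β).Nonsingular (u ^ 2 * σ x) (u ^ 3 * σ y) := by
  obtain ⟨u0, ha, hb⟩ := hu
  obtain ⟨h1, h2⟩ := etw_ns_iff.1 h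
  have h3 := congrArg σ h1
  simp only [map_add, map_pow, map_mul] at h3
  refine etw_ns_iff.2 ⟨by linear_combination u ^ 6 * h3 + u ^ 2 * σ x * ha + hb,
    h2.imp (fun h4 h5 => h4 ?_) fun h4 h5 => h4 ?_⟩
  · refine (map_eq_zero σ).1 (mul_left_cancel₀ (pow_ne_zero 4 u0) ?_)
    simp only [map_add, map_pow, map_mul, map_ofNat]
    linear_combination h5 + ha
  · refine (map_eq_zero σ).1 (mul_left_cancel₀ (pow_ne_zero 3 u0) ?_)
    simp only [map_mul, map_ofNat]
    linear_combination h5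

lemma etw_some (hu : Tw α β σ u) {x y : Qbar} (h : (ec α β).Nonsingular x y) :
    twp σ u (.some x y h) = .some _ _ (etw_ns hu h) := dif_pos (etw_ns hu h)

lemma etw_zero : twp σ u (0 : (ec α β).Point) = 0 := rfl

lemma etw_add (hu : Tw α β σ u) (P Q : (ec α β).Point) :
    twp σ u (P + Q) = twp σ u P + twp σ u Q := by
  rcases P with _ | ⟨x₁, y₁, h₁⟩
  · rw [← zero_def, zero_add, etw_zero, zero_add]
  rcases Q with _ | ⟨x₂, y₂, h₂⟩
  · rw [← zero_def, add_zero, etw_zero, add_zero]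
  have u0 := hu.1
  have e1 : u ^ 2 * σ x₁ = u ^ 2 * σ x₂ ↔ x₁ = x₂ := by simp [u0, σ.injective.eq_iff]
  have e2 : u ^ 3 * σ y₁ = -(u ^ 3 * σ y₂) ↔ y₁ = -y₂ := by
    rw [← mul_neg, ← map_neg]
    simp [u0, -map_neg, σ.injective.eq_iff]
  rw [etw_some hu h₁, etw_some hu h₂]
  by_cases hxy : x₁ = x₂ ∧ y₁ = (ec α β).negY x₂ y₂
  · rw [add_of_Y_eq hxy.left hxy.right,
      add_of_Y_eq (e1.2 hxy.1) (by rw [etw_negY, e2, hxy.2, etw_negY]), etw_zero]
  · have hs : (ec α β).slope (u ^ 2 * σ x₁) (u ^ 2 * σ x₂) (u ^ 3 * σ y₁) (u ^ 3 * σ y₂) =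
        u * σ ((ec α β).slope x₁ x₂ y₁ y₂) := by
      simp only [etw_slope, e1, e2]
      split_ifs
      · simp
      · simp only [map_div₀, map_add, map_mul, map_pow, map_ofNat]
        have h1 : 3 * (u ^ 2 * σ x₁) ^ 2 + α = u ^ 3 * (u * (3 * σ x₁ ^ 2 + σ α)) := by
          linear_combination -hu.2.1
        rw [h1, mul_left_comm 2, mul_div_mul_left _ _ (pow_ne_zero 3 u0), mul_div_assoc]
      · simp only [map_div₀, map_sub]
        rw [← mul_sub, ← mul_sub, mul_div_mul_comm, pow_succ, mul_div_cancel_left₀ _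
          (pow_ne_zero 2 u0)]
    rw [add_some hxy, add_some fun h => hxy ⟨e1.1 h.1, by
      rw [etw_negY, ← e2, h.2, etw_negY]⟩, etw_some hu]
    simp only [some.injEq, etw_addX, etw_addY, hs, map_sub, map_pow, map_neg, map_add, map_mul]
    constructor <;> ring

end

theorem p_ETW :
    S_ETW := by
  intro α β σ u hu
  refine ⟨etw_add hu, fun x y h => ⟨_, etw_some hu h⟩, fun P => ?_, fun σ' u' hu' => ?_⟩
  · rcases P with _ | ⟨x, y, h⟩
    · rfl
    · rw [etw_some hu]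
      rfl
  · have h1 : Tw α β (σ.comp σ') (u * σ u') := by
      have ha := congrArg σ hu'.2.1
      have hb := congrArg σ hu'.2.2
      simp only [map_mul, map_pow] at ha hb
      refine ⟨mul_ne_zero hu.1 ((map_ne_zero σ).2 hu'.1), ?_, ?_⟩
      · rw [RingHom.comp_apply]
        linear_combination u ^ 4 * ha + hu.2.1
      · rw [RingHom.comp_apply]
        linear_combination u ^ 6 * hb + hu.2.2
    refine ⟨h1, fun P => ?_⟩
    rcases P with _ | ⟨x, y, h⟩
    · rfl
    · rw [etw_some hu', etw_some hu, etw_some h1]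
      simp only [some.injEq, map_mul, map_pow, RingHom.comp_apply]
      constructor <;> ring

end Pool.Agent.P.MP_8d2e9f_nt.AO
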