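import Pool.Agent.P.MP_8d2e9f_nt.AO.IfaceC

/-! Step ETX. -/

set_option autoImplicit false

namespace Pool.Agent.P.MP_8d2e9f_nt.AO

open Polynomial NumberField Pool.Agent.P.MP_8d2e9f_nt.G
open scoped IntermediateField Classical

theorem etx_fib {α β : Qbar} {P Q : (ec α β).Point} {x : Qbar} (hP : xp P = some x)
    (hQ : xp Q = some x) : Q = P ∨ Q = -P := by
  rcases P with _ | ⟨x₁, y₁, h₁⟩
  · exact absurd hP (by change (none : Option Qbar) ≠ some x; simp)
  rcases Q with _ | ⟨x₂, y₂, h₂⟩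
  · exact absurd hQ (by change (none : Option Qbar) ≠ some x; simp)
  have e₁ : x₁ = x := Option.some.inj hP
  have e₂ : x₂ = x := Option.some.inj hQ
  exact WeierstrassCurve.Affine.Point.X_eq_iff.mp (e₂.trans e₁.symm)

theorem etx_fibfin (α β x : Qbar) : {P : (ec α β).Point | xp P = some x}.Finite := by
  rcases Set.eq_empty_or_nonempty {P : (ec α β).Point | xp P = some x} with h | ⟨P, hP⟩
  · rw [h]; exact Set.finite_empty
  · refine (Set.toFinite ({P, -P} : Set (ec α β).Point)).subset fun Q hQ => ?_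
    exact etx_fib hP hQ

theorem etx_cubfin (α β : Qbar) : {x : Qbar | x = 0 ∨ x ^ 3 + α * x + β = 0}.Finite := by
  have h0 : (X ^ 3 + C α * X + C β : Qbar[X]) ≠ 0 := by
    have hm : (X ^ 3 + C α * X + C β : Qbar[X]).Monic := by monicity!
    exact hm.ne_zero
  refine ((Set.finite_singleton (0 : Qbar)).union (Polynomial.finite_setOfPred_isRoot h0)).subset ?_
  rintro x (h | h)
  · exact Or.inl h
  · right
    simpa [Polynomial.IsRoot] using h

theorem etx_eq {α β x y : Qbar} (h : (ec α β).Nonsingular x y) : y ^ 2 = x ^ 3 + α * x + β := by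
  have h1 := (WeierstrassCurve.Affine.equation_iff _ _).mp h.1
  simp only [ec] at h1
  linear_combination h1

theorem etx_tw {α β u : Qbar} {e : ℕ} (ht : Typ e α β) (hu : u ^ (2 * e) = 1) :
    Tw α β (RingHom.id _) u := by
  obtain ⟨-, he⟩ := ht
  have hu0 : u ≠ 0 := by
    rintro rfl
    rcases he with rfl | ⟨rfl, -⟩ | ⟨rfl, -⟩ <;> simp at hu
  refine ⟨hu0, ?_, ?_⟩
  · rcases he with rfl | ⟨rfl, -⟩ | ⟨rfl, rfl⟩
    · have : u ^ 4 = 1 := by rw [show 4 = (2 * 1) * 2 from rfl, pow_mul, hu, one_pow]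
      rw [this, one_mul, RingHom.id_apply]
    · rw [show u ^ 4 = 1 from hu, one_mul, RingHom.id_apply]
    · simp
  · rcases he with rfl | ⟨rfl, rfl⟩ | ⟨rfl, -⟩
    · have : u ^ 6 = 1 := by rw [show 6 = (2 * 1) * 3 from rfl, pow_mul, hu, one_pow]
      rw [this, one_mul, RingHom.id_apply]
    · simp
    · rw [show u ^ 6 = 1 from hu, one_mul, RingHom.id_apply]

theorem etx_xneg {α β : Qbar} (P : (ec α β).Point) : xp (-P) = xp P := by
  rcases P with _ | ⟨x, y, h⟩ <;> rfl

theorem etx_neg (hETW : S_ETW) {α β u : Qbar} (hu : Tw α β (RingHom.id _) u)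
    (hu' : Tw α β (RingHom.id _) (-u)) (P : (ec α β).Point) :
    twp (RingHom.id _) (-u) P = -twp (RingHom.id _) u P := by
  rcases P with _ | ⟨x, y, h⟩
  · rfl
  · obtain ⟨h1, e1⟩ := (hETW α β _ u hu).2.1 x y h
    obtain ⟨h2, e2⟩ := (hETW α β _ (-u) hu').2.1 x y h
    rw [e1, e2, WeierstrassCurve.Affine.Point.neg_some, WeierstrassCurve.Affine.Point.some.injEq]
    refine ⟨by ring, ?_⟩
    simp only [WeierstrassCurve.Affine.negY, ec]
    ring

theorem etx_one (hETW : S_ETW) {α β : Qbar} (hu : Tw α β (RingHom.id _) 1)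
    (P : (ec α β).Point) : twp (RingHom.id _) 1 P = P := by
  rcases P with _ | ⟨x, y, h⟩
  · rfl
  · obtain ⟨h1, e1⟩ := (hETW α β _ 1 hu).2.1 x y h
    rw [e1, WeierstrassCurve.Affine.Point.some.injEq]
    simp

theorem p_ETX (hETW : S_ETW) :
    S_ETX := by
  intro α β e ht
  have he : e ≠ 0 := by
    rcases ht.2 with rfl | ⟨rfl, -⟩ | ⟨rfl, -⟩ <;> norm_num
  have h1 : Tw α β (RingHom.id _) 1 := etx_tw ht (one_pow _)
  have hm1 : Tw α β (RingHom.id _) (-1) := etx_tw ht (by rw [pow_mul]; simp)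
  refine ⟨fun u hu => ⟨etx_tw ht hu, fun hu1 => ?_⟩, fun x => ?_, fun P => ⟨etx_one hETW h1 P, ?_,
    etx_xneg P, ?_⟩, fun P Q x y hP hQ hxy => ?_⟩
  · refine ((Set.finite_singleton (0 : (ec α β).Point)).union
      ((etx_cubfin α β).biUnion fun x _ => etx_fibfin α β x)).subset ?_
    rintro (_ | ⟨x, y, h⟩) hP
    · exact Or.inl rfl
    · right
      obtain ⟨h2, e2⟩ := (hETW α β _ u (etx_tw ht hu)).2.1 x y h
      have hP' : twp (RingHom.id _) u (WeierstrassCurve.Affine.Point.some x y h) =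
        WeierstrassCurve.Affine.Point.some x y h := hP
      rw [e2, WeierstrassCurve.Affine.Point.some.injEq] at hP'
      obtain ⟨hx, hy⟩ := hP'
      rw [RingHom.id_apply] at hx hy
      refine Set.mem_biUnion (x := x) ?_ rfl
      by_cases hx0 : x = 0
      · exact Or.inl hx0
      · right
        have hu2 : u ^ 2 = 1 := mul_right_cancel₀ hx0 (by rw [hx, one_mul])
        have hy0 : y = 0 := by
          have : (u - 1) * y = 0 := by linear_combination hy - u * y * hu2
          exact (mul_eq_zero.mp this).resolve_left (sub_ne_zero.mpr hu1)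
        have := etx_eq h
        rw [hy0] at this
        linear_combination -this
  · obtain ⟨y, hy⟩ := IsAlgClosed.exists_pow_nat_eq (x ^ 3 + α * x + β) (n := 2) (by norm_num)
    have hΔ : (ec α β).Δ ≠ 0 := by
      have : (ec α β).Δ = -16 * (4 * α ^ 3 + 27 * β ^ 2) := by
        simp only [WeierstrassCurve.Δ, WeierstrassCurve.b₂, WeierstrassCurve.b₄,
          WeierstrassCurve.b₆, WeierstrassCurve.b₈, ec]
        ring
      rw [this]
      exact mul_ne_zero (by norm_num) ht.1
    have hE : (ec α β).Equation x y := by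
      rw [WeierstrassCurve.Affine.equation_iff]
      simp only [ec]
      linear_combination hy
    exact ⟨.some x y ((WeierstrassCurve.Affine.equation_iff_nonsingular_of_Δ_ne_zero hΔ).mp hE),
      rfl⟩
  · rw [etx_neg hETW h1 hm1 P, etx_one hETW h1 P]
  · rcases P with _ | ⟨x, y, h⟩
    · exact ⟨fun _ => rfl, fun _ => rfl⟩
    · refine ⟨fun h0 => ?_, fun h0 => absurd h0 (WeierstrassCurve.Affine.Point.some_ne_zero h)⟩
      exact absurd h0 (by change (some x : Option Qbar) ≠ none; simp)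
  · have hex : ∃ u : Qbar, u ^ (2 * e) = 1 ∧ u ^ 2 * x = y := by
      by_cases hx0 : x = 0
      · refine ⟨1, one_pow _, ?_⟩
        rw [hx0, zero_pow he] at hxy
        rw [hx0, mul_zero, pow_eq_zero_iff he |>.mp hxy]
      · obtain ⟨u, hu⟩ := IsAlgClosed.exists_pow_nat_eq (y / x) (n := 2) (by norm_num)
        refine ⟨u, ?_, ?_⟩
        · rw [pow_mul, hu, div_pow, hxy, div_self (pow_ne_zero _ hx0)]
        · rw [hu, div_mul_cancel₀ _ hx0]
    obtain ⟨u, hu, hux⟩ := hex
    have hnu : (-u) ^ (2 * e) = 1 := by rw [pow_mul, neg_sq, ← pow_mul, hu]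
    have hx : xp (twp (RingHom.id _) u P) = some y := by
      rw [(hETW α β _ u (etx_tw ht hu)).2.2.1 P, hP, Option.map_some, RingHom.id_apply, hux]
    rcases etx_fib hx hQ with h | h
    · exact ⟨u, hu, h⟩
    · exact ⟨-u, hnu, by rw [etx_neg hETW (etx_tw ht hu) (etx_tw ht hnu) P, h]⟩

end Pool.Agent.P.MP_8d2e9f_nt.AO
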