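import Pool.Agent.P.MP_8d2e9f_nt.AO.IfaceC
import Pool.Agent.P.MP_8d2e9f_nt.AO.BaseE
import Pool.Agent.P.MP_8d2e9f_nt.G.All

/-! Step EWK. -/

set_option autoImplicit false

namespace Pool.Agent.P.MP_8d2e9f_nt.AO

open Polynomial NumberField Pool.Agent.P.MP_8d2e9f_nt.G
open scoped IntermediateField Classical

/-- The local inequality, for an absolute value with the weak triangle inequality. -/
theorem ewk_loc {L : Type} [Field L] (u : L → ℝ) (T K : ℝ) (hT1 : 1 ≤ T)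
    (h0 : ∀ a, 0 ≤ u a) (hm : ∀ a b, u (a * b) = u a * u b) (hn : ∀ a, u (-a) = u a)
    (h1 : u 1 = 1) (hz : u 0 = 0)
    (hT : ∀ a b c, u a ≤ c → u b ≤ c → u (a + b) ≤ T * c)
    (n A B z : L) (kn : u n ≤ K) (kA : u A ≤ K) (kB : u B ≤ K) (p q r s : L × L)
    (e0 : z * (r.1 * s.1) = n * n * (p.1 * q.1) ^ 2 - 2 * n * A * (p.1 * q.1) * (p.2 * q.2) -
      4 * n * B * (p.1 * q.2 + p.2 * q.1) * (p.2 * q.2) + A * A * (p.2 * q.2) ^ 2)
    (e1 : z * (r.1 * s.2 + r.2 * s.1) = 2 * n * n * (p.1 * q.2 + p.2 * q.1) * (p.1 * q.1) +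
      2 * n * A * (p.1 * q.2 + p.2 * q.1) * (p.2 * q.2) + 4 * n * B * (p.2 * q.2) ^ 2)
    (e2 : z * (r.2 * s.2) = n * n * (p.1 * q.2 + p.2 * q.1) ^ 2 -
      4 * n * n * (p.1 * q.1) * (p.2 * q.2)) :
    u z * (mx u r * mx u s) ≤ T ^ 7 * K ^ 2 * (mx u p * mx u p * mx u q * mx u q) := by
  have hK : 0 ≤ K := (h0 _).trans kn
  have hT0 : 0 ≤ T := zero_le_one.trans hT1
  have p1 : u p.1 ≤ mx u p := le_max_left _ _
  have p2 : u p.2 ≤ mx u p := le_max_right _ _
  have q1 : u q.1 ≤ mx u q := le_max_left _ _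
  have q2 : u q.2 ≤ mx u q := le_max_right _ _
  have p0 : 0 ≤ mx u p := (h0 _).trans p1
  have q0 : 0 ≤ mx u q := (h0 _).trans q1
  have pq : ∀ a b, u a ≤ mx u p → u b ≤ mx u q → u (a * b) ≤ mx u p * mx u q := fun a b ha hb => by
    rw [hm]
    exact mul_le_mul ha hb (h0 _) p0
  have up : mx u p * mx u q ≤ T * (mx u p * mx u q) := le_mul_of_one_le_left (mul_nonneg p0 q0) hT1
  have v0 := (pq _ _ p1 q1).trans up
  have v2 := (pq _ _ p2 q2).trans up
  have v1 := hT _ _ _ (pq _ _ p1 q2) (pq _ _ p2 q1)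
  have V0 : 0 ≤ T * (mx u p * mx u q) := (h0 _).trans v0
  have c2 : u 2 ≤ T := by
    have := hT 1 1 1 h1.le h1.le
    rwa [one_add_one_eq_two, mul_one] at this
  have c4 : u 4 ≤ T ^ 2 := by
    have := hT 2 2 T c2 c2
    rwa [show (2 : L) + 2 = 4 by norm_num, ← pow_two] at this
  have d1 : u 1 ≤ T ^ 2 := h1.le.trans (one_le_pow₀ hT1)
  have d2 : u 2 ≤ T ^ 2 := c2.trans (by nlinarith)
  have d0 : u 0 ≤ T ^ 2 := hz.le.trans (by positivity)
  have dn : ∀ e, u e ≤ T ^ 2 → u (-e) ≤ T ^ 2 := fun e he => (hn e).le.trans he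
  generalize p.1 * q.1 = x at *
  generalize p.2 * q.2 = y at *
  generalize p.1 * q.2 + p.2 * q.1 = w at *
  set V := T * (mx u p * mx u q) with hV
  have tm : ∀ e a b c d, u e ≤ T ^ 2 → u a ≤ K → u b ≤ K → u c ≤ V → u d ≤ V →
      u (e * a * b * c * d) ≤ T ^ 2 * K * K * V * V := fun e a b c d he ha hb hc hd => by
    rw [hm, hm, hm, hm]
    have := h0 e
    have := h0 a
    have := h0 b
    have := h0 c
    have := h0 d
    gcongr
  have a4 : ∀ a b c d X, u a ≤ X → u b ≤ X → u c ≤ X → u d ≤ X →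
      u (a + b + (c + d)) ≤ T * (T * X) := fun a b c d X ha hb hc hd =>
    hT _ _ _ (hT _ _ _ ha hb) (hT _ _ _ hc hd)
  set m := T * (T * (T ^ 2 * K * K * V * V)) with hmm
  have f0 : u (z * (r.1 * s.1)) ≤ m := by
    have := a4 _ _ _ _ _ (tm _ _ _ _ _ d1 kn kn v0 v0) (tm _ _ _ _ _ (dn _ d2) kn kA v0 v2)
      (tm _ _ _ _ _ (dn _ c4) kn kB v1 v2) (tm _ _ _ _ _ d1 kA kA v2 v2)
    rw [e0]
    exact le_of_eq_of_le (congrArg u (by ring)) this
  have f1 : u (z * (r.1 * s.2 + r.2 * s.1)) ≤ m := by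
    have := a4 _ _ _ _ _ (tm _ _ _ _ _ d2 kn kn v1 v0) (tm _ _ _ _ _ d2 kn kA v1 v2)
      (tm _ _ _ _ _ c4 kn kB v2 v2) (tm _ _ _ _ _ d0 kA kA v2 v2)
    rw [e1]
    exact le_of_eq_of_le (congrArg u (by ring)) this
  have f2 : u (z * (r.2 * s.2)) ≤ m := by
    have := a4 _ _ _ _ _ (tm _ _ _ _ _ d1 kn kn v1 v1) (tm _ _ _ _ _ (dn _ c4) kn kn v0 v2)
      (tm _ _ _ _ _ d0 kn kB v2 v2) (tm _ _ _ _ _ d0 kA kA v2 v2)
    rw [e2]
    exact le_of_eq_of_le (congrArg u (by ring)) this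
  have m0 : 0 ≤ m := (h0 _).trans f0
  have mm : m ≤ T * m := le_mul_of_one_le_left m0 hT1
  have fin : T * m = T ^ 7 * K ^ 2 * (mx u p * mx u p * mx u q * mx u q) := by
    rw [hmm, hV]
    ring
  rw [← fin]
  have z0 := h0 z
  have g1 : u (z * (r.2 * s.1)) ≤ m → u z * (u r.1 * u s.2) ≤ T * m := fun h => by
    have := hT _ _ _ f1 ((hn _).le.trans h)
    rw [← hm, ← hm]
    exact le_of_eq_of_le (congrArg u (by ring)) this
  have g2 : u (z * (r.1 * s.2)) ≤ m → u z * (u r.2 * u s.1) ≤ T * m := fun h => by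
    have := hT _ _ _ f1 ((hn _).le.trans h)
    rw [← hm, ← hm]
    exact le_of_eq_of_le (congrArg u (by ring)) this
  rw [hm, hm] at f0 f2
  rcases le_total (u r.1) (u r.2) with a | a <;> rcases le_total (u s.1) (u s.2) with b | b
  · rw [mx, mx, max_eq_right a, max_eq_right b]
    exact f2.trans mm
  · rw [mx, mx, max_eq_right a, max_eq_left b]
    refine g2 (le_trans ?_ f0)
    rw [hm, hm]
    have := h0 r.1
    gcongr
  · rw [mx, mx, max_eq_left a, max_eq_right b]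
    refine g1 (le_trans ?_ f0)
    rw [hm, hm]
    have := h0 s.1
    gcongr
  · rw [mx, mx, max_eq_left a, max_eq_left b]
    exact f0.trans mm

theorem ewk_int {L : IF} {y : L} (h : IsIntegral ℤ (y : Qbar)) : IsIntegral ℤ y :=
  (isIntegral_algHom_iff (L.val : L →+* Qbar).toIntAlgHom (L.val : L →+* Qbar).injective).1 h

theorem ewk_bd {x : Qbar} (hx : IsIntegral ℤ x) :
    ∃ c : ℝ, ∀ (L : IF) (y : L) (φ : L →+* ℂ), (y : Qbar) = x → ‖φ y‖ ≤ c := by
  obtain ⟨p, h1, h2⟩ := hx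
  obtain ⟨c, hc⟩ := ((p.map (algebraMap ℤ ℂ)).roots.finite_toSet.image norm).bddAbove
  refine ⟨c, fun L y φ hy => hc ⟨_, (mem_roots (h1.map _).ne_zero).2 ?_, rfl⟩⟩
  have h3 : eval₂ (algebraMap ℤ L) y p = 0 := by
    apply (L.val : L →+* Qbar).injective
    rw [hom_eval₂, map_zero, ← h2, ← hy,
      Subsingleton.elim ((L.val : L →+* Qbar).comp (algebraMap ℤ L)) (algebraMap ℤ Qbar)]
    rfl
  rw [IsRoot, eval_map, Subsingleton.elim (algebraMap ℤ ℂ) (φ.comp (algebraMap ℤ L)), ← hom_eval₂,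
    h3, map_zero]

theorem ewk_nn (x : ProjLine) : 0 ≤ weilHeight x := by
  cases x with
  | none => exact le_rfl
  | some x =>
    have f1 : Fd ℚ⟮x⟯ := IntermediateField.adjoin.finiteDimensional (int_Q x)
    change 0 ≤ absLogHeight₁ x
    rw [absLogHeight₁_eq ℚ⟮x⟯ x (IntermediateField.mem_adjoin_simple_self ℚ x)]
    exact div_nonneg (Height.zero_le_logHeight₁ _) (Nat.cast_nonneg _)

theorem ewk_rep {α β : Qbar} (P : (ec α β).Point) :
    P.xRep 0 = (lf (xp P)).1 ∧ P.xRep 1 = (lf (xp P)).2 := by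
  cases P <;> exact ⟨rfl, rfl⟩

theorem p_EWK :
    S_EWK := by
  intro α β hD
  have : WeierstrassCurve.IsElliptic (ec α β) := ⟨by
    rw [isUnit_iff_ne_zero]
    have : WeierstrassCurve.Δ (ec α β) = -16 * (4 * α ^ 3 + 27 * β ^ 2) := by
      simp only [WeierstrassCurve.Δ, WeierstrassCurve.b₂, WeierstrassCurve.b₄, WeierstrassCurve.b₆,
        WeierstrassCurve.b₈, ec]
      ring
    rw [this]
    exact mul_ne_zero (by norm_num) hD⟩
  have := IsLocalization.isAlgebraic ℚ (nonZeroDivisors ℤ)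
  have := Algebra.IsAlgebraic.trans ℤ ℚ Qbar
  obtain ⟨N, hN, hI⟩ := Algebra.IsAlgebraic.exists_integral_multiples ℤ ({α, β} : Finset Qbar)
  have iA : IsIntegral ℤ ((N : Qbar) * α) := by simpa using hI α (by simp)
  have iB : IsIntegral ℤ ((N : Qbar) * β) := by simpa using hI β (by simp)
  have iN : IsIntegral ℤ (N : Qbar) := isIntegral_algebraMap (R := ℤ) (x := N)
  obtain ⟨cA, hA⟩ := ewk_bd iA
  obtain ⟨cB, hB⟩ := ewk_bd iB
  obtain ⟨cN, hN'⟩ := ewk_bd iN
  refine ⟨Real.log (2 ^ 7 * (max cN (max cA cB)) ^ 2), fun P Q => ?_⟩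
  obtain ⟨c, hc, e⟩ := EC.asm (ec α β) P Q
  have b2 : WeierstrassCurve.b₂ (ec α β) = 0 := by simp [WeierstrassCurve.b₂, ec]
  have b4 : WeierstrassCurve.b₄ (ec α β) = 2 * α := by simp [WeierstrassCurve.b₄, ec]
  have b6 : WeierstrassCurve.b₆ (ec α β) = 4 * β := by simp [WeierstrassCurve.b₆, ec]
  have b8 : WeierstrassCurve.b₈ (ec α β) = -α ^ 2 := by simp [WeierstrassCurve.b₈, ec]
  rw [EC.asm_eval, b2, b4, b6, b8] at e
  have e0 := congrFun e 0
  have e1 := congrFun e 1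
  have e2 := congrFun e 2
  simp only [WeierstrassCurve.Affine.Point.sym2x, (ewk_rep _).1, (ewk_rep _).2,
    Matrix.cons_val_zero, Matrix.cons_val_one, Matrix.cons_val, Pi.smul_apply,
    smul_eq_mul] at e0 e1 e2
  obtain ⟨L, hL, -, mem⟩ := ex_field (K := ⊥) inferInstance
    (S := {α, β, c, (lf (xp P)).1, (lf (xp P)).2, (lf (xp Q)).1, (lf (xp Q)).2,
      (lf (xp (P + Q))).1, (lf (xp (P + Q))).2, (lf (xp (P - Q))).1, (lf (xp (P - Q))).2})
    (Set.toFinite _)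
  have lift : ∀ x : ProjLine, (lf x).1 ∈ L → (lf x).2 ∈ L → ∃ v : L × L, v ≠ 0 ∧
      (v.1 : Qbar) = (lf x).1 ∧ (v.2 : Qbar) = (lf x).2 := fun x a b =>
    ⟨(⟨_, a⟩, ⟨_, b⟩), fun e => lf_ne x (Prod.ext (congrArg (·.1.1) e) (congrArg (·.2.1) e)),
      rfl, rfl⟩
  obtain ⟨p, p0, p1, p2⟩ := lift (xp P) (mem _ (by simp)) (mem _ (by simp))
  obtain ⟨q, q0, q1, q2⟩ := lift (xp Q) (mem _ (by simp)) (mem _ (by simp))
  obtain ⟨r, r0, r1, r2⟩ := lift (xp (P + Q)) (mem _ (by simp)) (mem _ (by simp))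
  obtain ⟨s, s0, s1, s2⟩ := lift (xp (P - Q)) (mem _ (by simp)) (mem _ (by simp))
  obtain ⟨a, ha⟩ : ∃ a : L, (a : Qbar) = α := ⟨⟨_, mem _ (by simp)⟩, rfl⟩
  obtain ⟨b, hb⟩ : ∃ a : L, (a : Qbar) = β := ⟨⟨_, mem _ (by simp)⟩, rfl⟩
  obtain ⟨d, hd⟩ : ∃ a : L, (a : Qbar) = c := ⟨⟨_, mem _ (by simp)⟩, rfl⟩
  have c2 : ((2 : L) : Qbar) = 2 := map_ofNat (algebraMap L Qbar) 2
  have c4 : ((4 : L) : Qbar) = 4 := map_ofNat (algebraMap L Qbar) 4
  have jN : (((N : L) : L) : Qbar) = N := map_intCast (algebraMap L Qbar) N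
  have key := fun (u : L → ℝ) T K hT1 h0 hm hn h1 hz hT kn kA kB =>
    ewk_loc u T K hT1 h0 hm hn h1 hz hT (N : L) (N * a) (N * b) (N * N * d) kn kA kB p q r s
      (Subtype.ext (by
        push_cast
        rw [p1, p2, q1, q2, r1, s1, ha, hb, hd, c2, c4]
        linear_combination (-(N : Qbar) * N) * e0))
      (Subtype.ext (by
        push_cast
        rw [p1, p2, q1, q2, r1, r2, s1, s2, ha, hb, hd, c2, c4]
        linear_combination (-(N : Qbar) * N) * e1))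
      (Subtype.ext (by
        push_cast
        rw [p1, p2, q1, q2, r2, s2, hd, c4]
        linear_combination (-(N : Qbar) * N) * e2))
  have d0 : d ≠ 0 := fun e => hc (by rw [← hd, e]; rfl)
  have N0 : (N : L) ≠ 0 := Int.cast_ne_zero.2 hN
  have jA : (((N : L) * a : L) : Qbar) = N * α := by
    push_cast
    rw [ha]
  have jB : (((N : L) * b : L) : Qbar) = N * β := by
    push_cast
    rw [hb]
  have main := all_LG L (Fin 2) (Fin 4) Finset.univ Finset.univ ![r, s] ![p, p, q, q]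
    ((N : L) * N * d) (2 ^ 7 * (max cN (max cA cB)) ^ 2) (mul_ne_zero (mul_ne_zero N0 N0) d0)
    (fun i _ => by fin_cases i <;> simpa) (fun i _ => by fin_cases i <;> simpa)
    (fun u => by
      have k : ∀ y : L, IsIntegral ℤ (y : Qbar) → u y ≤ 1 := fun y hy => by
        rw [← u.norm_embedding_eq]
        exact FinitePlace.norm_le_one L u.maximalIdeal ⟨_, ewk_int hy⟩
      have := key u 1 1 le_rfl (apply_nonneg u) (map_mul u) (map_neg_eq_map u) (map_one u)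
        (map_zero u) (fun a b c ha hb => by
          rw [one_mul]
          exact (u.add_le a b).trans (max_le ha hb))
        (k _ (jN ▸ iN)) (k _ (jA ▸ iA)) (k _ (jB ▸ iB))
      simpa [Fin.prod_univ_succ, mul_assoc] using this)
    (fun φ => by
      have := key (fun x => ‖φ x‖) 2 (max cN (max cA cB)) one_le_two (fun _ => norm_nonneg _)
        (fun a b => by simp) (fun a => by simp) (by simp) (by simp) (fun a b c ha hb => by
          rw [map_add]
          exact (norm_add_le _ _).trans (by linarith))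
        ((hN' L _ φ jN).trans (le_max_left _ _))
        ((hA L _ φ jA).trans ((le_max_left _ _).trans (le_max_right _ _)))
        ((hB L _ φ jB).trans ((le_max_right _ _).trans (le_max_right _ _)))
      simpa only [Fin.prod_univ_two, Fin.prod_univ_four, Matrix.cons_val_zero, Matrix.cons_val_one,
        Matrix.cons_val] using this)
  simp only [Fin.sum_univ_two, Fin.sum_univ_four, Matrix.cons_val_zero, Matrix.cons_val_one,
    Matrix.cons_val, p1, p2, q1, q2, r1, r2, s1, s2, Prod.mk.eta, pt_lf] at main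
  have := ewk_nn (xp (P - Q))
  linarith

end Pool.Agent.P.MP_8d2e9f_nt.AO
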