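import Pool.Agent.P.MP_8d2e9f_nt.AO.IfaceC

/-! Step FACT. -/

set_option autoImplicit false

namespace Pool.Agent.P.MP_8d2e9f_nt.AO

open Polynomial NumberField Pool.Agent.P.MP_8d2e9f_nt.G
open scoped IntermediateField Classical

/-- The valuation ring of `φ` mapped to the `p`-adic integers. -/
noncomputable def fact_psi {K : Type} [Field K] {p : ℕ} [Fact p.Prime] (φ : K →+* ℚ_[p]) :
    (PadicInt.subring p).comap φ →+* ℤ_[p] where
  toFun x := ⟨φ x, x.2⟩
  map_one' := Subtype.ext (map_one φ)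
  map_mul' x y := Subtype.ext (map_mul φ x.1 y.1)
  map_zero' := Subtype.ext (map_zero φ)
  map_add' x y := Subtype.ext (map_add φ x.1 y.1)

lemma fact_max {K : Type} [Field K] {p : ℕ} [Fact p.Prime] (φ : K →+* ℚ_[p]) {A : K[X][X]}
    (hA : A ≠ 0) : ∃ i l, (A.coeff i).coeff l ≠ 0 ∧
      ∀ i' l', ‖φ ((A.coeff i').coeff l')‖ ≤ ‖φ ((A.coeff i).coeff l)‖ := by
  have hm : ∀ i l, (A.coeff i).coeff l ≠ 0 →
      (A.coeff i).coeff l ∈ A.support.biUnion fun i => (A.coeff i).coeffs := fun i l h =>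
    Finset.mem_biUnion.2 ⟨i, mem_support_iff.2 (fun e => h (by rw [e, coeff_zero])),
      coeff_mem_coeffs h⟩
  obtain ⟨x, hx, hmax⟩ := (A.support.biUnion fun i => (A.coeff i).coeffs).exists_max_image
    (fun x => ‖φ x‖) ⟨_, hm A.natDegree (A.coeff A.natDegree).natDegree
      (leadingCoeff_ne_zero.2 (leadingCoeff_ne_zero.2 hA))⟩
  obtain ⟨i, -, hi⟩ := Finset.mem_biUnion.1 hx
  obtain ⟨l, hl, rfl⟩ := mem_coeffs_iff.1 hi
  refine ⟨i, l, mem_support_iff.1 hl, fun i' l' => ?_⟩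
  by_cases h : (A.coeff i').coeff l' = 0
  · simp [h]
  · exact hmax _ (hm _ _ h)

lemma fact_lift {K : Type} [Field K] (O : Subring K) (A : K[X][X])
    (h : ∀ i l, (A.coeff i).coeff l ∈ O) : ∃ A₀ : O[X][X], A₀.map (mapRingHom O.subtype) = A :=
  (mem_lifts _).1 ((lifts_iff_coeff_lifts _).2 fun i =>
    (mem_lifts _).1 ((lifts_iff_coeff_lifts _).2 fun l => ⟨⟨_, h i l⟩, rfl⟩))

lemma fact_div {p : ℕ} [Fact p.Prime] {x : ℤ_[p]} (h : zr p x = 0) :
    ‖(p : ℚ_[p])⁻¹ * (x : ℚ_[p])‖ ≤ 1 := by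
  rw [← RingHom.mem_ker, PadicInt.ker_toZMod, PadicInt.maximalIdeal_eq_span_p,
    Ideal.mem_span_singleton] at h
  obtain ⟨y, rfl⟩ := h
  have : (p : ℚ_[p]) ≠ 0 := Nat.cast_ne_zero.2 (Fact.out : p.Prime).ne_zero
  rw [PadicInt.coe_mul, PadicInt.coe_natCast, inv_mul_cancel_left₀ this]
  exact y.2

theorem p_FACT :
    S_FACT := by
  intro K p _ φ A hA
  obtain ⟨i, l, h0, hmax⟩ := fact_max φ hA
  set c := ((A.coeff i).coeff l)⁻¹ with hc
  have hn : 0 < ‖φ ((A.coeff i).coeff l)‖ := norm_pos_iff.2 ((map_ne_zero φ).2 h0)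
  obtain ⟨A₀, hA₀⟩ := fact_lift ((PadicInt.subring p).comap φ) (C (C c) * A) fun i' l' => by
    change ‖φ _‖ ≤ 1
    rw [coeff_C_mul, coeff_C_mul, map_mul, hc, map_inv₀, norm_mul, norm_inv, inv_mul_le_iff₀ hn,
      mul_one]
    exact hmax _ _
  set r := (zr p).comp (fact_psi φ) with hr
  have h1 : (A₀.coeff i).coeff l = 1 := by
    have := congrArg (fun P => (coeff P i).coeff l) hA₀
    simp only [coeff_map, coe_mapRingHom, coeff_C_mul] at this
    exact Subtype.ext (this.trans (inv_mul_cancel₀ h0))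
  have hne : A₀.map (mapRingHom r) ≠ 0 := fun e => by
    have := congrArg (fun P => (coeff P i).coeff l) e
    simp [coeff_map, h1] at this
  obtain ⟨B', e, hB'⟩ := exists_eq_pow_rootMultiplicity_mul_and_not_dvd _ hne (X ^ p)
  obtain ⟨B, rfl⟩ := map_surjective (mapRingHom (Int.castRingHom (ZMod p)))
    (map_surjective _ (ZMod.ringHom_surjective _)) B'
  set N := rootMultiplicity (X ^ p) (A₀.map (mapRingHom r))
  set D := A₀ - (X - C (X ^ p)) ^ N * B.map (mapRingHom (Int.castRingHom _)) with hD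
  have hcomp : ∀ {R S : Type} [CommRing R] [CommRing S] (f : R →+* S),
      ((X - C (X ^ p)) ^ N * B.map (mapRingHom (Int.castRingHom R))).map (mapRingHom f) =
        (X - C (X ^ p)) ^ N * B.map (mapRingHom (Int.castRingHom S)) := fun f => by
    rw [Polynomial.map_mul, Polynomial.map_map, mapRingHom_comp,
      RingHom.ext_int (f.comp _) (Int.castRingHom _)]
    simp
  have hD0 : D.map (mapRingHom r) = 0 := by rw [hD, Polynomial.map_sub, hcomp, ← e, sub_self]
  have hp : (p : K) ≠ 0 := Nat.cast_ne_zero.2 (Fact.out : p.Prime).ne_zero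
  refine ⟨c, N, B, C (C (p : K)⁻¹) * D.map (mapRingHom (Subring.subtype _)), fun i' l' => ?_,
    fun h => hB' ?_, ?_⟩
  · have := congrArg (fun P => (coeff P i').coeff l') hD0
    simp only [coeff_map, coe_mapRingHom, coeff_zero] at this
    simp only [coeff_C_mul, coeff_map, coe_mapRingHom, map_mul, map_inv₀, map_natCast]
    exact fact_div this
  · rw [dvd_iff_isRoot, IsRoot, ← h]
    have := eval₂_at_apply (p := B) (mapRingHom (Int.castRingHom (ZMod p))) (X ^ p)
    rw [eval_map]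
    simpa using this
  · rw [← mul_assoc, ← C_mul, ← C_mul, mul_inv_cancel₀ hp, hD, Polynomial.map_sub, hcomp, hA₀]
    simp

end Pool.Agent.P.MP_8d2e9f_nt.AO
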