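import Pool.Agent.P.MP_8d2e9f_nt.AO.IfaceC

/-! Step FORMR. -/

set_option autoImplicit false

namespace Pool.Agent.P.MP_8d2e9f_nt.AO

open Polynomial NumberField Pool.Agent.P.MP_8d2e9f_nt.G
open scoped IntermediateField Classical

theorem p_FORMR (hPRN : S_PRN) (hGOODR : S_GOODR) (hWLD : S_WLD) (hLOCBR : S_LOCBR) :
    S_FORMR := by
  intro K d a b h hK hN hC hL
  refine ⟨max d 3, fun p hp φ j a₀ b₀ hN' hl hg ea eb => ?_⟩
  have hS : St K d a b h φ j a₀ b₀ := ⟨hK, hN, hC, hl, hg, ea, eb⟩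
  obtain ⟨δ, -, hδ, ε, hε, hA⟩ := hWLD K d a b h p φ j a₀ b₀ hS (by omega)
  have hd : (d : ZMod p) ≠ 0 := fun e => by
    have := Nat.le_of_dvd (by have := hN.1; omega) ((ZMod.natCast_eq_zero_iff d p).1 e)
    omega
  refine hLOCBR K d a b h p φ j a₀ b₀ δ hS
    ((hPRN.1 _ d _ _ (hGOODR.1 p d a₀ b₀ hg).1).2.2.2 hd) hδ fun η hη hf => ?_
  refine hL (min ε η) (lt_min hε hη) ((hA.union hf).subset ?_)
  rintro z ⟨⟨h1, h2⟩, h3⟩
  by_cases h4 : ∃ s : GK K, s z ≠ z ∧ Acts K j 1 δ s z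
  · exact Or.inr ⟨⟨h1, h2, h4⟩, h3.trans_le (min_le_right _ _)⟩
  · exact Or.inl ⟨⟨h1, h2⟩, h3.trans_le (min_le_left _ _), h4⟩

end Pool.Agent.P.MP_8d2e9f_nt.AO
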