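import Pool.Agent.P.MP_8d2e9f_nt.AO.IfaceC
import Pool.Agent.P.MP_8d2e9f_nt.AO.TGAPG

/-! Step GAPGR. -/

set_option autoImplicit false

namespace Pool.Agent.P.MP_8d2e9f_nt.AO

open Polynomial NumberField Pool.Agent.P.MP_8d2e9f_nt.G
open scoped IntermediateField Classical

theorem gapgr_monic {p : ℕ} [Fact p.Prime] {G : ℤ[X]} (hG : G.Monic) {x : Om p} (hx : 1 < ‖x‖) :
    1 ≤ ‖aeval x G‖ := by
  have h0 : 0 < ‖x‖ := one_pos.trans hx
  have h1 : ‖∑ i ∈ Finset.range G.natDegree, ((G.coeff i : ℤ) : Om p) * x ^ i‖ ≤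
      ‖x‖ ^ G.natDegree / ‖x‖ := by
    refine IsUltrametricDist.norm_sum_le_of_forall_le_of_nonneg (by positivity) fun i hi => ?_
    rw [norm_mul, norm_pow, le_div_iff₀ h0]
    refine (mul_le_mul_of_nonneg_right (mul_le_of_le_one_left (by positivity)
      (IsUltrametricDist.norm_intCast_le_one _ _)) h0.le).trans ?_
    rw [← pow_succ]
    exact pow_le_pow_right₀ hx.le (Finset.mem_range.1 hi)
  have h2 := h1.trans_lt (div_lt_self (by positivity) hx)
  have h3 : aeval x G =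
      x ^ G.natDegree + ∑ i ∈ Finset.range G.natDegree, ((G.coeff i : ℤ) : Om p) * x ^ i := by
    conv_lhs => rw [hG.as_sum]
    simp
  rw [← norm_pow] at h2
  rw [h3, IsUltrametricDist.norm_add_eq_max_of_norm_ne_norm h2.ne']
  exact le_max_of_le_left (by rw [norm_pow]; exact one_le_pow₀ hx.le)

theorem p_GAPGR (hAUXAR : S_AUXAR) :
    S_GAPGR := by
  intro K d a b h p hp φ j a₀ b₀ Y δ g D hS hY hY0 hδ hg hA
  obtain ⟨G, v, r, hG, e⟩ := red_lift _ hg
  have ep : ‖(p : Om p)‖ < 1 := by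
    rw [← map_natCast (algebraMap ℚ_[p] _), PadicAlgCl.norm_extends]
    exact Padic.norm_p_lt_one
  have h0' : 0 ≤ max δ ‖(p : Om p)‖ := le_max_of_le_right (norm_nonneg _)
  have h1' : max δ ‖(p : Om p)‖ < 1 := max_lt hδ ep
  obtain ⟨η, η0, hη⟩ : ∃ η : ℝ, 0 ≤ η ∧ η ^ (max D r.natDegree + 1) = max δ ‖(p : Om p)‖ :=
    ⟨_, Real.rpow_nonneg h0' _, Real.rpow_inv_natCast_pow h0' (Nat.succ_ne_zero _)⟩
  have η1 : η < 1 := by
    by_contra hc
    exact absurd (hη ▸ one_le_pow₀ (not_lt.1 hc)) (not_le.2 h1')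
  refine hAUXAR K d a b h p φ j a₀ b₀ Y η G hS hY hY0 η1 hG ?_
  obtain ⟨ε, hε, hF⟩ := hA
  refine ⟨ε, hε, hF.subset fun z hz => ⟨hz.1, hz.2.1, fun h0 => hz.2.2 ?_⟩⟩
  have h3 : aeval (j z) G = (G.map (Int.castRingHom ℤ_[p])).eval₂ (zo p) (j z) := by
    rw [eval₂_map, aeval_def]
    congr 1
  have m1 : (1 : ℝ) ≤ max 1 ‖j z‖ := le_max_left _ _
  have key : ‖aeval (j z) G‖ ≤ max δ ‖(p : Om p)‖ * max 1 ‖j z‖ ^ max D r.natDegree := by
    rw [h3, e, eval₂_add, eval₂_mul, eval₂_mul, eval₂_C, eval₂_C, map_natCast]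
    refine (IsUltrametricDist.norm_add_le_max _ _).trans (max_le ?_ ?_)
    · rw [norm_mul]
      refine (mul_le_of_le_one_left (norm_nonneg _) (gapg_zo _)).trans (h0.trans ?_)
      exact mul_le_mul (le_max_left _ _) (pow_le_pow_right₀ m1 (le_max_left _ _)) (by positivity)
        h0'
    · rw [norm_mul]
      exact mul_le_mul (le_max_right _ _)
        ((gapg_eval r _).trans (pow_le_pow_right₀ m1 (le_max_right _ _))) (norm_nonneg _) h0'
  change (‖j z‖ ≤ 1 ∧ ‖aeval (j z) G‖ ≤ η) ∨ 1 ≤ η * ‖j z‖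
  rcases le_or_gt ‖j z‖ 1 with hx | hx
  · rw [max_eq_left hx, one_pow, mul_one, ← hη] at key
    exact .inl ⟨hx, key.trans (pow_le_of_le_one η0 η1.le (Nat.succ_ne_zero _))⟩
  · refine .inr (not_lt.1 fun hc => ?_)
    rw [max_eq_right hx.le] at key
    have k1 := pow_lt_one₀ (by positivity) hc (Nat.succ_ne_zero (max D r.natDegree))
    rw [mul_pow, hη] at k1
    have k2 := mul_le_mul_of_nonneg_left
      (pow_le_pow_right₀ hx.le (Nat.le_succ (max D r.natDegree))) h0'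
    linarith [gapgr_monic hG hx]

end Pool.Agent.P.MP_8d2e9f_nt.AO
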