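import Pool.Agent.P.MP_8d2e9f_nt.AO.IfaceC
import Pool.Agent.P.MP_8d2e9f_nt.AO.TGF

/-! Step GFR. -/

set_option autoImplicit false

namespace Pool.Agent.P.MP_8d2e9f_nt.AO

open Polynomial NumberField Pool.Agent.P.MP_8d2e9f_nt.G
open scoped IntermediateField Classical

theorem gfr_one {p : ℕ} [Fact p.Prime] {g : ℤ_[p][X]} (h : g.map (zr p) ≠ 0) :
    gf_nu p (g.map (zq p)) = 1 :=
  le_antisymm (gf_int _).1 (not_lt.1 fun h4 => h ((gf_int _).2.1 h4))

theorem gfr_homg {p : ℕ} [Fact p.Prime] (a b : ℤ_[p][X]) (n : ℕ)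
    (hI : ∀ P : (ZMod p)[X], P ≠ 0 → P.natDegree ≤ n →
      homg (a.map (zr p)) (b.map (zr p)) n P ≠ 0) (g : ℚ_[p][X]) (hn : g.natDegree ≤ n) :
    gf_nu p (homg (a.map (zq p)) (b.map (zq p)) n g) = gf_nu p g := by
  rcases eq_or_ne g 0 with rfl | hg
  · simp [homg_def]
  obtain ⟨i, hi⟩ := gf_ex g
  have hc : g.coeff i ≠ 0 := fun h => hg ((gf_zero g).1 (by rw [hi, h, norm_zero]))
  have hcp : 0 < ‖g.coeff i‖ := norm_pos_iff.2 hc
  have hl : C (g.coeff i)⁻¹ * g ∈ lifts (zq p) := by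
    rw [lifts_iff_coeff_lifts]
    intro k
    refine ⟨⟨(C (g.coeff i)⁻¹ * g).coeff k, ?_⟩, rfl⟩
    rw [coeff_C_mul, norm_mul, norm_inv, inv_mul_le_one₀ hcp, ← hi]
    exact gf_le g k
  obtain ⟨h, hh⟩ := (mem_lifts _).1 hl
  have hg' : g = C (g.coeff i) * h.map (zq p) := by
    rw [hh, ← mul_assoc, ← C_mul, mul_inv_cancel₀ hc, C_1, one_mul]
  have h1 : h.map (zr p) ≠ 0 := by
    intro h0
    have h2 := (gf_int h).2.2 h0
    rw [hh, gf_mul, gf_C, hi, norm_inv, inv_mul_cancel₀ hcp.ne'] at h2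
    exact lt_irrefl _ h2
  have hd : h.natDegree ≤ n := by
    rw [← natDegree_map_eq_of_injective (f := zq p) Subtype.val_injective, hh]
    exact (natDegree_C_mul_le _ _).trans hn
  have h2 : (homg a b n h).map (zr p) ≠ 0 := by
    rw [homg_map]
    exact hI _ h1 (natDegree_map_le.trans hd)
  have h4 : homg (a.map (zq p)) (b.map (zq p)) n g =
      C (g.coeff i) * (homg a b n h).map (zq p) := by
    rw [homg_map, ← homg_C_mul, ← hg']
  rw [h4, gf_mul, gf_C, gfr_one h2, mul_one, hi]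

theorem p_GFR (hIND : S_IND) (hGOODR : S_GOODR) :
    S_GFR := by
  intro p _ d a b hab
  have hI := fun n => (hIND (ZMod p) d n _ _ (hGOODR.1 p d a b hab).1).2
  have hb : b.map (zr p) ≠ 0 := by
    have := hI 1 1 one_ne_zero (by simp)
    rwa [homg_one, pow_one] at this
  obtain ⟨E, j1, j2, j3, j, -, k1, k2, -, -, k5⟩ := gf_frac ℚ_[p][X] (gf_nu p)
    (fun a => gaussNorm_nonneg _ a zero_le_one) gf_zero gf_mul
    (fun a b => isNonarchimedean_gaussNorm _ (gf_na p) zero_le_one a b)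
    (RingHom.id _) (fun _ => rfl)
  have ej : ∀ q : ℚ_[p][X], q.eval₂ (j.comp C) (j X) = j q := fun q => by
    rw [← hom_eval₂, eval₂_C_X]
  have nb : ‖j (b.map (zq p))‖ = 1 := by rw [k2, gfr_one hb]
  obtain ⟨t, ht⟩ : ∃ t : ℚ_[p][X] →+* E,
      ∀ g, t g = g.eval₂ (j.comp C) (j (a.map (zq p)) / j (b.map (zq p))) :=
    ⟨eval₂RingHom _ _, fun _ => rfl⟩
  have nt : ∀ g, ‖t g‖ = gf_nu p g := fun g => by
    have h := homg_rv (j.comp C) (u := j X) (b := b.map (zq p)) (P := g) (a.map (zq p))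
      (by rw [ej, ← norm_pos_iff, nb]; exact one_pos) le_rfl
    rw [rv, ej, ej, ej, ← ht] at h
    rw [← gfr_homg a b _ (hI _) g le_rfl, ← k2, h, norm_mul, norm_pow, nb, one_pow, one_mul]
  have hti : Function.Injective t := (injective_iff_map_eq_zero t).2 fun g h =>
    (gf_zero g).1 (by rw [← nt, h, norm_zero])
  letI : Algebra ℚ_[p][X] E := j.toAlgebra
  haveI : FaithfulSMul ℚ_[p][X] E := (faithfulSMul_iff_algebraMap_injective _ _).2 k1
  haveI : IsFractionRing ℚ_[p][X] E := IsFractionRing.of_field _ _ fun x => by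
    obtain ⟨u, v, -, h⟩ := k5 x
    exact ⟨u, v, h.symm⟩
  obtain ⟨s, k4⟩ : ∃ s : E →+* E, ∀ g, s (j g) = t g :=
    ⟨IsFractionRing.lift hti, fun g => IsFractionRing.lift_algebraMap hti g⟩
  have k3 : ∀ x, ‖s x‖ = ‖x‖ := fun x => by
    obtain ⟨u, v, -, rfl⟩ := k5 x
    rw [map_div₀, k4, k4, norm_div, norm_div, nt, nt, k2, k2]
  have hnt : ∃ x : E, 1 < ‖x‖ := by
    obtain ⟨c, hc⟩ := NontriviallyNormedField.non_trivial (α := ℚ_[p])
    exact ⟨j (C c), by rw [k2, gf_C]; exact hc⟩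
  obtain ⟨F, i1, i2, i3, ι, σ, Γ, h1, h2, h3, h4, h5⟩ := gf_compl E hnt s k3
  refine ⟨F, i1, i2, i3, ι.comp j, σ, Γ, ι.injective.comp k1, fun c => ?_, fun g => ?_, h2,
    fun g => ?_, fun γ hγ => ⟨(h4 γ hγ).1, fun g => (h4 γ hγ).2 _⟩, fun x hx hΓ => ?_⟩
  · rw [RingHom.comp_apply, h1, k2, gf_C]
  · rw [RingHom.comp_apply, h1, k2]
    exact gf_int g
  · rw [RingHom.comp_apply, h3, k4, ht, hom_eval₂, map_div₀]
    rfl
  · obtain ⟨y, hy⟩ := h5 x hx hΓ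
    obtain ⟨a, b, hb, rfl⟩ := k5 y
    refine ⟨a, b, hb, ?_⟩
    rw [RingHom.comp_apply, RingHom.comp_apply, ← map_div₀]
    exact hy

end Pool.Agent.P.MP_8d2e9f_nt.AO
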