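import Pool.Agent.P.MP_8d2e9f_nt.AO.IfaceC
import Pool.Agent.P.MP_8d2e9f_nt.AO.TGOOD

/-! Step GOODR. -/

set_option autoImplicit false

namespace Pool.Agent.P.MP_8d2e9f_nt.AO

open Polynomial NumberField Pool.Agent.P.MP_8d2e9f_nt.G
open scoped IntermediateField Classical

theorem goodr_le {R F : Type} [CommRing R] [NormedField F] [IsUltrametricDist F] (ι : R →+* F)
    (hι : ∀ c, ‖ι c‖ ≤ 1) (g : R[X]) {n : ℕ} (hg : g.natDegree ≤ n) (u : F) :
    ‖g.eval₂ ι u‖ ≤ max 1 ‖u‖ ^ n := by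
  rw [eval₂_eq_sum_range' ι (Nat.lt_succ_of_le hg)]
  refine IsUltrametricDist.norm_sum_le_of_forall_le_of_nonneg (by positivity) fun l hl => ?_
  rw [norm_mul, norm_pow]
  calc ‖ι (g.coeff l)‖ * ‖u‖ ^ l ≤ 1 * max 1 ‖u‖ ^ l := by
        gcongr
        exacts [hι _, le_max_right _ _]
    _ ≤ max 1 ‖u‖ ^ n := by
        rw [one_mul]
        exact pow_le_pow_right₀ (le_max_left _ _) (Nat.lt_succ_iff.1 (Finset.mem_range.1 hl))

theorem goodr_unit {R F : Type} [CommRing R] [NormedField F] (ι : R →+* F)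
    (hι : ∀ c, ‖ι c‖ ≤ 1) {c : R} (hc : IsUnit c) : ‖ι c‖ = 1 := by
  obtain ⟨e, he⟩ := hc.exists_right_inv
  have h1 : ‖ι c‖ * ‖ι e‖ = 1 := by rw [← norm_mul, ← map_mul, he, map_one, norm_one]
  have h2 := hι c
  have h3 := hι e
  nlinarith [norm_nonneg (ι c), norm_nonneg (ι e)]

theorem goodr_lift {K : Type} [Field K] {p : ℕ} [Fact p.Prime] (φ : K →+* ℚ_[p]) (g : K[X])
    (h : ∀ c ∈ g.coeffs, c ≠ 0 → ‖φ c‖ = 1) : ∃ g₀ : ℤ_[p][X], g₀.map (zq p) = g.map φ := by
  refine (mem_lifts _).1 ((lifts_iff_coeff_lifts _).2 fun i => ?_)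
  rw [coeff_map]
  by_cases h0 : g.coeff i = 0
  · exact ⟨0, by rw [h0, map_zero, map_zero]⟩
  · exact ⟨⟨_, (h _ (coeff_mem_coeffs h0) h0).le⟩, rfl⟩

theorem p_GOODR :
    S_GOODR := by
  refine ⟨fun p _ d a b ⟨⟨h0, h1, h2, h3⟩, hu⟩ => ⟨⟨h0, ?_, natDegree_map_le.trans_lt h2,
    h3.map (mapRingHom (zr p))⟩, fun F _ _ ι hι u => ?_⟩, fun K d a b ⟨h0, h1, h2, U, V, h3⟩ => ?_⟩
  · rw [natDegree_map_of_leadingCoeff_ne_zero _ (hu.map (zr p)).ne_zero, h1]
  · have ba := goodr_le ι hι a h1.le u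
    have bb := goodr_le ι hι b h2.le u
    refine le_antisymm (max_le ba bb) ?_
    rcases le_or_gt ‖u‖ 1 with h | h
    · obtain ⟨U, V, e⟩ := h3
      have bU := goodr_le ι hι U le_rfl u
      have bV := goodr_le ι hι V le_rfl u
      rw [max_eq_left h, one_pow] at bU bV ⊢
      have e1 := congrArg (fun g => ‖eval₂ ι u g‖) e
      simp only [eval₂_add, eval₂_mul, eval₂_one, norm_one] at e1
      rw [← e1]
      refine (IsUltrametricDist.norm_add_le_max _ _).trans (max_le_max ?_ ?_) <;> rw [norm_mul]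
      · exact mul_le_of_le_one_left (norm_nonneg _) bU
      · exact mul_le_of_le_one_left (norm_nonneg _) bV
    · obtain ⟨k, rfl⟩ : ∃ k, d = k + 1 := ⟨d - 1, by omega⟩
      have e := good_one (fun l => ι (a.coeff l)) k (fun l => hι _)
        (goodr_unit ι hι (by rwa [← h1])) u
      rw [← eval₂_eq_sum_range' ι (by omega)] at e
      have h4 : 1 < max 1 ‖u‖ ^ (k + 1) := one_lt_pow₀ (lt_max_of_lt_right h) (by omega)
      rw [← e] at h4 ⊢
      rw [max_eq_right (lt_max_iff.1 h4 |>.resolve_left (lt_irrefl _)).le]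
      exact le_max_left _ _
  · refine ⟨a.coeffs ∪ b.coeffs ∪ U.coeffs ∪ V.coeffs, fun p _ φ hs => ?_⟩
    obtain ⟨a₀, ea⟩ := goodr_lift φ a fun c hc => hs c (by simp [hc])
    obtain ⟨b₀, eb⟩ := goodr_lift φ b fun c hc => hs c (by simp [hc])
    obtain ⟨U₀, eU⟩ := goodr_lift φ U fun c hc => hs c (by simp [hc])
    obtain ⟨V₀, eV⟩ := goodr_lift φ V fun c hc => hs c (by simp [hc])
    have hi : Function.Injective (zq p) := IsFractionRing.injective _ _
    have da : a₀.natDegree = d := by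
      rw [← natDegree_map_eq_of_injective hi, ea, natDegree_map, h1]
    have db : b₀.natDegree < d := by
      rwa [← natDegree_map_eq_of_injective hi, eb, natDegree_map]
    refine ⟨a₀, b₀, ⟨⟨h0, da, db, U₀, V₀, map_injective _ hi ?_⟩, ?_⟩, ea, eb⟩
    · rw [Polynomial.map_add, Polynomial.map_mul, Polynomial.map_mul, ea, eb, eU, eV,
        ← Polynomial.map_mul, ← Polynomial.map_mul, ← Polynomial.map_add, h3, Polynomial.map_one,
        Polynomial.map_one]
    · have a0 : a ≠ 0 := fun h => by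
        rw [h, natDegree_zero] at h1
        omega
      have c0 : a.coeff d ≠ 0 := by
        rw [← h1]
        exact leadingCoeff_ne_zero.2 a0
      have e := congrArg (fun g => coeff g d) ea
      simp only [coeff_map] at e
      rw [PadicInt.isUnit_iff, leadingCoeff, da, PadicInt.norm_def]
      exact (congrArg norm e).trans (hs _ (by simp [coeff_mem_coeffs c0]) c0)

end Pool.Agent.P.MP_8d2e9f_nt.AO
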