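import Pool.Agent.P.MP_8d2e9f_nt.AO.IfaceC

/-! Step IND. -/

set_option autoImplicit false

namespace Pool.Agent.P.MP_8d2e9f_nt.AO

open Polynomial NumberField Pool.Agent.P.MP_8d2e9f_nt.G
open scoped IntermediateField Classical

lemma ind_core {k : Type} [Field k] {a b : k[X]} (ha : a ≠ 0) (hc : IsCoprime a b) :
    ∀ (n : ℕ) (r : ℕ → k[X]), (∀ i, (r i).degree < a.degree) →
      ∑ i ∈ Finset.range (n + 1), r i * a ^ i * b ^ (n - i) = 0 → ∀ i, i ≤ n → r i = 0 := by
  intro n
  induction n with
  | zero =>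
    intro r _ h i hi
    obtain rfl : i = 0 := by omega
    simpa using h
  | succ n ih =>
    intro r hr h
    rw [Finset.sum_range_succ'] at h
    have h1 : ∑ i ∈ Finset.range (n + 1), r (i + 1) * a ^ (i + 1) * b ^ (n + 1 - (i + 1)) =
        a * ∑ i ∈ Finset.range (n + 1), r (i + 1) * a ^ i * b ^ (n - i) := by
      rw [Finset.mul_sum]
      refine Finset.sum_congr rfl fun i _ => ?_
      rw [Nat.add_sub_add_right]
      ring
    rw [h1, pow_zero, mul_one, Nat.sub_zero] at h
    have h2 : a ∣ r 0 * b ^ (n + 1) := ⟨-_, by rw [mul_neg]; exact eq_neg_of_add_eq_zero_right h⟩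
    have h3 : r 0 = 0 :=
      eq_zero_of_dvd_of_degree_lt ((hc.pow_right (n := n + 1)).dvd_of_dvd_mul_right h2) (hr 0)
    rw [h3, zero_mul, add_zero] at h
    have h4 := ih (fun i => r (i + 1)) (fun i => hr _) ((mul_eq_zero.1 h).resolve_left ha)
    rintro (_ | i) hi
    · exact h3
    · exact h4 i (by omega)

theorem p_IND :
    S_IND := by
  intro k _ d n a b ⟨hd, ha, _, hc⟩
  have ha0 : a ≠ 0 := by
    rintro rfl
    simp at ha
    omega
  have hdeg : a.degree = d := by rw [degree_eq_natDegree ha0, ha]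
  constructor
  · intro T hT h s
    have h1 : ∑ i ∈ Finset.range (n + 1),
        (∑ s : Fin d, C ((T s).coeff i) * X ^ (s : ℕ)) * a ^ i * b ^ (n - i) = 0 := by
      rw [← h]
      simp only [homg_def, Finset.sum_mul, Finset.mul_sum]
      rw [Finset.sum_comm]
      exact Finset.sum_congr rfl fun s _ => Finset.sum_congr rfl fun i _ => by ring
    have h2 := ind_core ha0 hc n (fun i => ∑ s : Fin d, C ((T s).coeff i) * X ^ (s : ℕ))
      (fun i => by rw [hdeg]; exact degree_sum_fin_lt _) h1
    ext i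
    by_cases hi : i ≤ n
    · have h3 := congrArg (fun g : k[X] => g.coeff s) (h2 i hi)
      simp only [finsetSum_coeff, coeff_C_mul_X_pow, coeff_zero] at h3
      rw [Finset.sum_eq_single s (fun t _ ht => if_neg fun e => ht (Fin.ext e.symm)) (by simp),
        if_pos rfl] at h3
      simpa using h3
    · rw [coeff_eq_zero_of_natDegree_lt ((hT s).trans_lt (not_le.1 hi)), coeff_zero]
  · intro P hP hn h
    rw [homg_def] at h
    have h2 := ind_core ha0 hc n (fun i => C (P.coeff i))
      (fun i => degree_C_le.trans_lt (by rw [hdeg]; exact_mod_cast (by omega : 0 < d))) h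
    exact hP (leadingCoeff_eq_zero.1 (C_eq_zero.1 (h2 _ hn)))

end Pool.Agent.P.MP_8d2e9f_nt.AO
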