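import Pool.Agent.P.MP_8d2e9f_nt.AO.IfaceC
import Pool.Agent.P.MP_8d2e9f_nt.AO.TINVW

/-! Step INVWR. -/

set_option autoImplicit false

namespace Pool.Agent.P.MP_8d2e9f_nt.AO

open Polynomial NumberField Pool.Agent.P.MP_8d2e9f_nt.G
open scoped IntermediateField Classical

lemma invwr_loc {F : Type} [NormedField F] [IsUltrametricDist F] {y A B A' B' u v : F}
    (hy : ‖y‖ < 1) (hA : ‖A‖ ≤ 1) (hB : ‖B‖ = 1) (hA' : ‖A'‖ ≤ 1) (hB' : ‖B'‖ ≤ 1)
    (hu : ‖u - A'‖ < 1) (hv : ‖v - B'‖ < 1) :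
    ∃ w : F, (A + y * u) / (B + y * v) - A / B = y * w ∧ ‖w - (A' * B - A * B') / B ^ 2‖ < 1 := by
  have add : ∀ {s t : F}, ‖s‖ < 1 → ‖t‖ < 1 → ‖s + t‖ < 1 := fun h1 h2 =>
    (IsUltrametricDist.norm_add_le_max _ _).trans_lt (max_lt h1 h2)
  have mul : ∀ {s t : F}, ‖s‖ < 1 → ‖t‖ ≤ 1 → ‖s * t‖ < 1 := fun h1 h2 => by
    rw [norm_mul]
    exact mul_lt_one_of_nonneg_of_lt_one_left (norm_nonneg _) h1 h2
  have h1 : ‖v‖ ≤ 1 := by
    have := IsUltrametricDist.norm_add_le_max (v - B') B'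
    rw [sub_add_cancel] at this
    exact this.trans (max_le hv.le hB')
  have h2 : ‖B + y * v‖ = 1 := by
    have h3 := mul hy h1
    rw [IsUltrametricDist.norm_add_eq_max_of_norm_ne_norm (by rw [hB]; exact h3.ne'), hB]
    exact max_eq_left h3.le
  have h3 : B ≠ 0 := norm_ne_zero_iff.1 (by rw [hB]; exact one_ne_zero)
  have h4 : B + y * v ≠ 0 := norm_ne_zero_iff.1 (by rw [h2]; exact one_ne_zero)
  refine ⟨(u * B - A * v) / ((B + y * v) * B), by field_simp; ring, ?_⟩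
  have h5 : (u * B - A * v) / ((B + y * v) * B) - (A' * B - A * B') / B ^ 2 =
      (((u - A') * B + (v - B') * -A) * B + (y * v * -A' * B + y * v * A * B')) /
        ((B + y * v) * B ^ 2) := by
    rw [div_sub_div _ _ (mul_ne_zero h4 h3) (pow_ne_zero _ h3), div_eq_div_iff
      (mul_ne_zero (mul_ne_zero h4 h3) (pow_ne_zero _ h3)) (mul_ne_zero h4 (pow_ne_zero _ h3))]
    ring
  rw [h5, norm_div, norm_mul (B + y * v), h2, norm_pow, hB, one_pow, mul_one, div_one]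
  exact add (mul (add (mul hu hB.le) (mul hv (by rwa [norm_neg]))) hB.le)
    (add (mul (mul (mul hy h1) (by rwa [norm_neg])) hB.le) (mul (mul (mul hy h1) hA) hB'))

theorem p_INVWR (hPRN : S_PRN) (hGOODR : S_GOODR) (hGFR : S_GFR) (hPERMR : S_PERMR) (hAPPRR : S_APPRR) :
    S_INVWR := by
  intro p _ d a b A₀ hgd hd hA hev hne hC
  obtain ⟨F, _, _, _, e, σ, Γ, hG⟩ := hGFR p d a b hgd
  obtain ⟨Z, π, hZne, hZ, hπ, hσ⟩ := hPERMR p d a b F e σ Γ A₀ hgd hG hd hA hev hC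
  have hb0 : b.map (zr p) ≠ 0 := (hPRN.1 (ZMod p) d _ _ (hGOODR.1 p d a b hgd).1).2.2.1
  obtain ⟨hinj, hC1, hle, -, hσe, hΓ, -⟩ := id hG
  have hee : ∀ g : ℚ_[p][X], e g = g.eval₂ (e.comp C) (e X) := fun g => by
    rw [← hom_eval₂, eval₂_C_X]
  have hee' : ∀ g : ℤ_[p][X], e (g.map (zq p)) = g.eval₂ ((e.comp C).comp (zq p)) (e X) :=
    fun g => by rw [hee, eval₂_map]
  have ht : ‖e X‖ ≤ 1 := by simpa using (hle X).1
  have hι : ∀ c, ‖((e.comp C).comp (zq p)) c‖ ≤ 1 := fun c => by simpa using (hle (C c)).1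
  have hb1 : ‖e (b.map (zq p))‖ = 1 :=
    le_antisymm (hle b).1 (not_lt.1 fun h => hb0 ((hle b).2.1 h))
  have hxt : ∀ x ∈ Z, x - e X ≠ 0 := fun x hx h => by
    have h1 := ((hZ x).1 hx).1
    rw [sub_eq_zero.1 h, eval₂_hom, eval_map] at h1
    have h2 : eval₂ (mapRingHom (zq p)) X A₀ = (A₀.eval X).map (zq p) := by
      have := eval₂_hom (mapRingHom (zq p)) (p := A₀) X
      simpa using this
    rw [h2, ← map_zero e] at h1
    exact hne (map_injective _ (IsFractionRing.injective ℤ_[p] ℚ_[p])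
      (by rw [hinj h1, Polynomial.map_zero]))
  have hH : ∏ x ∈ Z, (x - e X) ≠ 0 := Finset.prod_ne_zero_iff.2 hxt
  have hinv : ∀ γ ∈ Γ, γ (∏ x ∈ Z, (x - e X)) = ∏ x ∈ Z, (x - e X) := fun γ hγ => by
    obtain ⟨hn, hfix⟩ := hΓ γ hγ
    have hc : (γ : F →+* F).comp e = e := RingHom.ext fun g => hfix g
    have hm : ∀ x ∈ Z, γ x ∈ Z := fun x hx => by
      obtain ⟨h1, h2⟩ := (hZ x).1 hx
      refine (hZ _).2 ⟨?_, ?_⟩
      · have := hom_eval₂ (A₀.map (mapRingHom (zq p))) e (γ : F →+* F) x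
        rw [h1, map_zero, hc] at this
        exact this.symm
      · rw [← hfix X, ← map_sub, hn]
        exact h2
    have him : Z.image γ = Z :=
      Finset.eq_of_subset_of_card_le (Finset.image_subset_iff.2 hm)
        (Finset.card_image_of_injective Z γ.injective).ge
    rw [map_prod]
    conv_rhs => rw [← him, Finset.prod_image γ.injective.injOn]
    exact Finset.prod_congr rfl fun x _ => by rw [map_sub, hfix]
  have loc : ∀ x ∈ Z, ∃ w : F, rv (e.comp C) (a.map (zq p)) (b.map (zq p)) x -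
      e (a.map (zq p)) / e (b.map (zq p)) = (x - e X) * w ∧
        ‖w - e ((wr a b).map (zq p)) / e (b.map (zq p)) ^ 2‖ < 1 := fun x hx => by
    have hx' := ((hZ x).1 hx).2
    obtain ⟨u, u1, u2⟩ := invw_taylor _ hι a (e X) x ht hx'
    obtain ⟨v, v1, v2⟩ := invw_taylor _ hι b (e X) x ht hx'
    rw [← hee'] at u1 u2 v1 v2
    obtain ⟨w, w1, w2⟩ := invwr_loc hx' (hle a).1 hb1 (hle _).1 (hle _).1 u2 v2
    refine ⟨w, ?_, ?_⟩
    · rw [rv, eval₂_map, eval₂_map, eq_add_of_sub_eq' u1, eq_add_of_sub_eq' v1, w1]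
    · rwa [wr, Polynomial.map_sub, Polynomial.map_mul, Polynomial.map_mul, map_sub, map_mul,
        map_mul]
  choose! u hu1 hu2 using loc
  have hσH : σ (∏ x ∈ Z, (x - e X)) = (∏ x ∈ Z, (x - e X)) * ∏ x ∈ Z, u x := by
    rw [map_prod, ← Finset.prod_mul_distrib,
      ← Finset.prod_nbij π (fun x hx => hπ.mapsTo hx) hπ.injOn hπ.surjOn
        (f := fun x => σ (π x - e X)) (g := fun x => σ (x - e X)) fun _ _ => rfl]
    refine Finset.prod_congr rfl fun x hx => ?_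
    rw [map_sub, hσ x hx, hσe, eval₂_X, hu1 x hx]
  have hu : ‖∏ x ∈ Z, u x - e ((wr a b ^ Z.card).map (zq p)) /
      e ((b ^ (2 * Z.card)).map (zq p))‖ < 1 := by
    rw [Polynomial.map_pow, Polynomial.map_pow, map_pow, map_pow, pow_mul, ← div_pow]
    refine invw_prod Z u _ ?_ hu2
    rw [norm_div, norm_pow, hb1, one_pow, div_one]
    exact (hle _).1
  obtain ⟨P, Q, n, hP, hQ, h1, h2, h⟩ := hAPPRR p d a b (wr a b ^ Z.card) (b ^ (2 * Z.card)) F e σ
    Γ _ _ hgd hG hH hinv hσH (by rw [Polynomial.map_pow]; exact pow_ne_zero _ hb0) hu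
  refine ⟨P, Q, n, Z.card, hP, hQ, h1, h2, hZne.card_pos, ?_⟩
  rwa [Polynomial.map_pow, Polynomial.map_pow, wr_map] at h

end Pool.Agent.P.MP_8d2e9f_nt.AO
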