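import Pool.Agent.P.MP_8d2e9f_nt.AO.IfaceC

/-! Step KPOW. -/

set_option autoImplicit false

namespace Pool.Agent.P.MP_8d2e9f_nt.AO

open Polynomial NumberField Pool.Agent.P.MP_8d2e9f_nt.G
open scoped IntermediateField Classical

lemma kpow_one (e : ℕ) (he : 0 < e) : ∀ (n : ℕ) (P : Qbar[X]), P.natDegree = n → P ≠ 0 →
    (∀ x, x ≠ 0 → e ∣ rootMultiplicity x P) → ∃ g, P.comp (X ^ e) = g ^ e := by
  intro n
  induction n using Nat.strong_induction_on with
  | _ n ih =>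
  intro P hn hP h
  by_cases h0 : P.degree = 0
  · obtain ⟨c, hc⟩ := IsAlgClosed.exists_pow_nat_eq (P.coeff 0) he
    exact ⟨C c, by rw [eq_C_of_degree_eq_zero h0, C_comp, ← hc, C_pow]⟩
  obtain ⟨x, hx⟩ := IsAlgClosed.exists_root P h0
  obtain ⟨Q, hQ, hd⟩ := exists_eq_pow_rootMultiplicity_mul_and_not_dvd P hP x
  have hm : 0 < rootMultiplicity x P := (rootMultiplicity_pos hP).2 hx
  have hQ0 : Q ≠ 0 := fun q => hP (by rw [hQ, q, mul_zero])
  have hdeg : P.natDegree = rootMultiplicity x P + Q.natDegree := by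
    conv_lhs => rw [hQ]
    rw [natDegree_mul (pow_ne_zero _ (X_sub_C_ne_zero x)) hQ0, natDegree_pow, natDegree_X_sub_C,
      mul_one]
  obtain ⟨g, hg⟩ := ih Q.natDegree (by omega) Q rfl hQ0 fun y hy => by
    by_cases q : y = x
    · rw [q, rootMultiplicity_eq_zero fun r => hd (dvd_iff_isRoot.2 r)]
      exact dvd_zero _
    · have := h y hy
      rwa [hQ, rootMultiplicity_mul (hQ ▸ hP), rootMultiplicity_eq_zero (p := (X - C x) ^ _)
        (by simp [IsRoot.def, sub_eq_zero, q]), zero_add] at this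
  by_cases q : x = 0
  · refine ⟨X ^ rootMultiplicity x P * g, ?_⟩
    conv_lhs => rw [hQ]
    rw [mul_comp, hg, pow_comp, q, C_0, sub_zero, X_comp, mul_pow, pow_right_comm]
  · obtain ⟨k, hk⟩ := h x q
    refine ⟨(X ^ e - C x) ^ k * g, ?_⟩
    conv_lhs => rw [hQ, hk]
    rw [mul_comp, hg, pow_comp, sub_comp, X_comp, C_comp, mul_pow, pow_mul']

lemma kpow_der {e : ℕ} (he : 0 < e) {a g : Qbar[X]} (h : a.comp (X ^ e) = g ^ e) :
    (derivative a).comp (X ^ e) * X ^ (e - 1) = g ^ (e - 1) * derivative g := by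
  have := congrArg derivative h
  rw [derivative_comp, derivative_X_pow, derivative_pow] at this
  refine mul_left_cancel₀ (C_ne_zero.2 (Nat.cast_ne_zero.2 he.ne' : (e : Qbar) ≠ 0)) ?_
  linear_combination this

lemma kpow_deg {e : ℕ} (he : 0 < e) {a g : Qbar[X]} (h : a.comp (X ^ e) = g ^ e) :
    g.natDegree = a.natDegree := by
  have := congrArg natDegree h
  rw [natDegree_comp, natDegree_X_pow, natDegree_pow, mul_comm] at this
  exact (Nat.eq_of_mul_eq_mul_left he this).symm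

theorem p_KPOW :
    S_KPOW := by
  refine ⟨fun P e hP he h => kpow_one e he _ P rfl hP h, fun d e a b g₁ g₂ he hN h1 h2 =>
    ⟨⟨hN.1, (kpow_deg he h1).trans hN.2.1, (kpow_deg he h2).trans_lt hN.2.2.1, ?_⟩, ?_⟩,
    fun U V c n hn hc h => ?_⟩
  · have := hN.2.2.2.map (compRingHom (X ^ e))
    rwa [coe_compRingHom_apply, coe_compRingHom_apply, h1, h2, IsCoprime.pow_iff he he] at this
  · have e1 := kpow_der he h1
    have e2 := kpow_der he h2
    obtain ⟨n, rfl⟩ : ∃ n, e = n + 1 := ⟨e - 1, by omega⟩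
    rw [add_tsub_cancel_right] at e1 e2 ⊢
    rw [wr, wr, sub_comp, mul_comp, mul_comp, h1, h2]
    linear_combination g₂ ^ (n + 1) * e1 - g₁ ^ (n + 1) * e2
  · have h1 : V ∣ U := (IsIntegrallyClosed.pow_dvd_pow_iff hn.ne').1 (h ▸ dvd_mul_left _ _)
    have h2 : U ∣ V := (IsIntegrallyClosed.pow_dvd_pow_iff hn.ne').1
      ⟨C c⁻¹, by rw [h, mul_right_comm, ← C_mul, mul_inv_cancel₀ hc, C_1, one_mul]⟩
    obtain ⟨u, hu⟩ := associated_of_dvd_dvd h1 h2
    obtain ⟨r, hr, e⟩ := Polynomial.isUnit_iff.1 u.isUnit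
    exact ⟨r, hr.ne_zero, by rw [e, ← hu, mul_comm]⟩

end Pool.Agent.P.MP_8d2e9f_nt.AO
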