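import Pool.Agent.P.MP_8d2e9f_nt.AO.IfaceC

/-! Step KRULL. -/

set_option autoImplicit false

namespace Pool.Agent.P.MP_8d2e9f_nt.AO

open Polynomial NumberField Pool.Agent.P.MP_8d2e9f_nt.G
open scoped IntermediateField Classical

namespace krull_h

lemma core {S : Type} [CommRing S] [IsDomain S] [IsNoetherianRing S] (P Q : Ideal S)
    [hP : P.IsPrime] [hQ : Q.IsPrime] (hle : P ≤ Q) (p : S) (hp : p ∈ Q) (hp' : p ∉ P)
    (hmin : ∀ R : Ideal S, R.IsPrime → p ∈ R → R ≤ Q → Q ≤ R) : P = ⊥ := by
  by_contra h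
  have hm : Q ∈ (Ideal.span {p}).minimalPrimes := by
    refine ⟨⟨hQ, (Ideal.span_singleton_le_iff_mem _).2 hp⟩, ?_⟩
    intro R hR hRQ
    exact hmin R hR.1 ((Ideal.span_singleton_le_iff_mem _).1 hR.2) hRQ
  have h1 := Ideal.height_le_one_of_isPrincipal_of_mem_minimalPrimes _ Q hm
  have hlt : P < Q := lt_of_le_of_ne hle (fun e => hp' (e ▸ hp))
  have h2 := Ideal.height_strict_mono_of_isPrime hlt
  have h3 : (⊥ : Ideal S).height < P.height :=
    Ideal.height_strict_mono_of_isPrime (bot_lt_iff_ne_bot.2 h)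
  have h4 : P.height < 1 := lt_of_lt_of_le h2 h1
  have h5 : P.height = 0 := by
    rcases eq_or_ne P.height 0 with h0 | h0
    · exact h0
    · exact absurd h4 (not_lt.2 (Order.one_le_iff_ne_zero.2 h0))
  rw [h5] at h3
  exact absurd h3 (by simp)

section cg

variable {W : Type} [Field W] [Algebra Qbar W] (O : ValuationSubring W)

/-- `x` is congruent to the constant `c`. -/
def Cg (x : W) (c : Qbar) : Prop := O.valuation (x - algebraMap Qbar W c) < 1

variable {O}

lemma Cg.const (c : Qbar) : Cg O (algebraMap Qbar W c) c := by simp [Cg]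

lemma Cg.add {x y : W} {c d : Qbar} (hx : Cg O x c) (hy : Cg O y d) : Cg O (x + y) (c + d) := by
  unfold Cg at *
  have e : x + y - algebraMap Qbar W (c + d) =
      (x - algebraMap Qbar W c) + (y - algebraMap Qbar W d) := by rw [map_add]; ring
  rw [e]
  exact Valuation.map_add_lt _ hx hy

lemma Cg.mul (hO : ∀ c : Qbar, algebraMap Qbar W c ∈ O) {x y : W} {c d : Qbar} (hx : Cg O x c)
    (hy : Cg O y d) : Cg O (x * y) (c * d) := by
  unfold Cg at *
  have e : x * y - algebraMap Qbar W (c * d) =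
      (x - algebraMap Qbar W c) * (y - algebraMap Qbar W d) +
        (algebraMap Qbar W c * (y - algebraMap Qbar W d) +
          algebraMap Qbar W d * (x - algebraMap Qbar W c)) := by rw [map_mul]; ring
  rw [e]
  have hc := (O.valuation_le_one_iff _).2 (hO c)
  have hd := (O.valuation_le_one_iff _).2 (hO d)
  refine Valuation.map_add_lt _ ?_ (Valuation.map_add_lt _ ?_ ?_) <;> rw [map_mul]
  · exact mul_lt_one_of_lt_of_le hx hy.le
  · exact lt_of_le_of_lt (mul_le_of_le_one_left' hc) hy
  · exact lt_of_le_of_lt (mul_le_of_le_one_left' hd) hx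

lemma Cg.pow (hO : ∀ c : Qbar, algebraMap Qbar W c ∈ O) {x : W} {c : Qbar} (hx : Cg O x c)
    (n : ℕ) : Cg O (x ^ n) (c ^ n) := by
  induction n with
  | zero => simpa using Cg.const (O := O) 1
  | succ n ih => rw [pow_succ, pow_succ]; exact ih.mul hO hx

lemma Cg.uniq (hO : ∀ c : Qbar, algebraMap Qbar W c ∈ O) {x : W} {c d : Qbar} (hx : Cg O x c)
    (hy : Cg O x d) : c = d := by
  by_contra hne
  have hne' : d - c ≠ 0 := sub_ne_zero.2 (Ne.symm hne)
  unfold Cg at *
  have h1 : O.valuation (algebraMap Qbar W (d - c)) < 1 := by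
    have e : algebraMap Qbar W (d - c) =
        (x - algebraMap Qbar W c) - (x - algebraMap Qbar W d) := by rw [map_sub]; ring
    rw [e]
    exact Valuation.map_sub_lt _ hx hy
  have h2 := (O.valuation_le_one_iff _).2 (hO (d - c)⁻¹)
  have h3 : O.valuation (algebraMap Qbar W (d - c)) * O.valuation (algebraMap Qbar W (d - c)⁻¹)
      = 1 := by rw [← map_mul, ← map_mul, mul_inv_cancel₀ hne', map_one, map_one]
  exact absurd h3 (mul_lt_one_of_lt_of_le h1 h2).ne

lemma Cg.aeval (hO : ∀ c : Qbar, algebraMap Qbar W c ∈ O) {x : W} {c : Qbar} (hx : Cg O x c)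
    (a : Qbar[X]) : Cg O (aeval x a) (aeval c a) := by
  induction a using Polynomial.induction_on' with
  | add a b ha hb => rw [map_add, map_add]; exact ha.add hb
  | monomial n r =>
    rw [aeval_monomial, aeval_monomial]
    exact Cg.mul hO (Cg.const r) (hx.pow hO n)

lemma Cg.biv (hO : ∀ c : Qbar, algebraMap Qbar W c ∈ O) {x y : W} {c d : Qbar} (hx : Cg O x c)
    (hy : Cg O y d) (B : Qbar[X][X]) : Cg O (aevalAeval x y B) (aevalAeval c d B) := by
  induction B using Polynomial.induction_on' with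
  | add a b ha hb => rw [map_add, map_add]; exact ha.add hb
  | monomial n r =>
    rw [← C_mul_X_pow_eq_monomial, map_mul, map_mul, map_pow, map_pow, aevalAeval_C,
      aevalAeval_C, aevalAeval_Y, aevalAeval_Y]
    exact (hx.aeval hO r).mul hO (hy.pow hO n)

end cg

lemma biv_mem {R W : Type} [CommRing R] [CommRing W] [Algebra R W] (S : Subalgebra ℤ W)
    (A : R[X][X]) {x y : W} (hx : x ∈ S) (hy : y ∈ S)
    (hA : ∀ a ∈ A.support, ∀ b ∈ (A.coeff a).support,
      algebraMap R W ((A.coeff a).coeff b) ∈ S) : aevalAeval x y A ∈ S := by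
  rw [A.as_sum_support, map_sum]
  refine S.sum_mem fun a ha => ?_
  rw [← C_mul_X_pow_eq_monomial, map_mul, map_pow, aevalAeval_C, aevalAeval_Y]
  refine S.mul_mem ?_ (S.pow_mem hy _)
  rw [(A.coeff a).as_sum_support, map_sum]
  refine S.sum_mem fun b hb => ?_
  rw [aeval_monomial]
  exact S.mul_mem (hA a ha b hb) (S.pow_mem hx _)

lemma prim (c : Qbar) (p : ℕ) [hp : Fact p.Prime] :
    ∃ m : ℤ[X], m.map (algebraMap ℤ (ZMod p)) ≠ 0 ∧ aeval c m = 0 := by
  have h1 : IsAlgebraic ℤ c :=
    (IsFractionRing.isAlgebraic_iff ℤ ℚ Qbar).2 (Algebra.IsAlgebraic.isAlgebraic c)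
  obtain ⟨q, hq, hc⟩ := h1
  refine ⟨q.primPart, fun h0 => ?_, aeval_primPart_eq_zero hq hc⟩
  have hd : C (p : ℤ) ∣ q.primPart := by
    rw [C_dvd_iff_dvd_coeff]
    intro i
    have := congrArg (fun r => r.coeff i) h0
    simp only [coeff_map, coeff_zero, algebraMap_int_eq, eq_intCast] at this
    exact (ZMod.intCast_zmod_eq_zero_iff_dvd _ _).1 this
  have hu := q.isPrimitive_primPart _ hd
  rw [Int.isUnit_iff_natAbs_eq, Int.natAbs_natCast] at hu
  exact hp.out.one_lt.ne' hu

theorem krull (p : ℕ) [hp : Fact p.Prime] (j : Qbar →+* Om p) (W : Type) [Field W]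
    [Algebra Qbar W] (O : ValuationSubring W) (N M : ℕ) (B A₂ : Qbar[X][X])
    (z : ℕ → Qbar) (u : ℕ → W) (hO : ∀ c : Qbar, algebraMap Qbar W c ∈ O) (hM : 0 < M)
    (hper : ∀ i, u (i + M) = u i)
    (hu : ∀ i, O.valuation (u i - algebraMap Qbar W (z i)) < 1) (hz : ∀ i, ‖j (z i)‖ ≤ 1)
    (hA : ∀ a b, ‖j ((A₂.coeff a).coeff b)‖ ≤ 1) (hB' : ∀ a b, ‖j ((B.coeff a).coeff b)‖ ≤ 1)
    (hB : ∀ i, ‖j (aevalAeval (z i) (z (i + 1)) B)‖ = 1)
    (hE : ∀ i, (u (i + 1) - u i ^ p) ^ N * aevalAeval (u i) (u (i + 1)) B +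
      p * aevalAeval (u i) (u (i + 1)) A₂ = 0) : u 0 = algebraMap Qbar W (z 0) := by
  classical
  have hu' : ∀ i, Cg O (u i) (z i) := hu
  let C0 : Finset Qbar := insert (z 0)
    ((A₂.support.biUnion fun a => (A₂.coeff a).support.image fun b => (A₂.coeff a).coeff b) ∪
      (B.support.biUnion fun a => (B.coeff a).support.image fun b => (B.coeff a).coeff b))
  have hC0 : ∀ c ∈ C0, ‖j c‖ ≤ 1 := by
    intro c hc
    simp only [C0, Finset.mem_insert, Finset.mem_union, Finset.mem_biUnion,
      Finset.mem_image] at hc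
    rcases hc with rfl | ⟨a, -, b, -, rfl⟩ | ⟨a, -, b, -, rfl⟩
    · exact hz 0
    · exact hA a b
    · exact hB' a b
  let G : Finset W := C0.image (algebraMap Qbar W) ∪ (Finset.range M).image u
  let S : Subalgebra ℤ W := Algebra.adjoin ℤ (G : Set W)
  have : IsNoetherianRing S := isNoetherianRing_of_fg ⟨G, rfl⟩
  have hmod : ∀ i, u i = u (i % M) := by
    intro i
    have : ∀ k r, u (r + M * k) = u r := by
      intro k r
      induction k with
      | zero => simp
      | succ k ih => rw [Nat.mul_succ, ← Nat.add_assoc, hper, ih]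
    conv_lhs => rw [← Nat.mod_add_div i M]
    exact this _ _
  have huS : ∀ i, u i ∈ S := by
    intro i
    rw [hmod]
    refine Algebra.subset_adjoin ?_
    simp only [G, Finset.coe_union, Finset.coe_image, Set.mem_union]
    exact Or.inr ⟨_, by simpa using Nat.mod_lt i hM, rfl⟩
  have hcS : ∀ c ∈ C0, algebraMap Qbar W c ∈ S := by
    intro c hc
    refine Algebra.subset_adjoin ?_
    simp only [G, Finset.coe_union, Finset.coe_image, Set.mem_union]
    exact Or.inl ⟨c, hc, rfl⟩
  have hint : ∀ n : ℤ, ‖j (n : Qbar)‖ ≤ 1 := fun n => by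
    rw [map_intCast]; exact IsUltrametricDist.norm_intCast_le_one _ n
  have hS : ∀ s ∈ S, ∃ c, ‖j c‖ ≤ 1 ∧ Cg O s c := by
    intro s hs
    induction hs using Algebra.adjoin_induction with
    | mem x hx =>
      simp only [G, Finset.coe_union, Finset.coe_image, Set.mem_union] at hx
      rcases hx with ⟨c, hc, rfl⟩ | ⟨i, -, rfl⟩
      · exact ⟨c, hC0 c hc, Cg.const c⟩
      · exact ⟨z i, hz i, hu' i⟩
    | algebraMap r => exact ⟨r, hint r, by simpa using Cg.const (O := O) (r : Qbar)⟩
    | add x y _ _ hx hy =>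
      obtain ⟨c, hc, hx⟩ := hx
      obtain ⟨d, hd, hy⟩ := hy
      refine ⟨c + d, ?_, hx.add hy⟩
      rw [map_add]
      exact (IsUltrametricDist.norm_add_le_max _ _).trans (max_le hc hd)
    | mul x y _ _ hx hy =>
      obtain ⟨c, hc, hx⟩ := hx
      obtain ⟨d, hd, hy⟩ := hy
      refine ⟨c * d, ?_, hx.mul hO hy⟩
      rw [map_mul, norm_mul]
      exact mul_le_one₀ hc (norm_nonneg _) hd
  let P : Ideal S :=
    { carrier := {s | Cg O (s : W) 0}
      add_mem' := fun {a b} ha hb => by simpa using Cg.add ha hb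
      zero_mem' := by simpa using Cg.const (O := O) 0
      smul_mem' := fun a b hb => by
        obtain ⟨c, -, ha⟩ := hS a a.2
        simpa using Cg.mul hO ha hb }
  let Q : Ideal S :=
    { carrier := {s | ∃ c, ‖j c‖ < 1 ∧ Cg O (s : W) c}
      add_mem' := fun {a b} ha hb => by
        obtain ⟨c, hc, ha⟩ := ha
        obtain ⟨d, hd, hb⟩ := hb
        refine ⟨c + d, ?_, Cg.add ha hb⟩
        rw [map_add]
        exact (IsUltrametricDist.norm_add_le_max _ _).trans_lt (max_lt hc hd)
      zero_mem' := ⟨0, by simp, by simpa using Cg.const (O := O) 0⟩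
      smul_mem' := fun a b hb => by
        obtain ⟨c, hc, ha⟩ := hS a a.2
        obtain ⟨d, hd, hb⟩ := hb
        refine ⟨c * d, ?_, Cg.mul hO ha hb⟩
        rw [map_mul, norm_mul]
        exact mul_lt_one_of_nonneg_of_lt_one_right hc (norm_nonneg _) hd }
  have hPm : ∀ s : S, s ∈ P ↔ Cg O (s : W) 0 := fun _ => Iff.rfl
  have hQm : ∀ s : S, s ∈ Q ↔ ∃ c, ‖j c‖ < 1 ∧ Cg O (s : W) c := fun _ => Iff.rfl
  have hone : Cg O ((1 : S) : W) 1 := by simpa using Cg.const (O := O) 1
  have hPp : P.IsPrime := by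
    refine ⟨fun h => ?_, fun {a b} h => ?_⟩
    · have h1 : (1 : S) ∈ P := h ▸ Submodule.mem_top
      exact one_ne_zero (hone.uniq hO ((hPm _).1 h1))
    · obtain ⟨c, -, ha⟩ := hS a a.2
      obtain ⟨d, -, hb⟩ := hS b b.2
      have := (ha.mul hO hb).uniq hO ((hPm _).1 h)
      rcases mul_eq_zero.1 this with rfl | rfl
      · exact Or.inl ha
      · exact Or.inr hb
  have hQp : Q.IsPrime := by
    refine ⟨fun h => ?_, fun {a b} h => ?_⟩
    · have h1 : (1 : S) ∈ Q := h ▸ Submodule.mem_top
      obtain ⟨c, hc, h1⟩ := (hQm _).1 h1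
      rw [← hone.uniq hO h1] at hc
      simp at hc
    · obtain ⟨c, hc, ha⟩ := hS a a.2
      obtain ⟨d, hd, hb⟩ := hS b b.2
      obtain ⟨e, he, h⟩ := (hQm _).1 h
      rw [← (ha.mul hO hb).uniq hO h, map_mul, norm_mul] at he
      rcases hc.lt_or_eq with hc | hc
      · exact Or.inl ⟨c, hc, ha⟩
      · rw [hc, one_mul] at he
        exact Or.inr ⟨d, he, hb⟩
  have hpc : Cg O (((p : ℕ) : S) : W) (p : Qbar) := by simpa using Cg.const (O := O) (p : Qbar)
  have hbot : P = ⊥ := by
    refine core P Q (fun s hs => ⟨0, by simp, hs⟩) (p : S) ⟨p, ?_, hpc⟩ (fun h => ?_) ?_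
    · rw [map_natCast, ← map_natCast (algebraMap ℚ_[p] (Om p)), norm_algebraMap']
      exact Padic.norm_p_lt_one
    · exact (Nat.cast_ne_zero.2 hp.out.ne_zero) (hpc.uniq hO ((hPm _).1 h))
    · intro R hR hpR hRQ
      have : CharP (S ⧸ R) p := by
        refine (CharP.charP_iff_prime_eq_zero hp.out).2 ?_
        rw [← map_natCast (Ideal.Quotient.mk R)]
        exact Ideal.Quotient.eq_zero_iff_mem.2 hpR
      let : Algebra (ZMod p) (S ⧸ R) := ZMod.algebra _ p
      let v : ℕ → S := fun i => ⟨u i, huS i⟩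
      have hstep : ∀ i, Ideal.Quotient.mk R (v (i + 1)) = Ideal.Quotient.mk R (v i) ^ p := by
        intro i
        let b : S := ⟨aevalAeval (u i) (u (i + 1)) B, biv_mem S B (huS _) (huS _)
          fun a ha b hb => hcS _ (by
            simp only [C0, Finset.mem_insert, Finset.mem_union, Finset.mem_biUnion,
              Finset.mem_image]
            exact Or.inr (Or.inr ⟨a, ha, b, hb, rfl⟩))⟩
        let w : S := ⟨aevalAeval (u i) (u (i + 1)) A₂, biv_mem S A₂ (huS _) (huS _)
          fun a ha b hb => hcS _ (by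
            simp only [C0, Finset.mem_insert, Finset.mem_union, Finset.mem_biUnion,
              Finset.mem_image]
            exact Or.inr (Or.inl ⟨a, ha, b, hb, rfl⟩))⟩
        have e : (v (i + 1) - v i ^ p) ^ N * b = -(w * p) := by
          apply Subtype.ext
          have := hE i
          push_cast
          simp only [v, b, w]
          linear_combination this
        have h1 : (v (i + 1) - v i ^ p) ^ N * b ∈ R := by
          rw [e]; exact R.neg_mem (R.mul_mem_left _ hpR)
        have h2 : b ∉ R := by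
          intro h
          obtain ⟨c, hc, h⟩ := (hQm _).1 (hRQ h)
          rw [← ((hu' i).biv hO (hu' (i + 1)) B).uniq hO h, hB] at hc
          exact lt_irrefl _ hc
        have h3 := hR.mem_of_pow_mem _ ((hR.mem_or_mem h1).resolve_right h2)
        rw [← map_pow]
        exact Ideal.Quotient.eq.2 h3
      have hit : ∀ i k, Ideal.Quotient.mk R (v (i + k)) = Ideal.Quotient.mk R (v i) ^ p ^ k := by
        intro i k
        induction k with
        | zero => simp
        | succ k ih => rw [← Nat.add_assoc, hstep, ih, ← pow_mul, pow_succ]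
      have hall : ∀ (s : W) (hs : s ∈ S), IsIntegral (ZMod p) (Ideal.Quotient.mk R ⟨s, hs⟩) := by
        intro s hs
        induction hs using Algebra.adjoin_induction with
        | mem x hx =>
          have hx' := hx
          simp only [G, Finset.coe_union, Finset.coe_image, Set.mem_union] at hx'
          rcases hx' with ⟨c, hc, rfl⟩ | ⟨i, -, rfl⟩
          · obtain ⟨m, hm, hc0⟩ := prim c p
            refine IsAlgebraic.isIntegral ⟨_, hm, ?_⟩
            rw [aeval_map_algebraMap]
            have h1 : aeval (⟨algebraMap Qbar W c, hcS c hc⟩ : S) m = 0 := by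
              apply Subtype.ext
              rw [← Subalgebra.aeval_coe]
              have := congrArg (algebraMap Qbar W) hc0
              rw [map_zero, ← aeval_algebraMap_apply] at this
              exact this
            have h2 := congrArg (Ideal.Quotient.mkₐ ℤ R) h1
            rw [← aeval_algHom_apply, map_zero] at h2
            exact h2
          · have h1 := hit i M
            have h2 : v (i + M) = v i := Subtype.ext (hper i)
            rw [h2] at h1
            have hlt : 1 < p ^ M := Nat.one_lt_pow hM.ne' hp.out.one_lt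
            refine ⟨X ^ p ^ M - X, ?_, ?_⟩
            · refine (monic_X_pow _).sub_of_left ?_
              rw [degree_X_pow, degree_X]
              exact_mod_cast hlt
            · rw [eval₂_sub, eval₂_X_pow, eval₂_X]
              exact sub_eq_zero.2 h1.symm
        | algebraMap r =>
          have : Ideal.Quotient.mk R ⟨algebraMap ℤ W r, S.algebraMap_mem r⟩ =
              algebraMap (ZMod p) (S ⧸ R) (r : ZMod p) := by
            rw [map_intCast, ← map_intCast (Ideal.Quotient.mk R)]
            congr 1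
          rw [this]
          exact isIntegral_algebraMap
        | add x y hx' hy' hx hy => exact hx.add hy
        | mul x y hx' hy' hx hy => exact hx.mul hy
      have : Algebra.IsIntegral (ZMod p) (S ⧸ R) := ⟨fun x => by
        obtain ⟨s, rfl⟩ := Ideal.Quotient.mk_surjective x
        exact hall s s.2⟩
      have hF : IsField (S ⧸ R) := isField_of_isIntegral_of_isField' (Field.toIsField (ZMod p))
      exact ((Ideal.Quotient.maximal_of_isField R hF).eq_of_le hQp.ne_top hRQ).ge
  have hz0 : algebraMap Qbar W (z 0) ∈ S := hcS _ (Finset.mem_insert_self _ _)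
  have hd : (⟨u 0 - algebraMap Qbar W (z 0), S.sub_mem (huS 0) hz0⟩ : S) ∈ P := by
    rw [hPm]
    simpa [Cg] using hu 0
  rw [hbot, Ideal.mem_bot] at hd
  exact sub_eq_zero.1 (congrArg Subtype.val hd)

end krull_h

theorem p_KRULL (hKRA : S_KRA) :
    S_KRULL := by
  have _ := hKRA
  rintro p _ j B A₂ N w hB hA hw h1 ⟨Ω, _, _, ι, O, u, M, hM, hO, hper, hu, hE, hne⟩
  let : Algebra Qbar Ω := ι.toAlgebra
  refine hne (krull_h.krull p j Ω O N M B A₂ w u hO hM hper hu hw hA hB (fun i => ?_) fun i => ?_)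
  · rw [ev2_aeval]
    exact h1 i
  · have := hE i
    rw [show ι = algebraMap Qbar Ω from rfl, ← ev2_aeval] at this
    simpa only [map_add, map_mul, map_pow, map_sub, aevalAeval_C, aevalAeval_Y, aeval_X, aeval_C,
      map_natCast] using this

end Pool.Agent.P.MP_8d2e9f_nt.AO
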