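import Pool.Agent.P.MP_8d2e9f_nt.AO.IfaceC

/-! Step LAT2. -/

set_option autoImplicit false

namespace Pool.Agent.P.MP_8d2e9f_nt.AO

open Polynomial NumberField Pool.Agent.P.MP_8d2e9f_nt.G
open scoped IntermediateField Classical

lemma lat2_even {a b W : Qbar[X]} {c x : Qbar} (hc : c ≠ 0) (hx : x ≠ 0) (ha : a ≠ 0)
    (h0 : a.eval x = 0) (hb : b.eval x ≠ 0) (hW : W ≠ 0)
    (hm : rootMultiplicity x W + 1 = rootMultiplicity x a)
    (h : a ^ 3 * (a + b) ^ 2 * b ^ 3 = C c * (X ^ 3 * (X + 1) ^ 2 * W ^ 4)) :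
    2 ∣ rootMultiplicity x a := by
  have hab : (a + b).eval x ≠ 0 := by rwa [eval_add, h0, zero_add]
  have n1 : b ≠ 0 := fun e => hb (by rw [e, eval_zero])
  have n2 : a + b ≠ 0 := fun e => hab (by rw [e, eval_zero])
  have n3 : (X + 1 : Qbar[X]) ≠ 0 := by simpa using X_add_C_ne_zero (1 : Qbar)
  have n4 : (C c : Qbar[X]) ≠ 0 := C_ne_zero.2 hc
  have hp : ∀ (P : Qbar[X]) (n : ℕ), P ≠ 0 →
      rootMultiplicity x (P ^ n) = n * rootMultiplicity x P := fun P n hP => by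
    induction n with
    | zero => simp
    | succ n ih =>
      rw [pow_succ, rootMultiplicity_mul (mul_ne_zero (pow_ne_zero _ hP) hP), ih]
      ring
  have h1 := congrArg (rootMultiplicity x) h
  rw [rootMultiplicity_mul (by simp [ha, n1, n2]), rootMultiplicity_mul (by simp [ha, n2]),
    rootMultiplicity_mul (by simp [n3, hc, hW]), rootMultiplicity_mul (by simp [n3, hW]),
    rootMultiplicity_mul (by simp [n3]), hp _ _ ha, hp _ _ n1, hp _ _ n2, hp _ _ n3, hp _ _ hW,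
    hp _ _ X_ne_zero, rootMultiplicity_C, rootMultiplicity_eq_zero (p := b) hb,
    rootMultiplicity_eq_zero (p := X) (by simpa using hx)] at h1
  omega

theorem p_LAT2 (hPRN : S_PRN) (hRMW : S_RMW) (hKPOW : S_KPOW) :
    S_LAT2 := by
  intro d a b hN hR
  obtain ⟨c, hc, h⟩ := hR
  have hb : b ≠ 0 := (hPRN.1 Qbar d a b hN).2.2.1
  have ha : a ≠ 0 := by
    rintro rfl
    have h1 := hN.1
    have h2 := hN.2.1
    rw [natDegree_zero] at h2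
    omega
  have hco : ∀ x, a.eval x = 0 → b.eval x ≠ 0 := fun x h1 h2 => by
    obtain ⟨u, v, huv⟩ := hN.2.2.2
    have := congrArg (eval x) huv
    simp [h1, h2] at this
  have hpos : ∀ (P : Qbar[X]) x, P ≠ 0 → P.eval x = 0 →
      ((rootMultiplicity x P : ℕ) : Qbar) ≠ 0 := fun P x hP h0 =>
    Nat.cast_ne_zero.2 ((rootMultiplicity_pos hP).2 h0).ne'
  obtain ⟨g₁, hg₁⟩ := hKPOW.1 a 2 ha two_pos fun x hx => by
    by_cases h0 : a.eval x = 0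
    · obtain ⟨h1, h2⟩ := (hRMW Qbar a b).1 x ha h0 (hco x h0) (hpos a x ha h0)
      exact lat2_even hc hx ha h0 (hco x h0) h1 h2 h
    · rw [rootMultiplicity_eq_zero h0]
      exact dvd_zero _
  obtain ⟨g₂, hg₂⟩ := hKPOW.1 b 2 hb two_pos fun x hx => by
    by_cases h0 : b.eval x = 0
    · have h3 : a.eval x ≠ 0 := fun e => hco x e h0
      obtain ⟨h1, h2⟩ := (hRMW Qbar a b).2.1 x hb h0 h3 (hpos b x hb h0)
      exact lat2_even hc hx hb h0 h3 h1 h2 (by rw [← h]; ring)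
    · rw [rootMultiplicity_eq_zero h0]
      exact dvd_zero _
  obtain ⟨hN', hw⟩ := hKPOW.2.1 d 2 a b g₁ g₂ two_pos hN hg₁ hg₂
  have n2 : g₂ ≠ 0 := (hPRN.1 Qbar d g₁ g₂ hN').2.2.1
  have n1 : g₁ ≠ 0 := by
    rintro rfl
    have h1 := hN'.1
    have h2 := hN'.2.1
    rw [natDegree_zero] at h2
    omega
  have h1 := congrArg (fun P => P.comp (X ^ 2)) h
  simp only [mul_comp, pow_comp, add_comp, C_comp, X_comp, one_comp, hg₁, hg₂] at h1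
  simp only [Nat.add_one_sub_one, pow_one] at hw
  have h2 : (g₂ * (g₁ ^ 3 + g₁ * g₂ ^ 2)) ^ 2 = C c * (wr g₁ g₂ ^ 2 * (X ^ 3 + X)) ^ 2 := by
    refine mul_left_cancel₀ (pow_ne_zero 4 (mul_ne_zero n1 n2)) ?_
    calc (g₁ * g₂) ^ 4 * (g₂ * (g₁ ^ 3 + g₁ * g₂ ^ 2)) ^ 2
        = (g₁ ^ 2) ^ 3 * (g₁ ^ 2 + g₂ ^ 2) ^ 2 * (g₂ ^ 2) ^ 3 := by ring
      _ = C c * (X ^ 2 * (X ^ 2 + 1) ^ 2 * ((wr a b).comp (X ^ 2) * X) ^ 4) := by
        rw [h1]; ring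
      _ = _ := by rw [hw]; ring
  obtain ⟨c', hc', h3⟩ := hKPOW.2.2 _ _ c 2 two_pos hc h2
  refine ⟨g₁, g₂, ⟨by norm_num, Or.inr (Or.inl ⟨rfl, rfl⟩)⟩, hN', ⟨c'⁻¹, inv_ne_zero hc', ?_⟩,
    hg₁, hg₂⟩
  have h4 : cub (1 : Qbar) 0 = X ^ 3 + X := by simp [cub]
  have h5 : homg g₁ g₂ (2 + 1) (X ^ 3 + X) = g₁ ^ 3 + g₁ * g₂ ^ 2 := by
    rw [homg_add, homg_X, homg_X_pow g₁ g₂ (le_refl 3)]
    simp
  rw [Ode, h4, h5, Nat.add_one_sub_one, pow_one, mul_assoc, h3, ← mul_assoc, ← C_mul,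
    inv_mul_cancel₀ hc', C_1, one_mul]

end Pool.Agent.P.MP_8d2e9f_nt.AO
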