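import Pool.Agent.P.MP_8d2e9f_nt.AO.IfaceC

/-! Step LAT3. -/

set_option autoImplicit false

namespace Pool.Agent.P.MP_8d2e9f_nt.AO

open Polynomial NumberField Pool.Agent.P.MP_8d2e9f_nt.G
open scoped IntermediateField Classical

lemma lat3_cnt {a b w : Qbar[X]} {c : Qbar} (ha : a ≠ 0) (hb : b ≠ 0) (hab : a + b ≠ 0)
    (hc : c ≠ 0) (h : a ^ 4 * (a + b) ^ 3 * b ^ 5 = C c * (X ^ 4 * (X + 1) ^ 3 * w ^ 6))
    {x : Qbar} (hx : x ≠ 0) :
    3 ∣ 4 * rootMultiplicity x a + 5 * rootMultiplicity x b := by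
  have h0 : a ^ 4 * (a + b) ^ 3 * b ^ 5 ≠ 0 :=
    mul_ne_zero (mul_ne_zero (pow_ne_zero _ ha) (pow_ne_zero _ hab)) (pow_ne_zero _ hb)
  have h1 : X ^ 4 * (X + 1) ^ 3 * w ^ 6 ≠ 0 := fun k => h0 (by rw [h, k, mul_zero])
  have h2 := congrArg (fun p : Qbar[X] => p.roots.count x) h
  rw [roots_C_mul _ hc, roots_mul h0, roots_mul (left_ne_zero_of_mul h0), roots_mul h1,
    roots_mul (left_ne_zero_of_mul h1)] at h2
  simp only [roots_pow, Multiset.count_add, Multiset.count_nsmul, count_roots] at h2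
  have h3 : rootMultiplicity x (X : Qbar[X]) = 0 :=
    rootMultiplicity_eq_zero (by simpa using hx)
  omega

theorem p_LAT3 (hPRN : S_PRN) (hRMW : S_RMW) (hKPOW : S_KPOW) :
    S_LAT3 := by
  intro d a b hN ⟨c, hc, hR⟩
  obtain ⟨hd, hda, hdb, hcop⟩ := id hN
  have ha : a ≠ 0 := by
    rintro rfl
    simp at hda
    omega
  have hb : b ≠ 0 := by
    rintro rfl
    have := natDegree_eq_zero_of_isUnit (isCoprime_zero_right.1 hcop)
    omega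
  have hab : a + b ≠ 0 := by
    intro k
    have h1 : a = -b := eq_neg_of_add_eq_zero_left k
    rw [h1, natDegree_neg] at hda
    omega
  have hex : ∀ x, rootMultiplicity x a = 0 ∨ rootMultiplicity x b = 0 := fun x => by
    by_contra k
    obtain ⟨k1, k2⟩ := not_or.1 k
    have r1 := (rootMultiplicity_pos ha).1 (Nat.pos_of_ne_zero k1)
    have r2 := (rootMultiplicity_pos hb).1 (Nat.pos_of_ne_zero k2)
    obtain ⟨u, v, huv⟩ := hcop
    have := congrArg (eval x) huv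
    simp [r1.eq_zero, r2.eq_zero] at this
  obtain ⟨g₁, e₁⟩ := hKPOW.1 a 3 ha (by norm_num) fun x hx => by
    have := lat3_cnt ha hb hab hc hR hx
    have := hex x
    omega
  obtain ⟨g₂, e₂⟩ := hKPOW.1 b 3 hb (by norm_num) fun x hx => by
    have := lat3_cnt ha hb hab hc hR hx
    have := hex x
    omega
  obtain ⟨hN', hw⟩ := hKPOW.2.1 d 3 a b g₁ g₂ (by norm_num) hN e₁ e₂
  have hg₁ : g₁ ≠ 0 := by
    rintro rfl
    have := hN'.2.1
    simp at this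
    omega
  have hg₂ : g₂ ≠ 0 := by
    rintro rfl
    have := natDegree_eq_zero_of_isUnit (isCoprime_zero_right.1 hN'.2.2.2)
    have := hN'.2.1
    omega
  have h1 := congrArg (fun p : Qbar[X] => p.comp (X ^ 3)) hR
  simp only [mul_comp, pow_comp, add_comp, C_comp, X_comp, one_comp, e₁, e₂] at h1
  have hw' : (wr a b).comp (X ^ 3) * X ^ 2 = g₁ ^ 2 * g₂ ^ 2 * wr g₁ g₂ := hw
  have h2 : ((g₁ ^ 3 + g₂ ^ 3) * g₂) ^ 3 = C c * ((X ^ 3 + 1) * wr g₁ g₂ ^ 2) ^ 3 := by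
    apply mul_left_cancel₀ (mul_ne_zero (pow_ne_zero 12 hg₁) (pow_ne_zero 12 hg₂))
    calc g₁ ^ 12 * g₂ ^ 12 * ((g₁ ^ 3 + g₂ ^ 3) * g₂) ^ 3
        = (g₁ ^ 3) ^ 4 * (g₁ ^ 3 + g₂ ^ 3) ^ 3 * (g₂ ^ 3) ^ 5 := by ring
      _ = C c * (X ^ 3 + 1) ^ 3 * ((wr a b).comp (X ^ 3) * X ^ 2) ^ 6 := by rw [h1]; ring
      _ = _ := by rw [hw']; ring
  obtain ⟨c', hc', h3⟩ := hKPOW.2.2 _ _ c 3 (by norm_num) hc h2
  refine ⟨g₁, g₂, ⟨by norm_num, Or.inr (Or.inr ⟨rfl, rfl⟩)⟩, hN', ⟨c'⁻¹, inv_ne_zero hc', ?_⟩,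
    e₁, e₂⟩
  have h4 : cub (0 : Qbar) 1 = X ^ 3 + 1 := by simp [cub]
  have h5 : C c'⁻¹ * C c' = (1 : Qbar[X]) := by rw [← C_mul, inv_mul_cancel₀ hc', C_1]
  unfold Ode
  rw [h4, homg_add, homg_X_pow _ _ (by norm_num), homg_one]
  norm_num only
  linear_combination (-C c'⁻¹) * h3 - ((X ^ 3 + 1) * wr g₁ g₂ ^ 2) * h5

end Pool.Agent.P.MP_8d2e9f_nt.AO
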