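import Pool.Agent.P.MP_8d2e9f_nt.AO.IfaceC

/-! Step LATP. -/

set_option autoImplicit false

namespace Pool.Agent.P.MP_8d2e9f_nt.AO

open Polynomial NumberField Pool.Agent.P.MP_8d2e9f_nt.G
open scoped IntermediateField Classical

lemma latp_tw {K : IF} {α β : Qbar} (hα : α ∈ K) (hβ : β ∈ K) (σ : GK K) :
    Tw α β (σ : Qbar →+* Qbar) 1 :=
  ⟨one_ne_zero, by rw [one_pow, one_mul]; exact σ.commutes ⟨α, hα⟩,
    by rw [one_pow, one_mul]; exact σ.commutes ⟨β, hβ⟩⟩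

lemma latp_small {S : Set Qbar} (hS : S.Finite) {h : Qbar → ℝ} (h0 : ∀ x ∈ S, 0 < h x) {a b : ℝ}
    (ha : 0 < a) (hb : 0 < b) : ∃ c : ℝ, 0 < c ∧ c ≤ a ∧ c ≤ b ∧ ∀ x ∈ S, c ≤ h x := by
  have h1 : ∀ t : ℝ, 0 < t → ∀ᶠ c in nhdsWithin (0 : ℝ) (Set.Ioi 0), c ≤ t := fun t ht =>
    (eventually_le_nhds ht).filter_mono nhdsWithin_le_nhds
  obtain ⟨c, h2, h3, h4, h5⟩ := (eventually_mem_nhdsWithin.and ((h1 a ha).and ((h1 b hb).and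
    ((Filter.eventually_all_finite hS).2 fun x hx => h1 _ (h0 x hx))))).exists
  exact ⟨c, h2, h3, h4, h5⟩

lemma latp_place (hPLACE : S_PLACE) {K : IF} (hK : Fd K) (N : ℕ) (s₀ : Finset K) {α β : Qbar}
    (hα : α ∈ K) (hβ : β ∈ K) (hΔ : 4 * α ^ 3 + 27 * β ^ 2 ≠ 0) :
    ∃ (p : ℕ) (_ : Fact p.Prime) (φ : K →+* ℚ_[p]) (j : Qbar →+* Om p), N < p ∧ Loc φ j ∧
      (∀ c ∈ s₀, c ≠ 0 → ‖φ c‖ = 1) ∧ ‖j α‖ ≤ 1 ∧ ‖j β‖ ≤ 1 ∧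
        ‖j (4 * α ^ 3 + 27 * β ^ 2)‖ = 1 := by
  have hm : 4 * α ^ 3 + 27 * β ^ 2 ∈ K :=
    add_mem (mul_mem (ofNat_mem K 4) (pow_mem hα 3)) (mul_mem (ofNat_mem K 27) (pow_mem hβ 2))
  obtain ⟨p, hF, φ, j, hp, hl, hφ⟩ := hPLACE K N
    (insert ⟨α, hα⟩ (insert ⟨β, hβ⟩ (insert ⟨_, hm⟩ s₀))) hK
  have hj : ∀ c : K, ‖j c‖ = ‖φ c‖ := fun c => by rw [hl c, norm_algebraMap']
  have hj1 : ∀ c : K, (c ≠ 0 → ‖φ c‖ = 1) → ‖j c‖ ≤ 1 := fun c h1 => by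
    rw [hj]
    rcases eq_or_ne c 0 with rfl | h0
    · rw [map_zero, norm_zero]
      exact zero_le_one
    · exact (h1 h0).le
  have i1 := @Finset.mem_insert_self K _
  have i2 := @Finset.mem_insert_of_mem K _
  exact ⟨p, hF, φ, j, hp, hl, fun c hc => hφ c (i2 (i2 (i2 hc))), hj1 ⟨α, hα⟩ (hφ _ (i1 _ _)),
    hj1 ⟨β, hβ⟩ (hφ _ (i2 (i1 _ _))), (hj ⟨_, hm⟩).trans
      (hφ _ (i2 (i2 (i1 _ _))) fun h0 => hΔ (congrArg Subtype.val h0))⟩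

theorem p_LATP (hPLACE : S_PLACE) (hABG : S_ABG) (hACT : S_ACT) (hGOODR : S_GOODR) (hWLD : S_WLD) (hETW : S_ETW) (hETX : S_ETX) (hEHT : S_EHT) (hENEAR : S_ENEAR) (hEAMP : S_EAMP) (hETORS : S_ETORS) :
    S_LATP := by
  intro K E d e a b h α β H hK hE hn hc hα hβ hu ht hH hh hsm N
  have he : 0 < e := by rcases ht.2 with h | h | h <;> omega
  obtain ⟨s₀, hs₀⟩ := hGOODR.2 K d a b hn
  obtain ⟨p, _, φ, j, hp, hl, hφ, jα, jβ, jΔ⟩ := latp_place hPLACE hK (max N 3) s₀ hα hβ ht.1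
  have h3 : 3 ≤ p := ((le_max_right _ _).trans_lt hp).le
  obtain ⟨a₀, b₀, hg, ea, eb⟩ := hs₀ p φ hφ
  obtain ⟨δ, -, hδ, ε₀, hε₀, hS⟩ := hWLD K d a b h p φ j a₀ b₀ ⟨hK, hn, hc, hl, hg, ea, eb⟩ h3
  obtain ⟨r, hr, hnear⟩ := hENEAR α β e p j δ ht h3 jα jβ jΔ hδ
  obtain ⟨n, ε, hε, hamp⟩ := hEAMP K α β e p j r H hK hα hβ hu ht jα jβ hr hH
  obtain ⟨c, hc0, hc1, hc2, hc3⟩ := latp_small hS (h := h) (fun x hx => hx.1.1) hε₀ hε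
  obtain ⟨z, hzE, hz0, hzc⟩ := hsm c hc0
  have hab : Ab K z := hE.2 z hzE
  obtain ⟨s, hsz, hact⟩ : ∃ s : GK K, s z ≠ z ∧ Acts K j 1 δ s z := by
    by_contra hq
    exact (hc3 z ⟨⟨hz0, hab⟩, hzc.trans_le hc1, hq⟩).not_gt hzc
  obtain ⟨x, rfl⟩ := IsAlgClosed.exists_pow_nat_eq z he
  obtain ⟨hX1, hX2, hX3, -⟩ := hETX α β e ht
  obtain ⟨P, hP⟩ := hX2 x
  have hx : ∀ (σ : GK K) (Q : (ec α β).Point) (y : Qbar), xp Q = some y →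
      xp (twp (σ : Qbar →+* Qbar) 1 Q) = some (σ y) := fun σ Q y hQ => by
    rw [(hETW α β _ 1 (latp_tw hα hβ σ)).2.2.1, hQ]
    simp
  have he1 : (1 : ℝ) ≤ e := by exact_mod_cast he
  have hH0 : 0 < H (some x) := by
    rw [hh] at hz0
    exact (mul_pos_iff_of_pos_left (by positivity)).1 hz0
  obtain ⟨u, hu1, hT⟩ := hamp P s (by
    rw [hP]
    rw [hh] at hzc
    nlinarith) fun σ => hnear _ _ _ _ (hx σ P x hP) (hx σ _ _ (hx s P x hP)) (by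
      obtain ⟨h1, h2⟩ := hACT K p j 1 δ s _ hab hact
      rw [← map_pow, ← map_pow, ← map_pow, hab σ s]
      exact (h1 _ (h2 σ)).2)
  have hT0 : twp (s : Qbar →+* Qbar) 1 P - twp (RingHom.id _) u P ≠ 0 := fun h0 => by
    have h1 := congrArg xp (sub_eq_zero.1 h0)
    rw [hx s P x hP, (hETW α β _ u (hX1 u hu1).1).2.2.1, hP] at h1
    have h2 : s x = u ^ 2 * x := by simpa using h1
    exact hsz (by rw [map_pow, h2, mul_pow, ← pow_mul, hu1, one_mul])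
  obtain ⟨y, hy⟩ := Option.ne_none_iff_exists'.1 fun h0 => hT0 ((hX3 _).2.2.2.1 h0)
  have hpp : p.Prime := Fact.out
  refine ⟨p, n, _, y, hpp, (le_max_left _ _).trans_lt hp, hT, hy,
    hETORS K E α β e P x y u s hE hα hβ hu ht hP hzE (fun hf => hH0.ne' ?_) hu1
      (isOfFinAddOrder_iff_nsmul_eq_zero.2 ⟨p ^ n, pow_pos hpp.pos n, hT⟩) hy⟩
  rw [← hP]
  exact (hEHT α β H ht.1 hH).2.2.2 P hf

end Pool.Agent.P.MP_8d2e9f_nt.AO
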