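import Pool.Agent.P.MP_8d2e9f_nt.AO.IfaceC

/-! Step LATT. -/

set_option autoImplicit false

namespace Pool.Agent.P.MP_8d2e9f_nt.AO

open Polynomial NumberField Pool.Agent.P.MP_8d2e9f_nt.G
open scoped IntermediateField Classical

theorem latt_uniq (hETW : S_ETW) (hETX : S_ETX) {α β : Qbar} {e : ℕ} (ht : Typ e α β)
    {p q n m : ℕ} (hp : p.Prime) (hq : q.Prime) {T T' : (ec α β).Point} {y y' : Qbar}
    (h1 : p ^ n • T = 0) (h2 : q ^ m • T' = 0) (e1 : xp T = some y) (e2 : xp T' = some y')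
    (e3 : y' ^ e = y ^ e) : p = q := by
  by_contra hne
  obtain ⟨k1, -, k3, k4⟩ := hETX α β e ht
  obtain ⟨u, hu, rfl⟩ := k4 T T' y y' e1 e2 e3
  have h3 : p ^ n • twp (RingHom.id _) u T = 0 := by
    have := map_nsmul (AddMonoidHom.mk' _ (hETW α β _ u (k1 u hu).1).1) (p ^ n) T
    rw [h1, map_zero] at this
    exact this.symm
  have h4 := Nat.eq_one_of_dvd_coprimes (Nat.coprime_pow_primes n m hp hq hne)
    (addOrderOf_dvd_of_nsmul_eq_zero h3) (addOrderOf_dvd_of_nsmul_eq_zero h2)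
  rw [(k3 _).2.2.2.2 (AddMonoid.addOrderOf_eq_one_iff.1 h4)] at e2
  exact absurd e2 (by simp)

theorem p_LATT (hPRN : S_PRN) (hCANH : S_CANH) (hCANR : S_CANR) (hCOMM : S_COMM) (hLHT : S_LHT) (hETW : S_ETW) (hETX : S_ETX) (hEHT : S_EHT) (hLATP : S_LATP) (hCOMPO : S_COMPO) :
    S_LATT := by
  intro K L d e a b g₁ g₂ α β hK hL hF hN hLat H hH K₁ hK₁
  by_contra hc
  have he : 0 < e := by
    rcases hLat.typ.2 with h | h | h
    · omega
    · omega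
    · omega
  have hroot : {u : Qbar | u ^ (2 * e) = 1}.Finite :=
    (nthRoots (2 * e) (1 : Qbar)).toFinset.finite_toSet.subset fun u hu =>
      Finset.mem_coe.2 (Multiset.mem_toFinset.2 ((mem_nthRoots (by omega)).2 hu))
  have hKK : Fd (K ⊔ K₁) := by
    have : FiniteDimensional ℚ K := hK
    have : FiniteDimensional ℚ K₁ := hK₁
    exact IntermediateField.finiteDimensional_sup _ _
  obtain ⟨K₂, hK₂, hle, hS⟩ := ex_field hKK
    ((((coeff_fin a).union (coeff_fin b)).union hroot).union (Set.toFinite {α, β}))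
  obtain ⟨a', rfl⟩ := ex_poly (K := K₂) (a := a) fun i =>
    hS _ (Or.inl (Or.inl (Or.inl ⟨i, rfl⟩)))
  obtain ⟨b', rfl⟩ := ex_poly (K := K₂) (a := b) fun i =>
    hS _ (Or.inl (Or.inl (Or.inr ⟨i, rfl⟩)))
  have hN' := nrm_of_map hN
  obtain ⟨h0, hcan⟩ := (hCANR K₂ d a' b' hN').2.1 H hH
  have hE : AbE K₂ (L ⊔ K₂) := by
    have := hCOMPO.1 K L K₂ hL
    rwa [sup_eq_right.2 (le_sup_left.trans hle)] at this
  obtain ⟨H₂, hH₂⟩ := (hCANH 4 (dbl α β) (by norm_num)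
    (hPRN.1 Qbar 4 _ _ (hCOMM α β hLat.typ.1).1).1.rm).1
  have hht := hLHT d e _ _ g₁ g₂ α β H H₂ hN hLat hH hH₂
  have hrm := (hPRN.1 Qbar d _ _ hN).1.rm
  have key := hLATP K₂ (L ⊔ K₂) d e a' b' _ α β H₂ hK₂ hE hN' hcan
    (hS _ (Or.inr (Or.inl rfl))) (hS _ (Or.inr (Or.inr rfl)))
    (fun u hu => hS _ (Or.inl (Or.inr hu))) hLat.typ hH₂ hht fun c hc0 => by
      by_contra hn
      refine hc ⟨c, hc0, fun x hx hx0 => le_of_not_gt fun hlt => ?_⟩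
      cases x with
      | none => exact hx0.ne' h0
      | some z =>
        exact hn ⟨z, sup_le_sup_left (le_sup_right.trans hle) L (some_mem_pts.1 hx), hx0, hlt⟩
  have hfin := (hF K₂ d _ hK₂ hN.1 hrm).biUnion (t := fun w => {p : ℕ | p.Prime ∧
      ∃ (n : ℕ) (T : (ec α β).Point) (y : Qbar), p ^ n • T = 0 ∧ xp T = some y ∧
        some (y ^ e) = w}) fun w _ => Set.Subsingleton.finite (by
      rintro p ⟨hp, n, T, y, h1, h2, h3⟩ q ⟨hq, m, T', y', k1, k2, k3⟩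
      exact latt_uniq hETW hETX hLat.typ hp hq h1 k1 h2 k2 (Option.some.inj (k3.trans h3.symm)))
  obtain ⟨N, hB⟩ := hfin.bddAbove
  obtain ⟨p, n, T, y, hp, hlt, h1, h2, h3⟩ := key N
  refine absurd (hB (Set.mem_biUnion (x := some (y ^ e)) ⟨some_mem_pts.2 h3, ?_⟩
    ⟨hp, n, T, y, h1, h2, rfl⟩)) (not_le.2 hlt)
  refine (((hCANH d _ hN.1 hrm).2 H hH).2.1 _).1 ?_
  rw [hht, ← h2, (hEHT α β H₂ hLat.typ.1 hH₂).2.2.2 T
    (isOfFinAddOrder_iff_nsmul_eq_zero.2 ⟨_, pow_pos hp.pos n, h1⟩), mul_zero]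

end Pool.Agent.P.MP_8d2e9f_nt.AO
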