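import Pool.Agent.P.MP_8d2e9f_nt.AO.IfaceC
import Pool.Agent.P.MP_8d2e9f_nt.G.ME

/-! Step LHT. -/

set_option autoImplicit false

namespace Pool.Agent.P.MP_8d2e9f_nt.AO

open Polynomial NumberField Pool.Agent.P.MP_8d2e9f_nt.G
open scoped IntermediateField Classical

lemma lht_some {d : ℕ} {a b : Qbar[X]} (h : Nrm d a b) (x : Qbar) :
    im a b d (some x) = pt (a.eval x, b.eval x) := by
  rw [im, vm]
  show pt (hv a d (x, 1), hv b d (x, 1)) = _
  rw [hv_one h.2.1.le, hv_one h.2.2.1.le]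

lemma lht_pow {e : ℕ} (he : 0 < e) (u v : Qbar) :
    im (X ^ e) 1 e (pt (u, v)) = pt (u ^ e, v ^ e) := by
  rw [im, cnt_vm]
  by_cases hv : v = 0
  · simp [pt, lf, hv, he.ne']
  · simp [pt, lf, hv, div_pow]

theorem p_LHT (hPRN : S_PRN) (hCANH : S_CANH) (hCOMM : S_COMM) :
    S_LHT := by
  intro d e a b g₁ g₂ α β H H' hn hL hH hH' x
  have he : 0 < e := by rcases hL.typ.2 with h | ⟨h, -⟩ | ⟨h, -⟩ <;> omega
  obtain ⟨h4, hc⟩ := hCOMM α β hL.typ.1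
  obtain ⟨c, c0, c1⟩ := hL.ode
  have hg := hPRN.1 Qbar d g₁ g₂ hL.nrm
  have hd : 2 ≤ d := hn.1
  have h1 : CanH d (im g₁ g₂ d) H' :=
    ⟨((hCANH 4 (dbl α β) (by norm_num) (hPRN.1 Qbar 4 _ _ h4).1.rm).2 H' hH').2.2.2 d _ _ H'
      (by omega) hg.1.rm (hc d g₁ g₂ c hL.nrm c0 c1) hH', hH'.2⟩
  have hs : ∀ y : Qbar, im (X ^ e) 1 e (some y) = some (y ^ e) := fun y => by
    simpa [pt] using lht_pow he y 1
  have h0 : im (X ^ e : Qbar[X]) 1 e none = none := by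
    simpa [pt, he.ne'] using lht_pow he 1 0
  have h2 := ((hCANH d _ hd hg.1.rm).2 H' h1).2.2.2 e (im (X ^ e) 1 e) (im a b d) H he
    ((cnt_rm e).mono bot_le) (fun y => ?_) hH (some x)
  · rw [← h2, hs]
  cases y with
  | none => rw [hg.2.1, h0, (hPRN.1 Qbar d a b hn).2.1]
  | some y =>
    have e1 := congrArg (eval y) hL.ea
    have e2 := congrArg (eval y) hL.eb
    simp only [eval_comp, eval_pow, eval_X] at e1 e2
    rw [hs, lht_some hn, lht_some hL.nrm, lht_pow he, e1, e2]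

end Pool.Agent.P.MP_8d2e9f_nt.AO
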