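import Pool.Agent.P.MP_8d2e9f_nt.AO.IfaceC

/-! Step LIFTD. -/

set_option autoImplicit false

namespace Pool.Agent.P.MP_8d2e9f_nt.AO

open Polynomial NumberField Pool.Agent.P.MP_8d2e9f_nt.G
open scoped IntermediateField Classical

section near

variable {Ω : Type} [Field Ω] {ι : Qbar →+* Ω} {O : ValuationSubring Ω}

/-- `u` reduces to `c`. -/
def liftd_Near (ι : Qbar →+* Ω) (O : ValuationSubring Ω) (c : Qbar) (u : Ω) : Prop :=
  O.valuation (u - ι c) < 1

theorem liftd_unit (hO : ∀ c, ι c ∈ O) {c : Qbar} (hc : c ≠ 0) : O.valuation (ι c) = 1 := by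
  have h1 := (O.valuation_le_one_iff _).2 (hO c)
  have h2 := (O.valuation_le_one_iff _).2 (hO c⁻¹)
  have h3 : O.valuation (ι c) * O.valuation (ι c⁻¹) = 1 := by
    rw [← map_mul, ← map_mul, mul_inv_cancel₀ hc, map_one, map_one]
  refine le_antisymm h1 ?_
  calc (1 : O.ValueGroup) = O.valuation (ι c) * O.valuation (ι c⁻¹) := h3.symm
    _ ≤ O.valuation (ι c) * 1 := mul_le_mul_right h2 _
    _ = _ := mul_one _

theorem liftd_refl (c : Qbar) : liftd_Near ι O c (ι c) := by simp [liftd_Near]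

theorem liftd_mem (hO : ∀ c, ι c ∈ O) {c : Qbar} {u : Ω} (h : liftd_Near ι O c u) : u ∈ O := by
  have := O.add_mem _ _ ((O.valuation_le_one_iff _).1 h.le) (hO c)
  rwa [sub_add_cancel] at this

theorem liftd_val (hO : ∀ c, ι c ∈ O) {c : Qbar} {u : Ω} (h : liftd_Near ι O c u) (hc : c ≠ 0) :
    O.valuation u = 1 := by
  have h1 := liftd_unit hO hc
  have h2 := O.valuation.map_add_eq_of_lt_right (x := u - ι c) (y := ι c) (h1.symm ▸ h)
  rwa [sub_add_cancel, h1] at h2

theorem liftd_ne (hO : ∀ c, ι c ∈ O) {c : Qbar} {u : Ω} (h : liftd_Near ι O c u) (hc : c ≠ 0) :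
    u ≠ 0 := fun e => by
  have := liftd_val hO h hc
  rw [e, map_zero] at this
  exact zero_ne_one this

theorem liftd_add {c c' : Qbar} {u u' : Ω} (h : liftd_Near ι O c u) (h' : liftd_Near ι O c' u') :
    liftd_Near ι O (c + c') (u + u') := by
  have := O.valuation.map_add_lt h h'
  rwa [liftd_Near, map_add, add_sub_add_comm]

theorem liftd_small {x y : Ω} (hx : O.valuation x < 1) (hy : y ∈ O) : O.valuation (x * y) < 1 := by
  rw [map_mul]
  exact (mul_le_of_le_one_right' ((O.valuation_le_one_iff _).2 hy)).trans_lt hx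

theorem liftd_mul (hO : ∀ c, ι c ∈ O) {c c' : Qbar} {u u' : Ω} (h : liftd_Near ι O c u)
    (h' : liftd_Near ι O c' u') : liftd_Near ι O (c * c') (u * u') := by
  have := O.valuation.map_add_lt (liftd_small h (liftd_mem hO h')) (liftd_small h' (hO c))
  rwa [liftd_Near, map_mul, show u * u' - ι c * ι c' = (u - ι c) * u' + (u' - ι c') * ι c by ring]

theorem liftd_pow (hO : ∀ c, ι c ∈ O) {c : Qbar} {u : Ω} (h : liftd_Near ι O c u) (n : ℕ) :
    liftd_Near ι O (c ^ n) (u ^ n) := by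
  induction n with
  | zero => simpa using liftd_refl (ι := ι) (O := O) 1
  | succ n ih => rw [pow_succ, pow_succ]; exact liftd_mul hO ih h

theorem liftd_inv (hO : ∀ c, ι c ∈ O) {c : Qbar} {u : Ω} (h : liftd_Near ι O c u) (hc : c ≠ 0) :
    liftd_Near ι O c⁻¹ u⁻¹ := by
  have h1 := liftd_ne hO h hc
  have h2 : ι c ≠ 0 := (map_ne_zero ι).2 hc
  have h3 : u⁻¹ - ι c⁻¹ = (u - ι c) * (-(u⁻¹ * ι c⁻¹)) := by
    rw [map_inv₀]; field_simp; ring
  rw [liftd_Near, h3]
  refine liftd_small h (O.neg_mem _ (O.mul_mem _ _ ?_ (hO _)))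
  rw [← O.valuation_le_one_iff, map_inv₀, liftd_val hO h hc, inv_one]

theorem liftd_eval (hO : ∀ c, ι c ∈ O) {c : Qbar} {u : Ω} (h : liftd_Near ι O c u) (g : Qbar[X]) :
    liftd_Near ι O (g.eval c) (g.eval₂ ι u) := by
  induction g using Polynomial.induction_on' with
  | add p q hp hq => rw [eval_add, eval₂_add]; exact liftd_add hp hq
  | monomial n e =>
    rw [eval_monomial, eval₂_monomial]
    exact liftd_mul hO (liftd_refl e) (liftd_pow hO h n)

theorem liftd_ev2 (hO : ∀ c, ι c ∈ O) {c c' : Qbar} {u u' : Ω} (h : liftd_Near ι O c u)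
    (h' : liftd_Near ι O c' u') (A : Qbar[X][X]) :
    liftd_Near ι O (ev2 (RingHom.id _) c c' A) (ev2 ι u u' A) := by
  induction A using Polynomial.induction_on' with
  | add p q hp hq => rw [ev2_add, ev2_add]; exact liftd_add hp hq
  | monomial n e =>
    rw [ev2, ev2, eval₂_monomial, eval₂_monomial, coe_eval₂RingHom, coe_eval₂RingHom, eval₂_id]
    exact liftd_mul hO (liftd_eval hO h e) (liftd_pow hO h' n)

variable {a b : Qbar[X]}

theorem liftd_rv (hO : ∀ c, ι c ∈ O) {c : Qbar} {u : Ω} (h : liftd_Near ι O c u)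
    (hb : b.eval c ≠ 0) : liftd_Near ι O (rv (RingHom.id _) a b c) (rv ι a b u) := by
  rw [rv, rv, eval₂_id, eval₂_id, div_eq_mul_inv, div_eq_mul_inv]
  exact liftd_mul hO (liftd_eval hO h a) (liftd_inv hO (liftd_eval hO h b) hb)

theorem liftd_iter (hO : ∀ c, ι c ∈ O) {c : Qbar} {u : Ω} (h : liftd_Near ι O c u)
    (hb : ∀ l : ℕ, b.eval ((rv (RingHom.id _) a b)^[l] c) ≠ 0) (l : ℕ) :
    liftd_Near ι O ((rv (RingHom.id _) a b)^[l] c) ((rv ι a b)^[l] u) := by
  induction l with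
  | zero => exact h
  | succ l ih =>
    rw [Function.iterate_succ_apply', Function.iterate_succ_apply']
    exact liftd_rv hO ih (hb l)

theorem liftd_pole (hO : ∀ c, ι c ∈ O) {c : Qbar} {u : Ω} (h : liftd_Near ι O c u)
    (hb : ∀ l : ℕ, b.eval ((rv (RingHom.id _) a b)^[l] c) ≠ 0) (l : ℕ) :
    b.eval₂ ι ((rv ι a b)^[l] u) ≠ 0 :=
  liftd_ne hO (liftd_eval hO (liftd_iter hO h hb l) b) (hb l)

theorem liftd_inv_iter {A : Qbar[X][X]} (hA : InvC a b A) {u u' : Ω}
    (h : ∀ l : ℕ, b.eval₂ ι ((rv ι a b)^[l] u) ≠ 0)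
    (h' : ∀ l : ℕ, b.eval₂ ι ((rv ι a b)^[l] u') ≠ 0) (h0 : ev2 ι u u' A = 0) (l : ℕ) :
    ev2 ι ((rv ι a b)^[l] u) ((rv ι a b)^[l] u') A = 0 := by
  induction l with
  | zero => exact h0
  | succ l ih =>
    rw [Function.iterate_succ_apply', Function.iterate_succ_apply']
    exact hA Ω ι _ _ (h l) (h' l) ih

theorem liftd_top {d : ℕ} (hN : Nrm d a b) (x : Ω) :
    (a.map ι - C x * b.map ι).coeff d = ι (a.coeff d) ∧ a.coeff d ≠ 0 := by
  refine ⟨by simp [coeff_eq_zero_of_natDegree_lt hN.2.2.1], ?_⟩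
  rw [← hN.2.1]
  refine leadingCoeff_ne_zero.2 fun e => ?_
  have h1 := hN.1
  have h2 := hN.2.1
  rw [e, natDegree_zero] at h2
  omega

theorem liftd_fin {d : ℕ} (hN : Nrm d a b) (n : ℕ) (y : Ω) :
    {x | (∀ l : ℕ, b.eval₂ ι ((rv ι a b)^[l] x) ≠ 0) ∧ (rv ι a b)^[n] x = y}.Finite := by
  have one : ∀ y : Ω, {x | b.eval₂ ι x ≠ 0 ∧ rv ι a b x = y}.Finite := fun y => by
    have hne : a.map ι - C y * b.map ι ≠ 0 := fun e => by
      have := (liftd_top (ι := ι) hN y).1
      rw [e, coeff_zero] at this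
      exact (map_ne_zero ι).2 (liftd_top (ι := ι) hN y).2 this.symm
    refine (finite_setOfPred_isRoot hne).subset fun x hx => ?_
    have h1 := hx.2
    rw [rv, div_eq_iff hx.1] at h1
    simp [IsRoot, eval_map, h1]
  induction n with
  | zero => exact (Set.finite_singleton y).subset fun x hx => hx.2
  | succ n ih =>
    refine (ih.biUnion fun z _ => one z).subset fun x hx => ?_
    exact Set.mem_biUnion (x := rv ι a b x) ⟨fun l => hx.1 (l + 1), hx.2⟩ ⟨hx.1 0, rfl⟩

variable [IsAlgClosed Ω]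

theorem liftd_step (hR : S_ROOTV) (hO : ∀ c, ι c ∈ O) {d : ℕ} (hN : Nrm d a b) {c : Qbar} {x : Ω}
    (hb : b.eval c ≠ 0) (h : liftd_Near ι O (rv (RingHom.id _) a b c) x) :
    ∃ y, liftd_Near ι O c y ∧ rv ι a b y = x := by
  obtain ⟨y, h1, h2⟩ := (hR Ω O (a.map ι - C x * b.map ι) (ι c) (fun i => by
    rw [coeff_sub, coeff_C_mul, coeff_map, coeff_map]
    exact O.toSubring.sub_mem (hO _) (O.mul_mem _ _ (liftd_mem hO h) (hO _))) (hO c)).1
    ⟨d, by rw [(liftd_top hN x).1]; exact liftd_unit hO (liftd_top (ι := ι) hN x).2⟩ (by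
      have e : (a.map ι - C x * b.map ι).eval (ι c) =
          (x - ι (rv (RingHom.id _) a b c)) * (-ι (b.eval c)) := by
        have h3 : ι (b.eval c) ≠ 0 := (map_ne_zero ι).2 hb
        rw [rv, eval₂_id, eval₂_id, map_div₀, eval_sub, eval_mul, eval_C, eval_map, eval_map,
          eval₂_at_apply, eval₂_at_apply]
        field_simp
        ring
      rw [e]
      exact liftd_small h (O.neg_mem _ (hO _)))
  refine ⟨y, h2, ?_⟩
  rw [rv, div_eq_iff (liftd_ne hO (liftd_eval hO h2 b) hb)]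
  rw [eval_sub, eval_mul, eval_C, eval_map, eval_map] at h1
  exact sub_eq_zero.1 h1

theorem liftd_steps (hR : S_ROOTV) (hO : ∀ c, ι c ∈ O) {d : ℕ} (hN : Nrm d a b) (n : ℕ) :
    ∀ (c : Qbar) (x : Ω), (∀ l : ℕ, b.eval ((rv (RingHom.id _) a b)^[l] c) ≠ 0) →
      liftd_Near ι O ((rv (RingHom.id _) a b)^[n] c) x →
        ∃ y, liftd_Near ι O c y ∧ (rv ι a b)^[n] y = x := by
  induction n with
  | zero => exact fun c x _ h => ⟨x, h, rfl⟩
  | succ n ih =>
    intro c x hb h
    obtain ⟨y, h1, h2⟩ := ih (rv (RingHom.id _) a b c) x (fun l => hb (l + 1)) h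
    obtain ⟨z, h3, h4⟩ := liftd_step hR hO hN (hb 0) h1
    exact ⟨z, h3, by rw [Function.iterate_succ_apply, h4, h2]⟩

theorem liftd_root (hR : S_ROOTV) (hO : ∀ c, ι c ∈ O) {r : Qbar[X]} {A U V : Qbar[X][X]}
    (hU : U * A + V * derivative A = C r) {c c' : Qbar} (hr : r.eval c ≠ 0)
    (h0 : ev2 (RingHom.id _) c c' A = 0) {y : Ω} (h : liftd_Near ι O c y) :
    (∃ x, liftd_Near ι O c' x ∧ ev2 ι y x A = 0) ∧
      ∀ x x', liftd_Near ι O c' x → liftd_Near ι O c' x' → ev2 ι y x A = 0 → ev2 ι y x' A = 0 →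
        x = x' := by
  have hd : ev2 (RingHom.id _) c c' (derivative A) ≠ 0 := fun e => by
    have := congrArg (ev2 (RingHom.id _) c c') hU
    rw [ev2_add, ev2_mul, ev2_mul, h0, e, ev2_C, eval₂_id, mul_zero, mul_zero, add_zero] at this
    exact hr this.symm
  have hi : ∃ i, (A.coeff i).eval c ≠ 0 := by
    by_contra hcon
    push Not at hcon
    have e : A.map (eval₂RingHom (RingHom.id _) c) = 0 := Polynomial.ext fun i => by
      rw [coeff_map, coe_eval₂RingHom, eval₂_id, hcon, coeff_zero]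
    exact hd (by rw [ev2, ← eval_map, ← derivative_map, e, derivative_zero, eval_zero])
  have key := hR Ω O (A.map (eval₂RingHom ι y)) (ι c') (fun i => by
    rw [coeff_map]; exact liftd_mem hO (liftd_eval hO h _)) (hO c')
  refine ⟨?_, fun x x' h1 h2 h3 h4 => key.2.1 ?_ x x' (by rw [eval_map]; exact h3)
    (by rw [eval_map]; exact h4) h1 h2⟩
  · obtain ⟨i, hi⟩ := hi
    obtain ⟨x, h1, h2⟩ := key.1 ⟨i, by
      rw [coeff_map]; exact liftd_val hO (liftd_eval hO h _) hi⟩ (by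
        have := liftd_ev2 hO h (liftd_refl c') A
        rw [h0, liftd_Near, map_zero, sub_zero] at this
        rw [eval_map]
        exact this)
    exact ⟨x, h2, by rw [eval_map] at h1; exact h1⟩
  · rw [derivative_map, eval_map]
    exact liftd_val hO (liftd_ev2 hO h (liftd_refl c') _) hd

end near

theorem p_LIFTD (hROOTV : S_ROOTV) :
    S_LIFTD := by
  intro d a b r A U V w m n hN hA hU hm hw h0 hb hr hrn hD
  obtain ⟨Ω, _, _, ι, O, u', M, hM, hO, hper, hnear, hcur, hne⟩ := hD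
  obtain ⟨y0, hy0, hy1⟩ := liftd_steps hROOTV hO hN n (w 0) (u' 0) (hb 0) (hnear 0)
  have hex : ∀ i y, liftd_Near ι O (w i) y →
      ∃ x, liftd_Near ι O (w (i + 1)) x ∧ ev2 ι y x A = 0 := fun i y h =>
    (liftd_root hROOTV hO hU (hr i) (h0 i) h).1
  choose! nxt hn1 hn2 using hex
  let u : ℕ → Ω := fun i => Nat.rec y0 nxt i
  have hu : ∀ i, liftd_Near ι O (w i) (u i) := fun i => by
    induction i with
    | zero => exact hy0
    | succ i ih => exact hn1 i _ ih
  have hc : ∀ i, ev2 ι (u i) (u (i + 1)) A = 0 := fun i => hn2 i _ (hu i)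
  have hp : ∀ (i l : ℕ), b.eval₂ ι ((rv ι a b)^[l] (u i)) ≠ 0 := fun i =>
    liftd_pole hO (hu i) (hb i)
  have hup : ∀ i, (rv ι a b)^[n] (u i) = u' i := fun i => by
    induction i with
    | zero => exact hy1
    | succ i ih =>
      have e0 := liftd_inv_iter (ι := RingHom.id _) hA (fun l => by rw [eval₂_id]; exact hb i l)
        (fun l => by rw [eval₂_id]; exact hb (i + 1) l) (h0 i) n
      refine (liftd_root hROOTV hO hU (hrn i) e0 (hnear i)).2 _ _
        (liftd_iter hO (hu (i + 1)) (hb (i + 1)) n) (hnear (i + 1)) ?_ (hcur i)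
      rw [← ih]
      exact liftd_inv_iter hA (hp i) (hp (i + 1)) (hc i) n
  have hw' : ∀ t i, w (i + t * m) = w i := fun t i => by
    induction t with
    | zero => simp
    | succ t ih => rw [Nat.succ_mul, ← add_assoc, hw, ih]
  have hu' : ∀ t, u' (t * M) = u' 0 := fun t => by
    induction t with
    | zero => simp
    | succ t ih => rw [Nat.succ_mul, hper, ih]
  obtain ⟨t, t', htt, he⟩ := Set.Finite.exists_lt_map_eq_of_forall_mem
    (t := {x | (∀ l : ℕ, b.eval₂ ι ((rv ι a b)^[l] x) ≠ 0) ∧ (rv ι a b)^[n] x = u' 0})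
    (f := fun t : ℕ => u (t * m * M)) (fun t => ⟨hp _, (hup _).trans (hu' _)⟩)
    (liftd_fin (ι := ι) hN n (u' 0))
  obtain ⟨s, rfl⟩ := Nat.exists_eq_add_of_lt htt
  have hwT : ∀ i, w (i + t * m * M) = w i := fun i => by
    rw [show t * m * M = t * M * m by ring, hw']
  have hwS : ∀ i, w (i + (s + 1) * m * M) = w i := fun i => by
    rw [show (s + 1) * m * M = (s + 1) * M * m by ring, hw']
  refine ⟨Ω, inferInstance, inferInstance, ι, O, fun i => u (i + t * m * M), (s + 1) * m * M,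
    by positivity, hO, fun i => ?_, fun i => ?_, fun i => ?_, fun e => hne ?_⟩
  · induction i with
    | zero =>
      have e : 0 + (s + 1) * m * M + t * m * M = (t + s + 1) * m * M := by ring
      beta_reduce at he ⊢
      rw [e, zero_add, he]
    | succ i ih =>
      beta_reduce at ih ⊢
      have e1 : i + 1 + (s + 1) * m * M + t * m * M = i + (s + 1) * m * M + t * m * M + 1 := by
        ring
      have e2 : i + 1 + t * m * M = i + t * m * M + 1 := by ring
      refine (liftd_root hROOTV hO hU (hr (i + t * m * M)) (h0 _) (hu _)).2 _ _ ?_ ?_ ?_ ?_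
      · have := hu (i + 1 + (s + 1) * m * M + t * m * M)
        rwa [hwT, hwS, ← hwT (i + 1), e2] at this
      · rw [e2]; exact hu _
      · rw [e1, ← ih]; exact hc _
      · rw [e2]; exact hc _
  · have := hu (i + t * m * M)
    rwa [hwT] at this
  · beta_reduce
    rw [show i + 1 + t * m * M = i + t * m * M + 1 by ring]
    exact hc _
  · have e' : u (t * m * M) = ι (w 0) := by simpa using e
    have h1 := hup (t * m * M)
    rw [hu', e'] at h1
    rw [← h1]
    exact (Function.Semiconj.iterate_right (f := ι) (ga := rv (RingHom.id _) a b)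
      (gb := rv ι a b) (fun x => by rw [hom_rv, RingHom.comp_id]) n (w 0)).symm

end Pool.Agent.P.MP_8d2e9f_nt.AO
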