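import Pool.Agent.P.MP_8d2e9f_nt.AO.IfaceC
import Pool.Agent.P.MP_8d2e9f_nt.AO.TLOCW

/-! Step LOCBR. -/

set_option autoImplicit false

namespace Pool.Agent.P.MP_8d2e9f_nt.AO

open Polynomial NumberField Pool.Agent.P.MP_8d2e9f_nt.G
open scoped IntermediateField Classical

lemma locbr_scale {k : Type} [Field k] {a b : k[X]} {A : k[X][X]} {c : k} (hc : c ≠ 0)
    (h : InvC a b (C (C c) * A)) : InvC a b A := fun Ω _ ι u v h1 h2 h3 => by
  have h4 := h Ω ι u v h1 h2 (by rw [ev2_mul, h3, mul_zero])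
  rw [ev2_mul, ev2_C, eval₂_C] at h4
  exact (mul_eq_zero.1 h4).resolve_left ((map_ne_zero ι).2 hc)

theorem p_LOCBR (hABG : S_ABG) (hACT : S_ACT) (hPRIM : S_PRIM) (hCANR : S_CANR) (hAUXBR : S_AUXBR) (hREDBR : S_REDBR) (hCURVR : S_CURVR) (hCOLLR : S_COLLR) (hINVWR : S_INVWR) :
    S_LOCBR := by
  intro K d a b h p _ φ j a₀ b₀ δ S hder hδ hLots
  obtain ⟨-, hgal, hit⟩ := (hCANR K d a b S.nrm).1 h S.can
  have hd0 : (0 : ℝ) < d := by exact_mod_cast lt_of_lt_of_le two_pos S.nrm.1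
  set P : Set (Qbar × Qbar) := {x | (0 < h x.1 ∧ Ab K x.1) ∧ ∃ s : GK K, x.2 = s x.1 ∧
    s x.1 ≠ x.1 ∧ Acts K j 1 δ s x.1} with hP
  have hFib : Fib P := by
    refine ⟨fun z => (locw_orbit K z).subset fun w hw => hw.2.imp fun s hs => hs.1,
      fun w => (locw_orbit K w).subset fun z hz => ?_⟩
    obtain ⟨s, hs, -⟩ := hz.2
    have : w = s z := hs
    exact ⟨s⁻¹, by rw [this]; simp⟩
  have hGal : ∀ σ : GK K, ∀ x ∈ P, (σ x.1, σ x.2) ∈ P := by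
    rintro σ ⟨z, w⟩ ⟨⟨h0, hz⟩, s, hs, hne, hn⟩
    have h1 := hACT K p j 1 δ s z hz hn
    have h2 : s (σ z) = σ (s z) := hz s σ
    refine ⟨⟨(hgal σ z).symm ▸ h0, ((hABG K).1 z hz).2.1 _ (h1.2 σ)⟩, s, ?_,
      fun e => hne (σ.injective ?_), (h1.1 _ (h1.2 σ)).1⟩
    · exact (congrArg σ hs).trans h2.symm
    · exact h2.symm.trans e
  have hh : ∀ x ∈ P, 0 < h x.1 ∧ h x.2 = h x.1 := by
    rintro ⟨z, w⟩ ⟨⟨h0, -⟩, s, hs, -⟩
    rw [hs]
    exact ⟨h0, hgal s z⟩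
  have hnear : ∀ x ∈ P, Cl 1 δ (j x.1) (j x.2) := by
    rintro ⟨z, w⟩ ⟨⟨-, hz⟩, s, hs, -, hn⟩
    rw [hs]
    exact ((hACT K p j 1 δ s z hz hn).1 z (IntermediateField.mem_adjoin_simple_self K z)).2
  have hinf : Lots (fun x => h x.1) P := fun ε hε => by
    refine Set.Infinite.of_image Prod.fst ((hLots ε hε).mono ?_)
    rintro z ⟨⟨h0, hz, s, hs⟩, hl⟩
    exact ⟨(z, s z), ⟨⟨⟨h0, hz⟩, s, rfl, hs⟩, hl⟩, rfl⟩
  have hfwd : AA (fun x => h x.1) P fun x => (rm a b x.1, rm a b x.2) ∈ P := by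
    obtain ⟨ε, hε, hfin⟩ := hCOLLR K d a b h p φ j a₀ b₀ δ S hder hδ
    refine ⟨ε, hε, (hfin.biUnion fun z _ => (hFib.1 z).image fun w => (z, w)).subset ?_⟩
    rintro ⟨z, w⟩ ⟨hx, hl, hn⟩
    simp only [Set.mem_iUnion]
    refine ⟨z, ?_, w, hx, rfl⟩
    obtain ⟨⟨h0, hz⟩, s, hs, hne, hb⟩ := hx
    refine ⟨⟨h0, hz, s, hne, hb, ?_⟩, hl, not_false⟩
    by_contra e
    have hm : rm a b z ∈ K⟮z⟯ := div_mem
      (IntermediateField.algebra_adjoin_le_adjoin K {z} (aeval_mem_adjoin_singleton K z))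
      (IntermediateField.algebra_adjoin_le_adjoin K {z} (aeval_mem_adjoin_singleton K z))
    have hp : 0 < h (rm a b z) := by
      rw [S.can.1 z (hit z h0 0).1]
      exact mul_pos hd0 h0
    refine hn ⟨⟨hp, ((hABG K).1 z hz).2.1 _ hm⟩, s, ?_, e,
      ((hACT K p j 1 δ s z hz hb).1 _ hm).1⟩
    change rm a b w = s (rm a b z)
    rw [show w = s z from hs, rm_gal]
  obtain ⟨A₁, ε₁, hA₁, hε₁, hA₁'⟩ :=
    hAUXBR K d a b h p φ j a₀ b₀ δ 1 P S hδ hGal hh hnear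
  obtain ⟨A, hA0, hA, hCrv, -, hmin⟩ := hCURVR K d a b h P A₁ S.nrm S.can hh hinf hFib hfwd hA₁
    ⟨ε₁, hε₁, Set.finite_empty.subset fun x hx => hx.2.2 (hA₁' x hx.1 hx.2.1)⟩
  have hinj : Function.Injective (mapRingHom φ) := map_injective φ φ.injective
  obtain ⟨c, A₀, hc0, hAc, hA₀⟩ := hPRIM p (A.map (mapRingHom φ))
    ((Polynomial.map_ne_zero_iff hinj).2 hA0)
  have hred := hREDBR K d a b h p φ j a₀ b₀ δ 1 P A c A₀ S hδ hGal (fun x hx => (hh x hx).1) hFib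
    hinf hnear hA hc0 hAc
  rw [pow_one] at hred
  have hX : A₀.eval X ≠ 0 := fun e => by
    have e1 : (mapRingHom φ) (A.eval X) = 0 := by
      have h1 := eval_map_apply (p := A) (mapRingHom φ) X
      have h2 := eval_map_apply (p := A₀) (mapRingHom (zq p)) X
      simp only [coe_mapRingHom, map_X] at h1 h2
      rw [coe_mapRingHom, ← h1, hAc, eval_mul, h2, e]
      simp
    have e2 : A.eval X = 0 := hinj (by rw [e1, map_zero])
    obtain ⟨B, hB⟩ := dvd_iff_isRoot.2 e2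
    have hB0 : B ≠ 0 := fun h => hA0 (by rw [hB, h, mul_zero])
    obtain ⟨ε, hε, hA'⟩ := hA
    have h3 := hmin B hB0 ⟨ε, hε, hA'.subset fun x hx => ⟨hx.1, hx.2.1, fun h => hx.2.2 ?_⟩⟩
    · rw [hB, natDegree_mul (X_sub_C_ne_zero _) hB0, natDegree_X_sub_C] at h3
      omega
    · have h' : aevalAeval x.1 x.2 ((X - C X : K[X][X]) * B) = 0 := hB ▸ h
      have h'' := map_sub (aevalAeval x.1 x.2 : K[X][X] →ₐ[K] Qbar) X (C X)
      rw [map_mul, h'', aevalAeval_X, aevalAeval_Y, mul_eq_zero] at h'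
      obtain ⟨s, hs, hne, -⟩ := hx.1.2
      exact h'.resolve_left (sub_ne_zero.2 (hs ▸ hne))
  have hC := hCrv.map φ
  rw [hAc, ← S.ea, ← S.eb] at hC
  exact hINVWR p d a₀ b₀ A₀ S.gd hder hA₀ hred hX (locbr_scale hc0 hC)

end Pool.Agent.P.MP_8d2e9f_nt.AO
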