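import Pool.Agent.P.MP_8d2e9f_nt.AO.IfaceC

/-! Step MUB. -/

set_option autoImplicit false

namespace Pool.Agent.P.MP_8d2e9f_nt.AO

open Polynomial NumberField Pool.Agent.P.MP_8d2e9f_nt.G
open scoped IntermediateField Classical

lemma mub_mul {k : Type} [Field k] (P Q : k[X]) (n m : ℕ) (hP : P ≠ 0) (hQ : Q ≠ 0)
    (hn : P.natDegree ≤ n) (hm : Q.natDegree ≤ m) (x : Option k) :
    mu (n + m) (P * Q) x = mu n P x + mu m Q x := by
  cases x with
  | none =>
    simp only [mu]
    rw [natDegree_mul hP hQ]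
    omega
  | some x =>
    simp only [mu]
    exact rootMultiplicity_mul (mul_ne_zero hP hQ)

lemma mub_pow {k : Type} [Field k] (P : k[X]) (n N : ℕ) (hP : P ≠ 0) (hn : P.natDegree ≤ n)
    (x : Option k) : mu (N * n) (P ^ N) x = N * mu n P x := by
  induction N with
  | zero => cases x <;> simp [mu]
  | succ N ih =>
    rw [pow_succ, add_mul, one_mul, mub_mul _ _ _ _ (pow_ne_zero _ hP) hP
      (natDegree_pow_le_of_le N hn) hn, ih]
    ring

lemma mub_C {k : Type} [Field k] (P : k[X]) (n : ℕ) (hP : P ≠ 0) (c : k) (hc : c ≠ 0) :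
    mu n (C c * P) = mu n P := by
  funext x
  cases x with
  | none => simp only [mu]; rw [natDegree_C_mul hc]
  | some x =>
    simp only [mu]
    rw [rootMultiplicity_mul (mul_ne_zero (C_ne_zero.2 hc) hP), rootMultiplicity_C, zero_add]

lemma mub_zero {k : Type} [Field k] (P : k[X]) (n : ℕ) (x : Option k)
    (hx : x ∉ Finset.insertNone P.roots.toFinset) : mu n P x = 0 := by
  cases x with
  | none => simp at hx
  | some x =>
    simp only [mu]
    rw [← count_roots, Multiset.count_eq_zero, ← Multiset.mem_toFinset, ← Finset.some_mem_insertNone]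
    exact hx

lemma mub_sum {k : Type} [Field k] [IsAlgClosed k] (P : k[X]) (n : ℕ) (hn : P.natDegree ≤ n)
    (s : Finset (Option k)) (hs : ∀ x ∉ s, mu n P x = 0) : ∑ x ∈ s, mu n P x = n := by
  have h1 : ∑ x ∈ s, mu n P x = ∑ x ∈ s ∪ Finset.insertNone P.roots.toFinset, mu n P x :=
    Finset.sum_subset Finset.subset_union_left fun x _ hx => hs x hx
  have h2 : ∑ x ∈ Finset.insertNone P.roots.toFinset, mu n P x =
      ∑ x ∈ s ∪ Finset.insertNone P.roots.toFinset, mu n P x :=
    Finset.sum_subset Finset.subset_union_right fun x _ hx => mub_zero P n x hx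
  rw [h1, ← h2, Finset.sum_insertNone]
  simp only [mu]
  simp_rw [← count_roots]
  rw [Multiset.toFinset_sum_count_eq, IsAlgClosed.card_roots_eq_natDegree]
  omega

lemma mub_eq {k : Type} [Field k] [IsAlgClosed k] (P Q : k[X]) (n : ℕ) (hP : P ≠ 0) (hQ : Q ≠ 0)
    (h : ∀ x, mu n P x = mu n Q x) : ∃ c : k, c ≠ 0 ∧ P = C c * Q := by
  have hr : P.roots = Q.roots := by
    ext x
    rw [count_roots, count_roots]
    exact h (some x)
  have e1 := C_leadingCoeff_mul_prod_multiset_X_sub_C (p := P) IsAlgClosed.card_roots_eq_natDegree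
  have e2 := C_leadingCoeff_mul_prod_multiset_X_sub_C (p := Q) IsAlgClosed.card_roots_eq_natDegree
  have l1 : P.leadingCoeff ≠ 0 := leadingCoeff_ne_zero.2 hP
  have l2 : Q.leadingCoeff ≠ 0 := leadingCoeff_ne_zero.2 hQ
  refine ⟨P.leadingCoeff / Q.leadingCoeff, div_ne_zero l1 l2, ?_⟩
  calc P = C P.leadingCoeff * (P.roots.map fun a => X - C a).prod := e1.symm
    _ = C (P.leadingCoeff / Q.leadingCoeff) *
        (C Q.leadingCoeff * (Q.roots.map fun a => X - C a).prod) := by
      rw [hr, ← mul_assoc, ← C_mul, div_mul_cancel₀ _ l2]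
    _ = _ := by rw [e2]

lemma mub_ex {k : Type} [Field k] (s : Finset (Option k)) (m : Option k → ℕ) :
    ∃ P : k[X], P ≠ 0 ∧ P.natDegree ≤ ∑ x ∈ s, m x ∧
      ∀ x, mu (∑ x ∈ s, m x) P x = if x ∈ s then m x else 0 := by
  induction s using Finset.induction_on with
  | empty => exact ⟨1, one_ne_zero, by simp, fun x => by cases x <;> simp [mu]⟩
  | insert a s ha ih =>
    obtain ⟨P, h0, h1, h2⟩ := ih
    have key : ∃ Q : k[X], Q ≠ 0 ∧ Q.natDegree ≤ m a ∧
        ∀ x, mu (m a) Q x = if x = a then m a else 0 := by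
      cases a with
      | none => exact ⟨1, one_ne_zero, by simp, fun x => by cases x <;> simp [mu]⟩
      | some a =>
        refine ⟨(X - C a) ^ m (some a), pow_ne_zero _ (X_sub_C_ne_zero a), by simp, fun x => ?_⟩
        cases x with
        | none => simp [mu]
        | some x =>
          simp only [mu]
          by_cases hx : x = a
          · subst hx
            simp [rootMultiplicity_X_sub_C_pow]
          · rw [if_neg (by simpa using hx)]
            apply rootMultiplicity_eq_zero
            simp [sub_eq_zero, hx]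
    obtain ⟨Q, q0, q1, q2⟩ := key
    rw [Finset.sum_insert ha]
    refine ⟨Q * P, mul_ne_zero q0 h0, natDegree_mul_le_of_le q1 h1, fun x => ?_⟩
    rw [mub_mul _ _ _ _ q0 h0 q1 h1, q2, h2]
    by_cases hx : x = a
    · subst hx
      simp [ha]
    · simp [hx]

theorem p_MUB :
    S_MUB := by
  intro k _ _
  refine ⟨fun P Q n m hP hQ hn hm x => mub_mul P Q n m hP hQ hn hm x, fun P n N hP hn =>
    ⟨mub_pow P n N hP hn, mub_C P n hP, ?_, mub_sum P n hn⟩, mub_eq, fun s m hm => ?_⟩
  · refine (Finset.insertNone P.roots.toFinset).finite_toSet.subset fun x hx => ?_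
    by_contra h
    exact hx (mub_zero P n x h)
  · obtain ⟨P, h0, h1, h2⟩ := mub_ex s m
    refine ⟨P, h0, h1, fun x => ?_⟩
    rw [h2]
    split_ifs with hx
    · rfl
    · exact (hm x hx).symm

end Pool.Agent.P.MP_8d2e9f_nt.AO
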