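import Pool.Agent.P.MP_8d2e9f_nt.AO.IfaceC

/-! Step MULT. -/

set_option autoImplicit false

namespace Pool.Agent.P.MP_8d2e9f_nt.AO

open Polynomial NumberField Pool.Agent.P.MP_8d2e9f_nt.G
open scoped IntermediateField Classical

section

variable {k : Type} [Field k]

theorem mult_mu {P : k[X]} {n : ℕ} (h0 : P ≠ 0) (h : P.natDegree ≤ n) (x : Option k) :
    mu n P x ≠ 0 ↔ hv P n (lf x) = 0 := by
  cases x with
  | none =>
    simp only [mu, lf, hv_inf, one_pow, mul_one]
    refine ⟨fun e => coeff_eq_zero_of_natDegree_lt (by omega), fun e => ?_⟩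
    rcases h.lt_or_eq with h | h
    · omega
    · exact absurd (leadingCoeff_eq_zero.1 (by rw [leadingCoeff, h, e])) h0
  | some x =>
    simp only [mu, lf, hv_one h]
    rw [← Nat.pos_iff_ne_zero, rootMultiplicity_pos h0, IsRoot]

theorem mult_zero [IsAlgClosed k] {P : k[X]} {n : ℕ} (hn : 0 < n) (h : P.natDegree ≤ n) :
    ∃ x, hv P n (lf x) = 0 := by
  rcases h.lt_or_eq with h' | h'
  · exact ⟨none, by simp only [lf, hv_inf, coeff_eq_zero_of_natDegree_lt h', zero_mul]⟩
  · obtain ⟨x, hx⟩ := IsAlgClosed.exists_root P (natDegree_pos_iff_degree_pos.1 (h' ▸ hn)).ne'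
    exact ⟨some x, by simpa only [lf, hv_one h] using hx.eq_zero⟩

variable {d : ℕ} {a b : k[X]}

theorem mult_deg (h : Pr d a b) (y : Option k) :
    (C (lf y).2 * a - C (lf y).1 * b).natDegree ≤ d :=
  (natDegree_sub_le _ _).trans (max_le ((natDegree_C_mul_le _ _).trans h.1)
    ((natDegree_C_mul_le _ _).trans h.2.1))

theorem mult_iff (h : Pr d a b) (x y : Option k) :
    hv (C (lf y).2 * a - C (lf y).1 * b) d (lf x) = 0 ↔ im a b d x = y := by
  rw [hv_sub, hv_C_mul, hv_C_mul, im, sub_eq_zero]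
  conv_rhs => rw [← pt_lf y, pt_eq_iff (h.2.2 _ (lf_ne x)) (lf_ne y)]
  simp only [vm, mul_comm]

theorem mult_ne [IsAlgClosed k] (hd : 0 < d) (h : Pr d a b) (y : Option k) :
    C (lf y).2 * a - C (lf y).1 * b ≠ 0 := fun e => by
  obtain ⟨y', hy⟩ := exists_ne y
  obtain ⟨x, hx⟩ := mult_zero hd (mult_deg h y')
  refine hy (((mult_iff h x y').1 hx).symm.trans ((mult_iff h x y).1 ?_))
  rw [e]
  simp [hv]

theorem mult_lin (y z : Option k) :
    mu 1 (C (lf y).2 * X - C (lf y).1) z = if z = y then 1 else 0 := by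
  cases y with
  | none =>
    have e : (C (lf (none : Option k)).2 * X - C (lf (none : Option k)).1 : k[X]) = C (-1) := by
      simp [lf]
    rw [e]
    cases z with
    | none => simp only [mu, natDegree_C, if_true]
    | some z => simp only [mu, rootMultiplicity_C, reduceCtorEq, if_false]
  | some y =>
    have e : (C (lf (some y)).2 * X - C (lf (some y)).1 : k[X]) = X - C y := by simp [lf]
    rw [e]
    cases z with
    | none => simp only [mu, natDegree_X_sub_C, reduceCtorEq, if_false]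
    | some z => simp only [mu, rootMultiplicity_X_sub_C, Option.some.injEq]

theorem mult_fac {P : k[X]} {n : ℕ} (h0 : P ≠ 0) (h : P.natDegree ≤ n + 1) {y : Option k}
    (hy : hv P (n + 1) (lf y) = 0) :
    ∃ Q : k[X], Q.natDegree ≤ n ∧ P = (C (lf y).2 * X - C (lf y).1) * Q := by
  cases y with
  | none =>
    have := (mult_mu h0 h none).2 hy
    simp only [mu] at this
    exact ⟨-P, by rw [natDegree_neg]; omega, by simp [lf]⟩
  | some y =>
    simp only [lf, hv_one h] at hy
    refine ⟨P /ₘ (X - C y), ?_, ?_⟩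
    · rw [natDegree_divByMonic _ (monic_X_sub_C y), natDegree_X_sub_C]
      omega
    · simpa [lf] using (mul_divByMonic_eq_iff_isRoot.2 hy).symm

end

theorem p_MULT (hMUB : S_MUB) :
    S_MULT := by
  intro k _ _ d a b hd h
  obtain ⟨m1, m2, -, -⟩ := hMUB k
  have key : ∀ x y, mu d (C (lf y).2 * a - C (lf y).1 * b) x ≠ 0 ↔ im a b d x = y := fun x y =>
    (mult_mu (mult_ne hd h y) (mult_deg h y) x).trans (mult_iff h x y)
  refine ⟨fun c => Nat.pos_of_ne_zero ((key c _).2 rfl), fun y => ?_, fun n => ?_⟩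
  · obtain ⟨-, -, f, g⟩ := m2 _ d 0 (mult_ne hd h y) (mult_deg h y)
    have hs : ∀ x, x ∈ f.toFinset ↔ im a b d x = y := fun x => f.mem_toFinset.trans (key x y)
    refine ⟨f.toFinset, hs, Eq.trans (Finset.sum_congr rfl fun x hx => ?_)
      (g f.toFinset fun x hx => not_not.1 fun e => hx (f.mem_toFinset.2 e))⟩
    rw [ld, (hs x).1 hx]
  · induction n with
    | zero =>
      intro P h0 hP
      have z : ∀ x, mu 0 P x = 0 := fun x => by
        cases x with
        | none => exact Nat.zero_sub _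
        | some x =>
          rw [eq_C_of_natDegree_le_zero hP]
          exact rootMultiplicity_C _ _
      have e : homg a b 0 P = P := by
        rw [eq_C_of_natDegree_le_zero hP, homg_C, pow_zero, mul_one]
      rw [e, zero_mul]
      exact ⟨h0, fun x => by rw [z, z, mul_zero]⟩
    | succ n ih =>
      intro P h0 hP
      obtain ⟨y, hy⟩ := mult_zero n.succ_pos hP
      obtain ⟨Q, hQ, rfl⟩ := mult_fac h0 hP hy
      obtain ⟨l0, Q0⟩ := mul_ne_zero_iff.1 h0
      have l1 : (C (lf y).2 * X - C (lf y).1 : k[X]).natDegree ≤ 1 :=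
        (natDegree_sub_le _ _).trans (max_le ((natDegree_C_mul_le _ _).trans natDegree_X_le)
          (by simp))
      obtain ⟨i1, i2⟩ := ih Q Q0 hQ
      have e : homg a b 1 (C (lf y).2 * X - C (lf y).1) = C (lf y).2 * a - C (lf y).1 * b := by
        rw [homg_sub, homg_C_mul, homg_C, show (1 : ℕ) = 0 + 1 from rfl, homg_X, pow_zero, mul_one,
          pow_one]
      rw [add_comm n 1, homg_mul a b l1 hQ, e]
      refine ⟨mul_ne_zero (mult_ne hd h y) i1, fun x => ?_⟩
      rw [add_mul, one_mul, m1 _ _ _ _ (mult_ne hd h y) i1 (mult_deg h y)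
        (homg_deg h.1 h.2.1 n Q), m1 _ _ _ _ l0 Q0 l1 hQ, i2, mul_add, mult_lin]
      congr 1
      split_ifs with hx
      · rw [mul_one, ld, hx]
      · rw [mul_zero]
        exact not_not.1 fun e => hx ((key x y).1 e)

end Pool.Agent.P.MP_8d2e9f_nt.AO
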