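import Pool.Agent.P.MP_8d2e9f_nt.AO.IfaceC

/-! Step MULTW. -/

set_option autoImplicit false

namespace Pool.Agent.P.MP_8d2e9f_nt.AO

open Polynomial NumberField Pool.Agent.P.MP_8d2e9f_nt.G
open scoped IntermediateField Classical

lemma multw_le {k : Type} [Field k] (x : k) (g : k[X]) (h : g ≠ 0) :
    rootMultiplicity x g ≤ g.natDegree := by
  have := natDegree_le_of_dvd (pow_rootMultiplicity_dvd g x) h
  rwa [natDegree_pow, natDegree_X_sub_C, mul_one] at this

theorem p_MULTW (hPRN : S_PRN) (hRMW : S_RMW) :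
    S_MULTW := by
  intro k _ d a b hN ht
  obtain ⟨p1, p2, p3, p4⟩ := hPRN.1 _ d a b hN
  obtain ⟨h2, ha, hb, hc⟩ := hN
  have a0 : a ≠ 0 := fun e => by
    rw [e, natDegree_zero] at ha
    omega
  have rl : ∀ (g : k[X]) (x : k), g ≠ 0 → g.eval x = 0 → g.natDegree ≤ d →
      ((rootMultiplicity x g : ℕ) : k) ≠ 0 := fun g x h0 h1 h3 =>
    ht _ ((rootMultiplicity_pos h0).2 h1)
      ((multw_le x g h0).trans h3)
  obtain ⟨w0, w1, -⟩ := (hRMW k a b).2.2 p3 (by omega) (by
    have := ht (d - b.natDegree) (by omega) (by omega)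
    rw [Nat.cast_sub hb.le, sub_ne_zero] at this
    rwa [ha])
  refine ⟨w0, by omega, fun x => ?_⟩
  rcases x with _ | x
  · simp only [ld, p2, lf, mu, C_0, C_1, zero_mul, one_mul, zero_sub, natDegree_neg]
    omega
  by_cases hx : b.eval x = 0
  · have h3 : a.eval x ≠ 0 := fun e => by
      obtain ⟨u, v, h⟩ := hc
      have := congrArg (eval x) h
      simp [e, hx] at this
    have h4 := ((hRMW k a b).2.1 x p3 hx h3 (rl b x p3 hx hb.le)).2
    simp only [ld, im_some p1.1 p1.2.1, if_pos hx, lf, mu, C_0, C_1, zero_mul, one_mul, zero_sub]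
    rw [h4, ← neg_one_mul b, ← C_1, ← C_neg, rootMultiplicity_mul (by simpa using p3),
      rootMultiplicity_C, zero_add]
  · have h3 : (a - C (a.eval x / b.eval x) * b).natDegree = d := by
      rw [natDegree_sub_eq_left_of_natDegree_lt ((natDegree_C_mul_le _ _).trans_lt (by omega)), ha]
    have h5 : a - C (a.eval x / b.eval x) * b ≠ 0 := fun e => by
      rw [e, natDegree_zero] at h3
      omega
    have h6 : (a - C (a.eval x / b.eval x) * b).eval x = 0 := by simp [hx]
    have h4 := ((hRMW k _ b).1 x h5 h6 hx (rl _ x h5 h6 h3.le)).2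
    have h7 : wr (a - C (a.eval x / b.eval x) * b) b = wr a b := by
      simp only [wr, derivative_sub, derivative_C_mul]
      ring
    simp only [ld, im_some p1.1 p1.2.1, if_neg hx, lf, mu, C_1, one_mul]
    rw [← h4, h7]

end Pool.Agent.P.MP_8d2e9f_nt.AO
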