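import Pool.Agent.P.MP_8d2e9f_nt.AO.IfaceC

/-! Step NORMF. -/

set_option autoImplicit false

namespace Pool.Agent.P.MP_8d2e9f_nt.AO

open Polynomial NumberField Pool.Agent.P.MP_8d2e9f_nt.G
open scoped IntermediateField Classical

theorem p_NORMF (hPRN : S_PRN) (hTRANS : S_TRANS) (hORB2 : S_ORB2) (hCJ : S_CJ) (hCONJ : S_CONJ) (hSHAPE : S_SHAPE) :
    S_NORMF := by
  intro d a b P hN hE
  obtain ⟨c, r, hr, hc, h⟩ := hORB2 d a b P hN hE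
  obtain ⟨a', b', m, hN', hS, m0, mi, mc, hP⟩ :=
    hCONJ d r a b c hN.1 (hPRN.1 _ d a b hN).1 hr hc
  obtain ⟨p1, p2, -⟩ := hPRN.1 _ _ a' b' hN'
  rcases h with h | ⟨h1, h2⟩
  · refine ⟨r, a', b', hr, hN', hS, Or.inl (((hPRN.2 _ _ a' b' hN'.1 p1).2 p2).2 fun x hx => ?_)⟩
    refine mi ((h _ ?_).trans m0.symm)
    rw [← mc, hx, m0]
  obtain ⟨P', hE', hm⟩ := hP P hE
  obtain ⟨s, t, e, P₀, hs, he, hF, hc'⟩ := hSHAPE P' hE'.1 hE'.2.1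
    (fun x => by rw [hm, hm, m0]; exact h1 _) fun x => by rw [hm]; exact h2 _
  obtain ⟨-, q1, a'', b'', q2, q3, q4, q5⟩ := hCJ (d ^ r) a' b' s t 0 1
    (by have := hN'.1; omega) p1 (by simpa using hs)
  have q6 : mob s t 0 1 none = none := by simp [mob, im_none, coeff_one]
  have q7 : im a'' b'' (d ^ r) none = none := q1.1 (by rw [q3, q6, p2])
  refine ⟨r, a'', b'', hr, ((hPRN.2 _ _ a'' b'' hN'.1 q2).2 q7).1, hTRANS.1 _ _ _ hS q4,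
    Or.inr ⟨P₀, hF, ?_⟩⟩
  obtain ⟨k1, k2, u, hu, k3⟩ := q5 P' hE'
  rw [C_0, zero_mul, zero_add, C_1, homg_comp _ hE'.2.1, hc'] at k1 k2 k3
  refine ⟨right_ne_zero_of_mul k1, by rwa [natDegree_C_mul he] at k2, u, hu, ?_⟩
  rw [homg_C_mul] at k3
  exact mul_left_cancel₀ (C_ne_zero.2 he) (by linear_combination k3)

end Pool.Agent.P.MP_8d2e9f_nt.AO
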