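import Pool.Agent.P.MP_8d2e9f_nt.AO.IfaceC

/-! Step NULL. -/

set_option autoImplicit false

namespace Pool.Agent.P.MP_8d2e9f_nt.AO

open Polynomial NumberField Pool.Agent.P.MP_8d2e9f_nt.G
open scoped IntermediateField Classical

theorem p_NULL :
    S_NULL := by
  intro K σ ι _ f hf
  have top : Ideal.span (Set.range f) = ⊤ := by
    by_contra h
    obtain ⟨M, hM, hle⟩ := Ideal.exists_le_maximal _ h
    obtain ⟨x, hx⟩ := MvPolynomial.eq_vanishingIdeal_singleton_of_isMaximal Qbar hM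
    obtain ⟨i, hi⟩ := hf x
    have := hle (Ideal.subset_span ⟨i, rfl⟩)
    rw [hx] at this
    exact hi (this x rfl)
  have one : (1 : MvPolynomial σ K) ∈ Submodule.span (MvPolynomial σ K) (Set.range f) :=
    (Ideal.eq_top_iff_one _).1 top
  obtain ⟨g, hg⟩ := Finsupp.mem_span_range_iff_exists_finsupp.1 one
  refine ⟨g.support.biUnion fun i => (g i).coeffs, fun p _ φ f₀ hs h0 k _ ψ x => ?_⟩
  have lift : ∀ i ∈ g.support, ∃ q : MvPolynomial σ ℤ_[p],
      MvPolynomial.map (zq p) q = MvPolynomial.map φ (g i) := fun i hi => by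
    refine MvPolynomial.mem_range_map_iff_coeffs_subset.2 fun c hc => ?_
    obtain ⟨m, hm, rfl⟩ := MvPolynomial.mem_coeffs_iff.1 (Finset.mem_coe.1 hc)
    rw [MvPolynomial.coeff_map]
    by_cases e : (g i).coeff m = 0
    · exact ⟨0, by rw [e, map_zero, map_zero]⟩
    · exact ⟨⟨φ ((g i).coeff m), (hs _ (Finset.mem_biUnion.2 ⟨i, hi, MvPolynomial.mem_coeffs_iff.2
        ⟨m, MvPolynomial.mem_support_iff.2 e, rfl⟩⟩) e).le⟩, rfl⟩
  choose! q hq using lift
  have key : ∑ i ∈ g.support, q i * f₀ i = 1 := by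
    refine MvPolynomial.map_injective (zq p) (IsFractionRing.injective ℤ_[p] ℚ_[p]) ?_
    have := congrArg (MvPolynomial.map φ) hg
    rw [Finsupp.sum, map_sum, map_one] at this
    rw [map_sum, map_one, ← this]
    exact Finset.sum_congr rfl fun i hi => by rw [map_mul, hq i hi, h0, smul_eq_mul, map_mul]
  by_contra! h
  have := congrArg (MvPolynomial.eval₂Hom ψ x) key
  rw [map_sum, map_one, Finset.sum_eq_zero fun i _ => by
    rw [map_mul, MvPolynomial.coe_eval₂Hom, h i, mul_zero]] at this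
  exact zero_ne_one this

end Pool.Agent.P.MP_8d2e9f_nt.AO
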