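import Pool.Agent.P.MP_8d2e9f_nt.AO.IfaceC

/-! Step ORB1. -/

set_option autoImplicit false

namespace Pool.Agent.P.MP_8d2e9f_nt.AO

open Polynomial NumberField Pool.Agent.P.MP_8d2e9f_nt.G
open scoped IntermediateField Classical

theorem p_ORB1 (hPRN : S_PRN) (hMUB : S_MUB) (hMULT : S_MULT) (hMULTW : S_MULTW) (hWGT1 : S_WGT1) (hWGT2 : S_WGT2) :
    S_ORB1 := by
  intro k _ _ d a b hN hk ⟨P, Q, n, N, hP, hQ, dP, dQ, N0, E⟩
  obtain ⟨m1, m2, m3, m4⟩ := hMUB k
  have d2 := hN.1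
  obtain ⟨t1, t2, t3⟩ := hMULT k d a b (by omega) ((hPRN.1 k d a b hN).1)
  obtain ⟨w0, w1, w2⟩ := hMULTW k d a b hN hk
  have da : a.natDegree ≤ d := hN.2.1.le
  have db : b.natDegree ≤ d := hN.2.2.1.le
  -- orders of a product with a power of the Wronskian
  have key : ∀ (R : k[X]) (r j : ℕ), R ≠ 0 → R.natDegree ≤ r → ∀ x,
      (mu (r + j * (2 * d - 2)) (R * wr a b ^ j) x : ℤ) = mu r R x + j * (ld d a b x - 1) :=
    fun R r j h1 h2 x => by
      rw [m1 R _ r _ h1 (pow_ne_zero _ w0) h2 (natDegree_pow_le_of_le j w1),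
        (m2 _ _ j w0 w1).1, ← w2 x]
      push_cast
      ring
  have dP' : P.natDegree ≤ n + 2 * N := by omega
  obtain ⟨a0, a1⟩ := t3 _ P hP dP'
  obtain ⟨b0, b1⟩ := t3 _ Q hQ dQ
  have E' : homg a b (n + 2 * N) P * Q = P * homg a b n Q * wr a b ^ N := by
    rw [← E, ← mul_one P, homg_mul a b dP (by simp), homg_one, mul_one]
    ring
  let μ : Option k → ℤ := fun x => N - mu (n + 2 * N) P x + mu n Q x
  have hμ : ∀ x, μ x = ld d a b x * μ (im a b d x) := fun x => by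
    have e1 := key _ (n + 2 * N + n * d) N (mul_ne_zero hP b0)
      (natDegree_mul_le_of_le dP' (homg_deg da db n Q)) x
    have e2 : n + 2 * N + n * d + N * (2 * d - 2) = (n + 2 * N) * d + n := by
      obtain ⟨e, rfl⟩ := Nat.exists_eq_add_of_le d2
      rw [show 2 * (2 + e) - 2 = 2 + 2 * e by omega]
      ring
    rw [← E', e2, m1 _ _ _ _ a0 hQ (homg_deg da db _ P) dQ,
      m1 _ _ _ _ hP b0 dP' (homg_deg da db n Q), a1, b1] at e1
    push_cast at e1
    simp only [μ]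
    linear_combination e1
  obtain ⟨-, -, f1, s1⟩ := m2 P _ 0 hP dP'
  obtain ⟨-, -, f2, s2⟩ := m2 Q _ 0 hQ dQ
  obtain ⟨s, hs⟩ : ∃ s : Finset (Option k),
      ∀ x ∉ s, mu (n + 2 * N) P x = 0 ∧ mu n Q x = 0 :=
    ⟨(f1.union f2).toFinset, fun x hx => by simpa using hx⟩
  have h0 : ∀ x ∉ s, μ x = N := fun x hx => by simp [μ, hs x hx]
  have h1 : ∑ x ∈ s, (N - μ x) = 2 * N := by
    have e1 := congrArg (Nat.cast : ℕ → ℤ) (s1 s fun x hx => (hs x hx).1)
    have e2 := congrArg (Nat.cast : ℕ → ℤ) (s2 s fun x hx => (hs x hx).2)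
    push_cast at e1 e2
    rw [Finset.sum_congr rfl fun x _ =>
      show N - μ x = mu (n + 2 * N) P x - mu n Q x by simp only [μ]; ring,
      Finset.sum_sub_distrib, e1, e2]
    ring
  have N1 : (0 : ℤ) < N := by exact_mod_cast N0
  have h2 := fun y => (hWGT1 _ _ _ d μ N s d2 t1 t2 h0 hμ y).imp_left And.left
  have h3 : ∀ x, ∃ m : ℕ, (N : ℤ) * m = 12 * (N - μ x) := fun x => by
    by_cases hx : x ∈ s
    swap
    · exact ⟨0, by simp [h0 x hx]⟩
    obtain ⟨t, ht⟩ := hWGT2 _ s μ N N1 (fun x _ => h2 x) h1 x hx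
    have : μ x ≤ N := by
      rcases h2 x with e | ⟨w, w0, e⟩
      · omega
      · have : (1 : ℤ) ≤ w := by exact_mod_cast w0
        nlinarith
    have : t ≤ 12 := by nlinarith
    exact ⟨(12 - t).toNat, by rw [Int.toNat_of_nonneg (by omega)]; linear_combination ht⟩
  choose m hm using h3
  have h4 : ∑ x ∈ s, m x = 24 := by
    have : (N : ℤ) * ∑ x ∈ s, (m x : ℤ) = N * 24 := by
      rw [Finset.mul_sum, Finset.sum_congr rfl fun x _ => hm x, ← Finset.mul_sum, h1]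
      ring
    exact_mod_cast mul_left_cancel₀ N1.ne' this
  obtain ⟨R, r0, r1, r2⟩ := m4 s m fun x hx => by
    have := hm x
    rw [h0 x hx, sub_self, mul_zero] at this
    exact_mod_cast (mul_eq_zero.1 this).resolve_left N1.ne'
  rw [h4] at r1 r2
  obtain ⟨c0, c1⟩ := t3 _ R r0 r1
  obtain ⟨c, c2, c3⟩ := m3 _ (R * wr a b ^ 12) (24 * d) c0 (mul_ne_zero r0 (pow_ne_zero _ w0))
    fun x => by
      have e1 := key R 24 12 r0 r1 x
      rw [show 24 + 12 * (2 * d - 2) = 24 * d by omega, r2] at e1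
      rw [c1, r2]
      refine Nat.cast_injective (R := ℤ) (mul_left_cancel₀ N1.ne' ?_)
      rw [e1]
      push_cast
      linear_combination (ld d a b x : ℤ) * hm (im a b d x) - hm x + 12 * hμ x
  exact ⟨R, r0, r1, c, c2, by rw [c3, mul_assoc]⟩

end Pool.Agent.P.MP_8d2e9f_nt.AO
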