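import Pool.Agent.P.MP_8d2e9f_nt.AO.IfaceC

/-! Step ORB2. -/

set_option autoImplicit false

namespace Pool.Agent.P.MP_8d2e9f_nt.AO

open Polynomial NumberField Pool.Agent.P.MP_8d2e9f_nt.G
open scoped IntermediateField Classical

lemma orb2_div {m w : ℕ} (h : ((12 : ℤ) - m) * w = 12) :
    m ∈ ({0, 6, 8, 9, 10, 11} : Finset ℕ) := by
  have h1 : m < 12 := by
    by_contra h1
    have h2 : ((12 : ℤ) - m) * w ≤ 0 :=
      mul_nonpos_of_nonpos_of_nonneg (by omega) (Int.natCast_nonneg w)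
    omega
  interval_cases m <;> first | decide | (exfalso; omega)

lemma orb2_per {T : Type} (φ : T → T) (m : T → ℕ) (hf : {x | m x ≠ 0}.Finite) (c₀ : T)
    (h0 : φ c₀ = c₀) (hb : ∀ x, m x ≤ 12) (hm : ∀ x, m x ≤ m (φ x)) :
    ∃ (c : T) (r : ℕ), 0 < r ∧ φ^[r] c = c ∧ ∀ x, m x ≤ m c := by
  obtain ⟨_, ⟨c, rfl⟩, hc⟩ := Set.Finite.exists_maximal
    ((Set.finite_Iic 12).subset (t := Set.range m) fun _ ⟨x, hx⟩ => hx ▸ hb x) ⟨_, c₀, rfl⟩
  have h1 : ∀ x, m x ≤ m c := fun x => (le_total _ _).elim id fun h => hc ⟨x, rfl⟩ h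
  rcases Nat.eq_zero_or_pos (m c) with h2 | h2
  · exact ⟨c₀, 1, one_pos, h0, fun x => (h1 x).trans (h2.le.trans (Nat.zero_le _))⟩
  have h3 : ∀ n, m c ≤ m (φ^[n] c) := fun n => by
    induction n with
    | zero => exact le_rfl
    | succ n ih =>
      rw [Function.iterate_succ_apply']
      exact ih.trans (hm _)
  obtain ⟨i, j, h4, h5⟩ := Set.Finite.exists_lt_map_eq_of_forall_mem (f := fun n => φ^[n] c)
    (fun n => (h2.trans_le (h3 n)).ne') hf
  refine ⟨φ^[i] c, j - i, by omega, ?_, fun x => (h1 x).trans (h3 i)⟩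
  rw [← Function.iterate_add_apply, Nat.sub_add_cancel h4.le]
  exact h5.symm

theorem p_ORB2 (hPRN : S_PRN) (hMUB : S_MUB) (hMULT : S_MULT) (hMULTW : S_MULTW) (hWGT1 : S_WGT1) :
    S_ORB2 := by
  intro d a b P hN ⟨hP, hd, c, hc, he⟩
  obtain ⟨h1, h2, -⟩ := hPRN.1 Qbar d a b hN
  have d2 := hN.1
  obtain ⟨m1, m2, -⟩ := hMUB Qbar
  obtain ⟨t1, t2, t3⟩ := hMULT Qbar d a b (by omega) h1
  obtain ⟨w1, w2, w3⟩ := hMULTW Qbar d a b hN fun i hi _ => Nat.cast_ne_zero.2 hi.ne'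
  have key : ∀ x, (12 : ℤ) - mu 24 P x = ld d a b x * (12 - mu 24 P (im a b d x) : ℤ) := by
    intro x
    have a1 := (t3 24 P hP hd).2 x
    have a2 := m1 (C c * P) (wr a b ^ 12) 24 (12 * (2 * d - 2)) (mul_ne_zero (C_ne_zero.2 hc) hP)
      (pow_ne_zero _ w1) ((natDegree_C_mul_le _ _).trans hd) (natDegree_pow_le_of_le 12 w2) x
    rw [(m2 P 24 1 hP hd).2.1 c hc, (m2 _ _ 12 w1 w2).1 x,
      show 24 + 12 * (2 * d - 2) = 24 * d by omega, ← he, a1] at a2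
    have a3 := w3 x
    zify at a2 a3
    linear_combination a2 + 12 * a3
  have hf := (m2 P 24 1 hP hd).2.2.1
  have hw := hWGT1 ProjLine (im a b d) (ld d a b) d (fun x => 12 - mu 24 P x) 12 hf.toFinset d2 t1
    t2 (fun x hx => by
      have : mu 24 P x = 0 := by simpa using hx
      simp [this]) key
  by_cases hx : ∃ y r, 0 < r ∧ ∀ x, (im a b d)^[r] x = y ↔ x = y
  · obtain ⟨y, r, h3, h4⟩ := hx
    exact ⟨y, r, h3, (h4 y).2 rfl, Or.inl fun x => (h4 x).1⟩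
  have h3 : ∀ y, mu 24 P y ∈ ({0, 6, 8, 9, 10, 11} : Finset ℕ) := fun y => by
    obtain ⟨w, -, h4⟩ := (hw y).resolve_left fun h => hx ⟨y, h.2⟩
    exact orb2_div h4
  have h4 : ∀ y, mu 24 P y ≤ 11 := fun y => by
    have := h3 y
    simp only [Finset.mem_insert, Finset.mem_singleton] at this
    omega
  obtain ⟨c', r, h5, h6, h7⟩ := orb2_per (im a b d) (mu 24 P) hf none h2
    (fun x => (h4 x).trans (by norm_num)) fun x => by
      have a1 := key x
      have a2 : (1 : ℤ) ≤ ld d a b x := by exact_mod_cast t1 x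
      have a3 : (0 : ℤ) ≤ 12 - mu 24 P (im a b d x) := by
        have := h4 (im a b d x)
        omega
      have a4 := mul_le_mul_of_nonneg_right a2 a3
      omega
  exact ⟨c', r, h5, h6, Or.inr ⟨h7, h3⟩⟩

end Pool.Agent.P.MP_8d2e9f_nt.AO
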