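import Pool.Agent.P.MP_8d2e9f_nt.AO.IfaceC

/-! Step PCOMP. -/

set_option autoImplicit false

namespace Pool.Agent.P.MP_8d2e9f_nt.AO

open Polynomial NumberField Pool.Agent.P.MP_8d2e9f_nt.G
open scoped IntermediateField Classical

theorem p_PCOMP (hCHN : S_CHN) :
    S_PCOMP := by
  intro k _ d d' a b a' b' hd h h'
  have hv' : ∀ v, vm (homg a' b' d a) (homg a' b' d b) (d * d') v = vm a b d (vm a' b' d' v) := by
    intro v
    rw [vm, (hCHN.1 k a' b' a d' d h'.1 h'.2.1).1, (hCHN.1 k a' b' b d' d h'.1 h'.2.1).1]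
    rfl
  have hw := hCHN.2 k a b a' b' d hd h.1 h.2.1
  have hdw := (hCHN.1 k a b 0 d 0 h.1 h.2.1).2.2
  refine ⟨⟨homg_deg h'.1 h'.2.1 d a, homg_deg h'.1 h'.2.1 d b, fun v hv0 => ?_⟩, fun x => ?_,
    fun P P' P'' hP ⟨c, c0, hc⟩ ⟨c', c0', hc'⟩ => ⟨c * c', mul_ne_zero c0 c0', ?_⟩,
    fun Q c c' hQ hc hc' => ?_⟩
  · rw [hv']
    exact h.2.2 _ (h'.2.2 v hv0)
  · rw [im, hv', ← im_pt _ _ _ (h'.2.2 _ (lf_ne x))]
    rfl
  · rw [← (hCHN.1 k a b P d 24 h.1 h.2.1).2.1, hc, mul_assoc, homg_C_mul,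
      show 24 * d = 24 + 12 * (2 * d - 2) by omega,
      homg_mul _ _ hP (natDegree_pow_le_of_le 12 hdw), homg_pow _ _ hdw, hc', hw, C_mul]
    ring
  · rw [Ode] at hc hc' ⊢
    have e1 := congrArg (homg a' b' (4 * d)) hc
    have l1 : homg a' b' (4 * d) (wr a b ^ 2 * Q) =
        homg a' b' (2 * d - 2) (wr a b) ^ 2 * (b' * homg a' b' 3 Q) := by
      rw [show 4 * d = 2 * (2 * d - 2) + (1 + 3) by omega,
        homg_mul _ _ (natDegree_pow_le_of_le 2 hdw) (hQ.trans (by omega)), homg_pow _ _ hdw,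
        ← one_mul Q, homg_mul _ _ (by simp) hQ, homg_one, pow_one, one_mul]
    have l2 : homg a' b' (4 * d) (C c * b ^ (2 - 1) * homg a b (2 + 1) Q) =
        C c * (homg a' b' d b * homg (homg a' b' d a) (homg a' b' d b) 3 Q) := by
      rw [mul_assoc, homg_C_mul, show 4 * d = d + 3 * d by omega, show 2 - 1 = 1 from rfl, pow_one,
        homg_mul _ _ h.2.1 (homg_deg h.1 h.2.1 3 Q), (hCHN.1 k a b Q d 3 h.1 h.2.1).2.1]
    rw [l1, l2] at e1
    rw [hw, C_mul, show 2 - 1 = 1 from rfl, show 2 + 1 = 3 from rfl] at *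
    linear_combination homg a' b' (2 * d - 2) (wr a b) ^ 2 * hc' + C c' * e1

end Pool.Agent.P.MP_8d2e9f_nt.AO
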