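import Pool.Agent.P.MP_8d2e9f_nt.AO.IfaceC
import Pool.Agent.P.MP_8d2e9f_nt.AO.TPERM

/-! Step PERMR. -/

set_option autoImplicit false

namespace Pool.Agent.P.MP_8d2e9f_nt.AO

open Polynomial NumberField Pool.Agent.P.MP_8d2e9f_nt.G
open scoped IntermediateField Classical

lemma permr_le {F : Type} [NormedField F] [IsUltrametricDist F] {R : Type} [CommRing R]
    (φ : R →+* F) (hφ : ∀ c, ‖φ c‖ ≤ 1) (g : R[X]) (x : F) (hx : ‖x‖ ≤ 1) :
    ‖g.eval₂ φ x‖ ≤ 1 := by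
  let ψ : R →+* perm_O F := φ.codRestrict (perm_O F) hφ
  have hψ : (perm_O F).subtype.comp ψ = φ := by ext; rfl
  have : (perm_O F).subtype (g.eval₂ ψ ⟨x, hx⟩) = g.eval₂ φ x := by
    rw [hom_eval₂, hψ]; rfl
  rw [← this]
  exact (g.eval₂ ψ ⟨x, hx⟩).2

lemma permr_mul {F : Type} [NormedField F] {x y : F} (hx : ‖x‖ < 1) (hy : ‖y‖ ≤ 1) :
    ‖x * y‖ < 1 := by
  rw [norm_mul]
  exact mul_lt_one_of_nonneg_of_lt_one_left (norm_nonneg _) hx hy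

theorem p_PERMR (hPRN : S_PRN) (hGOODR : S_GOODR) :
    S_PERMR := by
  intro p _ d f g F _ _ _ e σ Γ A₀ hGd hGF hwr hA hAq hinv
  obtain ⟨he, -, hn, hσ, hσe, -⟩ := hGF
  have hg0 : g.map (zr p) ≠ 0 := (hPRN.1 _ d _ _ (hGOODR.1 p d f g hGd).1).2.2.1
  let ε : ℤ_[p][X] →+* F := e.comp (mapRingHom (zq p))
  have hε : ∀ g, ε g = e (g.map (zq p)) := fun g => rfl
  let φ : ℤ_[p] →+* F := ε.comp C
  have hφ : ∀ c, ‖φ c‖ ≤ 1 := fun c => (hn (C c)).1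
  have hφe : (e.comp C).comp (zq p) = φ := by
    ext c
    simp [φ, hε]
  set ξ : F := e X with hξ
  have hξε : ε X = ξ := by simp [hε, hξ]
  have hξ1 : ‖ξ‖ ≤ 1 := by
    rw [← hξε]
    exact (hn _).1
  have hcomp : ∀ u : ℤ_[p][X], u.eval₂ φ ξ = ε u := fun u => by
    rw [← hξε, ← hom_eval₂, eval₂_C_X]
  have hee : eval₂RingHom (e.comp C) ξ = e := RingHom.ext fun u => by
    rw [coe_eval₂RingHom, hξ, ← hom_eval₂, eval₂_C_X]
  let a : F[X] := A₀.map ε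
  have ha : ∀ x, (A₀.map (mapRingHom (zq p))).eval₂ e x = a.eval x := fun x => by
    rw [eval₂_map, eval_map]
  have hf : ∀ (u : ℤ_[p][X]) x, (u.map (zq p)).eval₂ (e.comp C) x = u.eval₂ φ x := fun u x => by
    rw [eval₂_map, hφe]
  have hrv : ∀ x, rv (e.comp C) (f.map (zq p)) (g.map (zq p)) x = f.eval₂ φ x / g.eval₂ φ x :=
    fun x => by rw [rv, hf, hf]
  obtain ⟨n, hn0⟩ : ∃ n, (A₀.coeff n).map (zr p) ≠ 0 := by
    by_contra h
    push Not at h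
    exact hA (Polynomial.ext fun n => by simpa using h n)
  have hn1 : 1 ≤ ‖a.coeff n‖ := by
    rw [coeff_map, hε]
    exact not_lt.1 fun h => hn0 ((hn _).2.1 h)
  have ha0 : a ≠ 0 := by
    intro h
    rw [h] at hn1
    norm_num at hn1
  have hav : ‖a.eval ξ‖ < 1 := by
    have : a.eval ξ = ε (A₀.eval X) := by
      rw [← hξε, eval_map, eval₂_at_apply]
    rw [this, hε]
    exact (hn _).2.2 hAq
  let Z : Finset F := a.roots.toFinset.filter fun x => ‖x - ξ‖ < 1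
  have hZ : ∀ x, x ∈ Z ↔ a.eval x = 0 ∧ ‖x - ξ‖ < 1 := fun x => by
    simp [Z, ha0]
  have hN1 : ∀ x, ‖x - ξ‖ < 1 → ‖x‖ ≤ 1 := fun x hx => by
    have : x = (x - ξ) + ξ := by ring
    rw [this]
    exact perm_add_le hx.le hξ1
  have hbig : ∀ u : ℤ_[p][X], u.map (zr p) ≠ 0 → ∀ x, ‖x - ξ‖ < 1 → 1 ≤ ‖u.eval₂ φ x‖ :=
    fun u hu x hx => by
      by_contra h
      have h1 := perm_lip φ hφ u x ξ (hN1 x hx) hξ1 hx
      have h2 := perm_sub_lt (not_le.1 h) h1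
      rw [sub_sub_cancel, hcomp, hε, (hn _).2] at h2
      exact hu h2
  have hb0 : ∀ x, ‖x - ξ‖ < 1 → g.eval₂ φ x ≠ 0 := fun x hx h => by
    have := hbig g hg0 x hx
    rw [h, norm_zero] at this
    linarith
  have hξξ : ‖ξ - ξ‖ < 1 := by simp
  have hstep : ∀ x ∈ Z, ∃ z ∈ Z, σ z = f.eval₂ φ x / g.eval₂ φ x := fun x hx => by
    obtain ⟨hx0, hx1⟩ := (hZ x).1 hx
    have h2 := hinv F (e.comp C) ξ x (by rw [hf]; exact hb0 ξ hξξ) (by rw [hf]; exact hb0 x hx1)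
      (by rw [ev2, hee, ha, hx0])
    have h3 : eval₂RingHom (e.comp C) (f.eval₂ φ ξ / g.eval₂ φ ξ) = σ.comp e :=
      RingHom.ext fun u => by rw [RingHom.comp_apply, hσe, hcomp, hcomp, coe_eval₂RingHom]; rfl
    rw [ev2, hrv, hrv, h3, eval₂_map] at h2
    have h4 : f.eval₂ φ x / g.eval₂ φ x ∈ (a.map σ).roots := by
      rw [mem_roots (map_ne_zero ha0), IsRoot.def, map_map, eval_map]
      exact h2
    rw [(IsAlgClosed.splits a).roots_map, Multiset.mem_map] at h4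
    obtain ⟨z, hz, hzx⟩ := h4
    refine ⟨z, (hZ z).2 ⟨((mem_roots ha0).1 hz), ?_⟩, hzx⟩
    have h5 : σ ξ = f.eval₂ φ ξ / g.eval₂ φ ξ := by
      rw [hξ, hσe, eval₂_X, ← hξ, hcomp, hcomp]; rfl
    have h6 := perm_lip φ hφ f x ξ (hN1 x hx1) hξ1 hx1
    have h7 := perm_lip φ hφ g x ξ (hN1 x hx1) hξ1 hx1
    rw [← hσ, map_sub, hzx, h5, div_sub_div _ _ (hb0 x hx1) (hb0 ξ hξξ), norm_div, norm_mul]
    have h8 : 1 ≤ ‖g.eval₂ φ x‖ * ‖g.eval₂ φ ξ‖ :=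
      one_le_mul_of_one_le_of_one_le (hbig g hg0 x hx1) (hbig g hg0 ξ hξξ)
    rw [div_lt_one (by linarith)]
    refine lt_of_lt_of_le ?_ h8
    have : f.eval₂ φ x * g.eval₂ φ ξ - g.eval₂ φ x * f.eval₂ φ ξ =
        (f.eval₂ φ x - f.eval₂ φ ξ) * g.eval₂ φ ξ -
          (g.eval₂ φ x - g.eval₂ φ ξ) * f.eval₂ φ ξ := by ring
    rw [this]
    exact perm_sub_lt (permr_mul h6 (permr_le φ hφ g ξ hξ1)) (permr_mul h7 (permr_le φ hφ f ξ hξ1))
  choose! π hπZ hπ using hstep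
  have hinj : Set.InjOn π Z := by
    intro x hx y hy hxy
    have hx' := ((hZ x).1 hx).2
    have hy' := ((hZ y).1 hy).2
    have h1 : f.eval₂ φ x / g.eval₂ φ x = f.eval₂ φ y / g.eval₂ φ y := by
      rw [← hπ x hx, ← hπ y hy, hxy]
    rw [div_eq_div_iff (hb0 x hx') (hb0 y hy')] at h1
    obtain ⟨k, hk, -, h2⟩ := perm_taylor φ hφ f x y (hN1 x hx') (hN1 y hy')
    obtain ⟨l, hl, -, h3⟩ := perm_taylor φ hφ g x y (hN1 x hx') (hN1 y hy')
    by_contra ne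
    have h4 : ‖x - y‖ < 1 := by
      have : x - y = (x - ξ) - (y - ξ) := by ring
      rw [this]
      exact perm_sub_lt hx' hy'
    have h5 : (wr f g).eval₂ φ y = (x - y) * (l * f.eval₂ φ y - k * g.eval₂ φ y) := by
      refine mul_left_cancel₀ (sub_ne_zero.2 ne) ?_
      rw [wr, eval₂_sub, eval₂_mul, eval₂_mul]
      linear_combination h1 - g.eval₂ φ y * h2 + f.eval₂ φ y * h3
    have h6 := hbig (wr f g) (by rwa [wr_map]) y hy'
    have h7 : ‖l * f.eval₂ φ y - k * g.eval₂ φ y‖ ≤ 1 := by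
      refine perm_sub_le ?_ ?_ <;> rw [norm_mul]
      · exact mul_le_one₀ hl (norm_nonneg _) (permr_le φ hφ f y (hN1 y hy'))
      · exact mul_le_one₀ hk (norm_nonneg _) (permr_le φ hφ g y (hN1 y hy'))
    have h8 := permr_mul h4 h7
    rw [← h5] at h8
    linarith
  obtain ⟨r₀, hr₀, hr₁⟩ := perm_root a ξ hξ1 n hn1 hav
  refine ⟨Z, π, ⟨r₀, (hZ r₀).2 ⟨(mem_roots ha0).1 hr₀, hr₁⟩⟩, fun x => ?_, ?_, fun x hx => ?_⟩
  · rw [ha, hZ]
  · exact (Z.finite_toSet.injOn_iff_bijOn_of_mapsTo fun x hx => hπZ x hx).1 hinj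
  · rw [hrv, hπ x hx]

end Pool.Agent.P.MP_8d2e9f_nt.AO
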