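import Pool.Agent.P.MP_8d2e9f_nt.AO.IfaceC

/-! Step PRN. -/

set_option autoImplicit false

namespace Pool.Agent.P.MP_8d2e9f_nt.AO

open Polynomial NumberField Pool.Agent.P.MP_8d2e9f_nt.G
open scoped IntermediateField Classical

lemma prn_iff {k : Type} [Field k] {d : ℕ} {a b : k[X]} (ha : a.natDegree ≤ d)
    (hb : b.natDegree ≤ d) : Pr d a b ↔ (b.coeff d = 0 → a.coeff d ≠ 0) ∧
      ∀ x, b.eval x = 0 → a.eval x ≠ 0 := by
  constructor
  · intro h
    exact ⟨fun h1 h2 => h.2.2 _ (lf_ne none) (by simp [vm, lf, hv_inf, h1, h2]),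
      fun x h1 h2 => h.2.2 _ (lf_ne (some x)) (by simp [vm, lf, hv_one ha, hv_one hb, h1, h2])⟩
  · refine fun h => ⟨ha, hb, fun v hv => ?_⟩
    obtain ⟨c, hc, e⟩ := exists_smul hv
    rw [e, vm_smul]
    refine smul_ne_zero (pow_ne_zero _ hc) fun h0 => ?_
    cases hx : pt v with
    | none =>
      simp only [hx, vm, lf, hv_inf, one_pow, mul_one, Prod.mk_eq_zero] at h0
      exact h.1 h0.2 h0.1
    | some x =>
      simp only [hx, vm, lf, hv_one ha, hv_one hb, Prod.mk_eq_zero] at h0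
      exact h.2 x h0.2 h0.1

theorem p_PRN :
    S_PRN := by
  refine ⟨fun k _ d a b ⟨hd, ha, hb, hc⟩ => ?_, fun k _ _ d a b hd h => ?_⟩
  · have h0 : a ≠ 0 := fun e => by
      rw [e, natDegree_zero] at ha
      omega
    have h1 : a.coeff d ≠ 0 := ha ▸ leadingCoeff_ne_zero.2 h0
    refine ⟨(prn_iff ha.le hb.le).2 ⟨fun _ => h1, fun x h2 h3 => ?_⟩, ?_, fun e => ?_,
      fun h2 h3 => ?_⟩
    · obtain ⟨u, v, e⟩ := hc
      have := congrArg (eval x) e
      simp [h2, h3] at this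
    · rw [im_none, if_pos (coeff_eq_zero_of_natDegree_lt hb)]
    · rw [e, isCoprime_zero_right] at hc
      have := natDegree_eq_zero_of_isUnit hc
      omega
    · rw [wr_eq, hc.symm.wronskian_eq_zero_iff] at h3
      obtain ⟨e, rfl⟩ : ∃ e, d = e + 1 := ⟨d - 1, by omega⟩
      have := congrArg (coeff · e) h3.2
      simp only [coeff_derivative, coeff_zero] at this
      exact mul_ne_zero h1 (by exact_mod_cast h2) this
  obtain ⟨h1, h2⟩ := (prn_iff h.1 h.2.1).1 h
  refine ⟨?_, fun h3 => ?_⟩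
  · by_cases h3 : b.coeff d = 0
    · exact ⟨none, by rw [im_none, if_pos h3]⟩
    have h4 : (X * b - a).coeff (d + 1) ≠ 0 := by
      rwa [coeff_sub, coeff_X_mul, coeff_eq_zero_of_natDegree_lt (Nat.lt_succ_of_le h.1), sub_zero]
    obtain ⟨x, hx⟩ := IsAlgClosed.exists_root (X * b - a)
      (natDegree_pos_iff_degree_pos.1 (d.succ_pos.trans_le (le_natDegree_of_ne_zero h4))).ne'
    rw [IsRoot.def, eval_sub, eval_mul, eval_X, sub_eq_zero] at hx
    have h5 : b.eval x ≠ 0 := fun e => h2 x e (by rw [← hx, e, mul_zero])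
    exact ⟨some x, by rw [im_some h.1 h.2.1, if_neg h5, ← hx, mul_div_cancel_right₀ _ h5]⟩
  · have h4 : b.coeff d = 0 := by
      by_contra e
      rw [im_none, if_neg e] at h3
      cases h3
    refine ⟨⟨hd, h.1.antisymm (le_natDegree_of_ne_zero (h1 h4)), ?_, ?_⟩, fun h5 => ?_⟩
    · refine lt_of_le_of_ne h.2.1 fun e => ?_
      rw [← e, coeff_natDegree, leadingCoeff_eq_zero] at h4
      rw [h4, natDegree_zero] at e
      omega
    · refine (isCoprime_iff_aeval_ne_zero_of_isAlgClosed k k a b).2 fun x => ?_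
      rw [coe_aeval_eq_eval, or_iff_not_imp_right, not_not]
      exact h2 x
    · by_contra e
      obtain ⟨x, hx⟩ := IsAlgClosed.exists_root b
        (natDegree_pos_iff_degree_pos.1 (Nat.pos_of_ne_zero e)).ne'
      have := h5 (some x) (by rw [im_some h.1 h.2.1, if_pos hx.eq_zero])
      cases this

end Pool.Agent.P.MP_8d2e9f_nt.AO
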