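import Pool.Agent.P.MP_8d2e9f_nt.AO.IfaceB

/-! Step REDB. -/

set_option autoImplicit false

namespace Pool.Agent.P.MP_8d2e9f_nt.AO

open Polynomial NumberField Pool.Agent.P.MP_8d2e9f_nt.G
open scoped IntermediateField

theorem redb_one {R F : Type} [CommRing R] [NormedField F] [IsUltrametricDist F] {ι : Type}
    (e : ι → R →+* F) (x : ι → F) (U : ι → ℝ) (hU : ∀ i, 1 ≤ U i) (hx : ∀ i, ‖x i‖ ≤ U i)
    (he : ∀ r, ∃ D : ℕ, ∀ i, ‖e i r‖ ≤ U i ^ D) (B : R[X]) :
    ∃ D : ℕ, ∀ i, ‖eval₂RingHom (e i) (x i) B‖ ≤ U i ^ D := by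
  induction B using Polynomial.induction_on' with
  | add a b ha hb =>
    obtain ⟨D, ha⟩ := ha
    obtain ⟨D', hb⟩ := hb
    refine ⟨D + D', fun i => ?_⟩
    rw [map_add]
    exact (IsUltrametricDist.norm_add_le_max _ _).trans (max_le
      ((ha i).trans (pow_le_pow_right₀ (hU i) (Nat.le_add_right _ _)))
      ((hb i).trans (pow_le_pow_right₀ (hU i) (Nat.le_add_left _ _))))
  | monomial n r =>
    obtain ⟨D, hr⟩ := he r
    refine ⟨D + n, fun i => ?_⟩
    rw [coe_eval₂RingHom, eval₂_monomial, norm_mul, norm_pow, pow_add]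
    exact mul_le_mul (hr i) (pow_le_pow_left₀ (norm_nonneg _) (hx i) n) (by positivity)
      (pow_nonneg (zero_le_one.trans (hU i)) _)

theorem p_REDB (hGAPG : S_GAPG) :
    S_REDB := by
  intro K f h p hp φ j δ q P A c A₀ hK hd hC hj hf hδ hP hF hL hq hA hc hA₀
  by_contra hg
  obtain ⟨B, hB⟩ := X_sub_C_dvd_sub_C_eval (p := A₀) (a := X ^ q)
  have hU : ∀ x : P, (1 : ℝ) ≤ max 1 ‖j x.1.1‖ := fun x => le_max_left _ _
  obtain ⟨D, hD⟩ := redb_one (fun x : P => eval₂RingHom (zo p) (j x.1.1)) (fun x => j x.1.2)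
    (fun x => max 1 ‖j x.1.1‖) hU (fun x => (hq x.1 x.2).2.trans_le (le_max_right _ _))
    (redb_one (fun _ => zo p) (fun x : P => j x.1.1) _ hU (fun x => le_max_right _ _)
      fun r => ⟨0, fun _ => by
        rw [zo_apply, PadicAlgCl.norm_extends, pow_zero]
        exact r.2⟩) B
  obtain ⟨ε, hε, hA⟩ := hA
  obtain ⟨ε', hε', hY⟩ := hGAPG K f h (Prod.fst '' P) p φ j δ _ (q + 1 + D) hK hd hC
    (by rintro σ _ ⟨x, hx, rfl⟩; exact ⟨_, hP σ x hx, rfl⟩) hj hf hδ hg
    ⟨ε, hε, (hA.image Prod.fst).subset (by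
      rintro _ ⟨⟨⟨z, w⟩, hw, rfl⟩, h1, h2⟩
      refine ⟨(z, w), ⟨hw, h1, fun h0 => h2 ?_⟩, rfl⟩
      have h3 : eval₂RingHom (eval₂RingHom (zo p) (j z)) (j w) A₀ = 0 := by
        let E : ℚ_[p][X][X] →+* Om p :=
          eval₂RingHom (eval₂RingHom (algebraMap ℚ_[p] (Om p)) (j z)) (j w)
        have e1 : E.comp (mapRingHom (mapRingHom φ)) = j.comp (aevalAeval z w).toRingHom := by
          ext a
          · simpa [E] using (hj a).symm
          all_goals simp [E]
        have e2 : E.comp (mapRingHom (mapRingHom (zq p))) =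
            eval₂RingHom (eval₂RingHom (zo p) (j z)) (j w) := by
          ext a
          · simp [E, zo_apply]
          all_goals simp [E]
        have e3 := DFunLike.congr_fun e1 A
        have e4 := DFunLike.congr_fun e2 A₀
        simp only [RingHom.comp_apply, coe_mapRingHom] at e3 e4
        have e5 : (aevalAeval z w).toRingHom A = 0 := h0
        rw [hA₀, map_mul, e4, e5, map_zero, mul_eq_zero] at e3
        exact e3.resolve_left (by simpa [E] using hc)
      have h4 := congrArg (eval₂RingHom (eval₂RingHom (zo p) (j z)) (j w)) hB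
      rw [map_sub, h3, map_mul, zero_sub, map_sub] at h4
      have h5 := congrArg norm h4
      simp only [coe_eval₂RingHom, eval₂_C, eval₂_X, eval₂_pow, norm_neg, norm_mul] at h5
      obtain ⟨k1, k2⟩ := hq (z, w) hw
      rw [k2] at k1
      have k3 := hD ⟨(z, w), hw⟩
      simp only [coe_eval₂RingHom] at k3
      dsimp only at k1 ⊢
      rw [h5, pow_add, pow_add, pow_one, ← mul_assoc, ← mul_assoc]
      exact mul_le_mul k1 k3 (norm_nonneg _) ((norm_nonneg _).trans k1))⟩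
  refine hL ε' hε' ((hY.biUnion fun z _ => (hF.1 z).image fun w => (z, w)).subset ?_)
  rintro ⟨z, w⟩ ⟨hx, h1⟩
  exact Set.mem_biUnion (x := z) ⟨⟨_, hx, rfl⟩, h1, id⟩ ⟨w, hx, rfl⟩

end Pool.Agent.P.MP_8d2e9f_nt.AO
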