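import Pool.Agent.P.MP_8d2e9f_nt.AO.IfaceC
import Pool.Agent.P.MP_8d2e9f_nt.G.All

/-! Step RFIN. -/

set_option autoImplicit false

namespace Pool.Agent.P.MP_8d2e9f_nt.AO

open Polynomial NumberField Pool.Agent.P.MP_8d2e9f_nt.G
open scoped IntermediateField Classical

lemma rfin_hv (a b : Qbar) (v : Qbar × Qbar) : hv (C a * X + C b) 1 v = a * v.1 + b * v.2 := by
  simp [hv, Finset.sum_range_succ, coeff_X, coeff_C, add_comm]

lemma rfin_vm (a b c e : Qbar) (v : Qbar × Qbar) :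
    vm (C a * X + C b) (C c * X + C e) 1 v = (a * v.1 + b * v.2, c * v.1 + e * v.2) := by
  rw [vm, rfin_hv, rfin_hv]

lemma rfin_ne {a b c e : Qbar} (h : a * e - b * c ≠ 0) {v : Qbar × Qbar} (hv0 : v ≠ 0) :
    vm (C a * X + C b) (C c * X + C e) 1 v ≠ 0 := fun k => by
  rw [rfin_vm, Prod.ext_iff] at k
  obtain ⟨k1, k2⟩ := k
  simp only [Prod.fst_zero, Prod.snd_zero] at k1 k2
  refine hv0 (Prod.ext (mul_left_cancel₀ h ?_) (mul_left_cancel₀ h ?_))
  · simp only [Prod.fst_zero]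
    linear_combination e * k1 - b * k2
  · simp only [Prod.snd_zero]
    linear_combination a * k2 - c * k1

lemma rfin_rm (E : IF) {a b c e : Qbar} (ha : a ∈ E) (hb : b ∈ E) (hc : c ∈ E) (he : e ∈ E)
    (h : a * e - b * c ≠ 0) : RM E 1 (mob a b c e) := by
  have g : ∀ {s t : Qbar}, s ∈ E → t ∈ E → ∀ i, (C s * X + C t).coeff i ∈ E := fun hs ht i => by
    rw [coeff_add, coeff_C_mul, coeff_X, coeff_C]
    refine add_mem (mul_mem hs ?_) ?_ <;> split_ifs <;> simp [ht]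
  exact ⟨_, _, g ha hb, g hc he, natDegree_linear_le, natDegree_linear_le,
    fun v hv0 => rfin_ne h hv0, rfl⟩

lemma rfin_inv (c : Qbar) (y : ProjLine) : mob c 1 1 0 (mob 0 1 1 (-c) y) = y := by
  have h := rfin_ne (a := 0) (b := 1) (c := 1) (e := -c) (by simp) (lf_ne y)
  have e : mob 0 1 1 (-c) y = pt (vm (C 0 * X + C 1) (C 1 * X + C (-c)) 1 (lf y)) := rfl
  rw [e, mob, im_pt _ _ _ h, rfin_vm, rfin_vm]
  conv_rhs => rw [← pt_lf y]
  congr 1
  ext <;> simp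

lemma rfin_none (c : Qbar) : mob c 1 1 0 none = some c := by
  rw [mob, im, rfin_vm]
  simp [pt, lf]

lemma rfin_pp {φ : ProjLine → ProjLine} {x : ProjLine} (h : x ∈ PP φ) : φ x ∈ PP φ :=
  Set.Finite.subset h fun _ ⟨n, hn⟩ => ⟨n + 1, hn⟩

lemma rfin_per {φ : ProjLine → ProjLine} {x : ProjLine} (h : x ∈ PP φ) :
    ∃ n : ℕ, φ^[n] x ∈ Function.periodicPts φ := by
  obtain ⟨i, j, hij, e⟩ : ∃ i j : ℕ, i < j ∧ φ^[i] x = φ^[j] x := by
    obtain ⟨i, j, hij, e⟩ := Set.Finite.exists_lt_map_eq_of_forall_mem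
      (f := fun n : ℕ => φ^[n] x) (fun n => Set.mem_range_self n) h
    exact ⟨i, j, hij, e⟩
  refine ⟨i, Function.mk_mem_periodicPts (Nat.sub_pos_of_lt hij) ?_⟩
  rw [Function.IsPeriodicPt, Function.IsFixedPt, ← Function.iterate_add_apply,
    Nat.sub_add_cancel hij.le, e]

/-- An infinite invariant set of preperiodic points contains an infinite set mapped onto
itself. -/
lemma rfin_onto (hCHAIN : S_CHAIN) {φ : ProjLine → ProjLine} {S : Set ProjLine} (hS : S.Infinite)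
    (hpp : S ⊆ PP φ) (hinv : ∀ x ∈ S, φ x ∈ S) (hfib : ∀ x, {z | φ z = x}.Finite) :
    ∃ Y : Set ProjLine, Y ⊆ S ∧ Y.Infinite ∧ φ '' Y = Y := by
  obtain ⟨h1, h2⟩ := (hCHAIN ProjLine φ).2 S hinv hfib
  have hit : ∀ n : ℕ, ∀ x ∈ S, φ^[n] x ∈ S := fun n => by
    induction n with
    | zero => exact fun x hx => hx
    | succ n ih => exact fun x hx => ih _ (hinv x hx)
  rcases h2 (hS.mono fun z hz => ⟨hz, rfin_per (hpp hz)⟩) with h | ⟨α, h⟩
  · refine ⟨_, Set.inter_subset_left, h, Set.Subset.antisymm ?_ ?_⟩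
    · rintro _ ⟨x, ⟨hx, n, hn, hp⟩, rfl⟩
      exact ⟨hinv x hx, n, hn, hp.apply⟩
    · rintro x ⟨hx, n, hn, hp⟩
      obtain ⟨k, rfl⟩ : ∃ k, n = k + 1 := ⟨n - 1, by omega⟩
      refine ⟨φ^[k] x, ⟨hit k x hx, k + 1, hn, hp.apply_iterate k⟩, ?_⟩
      rw [← Function.iterate_succ_apply' φ k x]
      exact hp
  · obtain ⟨y, -, hy, hinf⟩ := h1 α h
    refine ⟨Set.range y ∪ Set.range fun n : ℕ => φ^[n] (y 0), ?_,
      hinf.mono Set.subset_union_left, Set.Subset.antisymm ?_ ?_⟩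
    · rintro _ (⟨n, rfl⟩ | ⟨n, rfl⟩)
      · exact (hy n).1
      · exact hit n _ (hy 0).1
    · rintro _ ⟨_, ⟨n, rfl⟩ | ⟨n, rfl⟩, rfl⟩
      · rcases n with _ | n
        · exact Or.inr ⟨1, rfl⟩
        · exact Or.inl ⟨n, (hy n).2.symm⟩
      · exact Or.inr ⟨n + 1, Function.iterate_succ_apply' φ n _⟩
    · rintro _ (⟨n, rfl⟩ | ⟨n, rfl⟩)
      · exact ⟨_, Or.inl ⟨n + 1, rfl⟩, (hy n).2⟩
      · rcases n with _ | n
        · exact ⟨_, Or.inl ⟨1, rfl⟩, (hy 0).2⟩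
        · exact ⟨_, Or.inr ⟨n, rfl⟩, (Function.iterate_succ_apply' φ n _).symm⟩

/-- Some natural number is not preperiodic. -/
lemma rfin_nat (hCANH : S_CANH) {d : ℕ} {φ : ProjLine → ProjLine} (hd : 2 ≤ d)
    (hφ : RM ⊤ d φ) : ∃ n : ℕ, some (n : Qbar) ∉ PP φ := by
  obtain ⟨⟨H, hH⟩, h⟩ := hCANH d φ hd hφ
  obtain ⟨-, h0, -⟩ := h H hH
  obtain ⟨-, c, hc⟩ := hH
  by_contra! hall
  refine Set.infinite_range_of_injective (f := fun n : ℕ => some (n : Qbar))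
    (fun _ _ e => Nat.cast_injective (Option.some_injective _ e))
    ((all_NOR ⊥ c inferInstance).subset ?_)
  rintro _ ⟨n, rfl⟩
  refine ⟨some_mem_pts.2 (natCast_mem _ n), ?_⟩
  have := hc (some n)
  rw [(h0 _).2 (hall n), zero_sub, abs_neg] at this
  exact (le_abs_self _).trans this

theorem p_RFIN (hCHAIN : S_CHAIN) (hCANH : S_CANH) (hRMF : S_RMF) :
    S_RFIN := by
  intro L hR K d φ hK hd hφ
  by_contra hinf
  obtain ⟨K₂, hK₂, hφ₂⟩ := all_MOD.2 d φ hφ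
  have hK' : Fd (K ⊔ K₂) := IntermediateField.finiteDimensional_sup _ _
  have hF : RM (L ⊔ (K ⊔ K₂)) d φ := hφ₂.mono (le_sup_right.trans le_sup_right)
  have hS : (pts (L ⊔ (K ⊔ K₂)) ∩ PP φ).Infinite := Set.Infinite.mono
    (Set.inter_subset_inter_left _ (pts_mono (sup_le_sup_left le_sup_left _))) hinf
  have hfib : ∀ x, {z | φ z = x}.Finite := fun x => by
    obtain ⟨s, -, hs⟩ := (all_FIB _ d φ hφ).1 (by omega) x
    refine ((s.finite_toSet.image some).insert none).subset ?_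
    rintro (_ | t) ht
    · exact Or.inl rfl
    · exact Or.inr ⟨t, hs t ht, rfl⟩
  obtain ⟨Y, hY, hYi, hYe⟩ := rfin_onto hCHAIN hS Set.inter_subset_right
    (fun x hx => ⟨hF.mem hx.1, rfin_pp hx.2⟩) hfib
  obtain ⟨n, hn⟩ := rfin_nat hCANH hd hφ
  have hm : RM (L ⊔ (K ⊔ K₂)) 1 (mob (n : Qbar) 1 1 0) :=
    rfin_rm _ (natCast_mem _ n) (one_mem _) (one_mem _) (zero_mem _) (by simp)
  have hm' : RM (L ⊔ (K ⊔ K₂)) 1 (mob 0 1 1 (-(n : Qbar))) :=
    rfin_rm _ (zero_mem _) (one_mem _) (one_mem _) (neg_mem (natCast_mem _ n)) (by simp)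
  have hψ := (all_COMP _ _ _ hm').1 _ _ ((all_COMP _ _ _ hF).1 _ _ hm)
  rw [one_mul, mul_one] at hψ
  obtain ⟨f, hf, hdeg, hmap⟩ := hRMF _ d _ (by omega) hψ
  have hinj : Function.Injective (mob 0 1 1 (-(n : Qbar))) :=
    Function.LeftInverse.injective (rfin_inv (n : Qbar))
  have hsome : some '' {x : Qbar | some x ∈ mob 0 1 1 (-(n : Qbar)) '' Y} =
      mob 0 1 1 (-(n : Qbar)) '' Y := by
    refine Set.Subset.antisymm (by rintro _ ⟨x, hx, rfl⟩; exact hx) ?_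
    rintro (_ | x) hx
    · obtain ⟨y, hy, e⟩ := hx
      have := rfin_inv (n : Qbar) y
      rw [e, rfin_none] at this
      exact absurd (this ▸ (hY hy).2) hn
    · exact ⟨x, hx, rfl⟩
  have h1 := hR _ hK' f hf ⟨{x : Qbar | some x ∈ mob 0 1 1 (-(n : Qbar)) '' Y}, ?_, ?_, ?_⟩
  · omega
  · rintro x ⟨y, hy, e⟩
    have := hm'.mem (hY hy).1
    rw [e] at this
    exact some_mem_pts.1 this
  · refine Set.Infinite.of_image some ?_
    rw [hsome]
    exact hYi.image hinj.injOn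
  · rw [hsome, hmap, Set.image_image]
    conv_rhs => rw [← hYe, Set.image_image]
    refine Set.image_congr fun y _ => ?_
    simp only [Function.comp_apply, rfin_inv]

end Pool.Agent.P.MP_8d2e9f_nt.AO
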