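import Pool.Agent.P.MP_8d2e9f_nt.AO.IfaceC

/-! Step RMF. -/

set_option autoImplicit false

namespace Pool.Agent.P.MP_8d2e9f_nt.AO

open Polynomial NumberField Pool.Agent.P.MP_8d2e9f_nt.G
open scoped IntermediateField Classical

theorem rmf_of {a b : Qbar[X]} (h : IsCoprime a b) (hb : b.Monic) :
    (algebraMap _ (RatFunc Qbar) a / algebraMap _ _ b).num = a ∧
      (algebraMap _ (RatFunc Qbar) a / algebraMap _ _ b).denom = b := by
  set f := algebraMap _ (RatFunc Qbar) a / algebraMap _ _ b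
  have h1 : f.num * b = a * f.denom := (RatFunc.num_mul_eq_mul_denom_iff hb.ne_zero).2 rfl
  have h2 : f.denom = b := eq_of_monic_of_associated f.monic_denom hb (associated_of_dvd_dvd
    (f.isCoprime_num_denom.symm.dvd_of_dvd_mul_left ⟨a, h1.trans (mul_comm _ _)⟩)
    (h.symm.dvd_of_dvd_mul_left ⟨f.num, h1.symm.trans (mul_comm _ _)⟩))
  exact ⟨mul_right_cancel₀ hb.ne_zero (h2 ▸ h1), h2⟩

theorem rmf_im (f : RatFunc Qbar) : ratMap f = im f.num f.denom (ratDegree f) := by
  have hA : f.num.natDegree ≤ ratDegree f := le_max_left _ _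
  have hB : f.denom.natDegree ≤ ratDegree f := le_max_right _ _
  have hm : f.denom.leadingCoeff ≠ 0 := leadingCoeff_ne_zero.2 f.denom_ne_zero
  funext x
  cases x with
  | none =>
    rw [im_none, ratMap]
    split_ifs with e e' e'
    · rfl
    · exact absurd (coeff_eq_zero_of_natDegree_lt (e.trans_le hA)) e'
    · rw [ratDegree, max_eq_right (not_lt.1 e)] at e'
      exact absurd e' hm
    · rw [ratDegree, max_eq_right (not_lt.1 e)]
      rfl
  | some x => rw [im_some hA hB, ratMap]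

theorem p_RMF :
    S_RMF := by
  rintro E d φ hd ⟨A, B, a, b, hA, hB, hv0, rfl⟩
  have hinf : ¬(A.coeff d = 0 ∧ B.coeff d = 0) := fun h =>
    hv0 (1, 0) (by simp) (by simp [vm, hv_inf, h.1, h.2])
  have hco : IsCoprime A B := by
    refine (isCoprime_iff_aeval_ne_zero_of_isAlgClosed Qbar Qbar A B).2 fun x => ?_
    by_contra h
    rw [not_or, not_not, not_not, coe_aeval_eq_eval] at h
    exact hv0 (x, 1) (by simp) (by simp [vm, hv_one hA, hv_one hB, h.1, h.2])
  have hB0 : B ≠ 0 := by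
    rintro rfl
    have := natDegree_eq_zero_of_isUnit (isCoprime_zero_right.1 hco)
    exact hinf ⟨coeff_eq_zero_of_natDegree_lt (by omega), by simp⟩
  have hc : B.leadingCoeff⁻¹ ≠ 0 := inv_ne_zero (leadingCoeff_ne_zero.2 hB0)
  have hu : IsUnit (C B.leadingCoeff⁻¹) := isUnit_C.2 hc.isUnit
  obtain ⟨h1, h2⟩ := rmf_of (a := C B.leadingCoeff⁻¹ * A) (b := C B.leadingCoeff⁻¹ * B)
    ((isCoprime_mul_unit_left hu A B).2 hco)
    (by rw [mul_comm]; exact monic_mul_leadingCoeff_inv hB0)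
  generalize algebraMap Qbar[X] (RatFunc Qbar) _ / algebraMap Qbar[X] (RatFunc Qbar) _ = f at h1 h2
  have hcE : B.leadingCoeff⁻¹ ∈ E := inv_mem (b _)
  have hdeg : ratDegree f = d := by
    rw [ratDegree, h1, h2, natDegree_C_mul hc, natDegree_C_mul hc]
    refine le_antisymm (max_le hA hB) (not_lt.1 fun h => hinf ?_)
    rw [max_lt_iff] at h
    exact ⟨coeff_eq_zero_of_natDegree_lt h.1, coeff_eq_zero_of_natDegree_lt h.2⟩
  refine ⟨f, fun i => ?_, hdeg, ?_⟩
  · rw [h1, h2, coeff_C_mul, coeff_C_mul]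
    exact ⟨mul_mem hcE (a i), mul_mem hcE (b i)⟩
  · rw [rmf_im, hdeg, h1, h2]
    funext x
    rw [im, im, ← pt_smul hc (vm A B d (lf x))]
    simp [vm, hv_C_mul]

end Pool.Agent.P.MP_8d2e9f_nt.AO
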