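import Pool.Agent.P.MP_8d2e9f_nt.AO.IfaceC

/-! Step RMW. -/

set_option autoImplicit false

namespace Pool.Agent.P.MP_8d2e9f_nt.AO

open Polynomial NumberField Pool.Agent.P.MP_8d2e9f_nt.G
open scoped IntermediateField Classical

lemma rmw_one {k : Type} [Field k] (a b : k[X]) (x : k) (ha : a ≠ 0) (h1 : a.eval x = 0)
    (h2 : b.eval x ≠ 0) (h3 : ((rootMultiplicity x a : ℕ) : k) ≠ 0) :
    wr a b ≠ 0 ∧ rootMultiplicity x (wr a b) + 1 = rootMultiplicity x a := by
  obtain ⟨G, hG, hG'⟩ := exists_eq_pow_rootMultiplicity_mul_and_not_dvd a ha x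
  obtain ⟨n, hn⟩ : ∃ n, rootMultiplicity x a = n + 1 :=
    Nat.exists_eq_succ_of_ne_zero ((rootMultiplicity_pos ha).2 h1).ne'
  rw [hn] at hG h3 ⊢
  rw [dvd_iff_isRoot] at hG'
  have h4 : wr a b = (C ((n + 1 : ℕ) : k) * G * b + (X - C x) * wr G b) * (X - C x) ^ n := by
    rw [hG, wr, wr, derivative_mul, derivative_X_sub_C_pow, Nat.add_sub_cancel, map_natCast]
    ring
  have h5 : ¬ (C ((n + 1 : ℕ) : k) * G * b + (X - C x) * wr G b).IsRoot x := by
    rw [IsRoot, eval_add, eval_mul, eval_mul, eval_mul, eval_C, eval_sub, eval_X, eval_C, sub_self,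
      zero_mul, add_zero]
    exact mul_ne_zero (mul_ne_zero h3 hG') h2
  have h6 : C ((n + 1 : ℕ) : k) * G * b + (X - C x) * wr G b ≠ 0 := fun h => h5 (by
    rw [h]; exact IsRoot.def.2 eval_zero)
  rw [h4, rootMultiplicity_mul_X_sub_C_pow h6, rootMultiplicity_eq_zero h5, zero_add]
  exact ⟨mul_ne_zero h6 (pow_ne_zero _ (X_sub_C_ne_zero x)), rfl⟩

theorem p_RMW :
    S_RMW := by
  intro k _ a b
  refine ⟨fun x => rmw_one a b x, fun x hb h1 h2 h3 => ?_, fun hb hlt hne => ?_⟩
  · have h4 : wr a b = -wr b a := by rw [wr, wr]; ring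
    obtain ⟨h5, h6⟩ := rmw_one b a x hb h1 h2 h3
    have h7 : -wr b a = C (-1) * wr b a := by rw [C_neg, C_1, neg_one_mul]
    refine ⟨h4 ▸ neg_ne_zero.2 h5, ?_⟩
    rw [h4, h7, rootMultiplicity_mul (h7 ▸ neg_ne_zero.2 h5), rootMultiplicity_C, zero_add, h6]
  · obtain ⟨n, hn⟩ : ∃ n, a.natDegree = n + 1 := ⟨a.natDegree - 1, by omega⟩
    have ha : a ≠ 0 := by
      rintro rfl
      simp at hn
    have d1 : (derivative a).natDegree ≤ n := (natDegree_derivative_le a).trans (by omega)
    have c1 : (derivative a * b).coeff (n + b.natDegree) =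
        a.leadingCoeff * (a.natDegree : k) * b.leadingCoeff := by
      rw [coeff_mul_add_eq_of_natDegree_le d1 le_rfl, coeff_derivative, leadingCoeff, leadingCoeff,
        hn]
      push_cast
      rfl
    have c2 : (a * derivative b).natDegree ≤ n + b.natDegree ∧
        (a * derivative b).coeff (n + b.natDegree) =
          a.leadingCoeff * (b.leadingCoeff * (b.natDegree : k)) := by
      rcases Nat.eq_zero_or_pos b.natDegree with h0 | h0
      · rw [derivative_of_natDegree_zero h0, h0]
        simp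
      · obtain ⟨m, hm⟩ : ∃ m, b.natDegree = m + 1 := ⟨b.natDegree - 1, by omega⟩
        have d2 : (derivative b).natDegree ≤ m := (natDegree_derivative_le b).trans (by omega)
        refine ⟨natDegree_mul_le.trans (by omega), ?_⟩
        rw [show n + b.natDegree = a.natDegree + m by omega,
          coeff_mul_add_eq_of_natDegree_le le_rfl d2, coeff_derivative, leadingCoeff, leadingCoeff,
          hm]
        push_cast
        rfl
    have c3 : (wr a b).coeff (n + b.natDegree) =
        ((a.natDegree : k) - b.natDegree) * a.leadingCoeff * b.leadingCoeff := by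
      rw [wr, coeff_sub, c1, c2.2]
      ring
    have c4 : (wr a b).coeff (n + b.natDegree) ≠ 0 := by
      rw [c3]
      exact mul_ne_zero (mul_ne_zero (sub_ne_zero.2 hne) (leadingCoeff_ne_zero.2 ha))
        (leadingCoeff_ne_zero.2 hb)
    have c5 : (wr a b).natDegree = n + b.natDegree := natDegree_eq_of_le_of_coeff_ne_zero
      ((natDegree_sub_le _ _).trans (max_le (natDegree_mul_le.trans (by omega)) c2.1)) c4
    refine ⟨fun h => c4 (by rw [h, coeff_zero]), by omega, ?_⟩
    rw [leadingCoeff, c5, c3]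

end Pool.Agent.P.MP_8d2e9f_nt.AO
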