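import Pool.Agent.P.MP_8d2e9f_nt.AO.IfaceC

/-! Step ROOTV. -/

set_option autoImplicit false

namespace Pool.Agent.P.MP_8d2e9f_nt.AO

open Polynomial NumberField Pool.Agent.P.MP_8d2e9f_nt.G
open scoped IntermediateField Classical

lemma rootv_coeff {F : Type} [Field F] (O : ValuationSubring F) (ξ : F) (hξ : ξ ∈ O)
    (s : Multiset F) (hs : ∀ ρ ∈ s, 1 ≤ O.valuation (ξ - ρ)) (i : ℕ) :
    O.valuation ((s.map fun ρ => X - C ρ).prod.coeff i) ≤
      O.valuation (s.map fun ρ => ξ - ρ).prod := by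
  induction s using Multiset.induction_on generalizing i with
  | empty =>
    simp only [Multiset.map_zero, Multiset.prod_zero, coeff_one, map_one]
    split_ifs <;> simp
  | cons ρ s ih =>
    have h1 := hs ρ (Multiset.mem_cons_self _ _)
    have ih' := ih fun x hx => hs x (Multiset.mem_cons_of_mem hx)
    have h2 : O.valuation ρ ≤ O.valuation (ξ - ρ) := by
      have e : ρ = ξ - (ξ - ρ) := by ring
      conv_lhs => rw [e]
      exact Valuation.map_sub_le _ (((O.valuation_le_one_iff _).2 hξ).trans h1) le_rfl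
    rw [Multiset.map_cons, Multiset.prod_cons, Multiset.map_cons, Multiset.prod_cons, map_mul,
      sub_mul, coeff_sub, coeff_C_mul]
    refine Valuation.map_sub_le _ ?_ ?_
    · refine le_trans ?_ (le_mul_of_one_le_left' h1)
      cases i with
      | zero => simp
      | succ i => rw [coeff_X_mul]; exact ih' i
    · rw [map_mul]
      exact mul_le_mul' h2 (ih' i)

lemma rootv_sub {F : Type} [Field F] (O : ValuationSubring F) (G : O[X]) (x ξ : O)
    (h : O.valuation ((x : F) - ξ) < 1) :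
    O.valuation (((G.eval x : O) : F) - (G.eval ξ : O)) < 1 := by
  obtain ⟨c, hc⟩ := sub_dvd_eval_sub x ξ G
  have e : ((G.eval x : O) : F) - (G.eval ξ : O) = ((x : F) - ξ) * c := by
    exact_mod_cast congrArg Subtype.val hc
  rw [e, map_mul]
  exact mul_lt_one_of_lt_of_le h (O.valuation_le_one c)

theorem p_ROOTV :
    S_ROOTV := by
  intro F _ _ O G ξ hG hξ
  obtain ⟨G₀, rfl⟩ : ∃ G₀ : O[X], G₀.map O.subtype = G :=
    (mem_lifts _).1 ((lifts_iff_coeff_lifts _).2 fun i => ⟨⟨_, hG i⟩, rfl⟩)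
  have hev : ∀ (H : O[X]) (x : O), (H.map O.subtype).eval (x : F) = (H.eval x : O) := by
    intro H x
    rw [eval_map]
    exact eval₂_hom O.subtype x
  have hmem : ∀ x : F, O.valuation (x - ξ) < 1 → x ∈ O := by
    intro x hx
    have e : x = ξ + (x - ξ) := by ring
    rw [e]
    exact O.add_mem _ _ hξ ((O.valuation_le_one_iff _).1 hx.le)
  refine ⟨fun ⟨i, hi⟩ h => ?_, fun h x y hx hy h1 h2 => ?_, fun x hx => ?_⟩
  · by_contra hno
    push Not at hno
    have hs := IsAlgClosed.splits (G₀.map O.subtype)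
    have h3 := rootv_coeff O ξ hξ (G₀.map O.subtype).roots (fun ρ hρ => by
      rw [Valuation.map_sub_swap]
      exact hno ρ (isRoot_of_mem_roots hρ)) i
    rw [hs.eval_eq_prod_roots, map_mul] at h
    rw [hs.eq_prod_roots, coeff_C_mul, map_mul] at hi
    exact absurd (hi ▸ (mul_le_mul_right h3 _).trans_lt h) (lt_irrefl _)
  · have h3 : (⟨x, hmem x h1⟩ : O) = ⟨y, hmem y h2⟩ := by
      refine IsLocalRing.eq_of_eval_eq_zero_of_not_isUnit_sub (f := G₀)
        (Subtype.ext ((hev G₀ ⟨x, _⟩).symm.trans hx))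
        (Subtype.ext ((hev G₀ ⟨y, _⟩).symm.trans hy)) ?_ ?_
      · rw [O.valuation_eq_one_iff]
        have e : x - y = (x - ξ) - (y - ξ) := by ring
        change O.valuation (x - y) ≠ 1
        rw [e]
        exact (Valuation.map_sub_lt _ h1 h2).ne
      · rw [O.valuation_eq_one_iff]
        rw [derivative_map, hev _ ⟨ξ, hξ⟩] at h
        have h4 := rootv_sub O (derivative G₀) ⟨x, hmem x h1⟩ ⟨ξ, hξ⟩ h1
        rw [← h] at h4 ⊢
        exact Valuation.map_eq_of_sub_lt _ h4
    exact congrArg Subtype.val h3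
  · rw [hev G₀ ⟨x, hmem x hx⟩, hev G₀ ⟨ξ, hξ⟩]
    exact rootv_sub O G₀ ⟨x, hmem x hx⟩ ⟨ξ, hξ⟩ hx

end Pool.Agent.P.MP_8d2e9f_nt.AO
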