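import Pool.Agent.P.MP_8d2e9f_nt.AO.IfaceC

/-! Step ROOTX. -/

set_option autoImplicit false

namespace Pool.Agent.P.MP_8d2e9f_nt.AO

open Polynomial NumberField Pool.Agent.P.MP_8d2e9f_nt.G
open scoped IntermediateField Classical

lemma rootx_gen (hKPOW : S_KPOW) {a b P : Qbar[X]} (Q : Qbar[X]) (m j k w : ℕ)
    (hQ : Q.natDegree ≤ m) (h1 : k * (m + j) = 24) (h2 : w * k = 12) (hP : P = Q ^ k)
    (h : Eig a b P) : ∃ c, c ≠ 0 ∧ homg a b m Q * b ^ j = C c * (Q * wr a b ^ w) := by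
  obtain ⟨c, hc, e⟩ := h.2.2
  refine hKPOW.2.2 _ _ c k (Nat.pos_of_ne_zero fun q => by simp [q] at h2) hc ?_
  rw [hP, ← h1, homg_pow a b (hQ.trans (Nat.le_add_right m j)), ← mul_one Q,
    homg_mul a b hQ (by simp), homg_one, mul_one, ← h2] at e
  rw [e, mul_pow, pow_mul, mul_assoc]

lemma rootx_ode {a b Q : Qbar[X]} {m : ℕ}
    (h : ∃ c, c ≠ 0 ∧ homg a b (m + 1) Q * b ^ (m - 1) = C c * (Q * wr a b ^ m)) :
    ∃ c, c ≠ 0 ∧ Ode m Q c a b := by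
  obtain ⟨c, hc, e⟩ := h
  refine ⟨c⁻¹, inv_ne_zero hc, ?_⟩
  rw [Ode, mul_assoc, mul_comm (b ^ _), e, ← mul_assoc, ← C_mul, inv_mul_cancel₀ hc, C_1, one_mul,
    mul_comm]

lemma rootx_xx (a b : Qbar[X]) (s t : ℕ) :
    (X ^ s * (X + 1) ^ t : Qbar[X]).natDegree ≤ s + t ∧
      homg a b (s + t) (X ^ s * (X + 1) ^ t) = a ^ s * (a + b) ^ t := by
  have h1 : (X + 1 : Qbar[X]).natDegree ≤ 1 := by compute_degree
  have h2 : ((X + 1) ^ t : Qbar[X]).natDegree ≤ t := by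
    simpa using natDegree_pow_le_of_le t h1
  have h3 := homg_pow a b h1 t
  rw [mul_one, homg_add, homg_X a b 0, homg_one, pow_zero, mul_one, pow_one] at h3
  refine ⟨natDegree_mul_le_of_le (natDegree_X_pow_le s) h2, ?_⟩
  rw [homg_mul a b (natDegree_X_pow_le s) h2, h3, homg_X_pow a b le_rfl, Nat.sub_self, pow_zero,
    mul_one]

theorem p_ROOTX (hKPOW : S_KPOW) :
    S_ROOTX := by
  refine fun a b => ⟨fun α β h => rootx_ode ?_, fun h => rootx_ode ?_, fun h => ?_, fun h => ?_⟩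
  · exact rootx_gen hKPOW (cub α β) 3 1 6 2 (by unfold cub; compute_degree) rfl rfl rfl h
  · exact rootx_gen hKPOW ((X ^ 2 - 1) ^ 2) 4 2 4 3 (by compute_degree) rfl rfl (by ring) h
  · have := rootx_gen hKPOW (X ^ 3 * (X + 1) ^ 2) (3 + 2) 3 3 4 (rootx_xx a b 3 2).1 rfl rfl
      (by ring) h
    rwa [(rootx_xx a b 3 2).2] at this
  · have := rootx_gen hKPOW (X ^ 4 * (X + 1) ^ 3) (4 + 3) 5 2 6 (rootx_xx a b 4 3).1 rfl rfl
      (by ring) h
    rwa [(rootx_xx a b 4 3).2] at this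

end Pool.Agent.P.MP_8d2e9f_nt.AO
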