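import Pool.Agent.P.MP_8d2e9f_nt.AO.IfaceC

/-! Step SHAPE. -/

set_option autoImplicit false

namespace Pool.Agent.P.MP_8d2e9f_nt.AO

open Polynomial NumberField Pool.Agent.P.MP_8d2e9f_nt.G
open scoped IntermediateField Classical

lemma shape_two {k : Type} [Field k] (l x y : k) (i j : ℕ) :
    (C l * ((X - C x) ^ i * (X - C y) ^ j)).comp (C (x - y) * X + C x) =
      C (l * (x - y) ^ (i + j)) * (X ^ i * (X + 1) ^ j) := by
  have h1 : (C (x - y) * X + C x - C x : k[X]) = C (x - y) * X := by ring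
  have h2 : (C (x - y) * X + C x - C y : k[X]) = C (x - y) * (X + 1) := by
    rw [C_sub]; ring
  simp only [mul_comp, pow_comp, sub_comp, X_comp, C_comp]
  rw [h1, h2, C_mul, C_pow, mul_pow, mul_pow]
  ring

lemma shape_sym {k : Type} [Field k] (l s t : k) :
    (C l * ((X - C (t + s)) ^ 8 * (X - C (t - s)) ^ 8)).comp (C s * X + C t) =
      C (l * s ^ 16) * (X ^ 2 - 1) ^ 8 := by
  have h1 : (C s * X + C t - C (t + s) : k[X]) = C s * (X - 1) := by rw [C_add]; ring
  have h2 : (C s * X + C t - C (t - s) : k[X]) = C s * (X + 1) := by rw [C_sub]; ring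
  have h3 : (X ^ 2 - 1 : k[X]) = (X - 1) * (X + 1) := by ring
  simp only [mul_comp, pow_comp, sub_comp, X_comp, C_comp]
  rw [h1, h2, h3, C_mul, C_pow, mul_pow, mul_pow, mul_pow]
  ring

lemma shape_cub {k : Type} [Field k] (l t u v : k) :
    (C l * ((X - C (t + u)) ^ 6 * (X - C (t + v)) ^ 6 * (X - C (t - u - v)) ^ 6)).comp
      (C 1 * X + C t) = C l * cub (-(u ^ 2 + u * v + v ^ 2)) (u * v * (u + v)) ^ 6 := by
  have h : cub (-(u ^ 2 + u * v + v ^ 2)) (u * v * (u + v)) =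
      (C 1 * X + C t - C (t + u)) * (C 1 * X + C t - C (t + v)) *
        (C 1 * X + C t - C (t - u - v)) := by
    simp only [cub, map_neg, map_add, map_sub, map_mul, map_pow, map_one]
    ring
  simp only [mul_comp, pow_comp, sub_comp, X_comp, C_comp]
  rw [h, mul_pow, mul_pow]

theorem p_SHAPE (hMUB : S_MUB) :
    S_SHAPE := by
  intro P hP hdeg hmax hmem
  have hl : P.leadingCoeff ≠ 0 := leadingCoeff_ne_zero.2 hP
  have hcard : Multiset.card P.roots = P.natDegree := IsAlgClosed.card_roots_eq_natDegree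
  have hfac : P = C P.leadingCoeff *
      ∏ x ∈ P.roots.toFinset, (X - C x) ^ rootMultiplicity x P := by
    rw [← prod_multiset_root_eq_finset_root, C_leadingCoeff_mul_prod_multiset_X_sub_C hcard]
  have hsum : ∑ x ∈ P.roots.toFinset, rootMultiplicity x P = P.natDegree := by
    rw [← hcard, ← Multiset.toFinset_sum_count_eq]
    exact Finset.sum_congr rfl fun x _ => (count_roots P).symm
  have hM : 24 - P.natDegree = 0 ∨ 24 - P.natDegree = 6 ∨ 24 - P.natDegree = 8 ∨
      24 - P.natDegree = 9 ∨ 24 - P.natDegree = 10 ∨ 24 - P.natDegree = 11 := by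
    have := hmem none
    simpa only [mu, Finset.mem_insert, Finset.mem_singleton] using this
  have hx : ∀ x ∈ P.roots.toFinset, rootMultiplicity x P ≤ 24 - P.natDegree ∧
      (rootMultiplicity x P = 6 ∨ rootMultiplicity x P = 8 ∨ rootMultiplicity x P = 9 ∨
        rootMultiplicity x P = 10 ∨ rootMultiplicity x P = 11) := by
    intro x hxs
    refine ⟨hmax (some x), ?_⟩
    have h1 := hmem (some x)
    simp only [mu, Finset.mem_insert, Finset.mem_singleton] at h1
    have h2 : 0 < rootMultiplicity x P :=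
      (rootMultiplicity_pos hP).2 ((mem_roots hP).1 (Multiset.mem_toFinset.1 hxs))
    omega
  generalize P.roots.toFinset = S at hfac hsum hx
  generalize P.natDegree = n at hsum hM hx hdeg
  generalize P.leadingCoeff = l at hfac hl
  generalize hm : (fun x => rootMultiplicity x P) = m at hfac hsum hx
  have hm' : ∀ x, rootMultiplicity x P = m x := fun x => congrFun hm x
  simp only [hm'] at hfac hsum hx
  clear hm hm' hmax hmem hcard
  have hle : S.card • 6 ≤ ∑ x ∈ S, m x :=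
    Finset.card_nsmul_le_sum S m 6 fun x hxs => by have := hx x hxs; omega
  have hge : ∑ x ∈ S, m x ≤ S.card • (24 - n) :=
    Finset.sum_le_card_nsmul S m _ fun x hxs => (hx x hxs).1
  rw [smul_eq_mul, hsum] at hle hge
  have hc : S.card = 2 ∨ S.card = 3 := by
    rcases hM with h | h | h | h | h | h <;> rw [h] at hge <;> omega
  have two : ∀ (x y : Qbar) (i j : ℕ), x ≠ y → P = C l * ((X - C x) ^ i * (X - C y) ^ j) →
      NF (X ^ i * (X + 1) ^ j : Qbar[X]) →
      ∃ (s t c : Qbar) (P₀ : Qbar[X]), s ≠ 0 ∧ c ≠ 0 ∧ NF P₀ ∧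
        P.comp (C s * X + C t) = C c * P₀ := by
    intro x y i j hxy he hN
    refine ⟨x - y, x, l * (x - y) ^ (i + j), _, sub_ne_zero.2 hxy,
      mul_ne_zero hl (pow_ne_zero _ (sub_ne_zero.2 hxy)), hN, ?_⟩
    rw [he, shape_two]
  rcases hc with hc | hc
  · obtain ⟨x, y, hxy, rfl⟩ := Finset.card_eq_two.1 hc
    rw [Finset.sum_pair hxy] at hsum
    rw [Finset.prod_pair hxy] at hfac
    have h1 := hx x (by simp)
    have h2 := hx y (by simp)
    have hcs : (m x = 8 ∧ m y = 8) ∨ (m x = 9 ∧ m y = 6) ∨ (m x = 6 ∧ m y = 9) ∨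
        (m x = 8 ∧ m y = 6) ∨ (m x = 6 ∧ m y = 8) := by omega
    rcases hcs with ⟨a, b⟩ | ⟨a, b⟩ | ⟨a, b⟩ | ⟨a, b⟩ | ⟨a, b⟩ <;> rw [a, b] at hfac
    · have hs : (x - y) / 2 ≠ 0 := div_ne_zero (sub_ne_zero.2 hxy) two_ne_zero
      refine ⟨(x - y) / 2, (x + y) / 2, l * ((x - y) / 2) ^ 16, _, hs,
        mul_ne_zero hl (pow_ne_zero _ hs), Or.inr (Or.inl rfl), ?_⟩
      rw [← shape_sym, hfac]
      congr 6 <;> ring
    · exact two x y 9 6 hxy hfac (Or.inr (Or.inr (Or.inl rfl)))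
    · exact two y x 9 6 hxy.symm (by rw [hfac, mul_comm ((X - C x) ^ 6)])
        (Or.inr (Or.inr (Or.inl rfl)))
    · exact two x y 8 6 hxy hfac (Or.inr (Or.inr (Or.inr rfl)))
    · exact two y x 8 6 hxy.symm (by rw [hfac, mul_comm ((X - C x) ^ 6)])
        (Or.inr (Or.inr (Or.inr rfl)))
  · obtain ⟨x, y, z, hxy, hxz, hyz, rfl⟩ := Finset.card_eq_three.1 hc
    have hx' : x ∉ ({y, z} : Finset Qbar) := by simp [hxy, hxz]
    rw [Finset.sum_insert hx', Finset.sum_pair hyz] at hsum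
    rw [Finset.prod_insert hx', Finset.prod_pair hyz] at hfac
    have h1 := hx x (by simp)
    have h2 := hx y (by simp)
    have h3 := hx z (by simp)
    obtain ⟨a, b, c⟩ : m x = 6 ∧ m y = 6 ∧ m z = 6 := by omega
    rw [a, b, c, ← mul_assoc ((X - C x) ^ 6)] at hfac
    obtain ⟨t, ht⟩ : ∃ t, t = (x + y + z) / 3 := ⟨_, rfl⟩
    obtain ⟨u, rfl⟩ : ∃ u, x = t + u := ⟨x - t, by ring⟩
    obtain ⟨v, rfl⟩ : ∃ v, y = t + v := ⟨y - t, by ring⟩
    obtain rfl : z = t - u - v := by linear_combination (-3) * ht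
    refine ⟨1, t, l, _, one_ne_zero, hl, Or.inl ⟨_, _, ?_, rfl⟩, by rw [hfac, shape_cub]⟩
    have e : 4 * (-(u ^ 2 + u * v + v ^ 2)) ^ 3 + 27 * (u * v * (u + v)) ^ 2 =
        -((t + u - (t + v)) * (t + u - (t - u - v)) * (t + v - (t - u - v))) ^ 2 := by ring
    rw [e]
    exact neg_ne_zero.2 (pow_ne_zero _ (mul_ne_zero (mul_ne_zero (sub_ne_zero.2 hxy)
      (sub_ne_zero.2 hxz)) (sub_ne_zero.2 hyz)))

end Pool.Agent.P.MP_8d2e9f_nt.AO
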