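import Pool.Agent.P.MP_8d2e9f_nt.AO.IfaceC
import Pool.Agent.P.MP_8d2e9f_nt.AO.TAUX1

/-! Step SIEG1. -/

set_option autoImplicit false

namespace Pool.Agent.P.MP_8d2e9f_nt.AO

open Polynomial NumberField Pool.Agent.P.MP_8d2e9f_nt.G
open scoped IntermediateField Classical

theorem p_SIEG1 (hPH : S_PH) :
    S_SIEG1 := by
  intro p _ J _ n M B G hB hG hJ hM
  have hp0 : (0 : ℝ) ≤ (p : ℝ)⁻¹ := by positivity
  set G₀ : ℤ_[p][X] := G.map (Int.castRingHom ℤ_[p]) ^ M with hG₀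
  have hm : G₀.Monic := (hG.map _).pow M
  have hdeg : G₀.natDegree = M * G.natDegree := by
    rw [hG₀, (hG.map _).natDegree_pow, hG.natDegree_map]
  obtain ⟨a, ha, ha1, ha2⟩ := hPH p (Fin (M * G.natDegree) ⊕ Fin M) J
    (fun s => Sum.elim (fun l => ((B s %ₘ G₀).coeff l : ℚ_[p]))
      fun t => ((B s).coeff (n - t) : ℚ_[p])) M
    (fun s l => by cases l <;> exact PadicInt.norm_le_one _) hJ
    (by simpa [mul_add] using hM)
  refine ⟨a, ha, ha1, fun ε u h1 h2 h3 => ?_⟩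
  have hε : 0 ≤ ε := hp0.trans h1
  have hpM : (p : ℝ)⁻¹ ^ M ≤ ε ^ M := pow_le_pow_left₀ hp0 h1 M
  have hεM : 0 ≤ ε ^ M := pow_nonneg hε M
  have hco : ∀ (P : J → ℤ_[p][X]) (l : ℕ), ‖(∑ s, C (a s : ℤ_[p]) * P s).coeff l‖ =
      ‖∑ s, (a s : ℚ_[p]) * ((P s).coeff l : ℚ_[p])‖ := fun P l => by
    rw [PadicInt.norm_def, finsetSum_coeff]
    simp only [coeff_C_mul]
    congr 1
    exact (map_sum (algebraMap ℤ_[p] ℚ_[p]) _ _).trans (by simp)
  have hev : ∀ P : J → ℤ_[p][X], ∑ s, (a s : Om p) * (P s).eval₂ (zo p) u =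
      (∑ s, C (a s : ℤ_[p]) * P s).eval₂ (zo p) u := fun P => by
    rw [eval₂_finsetSum]
    exact Finset.sum_congr rfl fun s _ => by rw [eval₂_mul, eval₂_C, map_intCast]
  rcases h3 with ⟨h3, h4⟩ | h3
  · rw [max_eq_left h3, one_pow, mul_one]
    have e : ∑ s, (a s : Om p) * (B s).eval₂ (zo p) u =
        (∑ s, C (a s : ℤ_[p]) * (B s %ₘ G₀)).eval₂ (zo p) u +
          aeval u G ^ M * (∑ s, C (a s : ℤ_[p]) * (B s /ₘ G₀)).eval₂ (zo p) u := by
      have e1 : G₀.eval₂ (zo p) u = aeval u G ^ M := by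
        rw [hG₀, eval₂_pow, eval₂_map, aeval_def]
        congr 2
      rw [← hev, ← hev, ← e1, Finset.mul_sum, ← Finset.sum_add_distrib]
      refine Finset.sum_congr rfl fun s _ => ?_
      conv_lhs => rw [← modByMonic_add_div (B s) G₀]
      rw [eval₂_add, eval₂_mul]
      ring
    rw [e]
    refine (IsUltrametricDist.norm_add_le_max _ _).trans (max_le ?_ ?_)
    · refine aux1_eval _ h3 hεM fun l => ?_
      by_cases hl : l < M * G.natDegree
      · rw [hco]
        exact (ha2 (Sum.inl ⟨l, hl⟩)).trans hpM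
      · rw [finsetSum_coeff, Finset.sum_eq_zero, norm_zero]
        · exact hεM
        intro s _
        rw [coeff_C_mul, coeff_eq_zero_of_degree_lt, mul_zero]
        refine (degree_modByMonic_lt _ hm).trans_le ?_
        rw [degree_eq_natDegree hm.ne_zero, hdeg]
        exact_mod_cast not_lt.1 hl
    · rw [norm_mul, norm_pow]
      exact (mul_le_of_le_one_right (by positivity)
        (aux1_eval _ h3 zero_le_one fun l => PadicInt.norm_le_one _)).trans
          (pow_le_pow_left₀ (norm_nonneg _) h4 M)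
  · have hu : 1 ≤ ‖u‖ := h3.trans (mul_le_of_le_one_left (norm_nonneg _) h2)
    rw [max_eq_right hu, hev]
    have hd : (∑ s, C (a s : ℤ_[p]) * B s).natDegree < n + 1 :=
      Nat.lt_succ_of_le (natDegree_sum_le_of_forall_le _ _ fun s _ =>
        (natDegree_C_mul_le _ _).trans (hB s))
    rw [eval₂_eq_sum_range' _ hd]
    refine IsUltrametricDist.norm_sum_le_of_forall_le_of_nonneg (by positivity) fun i hi => ?_
    have hi' : i ≤ n := Nat.lt_succ_iff.1 (Finset.mem_range.1 hi)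
    rw [norm_mul, norm_pow, zo_apply, norm_algebraMap', ← PadicInt.norm_def]
    by_cases hl : n - i < M
    · refine mul_le_mul ?_ (pow_le_pow_right₀ hu hi') (by positivity) hεM
      have := (ha2 (Sum.inr ⟨n - i, hl⟩)).trans hpM
      rw [hco]
      simpa [Nat.sub_sub_self hi'] using this
    · refine (mul_le_of_le_one_left (by positivity) (PadicInt.norm_le_one _)).trans ?_
      obtain ⟨k, rfl⟩ : ∃ k, n = M + i + k := ⟨n - (M + i), by omega⟩
      have t1 : 1 ≤ (ε * ‖u‖) ^ M := one_le_pow₀ h3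
      have t2 : 1 ≤ ‖u‖ ^ k := one_le_pow₀ hu
      calc ‖u‖ ^ i ≤ (ε * ‖u‖) ^ M * ‖u‖ ^ k * ‖u‖ ^ i :=
            le_mul_of_one_le_left (by positivity) (one_le_mul_of_one_le_of_one_le t1 t2)
        _ = _ := by rw [mul_pow]; ring

end Pool.Agent.P.MP_8d2e9f_nt.AO
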