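import Pool.Agent.P.MP_8d2e9f_nt.AO.IfaceC
import Pool.Agent.P.MP_8d2e9f_nt.AO.TAUX2

/-! Step SIEG2. -/

set_option autoImplicit false

namespace Pool.Agent.P.MP_8d2e9f_nt.AO

open Polynomial NumberField Pool.Agent.P.MP_8d2e9f_nt.G
open scoped IntermediateField Classical

lemma sieg2_small {p : ℕ} [Fact p.Prime] {J : Type} [Fintype J] (g : J → ℤ_[p][X]) (a : J → ℤ)
    {N : ℕ} (hN : ∀ s, (g s).natDegree < N) {ε : ℝ} (hε : 0 ≤ ε)
    (h : ∀ l < N, ‖∑ s, (a s : ℚ_[p]) * zq p ((g s).coeff l)‖ ≤ ε) {u : Om p} (hu : ‖u‖ ≤ 1) :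
    ‖∑ s, (a s : Om p) * (g s).eval₂ (zo p) u‖ ≤ ε := by
  have e : ∑ s, (a s : Om p) * (g s).eval₂ (zo p) u =
      ∑ l ∈ Finset.range N,
        algebraMap ℚ_[p] (Om p) (∑ s, (a s : ℚ_[p]) * zq p ((g s).coeff l)) * u ^ l := by
    simp only [map_sum, Finset.sum_mul]
    rw [Finset.sum_comm]
    refine Finset.sum_congr rfl fun s _ => ?_
    rw [eval₂_eq_sum_range' (zo p) (hN s), Finset.mul_sum]
    refine Finset.sum_congr rfl fun l _ => ?_
    rw [map_mul, map_intCast, mul_assoc]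
    rfl
  rw [e]
  refine IsUltrametricDist.norm_sum_le_of_forall_le_of_nonneg hε fun l hl => ?_
  rw [norm_mul, norm_algebraMap', norm_pow]
  exact (mul_le_of_le_one_right (norm_nonneg _) (pow_le_one₀ (norm_nonneg _) hu)).trans
    (h l (Finset.mem_range.mp hl))

lemma sieg2_chart {p : ℕ} [Fact p.Prime] {J : Type} [Fintype J] {n M q : ℕ} (B : J → ℤ_[p][X])
    (hB : ∀ s, (B s).natDegree ≤ n) (a : J × J → ℤ)
    (ha : ∀ κ < M, ∀ l < (q + 1) * (n + 1), ‖∑ s, (a s : ℚ_[p]) *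
      zq p ((B s.1 * (hasseDeriv κ (B s.2)).comp (X ^ q)).coeff l)‖ ≤ (p : ℝ)⁻¹ ^ M)
    {δ : ℝ} {u v : Om p} (h1 : (p : ℝ)⁻¹ ≤ δ) (h2 : δ ≤ 1) (hu : ‖u‖ ≤ 1)
    (hv : ‖v - u ^ q‖ ≤ δ) :
    ‖∑ s, (a s : Om p) * ((B s.1).eval₂ (zo p) u * (B s.2).eval₂ (zo p) v)‖ ≤ δ ^ M := by
  have hpi : (0 : ℝ) ≤ (p : ℝ)⁻¹ := by positivity
  have e0 : 0 ≤ δ := hpi.trans h1
  let g : ℕ → J × J → ℤ_[p][X] := fun κ s => B s.1 * (hasseDeriv κ (B s.2)).comp (X ^ q)
  have hg2 : ∀ κ s, (g κ s).natDegree < (q + 1) * (n + 1) := fun κ s => by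
    have h1 : (g κ s).natDegree ≤ (B s.1).natDegree + (hasseDeriv κ (B s.2)).natDegree * q :=
      natDegree_mul_le.trans (Nat.add_le_add_left (natDegree_comp_le.trans (by
        rw [natDegree_X_pow])) _)
    have h2 : (hasseDeriv κ (B s.2)).natDegree ≤ n :=
      (natDegree_hasseDeriv_le _ _).trans ((Nat.sub_le _ _).trans (hB _))
    have h3 := Nat.mul_le_mul_right q h2
    have h4 := hB s.1
    nlinarith
  have e : ∑ s, (a s : Om p) * ((B s.1).eval₂ (zo p) u * (B s.2).eval₂ (zo p) v) =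
      ∑ κ ∈ Finset.range (n + 1),
        (∑ s, (a s : Om p) * (g κ s).eval₂ (zo p) u) * (v - u ^ q) ^ κ := by
    simp only [Finset.sum_mul]
    rw [Finset.sum_comm]
    refine Finset.sum_congr rfl fun s _ => ?_
    rw [← eval_map (p := B s.2), aux2_taylor ((B s.2).map (zo p)) (n := n + 1)
      (natDegree_map_le.trans_lt (Nat.lt_succ_of_le (hB _))) (u ^ q) v,
      Finset.mul_sum, Finset.mul_sum]
    refine Finset.sum_congr rfl fun κ _ => ?_
    simp only [g, ← eval_map, Polynomial.map_mul, map_comp, eval_mul, eval_comp, aux2_hasse,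
      Polynomial.map_pow, map_X, eval_pow, eval_X]
    ring
  rw [e]
  refine IsUltrametricDist.norm_sum_le_of_forall_le_of_nonneg (pow_nonneg e0 M) fun κ _ => ?_
  rw [norm_mul, norm_pow]
  have hpw : ‖v - u ^ q‖ ^ κ ≤ δ ^ κ := pow_le_pow_left₀ (norm_nonneg _) hv κ
  by_cases hκ : κ < M
  · have h3 := sieg2_small (g κ) a (hg2 κ) (pow_nonneg hpi M) (ha κ hκ) hu
    exact (mul_le_of_le_one_right (norm_nonneg _) (hpw.trans (pow_le_one₀ e0 h2))).trans
      (h3.trans (pow_le_pow_left₀ hpi h1 M))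
  · have h3 := sieg2_small (g κ) a (hg2 κ) zero_le_one (fun l _ =>
      IsUltrametricDist.norm_sum_le_of_forall_le_of_nonneg zero_le_one fun s _ => by
        rw [norm_mul]
        exact mul_le_one₀ (Padic.norm_int_le_one _) (norm_nonneg _) ((g κ s).coeff l).2) hu
    exact (mul_le_of_le_one_left (by positivity) h3).trans
      (hpw.trans (pow_le_pow_of_le_one e0 h2 (not_lt.mp hκ)))

theorem p_SIEG2 (hPH : S_PH) :
    S_SIEG2 := by
  intro p _ J _ n M q B hB hJ hM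
  let B' : Bool → J → ℤ_[p][X] := fun b s => if b then B s else reflect n (B s)
  have hB' : ∀ b s, (B' b s).natDegree ≤ n := by
    rintro (_ | _) s
    · exact natDegree_reflect_le.trans (max_le le_rfl (hB s))
    · exact hB s
  obtain ⟨a, ha0, ha1, ha2⟩ := hPH p (Bool × Fin M × Fin ((q + 1) * (n + 1))) (J × J)
    (fun s i => zq p ((B' i.1 s.1 * (hasseDeriv i.2.1 (B' i.1 s.2)).comp (X ^ q)).coeff i.2.2)) M
    (fun s i => PadicInt.norm_le_one _) (by rw [Fintype.card_prod, hJ]; positivity) (by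
      simp only [Fintype.card_prod, Fintype.card_fin, Fintype.card_bool, hJ]
      calc M * (2 * (M * ((q + 1) * (n + 1)))) = M * (M * (2 * (q + 1))) * (n + 1) := by ring
        _ ≤ (n + 1) * (n + 1) := Nat.mul_le_mul_right _ hM)
  refine ⟨a, ha0, ha1, fun δ u v h1 h2 hc => ?_⟩
  obtain ⟨hc1, hc2⟩ := hc
  have key := fun (b : Bool) {u v : Om p} => sieg2_chart (q := q) (B' b) (hB' b) a
    (fun κ hκ l hl => ha2 (b, ⟨κ, hκ⟩, ⟨l, hl⟩)) (u := u) (v := v) h1 h2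
  rw [hc2] at hc1 ⊢
  rcases le_or_gt ‖u‖ 1 with hu | hu
  · rw [max_eq_left hu] at hc1 ⊢
    simp only [one_pow, mul_one] at hc1 ⊢
    exact key true hu hc1
  · rw [max_eq_right hu.le] at hc1 ⊢
    have hu1 : 0 < ‖u‖ := zero_lt_one.trans hu
    have hu0 : u ≠ 0 := norm_pos_iff.1 hu1
    have hv0 : v ≠ 0 := norm_pos_iff.1 (hc2 ▸ hu1)
    have h3 : ‖u⁻¹‖ ≤ 1 := by
      rw [norm_inv]
      exact inv_le_one_of_one_le₀ hu.le
    have h4 : ‖v⁻¹ - u⁻¹ ^ q‖ ≤ δ := by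
      have e : v⁻¹ - u⁻¹ ^ q = -(v - u ^ q) / (u ^ q * v) := by
        rw [inv_pow]
        field_simp
        ring
      rw [e, norm_div, norm_neg, norm_mul, norm_pow, hc2, div_le_iff₀ (by positivity),
        ← mul_assoc]
      exact hc1
    have h5 : ∀ (x : Om p), x ≠ 0 → ∀ s,
        (B s).eval₂ (zo p) x = (B' false s).eval₂ (zo p) x⁻¹ * x ^ n := fun x hx s => by
      let _ := invertibleOfNonzero hx
      rw [← eval₂_reflect_mul_pow (zo p) x n (B s) (hB s), invOf_eq_inv]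
      rfl
    have e : ∑ s : J × J, (a s : Om p) * ((B s.1).eval₂ (zo p) u * (B s.2).eval₂ (zo p) v) =
        (∑ s : J × J, (a s : Om p) * ((B' false s.1).eval₂ (zo p) u⁻¹ *
          (B' false s.2).eval₂ (zo p) v⁻¹)) * u ^ n * v ^ n := by
      simp only [Finset.sum_mul]
      refine Finset.sum_congr rfl fun s _ => ?_
      rw [h5 u hu0, h5 v hv0]
      ring
    rw [e, norm_mul, norm_mul, norm_pow, norm_pow, hc2]
    have h6 := key false h3 h4
    gcongr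

end Pool.Agent.P.MP_8d2e9f_nt.AO
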