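import Pool.Agent.P.MP_8d2e9f_nt.AO.IfaceC

/-! Step TAMA. -/

set_option autoImplicit false

namespace Pool.Agent.P.MP_8d2e9f_nt.AO

open Polynomial NumberField Pool.Agent.P.MP_8d2e9f_nt.G
open scoped IntermediateField Classical

theorem tama_sum (z : Qbar) (g : ℤ[X]) :
    aeval z g = ∑ i ∈ Finset.range (g.natDegree + 1), (g.coeff i : Qbar) * z ^ i := by
  rw [aeval_eq_sum_range]
  simp only [zsmul_eq_mul]

theorem tama_mem (K : IF) (z : Qbar) (g : ℤ[X]) : aeval z g ∈ K⟮z⟯ := by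
  rw [tama_sum]
  exact sum_mem fun i _ => mul_mem (intCast_mem _ _)
    (pow_mem (IntermediateField.mem_adjoin_simple_self K z) _)

theorem tama_norm {p : ℕ} [Fact p.Prime] (j : Qbar →+* Om p) (z : Qbar) (g : ℤ[X]) :
    ‖j (aeval z g)‖ ≤ max 1 ‖j z‖ ^ g.natDegree := by
  rw [tama_sum, map_sum]
  have h1 : (1 : ℝ) ≤ max 1 ‖j z‖ := le_max_left _ _
  refine IsUltrametricDist.norm_sum_le_of_forall_le_of_nonneg (by positivity) fun i hi => ?_
  rw [map_mul, map_pow, map_intCast, norm_mul, norm_pow]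
  have hi' : i ≤ g.natDegree := Nat.lt_succ_iff.1 (Finset.mem_range.1 hi)
  calc ‖((g.coeff i : ℤ) : Om p)‖ * ‖j z‖ ^ i ≤ 1 * max 1 ‖j z‖ ^ i :=
        mul_le_mul (IsUltrametricDist.norm_intCast_le_one _ _)
          (pow_le_pow_left₀ (norm_nonneg _) (le_max_right _ _) _) (by positivity) zero_le_one
    _ ≤ max 1 ‖j z‖ ^ g.natDegree := by
        rw [one_mul]
        exact pow_le_pow_right₀ h1 hi'

theorem tama_small {K : IF} {p : ℕ} [Fact p.Prime] {j : Qbar →+* Om p} {δ : ℝ} {τ : GK K}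
    {z x : Qbar} (hA : Acts K j p δ τ z) (hx : x ∈ K⟮z⟯) (h1 : ‖j x‖ < 1) : ‖j x‖ ≤ δ := by
  have h2 := hA.2 x hx h1.le
  have h3 := hA.1 x
  rcases (norm_nonneg (j x)).eq_or_lt with h0 | h0
  · rw [← h0]
    exact (norm_nonneg _).trans h2
  · have h4 : ‖-(j x ^ p)‖ < ‖j (τ x)‖ := by
      rw [norm_neg, norm_pow, h3]
      exact pow_lt_self_of_lt_one₀ h0 h1 (Fact.out : p.Prime).one_lt
    rw [sub_eq_add_neg, IsUltrametricDist.norm_add_eq_max_of_norm_ne_norm h4.ne',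
      max_eq_left h4.le, h3] at h2
    exact h2

theorem tama_ev {p : ℕ} [Fact p.Prime] (j : Qbar →+* Om p) (z : Qbar) (g : ℤ[X]) :
    (g.map (Int.castRingHom ℤ_[p])).eval₂ (zo p) (j z) = j (aeval z g) := by
  rw [eval₂_map, aeval_def, hom_eval₂]
  congr 1
  exact RingHom.ext_int _ _

theorem p_TAMA (hABG : S_ABG) (hACT : S_ACT) (hCANR : S_CANR) (hGAPGR : S_GAPGR) :
    S_TAMA := by
  intro K d a b h p _ φ j a₀ b₀ δ τ g Q hS hδ hg hL hQ
  by_contra hno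
  have key := hGAPGR K d a b h p φ j a₀ b₀ {z | 0 < h z ∧ Ab K z ∧ Acts K j p δ τ z} δ
    (g.map (Int.castRingHom ℤ_[p])) (g.natDegree + 1) hS ?_ (fun z hz => hz.1) hδ ?_ ?_
  · obtain ⟨ε, hε, hfin⟩ := key
    exact hL ε hε (hfin.subset fun x hx => ⟨hx.1, hx.2, not_false⟩)
  · rintro σ z ⟨h0, hab, hac⟩
    obtain ⟨-, h2, h3⟩ := (hABG K).1 z hab
    refine ⟨?_, h2 _ (h3 σ), ((hACT K p j p δ τ z hab hac).1 _ (h3 σ)).1⟩
    rw [((hCANR K d a b hS.nrm).1 h hS.can).2.1 σ z]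
    exact h0
  · rw [Polynomial.map_map, RingHom.ext_int ((zr p).comp (Int.castRingHom ℤ_[p]))
      (Int.castRingHom (ZMod p))]
    exact hg
  · obtain ⟨ε, hε, hfin⟩ := hQ
    refine ⟨ε, hε, hfin.subset ?_⟩
    rintro z ⟨hz, hzε, hn⟩
    refine ⟨hz, hzε, fun hq => hn ?_⟩
    beta_reduce
    rw [tama_ev]
    have hb := tama_norm j z g
    rcases le_or_gt ‖j z‖ 1 with h1 | h1
    · rw [max_eq_left h1, one_pow] at hb
      rw [max_eq_left h1, one_pow, mul_one]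
      refine tama_small hz.2.2 (tama_mem K z g) (lt_of_le_of_ne hb fun h2 => ?_)
      exact hno ⟨z, hz, hq, h1, h2⟩
    · rw [max_eq_right h1.le] at hb ⊢
      have hp : 0 < ‖j z‖ := zero_lt_one.trans h1
      have h2 : ‖j z‖⁻¹ ≤ δ := by
        have := tama_small hz.2.2 (inv_mem (IntermediateField.mem_adjoin_simple_self K z))
          (by rw [map_inv₀, norm_inv]; exact inv_lt_one_of_one_lt₀ h1)
        rwa [map_inv₀, norm_inv] at this
      calc ‖j (aeval z g)‖ ≤ ‖j z‖ ^ g.natDegree := hb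
        _ = ‖j z‖⁻¹ * ‖j z‖ ^ (g.natDegree + 1) := by
            rw [pow_succ', ← mul_assoc, inv_mul_cancel₀ hp.ne', one_mul]
        _ ≤ δ * ‖j z‖ ^ (g.natDegree + 1) := mul_le_mul_of_nonneg_right h2 (by positivity)

end Pool.Agent.P.MP_8d2e9f_nt.AO
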