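import Pool.Agent.P.MP_8d2e9f_nt.AO.IfaceC

/-! Step TAMB. -/

set_option autoImplicit false

namespace Pool.Agent.P.MP_8d2e9f_nt.AO

open Polynomial NumberField Pool.Agent.P.MP_8d2e9f_nt.G
open scoped IntermediateField Classical

theorem tamb_lip {F : Type} [NormedField F] [IsUltrametricDist F] (B : ℤ[X][X]) {u v v' : F}
    (hu : ‖u‖ ≤ 1) (hv : ‖v‖ ≤ 1) (hv' : ‖v'‖ ≤ 1) :
    ‖ev2 (Int.castRingHom F) u v B - ev2 (Int.castRingHom F) u v' B‖ ≤ ‖v - v'‖ := by
  let O := (NormedField.valuation (K := F)).integer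
  have m : ∀ x : F, x ∈ O ↔ ‖x‖ ≤ 1 := fun x => Iff.rfl
  obtain ⟨q, hq⟩ := sub_dvd_eval_sub (⟨v, (m v).2 hv⟩ : O) ⟨v', (m v').2 hv'⟩
    (B.map (eval₂RingHom (Int.castRingHom O) ⟨u, (m u).2 hu⟩))
  have e : ∀ y : O, ((B.map (eval₂RingHom (Int.castRingHom O) ⟨u, (m u).2 hu⟩)).eval y).1 =
      ev2 (Int.castRingHom F) u y B := fun y => by
    have := hom_ev2 (Int.castRingHom O) O.subtype ⟨u, (m u).2 hu⟩ y B
    rw [RingHom.eq_intCast' (O.subtype.comp _)] at this
    rw [eval_map]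
    exact this
  have h1 := congrArg Subtype.val hq
  rw [AddSubgroupClass.coe_sub, e, e, MulMemClass.coe_mul, AddSubgroupClass.coe_sub] at h1
  rw [h1, norm_mul]
  exact mul_le_of_le_one_right (norm_nonneg _) ((m _).1 q.2)

theorem tamb_eval {S : Type} [CommRing S] [Algebra ℤ S] (B : ℤ[X][X]) (g : ℤ[X]) (u : S) :
    aeval u (B.eval g) = ev2 (Int.castRingHom S) u (aeval u g) B := by
  have := hom_eval₂ B (RingHom.id _) (eval₂RingHom (Int.castRingHom S) u) g
  rw [RingHom.comp_id] at this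
  rw [aeval_def, aeval_def, RingHom.eq_intCast' (algebraMap ℤ S)]
  exact this

theorem tamb_per {K : IF} (τ : GK K) (z : Qbar) : ∃ m, 0 < m ∧ (τ ^ m) z = z := by
  have hi : IsIntegral K z := (int_Q z).tower_top
  obtain ⟨s, t, hst, e⟩ := ((minpoly K z).rootSet_finite Qbar).exists_lt_map_eq_of_forall_mem
    (f := fun i : ℕ => (τ ^ i) z) fun i => mem_rootSet.2 ⟨minpoly.ne_zero hi, by
      rw [aeval_algHom_apply, minpoly.aeval, map_zero]⟩
  obtain ⟨m, rfl⟩ := Nat.exists_eq_add_of_lt hst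
  refine ⟨m + 1, m.succ_pos, (τ ^ s).injective ?_⟩
  rw [← AlgEquiv.mul_apply, ← pow_add, ← add_assoc]
  exact e.symm

theorem p_TAMB (hABG : S_ABG) (hCANR : S_CANR) (hDEF : S_DEF) (hLIFTD : S_LIFTD) (hKRULL : S_KRULL) :
    S_TAMB := by
  intro K d a b r h p _ φ j δ τ A U V A₂ c N B z hN hC hL hδ hI hUV hA₂ hfac h0 hab hac hA hr hz hg
  obtain ⟨-, hgal, hit⟩ := (hCANR K d a b hN).1 h hC
  obtain ⟨m, m0, hm⟩ := tamb_per τ z
  have gal : ∀ (σ : GK K) (n : ℕ) (x : Qbar), (rm a b)^[n] (σ x) = σ ((rm a b)^[n] x) :=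
    fun σ n x => (Function.Semiconj.iterate_right (f := σ) (rm_gal a b σ) n x).symm
  have ne : ∀ (σ : GK K) (x : Qbar) (g : K[X]), aeval x g ≠ 0 → aeval (σ x) g ≠ 0 :=
    fun σ x g hx => by
      rw [aeval_algHom_apply]
      exact (map_ne_zero σ).2 hx
  have inj : Function.Injective fun n => (rm a b)^[n] z := fun s t e => by
    have e1 := congrArg h e
    simp only [(hit z h0 _).2] at e1
    have d2 : (1 : ℝ) < d := by exact_mod_cast hN.1
    exact pow_right_injective₀ (by linarith) d2.ne' (mul_right_cancel₀ h0.ne' e1)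
  have r0 : r ≠ 0 := fun e => hr (by rw [e, map_zero])
  obtain ⟨n0, hn0⟩ := ((r.rootSet_finite Qbar).preimage inj.injOn).bddAbove
  have hrn : ∀ n, aeval ((rm a b)^[n + (n0 + 1)] z) r ≠ 0 := fun n e => by
    have : n + (n0 + 1) ≤ n0 := hn0 (mem_rootSet.2 ⟨r0, e⟩)
    omega
  have succ : ∀ i, (τ ^ (i + 1)) z = (τ ^ i) (τ z) := fun i => by rw [pow_succ, AlgEquiv.mul_apply]
  have succ' : ∀ i, (τ ^ (i + 1)) z = τ ((τ ^ i) z) := fun i => by
    rw [pow_succ', AlgEquiv.mul_apply]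
  have per : ∀ i, (τ ^ (i + m)) z = (τ ^ i) z := fun i => by rw [pow_add, AlgEquiv.mul_apply, hm]
  have hb : ∀ i l : ℕ, aeval ((rm a b)^[l] ((τ ^ i) z)) b ≠ 0 := fun i l => by
    rw [gal]
    exact ne _ _ _ (hit z h0 l).1
  have cur : ∀ n i : ℕ, ev2 (algebraMap K Qbar) ((rm a b)^[n] ((τ ^ i) z))
      ((rm a b)^[n] ((τ ^ (i + 1)) z)) A = 0 := fun n i => by
    induction n with
    | zero =>
      have e := hom_ev2 (algebraMap K Qbar) ((τ ^ i : GK K) : Qbar →+* Qbar) z (τ z) A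
      rw [← ev2_aeval, hA, map_zero, show ((τ ^ i : GK K) : Qbar →+* Qbar).comp
        (algebraMap K Qbar) = algebraMap K Qbar from RingHom.ext (τ ^ i).commutes] at e
      rw [succ]
      exact e.symm
    | succ n ih =>
      rw [Function.iterate_succ_apply', Function.iterate_succ_apply']
      exact hI Qbar _ _ _ (hb i n) (hb (i + 1) n) ih
  have erv : rv (RingHom.id Qbar) (a.map (algebraMap K Qbar)) (b.map (algebraMap K Qbar)) =
      rm a b := rv_map _ _ _ _
  have eev : ∀ (u v : Qbar) (G : K[X][X]), ev2 (RingHom.id Qbar) u v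
      (G.map (mapRingHom (algebraMap K Qbar))) = ev2 (algebraMap K Qbar) u v G :=
    fun u v G => ev2_map _ _ _ _ _
  obtain ⟨n, hn⟩ := hDEF (A.map (mapRingHom (algebraMap K Qbar))) m
    (fun n i => (rm a b)^[n + (n0 + 1)] ((τ ^ i) z)) m0 (fun n i => by rw [per])
    (fun n i => by rw [eev]; exact cur _ i) (fun s t e => by
      simp only [pow_zero, AlgEquiv.one_apply] at e
      exact Nat.add_right_cancel (inj e))
  have hD := hLIFTD d (a.map (algebraMap K Qbar)) (b.map (algebraMap K Qbar))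
    (r.map (algebraMap K Qbar)) (A.map (mapRingHom (algebraMap K Qbar)))
    (U.map (mapRingHom (algebraMap K Qbar))) (V.map (mapRingHom (algebraMap K Qbar)))
    (fun i => (τ ^ i) z) m (n + (n0 + 1)) (hN.map (algebraMap K Qbar).injective) (hI.map _)
    (by
      rw [derivative_map, ← Polynomial.map_mul, ← Polynomial.map_mul, ← Polynomial.map_add, hUV,
        map_C, coe_mapRingHom]) m0 per (fun i => by rw [eev]; exact cur 0 i)
    (fun i l => by rw [erv, eval_map_algebraMap]; exact hb i l)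
    (fun i => by rw [eval_map_algebraMap]; exact ne _ _ _ hr)
    (fun i => by rw [erv, eval_map_algebraMap, gal]; exact ne _ _ _ (hrn n)) (by rwa [erv])
  have iso : ∀ (i : ℕ) (x : Qbar), ‖j ((τ ^ i) x)‖ = ‖j x‖ := fun i x => by
    induction i with
    | zero => rw [pow_zero, AlgEquiv.one_apply]
    | succ i ih => rw [pow_succ', AlgEquiv.mul_apply, hac.1, ih]
  refine hKRULL p j (B.map (mapRingHom (Int.castRingHom Qbar)))
    (A₂.map (mapRingHom (algebraMap K Qbar))) N (fun i => (τ ^ i) z) (fun i l => ?_)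
    (fun i l => ?_) (fun i => (iso i z).trans_le hz) (fun i => ?_) ?_
  · rw [coeff_map, coe_mapRingHom, coeff_map, eq_intCast, map_intCast]
    exact IsUltrametricDist.norm_intCast_le_one _ _
  · rw [coeff_map, coe_mapRingHom, coeff_map]
    exact ((congrArg norm (hL _)).trans (norm_algebraMap' _ _)).trans_le (hA₂ i l)
  · have w1 : ∀ i, ‖j ((τ ^ i) z)‖ ≤ 1 := fun i => (iso i z).trans_le hz
    have k1 : ‖j (aeval ((τ ^ i) z) (B.eval (X ^ p)))‖ = 1 := by
      rw [← hg, ← iso i (aeval z _)]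
      exact congrArg (fun x => ‖j x‖) (aeval_algHom_apply
        ((τ ^ i : GK K) : Qbar →+* Qbar).toIntAlgHom z _)
    rw [tamb_eval, hom_ev2, RingHom.eq_intCast' (j.comp _), map_pow, aeval_X, map_pow] at k1
    have k2 := (tamb_lip B (w1 i) (w1 (i + 1))
      (v' := j ((τ ^ i) z) ^ p) (by rw [norm_pow]; exact pow_le_one₀ (norm_nonneg _) (w1 i))).trans
      (succ' i ▸ hac.2 _ (((hABG K).1 z hab).2.2 _) (w1 i))
    rw [ev2_map, hom_ev2, RingHom.eq_intCast' (j.comp _), ← k1, ← norm_neg (ev2 _ _ (_ ^ p) _)]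
    refine IsUltrametricDist.norm_eq_of_add_norm_lt_max (lt_max_of_lt_right ?_)
    rw [norm_neg, k1, ← sub_eq_add_neg]
    exact k2.trans_lt hδ
  · obtain ⟨Ω, _, _, ι, O, u, M, k1, k2, k3, k4, k5, k6⟩ := hD
    refine ⟨Ω, _, ‹_›, ι, O, u, M, k1, k2, k3, k4, fun i => ?_, k6⟩
    have e := congrArg (Polynomial.map (mapRingHom (algebraMap K Qbar))) hfac
    simp only [Polynomial.map_mul, Polynomial.map_add, Polynomial.map_pow, Polynomial.map_sub,
      map_X, map_C, coe_mapRingHom, Polynomial.map_map, mapRingHom_comp, map_natCast,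
      Polynomial.map_natCast] at e
    rw [RingHom.eq_intCast' ((algebraMap K Qbar).comp _)] at e
    simp only [map_natCast]
    rw [← e, ev2_mul, k5, mul_zero]

end Pool.Agent.P.MP_8d2e9f_nt.AO
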