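import Pool.Agent.P.MP_8d2e9f_nt.AO.IfaceC

/-! Step TAME. -/

set_option autoImplicit false

namespace Pool.Agent.P.MP_8d2e9f_nt.AO

open Polynomial NumberField Pool.Agent.P.MP_8d2e9f_nt.G
open scoped IntermediateField Classical

theorem tame_mem {K : IF} (f : K[X]) (z : Qbar) : aeval z f ∈ K⟮z⟯ :=
  IntermediateField.algebra_adjoin_le_adjoin K {z} (aeval_mem_adjoin_singleton K z)

theorem p_TAME (hABG : S_ABG) (hACT : S_ACT) (hCANR : S_CANR) (hAUXBR : S_AUXBR) (hCURVR : S_CURVR) (hFACT : S_FACT) (hTAMA : S_TAMA) (hTAMB : S_TAMB) :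
    S_TAME := by
  intro K d a b h p _ φ j a₀ b₀ δ τ hSt hδ hLots
  obtain ⟨-, hgl, hpos⟩ := (hCANR K d a b hSt.nrm).1 h hSt.can
  set P : Set (Qbar × Qbar) :=
    {x | (0 < h x.1 ∧ Ab K x.1 ∧ Acts K j p δ τ x.1) ∧ x.2 = τ x.1} with hP
  have hin : ∀ z, Ab K z ∧ Acts K j p δ τ z → ∀ x ∈ K⟮z⟯, Ab K x ∧ Acts K j p δ τ x :=
    fun z hz x hx => ⟨((hABG K).1 z hz.1).2.1 x hx, ((hACT K p j p δ τ z hz.1 hz.2).1 x hx).1⟩
  have hfib : Fib P := by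
    refine ⟨fun z => (Set.finite_singleton (τ z)).subset fun w hw => hw.2,
      fun w => (Set.finite_singleton (τ.symm w)).subset fun z hz => ?_⟩
    have h : w = τ z := hz.2
    rw [Set.mem_singleton_iff, h, AlgEquiv.symm_apply_apply]
  have hgal : ∀ σ : GK K, ∀ x ∈ P, (σ x.1, σ x.2) ∈ P := by
    intro σ x hx
    refine ⟨⟨(hgl σ x.1).symm ▸ hx.1.1, hin _ hx.1.2 _ (((hABG K).1 _ hx.1.2.1).2.2 σ)⟩, ?_⟩
    change σ x.2 = τ (σ x.1)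
    rw [hx.2]
    exact hx.1.2.1 σ τ
  have hh : ∀ x ∈ P, 0 < h x.1 ∧ h x.2 = h x.1 := by
    intro x hx
    rw [hx.2]
    exact ⟨hx.1.1, hgl τ x.1⟩
  have hcl : ∀ x ∈ P, Cl p δ (j x.1) (j x.2) := by
    intro x hx
    rw [hx.2]
    exact ((hACT K p j p δ τ _ hx.1.2.1 hx.1.2.2).1 _
      (IntermediateField.mem_adjoin_simple_self K x.1)).2
  have hlots : Lots (fun x : Qbar × Qbar => h x.1) P := by
    intro ε hε
    refine Set.Infinite.of_image Prod.fst ((hLots ε hε).mono fun z hz => ?_)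
    exact ⟨(z, τ z), ⟨⟨hz.1, rfl⟩, hz.2⟩, rfl⟩
  have hfw : AA (fun x : Qbar × Qbar => h x.1) P
      (fun x => (rm a b x.1, rm a b x.2) ∈ P) := by
    refine ⟨1, one_pos, Set.finite_empty.subset fun x hx => hx.2.2 ?_⟩
    refine ⟨⟨?_, hin _ hx.1.1.2 _ (div_mem (tame_mem a x.1) (tame_mem b x.1))⟩, ?_⟩
    · have h1 := (hpos x.1 hx.1.1.1 1).2
      have h2 : (0 : ℝ) < d := by exact_mod_cast lt_of_lt_of_le two_pos hSt.nrm.1
      rw [Function.iterate_one] at h1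
      change 0 < h (rm a b x.1)
      rw [h1]
      exact mul_pos (pow_pos h2 1) hx.1.1.1
    · change rm a b x.2 = τ (rm a b x.1)
      rw [hx.1.2, rm_gal]
  obtain ⟨A₁, ε, hA₁, hε, hz₁⟩ := hAUXBR K d a b h p φ j a₀ b₀ δ p P hSt hδ hgal hh hcl
  have hAA₁ : AA (fun x : Qbar × Qbar => h x.1) P (fun x => aevalAeval x.1 x.2 A₁ = 0) :=
    ⟨ε, hε, Set.finite_empty.subset fun x hx => hx.2.2 (hz₁ x hx.1 hx.2.1)⟩
  obtain ⟨A, hA0, ⟨η, hη, hfin⟩, hinv, ⟨U, V, r, hr, hU⟩, -⟩ :=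
    hCURVR K d a b h P A₁ hSt.nrm hSt.can hh hlots hfib hfw hA₁ hAA₁
  obtain ⟨c, N, B, A₂, h1, h2, h3⟩ := hFACT K p φ A hA0
  obtain ⟨z, hz, hQ, h4, h5⟩ := hTAMA K d a b h p φ j a₀ b₀ δ τ (B.eval (X ^ p))
    (fun z => aevalAeval z (τ z) A = 0 ∧ aeval z r ≠ 0) hSt hδ h2 hLots ⟨η, hη,
      ((hfin.image Prod.fst).union (r.rootSet_finite Qbar)).subset fun z hz => by
        by_cases e : aeval z r = 0
        · exact Or.inr (mem_rootSet.2 ⟨hr, e⟩)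
        · exact Or.inl ⟨(z, τ z), ⟨⟨hz.1, rfl⟩, hz.2.1, fun h6 => hz.2.2 ⟨h6, e⟩⟩, rfl⟩⟩
  exact hTAMB K d a b r h p φ j δ τ A U V A₂ c N B z hSt.nrm hSt.can hSt.loc hδ hinv hU h1 h3
    hz.1 hz.2.1 hz.2.2 hQ.1 hQ.2 h4 h5

end Pool.Agent.P.MP_8d2e9f_nt.AO
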