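import Pool.Agent.P.MP_8d2e9f_nt.AO.IfaceC
import Pool.Agent.P.MP_8d2e9f_nt.G.All

/-! Step TRANS. -/

set_option autoImplicit false

namespace Pool.Agent.P.MP_8d2e9f_nt.AO

open Polynomial NumberField Pool.Agent.P.MP_8d2e9f_nt.G
open scoped IntermediateField Classical

theorem p_TRANS (hCANH : S_CANH) :
    S_TRANS := by
  refine ⟨?_, fun L d φ hd hφ => ⟨?_, ?_⟩⟩
  · rintro φ ψ χ ⟨e, θ, he, hθ, h⟩ ⟨e', θ', he', hθ', h'⟩
    exact ⟨e' * e, θ' ∘ θ, Nat.mul_pos he' he, (all_COMP ⊤ e' θ' hθ').1 e θ hθ, fun x => by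
      rw [Function.comp_apply, Function.comp_apply, h, h']⟩
  · rintro ψ hψ ⟨e, θ, he, hθ, h⟩ hG H hH K hK
    obtain ⟨H', hH'⟩ := (hCANH d ψ hd hψ).1
    have key := ((hCANH d φ hd hφ).2 H hH).2.2.2 e θ ψ H' he hθ h hH'
    obtain ⟨E, hE, hθE⟩ := all_MOD.2 e θ hθ
    have hKE : Fd (K ⊔ E) := IntermediateField.finiteDimensional_sup _ _
    obtain ⟨c, hc, hc'⟩ := hG H' hH' (K ⊔ E) hKE
    have he' : (0 : ℝ) < e := by exact_mod_cast he
    refine ⟨c / e, div_pos hc he', fun α hα h0 => ?_⟩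
    have h1 : θ α ∈ pts (L ⊔ (K ⊔ E)) :=
      (hθE.mono (le_sup_right.trans le_sup_right)).mem
        (pts_mono (sup_le_sup_left le_sup_left L) hα)
    have h2 := hc' _ h1 (by rw [key]; positivity)
    rw [key] at h2
    rw [div_le_iff₀' he']
    exact h2
  · intro r hG H hH K hK
    exact hG H (((hCANH d φ hd hφ).2 H hH).2.2.1 r) K hK

end Pool.Agent.P.MP_8d2e9f_nt.AO
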