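import Pool.Agent.P.MP_8d2e9f_nt.AO.IfaceC

/-! Step UNIQ. -/

set_option autoImplicit false

namespace Pool.Agent.P.MP_8d2e9f_nt.AO

open Polynomial NumberField Pool.Agent.P.MP_8d2e9f_nt.G
open scoped IntermediateField Classical

section top

variable {k : Type} [Field k]

/-- Degree at most `n` with coefficient `c` in degree `n`. -/
def uniq_T (p : k[X]) (n : ℕ) (c : k) : Prop := p.natDegree ≤ n ∧ p.coeff n = c

variable {p q : k[X]} {n n' : ℕ} {c c' : k}

lemma uniq_self (p : k[X]) : uniq_T p p.natDegree p.leadingCoeff := ⟨le_rfl, rfl⟩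

lemma uniq_cast (h : uniq_T p n c) (e : n = n') (e' : c = c') : uniq_T p n' c' := e ▸ e' ▸ h

lemma uniq_mul (h : uniq_T p n c) (h' : uniq_T q n' c') : uniq_T (p * q) (n + n') (c * c') :=
  ⟨natDegree_mul_le_of_le h.1 h'.1, by rw [coeff_mul_add_eq_of_natDegree_le h.1 h'.1, h.2, h'.2]⟩

lemma uniq_add (h : uniq_T p n c) (h' : uniq_T q n c') : uniq_T (p + q) n (c + c') :=
  ⟨natDegree_add_le_of_degree_le h.1 h'.1, by rw [coeff_add, h.2, h'.2]⟩

lemma uniq_sub (h : uniq_T p n c) (h' : uniq_T q n c') : uniq_T (p - q) n (c - c') :=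
  ⟨(natDegree_sub_le _ _).trans (max_le h.1 h'.1), by rw [coeff_sub, h.2, h'.2]⟩

lemma uniq_C (c : k) : uniq_T (C c) 0 c := ⟨(natDegree_C c).le, coeff_C_zero⟩

lemma uniq_X : uniq_T (X : k[X]) 1 1 := ⟨natDegree_X_le, coeff_X_one⟩

lemma uniq_pow (h : uniq_T p n c) (i : ℕ) : uniq_T (p ^ i) (i * n) (c ^ i) := by
  induction i with
  | zero => simpa using uniq_C (1 : k)
  | succ i ih => exact uniq_cast (pow_succ p i ▸ uniq_mul ih h) (by ring) (by ring)

lemma uniq_low (h : uniq_T p n c) (l : n < n') : uniq_T p n' 0 :=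
  ⟨h.1.trans l.le, coeff_eq_zero_of_natDegree_lt (h.1.trans_lt l)⟩

lemma uniq_zero (n : ℕ) : uniq_T (0 : k[X]) n 0 := ⟨by simp, by simp⟩

lemma uniq_sum (s : Finset ℕ) (f : ℕ → k[X]) (h : ∀ i ∈ s, uniq_T (f i) n 0) :
    uniq_T (∑ i ∈ s, f i) n 0 :=
  ⟨natDegree_sum_le_of_forall_le _ _ fun i hi => (h i hi).1, by
    rw [finsetSum_coeff]; exact Finset.sum_eq_zero fun i hi => (h i hi).2⟩

lemma uniq_deg (h : uniq_T p n c) (hc : c ≠ 0) : p.natDegree = n :=
  le_antisymm h.1 (le_natDegree_of_ne_zero (h.2 ▸ hc))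

lemma uniq_der (h : uniq_T p n c) : uniq_T (X * derivative p) n (n * c) := by
  have hc : ∀ i, (X * derivative p).coeff i = i * p.coeff i := by
    intro i
    cases i with
    | zero => simp
    | succ i => rw [coeff_X_mul, coeff_derivative]; push_cast; ring
  refine ⟨natDegree_le_iff_coeff_eq_zero.2 fun i hi => ?_, by rw [hc, h.2]⟩
  rw [hc, coeff_eq_zero_of_natDegree_lt (h.1.trans_lt hi), mul_zero]

lemma uniq_wr (h : uniq_T p n c) (h' : uniq_T q n' c') :
    uniq_T (X * wr p q) (n + n') (((n : k) - n') * c * c') := by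
  have e : X * wr p q = X * derivative p * q - p * (X * derivative q) := by rw [wr]; ring
  rw [e]
  exact uniq_cast (uniq_sub (uniq_mul (uniq_der h) h') (uniq_mul h (uniq_der h'))) rfl (by ring)

lemma uniq_diff {ν : ℕ} {d : k} (h : uniq_T p n c) (h' : uniq_T q n c)
    (hd : uniq_T (p - q) ν d) (i : ℕ) :
    uniq_T (p ^ (i + 1) - q ^ (i + 1)) (ν + i * n) (d * (i + 1) * c ^ i) := by
  induction i with
  | zero => simpa using hd
  | succ i ih =>
    have e : p ^ (i + 1 + 1) - q ^ (i + 1 + 1) =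
        p * (p ^ (i + 1) - q ^ (i + 1)) + (p - q) * q ^ (i + 1) := by ring
    rw [e]
    exact uniq_cast (uniq_add (uniq_cast (uniq_mul h ih) (by ring) rfl)
      (uniq_mul hd (uniq_pow h' (i + 1)))) rfl (by push_cast; ring)

lemma uniq_homg {a b Q : k[X]} {α β m : ℕ} {la lb : k} (ha : uniq_T a α la) (hb : uniq_T b β lb)
    (l : β < α) (hQ : Q.coeff m = 1) : uniq_T (homg a b m Q) (m * α) (la ^ m) := by
  rw [homg_def, Finset.sum_range_succ, hQ]
  refine uniq_cast (uniq_add (uniq_sum _ _ fun i hi => ?_) (c' := la ^ m) ?_) rfl (zero_add _)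
  · obtain ⟨j, rfl⟩ := Nat.exists_eq_add_of_lt (Finset.mem_range.1 hi)
    refine uniq_low (uniq_mul (uniq_mul (uniq_C _) (uniq_pow ha i)) (uniq_pow hb _)) ?_
    rw [show i + j + 1 - i = j + 1 by omega]
    nlinarith
  · simpa using uniq_pow ha m

lemma uniq_hdiff {A B N Q : k[X]} {K ν m : ℕ} {l lN d : k} (hA : uniq_T A (K + 1) l)
    (hB : uniq_T B (K + 1) l) (hN : uniq_T N K lN) (hd : uniq_T (A - B) ν d)
    (hQ : Q.coeff (m + 1) = 1) :
    uniq_T (homg A N (m + 1) Q - homg B N (m + 1) Q) (ν + m * (K + 1)) (d * (m + 1) * l ^ m) := by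
  rw [homg_def, homg_def, ← Finset.sum_sub_distrib, Finset.sum_range_succ, hQ]
  refine uniq_cast (uniq_add (uniq_sum _ _ fun i hi => ?_) (c' := d * (m + 1) * l ^ m) ?_) rfl
    (zero_add _)
  · cases i with
    | zero => simpa using uniq_zero _
    | succ i =>
      obtain ⟨j, rfl⟩ := Nat.exists_eq_add_of_lt (Nat.lt_of_succ_lt_succ (Finset.mem_range.1 hi))
      rw [← sub_mul, ← mul_sub]
      refine uniq_low (uniq_mul (uniq_mul (uniq_C _) (uniq_diff hA hB hd i)) (uniq_pow hN _)) ?_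
      rw [show i + j + 1 + 1 - (i + 1) = j + 1 by omega]
      nlinarith
  · simpa using uniq_diff hA hB hd m

lemma uniq_smul {m : ℕ} {Q a b : k[X]} (t : k[X]) (h : Ode (m + 1) Q c a b) :
    Ode (m + 1) Q c (t * a) (t * b) := by
  have e1 : wr (t * a) (t * b) = t ^ 2 * wr a b := by
    simp only [wr, derivative_mul]; ring
  have e2 : homg (t * a) (t * b) (m + 1 + 1) Q = t ^ (m + 1 + 1) * homg a b (m + 1 + 1) Q :=
    hv_smul (Q.map C) (m + 1 + 1) t (a, b)
  rw [Ode, add_tsub_cancel_right] at h ⊢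
  rw [e1, e2]
  linear_combination (t ^ 2) ^ (m + 1) * h

lemma uniq_first [CharZero k] {m : ℕ} {Q a b : k[X]} (hQ : uniq_T Q (m + 1 + 1) 1) (hc : c ≠ 0)
    (hb : b ≠ 0) (l : b.natDegree < a.natDegree) (h : Ode (m + 1) Q c a b) :
    a.natDegree = b.natDegree + 1 ∧ b.leadingCoeff = c * a.leadingCoeff := by
  have ha : a ≠ 0 := by rintro rfl; simp at l
  have la := leadingCoeff_ne_zero.2 ha
  have lb := leadingCoeff_ne_zero.2 hb
  have hne : (a.natDegree : k) - b.natDegree ≠ 0 := sub_ne_zero.2 (by exact_mod_cast l.ne')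
  rw [Ode, add_tsub_cancel_right] at h
  have h1 := uniq_mul (uniq_pow (uniq_wr (uniq_self a) (uniq_self b)) (m + 1)) hQ
  have h2 := uniq_mul (uniq_pow (uniq_X (k := k)) (m + 1)) (uniq_mul (uniq_mul (uniq_C c)
    (uniq_pow (uniq_self b) m)) (uniq_homg (uniq_self a) (uniq_self b) l hQ.2))
  rw [← h, ← mul_assoc, ← mul_pow] at h2
  have d1 := uniq_deg h1 (by simp [hne, la, lb])
  have d2 := uniq_deg h2 (by simp [hc, la, lb])
  have e : a.natDegree = b.natDegree + 1 := by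
    have := d1.symm.trans d2
    nlinarith
  refine ⟨e, ?_⟩
  have e2 := h1.2.symm.trans ((d1.symm.trans d2) ▸ h2.2)
  rw [e] at e2
  push_cast at e2
  refine mul_left_cancel₀ (mul_ne_zero (pow_ne_zero (m + 1) la) (pow_ne_zero m lb)) ?_
  linear_combination e2

lemma uniq_main [CharZero k] {m : ℕ} {Q a b a' b' : k[X]} (hm : 0 < m)
    (hQ : uniq_T Q (m + 1 + 1) 1) (hc : c ≠ 0) (hb : b ≠ 0) (hb' : b' ≠ 0)
    (l : b.natDegree < a.natDegree) (l' : b'.natDegree < a'.natDegree) (h : Ode (m + 1) Q c a b)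
    (h' : Ode (m + 1) Q c a' b') : a * b' = a' * b := by
  by_contra hne
  obtain ⟨e1, e2⟩ := uniq_first hQ hc hb l h
  obtain ⟨e1', e2'⟩ := uniq_first hQ hc hb' l' h'
  have ha : a ≠ 0 := by rintro rfl; simp at l
  have la := leadingCoeff_ne_zero.2 ha
  have lb' := leadingCoeff_ne_zero.2 hb'
  have hd := leadingCoeff_ne_zero.2 (sub_ne_zero.2 hne)
  have hD : uniq_T (b' * a - b * a') (a * b' - a' * b).natDegree
      (a * b' - a' * b).leadingCoeff := by
    rw [mul_comm b', mul_comm b]; exact uniq_self _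
  set ν := (a * b' - a' * b).natDegree
  set d := (a * b' - a' * b).leadingCoeff
  set K := b.natDegree + b'.natDegree with hK
  set L := b'.leadingCoeff * a.leadingCoeff with hL
  have L0 : L ≠ 0 := mul_ne_zero lb' la
  have hA : uniq_T (b' * a) (K + 1) L :=
    uniq_cast (uniq_mul (uniq_self b') (uniq_self a)) (by omega) rfl
  have hB : uniq_T (b * a') (K + 1) L :=
    uniq_cast (uniq_mul (uniq_self b) (uniq_self a')) (by omega) (by rw [hL, e2, e2']; ring)
  have hN : uniq_T (b * b') K (c * L) :=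
    uniq_cast (uniq_mul (uniq_self b) (uniq_self b')) rfl (by rw [hL, e2]; ring)
  have o1 := uniq_smul b' h
  have o2 := uniq_smul b h'
  rw [mul_comm b' b] at o1
  rw [Ode, add_tsub_cancel_right] at o1 o2
  have w : X * wr (b' * a) (b * b') - X * wr (b * a') (b * b') =
      X * wr (b' * a - b * a') (b * b') := by
    simp only [wr, derivative_sub]; ring
  have h1 := uniq_mul (uniq_diff (uniq_wr hA hN) (uniq_wr hB hN) (w ▸ uniq_wr hD hN) m) hQ
  have h2 := uniq_mul (uniq_pow (uniq_X (k := k)) (m + 1)) (uniq_mul (uniq_mul (uniq_C c)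
    (uniq_pow hN m)) (uniq_hdiff hA hB hN hD hQ.2))
  rw [mul_sub, ← o1, ← o2, ← sub_mul, ← mul_assoc, mul_sub, ← mul_pow, ← mul_pow] at h2
  have e := h1.2.symm.trans (uniq_cast h2 (by ring) rfl).2
  push_cast at e
  have e3 : ((ν : k) - K) * (m + 1) = m + 1 + 1 := by
    refine mul_left_cancel₀ (mul_ne_zero hd (mul_ne_zero (pow_ne_zero (m + 1) hc)
      (pow_ne_zero (2 * m + 1) L0))) ?_
    linear_combination e
  have e4 : ((ν : ℤ) - K) * (m + 1) = m + 1 + 1 := by exact_mod_cast e3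
  have e5 : ((ν : ℤ) - K - 1) * (m + 1) = 1 := by linear_combination e4
  have := Int.eq_one_of_mul_eq_one_left (by positivity) e5
  omega

end top

theorem p_UNIQ (hRMW : S_RMW) :
    S_UNIQ := by
  intro m Q a b a' b' c hm hQ hd hc hb hb' l l' h h'
  have _ := hRMW
  obtain ⟨m, rfl⟩ : ∃ n, m = n + 1 := ⟨m - 1, by omega⟩
  exact uniq_main (by omega) ⟨hd.le, hd ▸ hQ.coeff_natDegree⟩ hc hb hb' l l' h h'

end Pool.Agent.P.MP_8d2e9f_nt.AO
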