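import Pool.Agent.P.MP_8d2e9f_nt.AO.IfaceC

/-! Step WGT1. -/

set_option autoImplicit false

namespace Pool.Agent.P.MP_8d2e9f_nt.AO

open Polynomial NumberField Pool.Agent.P.MP_8d2e9f_nt.G
open scoped IntermediateField Classical

theorem p_WGT1 :
    S_WGT1 := by
  intro T φ e d μ N s hd he hf hs hμ y
  let B : Set T := {x | ∃ n, φ^[n] x = y}
  by_cases h : ∃ x ∈ B, x ∉ s
  · obtain ⟨x, ⟨n, rfl⟩, hx⟩ := h
    rw [← hs x hx]
    clear hx
    right
    induction n generalizing x with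
    | zero => exact ⟨1, one_pos, by simp⟩
    | succ n ih =>
      obtain ⟨w, w0, hw⟩ := ih (φ x)
      exact ⟨w * e x, Nat.mul_pos w0 (he x), by
        rw [hμ x, ← hw, Function.iterate_succ_apply]; push_cast; ring⟩
  push Not at h
  have fin : B.Finite := s.finite_toSet.subset h
  have back : ∀ x, φ x ∈ B → x ∈ B := fun x ⟨n, hn⟩ => ⟨n + 1, hn⟩
  have sur : ∀ z, ∃ x, φ x = z := fun z => by
    obtain ⟨t, h1, h2⟩ := hf z
    obtain ⟨x, hx⟩ := Finset.nonempty_of_sum_ne_zero (h2.trans_ne (by omega))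
    exact ⟨x, (h1 x).1 hx⟩
  choose g hg using sur
  have gb := (fin.injOn_iff_bijOn_of_mapsTo (f := g) fun z hz => back _ (by rwa [hg])).1
    (Function.RightInverse.injective hg).injOn
  have k : ∀ x ∈ B, φ x ∈ B ∧ g (φ x) = x := fun x hx => by
    obtain ⟨z, hz, rfl⟩ := gb.surjOn hx
    rw [hg]
    exact ⟨hz, rfl⟩
  have mp : Set.MapsTo φ B B := fun x hx => (k x hx).1
  have inj : Set.InjOn φ B := fun x hx x' hx' e => by rw [← (k x hx).2, e, (k x' hx').2]
  have ed : ∀ x ∈ B, e x = d := fun x hx => by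
    obtain ⟨t, h1, h2⟩ := hf (φ x)
    rw [← h2, show t = {x} from Finset.ext fun a => (h1 a).trans ⟨fun q => Finset.mem_singleton.2
      (inj (back a (q ▸ mp hx)) hx q), fun q => by rw [Finset.mem_singleton.1 q]⟩,
      Finset.sum_singleton]
  have pw : ∀ n, ∀ x ∈ B, μ x = (d : ℤ) ^ n * μ (φ^[n] x) := fun n => by
    induction n with
    | zero => simp
    | succ n ih =>
      intro x hx
      rw [hμ x, ed x hx, ih _ (mp hx), Function.iterate_succ_apply]
      ring
  have yB : y ∈ B := ⟨0, rfl⟩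
  have := fin.to_subtype
  obtain ⟨r, r0, hr⟩ := (mp.restrict_inj.2 inj).mem_periodicPts ⟨y, yB⟩
  have hr' : φ^[r] y = y := (mp.coe_iterate_restrict ⟨y, yB⟩ r).symm.trans (congrArg Subtype.val hr)
  refine Or.inl ⟨?_, r, r0, fun x => ⟨fun q => inj.iterate mp r ⟨r, q⟩ yB (q.trans hr'.symm),
    fun q => q ▸ hr'⟩⟩
  have q := pw r y yB
  rw [hr'] at q
  have : (1 : ℤ) < (d : ℤ) ^ r := one_lt_pow₀ (by exact_mod_cast hd) r0.ne'
  exact (mul_eq_zero.1 (by linear_combination -q : ((d : ℤ) ^ r - 1) * μ y = 0)).resolve_left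
    (by omega)

end Pool.Agent.P.MP_8d2e9f_nt.AO
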