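import Pool.Agent.P.MP_8d2e9f_nt.AO.IfaceC

/-! Step WGT2. -/

set_option autoImplicit false

namespace Pool.Agent.P.MP_8d2e9f_nt.AO

open Polynomial NumberField Pool.Agent.P.MP_8d2e9f_nt.G
open scoped IntermediateField Classical

lemma wgt2_nat (w u v : ℕ) (hw : 2 ≤ w) (hu : 2 ≤ u) (huv : u ≤ v)
    (h : u * v + w * v + w * u = w * u * v) : w ∣ 12 := by
  obtain ⟨a, rfl⟩ := Nat.exists_eq_add_of_le hw
  obtain ⟨c, rfl⟩ := Nat.exists_eq_add_of_le huv
  obtain ⟨b, rfl⟩ := Nat.exists_eq_add_of_le hu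
  rcases b with _ | _ | b
  · have h1 : a ∣ 4 := ⟨c, by nlinarith⟩
    have := Nat.le_of_dvd (by norm_num) h1
    interval_cases a <;> simp_all
  · have h1 : 2 * a + 1 ∣ 9 := ⟨2 * c + 3, by nlinarith⟩
    have := Nat.le_of_dvd (by norm_num) h1
    have : a ≤ 4 := by omega
    interval_cases a <;> simp_all
  · rcases a with _ | a
    · norm_num
    · exfalso
      nlinarith [Nat.zero_le (a * b * b), Nat.zero_le (a * b * c), Nat.zero_le (a * b),
        Nat.zero_le (a * c), Nat.zero_le (b * c), Nat.zero_le (b * b)]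

lemma wgt2_int {N m m1 m2 : ℤ} {w u v : ℕ} (hN : 0 < N) (hw : 2 ≤ w) (hu : 2 ≤ u) (hv : 2 ≤ v)
    (h : m * w = N) (h1 : m1 * u = N) (h2 : m2 * v = N) (e : m + m1 + m2 = N) : w ∣ 12 := by
  have k : u * v + w * v + w * u = w * u * v := by
    have : ((u * v + w * v + w * u : ℕ) : ℤ) * N = (w * u * v : ℕ) * N := by
      push_cast
      linear_combination (-(u * v : ℤ)) * h - (w * v : ℤ) * h1 - (w * u : ℤ) * h2 +
        (w * u * v : ℤ) * e
    exact_mod_cast mul_right_cancel₀ hN.ne' this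
  rcases le_total u v with c | c
  · exact wgt2_nat w u v hw hu c k
  · exact wgt2_nat w v u hw hv c (by linarith)

theorem p_WGT2 :
    S_WGT2 := by
  intro T s μ N hN hμ hs y hy
  rcases hμ y hy with h0 | ⟨w, w0, hw⟩
  · simp [h0]
  suffices h : w ∣ 12 by
    obtain ⟨k, hk⟩ := h
    exact ⟨k, by rw [← hw, show (12 : ℤ) = w * k by exact_mod_cast hk]; ring⟩
  by_cases w3 : w ≤ 2
  · interval_cases w <;> norm_num
  have w3' : (3 : ℤ) ≤ w := by exact_mod_cast not_le.1 w3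
  have y0 : 0 < μ y := by nlinarith
  have y1 : 3 * μ y ≤ N := by nlinarith
  set t := (s.erase y).filter fun x => μ x ≠ N with ht
  have h1 : ∑ x ∈ t, (N - μ x) = N + μ y := by
    rw [← Finset.add_sum_erase _ _ hy] at hs
    rw [ht, Finset.sum_filter_of_ne fun x _ h => (sub_ne_zero.1 h).symm]
    linarith
  have h2 : ∀ x ∈ t, μ x = 0 ∨ ∃ u : ℕ, 2 ≤ u ∧ μ x * u = N := fun x hx => by
    obtain ⟨a, b⟩ := Finset.mem_filter.1 hx
    refine (hμ x (Finset.mem_of_mem_erase a)).imp_right fun ⟨u, c, d⟩ => ⟨u, ?_, d⟩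
    by_contra e
    obtain rfl : u = 1 := by omega
    exact b (by simpa using d)
  have h3 : ∀ x ∈ t, 0 ≤ μ x ∧ 2 * μ x ≤ N := fun x hx => by
    rcases h2 x hx with e | ⟨u, c, d⟩
    · rw [e]; omega
    · have : (2 : ℤ) ≤ u := by exact_mod_cast c
      have : 0 < μ x := by nlinarith
      exact ⟨this.le, by nlinarith⟩
  have h4 : ∑ x ∈ t, (N - μ x) ≤ t.card • N :=
    Finset.sum_le_card_nsmul _ _ _ fun x hx => by linarith [(h3 x hx).1]
  have h5 : t.card • N ≤ ∑ x ∈ t, 2 * (N - μ x) :=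
    Finset.card_nsmul_le_sum _ _ _ fun x hx => by linarith [(h3 x hx).2]
  rw [← Finset.mul_sum, h1, nsmul_eq_mul] at h5
  rw [h1, nsmul_eq_mul] at h4
  have h6 : (1 : ℤ) < t.card := by nlinarith
  have h7 : (t.card : ℤ) < 3 := by nlinarith
  obtain ⟨a, b, hab, e⟩ := Finset.card_eq_two.1 (show t.card = 2 by omega)
  have ha : a ∈ t := by simp [e]
  have hb : b ∈ t := by simp [e]
  rw [e, Finset.sum_pair hab] at h1
  have := h3 a ha
  have := h3 b hb
  rcases h2 a ha with c | ⟨u, c, d⟩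
  · omega
  rcases h2 b hb with c' | ⟨v, c', d'⟩
  · omega
  exact wgt2_int hN (by omega) c c' hw d d' (by linarith)

end Pool.Agent.P.MP_8d2e9f_nt.AO
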