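import Pool.Agent.P.MP_8d2e9f_nt.AO.IfaceC

/-! Step WLD. -/

set_option autoImplicit false

namespace Pool.Agent.P.MP_8d2e9f_nt.AO

open Polynomial NumberField Pool.Agent.P.MP_8d2e9f_nt.G
open scoped IntermediateField Classical

theorem p_WLD (hFROB : S_FROB) (hDICH : S_DICH) (hTAME : S_TAME) :
    S_WLD := by
  intro K d a b h p _ φ j a₀ b₀ hS hp
  obtain ⟨D, τ, hD⟩ := hFROB K p φ j hS.loc
  obtain ⟨δ, h0, hδ, hz⟩ := hDICH K p j D τ hD hp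
  have h1 := hTAME K d a b h p φ j a₀ b₀ δ τ hS hδ
  simp only [Lots, not_forall, Set.not_infinite] at h1
  obtain ⟨ε, hε, h1⟩ := h1
  refine ⟨δ, h0, hδ, ε, hε, h1.subset ?_⟩
  rintro z ⟨⟨h2, h3⟩, h4, h5⟩
  rcases hz z h3 with h6 | ⟨s, h6, -, h7⟩
  · exact ⟨⟨h2, h3, h6⟩, h4⟩
  · exact absurd ⟨s, h6, h7⟩ h5

end Pool.Agent.P.MP_8d2e9f_nt.AO
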