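import Pool.Agent.P.MP_8d2e9f_nt.AO.AllB
import Pool.Agent.P.MP_8d2e9f_nt.AO.FinC
import Pool.Agent.P.MP_8d2e9f_nt.AO.TCHN
import Pool.Agent.P.MP_8d2e9f_nt.AO.TPRN
import Pool.Agent.P.MP_8d2e9f_nt.AO.TPCOMP
import Pool.Agent.P.MP_8d2e9f_nt.AO.TIND
import Pool.Agent.P.MP_8d2e9f_nt.AO.TGOODR
import Pool.Agent.P.MP_8d2e9f_nt.AO.TCANH
import Pool.Agent.P.MP_8d2e9f_nt.AO.TCANR
import Pool.Agent.P.MP_8d2e9f_nt.AO.TTRANS
import Pool.Agent.P.MP_8d2e9f_nt.AO.TBASR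
import Pool.Agent.P.MP_8d2e9f_nt.AO.TSIEG1
import Pool.Agent.P.MP_8d2e9f_nt.AO.TSIEG2
import Pool.Agent.P.MP_8d2e9f_nt.AO.TAUXAR
import Pool.Agent.P.MP_8d2e9f_nt.AO.TAUXBR
import Pool.Agent.P.MP_8d2e9f_nt.AO.TGAPGR
import Pool.Agent.P.MP_8d2e9f_nt.AO.TREDBR
import Pool.Agent.P.MP_8d2e9f_nt.AO.TCURVR
import Pool.Agent.P.MP_8d2e9f_nt.AO.TROOTV
import Pool.Agent.P.MP_8d2e9f_nt.AO.TDEF
import Pool.Agent.P.MP_8d2e9f_nt.AO.TLIFTD
import Pool.Agent.P.MP_8d2e9f_nt.AO.TKRA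
import Pool.Agent.P.MP_8d2e9f_nt.AO.TKRULL
import Pool.Agent.P.MP_8d2e9f_nt.AO.TFACT
import Pool.Agent.P.MP_8d2e9f_nt.AO.TTAMA
import Pool.Agent.P.MP_8d2e9f_nt.AO.TTAMB
import Pool.Agent.P.MP_8d2e9f_nt.AO.TTAME
import Pool.Agent.P.MP_8d2e9f_nt.AO.TWLD
import Pool.Agent.P.MP_8d2e9f_nt.AO.TGFR
import Pool.Agent.P.MP_8d2e9f_nt.AO.TPERMR
import Pool.Agent.P.MP_8d2e9f_nt.AO.TAPPRR
import Pool.Agent.P.MP_8d2e9f_nt.AO.TINVWR
import Pool.Agent.P.MP_8d2e9f_nt.AO.TCOLLR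
import Pool.Agent.P.MP_8d2e9f_nt.AO.TLOCBR
import Pool.Agent.P.MP_8d2e9f_nt.AO.TFORMR
import Pool.Agent.P.MP_8d2e9f_nt.AO.TMUB
import Pool.Agent.P.MP_8d2e9f_nt.AO.TMULT
import Pool.Agent.P.MP_8d2e9f_nt.AO.TRMW
import Pool.Agent.P.MP_8d2e9f_nt.AO.TMULTW
import Pool.Agent.P.MP_8d2e9f_nt.AO.TWGT1
import Pool.Agent.P.MP_8d2e9f_nt.AO.TWGT2
import Pool.Agent.P.MP_8d2e9f_nt.AO.TORB1
import Pool.Agent.P.MP_8d2e9f_nt.AO.TNULL
import Pool.Agent.P.MP_8d2e9f_nt.AO.TLIFTR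
import Pool.Agent.P.MP_8d2e9f_nt.AO.TORB2
import Pool.Agent.P.MP_8d2e9f_nt.AO.TCJ
import Pool.Agent.P.MP_8d2e9f_nt.AO.TCONJ
import Pool.Agent.P.MP_8d2e9f_nt.AO.TSHAPE
import Pool.Agent.P.MP_8d2e9f_nt.AO.TNORMF
import Pool.Agent.P.MP_8d2e9f_nt.AO.TKPOW
import Pool.Agent.P.MP_8d2e9f_nt.AO.TROOTX
import Pool.Agent.P.MP_8d2e9f_nt.AO.TLAT2
import Pool.Agent.P.MP_8d2e9f_nt.AO.TLAT3
import Pool.Agent.P.MP_8d2e9f_nt.AO.TUNIQ
import Pool.Agent.P.MP_8d2e9f_nt.AO.TLAT4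
import Pool.Agent.P.MP_8d2e9f_nt.AO.TCLASS
import Pool.Agent.P.MP_8d2e9f_nt.AO.TCOMM
import Pool.Agent.P.MP_8d2e9f_nt.AO.TLHT
import Pool.Agent.P.MP_8d2e9f_nt.AO.TETW
import Pool.Agent.P.MP_8d2e9f_nt.AO.TETX
import Pool.Agent.P.MP_8d2e9f_nt.AO.TEDB
import Pool.Agent.P.MP_8d2e9f_nt.AO.TEWK
import Pool.Agent.P.MP_8d2e9f_nt.AO.TEHT
import Pool.Agent.P.MP_8d2e9f_nt.AO.TETA
import Pool.Agent.P.MP_8d2e9f_nt.AO.TECON
import Pool.Agent.P.MP_8d2e9f_nt.AO.TENEAR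
import Pool.Agent.P.MP_8d2e9f_nt.AO.TEAMP
import Pool.Agent.P.MP_8d2e9f_nt.AO.TETORS
import Pool.Agent.P.MP_8d2e9f_nt.AO.TLATP
import Pool.Agent.P.MP_8d2e9f_nt.AO.TCOMPO
import Pool.Agent.P.MP_8d2e9f_nt.AO.TLATT
import Pool.Agent.P.MP_8d2e9f_nt.AO.TPOLY
import Pool.Agent.P.MP_8d2e9f_nt.AO.TEIG
import Pool.Agent.P.MP_8d2e9f_nt.AO.TMAING
import Pool.Agent.P.MP_8d2e9f_nt.AO.TRMF
import Pool.Agent.P.MP_8d2e9f_nt.AO.TRFIN
import Pool.Agent.P.MP_8d2e9f_nt.AO.TUSBR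

/-! All steps for rational maps together. -/

namespace Pool.Agent.P.MP_8d2e9f_nt.AO

theorem all_CHN : S_CHN := p_CHN
theorem all_PRN : S_PRN := p_PRN
theorem all_PCOMP : S_PCOMP := p_PCOMP all_CHN
theorem all_IND : S_IND := p_IND
theorem all_GOODR : S_GOODR := p_GOODR
theorem all_CANH : S_CANH := p_CANH
theorem all_CANR : S_CANR := p_CANR all_WH
theorem all_TRANS : S_TRANS := p_TRANS all_CANH
theorem all_BASR : S_BASR := p_BASR all_IND all_GOODR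
theorem all_SIEG1 : S_SIEG1 := p_SIEG1 all_PH
theorem all_SIEG2 : S_SIEG2 := p_SIEG2 all_PH
theorem all_AUXAR : S_AUXAR := p_AUXAR all_NUM all_PF all_CANR all_BASR all_SIEG1
theorem all_AUXBR : S_AUXBR := p_AUXBR all_NUM all_PF all_CANR all_BASR all_SIEG2
theorem all_GAPGR : S_GAPGR := p_GAPGR all_AUXAR
theorem all_REDBR : S_REDBR := p_REDBR all_GAPGR
theorem all_CURVR : S_CURVR := p_CURVR all_CURVF all_CANR
theorem all_ROOTV : S_ROOTV := p_ROOTV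
theorem all_DEF : S_DEF := p_DEF
theorem all_LIFTD : S_LIFTD := p_LIFTD all_ROOTV
theorem all_KRA : S_KRA := p_KRA
theorem all_KRULL : S_KRULL := p_KRULL all_KRA
theorem all_FACT : S_FACT := p_FACT
theorem all_TAMA : S_TAMA := p_TAMA all_ABG all_ACT all_CANR all_GAPGR
theorem all_TAMB : S_TAMB := p_TAMB all_ABG all_CANR all_DEF all_LIFTD all_KRULL
theorem all_TAME : S_TAME := p_TAME all_ABG all_ACT all_CANR all_AUXBR all_CURVR all_FACT all_TAMA all_TAMB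
theorem all_WLD : S_WLD := p_WLD all_FROB all_DICH all_TAME
theorem all_GFR : S_GFR := p_GFR all_IND all_GOODR
theorem all_PERMR : S_PERMR := p_PERMR all_PRN all_GOODR
theorem all_APPRR : S_APPRR := p_APPRR all_PRIM all_PRN all_GOODR
theorem all_INVWR : S_INVWR := p_INVWR all_PRN all_GOODR all_GFR all_PERMR all_APPRR
theorem all_COLLR : S_COLLR := p_COLLR all_ABG all_ACT all_CANR all_GAPGR
theorem all_LOCBR : S_LOCBR := p_LOCBR all_ABG all_ACT all_PRIM all_CANR all_AUXBR all_REDBR all_CURVR all_COLLR all_INVWR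
theorem all_FORMR : S_FORMR := p_FORMR all_PRN all_GOODR all_WLD all_LOCBR
theorem all_MUB : S_MUB := p_MUB
theorem all_MULT : S_MULT := p_MULT all_MUB
theorem all_RMW : S_RMW := p_RMW
theorem all_MULTW : S_MULTW := p_MULTW all_PRN all_RMW
theorem all_WGT1 : S_WGT1 := p_WGT1
theorem all_WGT2 : S_WGT2 := p_WGT2
theorem all_ORB1 : S_ORB1 := p_ORB1 all_PRN all_MUB all_MULT all_MULTW all_WGT1 all_WGT2
theorem all_NULL : S_NULL := p_NULL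
theorem all_LIFTR : S_LIFTR := p_LIFTR all_PLACE all_GOODR all_ORB1 all_NULL
theorem all_ORB2 : S_ORB2 := p_ORB2 all_PRN all_MUB all_MULT all_MULTW all_WGT1
theorem all_CJ : S_CJ := p_CJ all_CHN all_PCOMP
theorem all_CONJ : S_CONJ := p_CONJ all_PRN all_PCOMP all_MULT all_CJ
theorem all_SHAPE : S_SHAPE := p_SHAPE all_MUB
theorem all_NORMF : S_NORMF := p_NORMF all_PRN all_TRANS all_ORB2 all_CJ all_CONJ all_SHAPE
theorem all_KPOW : S_KPOW := p_KPOW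
theorem all_ROOTX : S_ROOTX := p_ROOTX all_KPOW
theorem all_LAT2 : S_LAT2 := p_LAT2 all_PRN all_RMW all_KPOW
theorem all_LAT3 : S_LAT3 := p_LAT3 all_PRN all_RMW all_KPOW
theorem all_UNIQ : S_UNIQ := p_UNIQ all_RMW
theorem all_LAT4 : S_LAT4 := p_LAT4 all_PRN all_UNIQ
theorem all_CLASS : S_CLASS := p_CLASS all_TRANS all_NORMF all_ROOTX all_LAT2 all_LAT3 all_LAT4
theorem all_COMM : S_COMM := p_COMM all_PRN all_PCOMP all_UNIQ
theorem all_LHT : S_LHT := p_LHT all_PRN all_CANH all_COMM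
theorem all_ETW : S_ETW := p_ETW
theorem all_ETX : S_ETX := p_ETX all_ETW
theorem all_EDB : S_EDB := p_EDB
theorem all_EWK : S_EWK := p_EWK
theorem all_EHT : S_EHT := p_EHT all_WH all_ETW all_EDB all_EWK
theorem all_ETA : S_ETA := p_ETA
theorem all_ECON : S_ECON := p_ECON all_ETA
theorem all_ENEAR : S_ENEAR := p_ENEAR all_ETW all_ETX
theorem all_EAMP : S_EAMP := p_EAMP all_PF all_ETW all_ETX all_EHT all_ECON
theorem all_ETORS : S_ETORS := p_ETORS all_ABG all_ETW all_ETX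
theorem all_LATP : S_LATP := p_LATP all_PLACE all_ABG all_ACT all_GOODR all_WLD all_ETW all_ETX all_EHT all_ENEAR all_EAMP all_ETORS
theorem all_COMPO : S_COMPO := p_COMPO all_ABG
theorem all_LATT : S_LATT := p_LATT all_PRN all_CANH all_CANR all_COMM all_LHT all_ETW all_ETX all_EHT all_LATP all_COMPO
theorem all_POLY : S_POLY := p_POLY all_USB all_PRN all_CANH all_COMPO
theorem all_EIG : S_EIG := p_EIG all_CANR all_FORMR all_LIFTR all_COMPO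
theorem all_MAING : S_MAING := p_MAING all_PRN all_TRANS all_CONJ all_CLASS all_LATT all_POLY all_EIG
theorem all_RMF : S_RMF := p_RMF
theorem all_RFIN : S_RFIN := p_RFIN all_CHAIN all_CANH all_RMF
theorem all_USBR : S_USBR := p_USBR all_CANH

end Pool.Agent.P.MP_8d2e9f_nt.AO
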