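import Pool.Agent.P.MP_8d2e9f_nt.AO.IfaceD
import Pool.Agent.P.MP_8d2e9f_nt.G.All

/-! The height gap for abelian extensions. -/

set_option autoImplicit false

namespace Pool.Agent.P.MP_8d2e9f_nt.AO

open Polynomial Pool.Agent.P.MP_8d2e9f_nt.G

theorem find_main (hCANH : S_CANH) (hCOMPO : S_COMPO) (hMAING2 : S_MAING2)
    (K : IntermediateField ℚ Qbar) (hK : FiniteDimensional ℚ K)
    (L : IntermediateField K Qbar) (hL : IsAbelianGalois K L) (f : RatFunc Qbar)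
    (hf : 2 ≤ ratDegree f) (H : ProjLine → ℝ) (hH : IsCanonicalHeight f H) :
    ∃ c : ℝ, 0 < c ∧ ∀ α ∈ pointsOver L.toSubfield, α ∉ PrePer f → c ≤ H α := by
  have rf : RM ⊤ (ratDegree f) (ratMap f) := all_RF ⊤ f fun _ => ⟨trivial, trivial⟩
  obtain ⟨c, hc, h3⟩ := hMAING2 K _ _ _ hK ((hCOMPO.2.2 K L).1 hL) hf rf H hH K hK
  obtain ⟨k1, k2, -⟩ := (hCANH _ _ hf rf).2 H hH
  exact ⟨c, hc, fun α hα hp => h3 α (pts_mono le_sup_left hα)
    ((k1 α).lt_of_ne fun e => hp ((k2 α).1 e.symm))⟩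

end Pool.Agent.P.MP_8d2e9f_nt.AO
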