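import Pool.Agent.P.MP_8d2e9f_nt.AO.IfaceD
import Pool.Agent.P.MP_8d2e9f_nt.AO.TEXG
import Pool.Agent.P.MP_8d2e9f_nt.G.All

/-! Step CHB. -/

set_option autoImplicit false

namespace Pool.Agent.P.MP_8d2e9f_nt.AO

open Polynomial NumberField Pool.Agent.P.MP_8d2e9f_nt.G
open scoped IntermediateField Classical

theorem chb_d_root {q : ℕ} {u w : Qbar} (u0 : u ≠ 0) (w0 : w ≠ 0)
    (h : w ^ q + (w ^ q)⁻¹ = u ^ q + (u ^ q)⁻¹) :
    ∃ v : Qbar, v ≠ 0 ∧ v + v⁻¹ = u + u⁻¹ ∧ (w / v) ^ q = 1 := by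
  have h3 := mul_inv_cancel₀ (pow_ne_zero q u0)
  have h4 := mul_inv_cancel₀ (pow_ne_zero q w0)
  have h2 : (w ^ q - u ^ q) * (w ^ q - (u ^ q)⁻¹) = 0 := by
    linear_combination w ^ q * h + h3 - h4
  rcases mul_eq_zero.1 h2 with h5 | h5
  · exact ⟨u, u0, rfl, by rw [div_pow, sub_eq_zero.1 h5, div_self (pow_ne_zero q u0)]⟩
  · exact ⟨u⁻¹, inv_ne_zero u0, by rw [inv_inv, add_comm], by
      rw [div_pow, sub_eq_zero.1 h5, inv_pow, div_self (inv_ne_zero (pow_ne_zero q u0))]⟩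

theorem chb_d_ab (hABG : S_ABG) {K : IF} {q : ℕ} (hq : Odd q) {x v ω : Qbar} (s : GK K)
    (hx : Ab K x) (e : v + v⁻¹ = x) (e' : s x = ω * v + (ω * v)⁻¹) (hω : ω ^ q = 1)
    (s1 : s x ≠ x) : Ab K v := by
  have h1 : Ab K (s x) := ((hABG K).1 x hx).2.1 _ (((hABG K).1 x hx).2.2 s)
  have h2 : Ab K ω := (hABG K).2.2.2.2.1 ω (isOfFinOrder_iff_pow_eq_one.2 ⟨q, hq.pos, hω⟩)
  have w0 : ω ≠ 0 := by
    rintro rfl
    rw [zero_pow hq.pos.ne'] at hω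
    exact zero_ne_one hω
  have h3 : ω - ω⁻¹ ≠ 0 := by
    intro h
    obtain ⟨r, rfl⟩ := hq
    have h4 : ω ^ 2 = 1 := by
      have := mul_inv_cancel₀ w0
      linear_combination ω * h + this
    rw [pow_succ, pow_mul, h4, one_pow, one_mul] at hω
    exact s1 (by rw [e', hω, one_mul, e])
  have h5 : v = (s x - x * ω⁻¹) / (ω - ω⁻¹) := by
    rw [eq_div_iff h3, e', ← e, mul_inv]
    ring
  intro σ ρ
  rw [h5]
  simp only [map_div₀, map_sub, map_mul, map_inv₀, h1 σ ρ, hx σ ρ, h2 σ ρ]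

theorem p_CHB (hABG : S_ABG) (hPLACE : S_PLACE) (hFROB : S_FROB) (hDICH : S_DICH) (hAMP : S_AMP) (hWH : S_WH) (hCANB : S_CANB) (hHID : S_HID) (hGM : S_GM) :
    S_CHB := by
  intro K hK
  obtain ⟨p, _, φ, j, hp, hj, -⟩ := hPLACE K 3 ∅ hK
  have pp : p.Prime := Fact.out
  have p3 : 3 ≤ p := by omega
  have dg := (exg_mon' Qbar pp.pos).natDegree_eq
  obtain ⟨B, hB⟩ := hWH.2.1 (Chebyshev.C Qbar p) (by omega)
  rw [dg] at hB
  obtain ⟨H, H1, H2⟩ := all_CAN Qbar (fun x => (Chebyshev.C Qbar p).eval x) wh p B (by omega) hB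
  have can : Can (Chebyshev.C Qbar p) H := ⟨fun z => by rw [dg]; exact H1 z, B, H2⟩
  have gal := hCANB.2 K (Chebyshev.C K p) H
    (by rw [(exg_mon' K pp.pos).natDegree_eq]; omega) (by rwa [Chebyshev.map_C])
  have hid := (hHID p H (by omega)).2 (Or.inl can)
  obtain ⟨ε, e0, he⟩ := exg_core hFROB hDICH hAMP K hK p φ j hj p3 (Chebyshev.C ℤ p)
    (exg_mon' ℤ pp.pos)
    (by rw [Chebyshev.map_C, ← dickson_one_one_eq_chebyshev_C, dickson_one_one_zmod_p])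
    H B H2 gal (fun x => by rw [Chebyshev.aeval_C]; exact H1 x)
  obtain ⟨c, c0, hc⟩ := hGM K hK
  refine ⟨min c (ε / 2), lt_min c0 (by positivity), fun u u0 hx hu => ?_⟩
  obtain ⟨u1, u2⟩ := lt_min_iff.1 hu
  have key := he (u + u⁻¹) hx (fun k s s1 _ s3 => ?_) (by rw [hid u u0]; linarith)
  · rw [hid u u0] at key
    linarith
  have e : ∀ i : ℕ, (fun y : Qbar => aeval y (Chebyshev.C ℤ p))^[i] (u + u⁻¹) =
      (Chebyshev.C Qbar (p ^ i : ℕ)).eval (u + u⁻¹) := by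
    intro i
    induction i with
    | zero => simp
    | succ i ih => rw [Function.iterate_succ_apply', ih, Chebyshev.aeval_C, exg_cc, pow_succ']
  rw [e, exg_ev _ u0, map_add, map_inv₀, map_pow] at s3
  have w0 : s u ≠ 0 := (map_ne_zero s).2 u0
  obtain ⟨v, v0, v1, v2⟩ := chb_d_root u0 w0 s3
  have h1 : Ab K v := chb_d_ab hABG (pp.odd_of_ne_two (by omega)).pow s hx v1
    (by rw [div_mul_cancel₀ _ v0, map_add, map_inv₀]) v2 s1
  have h2 := hid v v0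
  rw [v1] at h2
  have h3 := hid u u0
  rw [h2, hc v h1 (by linarith), mul_zero]

end Pool.Agent.P.MP_8d2e9f_nt.AO
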