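import Pool.Agent.P.MP_8d2e9f_nt.AO.IfaceD

/-! Step CYC. -/

set_option autoImplicit false

namespace Pool.Agent.P.MP_8d2e9f_nt.AO

open Polynomial NumberField Pool.Agent.P.MP_8d2e9f_nt.G
open scoped IntermediateField Classical

theorem p_CYC :
    S_CYC := by
  intro K hK
  let N := IntermediateField.normalClosure ℚ K Qbar
  have : Normal ℚ N := normalClosure.normal ℚ K Qbar
  obtain ⟨r, hr⟩ : ∃ r, r = Nat.card (N ≃ₐ[ℚ] N) := ⟨_, rfl⟩
  refine ⟨r, hr ▸ Nat.card_pos, fun n hn => ?_⟩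
  have q0 : 0 < n := hn.pos
  have : NeZero n := ⟨q0.ne'⟩
  obtain ⟨ζ, h⟩ := HasEnoughRootsOfUnity.exists_primitiveRoot Qbar n
  have c5 : Nat.Coprime 2 n := (Nat.coprime_two_left.2 hn)
  obtain ⟨s, hs⟩ := minpoly.exists_algEquiv_of_root' (K := ℚ) (x := ζ ^ 2) (int_Q ζ).isAlgebraic (by
    rw [← cyclotomic_eq_minpoly_rat h q0, cyclotomic_eq_minpoly_rat (h.pow_of_coprime 2 c5) q0,
      minpoly.aeval])
  have h1 : ∀ t, (s ^ t) ζ = ζ ^ 2 ^ t := fun t => by
    induction t with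
    | zero => simp
    | succ t ih => rw [pow_succ', AlgEquiv.mul_apply, ih, map_pow, hs, ← pow_mul, pow_succ']
  let σ : GK K := AlgEquiv.ofRingEquiv (f := (s ^ r).toRingEquiv) fun c => by
    have := AlgEquiv.restrictNormalHom_apply N (s ^ r)
      ⟨c, IntermediateField.le_normalClosure K c.2⟩
    have h2 : (AlgEquiv.restrictNormalHom N : Gam →* (N ≃ₐ[ℚ] N)) (s ^ r) = 1 := by
      rw [map_pow, hr, pow_card_eq_one']
    exact this.symm.trans (congrArg Subtype.val (AlgEquiv.congr_fun h2 _))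
  refine ⟨σ, fun z hz => ?_⟩
  obtain ⟨i, -, rfl⟩ := h.eq_pow_of_pow_eq_one hz
  rw [map_pow, show σ ζ = _ from h1 r, ← pow_mul, ← pow_mul, mul_comm]

end Pool.Agent.P.MP_8d2e9f_nt.AO
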