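import Pool.Agent.P.MP_8d2e9f_nt.AO.IfaceD

/-! Step EAB. -/

set_option autoImplicit false

namespace Pool.Agent.P.MP_8d2e9f_nt.AO

open Polynomial NumberField Pool.Agent.P.MP_8d2e9f_nt.G
open scoped IntermediateField Classical

lemma eab_d1 {A : Type} [AddCommGroup A] (p : ℕ) {F : Set A} (hF : F.Finite)
    (h : ∀ T ∈ F, ∃ a : ℕ, p ^ a • T = 0) : ∃ a : ℕ, ∀ T ∈ F, p ^ a • T = 0 := by
  choose! f hf using h
  obtain ⟨a, ha⟩ := (hF.image f).bddAbove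
  refine ⟨a, fun T hT => ?_⟩
  obtain ⟨k, hk⟩ := Nat.exists_eq_add_of_le (ha (Set.mem_image_of_mem f hT))
  rw [hk, add_comm, pow_add, mul_smul, hf T hT, smul_zero]

lemma eab_d2 {A : Type} [AddCommGroup A] (m n : ℕ) (a b c d : A) :
    m • (a - n • b) - m • (c - n • d) = m • (a - c - n • (b - d)) := by
  module

theorem p_EAB (hEHT : S_EHT) (hEKILL : S_EKILL) (hESCAL : S_ESCAL) (hEW : S_EW) (hEHZ : S_EHZ) :
    S_EAB := by
  intro K α β H hK hα hβ hD hH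
  obtain ⟨p, hp, φ, j, ε, hE, hε, hW⟩ := hEW K α β H hK hα hβ hD hH
  obtain ⟨r, m, hr, hm, hS⟩ := hESCAL K α β p φ j hE
  obtain ⟨z1, z2, z3⟩ := hEHZ K α β H hK hα hβ hD hH
  obtain ⟨t1, -, -, t4⟩ := hEHT α β H hD hH
  have hC : (0 : ℝ) < 4 ^ m * (2 + 2 * 4 ^ r) := by positivity
  refine ⟨ε / (4 ^ m * (2 + 2 * 4 ^ r)), div_pos hε hC, fun P hP hlt => ?_⟩
  obtain ⟨a, ha⟩ := eab_d1 p ((z3 P).subset (Set.inter_subset_left (t := {T | Ker j T})))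
    fun T hT => (hEKILL α β p j hE.ei).2.1 T hT.2 hT.1.1
  obtain ⟨σ, hσ⟩ := hS a
  have hWab : AbP K (m • (ga σ P - 2 ^ r • P)) :=
    (abG hα hβ).nsmul_mem ((abG hα hβ).sub_mem (hP.ga hα hβ σ) ((abG hα hβ).nsmul_mem hP _)) _
  have hlt' : H (xp (m • (ga σ P - 2 ^ r • P))) < ε := by
    refine (z2 σ r m P).1.trans_lt ?_
    rw [mul_comm]
    exact (lt_div_iff₀ hC).1 hlt
  refine t4 P ((z2 σ r m P).2 hr hm (z1 _ ?_))
  refine le_antisymm (not_lt.1 fun h0 => ?_) (t1 _)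
  obtain ⟨s, s1, s2, s3⟩ := hW _ P hWab h0 hlt'
  have e : ga s (m • (ga σ P - 2 ^ r • P)) - m • (ga σ P - 2 ^ r • P) =
      m • (ga σ (ga s P - P) - 2 ^ r • (ga s P - P)) := by
    rw [ga_nsmul hα hβ, ga_sub hα hβ, ga_nsmul hα hβ, ga_sub hα hβ, hP s σ]
    exact eab_d2 _ _ _ _ _ _
  rw [e] at s3
  have hT : IsOfFinAddOrder (ga s P - P) := (z2 σ r m _).2 hr hm s3
  have hTab : AbP K (ga s P - P) := (abG hα hβ).sub_mem (hP.ga hα hβ s) hP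
  have h0' := hσ _ s1 hTab (ha _ ⟨⟨hT, fun ρ hρ => by rw [ga_sub hα hβ, hP ρ s, hρ]⟩, s1⟩)
  exact s2 (sub_eq_zero.1 (e.trans h0'))

end Pool.Agent.P.MP_8d2e9f_nt.AO
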