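import Pool.Agent.P.MP_8d2e9f_nt.AO.IfaceD

/-! Step EBASE. -/

set_option autoImplicit false

namespace Pool.Agent.P.MP_8d2e9f_nt.AO

open Polynomial NumberField Pool.Agent.P.MP_8d2e9f_nt.G
open scoped IntermediateField Classical

theorem p_EBASE (hETW : S_ETW) (hETX : S_ETX) :
    S_EBASE := by
  intro K K₁ α β e P x u s hle hα hβ hμ hT hx hab hP hu hT1 hfix hnf
  obtain ⟨x1, -, x3, x4⟩ := hETX α β e hT
  have gu : ∀ (g : GK K) (a : Qbar), a ^ (2 * e) = 1 → ∀ Q : (ec α β).Point,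
      ga g (twp (RingHom.id _) a Q) = twp (RingHom.id _) a (ga g Q) := fun g a ha Q =>
    ga_twp hα hβ g Q (hμ a ha) (x1 a ha).1
  have uu : ∀ a b : Qbar, a ^ (2 * e) = 1 → b ^ (2 * e) = 1 → ∀ Q : (ec α β).Point,
      twp (RingHom.id _) a (twp (RingHom.id _) b Q) = twp (RingHom.id _) (a * b) Q :=
    fun a b ha hb Q => by
      rw [((hETW α β _ _ (x1 a ha).1).2.2.2 _ _ (x1 b hb).1).2, RingHom.comp_id, RingHom.id_apply]
  have gp : ∀ g : GK K, g (x ^ e) = x ^ e → ∃ a : Qbar, a ^ (2 * e) = 1 ∧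
      ga g P = twp (RingHom.id _) a P := fun g hg =>
    x4 P _ x (g x) hx (by rw [xp_ga hα hβ, hx]; rfl) (by rw [← map_pow, hg])
  have key : ∀ κ : GK K₁, κ (x ^ e) = x ^ e → ga κ P = P := fun κ hκ => by
    have hf := hfix κ
    rw [← ga_up hle] at hf ⊢
    rw [← up_apply hle] at hκ
    generalize up hle κ = ρ at hf hκ ⊢
    obtain ⟨u1, a1, b1⟩ := gp ρ hκ
    obtain ⟨u2, a2, b2⟩ := gp (s⁻¹ * ρ * s) (by
      rw [AlgEquiv.mul_apply, AlgEquiv.mul_apply, hab ρ s, hκ, ← AlgEquiv.mul_apply,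
        inv_mul_cancel, AlgEquiv.one_apply])
    set T := ga s P - twp (RingHom.id _) u P with hTd
    have e0 : ga s P = twp (RingHom.id _) u P + T := by rw [hTd, add_sub_cancel]
    have e1 : ga ρ (ga s P) = twp (RingHom.id _) u2 (ga s P) := by
      rw [← gu s u2 a2, ← b2, ← ga_mul hα hβ, ← ga_mul hα hβ, ← mul_assoc, ← mul_assoc,
        mul_inv_cancel, one_mul]
    rw [e0, ga_add hα hβ, (hETW α β _ _ (x1 u2 a2).1).1, gu ρ u hu, b1, uu _ _ hu a1,
      uu _ _ a2 hu, hf] at e1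
    have m1 : (u * u1) ^ (2 * e) = 1 := by rw [mul_pow, hu, a1, one_mul]
    have m2 : (u2 * u) ^ (2 * e) = 1 := by rw [mul_pow, hu, a2, one_mul]
    have m3 : (u2 * u)⁻¹ ^ (2 * e) = 1 := by rw [inv_pow, m2, inv_one]
    have m4 : ((u2 * u)⁻¹ * (u * u1)) ^ (2 * e) = 1 := by rw [mul_pow, m3, m1, one_mul]
    have n2 : u2 * u ≠ 0 := (x1 _ m2).1.1
    have e2 : u * u1 = u2 * u := by
      by_contra hne
      obtain ⟨N, hN, hN0⟩ := isOfFinAddOrder_iff_nsmul_eq_zero.1 hT1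
      let B := AddMonoidHom.mk' _ (hETW α β _ _ (x1 u2 a2).1).1
      let C1 := AddMonoidHom.mk' _ (hETW α β _ _ (x1 _ m1).1).1
      let C2 := AddMonoidHom.mk' _ (hETW α β _ _ (x1 _ m2).1).1
      have e3 : C1 P + T = C2 P + B T := e1
      have e4 : C1 (N • P) = C2 (N • P) := by
        have := congrArg (N • ·) e3
        simpa only [nsmul_add, ← map_nsmul, hN0, map_zero, add_zero] using this
      have hf := (x1 _ m4).2 fun h => hne (by rwa [inv_mul_eq_one₀ n2, eq_comm] at h)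
      refine hP (IsOfFinAddOrder.of_nsmul (finite_multiples.1 (hf.subset ?_)) hN.ne')
      rintro _ ⟨k, rfl⟩
      have e5 : C1 (k • N • P) = C2 (k • N • P) := by rw [map_nsmul, e4, ← map_nsmul]
      have e6 : twp (RingHom.id _) (u * u1) (k • N • P) =
        twp (RingHom.id _) (u2 * u) (k • N • P) := e5
      show twp (RingHom.id _) _ (k • N • P) = k • N • P
      rw [← uu _ _ m3 m1, e6, uu _ _ m3 m2, inv_mul_cancel₀ n2, (x3 _).1]
    rw [e2, add_right_inj] at e1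
    have e7 : u2 = 1 := by_contra fun h => hnf u2 a2 h e1.symm
    rw [e7, one_mul, mul_eq_left₀ (x1 u hu).1.1] at e2
    rw [b1, e2, (x3 _).1]
  intro σ ρ
  have h1 := key ((ρ * σ)⁻¹ * (σ * ρ)) (by
    have h2 : σ (ρ (x ^ e)) = ρ (σ (x ^ e)) := hab (up hle σ) (up hle ρ)
    rw [AlgEquiv.mul_apply, AlgEquiv.mul_apply σ, h2, ← AlgEquiv.mul_apply ρ,
      ← AlgEquiv.mul_apply, inv_mul_cancel, AlgEquiv.one_apply])
  have h2 := congrArg (ga (ρ * σ)) h1
  rwa [← ga_mul (hle hα) (hle hβ), mul_inv_cancel_left, ga_mul (hle hα) (hle hβ),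
    ga_mul (hle hα) (hle hβ)] at h2

end Pool.Agent.P.MP_8d2e9f_nt.AO
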