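import Pool.Agent.P.MP_8d2e9f_nt.AO.IfaceD
import Pool.Agent.P.MP_8d2e9f_nt.AO.TETA

/-! Step ECLO. -/

set_option autoImplicit false

namespace Pool.Agent.P.MP_8d2e9f_nt.AO

open Polynomial NumberField Pool.Agent.P.MP_8d2e9f_nt.G
open scoped IntermediateField Classical

lemma eclo_d1 {F : Type} [NormedField F] [IsUltrametricDist F] {a b x₁ x₂ x₃ l ν : F} {r : ℝ}
    (ha : ‖a‖ ≤ 1) (hb : ‖b‖ ≤ 1) (hr : 1 ≤ r) (h1 : r ≤ ‖x₁‖) (e1 : x₁ + x₂ + x₃ = l ^ 2)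
    (e2 : x₁ * x₂ + x₁ * x₃ + x₂ * x₃ = a - 2 * l * ν) (e3 : x₁ * x₂ * x₃ = ν ^ 2 - b) :
    r * ‖x₃ - x₂‖ ^ 2 ≤ max 1 ‖x₂‖ ^ 2 * max 1 ‖x₃‖ ^ 2 := by
  have e0 : (x₁ * x₂ + x₁ * x₃ + x₂ * x₃ - a) ^ 2 =
      4 * ((x₁ + x₂ + x₃) * (x₁ * x₂ * x₃ + b)) := by
    have : x₁ * x₂ + x₁ * x₃ + x₂ * x₃ - a = -(2 * l * ν) := by linear_combination e2
    rw [this, e1, e3]
    ring
  have e : x₁ ^ 2 * (x₃ - x₂) ^ 2 =
      x₁ * (((2 : ℕ) : F) * ((x₂ + x₃) * (x₂ * x₃ + a)) + ((4 : ℕ) : F) * b) +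
        (-((x₂ * x₃ + -a) ^ 2) + ((4 : ℕ) : F) * (b * (x₂ + x₃))) := by
    push_cast
    linear_combination e0
  obtain ⟨u, hu⟩ : ∃ u, u = max 1 ‖x₂‖ := ⟨_, rfl⟩
  obtain ⟨v, hv⟩ : ∃ v, v = max 1 ‖x₃‖ := ⟨_, rfl⟩
  have u1 : 1 ≤ u := hu ▸ le_max_left _ _
  have v1 : 1 ≤ v := hv ▸ le_max_left _ _
  have u2 : ‖x₂‖ ≤ u := hu ▸ le_max_right _ _
  have v2 : ‖x₃‖ ≤ v := hv ▸ le_max_right _ _
  rw [← hu, ← hv, ← mul_pow]
  have w1 : 1 ≤ u * v := one_le_mul_of_one_le_of_one_le u1 v1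
  have wu : u ≤ u * v := le_mul_of_one_le_right (by linarith) v1
  have wv : v ≤ u * v := le_mul_of_one_le_left (by linarith) u1
  have hP : ‖x₂ * x₃‖ ≤ u * v := by
    rw [norm_mul]
    exact mul_le_mul u2 v2 (norm_nonneg _) (by linarith)
  generalize u * v = w at *
  have hs : ‖x₂ + x₃‖ ≤ w := eta_le (u2.trans wu) (v2.trans wv)
  have hp : ‖x₂ * x₃ + a‖ ≤ w := eta_le hP (ha.trans w1)
  have hm : ‖x₂ * x₃ + -a‖ ≤ w := eta_le hP (by rw [norm_neg]; exact ha.trans w1)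
  have w2 : w ≤ w ^ 2 := by nlinarith
  have x1 : 1 ≤ ‖x₁‖ := hr.trans h1
  have hA : ‖((2 : ℕ) : F) * ((x₂ + x₃) * (x₂ * x₃ + a)) + ((4 : ℕ) : F) * b‖ ≤ w ^ 2 := by
    refine eta_le ((eta_nat 2 _).trans ?_) ((eta_nat 4 _).trans (hb.trans (w1.trans w2)))
    rw [norm_mul, sq]
    exact mul_le_mul hs hp (norm_nonneg _) (by linarith)
  have hB : ‖-((x₂ * x₃ + -a) ^ 2) + ((4 : ℕ) : F) * (b * (x₂ + x₃))‖ ≤ w ^ 2 := by
    refine eta_le ?_ ((eta_nat 4 _).trans ?_)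
    · rw [norm_neg, norm_pow]
      exact pow_le_pow_left₀ (norm_nonneg _) hm 2
    · rw [norm_mul]
      exact (mul_le_of_le_one_left (norm_nonneg _) hb).trans (hs.trans w2)
  have hN : ‖x₁ ^ 2 * (x₃ - x₂) ^ 2‖ ≤ ‖x₁‖ * w ^ 2 := by
    rw [e]
    refine eta_le ?_ (hB.trans (le_mul_of_one_le_left (sq_nonneg w) x1))
    rw [norm_mul]
    exact mul_le_mul_of_nonneg_left hA (norm_nonneg _)
  rw [norm_mul, norm_pow, norm_pow] at hN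
  have h5 := sq_nonneg ‖x₃ - x₂‖
  generalize ‖x₃ - x₂‖ ^ 2 = s at *
  generalize ‖x₁‖ = t at *
  have h6 : t * s ≤ w ^ 2 := le_of_mul_le_mul_left (by nlinarith) (by linarith : 0 < t)
  exact (mul_le_mul_of_nonneg_right h1 h5).trans h6

open WeierstrassCurve WeierstrassCurve.Affine in
theorem p_ECLO :
    S_ECLO := by
  intro α β p _ j r hE hr T R x x' hR hT hS
  obtain ⟨-, ha, hb, -⟩ := hE
  rcases R with _ | ⟨x₁, y₁, h₁⟩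
  · rw [← Point.zero_def, zero_add, hT] at hS
    have : x = x' := Option.some.inj hS
    rw [this, sub_self, map_zero, norm_zero]
    have : r * 0 ^ 2 = 0 := by ring
    rw [this]
    positivity
  rcases T with _ | ⟨x₂, y₂, h₂⟩
  · cases hT
  have hx : x₂ = x := Option.some.inj hT
  by_cases hxy : x₁ = x₂ ∧ y₁ = (ec α β).negY x₂ y₂
  · rw [Point.add_of_Y_eq hxy.1 hxy.2] at hS
    cases hS
  obtain ⟨x₃, l, ν, f1, -, -, -, e1, e2, e3⟩ := eta_line h₁.1 h₂.1 hxy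
  have h1 := hR x₁ rfl
  have g1 := congrArg j e1
  have g2 := congrArg j e2
  have g3 := congrArg j e3
  simp only [map_add, map_mul, map_sub, map_pow, map_ofNat] at g1 g2 g3
  rw [Point.add_some hxy] at hS
  have hx' : (ec α β).addX x₁ x₂ ((ec α β).slope x₁ x₂ y₁ y₂) = x' := Option.some.inj hS
  rw [← hx', f1, ← hx, map_sub]
  exact eclo_d1 ha hb hr h1 g1 g2 g3

end Pool.Agent.P.MP_8d2e9f_nt.AO
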