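import Pool.Agent.P.MP_8d2e9f_nt.AO.IfaceD

/-! Step ECYC. -/

set_option autoImplicit false

namespace Pool.Agent.P.MP_8d2e9f_nt.AO

open Polynomial NumberField Pool.Agent.P.MP_8d2e9f_nt.G
open scoped IntermediateField Classical

theorem p_ECYC :
    S_ECYC := by
  intro A _ p M _ h a
  induction a with
  | zero =>
    intro T₀ h₀ T hT h1 h2 h3
    simp only [zero_add, pow_one, pow_zero, one_smul] at h1 h2 h3
    exact h T₀ h₀ T hT h1 h3 h2
  | succ a ih =>
    intro T₀ h₀ T hT h1 h2 h3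
    have e : ∀ (b : ℕ) (X : A), p ^ b • (p • X) = p ^ (b + 1) • X := fun b X => by
      rw [smul_smul, pow_succ]
    have h4 := ih (p • T₀) (M.nsmul_mem h₀ p) (p • T) (M.nsmul_mem hT p)
      (by rw [e]; exact h1) (by rw [e]; exact h2) (by rw [e]; exact h3)
    obtain ⟨k, hk⟩ := AddSubgroup.mem_zmultiples_iff.1 h4
    have h5 : p • (T - k • T₀) = 0 := by
      rw [smul_sub, ← hk, smul_comm p k T₀, sub_self]
    have h6 : p • (p ^ (a + 1) • T₀) = 0 := by
      rw [smul_smul, ← pow_succ']; exact h1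
    have h7 := h (p ^ (a + 1) • T₀) (M.nsmul_mem h₀ _) (T - k • T₀)
      (M.sub_mem hT (M.zsmul_mem h₀ k)) h6 h5 h2
    have h8 : T - k • T₀ ∈ AddSubgroup.zmultiples T₀ :=
      (AddSubgroup.zmultiples_le_of_mem
        ((AddSubgroup.zmultiples T₀).nsmul_mem (AddSubgroup.mem_zmultiples T₀) _)) h7
    have h9 := (AddSubgroup.zmultiples T₀).add_mem h8
      ((AddSubgroup.zmultiples T₀).zsmul_mem (AddSubgroup.mem_zmultiples T₀) k)
    simpa using h9

end Pool.Agent.P.MP_8d2e9f_nt.AO
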