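import Pool.Agent.P.MP_8d2e9f_nt.AO.IfaceD

/-! Step EFIX. -/

set_option autoImplicit false

namespace Pool.Agent.P.MP_8d2e9f_nt.AO

open Polynomial NumberField Pool.Agent.P.MP_8d2e9f_nt.G
open scoped IntermediateField Classical

theorem p_EFIX :
    S_EFIX := by
  intro A _ p M F hp hM h0 hT hF hC
  have := Fact.mk hp
  obtain ⟨W, ⟨w1, w2, w3⟩, hmin⟩ := exists_minimalFor_of_wellFoundedLT
    (fun W : AddSubgroup A => W ≤ M ∧ W ≠ ⊥ ∧ ∀ f ∈ F, ∀ v ∈ W, f v ∈ W)
    (fun W => (W : Set A).ncard) ⟨M, le_rfl, h0, hF⟩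
  have hW : (W : Set A).Finite := hM.subset w1
  have key : ∀ g : A →+ A, (∀ f ∈ F, ∀ v ∈ W, g (f v) = f (g v)) → ∀ v ∈ W, v ≠ 0 → g v = v →
      ∀ w ∈ W, g w = w := fun g hg v hv v0 e w hw => by
    let W' : AddSubgroup A := W ⊓ g.eqLocus (AddMonoidHom.id A)
    have a : W' ≤ M ∧ W' ≠ ⊥ ∧ ∀ f ∈ F, ∀ v ∈ W', f v ∈ W' :=
      ⟨inf_le_left.trans w1, fun k => v0 (AddSubgroup.mem_bot.1 (k ▸ (⟨hv, e⟩ : v ∈ W'))),
        fun f hf u hu => ⟨w3 f hf u hu.1, (hg f hf u hu.1).trans (congrArg f hu.2)⟩⟩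
    have b : (W' : Set A) = W := Set.eq_of_subset_of_ncard_le (fun _ k => k.1)
      (hmin a (Set.ncard_le_ncard (fun _ k => k.1) hW)) hW
    exact (show w ∈ (W' : Set A) from b ▸ hw).2
  obtain ⟨⟨v, hv⟩, v0⟩ := AddSubgroup.ne_bot_iff_exists_ne_zero.1 w2
  have v1 : v ≠ 0 := fun k => v0 (Subtype.ext k)
  refine ⟨v, w1 hv, v1, fun f hf e => ?_⟩
  have hit : ∀ n, ∀ u ∈ W, f^[n] u ∈ W := fun n u hu => by
    induction n with
    | zero => exact hu
    | succ n ih => exact Function.iterate_succ_apply' f n u ▸ w3 f hf _ ih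
  have h1 : ∀ w ∈ W, f^[p] w = w := by
    refine key ⟨⟨f^[p], iterate_map_zero f p⟩, iterate_map_add f p⟩ (fun g hg u hu => ?_) v hv v1 e
    change f^[p] (g u) = g (f^[p] u)
    generalize p = n
    induction n with
    | zero => rfl
    | succ n ih =>
      rw [Function.iterate_succ_apply', Function.iterate_succ_apply', ih,
        hC f hf g hg _ (w1 (hit n u hu))]
  have := hW.to_subtype
  have := Fintype.ofFinite W
  let g : W → W := fun w => ⟨f w, w3 f hf _ w.2⟩
  have h2 : g^[p] = id := funext fun w => Subtype.ext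
    ((Function.Semiconj.iterate_right (f := Subtype.val) (ga := g) (gb := f) (fun _ => rfl) p
      w).trans (h1 _ w.2))
  have h3 : Function.Bijective g := Finite.injective_iff_bijective.1 (Function.Injective.of_comp
    (f := g^[p - 1]) (by
      rw [← Function.iterate_succ, Nat.succ_eq_add_one, Nat.sub_add_cancel hp.pos, h2]
      exact Function.injective_id))
  obtain ⟨b, b1, b2⟩ := Equiv.Perm.exists_fixed_point_of_prime' (p := p) (n := 1)
    (σ := Equiv.ofBijective g h3) (a := 0)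
    (addOrderOf_eq_prime (x := (⟨v, hv⟩ : W)) (Subtype.ext (hT v (w1 hv))) v0 ▸ addOrderOf_dvd_card)
    (by
      rw [pow_one]
      exact DFunLike.coe_injective ((Equiv.Perm.coe_pow _ _).trans h2))
    (Subtype.ext (map_zero f))
  exact key f (fun g hg u hu => hC f hf g hg u (w1 hu)) b b.2 (fun k => b2 (Subtype.ext k))
    (congrArg Subtype.val b1) v hv

end Pool.Agent.P.MP_8d2e9f_nt.AO
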