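import Pool.Agent.P.MP_8d2e9f_nt.AO.IfaceD

/-! Step EFX. -/

set_option autoImplicit false

namespace Pool.Agent.P.MP_8d2e9f_nt.AO

open Polynomial NumberField Pool.Agent.P.MP_8d2e9f_nt.G
open scoped IntermediateField Classical

theorem p_EFX (hETW : S_ETW) (hETX : S_ETX) :
    S_EFX := by
  intro α β e ht
  have he : 0 < e := by
    rcases ht.2 with h | h | h
    · omega
    · omega
    · omega
  have hroot : {u : Qbar | u ^ (2 * e) = 1 ∧ u ≠ 1}.Finite :=
    (nthRoots (2 * e) (1 : Qbar)).toFinset.finite_toSet.subset fun u hu =>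
      Finset.mem_coe.2 (Multiset.mem_toFinset.2 ((mem_nthRoots (by omega)).2 hu.1))
  obtain ⟨N, hN⟩ := ((hroot.biUnion (t := fun u => {P : (ec α β).Point |
    twp (RingHom.id _) u P = P}) fun u hu => ((hETX α β e ht).1 u hu.1).2 hu.2).image
      addOrderOf).bddAbove
  refine ⟨N, fun p n T v hp hlt h1 h2 h3 h4 h5 => ?_⟩
  have h6 : addOrderOf T ≤ N := hN ⟨T, Set.mem_biUnion (x := v) ⟨h3, h4⟩ h5, rfl⟩
  obtain ⟨i, -, hi⟩ := (Nat.dvd_prime_pow hp).1 (addOrderOf_dvd_of_nsmul_eq_zero h1)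
  rcases i with _ | i
  · exact h2 (AddMonoid.addOrderOf_eq_one_iff.1 hi)
  · have := Nat.le_self_pow (Nat.succ_ne_zero i) p
    rw [Nat.succ_eq_add_one] at this
    omega

end Pool.Agent.P.MP_8d2e9f_nt.AO
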