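import Pool.Agent.P.MP_8d2e9f_nt.AO.IfaceD

/-! Step EG. -/

set_option autoImplicit false

namespace Pool.Agent.P.MP_8d2e9f_nt.AO

open Polynomial NumberField Pool.Agent.P.MP_8d2e9f_nt.G
open scoped IntermediateField Classical

theorem p_EG (hRFA : S_RFA) (hEMUL : S_EMUL) :
    S_EG := by
  intro α β n hΔ hn
  obtain ⟨-, R, S, hR, hS, h⟩ := hEMUL α β n hΔ hn
  obtain ⟨h1, h2, -, h4⟩ := hRFA
  have hX : RFn fun x : Qbar => x := by simpa using h1 X
  refine ⟨fun s => R s⁻¹ / (s⁻¹ * S s⁻¹),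
    h4 (fun x => R x / (x * S x)) (h2 _ _ hR (h2 _ _ hX hS).2.2.1).2.2.2, ?_⟩
  have hinv : Filter.Tendsto (fun s : Qbar => s⁻¹) Filter.cofinite Filter.cofinite :=
    inv_injective.tendsto_cofinite
  filter_upwards [hinv.eventually h, Filter.eventually_cofinite_ne (0 : Qbar)] with s hs hs0 Q hQ
  rcases Q with _ | ⟨x, y, hxy⟩
  · exact absurd hQ (by simp [xp])
  · have hx : x = s⁻¹ := by simpa [xp] using hQ
    subst hx
    obtain ⟨h', e⟩ := hs y hxy
    rw [e]
    simp only [tp]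
    by_cases hy : y = 0
    · simp [hy]
    · by_cases hS0 : S s⁻¹ = 0
      · simp [hS0]
      · field_simp

end Pool.Agent.P.MP_8d2e9f_nt.AO
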