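import Pool.Agent.P.MP_8d2e9f_nt.AO.IfaceD
import Pool.Agent.P.MP_8d2e9f_nt.AO.TEHT
import Pool.Agent.P.MP_8d2e9f_nt.AO.TEAMP

/-! Step EHZ. -/

set_option autoImplicit false

namespace Pool.Agent.P.MP_8d2e9f_nt.AO

open Polynomial NumberField Pool.Agent.P.MP_8d2e9f_nt.G
open scoped IntermediateField Classical

lemma ehz_d_tors {A : Type} [AddCommGroup A] {P : A}
    (h : (Set.range fun n : ℕ => 2 ^ n • P).Finite) : IsOfFinAddOrder P := by
  obtain ⟨n, m, hnm, e⟩ : ∃ n m : ℕ, n < m ∧ 2 ^ n • P = 2 ^ m • P := by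
    by_contra hc
    refine Set.infinite_range_of_injective (f := fun n : ℕ => 2 ^ n • P) (fun a b hab => ?_) h
    rcases lt_trichotomy a b with h1 | h1 | h1
    · exact absurd ⟨a, b, h1, hab⟩ hc
    · exact h1
    · exact absurd ⟨b, a, h1, hab.symm⟩ hc
  have hlt : 2 ^ n < 2 ^ m := Nat.pow_lt_pow_right (by norm_num) hnm
  refine isOfFinAddOrder_iff_nsmul_eq_zero.2 ⟨2 ^ m - 2 ^ n, by omega, ?_⟩
  have e2 : (2 ^ m - 2 ^ n) • P + 2 ^ n • P = 2 ^ m • P := by
    rw [← add_nsmul, Nat.sub_add_cancel hlt.le]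
  rw [← e] at e2
  exact add_eq_right.1 e2

theorem p_EHZ (hPRN : S_PRN) (hCANH : S_CANH) (hCOMM : S_COMM) (hEDB : S_EDB) (hEHT : S_EHT) (hNORS : S_NORS) :
    S_EHZ := by
  intro K α β H hK hα hβ hΔ hH
  obtain ⟨h0, hadd, htw, htor⟩ := hEHT α β H hΔ hH
  have hpp := ((hCANH 4 (dbl α β) (by norm_num)
    (hPRN.1 Qbar 4 _ _ (hCOMM α β hΔ).1).1.rm).2 H hH).2.1
  have g : ∀ P : (ec α β).Point, H (xp (P + P)) = 4 * H (xp P) := fun P => by
    rw [hEDB α β hΔ, hH.1]
    norm_num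
  have gp := eht_pow (G := fun P : (ec α β).Point => H (xp P)) g
  have hga : ∀ (σ : GK K) (P : (ec α β).Point), H (xp (ga σ P)) = H (xp P) := fun σ P =>
    htw K σ 1 (ga_tw hα hβ σ) P
  have it : ∀ (P : (ec α β).Point) (n : ℕ), (dbl α β)^[n] (xp P) = xp (2 ^ n • P) := by
    intro P n
    induction n with
    | zero => simp
    | succ n ih =>
      rw [Function.iterate_succ_apply', ih, ← hEDB α β hΔ, pow_succ', mul_smul, two_smul]
  have z : ∀ P : (ec α β).Point, H (xp P) = 0 → IsOfFinAddOrder P := fun P hP => by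
    refine ehz_d_tors ((xp_fib (α := α) (β := β) ((hpp _).1 hP)).subset ?_)
    rintro _ ⟨n, rfl⟩
    exact ⟨n, it P n⟩
  refine ⟨z, fun σ r m P => ⟨?_, fun hr hm ht => ?_⟩, fun P => ?_⟩
  · have a1 := eamp_mul (fun T : (ec α β).Point => H (xp T)) h0 (htor 0 IsOfFinAddOrder.zero) hadd
      (ga σ P - 2 ^ r • P) m
    have a2 := hadd (ga σ P) (-(2 ^ r • P))
    rw [xp_neg, hga, ← sub_eq_add_neg] at a2
    have a3 := gp r P
    rw [a3] at a2
    refine a1.trans ?_
    rw [mul_assoc]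
    refine mul_le_mul_of_nonneg_left ?_ (by positivity)
    linarith
  · obtain ⟨N, hN, e⟩ := isOfFinAddOrder_iff_nsmul_eq_zero.1 ht
    have e1 : ga σ ((N * m) • P) = 2 ^ r • (N * m) • P := by
      rw [ga_nsmul hα hβ, smul_comm (2 ^ r) (N * m) P, ← sub_eq_zero, ← nsmul_sub, mul_smul]
      exact e
    have e2 := hga σ ((N * m) • P)
    have e3 := gp r ((N * m) • P)
    rw [e1, e3] at e2
    have e4 : (1 : ℝ) < 4 ^ r := one_lt_pow₀ (by norm_num) hr.ne'
    have e5 : H (xp ((N * m) • P)) = 0 := by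
      have : (4 ^ r - 1) * H (xp ((N * m) • P)) = 0 := by linarith
      exact (mul_eq_zero.1 this).resolve_left (by linarith)
    obtain ⟨M, hM, e6⟩ := isOfFinAddOrder_iff_nsmul_eq_zero.1 (z _ e5)
    exact isOfFinAddOrder_iff_nsmul_eq_zero.2
      ⟨M * (N * m), by positivity, by rw [mul_smul]; exact e6⟩
  · obtain ⟨C, hC⟩ := hH.2
    obtain ⟨K₁, hK₁, hle, hfix⟩ := ex_fix hK hα hβ (Set.finite_singleton P)
    refine (xp_fib (((hNORS K₁ ∅ C hK₁ Set.finite_empty).image some).insert none)).subset ?_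
    rintro T ⟨hT, hρ⟩
    rcases hx : xp T with _ | x
    · exact Or.inl hx
    · refine Or.inr ⟨x, ⟨?_, fun ρ _ => ?_⟩, hx.symm⟩
      · have a1 := htor T hT
        have a2 := (abs_le.1 (hC (xp T))).1
        rw [a1, hx] at a2
        unfold wh
        linarith
      · have a1 := hρ (up hle ρ) (hfix P rfl ρ)
        have a2 := xp_ga hα hβ (up hle ρ) T
        rw [a1, hx, Option.map_some] at a2
        exact (Option.some.inj a2).symm

end Pool.Agent.P.MP_8d2e9f_nt.AO
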