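import Pool.Agent.P.MP_8d2e9f_nt.AO.IfaceD

/-! Step EKER. -/

set_option autoImplicit false

namespace Pool.Agent.P.MP_8d2e9f_nt.AO

open Polynomial NumberField Pool.Agent.P.MP_8d2e9f_nt.G
open scoped IntermediateField Classical

theorem p_EKER (hENEAR : S_ENEAR) (hELOC : S_ELOC) :
    S_EKER := by
  intro K α β p _ j s P hα hβ he hd hs hx
  have hL := (hELOC α β p j he).1
  rw [sq, ga_mul hα hβ]
  by_cases hP : Ker j P
  · exact (hL _ _ ((hP.ga hα hβ s hs).ga hα hβ s hs) hP).2.2.1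
  simp only [Ker, not_forall, not_lt] at hP
  obtain ⟨x, h1, h2⟩ := hP
  obtain ⟨r, hr, h⟩ := hENEAR α β 1 p j _ (typ_one he.1) he.2.2.2 he.2.1 he.2.2.1 hd (hx x h1 h2)
  obtain ⟨u, hu, hn⟩ := h P (ga s P) x (s x) h1 (by rw [xp_ga hα hβ, h1]; rfl)
    ⟨by simp only [pow_one, hs x, max_eq_left h2, mul_one, le_refl], by simp only [pow_one, hs x]⟩
  have hk : Ker j (ga s P - twp (RingHom.id _) u P) := fun y hy => hr.trans_le (hn y hy)
  have ht := (p_ETX p_ETW α β 1 (typ_one he.1)).2.2.1 P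
  rcases sq_eq_one_iff.1 (show u ^ 2 = 1 from hu) with rfl | rfl
  · rw [ht.1] at hk
    have := (hL _ _ (hk.ga hα hβ s hs) hk).1
    rwa [ga_sub hα hβ, sub_add_sub_cancel] at this
  · rw [ht.2.1] at hk
    have := (hL _ _ (hk.ga hα hβ s hs) hk).2.2.1
    rwa [sub_neg_eq_add, ga_add hα hβ, add_comm (ga s P) P, add_sub_add_right_eq_sub] at this

end Pool.Agent.P.MP_8d2e9f_nt.AO
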