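import Pool.Agent.P.MP_8d2e9f_nt.AO.IfaceD
import Pool.Agent.P.MP_8d2e9f_nt.AO.TECON
import Pool.Agent.P.MP_8d2e9f_nt.AO.TETA

/-! Step ELOC. -/

set_option autoImplicit false

namespace Pool.Agent.P.MP_8d2e9f_nt.AO

open Polynomial NumberField Pool.Agent.P.MP_8d2e9f_nt.G
open scoped IntermediateField Classical

lemma eloc_duniq {F : Type} [NormedField F] [IsUltrametricDist F] {a b t w v : F} (ha : ‖a‖ ≤ 1)
    (hb : ‖b‖ ≤ 1) (ht : ‖t‖ ≤ 1) (hw : ‖w‖ < 1) (hv : ‖v‖ < 1)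
    (e1 : w = t ^ 3 + a * t * w ^ 2 + b * w ^ 3) (e2 : v = t ^ 3 + a * t * v ^ 2 + b * v ^ 3) :
    w = v := by
  have m : ∀ x y : F, ‖x‖ ≤ 1 → ‖y‖ < 1 → ‖x * y‖ < 1 := fun x y hx hy => by
    rw [norm_mul]
    exact (mul_le_of_le_one_left (norm_nonneg _) hx).trans_lt hy
  have h : ‖a * (t * (w + v)) + b * (w * w + w * v + v * v)‖ < 1 :=
    eta_lt (m _ _ ha (m _ _ ht (eta_lt hw hv)))
      (m _ _ hb (eta_lt (eta_lt (m _ _ hw.le hw) (m _ _ hw.le hv)) (m _ _ hv.le hv)))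
  by_contra hne
  have : a * (t * (w + v)) + b * (w * w + w * v + v * v) = 1 :=
    mul_left_cancel₀ (sub_ne_zero.2 hne) (by linear_combination e2 - e1)
  rw [this, norm_one] at h
  exact lt_irrefl _ h

section

variable {α β : Qbar} {p : ℕ} [Fact p.Prime] {j : Qbar →+* Om p}

lemma eloc_dker (h : Ei j α β) {P : (ec α β).Point} {x : Qbar} (hP : Ker j P)
    (hx : xp P = some x) : ‖j (tp P)‖ ^ 2 * ‖j x‖ = 1 ∧ ‖j (tp P)‖ < 1 ∧ tp P ≠ 0 := by
  have h1 := hP x hx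
  rcases P with _ | ⟨x', y, hxy⟩
  · cases hx
  cases hx
  have h2 := econ_tx j h.2.1 h.2.2.1 hxy h1
  refine ⟨h2, not_le.1 fun h3 => ?_, fun h3 => ?_⟩
  · nlinarith [one_le_pow₀ (n := 2) h3]
  · rw [h3] at h2
    simp at h2

lemma eloc_dw (h : Ei j α β) {x y : Qbar} (hxy : (ec α β).Nonsingular x y) (hx : 1 < ‖j x‖) :
    y ≠ 0 ∧ ‖j (-y⁻¹)‖ < 1 ∧
      -y⁻¹ = (-x / y) ^ 3 + α * (-x / y) * (-y⁻¹) ^ 2 + β * (-y⁻¹) ^ 3 := by
  have e : y ^ 2 = x ^ 3 + α * x + β := by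
    have := (WeierstrassCurve.Affine.equation_iff _ _).1 hxy.1
    simp only [ec] at this
    linear_combination this
  have h1 : ‖j y‖ ^ 2 = ‖j x‖ ^ 3 := eta_y h.2.1 h.2.2.1 hx (by
    simpa only [map_add, map_mul, map_pow] using congrArg j e)
  have h2 : 1 < ‖j y‖ := not_le.1 fun h3 =>
    absurd (h1 ▸ pow_le_one₀ (norm_nonneg _) h3) (not_le.2 (one_lt_pow₀ hx three_ne_zero))
  have h0 : y ≠ 0 := fun h3 => by
    rw [h3, map_zero, norm_zero] at h2
    linarith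
  refine ⟨h0, ?_, ?_⟩
  · rw [map_neg, norm_neg, map_inv₀, norm_inv]
    exact inv_lt_one_of_one_lt₀ h2
  · field_simp
    linear_combination -e

lemma eloc_dinj (h : Ei j α β) {P Q : (ec α β).Point} (hP : Ker j P) (hQ : Ker j Q)
    (e : tp P = tp Q) : P = Q := by
  rcases P with _ | ⟨x, y, h1⟩ <;> rcases Q with _ | ⟨x', y', h2⟩
  · rfl
  · exact absurd e.symm (eloc_dker h hQ rfl).2.2
  · exact absurd e (eloc_dker h hP rfl).2.2
  obtain ⟨a0, a1, a2⟩ := eloc_dw h h1 (hP x rfl)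
  obtain ⟨b0, b1, b2⟩ := eloc_dw h h2 (hQ x' rfl)
  have ht := (eloc_dker h hP rfl).2.1
  change -x / y = -x' / y' at e
  change ‖j (-x / y)‖ < 1 at ht
  rw [← e] at b2
  have e1 := eloc_duniq h.2.1 h.2.2.1 ht.le a1 b1
    (by simpa only [map_add, map_mul, map_pow] using congrArg j a2)
    (by simpa only [map_add, map_mul, map_pow] using congrArg j b2)
  obtain rfl : y = y' := inv_injective (neg_injective (j.injective e1))
  obtain rfl : x = x' := neg_injective ((div_left_inj' a0).1 e)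
  rfl

lemma eloc_dr {P : (ec α β).Point} (hP : Ker j P) : ∃ r : ℝ, 1 < r ∧ Nr j r P := by
  rcases P with _ | ⟨x, y, h⟩
  · exact ⟨2, one_lt_two, fun _ hx => by cases hx⟩
  · exact ⟨‖j x‖, hP x rfl, fun _ hx => by cases hx; exact le_rfl⟩

end

theorem p_ELOC (hETA : S_ETA) :
    S_ELOC := by
  intro α β p _ j h
  have add : ∀ P Q : (ec α β).Point, Ker j P → Ker j Q → Ker j (P + Q) := by
    intro P Q hP hQ
    obtain ⟨r, hr, h1⟩ := eloc_dr hP
    obtain ⟨s, hs, h2⟩ := eloc_dr hQ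
    have := (hETA α β p j (min r s) h.1 h.2.1 h.2.2.1 (lt_min hr hs) P Q
      (fun x hx => (min_le_left _ _).trans (h1 x hx))
      fun x hx => (min_le_right _ _).trans (h2 x hx)).1
    exact fun x hx => (lt_min hr hs).trans_le (this x hx)
  have neg : ∀ P : (ec α β).Point, Ker j P → Ker j (-P) := fun P hP x hx =>
    hP x (xp_neg P ▸ hx)
  refine ⟨fun P Q hP hQ => ⟨add P Q hP hQ, neg P hP, ?_, eloc_dinj h hP hQ⟩,
    fun P x hP hx => eloc_dker h hP hx, fun r T hr hT => ?_⟩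
  · rw [sub_eq_add_neg]
    exact add _ _ hP (neg Q hQ)
  have key : ∀ m : ℕ, Nr j r (m • T) ∧ r ^ 3 * ‖j (tp (m • T) - m * tp T)‖ ^ 2 ≤ 1 := by
    have hr0 : 0 < r := zero_lt_one.trans hr
    intro m
    induction m with
    | zero =>
      rw [zero_nsmul]
      exact ⟨fun x hx => by simp [xp] at hx, by simp [tp]⟩
    | succ m ih =>
      obtain ⟨h1, h2⟩ := hETA α β p j r h.1 h.2.1 h.2.2.1 hr _ _ ih.1 hT
      rw [succ_nsmul]
      refine ⟨h1, ?_⟩
      have e : tp (m • T + T) - ((m + 1 : ℕ) : Qbar) * tp T =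
          (tp (m • T + T) - tp (m • T) - tp T) + (tp (m • T) - m * tp T) := by push_cast; ring
      rw [e, map_add]
      have h3 := IsUltrametricDist.norm_add_le_max (j (tp (m • T + T) - tp (m • T) - tp T))
        (j (tp (m • T) - m * tp T))
      rcases le_max_iff.1 h3 with h4 | h4
      · exact le_trans (by gcongr) h2
      · exact le_trans (by gcongr) ih.2
  refine ⟨econ_le j h.2.1 h.2.2.1 hr hT, fun n => ?_, key⟩
  obtain ⟨m, rfl | rfl⟩ := n.eq_nat_or_neg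
  · rw [natCast_zsmul]
    exact (key m).1
  · rw [neg_zsmul, natCast_zsmul]
    exact fun x hx => (key m).1 x (xp_neg (m • T) ▸ hx)

end Pool.Agent.P.MP_8d2e9f_nt.AO
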