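import Pool.Agent.P.MP_8d2e9f_nt.AO.IfaceD

/-! Step EMUL. -/

set_option autoImplicit false

namespace Pool.Agent.P.MP_8d2e9f_nt.AO

open Polynomial NumberField Pool.Agent.P.MP_8d2e9f_nt.G
open scoped IntermediateField Classical

lemma emul_d_step {α β x₁ x y s L : Qbar} (h₁ : (ec α β).Nonsingular x₁ (y * s))
    (h : (ec α β).Nonsingular x y) (hxy : ¬(x₁ = x ∧ y * s = (ec α β).negY x y))
    (hL : (ec α β).slope x₁ x (y * s) y = y * L) :
    ∃ h' : (ec α β).Nonsingular ((x ^ 3 + α * x + β) * (L * L) - x₁ - x)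
      (y * (0 - (L * ((x ^ 3 + α * x + β) * (L * L) - x₁ - x - x₁) + s))),
      (.some _ _ h₁ : (ec α β).Point) + .some _ _ h = .some _ _ h' := by
  have he : y ^ 2 = x ^ 3 + α * x + β := by
    simpa [ec] using ((ec α β).equation_iff x y).1 h.1
  have e1 : (ec α β).addX x₁ x ((ec α β).slope x₁ x (y * s) y) =
      (x ^ 3 + α * x + β) * (L * L) - x₁ - x := by
    rw [hL, ← he]
    simp only [WeierstrassCurve.Affine.addX, ec]
    ring
  have e2 : (ec α β).addY x₁ x (y * s) ((ec α β).slope x₁ x (y * s) y) =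
      y * (0 - (L * ((x ^ 3 + α * x + β) * (L * L) - x₁ - x - x₁) + s)) := by
    rw [WeierstrassCurve.Affine.addY, WeierstrassCurve.Affine.negAddY, e1, hL]
    simp only [WeierstrassCurve.Affine.negY, ec]
    ring
  have h' := WeierstrassCurve.Affine.nonsingular_add h₁ h hxy
  refine ⟨by rw [← e2, ← e1]; exact h', (WeierstrassCurve.Affine.Point.add_some hxy).trans ?_⟩
  congr 1

/-- The second clause. -/
def emul_d_Q (α β : Qbar) (n : ℕ) : Prop :=
  ∃ R S : Qbar → Qbar, RFn R ∧ RFn S ∧ ∀ᶠ x in Filter.cofinite,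
    ∀ (y : Qbar) (h : (ec α β).Nonsingular x y),
      ∃ h' : (ec α β).Nonsingular (R x) (y * S x), n • (.some x y h : (ec α β).Point) = .some _ _ h'

lemma emul_d_rf (hRFA : S_RFA) (α β : Qbar) {R S L : Qbar → Qbar} (hR : RFn R) (hS : RFn S)
    (hL : RFn L) :
    RFn (fun x => (x ^ 3 + α * x + β) * (L x * L x) - R x - x) ∧
      RFn (fun x => 0 - (L x * ((x ^ 3 + α * x + β) * (L x * L x) - R x - x - R x) + S x)) := by
  obtain ⟨h1, h2, -, -⟩ := hRFA
  have hc : RFn fun x => x ^ 3 + α * x + β := by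
    simpa [cub] using h1 (cub α β)
  have hx : RFn fun x => x := by simpa using h1 X
  have h0 : RFn fun _ => 0 := by simpa using h1 0
  have hA : RFn (fun x => (x ^ 3 + α * x + β) * (L x * L x) - R x - x) :=
    (h2 _ _ (h2 _ _ (h2 _ _ hc (h2 _ _ hL hL).2.2.1).2.2.1 hR).2.1 hx).2.1
  exact ⟨hA, (h2 _ _ h0 (h2 _ _ (h2 _ _ hL (h2 _ _ hA hR).2.1).2.2.1 hS).1).2.1⟩

lemma emul_d_one (hRFA : S_RFA) (α β : Qbar) : emul_d_Q α β 1 := by
  refine ⟨fun x => x, fun _ => 1, by simpa using hRFA.1 X, by simpa using hRFA.1 1,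
    Filter.Eventually.of_forall fun x y h => ⟨by rwa [mul_one], ?_⟩⟩
  rw [one_nsmul]
  congr 1
  rw [mul_one]

lemma emul_d_two (hRFA : S_RFA) (α β : Qbar) : emul_d_Q α β 2 := by
  have hx : RFn fun x => x := by simpa using hRFA.1 X
  have h1 : RFn fun _ => 1 := by simpa using hRFA.1 1
  have hL : RFn fun x => (3 * x ^ 2 + α) / (2 * (x ^ 3 + α * x + β)) := by
    have := (hRFA.2.1 _ _ (hRFA.1 (C 3 * X ^ 2 + C α)) (hRFA.1 (C 2 * cub α β))).2.2.2
    simpa [cub] using this
  obtain ⟨hA, hB⟩ := emul_d_rf hRFA α β hx h1 hL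
  refine ⟨_, _, hA, hB, ?_⟩
  have hc : cub α β ≠ 0 := by
    have : (cub α β).Monic := by
      unfold cub
      monicity!
    exact this.ne_zero
  have hfin : ∀ᶠ x in Filter.cofinite, x ^ 3 + α * x + β ≠ 0 := by
    rw [Filter.eventually_cofinite]
    refine (finite_setOfPred_isRoot hc).subset fun x hx => ?_
    simpa [cub] using hx
  filter_upwards [hfin] with x hx0 y h
  have he : y ^ 2 = x ^ 3 + α * x + β := by
    simpa [ec] using ((ec α β).equation_iff x y).1 h.1
  have hn : (ec α β).negY x y = -y := by simp [ec, WeierstrassCurve.Affine.negY]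
  have hy0 : y ≠ 0 := fun e => hx0 (by rw [← he, e]; ring)
  have hy : y ≠ (ec α β).negY x y := by
    rw [hn]
    intro e
    apply hy0
    linear_combination (1 / 2 : Qbar) * e
  have h₁ : (ec α β).Nonsingular x (y * 1) := by rwa [mul_one]
  obtain ⟨h', e⟩ := emul_d_step (L := (3 * x ^ 2 + α) / (2 * (x ^ 3 + α * x + β))) h₁ h
    (fun hh => hy (by simpa only [mul_one] using hh.2)) (by
      rw [mul_one, WeierstrassCurve.Affine.slope_of_Y_ne rfl hy, hn, ← he]
      simp only [ec]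
      have h2 : y - -y = 2 * y := by ring
      rw [h2]
      field_simp
      ring)
  refine ⟨h', ?_⟩
  rw [← e, two_nsmul]
  congr 2
  rw [mul_one]

lemma emul_d_succ (hRFA : S_RFA) (hENT : S_ENT) (α β : Qbar) (hd : 4 * α ^ 3 + 27 * β ^ 2 ≠ 0)
    (n : ℕ) (H : emul_d_Q α β (n + 2)) : emul_d_Q α β (n + 3) := by
  obtain ⟨R, S, hR, hS, H⟩ := H
  have hx : RFn fun x => x := by simpa using hRFA.1 X
  have h1 : RFn fun _ => 1 := by simpa using hRFA.1 1
  have hD := (hRFA.2.1 _ _ hR hx).2.1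
  rcases hRFA.2.2.1 _ hD with h0 | h0
  · exfalso
    apply hENT α β hd
    refine (Filter.eventually_cofinite.1 (H.and h0)).subset fun x hx hh => ?_
    obtain ⟨P, hP⟩ := xp_surj hd x
    apply hx P hP
    rcases P with _ | ⟨x', y, h⟩
    · cases hP
    · obtain rfl : x' = x := Option.some.inj hP
      obtain ⟨h', e⟩ := hh.1 y h
      have e' : xp ((n + 2) • (.some x' y h : (ec α β).Point)) =
          xp (.some x' y h : (ec α β).Point) := by
        rw [e]
        exact congrArg some (sub_eq_zero.1 hh.2)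
      rcases xp_eq e' with e'' | e''
      · refine isOfFinAddOrder_iff_nsmul_eq_zero.2 ⟨n + 1, n.succ_pos, ?_⟩
        rw [succ_nsmul _ (n + 1)] at e''
        exact add_eq_right.1 e''
      · refine isOfFinAddOrder_iff_nsmul_eq_zero.2 ⟨n + 2 + 1, (n + 2).succ_pos, ?_⟩
        rw [succ_nsmul _ (n + 2), e'', neg_add_cancel]
  · have hL := (hRFA.2.1 _ _ (hRFA.2.1 _ _ hS h1).2.1 hD).2.2.2
    obtain ⟨hA, hB⟩ := emul_d_rf hRFA α β hR hS hL
    refine ⟨_, _, hA, hB, ?_⟩
    filter_upwards [H, h0] with x hx hx0 y h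
    obtain ⟨h₁, e₁⟩ := hx y h
    have hne : R x ≠ x := sub_ne_zero.1 hx0
    obtain ⟨h', e⟩ := emul_d_step (L := (S x - 1) / (R x - x)) h₁ h (fun hh => hne hh.1) (by
      rw [WeierstrassCurve.Affine.slope_of_X_ne hne]
      ring)
    exact ⟨h', by rw [succ_nsmul _ (n + 2), e₁, e]⟩

theorem p_EMUL (hRFA : S_RFA) (hENT : S_ENT) :
    S_EMUL := by
  intro α β n hd hn
  have hQ : emul_d_Q α β n := by
    have h2 : ∀ m, emul_d_Q α β (m + 2) := fun m => by
      induction m with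
      | zero => exact emul_d_two hRFA α β
      | succ m ih => exact emul_d_succ hRFA hENT α β hd m ih
    match n, hn with
    | 1, _ => exact emul_d_one hRFA α β
    | m + 2, _ => exact h2 m
  refine ⟨?_, hQ⟩
  obtain ⟨R, S, -, -, H⟩ := hQ
  have hf := ((Filter.eventually_cofinite.1 H).image (some : Qbar → ProjLine)).insert none
  refine (xp_fib hf).subset fun P hP => ?_
  rcases P with _ | ⟨x, y, h⟩
  · exact Set.mem_insert _ _
  · refine Set.mem_insert_of_mem _ ⟨x, fun hh => ?_, rfl⟩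
    obtain ⟨h', e⟩ := hh y h
    have : (.some _ _ h' : (ec α β).Point) = 0 := e.symm.trans hP
    cases this

end Pool.Agent.P.MP_8d2e9f_nt.AO
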