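import Pool.Agent.P.MP_8d2e9f_nt.AO.IfaceD
import Pool.Agent.P.MP_8d2e9f_nt.AO.TLATP

/-! Step ENT. -/

set_option autoImplicit false

namespace Pool.Agent.P.MP_8d2e9f_nt.AO

open Polynomial NumberField Pool.Agent.P.MP_8d2e9f_nt.G
open scoped IntermediateField Classical

lemma ent_d_norm (p : ℕ) [Fact p.Prime] (j : Qbar →+* Om p) (k : ℕ) :
    ‖j (((p : Qbar) ^ k)⁻¹)‖ = (p : ℝ) ^ k := by
  have h1 : ‖(p : Om p)‖ = (p : ℝ)⁻¹ := by
    rw [← map_natCast (algebraMap ℚ_[p] (Om p)), norm_algebraMap', Padic.norm_p]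
  rw [map_inv₀, map_pow, map_natCast, norm_inv, norm_pow, h1, inv_pow, inv_inv]

theorem p_ENT (hPLACE : S_PLACE) (hEKILL : S_EKILL) :
    S_ENT := by
  intro α β hΔ
  obtain ⟨K, hK, -, mem⟩ := ex_field (K := ⊥) inferInstance (S := {α, β}) (Set.toFinite _)
  obtain ⟨p, hF, φ, j, hp, -, -, jα, jβ, -⟩ :=
    latp_place hPLACE hK 3 ∅ (mem α (Or.inl rfl)) (mem β (Or.inr rfl)) hΔ
  have hp1 : (1 : ℝ) < p := by exact_mod_cast (show 1 < p by omega)
  refine Set.infinite_of_injective_forall_mem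
    (f := fun k : ℕ => ((p : Qbar) ^ (k + 2))⁻¹) (fun a b hab => ?_) (fun k P hP => ?_)
  · have h := congrArg (fun z => ‖j z‖) hab
    simp only [ent_d_norm] at h
    have := pow_right_injective₀ (zero_lt_one.trans hp1) hp1.ne' h
    omega
  · refine ((hEKILL α β p j ⟨hΔ, jα, jβ, hp.le⟩).1 P _ hP ?_).2
    rw [ent_d_norm]
    calc (p : ℝ) = (p : ℝ) ^ 1 := (pow_one _).symm
      _ < (p : ℝ) ^ (k + 2) := pow_lt_pow_right₀ hp1 (by omega)

end Pool.Agent.P.MP_8d2e9f_nt.AO
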