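import Pool.Agent.P.MP_8d2e9f_nt.AO.IfaceD

/-! Step ERK1. -/

set_option autoImplicit false

namespace Pool.Agent.P.MP_8d2e9f_nt.AO

open Polynomial NumberField Pool.Agent.P.MP_8d2e9f_nt.G
open scoped IntermediateField Classical

theorem erk1_dmul {A : Type} [AddCommGroup A] {p : ℕ} [Fact p.Prime] {v w : A} (hv : p • v = 0)
    (hv0 : v ≠ 0) (hw : p • w = 0) (hw0 : w ≠ 0) (h : w ∈ AddSubgroup.zmultiples v) :
    AddSubgroup.zmultiples w = AddSubgroup.zmultiples v := by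
  have e1 : Nat.card (AddSubgroup.zmultiples v) = p :=
    (Nat.card_zmultiples v).trans (addOrderOf_eq_prime hv hv0)
  have e2 : Nat.card (AddSubgroup.zmultiples w) = p :=
    (Nat.card_zmultiples w).trans (addOrderOf_eq_prime hw hw0)
  have : Finite (AddSubgroup.zmultiples v) :=
    Nat.finite_of_card_ne_zero (e1.trans_ne (Fact.out : p.Prime).ne_zero)
  exact AddSubgroup.eq_of_le_of_card_ge (AddSubgroup.zmultiples_le_of_mem h) (e1.trans e2.symm).le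

theorem p_ERK1 (hFROB : S_FROB) (hRAM : S_RAM) (hEFIX : S_EFIX) (hELOC : S_ELOC) (hEMUL : S_EMUL) (hESCH : S_ESCH) :
    S_ERK1 := by
  intro K α β p _ φ j es T₀ T k0 a0 k1 a1 p0 p1 n0
  have hp : p.Prime := Fact.out
  by_contra hT
  obtain ⟨D, τ, hD⟩ := hFROB K p φ j es.loc
  obtain ⟨l1, l2, -⟩ := hELOC α β p j es.ei
  let M : AddSubgroup (ec α β).Point :=
    { carrier := {P | Ker j P ∧ AbP K P ∧ p • P = 0}
      zero_mem' := ⟨fun x h => (by cases h), (abG es.ma es.mb).zero_mem, smul_zero _⟩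
      add_mem' := fun h1 h2 => ⟨(l1 _ _ h1.1 h2.1).1, (abG es.ma es.mb).add_mem h1.2.1 h2.2.1,
        (nsmul_add _ _ p).trans (by rw [h1.2.2, h2.2.2, add_zero])⟩
      neg_mem' := fun h1 => ⟨(l1 _ _ h1.1 h1.1).2.1, (abG es.ma es.mb).neg_mem h1.2.1,
        (neg_nsmul _ p).trans (neg_eq_zero.2 h1.2.2)⟩ }
  obtain ⟨v, ⟨kv, av, pv⟩, v0, hv⟩ := hEFIX _ p M (gah es.ma es.mb '' D) hp
    ((hEMUL α β p es.ei.1 hp.pos).1.subset fun _ h => h.2.2)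
    (fun e => n0 (AddSubgroup.mem_bot.1 (e ▸ (⟨k0, a0, p0⟩ : T₀ ∈ M)))) (fun _ h => h.2.2)
    (by
      rintro _ ⟨σ, hσ, rfl⟩ P ⟨h1, h2, h3⟩
      exact ⟨h1.ga es.ma es.mb σ (hD.1 σ hσ), h2.ga es.ma es.mb σ,
        by rw [← map_nsmul, h3, map_zero]⟩)
    (by
      rintro _ ⟨σ, -, rfl⟩ _ ⟨ρ, -, rfl⟩ P h
      exact h.2.1 σ ρ)
  have ht : Tame K j D (tp v) := fun σ hσ _ e => by
    rw [← tp_ga es.ma es.mb] at e ⊢
    have e1 := (l1 _ _ (kv.ga es.ma es.mb _ (hD.1 _ (D.pow_mem hσ p))) kv).2.2.2 e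
    rw [ga_pow es.ma es.mb] at e1
    exact congrArg tp (hv _ ⟨σ, hσ, rfl⟩ e1)
  obtain ⟨x, hx⟩ := xp_ex v0
  have hr := hRAM K p j D τ hD _ (av.tp es.ma es.mb) ht _
    (IntermediateField.mem_adjoin_simple_self K _) (l2 v x kv hx).2.1
  by_cases h0 : T₀ ∈ AddSubgroup.zmultiples v
  · exact hr.not_gt (hESCH α β p j es.ei v T kv k1 pv p1 v0 (erk1_dmul pv v0 p0 n0 h0 ▸ hT))
  · exact hr.not_gt (hESCH α β p j es.ei v T₀ kv k0 pv p0 v0 h0)

end Pool.Agent.P.MP_8d2e9f_nt.AO
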