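import Pool.Agent.P.MP_8d2e9f_nt.AO.IfaceD

/-! Step ESC1. -/

set_option autoImplicit false

namespace Pool.Agent.P.MP_8d2e9f_nt.AO

open Polynomial NumberField Pool.Agent.P.MP_8d2e9f_nt.G
open scoped IntermediateField Classical

lemma esc1_dkill {A : Type} [AddCommGroup A] {p m : ℕ} {T : A} {c : ℤ} (h : p ^ m • T = 0)
    (hc : (p : ℤ) ^ m ∣ c) : c • T = 0 := by
  obtain ⟨k, rfl⟩ := hc
  rw [mul_comm, mul_smul, ← Nat.cast_pow, natCast_zsmul, h, smul_zero]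

lemma esc1_dmono {A : Type} [AddCommGroup A] {p m n : ℕ} {T : A} (h : p ^ m • T = 0)
    (hm : m ≤ n) : p ^ n • T = 0 := by
  obtain ⟨k, rfl⟩ := Nat.exists_eq_add_of_le hm
  rw [pow_add, mul_comm, mul_smul, h, smul_zero]

theorem p_ESC1 (hECYC : S_ECYC) (hZP : S_ZP) :
    S_ESC1 := by
  intro A _ p n M f T₁ hp h3 hc hM hT₁ hn hf hfp
  have T0 : T₁ ≠ 0 := fun e => hf (by rw [e, map_zero])
  have hr : (p : ℤ) ^ n ∣ 2 ^ Nat.totient (p ^ n) - 1 := by
    have h1 : Nat.Coprime 2 (p ^ n) :=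
      ((Nat.coprime_primes Nat.prime_two hp).2 (by omega)).pow_right n
    have h2 := (Nat.modEq_iff_dvd.1 (Nat.ModEq.pow_totient h1).symm)
    exact_mod_cast h2
  refine ⟨Nat.totient (p ^ n), Nat.totient_pos.2 (pow_pos hp.pos n), fun a => ?_⟩
  have ex : ∃ b, ∀ T ∈ M, p ^ max a n • T = 0 → p ^ b • T = 0 := ⟨_, fun _ _ h => h⟩
  have t1 : p ^ max a n • T₁ = 0 := esc1_dmono hn (le_max_right _ _)
  obtain ⟨b, hb⟩ : ∃ b, Nat.find ex = b + 1 := Nat.exists_eq_succ_of_ne_zero fun e => by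
    have := Nat.find_spec ex T₁ hT₁ t1
    rw [e, pow_zero, one_smul] at this
    exact T0 this
  have b1 := Nat.find_spec ex
  rw [hb] at b1
  have b2 := Nat.find_min ex (show b < Nat.find ex by omega)
  push Not at b2
  obtain ⟨T₀, m0, a0, n0⟩ := b2
  have cyc : ∀ T ∈ M, p ^ max a n • T = 0 → ∃ k : ℤ, k • T₀ = T := fun T hT h =>
    AddSubgroup.mem_zmultiples_iff.1
      (hECYC A p M hp hc b T₀ m0 T hT (b1 T₀ m0 a0) n0 (b1 T hT h))
  obtain ⟨c, hcc⟩ := cyc (f T₀) (hM T₀ m0) (by rw [← map_nsmul, a0, map_zero])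
  have it : ∀ T ∈ M, p ^ max a n • T = 0 → ∀ i : ℕ, f^[i] T = c ^ i • T := fun T hT h i => by
    obtain ⟨k, rfl⟩ := cyc T hT h
    induction i with
    | zero => simp
    | succ i ih =>
      rw [Function.iterate_succ_apply', ih, map_zsmul, map_zsmul, ← hcc, smul_comm k c,
        pow_succ, mul_smul]
  have c1 : ¬ (p : ℤ) ^ n ∣ c - 1 := fun h => hf (by
    have h1 := esc1_dkill hn h
    have h2 := it T₁ hT₁ t1 1
    rw [sub_smul, one_smul, sub_eq_zero] at h1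
    rw [Function.iterate_one, pow_one] at h2
    exact h2.trans h1)
  have hp' : Prime (p : ℤ) := Nat.prime_iff_prime_int.1 hp
  have c2 : (p : ℤ) ∣ c ^ p - 1 := by
    by_contra h
    obtain ⟨u, v, e⟩ := ((hp'.coprime_iff_not_dvd.2 h).pow_left (m := n))
    have h1 : (c ^ p - 1) • T₁ = 0 := by
      rw [sub_smul, one_smul, ← it T₁ hT₁ t1 p, hfp, sub_self]
    apply T0
    rw [← one_zsmul T₁, ← e, add_smul, mul_smul, mul_smul, h1, esc1_dkill hn dvd_rfl]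
    simp
  have c3 : (p : ℤ) ∣ c - 1 := by
    have := Fact.mk hp
    rw [← ZMod.intCast_zmod_eq_zero_iff_dvd] at c2 ⊢
    push_cast at c2 ⊢
    rwa [ZMod.pow_card] at c2
  have ex2 : ∃ m, ¬ (p : ℤ) ^ m ∣ c - 1 := ⟨n, c1⟩
  have m1 : Nat.find ex2 ≤ n := Nat.find_min' ex2 c1
  have m2 : 1 < Nat.find ex2 := by
    rw [Nat.lt_find_iff]
    intro m hm h
    exact h ((pow_dvd_pow _ hm).trans (by rwa [pow_one]))
  obtain ⟨m, hm⟩ : ∃ m, Nat.find ex2 = m + 1 := ⟨Nat.find ex2 - 1, by omega⟩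
  obtain ⟨i, hi⟩ := hZP p m c (2 ^ Nat.totient (p ^ n)) hp h3 (by omega)
    (not_not.1 (Nat.find_min ex2 (by omega))) (hm ▸ Nat.find_spec ex2)
    ((pow_dvd_pow _ (by omega)).trans hr) (b + 1)
  refine ⟨i, fun T hT h => ?_⟩
  have h' := esc1_dmono h (le_max_left a n)
  have h1 := esc1_dkill (b1 T hT h') hi
  rw [sub_smul, sub_eq_zero] at h1
  rw [it T hT h', h1, ← natCast_zsmul]
  push_cast
  rfl

end Pool.Agent.P.MP_8d2e9f_nt.AO
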