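import Pool.Agent.P.MP_8d2e9f_nt.AO.IfaceD

/-! Step ESCAL. -/

set_option autoImplicit false

namespace Pool.Agent.P.MP_8d2e9f_nt.AO

open Polynomial NumberField Pool.Agent.P.MP_8d2e9f_nt.G
open scoped IntermediateField Classical

theorem escal_d_num {p : ℕ} (hp : 3 ≤ p) : ∃ r : ℝ, 1 < r ∧ ∀ t x : ℝ, 0 ≤ t → 0 ≤ x →
    t ^ 2 * x = 1 → t ^ (p - 1) ≤ (p : ℝ)⁻¹ → r ≤ x := by
  have hN : p - 1 ≠ 0 := by omega
  have hp1 : (1 : ℝ) < p := by exact_mod_cast (by omega : 1 < p)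
  obtain ⟨r, r0, hr⟩ : ∃ r : ℝ, 0 ≤ r ∧ r ^ (p - 1) = (p : ℝ) ^ 2 :=
    ⟨_, by positivity, Real.rpow_inv_natCast_pow (by positivity) hN⟩
  refine ⟨r, (one_lt_pow_iff_of_nonneg r0 hN).1 (hr ▸ one_lt_pow₀ hp1 two_ne_zero),
    fun t x ht hx h1 h2 => ?_⟩
  rw [← pow_le_pow_iff_left₀ r0 hx hN, hr]
  have h3 : (t ^ (p - 1)) ^ 2 * x ^ (p - 1) = 1 := by
    rw [← pow_mul, mul_comm (p - 1), pow_mul, ← mul_pow, h1, one_pow]
  have h4 : t ^ (p - 1) * p ≤ 1 := by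
    rwa [← one_div, le_div_iff₀ (by positivity)] at h2
  have h5 : (t ^ (p - 1) * p) ^ 2 ≤ 1 := pow_le_one₀ (by positivity) h4
  calc (p : ℝ) ^ 2 = (t ^ (p - 1) * p) ^ 2 * x ^ (p - 1) := by
        rw [mul_pow, mul_right_comm, h3, one_mul]
    _ ≤ 1 * x ^ (p - 1) := by gcongr
    _ = _ := one_mul _

theorem p_ESCAL (hFROB : S_FROB) (hRAM : S_RAM) (hESC1 : S_ESC1) (hELOC : S_ELOC) (hEKILL : S_EKILL) (hERK1 : S_ERK1) :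
    S_ESCAL := by
  intro K α β p hp φ j hE
  obtain ⟨D, τ, hD⟩ := hFROB K p φ j hE.loc
  have hα := hE.ma
  have hβ := hE.mb
  have hp3 : 3 ≤ p := hE.ei.2.2.2
  obtain ⟨l1, l2, -⟩ := hELOC α β p j hE.ei
  obtain ⟨-, k2, k3⟩ := hEKILL α β p j hE.ei
  by_cases ht : ∀ T : (ec α β).Point, Ker j T → AbP K T → IsOfFinAddOrder T → Tame K j D (tp T)
  · obtain ⟨r, hr, h1⟩ := escal_d_num hp3
    obtain ⟨a0, h2⟩ := k3 r hr
    refine ⟨1, p ^ a0, one_pos, pow_pos hp.out.pos _, fun a => ⟨1, fun T hK hA hT => ?_⟩⟩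
    have hf : IsOfFinAddOrder T :=
      isOfFinAddOrder_iff_nsmul_eq_zero.2 ⟨_, pow_pos hp.out.pos a, hT⟩
    have h3 : p ^ a0 • T = 0 := h2 T (fun x hx => by
      obtain ⟨b1, b2, -⟩ := l2 T x hK hx
      exact h1 _ _ (norm_nonneg _) (norm_nonneg _) b1 (hRAM K p j D τ hD _ (hA.tp hα hβ)
        (ht T hK hA hf) _ (IntermediateField.mem_adjoin_simple_self K _) b2)) hf
    rw [ga_one hα hβ, nsmul_sub, ← mul_nsmul, mul_comm, mul_nsmul, h3, nsmul_zero, sub_zero]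
  · simp only [Tame, not_forall] at ht
    obtain ⟨T₁, hK, hA, hf, σ, hσ, -, h5, h6⟩ := ht
    obtain ⟨n, hn⟩ := k2 T₁ hK hf
    let M : AddSubgroup (ec α β).Point :=
      { carrier := {P | Ker j P ∧ AbP K P}
        zero_mem' := ⟨fun x hx => (by cases hx), (abG hα hβ).zero_mem⟩
        add_mem' := fun h1 h2 => ⟨(l1 _ _ h1.1 h2.1).1, (abG hα hβ).add_mem h1.2 h2.2⟩
        neg_mem' := fun h1 => ⟨(l1 _ _ h1.1 h1.1).2.1, (abG hα hβ).neg_mem h1.2⟩ }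
    obtain ⟨r, hr, h7⟩ := hESC1 _ p n M (gah hα hβ σ) T₁ hp.out hp3
      (fun T₀ h0 T h1 => hERK1 K α β p φ j hE T₀ T h0.1 h0.2 h1.1 h1.2)
      (fun T h1 => ⟨h1.1.ga hα hβ σ (hD.1 σ hσ), h1.2.ga hα hβ σ⟩) ⟨hK, hA⟩ hn
      (fun h => h6 (by rw [← tp_ga hα hβ]; exact congrArg tp h))
      ((ga_pow hα hβ σ T₁ p).symm.trans ((l1 _ _
        (hK.ga hα hβ (σ ^ p) (hD.1 _ (D.pow_mem hσ p))) hK).2.2.2 (by rw [tp_ga hα hβ, h5])))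
    refine ⟨r, 1, hr, one_pos, fun a => ?_⟩
    obtain ⟨i, hi⟩ := h7 a
    refine ⟨σ ^ i, fun T h1 h2 h3 => ?_⟩
    rw [one_smul, sub_eq_zero, ga_pow hα hβ]
    exact hi T ⟨h1, h2⟩ h3

end Pool.Agent.P.MP_8d2e9f_nt.AO
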