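import Pool.Agent.P.MP_8d2e9f_nt.AO.IfaceD

/-! Step ESCH. -/

set_option autoImplicit false

namespace Pool.Agent.P.MP_8d2e9f_nt.AO

open Polynomial NumberField Pool.Agent.P.MP_8d2e9f_nt.G
open scoped IntermediateField Classical

section

variable {α β : Qbar} {p : ℕ} [Fact p.Prime] {j : Qbar →+* Om p} {g : Qbar → Qbar}

lemma esch_d_some {P : (ec α β).Point} (h : P ≠ 0) : xp P = some ((xp P).getD 0) := by
  obtain ⟨x, hx⟩ := xp_ex h
  rw [hx]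
  rfl

lemma esch_d_nr {Q : (ec α β).Point} {x : Qbar} (h : xp Q = some x) : Nr j ‖j x‖ Q :=
  fun y hy => by rw [Option.some.inj (h.symm.trans hy)]

lemma esch_d_ker {Q : (ec α β).Point} {x : Qbar} (h : xp Q = some x) (hx : 1 < ‖j x‖) :
    Ker j Q := fun y hy => hx.trans_le (esch_d_nr h y hy)

lemma esch_d_zero (hESZ : S_ESZ) (hE : Ei j α β)
    (hg : ∀ᶠ s in Filter.cofinite,
      ∀ Q : (ec α β).Point, xp Q = some s⁻¹ → tp (p • Q) = g s * tp Q)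
    {T : (ec α β).Point} {x : Qbar} (hT : Ker j T) (hx : xp T = some x) (hp : p • T = 0) :
    ‖j x⁻¹‖ < 1 ∧ ∀ η : ℝ, 0 < η → {s | ‖j (s - x⁻¹)‖ < η ∧ ‖j (g s)‖ ≤ η}.Infinite := by
  refine ⟨?_, fun η hη => ?_⟩
  · rw [map_inv₀, norm_inv]
    exact inv_lt_one_of_one_lt₀ (hT x hx)
  · refine ((hESZ α β p j hE T x η hT hx hp hη).sdiff (Filter.eventually_cofinite.1 hg)).mono ?_
    rintro s ⟨⟨h1, Q, h2, h3, h4⟩, h5⟩
    refine ⟨h1, ?_⟩
    rw [not_not.1 h5 Q h2, map_mul, norm_mul] at h4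
    exact le_of_mul_le_mul_right h4 (norm_pos_iff.2 ((map_ne_zero j).2 h3))

lemma esch_d_bd (hELOC : S_ELOC) (hE : Ei j α β)
    (hg : ∀ᶠ s in Filter.cofinite,
      ∀ Q : (ec α β).Point, xp Q = some s⁻¹ → tp (p • Q) = g s * tp Q) :
    ∀ᶠ s in Filter.cofinite, ‖j s‖ < 1 → ‖j (g s)‖ ≤ 1 := by
  filter_upwards [hg, Filter.eventually_cofinite_ne 0] with s h1 h2 h3
  obtain ⟨Q, hQ⟩ := xp_surj hE.1 s⁻¹
  have hr : 1 < ‖j s⁻¹‖ := by
    rw [map_inv₀, norm_inv]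
    exact (one_lt_inv₀ (norm_pos_iff.2 ((map_ne_zero j).2 h2))).2 h3
  obtain ⟨-, e2, e3⟩ := hELOC α β p j hE
  have a1 := (e2 Q _ (esch_d_ker hQ hr) hQ).1
  have b1 := (e3 _ _ hr ((e3 _ Q hr (esch_d_nr hQ)).2.2 p).1).1
  rw [h1 Q hQ, map_mul, norm_mul, mul_pow, mul_left_comm, mul_comm ‖j s⁻¹‖, a1, mul_one] at b1
  exact (sq_le_one_iff₀ (norm_nonneg _)).1 b1

lemma esch_d_val (hELOC : S_ELOC) (hEKILL : S_EKILL) (hE : Ei j α β) {s : Qbar}
    (h1 : ∀ Q : (ec α β).Point, xp Q = some s⁻¹ → tp (p • Q) = g s * tp Q) (h2 : s ≠ 0)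
    (h3 : ‖j s‖ < (p : ℝ)⁻¹) : ‖j (g s)‖ = (p : ℝ)⁻¹ := by
  obtain ⟨Q, hQ⟩ := xp_surj hE.1 s⁻¹
  have p1 : (1 : ℝ) < p := by exact_mod_cast (Fact.out : p.Prime).one_lt
  have hr : (p : ℝ) < ‖j s⁻¹‖ := by
    rw [map_inv₀, norm_inv]
    exact (lt_inv_comm₀ (one_pos.trans p1) (norm_pos_iff.2 ((map_ne_zero j).2 h2))).2 h3
  have a3 := ((hELOC α β p j hE).2.1 Q _ (esch_d_ker hQ (p1.trans hr)) hQ).2.2
  have b1 := ((hEKILL α β p j hE).1 Q _ hQ hr).1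
  rw [h1 Q hQ, map_mul, norm_mul, div_eq_inv_mul] at b1
  exact mul_right_cancel₀ (norm_ne_zero_iff.2 ((map_ne_zero j).2 a3)) b1

lemma esch_d_small (j : Qbar →+* Om p) {ε : ℝ} (hε : 0 < ε) :
    {s : Qbar | ‖j s‖ < ε}.Infinite := by
  have p1 : (1 : ℝ) < p := by exact_mod_cast (Fact.out : p.Prime).one_lt
  have hpn : ‖j p‖ = (p : ℝ)⁻¹ := by
    rw [map_natCast, ← map_natCast (algebraMap ℚ_[p] (Om p)), norm_algebraMap', Padic.norm_p]
  obtain ⟨k, hk⟩ := exists_pow_lt_of_lt_one hε (inv_lt_one_of_one_lt₀ p1)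
  have p0 : (p : Qbar) ^ k ≠ 0 := pow_ne_zero _ (Nat.cast_ne_zero.2 (Fact.out : p.Prime).ne_zero)
  refine Set.infinite_of_injective_forall_mem (f := fun n : ℕ => (n : Qbar) * (p : Qbar) ^ k)
    (fun a b h => Nat.cast_injective (mul_right_cancel₀ p0 h)) fun n => ?_
  show ‖j _‖ < ε
  rw [map_mul, map_pow, norm_mul, norm_pow, hpn, map_natCast]
  exact (mul_le_of_le_one_left (by positivity) (IsUltrametricDist.norm_natCast_le_one _ n)).trans_lt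
    hk

lemma esch_d_sub (j : Qbar →+* Om p) (s z : Qbar) : ‖j (s - z)‖ ≤ max ‖j s‖ ‖j z‖ := by
  rw [map_sub, sub_eq_add_neg, ← norm_neg (j z)]
  exact IsUltrametricDist.norm_add_le_max _ _

end

theorem p_ESCH (hSCHW : S_SCHW) (hELOC : S_ELOC) (hEKILL : S_EKILL) (hEG : S_EG) (hESZ : S_ESZ) :
    S_ESCH := by
  intro α β p _ j hE T₀ T k0 k1 h0 h1 n0 nT
  have hp : p.Prime := Fact.out
  have p1 : (1 : ℝ) < p := by exact_mod_cast hp.one_lt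
  obtain ⟨m, hm⟩ := hp.odd_of_ne_two (by have := hE.2.2.2; omega)
  obtain ⟨g, hR, hg⟩ := hEG α β p hE.1 hp.pos
  obtain ⟨-, e2, e3⟩ := hELOC α β p j hE
  have ho : addOrderOf T₀ = p := addOrderOf_eq_prime h0 n0
  have nk : ∀ k, 0 < k → k ≤ 2 * m → k • T₀ ≠ 0 := fun k a b =>
    nsmul_ne_zero_of_lt_addOrderOf a.ne' (by omega)
  have n1 : T ≠ 0 := fun e => nT (e ▸ zero_mem _)
  obtain ⟨x₀, hx₀⟩ := xp_ex n0
  obtain ⟨x, hx⟩ := xp_ex n1
  have r1 := k0 x₀ hx₀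
  obtain ⟨a1, -, a3⟩ := e2 T₀ x₀ k0 hx₀
  have ρ0 : 0 < ‖j (tp T₀)‖ ^ 2 := pow_pos (norm_pos_iff.2 ((map_ne_zero j).2 a3)) 2
  have hN : ∀ k : ℕ, Nr j ‖j x₀‖ (k • T₀) := fun k => ((e3 _ T₀ r1 (esch_d_nr hx₀)).2.2 k).1
  obtain ⟨f, hf⟩ : ∃ f : ℕ → Qbar, ∀ k ∈ Finset.Icc 1 m, xp (k • T₀) = some (f k)⁻¹ :=
    ⟨fun k => ((xp (k • T₀)).getD 0)⁻¹, fun k hk => by
      rw [inv_inv]
      have := Finset.mem_Icc.1 hk
      exact esch_d_some (nk k (by omega) (by omega))⟩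
  have inj : Set.InjOn f (Finset.Icc 1 m : Finset ℕ) := fun k hk l hl e => by
    have b1 := Finset.mem_Icc.1 (Finset.mem_coe.1 hk)
    have b2 := Finset.mem_Icc.1 (Finset.mem_coe.1 hl)
    rcases xp_eq ((hf k hk).trans (e ▸ (hf l hl).symm)) with h | h
    · exact nsmul_injOn_Iio_addOrderOf (Set.mem_Iio.2 (by omega)) (Set.mem_Iio.2 (by omega)) h
    · exact absurd (by rw [add_nsmul, h, neg_add_cancel]) (nk (k + l) (by omega) (by omega))
  have nx : x⁻¹ ∉ (Finset.Icc 1 m).image f := fun h => by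
    obtain ⟨k, hk, e⟩ := Finset.mem_image.1 h
    have hk' := hf k hk
    rw [e, inv_inv] at hk'
    have hz : k • T₀ ∈ AddSubgroup.zmultiples T₀ :=
      AddSubgroup.nsmul_mem _ (AddSubgroup.mem_zmultiples _) k
    rcases xp_eq (hx.trans hk'.symm) with h | h
    · exact nT (h ▸ hz)
    · exact nT (h ▸ neg_mem hz)
  have z1 := esch_d_zero hESZ hE hg k1 hx h1
  have hS := hSCHW p j g (insert x⁻¹ ((Finset.Icc 1 m).image f)) hR (esch_d_bd hELOC hE hg)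
    fun z hz => by
      rcases Finset.mem_insert.1 hz with rfl | hz
      · exact z1
      · obtain ⟨k, hk, rfl⟩ := Finset.mem_image.1 hz
        have := esch_d_zero hESZ hE hg (fun y hy => r1.trans_le (hN k y hy)) (hf k hk)
          (by rw [smul_comm, h0, nsmul_zero])
        rwa [inv_inv] at this
  obtain ⟨s, c0, c1⟩ := ((esch_d_small j (lt_min ρ0 (inv_pos.2 (one_pos.trans p1)))).sdiff
    (Filter.eventually_cofinite.1 (hS.and (hg.and (Filter.eventually_cofinite_ne 0))))).nonempty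
  obtain ⟨c2, c3, c4⟩ := not_not.1 c1
  obtain ⟨c5, c6⟩ := lt_min_iff.1 (Set.mem_ofPred.1 c0)
  have c7 : ‖j s‖ < 1 := c6.trans (inv_lt_one_of_one_lt₀ p1)
  have key := c2 c7
  rw [esch_d_val hELOC hEKILL hE c3 c4 c6, Finset.prod_insert nx] at key
  have d1 : ∏ z ∈ (Finset.Icc 1 m).image f, ‖j (s - z)‖ ≤ (‖j (tp T₀)‖ ^ 2) ^ m := by
    refine (Finset.prod_le_prod (g := fun _ => ‖j (tp T₀)‖ ^ 2) (fun _ _ => norm_nonneg _)
      fun z hz => ?_).trans_eq ?_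
    · obtain ⟨k, hk, rfl⟩ := Finset.mem_image.1 hz
      refine (esch_d_sub j _ _).trans (max_le c5.le ?_)
      have := hN k _ (hf k hk)
      rw [map_inv₀, norm_inv] at this
      rw [eq_inv_of_mul_eq_one_left a1]
      rcases (norm_nonneg (j (f k))).eq_or_lt with h | h
      · rw [← h]
        positivity
      · exact (le_inv_comm₀ (one_pos.trans r1) h).1 this
    · rw [Finset.prod_const, Finset.card_image_of_injOn inj, Nat.card_Icc, add_tsub_cancel_right]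
  have d2 : ‖j (s - x⁻¹)‖ < 1 := (esch_d_sub j _ _).trans_lt (max_lt c7 z1.1)
  rw [show p - 1 = 2 * m by omega, pow_mul]
  exact key.trans_lt ((mul_le_mul_of_nonneg_left d1 (norm_nonneg _)).trans_lt
    (mul_lt_of_lt_one_left (pow_pos ρ0 m) d2))

end Pool.Agent.P.MP_8d2e9f_nt.AO
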