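import Pool.Agent.P.MP_8d2e9f_nt.AO.IfaceD

/-! Step ESZ. -/

set_option autoImplicit false

namespace Pool.Agent.P.MP_8d2e9f_nt.AO

open Polynomial NumberField Pool.Agent.P.MP_8d2e9f_nt.G
open scoped IntermediateField Classical

theorem esz_dnorm {p : ℕ} [Fact p.Prime] (j : Qbar →+* Om p) (k : ℕ) :
    ‖j ((p : Qbar) ^ k)⁻¹‖ = (p : ℝ) ^ k := by
  rw [map_inv₀, map_pow, norm_inv, norm_pow, map_natCast,
    ← map_natCast (algebraMap ℚ_[p] (Om p)), norm_algebraMap', Padic.norm_p, inv_pow, inv_inv]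

theorem p_ESZ (hELOC : S_ELOC) (hECLO : S_ECLO) :
    S_ESZ := by
  intro α β p _ j hE T x η hT hx hp hη hfin
  obtain ⟨L1, L2, L3⟩ := hELOC α β p j hE
  have hN : 1 < ‖j x‖ := hT x hx
  have hp1 : (1 : ℝ) < p := by exact_mod_cast (Fact.out : p.Prime).one_lt
  obtain ⟨k0, hk0⟩ := pow_unbounded_of_one_lt (4 * ‖j x‖ ^ 2 + 2 * ‖j x‖ / η ^ 2) hp1
  choose R hR using fun k : ℕ => xp_surj hE.1 ((p : Qbar) ^ (k0 + k))⁻¹
  have key : ∀ k, xp (R k + T) ∈ (fun s : Qbar => some s⁻¹) ''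
      {s | ‖j (s - x⁻¹)‖ < η ∧ ∃ Q : (ec α β).Point, xp Q = some s⁻¹ ∧ tp Q ≠ 0 ∧
        ‖j (tp (p • Q))‖ ≤ η * ‖j (tp Q)‖} := fun k => by
    have hn := esz_dnorm j (k0 + k)
    have hr : 4 * ‖j x‖ ^ 2 + 2 * ‖j x‖ / η ^ 2 < (p : ℝ) ^ (k0 + k) :=
      hk0.trans_le (pow_le_pow_right₀ hp1.le (Nat.le_add_right _ _))
    have hRk := hR k
    generalize ((p : Qbar) ^ (k0 + k))⁻¹ = z at hn hRk
    generalize (p : ℝ) ^ (k0 + k) = r at hn hr
    generalize R k = P at hRk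
    have e0 : 0 < η ^ 2 := by positivity
    have r1 : 4 * ‖j x‖ ^ 2 < r := lt_of_le_of_lt (le_add_of_nonneg_right (by positivity)) hr
    have r2 : 2 * ‖j x‖ < r * η ^ 2 :=
      (div_lt_iff₀ e0).1 (lt_of_le_of_lt (le_add_of_nonneg_left (by positivity)) hr)
    have r3 : ‖j x‖ < r := by nlinarith
    have hNr : Nr j r P := fun y hy => by
      rw [hRk] at hy
      rw [← Option.some.inj hy, hn]
    have hK : Ker j P := fun y hy => (hN.trans r3).trans_le (hNr y hy)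
    have hQ0 : P + T ≠ 0 := fun h => by
      have h1 : xp P = xp T := by rw [eq_neg_of_add_eq_zero_left h, xp_neg]
      rw [hRk, hx] at h1
      rw [Option.some.inj h1] at hn
      linarith
    obtain ⟨x1, hx1⟩ := xp_ex hQ0
    have hKQ := (L1 P T hK hT).1
    have hN1 : 1 < ‖j x1‖ := hKQ x1 hx1
    have c1 := hECLO α β p j r hE (hN.trans r3).le T P x x1 hNr hx hx1
    rw [max_eq_right hN.le, max_eq_right hN1.le] at c1
    have x0 : j x ≠ 0 := norm_pos_iff.1 (by linarith)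
    have x10 : j x1 ≠ 0 := norm_pos_iff.1 (by linarith)
    have c2 : ‖j (x1⁻¹ - x⁻¹)‖ * (‖j x‖ * ‖j x1‖) = ‖j (x1 - x)‖ := by
      rw [← norm_mul, ← norm_mul, ← norm_neg, map_sub, map_sub, map_inv₀, map_inv₀]
      congr 1
      field_simp
      ring
    have c3 : r * ‖j (x1⁻¹ - x⁻¹)‖ ^ 2 ≤ 1 := by
      refine le_of_mul_le_mul_right ?_ (by positivity : 0 < ‖j x‖ ^ 2 * ‖j x1‖ ^ 2)
      rw [← c2] at c1
      linarith
    have c4 : ‖j x‖⁻¹ - ‖j x1‖⁻¹ ≤ ‖j (x1⁻¹ - x⁻¹)‖ := by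
      rw [map_sub, map_inv₀, map_inv₀, norm_sub_rev, ← norm_inv, ← norm_inv]
      exact norm_sub_norm_le _ _
    obtain ⟨t1, -, t3⟩ := L2 _ x1 hKQ hx1
    have t4 := (L3 r _ (hN.trans r3) ((L3 r P (hN.trans r3) hNr).2.2 p).1).1
    have d0 := norm_nonneg (j (x1⁻¹ - x⁻¹))
    refine ⟨x1⁻¹, ⟨?_, P + T, by rw [inv_inv, hx1], t3, ?_⟩, by simp only [inv_inv, hx1]⟩
    · refine lt_of_pow_lt_pow_left₀ 2 hη.le (lt_of_mul_lt_mul_left ?_ (by linarith : 0 ≤ r))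
      linarith
    · rw [nsmul_add, hp, add_zero]
      generalize ‖j (x1⁻¹ - x⁻¹)‖ = δ at c3 c4 d0
      generalize ‖j x‖ = N at *
      have f1 : 2 * N * δ ≤ 1 := by
        refine le_of_pow_le_pow_left₀ two_ne_zero zero_le_one ?_
        nlinarith [mul_le_mul_of_nonneg_right r1.le (sq_nonneg δ)]
      have f2 : ‖j (tp (P + T))‖ ^ 2 = ‖j x1‖⁻¹ := eq_inv_of_mul_eq_one_left t1
      have f3 : 1 ≤ 2 * N * ‖j (tp (P + T))‖ ^ 2 := by
        have := mul_le_mul_of_nonneg_left c4 (by linarith : 0 ≤ 2 * N)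
        rw [mul_sub, mul_assoc 2 N, mul_inv_cancel₀ (by linarith)] at this
        rw [f2]
        linarith
      refine le_of_pow_le_pow_left₀ two_ne_zero (by positivity)
        (le_of_mul_le_mul_left ?_ (by linarith : 0 < r))
      nlinarith [mul_le_mul_of_nonneg_right r2.le (sq_nonneg ‖j (tp (P + T))‖)]
  refine Set.infinite_of_injective_forall_mem (f := fun k => R k + T) (fun k l h => ?_) key
    (xp_fib (hfin.image _))
  have h1 := congrArg xp (add_right_cancel h)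
  rw [hR, hR] at h1
  have h2 := congrArg (fun z => ‖j z‖) (Option.some.inj h1)
  simp only [esz_dnorm] at h2
  have := pow_right_injective₀ (by linarith) hp1.ne' h2
  omega

end Pool.Agent.P.MP_8d2e9f_nt.AO
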