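import Pool.Agent.P.MP_8d2e9f_nt.AO.IfaceD

/-! Step EW. -/

set_option autoImplicit false

namespace Pool.Agent.P.MP_8d2e9f_nt.AO

open Polynomial NumberField Pool.Agent.P.MP_8d2e9f_nt.G
open scoped IntermediateField Classical

lemma ew_d_pow {K : IF} {s t : GK K} {z : Qbar} (hz : ∀ σ : GK K, σ z ∈ K⟮z⟯)
    (h : ∀ x ∈ K⟮z⟯, t x = s x) (k : ℕ) : (t ^ k) z = (s ^ k) z := by
  induction k with
  | zero => rfl
  | succ k ih => rw [pow_succ', pow_succ', AlgEquiv.mul_apply, AlgEquiv.mul_apply, ih, h _ (hz _)]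

lemma ew_d_odd {K : IF} {s : GK K} {z : Qbar} {p : ℕ} (hp : Odd p) (h2 : (s ^ 2) z = z)
    (h : (s ^ p) z = z) : s z = z := by
  obtain ⟨k, rfl⟩ := hp
  have h3 : ∀ k : ℕ, (s ^ (2 * k)) z = z := fun k => by
    induction k with
    | zero => rfl
    | succ k ih => rw [mul_add, mul_one, pow_add, AlgEquiv.mul_apply, h2, ih]
  rwa [pow_succ', AlgEquiv.mul_apply, h3] at h

theorem p_EW (hABG : S_ABG) (hACT : S_ACT) (hENEAR : S_ENEAR) (hEAMP : S_EAMP) (hINERT : S_INERT) (hEKER : S_EKER) (hEW1 : S_EW1) :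
    S_EW := by
  intro K α β H hK hα hβ hΔ hH
  obtain ⟨p, hF, φ, j, δ, ε₀, hE, jΔ, hδ, hε₀, hn, hS⟩ := hEW1 K α β H hK hα hβ hΔ hH
  obtain ⟨-, jα, jβ, h3⟩ := hE.ei
  have ht := typ_one hΔ
  have hu : ∀ u : Qbar, u ^ (2 * 1) = 1 → u = 1 ∨ u = -1 := fun u h =>
    sq_eq_one_iff.1 h
  obtain ⟨r, hr, hnear⟩ := hENEAR α β 1 p j δ ht h3 jα jβ jΔ hδ
  obtain ⟨n, ε, hε, hamp⟩ := hEAMP K α β 1 p j r H hK hα hβ (fun u h => by
    rcases hu u h with rfl | rfl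
    · exact one_mem K
    · exact neg_mem (one_mem K)) ht jα jβ hr hH
  refine ⟨p, hF, φ, j, min ε₀ ε, hE, lt_min hε₀ hε, fun W P hW h0 h1 => ?_⟩
  obtain ⟨z, hz⟩ : ∃ z, xp W = some z := xp_ex fun e => by
    rw [xp_none.2 e, hn] at h0
    exact lt_irrefl _ h0
  have hab := hW.xp hα hβ hz
  obtain ⟨s₀, hs1, hs2, hact⟩ := hS z hab (hz ▸ h0) (hz ▸ h1.trans_le (min_le_left _ _))
  obtain ⟨s₁, e1, hiso, hP⟩ := hINERT K p φ j s₀ z (xp P).toFinset hE.loc hab hact.1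
    fun x hx h => by
      have h4 := hact.2 x hx h
      rw [pow_one] at h4
      exact h4.trans_lt hδ
  have hmem := ((hABG K).1 z hab).2.2
  have hact1 : Acts K j 1 δ s₁ z := ⟨hiso, fun x hx h => by
    rw [e1 x hx]
    exact hact.2 x hx h⟩
  have hx : ∀ (σ : GK K) (Q : (ec α β).Point) (y : Qbar), xp Q = some y →
      xp (ga σ Q) = some (σ y) := fun σ Q y hQ => by
    rw [xp_ga hα hβ, hQ]
    rfl
  obtain ⟨u, hu1, hT⟩ := hamp W s₁ (h1.trans_le (min_le_right _ _)) fun σ =>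
    hnear _ _ _ _ (hx σ W z hz) (hx σ _ _ (hx s₁ W z hz)) (by
      obtain ⟨h1, h2⟩ := hACT K p j 1 δ s₁ _ hab hact1
      rw [pow_one, pow_one, hab σ s₁]
      exact (h1 _ (h2 σ)).2)
  have hpp : p.Prime := Fact.out
  refine ⟨s₁ ^ 2, hEKER K α β p j s₁ P hα hβ hE.ei jΔ hiso fun x hx => hP x (by simp [hx]),
    fun e => ?_, isOfFinAddOrder_iff_nsmul_eq_zero.2 ⟨p ^ n, pow_pos hpp.pos n, ?_⟩⟩
  · have h4 := hx (s₁ ^ 2) W z hz
    rw [e, hz] at h4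
    refine hs1 ?_
    rw [← e1 z (IntermediateField.mem_adjoin_simple_self K z)]
    exact ew_d_odd (hpp.odd_of_ne_two (by omega)) (Option.some.inj h4).symm
      ((ew_d_pow hmem e1 p).trans hs2)
  · obtain ⟨q1, q2, -⟩ := (p_ETX p_ETW α β 1 ht).2.2.1 W
    have h5 := congrArg (ga s₁) hT
    change ga s₁ (p ^ n • (ga s₁ W - _)) = _ at h5
    change p ^ n • (ga s₁ W - _) = _ at hT
    rw [ga_zero, ga_nsmul hα hβ, ga_sub hα hβ, ← ga_mul hα hβ, ← pow_two] at h5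
    rcases hu u hu1 with rfl | rfl
    · rw [q1] at h5 hT
      rw [← sub_add_sub_cancel _ (ga s₁ W), nsmul_add, h5, hT, add_zero]
    · rw [q2] at h5 hT
      rw [ga_neg hα hβ] at h5
      have h6 : ga (s₁ ^ 2) W - W = (ga (s₁ ^ 2) W - -ga s₁ W) - (ga s₁ W - -W) := by abel
      rw [h6, nsmul_sub, h5, hT, sub_zero]

end Pool.Agent.P.MP_8d2e9f_nt.AO
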