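import Pool.Agent.P.MP_8d2e9f_nt.AO.IfaceD
import Pool.Agent.P.MP_8d2e9f_nt.AO.TEXG

/-! Step EXG2. -/

set_option autoImplicit false

namespace Pool.Agent.P.MP_8d2e9f_nt.AO

open Polynomial NumberField Pool.Agent.P.MP_8d2e9f_nt.G
open scoped IntermediateField Classical

theorem p_EXG2 (hABG : S_ABG) (hCANB : S_CANB) (hHID : S_HID) (hGM : S_GM) (hCHB : S_CHB) :
    S_EXG2 := by
  intro K K' f h a b hK hd hcan ⟨ha, _, hs⟩
  obtain ⟨E, hE, hKE, haE, hbE⟩ := exg_field K hK a b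
  have fa : ∀ s : GK E, s a = a := fun s => s.commutes ⟨a, haE⟩
  have fb : ∀ s : GK E, s b = b := fun s => s.commutes ⟨b, hbE⟩
  have hx : ∀ z, Ab K z → Ab E ((z - b) / a) := by
    intro z hz
    have h1 : Ab E z := (hABG K).2.2.1 E hKE z hz
    intro σ ρ
    simp only [map_div₀, map_sub, fa, fb, h1 σ ρ]
  have e : ∀ z, a * ((z - b) / a) + b = z := by
    intro z
    field_simp
    ring
  have cheb : (∀ u, u ≠ 0 → h (a * (u + u⁻¹) + b) = 2 * wh u) →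
      ∃ ε : ℝ, 0 < ε ∧ ∀ z, Ab K z → h z < ε → h z = 0 := by
    intro H
    obtain ⟨c, c0, hc⟩ := hCHB E hE
    refine ⟨2 * c, by positivity, fun z hz hε => ?_⟩
    obtain ⟨v, v0, hv⟩ := exg_par ((z - b) / a)
    have h1 := H v v0
    rw [← hv, e] at h1
    have h2 := hc v v0 (hv ▸ hx z hz) (by linarith)
    rw [h1, h2, mul_zero]
  rcases hs with hs | ⟨-, hs | hs⟩
  · obtain ⟨-, g2⟩ := (hCANB.1 f h hd hcan).2.2.2 a b _ ha hs
    have H := (hHID f.natDegree _ hd).1 g2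
    obtain ⟨c, c0, hc⟩ := hGM E hE
    refine ⟨c, c0, fun z hz hε => ?_⟩
    have h1 := H ((z - b) / a)
    simp only [e] at h1
    rw [h1] at hε ⊢
    exact hc _ (hx z hz) hε
  · obtain ⟨-, g2⟩ := (hCANB.1 f h hd hcan).2.2.2 a b _ ha hs
    exact cheb ((hHID f.natDegree _ hd).2 (Or.inl g2))
  · obtain ⟨-, g2⟩ := (hCANB.1 f h hd hcan).2.2.2 a b _ ha hs
    exact cheb ((hHID f.natDegree _ hd).2 (Or.inr g2))

end Pool.Agent.P.MP_8d2e9f_nt.AO
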