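import Pool.Agent.P.MP_8d2e9f_nt.AO.IfaceD
import Pool.Agent.P.MP_8d2e9f_nt.AO.TEXG

/-! Step GM. -/

set_option autoImplicit false

namespace Pool.Agent.P.MP_8d2e9f_nt.AO

open Polynomial NumberField Pool.Agent.P.MP_8d2e9f_nt.G
open scoped IntermediateField Classical

theorem gm_d_exp (S : Set Qbar) (hS : S.Finite) (h : ∀ y ∈ S, y ≠ 0 → IsOfFinOrder y) :
    ∃ N : ℕ, 0 < N ∧ ∀ y ∈ S, y ≠ 0 → y ^ N = 1 := by
  induction S, hS using Set.Finite.induction_on with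
  | empty => exact ⟨1, one_pos, fun y hy => hy.elim⟩
  | @insert a s _ _ ih =>
    obtain ⟨N, N0, hN⟩ := ih fun y hy => h y (Set.mem_insert_of_mem _ hy)
    by_cases ha : a = 0
    · refine ⟨N, N0, fun y hy y0 => ?_⟩
      rcases hy with rfl | hy
      · exact (y0 ha).elim
      · exact hN y hy y0
    · obtain ⟨n, n0, e⟩ := isOfFinOrder_iff_pow_eq_one.1 (h a (Set.mem_insert _ _) ha)
      refine ⟨n * N, Nat.mul_pos n0 N0, fun y hy y0 => ?_⟩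
      rcases hy with rfl | hy
      · rw [pow_mul, e, one_pow]
      · rw [pow_mul', hN y hy y0, one_pow]

theorem gm_d_zero (hWH : S_WH) (hWHX : S_WHX) (K : IF) (σ : GK K) (A M : ℕ) (hA : 2 ≤ A)
    (hM : 0 < M) (y : Qbar) (h : σ (y ^ M) = (y ^ M) ^ A) : wh y = 0 := by
  have h1 := congrArg wh h
  rw [hWH.1, hWHX.2.2.1, hWHX.2.2.1, hWHX.2.2.1] at h1
  have h2 : (2 : ℝ) ≤ A := by exact_mod_cast hA
  have h3 : (0 : ℝ) < M := by exact_mod_cast hM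
  have h4 : ((A : ℝ) - 1) * ((M : ℝ) * wh y) = 0 := by linear_combination -h1
  exact (mul_eq_zero.1 ((mul_eq_zero.1 h4).resolve_left (by linarith))).resolve_left h3.ne'

theorem p_GM (hABG : S_ABG) (hPLACE : S_PLACE) (hFROB : S_FROB) (hDICH : S_DICH) (hAMP : S_AMP) (hWH : S_WH) (hWHX : S_WHX) (hNORS : S_NORS) (hCYC : S_CYC) :
    S_GM := by
  intro K hK
  obtain ⟨p, _, φ, j, hp, hj, -⟩ := hPLACE K 3 ∅ hK
  have pp : p.Prime := Fact.out
  have p3 : 3 ≤ p := by omega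
  obtain ⟨ε, e0, he⟩ := exg_core hFROB hDICH hAMP K hK p φ j hj p3 (X ^ p)
    (isMonicOfDegree_X_pow ℤ p) (by simp) wh 0 (fun x => by simp) (hWH.1 K)
    (fun x => by rw [aeval_X_pow, hWHX.2.2.1])
  obtain ⟨r, r0, hr⟩ := hCYC K hK
  have hA : 2 ≤ 2 ^ r := by
    calc 2 = 2 ^ 1 := by norm_num
      _ ≤ 2 ^ r := Nat.pow_le_pow_right (by norm_num) r0
  generalize 2 ^ r = A at hr hA
  have A0 : (0 : ℝ) < 1 + A := by positivity
  refine ⟨ε / (1 + A), by positivity, fun u hu hc => ?_⟩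
  by_cases u0 : u = 0
  · rw [u0]
    exact hWHX.2.2.2.2.1
  obtain ⟨N, N0, hN⟩ := gm_d_exp _ (hNORS K {u} 0 hK (Set.finite_singleton u))
    fun y hy y0 => hWHX.2.2.2.2.2.1 y y0 (le_antisymm hy.1 (hWH.2.2.1 y))
  obtain ⟨a, m, hm, rfl⟩ := Nat.exists_eq_pow_mul_and_not_dvd N0.ne' p pp.ne_one
  have m0 : 0 < m := Nat.pos_of_ne_zero fun h => hm (h ▸ dvd_zero p)
  obtain ⟨σ, hσ⟩ := hr (p ^ a) (pp.odd_of_ne_two (by omega)).pow
  have uA : u ^ A ≠ 0 := pow_ne_zero _ u0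
  have su0 : ∀ s : GK K, s u ≠ 0 := fun s => (map_ne_zero s).2 u0
  obtain ⟨w, hw⟩ : ∃ w, w = σ u / u ^ A := ⟨_, rfl⟩
  have w0 : w ≠ 0 := hw ▸ div_ne_zero (su0 σ) uA
  have hsu : σ u = w * u ^ A := by rw [hw, div_mul_cancel₀ _ uA]
  have hab : Ab K w := fun τ ρ => by
    have h1 : τ (ρ (σ u)) = ρ (τ (σ u)) := by
      have h2 := hu τ (ρ * σ)
      simp only [AlgEquiv.mul_apply] at h2
      rw [h2, hu σ τ]
    simp only [hw, map_div₀, map_pow, h1, hu τ ρ]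
  have hlt : wh w < ε := by
    have h1 := hWHX.1 (σ u) (u ^ A)⁻¹
    rw [← div_eq_mul_inv, ← hw, hWH.1, hWHX.2.1, hWHX.2.2.1] at h1
    rw [lt_div_iff₀ A0] at hc
    linarith
  have hw0 : wh w = 0 := by
    refine he w hab (fun k s s1 _ s3 => (s1 ?_).elim) hlt
    have e : ∀ i : ℕ, (fun y : Qbar => aeval y (X ^ p : ℤ[X]))^[i] w = w ^ p ^ i := by
      intro i
      induction i with
      | zero => simp
      | succ i ih => rw [Function.iterate_succ_apply', ih, aeval_X_pow, ← pow_mul, pow_succ]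
    rw [e, map_pow] at s3
    obtain ⟨ω, hω⟩ : ∃ ω, ω = s w / w := ⟨_, rfl⟩
    obtain ⟨y, hy⟩ : ∃ y, y = s u / u := ⟨_, rfl⟩
    have y0 : y ≠ 0 := hy ▸ div_ne_zero (su0 s) u0
    have h1 : σ y = ω * y ^ A := by
      rw [hy, hω, map_div₀, hu σ s, hsu, map_mul, map_pow, div_pow, div_mul_div_comm]
    have h2 : ω ^ p ^ k = 1 := by rw [hω, div_pow, s3, div_self (pow_ne_zero _ w0)]
    have h3 : ∀ n : ℕ, σ (y ^ n) = ω ^ n * (y ^ n) ^ A := fun n => by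
      rw [map_pow, h1, mul_pow, ← pow_mul, ← pow_mul, mul_comm A n]
    have h4 : wh y = 0 := gm_d_zero hWH hWHX K σ A (p ^ k) hA (pow_pos pp.pos k) y (by
      rw [h3, h2, one_mul])
    have h5 : y ^ (p ^ a * m) = 1 := hN y ⟨h4.le, fun ρ hρ => by
      rw [hy, map_div₀, hu ρ s, hρ u rfl]⟩ y0
    have h6 := hσ (y ^ m) (by rw [← pow_mul, mul_comm, h5])
    rw [h3] at h6
    have h7 : ω ^ m = 1 :=
      mul_right_cancel₀ (pow_ne_zero A (pow_ne_zero m y0)) (h6.trans (one_mul _).symm)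
    have h8 : Nat.Coprime (p ^ k) m := Nat.Coprime.pow_left k ((Nat.Prime.coprime_iff_not_dvd pp).2 hm)
    have h9 : ω = 1 := by
      have := pow_gcd_eq_one.2 ⟨h2, h7⟩
      rwa [h8.gcd_eq_one, pow_one] at this
    rw [hω, div_eq_one_iff_eq w0] at h9
    exact h9
  obtain ⟨M, M0, hM⟩ := isOfFinOrder_iff_pow_eq_one.1 (hWHX.2.2.2.2.2.1 w w0 hw0)
  refine gm_d_zero hWH hWHX K σ A M hA M0 u ?_
  rw [map_pow, hsu, mul_pow, hM, one_mul, ← pow_mul, ← pow_mul, mul_comm]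

end Pool.Agent.P.MP_8d2e9f_nt.AO
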