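import Pool.Agent.P.MP_8d2e9f_nt.AO.IfaceD
import Pool.Agent.P.MP_8d2e9f_nt.AO.TEXG
import Pool.Agent.P.MP_8d2e9f_nt.G.All

/-! Step HID. -/

set_option autoImplicit false

namespace Pool.Agent.P.MP_8d2e9f_nt.AO

open Polynomial NumberField Pool.Agent.P.MP_8d2e9f_nt.G
open scoped IntermediateField Classical

theorem hid_dz {T : Type} (D : T → ℝ) (φ : T → T) (S : T → Prop) {d C : ℝ} (hd : 2 ≤ d)
    (h0 : ∀ u, S u → S (φ u)) (h1 : ∀ u, S u → D (φ u) = d * D u) (h2 : ∀ u, S u → |D u| ≤ C) :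
    ∀ u, S u → D u = 0 := by
  have key : ∀ n : ℕ, ∀ u, S u → 2 ^ n * |D u| ≤ C := by
    intro n
    induction n with
    | zero => simpa using h2
    | succ n ih =>
      intro u hu
      have h3 := ih _ (h0 u hu)
      rw [h1 u hu, abs_mul, abs_of_nonneg (by linarith : 0 ≤ d)] at h3
      have h4 : (0 : ℝ) ≤ 2 ^ n * |D u| := by positivity
      rw [pow_succ]
      nlinarith
  intro u hu
  by_contra e
  have h3 : 0 < |D u| := abs_pos.2 e
  obtain ⟨n, hn⟩ := pow_unbounded_of_one_lt (C / |D u|) (one_lt_two (α := ℝ))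
  rw [div_lt_iff₀ h3] at hn
  exact absurd (key n u hu) (not_le.2 hn)

theorem hid_db : ∃ C : ℝ, ∀ u : Qbar, u ≠ 0 → |wh (u + u⁻¹) - 2 * wh u| ≤ C := by
  have dA : (X ^ 2 + X ^ 0 : Qbar[X]).natDegree ≤ 2 :=
    natDegree_add_le_of_degree_le (natDegree_X_pow_le 2) ((natDegree_X_pow_le 0).trans (by omega))
  have dB : (X ^ 1 : Qbar[X]).natDegree ≤ 2 := (natDegree_X_pow_le 1).trans (by omega)
  obtain ⟨C, hC⟩ := all_HGT 2 (im (X ^ 2 + X ^ 0) (X ^ 1) 2) two_pos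
    ⟨_, _, fun _ => IntermediateField.mem_top, fun _ => IntermediateField.mem_top, dA, dB,
      fun v hv0 e => by
        obtain ⟨e1, e2⟩ := Prod.ext_iff.1 e
        simp only [vm, hv_add, hv_X_pow (le_refl 2), hv_X_pow (Nat.zero_le 2),
          hv_X_pow one_le_two, Prod.fst_zero, Prod.snd_zero] at e1 e2
        norm_num at e1 e2
        rcases e2 with e2 | e2
        · exact hv0 (Prod.ext e2 (by simpa [e2] using e1))
        · exact hv0 (Prod.ext (by simpa [e2] using e1) e2), rfl⟩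
  refine ⟨C, fun u hu => ?_⟩
  have h1 := hC (some u)
  have e : (X ^ 2 + X ^ 0 : Qbar[X]).eval u / (X ^ 1 : Qbar[X]).eval u = u + u⁻¹ := by
    simp only [eval_add, eval_pow, eval_X]
    field_simp
  rw [im_some dA dB, if_neg (by simpa using hu), e] at h1
  exact_mod_cast h1

theorem p_HID (hWH : S_WH) (hWHX : S_WHX) :
    S_HID := by
  intro d h hd
  have d2 : (2 : ℝ) ≤ d := by exact_mod_cast hd
  obtain ⟨-, -, w3, w4, -⟩ := hWHX
  refine ⟨fun ⟨c1, C, c2⟩ z => sub_eq_zero.1 (hid_dz (fun z => h z - wh z) (fun z => z ^ d)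
    (fun _ => True) d2 (fun _ _ => trivial) (fun u _ => ?_) (fun u _ => c2 u) z trivial), ?_⟩
  · have := c1 u
    rw [eval_pow, eval_X, natDegree_X_pow] at this
    rw [this, w3]
    ring
  obtain ⟨B, hB⟩ := hid_db
  have bd : ∀ C : ℝ, (∀ z, |h z - wh z| ≤ C) → ∀ u : Qbar, u ≠ 0 →
      |h (u + u⁻¹) - 2 * wh u| ≤ C + B := fun C hC u hu => by
    have a1 := abs_le.1 (hC (u + u⁻¹))
    have a2 := abs_le.1 (hB u hu)
    rw [abs_le]
    constructor <;> linarith [a1.1, a1.2, a2.1, a2.2]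
  have dg := (exg_mon' Qbar (n := d) (by omega)).natDegree_eq
  rintro (⟨c1, C, c2⟩ | ⟨c1, C, c2⟩) u hu
  · refine sub_eq_zero.1 (hid_dz (fun u => h (u + u⁻¹) - 2 * wh u) (fun u => u ^ d)
      (fun u => u ≠ 0) d2 (fun u hu => pow_ne_zero _ hu) (fun u hu => ?_) (bd C c2) u hu)
    have := c1 (u + u⁻¹)
    rw [exg_ev d hu, dg] at this
    rw [this, w3]
    ring
  · refine sub_eq_zero.1 (hid_dz (fun u => h (u + u⁻¹) - 2 * wh u) (fun u => -u ^ d)
      (fun u => u ≠ 0) d2 (fun u hu => neg_ne_zero.2 (pow_ne_zero _ hu)) (fun u hu => ?_)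
      (bd C c2) u hu)
    have := c1 (u + u⁻¹)
    rw [eval_neg, exg_ev d hu, natDegree_neg, dg, neg_add, ← inv_neg] at this
    rw [this, w4, w3]
    ring

end Pool.Agent.P.MP_8d2e9f_nt.AO
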