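import Pool.Agent.P.MP_8d2e9f_nt.AO.IfaceD
import Pool.Agent.P.MP_8d2e9f_nt.AO.TFROB

/-! Step INA. -/

set_option autoImplicit false

namespace Pool.Agent.P.MP_8d2e9f_nt.AO

open Polynomial NumberField Pool.Agent.P.MP_8d2e9f_nt.G
open scoped IntermediateField Classical

theorem p_INA :
    S_INA := by
  intro K p _ φ j z a hj ha
  let : Algebra Qbar (Om p) := j.toAlgebra
  have : Normal K Qbar := Normal.tower_top_of_normal ℚ K Qbar
  have h : ∀ γ : Om p ≃ₐ[ℚ_[p]] Om p, ∃ g : GK K, ∀ z, j (g z) = γ (j z) := fun γ => by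
    let ψ : Qbar →ₐ[K] Om p :=
      { (γ : Om p →+* Om p).comp j with
        commutes' := fun c => (congrArg γ (hj c)).trans ((γ.commutes _).trans (hj c).symm) }
    exact ⟨ψ.restrictNormal' Qbar, fun z => ψ.restrictNormal_commutes Qbar z⟩
  have h1 : j a ∈ ℚ_[p]⟮j z⟯ := by
    rw [← InfiniteGalois.fixedField_fixingSubgroup ℚ_[p]⟮j z⟯, IntermediateField.mem_fixedField_iff]
    intro γ hγ
    obtain ⟨g, hg⟩ := h γ
    have h2 : γ (j z) = j z := (IntermediateField.mem_fixingSubgroup_iff _ _).1 hγ _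
      (IntermediateField.mem_adjoin_simple_self _ _)
    rw [← hg, ha g (fun x => by rw [hg, frob_norm_gal]) (j.injective ((hg z).trans h2))]
  let F : Subfield (Om p) := (K⟮z⟯.toSubfield.map j).topologicalClosure
  have h2 : ∀ c : ℚ_[p], algebraMap ℚ_[p] (Om p) c ∈ F := fun c => by
    have hc : Continuous (algebraMap ℚ_[p] (Om p)) := continuous_algebraMap _ _
    refine (Padic.denseRange_ratCast p).induction_on c
      (isClosed_closure.preimage hc) fun q => ?_
    rw [map_ratCast]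
    exact SubfieldClass.ratCast_mem F q
  have h3 : j a ∈ F := by
    refine (Subfield.closure_le (t := F)).2 ?_ h1
    rintro x (⟨c, rfl⟩ | rfl)
    · exact h2 c
    · exact subset_closure ⟨z, IntermediateField.mem_adjoin_simple_self _ _, rfl⟩
  obtain ⟨_, ⟨b, hb, rfl⟩, h4⟩ := Metric.mem_closure_iff.1 h3 1 one_pos
  exact ⟨b, hb, by rwa [← dist_eq_norm]⟩

end Pool.Agent.P.MP_8d2e9f_nt.AO
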