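import Pool.Agent.P.MP_8d2e9f_nt.AO.IfaceD

/-! Step INERT. -/

set_option autoImplicit false

namespace Pool.Agent.P.MP_8d2e9f_nt.AO

open Polynomial NumberField Pool.Agent.P.MP_8d2e9f_nt.G
open scoped IntermediateField Classical

lemma inert_d_inv {K : IF} {p : ℕ} [Fact p.Prime] {j : Qbar →+* Om p} {g : GK K}
    (h : Iso j g) : Iso j g⁻¹ := fun x => by
  have := h (g⁻¹ x)
  rw [← AlgEquiv.mul_apply, mul_inv_cancel, AlgEquiv.one_apply] at this
  exact this.symm

lemma inert_d_mul {K : IF} {p : ℕ} [Fact p.Prime] {j : Qbar →+* Om p} {g s : GK K}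
    (h : Iso j g) (h' : Iso j s) : Iso j (g * s) := fun x => by
  rw [AlgEquiv.mul_apply, h, h']

/-- The stabiliser of `z` in the decomposition group. -/
def inert_d_G {K : IF} {p : ℕ} [Fact p.Prime] (j : Qbar →+* Om p) (z : Qbar) :
    Subgroup (GK K) where
  carrier := {ρ | Iso j ρ ∧ ρ z = z}
  one_mem' := ⟨fun _ => rfl, rfl⟩
  mul_mem' := fun {a b} ha hb => ⟨inert_d_mul ha.1 hb.1, by rw [AlgEquiv.mul_apply, hb.2, ha.2]⟩
  inv_mem' := fun {a} ha => ⟨inert_d_inv ha.1, by
    conv_lhs => rw [← ha.2]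
    rw [← AlgEquiv.mul_apply, inv_mul_cancel, AlgEquiv.one_apply]⟩

lemma inert_d_fix {K : IF} {g : GK K} {z : Qbar} (h : g z = z) : ∀ x ∈ K⟮z⟯, g x = x := by
  intro x hx
  induction hx using IntermediateField.adjoin_induction with
  | mem y hy => rw [Set.mem_singleton_iff.1 hy, h]
  | algebraMap c => exact g.commutes c
  | add a b _ _ ha hb => rw [map_add, ha, hb]
  | inv a _ ha => rw [map_inv₀, ha]
  | mul a b _ _ ha hb => rw [map_mul, ha, hb]

lemma inert_d_map {K : IF} {s : GK K} {z : Qbar} (h : s z ∈ K⟮z⟯) :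
    ∀ x ∈ K⟮z⟯, s x ∈ K⟮z⟯ := by
  intro x hx
  induction hx using IntermediateField.adjoin_induction with
  | mem y hy => rw [Set.mem_singleton_iff.1 hy]; exact h
  | algebraMap c => rw [s.commutes c]; exact IntermediateField.algebraMap_mem _ c
  | add a b _ _ ha hb => rw [map_add]; exact add_mem ha hb
  | inv a _ ha => rw [map_inv₀]; exact inv_mem ha
  | mul a b _ _ ha hb => rw [map_mul]; exact mul_mem ha hb

theorem p_INERT (hABG : S_ABG) (hINF : S_INF) (hINA : S_INA) :
    S_INERT := by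
  intro K p _ φ j s z S hφ hz hs h
  obtain ⟨g, hg, hg'⟩ := hINF K p j (inert_d_G j z) s S (fun g hg => hg.1) hs (fun a ha h1 => by
    obtain ⟨b, hb, hab⟩ := hINA K p φ j z a hφ fun ρ h1 h2 => ha ρ ⟨h1, h2⟩
    have hb1 : ‖j b‖ ≤ 1 := by
      have e : j b = j a + -(j a - j b) := by ring
      rw [e]
      refine (IsUltrametricDist.norm_add_le_max _ _).trans (max_le h1 ?_)
      rw [norm_neg]
      exact hab.le
    have e : j (s a) - j a = j (s (a - b)) + ((j (s b) - j b) + -(j a - j b)) := by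
      rw [map_sub, map_sub]; ring
    rw [e]
    refine (IsUltrametricDist.norm_add_le_max _ _).trans_lt (max_lt ?_
      ((IsUltrametricDist.norm_add_le_max _ _).trans_lt (max_lt (h b hb hb1) ?_)))
    · rw [hs, map_sub]
      exact hab
    · rw [norm_neg]
      exact hab)
  have hgi := (inert_d_G j z).inv_mem hg
  refine ⟨g⁻¹ * s, fun x hx => ?_, inert_d_mul hgi.1 hs, fun x hx h1 => ?_⟩
  · rw [AlgEquiv.mul_apply]
    exact inert_d_fix hgi.2 _ (inert_d_map (((hABG K).1 z hz).2.2 s) x hx)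
  · have e : j ((g⁻¹ * s) x) - j x = j (g⁻¹ (s x - g x)) := by
      rw [map_sub, map_sub, ← AlgEquiv.mul_apply g⁻¹ g, inv_mul_cancel, AlgEquiv.one_apply,
        AlgEquiv.mul_apply]
    rw [e, hgi.1, map_sub, norm_sub_rev]
    exact hg' x hx h1

end Pool.Agent.P.MP_8d2e9f_nt.AO
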