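import Pool.Agent.P.MP_8d2e9f_nt.AO.IfaceD

/-! Step LATQ. -/

set_option autoImplicit false

namespace Pool.Agent.P.MP_8d2e9f_nt.AO

open Polynomial NumberField Pool.Agent.P.MP_8d2e9f_nt.G
open scoped IntermediateField Classical

theorem p_LATQ (hEHT : S_EHT) (hEMUL : S_EMUL) (hEAB : S_EAB) (hEFX : S_EFX) (hEBASE : S_EBASE) (hLATR : S_LATR) :
    S_LATQ := by
  intro K d e a b h α β H hK hN hC hα hβ hu hT hH hx
  have hΔ := hT.1
  have he : 0 < e := by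
    rcases hT.2 with h1 | ⟨h1, _⟩ | ⟨h1, _⟩ <;> omega
  obtain ⟨N, hN'⟩ := hEFX α β e hT
  obtain ⟨p, n, c₀, hp, hNp, hc₀, hL⟩ := hLATR K d e a b h α β H hK hN hC hα hβ hu hT hH hx N
  obtain ⟨K₁, hK₁, hle, hfix⟩ :=
    ex_fix hK hα hβ (hEMUL α β (p ^ n) hΔ (pow_pos hp.pos n)).1
  obtain ⟨c₁, hc₁, hA⟩ := hEAB K₁ α β H hK₁ (hle hα) (hle hβ) hΔ hH
  obtain ⟨h0, -, -, htor⟩ := hEHT α β H hΔ hH
  refine ⟨min c₀ c₁, lt_min hc₀ hc₁, fun z hz hpos => ?_⟩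
  obtain ⟨x, rfl⟩ := IsAlgClosed.exists_pow_nat_eq z he
  obtain ⟨P, hP⟩ := xp_surj hΔ x
  have he1 : (1 : ℝ) ≤ e := by exact_mod_cast he
  rw [hx] at hpos ⊢
  have hH0 : 0 < H (some x) := by
    rcases (hP ▸ h0 P : 0 ≤ H (some x)).lt_or_eq with h1 | h1
    · exact h1
    · rw [← h1, mul_zero] at hpos
      exact absurd hpos (lt_irrefl _)
  by_contra hlt
  have hlt' : H (some x) < min c₀ c₁ := by
    have := not_le.1 hlt
    nlinarith
  obtain ⟨s, u, hu1, hne, hkill⟩ := hL P x hP hz hH0 (hlt'.trans_le (min_le_left _ _))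
  have hnt : ¬ IsOfFinAddOrder P := fun ht => by
    have := htor P ht
    rw [hP] at this
    exact hH0.ne' this
  have hab : AbP K₁ P := hEBASE K K₁ α β e P x u s hle hα hβ hu hT hP hz hnt hu1
    (isOfFinAddOrder_iff_nsmul_eq_zero.2 ⟨p ^ n, pow_pos hp.pos n, hkill⟩)
    (fun ρ => hfix _ hkill ρ) fun v hv hv1 => hN' p n _ v hp hNp hkill hne hv hv1
  have := hA P hab (by rw [hP]; exact hlt'.trans_le (min_le_right _ _))
  rw [hP] at this
  exact hH0.ne' this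

end Pool.Agent.P.MP_8d2e9f_nt.AO
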