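import Pool.Agent.P.MP_8d2e9f_nt.AO.IfaceD
import Pool.Agent.P.MP_8d2e9f_nt.AO.TLATP

/-! Step LATR. -/

set_option autoImplicit false

namespace Pool.Agent.P.MP_8d2e9f_nt.AO

open Polynomial NumberField Pool.Agent.P.MP_8d2e9f_nt.G
open scoped IntermediateField Classical

theorem p_LATR (hPLACE : S_PLACE) (hACT : S_ACT) (hGOODR : S_GOODR) (hETW : S_ETW) (hETX : S_ETX) (hENEAR : S_ENEAR) (hEAMP : S_EAMP) (hWLD2 : S_WLD2) :
    S_LATR := by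
  intro K d e a b h α β H hK hn hc hα hβ hu ht hH hh N
  have he : 0 < e := by rcases ht.2 with h | h | h <;> omega
  obtain ⟨s₀, hs₀⟩ := hGOODR.2 K d a b hn
  obtain ⟨p, _, φ, j, hp, hl, hφ, jα, jβ, jΔ⟩ := latp_place hPLACE hK (max N 3) s₀ hα hβ ht.1
  have h3 : 3 ≤ p := ((le_max_right _ _).trans_lt hp).le
  obtain ⟨a₀, b₀, hg, ea, eb⟩ := hs₀ p φ hφ
  obtain ⟨δ, ε₀, hδ, hε₀, hS⟩ := hWLD2 K d a b h p φ j a₀ b₀ ⟨hK, hn, hc, hl, hg, ea, eb⟩ h3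
  obtain ⟨r, hr, hnear⟩ := hENEAR α β e p j δ ht h3 jα jβ jΔ hδ
  obtain ⟨n, ε, hε, hamp⟩ := hEAMP K α β e p j r H hK hα hβ hu ht jα jβ hr hH
  have e0 : (0 : ℝ) < e := by exact_mod_cast he
  refine ⟨p, n, min (ε₀ / e) ε, Fact.out, (le_max_left _ _).trans_lt hp,
    lt_min (div_pos hε₀ e0) hε, fun P x hP hab h0 hlt => ?_⟩
  obtain ⟨s, hsz, -, hact⟩ := hS _ hab (by rw [hh]; positivity) (by
    rw [hh, mul_comm, ← lt_div_iff₀ e0]
    exact hlt.trans_le (min_le_left _ _))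
  obtain ⟨hX1, -⟩ := hETX α β e ht
  have hx : ∀ (σ : GK K) (Q : (ec α β).Point) (y : Qbar), xp Q = some y →
      xp (twp (σ : Qbar →+* Qbar) 1 Q) = some (σ y) := fun σ Q y hQ =>
    (xp_ga hα hβ σ Q).trans (by rw [hQ]; rfl)
  obtain ⟨u, hu1, hT⟩ := hamp P s (by rw [hP]; exact hlt.trans_le (min_le_right _ _))
    fun σ => hnear _ _ _ _ (hx σ P x hP) (hx σ _ _ (hx s P x hP)) (by
      obtain ⟨h1, h2⟩ := hACT K p j 1 δ s _ hab hact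
      rw [← map_pow, ← map_pow, ← map_pow, hab σ s]
      exact (h1 _ (h2 σ)).2)
  refine ⟨s, u, hu1, fun h0 => ?_, hT⟩
  have h1 := congrArg xp (sub_eq_zero.1 h0)
  rw [ga, hx s P x hP, (hETW α β _ u (hX1 u hu1).1).2.2.1, hP] at h1
  have h2 : s x = u ^ 2 * x := by simpa using h1
  exact hsz (by rw [map_pow, h2, mul_pow, ← pow_mul, hu1, one_mul])

end Pool.Agent.P.MP_8d2e9f_nt.AO
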