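import Pool.Agent.P.MP_8d2e9f_nt.AO.IfaceD

/-! Step LATT2. -/

set_option autoImplicit false

namespace Pool.Agent.P.MP_8d2e9f_nt.AO

open Polynomial NumberField Pool.Agent.P.MP_8d2e9f_nt.G
open scoped IntermediateField Classical

theorem p_LATT2 (hPRN : S_PRN) (hCANH : S_CANH) (hCANR : S_CANR) (hCOMM : S_COMM) (hLHT : S_LHT) (hCOMPO : S_COMPO) (hLATQ : S_LATQ) :
    S_LATT2 := by
  intro K L d e a b g₁ g₂ α β hK hL hN hLat H hH K₁ hK₁
  have he : 0 < e := by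
    rcases hLat.typ.2 with h | h | h
    · omega
    · omega
    · omega
  have hroot : {u : Qbar | u ^ (2 * e) = 1}.Finite :=
    (nthRoots (2 * e) (1 : Qbar)).toFinset.finite_toSet.subset fun u hu =>
      Finset.mem_coe.2 (Multiset.mem_toFinset.2 ((mem_nthRoots (by omega)).2 hu))
  have hKK : Fd (K ⊔ K₁) := by
    have : FiniteDimensional ℚ K := hK
    have : FiniteDimensional ℚ K₁ := hK₁
    exact IntermediateField.finiteDimensional_sup _ _
  obtain ⟨K₂, hK₂, hle, hS⟩ := ex_field hKK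
    ((((coeff_fin a).union (coeff_fin b)).union hroot).union (Set.toFinite {α, β}))
  obtain ⟨a', rfl⟩ := ex_poly (K := K₂) (a := a) fun i =>
    hS _ (Or.inl (Or.inl (Or.inl ⟨i, rfl⟩)))
  obtain ⟨b', rfl⟩ := ex_poly (K := K₂) (a := b) fun i =>
    hS _ (Or.inl (Or.inl (Or.inr ⟨i, rfl⟩)))
  have hN' := nrm_of_map hN
  obtain ⟨h0, hcan⟩ := (hCANR K₂ d a' b' hN').2.1 H hH
  have hE : AbE K₂ (L ⊔ K₂) := by
    have := hCOMPO.1 K L K₂ hL
    rwa [sup_eq_right.2 (le_sup_left.trans hle)] at this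
  obtain ⟨H₂, hH₂⟩ := (hCANH 4 (dbl α β) (by norm_num)
    (hPRN.1 Qbar 4 _ _ (hCOMM α β hLat.typ.1).1).1.rm).1
  obtain ⟨c, c0, hc⟩ := hLATQ K₂ d e a' b' _ α β H₂ hK₂ hN' hcan
    (hS _ (Or.inr (Or.inl rfl))) (hS _ (Or.inr (Or.inr rfl)))
    (fun u hu => hS _ (Or.inl (Or.inr hu))) hLat.typ hH₂
    (hLHT d e _ _ g₁ g₂ α β H H₂ hN hLat hH hH₂)
  refine ⟨c, c0, fun x hx hx0 => ?_⟩
  cases x with
  | none => exact absurd h0 hx0.ne'
  | some z =>
    exact hc z (hE.2 z (sup_le_sup_left (le_sup_right.trans hle) L (some_mem_pts.1 hx))) hx0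

end Pool.Agent.P.MP_8d2e9f_nt.AO
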