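import Pool.Agent.P.MP_8d2e9f_nt.AO.IfaceD
import Pool.Agent.P.MP_8d2e9f_nt.G.All

/-! Step MAING2. -/

set_option autoImplicit false

namespace Pool.Agent.P.MP_8d2e9f_nt.AO

open Polynomial NumberField Pool.Agent.P.MP_8d2e9f_nt.G
open scoped IntermediateField Classical

theorem p_MAING2 (hPRN : S_PRN) (hTRANS : S_TRANS) (hCONJ : S_CONJ) (hCLASS : S_CLASS) (hEIG : S_EIG) (hPOLY2 : S_POLY2) (hLATT2 : S_LATT2) :
    S_MAING2 := by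
  intro K L d φ hK hA hd hφ
  obtain ⟨A, B, hP, rfl⟩ := rm_pr hφ
  obtain ⟨c, hc⟩ := (hPRN.2 Qbar d A B hd hP).1
  obtain ⟨a, b, m, hN, hS, -⟩ := hCONJ d 1 A B c hd hP one_pos hc
  rw [pow_one] at hN hS
  have h1 := (hPRN.1 _ d a b hN).1.rm
  refine (hTRANS.2 L d _ hd hφ).1 _ h1 hS ?_
  by_contra hG
  obtain ⟨P, hE⟩ := hEIG K L d a b hK hA hN hG
  obtain ⟨r, a', b', -, hN', hS', h⟩ := hCLASS d a b P hN hE
  refine hG ((hTRANS.2 L d _ hd h1).2 r ((hTRANS.2 L _ _ hN'.1 ((all_COMP ⊤ d _ h1).2 r)).1 _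
    (hPRN.1 _ _ a' b' hN').1.rm hS' ?_))
  rcases h with h | ⟨e, α, β, g₁, g₂, h⟩
  · exact hPOLY2 K L _ a' b' hK hA hN' h
  · exact hLATT2 K L _ e a' b' g₁ g₂ α β hK hA hN' h

end Pool.Agent.P.MP_8d2e9f_nt.AO
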