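import Pool.Agent.P.MP_8d2e9f_nt.AO.IfaceD
import Pool.Agent.P.MP_8d2e9f_nt.AO.TETORS

/-! Step NORS. -/

set_option autoImplicit false

namespace Pool.Agent.P.MP_8d2e9f_nt.AO

open Polynomial NumberField Pool.Agent.P.MP_8d2e9f_nt.G
open scoped IntermediateField Classical

theorem p_NORS (hWH : S_WH) :
    S_NORS := by
  intro K S B hK hS
  obtain ⟨E, h1, h2, h3⟩ := ex_field hK hS
  exact (hWH.2.2.2.1 E B h1).subset fun y hy =>
    ⟨etors_mem h2 fun ρ hρ => hy.2 ρ fun u hu => hρ u (h3 u hu), hy.1⟩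

end Pool.Agent.P.MP_8d2e9f_nt.AO
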