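import Pool.Agent.P.MP_8d2e9f_nt.AO.IfaceD
import Pool.Agent.P.MP_8d2e9f_nt.AO.TLATP

/-! Step POLY2. -/

set_option autoImplicit false

namespace Pool.Agent.P.MP_8d2e9f_nt.AO

open Polynomial NumberField Pool.Agent.P.MP_8d2e9f_nt.G
open scoped IntermediateField Classical

theorem p_POLY2 (hEXC : S_EXC) (hFORMB : S_FORMB) (hPRN : S_PRN) (hCANH : S_CANH) (hCOMPO : S_COMPO) (hEXG2 : S_EXG2) :
    S_POLY2 := by
  intro K L d a b hK hA hN hb H hH K' hK'
  obtain ⟨p1, p2, p3, -⟩ := hPRN.1 _ d a b hN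
  have : Fd K := hK
  have : Fd K' := hK'
  have hb' := eq_C_of_natDegree_eq_zero hb
  have b0 : b.coeff 0 ≠ 0 := fun e => p3 (by rw [hb', e, C_0])
  have hd : (C (b.coeff 0)⁻¹ * a).natDegree = d := by
    rw [natDegree_C_mul (inv_ne_zero b0), hN.2.1]
  have hm : ∀ x, im a b d (some x) = some ((C (b.coeff 0)⁻¹ * a).eval x) := fun x => by
    have e : b.eval x = b.coeff 0 := by rw [hb', eval_C, coeff_C_zero]
    rw [im_some p1.1 p1.2.1, e, if_neg b0, eval_mul, eval_C, div_eq_inv_mul]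
  generalize C (b.coeff 0)⁻¹ * a = f at hd hm
  have h0 : H none = 0 := (((hCANH d _ hN.1 p1.rm).2 H hH).2.1 none).2
    ((Set.finite_singleton none).subset (by
      rintro _ ⟨n, rfl⟩
      exact Function.iterate_fixed p2 n))
  have hc : Can f fun z => H (some z) :=
    ⟨fun z => by rw [hd]; exact (congrArg H (hm z)).symm.trans (hH.1 _), hH.2.imp fun _ h z => h (some z)⟩
  obtain ⟨K₂, hK₂, hle, hS⟩ := ex_field (K := K ⊔ K')
    (IntermediateField.finiteDimensional_sup _ _) (coeff_fin f)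
  obtain ⟨g, rfl⟩ := ex_poly (K := K₂) (a := f) fun i => hS _ ⟨i, rfl⟩
  have hE : AbE K₂ (L ⊔ K₂) := by
    have := hCOMPO.1 K L K₂ hA
    rwa [sup_eq_right.2 (le_sup_left.trans hle)] at this
  have h2 : 2 ≤ (g.map (algebraMap K₂ Qbar)).natDegree := hd.symm ▸ hN.1
  have h3 : 2 ≤ g.natDegree := by rwa [natDegree_map] at h2
  have key : ∃ c : ℝ, 0 < c ∧ ∀ z, Ab K₂ z → 0 < H (some z) → c ≤ H (some z) := by
    by_cases hl : Lots (fun z => H (some z)) {z | Ab K₂ z}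
    · obtain ⟨u, v, hs⟩ := hEXC K₂ g hK₂ h3 (hFORMB K₂ g _ hK₂ h3 hc hl)
      obtain ⟨ε, e0, he⟩ := hEXG2 K₂ K₂ _ _ u v hK₂ h2 hc hs
      exact ⟨ε, e0, fun z hz z0 => le_of_not_gt fun h => z0.ne' (he z hz h)⟩
    · obtain ⟨ε, h4⟩ := not_forall.1 hl
      obtain ⟨e0, h5⟩ := Classical.not_imp.1 h4
      obtain ⟨c, c0, c1, -, c2⟩ := latp_small
        (S := {z | (Ab K₂ z ∧ H (some z) < ε) ∧ 0 < H (some z)}) (h := fun z => H (some z))
        ((Set.not_infinite.1 h5).subset fun z hz => hz.1) (fun z hz => hz.2) e0 e0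
      refine ⟨c, c0, fun z hz z0 => ?_⟩
      by_cases h : H (some z) < ε
      · exact c2 z ⟨⟨hz, h⟩, z0⟩
      · exact c1.trans (not_lt.1 h)
  obtain ⟨c, c0, hk⟩ := key
  refine ⟨c, c0, fun x hx x0 => ?_⟩
  cases x with
  | none => exact absurd h0 x0.ne'
  | some z =>
    exact hk z (hE.2 z (sup_le_sup_left (le_sup_right.trans hle) L (some_mem_pts.1 hx))) x0

end Pool.Agent.P.MP_8d2e9f_nt.AO
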