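import Pool.Agent.P.MP_8d2e9f_nt.AO.IfaceD

/-! Step RFA. -/

set_option autoImplicit false

namespace Pool.Agent.P.MP_8d2e9f_nt.AO

open Polynomial NumberField Pool.Agent.P.MP_8d2e9f_nt.G
open scoped IntermediateField Classical

lemma rfa_d_ne {D : Qbar[X]} (h : D ≠ 0) : ∀ᶠ x in Filter.cofinite, D.eval x ≠ 0 :=
  (Polynomial.finite_setOfPred_isRoot h).compl_mem_cofinite

lemma rfa_d_poly (P : Qbar[X]) : RFn fun x => P.eval x :=
  ⟨P, 1, one_ne_zero, .of_forall fun x => by simp⟩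

lemma rfa_d_add {f g : Qbar → Qbar} (hf : RFn f) (hg : RFn g) : RFn fun x => f x + g x := by
  obtain ⟨N, D, h, e⟩ := hf
  obtain ⟨N', D', h', e'⟩ := hg
  refine ⟨N * D' + D * N', D * D', mul_ne_zero h h', ?_⟩
  filter_upwards [e, e', rfa_d_ne h, rfa_d_ne h'] with x e e' h h'
  rw [e, e', div_add_div _ _ h h', eval_add, eval_mul, eval_mul, eval_mul]

lemma rfa_d_mul {f g : Qbar → Qbar} (hf : RFn f) (hg : RFn g) : RFn fun x => f x * g x := by
  obtain ⟨N, D, h, e⟩ := hf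
  obtain ⟨N', D', h', e'⟩ := hg
  refine ⟨N * N', D * D', mul_ne_zero h h', ?_⟩
  filter_upwards [e, e'] with x e e'
  rw [e, e', div_mul_div_comm, eval_mul, eval_mul]

lemma rfa_d_inv {f : Qbar → Qbar} (hf : RFn f) : RFn fun x => (f x)⁻¹ := by
  obtain ⟨N, D, h, e⟩ := hf
  by_cases h0 : N = 0
  · refine ⟨0, 1, one_ne_zero, ?_⟩
    filter_upwards [e] with x e
    simp [e, h0]
  · refine ⟨D, N, h0, ?_⟩
    filter_upwards [e] with x e
    rw [e, inv_div]

lemma rfa_d_comp (P : Qbar[X]) : RFn fun x => P.eval x⁻¹ := by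
  induction P using Polynomial.induction_on' with
  | add p q hp hq => simpa only [eval_add] using rfa_d_add hp hq
  | monomial n c =>
    simpa only [eval_C, eval_pow, eval_X, eval_monomial, inv_pow] using
      rfa_d_mul (rfa_d_poly (C c)) (rfa_d_inv (rfa_d_poly (X ^ n)))

theorem p_RFA :
    S_RFA := by
  refine ⟨rfa_d_poly, fun f g hf hg => ⟨rfa_d_add hf hg, ?_, rfa_d_mul hf hg, ?_⟩,
    fun f ⟨N, D, h, e⟩ => ?_, fun f ⟨N, D, _, e⟩ => ?_⟩
  · simpa only [eval_C, neg_one_mul, sub_eq_add_neg] using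
      rfa_d_add hf (rfa_d_mul (rfa_d_poly (C (-1))) hg)
  · simpa only [div_eq_mul_inv] using rfa_d_mul hf (rfa_d_inv hg)
  · by_cases h0 : N = 0
    · exact Or.inl (e.mono fun x e => by simp [e, h0])
    · refine Or.inr ?_
      filter_upwards [e, rfa_d_ne h, rfa_d_ne h0] with x e h h0
      exact e ▸ div_ne_zero h0 h
  · obtain ⟨N', D', h', e'⟩ := rfa_d_mul (rfa_d_comp N) (rfa_d_inv (rfa_d_comp D))
    refine ⟨N', D', h', ?_⟩
    filter_upwards [inv_injective.tendsto_cofinite.eventually e, e'] with x e e'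
    rw [e, ← e', div_eq_mul_inv]

end Pool.Agent.P.MP_8d2e9f_nt.AO
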