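import Pool.Agent.P.MP_8d2e9f_nt.AO.IfaceD

/-! Step SCH1. -/

set_option autoImplicit false

namespace Pool.Agent.P.MP_8d2e9f_nt.AO

open Polynomial NumberField Pool.Agent.P.MP_8d2e9f_nt.G
open scoped IntermediateField Classical

lemma sch1_d_big {p : ℕ} [Fact p.Prime] (j : Qbar →+* Om p) {ρ : ℝ} (h1 : ρ < 1) :
    ∃ s : Qbar, ρ < ‖j s‖ ∧ ‖j s‖ < 1 := by
  have hp : (1 : ℝ) < p := by exact_mod_cast (Fact.out : p.Prime).one_lt
  have e : ‖j (p : Qbar)‖ = (p : ℝ)⁻¹ := by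
    rw [map_natCast, ← map_natCast (algebraMap ℚ_[p] _), PadicAlgCl.norm_extends, Padic.norm_p]
  have a0 : (0 : ℝ) < (p : ℝ)⁻¹ := by positivity
  have a1 : (p : ℝ)⁻¹ < 1 := inv_lt_one_of_one_lt₀ hp
  obtain ⟨n, hn⟩ := exists_pow_lt_of_lt_one a0 h1
  have hn0 : n ≠ 0 := by
    rintro rfl
    rw [pow_zero] at hn
    exact absurd hn a1.not_gt
  obtain ⟨s, hs⟩ := IsAlgClosed.exists_pow_nat_eq (p : Qbar) (Nat.pos_of_ne_zero hn0)
  have e2 : ‖j s‖ ^ n = (p : ℝ)⁻¹ := by rw [← norm_pow, ← map_pow, hs, e]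
  refine ⟨s, lt_of_pow_lt_pow_left₀ n (norm_nonneg _) (e2 ▸ hn), ?_⟩
  exact (pow_lt_one_iff_of_nonneg (norm_nonneg _) hn0).1 (e2 ▸ a1)

lemma sch1_d_top {p : ℕ} [Fact p.Prime] (j : Qbar →+* Om p) (F : Finset Qbar) {ρ : ℝ}
    (h1 : ρ < 1) : ∃ r : ℝ, ρ ≤ r ∧ r < 1 ∧ ∀ a ∈ F, ‖j a‖ < 1 → ‖j a‖ ≤ r := by
  induction F using Finset.induction_on with
  | empty => exact ⟨ρ, le_rfl, h1, fun a ha => absurd ha (Finset.notMem_empty a)⟩
  | insert b F _ ih =>
    obtain ⟨r, r1, r2, r3⟩ := ih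
    by_cases hb : ‖j b‖ < 1
    · refine ⟨max r ‖j b‖, le_max_of_le_left r1, max_lt r2 hb, fun a ha h => ?_⟩
      rcases Finset.mem_insert.1 ha with rfl | ha
      · exact le_max_right _ _
      · exact le_max_of_le_left (r3 a ha h)
    · refine ⟨r, r1, r2, fun a ha h => ?_⟩
      rcases Finset.mem_insert.1 ha with rfl | ha
      · exact absurd h hb
      · exact r3 a ha h

lemma sch1_d_sub {p : ℕ} [Fact p.Prime] (j : Qbar →+* Om p) {s a : Qbar} (h : ‖j s‖ ≠ ‖j a‖) :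
    ‖j (s - a)‖ = max ‖j s‖ ‖j a‖ := by
  rw [map_sub, sub_eq_add_neg, IsUltrametricDist.norm_add_eq_max_of_norm_ne_norm
    (by rwa [norm_neg]), norm_neg]

lemma sch1_d_mono {p : ℕ} [Fact p.Prime] (j : Qbar →+* Om p) (N : Qbar[X]) {s t : Qbar}
    (h : ∀ a ∈ N.roots, ‖j (t - a)‖ ≤ ‖j (s - a)‖) : ‖j (N.eval t)‖ ≤ ‖j (N.eval s)‖ := by
  have key : ∀ R : Multiset Qbar, (∀ a ∈ R, ‖j (t - a)‖ ≤ ‖j (s - a)‖) →
      ‖j (((R.map fun a => X - C a).prod).eval t)‖ ≤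
        ‖j (((R.map fun a => X - C a).prod).eval s)‖ := by
    intro R
    induction R using Multiset.induction_on with
    | empty => simp
    | cons a R ih =>
      intro hR
      simp only [Multiset.map_cons, Multiset.prod_cons, eval_mul, eval_sub, eval_X, eval_C,
        map_mul, norm_mul]
      exact mul_le_mul (hR a (Multiset.mem_cons_self _ _))
        (ih fun b hb => hR b (Multiset.mem_cons_of_mem hb)) (norm_nonneg _) (norm_nonneg _)
  have e := (IsAlgClosed.splits N).eq_prod_roots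
  have k := key N.roots h
  rw [e]
  simp only [eval_mul, eval_C, map_mul, norm_mul]
  exact mul_le_mul_of_nonneg_left k (norm_nonneg _)

theorem p_SCH1 :
    S_SCH1 := by
  intro p _ j N E Z m hE hZ hm t ht
  obtain ⟨N1, hN⟩ : (∏ z ∈ Z, (X - C z)) ∣ N :=
    Finset.prod_dvd_of_coprime
      (fun a _ b _ hab => isCoprime_X_sub_C_of_isUnit_sub (sub_ne_zero.2 hab).isUnit)
      fun z hz => dvd_iff_isRoot.2 (hZ z hz).2
  have ev : ∀ s, ‖j (N.eval s)‖ = (∏ z ∈ Z, ‖j (s - z)‖) * ‖j (N1.eval s)‖ := fun s => by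
    rw [hN, eval_mul, map_mul, norm_mul, eval_prod, map_prod, norm_prod]
    simp only [eval_sub, eval_X, eval_C]
  have key : ∀ ρ : ℝ, 0 ≤ ρ → ρ < 1 → ρ ^ Z.card * ‖j (N1.eval t)‖ ≤ m := by
    intro ρ h0 h1
    obtain ⟨r, r1, r2, r3⟩ := sch1_d_top j
      (insert t (hE.toFinset ∪ Z ∪ N1.roots.toFinset)) h1
    obtain ⟨s, s1, s2⟩ := sch1_d_big j r2
    have hne : ∀ a ∈ insert t (hE.toFinset ∪ Z ∪ N1.roots.toFinset), ‖j s‖ ≠ ‖j a‖ :=
      fun a ha e => absurd (r3 a ha (e ▸ s2)) (e ▸ s1.not_ge)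
    have hs : s ∉ E := fun h => hne s (by simp [h]) rfl
    have hts : ‖j t‖ ≤ ‖j s‖ := (r3 t (Finset.mem_insert_self _ _) ht).trans s1.le
    refine le_trans ?_ (hm s hs s2)
    rw [ev s]
    refine mul_le_mul ?_ (sch1_d_mono j N1 fun a ha => ?_) (norm_nonneg _)
      (Finset.prod_nonneg fun _ _ => norm_nonneg _)
    · rw [← Finset.prod_const]
      refine Finset.prod_le_prod (fun _ _ => h0) fun z hz => ?_
      rw [sch1_d_sub j (hne z (by simp [hz]))]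
      exact le_max_of_le_left (r1.trans s1.le)
    · rw [sch1_d_sub j (hne a (Finset.mem_insert_of_mem
        (Finset.mem_union_right _ (Multiset.mem_toFinset.2 ha)))), map_sub, sub_eq_add_neg]
      refine (IsUltrametricDist.norm_add_le_max _ _).trans ?_
      rw [norm_neg]
      exact max_le_max hts le_rfl
  have fin : ‖j (N1.eval t)‖ ≤ m := by
    have hc : Continuous fun ρ : ℝ => ρ ^ Z.card * ‖j (N1.eval t)‖ := by fun_prop
    have h1 := (hc.tendsto 1).mono_left (nhdsWithin_le_nhds (s := Set.Iio 1))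
    simp only [one_pow, one_mul] at h1
    refine le_of_tendsto h1 ?_
    filter_upwards [Ioo_mem_nhdsLT (zero_lt_one' ℝ)] with ρ hρ
    exact key ρ hρ.1.le hρ.2
  rw [ev t, mul_comm]
  exact mul_le_mul_of_nonneg_right fin (Finset.prod_nonneg fun _ _ => norm_nonneg _)

end Pool.Agent.P.MP_8d2e9f_nt.AO
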