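import Pool.Agent.P.MP_8d2e9f_nt.AO.IfaceD

/-! Step SCHW. -/

set_option autoImplicit false

namespace Pool.Agent.P.MP_8d2e9f_nt.AO

open Polynomial NumberField Pool.Agent.P.MP_8d2e9f_nt.G
open scoped IntermediateField Classical

section

variable {p : ℕ} [Fact p.Prime] (j : Qbar →+* Om p)

lemma schw_d_bd (Q : Qbar[X]) : ∃ c : ℝ, 0 ≤ c ∧ ∀ s, ‖j s‖ ≤ 1 → ‖j (Q.eval s)‖ ≤ c := by
  induction Q using Polynomial.induction_on' with
  | add P Q hP hQ =>
    obtain ⟨a, ha, h1⟩ := hP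
    obtain ⟨b, hb, h2⟩ := hQ
    refine ⟨a + b, add_nonneg ha hb, fun s hs => ?_⟩
    rw [eval_add, map_add]
    exact (norm_add_le _ _).trans (add_le_add (h1 s hs) (h2 s hs))
  | monomial n a =>
    refine ⟨‖j a‖, norm_nonneg _, fun s hs => ?_⟩
    rw [eval_monomial, map_mul, map_pow, norm_mul, norm_pow]
    exact mul_le_of_le_one_right (norm_nonneg _) (pow_le_one₀ (norm_nonneg _) hs)

lemma schw_d_lip (P : Qbar[X]) (z : Qbar) : ∃ c : ℝ, 0 ≤ c ∧ ∀ s, ‖j s‖ ≤ 1 →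
    ‖j (P.eval s) - j (P.eval z)‖ ≤ ‖j (s - z)‖ * c := by
  obtain ⟨Q, hQ⟩ := X_sub_C_dvd_sub_C_eval (p := P) (a := z)
  obtain ⟨c, hc, h⟩ := schw_d_bd j Q
  refine ⟨c, hc, fun s hs => ?_⟩
  have e := congrArg (eval s) hQ
  simp only [eval_sub, eval_C, eval_mul, eval_X] at e
  rw [← map_sub, e, map_mul, norm_mul]
  exact mul_le_mul_of_nonneg_left (h s hs) (norm_nonneg _)

lemma schw_d_zero (N : Qbar[X]) (b : Qbar) (K : ℝ)
    (h : ∀ η : ℝ, 0 < η → η ≤ 1 → ∃ s, ‖j s‖ ≤ 1 ∧ ‖j (s - b)‖ < η ∧ ‖j (N.eval s)‖ ≤ η * K) :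
    N.eval b = 0 := by
  obtain ⟨c, hc, hl⟩ := schw_d_lip j N b
  have key : ∀ η : ℝ, 0 < η → η ≤ 1 → ‖j (N.eval b)‖ ≤ η * (K + c) := fun η h0 h1 => by
    obtain ⟨s, a1, a2, a3⟩ := h η h0 h1
    have a4 := hl s a1
    have a5 := norm_sub_norm_le (j (N.eval b)) (j (N.eval s))
    rw [norm_sub_rev] at a5
    nlinarith [mul_le_mul_of_nonneg_right a2.le hc]
  have lim : Filter.Tendsto (fun η : ℝ => η * (K + c)) (nhdsWithin 0 (Set.Ioi 0)) (nhds 0) := by
    have : Continuous fun η : ℝ => η * (K + c) := by fun_prop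
    simpa using (this.tendsto 0).mono_left (nhdsWithin_le_nhds (s := Set.Ioi 0))
  have : ‖j (N.eval b)‖ ≤ 0 := ge_of_tendsto lim (by
    filter_upwards [Ioc_mem_nhdsGT (zero_lt_one' ℝ)] with η hη using key η hη.1 hη.2)
  exact (map_eq_zero j).1 (norm_le_zero_iff.1 this)

lemma schw_d_disc {s z : Qbar} (hz : ‖j z‖ < 1) (h : ‖j (s - z)‖ < 1) : ‖j s‖ < 1 := by
  have := IsUltrametricDist.norm_add_le_max (j (s - z)) (j z)
  rw [← map_add, sub_add_cancel] at this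
  exact this.trans_lt (max_lt h hz)

lemma schw_d_near (b : Qbar) {η : ℝ} (h : 0 < η) : {s | ‖j (s - b)‖ < η}.Infinite := by
  have ep : ‖(p : Om p)‖ < 1 := by
    rw [← map_natCast (algebraMap ℚ_[p] (Om p)), norm_algebraMap']
    exact Padic.norm_p_lt_one
  obtain ⟨k, hk⟩ := exists_pow_lt_of_lt_one h ep
  refine Set.infinite_of_injective_forall_mem (f := fun i : ℕ => b + (p : Qbar) ^ (k + i))
    (fun i i' e => ?_) fun i => ?_
  · have e1 : (p : Qbar) ^ (k + i) = (p : Qbar) ^ (k + i') := add_left_cancel e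
    have e2 : p ^ (k + i) = p ^ (k + i') := by exact_mod_cast e1
    have := Nat.pow_right_injective (Fact.out : p.Prime).two_le e2
    omega
  · simp only [Set.mem_ofPred_eq, add_sub_cancel_left, map_pow, map_natCast, norm_pow]
    exact (pow_le_pow_of_le_one (norm_nonneg _) ep.le (Nat.le_add_right k i)).trans_lt hk

lemma schw_d_const (D : Qbar[X]) (h : ∀ b, ‖j b‖ < 1 → D.eval b ≠ 0) (hD : D ≠ 0) (s : Qbar)
    (hs : ‖j s‖ < 1) : ‖j (D.eval s)‖ = ‖j (D.eval 0)‖ := by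
  have e : ∀ x, ‖j (D.eval x)‖ =
      ‖j D.leadingCoeff‖ * (D.roots.map fun b => ‖j (x - b)‖).prod := fun x => by
    rw [(IsAlgClosed.splits D).eval_eq_prod_roots x, map_mul, norm_mul, map_multiset_prod,
      Multiset.map_map]
    congr 1
    exact (map_multiset_prod (normHom : Om p →*₀ ℝ) _).trans (by rw [Multiset.map_map]; rfl)
  rw [e, e]
  congr 2
  refine Multiset.map_congr rfl fun b hb => ?_
  have hb1 : 1 ≤ ‖j b‖ := not_lt.1 fun h1 => h b h1 ((mem_roots hD).1 hb)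
  rw [zero_sub, map_neg, norm_neg, map_sub, sub_eq_add_neg,
    IsUltrametricDist.norm_add_eq_max_of_norm_ne_norm (by rw [norm_neg]; linarith), norm_neg]
  exact max_eq_right (by linarith)

end

theorem p_SCHW (hSCH1 : S_SCH1) :
    S_SCHW := by
  rintro p _ j g Z ⟨N₀, D₀, hD₀, hg⟩ h1 hZ
  obtain ⟨N, D, hD, hc, hg⟩ : ∃ N D : Qbar[X], D ≠ 0 ∧ IsCoprime N D ∧
      ∀ᶠ x in Filter.cofinite, g x = N.eval x / D.eval x := by
    have hG : gcd N₀ D₀ ≠ 0 := gcd_ne_zero_of_right hD₀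
    refine ⟨N₀ / gcd N₀ D₀, D₀ / gcd N₀ D₀, right_div_gcd_ne_zero hD₀,
      isCoprime_div_gcd_div_gcd hD₀, ?_⟩
    have hf : ∀ᶠ x in Filter.cofinite, (gcd N₀ D₀).eval x ≠ 0 :=
      Filter.eventually_cofinite.2 (by simpa using finite_setOfPred_isRoot hG)
    filter_upwards [hg, hf] with x hx hx'
    have e1 := congrArg (eval x) (EuclideanDomain.mul_div_cancel' hG (gcd_dvd_left N₀ D₀))
    have e2 := congrArg (eval x) (EuclideanDomain.mul_div_cancel' hG (gcd_dvd_right N₀ D₀))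
    rw [eval_mul] at e1 e2
    rw [hx, ← e1, ← e2, mul_div_mul_left _ _ hx']
  have hf : ∀ᶠ x in Filter.cofinite, D.eval x ≠ 0 :=
    Filter.eventually_cofinite.2 (by simpa using finite_setOfPred_isRoot hD)
  have hall := (hg.and hf).and h1
  have hE := Filter.eventually_cofinite.1 hall
  have hN : ∀ s, g s = N.eval s / D.eval s ∧ D.eval s ≠ 0 →
      ‖j (N.eval s)‖ = ‖j (g s)‖ * ‖j (D.eval s)‖ := fun s hs => by
    rw [← norm_mul, ← map_mul, hs.1, div_mul_cancel₀ _ hs.2]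
  have hroot : ∀ b, ‖j b‖ < 1 → D.eval b ≠ 0 := fun b hb h0 => by
    obtain ⟨c, hc0, hl⟩ := schw_d_lip j D b
    have hNb : N.eval b = 0 := schw_d_zero j N b c fun η a0 a1 => by
      obtain ⟨s, s1, s2⟩ := ((schw_d_near j b a0).sdiff hE).nonempty
      have s3 := not_not.1 s2
      have s4 := schw_d_disc j hb (lt_of_lt_of_le s1 a1)
      have s5 := hl s s4.le
      rw [h0, map_zero, sub_zero] at s5
      refine ⟨s, s4.le, s1, ?_⟩
      rw [hN s s3.1]
      exact (mul_le_of_le_one_left (norm_nonneg _) (s3.2 s4)).trans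
        (s5.trans (mul_le_mul_of_nonneg_right (le_of_lt s1) hc0))
    obtain ⟨u, v, huv⟩ := hc
    have := congrArg (eval b) huv
    simp [hNb, h0] at this
  have hm := schw_d_const j D hroot hD
  have hm0 : 0 < ‖j (D.eval 0)‖ :=
    norm_pos_iff.2 ((_root_.map_ne_zero j).2 (hroot 0 (by simp)))
  have main := hSCH1 p j N _ Z ‖j (D.eval 0)‖ hE
    (fun z hz => ⟨(hZ z hz).1, schw_d_zero j N z ‖j (D.eval 0)‖ fun η a0 a1 => by
      obtain ⟨s, s1, s2⟩ := (((hZ z hz).2 η a0).sdiff hE).nonempty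
      have s3 := not_not.1 s2
      have s4 := schw_d_disc j (hZ z hz).1 (lt_of_lt_of_le s1.1 a1)
      refine ⟨s, s4.le, s1.1, ?_⟩
      rw [hN s s3.1, hm s s4]
      exact mul_le_mul_of_nonneg_right s1.2 hm0.le⟩)
    (fun s hs s4 => by
      have s3 := not_not.1 hs
      rw [hN s s3.1, hm s s4]
      exact mul_le_of_le_one_left hm0.le (s3.2 s4))
  filter_upwards [hall] with s hs s4
  have := main s s4
  rw [hN s hs.1, hm s s4, mul_comm] at this
  exact le_of_mul_le_mul_left this hm0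

end Pool.Agent.P.MP_8d2e9f_nt.AO
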