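import Pool.Agent.P.MP_8d2e9f_nt.AO.IfaceD
import Pool.Agent.P.MP_8d2e9f_nt.AO.TWH

/-! Step WHX. -/

set_option autoImplicit false

namespace Pool.Agent.P.MP_8d2e9f_nt.AO

open Polynomial NumberField Pool.Agent.P.MP_8d2e9f_nt.G
open scoped IntermediateField Classical

theorem p_WHX (hWH : S_WH) :
    S_WHX := by
  have hp : ∀ (z : Qbar) (n : ℕ), wh (z ^ n) = n * wh z := fun z n => absLogHeight₁_pow (int_Q z) n
  have hf : ∀ z : Qbar, Fd ℚ⟮z⟯ := fun z => IntermediateField.adjoin.finiteDimensional (int_Q z)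
  refine ⟨fun z w => ?_, fun z => ?_, hp, fun z => ?_, ?_, fun z z0 h => ?_, fun z h => ?_⟩
  · obtain ⟨E, hE, -, h⟩ := ex_field (hf z) (Set.toFinite {z, w})
    have hz := h z (Or.inl rfl)
    have hw := h w (Or.inr rfl)
    have : NumberField E := {}
    change absLogHeight₁ (z * w) ≤ absLogHeight₁ z + absLogHeight₁ w
    rw [absLogHeight₁_eq E z hz, absLogHeight₁_eq E w hw, absLogHeight₁_eq E _ (mul_mem hz hw),
      ← add_div]
    exact div_le_div_of_nonneg_right (Height.logHeight₁_mul_le (⟨z, hz⟩ : E) ⟨w, hw⟩)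
      (Nat.cast_nonneg _)
  · have := hf z
    have : NumberField ℚ⟮z⟯ := {}
    have hz := IntermediateField.mem_adjoin_simple_self ℚ z
    change absLogHeight₁ z⁻¹ = absLogHeight₁ z
    rw [absLogHeight₁_eq _ z hz, absLogHeight₁_eq _ _ (inv_mem hz),
      ← Height.logHeight₁_inv (⟨z, hz⟩ : ℚ⟮z⟯)]
    rfl
  · have h1 := hp (-z) 2
    rw [neg_sq, hp] at h1
    exact (mul_left_cancel₀ (by norm_num) h1).symm
  · have h1 := hp 0 2
    rw [zero_pow two_ne_zero] at h1
    push_cast at h1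
    linarith
  · have h1 := (hWH.2.2.2.1 ℚ⟮z⟯ 0 (hf z)).subset (t := Set.range fun n : ℕ => z ^ n) (by
      rintro _ ⟨n, rfl⟩
      exact ⟨pow_mem (IntermediateField.mem_adjoin_simple_self ℚ z) n, by
        rw [hp, h, mul_zero]⟩)
    obtain ⟨m, n, hne, e⟩ : ∃ m n : ℕ, m < n ∧ z ^ m = z ^ n := by
      by_contra hn
      refine Set.infinite_range_of_injective (f := fun n : ℕ => z ^ n) (fun m n e => ?_) h1
      by_contra h2
      rcases lt_or_gt_of_ne h2 with h3 | h3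
      · exact hn ⟨m, n, h3, e⟩
      · exact hn ⟨n, m, h3, e.symm⟩
    obtain ⟨k, rfl⟩ := Nat.exists_eq_add_of_lt hne
    refine isOfFinOrder_iff_pow_eq_one.2 ⟨k + 1, k.succ_pos, ?_⟩
    rw [add_assoc, pow_add, eq_comm, mul_eq_left₀ (pow_ne_zero m z0)] at e
    exact e
  · obtain ⟨n, n0, e⟩ := isOfFinOrder_iff_pow_eq_one.1 h
    have h1 := hp z n
    have h2 := hp 1 0
    rw [pow_zero, Nat.cast_zero, zero_mul] at h2
    rw [e, h2] at h1
    exact (mul_eq_zero.1 h1.symm).resolve_left (Nat.cast_ne_zero.2 n0.ne')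

end Pool.Agent.P.MP_8d2e9f_nt.AO
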