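import Pool.Agent.P.MP_8d2e9f_nt.AO.IfaceD
import Pool.Agent.P.MP_8d2e9f_nt.AO.TLATP

/-! Step WLD2. -/

set_option autoImplicit false

namespace Pool.Agent.P.MP_8d2e9f_nt.AO

open Polynomial NumberField Pool.Agent.P.MP_8d2e9f_nt.G
open scoped IntermediateField Classical

theorem p_WLD2 (hFROB : S_FROB) (hDICH : S_DICH) (hTAME : S_TAME) :
    S_WLD2 := by
  intro K d a b h p _ φ j a₀ b₀ hS hp
  obtain ⟨D, τ, hD⟩ := hFROB K p φ j hS.loc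
  obtain ⟨δ, -, hδ, hz⟩ := hDICH K p j D τ hD hp
  have h1 := hTAME K d a b h p φ j a₀ b₀ δ τ hS hδ
  simp only [Lots, not_forall, Set.not_infinite] at h1
  obtain ⟨ε, hε, h1⟩ := h1
  obtain ⟨c, c0, c1, -, c3⟩ := latp_small h1 (h := h) (fun x hx => hx.1.1) hε hε
  exact ⟨δ, c, hδ, c0, fun z h2 h3 h4 => (hz z h2).resolve_left fun h5 =>
    (c3 z ⟨⟨h3, h2, h5⟩, h4.trans_le c1⟩).not_gt h4⟩

end Pool.Agent.P.MP_8d2e9f_nt.AO
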