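import Pool.Agent.P.MP_8d2e9f_nt.AO.IfaceD

/-! Step ZP. -/

set_option autoImplicit false

namespace Pool.Agent.P.MP_8d2e9f_nt.AO

open Polynomial NumberField Pool.Agent.P.MP_8d2e9f_nt.G
open scoped IntermediateField Classical

lemma zp_d1 (x : ℤ) (t : ℕ) : ∃ w : ℤ, (1 + x) ^ t = 1 + t * x + x ^ 2 * w := by
  induction t with
  | zero => exact ⟨0, by simp⟩
  | succ t ih =>
    obtain ⟨w, hw⟩ := ih
    refine ⟨w * (1 + x) + t, ?_⟩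
    rw [pow_succ, hw]
    push_cast
    ring

lemma zp_d2 {p n : ℕ} {c : ℤ} (hp : p.Prime) (hn : 0 < n) (h1 : (p : ℤ) ^ n ∣ c - 1) :
    ¬ (p : ℤ) ∣ c := fun h => by
  have hd : (p : ℤ) ∣ c - 1 := (dvd_pow_self _ hn.ne').trans h1
  have h2 : (p : ℤ) ∣ 1 := by simpa using dvd_sub h hd
  exact hp.one_lt.ne' (Nat.dvd_one.1 (by exact_mod_cast h2))

lemma zp_d3 {p n : ℕ} {c : ℤ} (hp : p.Prime) (h3 : 3 ≤ p) (hn : 0 < n)
    (h1 : (p : ℤ) ^ n ∣ c - 1) (h2 : ¬ (p : ℤ) ^ (n + 1) ∣ c - 1) (k : ℕ) :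
    (p : ℤ) ^ (n + k) ∣ c ^ p ^ k - 1 ∧ ¬ (p : ℤ) ^ (n + k + 1) ∣ c ^ p ^ k - 1 := by
  have hd : (p : ℤ) ∣ c - 1 := (dvd_pow_self _ hn.ne').trans h1
  have e := Int.emultiplicity_pow_sub_pow hp (hp.odd_of_ne_two (by omega)) hd (zp_d2 hp hn h1)
    (p ^ k)
  have e1 : emultiplicity (p : ℤ) (c - 1) = n := emultiplicity_eq_coe.2 ⟨h1, h2⟩
  rw [one_pow, e1, hp.emultiplicity_pow_self] at e
  exact emultiplicity_eq_coe.1 (by rw [e, Nat.cast_add])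

lemma zp_d4 {p : ℕ} (hp : p.Prime) (v b : ℤ) (hb : ¬ (p : ℤ) ∣ b) :
    ∃ t : ℕ, (p : ℤ) ∣ v + b * t := by
  have := Fact.mk hp
  have h0 : (b : ZMod p) ≠ 0 := by rwa [Ne, ZMod.intCast_zmod_eq_zero_iff_dvd]
  refine ⟨(-(v : ZMod p) / (b : ZMod p)).val, ?_⟩
  rw [← ZMod.intCast_zmod_eq_zero_iff_dvd]
  push_cast
  rw [ZMod.natCast_zmod_val, mul_div_cancel₀ _ h0, add_neg_cancel]

theorem p_ZP :
    S_ZP := by
  intro p n c A hp h3 hn h1 h2 hA a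
  have key : ∀ k : ℕ, ∃ i : ℕ, (p : ℤ) ^ (n + k) ∣ c ^ i - A := by
    intro k
    induction k with
    | zero => exact ⟨0, by simpa using dvd_sub_comm.1 hA⟩
    | succ k ih =>
      obtain ⟨i, v, hv⟩ := ih
      obtain ⟨⟨u, hu⟩, hu'⟩ := zp_d3 hp h3 hn h1 h2 k
      have hpu : ¬ (p : ℤ) ∣ u := fun h => hu' (by
        rw [hu, pow_succ]
        exact mul_dvd_mul_left _ h)
      have hb : ¬ (p : ℤ) ∣ A * u := fun h =>
        ((Nat.prime_iff_prime_int.1 hp).dvd_or_dvd h).elim (zp_d2 hp hn hA) hpu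
      obtain ⟨t, s, hs⟩ := zp_d4 hp v (A * u) hb
      obtain ⟨w, hw⟩ := zp_d1 ((p : ℤ) ^ (n + k) * u) t
      obtain ⟨q, hq⟩ : (p : ℤ) ∣ (p : ℤ) ^ (n + k) := dvd_pow_self _ (by omega)
      have e1 : c ^ i = A + (p : ℤ) ^ (n + k) * v := by rw [← hv]; ring
      have e2 : c ^ p ^ k = 1 + (p : ℤ) ^ (n + k) * u := by rw [← hu]; ring
      refine ⟨i + p ^ k * t, s + q * (v * t * u + (A + (p : ℤ) ^ (n + k) * v) * u ^ 2 * w), ?_⟩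
      rw [pow_add c, pow_mul, e1, e2, hw, ← add_assoc n, pow_succ (p : ℤ) (n + k)]
      linear_combination (p : ℤ) ^ (n + k) * hs + (p : ℤ) ^ (n + k) *
        (v * t * u + (A + (p : ℤ) ^ (n + k) * v) * u ^ 2 * w) * hq
  obtain ⟨i, hi⟩ := key a
  exact ⟨i, (pow_dvd_pow _ (Nat.le_add_left a n)).trans hi⟩

end Pool.Agent.P.MP_8d2e9f_nt.AO
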