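import Pool.Agent.P.MP_8d2e9f_nt.AO.AllC
import Pool.Agent.P.MP_8d2e9f_nt.AO.FinD
import Pool.Agent.P.MP_8d2e9f_nt.AO.TWHX
import Pool.Agent.P.MP_8d2e9f_nt.AO.TNORS
import Pool.Agent.P.MP_8d2e9f_nt.AO.TCYC
import Pool.Agent.P.MP_8d2e9f_nt.AO.THID
import Pool.Agent.P.MP_8d2e9f_nt.AO.TGM
import Pool.Agent.P.MP_8d2e9f_nt.AO.TCHB
import Pool.Agent.P.MP_8d2e9f_nt.AO.TEXG2
import Pool.Agent.P.MP_8d2e9f_nt.AO.TPOLY2
import Pool.Agent.P.MP_8d2e9f_nt.AO.TINF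
import Pool.Agent.P.MP_8d2e9f_nt.AO.TINA
import Pool.Agent.P.MP_8d2e9f_nt.AO.TINERT
import Pool.Agent.P.MP_8d2e9f_nt.AO.TEFIX
import Pool.Agent.P.MP_8d2e9f_nt.AO.TECYC
import Pool.Agent.P.MP_8d2e9f_nt.AO.TZP
import Pool.Agent.P.MP_8d2e9f_nt.AO.TESC1
import Pool.Agent.P.MP_8d2e9f_nt.AO.TRFA
import Pool.Agent.P.MP_8d2e9f_nt.AO.TSCH1
import Pool.Agent.P.MP_8d2e9f_nt.AO.TSCHW
import Pool.Agent.P.MP_8d2e9f_nt.AO.TELOC
import Pool.Agent.P.MP_8d2e9f_nt.AO.TEKILL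
import Pool.Agent.P.MP_8d2e9f_nt.AO.TECLO
import Pool.Agent.P.MP_8d2e9f_nt.AO.TENT
import Pool.Agent.P.MP_8d2e9f_nt.AO.TEMUL
import Pool.Agent.P.MP_8d2e9f_nt.AO.TEG
import Pool.Agent.P.MP_8d2e9f_nt.AO.TESZ
import Pool.Agent.P.MP_8d2e9f_nt.AO.TESCH
import Pool.Agent.P.MP_8d2e9f_nt.AO.TERK1
import Pool.Agent.P.MP_8d2e9f_nt.AO.TESCAL
import Pool.Agent.P.MP_8d2e9f_nt.AO.TEKER
import Pool.Agent.P.MP_8d2e9f_nt.AO.TWLD2
import Pool.Agent.P.MP_8d2e9f_nt.AO.TEW1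
import Pool.Agent.P.MP_8d2e9f_nt.AO.TEW
import Pool.Agent.P.MP_8d2e9f_nt.AO.TEHZ
import Pool.Agent.P.MP_8d2e9f_nt.AO.TEAB
import Pool.Agent.P.MP_8d2e9f_nt.AO.TEFX
import Pool.Agent.P.MP_8d2e9f_nt.AO.TEBASE
import Pool.Agent.P.MP_8d2e9f_nt.AO.TLATR
import Pool.Agent.P.MP_8d2e9f_nt.AO.TLATQ
import Pool.Agent.P.MP_8d2e9f_nt.AO.TLATT2
import Pool.Agent.P.MP_8d2e9f_nt.AO.TMAING2

/-! All steps for the height gap together. -/

namespace Pool.Agent.P.MP_8d2e9f_nt.AO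

theorem all_WHX : S_WHX := p_WHX all_WH
theorem all_NORS : S_NORS := p_NORS all_WH
theorem all_CYC : S_CYC := p_CYC
theorem all_HID : S_HID := p_HID all_WH all_WHX
theorem all_GM : S_GM := p_GM all_ABG all_PLACE all_FROB all_DICH all_AMP all_WH all_WHX all_NORS all_CYC
theorem all_CHB : S_CHB := p_CHB all_ABG all_PLACE all_FROB all_DICH all_AMP all_WH all_CANB all_HID all_GM
theorem all_EXG2 : S_EXG2 := p_EXG2 all_ABG all_CANB all_HID all_GM all_CHB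
theorem all_POLY2 : S_POLY2 := p_POLY2 all_EXC all_FORMB all_PRN all_CANH all_COMPO all_EXG2
theorem all_INF : S_INF := p_INF
theorem all_INA : S_INA := p_INA
theorem all_INERT : S_INERT := p_INERT all_ABG all_INF all_INA
theorem all_EFIX : S_EFIX := p_EFIX
theorem all_ECYC : S_ECYC := p_ECYC
theorem all_ZP : S_ZP := p_ZP
theorem all_ESC1 : S_ESC1 := p_ESC1 all_ECYC all_ZP
theorem all_RFA : S_RFA := p_RFA
theorem all_SCH1 : S_SCH1 := p_SCH1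
theorem all_SCHW : S_SCHW := p_SCHW all_SCH1
theorem all_ELOC : S_ELOC := p_ELOC all_ETA
theorem all_EKILL : S_EKILL := p_EKILL all_ECON all_ELOC
theorem all_ECLO : S_ECLO := p_ECLO
theorem all_ENT : S_ENT := p_ENT all_PLACE all_EKILL
theorem all_EMUL : S_EMUL := p_EMUL all_RFA all_ENT
theorem all_EG : S_EG := p_EG all_RFA all_EMUL
theorem all_ESZ : S_ESZ := p_ESZ all_ELOC all_ECLO
theorem all_ESCH : S_ESCH := p_ESCH all_SCHW all_ELOC all_EKILL all_EG all_ESZ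
theorem all_ERK1 : S_ERK1 := p_ERK1 all_FROB all_RAM all_EFIX all_ELOC all_EMUL all_ESCH
theorem all_ESCAL : S_ESCAL := p_ESCAL all_FROB all_RAM all_ESC1 all_ELOC all_EKILL all_ERK1
theorem all_EKER : S_EKER := p_EKER all_ENEAR all_ELOC
theorem all_WLD2 : S_WLD2 := p_WLD2 all_FROB all_DICH all_TAME
theorem all_EW1 : S_EW1 := p_EW1 all_PLACE all_GOODR all_CANR all_COMM all_WLD2
theorem all_EW : S_EW := p_EW all_ABG all_ACT all_ENEAR all_EAMP all_INERT all_EKER all_EW1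
theorem all_EHZ : S_EHZ := p_EHZ all_PRN all_CANH all_COMM all_EDB all_EHT all_NORS
theorem all_EAB : S_EAB := p_EAB all_EHT all_EKILL all_ESCAL all_EW all_EHZ
theorem all_EFX : S_EFX := p_EFX all_ETW all_ETX
theorem all_EBASE : S_EBASE := p_EBASE all_ETW all_ETX
theorem all_LATR : S_LATR := p_LATR all_PLACE all_ACT all_GOODR all_ETW all_ETX all_ENEAR all_EAMP all_WLD2
theorem all_LATQ : S_LATQ := p_LATQ all_EHT all_EMUL all_EAB all_EFX all_EBASE all_LATR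
theorem all_LATT2 : S_LATT2 := p_LATT2 all_PRN all_CANH all_CANR all_COMM all_LHT all_COMPO all_LATQ
theorem all_MAING2 : S_MAING2 := p_MAING2 all_PRN all_TRANS all_CONJ all_CLASS all_EIG all_POLY2 all_LATT2

end Pool.Agent.P.MP_8d2e9f_nt.AO
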