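import Pool.Agent.P.MP_8d2e9f_nt.AO.IfaceE
import Pool.Agent.P.MP_8d2e9f_nt.AO.FinD

/-! The strong Bogomolov property for maps without invariant form. -/

set_option autoImplicit false

namespace Pool.Agent.P.MP_8d2e9f_nt.AO

open Polynomial Pool.Agent.P.MP_8d2e9f_nt.G

theorem fine_main (hCANH : S_CANH) (hCOMPO : S_COMPO) (hMAING2 : S_MAING2) (hPREP : S_PREP)
    (K : IntermediateField ℚ Qbar) (hK : FiniteDimensional ℚ K)
    (L : IntermediateField K Qbar) (hL : IsAbelianGalois K L) (f : RatFunc Qbar)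
    (hf : 2 ≤ ratDegree f) (hn : ¬ InvariantForm f) (H : ProjLine → ℝ)
    (hH : IsCanonicalHeight f H) : StrongBogomolov L.toSubfield f H :=
  ⟨find_main hCANH hCOMPO hMAING2 K hK L hL f hf H hH,
    Set.not_infinite.1 fun h => hn (hPREP K _ f hK ((hCOMPO.2.2 K L).1 hL) hf h)⟩

end Pool.Agent.P.MP_8d2e9f_nt.AO
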