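import Pool.Agent.P.MP_8d2e9f_nt.AO.IfaceE
import Pool.Agent.P.MP_8d2e9f_nt.AO.TAUXAR

/-! Step AUXA0. -/

set_option autoImplicit false

namespace Pool.Agent.P.MP_8d2e9f_nt.AO

open Polynomial NumberField Pool.Agent.P.MP_8d2e9f_nt.G
open scoped IntermediateField Classical

theorem p_AUXA0 (hNUM : S_NUM) (hPF : S_PF) (hCANR : S_CANR) (hBASR : S_BASR) (hSIEG1 : S_SIEG1) :
    S_AUXA0 := by
  intro K d a b h p _ φ j a₀ b₀ Y δ G S hY hpos hδ hG ⟨ε, hε, hfin⟩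
  have hd : 2 ≤ d := S.nrm.1
  have hp : (1 : ℝ) < p := by exact_mod_cast (Fact.out : p.Prime).one_lt
  have hp0 : (0 : ℝ) ≤ (p : ℝ)⁻¹ := by positivity
  obtain ⟨C₀, hC⟩ := S.can.2.2
  obtain ⟨hnn, hgal, -⟩ := (hCANR K d a b S.nrm).1 h S.can
  have hC0 : 0 ≤ C₀ := (abs_nonneg _).trans (hC 0)
  have hd1 : (1 : ℝ) ≤ d := by exact_mod_cast (by omega : 1 ≤ d)
  have hδ1 : max δ (p : ℝ)⁻¹ < 1 := max_lt hδ (inv_lt_one_of_one_lt₀ hp)
  have hδ2 : 0 ≤ max δ (p : ℝ)⁻¹ := hp0.trans (le_max_right _ _)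
  obtain ⟨k, M, h1, h2⟩ := hNUM p d (Module.finrank ℚ K) (G.natDegree + 1)
    (Real.exp ((d - 1 : ℕ) * (1 + C₀))) (max δ (p : ℝ)⁻¹) hd (Real.one_le_exp (by positivity))
    hδ2 hδ1
  obtain ⟨B, β, hLI, hdeg, hB, hloc⟩ := hBASR K d k a b S.nrm
  obtain ⟨hB₀, hβ⟩ := hloc p φ j a₀ b₀ S.loc S.gd S.ea S.eb
  choose B₀ hB₀ using hB₀
  have hbd : ∀ s, (B₀ s).natDegree ≤ d ^ k - 1 := fun s => by
    rw [← natDegree_map_eq_of_injective (f := zq p) Subtype.val_injective, hB₀, natDegree_map]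
    exact hdeg s
  have hn : 0 < d ^ k := by positivity
  obtain ⟨c, hc0, hc1, hc2⟩ := hSIEG1 p (Fin k → Fin d) (d ^ k - 1) M B₀ G hbd hG
    (by simpa using hn) (by simpa using h1)
  have hA : ∑ s, C (c s : K) * B s ≠ 0 := fun e => hc0 (funext fun s => by
    have := Fintype.linearIndependent_iff.1 hLI (fun s => (c s : K))
      (by simpa only [smul_eq_C_mul] using e) s
    exact_mod_cast this)
  set A : K[X] := ∑ s, C (c s : K) * B s with hAd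
  have hev : ∀ z : Qbar, aeval z A = ∑ s, (c s : Qbar) * aeval z (B s) := fun z => by
    simp [hAd]
  have hδ0 : 0 ≤ max δ (p : ℝ)⁻¹ ^ M := pow_nonneg hδ2 M
  have hs : ∀ z, NP a b z → aeval z β ≠ 0 ∧ aeval z A =
      aeval z β * ∑ t, (c t : Qbar) * ∏ i : Fin k, (rm a b)^[i] z ^ (t i : ℕ) := fun z hz => by
    obtain ⟨e1, e2⟩ := hB z hz
    refine ⟨e1, ?_⟩
    rw [hev, Finset.mul_sum]
    exact Finset.sum_congr rfl fun t _ => by rw [e2]; ring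
  have key : ∀ z, NP a b z → ((‖j z‖ ≤ 1 ∧ ‖aeval (j z) G‖ ≤ δ) ∨ 1 ≤ δ * ‖j z‖) →
      ‖j (∑ t, (c t : Qbar) * ∏ i : Fin k, (rm a b)^[i] z ^ (t i : ℕ))‖ ≤
        max δ (p : ℝ)⁻¹ ^ M * ∏ i : Fin k, max 1 ‖j ((rm a b)^[i] z)‖ ^ (d - 1) := by
    intro z hz hzG
    obtain ⟨e1, e2⟩ := hs z hz
    have e3 := hc2 (max δ (p : ℝ)⁻¹) (j z) (le_max_right _ _) hδ1.le (hzG.imp
      (fun t => ⟨t.1, t.2.trans (le_max_left _ _)⟩)
      fun t => t.trans (mul_le_mul_of_nonneg_right (le_max_left _ _) (norm_nonneg _)))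
    have e4 : j (aeval z A) = ∑ s, (c s : Om p) * (B₀ s).eval₂ (zo p) (j z) := by
      rw [hev, map_sum]
      exact Finset.sum_congr rfl fun s _ => by rw [map_mul, map_intCast, loc_eval S.loc (hB₀ s)]
    rw [← e4, ← hβ z hz, e2, map_mul, norm_mul, mul_left_comm] at e3
    exact le_of_mul_le_mul_left e3 (norm_pos_iff.2 ((map_ne_zero j).2 e1))
  have hn1 : (1 : ℝ) ≤ (d : ℝ) ^ k := one_le_pow₀ hd1
  refine ⟨min ε ((d : ℝ) ^ k)⁻¹, lt_min hε (by positivity),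
    ((aux1_orbit K hfin).union (A.rootSet_finite Qbar)).subset ?_⟩
  rintro z ⟨hzY, hz, -⟩
  by_contra hc
  simp only [Set.mem_union, Set.mem_ofPred_eq, not_or, not_exists] at hc
  obtain ⟨c1, c3⟩ := hc
  have hz0 := hpos z hzY
  have hw : ∀ i ≤ k, wh ((rm a b)^[i] z) ≤ 1 + C₀ := fun i hi => by
    have t1 := (abs_le.1 (hC ((rm a b)^[i] z))).1
    have t2 : (d : ℝ) ^ i * h z ≤ 1 := by
      refine (mul_le_mul (pow_le_pow_right₀ hd1 hi) (hz.le.trans (min_le_right _ _)) (hnn z)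
        (by positivity)).trans_eq (mul_inv_cancel₀ (by positivity))
    rw [NP.ht hz0 S.can i] at t1
    linarith
  have main := hPF K p j (Fin k) (Fin k → Fin d) (fun i => (rm a b)^[i] z) (fun _ => d - 1)
    c (fun t i => t i) (max δ (p : ℝ)⁻¹ ^ M) S.fd (fun t i => Nat.le_sub_one_of_lt (t i).2)
    (fun h0 => c3 (mem_rootSet.2 ⟨hA, by rw [(hs z hz0).2, h0, mul_zero]⟩))
    (pow_le_one₀ hδ2 hδ1.le)
    (fun σ => by
      simp only [map_sum σ, map_mul σ, map_prod σ, map_pow σ, map_intCast σ, auxar_iter]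
      refine key _ (hpos _ (hY σ z hzY)) ?_
      by_contra h0
      exact c1 σ ⟨hY σ z hzY, by rw [hgal]; exact hz.trans_le (min_le_left _ _), not_or.1 h0⟩)
  refine absurd (main.trans (mul_le_mul_of_nonneg_right (pow_le_pow_left₀ (by positivity) ?_ _)
    hδ0)) (not_le.2 h2)
  have t1 : ∑ t, |(c t : ℝ)| ≤ ((d : ℝ) ^ k) ^ 2 * p := by
    refine (Finset.sum_le_card_nsmul _ _ (p : ℝ) fun s _ => by exact_mod_cast hc1 s).trans ?_
    simp only [Finset.card_univ, Fintype.card_fun, Fintype.card_fin, nsmul_eq_mul, Nat.cast_pow]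
    exact mul_le_mul_of_nonneg_right (by nlinarith) (by positivity)
  have t2 : Real.exp (∑ i : Fin k, ((d - 1 : ℕ) : ℝ) * wh ((rm a b)^[i] z)) ≤
      Real.exp ((d - 1 : ℕ) * (1 + C₀)) ^ k := by
    rw [← Real.exp_nat_mul]
    refine Real.exp_le_exp.2 ((Finset.sum_le_card_nsmul _ _ ((d - 1 : ℕ) * (1 + C₀))
      fun i _ => ?_).trans_eq (by simp))
    exact mul_le_mul_of_nonneg_left (hw i i.2.le) (by positivity)
  exact mul_le_mul t1 t2 (by positivity) (by positivity)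

end Pool.Agent.P.MP_8d2e9f_nt.AO
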