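import Pool.Agent.P.MP_8d2e9f_nt.AO.IfaceC
import Pool.Agent.P.MP_8d2e9f_nt.AO.TCOLL

/-! Step COLLR. -/

set_option autoImplicit false

namespace Pool.Agent.P.MP_8d2e9f_nt.AO

open Polynomial NumberField Pool.Agent.P.MP_8d2e9f_nt.G
open scoped IntermediateField Classical

lemma collr_bd {R F : Type} [CommRing R] [NormedField F] [IsUltrametricDist F] (ι : R →+* F)
    (hι : ∀ r, ‖ι r‖ ≤ 1) (P : R[X]) :
    ∃ D : ℕ, ∀ (u : F) (U : ℝ), 1 ≤ U → ‖u‖ ≤ U → ‖P.eval₂ ι u‖ ≤ U ^ D := by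
  induction P using Polynomial.induction_on' with
  | add P Q hP hQ =>
    obtain ⟨D, hD⟩ := hP
    obtain ⟨E, hE⟩ := hQ
    refine ⟨D + E, fun u U h1 hu => ?_⟩
    rw [eval₂_add]
    exact (IsUltrametricDist.norm_add_le_max _ _).trans (max_le
      ((hD u U h1 hu).trans (pow_le_pow_right₀ h1 (by omega)))
      ((hE u U h1 hu).trans (pow_le_pow_right₀ h1 (by omega))))
  | monomial n a =>
    refine ⟨n, fun u U _ hu => ?_⟩
    rw [eval₂_monomial, norm_mul, norm_pow]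
    exact (mul_le_of_le_one_left (by positivity) (hι a)).trans
      (pow_le_pow_left₀ (norm_nonneg _) hu _)

theorem p_COLLR (hABG : S_ABG) (hACT : S_ACT) (hCANR : S_CANR) (hGAPGR : S_GAPGR) :
    S_COLLR := by
  intro K d a b h p _ φ j a₀ b₀ δ hS hw hδ
  have hι : ∀ r : ℤ_[p], ‖zo p r‖ ≤ 1 := fun r => by
    rw [zo_apply, norm_algebraMap']
    exact r.2
  obtain ⟨D, hD⟩ := coll_tay (zo p) hι a₀
  obtain ⟨E, hE⟩ := coll_tay (zo p) hι b₀
  obtain ⟨D', hD'⟩ := collr_bd (zo p) hι a₀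
  obtain ⟨E', hE'⟩ := collr_bd (zo p) hι b₀
  obtain ⟨-, hg, hp⟩ := (hCANR K d a b hS.nrm).1 h hS.can
  refine hGAPGR K d a b h p φ j a₀ b₀ _ δ (wr a₀ b₀) (D + E + D' + E' + 2) hS ?_
    (fun z hz => hz.1) hδ (by rwa [wr_map]) ⟨1, one_pos, ?_⟩
  · rintro σ z ⟨h0, hz, s, hs, hA, he⟩
    obtain ⟨h1, h2⟩ := hACT K p j 1 δ s z hz hA
    refine ⟨by rwa [hg], ((hABG K).1 z hz).2.1 _ (h2 σ), s, ?_, (h1 _ (h2 σ)).1, ?_⟩
    · rw [hz s σ]
      exact fun e => hs (σ.injective e)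
    · rw [rm_gal, hz s σ, ← rm_gal, ← rm_gal, he, rm_gal]
  · refine Set.finite_empty.subset ?_
    rintro z ⟨⟨h0, hz, s, hs, hA, he⟩, -, hn⟩
    refine hn ?_
    obtain ⟨h1, -⟩ := hACT K p j 1 δ s z hz hA
    obtain ⟨hc, hn⟩ := (h1 z (IntermediateField.mem_adjoin_simple_self K z)).2
    have u1 := le_max_left 1 ‖j z‖
    have u2 := le_max_right 1 ‖j z‖
    obtain ⟨k, hk, e⟩ := hD (j z) (j (s z)) _ u1 u2 (hn ▸ u2)
    obtain ⟨l, hl, e'⟩ := hE (j z) (j (s z)) _ u1 u2 (hn ▸ u2)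
    have b1 : aeval z b ≠ 0 := (hp z h0 0).1
    have b2 : aeval (s z) b ≠ 0 := (hp (s z) (by rwa [hg]) 0).1
    rw [rm_gal, rm, rm, div_eq_div_iff b2 b1] at he
    have e1 := congrArg j he
    rw [map_mul, map_mul, loc_eval hS.loc hS.ea, loc_eval hS.loc hS.ea, loc_eval hS.loc hS.eb,
      loc_eval hS.loc hS.eb] at e1
    have hne : j (s z) - j z ≠ 0 := sub_ne_zero.2 fun e => hs (j.injective e)
    have e2 : (wr a₀ b₀).eval₂ (zo p) (j z) = (j (s z) - j z) *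
        (a₀.eval₂ (zo p) (j z) * l + -(k * b₀.eval₂ (zo p) (j z))) := by
      refine mul_left_cancel₀ hne ?_
      rw [wr, eval₂_sub, eval₂_mul, eval₂_mul]
      linear_combination e1 - b₀.eval₂ (zo p) (j z) * e + a₀.eval₂ (zo p) (j z) * e'
    rw [hn, pow_one, pow_one] at hc
    have hb : ‖a₀.eval₂ (zo p) (j z) * l + -(k * b₀.eval₂ (zo p) (j z))‖ ≤
        max 1 ‖j z‖ ^ (D + E + D' + E') := by
      refine (IsUltrametricDist.norm_add_le_max _ _).trans (max_le ?_ ?_)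
      · rw [norm_mul]
        refine (mul_le_mul (hD' _ _ u1 u2) hl (norm_nonneg _) (by positivity)).trans ?_
        rw [← pow_add]
        exact pow_le_pow_right₀ u1 (by omega)
      · rw [norm_neg, norm_mul]
        refine (mul_le_mul hk (hE' _ _ u1 u2) (norm_nonneg _) (by positivity)).trans ?_
        rw [← pow_add]
        exact pow_le_pow_right₀ u1 (by omega)
    rw [e2, norm_mul]
    calc _ ≤ (δ * max 1 ‖j z‖ * max 1 ‖j z‖) * max 1 ‖j z‖ ^ (D + E + D' + E') :=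
          mul_le_mul hc hb (norm_nonneg _) ((norm_nonneg _).trans hc)
      _ = δ * max 1 ‖j z‖ ^ (D + E + D' + E' + 2) := by ring

end Pool.Agent.P.MP_8d2e9f_nt.AO
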