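import Pool.Agent.P.MP_8d2e9f_nt.AO.IfaceE

/-! Step CRVR. -/

set_option autoImplicit false

namespace Pool.Agent.P.MP_8d2e9f_nt.AO

open Polynomial NumberField Pool.Agent.P.MP_8d2e9f_nt.G
open scoped IntermediateField Classical

lemma crvr_e_scale {k Ω : Type} [Field k] [Field Ω] (ι : k →+* Ω) (u v : Ω) (c : k)
    (A : k[X][X]) : ev2 ι u v (C (C c) * A) = ι c * ev2 ι u v A := by
  rw [ev2_mul, ev2_C, eval₂_C]

theorem p_CRVR (hDX : S_DX) :
    S_CRVR := by
  refine ⟨fun k k' _ _ φ a b A h => ?_, fun k _ a b A c hc h => ?_⟩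
  · have hi : ∀ r : k[X], r ≠ 0 → r.map φ ≠ 0 := fun r hr =>
      (Polynomial.map_ne_zero_iff φ.injective).2 hr
    have hd : dX (A.map (mapRingHom φ)) = (dX A).map (mapRingHom φ) := by
      refine Polynomial.ext fun i => ?_
      rw [(hDX k').1, coeff_map, coeff_map, (hDX k).1]
      simp
    obtain ⟨h0, h1, ⟨U, V, s, hs, h2⟩, U', V', t, ht, h3⟩ := h
    refine ⟨h0.map φ, fun Ω _ ι u v e1 e2 e3 => ?_,
      ⟨U.map (mapRingHom φ), V.map (mapRingHom φ), s.map φ, hi s hs, ?_⟩,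
      U'.map (mapRingHom φ), V'.map (mapRingHom φ), t.map φ, hi t ht, ?_⟩
    · rw [eval₂_map] at e1 e2
      rw [ev2_map] at e3
      rw [hd, derivative_map, ← wr_map, ← Polynomial.map_pow, rv_map, rv_map, ev2_map, ev2_map,
        ev2_map, ev2_map]
      exact h1 Ω _ u v e1 e2 e3
    · have := congrArg (Polynomial.map (mapRingHom φ)) h2
      rw [derivative_map]
      simpa [Polynomial.map_mul] using this
    · have := congrArg (Polynomial.map (mapRingHom φ)) h3
      rw [hd]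
      simpa [Polynomial.map_mul] using this
  · obtain ⟨h0, h1, ⟨U, V, s, hs, h2⟩, U', V', t, ht, h3⟩ := h
    have e2 : dX (C (C c) * A) = C (C c) * dX A := by
      rw [((hDX k).2.1 _ _).2, (hDX k).2.2.1]
      simp
    refine ⟨fun Ω _ ι u v k1 k2 k3 => ?_, fun Ω _ ι u v k1 k2 k3 => ?_,
      ⟨U * C (C c), V * C (C c), s, hs, ?_⟩, U' * C (C c), V' * C (C c), t, ht, ?_⟩
    · have h4 := h0 Ω ι u v k1 k2 (by rw [ev2_mul, k3, mul_zero])
      rw [crvr_e_scale] at h4
      exact (mul_eq_zero.1 h4).resolve_left ((map_ne_zero ι).2 hc)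
    · have h4 := h1 Ω ι u v k1 k2 (by rw [ev2_mul, k3, mul_zero])
      rw [e2, derivative_C_mul, crvr_e_scale, crvr_e_scale, crvr_e_scale, crvr_e_scale] at h4
      have h5 : ι c ≠ 0 := (map_ne_zero ι).2 hc
      apply mul_left_cancel₀ (mul_ne_zero h5 h5)
      linear_combination h4
    · rw [derivative_C_mul] at h2
      linear_combination h2
    · rw [e2] at h3
      linear_combination h3

end Pool.Agent.P.MP_8d2e9f_nt.AO
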