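import Pool.Agent.P.MP_8d2e9f_nt.AO.IfaceE

/-! Step CURV0. -/

set_option autoImplicit false

namespace Pool.Agent.P.MP_8d2e9f_nt.AO

open Polynomial NumberField Pool.Agent.P.MP_8d2e9f_nt.G
open scoped IntermediateField Classical

theorem p_CURV0 (hDX : S_DX) (hCURVF : S_CURVF) (hCANR : S_CANR) (hTANG : S_TANG) :
    S_CURV0 := by
  intro K d a b h P A₀ hN hC hP0 hL hF hP hA hA'
  have hfib := (hCANR K d a b hN).2.2
  have hd : (0 : ℝ) < d := Nat.cast_pos.2 (by have := hN.1; omega)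
  have hb : ∀ x ∈ P, aeval x.1 b ≠ 0 ∧ aeval x.2 b ≠ 0 := fun x hx =>
    ⟨(hP0 x hx).1.ne, (hP0 x hx).2.ne⟩
  have hne : (curvb_F (fun x : Qbar × Qbar => h x.1) P).NeBot := by
    refine Filter.neBot_iff.2 fun hb => ?_
    obtain ⟨ε, hε, hS⟩ : AA (fun x : Qbar × Qbar => h x.1) P fun _ => False :=
      (curvb_ev _ _ _).1 (Filter.eventually_false_iff_eq_bot.2 hb)
    exact hL ε hε (hS.subset fun x hx => ⟨hx.1, hx.2, id⟩)
  have hz : ∀ z, ∀ᶠ x in curvb_F (fun x : Qbar × Qbar => h x.1) P, x.1 ≠ z ∧ x.2 ≠ z := by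
    intro z
    refine (curvb_ev _ _ _).2 ⟨1, one_pos, (((hF.1 z).image fun w => (z, w)).union
      ((hF.2 z).image fun w => (w, z))).subset ?_⟩
    rintro ⟨a, b⟩ ⟨h1, -, h2⟩
    by_cases ha : a = z
    · subst ha
      exact Or.inl ⟨b, h1, rfl⟩
    · have hb : b = z := by
        by_contra hb
        exact h2 ⟨ha, hb⟩
      subst hb
      exact Or.inr ⟨a, h1, rfl⟩
  have hin : ∀ᶠ x in curvb_F (fun x : Qbar × Qbar => h x.1) P, x ∈ P :=
    (curvb_ev _ _ _).2 ⟨1, one_pos, Set.finite_empty.subset fun _ hx => hx.2.2 hx.1⟩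
  have hT : Filter.Tendsto (fun x : Qbar × Qbar => (rm a b x.1, rm a b x.2))
      (curvb_F (fun x : Qbar × Qbar => h x.1) P) (curvb_F (fun x : Qbar × Qbar => h x.1) P) := by
    intro S hS
    obtain ⟨ε, hε, hB⟩ : AA (fun x : Qbar × Qbar => h x.1) P fun x => x ∈ S := hS
    obtain ⟨ε₀, hε₀, hE⟩ := hP
    have hfin := hB.biUnion fun y _ => (hfib y.1).prod (hfib y.2)
    refine ⟨min ε₀ (ε / d), lt_min hε₀ (div_pos hε hd), (hE.union hfin).subset fun x hx => ?_⟩
    by_cases hm : (rm a b x.1, rm a b x.2) ∈ P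
    · refine Or.inr (Set.mem_biUnion (x := (rm a b x.1, rm a b x.2)) ⟨hm, ?_, hx.2.2⟩
        ⟨⟨(hb x hx.1).1, rfl⟩, (hb x hx.1).2, rfl⟩)
      show h (rm a b x.1) < ε
      rw [hC.1 _ (hb x hx.1).1, mul_comm]
      exact (lt_div_iff₀ hd).1 (hx.2.1.trans_le (min_le_right _ _))
    · exact Or.inl ⟨hx.1, hx.2.1.trans_le (min_le_left _ _), hm⟩
  obtain ⟨A₁, h1, ⟨-, ⟨U, V, r, hr, hUV⟩, U', V', s, hs, hUV'⟩, hmin⟩ := hCURVF K Qbar X
    (curvb_F (fun x : Qbar × Qbar => h x.1) P) A₀ hne hz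
    (by simp only [aeval_X]; exact Filter.tendsto_id) hA hA'
  have hA1 : A₁ ≠ 0 := by
    rintro rfl
    rw [derivative_zero, mul_zero, mul_zero, add_zero, eq_comm, C_eq_zero] at hUV
    exact hr hUV
  have hc : A₁.content ≠ 0 := fun h0 => hA1 (content_eq_zero_iff.1 h0)
  have hE := A₁.eq_C_content_mul_primPart
  have hJ : curvf_J (curvb_F (fun x : Qbar × Qbar => h x.1) P) A₁.primPart :=
    curvf_C hz hc (by rw [← hE]; exact h1)
  have hmin' : ∀ A' : K[X][X], A' ≠ 0 → curvf_J (curvb_F (fun x : Qbar × Qbar => h x.1) P) A' →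
      A₁.primPart.natDegree ≤ A'.natDegree := fun A' h0 h2 => by
    rw [natDegree_primPart]
    exact hmin A' h0 h2
  have hder : derivative A₁ = C A₁.content * derivative A₁.primPart := by
    rw [← derivative_C_mul, ← hE]
  have hprim := A₁.isPrimitive_primPart
  have h0 := A₁.primPart_ne_zero
  have hbez : U * C A₁.content * A₁.primPart + V * C A₁.content * derivative A₁.primPart = C r := by
    rw [mul_assoc, mul_assoc, ← hE, ← hder, hUV]
  have hdx : dX A₁ = C (derivative A₁.content) * A₁.primPart +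
      C A₁.content * dX A₁.primPart := by
    rw [← (hDX K).2.2.1, ← ((hDX K).2.1 _ _).2, ← hE]
  have hbez' : (U' * C A₁.content + V' * C (derivative A₁.content)) * A₁.primPart +
      V' * C A₁.content * dX A₁.primPart = C s := by
    rw [← hUV', hdx]
    linear_combination (-U') * hE
  generalize A₁.primPart = A at hJ hmin' hprim h0 hbez hbez'
  obtain ⟨n, hn⟩ : ∃ n, ∀ i, (A.coeff i).natDegree ≤ n := by
    refine ⟨A.support.sup fun i => (A.coeff i).natDegree, fun i => ?_⟩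
    by_cases hi : i ∈ A.support
    · exact Finset.le_sup (f := fun i => (A.coeff i).natDegree) hi
    · simp [notMem_support_iff.1 hi]
  have hJT : curvf_J (curvb_F (fun x : Qbar × Qbar => h x.1) P) (curvr_T a b n A) :=
    ((hT.eventually hJ).and hin).mono fun x hx => by
      have h2 := hx.1
      rw [ev2_aeval] at h2 ⊢
      rw [curvr_ev (algebraMap K Qbar) a b hn (hb x hx.2).1 (hb x hx.2).2, ← rm_eq, h2, mul_zero]
  obtain ⟨r', B, hr', hB⟩ := curvf_div h0 hJ hmin' ((curvr_T a b n A).natDegree + 1) _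
    (lt_of_le_of_lt degree_le_natDegree (by norm_cast; omega)) hJT
  obtain ⟨B', hB'⟩ := curvr_dvd hprim hr' hB
  refine ⟨A, h0, hJ, ⟨?_, hTANG K a b n A B' hn hB', ⟨_, _, r, hr, hbez⟩, _, _, s, hs, hbez'⟩,
    hmin'⟩
  intro Ω _ ι u v hu hv huv
  have h3 := curvr_ev ι a b hn hu hv
  rw [hB', ev2_mul, huv, zero_mul] at h3
  exact (mul_eq_zero.1 h3.symm).resolve_left (mul_ne_zero (pow_ne_zero _ hu) (pow_ne_zero _ hv))

end Pool.Agent.P.MP_8d2e9f_nt.AO
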