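import Pool.Agent.P.MP_8d2e9f_nt.AO.IfaceE

/-! Step EIG0. -/

set_option autoImplicit false

namespace Pool.Agent.P.MP_8d2e9f_nt.AO

open Polynomial NumberField Pool.Agent.P.MP_8d2e9f_nt.G
open scoped IntermediateField Classical

lemma eig0_estep {K : IF} {d : ℕ} {a b : K[X]} (hN : Nrm d a b) (w : Qbar)
    (h : im (a.map (algebraMap K Qbar)) (b.map (algebraMap K Qbar)) d (some w) ≠ none) :
    aeval w b ≠ 0 ∧
      im (a.map (algebraMap K Qbar)) (b.map (algebraMap K Qbar)) d (some w) = some (rm a b w) := by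
  have ha : (a.map (algebraMap K Qbar)).natDegree ≤ d := natDegree_map_le.trans hN.2.1.le
  have hb : (b.map (algebraMap K Qbar)).natDegree ≤ d := natDegree_map_le.trans hN.2.2.1.le
  rw [im_some ha hb, eval_map_algebraMap, eval_map_algebraMap] at h ⊢
  by_cases e : aeval w b = 0
  · rw [if_pos e] at h
    exact absurd rfl h
  · rw [if_neg e]
    exact ⟨e, rfl⟩

lemma eig0_enp {K : IF} {d : ℕ} {a b : K[X]} (hN : Nrm d a b) (z : Qbar)
    (h : ∀ n : ℕ,
      (im (a.map (algebraMap K Qbar)) (b.map (algebraMap K Qbar)) d)^[n] (some z) ≠ none) :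
    NP a b z := by
  have k : ∀ n : ℕ, (im (a.map (algebraMap K Qbar)) (b.map (algebraMap K Qbar)) d)^[n] (some z) =
      some ((rm a b)^[n] z) := by
    intro n
    induction n with
    | zero => rfl
    | succ n ih =>
      have h1 := h (n + 1)
      rw [Function.iterate_succ_apply', ih] at h1
      rw [Function.iterate_succ_apply', Function.iterate_succ_apply', ih]
      exact (eig0_estep hN _ h1).2
  intro n
  have h1 := h (n + 1)
  rw [Function.iterate_succ_apply', k] at h1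
  exact (eig0_estep hN _ h1).1

theorem p_EIG0 (hPRN : S_PRN) (hCANH : S_CANH) (hCANR : S_CANR) (hLIFTR : S_LIFTR) (hCOMPO : S_COMPO) (hFORM0 : S_FORM0) :
    S_EIG0 := by
  intro K L d a b hK hA hN hG
  obtain ⟨⟨H, hH⟩, hC⟩ := hCANH d (im a b d) hN.1 (hPRN.1 Qbar d a b hN).1.rm
  have hz := (hC H hH).2.1
  obtain ⟨K₁, h1, h2, h3⟩ := ex_field hK ((coeff_fin a).union (coeff_fin b))
  obtain ⟨a', rfl⟩ := ex_poly fun i => h3 _ (Or.inl ⟨i, rfl⟩)
  obtain ⟨b', rfl⟩ := ex_poly fun i => h3 _ (Or.inr ⟨i, rfl⟩)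
  have hN' := nrm_of_map hN
  obtain ⟨-, k1⟩ := (hCANR K₁ d a' b' hN').2.1 H hH
  have hA' := hCOMPO.1 K L K₁ hA
  rw [sup_eq_right.2 h2] at hA'
  refine hLIFTR K₁ d a' b' h1 hN' (hFORM0 K₁ d a' b' _ h1 hN' k1 fun ε hε => hG.mono ?_)
  rintro z ⟨z1, z2, z3⟩
  refine ⟨⟨eig0_enp hN' z z3, hA'.2 z ((le_sup_left : L ≤ L ⊔ K₁) z1)⟩, ?_⟩
  show H (some z) < ε
  rw [(hz _).2 z2]
  exact hε

end Pool.Agent.P.MP_8d2e9f_nt.AO
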