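import Pool.Agent.P.MP_8d2e9f_nt.AO.IfaceE
import Pool.Agent.P.MP_8d2e9f_nt.AO.TCJ
import Pool.Agent.P.MP_8d2e9f_nt.G.All

/-! Step EXM1. -/

set_option autoImplicit false

namespace Pool.Agent.P.MP_8d2e9f_nt.AO

open Polynomial NumberField Pool.Agent.P.MP_8d2e9f_nt.G
open scoped IntermediateField Classical

theorem p_EXM1 (hPRN : S_PRN) (hCJ : S_CJ) (hCOMPO : S_COMPO) (hEIG0 : S_EIG0) :
    S_EXM1 := by
  intro K L d a b c hK hL hd hp hc hI
  obtain ⟨α, β, γ, δ, e1, e2⟩ : ∃ α β γ δ : Qbar, α * δ - β * γ ≠ 0 ∧ mob α β γ δ none = c := by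
    cases c with
    | none => exact ⟨1, 0, 0, 1, by simp, by simp [mob, im_none, coeff_one]⟩
    | some c => exact ⟨c, 1, 1, 0, by simp, by simp [mob, im_none, coeff_one]⟩
  have e3 : δ * α - -β * -γ ≠ 0 := by rwa [show δ * α - -β * -γ = α * δ - β * γ by ring]
  have i1 : ∀ x, mob δ (-β) (-γ) α (mob α β γ δ x) = x :=
    cj_inv e1 e1 (by ring) (by ring) (by ring) (by ring)
  have i2 : ∀ x, mob α β γ δ (mob δ (-β) (-γ) α x) = x :=
    cj_inv e3 e1 (by ring) (by ring) (by ring) (by ring)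
  obtain ⟨-, j2, a', b', j3, j4, -, -⟩ := hCJ d a b α β γ δ (by omega) hp e1
  have hn := ((hPRN.2 _ _ a' b' hd j3).2 (j2.1 (by rw [j4, e2, hc]))).1
  obtain ⟨K₁, f1, r1⟩ := all_MOD.2 1 _ (cj_pr e3).rm
  have sc : Function.Semiconj (mob δ (-β) (-γ) α) (im a b d) (im a' b' d) := fun x =>
    j2.1 (by rw [j4, i2, i2])
  have hj : Function.Injective (mob δ (-β) (-γ) α) := Function.LeftInverse.injective i2
  obtain ⟨P, hP⟩ := hEIG0 (K ⊔ K₁) (L ⊔ K₁) d a' b' (IntermediateField.finiteDimensional_sup K K₁)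
    (hCOMPO.1 K L K₁ hL) hn (by
      refine Set.Infinite.of_image some ((hI.image hj.injOn).mono ?_)
      rintro _ ⟨x, ⟨⟨x1, x2⟩, x3⟩, rfl⟩
      have n1 : ∀ n : ℕ, (im a' b' d)^[n] (mob δ (-β) (-γ) α x) ≠ none := fun n e => x3 n (by
        rw [← sc.iterate_right n] at e
        rw [← i2 ((im a b d)^[n] x), e, e2])
      obtain ⟨z, hz⟩ := Option.ne_none_iff_exists'.1 (n1 0)
      have hz' : mob δ (-β) (-γ) α x = some z := hz
      have m1 : mob δ (-β) (-γ) α x ∈ pts (L ⊔ K₁) :=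
        (r1.mono le_sup_right).mem (pts_mono le_sup_left x1)
      have m2 : mob δ (-β) (-γ) α x ∈ PP (im a' b' d) :=
        (Set.Finite.image (mob δ (-β) (-γ) α) x2).subset (by
          rintro _ ⟨n, rfl⟩
          exact ⟨_, ⟨n, rfl⟩, sc.iterate_right n x⟩)
      rw [hz'] at m1 m2 n1 ⊢
      exact ⟨z, ⟨some_mem_pts.1 m1, m2, n1⟩, rfl⟩)
  obtain ⟨-, -, A, B, k3, k4, -, k6⟩ := hCJ d a' b' δ (-β) (-γ) α (by omega) j3 e3
  exact ⟨A, B, _, k3, funext fun x => hj (by rw [k4, sc x]), k6 P hP⟩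

end Pool.Agent.P.MP_8d2e9f_nt.AO
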