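import Pool.Agent.P.MP_8d2e9f_nt.AO.IfaceE

/-! Step EXM2. -/

set_option autoImplicit false

namespace Pool.Agent.P.MP_8d2e9f_nt.AO

open Polynomial NumberField Pool.Agent.P.MP_8d2e9f_nt.G
open scoped IntermediateField Classical

lemma exm2_e_ne {P : Qbar[X]} (h : P ≠ 0) : ∀ᶠ x in Filter.cofinite, P.eval x ≠ 0 :=
  Filter.eventually_cofinite.2 ((Polynomial.finite_setOfPred_isRoot h).subset fun _ hx => not_not.1 hx)

theorem p_EXM2 (hMULT : S_MULT) (hRTF : S_RTF) (hEXMA : S_EXMA) :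
    S_EXM2 := by
  intro f hd hE
  obtain ⟨P, c, hP, hdeg, hc, hev⟩ := hEXMA f hd hE
  obtain ⟨hpr, -, hw, ht⟩ := hRTF f hd
  have hH : homg f.num f.denom 24 P ≠ 0 := ((hMULT Qbar _ _ _ hd hpr).2.2 24 P hP hdeg).1
  have key : ∀ y, f.denom.eval y ≠ 0 →
      (wr f.num f.denom ^ 12).eval y / (P * homg f.num f.denom 24 P).eval y =
        ratDer f y ^ 12 / (P.eval y * P.eval (ratVal f y)) := fun y hy => by
    have h1 : (homg f.num f.denom 24 P).eval y = f.denom.eval y ^ 24 * P.eval (ratVal f y) :=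
      homg_rv (RingHom.id Qbar) (u := y) f.num hy hdeg
    have h2 : ratDer f y = (wr f.num f.denom).eval y / f.denom.eval y ^ 2 := rfl
    rw [eval_mul, eval_pow, h1, h2, div_pow, div_div, ← pow_mul]
    congr 1
    ring
  have e1 := exm2_e_ne f.denom_ne_zero
  have e2 := exm2_e_ne hw
  have e3 := exm2_e_ne hP
  refine ⟨wr f.num f.denom ^ 12, P * homg f.num f.denom 24 P, 24, c⁻¹, pow_ne_zero _ hw,
    mul_ne_zero hP hH, by norm_num, inv_ne_zero hc, Filter.eventually_cofinite.1 ?_⟩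
  filter_upwards [hev, e1, e2, e3, ht.eventually e1, ht.eventually e2, ht.eventually e3]
    with x h0 a1 a2 a3 b1 b2 b3
  have d1 : ratDer f x ≠ 0 := div_ne_zero a2 (pow_ne_zero _ a1)
  have d2 : ratDer f (ratVal f x) ≠ 0 := div_ne_zero b2 (pow_ne_zero _ b1)
  rw [key _ b1, key _ a1, h0]
  field_simp

end Pool.Agent.P.MP_8d2e9f_nt.AO
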