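import Pool.Agent.P.MP_8d2e9f_nt.AO.IfaceE
import Pool.Agent.P.MP_8d2e9f_nt.AO.TFORMB

/-! Step FORM0. -/

set_option autoImplicit false

namespace Pool.Agent.P.MP_8d2e9f_nt.AO

open Polynomial NumberField Pool.Agent.P.MP_8d2e9f_nt.G
open scoped IntermediateField Classical

theorem p_FORM0 (hPRN : S_PRN) (hGOODR : S_GOODR) (hFROB : S_FROB) (hDICH : S_DICH) (hLOCB0 : S_LOCB0) (hLOCA0 : S_LOCA0) :
    S_FORM0 := by
  intro K d a b h hK hN hC hL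
  refine ⟨max d 3, fun p hp φ j a₀ b₀ hN' hl hg ea eb => ?_⟩
  have hS : St K d a b h φ j a₀ b₀ := ⟨hK, hN, hC, hl, hg, ea, eb⟩
  obtain ⟨D, τ, hD⟩ := hFROB K p φ j hl
  obtain ⟨δ, -, hδ, hz⟩ := hDICH K p j D τ hD (by omega)
  have hd : (d : ZMod p) ≠ 0 := fun e => by
    have := Nat.le_of_dvd (by have := hN.1; omega) ((ZMod.natCast_eq_zero_iff d p).1 e)
    omega
  have hw := (hPRN.1 _ d _ _ (hGOODR.1 p d a₀ b₀ hg).1).2.2.2 hd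
  rcases formb_lots (A := {z | NP a b z ∧ Ab K z ∧ Acts K j p δ τ z})
    (B := {z | NP a b z ∧ Ab K z ∧ ∃ s : GK K, s z ≠ z ∧ Acts K j 1 δ s z}) hL (fun z hab => by
      rcases hz z hab.2 with h1 | ⟨s, h1, -, h2⟩
      · exact Or.inl ⟨hab.1, hab.2, h1⟩
      · exact Or.inr ⟨hab.1, hab.2, s, h1, h2⟩) with hA | hB
  · exact hLOCA0 K d a b h p φ j a₀ b₀ δ τ hS hw hδ hA
  · exact hLOCB0 K d a b h p φ j a₀ b₀ δ hS hw hδ hB

end Pool.Agent.P.MP_8d2e9f_nt.AO
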