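import Pool.Agent.P.MP_8d2e9f_nt.AO.IfaceE
import Pool.Agent.P.MP_8d2e9f_nt.AO.TINV

/-! Step INVR. -/

set_option autoImplicit false

namespace Pool.Agent.P.MP_8d2e9f_nt.AO

open Polynomial NumberField Pool.Agent.P.MP_8d2e9f_nt.G
open scoped IntermediateField Classical

theorem p_INVR (hPRN : S_PRN) (hGOODR : S_GOODR) (hGFR : S_GFR) (hAPPRR : S_APPRR) (hPERMQ : S_PERMQ) (hINVU : S_INVU) :
    S_INVR := by
  intro p hp d a b A₀ hgd hd hA hX hC
  have hp1 : 1 < p := hp.out.one_lt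
  obtain ⟨F, _, _, _, e, σ, Γ, hG⟩ := hGFR p d a b hgd
  obtain ⟨hIC, hID, ⟨U, V, r₁, hr₁, hY⟩, U', V', r₂, hr₂, hXX⟩ := hC
  obtain ⟨Z, π, hZ, hmem, hbij, hπ⟩ := hPERMQ p d a b F e σ Γ A₀ hgd hG hd hA hX hIC
  have hb0 : b.map (zr p) ≠ 0 := (hPRN.1 (ZMod p) d _ _ (hGOODR.1 p d a b hgd).1).2.2.1
  have hU := fun x (hx : x ∈ Z) => hINVU p d a b F e σ Γ x hgd hG hd ((hmem x).1 hx).2
  obtain ⟨x₀, hx₀⟩ := id hZ
  obtain ⟨-, hb1, hW1, -⟩ := hU x₀ hx₀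
  obtain ⟨hinj, -, -, -, hσ, hΓ, -⟩ := id hG
  set aq := a.map (zq p) with haq
  set bq := b.map (zq p) with hbq
  set Wq := (wr a b).map (zq p) with hWq
  set A := A₀.map (mapRingHom (zq p)) with hAq
  have hW : wr aq bq = Wq := (wr_map _ _ _).symm
  have he : ∀ s : ℚ_[p][X], s ≠ 0 → e s ≠ 0 := fun s hs h => hs (hinj (by rw [h, map_zero]))
  have hAY : ∀ x ∈ Z, (derivative A).eval₂ e x ≠ 0 := fun x hx h => he r₁ hr₁ (by
    have := congrArg (eval₂ e x) hY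
    rw [eval₂_add, eval₂_mul, eval₂_mul, ((hmem x).1 hx).1, h, eval₂_C] at this
    rw [← this]; simp)
  have hAX : ∀ x ∈ Z, (dX A).eval₂ e x ≠ 0 := fun x hx h => he r₂ hr₂ (by
    have := congrArg (eval₂ e x) hXX
    rw [eval₂_add, eval₂_mul, eval₂_mul, ((hmem x).1 hx).1, h, eval₂_C] at this
    rw [← this]; simp)
  have hee : ∀ s : ℚ_[p][X], s.eval₂ (e.comp C) (e X) = e s := fun s => by
    rw [← hom_eval₂, eval₂_C_X]
  have hee' : eval₂RingHom (e.comp C) (e X) = e := RingHom.ext fun s => by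
    rw [coe_eval₂RingHom, hee]
  have h3 : eval₂RingHom (e.comp C) (rv (e.comp C) aq bq (e X)) = σ.comp e :=
    RingHom.ext fun s => by rw [RingHom.comp_apply, hσ, coe_eval₂RingHom, rv, hee, hee]
  have hD1 : ‖e Wq / e bq ^ 2‖ = 1 := by rw [norm_div, norm_pow, hb1, hW1, one_pow, div_one]
  have hD0 : e Wq / e bq ^ 2 ≠ 0 := fun h => by simp [h] at hD1
  have hb : e bq ≠ 0 := fun h => by simp [h] at hb1
  let g : F → F := fun x => (dX A).eval₂ e x / (derivative A).eval₂ e x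
  let w : F → F := fun x => rv (e.comp C) Wq (bq ^ 2) x / (e Wq / e bq ^ 2)
  have hkey : ∀ x ∈ Z, σ (g (π x)) = g x * w x := fun x hx => by
    have h := hID F (e.comp C) (e X) x (by rwa [hee]) (hU x hx).1
      (by rw [ev2, hee', ((hmem x).1 hx).1])
    have h4 : rv (e.comp C) Wq (bq ^ 2) (e X) = e Wq / e bq ^ 2 := by rw [rv, hee, hee, map_pow]
    simp only [ev2] at h
    rw [hee', h3, ← hπ x hx, ← hom_eval₂, ← hom_eval₂, hW, h4] at h
    have n1 : σ ((derivative A).eval₂ e (π x)) ≠ 0 :=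
      (map_ne_zero σ).2 (hAY _ (hbij.mapsTo hx))
    have n2 := hAY x hx
    simp only [g, w]
    rw [map_div₀, div_mul_div_comm, div_eq_div_iff n1 (mul_ne_zero n2 hD0)]
    linear_combination h
  have hH0 : ∏ x ∈ Z, g x ≠ 0 :=
    Finset.prod_ne_zero_iff.2 fun x hx => div_ne_zero (hAX x hx) (hAY x hx)
  have hHΓ : ∀ γ ∈ Γ, γ (∏ x ∈ Z, g x) = ∏ x ∈ Z, g x := fun γ hγ => by
    have h1 : (γ : F →+* F).comp e = e := RingHom.ext fun s => (hΓ γ hγ).2 s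
    have h2 : ∀ (T : ℚ_[p][X][X]) (x : F), γ (T.eval₂ e x) = T.eval₂ e (γ x) := fun T x => by
      have := hom_eval₂ T e (γ : F →+* F) x
      rwa [h1] at this
    have h3 : Set.MapsTo γ Z Z := fun x hx => (hmem _).2 ⟨by
      rw [← h2, ((hmem x).1 hx).1, map_zero], by
        rw [← (hΓ γ hγ).2 X, ← map_pow, ← map_sub, (hΓ γ hγ).1]
        exact ((hmem x).1 hx).2⟩
    have h4 : Set.BijOn γ Z Z :=
      (Z.finite_toSet.injOn_iff_bijOn_of_mapsTo h3).1 γ.injective.injOn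
    rw [map_prod]
    refine Finset.prod_nbij γ h4.mapsTo h4.injOn h4.surjOn fun x _ => ?_
    simp only [g, map_div₀, h2]
  have hHσ : σ (∏ x ∈ Z, g x) = (∏ x ∈ Z, g x) * ∏ x ∈ Z, w x := by
    have h1 : ∏ x ∈ Z, g (π x) = ∏ x ∈ Z, g x :=
      Finset.prod_nbij π hbij.mapsTo hbij.injOn hbij.surjOn fun _ _ => rfl
    rw [← Finset.prod_mul_distrib, ← Finset.prod_congr rfl hkey, ← map_prod, h1]
  have hu := inv_prod Z w (by rw [norm_pow, hD1, one_pow]) fun x hx => (hU x hx).2.2.2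
  obtain ⟨P, Q, n, hP, hQ, h1, h2, h⟩ := hAPPRR p d a b (wr a b ^ ((p - 1) * Z.card))
    (b ^ (2 * ((p - 1) * Z.card))) F e σ Γ _ _ hgd hG hH0 hHΓ hHσ
    (by rw [Polynomial.map_pow]; exact pow_ne_zero _ hb0) (by
      rw [Polynomial.map_pow, Polynomial.map_pow, map_pow, map_pow, pow_mul _ 2, ← div_pow, pow_mul]
      exact hu)
  refine ⟨P, Q, n, (p - 1) * Z.card, hP, hQ, h1, h2, Nat.mul_pos (by omega) hZ.card_pos, ?_⟩
  rwa [Polynomial.map_pow, Polynomial.map_pow, wr_map] at h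

end Pool.Agent.P.MP_8d2e9f_nt.AO
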