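import Pool.Agent.P.MP_8d2e9f_nt.AO.IfaceE
import Pool.Agent.P.MP_8d2e9f_nt.AO.TINV

/-! Step INVU. -/

set_option autoImplicit false

namespace Pool.Agent.P.MP_8d2e9f_nt.AO

open Polynomial NumberField Pool.Agent.P.MP_8d2e9f_nt.G
open scoped IntermediateField Classical

theorem p_INVU (hPRN : S_PRN) (hGOODR : S_GOODR) :
    S_INVU := by
  intro p hp d a b F _ _ e σ Γ x hG hF hw hx
  obtain ⟨-, hCn, hint, -⟩ := hF
  have key : ∀ u : ℤ_[p][X],
      ‖(u.map (zq p)).eval₂ (e.comp C) x - e (u.map (zq p)) ^ p‖ < 1 := fun u => by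
    have hX1 : ‖e X ^ p‖ ≤ 1 := by
      have := (hint X).1
      rw [map_X] at this
      rw [norm_pow]
      exact pow_le_one₀ (norm_nonneg _) this
    have h1 := inv_eval ((e.comp C).comp (zq p)) (fun z => by
      simpa [hCn] using PadicInt.norm_le_one z) hx hX1 u
    have h2 := (hint (u.comp (X ^ p) - u ^ p)).2.2 (by
      rw [Polynomial.map_sub, Polynomial.map_comp, Polynomial.map_pow, Polynomial.map_pow, map_X,
        inv_frob, sub_self])
    have h3 : u.eval₂ ((e.comp C).comp (zq p)) (e X ^ p) = e ((u.comp (X ^ p)).map (zq p)) := by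
      rw [Polynomial.map_comp, Polynomial.map_pow, map_X, comp, hom_eval₂, eval₂_map, map_pow]
    rw [Polynomial.map_sub, map_sub, ← h3, Polynomial.map_pow, map_pow] at h2
    have h4 := inv_add h1 h2
    rwa [sub_add_sub_cancel, ← eval₂_map] at h4
  have one : ∀ u : ℤ_[p][X], u.map (zr p) ≠ 0 → ‖e (u.map (zq p))‖ = 1 := fun u hu =>
    le_antisymm (hint u).1 (not_lt.1 fun h => hu ((hint u).2.1 h))
  have hB := one b (hPRN.1 _ d _ _ (hGOODR.1 p d a b hG).1).2.2.1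
  have hW := one (wr a b) (by rwa [wr_map])
  have k1 := key b
  have k2 := key (wr a b)
  rw [rv, eval₂_pow]
  generalize (b.map (zq p)).eval₂ (e.comp C) x = B1 at k1 ⊢
  generalize ((wr a b).map (zq p)).eval₂ (e.comp C) x = W1 at k2 ⊢
  generalize e (b.map (zq p)) = B at k1 hB ⊢
  generalize e ((wr a b).map (zq p)) = W at k2 hW ⊢
  have hBp : ‖B ^ p‖ = 1 := by rw [norm_pow, hB, one_pow]
  have hB1 : ‖B1‖ = 1 := by
    have := IsUltrametricDist.norm_add_eq_max_of_norm_ne_norm (x := B1 - B ^ p) (y := B ^ p)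
      (by rw [hBp]; exact k1.ne)
    rwa [sub_add_cancel, hBp, max_eq_right k1.le] at this
  have n1 : B1 ≠ 0 := fun h => by simp [h] at hB1
  have n2 : B ≠ 0 := fun h => by simp [h] at hB
  have n3 : W ≠ 0 := fun h => by simp [h] at hW
  have k3 : ‖B1⁻¹ - (B ^ p)⁻¹‖ < 1 := by
    rw [inv_sub_inv n1 (pow_ne_zero _ n2), norm_div, norm_mul, hB1, hBp, mul_one, div_one,
      norm_sub_rev]
    exact k1
  have i1 : ‖(B ^ p)⁻¹‖ ≤ 1 := by rw [norm_inv, hBp, inv_one]
  have k4 := inv_mul k2 (inv_mul k3 k3 i1 i1) (by rw [norm_pow, hW, one_pow])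
    (by rw [norm_mul, norm_inv, hBp, inv_one, mul_one])
  refine ⟨n1, hB, hW, ?_⟩
  obtain ⟨q, hq⟩ : ∃ q, p = q + 1 := ⟨p - 1, by have := hp.out.pos; omega⟩
  have e1 : W1 / B1 ^ 2 / (W / B ^ 2) - (W / B ^ 2) ^ (p - 1) =
      (W1 * (B1⁻¹ * B1⁻¹) - W ^ p * ((B ^ p)⁻¹ * (B ^ p)⁻¹)) / (W / B ^ 2) := by
    rw [hq, Nat.add_sub_cancel, div_pow]
    field_simp
    ring
  rw [e1, norm_div, norm_div, norm_pow, hW, hB, one_pow, div_one, div_one]
  exact k4

end Pool.Agent.P.MP_8d2e9f_nt.AO
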