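import Pool.Agent.P.MP_8d2e9f_nt.AO.IfaceE

/-! Step LOCA0. -/

set_option autoImplicit false

namespace Pool.Agent.P.MP_8d2e9f_nt.AO

open Polynomial NumberField Pool.Agent.P.MP_8d2e9f_nt.G
open scoped IntermediateField Classical

theorem p_LOCA0 (hABG : S_ABG) (hACT : S_ACT) (hPRIM : S_PRIM) (hCANR : S_CANR) (hAUXB0 : S_AUXB0) (hREDB0 : S_REDB0) (hCRVR : S_CRVR) (hCURV0 : S_CURV0) (hINVR : S_INVR) :
    S_LOCA0 := by
  intro K d a b h p _ φ j a₀ b₀ δ τ S hder hδ hLots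
  obtain ⟨-, hg, -⟩ := (hCANR K d a b S.nrm).1 h S.can
  set P : Set (Qbar × Qbar) :=
    {x | (NP a b x.1 ∧ Ab K x.1 ∧ Acts K j p δ τ x.1) ∧ x.2 = τ x.1} with hP
  have hin : ∀ z, Ab K z ∧ Acts K j p δ τ z → ∀ x ∈ K⟮z⟯, Ab K x ∧ Acts K j p δ τ x :=
    fun z hz x hx => ⟨((hABG K).1 z hz.1).2.1 x hx, ((hACT K p j p δ τ z hz.1 hz.2).1 x hx).1⟩
  have hfib : Fib P := by
    refine ⟨fun z => (Set.finite_singleton (τ z)).subset fun w hw => hw.2,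
      fun w => (Set.finite_singleton (τ.symm w)).subset fun z hz => ?_⟩
    have h : w = τ z := hz.2
    rw [Set.mem_singleton_iff, h, AlgEquiv.symm_apply_apply]
  have hgal : ∀ σ : GK K, ∀ x ∈ P, (σ x.1, σ x.2) ∈ P := by
    intro σ x hx
    refine ⟨⟨hx.1.1.gal σ, hin _ hx.1.2 _ (((hABG K).1 _ hx.1.2.1).2.2 σ)⟩, ?_⟩
    change σ x.2 = τ (σ x.1)
    rw [hx.2]
    exact hx.1.2.1 σ τ
  have hh : ∀ x ∈ P, NP a b x.1 ∧ NP a b x.2 ∧ h x.2 = h x.1 := by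
    intro x hx
    rw [hx.2]
    exact ⟨hx.1.1, hx.1.1.gal τ, hg τ x.1⟩
  have hcl : ∀ x ∈ P, Cl p δ (j x.1) (j x.2) := by
    intro x hx
    rw [hx.2]
    exact ((hACT K p j p δ τ _ hx.1.2.1 hx.1.2.2).1 _
      (IntermediateField.mem_adjoin_simple_self K x.1)).2
  have hlots : Lots (fun x : Qbar × Qbar => h x.1) P := by
    intro ε hε
    refine Set.Infinite.of_image Prod.fst ((hLots ε hε).mono fun z hz => ?_)
    exact ⟨(z, τ z), ⟨⟨hz.1, rfl⟩, hz.2⟩, rfl⟩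
  have hfw : AA (fun x : Qbar × Qbar => h x.1) P
      (fun x => (rm a b x.1, rm a b x.2) ∈ P) := by
    refine ⟨1, one_pos, Set.finite_empty.subset fun x hx => hx.2.2 ?_⟩
    refine ⟨⟨hx.1.1.1.rm, hin _ hx.1.1.2 _ (rm_mem a b x.1)⟩, ?_⟩
    change rm a b x.2 = τ (rm a b x.1)
    rw [hx.1.2, rm_gal]
  obtain ⟨A₁, ε, hA₁, hε, hz₁⟩ := hAUXB0 K d a b h p φ j a₀ b₀ δ p P S hδ hgal hh hcl
  obtain ⟨A, hA0, hfin, hCv, -⟩ := hCURV0 K d a b h P A₁ S.nrm S.can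
    (fun x hx => ⟨(hh x hx).1, (hh x hx).2.1⟩) hlots hfib hfw hA₁
    ⟨ε, hε, Set.finite_empty.subset fun x hx => hx.2.2 (hz₁ x hx.1 hx.2.1)⟩
  have hC' := hCRVR.1 K ℚ_[p] φ a b A hCv
  obtain ⟨c, A₀, hc, hA, hA₀⟩ := hPRIM p (A.map (mapRingHom φ))
    ((Polynomial.map_ne_zero_iff (map_injective φ φ.injective)).2 hA0)
  have hred := hREDB0 K d a b h p φ j a₀ b₀ δ p P A c A₀ S hδ hgal (fun x hx => (hh x hx).1) hfib
    hlots hcl hfin hc hA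
  rw [hA, ← S.ea, ← S.eb] at hC'
  exact hINVR p d a₀ b₀ A₀ S.gd hder hA₀ hred (hCRVR.2 _ _ _ _ c hc hC')

end Pool.Agent.P.MP_8d2e9f_nt.AO
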