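import Pool.Agent.P.MP_8d2e9f_nt.AO.IfaceE

/-! Step PER1. -/

set_option autoImplicit false

namespace Pool.Agent.P.MP_8d2e9f_nt.AO

open Polynomial NumberField Pool.Agent.P.MP_8d2e9f_nt.G
open scoped IntermediateField Classical

lemma per1_e1 (a b : Qbar[X]) (k : ℕ) (hb : b.natDegree = k + 1) :
    homg a b (k + 1) b = C b.leadingCoeff * a ^ (k + 1) + homg a b k b.eraseLead * b := by
  have h1 : b.eraseLead.natDegree ≤ k := by
    have := eraseLead_natDegree_le b
    omega
  have h2 : homg a b (k + 1) b.eraseLead = homg a b k b.eraseLead * b := by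
    have := homg_mul (n := k) (m := 1) (P := b.eraseLead) (Q := 1) a b h1 (by simp)
    rw [mul_one, homg_one, pow_one] at this
    exact this
  have h3 : homg a b (k + 1) (b.eraseLead + C b.leadingCoeff * X ^ b.natDegree) =
      C b.leadingCoeff * a ^ (k + 1) + homg a b k b.eraseLead * b := by
    rw [homg_add, h2, homg_C_mul, hb, homg_X_pow a b le_rfl, Nat.sub_self, pow_zero, mul_one,
      add_comm]
  rwa [eraseLead_add_C_mul_X_pow] at h3

lemma per1_e2 (a b : Qbar[X]) (k : ℕ) (ha : a.natDegree = k + 2) (hb : b.natDegree = k + 1)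
    (hl : a.leadingCoeff = b.leadingCoeff) :
    ∃ x : Qbar, (homg a b (k + 1) b + b ^ (k + 2)).eval x = 0 := by
  have hb0 : b ≠ 0 := fun e => by simp [e] at hb
  have hc : (homg a b (k + 1) b + b ^ (k + 2)).coeff ((k + 1) * (k + 2)) ≠ 0 := by
    have e1 : (a ^ (k + 1)).coeff ((k + 1) * (k + 2)) = b.leadingCoeff ^ (k + 1) := by
      rw [← ha, coeff_pow_mul_natDegree, hl]
    have e2 : (b ^ (k + 2)).coeff ((k + 1) * (k + 2)) = b.leadingCoeff ^ (k + 2) := by
      rw [mul_comm, ← hb, coeff_pow_mul_natDegree]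
    have e3 : (homg a b k b.eraseLead * b).coeff ((k + 1) * (k + 2)) = 0 := by
      apply coeff_eq_zero_of_natDegree_lt
      have h1 := homg_deg (d := k + 2) (a := a) (b := b) ha.le (by omega) k b.eraseLead
      have h2 := natDegree_mul_le (p := homg a b k b.eraseLead) (q := b)
      nlinarith
    rw [per1_e1 a b k hb, coeff_add, coeff_add, coeff_C_mul, e1, e2, e3, add_zero, ← pow_succ',
      ← two_mul]
    exact mul_ne_zero two_ne_zero (pow_ne_zero _ (leadingCoeff_ne_zero.2 hb0))
  have hd := le_natDegree_of_ne_zero hc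
  exact IsAlgClosed.exists_root _
    (natDegree_pos_iff_degree_pos.1 (lt_of_lt_of_le (by positivity) hd)).ne'

theorem p_PER1 (hPRN : S_PRN) :
    S_PER1 := by
  intro d a b ⟨hd, ha, hb, hab⟩
  by_cases h0 : (a - X * b).degree = 0
  · have hc0 : (a - X * b).coeff 0 ≠ 0 := fun e => by
      rw [eq_C_of_degree_eq_zero h0, e] at h0
      simp at h0
    have ea : a = X * b + C ((a - X * b).coeff 0) := by
      rw [← eq_C_of_degree_eq_zero h0]; ring
    generalize (a - X * b).coeff 0 = c at hc0 ea
    have hb0 : b ≠ 0 := fun e => by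
      rw [ea, e] at ha
      simp at ha
      omega
    have hdeg : b.natDegree + 1 = d := by
      rw [ea, natDegree_add_C, natDegree_X_mul hb0] at ha
      exact ha
    obtain ⟨k, rfl⟩ : ∃ k, d = k + 2 := ⟨d - 2, by omega⟩
    have hbk : b.natDegree = k + 1 := by omega
    have hl : a.leadingCoeff = b.leadingCoeff := by
      rw [leadingCoeff, leadingCoeff, ha, hbk, ea, coeff_add, coeff_X_mul, coeff_C_succ, add_zero]
    obtain ⟨x, hx⟩ := per1_e2 a b k ha hbk hl
    have ev : ∀ t, a.eval t = t * b.eval t + c := fun t => by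
      conv_lhs => rw [ea]
      simp
    have hbx : b.eval x ≠ 0 := fun e => by
      rw [per1_e1 a b k hbk] at hx
      simp [e, ev, hc0, hb0] at hx
    have h1 := homg_rv (n := k + 1) (P := b) (b := b) (RingHom.id Qbar) (u := x) a hbx hbk.le
    simp only [rv, eval₂_id] at h1
    rw [eval_add, h1, eval_pow, pow_succ _ (k + 1), ← mul_add] at hx
    have h2 : b.eval (a.eval x / b.eval x) = -b.eval x :=
      eq_neg_of_add_eq_zero_left ((mul_eq_zero.1 hx).resolve_left (pow_ne_zero _ hbx))
    refine ⟨x, ?_⟩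
    rw [im_some ha.le hb.le, if_neg hbx, im_some ha.le hb.le, h2, if_neg (neg_ne_zero.2 hbx),
      ev (a.eval x / b.eval x), h2, ev x]
    congr 1
    field_simp
    ring
  · obtain ⟨x, hx⟩ := IsAlgClosed.exists_root _ h0
    have e : a.eval x = x * b.eval x := by
      simpa [sub_eq_zero] using hx
    have hbx : b.eval x ≠ 0 := fun z => by
      obtain ⟨u, v, huv⟩ := hab
      have := congrArg (eval x) huv
      simp [e, z] at this
    have f : im a b d (some x) = some x := by
      rw [im_some ha.le hb.le, if_neg hbx, e, mul_div_cancel_right₀ _ hbx]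
    exact ⟨x, by rw [f, f]⟩

end Pool.Agent.P.MP_8d2e9f_nt.AO
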