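import Pool.Agent.P.MP_8d2e9f_nt.AO.IfaceE

/-! Step PER2. -/

set_option autoImplicit false

namespace Pool.Agent.P.MP_8d2e9f_nt.AO

open Polynomial NumberField Pool.Agent.P.MP_8d2e9f_nt.G
open scoped IntermediateField Classical

theorem p_PER2 (hPRN : S_PRN) (hCONJ : S_CONJ) (hPER1 : S_PER1) :
    S_PER2 := by
  intro d a b hd hP
  obtain ⟨c, hc⟩ := (hPRN.2 Qbar d a b hd hP).1
  obtain ⟨a', b', m, hN, -, h1, h2, h3, -⟩ := hCONJ d 1 a b c hd hP one_pos hc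
  rw [pow_one] at hN h3
  obtain ⟨x, hx⟩ := hPER1 d a' b' hN
  refine ⟨c, m (some x), fun e => ?_, by rw [hc, hc], ?_⟩
  · cases h2 (h1.trans e)
  · rw [Function.iterate_one] at h3
    rw [← h3, ← h3, hx]

end Pool.Agent.P.MP_8d2e9f_nt.AO
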