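import Pool.Agent.P.MP_8d2e9f_nt.AO.IfaceE

/-! Step PREP. -/

set_option autoImplicit false

namespace Pool.Agent.P.MP_8d2e9f_nt.AO

open Polynomial NumberField Pool.Agent.P.MP_8d2e9f_nt.G
open scoped IntermediateField Classical

theorem p_PREP (hPCOMP : S_PCOMP) (hPER2 : S_PER2) (hEXM1 : S_EXM1) (hRTF : S_RTF) (hEXM2 : S_EXM2) :
    S_PREP := by
  intro K L f hK hL hd hS
  obtain ⟨h1, h2, -⟩ := hRTF f (by omega)
  obtain ⟨k1, k2, -⟩ := hPCOMP _ _ _ _ _ _ _ (by omega) h1 h1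
  obtain ⟨c₁, c₂, hne, e1, e2⟩ := hPER2 _ _ _ hd h1
  rw [← k2] at e1 e2
  have e : im (homg f.num f.denom (ratDegree f) f.num) (homg f.num f.denom (ratDegree f) f.denom)
      (ratDegree f * ratDegree f) = ratMap f ∘ ratMap f := funext fun x => by rw [k2, h2]; rfl
  have hd2 : 2 ≤ ratDegree f * ratDegree f := hd.trans (Nat.le_mul_self _)
  refine hEXM2 f (by omega) (e ▸ by_contra fun hn => hS ?_)
  refine ((Set.not_infinite.1 fun h => hn (hEXM1 K L _ _ _ c₁ hK hL hd2 k1 e1 h)).union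
    (Set.not_infinite.1 fun h => hn (hEXM1 K L _ _ _ c₂ hK hL hd2 k1 e2 h))).subset fun x hx => ?_
  have hx' : x ∈ pts L ∩ PP (im (homg f.num f.denom (ratDegree f) f.num)
      (homg f.num f.denom (ratDegree f) f.denom) (ratDegree f * ratDegree f)) := by
    refine ⟨hx.1, Set.Finite.subset hx.2 ?_⟩
    rintro _ ⟨n, rfl⟩
    refine ⟨2 * n, ?_⟩
    beta_reduce
    rw [e, Function.iterate_mul]
    rfl
  by_contra hc
  simp only [Set.mem_union, Set.mem_ofPred_eq, not_or, not_and, not_forall, not_not] at hc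
  obtain ⟨n, hn⟩ := hc.1 hx'
  obtain ⟨m, hm⟩ := hc.2 hx'
  refine hne ?_
  rw [← Function.iterate_fixed e1 m, ← Function.iterate_fixed e2 n, ← hm, ← hn,
    ← Function.iterate_add_apply, ← Function.iterate_add_apply, add_comm]

end Pool.Agent.P.MP_8d2e9f_nt.AO
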