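import Pool.Agent.P.MP_8d2e9f_nt.AO.IfaceE

/-! Step RTF. -/

set_option autoImplicit false

namespace Pool.Agent.P.MP_8d2e9f_nt.AO

open Polynomial NumberField Pool.Agent.P.MP_8d2e9f_nt.G
open scoped IntermediateField Classical

lemma rtf_e_const (f : RatFunc Qbar) (hd : 0 < ratDegree f) (h1 : f.num.natDegree = 0)
    (h2 : f.denom.natDegree = 0) : False := by
  rw [ratDegree, h1, h2] at hd
  exact absurd hd (by simp)

theorem p_RTF :
    S_RTF := by
  intro f hd
  have hA : f.num.natDegree ≤ ratDegree f := le_max_left _ _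
  have hB : f.denom.natDegree ≤ ratDegree f := le_max_right _ _
  have hm : f.denom.leadingCoeff ≠ 0 := leadingCoeff_ne_zero.2 f.denom_ne_zero
  refine ⟨⟨hA, hB, fun v hv0 => ?_⟩, funext fun x => ?_, fun h => ?_,
    Filter.Tendsto.cofinite_of_finite_preimage_singleton fun c => ?_⟩
  · obtain ⟨c, hc, e⟩ := exists_smul hv0
    rw [e, vm_smul]
    refine smul_ne_zero (pow_ne_zero _ hc) fun h0 => ?_
    obtain ⟨h1, h2⟩ := Prod.mk_eq_zero.1 h0
    generalize pt v = x at h1 h2
    cases x with
    | none =>
      simp only [lf, hv_inf, one_pow, mul_one] at h1 h2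
      rcases lt_or_ge f.denom.natDegree f.num.natDegree with e | e
      · rw [ratDegree, max_eq_left e.le, coeff_natDegree, leadingCoeff_eq_zero] at h1
        simp [h1] at e
      · rw [ratDegree, max_eq_right e] at h2
        exact hm h2
    | some x =>
      simp only [lf, hv_one hA, hv_one hB] at h1 h2
      obtain ⟨a, b, e⟩ := f.isCoprime_num_denom
      simpa [h1, h2] using congrArg (eval x) e
  · cases x with
    | none =>
      rw [im_none, ratMap]
      split_ifs with e e' e'
      · rfl
      · exact absurd (coeff_eq_zero_of_natDegree_lt (e.trans_le hA)) e'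
      · rw [ratDegree, max_eq_right (not_lt.1 e)] at e'
        exact absurd e' hm
      · rw [ratDegree, max_eq_right (not_lt.1 e)]
        rfl
    | some x => rw [im_some hA hB, ratMap]
  · rw [wr_eq, f.isCoprime_num_denom.symm.wronskian_eq_zero_iff] at h
    exact rtf_e_const f hd (derivative_eq_zero.1 h.2)
      (derivative_eq_zero.1 h.1)
  · have hne : f.num - C c * f.denom ≠ 0 := by
      intro h0
      rw [sub_eq_zero] at h0
      have hu : IsUnit f.denom :=
        f.isCoprime_num_denom.isUnit_of_dvd' (h0 ▸ dvd_mul_left _ _) dvd_rfl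
      have h2 := natDegree_eq_zero_of_isUnit hu
      refine rtf_e_const f hd (Nat.le_zero.1 ?_) h2
      rw [h0]
      exact (natDegree_C_mul_le _ _).trans h2.le
    refine Set.Finite.subset (Finset.finite_toSet
      (f.denom * (f.num - C c * f.denom)).roots.toFinset) fun x hx => ?_
    have h1 : f.num.eval x / f.denom.eval x = c := hx
    rw [Finset.mem_coe, Multiset.mem_toFinset, mem_roots (mul_ne_zero f.denom_ne_zero hne),
      IsRoot.def, eval_mul, mul_eq_zero, eval_sub, eval_mul, eval_C]
    by_cases h2 : f.denom.eval x = 0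
    · exact Or.inl h2
    · exact Or.inr (sub_eq_zero.2 ((div_eq_iff h2).1 h1))

end Pool.Agent.P.MP_8d2e9f_nt.AO
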