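import Pool.Agent.P.MP_8d2e9f_nt.AO.IfaceE

/-! Step TANG. -/

set_option autoImplicit false

namespace Pool.Agent.P.MP_8d2e9f_nt.AO

open Polynomial NumberField Pool.Agent.P.MP_8d2e9f_nt.G
open scoped IntermediateField Classical

theorem tang_e1 {R S : Type} [CommRing R] [CommRing S] (ι : R →+* S) (g : R[X]) (x : S) {y : S}
    (hy : y * y = 0) : g.eval₂ ι (x + y) = g.eval₂ ι x + (derivative g).eval₂ ι x * y := by
  rw [← eval_map, ← eval_map, ← eval_map, ← derivative_map]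
  exact eval_add_of_sq_eq_zero _ _ _ (by rw [sq, hy])

theorem tang_e2 (hDX : S_DX) {R S : Type} [CommRing R] [CommRing S] (ι : R →+* S) (A : R[X][X])
    (x z : S) {y : S} (hy : y * y = 0) :
    ev2 ι (x + y) z A = ev2 ι x z A + ev2 ι x z (dX A) * y := by
  induction A using Polynomial.induction_on' with
  | add p q hp hq =>
    rw [((hDX R).2.1 p q).1, ev2_add, ev2_add, ev2_add, hp, hq]
    ring
  | monomial n c =>
    have h : dX (monomial n c) = monomial n (derivative c) := by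
      ext1 i
      simp only [(hDX R).1, coeff_monomial]
      split_ifs <;> simp
    rw [h, ev2, ev2, ev2, eval₂_monomial, eval₂_monomial, eval₂_monomial, coe_eval₂RingHom,
      coe_eval₂RingHom, tang_e1 ι c x hy]
    ring

theorem tang_e3 (hDX : S_DX) {R S : Type} [CommRing R] [CommRing S] (ι : R →+* S) (A : R[X][X])
    (x z : S) {y w : S} (hy : y * y = 0) (hw : w * w = 0) (hyw : y * w = 0) :
    ev2 ι (x + y) (z + w) A =
      ev2 ι x z A + ev2 ι x z (dX A) * y + ev2 ι x z (derivative A) * w := by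
  have h : ev2 ι (x + y) (z + w) A = ev2 ι (x + y) z A + ev2 ι (x + y) z (derivative A) * w :=
    tang_e1 _ A z hw
  rw [h, tang_e2 hDX ι A x z hy, tang_e2 hDX ι _ x z hy]
  linear_combination ev2 ι x z (dX (derivative A)) * hyw

theorem tang_e4 {k S : Type} [CommRing k] [CommRing S] (ι : k →+* S) (a b : k[X]) {n : ℕ}
    {A : k[X][X]} (hn : ∀ i, (A.coeff i).natDegree ≤ n) {u v u' v' : S}
    (hu : a.eval₂ ι u = b.eval₂ ι u * u') (hv : a.eval₂ ι v = b.eval₂ ι v * v') :
    ev2 ι u v (curvr_T a b n A) =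
      b.eval₂ ι u ^ n * b.eval₂ ι v ^ A.natDegree * ev2 ι u' v' A := by
  have h1 : ∀ g : k[X], (g.map C).eval₂ (eval₂RingHom ι u) v = g.eval₂ ι v := fun g => by
    rw [eval₂_map]
    congr 1
    exact RingHom.ext fun c => by simp
  have h0 : ∀ i, (homg a b n (A.coeff i)).eval₂ ι u =
      b.eval₂ ι u ^ n * (A.coeff i).eval₂ ι u' := fun i => by
    rw [homg_eval₂, ← eval_map (p := A.coeff i), ← hv_one (natDegree_map_le.trans (hn i)),
      ← hv_smul, hu]
    simp
  rw [ev2, ev2, curvr_T, eval₂_finsetSum, eval₂_eq_sum_range (p := A), Finset.mul_sum]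
  refine Finset.sum_congr rfl fun i hi => ?_
  obtain ⟨j, hj⟩ := Nat.exists_eq_add_of_le (Nat.lt_succ_iff.1 (Finset.mem_range.1 hi))
  rw [eval₂_mul, eval₂_mul, eval₂_C, eval₂_pow, eval₂_pow, h1, h1, coe_eval₂RingHom,
    coe_eval₂RingHom, h0, hj, add_tsub_cancel_left, hv]
  ring

theorem tang_e5 {k F S : Type} [CommRing k] [Field F] [CommRing S] (ι : k →+* F) (j : F →+* S)
    (a b : k[X]) {u : F} (hu : b.eval₂ ι u ≠ 0) {y : S} (hy : y * y = 0) :
    IsUnit (b.eval₂ (j.comp ι) (j u + y)) ∧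
      a.eval₂ (j.comp ι) (j u + y) = b.eval₂ (j.comp ι) (j u + y) *
        (j (rv ι a b u) + j (rv ι (wr a b) (b ^ 2) u) * y) := by
  rw [tang_e1 _ a _ hy, tang_e1 _ b _ hy, ← hom_eval₂, ← hom_eval₂, ← hom_eval₂, ← hom_eval₂]
  constructor
  · refine IsNilpotent.isUnit_add_left_of_commute ⟨2, ?_⟩ (hu.isUnit.map j) (Commute.all _ _)
    rw [mul_pow, sq y, hy, mul_zero]
  · have h1 : a.eval₂ ι u = b.eval₂ ι u * rv ι a b u := by rw [rv, mul_div_cancel₀ _ hu]
    have h2 : (derivative a).eval₂ ι u = b.eval₂ ι u * rv ι (wr a b) (b ^ 2) u +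
        (derivative b).eval₂ ι u * rv ι a b u := by
      simp only [rv, wr, eval₂_sub, eval₂_mul, eval₂_pow]
      field_simp
      ring
    rw [h2, h1, map_add, map_mul, map_mul, map_mul]
    linear_combination -(j ((derivative b).eval₂ ι u) * j (rv ι (wr a b) (b ^ 2) u)) * hy

theorem p_TANG (hDX : S_DX) :
    S_TANG := by
  intro k _ a b n A B hn hT Ω _ ι u v hu hv huv
  set j : Ω →+* DualNumber Ω := TrivSqZeroExt.inlHom Ω Ω with hj
  set e : DualNumber Ω := DualNumber.eps with he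
  have hee : e * e = 0 := DualNumber.eps_mul_eps
  have hm : ∀ s t : DualNumber Ω, s * e * (t * e) = 0 := fun s t => by
    linear_combination s * t * hee
  set s := ev2 ι u v (derivative A) with hs
  set t := -ev2 ι u v (dX A) with ht
  obtain ⟨hU, hU'⟩ := tang_e5 ι j a b hu (hm (j s) (j s))
  obtain ⟨hV, hV'⟩ := tang_e5 ι j a b hv (hm (j t) (j t))
  have h1 := tang_e4 (j.comp ι) a b hn hU' hV'
  have h2 : ev2 (j.comp ι) (j u + j s * e) (j v + j t * e) A = 0 := by
    rw [tang_e3 hDX _ A _ _ (hm _ _) (hm _ _) (hm _ _), ← hom_ev2, ← hom_ev2, ← hom_ev2, huv,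
      ← hs, ht, map_neg, map_zero]
    ring
  rw [hT, ev2_mul, h2, zero_mul, eq_comm,
    ((hU.pow n).mul (hV.pow A.natDegree)).mul_right_eq_zero, ← mul_assoc, ← mul_assoc,
    tang_e3 hDX _ A _ _ (hm _ _) (hm _ _) (hm _ _), ← hom_ev2, ← hom_ev2, ← hom_ev2] at h1
  have h3 := congrArg TrivSqZeroExt.snd h1
  simp only [hj, he, TrivSqZeroExt.inlHom_apply, TrivSqZeroExt.snd_add, DualNumber.snd_mul,
    TrivSqZeroExt.fst_mul, TrivSqZeroExt.fst_inl, TrivSqZeroExt.snd_inl, DualNumber.fst_eps,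
    DualNumber.snd_eps, TrivSqZeroExt.snd_zero] at h3
  rw [ht] at h3
  linear_combination h3

end Pool.Agent.P.MP_8d2e9f_nt.AO
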