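import Pool.Agent.P.MP_8d2e9f_nt.AO.AllD
import Pool.Agent.P.MP_8d2e9f_nt.AO.FinE
import Pool.Agent.P.MP_8d2e9f_nt.AO.TAUXA0
import Pool.Agent.P.MP_8d2e9f_nt.AO.TAUXB0
import Pool.Agent.P.MP_8d2e9f_nt.AO.TGAPG0
import Pool.Agent.P.MP_8d2e9f_nt.AO.TREDB0
import Pool.Agent.P.MP_8d2e9f_nt.AO.TTANG
import Pool.Agent.P.MP_8d2e9f_nt.AO.TCRVR
import Pool.Agent.P.MP_8d2e9f_nt.AO.TCURV0
import Pool.Agent.P.MP_8d2e9f_nt.AO.TCOLL0
import Pool.Agent.P.MP_8d2e9f_nt.AO.TLOCB0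
import Pool.Agent.P.MP_8d2e9f_nt.AO.TPERMQ
import Pool.Agent.P.MP_8d2e9f_nt.AO.TINVU
import Pool.Agent.P.MP_8d2e9f_nt.AO.TINVR
import Pool.Agent.P.MP_8d2e9f_nt.AO.TLOCA0
import Pool.Agent.P.MP_8d2e9f_nt.AO.TFORM0
import Pool.Agent.P.MP_8d2e9f_nt.AO.TEIG0
import Pool.Agent.P.MP_8d2e9f_nt.AO.TPER1
import Pool.Agent.P.MP_8d2e9f_nt.AO.TPER2
import Pool.Agent.P.MP_8d2e9f_nt.AO.TEXM1
import Pool.Agent.P.MP_8d2e9f_nt.AO.TRTF
import Pool.Agent.P.MP_8d2e9f_nt.AO.TEXMA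
import Pool.Agent.P.MP_8d2e9f_nt.AO.TEXM2
import Pool.Agent.P.MP_8d2e9f_nt.AO.TPREP

/-! All steps for preperiodic points together. -/

namespace Pool.Agent.P.MP_8d2e9f_nt.AO

theorem all_AUXA0 : S_AUXA0 := p_AUXA0 all_NUM all_PF all_CANR all_BASR all_SIEG1
theorem all_AUXB0 : S_AUXB0 := p_AUXB0 all_NUM all_PF all_CANR all_BASR all_SIEG2
theorem all_GAPG0 : S_GAPG0 := p_GAPG0 all_AUXA0
theorem all_REDB0 : S_REDB0 := p_REDB0 all_GAPG0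
theorem all_TANG : S_TANG := p_TANG all_DX
theorem all_CRVR : S_CRVR := p_CRVR all_DX
theorem all_CURV0 : S_CURV0 := p_CURV0 all_DX all_CURVF all_CANR all_TANG
theorem all_COLL0 : S_COLL0 := p_COLL0 all_ABG all_ACT all_CANR all_GAPG0
theorem all_LOCB0 : S_LOCB0 := p_LOCB0 all_ABG all_ACT all_PRIM all_CANR all_INVWR all_AUXB0 all_REDB0 all_CURV0 all_COLL0
theorem all_PERMQ : S_PERMQ := p_PERMQ all_PRN all_GOODR
theorem all_INVU : S_INVU := p_INVU all_PRN all_GOODR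
theorem all_INVR : S_INVR := p_INVR all_PRN all_GOODR all_GFR all_APPRR all_PERMQ all_INVU
theorem all_LOCA0 : S_LOCA0 := p_LOCA0 all_ABG all_ACT all_PRIM all_CANR all_AUXB0 all_REDB0 all_CRVR all_CURV0 all_INVR
theorem all_FORM0 : S_FORM0 := p_FORM0 all_PRN all_GOODR all_FROB all_DICH all_LOCB0 all_LOCA0
theorem all_EIG0 : S_EIG0 := p_EIG0 all_PRN all_CANH all_CANR all_LIFTR all_COMPO all_FORM0
theorem all_PER1 : S_PER1 := p_PER1 all_PRN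
theorem all_PER2 : S_PER2 := p_PER2 all_PRN all_CONJ all_PER1
theorem all_EXM1 : S_EXM1 := p_EXM1 all_PRN all_CJ all_COMPO all_EIG0
theorem all_RTF : S_RTF := p_RTF
theorem all_EXMA : S_EXMA := p_EXMA all_CHN all_PCOMP all_RTF
theorem all_EXM2 : S_EXM2 := p_EXM2 all_MULT all_RTF all_EXMA
theorem all_PREP : S_PREP := p_PREP all_PCOMP all_PER2 all_EXM1 all_RTF all_EXM2

end Pool.Agent.P.MP_8d2e9f_nt.AO
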