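import Pool.Agent.P.MP_8d2e9f_nt.AO.IfaceF
import Pool.Agent.P.MP_8d2e9f_nt.G.All

/-! An abelian field with (USB) and without (N). -/

set_option autoImplicit false

namespace Pool.Agent.P.MP_8d2e9f_nt.AO

open Polynomial Pool.Agent.P.MP_8d2e9f_nt.G

theorem finf_main (hCANH : S_CANH) (hMAING2 : S_MAING2) (hTOWER : S_TOWER) (hDSC : S_DSC)
    (hNOTN : S_NOTN) (hABQ : S_ABQ) (hMAINF : S_MAINF) :
    ∃ L : IntermediateField ℚ Qbar, IsAbelianGalois ℚ L ∧ PropertyUSB L.toSubfield ∧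
      ¬ PropertyN L.toSubfield ∧
        ∀ E : IntermediateField L Qbar, FiniteDimensional L E → PropertyUSB E.toSubfield := by
  obtain ⟨l, hl⟩ := hTOWER
  have hA := hABQ.1 l
  have h0 : Fd ⊥ := inferInstance
  have key : ∀ K : IF, Fd K → PropertyUSB (LL l ⊔ K).toSubfield := fun K hK f hf H hH => by
    have rf : RM ⊤ (ratDegree f) (ratMap f) := all_RF ⊤ f fun _ => ⟨trivial, trivial⟩
    obtain ⟨c, hc, h3⟩ := hMAING2 ⊥ _ _ _ h0 hA hf rf H hH K hK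
    obtain ⟨k1, k2, -⟩ := (hCANH _ _ hf rf).2 H hH
    exact ⟨⟨c, hc, fun α hα hp => h3 α hα ((k1 α).lt_of_ne fun e => hp ((k2 α).1 e.symm))⟩,
      hMAINF ⊥ _ h0 hA (hDSC l hl) K _ _ hK hf rf⟩
  refine ⟨LL l, (hABQ.2 _).1 hA, ?_, hNOTN l hl, fun E hE => ?_⟩
  · have := key ⊥ h0
    rwa [sup_bot_eq] at this
  · obtain ⟨K, h1, h2⟩ := (hABQ.2 _).2 E hE
    exact h2 ▸ key K h1

end Pool.Agent.P.MP_8d2e9f_nt.AO
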