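import Pool.Agent.P.MP_8d2e9f_nt.AO.IfaceF
import Pool.Agent.P.MP_8d2e9f_nt.AO.TABG

/-! Step ABQ. -/

set_option autoImplicit false

namespace Pool.Agent.P.MP_8d2e9f_nt.AO

open Polynomial NumberField Pool.Agent.P.MP_8d2e9f_nt.G
open scoped IntermediateField Classical

theorem abq_fadj {K : IF} {S : Set Qbar} (hS : ∀ z ∈ S, Ab K z) :
    ∀ x ∈ IntermediateField.adjoin ℚ S, Ab K x := by
  intro x hx
  have h : IntermediateField.adjoin ℚ S ≤ (IntermediateField.adjoin K S).restrictScalars ℚ :=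
    IntermediateField.adjoin_le_iff.2 (IntermediateField.subset_adjoin K S)
  exact abg_adj hS x (h hx)

theorem abq_fq {z : Qbar} (hz : Ab ⊥ z) (σ ρ : Qbar ≃ₐ[ℚ] Qbar) : σ (ρ z) = ρ (σ z) := by
  have key : ∀ (τ : Qbar ≃ₐ[ℚ] Qbar) (c : (⊥ : IF)),
      τ.toRingEquiv (algebraMap (⊥ : IF) Qbar c) = algebraMap (⊥ : IF) Qbar c := fun τ c => by
    obtain ⟨q, hq⟩ := IntermediateField.mem_bot.1 c.2
    have e : algebraMap (⊥ : IF) Qbar c = algebraMap ℚ Qbar q := hq.symm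
    rw [e]
    exact τ.commutes q
  exact hz (AlgEquiv.ofRingEquiv (f := σ.toRingEquiv) (key σ))
    (AlgEquiv.ofRingEquiv (f := ρ.toRingEquiv) (key ρ))

theorem abq_fstab {M : IF} (hM : ∀ x ∈ M, Ab ⊥ x) (σ : Qbar ≃ₐ[ℚ] Qbar)
    {x : Qbar} (hx : x ∈ M) : σ x ∈ M := by
  rw [← InfiniteGalois.fixedField_fixingSubgroup M, IntermediateField.mem_fixedField_iff]
  intro ρ hρ
  rw [abq_fq (hM x hx) ρ σ, (IntermediateField.mem_fixingSubgroup_iff M ρ).1 hρ x hx]

theorem abq_fabel {M : IF} (hM : ∀ x ∈ M, Ab ⊥ x) : IsAbelianGalois ℚ M := by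
  have hn : Normal ℚ M := IntermediateField.normal_iff_forall_map_le'.2 fun σ => by
    rintro _ ⟨x, hx, rfl⟩
    exact abq_fstab hM σ hx
  have hg : IsGalois ℚ M := {}
  have hc : IsMulCommutative (M ≃ₐ[ℚ] M) := ⟨⟨fun s t => by
    obtain ⟨σ, rfl⟩ := AlgEquiv.restrictNormalHom_surjective (F := ℚ) (K₁ := M) Qbar s
    obtain ⟨ρ, rfl⟩ := AlgEquiv.restrictNormalHom_surjective (F := ℚ) (K₁ := M) Qbar t
    rw [← map_mul, ← map_mul]
    ext x
    have h1 := AlgEquiv.restrictNormal_commutes (σ * ρ) M x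
    have h2 := AlgEquiv.restrictNormal_commutes (ρ * σ) M x
    exact h1.trans ((abq_fq (hM x x.2) σ ρ).trans h2.symm)⟩⟩
  exact {}

theorem abq_feq (L : IF) (s : Set Qbar) :
    (IntermediateField.adjoin L s).toSubfield =
      (L ⊔ IntermediateField.adjoin ℚ s).toSubfield := by
  refine le_antisymm (fun x hx => ?_) fun x hx => ?_
  · change x ∈ IntermediateField.adjoin L s at hx
    change x ∈ L ⊔ IntermediateField.adjoin ℚ s
    induction hx using IntermediateField.adjoin_induction with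
    | mem z hz => exact (le_sup_right : _ ≤ L ⊔ _) (IntermediateField.subset_adjoin ℚ s hz)
    | algebraMap c => exact (le_sup_left : L ≤ _) c.2
    | add a b _ _ ha hb => exact add_mem ha hb
    | inv a _ ha => exact inv_mem ha
    | mul a b _ _ ha hb => exact mul_mem ha hb
  · have h : L ⊔ IntermediateField.adjoin ℚ s ≤
        (IntermediateField.adjoin L s).restrictScalars ℚ :=
      sup_le (fun y hy => (IntermediateField.adjoin L s).algebraMap_mem ⟨y, hy⟩)
        (IntermediateField.adjoin_le_iff.2 (IntermediateField.subset_adjoin L s))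
    exact h hx

theorem p_ABQ (hABG : S_ABG) :
    S_ABQ := by
  refine ⟨fun l => ⟨bot_le, abq_fadj ?_⟩, fun L => ⟨fun h => abq_fabel h.2, fun E hE => ?_⟩⟩
  · rintro _ ⟨n, rfl⟩
    have hζ : IsOfFinOrder (l n).ζ :=
      isOfFinOrder_iff_pow_eq_one.2 ⟨(l n).p, (l n).hp.out.pos, (l n).prim.pow_eq_one⟩
    exact ((hABG ⊥).1 _ ((hABG ⊥).2.2.2.2.1 _ hζ)).2.1 _ ((l n).u_mem ⊥)
  · obtain ⟨s, rfl⟩ : E.FG := IntermediateField.essFiniteType_iff.1 inferInstance
    exact ⟨IntermediateField.adjoin ℚ s,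
      IntermediateField.finiteDimensional_adjoin fun x _ => int_Q x, abq_feq L s⟩

end Pool.Agent.P.MP_8d2e9f_nt.AO
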