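import Pool.Agent.P.MP_8d2e9f_nt.AO.IfaceF

/-! Step CYF. -/

set_option autoImplicit false

namespace Pool.Agent.P.MP_8d2e9f_nt.AO

open Polynomial NumberField Pool.Agent.P.MP_8d2e9f_nt.G
open scoped IntermediateField Classical

theorem p_CYF (hWH : S_WH) (hWHX : S_WHX) (hRIGC : S_RIGC) :
    S_CYF := by
  intro L K hL hK
  obtain ⟨K', hK', h⟩ := hL K ∅ hK Set.finite_empty
  have hd : (X ^ 2 + C 1 : Qbar[X]).natDegree = 2 := natDegree_X_pow_add_C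
  obtain ⟨B, hB⟩ := hWH.2.1 (X ^ 2 + C 1) (by omega)
  refine (hWH.2.2.2.1 K' B hK').subset ?_
  rintro _ ⟨hx, ζ, hζ, rfl⟩
  refine ⟨h _ hx (hRIGC K ∅ ζ hζ), ?_⟩
  have h0 : ζ ≠ 0 := hζ.isUnit.ne_zero
  have h1 := hWHX.2.2.2.2.2.2 ζ hζ
  have h2 := hWHX.1 (ζ ^ 2 + 1) ζ⁻¹
  have h3 := (abs_le.1 (hB ζ)).2
  rw [hWHX.2.1, h1, show (ζ ^ 2 + 1) * ζ⁻¹ = ζ + ζ⁻¹ by field_simp] at h2
  rw [h1, eval_add, eval_pow, eval_X, eval_C] at h3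
  linarith

end Pool.Agent.P.MP_8d2e9f_nt.AO
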