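import Pool.Agent.P.MP_8d2e9f_nt.AO.IfaceF

/-! Step DSC. -/

set_option autoImplicit false

namespace Pool.Agent.P.MP_8d2e9f_nt.AO

open Polynomial NumberField Pool.Agent.P.MP_8d2e9f_nt.G
open scoped IntermediateField Classical

/-- The field generated over `K` by the first `m` norms. -/
noncomputable def dsc_f_F (l : ℕ → Lv) (K : IF) (m : ℕ) : IF :=
  IntermediateField.adjoin ℚ ((fun n => (l n).u) '' Set.Iio m) ⊔ K

lemma dsc_f_mono (l : ℕ → Lv) (K : IF) : Monotone (dsc_f_F l K) := fun _ _ h =>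
  sup_le_sup_right (IntermediateField.adjoin.mono _ _ _
    (Set.image_mono (Set.Iio_subset_Iio h))) K

lemma dsc_f_mem (l : ℕ → Lv) (K : IF) {i m : ℕ} (h : i < m) : (l i).u ∈ dsc_f_F l K m :=
  (le_sup_left : _ ≤ dsc_f_F l K m) (IntermediateField.subset_adjoin ℚ _ ⟨i, h, rfl⟩)

lemma dsc_f_succ (l : ℕ → Lv) (K : IF) (m : ℕ) :
    dsc_f_F l K (m + 1) ≤ dsc_f_F l K m ⊔ ℚ⟮(l m).u⟯ := by
  refine sup_le (IntermediateField.adjoin_le_iff.2 ?_) (le_sup_right.trans le_sup_left)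
  rintro _ ⟨i, hi, rfl⟩
  rcases (Nat.lt_succ_iff.1 hi).lt_or_eq with h | rfl
  · exact (le_sup_left : _ ≤ dsc_f_F l K m ⊔ ℚ⟮(l m).u⟯) (dsc_f_mem l K h)
  · exact (le_sup_right : _ ≤ dsc_f_F l K i ⊔ ℚ⟮(l i).u⟯)
      (IntermediateField.mem_adjoin_simple_self ℚ _)

lemma dsc_f_ex (l : ℕ → Lv) (K : IF) {z : Qbar} (hz : z ∈ LL l ⊔ K) : ∃ m, z ∈ dsc_f_F l K m := by
  have h : LL l ⊔ K ≤ ⨆ m, dsc_f_F l K m := by
    refine sup_le (IntermediateField.adjoin_le_iff.2 ?_)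
      (le_sup_right.trans (le_iSup (dsc_f_F l K) 0))
    rintro _ ⟨i, rfl⟩
    exact le_iSup (dsc_f_F l K) (i + 1) (dsc_f_mem l K (Nat.lt_succ_self i))
  have h2 : z ∈ ((⨆ m, dsc_f_F l K m : IF) : Set Qbar) := h hz
  rw [IntermediateField.coe_iSup_of_directed (dsc_f_mono l K).directed_le] at h2
  exact Set.mem_iUnion.1 h2

theorem p_DSC (hSTEP : S_STEP) :
    S_DSC := by
  intro l hl K S hK hS
  obtain ⟨t, ht⟩ : K.FG := IntermediateField.essFiniteType_iff.1 inferInstance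
  have hfin : ((t : Set Qbar) ∪ S).Finite := t.finite_toSet.union hS
  obtain ⟨m0, hm0⟩ := Filter.eventually_atTop.1
    ((Filter.eventually_all_finite hfin).2 fun x _ => hl.2 x)
  have hKM : ∀ n, m0 ≤ n → K ≤ (l n).M := fun n hn => by
    rw [← ht]
    exact IntermediateField.adjoin_le_iff.2 fun x hx => (hm0 n hn x (Or.inl hx)).1
  have hFM : ∀ n, m0 ≤ n → dsc_f_F l K n ≤ (l n).M := fun n hn => by
    refine sup_le (IntermediateField.adjoin_le_iff.2 ?_) (hKM n hn)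
    rintro _ ⟨i, hi, rfl⟩
    exact hl.1 i n hi
  have := ((Set.finite_Iio m0).image fun n => (l n).u).to_subtype
  have : FiniteDimensional ℚ
      (IntermediateField.adjoin ℚ ((fun n => (l n).u) '' Set.Iio m0)) :=
    IntermediateField.finiteDimensional_adjoin fun x _ => int_Q x
  refine ⟨dsc_f_F l K m0, IntermediateField.finiteDimensional_sup _ _, fun z hz hr => ?_⟩
  obtain ⟨m, hm⟩ := dsc_f_ex l K hz
  induction m with
  | zero => exact dsc_f_mono l K (Nat.zero_le _) hm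
  | succ m ih =>
    rcases le_or_gt m0 m with h | h
    · exact ih (hSTEP (l m) K _ S le_sup_right (hFM m h) (fun c hc => (hm0 m h c (Or.inr hc)).2) z
        (dsc_f_succ l K m hm) hr)
    · exact dsc_f_mono l K h hm

end Pool.Agent.P.MP_8d2e9f_nt.AO
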