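import Pool.Agent.P.MP_8d2e9f_nt.AO.IfaceC
import Pool.Agent.P.MP_8d2e9f_nt.AO.BaseE

/-! Step ENEAR. -/

set_option autoImplicit false

namespace Pool.Agent.P.MP_8d2e9f_nt.AO

open Polynomial NumberField Pool.Agent.P.MP_8d2e9f_nt.G
open scoped IntermediateField Classical

section

variable {F : Type} [NormedField F] [IsUltrametricDist F]

lemma enear_add {a b : F} {m : ℝ} (ha : ‖a‖ ≤ m) (hb : ‖b‖ ≤ m) : ‖a + b‖ ≤ m :=
  (IsUltrametricDist.norm_add_le_max a b).trans (max_le ha hb)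

omit [IsUltrametricDist F] in
lemma enear_mul {a b : F} {m : ℝ} (ha : ‖a‖ ≤ 1) (hb : ‖b‖ ≤ m) : ‖a * b‖ ≤ m := by
  rw [norm_mul]
  exact (mul_le_of_le_one_left (norm_nonneg _) ha).trans hb

lemma enear_int (n : ℤ) : ‖(n : F)‖ ≤ 1 := IsUltrametricDist.norm_intCast_le_one F n

lemma enear_low {a b x y : F} (ha : ‖a‖ ≤ 1) (hb : ‖b‖ ≤ 1) (h2 : ‖(2 : F)‖ = 1)
    (hd : ‖4 * a ^ 3 + 27 * b ^ 2‖ = 1) (hxy : ‖y‖ = ‖x‖) {m : ℝ}
    (h0 : ‖(y * x) ^ 2 - 2 * a * (y * x) - 4 * b * (y + x) + a ^ 2‖ < m)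
    (h1 : ‖2 * (y + x) * (y * x) + 2 * a * (y + x) + 4 * b‖ < m)
    (h3 : ‖(y + x) ^ 2 - 4 * (y * x)‖ < m) : ¬ m ≤ max 1 ‖x‖ ^ 4 := by
  intro hm
  rcases le_or_gt ‖x‖ 1 with hx | hx
  · rw [max_eq_left hx, one_pow] at hm
    have hs : ‖y * x‖ ≤ 1 := enear_mul (hxy ▸ hx) hx
    have ht : ‖y + x‖ ≤ 1 := enear_add (hxy ▸ hx) hx
    generalize y * x = s at *
    generalize y + x = t at *
    have e : -2 ^ 4 * (4 * a ^ 3 + 27 * b ^ 2) =
        (((-12 : ℤ) : F) * (t * t) + ((-64 : ℤ) : F) * a) *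
            (s ^ 2 - 2 * a * s - 4 * b * t + a ^ 2) +
          (((6 : ℤ) : F) * (s * t) + ((-10 : ℤ) : F) * (a * t) + ((-108 : ℤ) : F) * b) *
            (2 * t * s + 2 * a * t + 4 * b) +
          (((-16 : ℤ) : F) * (a * s) + ((-48 : ℤ) : F) * (b * t) + ((32 : ℤ) : F) * (a * a)) *
            (t ^ 2 - 4 * s) := by
      push_cast
      ring
    have k : ‖-2 ^ 4 * (4 * a ^ 3 + 27 * b ^ 2)‖ = 1 := by
      rw [norm_mul, norm_neg, norm_pow, h2, hd]; norm_num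
    have q : ‖-2 ^ 4 * (4 * a ^ 3 + 27 * b ^ 2)‖ ≤ max (max
        ‖s ^ 2 - 2 * a * s - 4 * b * t + a ^ 2‖ ‖2 * t * s + 2 * a * t + 4 * b‖)
        ‖t ^ 2 - 4 * s‖ := by
      rw [e]
      refine enear_add (enear_add (enear_mul ?_ ((le_max_left _ _).trans (le_max_left _ _)))
        (enear_mul ?_ ((le_max_right _ _).trans (le_max_left _ _))))
        (enear_mul ?_ (le_max_right _ _))
      · exact enear_add (enear_mul (enear_int _) (enear_mul ht ht)) (enear_mul (enear_int _) ha)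
      · exact enear_add (enear_add (enear_mul (enear_int _) (enear_mul hs ht))
          (enear_mul (enear_int _) (enear_mul ha ht))) (enear_mul (enear_int _) hb)
      · exact enear_add (enear_add (enear_mul (enear_int _) (enear_mul ha hs))
          (enear_mul (enear_int _) (enear_mul hb ht))) (enear_mul (enear_int _) (enear_mul ha ha))
    rw [k] at q
    exact absurd (q.trans_lt (max_lt (max_lt h0 h1) h3)) (not_lt.2 hm)
  · rw [max_eq_right hx.le] at hm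
    have hx2 : ‖x‖ ≤ ‖x‖ ^ 2 := by nlinarith
    have hs : ‖y * x‖ = ‖x‖ ^ 2 := by rw [norm_mul, hxy, sq]
    have ht : ‖y + x‖ ≤ ‖x‖ ^ 2 := enear_add (hxy ▸ hx2) hx2
    have hlt : ‖x‖ ^ 2 < ‖x‖ ^ 4 := pow_lt_pow_right₀ hx (by norm_num)
    have e : (y * x) ^ 2 = ((y * x) ^ 2 - 2 * a * (y * x) - 4 * b * (y + x) + a ^ 2) +
        (((2 : ℤ) : F) * (a * (y * x)) + ((4 : ℤ) : F) * (b * (y + x)) +
          ((-1 : ℤ) : F) * (a * a)) := by
      push_cast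
      ring
    have q : ‖((2 : ℤ) : F) * (a * (y * x)) + ((4 : ℤ) : F) * (b * (y + x)) +
          ((-1 : ℤ) : F) * (a * a)‖ ≤ ‖x‖ ^ 2 :=
      enear_add (enear_add (enear_mul (enear_int _) (enear_mul ha hs.le))
        (enear_mul (enear_int _) (enear_mul hb ht)))
        (enear_mul (enear_int _) (enear_mul ha (ha.trans (hx.le.trans hx2))))
    have k : ‖(y * x) ^ 2‖ = ‖x‖ ^ 4 := by rw [norm_pow, hs]; ring
    have := IsUltrametricDist.norm_add_le_max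
      ((y * x) ^ 2 - 2 * a * (y * x) - 4 * b * (y + x) + a ^ 2)
      (((2 : ℤ) : F) * (a * (y * x)) + ((4 : ℤ) : F) * (b * (y + x)) + ((-1 : ℤ) : F) * (a * a))
    rw [← e, k] at this
    exact absurd (this.trans_lt (max_lt (h0.trans_le hm) (q.trans_lt hlt))) (lt_irrefl _)

end

lemma enear_two {p : ℕ} [hp : Fact p.Prime] (h : 3 ≤ p) : ‖(2 : Om p)‖ = 1 := by
  have : (2 : Om p) = algebraMap ℚ_[p] (Om p) ((2 : ℤ) : ℚ_[p]) := by
    rw [map_intCast]; norm_num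
  rw [this, norm_algebraMap']
  refine le_antisymm (Padic.norm_int_le_one _) (not_lt.1 fun hl => ?_)
  have := Int.le_of_dvd (by norm_num) (Padic.norm_intCast_lt_one_iff.1 hl)
  omega

lemma enear_sym {α β : Qbar} {P Q : (ec α β).Point} {a b : Qbar} (ha : xp P = some a)
    (hb : xp Q = some b) : P.sym2x Q = ![a * b, a + b, 1] := by
  rcases P with _ | ⟨x, y, h⟩
  · cases ha
  rcases Q with _ | ⟨x', y', h'⟩
  · cases hb
  cases ha
  cases hb
  exact WeierstrassCurve.Affine.Point.sym2x_some_some _ _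

lemma enear_root {p : ℕ} [Fact p.Prime] (j : Qbar →+* Om p) {e : ℕ} (he : 0 < e) (x y : Qbar)
    {c : ℝ} (hc : 0 < c) (h : ‖j (y ^ e) - j (x ^ e)‖ ≤ c ^ e) :
    ∃ ζ : Qbar, ζ ^ e = 1 ∧ ‖j (y - ζ * x)‖ ≤ c := by
  by_contra hn
  push Not at hn
  have : NeZero e := ⟨he.ne'⟩
  obtain ⟨ζ, hζ⟩ := HasEnoughRootsOfUnity.exists_primitiveRoot Qbar e
  rw [← map_sub, hζ.pow_sub_pow_eq_prod_sub_mul y x he, map_prod, norm_prod] at h
  have hne : (nthRootsFinset e (1 : Qbar)).Nonempty :=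
    Finset.card_pos.1 (hζ.card_nthRootsFinset.symm ▸ he)
  have := Finset.prod_lt_prod_of_nonempty (f := fun _ : Qbar => c)
    (g := fun z => ‖j (y - z * x)‖) (fun _ _ => hc)
    (fun z hz => hn z ((mem_nthRootsFinset he 1).1 hz)) hne
  rw [Finset.prod_const, hζ.card_nthRootsFinset] at this
  exact absurd h (not_le.2 this)

theorem p_ENEAR (hETW : S_ETW) (hETX : S_ETX) :
    S_ENEAR := by
  intro α β e p _ j δ ht hp ha hb hd hδ
  obtain ⟨d, hd0, hd1, hd3⟩ : ∃ d : ℝ, 0 < d ∧ d < 1 ∧ δ ≤ d ^ 3 := by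
    have h0 := le_max_right δ 0
    have h1 : max δ 0 < 1 := max_lt hδ one_pos
    refine ⟨1 + -((1 - max δ 0) / 3), by linarith, by linarith, (le_max_left δ 0).trans ?_⟩
    have := one_add_mul_le_pow (a := -((1 - max δ 0) / 3)) (by linarith) 3
    push_cast at this
    linarith
  have he : 0 < e ∧ e ≤ 3 := by rcases ht.2 with h | h | h <;> omega
  have hr : 1 < d⁻¹ := (one_lt_inv₀ hd0).2 hd1
  refine ⟨d⁻¹, hr, fun P Q x y hP hQ hc => ?_⟩
  obtain ⟨hc1, hc2⟩ := hc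
  have hxy : ‖j y‖ = ‖j x‖ := by
    rw [map_pow, map_pow, norm_pow, norm_pow] at hc2
    exact (pow_left_inj₀ (norm_nonneg _) (norm_nonneg _) he.1.ne').1 hc2
  have hm1 : (1 : ℝ) ≤ max 1 ‖j x‖ := le_max_left _ _
  have hme : max 1 ‖j (x ^ e)‖ ≤ max 1 ‖j x‖ ^ e := by
    rw [map_pow, norm_pow]
    exact max_le (one_le_pow₀ hm1) (pow_le_pow_left₀ (norm_nonneg _) (le_max_right _ _) _)
  obtain ⟨ζ, hζ, hn⟩ := enear_root j he.1 x y (c := d * max 1 ‖j x‖ ^ 2) (by positivity) (by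
    rw [pow_one, pow_one, hc2] at hc1
    refine hc1.trans ?_
    have h1 : δ ≤ d ^ e := hd3.trans (pow_le_pow_of_le_one hd0.le hd1.le he.2)
    calc δ * max 1 ‖j (x ^ e)‖ * max 1 ‖j (x ^ e)‖
        ≤ d ^ e * max 1 ‖j x‖ ^ e * max 1 ‖j x‖ ^ e := by gcongr
      _ = _ := by ring)
  obtain ⟨u, hu⟩ := IsAlgClosed.exists_pow_nat_eq ζ (n := 2) two_pos
  have hue : u ^ (2 * e) = 1 := by rw [pow_mul, hu, hζ]
  have hue' : (-1 : Qbar) ^ (2 * e) = 1 := by rw [pow_mul]; simp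
  obtain ⟨hT, -, hN, -⟩ := hETX α β e ht
  have hP1 : xp (twp (RingHom.id _) u P) = some (ζ * x) := by
    rw [(hETW α β _ u (hT u hue).1).2.2.1, hP, ← hu]; rfl
  have hneg : twp (RingHom.id _) (-u) P = -twp (RingHom.id _) u P := by
    rw [← (hN _).2.1, ((hETW α β _ (-1) (hT _ hue').1).2.2.2 _ u (hT u hue).1).2 P]
    simp
  by_contra hcon
  push Not at hcon
  have h4 := hcon u hue
  have h3 := hcon (-u) (by rw [neg_pow, hue, hue', one_mul])
  rw [hneg, sub_neg_eq_add] at h3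
  simp only [Nr, not_forall, not_le] at h3 h4
  obtain ⟨x3, hx3, h3⟩ := h3
  obtain ⟨x4, hx4, h4⟩ := h4
  have : WeierstrassCurve.IsElliptic (ec α β) := ⟨by
    refine IsUnit.mk0 _ fun h0 => ht.1 ?_
    simp only [ec, WeierstrassCurve.Δ, WeierstrassCurve.b₂, WeierstrassCurve.b₄,
      WeierstrassCurve.b₆, WeierstrassCurve.b₈] at h0
    linear_combination (-1 / 16) * h0⟩
  obtain ⟨c, -, hc⟩ := EC.asm (ec α β) Q (twp (RingHom.id _) u P)
  rw [EC.asm_eval, enear_sym hQ hP1, enear_sym hx3 hx4] at hc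
  have e0 := congrArg j (congrFun hc 0)
  have e1 := congrArg j (congrFun hc 1)
  have e2 := congrArg j (congrFun hc 2)
  simp only [ec, WeierstrassCurve.b₂, WeierstrassCurve.b₄, WeierstrassCurve.b₆,
    WeierstrassCurve.b₈, Matrix.cons_val_zero, Matrix.cons_val_one, Matrix.cons_val,
    Pi.smul_apply, smul_eq_mul, map_sub, map_add, map_mul, map_pow, map_ofNat, map_one,
    map_zero] at e0 e1 e2
  have hz : ‖j ζ‖ = 1 := by
    have : ‖j ζ‖ ^ e = 1 := by rw [← norm_pow, ← map_pow, hζ, map_one, norm_one]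
    exact (pow_eq_one_iff_of_nonneg (norm_nonneg _) he.1.ne').1 this
  have hzx : ‖j ζ * j x‖ = ‖j x‖ := by rw [norm_mul, hz, one_mul]
  rw [map_sub, map_mul] at hn
  generalize j ζ * j x = z at *
  have hcn : ‖j c‖ ≤ (d * max 1 ‖j x‖ ^ 2) ^ 2 := by
    have : j c = (j y - z) ^ 2 := by linear_combination -e2
    rw [this, norm_pow]
    gcongr
  have hpos : 0 < (d * max 1 ‖j x‖ ^ 2) ^ 2 := by positivity
  have key : ∀ w : Om p, ‖w‖ < d⁻¹ ^ 2 → ‖j c * w‖ < max 1 ‖j x‖ ^ 4 := fun w hw => by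
    rw [norm_mul]
    calc ‖j c‖ * ‖w‖ ≤ (d * max 1 ‖j x‖ ^ 2) ^ 2 * ‖w‖ := by gcongr
      _ < (d * max 1 ‖j x‖ ^ 2) ^ 2 * d⁻¹ ^ 2 := by gcongr
      _ = _ := by field_simp
  have hr2 : d⁻¹ < d⁻¹ ^ 2 := by nlinarith
  refine enear_low (x := z) (y := j y) (m := max 1 ‖j x‖ ^ 4) ha hb (enear_two hp)
    (by simpa only [map_add, map_mul, map_pow, map_ofNat] using hd) (hxy.trans hzx.symm)
    ?_ ?_ ?_ (by rw [hzx])
  · rw [show (j y * z) ^ 2 - 2 * j α * (j y * z) - 4 * j β * (j y + z) + j α ^ 2 =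
      j c * (j x3 * j x4) by linear_combination e0]
    refine key _ ?_
    rw [norm_mul, sq]
    exact mul_lt_mul'' h3 h4 (norm_nonneg _) (norm_nonneg _)
  · rw [show 2 * (j y + z) * (j y * z) + 2 * j α * (j y + z) + 4 * j β =
      j c * (j x3 + j x4) by linear_combination e1]
    exact key _ ((IsUltrametricDist.norm_add_le_max _ _).trans_lt ((max_lt h3 h4).trans hr2))
  · rw [show (j y + z) ^ 2 - 4 * (j y * z) = j c * 1 by linear_combination e2]
    exact key _ (by rw [norm_one]; exact hr.trans hr2)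

end Pool.Agent.P.MP_8d2e9f_nt.AO
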