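import Pool.Agent.P.MP_8d2e9f_nt.AO.IfaceF
import Pool.Agent.P.MP_8d2e9f_nt.AO.TENEAR

/-! Step ENEAR2. -/

set_option autoImplicit false

namespace Pool.Agent.P.MP_8d2e9f_nt.AO

open Polynomial NumberField Pool.Agent.P.MP_8d2e9f_nt.G
open scoped IntermediateField Classical

theorem p_ENEAR2 (hETW : S_ETW) (hETX : S_ETX) :
    S_ENEAR2 := by
  intro α β e p _ j d ht hp ha hb hd hd0 hd1 P Q x y hP hQ hc
  have he : 0 < e ∧ e ≤ 3 := by rcases ht.2 with h | h | h <;> omega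
  have hr : 1 < d⁻¹ := (one_lt_inv₀ hd0).2 hd1
  obtain ⟨hc1, hc2⟩ := hc
  have hxy : ‖j y‖ = ‖j x‖ := by
    rw [map_pow, map_pow, norm_pow, norm_pow] at hc2
    exact (pow_left_inj₀ (norm_nonneg _) (norm_nonneg _) he.1.ne').1 hc2
  have hm1 : (1 : ℝ) ≤ max 1 ‖j x‖ := le_max_left _ _
  have hme : max 1 ‖j (x ^ e)‖ ≤ max 1 ‖j x‖ ^ e := by
    rw [map_pow, norm_pow]
    exact max_le (one_le_pow₀ hm1) (pow_le_pow_left₀ (norm_nonneg _) (le_max_right _ _) _)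
  obtain ⟨ζ, hζ, hn⟩ := enear_root j he.1 x y (c := d * max 1 ‖j x‖ ^ 2) (by positivity) (by
    rw [pow_one, pow_one, hc2] at hc1
    refine hc1.trans ?_
    have h1 : d ^ 3 ≤ d ^ e := pow_le_pow_of_le_one hd0.le hd1.le he.2
    calc d ^ 3 * max 1 ‖j (x ^ e)‖ * max 1 ‖j (x ^ e)‖
        ≤ d ^ e * max 1 ‖j x‖ ^ e * max 1 ‖j x‖ ^ e := by gcongr
      _ = _ := by ring)
  obtain ⟨u, hu⟩ := IsAlgClosed.exists_pow_nat_eq ζ (n := 2) two_pos
  have hue : u ^ (2 * e) = 1 := by rw [pow_mul, hu, hζ]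
  have hue' : (-1 : Qbar) ^ (2 * e) = 1 := by rw [pow_mul]; simp
  obtain ⟨hT, -, hN, -⟩ := hETX α β e ht
  have hP1 : xp (twp (RingHom.id _) u P) = some (ζ * x) := by
    rw [(hETW α β _ u (hT u hue).1).2.2.1, hP, ← hu]; rfl
  have hneg : twp (RingHom.id _) (-u) P = -twp (RingHom.id _) u P := by
    rw [← (hN _).2.1, ((hETW α β _ (-1) (hT _ hue').1).2.2.2 _ u (hT u hue).1).2 P]
    simp
  by_contra hcon
  push Not at hcon
  have h4 := hcon u hue
  have h3 := hcon (-u) (by rw [neg_pow, hue, hue', one_mul])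
  rw [hneg, sub_neg_eq_add] at h3
  simp only [Nr, not_forall, not_le] at h3 h4
  obtain ⟨x3, hx3, h3⟩ := h3
  obtain ⟨x4, hx4, h4⟩ := h4
  have : WeierstrassCurve.IsElliptic (ec α β) := ⟨by
    refine IsUnit.mk0 _ fun h0 => ht.1 ?_
    simp only [ec, WeierstrassCurve.Δ, WeierstrassCurve.b₂, WeierstrassCurve.b₄,
      WeierstrassCurve.b₆, WeierstrassCurve.b₈] at h0
    linear_combination (-1 / 16) * h0⟩
  obtain ⟨c, -, hc⟩ := EC.asm (ec α β) Q (twp (RingHom.id _) u P)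
  rw [EC.asm_eval, enear_sym hQ hP1, enear_sym hx3 hx4] at hc
  have e0 := congrArg j (congrFun hc 0)
  have e1 := congrArg j (congrFun hc 1)
  have e2 := congrArg j (congrFun hc 2)
  simp only [ec, WeierstrassCurve.b₂, WeierstrassCurve.b₄, WeierstrassCurve.b₆,
    WeierstrassCurve.b₈, Matrix.cons_val_zero, Matrix.cons_val_one, Matrix.cons_val,
    Pi.smul_apply, smul_eq_mul, map_sub, map_add, map_mul, map_pow, map_ofNat, map_one,
    map_zero] at e0 e1 e2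
  have hz : ‖j ζ‖ = 1 := by
    have : ‖j ζ‖ ^ e = 1 := by rw [← norm_pow, ← map_pow, hζ, map_one, norm_one]
    exact (pow_eq_one_iff_of_nonneg (norm_nonneg _) he.1.ne').1 this
  have hzx : ‖j ζ * j x‖ = ‖j x‖ := by rw [norm_mul, hz, one_mul]
  rw [map_sub, map_mul] at hn
  generalize j ζ * j x = z at *
  have hcn : ‖j c‖ ≤ (d * max 1 ‖j x‖ ^ 2) ^ 2 := by
    have : j c = (j y - z) ^ 2 := by linear_combination -e2
    rw [this, norm_pow]
    gcongr
  have hpos : 0 < (d * max 1 ‖j x‖ ^ 2) ^ 2 := by positivity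
  have key : ∀ w : Om p, ‖w‖ < d⁻¹ ^ 2 → ‖j c * w‖ < max 1 ‖j x‖ ^ 4 := fun w hw => by
    rw [norm_mul]
    calc ‖j c‖ * ‖w‖ ≤ (d * max 1 ‖j x‖ ^ 2) ^ 2 * ‖w‖ := by gcongr
      _ < (d * max 1 ‖j x‖ ^ 2) ^ 2 * d⁻¹ ^ 2 := by gcongr
      _ = _ := by field_simp
  have hr2 : d⁻¹ < d⁻¹ ^ 2 := by nlinarith
  refine enear_low (x := z) (y := j y) (m := max 1 ‖j x‖ ^ 4) ha hb (enear_two hp)
    (by simpa only [map_add, map_mul, map_pow, map_ofNat] using hd) (hxy.trans hzx.symm)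
    ?_ ?_ ?_ (by rw [hzx])
  · rw [show (j y * z) ^ 2 - 2 * j α * (j y * z) - 4 * j β * (j y + z) + j α ^ 2 =
      j c * (j x3 * j x4) by linear_combination e0]
    refine key _ ?_
    rw [norm_mul, sq]
    exact mul_lt_mul'' h3 h4 (norm_nonneg _) (norm_nonneg _)
  · rw [show 2 * (j y + z) * (j y * z) + 2 * j α * (j y + z) + 4 * j β =
      j c * (j x3 + j x4) by linear_combination e1]
    exact key _ ((IsUltrametricDist.norm_add_le_max _ _).trans_lt ((max_lt h3 h4).trans hr2))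
  · rw [show (j y + z) ^ 2 - 4 * (j y * z) = j c * 1 by linear_combination e2]
    exact key _ (by rw [norm_one]; exact hr.trans hr2)

end Pool.Agent.P.MP_8d2e9f_nt.AO
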