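import Pool.Agent.P.MP_8d2e9f_nt.AO.IfaceF
import Pool.Agent.P.MP_8d2e9f_nt.AO.TESCH

/-! Step ESCH0. -/

set_option autoImplicit false

namespace Pool.Agent.P.MP_8d2e9f_nt.AO

open Polynomial NumberField Pool.Agent.P.MP_8d2e9f_nt.G
open scoped IntermediateField Classical

lemma esch0_f_one (hSCHW : S_SCHW) (hELOC : S_ELOC) (hEKILL : S_EKILL) (hEG : S_EG) (hESZ : S_ESZ)
    {α β : Qbar} {p : ℕ} [Fact p.Prime] {j : Qbar →+* Om p} (hE : Ei j α β)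
    {T₀ : (ec α β).Point} (k0 : Ker j T₀) (h0 : p • T₀ = 0) (n0 : T₀ ≠ 0) :
    (p : ℝ)⁻¹ ≤ ‖j (tp T₀)‖ ^ (p - 1) := by
  have hp : p.Prime := Fact.out
  have p1 : (1 : ℝ) < p := by exact_mod_cast hp.one_lt
  obtain ⟨m, hm⟩ := hp.odd_of_ne_two (by have := hE.2.2.2; omega)
  obtain ⟨g, hR, hg⟩ := hEG α β p hE.1 hp.pos
  obtain ⟨-, e2, e3⟩ := hELOC α β p j hE
  have ho : addOrderOf T₀ = p := addOrderOf_eq_prime h0 n0
  have nk : ∀ k, 0 < k → k ≤ 2 * m → k • T₀ ≠ 0 := fun k a b =>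
    nsmul_ne_zero_of_lt_addOrderOf a.ne' (by omega)
  obtain ⟨x₀, hx₀⟩ := xp_ex n0
  have r1 := k0 x₀ hx₀
  obtain ⟨a1, -, a3⟩ := e2 T₀ x₀ k0 hx₀
  have ρ0 : 0 < ‖j (tp T₀)‖ ^ 2 := pow_pos (norm_pos_iff.2 ((map_ne_zero j).2 a3)) 2
  have hN : ∀ k : ℕ, Nr j ‖j x₀‖ (k • T₀) := fun k => ((e3 _ T₀ r1 (esch_d_nr hx₀)).2.2 k).1
  obtain ⟨f, hf⟩ : ∃ f : ℕ → Qbar, ∀ k ∈ Finset.Icc 1 m, xp (k • T₀) = some (f k)⁻¹ :=
    ⟨fun k => ((xp (k • T₀)).getD 0)⁻¹, fun k hk => by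
      rw [inv_inv]
      have := Finset.mem_Icc.1 hk
      exact esch_d_some (nk k (by omega) (by omega))⟩
  have inj : Set.InjOn f (Finset.Icc 1 m : Finset ℕ) := fun k hk l hl e => by
    have b1 := Finset.mem_Icc.1 (Finset.mem_coe.1 hk)
    have b2 := Finset.mem_Icc.1 (Finset.mem_coe.1 hl)
    rcases xp_eq ((hf k hk).trans (e ▸ (hf l hl).symm)) with h | h
    · exact nsmul_injOn_Iio_addOrderOf (Set.mem_Iio.2 (by omega)) (Set.mem_Iio.2 (by omega)) h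
    · exact absurd (by rw [add_nsmul, h, neg_add_cancel]) (nk (k + l) (by omega) (by omega))
  have hS := hSCHW p j g ((Finset.Icc 1 m).image f) hR (esch_d_bd hELOC hE hg)
    fun z hz => by
      obtain ⟨k, hk, rfl⟩ := Finset.mem_image.1 hz
      have := esch_d_zero hESZ hE hg (fun y hy => r1.trans_le (hN k y hy)) (hf k hk)
        (by rw [smul_comm, h0, nsmul_zero])
      rwa [inv_inv] at this
  obtain ⟨s, c0, c1⟩ := ((esch_d_small j (lt_min ρ0 (inv_pos.2 (one_pos.trans p1)))).sdiff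
    (Filter.eventually_cofinite.1 (hS.and (hg.and (Filter.eventually_cofinite_ne 0))))).nonempty
  obtain ⟨c2, c3, c4⟩ := not_not.1 c1
  obtain ⟨c5, c6⟩ := lt_min_iff.1 (Set.mem_ofPred.1 c0)
  have c7 : ‖j s‖ < 1 := c6.trans (inv_lt_one_of_one_lt₀ p1)
  have key := c2 c7
  rw [esch_d_val hELOC hEKILL hE c3 c4 c6] at key
  have d1 : ∏ z ∈ (Finset.Icc 1 m).image f, ‖j (s - z)‖ ≤ (‖j (tp T₀)‖ ^ 2) ^ m := by
    refine (Finset.prod_le_prod (g := fun _ => ‖j (tp T₀)‖ ^ 2) (fun _ _ => norm_nonneg _)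
      fun z hz => ?_).trans_eq ?_
    · obtain ⟨k, hk, rfl⟩ := Finset.mem_image.1 hz
      refine (esch_d_sub j _ _).trans (max_le c5.le ?_)
      have := hN k _ (hf k hk)
      rw [map_inv₀, norm_inv] at this
      rw [eq_inv_of_mul_eq_one_left a1]
      rcases (norm_nonneg (j (f k))).eq_or_lt with h | h
      · rw [← h]
        positivity
      · exact (le_inv_comm₀ (one_pos.trans r1) h).1 this
    · rw [Finset.prod_const, Finset.card_image_of_injOn inj, Nat.card_Icc, add_tsub_cancel_right]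
  rw [show p - 1 = 2 * m by omega, pow_mul]
  exact key.trans d1

theorem p_ESCH0 (hSCHW : S_SCHW) (hELOC : S_ELOC) (hEKILL : S_EKILL) (hEG : S_EG) (hESZ : S_ESZ) :
    S_ESCH0 := by
  intro α β p _ j hE T kT fT nT
  have hex : ∃ a : ℕ, p ^ a • T = 0 := (hEKILL α β p j hE).2.1 T kT fT
  obtain ⟨-, e2, e3⟩ := hELOC α β p j hE
  have a0 : Nat.find hex ≠ 0 := fun h => nT (by simpa [h] using Nat.find_spec hex)
  obtain ⟨b, hb⟩ := Nat.exists_eq_succ_of_ne_zero a0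
  have n0 : p ^ b • T ≠ 0 := Nat.find_min hex (by omega)
  have h0 : p • p ^ b • T = 0 := by
    have := Nat.find_spec hex
    rw [hb, Nat.succ_eq_add_one, pow_succ', mul_smul] at this
    exact this
  obtain ⟨x, hx⟩ := xp_ex nT
  have r1 := kT x hx
  have hN : Nr j ‖j x‖ (p ^ b • T) := ((e3 _ T r1 (esch_d_nr hx)).2.2 _).1
  have k0 : Ker j (p ^ b • T) := fun y hy => r1.trans_le (hN y hy)
  have b1 := (e3 _ _ r1 hN).1
  have a1 := (e2 T x kT hx).1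
  have le : ‖j (tp (p ^ b • T))‖ ≤ ‖j (tp T)‖ := by
    refine (pow_le_pow_iff_left₀ (norm_nonneg _) (norm_nonneg _) two_ne_zero).1 ?_
    refine le_of_mul_le_mul_left ?_ (one_pos.trans r1)
    rw [mul_comm _ (‖j (tp T)‖ ^ 2), a1]
    exact b1
  exact (esch0_f_one hSCHW hELOC hEKILL hEG hESZ hE k0 h0 n0).trans
    (pow_le_pow_left₀ (norm_nonneg _) le _)

end Pool.Agent.P.MP_8d2e9f_nt.AO
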