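import Pool.Agent.P.MP_8d2e9f_nt.AO.IfaceF

/-! Step EXPA. -/

set_option autoImplicit false

namespace Pool.Agent.P.MP_8d2e9f_nt.AO

open Polynomial NumberField Pool.Agent.P.MP_8d2e9f_nt.G
open scoped IntermediateField Classical

lemma expa_f_lt {p : ℕ} [Fact p.Prime] (f : ℕ → Om p) {r : ℝ} (hr : 0 < r) (t : Finset ℕ)
    (h : ∀ i ∈ t, ‖f i‖ < r) : ‖∑ i ∈ t, f i‖ < r := by
  induction t using Finset.induction_on with
  | empty => simpa using hr
  | insert a t ha ih =>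
    rw [Finset.sum_insert ha]
    exact (IsUltrametricDist.norm_add_le_max _ _).trans_lt
      (max_lt (h a (Finset.mem_insert_self _ _)) (ih fun i hi => h i (Finset.mem_insert_of_mem hi)))

lemma expa_f_dom {p : ℕ} [Fact p.Prime] (f : ℕ → Om p) (s : Finset ℕ) (h0 : ∑ i ∈ s, f i ≠ 0)
    (hd : ∀ i ∈ s, ∀ k ∈ s, f i ≠ 0 → f k ≠ 0 → ‖f i‖ = ‖f k‖ → i = k) :
    ∃ k ∈ s, f k ≠ 0 ∧ ‖∑ i ∈ s, f i - f k‖ < ‖∑ i ∈ s, f i‖ := by
  obtain ⟨k, hk, hm⟩ := s.exists_max_image (fun i => ‖f i‖) (Finset.nonempty_of_sum_ne_zero h0)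
  have hk0 : f k ≠ 0 := fun e => h0 (Finset.sum_eq_zero fun i hi =>
    norm_le_zero_iff.1 (by simpa [e] using hm i hi))
  have hpos : 0 < ‖f k‖ := norm_pos_iff.2 hk0
  have hlt : ‖∑ i ∈ s.erase k, f i‖ < ‖f k‖ := expa_f_lt f hpos _ fun i hi => by
    obtain ⟨hik, his⟩ := Finset.mem_erase.1 hi
    by_cases e : f i = 0
    · simpa [e] using hk0
    · exact lt_of_le_of_ne (hm i his) fun e' => hik (hd i his k hk e hk0 e')
  refine ⟨k, hk, hk0, ?_⟩
  rw [← Finset.add_sum_erase s f hk, add_sub_cancel_left,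
    IsUltrametricDist.norm_add_eq_max_of_norm_ne_norm hlt.ne']
  exact hlt.trans_le (le_max_left _ _)

lemma expa_f_rep (l : Lv) {w : Qbar} (hw : w ∈ l.M⟮l.ζ⟯) :
    ∃ g : l.M[X], g.natDegree < l.p - 1 ∧ w = aeval (1 - l.ζ) g := by
  have hp := l.hp.out
  have hroot : aeval l.ζ (cyclotomic l.p l.M) = 0 := by
    rw [aeval_def, eval₂_eq_eval_map, map_cyclotomic]
    exact l.prim.isRoot_cyclotomic hp.pos
  have hmon : (cyclotomic l.p l.M).Monic := cyclotomic.monic _ _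
  have halg : IsAlgebraic l.M l.ζ := ⟨_, hmon.ne_zero, hroot⟩
  have hw' : w ∈ Algebra.adjoin l.M {l.ζ} := by
    rw [← IntermediateField.adjoin_simple_toSubalgebra_of_isAlgebraic halg]
    exact hw
  rw [Algebra.adjoin_singleton_eq_range_aeval] at hw'
  obtain ⟨g, rfl⟩ := hw'
  have hdeg : (cyclotomic l.p l.M).natDegree = l.p - 1 := by
    rw [natDegree_cyclotomic, Nat.totient_prime hp]
  have hne : cyclotomic l.p l.M ≠ 1 := fun e => by
    rw [e, natDegree_one] at hdeg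
    have := hp.two_le
    omega
  refine ⟨(g %ₘ cyclotomic l.p l.M).comp (1 - X), ?_, ?_⟩
  · have h1 : (1 - X : l.M[X]).natDegree ≤ 1 :=
      (natDegree_sub_le _ _).trans (by simp)
    have h2 := natDegree_modByMonic_lt g hmon hne
    rw [hdeg] at h2
    exact (natDegree_comp_le.trans ((Nat.mul_le_mul_left _ h1).trans (mul_one _).le)).trans_lt h2
  · rw [aeval_comp, map_sub, map_one, aeval_X, sub_sub_cancel,
      aeval_modByMonic_eq_self_of_root hroot]
    rfl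

lemma expa_f_val (l : Lv) (c : l.M) (hc : c ≠ 0) :
    ‖l.j (c : Qbar)‖ = (l.p : ℝ) ^ (-(l.φ c).valuation) := by
  rw [l.loc c, norm_algebraMap', Padic.norm_eq_zpow_neg_valuation ((map_ne_zero l.φ).2 hc)]

theorem p_EXPA (hPIN : S_PIN) :
    S_EXPA := by
  intro l w hw hw0
  have hp := l.hp.out
  obtain ⟨g, hg, rfl⟩ := expa_f_rep l hw
  obtain ⟨hπ, -⟩ := hPIN l.p l.j l.ζ l.prim
  have hp1 : (1 : ℝ) < l.p := by exact_mod_cast hp.one_lt
  have hp0 : (0 : ℝ) < l.p := zero_lt_one.trans hp1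
  set f : ℕ → Om l.p := fun i => l.j ((g.coeff i : Qbar) * (1 - l.ζ) ^ i) with hf
  have hs : l.j (aeval (1 - l.ζ) g) = ∑ i ∈ Finset.range (l.p - 1), f i := by
    rw [aeval_eq_sum_range' hg, map_sum]
    rfl
  have hc : ∀ i, f i ≠ 0 → g.coeff i ≠ 0 := fun i hi e => hi (by simp [hf, e])
  have hn : ∀ i, f i ≠ 0 → ‖f i‖ ^ (l.p - 1) =
      (l.p : ℝ) ^ (-((l.φ (g.coeff i)).valuation * ((l.p - 1 : ℕ) : ℤ) + i)) := fun i hi => by
    rw [hf]
    simp only []
    rw [map_mul, map_pow, norm_mul, norm_pow, mul_pow, expa_f_val l _ (hc i hi), ← pow_mul,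
      mul_comm i, pow_mul, hπ, neg_add, zpow_add₀ hp0.ne', ← neg_mul, zpow_mul, zpow_natCast,
      zpow_neg _ (i : ℤ), zpow_natCast, inv_pow]
  obtain ⟨k, hk, hk0, hlt⟩ := expa_f_dom f (Finset.range (l.p - 1))
    (hs ▸ (map_ne_zero l.j).2 hw0) fun i hi k hk hi0 hk0 e => by
      have e1 := hn i hi0
      rw [e, hn k hk0] at e1
      have e2 := neg_injective (zpow_right_injective₀ hp0 hp1.ne' e1)
      have hi' := Finset.mem_range.1 hi
      have hk' := Finset.mem_range.1 hk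
      have e3 := congrArg (fun z : ℤ => z % ((l.p - 1 : ℕ) : ℤ)) e2
      simp only [Int.mul_add_emod_self_right] at e3
      rw [Int.emod_eq_of_lt (by positivity) (by exact_mod_cast hk'),
        Int.emod_eq_of_lt (by positivity) (by exact_mod_cast hi')] at e3
      exact_mod_cast e3.symm
  refine ⟨g.coeff k, (l.φ (g.coeff k)).valuation, k, (g.coeff k).2, expa_f_val l _ (hc k hk0),
    Finset.mem_range.1 hk, ?_⟩
  rw [map_sub, hs]
  exact hlt

end Pool.Agent.P.MP_8d2e9f_nt.AO
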