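import Pool.Agent.P.MP_8d2e9f_nt.AO.IfaceF

/-! Step FLAT. -/

set_option autoImplicit false

namespace Pool.Agent.P.MP_8d2e9f_nt.AO

open Polynomial NumberField Pool.Agent.P.MP_8d2e9f_nt.G
open scoped IntermediateField Classical

theorem p_FLAT (hWH : S_WH) (hPRN : S_PRN) (hCANH : S_CANH) (hCOMM : S_COMM) (hLHT : S_LHT) (hEHZ : S_EHZ) (hRIGE : S_RIGE) :
    S_FLAT := by
  intro L d e a b g₁ g₂ α β hL hN hLat K hK
  have he : 0 < e := by
    rcases hLat.typ.2 with h | h | h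
    · omega
    · omega
    · omega
  obtain ⟨K₂, hK₂, hle, hS⟩ := ex_field hK (Set.toFinite {α, β})
  have hα : α ∈ K₂ := hS _ (Or.inl rfl)
  have hβ : β ∈ K₂ := hS _ (Or.inr rfl)
  obtain ⟨K₁, hK₁, hD⟩ := hL K₂ {α, β, 4 * α ^ 3 + 27 * β ^ 2} hK₂ (Set.toFinite _)
  obtain ⟨⟨H, hH⟩, hc⟩ := hCANH d (im a b d) hN.1 (hPRN.1 Qbar d a b hN).1.rm
  obtain ⟨H₂, hH₂⟩ := (hCANH 4 (dbl α β) (by norm_num)
    (hPRN.1 Qbar 4 _ _ (hCOMM α β hLat.typ.1).1).1.rm).1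
  obtain ⟨C, hC⟩ := hH.2
  refine (((hWH.2.2.2.1 K₁ C hK₁).image some).insert none).subset fun y hy => ?_
  cases y with
  | none => exact Or.inl rfl
  | some z =>
    have h0 : H (some z) = 0 := ((hc H hH).2.1 _).2 hy.2
    obtain ⟨x, rfl⟩ := IsAlgClosed.exists_pow_nat_eq z he
    obtain ⟨P, hP⟩ := xp_surj hLat.typ.1 x
    have h2 : H₂ (xp P) = 0 := by
      have := hLHT d e a b g₁ g₂ α β H H₂ hN hLat hH hH₂ x
      rw [h0] at this
      rw [hP]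
      exact (mul_eq_zero.1 this.symm).resolve_left (Nat.cast_ne_zero.2 he.ne')
    have hT := (hEHZ K₂ α β H₂ hK₂ hα hβ hLat.typ.1 hH₂).1 P h2
    refine Or.inr ⟨x ^ e, ⟨hD _ (sup_le_sup_left hle L (some_mem_pts.1 hy.1))
      (hRIGE K₂ α β e P x hα hβ hLat.typ hT hP), ?_⟩, rfl⟩
    have := hC (some (x ^ e))
    rw [h0, zero_sub, abs_neg] at this
    exact (le_abs_self _).trans this

end Pool.Agent.P.MP_8d2e9f_nt.AO
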