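import Pool.Agent.P.MP_8d2e9f_nt.AO.IfaceF
import Pool.Agent.P.MP_8d2e9f_nt.G.All

/-! Step FPOL. -/

set_option autoImplicit false

namespace Pool.Agent.P.MP_8d2e9f_nt.AO

open Polynomial NumberField Pool.Agent.P.MP_8d2e9f_nt.G
open scoped IntermediateField Classical

theorem p_FPOL (hUSB : S_USB) (hPRN : S_PRN) (hCANH : S_CANH) (hCOMPO : S_COMPO) (hCYF : S_CYF) :
    S_FPOL := by
  intro K L d a b hK hA hD hN hb K' hK'
  obtain ⟨p1, p2, p3, -⟩ := hPRN.1 _ d a b hN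
  have : Fd K := hK
  have : Fd K' := hK'
  obtain ⟨L', h1, h2⟩ := hCOMPO.2.1 _ _ (hCOMPO.1 K L K' hA)
  have hb' := eq_C_of_natDegree_eq_zero hb
  have b0 : b.coeff 0 ≠ 0 := fun e => p3 (by rw [hb', e, C_0])
  have hd : (C (b.coeff 0)⁻¹ * a).natDegree = d := by
    rw [natDegree_C_mul (inv_ne_zero b0), hN.2.1]
  obtain ⟨m1, m2⟩ := main_poly (C (b.coeff 0)⁻¹ * a)
  have hm : ratMap (algebraMap Qbar[X] (RatFunc Qbar) (C (b.coeff 0)⁻¹ * a)) = im a b d := by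
    funext x
    rcases x with _ | x
    · rw [p2, ratMap, RatFunc.num_algebraMap, RatFunc.denom_algebraMap, hd, natDegree_one,
        if_pos (by have := hN.1; omega)]
    · have e : b.eval x = b.coeff 0 := by rw [hb', eval_C, coeff_C_zero]
      rw [m2, im_some p1.1 p1.2.1, e, if_neg b0, eval_mul, eval_C, div_eq_inv_mul]
  obtain ⟨H, hH⟩ := (hCANH d _ hN.1 p1.rm).1
  obtain ⟨-, h4⟩ := hUSB _ L' (IntermediateField.finiteDimensional_sup _ _) h1
    (h2.symm ▸ hCYF L K' hD hK') _ (hd.symm ▸ hN.1) H (by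
      rw [IsCanonicalHeight, m1, hd, hm]
      exact hH)
  rw [h2, PrePer, hm] at h4
  exact h4

end Pool.Agent.P.MP_8d2e9f_nt.AO
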