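import Pool.Agent.P.MP_8d2e9f_nt.AO.IfaceF

/-! Step LEV. -/

set_option autoImplicit false

namespace Pool.Agent.P.MP_8d2e9f_nt.AO

open Polynomial NumberField Pool.Agent.P.MP_8d2e9f_nt.G
open scoped IntermediateField Classical

lemma lev_ford {p : ℕ} [Fact p.Prime] (x : ℚ_[p]) (h1 : ‖x‖ = 1) (h2 : ‖x - 1‖ = 1)
    (h7 : x ^ 7 = 1) : ∃ h : ℕ, orderOf (h : ZMod p) = 7 := by
  let o : ℤ_[p] := ⟨x, h1.le⟩
  have ho : o ^ 7 = 1 := Subtype.ext (by simpa [o] using h7)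
  have : Fact (Nat.Prime 7) := ⟨by norm_num⟩
  refine ⟨(PadicInt.toZMod o).val, ?_⟩
  rw [ZMod.natCast_zmod_val]
  refine orderOf_eq_prime (by rw [← map_pow, ho, map_one]) fun e => ?_
  have hk : o - 1 ∈ RingHom.ker (PadicInt.toZMod (p := p)) := by
    rw [RingHom.mem_ker, map_sub, e, map_one, sub_self]
  rw [PadicInt.ker_toZMod, IsLocalRing.mem_maximalIdeal, PadicInt.mem_nonunits] at hk
  have : ‖o - 1‖ = 1 := by
    rw [PadicInt.norm_def]
    simpa [o] using h2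
  exact absurd hk (by rw [this]; exact lt_irrefl _)

theorem p_LEV (hPLACE : S_PLACE) :
    S_LEV := by
  intro S hS
  obtain ⟨ω, hω⟩ := HasEnoughRootsOfUnity.exists_primitiveRoot Qbar 7
  obtain ⟨M, hM, -, hm⟩ := ex_field (K := ⊥) inferInstance (hS.insert ω)
  have hf : ((Subtype.val : M → Qbar) ⁻¹' insert ω (insert (ω - 1) S)).Finite :=
    ((hS.insert _).insert _).preimage Subtype.val_injective.injOn
  obtain ⟨p, hp, φ, j, -, hl, hs⟩ := hPLACE M 0 hf.toFinset hM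
  have : NeZero p := ⟨hp.out.ne_zero⟩
  obtain ⟨ζ, hζ⟩ := HasEnoughRootsOfUnity.exists_primitiveRoot Qbar p
  let w : M := ⟨ω, hm ω (Set.mem_insert _ _)⟩
  have hw0 : w ≠ 0 := fun e => hω.ne_zero (by norm_num) (congrArg Subtype.val e)
  have hw1 : w - 1 ≠ 0 := fun e =>
    hω.ne_one (by norm_num) (congrArg Subtype.val (sub_eq_zero.1 e))
  have hw7 : w ^ 7 = 1 := Subtype.ext hω.pow_eq_one
  obtain ⟨h, hh⟩ := lev_ford (φ w) (hs w (hf.mem_toFinset.2 (Set.mem_insert _ _)) hw0)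
    (by
      have := hs (w - 1) (hf.mem_toFinset.2 (Set.mem_insert_of_mem _ (Set.mem_insert _ _))) hw1
      rwa [map_sub, map_one] at this) (by rw [← map_pow, hw7, map_one])
  refine ⟨⟨p, M, φ, j, ζ, h, hl, hζ, hh⟩, fun x hx => ⟨hm x (Set.mem_insert_of_mem _ hx), fun h0 => ?_⟩⟩
  have e := hl ⟨x, hm x (Set.mem_insert_of_mem _ hx)⟩
  have := hs ⟨x, hm x (Set.mem_insert_of_mem _ hx)⟩
    (hf.mem_toFinset.2 (Set.mem_insert_of_mem _ (Set.mem_insert_of_mem _ hx)))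
    fun e => h0 (congrArg Subtype.val e)
  change ‖j x‖ = 1
  rw [show j x = _ from e, norm_algebraMap', this]

end Pool.Agent.P.MP_8d2e9f_nt.AO
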