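import Pool.Agent.P.MP_8d2e9f_nt.AO.IfaceF
import Pool.Agent.P.MP_8d2e9f_nt.AO.TABG

/-! Step LOCN. -/

set_option autoImplicit false

namespace Pool.Agent.P.MP_8d2e9f_nt.AO

open Polynomial NumberField Pool.Agent.P.MP_8d2e9f_nt.G
open scoped IntermediateField Classical

theorem p_LOCN (hABG : S_ABG) (hACT : S_ACT) (hGAPN : S_GAPN) :
    S_LOCN := by
  intro l s₀ s δ i0 h0 i1 hδ he z hz hf
  have h3 := l.three
  have hA : ∀ x ∈ l.M⟮l.ζ⟯, Ab l.M x :=
    ((hABG l.M).1 _ ((hABG l.M).2.2.2.2.1 _ (l.prim.isOfFinOrder (by omega)))).2.1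
  refine ((hACT l.M l.p l.j 1 δ s z (hA z hz) ⟨i1, fun x hx h1 => ?_⟩).1 z
    (IntermediateField.mem_adjoin_simple_self _ z)).2
  have hx' : x ∈ l.M⟮l.ζ⟯ := IntermediateField.adjoin_simple_le_iff.2 hz hx
  have e : s₀ x = x := by
    clear h1 hx'
    induction hx using IntermediateField.adjoin_induction with
    | mem y hy => rwa [hy]
    | algebraMap c => exact s₀.commutes c
    | add a b _ _ ha hb => rw [map_add, ha, hb]
    | inv a _ ha => rw [map_inv₀, ha]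
    | mul a b _ _ ha hb => rw [map_mul, ha, hb]
  have k := (hGAPN l _ (sub_mem (abg_stab hA s hx') hx')).1 s₀ i0 h0
    (by rw [map_sub, hA x hx' s₀ s, e]) ((hGAPN l x hx').2 s i1 h1)
  rw [pow_one, ← map_sub]
  exact le_of_pow_le_pow_left₀ (by omega) hδ.le (he ▸ k)

end Pool.Agent.P.MP_8d2e9f_nt.AO
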