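import Pool.Agent.P.MP_8d2e9f_nt.AO.IfaceF
import Pool.Agent.P.MP_8d2e9f_nt.G.All

/-! Step MAINF. -/

set_option autoImplicit false

namespace Pool.Agent.P.MP_8d2e9f_nt.AO

open Polynomial NumberField Pool.Agent.P.MP_8d2e9f_nt.G
open scoped IntermediateField Classical

theorem p_MAINF (hPRN : S_PRN) (hPCOMP : S_PCOMP) (hCONJ : S_CONJ) (hCLASS : S_CLASS) (hCOMPO : S_COMPO) (hPER2 : S_PER2) (hEXM1 : S_EXM1) (hFPOL : S_FPOL) (hFLAT : S_FLAT) (hTRF : S_TRF) :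
    S_MAINF := by
  intro K L hK hA hD K' d φ hK' hd hφ
  obtain ⟨A, B, h1, rfl⟩ := rm_pr hφ
  obtain ⟨k1, k2, -⟩ := hPCOMP _ _ _ _ _ _ _ (by omega) h1 h1
  obtain ⟨c₁, c₂, hne, e1, e2⟩ := hPER2 _ _ _ hd h1
  rw [← k2] at e1 e2
  have e : im (homg A B d A) (homg A B d B) (d * d) = (im A B d)^[2] := funext fun x => k2 x
  have hd2 : 2 ≤ d * d := hd.trans (Nat.le_mul_self _)
  have hKK : Fd (K ⊔ K') := IntermediateField.finiteDimensional_sup _ _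
  have sub : pts (L ⊔ K') ∩ PP (im A B d) ⊆
      pts (L ⊔ K') ∩ PP (im (homg A B d A) (homg A B d B) (d * d)) := fun x hx => by
    refine ⟨hx.1, Set.Finite.subset hx.2 ?_⟩
    rintro _ ⟨n, rfl⟩
    exact ⟨2 * n, by beta_reduce; rw [e, Function.iterate_mul]⟩
  refine Set.Finite.subset ?_ sub
  by_cases hn : ExcM (d * d) (im (homg A B d A) (homg A B d B) (d * d))
  · obtain ⟨a, b, P, hP, e3, hE⟩ := hn
    rw [e3] at e1 ⊢
    obtain ⟨a', b', m, hN, hS, -, -, -, hE'⟩ := hCONJ _ 1 a b c₁ hd2 hP one_pos e1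
    rw [pow_one] at hN hS
    obtain ⟨P', hP', -⟩ := hE' P hE
    obtain ⟨r, a₂, b₂, -, hN', hS', h⟩ := hCLASS _ a' b' P' hN hP'
    refine (hTRF L _).1 _ hS ((hTRF L _).2 r ((hTRF L _).1 _ hS' ?_)) K' hK'
    rcases h with h | ⟨e, α, β, g₁, g₂, h⟩
    · exact hFPOL K L _ a₂ b₂ hK hA hD hN' h
    · exact hFLAT L _ e a₂ b₂ g₁ g₂ α β hD hN' h
  have hL := hCOMPO.1 K L K' hA
  refine ((Set.not_infinite.1 fun h => hn (hEXM1 _ _ _ _ _ c₁ hKK hL hd2 k1 e1 h)).union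
    (Set.not_infinite.1 fun h => hn (hEXM1 _ _ _ _ _ c₂ hKK hL hd2 k1 e2 h))).subset fun x hx => ?_
  by_contra hc
  simp only [Set.mem_union, Set.mem_ofPred_eq, not_or, not_and, not_forall, not_not] at hc
  obtain ⟨n, hn⟩ := hc.1 hx
  obtain ⟨m, hm⟩ := hc.2 hx
  refine hne ?_
  rw [← Function.iterate_fixed e1 m, ← Function.iterate_fixed e2 n, ← hm, ← hn,
    ← Function.iterate_add_apply, ← Function.iterate_add_apply, add_comm]

end Pool.Agent.P.MP_8d2e9f_nt.AO
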