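import Pool.Agent.P.MP_8d2e9f_nt.AO.IfaceF

/-! Step NOTN. -/

set_option autoImplicit false

namespace Pool.Agent.P.MP_8d2e9f_nt.AO

open Polynomial NumberField Pool.Agent.P.MP_8d2e9f_nt.G
open scoped IntermediateField Classical

lemma notn_f_ht (hWH : S_WH) (hWHX : S_WHX) :
    ∃ C : ℝ, ∀ ω : Qbar, IsOfFinOrder ω → wh (1 - ω) ≤ C := by
  have hd : (C (-1 : Qbar) * X + C 1).natDegree = 1 := natDegree_linear (by simp)
  obtain ⟨c, hc⟩ := hWH.2.1 (C (-1 : Qbar) * X + C 1) (by rw [hd]; exact one_pos)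
  refine ⟨c, fun ω hω => ?_⟩
  have h := hc ω
  rw [hWHX.2.2.2.2.2.2 ω hω, mul_zero, sub_zero] at h
  have e : (C (-1 : Qbar) * X + C 1).eval ω = 1 - ω := by
    simp only [eval_add, eval_mul, eval_C, eval_X]
    ring
  rw [e] at h
  exact (le_abs_self _).trans h

lemma notn_f_prod (hWHX : S_WHX) (f : ℕ → Qbar) (c : ℝ) (hf : ∀ k, wh (f k) ≤ c) (n : ℕ) :
    wh (∏ k ∈ Finset.range n, f k) ≤ n * c := by
  induction n with
  | zero =>
    rw [Finset.prod_range_zero, hWHX.2.2.2.2.2.2 1 IsOfFinOrder.one]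
    simp
  | succ n ih =>
    rw [Finset.prod_range_succ]
    have h := hWHX.1 (∏ k ∈ Finset.range n, f k) (f n)
    have h2 := hf n
    push_cast
    linarith

lemma notn_f_norm (hPIN : S_PIN) (l : Lv) : ‖l.j l.u‖ < 1 := by
  have h : ∀ k, ‖l.j (1 - l.ζ ^ l.h ^ k)‖ < 1 := fun k =>
    (hPIN l.p l.j _ (l.prim_k k)).2.2.1
  rw [Lv.u, map_prod, norm_prod, Finset.prod_range_succ]
  have h1 : ∏ k ∈ Finset.range 6, ‖l.j (1 - l.ζ ^ l.h ^ k)‖ ≤ 1 :=
    Finset.prod_le_one (fun _ _ => norm_nonneg _) fun k _ => (h k).le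
  exact (mul_le_of_le_one_left (norm_nonneg _) h1).trans_lt (h 6)

theorem p_NOTN (hWH : S_WH) (hWHX : S_WHX) (hPIN : S_PIN) :
    S_NOTN := by
  intro l hl hN
  obtain ⟨c, hc⟩ := notn_f_ht hWH hWHX
  have hfin := hN ((7 : ℕ) * c)
  have hev := (Filter.eventually_all_finite hfin).2 fun x _ => hl.2 x
  obtain ⟨n, hn⟩ := hev.exists
  have hu : wh (l n).u ≤ (7 : ℕ) * c :=
    notn_f_prod hWHX _ c
      (fun k => hc _ (((l n).prim_k k).isOfFinOrder (l n).hp.out.ne_zero)) 7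
  have hm : (l n).u ∈ (LL l).toSubfield :=
    IntermediateField.subset_adjoin ℚ (Set.range fun n => (l n).u) ⟨n, rfl⟩
  have h1 := (hn (l n).u ⟨hm, hu⟩).2 (l n).u_ne
  exact (notn_f_norm hPIN (l n)).ne h1

end Pool.Agent.P.MP_8d2e9f_nt.AO
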