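import Pool.Agent.P.MP_8d2e9f_nt.AO.IfaceF

/-! Step PIN. -/

set_option autoImplicit false

namespace Pool.Agent.P.MP_8d2e9f_nt.AO

open Polynomial NumberField Pool.Agent.P.MP_8d2e9f_nt.G
open scoped IntermediateField Classical

section

variable {p : ℕ} [Fact p.Prime]

lemma pin_f_le {z : Om p} (hz : ‖z‖ ≤ 1) (g : ℕ) : ‖1 - z ^ g‖ ≤ ‖1 - z‖ := by
  induction g with
  | zero => simp
  | succ g ih =>
    rw [show 1 - z ^ (g + 1) = (1 - z) + z * (1 - z ^ g) by ring]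
    refine (IsUltrametricDist.norm_add_le_max _ _).trans (max_le le_rfl ?_)
    rw [norm_mul]
    exact (mul_le_of_le_one_left (norm_nonneg _) hz).trans ih

lemma pin_f_sum {z : Om p} (hz : ‖z‖ ≤ 1) (g : ℕ) :
    ‖∑ i ∈ Finset.range g, z ^ i - g‖ ≤ ‖1 - z‖ := by
  induction g with
  | zero => simp
  | succ g ih =>
    rw [Finset.sum_range_succ, show ∑ i ∈ Finset.range g, z ^ i + z ^ g - ((g + 1 : ℕ) : Om p) =
      (∑ i ∈ Finset.range g, z ^ i - g) + -(1 - z ^ g) by push_cast; ring]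
    refine (IsUltrametricDist.norm_add_le_max _ _).trans (max_le ih ?_)
    rw [norm_neg]
    exact pin_f_le hz g

lemma pin_f_pow {a b : Om p} (ha : ‖a‖ ≤ 1) (hb : ‖b‖ ≤ 1) (k : ℕ) :
    ‖a ^ k - b ^ k‖ ≤ ‖a - b‖ := by
  induction k with
  | zero => simp
  | succ k ih =>
    rw [show a ^ (k + 1) - b ^ (k + 1) = a * (a ^ k - b ^ k) + b ^ k * (a - b) by ring]
    refine (IsUltrametricDist.norm_add_le_max _ _).trans (max_le ?_ ?_)
    · rw [norm_mul]
      exact (mul_le_of_le_one_left (norm_nonneg _) ha).trans ih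
    · rw [norm_mul, norm_pow]
      exact mul_le_of_le_one_left (norm_nonneg _) (pow_le_one₀ (norm_nonneg _) hb)

lemma pin_f_one {z : Om p} (hz : z ^ p = 1) : ‖z‖ = 1 := by
  have h : ‖z‖ ^ p = 1 := by rw [← norm_pow, hz, norm_one]
  exact (pow_eq_one_iff_of_nonneg (norm_nonneg _) (Fact.out : p.Prime).ne_zero).1 h

lemma pin_f_eq {z : Om p} (hz : IsPrimitiveRoot z p) {g : ℕ} (hg : ¬ p ∣ g) :
    ‖1 - z ^ g‖ = ‖1 - z‖ := by
  have hp : p.Prime := Fact.out
  have : NeZero p := ⟨hp.ne_zero⟩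
  have h1 : IsPrimitiveRoot (z ^ g) p := hz.pow_of_coprime g (hp.coprime_iff_not_dvd.2 hg).symm
  refine le_antisymm (pin_f_le (pin_f_one hz.pow_eq_one).le g) ?_
  obtain ⟨i, -, hi⟩ := h1.eq_pow_of_pow_eq_one hz.pow_eq_one
  have h2 := pin_f_le (pin_f_one h1.pow_eq_one).le i
  rwa [hi] at h2

lemma pin_f_norm {z : Om p} (hz : IsPrimitiveRoot z p) : ‖1 - z‖ ^ (p - 1) = (p : ℝ)⁻¹ := by
  have hp : p.Prime := Fact.out
  have e : p - 1 + 1 = p := Nat.sub_add_cancel hp.one_le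
  have h1 := IsPrimitiveRoot.prod_one_sub_pow_eq_order (n := p - 1) (μ := z) (by rwa [e])
  have h2 : ((p - 1 : ℕ) : Om p) + 1 = p := by rw [← Nat.cast_succ, Nat.succ_eq_add_one, e]
  have h3 : ‖(p : Om p)‖ = (p : ℝ)⁻¹ := by
    rw [← map_natCast (algebraMap ℚ_[p] (Om p)), norm_algebraMap', Padic.norm_p]
  rw [← h3, ← h2, ← h1, norm_prod, Finset.prod_congr rfl fun k hk =>
    pin_f_eq hz (Nat.not_dvd_of_pos_of_lt (Nat.succ_pos k) (by
      have := Finset.mem_range.1 hk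
      omega)), Finset.prod_const, Finset.card_range]

end

theorem p_PIN :
    S_PIN := by
  intro p _ j ζ hζ
  have hp : p.Prime := Fact.out
  have p1 : (1 : ℝ) < p := by exact_mod_cast hp.one_lt
  have hz : IsPrimitiveRoot (j ζ) p := hζ.map_of_injective j.injective
  have n1 := (pin_f_one hz.pow_eq_one).le
  have h1 := pin_f_norm hz
  have h0 : 0 < ‖1 - j ζ‖ := norm_pos_iff.2 (sub_ne_zero.2 (hz.ne_one hp.one_lt).symm)
  have h2 : ‖1 - j ζ‖ < 1 := by
    by_contra hc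
    have := one_le_pow₀ (n := p - 1) (not_lt.1 hc)
    rw [h1] at this
    exact absurd (inv_lt_one_of_one_lt₀ p1) (not_lt.2 this)
  simp only [map_sub, map_one, map_pow]
  refine ⟨h1, h0, h2, fun g k => ?_⟩
  have h3 := pin_f_sum n1 g
  have h4 : ‖(g : Om p)‖ ≤ 1 := IsUltrametricDist.norm_natCast_le_one _ g
  have h5 : ‖∑ i ∈ Finset.range g, j ζ ^ i‖ ≤ 1 := by
    rw [← sub_add_cancel (∑ i ∈ Finset.range g, j ζ ^ i) (g : Om p)]
    exact (IsUltrametricDist.norm_add_le_max _ _).trans (max_le (h3.trans h2.le) h4)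
  rw [← mul_neg_geom_sum, mul_pow, mul_comm ((g : Om p) ^ k), ← mul_sub, norm_mul, norm_pow]
  exact mul_lt_of_lt_one_right (pow_pos h0 k) (((pin_f_pow h5 h4 k).trans h3).trans_lt h2)

end Pool.Agent.P.MP_8d2e9f_nt.AO
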