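import Pool.Agent.P.MP_8d2e9f_nt.AO.IfaceF

/-! Step RIGC. -/

set_option autoImplicit false

namespace Pool.Agent.P.MP_8d2e9f_nt.AO

open Polynomial NumberField Pool.Agent.P.MP_8d2e9f_nt.G
open scoped IntermediateField Classical

lemma rigc_f_norm {p : ℕ} [Fact p.Prime] (j : Qbar →+* Om p) {ω : Qbar} (h : IsOfFinOrder ω) :
    ‖j ω‖ = 1 := by
  obtain ⟨n, hn, e⟩ := isOfFinOrder_iff_pow_eq_one.1 h
  have h1 : ‖j ω‖ ^ n = 1 := by rw [← norm_pow, ← map_pow, e, map_one, norm_one]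
  exact (pow_eq_one_iff_of_nonneg (norm_nonneg _) hn.ne').1 h1

lemma rigc_f_ne {ω : Qbar} (h : IsOfFinOrder ω) : ω ≠ 0 := by
  obtain ⟨n, hn, e⟩ := isOfFinOrder_iff_pow_eq_one.1 h
  rintro rfl
  rw [zero_pow hn.ne'] at e
  exact zero_ne_one e

lemma rigc_f_inv {ω : Qbar} (h : IsOfFinOrder ω) : IsOfFinOrder ω⁻¹ := by
  obtain ⟨n, hn, e⟩ := isOfFinOrder_iff_pow_eq_one.1 h
  exact isOfFinOrder_iff_pow_eq_one.2 ⟨n, hn, by rw [inv_pow, e, inv_one]⟩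

theorem p_RIGC (hROU : S_ROU) :
    S_RIGC := by
  intro K S ξ hξ p _ j δ s hp _ hδ hδp hCl
  by_contra hne
  have hx : IsOfFinOrder (s ξ) := by
    obtain ⟨n, hn, e⟩ := isOfFinOrder_iff_pow_eq_one.1 hξ
    exact isOfFinOrder_iff_pow_eq_one.2 ⟨n, hn, by rw [← map_pow, e, map_one]⟩
  have hξ0 := rigc_f_ne hξ
  have hx0 := rigc_f_ne hx
  have hz : ‖j (ξ + ξ⁻¹)‖ ≤ 1 := by
    rw [map_add]
    refine (IsUltrametricDist.norm_add_le_max _ _).trans ?_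
    rw [rigc_f_norm j hξ, rigc_f_norm j (rigc_f_inv hξ), max_self]
  obtain ⟨h1, h2⟩ := hCl
  rw [h2, max_eq_left hz, one_pow, mul_one, mul_one, pow_one, ← map_sub] at h1
  have hs : s (ξ + ξ⁻¹) = s ξ + (s ξ)⁻¹ := by rw [map_add, map_inv₀]
  have key : s (ξ + ξ⁻¹) - (ξ + ξ⁻¹) = -ξ * (s ξ * ξ⁻¹ - 1) * ((ξ * s ξ)⁻¹ - 1) := by
    rw [hs]; field_simp; ring
  have ha : s ξ * ξ⁻¹ ≠ 1 := fun e => hne (by
    rw [← sub_eq_zero, key, e, sub_self, mul_zero, zero_mul])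
  have hb : (ξ * s ξ)⁻¹ ≠ 1 := fun e => hne (by
    rw [← sub_eq_zero, key, e, sub_self, mul_zero])
  have fa := hROU p j _ (hx.mul (rigc_f_inv hξ)) ha
  have fb := hROU p j _ (rigc_f_inv (hξ.mul hx)) hb
  rw [key, map_mul, map_mul, norm_mul, norm_mul, map_neg, norm_neg, rigc_f_norm j hξ,
    one_mul] at h1
  have h3 := pow_le_pow_left₀ (by positivity) h1 (p - 1)
  rw [mul_pow, hδp] at h3
  have hp0 : (0 : ℝ) < (p : ℝ)⁻¹ := by
    have : (0 : ℝ) < p := by exact_mod_cast (by omega : 0 < p)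
    positivity
  have hp1 : (p : ℝ)⁻¹ < 1 := inv_lt_one_of_one_lt₀ (by exact_mod_cast (by omega : 1 < p))
  have h4 : (p : ℝ)⁻¹ ^ 2 ≤ (p : ℝ)⁻¹ ^ 7 := by
    rw [pow_two]
    exact (mul_le_mul fa fb hp0.le (by positivity)).trans h3
  exact absurd (pow_lt_pow_right_of_lt_one₀ hp0 hp1 (by norm_num : 2 < 7)) (not_lt.2 h4)

end Pool.Agent.P.MP_8d2e9f_nt.AO
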