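import Pool.Agent.P.MP_8d2e9f_nt.AO.IfaceF

/-! Step RIGE. -/

set_option autoImplicit false

namespace Pool.Agent.P.MP_8d2e9f_nt.AO

open Polynomial NumberField Pool.Agent.P.MP_8d2e9f_nt.G
open scoped IntermediateField Classical

lemma rige_fnum {q d t : ℝ} {n : ℕ} (hq0 : 0 < q) (hq1 : q < 1)
    (hd : (d ^ 3) ^ n = q ^ 7) (h1 : t ^ 2 ≤ d) (h2 : q ≤ t ^ n) : False := by
  have h3 : q ^ 6 ≤ q ^ 7 :=
    calc q ^ 6 ≤ (t ^ n) ^ 6 := pow_le_pow_left₀ hq0.le h2 6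
      _ = ((t ^ 2) ^ 3) ^ n := by ring
      _ ≤ (d ^ 3) ^ n := by gcongr
      _ = q ^ 7 := hd
  exact absurd h3 (not_le.2 (pow_lt_pow_right_of_lt_one₀ hq0 hq1 (by norm_num)))

theorem p_RIGE (hETW : S_ETW) (hETX : S_ETX) (hELOC : S_ELOC) (hENEAR2 : S_ENEAR2) (hESCH0 : S_ESCH0) :
    S_RIGE := by
  intro K α β e P x hα hβ ht hP hx p hp j δ s h3 hS hδ hpw hc
  have hp1 : (1 : ℝ) < p := by exact_mod_cast hp.out.one_lt
  have hq0 : 0 < (p : ℝ)⁻¹ := inv_pos.2 (one_pos.trans hp1)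
  have hq1 : (p : ℝ)⁻¹ < 1 := inv_lt_one_of_one_lt₀ hp1
  obtain ⟨d, hd0, rfl⟩ : ∃ d : ℝ, 0 < d ∧ δ = d ^ 3 :=
    ⟨δ ^ ((3 : ℕ) : ℝ)⁻¹, Real.rpow_pos_of_pos hδ _,
      (Real.rpow_inv_natCast_pow hδ.le (by norm_num)).symm⟩
  have hd1 : d < 1 := not_le.1 fun h => by
    have h1 : (1 : ℝ) ≤ (d ^ 3) ^ (p - 1) := one_le_pow₀ (one_le_pow₀ h)
    rw [hpw] at h1
    exact absurd h1 (not_le.2 (pow_lt_one₀ hq0.le hq1 (by norm_num)))
  have hu : ∀ c ∈ ({α, β, 4 * α ^ 3 + 27 * β ^ 2} : Set Qbar), ‖j c‖ ≤ 1 := fun c hc => by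
    by_cases h : c = 0
    · rw [h, map_zero, norm_zero]
      exact zero_le_one
    · exact (hS c hc h).le
  have ha := hu α (Or.inl rfl)
  have hb := hu β (Or.inr (Or.inl rfl))
  have hE : Ei j α β := ⟨ht.1, ha, hb, h3⟩
  have hy : xp (ga s P) = some (s x) := by rw [xp_ga hα hβ, hx, Option.map_some]
  rw [map_pow s] at hc
  obtain ⟨u, hu1, hN⟩ := hENEAR2 α β e p j d ht h3 ha hb (hS _ (Or.inr (Or.inr rfl)) ht.1) hd0 hd1
    P (ga s P) x (s x) hx hy hc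
  have htw := ((hETX α β e ht).1 u hu1).1
  have hr : 1 < d⁻¹ := (one_lt_inv₀ hd0).2 hd1
  have hT : IsOfFinAddOrder (ga s P - twp (RingHom.id _) u P) := by
    rw [sub_eq_add_neg]
    exact ((gah hα hβ s).isOfFinAddOrder hP).add
      ((AddMonoidHom.mk' (twp (RingHom.id _) u) (hETW α β _ _ htw).1).isOfFinAddOrder hP).neg
  have h0 : ga s P - twp (RingHom.id _) u P = 0 := by
    by_contra hne
    have h1 := ((hELOC α β p j hE).2.2 _ _ hr hN).1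
    rw [inv_mul_le_iff₀ hd0, mul_one] at h1
    exact rige_fnum hq0 hq1 hpw h1
      (hESCH0 α β p j hE _ (fun z hz => hr.trans_le (hN z hz)) hT hne)
  rw [sub_eq_zero.1 h0, (hETW α β _ _ htw).2.2.1, hx, Option.map_some, Option.some.injEq] at hy
  rw [map_pow, ← hy, mul_pow, ← pow_mul, hu1, one_mul, RingHom.id_apply]

end Pool.Agent.P.MP_8d2e9f_nt.AO
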