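import Pool.Agent.P.MP_8d2e9f_nt.AO.IfaceF

/-! Step ROU. -/

set_option autoImplicit false

namespace Pool.Agent.P.MP_8d2e9f_nt.AO

open Polynomial NumberField Pool.Agent.P.MP_8d2e9f_nt.G
open scoped IntermediateField Classical

theorem rou_f_pow {F : Type} [NormedField F] [IsUltrametricDist F] {w : F} (h : ‖w‖ ≤ 1)
    (k : ℕ) : ‖1 - w ^ k‖ ≤ ‖w - 1‖ := by
  induction k with
  | zero => simp
  | succ k ih =>
    rw [show 1 - w ^ (k + 1) = 1 - w ^ k + -(w ^ k * (w - 1)) by ring]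
    refine (IsUltrametricDist.norm_add_le_max _ _).trans (max_le ih ?_)
    rw [norm_neg, norm_mul, norm_pow]
    exact mul_le_of_le_one_left (norm_nonneg _) (pow_le_one₀ (norm_nonneg _) h)

theorem p_ROU :
    S_ROU := by
  intro p _ j ω h1 h2
  have pp : p.Prime := Fact.out
  have n0 : 0 < orderOf ω := h1.orderOf_pos
  obtain ⟨q, hq, m, hm⟩ := Nat.exists_prime_and_dvd (mt orderOf_eq_one_iff.1 h2)
  have h3 : IsPrimitiveRoot (j ω) (orderOf ω) :=
    (IsPrimitiveRoot.orderOf ω).map_of_injective j.injective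
  have h4 : ‖j ω‖ ≤ 1 := by
    have := congrArg norm h3.pow_eq_one
    rw [norm_pow, norm_one] at this
    exact ((pow_eq_one_iff_of_nonneg (norm_nonneg _) n0.ne').1 this).le
  have h5 := h3.pow n0 (hm.trans (mul_comm q m))
  obtain ⟨r, rfl⟩ : ∃ r, q = r + 1 := ⟨q - 1, by have := hq.pos; omega⟩
  have h6 : ‖((r + 1 : ℕ) : Om p)‖ ≤ ‖j ω - 1‖ ^ r := by
    rw [Nat.cast_succ, ← h5.prod_one_sub_pow_eq_order, norm_prod]
    refine (Finset.prod_le_prod (g := fun _ => ‖j ω - 1‖) (fun _ _ => norm_nonneg _)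
      fun k _ => ?_).trans_eq (by rw [Finset.prod_const, Finset.card_range])
    rw [← pow_mul]
    exact rou_f_pow h4 _
  rw [← map_natCast (algebraMap ℚ_[p] (Om p)), norm_algebraMap'] at h6
  rw [map_sub, map_one]
  by_cases e : r + 1 = p
  · rw [e, Padic.norm_p] at h6
    rwa [show p - 1 = r by omega]
  · rw [Padic.norm_natCast_eq_one_iff.2 ((Nat.coprime_primes pp hq).2 (Ne.symm e))] at h6
    have r0 : r ≠ 0 := by
      have := hq.two_le
      omega
    exact (inv_le_one_of_one_le₀ (by exact_mod_cast pp.one_le)).trans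
      (one_le_pow₀ ((one_le_pow_iff_of_nonneg (norm_nonneg _) r0).1 h6))

end Pool.Agent.P.MP_8d2e9f_nt.AO
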