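import Pool.Agent.P.MP_8d2e9f_nt.AO.IfaceF

/-! Step STEP. -/

set_option autoImplicit false

namespace Pool.Agent.P.MP_8d2e9f_nt.AO

open Polynomial NumberField Pool.Agent.P.MP_8d2e9f_nt.G
open scoped IntermediateField Classical

lemma step_f1 (f g : Qbar →+* Qbar) (N : IF) (u : Qbar) (hN : ∀ x ∈ N, f x = g x)
    (hu : f u = g u) : ∀ z ∈ N ⊔ ℚ⟮u⟯, f z = g z := by
  let E : IF := (RingHom.eqLocusField f g).toIntermediateField fun q => by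
    show f _ = g _
    simp
  have h : N ⊔ ℚ⟮u⟯ ≤ E := sup_le (fun x hx => hN x hx)
    (IntermediateField.adjoin_simple_le_iff.2 hu)
  exact fun z hz => h hz

theorem p_STEP (hSURJ : S_SURJ) (hLOCN : S_LOCN) :
    S_STEP := by
  intro l K N S hK hN hS z hz hR
  have hp := l.hp.out
  have h3 := l.three
  obtain ⟨s₀, i₀, e₀⟩ := hSURJ l l.h l.h_ne
  have hz₀ : s₀ z = z := step_f1 (s₀ : Qbar →+* Qbar) (RingHom.id _) N l.u
    (fun x hx => s₀.commutes ⟨x, hN hx⟩) (l.u_fix e₀) z hz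
  have hzM : z ∈ l.M⟮l.ζ⟯ := by
    have h : N ⊔ ℚ⟮l.u⟯ ≤ (l.M⟮l.ζ⟯).restrictScalars ℚ := sup_le
      (fun x hx => (l.M⟮l.ζ⟯).algebraMap_mem ⟨x, hN hx⟩)
      (IntermediateField.adjoin_simple_le_iff.2 (l.u_mem l.M))
    exact h hz
  have hq : (0 : ℝ) < (l.p : ℝ)⁻¹ ^ 7 := by
    have : (0 : ℝ) < l.p := by exact_mod_cast hp.pos
    positivity
  have hδ := Real.rpow_inv_natCast_pow hq.le (show l.p - 1 ≠ 0 by omega)
  have hδ0 := Real.rpow_pos_of_pos hq ((l.p - 1 : ℕ) : ℝ)⁻¹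
  refine mem_of_fix fun ρ => ?_
  have : NeZero l.p := ⟨hp.ne_zero⟩
  obtain ⟨g, -, hg⟩ := l.prim.eq_pow_of_pow_eq_one
    (show ρ l.ζ ^ l.p = 1 by rw [← map_pow, l.prim.pow_eq_one, map_one])
  have hg' : ¬ l.p ∣ g := fun e => l.prim.ne_one hp.one_lt (ρ.injective (by
    rw [← hg, map_one, (l.prim.pow_eq_one_iff_dvd g).2 e]))
  obtain ⟨s, i, e⟩ := hSURJ l g hg'
  have hs : s z = z := hR l.p l.j _ (up (hK.trans hN) s) h3 hS hδ0 hδ
    (hLOCN l s₀ s _ i₀ e₀ i hδ0 hδ z hzM hz₀)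
  refine (step_f1 (ρ : Qbar →+* Qbar) (s : Qbar →+* Qbar) N l.u (fun x hx => ?_) ?_ z hz).trans hs
  · exact (ρ.commutes ⟨x, hx⟩).trans (s.commutes ⟨x, hN hx⟩).symm
  · show ρ l.u = s l.u
    simp only [Lv.u, map_prod, map_sub, map_one, map_pow, e, hg]

end Pool.Agent.P.MP_8d2e9f_nt.AO
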