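import Pool.Agent.P.MP_8d2e9f_nt.AO.IfaceF

/-! Step SURJ. -/

set_option autoImplicit false

namespace Pool.Agent.P.MP_8d2e9f_nt.AO

open Polynomial NumberField Pool.Agent.P.MP_8d2e9f_nt.G
open scoped IntermediateField Classical

theorem p_SURJ (hFROB : S_FROB) (hPIN : S_PIN) :
    S_SURJ := by
  intro l g hg
  obtain ⟨D, τ, hD, hfix, -⟩ := hFROB l.M l.p l.φ l.j l.loc
  have hp := l.hp.out
  have hp0 : 0 < l.p := hp.pos
  have hp1 : (1 : ℝ) < l.p := by exact_mod_cast hp.one_lt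
  obtain ⟨O, hO⟩ : ∃ O : Finset Qbar, ∀ x, x ∈ O ↔ ∃ s ∈ D, s l.ζ = x := by
    refine ⟨(primitiveRoots l.p Qbar).filter fun x => ∃ s ∈ D, s l.ζ = x, fun x => ?_⟩
    rw [Finset.mem_filter, mem_primitiveRoots hp0]
    refine ⟨fun h => h.2, fun h => ⟨?_, h⟩⟩
    obtain ⟨s, -, rfl⟩ := h
    exact l.prim.map_of_injective s.injective
  have hprim : ∀ x ∈ O, IsPrimitiveRoot x l.p := fun x hx => by
    obtain ⟨s, -, rfl⟩ := (hO x).1 hx
    exact l.prim.map_of_injective s.injective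
  have hsub : O ⊆ primitiveRoots l.p Qbar := fun x hx => (mem_primitiveRoots hp0).2 (hprim x hx)
  have hmv : ∀ ρ ∈ D, ∀ x ∈ O, ρ x ∈ O := fun ρ hρ x hx => by
    obtain ⟨s, hs, rfl⟩ := (hO x).1 hx
    exact (hO _).2 ⟨ρ * s, D.mul_mem hρ hs, rfl⟩
  obtain ⟨c, hc⟩ := hfix (∏ x ∈ O, (1 - x)) fun ρ hρ => by
    rw [map_prod]
    refine Finset.prod_nbij' ρ ρ.symm (hmv ρ hρ) (hmv ρ⁻¹ (D.inv_mem hρ))
      (fun x _ => ρ.symm_apply_apply x) (fun x _ => ρ.apply_symm_apply x) fun x _ => ?_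
    rw [map_sub, map_one]
  have h1 : ‖c‖ ^ (l.p - 1) = ((l.p : ℝ)⁻¹) ^ O.card := by
    rw [← norm_algebraMap' (Om l.p) c, ← hc, map_prod, norm_prod, ← Finset.prod_pow,
      Finset.prod_congr rfl fun x hx => (hPIN l.p l.j x (hprim x hx)).1, Finset.prod_const]
  have hc0 : c ≠ 0 := fun e => by
    rw [e, norm_zero, zero_pow (by have := hp.two_le; omega)] at h1
    exact (by positivity : (0 : ℝ) < ((l.p : ℝ)⁻¹) ^ O.card).ne h1
  rw [Padic.norm_eq_zpow_neg_valuation hc0, ← zpow_natCast, ← zpow_mul, inv_pow, ← zpow_natCast,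
    ← zpow_neg] at h1
  have h2 := zpow_right_injective₀ (by linarith) hp1.ne' h1
  have h3 : l.p - 1 ∣ O.card := by
    rw [← Int.natCast_dvd_natCast]
    exact ⟨c.valuation, by linarith⟩
  have h4 : 0 < O.card := Finset.card_pos.2 ⟨l.ζ, (hO _).2 ⟨1, D.one_mem, rfl⟩⟩
  have h5 : O = primitiveRoots l.p Qbar := Finset.eq_of_subset_of_card_le hsub (by
    rw [l.prim.card_primitiveRoots, Nat.totient_prime hp]
    exact Nat.le_of_dvd h4 h3)
  obtain ⟨s, hs, e⟩ := (hO _).1 (h5 ▸ (mem_primitiveRoots hp0).2 (prim_pow hp l.prim hg))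
  exact ⟨s, hD s hs, e⟩

end Pool.Agent.P.MP_8d2e9f_nt.AO
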