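import Pool.Agent.P.MP_8d2e9f_nt.AO.IfaceF

/-! Step TOWER. -/

set_option autoImplicit false

namespace Pool.Agent.P.MP_8d2e9f_nt.AO

open Polynomial NumberField Pool.Agent.P.MP_8d2e9f_nt.G
open scoped IntermediateField Classical

theorem p_TOWER (hLEV : S_LEV) :
    S_TOWER := by
  have : Countable Qbar := Set.countable_univ_iff.1
    ((Algebraic.countable ℚ Qbar).mono fun x _ => Algebra.IsAlgebraic.isAlgebraic x)
  obtain ⟨x, hx⟩ := exists_surjective_nat Qbar
  choose f hf using fun S : Finset Qbar => hLEV S S.finite_toSet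
  let S : ℕ → Finset Qbar := fun n => Nat.rec ∅ (fun n T => insert (x n) (insert (f T).u T)) n
  have hS : Monotone S := monotone_nat_of_le_succ fun n =>
    (Finset.subset_insert _ _).trans (Finset.subset_insert _ _)
  refine ⟨fun n => f (S n), fun i n h => (hf _ _ (hS h ?_)).1, fun y => ?_⟩
  · exact Finset.mem_insert_of_mem (Finset.mem_insert_self _ _)
  · obtain ⟨i, rfl⟩ := hx y
    exact Filter.eventually_atTop.2 ⟨i + 1, fun n h => hf _ _ (hS h (Finset.mem_insert_self _ _))⟩

end Pool.Agent.P.MP_8d2e9f_nt.AO
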