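import Pool.Agent.P.MP_8d2e9f_nt.AO.AllE
import Pool.Agent.P.MP_8d2e9f_nt.AO.FinF
import Pool.Agent.P.MP_8d2e9f_nt.AO.TROU
import Pool.Agent.P.MP_8d2e9f_nt.AO.TRIGC
import Pool.Agent.P.MP_8d2e9f_nt.AO.TENEAR2
import Pool.Agent.P.MP_8d2e9f_nt.AO.TESCH0
import Pool.Agent.P.MP_8d2e9f_nt.AO.TRIGE
import Pool.Agent.P.MP_8d2e9f_nt.AO.TPIN
import Pool.Agent.P.MP_8d2e9f_nt.AO.TSURJ
import Pool.Agent.P.MP_8d2e9f_nt.AO.TEXPA
import Pool.Agent.P.MP_8d2e9f_nt.AO.TGAPN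
import Pool.Agent.P.MP_8d2e9f_nt.AO.TLOCN
import Pool.Agent.P.MP_8d2e9f_nt.AO.TSTEP
import Pool.Agent.P.MP_8d2e9f_nt.AO.TLEV
import Pool.Agent.P.MP_8d2e9f_nt.AO.TTOWER
import Pool.Agent.P.MP_8d2e9f_nt.AO.TDSC
import Pool.Agent.P.MP_8d2e9f_nt.AO.TNOTN
import Pool.Agent.P.MP_8d2e9f_nt.AO.TABQ
import Pool.Agent.P.MP_8d2e9f_nt.AO.TCYF
import Pool.Agent.P.MP_8d2e9f_nt.AO.TFPOL
import Pool.Agent.P.MP_8d2e9f_nt.AO.TFLAT
import Pool.Agent.P.MP_8d2e9f_nt.AO.TTRF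
import Pool.Agent.P.MP_8d2e9f_nt.AO.TMAINF

/-! All steps for the tower together. -/

namespace Pool.Agent.P.MP_8d2e9f_nt.AO

theorem all_ROU : S_ROU := p_ROU
theorem all_RIGC : S_RIGC := p_RIGC all_ROU
theorem all_ENEAR2 : S_ENEAR2 := p_ENEAR2 all_ETW all_ETX
theorem all_ESCH0 : S_ESCH0 := p_ESCH0 all_SCHW all_ELOC all_EKILL all_EG all_ESZ
theorem all_RIGE : S_RIGE := p_RIGE all_ETW all_ETX all_ELOC all_ENEAR2 all_ESCH0
theorem all_PIN : S_PIN := p_PIN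
theorem all_SURJ : S_SURJ := p_SURJ all_FROB all_PIN
theorem all_EXPA : S_EXPA := p_EXPA all_PIN
theorem all_GAPN : S_GAPN := p_GAPN all_PIN all_EXPA
theorem all_LOCN : S_LOCN := p_LOCN all_ABG all_ACT all_GAPN
theorem all_STEP : S_STEP := p_STEP all_SURJ all_LOCN
theorem all_LEV : S_LEV := p_LEV all_PLACE
theorem all_TOWER : S_TOWER := p_TOWER all_LEV
theorem all_DSC : S_DSC := p_DSC all_STEP
theorem all_NOTN : S_NOTN := p_NOTN all_WH all_WHX all_PIN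
theorem all_ABQ : S_ABQ := p_ABQ all_ABG
theorem all_CYF : S_CYF := p_CYF all_WH all_WHX all_RIGC
theorem all_FPOL : S_FPOL := p_FPOL all_USB all_PRN all_CANH all_COMPO all_CYF
theorem all_FLAT : S_FLAT := p_FLAT all_WH all_PRN all_CANH all_COMM all_LHT all_EHZ all_RIGE
theorem all_TRF : S_TRF := p_TRF
theorem all_MAINF : S_MAINF := p_MAINF all_PRN all_PCOMP all_CONJ all_CLASS all_COMPO all_PER2 all_EXM1 all_FPOL all_FLAT all_TRF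

end Pool.Agent.P.MP_8d2e9f_nt.AO
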