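import Pool.Agent.P.MP_8d2e9f_nt.G.Defs

/-! Property (R). -/

namespace Pool.Agent.P.MP_8d2e9f_nt.AO

open Pool.Agent.P.MP_8d2e9f_nt.G

/-- Property (R): a rational function `f ∈ F(x)` with `f(S) = S` for some infinite `S ⊆ F` has
degree one. -/
def PropertyR (F : Subfield Qbar) : Prop :=
  ∀ f : RatFunc Qbar, DefinedOver F f →
    (∃ S : Set Qbar, S ⊆ F ∧ S.Infinite ∧ ratMap f '' (some '' S) = some '' S) → ratDegree f = 1

end Pool.Agent.P.MP_8d2e9f_nt.AO
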