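import Pool.Agent.P.MP_8d2e9f_nt.AO.IfaceB
import Pool.Agent.P.MP_8d2e9f_nt.AO.DefsC

/-! Definitions and first lemmas for rational maps. -/

set_option autoImplicit false

namespace Pool.Agent.P.MP_8d2e9f_nt.AO

open Polynomial NumberField Pool.Agent.P.MP_8d2e9f_nt.G
open scoped IntermediateField Classical

noncomputable section

section ring

variable {R S : Type} [CommRing R] [CommRing S]

/-- `b ^ n * P (a / b)`. -/
def homg (a b : R[X]) (n : ℕ) (P : R[X]) : R[X] := hv (P.map C) n (a, b)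

/-- The numerator of the derivative of `a / b`. -/
def wr (a b : R[X]) : R[X] := derivative a * b - a * derivative b

/-- `a / b` is a map of degree `d ≥ 2` in lowest terms that fixes infinity. -/
def Nrm (d : ℕ) (a b : R[X]) : Prop :=
  2 ≤ d ∧ a.natDegree = d ∧ b.natDegree < d ∧ IsCoprime a b

/-- `a`, `b` are forms of degree `d` without common zero. -/
def Pr (d : ℕ) (a b : R[X]) : Prop :=
  a.natDegree ≤ d ∧ b.natDegree ≤ d ∧ ∀ v, v ≠ 0 → vm a b d v ≠ 0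

/-- `a / b` has an invariant form of positive weight. -/
def FormR (a b : R[X]) : Prop :=
  ∃ (P Q : R[X]) (n N : ℕ), P ≠ 0 ∧ Q ≠ 0 ∧ P.natDegree ≤ n ∧ Q.natDegree ≤ n ∧ 0 < N ∧
    homg a b n P * Q * b ^ (2 * N) = P * homg a b n Q * wr a b ^ N

/-- `a / b` pulls `dx ^ 12 / P` back to a multiple of `dx ^ 12 / P'`. -/
def Pb (a b P P' : R[X]) : Prop := ∃ c : R, c ≠ 0 ∧ homg a b 24 P = C c * P' * wr a b ^ 12

/-- `dx ^ 12 / P` is an eigenform of `a / b`. -/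
def Eig (a b P : R[X]) : Prop := P ≠ 0 ∧ P.natDegree ≤ 24 ∧ Pb a b P P

/-- `F = a / b` solves `F' ^ m * Q = c * Q (F)`, for `Q` of degree `m + 1`. -/
def Ode (m : ℕ) (Q : R[X]) (c : R) (a b : R[X]) : Prop :=
  wr a b ^ m * Q = C c * b ^ (m - 1) * homg a b (m + 1) Q

/-- The relation of type `(2, 4, 4)`. -/
def Rel4 (a b : R[X]) : Prop := ∃ c : R, c ≠ 0 ∧
  a ^ 3 * (a + b) ^ 2 * b ^ 3 = C c * (X ^ 3 * (X + 1) ^ 2 * wr a b ^ 4)

/-- The relation of type `(2, 3, 6)`. -/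
def Rel6 (a b : R[X]) : Prop := ∃ c : R, c ≠ 0 ∧
  a ^ 4 * (a + b) ^ 3 * b ^ 5 = C c * (X ^ 4 * (X + 1) ^ 3 * wr a b ^ 6)

/-- The cubic of a short Weierstrass equation. -/
def cub (α β : R) : R[X] := X ^ 3 + C α * X + C β

/-- The numerator of the doubling map. -/
def dbn (α β : R) : R[X] := X ^ 4 - C (2 * α) * X ^ 2 - C (8 * β) * X + C (α ^ 2)

/-- The denominator of the doubling map. -/
def dbd (α β : R) : R[X] := C 4 * cub α β

/-- The four normal forms. -/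
def NF (P : R[X]) : Prop :=
  (∃ α β : R, 4 * α ^ 3 + 27 * β ^ 2 ≠ 0 ∧ P = cub α β ^ 6) ∨ P = (X ^ 2 - 1) ^ 8 ∨
    P = X ^ 9 * (X + 1) ^ 6 ∨ P = X ^ 8 * (X + 1) ^ 6

/-- `A (u, v)` through `ι`. -/
def ev2 (ι : R →+* S) (u v : S) (A : R[X][X]) : S := A.eval₂ (eval₂RingHom ι u) v

/-- `a (u) / b (u)` through `ι`. -/
def rv {F : Type} [Field F] (ι : R →+* F) (a b : R[X]) (u : F) : F := a.eval₂ ι u / b.eval₂ ι u

/-- The curve `A = 0` is mapped into itself by `(a / b, a / b)`. -/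
def InvC (a b : R[X]) (A : R[X][X]) : Prop :=
  ∀ (Ω : Type) [Field Ω] (ι : R →+* Ω) (u v : Ω), b.eval₂ ι u ≠ 0 → b.eval₂ ι v ≠ 0 →
    ev2 ι u v A = 0 → ev2 ι (rv ι a b u) (rv ι a b v) A = 0

variable {a b P Q : R[X]} {n m d : ℕ}

lemma homg_def (a b : R[X]) (n : ℕ) (P : R[X]) :
    homg a b n P = ∑ i ∈ Finset.range (n + 1), C (P.coeff i) * a ^ i * b ^ (n - i) := by
  simp [homg, hv]

lemma homg_map (f : R →+* S) (a b : R[X]) (n : ℕ) (P : R[X]) :
    (homg a b n P).map f = homg (a.map f) (b.map f) n (P.map f) := by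
  simp [homg_def, Polynomial.map_sum]

lemma wr_map (f : R →+* S) (a b : R[X]) : (wr a b).map f = wr (a.map f) (b.map f) := by
  simp [wr]

lemma wr_eq (a b : R[X]) : wr a b = wronskian b a := by
  rw [wr, wronskian]
  ring

lemma homg_add (a b : R[X]) (n : ℕ) (P Q : R[X]) :
    homg a b n (P + Q) = homg a b n P + homg a b n Q := by
  rw [homg, Polynomial.map_add, hv_add, homg, homg]

lemma homg_sub (a b : R[X]) (n : ℕ) (P Q : R[X]) :
    homg a b n (P - Q) = homg a b n P - homg a b n Q := by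
  rw [homg, Polynomial.map_sub, hv_sub, homg, homg]

lemma homg_C_mul (a b : R[X]) (n : ℕ) (c : R) (P : R[X]) :
    homg a b n (C c * P) = C c * homg a b n P := by
  rw [homg, Polynomial.map_mul, map_C, hv_C_mul, homg]

lemma homg_sum {ι : Type} (a b : R[X]) (n : ℕ) (s : Finset ι) (f : ι → R[X]) :
    homg a b n (∑ i ∈ s, f i) = ∑ i ∈ s, homg a b n (f i) := by
  rw [homg, Polynomial.map_sum, hv_sum]
  rfl

lemma homg_mul (a b : R[X]) (hP : P.natDegree ≤ n) (hQ : Q.natDegree ≤ m) :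
    homg a b (n + m) (P * Q) = homg a b n P * homg a b m Q := by
  rw [homg, Polynomial.map_mul, hv_mul (natDegree_map_le.trans hP) (natDegree_map_le.trans hQ)]
  rfl

lemma homg_pow (a b : R[X]) (hP : P.natDegree ≤ n) (k : ℕ) :
    homg a b (k * n) (P ^ k) = homg a b n P ^ k := by
  rw [homg, Polynomial.map_pow, hv_pow (natDegree_map_le.trans hP)]
  rfl

lemma homg_X_pow (a b : R[X]) {k : ℕ} (h : k ≤ n) :
    homg a b n (X ^ k) = a ^ k * b ^ (n - k) := by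
  rw [homg, Polynomial.map_pow, map_X, hv_X_pow h]

lemma homg_one (a b : R[X]) (n : ℕ) : homg a b n 1 = b ^ n := by
  simpa using homg_X_pow a b (Nat.zero_le n)

lemma homg_X (a b : R[X]) (n : ℕ) : homg a b (n + 1) X = a * b ^ n := by
  simpa using homg_X_pow a b (Nat.le_add_left 1 n)

lemma homg_C (a b : R[X]) (n : ℕ) (c : R) : homg a b n (C c) = C c * b ^ n := by
  rw [← homg_one, ← homg_C_mul, mul_one]

lemma homg_comp (a : R[X]) (hP : P.natDegree ≤ n) : homg a 1 n P = P.comp a := by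
  rw [homg, hv_one (natDegree_map_le.trans hP), eval_map, comp]

lemma homg_deg (ha : a.natDegree ≤ d) (hb : b.natDegree ≤ d) (n : ℕ) (P : R[X]) :
    (homg a b n P).natDegree ≤ n * d := by
  rw [homg_def]
  refine natDegree_sum_le_of_forall_le _ _ fun i hi => ?_
  obtain ⟨k, rfl⟩ := Nat.exists_eq_add_of_le (Nat.lt_succ_iff.1 (Finset.mem_range.1 hi))
  rw [mul_assoc, add_tsub_cancel_left, add_mul]
  exact (natDegree_C_mul_le _ _).trans (natDegree_mul_le_of_le (natDegree_pow_le_of_le i ha)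
    (natDegree_pow_le_of_le k hb))

lemma homg_eval₂ (ι : R →+* S) (u : S) (a b : R[X]) (n : ℕ) (P : R[X]) :
    (homg a b n P).eval₂ ι u = hv (P.map ι) n (a.eval₂ ι u, b.eval₂ ι u) := by
  have := map_hv (eval₂RingHom ι u) (P.map C) n (a, b)
  rw [Polynomial.map_map] at this
  rw [show ι = (eval₂RingHom ι u).comp C from RingHom.ext fun c => by simp]
  simpa [homg] using this

lemma homg_rv {F : Type} [Field F] (ι : R →+* F) {u : F} (a : R[X]) (hb : b.eval₂ ι u ≠ 0)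
    (hP : P.natDegree ≤ n) :
    (homg a b n P).eval₂ ι u = b.eval₂ ι u ^ n * P.eval₂ ι (rv ι a b u) := by
  rw [homg_eval₂, ← eval_map (p := P), ← hv_one (natDegree_map_le.trans hP), ← hv_smul]
  simp [rv, mul_div_cancel₀ _ hb]

lemma ev2_map {T : Type} [CommRing T] (f : R →+* S) (ι : S →+* T) (u v : T) (A : R[X][X]) :
    ev2 ι u v (A.map (mapRingHom f)) = ev2 (ι.comp f) u v A := by
  rw [ev2, ev2, eval₂_map]
  congr 1
  exact RingHom.ext fun g => by simp [eval₂_map]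

lemma hom_ev2 {T : Type} [CommRing T] (ι : R →+* S) (ψ : S →+* T) (u v : S) (A : R[X][X]) :
    ψ (ev2 ι u v A) = ev2 (ψ.comp ι) (ψ u) (ψ v) A := by
  rw [ev2, ev2, hom_eval₂]
  congr 1
  exact RingHom.ext fun g => by simp [hom_eval₂]

lemma ev2_aeval [Algebra R S] (u v : S) (A : R[X][X]) :
    aevalAeval u v A = ev2 (algebraMap R S) u v A := by
  induction A using Polynomial.induction_on' with
  | add p q hp hq => simp only [map_add, hp, hq, ev2, eval₂_add]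
  | monomial n c =>
    rw [← C_mul_X_pow_eq_monomial, map_mul, map_pow, aevalAeval_C, aevalAeval_Y, ev2, eval₂_mul,
      eval₂_C, eval₂_X_pow, coe_eval₂RingHom, aeval_def]

lemma ev2_mul (ι : R →+* S) (u v : S) (A B : R[X][X]) :
    ev2 ι u v (A * B) = ev2 ι u v A * ev2 ι u v B := eval₂_mul _ _

lemma ev2_add (ι : R →+* S) (u v : S) (A B : R[X][X]) :
    ev2 ι u v (A + B) = ev2 ι u v A + ev2 ι u v B := eval₂_add _ _

lemma ev2_C (ι : R →+* S) (u v : S) (r : R[X]) : ev2 ι u v (C r) = r.eval₂ ι u := eval₂_C _ _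

lemma rv_map {F : Type} [Field F] (f : R →+* S) (ι : S →+* F) (a b : R[X]) :
    rv ι (a.map f) (b.map f) = rv (ι.comp f) a b := by
  funext u
  rw [rv, rv, eval₂_map, eval₂_map]

lemma hom_rv {F F' : Type} [Field F] [Field F'] (ι : R →+* F) (ψ : F →+* F') (a b : R[X]) (u : F) :
    ψ (rv ι a b u) = rv (ψ.comp ι) a b (ψ u) := by
  rw [rv, rv, map_div₀, hom_eval₂, hom_eval₂]

lemma InvC.map {A : R[X][X]} (h : InvC a b A) (f : R →+* S) :
    InvC (a.map f) (b.map f) (A.map (mapRingHom f)) := fun Ω _ ι u v h1 h2 h3 => by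
  rw [eval₂_map] at h1 h2
  rw [ev2_map] at h3 ⊢
  rw [rv_map]
  exact h Ω _ u v h1 h2 h3

lemma Nrm.map (h : Nrm d a b) {f : R →+* S} (hf : Function.Injective f) :
    Nrm d (a.map f) (b.map f) :=
  ⟨h.1, (natDegree_map_eq_of_injective hf a).trans h.2.1,
    (natDegree_map_eq_of_injective hf b).trans_lt h.2.2.1, h.2.2.2.map (mapRingHom f)⟩

end ring

section field

variable {k : Type} [Field k]

/-- The order of vanishing of the form of degree `n` attached to `P`. -/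
def mu (n : ℕ) (P : k[X]) : Option k → ℕ
  | none => n - P.natDegree
  | some x => rootMultiplicity x P

/-- The local degree of `a / b` at `c`. -/
def ld (d : ℕ) (a b : k[X]) (c : Option k) : ℕ :=
  mu d (C (lf (im a b d c)).2 * a - C (lf (im a b d c)).1 * b) c

/-- A Moebius map. -/
def mob (α β γ δ : k) : Option k → Option k := im (C α * X + C β) (C γ * X + C δ) 1

/-- The curve `y ^ 2 = x ^ 3 + α x + β`. -/
def ec (α β : k) : WeierstrassCurve.Affine k := ⟨0, 0, 0, α, β⟩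

/-- The abscissa of a point. -/
def xp {W : WeierstrassCurve.Affine k} : W.Point → Option k
  | 0 => none
  | .some x _ _ => some x

/-- The local parameter at the origin. -/
def tp {W : WeierstrassCurve.Affine k} : W.Point → k
  | 0 => 0
  | .some x y _ => -x / y

/-- `(x, y) ↦ (u ^ 2 σ x, u ^ 3 σ y)` preserves the curve. -/
def Tw (α β : k) (σ : k →+* k) (u : k) : Prop := u ≠ 0 ∧ u ^ 4 * σ α = α ∧ u ^ 6 * σ β = β

/-- The map `(x, y) ↦ (u ^ 2 σ x, u ^ 3 σ y)` on points. -/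
def twp {α β : k} (σ : k →+* k) (u : k) : (ec α β).Point → (ec α β).Point
  | 0 => 0
  | .some x y _ =>
    if h : (ec α β).Nonsingular (u ^ 2 * σ x) (u ^ 3 * σ y) then .some _ _ h else 0

/-- The curve is smooth and the roots of unity of order `2 e` act on it. -/
def Typ (e : ℕ) (α β : k) : Prop :=
  4 * α ^ 3 + 27 * β ^ 2 ≠ 0 ∧ (e = 1 ∨ (e = 2 ∧ β = 0) ∨ (e = 3 ∧ α = 0))

end field

/-- The doubling map on abscissae. -/
def dbl (α β : Qbar) : ProjLine → ProjLine := im (dbn α β) (dbd α β) 4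

/-- `T` is the origin or has abscissa of norm at least `r`. -/
def Nr {p : ℕ} [Fact p.Prime] (j : Qbar →+* Om p) (r : ℝ) {α β : Qbar} (T : (ec α β).Point) :
    Prop := ∀ x, xp T = some x → r ≤ ‖j x‖

/-- `a / b` is the quotient of an endomorphism `g₁ / g₂` of the line of abscissae. -/
structure Lat (d : ℕ) (a b : Qbar[X]) (e : ℕ) (α β : Qbar) (g₁ g₂ : Qbar[X]) : Prop where
  typ : Typ e α β
  nrm : Nrm d g₁ g₂
  ode : ∃ c, c ≠ 0 ∧ Ode 2 (cub α β) c g₁ g₂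
  ea : a.comp (X ^ e) = g₁ ^ e
  eb : b.comp (X ^ e) = g₂ ^ e

/-- The rational map on affine points. -/
def rm {K : IF} (a b : K[X]) (z : Qbar) : Qbar := aeval z a / aeval z b

lemma rm_eq {K : IF} (a b : K[X]) : rm a b = rv (algebraMap K Qbar) a b := rfl

lemma rm_gal {K : IF} (a b : K[X]) (σ : GK K) (z : Qbar) : σ (rm a b z) = rm a b (σ z) := by
  rw [rm, rm, map_div₀, aeval_algHom_apply, aeval_algHom_apply]

/-- `h` is the canonical height of `a / b` on affine points. -/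
def CanR {K : IF} (d : ℕ) (a b : K[X]) (h : Qbar → ℝ) : Prop :=
  (∀ z, aeval z b ≠ 0 → h (rm a b z) = d * h z) ∧ (∀ z, aeval z b = 0 → h z = 0) ∧
    ∃ C : ℝ, ∀ z, |h z - wh z| ≤ C

/-- `H` is the canonical height of `φ`. -/
def CanH (d : ℕ) (φ : ProjLine → ProjLine) (H : ProjLine → ℝ) : Prop :=
  (∀ α, H (φ α) = d * H α) ∧ ∃ C : ℝ, ∀ α, |H α - weilHeight α| ≤ C

/-- Good reduction. -/
def GdZ {p : ℕ} [Fact p.Prime] (d : ℕ) (a b : ℤ_[p][X]) : Prop :=
  Nrm d a b ∧ IsUnit a.leadingCoeff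

/-- The local setting: a map over a number field, its height, a place of degree one and good
reduction. -/
structure St (K : IF) (d : ℕ) (a b : K[X]) (h : Qbar → ℝ) {p : ℕ} [Fact p.Prime]
    (φ : K →+* ℚ_[p]) (j : Qbar →+* Om p) (a₀ b₀ : ℤ_[p][X]) : Prop where
  fd : Fd K
  nrm : Nrm d a b
  can : CanR d a b h
  loc : Loc φ j
  gd : GdZ d a₀ b₀
  ea : a₀.map (zq p) = a.map φ
  eb : b₀.map (zq p) = b.map φ

lemma loc_eval {K : IF} {p : ℕ} [Fact p.Prime] {φ : K →+* ℚ_[p]} {j : Qbar →+* Om p}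
    (hl : Loc φ j) {g : K[X]} {g₀ : ℤ_[p][X]} (e : g₀.map (zq p) = g.map φ) (z : Qbar) :
    j (aeval z g) = g₀.eval₂ (zo p) (j z) := by
  have h1 : j.comp (algebraMap K Qbar) = (algebraMap ℚ_[p] (Om p)).comp φ := RingHom.ext hl
  rw [aeval_def, hom_eval₂, h1, ← eval₂_map, ← e, eval₂_map]
  rfl

/-- The Gauss field with an isometry over `X ↦ a / b`. -/
def IsGFR {p : ℕ} [Fact p.Prime] (a b : ℤ_[p][X]) {F : Type} [NormedField F]
    (e : ℚ_[p][X] →+* F) (σ : F →+* F) (Γ : Set (F ≃+* F)) : Prop :=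
  Function.Injective e ∧ (∀ c : ℚ_[p], ‖e (C c)‖ = ‖c‖) ∧
    (∀ g : ℤ_[p][X], ‖e (g.map (zq p))‖ ≤ 1 ∧ (‖e (g.map (zq p))‖ < 1 ↔ g.map (zr p) = 0)) ∧
      (∀ x, ‖σ x‖ = ‖x‖) ∧
        (∀ g, σ (e g) = g.eval₂ (e.comp C) (e (a.map (zq p)) / e (b.map (zq p)))) ∧
          (∀ γ ∈ Γ, (∀ x, ‖γ x‖ = ‖x‖) ∧ ∀ g, γ (e g) = e g) ∧
            ∀ x, x ≠ 0 → (∀ γ ∈ Γ, γ x = x) → ∃ a b, b ≠ 0 ∧ ‖x - e a / e b‖ < ‖x‖

/-- The reduction has an invariant form at all good places above all large primes. -/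
def FormsR (K : IF) (d : ℕ) (a b : K[X]) : Prop :=
  ∃ N : ℕ, ∀ (p : ℕ) [Fact p.Prime] (φ : K →+* ℚ_[p]) (j : Qbar →+* Om p) (a₀ b₀ : ℤ_[p][X]),
    N < p → Loc φ j → GdZ d a₀ b₀ → a₀.map (zq p) = a.map φ → b₀.map (zq p) = b.map φ →
      FormR (a₀.map (zr p)) (b₀.map (zr p))

/-- The chain `w` on the curve `A = 0` has a nonconstant periodic deformation. -/
def HasD (A : Qbar[X][X]) (w : ℕ → Qbar) : Prop :=
  ∃ (Ω : Type) (_ : Field Ω) (_ : IsAlgClosed Ω) (ι : Qbar →+* Ω) (O : ValuationSubring Ω)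
    (u : ℕ → Ω) (M : ℕ), 0 < M ∧ (∀ c, ι c ∈ O) ∧ (∀ i, u (i + M) = u i) ∧
      (∀ i, O.valuation (u i - ι (w i)) < 1) ∧ (∀ i, ev2 ι (u i) (u (i + 1)) A = 0) ∧
        u 0 ≠ ι (w 0)

/-- `L` is an abelian extension of `K`. -/
def AbE (K L : IF) : Prop := K ≤ L ∧ ∀ z ∈ L, Ab K z

/-- Every rational map has finitely many preperiodic points in every finite extension of `L`. -/
def FinAll (L : IF) : Prop :=
  ∀ (K : IF) (d : ℕ) (φ : ProjLine → ProjLine), Fd K → 2 ≤ d → RM ⊤ d φ →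
    (pts (L ⊔ K) ∩ PP φ).Finite

/-- The canonical height of `φ` has a gap on every finite extension of `L`. -/
def GapA (L : IF) (d : ℕ) (φ : ProjLine → ProjLine) : Prop :=
  ∀ H, CanH d φ H → ∀ K : IF, Fd K → ∃ c : ℝ, 0 < c ∧ ∀ α ∈ pts (L ⊔ K), 0 < H α → c ≤ H α

/-- `φ` is semiconjugate to `ψ`. -/
def Sc (φ ψ : ProjLine → ProjLine) : Prop :=
  ∃ (e : ℕ) (θ : ProjLine → ProjLine), 0 < e ∧ RM ⊤ e θ ∧ ∀ x, θ (φ x) = ψ (θ x)

lemma Pr.rm {d : ℕ} {a b : Qbar[X]} (h : Pr d a b) : RM ⊤ d (im a b d) :=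
  ⟨a, b, fun _ => trivial, fun _ => trivial, h.1, h.2.1, h.2.2, rfl⟩

lemma rm_pr {E : IF} {d : ℕ} {φ : ProjLine → ProjLine} (h : RM E d φ) :
    ∃ a b, Pr d a b ∧ φ = im a b d := by
  obtain ⟨a, b, -, -, h1, h2, h3, h4⟩ := h
  exact ⟨a, b, ⟨h1, h2, h3⟩, h4⟩

lemma ex_field {K : IF} (hK : Fd K) {S : Set Qbar} (hS : S.Finite) :
    ∃ K' : IF, Fd K' ∧ K ≤ K' ∧ ∀ x ∈ S, x ∈ K' := by
  have := hS.to_subtype
  have : FiniteDimensional ℚ (IntermediateField.adjoin ℚ S) :=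
    IntermediateField.finiteDimensional_adjoin fun x _ => int_Q x
  exact ⟨K ⊔ IntermediateField.adjoin ℚ S, IntermediateField.finiteDimensional_sup _ _, le_sup_left,
    fun x hx => (le_sup_right : _ ≤ K ⊔ _) (IntermediateField.subset_adjoin ℚ S hx)⟩

lemma coeff_fin (a : Qbar[X]) : (Set.range a.coeff).Finite :=
  ((a.support.finite_toSet.image a.coeff).insert 0).subset fun _ ⟨i, hi⟩ => by
    by_cases h : i ∈ a.support
    · exact Or.inr ⟨i, h, hi⟩
    · exact Or.inl (hi ▸ notMem_support_iff.1 h)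

lemma ex_poly {K : IF} {a : Qbar[X]} (h : ∀ i, a.coeff i ∈ K) :
    ∃ a' : K[X], a'.map (algebraMap K Qbar) = a :=
  (mem_lifts _).1 ((lifts_iff_coeff_lifts _).2 fun i => ⟨⟨_, h i⟩, rfl⟩)

lemma nrm_of_map {K : IF} {d : ℕ} {a b : K[X]}
    (h : Nrm d (a.map (algebraMap K Qbar)) (b.map (algebraMap K Qbar))) : Nrm d a b :=
  ⟨h.1, (natDegree_map _).symm.trans h.2.1, (natDegree_map _).symm.trans_lt h.2.2.1,
    (isCoprime_map _).1 h.2.2.2⟩

end

end Pool.Agent.P.MP_8d2e9f_nt.AO
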