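import Pool.Agent.P.MP_8d2e9f_nt.AO.TETW
import Pool.Agent.P.MP_8d2e9f_nt.AO.TETX

/-! The Galois action on points, abelian points and the kernel of reduction. -/

set_option autoImplicit false

namespace Pool.Agent.P.MP_8d2e9f_nt.AO

open Polynomial NumberField Pool.Agent.P.MP_8d2e9f_nt.G
open scoped IntermediateField Classical

noncomputable section

variable {K : IF} {α β : Qbar}

/-- The Galois action on points. -/
def ga (σ : GK K) (P : (ec α β).Point) : (ec α β).Point := twp (σ : Qbar →+* Qbar) 1 P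

/-- The point `P` is defined over the maximal abelian extension of `K`. -/
def AbP (K : IF) (P : (ec α β).Point) : Prop := ∀ σ ρ : GK K, ga σ (ga ρ P) = ga ρ (ga σ P)

/-- The point `P` lies in the kernel of reduction at `j`. -/
def Ker {p : ℕ} [Fact p.Prime] (j : Qbar →+* Om p) (P : (ec α β).Point) : Prop :=
  ∀ x, xp P = some x → 1 < ‖j x‖

/-- `σ` is an isometry at `j`. -/
def Iso {p : ℕ} [Fact p.Prime] (j : Qbar →+* Om p) (σ : GK K) : Prop := ∀ x, ‖j (σ x)‖ = ‖j x‖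

/-- The curve is smooth with coefficients that are integral at `j`. -/
def Ei {p : ℕ} [Fact p.Prime] (j : Qbar →+* Om p) (α β : Qbar) : Prop :=
  4 * α ^ 3 + 27 * β ^ 2 ≠ 0 ∧ ‖j α‖ ≤ 1 ∧ ‖j β‖ ≤ 1 ∧ 3 ≤ p

/-- A curve over a number field with a place of degree one where the equation is integral. -/
structure Es (K : IF) (α β : Qbar) {p : ℕ} [Fact p.Prime] (φ : K →+* ℚ_[p])
    (j : Qbar →+* Om p) : Prop where
  fd : Fd K
  ma : α ∈ K
  mb : β ∈ K
  loc : Loc φ j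
  ei : Ei j α β

/-- `f` agrees with a rational function outside a finite set. -/
def RFn (f : Qbar → Qbar) : Prop :=
  ∃ N D : Qbar[X], D ≠ 0 ∧ ∀ᶠ x in Filter.cofinite, f x = N.eval x / D.eval x

/-- An automorphism over a larger field, seen over the smaller field. -/
def up {K₁ : IF} (h : K ≤ K₁) (ρ : GK K₁) : GK K :=
  AlgEquiv.ofRingEquiv (f := ρ.toRingEquiv) fun c => ρ.commutes ⟨c, h c.2⟩

lemma up_apply {K₁ : IF} (h : K ≤ K₁) (ρ : GK K₁) (x : Qbar) : up h ρ x = ρ x := rfl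

lemma ga_up {K₁ : IF} (h : K ≤ K₁) (ρ : GK K₁) (P : (ec α β).Point) : ga (up h ρ) P = ga ρ P := rfl

lemma ga_tw (hα : α ∈ K) (hβ : β ∈ K) (σ : GK K) : Tw α β (σ : Qbar →+* Qbar) 1 :=
  ⟨one_ne_zero, by rw [one_pow, one_mul]; exact σ.commutes ⟨α, hα⟩,
    by rw [one_pow, one_mul]; exact σ.commutes ⟨β, hβ⟩⟩

/-- The Galois action as an additive map. -/
def gah (hα : α ∈ K) (hβ : β ∈ K) (σ : GK K) : (ec α β).Point →+ (ec α β).Point :=
  AddMonoidHom.mk' (ga σ) (p_ETW α β _ _ (ga_tw hα hβ σ)).1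

lemma gah_apply (hα : α ∈ K) (hβ : β ∈ K) (σ : GK K) (P : (ec α β).Point) :
    gah hα hβ σ P = ga σ P := rfl

lemma ga_zero (σ : GK K) : ga σ (0 : (ec α β).Point) = 0 := rfl

section

variable (hα : α ∈ K) (hβ : β ∈ K) (σ ρ : GK K) (P Q : (ec α β).Point)
include hα hβ

lemma ga_add : ga σ (P + Q) = ga σ P + ga σ Q := map_add (gah hα hβ σ) P Q

lemma ga_neg : ga σ (-P) = -ga σ P := map_neg (gah hα hβ σ) P

lemma ga_sub : ga σ (P - Q) = ga σ P - ga σ Q := map_sub (gah hα hβ σ) P Q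

lemma ga_nsmul (n : ℕ) : ga σ (n • P) = n • ga σ P := map_nsmul (gah hα hβ σ) n P

lemma ga_zsmul (n : ℤ) : ga σ (n • P) = n • ga σ P := map_zsmul (gah hα hβ σ) n P

lemma ga_mul : ga (σ * ρ) P = ga σ (ga ρ P) := by
  rw [ga, ga, ga, ((p_ETW α β _ _ (ga_tw hα hβ σ)).2.2.2 _ _ (ga_tw hα hβ ρ)).2, map_one, one_mul]
  rfl

lemma ga_some {x y : Qbar} (h : (ec α β).Nonsingular x y) :
    ∃ h' : (ec α β).Nonsingular (σ x) (σ y), ga σ (.some x y h) = .some _ _ h' := by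
  obtain ⟨h', e⟩ := (p_ETW α β _ _ (ga_tw hα hβ σ)).2.1 x y h
  have e1 : (1 : Qbar) ^ 2 * (σ : Qbar →+* Qbar) x = σ x := by simp
  have e2 : (1 : Qbar) ^ 3 * (σ : Qbar →+* Qbar) y = σ y := by simp
  refine ⟨e1 ▸ e2 ▸ h', e.trans ?_⟩
  congr 1

lemma ga_one : ga (1 : GK K) P = P := by
  rcases P with _ | ⟨x, y, h⟩
  · rfl
  · exact (ga_some hα hβ 1 h).2

lemma ga_pow (n : ℕ) : ga (σ ^ n) P = (ga σ)^[n] P := by
  induction n with
  | zero => rw [pow_zero, ga_one hα hβ, Function.iterate_zero_apply]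
  | succ n ih => rw [pow_succ', ga_mul hα hβ, ih, Function.iterate_succ_apply']

lemma ga_inj : Function.Injective (ga σ : (ec α β).Point → (ec α β).Point) := fun P Q h => by
  have := congrArg (ga σ⁻¹) h
  rwa [← ga_mul hα hβ, ← ga_mul hα hβ, inv_mul_cancel, ga_one hα hβ, ga_one hα hβ] at this

lemma xp_ga : xp (ga σ P) = (xp P).map σ := by
  rcases P with _ | ⟨x, y, h⟩
  · rfl
  · rw [(ga_some hα hβ σ h).2]
    rfl

lemma tp_ga : tp (ga σ P) = σ (tp P) := by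
  rcases P with _ | ⟨x, y, h⟩
  · exact (map_zero σ).symm
  · rw [(ga_some hα hβ σ h).2]
    simp only [tp, map_div₀, map_neg]

lemma ga_twp {u : Qbar} (hu : u ∈ K) (ht : Tw α β (RingHom.id _) u) :
    ga σ (twp (RingHom.id _) u P) = twp (RingHom.id _) u (ga σ P) := by
  have e1 : (σ : Qbar →+* Qbar) u = u := σ.commutes ⟨u, hu⟩
  rw [ga, ga, ((p_ETW α β _ _ (ga_tw hα hβ σ)).2.2.2 _ _ ht).2,
    ((p_ETW α β _ _ ht).2.2.2 _ _ (ga_tw hα hβ σ)).2, RingHom.comp_id, RingHom.id_comp, e1,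
    map_one, one_mul, mul_one]

/-- The abelian points form a group. -/
def abG : AddSubgroup (ec α β).Point where
  carrier := {P | AbP K P}
  zero_mem' := fun _ _ => rfl
  add_mem' := fun h1 h2 σ ρ => by simp only [ga_add hα hβ, h1 σ ρ, h2 σ ρ]
  neg_mem' := fun h1 σ ρ => by simp only [ga_neg hα hβ, h1 σ ρ]

lemma mem_abG : P ∈ abG hα hβ ↔ AbP K P := Iff.rfl

variable {P}

lemma AbP.ga (h : AbP K P) : AbP K (ga σ P) := fun a b => by
  rw [h b σ, ← ga_mul hα hβ a σ, h (a * σ) b, ga_mul hα hβ]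

lemma AbP.tp (h : AbP K P) : Ab K (tp P) := fun a b => by
  rw [← tp_ga hα hβ, ← tp_ga hα hβ, h a b, tp_ga hα hβ, tp_ga hα hβ]

lemma AbP.xp (h : AbP K P) {x : Qbar} (hx : xp P = some x) : Ab K x := fun a b => by
  have := congrArg AO.xp (h a b)
  simpa only [xp_ga hα hβ, hx, Option.map_some, Option.some.injEq] using this

lemma Ker.ga {p : ℕ} [Fact p.Prime] {j : Qbar →+* Om p} (h : Ker j P) (hσ : Iso j σ) :
    Ker j (ga σ P) := fun x hx => by
  rw [xp_ga hα hβ] at hx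
  obtain ⟨y, h1, rfl⟩ := Option.map_eq_some_iff.1 hx
  rw [hσ]
  exact h y h1

end

lemma xp_neg (P : (ec α β).Point) : xp (-P) = xp P := by
  rcases P with _ | ⟨x, y, h⟩ <;> rfl

lemma xp_none {P : (ec α β).Point} : xp P = none ↔ P = 0 := by
  rcases P with _ | ⟨x, y, h⟩
  · exact ⟨fun _ => rfl, fun _ => rfl⟩
  · exact ⟨fun h => (by cases h), fun h => (by cases h)⟩

lemma xp_ex {P : (ec α β).Point} (h : P ≠ 0) : ∃ x, xp P = some x :=
  Option.ne_none_iff_exists'.1 fun e => h (xp_none.1 e)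

lemma xp_eq {P Q : (ec α β).Point} (h : xp P = xp Q) : P = Q ∨ P = -Q := by
  rcases P with _ | ⟨x, y, h1⟩ <;> rcases Q with _ | ⟨x', y', h2⟩
  · exact Or.inl rfl
  · cases h
  · cases h
  · exact WeierstrassCurve.Affine.Point.X_eq_iff.1 (Option.some.inj h)

lemma xp_fib {S : Set ProjLine} (hS : S.Finite) : {P : (ec α β).Point | xp P ∈ S}.Finite := by
  refine (hS.biUnion (t := fun c => {P : (ec α β).Point | xp P = c}) fun c _ => ?_).subset
    fun P hP => Set.mem_biUnion hP rfl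
  rcases Set.eq_empty_or_nonempty {P : (ec α β).Point | xp P = c} with h | ⟨Q, hQ⟩
  · rw [h]
    exact Set.finite_empty
  · exact (Set.toFinite {Q, -Q}).subset fun P hP => xp_eq (Eq.trans hP (Eq.symm hQ))

lemma typ_one (h : 4 * α ^ 3 + 27 * β ^ 2 ≠ 0) : Typ 1 α β := ⟨h, Or.inl rfl⟩

lemma xp_surj (h : 4 * α ^ 3 + 27 * β ^ 2 ≠ 0) (x : Qbar) : ∃ P : (ec α β).Point, xp P = some x :=
  (p_ETX p_ETW α β 1 (typ_one h)).2.1 x

lemma ex_fix (hK : Fd K) (hα : α ∈ K) (hβ : β ∈ K) {S : Set (ec α β).Point} (hS : S.Finite) :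
    ∃ K₁ : IF, Fd K₁ ∧ K ≤ K₁ ∧ ∀ T ∈ S, ∀ ρ : GK K₁, ga ρ T = T := by
  let c : (ec α β).Point → Set Qbar := fun T => match T with
    | 0 => ∅
    | .some x y _ => {x, y}
  obtain ⟨K₁, h1, h2, h3⟩ := ex_field hK (hS.biUnion (t := fun T => c T) fun T _ => by
    rcases T with _ | ⟨x, y, h⟩
    · exact Set.finite_empty
    · exact Set.toFinite {x, y})
  refine ⟨K₁, h1, h2, fun T hT ρ => ?_⟩
  rcases T with _ | ⟨x, y, h⟩
  · rfl
  · obtain ⟨h', e⟩ := ga_some (h2 hα) (h2 hβ) ρ h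
    have e1 : ρ x = x := ρ.commutes ⟨x, h3 x (Set.mem_biUnion hT (Or.inl rfl))⟩
    have e2 : ρ y = y := ρ.commutes ⟨y, h3 y (Set.mem_biUnion hT (Or.inr rfl))⟩
    rw [e]
    congr 1

end

end Pool.Agent.P.MP_8d2e9f_nt.AO
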