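import Pool.Agent.P.MP_8d2e9f_nt.G.Defs

/-! Rational maps with an invariant pluridifferential. -/

namespace Pool.Agent.P.MP_8d2e9f_nt.AO

open Polynomial Pool.Agent.P.MP_8d2e9f_nt.G

/-- The value `f (x) = num (x) / denom (x)` at a point `x` that is not a pole. -/
noncomputable def ratVal (f : RatFunc Qbar) (x : Qbar) : Qbar := f.num.eval x / f.denom.eval x

/-- The value `f' (x)` of the derivative at a point `x` that is not a pole. -/
noncomputable def ratDer (f : RatFunc Qbar) (x : Qbar) : Qbar :=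
  (derivative f.num * f.denom - f.num * derivative f.denom).eval x / f.denom.eval x ^ 2

/-- Some nonzero form `ω = (P / Q) dx ^ N` of positive weight `N` has `f^* ω = c ω` with `c ≠ 0`:
the identity `(P / Q) (f (x)) f' (x) ^ N = c (P / Q) (x)` holds outside a finite set. -/
def InvariantForm (f : RatFunc Qbar) : Prop :=
  ∃ (P Q : Qbar[X]) (N : ℕ) (c : Qbar), P ≠ 0 ∧ Q ≠ 0 ∧ 0 < N ∧ c ≠ 0 ∧
    {x : Qbar | P.eval (ratVal f x) / Q.eval (ratVal f x) * ratDer f x ^ N ≠
      c * (P.eval x / Q.eval x)}.Finite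

end Pool.Agent.P.MP_8d2e9f_nt.AO
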