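import Pool.Agent.P.MP_8d2e9f_nt.AO.TCURVR
import Pool.Agent.P.MP_8d2e9f_nt.AO.DefsE

/-! Points whose orbit has no pole, and invariant curves with their tangent relation. -/

set_option autoImplicit false

namespace Pool.Agent.P.MP_8d2e9f_nt.AO

open Polynomial NumberField Pool.Agent.P.MP_8d2e9f_nt.G
open scoped IntermediateField Classical

noncomputable section

/-- The forward orbit of `z` under `a / b` contains no pole. -/
def NP {K : IF} (a b : K[X]) (z : Qbar) : Prop := ∀ n : ℕ, aeval ((rm a b)^[n] z) b ≠ 0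

/-- The tangent relation along the curve `A = 0` under `(a / b, a / b)`. -/
def InvD {R : Type} [CommRing R] (a b : R[X]) (A : R[X][X]) : Prop :=
  ∀ (Ω : Type) [Field Ω] (ι : R →+* Ω) (u v : Ω), b.eval₂ ι u ≠ 0 → b.eval₂ ι v ≠ 0 →
    ev2 ι u v A = 0 →
      ev2 ι (rv ι a b u) (rv ι a b v) (dX A) * rv ι (wr a b) (b ^ 2) u * ev2 ι u v (derivative A) =
        ev2 ι (rv ι a b u) (rv ι a b v) (derivative A) * rv ι (wr a b) (b ^ 2) v * ev2 ι u v (dX A)

/-- `A` cuts out a reduced curve without horizontal components that is mapped into itself by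
`(a / b, a / b)`. -/
def CrvR {R : Type} [CommRing R] (a b : R[X]) (A : R[X][X]) : Prop :=
  InvC a b A ∧ InvD a b A ∧ (∃ U V r, r ≠ 0 ∧ U * A + V * derivative A = C r) ∧
    ∃ U V r, r ≠ 0 ∧ U * A + V * dX A = C r

/-- The map `φ` of degree `d` has an eigenform `dx ^ 12 / P`. -/
def ExcM (d : ℕ) (φ : ProjLine → ProjLine) : Prop :=
  ∃ a b P : Qbar[X], Pr d a b ∧ φ = im a b d ∧ Eig a b P

variable {K : IF} {a b : K[X]} {z : Qbar}

lemma rm_iter_gal (a b : K[X]) (σ : GK K) (n : ℕ) (z : Qbar) :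
    σ ((rm a b)^[n] z) = (rm a b)^[n] (σ z) := by
  induction n with
  | zero => rfl
  | succ n ih => rw [Function.iterate_succ_apply', Function.iterate_succ_apply', ← ih, rm_gal]

lemma NP.ne (h : NP a b z) : aeval z b ≠ 0 := h 0

lemma NP.gal (h : NP a b z) (σ : GK K) : NP a b (σ z) := fun n e => h n (σ.injective (by
  rw [← aeval_algHom_apply, rm_iter_gal, e, map_zero]))

lemma NP.rm (h : NP a b z) : NP a b (rm a b z) := fun n => h (n + 1)

lemma NP.ht {d : ℕ} {h : Qbar → ℝ} (hz : NP a b z) (hc : CanR d a b h) (n : ℕ) :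
    h ((AO.rm a b)^[n] z) = d ^ n * h z := by
  induction n with
  | zero => simp
  | succ n ih => rw [Function.iterate_succ_apply', hc.1 _ (hz n), ih, pow_succ', mul_assoc]

lemma rm_mem (a b : K[X]) (z : Qbar) : rm a b z ∈ K⟮z⟯ := div_mem
  (IntermediateField.algebra_adjoin_le_adjoin K {z} (aeval_mem_adjoin_singleton K z))
  (IntermediateField.algebra_adjoin_le_adjoin K {z} (aeval_mem_adjoin_singleton K z))

end

end Pool.Agent.P.MP_8d2e9f_nt.AO
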