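import Pool.Agent.P.MP_8d2e9f_nt.G.Defs

/-! The Northcott property. -/

namespace Pool.Agent.P.MP_8d2e9f_nt.AO

open Pool.Agent.P.MP_8d2e9f_nt.G

/-- Property (N): every subset of `F` of bounded height is finite. -/
def PropertyN (F : Subfield Qbar) : Prop :=
  ∀ B : ℝ, {x : Qbar | x ∈ F ∧ weilHeight (some x) ≤ B}.Finite

end Pool.Agent.P.MP_8d2e9f_nt.AO
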