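import Pool.Agent.P.MP_8d2e9f_nt.AO.BaseF

/-! The intermediate statements for preperiodic points of rational maps. -/

namespace Pool.Agent.P.MP_8d2e9f_nt.AO

open Polynomial NumberField Pool.Agent.P.MP_8d2e9f_nt.G
open scoped IntermediateField Classical

noncomputable section

/-! ### Auxiliary polynomials -/

-- deps: NUM PF CANR BASR SIEG1
def S_AUXA0 : Prop := ∀ (K : IF) (d : ℕ) (a b : K[X]) (h : Qbar → ℝ) (p : ℕ) [Fact p.Prime]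
  (φ : K →+* ℚ_[p]) (j : Qbar →+* Om p) (a₀ b₀ : ℤ_[p][X]) (Y : Set Qbar) (ε : ℝ) (G : ℤ[X]),
    St K d a b h φ j a₀ b₀ → (∀ σ : GK K, ∀ z ∈ Y, σ z ∈ Y) → (∀ z ∈ Y, NP a b z) → ε < 1 →
      G.Monic → AA h Y (fun z => (‖j z‖ ≤ 1 ∧ ‖aeval (j z) G‖ ≤ ε) ∨ 1 ≤ ε * ‖j z‖) →
        AA h Y fun _ => False

-- deps: NUM PF CANR BASR SIEG2
def S_AUXB0 : Prop := ∀ (K : IF) (d : ℕ) (a b : K[X]) (h : Qbar → ℝ) (p : ℕ) [Fact p.Prime]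
  (φ : K →+* ℚ_[p]) (j : Qbar →+* Om p) (a₀ b₀ : ℤ_[p][X]) (δ : ℝ) (q : ℕ)
  (P : Set (Qbar × Qbar)), St K d a b h φ j a₀ b₀ → δ < 1 →
    (∀ σ : GK K, ∀ x ∈ P, (σ x.1, σ x.2) ∈ P) →
      (∀ x ∈ P, NP a b x.1 ∧ NP a b x.2 ∧ h x.2 = h x.1) → (∀ x ∈ P, Cl q δ (j x.1) (j x.2)) →
        ∃ (A : K[X][X]) (ε : ℝ), A ≠ 0 ∧ 0 < ε ∧ ∀ x ∈ P, h x.1 < ε → aevalAeval x.1 x.2 A = 0

-- deps: AUXA0
def S_GAPG0 : Prop := ∀ (K : IF) (d : ℕ) (a b : K[X]) (h : Qbar → ℝ) (p : ℕ) [Fact p.Prime]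
  (φ : K →+* ℚ_[p]) (j : Qbar →+* Om p) (a₀ b₀ : ℤ_[p][X]) (Y : Set Qbar) (δ : ℝ) (g : ℤ_[p][X])
  (D : ℕ), St K d a b h φ j a₀ b₀ → (∀ σ : GK K, ∀ z ∈ Y, σ z ∈ Y) → (∀ z ∈ Y, NP a b z) → δ < 1 →
    g.map (zr p) ≠ 0 → AA h Y (fun z => ‖g.eval₂ (zo p) (j z)‖ ≤ δ * max 1 ‖j z‖ ^ D) →
      AA h Y fun _ => False

-- deps: GAPG0
def S_REDB0 : Prop := ∀ (K : IF) (d : ℕ) (a b : K[X]) (h : Qbar → ℝ) (p : ℕ) [Fact p.Prime]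
  (φ : K →+* ℚ_[p]) (j : Qbar →+* Om p) (a₀ b₀ : ℤ_[p][X]) (δ : ℝ) (q : ℕ)
  (P : Set (Qbar × Qbar)) (A : K[X][X]) (c : ℚ_[p]) (A₀ : ℤ_[p][X][X]),
    St K d a b h φ j a₀ b₀ → δ < 1 → (∀ σ : GK K, ∀ x ∈ P, (σ x.1, σ x.2) ∈ P) →
      (∀ x ∈ P, NP a b x.1) → Fib P → Lots (fun x => h x.1) P →
        (∀ x ∈ P, Cl q δ (j x.1) (j x.2)) →
          AA (fun x => h x.1) P (fun x => aevalAeval x.1 x.2 A = 0) → c ≠ 0 →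
            A.map (mapRingHom φ) = C (C c) * A₀.map (mapRingHom (zq p)) →
              (A₀.eval (X ^ q)).map (zr p) = 0

/-! ### The curve -/

-- deps: DX
def S_TANG : Prop := ∀ (k : Type) [Field k] (a b : k[X]) (n : ℕ) (A B : k[X][X]),
  (∀ i, (A.coeff i).natDegree ≤ n) → curvr_T a b n A = A * B → InvD a b A

-- deps: DX
def S_CRVR : Prop :=
  (∀ (k k' : Type) [Field k] [Field k'] (φ : k →+* k') (a b : k[X]) (A : k[X][X]), CrvR a b A →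
    CrvR (a.map φ) (b.map φ) (A.map (mapRingHom φ))) ∧
  ∀ (k : Type) [Field k] (a b : k[X]) (A : k[X][X]) (c : k), c ≠ 0 → CrvR a b (C (C c) * A) →
    CrvR a b A

-- deps: DX CURVF CANR TANG
def S_CURV0 : Prop := ∀ (K : IF) (d : ℕ) (a b : K[X]) (h : Qbar → ℝ) (P : Set (Qbar × Qbar))
  (A₀ : K[X][X]), Nrm d a b → CanR d a b h → (∀ x ∈ P, NP a b x.1 ∧ NP a b x.2) →
    Lots (fun x => h x.1) P → Fib P →
      AA (fun x => h x.1) P (fun x => (rm a b x.1, rm a b x.2) ∈ P) → A₀ ≠ 0 →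
        AA (fun x => h x.1) P (fun x => aevalAeval x.1 x.2 A₀ = 0) →
          ∃ A : K[X][X], A ≠ 0 ∧ AA (fun x => h x.1) P (fun x => aevalAeval x.1 x.2 A = 0) ∧
            CrvR a b A ∧ ∀ A' : K[X][X], A' ≠ 0 →
              AA (fun x => h x.1) P (fun x => aevalAeval x.1 x.2 A' = 0) →
                A.natDegree ≤ A'.natDegree

/-! ### Local steps -/

-- deps: ABG ACT CANR GAPG0
def S_COLL0 : Prop := ∀ (K : IF) (d : ℕ) (a b : K[X]) (h : Qbar → ℝ) (p : ℕ) [Fact p.Prime]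
  (φ : K →+* ℚ_[p]) (j : Qbar →+* Om p) (a₀ b₀ : ℤ_[p][X]) (δ : ℝ), St K d a b h φ j a₀ b₀ →
    wr (a₀.map (zr p)) (b₀.map (zr p)) ≠ 0 → δ < 1 →
      AA h {z | NP a b z ∧ Ab K z ∧
        ∃ s : GK K, s z ≠ z ∧ Acts K j 1 δ s z ∧ s (rm a b z) = rm a b z} fun _ => False

-- deps: ABG ACT PRIM CANR INVWR AUXB0 REDB0 CURV0 COLL0
def S_LOCB0 : Prop := ∀ (K : IF) (d : ℕ) (a b : K[X]) (h : Qbar → ℝ) (p : ℕ) [Fact p.Prime]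
  (φ : K →+* ℚ_[p]) (j : Qbar →+* Om p) (a₀ b₀ : ℤ_[p][X]) (δ : ℝ), St K d a b h φ j a₀ b₀ →
    wr (a₀.map (zr p)) (b₀.map (zr p)) ≠ 0 → δ < 1 →
      Lots h {z | NP a b z ∧ Ab K z ∧ ∃ s : GK K, s z ≠ z ∧ Acts K j 1 δ s z} →
        FormR (a₀.map (zr p)) (b₀.map (zr p))

-- deps: PRN GOODR
def S_PERMQ : Prop := ∀ (p : ℕ) [Fact p.Prime] (d : ℕ) (a b : ℤ_[p][X]) (F : Type) [NormedField F]
  [IsUltrametricDist F] [IsAlgClosed F] (e : ℚ_[p][X] →+* F) (σ : F →+* F) (Γ : Set (F ≃+* F))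
  (A₀ : ℤ_[p][X][X]), GdZ d a b → IsGFR a b e σ Γ → wr (a.map (zr p)) (b.map (zr p)) ≠ 0 →
    A₀.map (mapRingHom (zr p)) ≠ 0 → (A₀.eval (X ^ p)).map (zr p) = 0 →
      InvC (a.map (zq p)) (b.map (zq p)) (A₀.map (mapRingHom (zq p))) →
        ∃ (Z : Finset F) (π : F → F), Z.Nonempty ∧
          (∀ x, x ∈ Z ↔ (A₀.map (mapRingHom (zq p))).eval₂ e x = 0 ∧ ‖x - e X ^ p‖ < 1) ∧
            Set.BijOn π Z Z ∧
              ∀ x ∈ Z, σ (π x) = rv (e.comp C) (a.map (zq p)) (b.map (zq p)) x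

-- deps: PRN GOODR
def S_INVU : Prop := ∀ (p : ℕ) [Fact p.Prime] (d : ℕ) (a b : ℤ_[p][X]) (F : Type) [NormedField F]
  [IsUltrametricDist F] (e : ℚ_[p][X] →+* F) (σ : F →+* F) (Γ : Set (F ≃+* F)) (x : F),
    GdZ d a b → IsGFR a b e σ Γ → wr (a.map (zr p)) (b.map (zr p)) ≠ 0 → ‖x - e X ^ p‖ < 1 →
      (b.map (zq p)).eval₂ (e.comp C) x ≠ 0 ∧ ‖e (b.map (zq p))‖ = 1 ∧
        ‖e ((wr a b).map (zq p))‖ = 1 ∧
          ‖rv (e.comp C) ((wr a b).map (zq p)) (b.map (zq p) ^ 2) x /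
              (e ((wr a b).map (zq p)) / e (b.map (zq p)) ^ 2) -
            (e ((wr a b).map (zq p)) / e (b.map (zq p)) ^ 2) ^ (p - 1)‖ < 1

-- deps: PRN GOODR GFR APPRR PERMQ INVU
def S_INVR : Prop := ∀ (p : ℕ) [Fact p.Prime] (d : ℕ) (a b : ℤ_[p][X]) (A₀ : ℤ_[p][X][X]),
  GdZ d a b → wr (a.map (zr p)) (b.map (zr p)) ≠ 0 → A₀.map (mapRingHom (zr p)) ≠ 0 →
    (A₀.eval (X ^ p)).map (zr p) = 0 →
      CrvR (a.map (zq p)) (b.map (zq p)) (A₀.map (mapRingHom (zq p))) →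
        FormR (a.map (zr p)) (b.map (zr p))

-- deps: ABG ACT PRIM CANR AUXB0 REDB0 CRVR CURV0 INVR
def S_LOCA0 : Prop := ∀ (K : IF) (d : ℕ) (a b : K[X]) (h : Qbar → ℝ) (p : ℕ) [Fact p.Prime]
  (φ : K →+* ℚ_[p]) (j : Qbar →+* Om p) (a₀ b₀ : ℤ_[p][X]) (δ : ℝ) (τ : GK K),
    St K d a b h φ j a₀ b₀ → wr (a₀.map (zr p)) (b₀.map (zr p)) ≠ 0 → δ < 1 →
      Lots h {z | NP a b z ∧ Ab K z ∧ Acts K j p δ τ z} → FormR (a₀.map (zr p)) (b₀.map (zr p))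

-- deps: PRN GOODR FROB DICH LOCB0 LOCA0
def S_FORM0 : Prop := ∀ (K : IF) (d : ℕ) (a b : K[X]) (h : Qbar → ℝ), Fd K → Nrm d a b →
  CanR d a b h → Lots h {z | NP a b z ∧ Ab K z} → FormsR K d a b

/-! ### Assembly -/

-- deps: PRN CANH CANR LIFTR COMPO FORM0
def S_EIG0 : Prop := ∀ (K L : IF) (d : ℕ) (a b : Qbar[X]), Fd K → AbE K L → Nrm d a b →
  {z : Qbar | z ∈ L ∧ some z ∈ PP (im a b d) ∧ ∀ n : ℕ, (im a b d)^[n] (some z) ≠ none}.Infinite →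
    ∃ P, Eig a b P

-- deps: PRN
def S_PER1 : Prop := ∀ (d : ℕ) (a b : Qbar[X]), Nrm d a b →
  ∃ x : Qbar, im a b d (im a b d (some x)) = some x

-- deps: PRN CONJ PER1
def S_PER2 : Prop := ∀ (d : ℕ) (a b : Qbar[X]), 2 ≤ d → Pr d a b →
  ∃ c₁ c₂ : ProjLine, c₁ ≠ c₂ ∧ im a b d (im a b d c₁) = c₁ ∧ im a b d (im a b d c₂) = c₂

-- deps: PRN CJ COMPO EIG0
def S_EXM1 : Prop := ∀ (K L : IF) (d : ℕ) (a b : Qbar[X]) (c : ProjLine), Fd K → AbE K L →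
  2 ≤ d → Pr d a b → im a b d c = c →
    {x ∈ pts L ∩ PP (im a b d) | ∀ n : ℕ, (im a b d)^[n] x ≠ c}.Infinite → ExcM d (im a b d)

-- deps:
def S_RTF : Prop := ∀ f : RatFunc Qbar, 0 < ratDegree f →
  Pr (ratDegree f) f.num f.denom ∧ ratMap f = im f.num f.denom (ratDegree f) ∧
    wr f.num f.denom ≠ 0 ∧ Filter.Tendsto (ratVal f) Filter.cofinite Filter.cofinite

-- deps: CHN PCOMP RTF
def S_EXMA : Prop := ∀ f : RatFunc Qbar, 0 < ratDegree f →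
  ExcM (ratDegree f * ratDegree f) (ratMap f ∘ ratMap f) →
    ∃ (P : Qbar[X]) (c : Qbar), P ≠ 0 ∧ P.natDegree ≤ 24 ∧ c ≠ 0 ∧ ∀ᶠ x in Filter.cofinite,
      P.eval (ratVal f (ratVal f x)) = c * P.eval x * (ratDer f (ratVal f x) * ratDer f x) ^ 12

-- deps: MULT RTF EXMA
def S_EXM2 : Prop := ∀ f : RatFunc Qbar, 0 < ratDegree f →
  ExcM (ratDegree f * ratDegree f) (ratMap f ∘ ratMap f) → InvariantForm f

-- deps: PCOMP PER2 EXM1 RTF EXM2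
def S_PREP : Prop := ∀ (K L : IF) (f : RatFunc Qbar), Fd K → AbE K L → 2 ≤ ratDegree f →
  (pts L ∩ PP (ratMap f)).Infinite → InvariantForm f

end

end Pool.Agent.P.MP_8d2e9f_nt.AO
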