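import Pool.Agent.P.MP_8d2e9f_nt.AO.IfaceD
import Pool.Agent.P.MP_8d2e9f_nt.AO.IfaceE
import Pool.Agent.P.MP_8d2e9f_nt.AO.DefsF

/-! A tower of cyclotomic subfields of index seven, and rigid points. -/

set_option autoImplicit false

namespace Pool.Agent.P.MP_8d2e9f_nt.AO

open Polynomial NumberField Pool.Agent.P.MP_8d2e9f_nt.G
open scoped IntermediateField Classical

noncomputable section

/-- A number field with a place of degree one above `p`, a primitive `p`-th root of unity and an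
integer of order seven modulo `p`. -/
structure Lv : Type where
  p : ℕ
  [hp : Fact p.Prime]
  M : IF
  φ : M →+* ℚ_[p]
  j : Qbar →+* Om p
  ζ : Qbar
  h : ℕ
  loc : Loc φ j
  prim : IsPrimitiveRoot ζ p
  ord : orderOf (h : ZMod p) = 7

instance (l : Lv) : Fact l.p.Prime := l.hp

/-- The norm of `1 - ζ` to the subfield of index seven. -/
def Lv.u (l : Lv) : Qbar := ∏ k ∈ Finset.range 7, (1 - l.ζ ^ l.h ^ k)

/-- The levels form a tower that exhausts `Qbar`. -/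
def Tw7 (l : ℕ → Lv) : Prop :=
  (∀ i n, i < n → (l i).u ∈ (l n).M) ∧
    ∀ x : Qbar, ∀ᶠ n in Filter.atTop, x ∈ (l n).M ∧ (x ≠ 0 → ‖(l n).j x‖ = 1)

/-- The field generated by the norms. -/
def LL (l : ℕ → Lv) : IF := IntermediateField.adjoin ℚ (Set.range fun n => (l n).u)

/-- An automorphism over `K` that moves `z` very little at a place where `S` consists of units
fixes `z`. -/
def Rig (K : IF) (S : Set Qbar) (z : Qbar) : Prop :=
  ∀ (p : ℕ) [Fact p.Prime] (j : Qbar →+* Om p) (δ : ℝ) (s : GK K), 3 ≤ p →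
    (∀ c ∈ S, c ≠ 0 → ‖j c‖ = 1) → 0 < δ → δ ^ (p - 1) = (p : ℝ)⁻¹ ^ 7 →
      Cl 1 δ (j z) (j (s z)) → s z = z

/-- The rigid points of a finite extension of `L` lie in a number field. -/
def Dsc (L : IF) : Prop :=
  ∀ (K : IF) (S : Set Qbar), Fd K → S.Finite →
    ∃ K' : IF, Fd K' ∧ ∀ z ∈ L ⊔ K, Rig K S z → z ∈ K'

/-- The map `φ` has finitely many preperiodic points in every finite extension of `L`. -/
def FinA (L : IF) (φ : ProjLine → ProjLine) : Prop :=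
  ∀ K : IF, Fd K → (pts (L ⊔ K) ∩ PP φ).Finite

lemma Lv.h_ne (l : Lv) : ¬ l.p ∣ l.h := fun e => by
  have := l.ord
  rw [(ZMod.natCast_eq_zero_iff _ _).2 e, orderOf_zero] at this
  omega

lemma Lv.dvd (l : Lv) : 7 ∣ l.p - 1 :=
  l.ord ▸ orderOf_dvd_of_pow_eq_one (ZMod.pow_card_sub_one_eq_one
    fun e => l.h_ne ((ZMod.natCast_eq_zero_iff _ _).1 e))

lemma Lv.three (l : Lv) : 3 ≤ l.p := by
  have := l.hp.out.two_le
  have := Nat.le_of_dvd (by omega) l.dvd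
  omega

lemma prim_pow {p g : ℕ} (hp : p.Prime) {ζ : Qbar} (h : IsPrimitiveRoot ζ p) (hg : ¬ p ∣ g) :
    IsPrimitiveRoot (ζ ^ g) p := h.pow_of_coprime g (hp.coprime_iff_not_dvd.2 hg).symm

lemma Lv.prim_k (l : Lv) (k : ℕ) : IsPrimitiveRoot (l.ζ ^ l.h ^ k) l.p :=
  prim_pow l.hp.out l.prim fun e => l.h_ne (l.hp.out.dvd_of_dvd_pow e)

lemma Lv.pow7 (l : Lv) : l.ζ ^ l.h ^ 7 = l.ζ := by
  have h : l.h ^ 7 ≡ 1 [MOD l.p] := (ZMod.natCast_eq_natCast_iff _ _ _).1 (by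
    rw [Nat.cast_pow, Nat.cast_one, ← l.ord, pow_orderOf_eq_one])
  rw [pow_eq_pow_mod _ l.prim.pow_eq_one, h, ← pow_eq_pow_mod _ l.prim.pow_eq_one, pow_one]

lemma Lv.u_ne (l : Lv) : l.u ≠ 0 := Finset.prod_ne_zero_iff.2 fun k _ =>
  sub_ne_zero.2 ((l.prim_k k).ne_one l.hp.out.one_lt).symm

lemma Lv.u_mem (l : Lv) (N : IF) : l.u ∈ N⟮l.ζ⟯ := prod_mem fun _ _ =>
  sub_mem (one_mem _) (pow_mem (IntermediateField.mem_adjoin_simple_self N l.ζ) _)

lemma Lv.u_fix (l : Lv) {N : IF} {s : GK N} (hs : s l.ζ = l.ζ ^ l.h) : s l.u = l.u := by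
  have e : ∀ k, s (1 - l.ζ ^ l.h ^ k) = 1 - l.ζ ^ l.h ^ (k + 1) := fun k => by
    rw [map_sub, map_one, map_pow, hs, ← pow_mul, pow_succ']
  have h1 := Finset.prod_range_succ (fun k => 1 - l.ζ ^ l.h ^ k) 7
  rw [Finset.prod_range_succ', l.pow7, pow_zero, pow_one] at h1
  rw [Lv.u, map_prod, Finset.prod_congr rfl fun k _ => e k]
  exact mul_right_cancel₀ (sub_ne_zero.2 (l.prim.ne_one l.hp.out.one_lt).symm) h1

lemma mem_of_fix {N : IF} {z : Qbar} (h : ∀ ρ : GK N, ρ z = z) : z ∈ N := by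
  have : IsGalois N Qbar := IsGalois.tower_top_of_isGalois ℚ N Qbar
  obtain ⟨y, rfl⟩ := (InfiniteGalois.mem_range_algebraMap_iff_fixed z).2 h
  exact y.2

end

end Pool.Agent.P.MP_8d2e9f_nt.AO
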