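import Mathlib

set_option autoImplicit false

namespace Pool.Agent.P.MP_8d2e9f_nt.AO

open Finset Polynomial Subgroup

theorem exch {Γ : Type*} [CommGroup Γ] {p : ℕ} (hp : p.Prime) {H : Subgroup Γ}
    (hH : ∀ g, g ^ p ∈ H) {s t : Γ} (h1 : s ∈ H ⊔ zpowers t) (h2 : s ∉ H) :
    t ∈ H ⊔ zpowers s := by
  obtain ⟨h, hh, _, ⟨k, rfl⟩, rfl⟩ := Subgroup.mem_sup.1 h1
  have hp' : Prime (p : ℤ) := Nat.prime_iff_prime_int.1 hp
  have hk : ¬ (p : ℤ) ∣ k := by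
    rintro ⟨m, rfl⟩
    refine h2 (H.mul_mem hh ?_)
    simpa [zpow_mul] using H.zpow_mem (hH t) m
  obtain ⟨a, b, hab⟩ := (hp'.coprime_iff_not_dvd).2 hk
  have e : t = ((t ^ p) ^ a * (h ^ b)⁻¹) * (h * t ^ k) ^ b := by
    rw [mul_zpow, ← zpow_natCast, ← zpow_mul, ← zpow_mul, mul_assoc, inv_mul_cancel_left,
      ← zpow_add, mul_comm (p : ℤ), mul_comm k, hab, zpow_one]
  rw [e]
  exact mul_mem (mem_sup_left (H.mul_mem (H.zpow_mem (hH t) a) (H.inv_mem (H.zpow_mem hh b))))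
    (mem_sup_right (by rw [← e]; exact zpow_mem_zpowers _ _))

/-- the Sylow subgroup is cyclic or there is a quotient of type `(p, p)` -/
theorem grp_alt {Γ : Type*} [CommGroup Γ] [Finite Γ] {p : ℕ} (hp : p.Prime) :
    (∃ (σ : Γ) (j : ℕ), orderOf σ = p ^ j ∧ ¬ p ∣ (zpowers σ).index) ∨
    ∃ (s t : Γ) (H : Subgroup Γ), (∀ g, g ^ p ∈ H) ∧ s ∉ H ⊔ zpowers t ∧ t ∉ H ⊔ zpowers s ∧
      H ⊔ zpowers s ⊔ zpowers t = ⊤ := by
  let Q : Subgroup Γ := (powMonoidHom p).range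
  have hQ : ∀ g, g ^ p ∈ Q := fun g => ⟨g, rfl⟩
  by_cases h : ∃ s, Q ⊔ zpowers s = ⊤
  · obtain ⟨s, hs⟩ := h
    left
    obtain ⟨j, m, hm, hn⟩ := Nat.exists_eq_pow_mul_and_not_dvd (Nat.card_pos (α := Γ)).ne' p
      hp.ne_one
    have h1 : ∀ (n : ℕ) (g : Γ), ∃ (a : ℤ) (k : Γ), g = s ^ a * k ^ p ^ n := by
      intro n
      induction n with
      | zero => exact fun g => ⟨0, g, by simp⟩
      | succ n ih =>
        intro g
        obtain ⟨_, ⟨q, rfl⟩, _, ⟨a, rfl⟩, rfl⟩ := Subgroup.mem_sup.1 (hs ▸ mem_top g)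
        obtain ⟨b, k, rfl⟩ := ih q
        refine ⟨a + b * p, k, ?_⟩
        simp only [powMonoidHom_apply, mul_pow, zpow_add, zpow_mul, zpow_natCast, pow_succ, pow_mul]
        simp only [mul_comm, mul_assoc]
    have h2 : (s ^ m) ^ p ^ j = 1 := by rw [← pow_mul, mul_comm, ← hn, pow_card_eq_one']
    obtain ⟨i, -, hi⟩ := (Nat.dvd_prime_pow hp).1 (orderOf_dvd_of_pow_eq_one h2)
    refine ⟨s ^ m, i, hi, fun hd => hm ?_⟩
    have := Fact.mk hp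
    obtain ⟨q, hq⟩ := exists_prime_orderOf_dvd_card' (G := Γ ⧸ zpowers (s ^ m)) p hd
    obtain ⟨g, rfl⟩ := QuotientGroup.mk_surjective q
    rw [← hq, orderOf_dvd_iff_pow_eq_one, ← QuotientGroup.mk_pow, QuotientGroup.eq_one_iff]
    obtain ⟨a, k, rfl⟩ := h1 j g
    rw [mul_pow, ← pow_mul, ← hn, pow_card_eq_one', mul_one]
    exact ⟨a, by simp only [← zpow_natCast, ← zpow_mul, mul_comm]⟩
  · right
    push Not at h
    have h0 : ∀ K : Subgroup Γ, K ≠ ⊤ → ∃ g, g ∉ K := fun K hK => by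
      by_contra h1
      push Not at h1
      exact hK ((eq_top_iff' K).2 h1)
    obtain ⟨s, hs⟩ := h0 _ (h 1)
    obtain ⟨t, ht⟩ := h0 _ (h s)
    obtain ⟨H, -, ⟨h1, h2, h3⟩, h4⟩ := Finite.exists_le_maximal
      (p := fun H : Subgroup Γ => (∀ g, g ^ p ∈ H) ∧ s ∉ H ∧ t ∉ H ⊔ zpowers s)
      (a := Q) ⟨hQ, fun h => hs (mem_sup_left h), ht⟩
    refine ⟨s, t, H, h1, fun h5 => h3 (exch hp h1 h5 h2), h3, (eq_top_iff' _).2 fun g => ?_⟩
    by_contra hg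
    refine hg (mem_sup_left (mem_sup_left (h4 (y := H ⊔ zpowers g)
      ⟨fun g => mem_sup_left (h1 g), fun h5 => ?_, fun h5 => ?_⟩ le_sup_left
      (mem_sup_right (mem_zpowers g)))))
    · exact hg (mem_sup_left (exch hp h1 h5 h2))
    · rw [sup_right_comm] at h5
      exact hg (exch hp (fun g => mem_sup_left (h1 g)) h5 h3)

section

variable {E : Type*} [NormedField E] [IsUltrametricDist E]

/-- `ϖ` has the largest norm below one in `S` -/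
def Uni (S : Subfield E) (ϖ : E) : Prop :=
  ϖ ∈ S ∧ ϖ ≠ 0 ∧ ‖ϖ‖ < 1 ∧ ∀ x ∈ S, ‖x‖ < 1 → ‖x‖ ≤ ‖ϖ‖

omit [IsUltrametricDist E] in
theorem Uni.val {S : Subfield E} {ϖ : E} (h : Uni S ϖ) {x : E} (hx : x ∈ S) (h0 : x ≠ 0) :
    ∃ n : ℤ, ‖x‖ = ‖ϖ‖ ^ n := by
  obtain ⟨h1, h2, h3, h4⟩ := h
  have hr := norm_pos_iff.2 h2
  obtain ⟨n, h5, h6⟩ := exists_mem_Ico_zpow (norm_pos_iff.2 h0) ((one_lt_inv₀ hr).2 h3)
  refine ⟨-n, le_antisymm ?_ (by rwa [inv_zpow'] at h5)⟩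
  have h7 := h4 (x * ϖ ^ (n + 1)) (S.mul_mem hx (S.zpow_mem h1 _)) (by
    rw [norm_mul, norm_zpow, ← lt_div_iff₀ (zpow_pos hr _), one_div, ← inv_zpow]
    exact h6)
  rw [norm_mul, norm_zpow, zpow_add_one₀ hr.ne', ← mul_assoc, mul_le_iff_le_one_left hr,
    ← le_div_iff₀ (zpow_pos hr _), one_div, ← zpow_neg] at h7
  exact h7

theorem lt_add {a b : E} {r : ℝ} (h1 : ‖a‖ < r) (h2 : ‖b‖ < r) : ‖a + b‖ < r :=
  (IsUltrametricDist.norm_add_le_max _ _).trans_lt (max_lt h1 h2)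

theorem le_add {a b : E} {r : ℝ} (h1 : ‖a‖ ≤ r) (h2 : ‖b‖ ≤ r) : ‖a + b‖ ≤ r :=
  (IsUltrametricDist.norm_add_le_max _ _).trans (max_le h1 h2)

omit [IsUltrametricDist E] in
theorem lt_mul {a b : E} (h1 : ‖a‖ < 1) (h2 : ‖b‖ ≤ 1) : ‖a * b‖ < 1 := by
  rw [norm_mul]
  exact mul_lt_one_of_nonneg_of_lt_one_left (norm_nonneg _) h1 h2

/-- an inertia element moves integers no more than it moves the uniformiser -/
theorem Uni.move {S : Subfield E} {ϖ : E} (h : Uni S ϖ) (c : E →+* E) (hc : ∀ x, ‖c x‖ = ‖x‖)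
    (hR : ∀ z ∈ S, ‖z‖ ≤ 1 → ∃ a ∈ S, c a = a ∧ ‖z - a‖ < 1) {z : E} (hz : z ∈ S)
    (hz1 : ‖z‖ ≤ 1) : ‖c z - z‖ ≤ ‖c ϖ - ϖ‖ := by
  obtain ⟨h1, h2, h3, h4⟩ := h
  have hr := norm_pos_iff.2 h2
  have key : ∀ n : ℕ, ∀ z ∈ S, ‖z‖ ≤ 1 → ‖c z - z‖ ≤ max ‖c ϖ - ϖ‖ (‖ϖ‖ ^ n) := by
    intro n
    induction n with
    | zero =>
      intro z _ hz1
      rw [sub_eq_add_neg]
      exact le_max_of_le_right (le_add (by simpa [hc]) (by simpa))
    | succ n ih =>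
      intro z hz hz1
      obtain ⟨a, ha, h5, h6⟩ := hR z hz hz1
      have h7 : ‖(z - a) / ϖ‖ ≤ 1 := by
        rw [norm_div, div_le_one hr]
        exact h4 _ (S.sub_mem hz ha) h6
      have h8 := ih _ (S.div_mem (S.sub_mem hz ha) h1) h7
      have e : c z - z = (c ϖ - ϖ) * c ((z - a) / ϖ) + ϖ * (c ((z - a) / ϖ) - (z - a) / ϖ) := by
        have : c ϖ ≠ 0 := (map_ne_zero c).2 h2
        rw [map_div₀, map_sub, h5]
        field_simp
        ring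
      rw [e]
      refine le_add (le_max_of_le_left ?_) ?_
      · rw [norm_mul, hc]
        exact mul_le_of_le_one_right (norm_nonneg _) h7
      · rw [norm_mul]
        refine (mul_le_mul_of_nonneg_left h8 hr.le).trans ?_
        rw [mul_max_of_nonneg _ _ hr.le, pow_succ']
        exact max_le_max (mul_le_of_le_one_left (norm_nonneg _) h3.le) le_rfl
  by_contra h5
  push Not at h5
  obtain ⟨n, hn⟩ := exists_pow_lt_of_lt_one ((norm_nonneg _).trans_lt h5) h3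
  exact absurd (key n z hz hz1) (not_le.2 (max_lt h5 hn))

/-- powers of an element are orthogonal over elements with norms in `r ^ (p ℤ)` -/
theorem orth {p : ℕ} {ϖ : E} (h0 : ϖ ≠ 0) (h1 : ‖ϖ‖ < 1) (b : ℕ → E)
    (hb : ∀ j, b j ≠ 0 → ∃ n : ℤ, ‖b j‖ = (‖ϖ‖ ^ p) ^ n) {k : ℕ} (hk : k < p) :
    ‖b k * ϖ ^ k‖ ≤ ‖∑ j ∈ range p, b j * ϖ ^ j‖ := by
  classical
  rcases eq_or_ne (b k) 0 with h | h
  · simp [h]
  have hr := norm_pos_iff.2 h0
  have hm : k ∈ (range p).filter fun j => b j ≠ 0 := by simp [hk, h]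
  rw [← sum_filter_of_ne (p := fun j => b j ≠ 0) fun j _ h => left_ne_zero_of_mul h,
    IsUltrametricDist.norm_sum_eq_sup'_of_pairwise_ne ⟨k, hm⟩]
  · exact le_sup' (fun j => ‖b j * ϖ ^ j‖) hm
  intro i hi j hj hij he
  simp only [coe_filter, mem_range, Set.mem_ofPred_eq] at hi hj
  obtain ⟨m, hm⟩ := hb i hi.2
  obtain ⟨n, hn⟩ := hb j hj.2
  rw [norm_mul, norm_mul, hm, hn, norm_pow, norm_pow, ← zpow_natCast, ← zpow_natCast,
    ← zpow_natCast, ← zpow_mul, ← zpow_mul, ← zpow_add₀ hr.ne', ← zpow_add₀ hr.ne'] at he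
  have h2 := zpow_right_injective₀ hr h1.ne he
  have h3 : (i : ℤ) - j = 0 := Int.eq_zero_of_abs_lt_dvd (m := p) ⟨n - m, by linear_combination h2⟩
    (abs_lt.2 ⟨by omega, by omega⟩)
  omega

theorem res_lem {p : ℕ} (hp : p.Prime) (hpn : ‖(p : E)‖ < 1) {w : E} (hw : ‖w‖ ≤ 1) :
    (‖w ^ p - 1‖ < 1 → ‖w - 1‖ < 1) ∧ (‖w ^ p - w‖ < 1 → ∃ n : ℕ, ‖w - n‖ < 1) := by
  let O := (NormedField.valuation (K := E)).valuationSubring
  have mO : ∀ z : E, z ∈ O ↔ ‖z‖ ≤ 1 := fun z => by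
    rw [Valuation.mem_valuationSubring_iff]
    exact NNReal.coe_le_coe.symm
  let res := IsLocalRing.residue O
  have r0 : ∀ a : O, res a = 0 ↔ ‖(a : E)‖ < 1 := fun a => by
    rw [IsLocalRing.residue_eq_zero_iff, Valuation.mem_maximalIdeal_iff]
    exact NNReal.coe_lt_coe.symm
  have := Fact.mk hp
  have : CharP (IsLocalRing.ResidueField O) p := (CharP.charP_iff_prime_eq_zero hp).2 (by
    rw [← map_natCast res, r0]
    simpa using hpn)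
  let a : O := ⟨w, (mO w).2 hw⟩
  refine ⟨fun h => (r0 (a - 1)).1 (pow_eq_zero_iff hp.ne_zero |>.1 ?_), fun h => ?_⟩
  · simpa [sub_pow_char] using (r0 (a ^ p - 1)).2 h
  · have h1 : res a ^ p = res a := by simpa [sub_eq_zero] using (r0 (a ^ p - a)).2 h
    rw [← Subfield.mem_bot_iff_pow_eq_self, ← ZMod.fieldRange_castHom_eq_bot p] at h1
    obtain ⟨n, hn⟩ := h1
    refine ⟨n.val, (r0 (a - (n.val : ℕ))).1 ?_⟩
    rw [map_sub, map_natCast, ← hn, ZMod.castHom_apply, ZMod.natCast_val, sub_self]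

theorem prod_shift {M : Type*} [CommMonoid M] (f : ℕ → M) {p : ℕ} (hp : p ≠ 0) (h : f p = f 0) :
    ∏ j ∈ range p, f (j + 1) = ∏ j ∈ range p, f j := by
  obtain ⟨q, rfl⟩ := Nat.exists_eq_succ_of_ne_zero hp
  rw [prod_range_succ, prod_range_succ' f, h]

variable {Γ : Type*} [CommGroup Γ] [MulSemiringAction Γ E]

/-- `c` generates a layer of degree `p` between `S'` and `S` -/
structure Lay (S S' : Subfield E) (c : Γ) (p : ℕ) : Prop where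
  st : ∀ x ∈ S, c • x ∈ S
  pw : ∀ x ∈ S, c ^ p • x = x
  fx : ∀ x, x ∈ S' ↔ x ∈ S ∧ c • x = x
  mv : ∃ x ∈ S, c • x ≠ x
  rs : ∀ z ∈ S, ‖z‖ ≤ 1 → ∃ a ∈ S', ‖z - a‖ < 1

variable {S S' : Subfield E} {c : Γ} {p : ℕ}

omit [IsUltrametricDist E] in
theorem Lay.pow_mem (L : Lay S S' c p) {x : E} (hx : x ∈ S) (j : ℕ) : c ^ j • x ∈ S := by
  induction j with
  | zero => simpa
  | succ j ih => rw [pow_succ', mul_smul]; exact L.st _ ih

omit [IsUltrametricDist E] in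
theorem Lay.coeff_mem (L : Lay S S' c p) (hp : p ≠ 0) {x : E} (hx : x ∈ S) (i : ℕ) :
    (∏ j ∈ range p, (X - C (c ^ j • x))).coeff i ∈ S' := by
  refine (L.fx _).2 ⟨?_, ?_⟩
  · have e : ∏ j ∈ range p, (X - C (c ^ j • x)) =
        (∏ j ∈ range p, (X - C (⟨c ^ j • x, L.pow_mem hx j⟩ : S))).map S.subtype := by
      simp [Polynomial.map_prod]
    rw [e, coeff_map]
    exact Subtype.prop _
  · have e := prod_shift (fun j => X - C (c ^ j • x)) hp (by simp [L.pw x hx])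
    conv_rhs => rw [← e]
    change MulSemiringAction.toRingHom Γ E c _ = _
    rw [← coeff_map]
    simp [Polynomial.map_prod, pow_succ', mul_smul]

omit [IsUltrametricDist E] in
theorem norm_coeff_zero (hiso : ∀ (g : Γ) (x : E), ‖g • x‖ = ‖x‖) (x : E) :
    ‖(∏ j ∈ range p, (X - C (c ^ j • x))).coeff 0‖ = ‖x‖ ^ p := by
  simp [coeff_zero_eq_eval_zero, eval_prod, hiso]

omit [IsUltrametricDist E] in
theorem Lay.val (L : Lay S S' c p) (hp : p ≠ 0) (hiso : ∀ (g : Γ) (x : E), ‖g • x‖ = ‖x‖)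
    {ϖ : E} (h : Uni S' ϖ) {x : E} (hx : x ∈ S) (h0 : x ≠ 0) : ∃ n : ℤ, ‖x‖ ^ p = ‖ϖ‖ ^ n := by
  rw [← norm_coeff_zero (c := c) hiso]
  refine h.val (L.coeff_mem hp hx 0) (norm_pos_iff.1 ?_)
  rw [norm_coeff_zero hiso]
  positivity

omit [IsUltrametricDist E] in
theorem Lay.uni (L : Lay S S' c p) (hp : p ≠ 0) (hiso : ∀ (g : Γ) (x : E), ‖g • x‖ = ‖x‖)
    {ϖ : E} (h : Uni S' ϖ) : ∃ ϖ', Uni S ϖ' := by
  classical
  have hr := norm_pos_iff.2 h.2.1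
  have h1 : ∃ n : ℕ, ∃ x ∈ S, x ≠ 0 ∧ ‖x‖ < 1 ∧ ‖x‖ ^ p = ‖ϖ‖ ^ n :=
    ⟨p, ϖ, ((L.fx _).1 h.1).1, h.2.1, h.2.2.1, rfl⟩
  obtain ⟨y, hy, h2, h3, h4⟩ := Nat.find_spec h1
  refine ⟨y, hy, h2, h3, fun x hx h5 => ?_⟩
  rcases eq_or_ne x 0 with rfl | h0
  · simp
  obtain ⟨n, hn⟩ := L.val hp hiso h hx h0
  have h6 : 0 < n := by
    rw [← zpow_lt_one_iff_right_of_lt_one₀ hr h.2.2.1, ← hn]
    exact pow_lt_one₀ (norm_nonneg _) h5 hp
  lift n to ℕ using h6.le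
  rw [zpow_natCast] at hn
  rw [← pow_le_pow_iff_left₀ (norm_nonneg _) (norm_nonneg _) hp, hn, h4]
  exact pow_le_pow_of_le_one hr.le h.2.2.1.le (Nat.find_min' h1 ⟨x, hx, h0, h5, hn⟩)

theorem Lay.ram (L : Lay S S' c p) (hp : p.Prime) (hiso : ∀ (g : Γ) (x : E), ‖g • x‖ = ‖x‖)
    {ϖ ϖ' : E} (h : Uni S ϖ) (h' : Uni S' ϖ') : ‖ϖ‖ ^ p = ‖ϖ'‖ := by
  have hr := norm_pos_iff.2 h.2.1
  have hm := (L.fx _).1 h'.1
  obtain ⟨n, hn⟩ := L.val hp.ne_zero hiso h' h.1 h.2.1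
  obtain ⟨k, hk⟩ := h.val hm.1 h'.2.1
  have h1 : 0 < k := by
    rw [← zpow_lt_one_iff_right_of_lt_one₀ hr h.2.2.1, ← hk]
    exact h'.2.2.1
  lift k to ℕ using h1.le
  rw [hk, ← zpow_mul, ← zpow_natCast] at hn
  have h2 := zpow_right_injective₀ hr h.2.2.1.ne hn
  rcases (Nat.dvd_prime hp).1 (Int.natCast_dvd_natCast.1 ⟨n, h2⟩) with rfl | rfl
  · exfalso
    have h3 : Uni S ϖ' := ⟨hm.1, h'.2.1, h'.2.2.1, fun x hx h4 => by
      simpa [hk] using h.2.2.2 x hx h4⟩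
    have h4 : ∀ z ∈ S, ‖z‖ ≤ 1 → c • z = z := fun z hz h5 => by
      have h6 := h3.move (MulSemiringAction.toRingHom Γ E c) (hiso c) (fun z hz h5 => by
        obtain ⟨a, ha, h6⟩ := L.rs z hz h5
        exact ⟨a, ((L.fx a).1 ha).1, ((L.fx a).1 ha).2, h6⟩) hz h5
      simpa [hm.2, sub_eq_zero] using h6
    obtain ⟨x, hx, h5⟩ := L.mv
    rcases le_total ‖x‖ 1 with h6 | h6
    · exact h5 (h4 x hx h6)
    · have h7 := h4 _ (S.inv_mem hx) (by rw [norm_inv]; exact inv_le_one_of_one_le₀ h6)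
      exact h5 (by simpa using h7)
  · rw [hk, zpow_natCast]

theorem norm_sub_pow (hiso : ∀ (g : Γ) (x : E), ‖g • x‖ = ‖x‖) (x : E) (j : ℕ) :
    ‖x - c ^ j • x‖ ≤ ‖c • x - x‖ := by
  induction j with
  | zero => simp
  | succ j ih =>
    rw [show x - c ^ (j + 1) • x = (x - c ^ j • x) + -(c ^ j • (c • x - x)) by
      rw [pow_succ, mul_smul, smul_sub]; ring]
    exact le_add ih (by rw [norm_neg, hiso])

/-- the jump of a wild layer of degree `p` over an unramified base is one -/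
theorem Lay.jump (L : Lay S S' c p) (hp : p.Prime) (h2 : p ≠ 2)
    (hiso : ∀ (g : Γ) (x : E), ‖g • x‖ = ‖x‖) {ϖ : E} (h : Uni S ϖ) (h' : Uni S' (p : E)) :
    ‖ϖ‖ ^ 2 ≤ ‖c • ϖ - ϖ‖ := by
  by_contra h1
  push Not at h1
  have hr := norm_pos_iff.2 h.2.1
  have h3 : ‖c • ϖ - ϖ‖ ≤ ‖ϖ‖ ^ 3 := by
    have h4 := h.2.2.2 ((c • ϖ - ϖ) / ϖ ^ 2)
      (S.div_mem (S.sub_mem (L.st _ h.1) h.1) (S.pow_mem h.1 2))
      (by rwa [norm_div, norm_pow, div_lt_one (by positivity)])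
    rwa [norm_div, norm_pow, div_le_iff₀ (by positivity), ← pow_succ'] at h4
  have h4 := L.ram hp hiso h h'
  have h5 := L.coeff_mem hp.ne_zero h.1
  obtain ⟨q, rfl⟩ := Nat.exists_eq_succ_of_ne_zero hp.ne_zero
  set g := ∏ j ∈ range q.succ, (X - C (c ^ j • ϖ)) with hg
  have hm : g.Monic := monic_prod_X_sub_C _ _
  have hd : g.natDegree = q + 1 := by rw [hg, natDegree_finsetProd_X_sub_C_eq_card, card_range]
  have h6 := orth (p := q + 1) h.2.1 h.2.2.1 (fun j => g.derivative.coeff j) (fun j hj => by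
    rw [h4]
    refine h'.val ?_ hj
    rw [coeff_derivative]
    exact S'.mul_mem (h5 _) (S'.add_mem (natCast_mem S' j) S'.one_mem)) (k := q) q.lt_succ_self
  rw [← eval_eq_sum_range' (natDegree_derivative_lt (by omega) |>.trans_eq hd), coeff_derivative,
    ← hd, hm.coeff_natDegree, one_mul, norm_mul, norm_pow] at h6
  have h7 : ‖eval ϖ g.derivative‖ ≤ (‖ϖ‖ ^ 3) ^ q := by
    rw [hg, prod_range_succ', derivative_mul]
    simp only [pow_zero, one_smul, eval_add, eval_mul, eval_sub, eval_X, eval_C, sub_self,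
      mul_zero, zero_add, derivative_sub, derivative_X, derivative_C, sub_zero, mul_one,
      eval_prod, norm_prod]
    rw [← card_range q, ← prod_const, card_range]
    exact prod_le_prod (fun _ _ => norm_nonneg _) fun j _ => (norm_sub_pow hiso ϖ _).trans h3
  have h8 : ‖ϖ‖ ^ (q + 1 + q) ≤ ‖ϖ‖ ^ (3 * q) := by
    rw [pow_add, pow_mul]
    refine le_trans (le_of_eq ?_) (h6.trans h7)
    rw [h4]
    push_cast
    rfl
  rw [pow_le_pow_iff_right_of_lt_one₀ hr h.2.2.1] at h8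
  have := hp.two_le
  omega

omit [IsUltrametricDist E] in
theorem mem_fx {H : Subgroup Γ} {x : E} :
    x ∈ FixedPoints.subfield H E ↔ H ≤ MulAction.stabilizer Γ x :=
  ⟨fun h g hg => h ⟨g, hg⟩, fun h g => h g.2⟩

omit [IsUltrametricDist E] in
theorem lay [Finite Γ] [FaithfulSMul Γ E]
    (hR : ∀ z : E, ‖z‖ ≤ 1 → ∃ a : E, (∀ g : Γ, g • a = a) ∧ ‖z - a‖ < 1) {H : Subgroup Γ}
    (h1 : c ^ p ∈ H) (h2 : c ∉ H) :
    Lay (FixedPoints.subfield H E) (FixedPoints.subfield (H ⊔ zpowers c : Subgroup Γ) E) c p where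
  st := fun x hx g => by
    change (g : Γ) • c • x = c • x
    rw [smul_comm, mem_fx.1 hx g.2]
  pw := fun x hx => mem_fx.1 hx h1
  fx := fun x => by simp [mem_fx]
  mv := by
    by_contra h
    push Not at h
    obtain ⟨g, hg⟩ := FixedPoints.toAlgAut_surjective H E
      (AlgEquiv.ofRingEquiv (f := MulSemiringAction.toRingEquiv Γ E c) fun x => h x x.2)
    have e : (g : Γ) = c := eq_of_smul_eq_smul (α := E) fun x => DFunLike.congr_fun hg x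
    exact h2 (e ▸ g.2)
  rs := fun z _ hz => by
    obtain ⟨a, ha, h3⟩ := hR z hz
    exact ⟨a, fun g => ha g, h3⟩

/-- wild inertia moves a uniformiser by at most its square -/
theorem Uni.wild (hp : p.Prime) (hpn : ‖(p : E)‖ < 1) (hiso : ∀ (g : Γ) (x : E), ‖g • x‖ = ‖x‖)
    {ϖ : E} (h : Uni S ϖ) (hI : ∀ z : E, ‖z‖ ≤ 1 → ‖c • z - z‖ < 1) (h1 : c • ϖ ∈ S)
    (h2 : c ^ p • ϖ = ϖ) : ‖c • ϖ - ϖ‖ ≤ ‖ϖ‖ ^ 2 := by
  have h0 := h.2.1
  have hr := norm_pos_iff.2 h0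
  have n1 : ∀ g : Γ, ‖g • ϖ / ϖ‖ = 1 := fun g => by rw [norm_div, hiso, div_self hr.ne']
  have h3 : ∀ n : ℕ, ‖(c • ϖ / ϖ) ^ n - c ^ n • ϖ / ϖ‖ < 1 := fun n => by
    induction n with
    | zero => simp [h0]
    | succ n ih =>
      have e : (c • ϖ / ϖ) ^ (n + 1) - c ^ (n + 1) • ϖ / ϖ = ((c • ϖ / ϖ) ^ n - c ^ n • ϖ / ϖ +
          -(c • (c ^ n • ϖ / ϖ) - c ^ n • ϖ / ϖ)) * (c • ϖ / ϖ) := by
        have : c • ϖ ≠ 0 := (smul_ne_zero_iff_ne c).2 h0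
        rw [pow_succ' c, mul_smul, smul_div₀', pow_succ]
        field_simp
        ring
      rw [e]
      exact lt_mul (lt_add ih (by rw [norm_neg]; exact hI _ (n1 _).le)) (n1 c).le
  have h4 := h3 p
  rw [h2, div_self h0] at h4
  have h5 := h.2.2.2 _ (S.sub_mem (S.div_mem h1 h.1) S.one_mem) ((res_lem hp hpn (n1 c).le).1 h4)
  rwa [div_sub_one h0, norm_div, div_le_iff₀ hr, ← pow_two] at h5

variable [Finite Γ] [FaithfulSMul Γ E]

theorem wild_key (hp : p.Prime) (h2 : p ≠ 2) (hiso : ∀ (g : Γ) (x : E), ‖g • x‖ = ‖x‖)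
    (hI : ∀ (g : Γ) (z : E), ‖z‖ ≤ 1 → ‖g • z - z‖ < 1)
    (hA : Uni (FixedPoints.subfield (⊤ : Subgroup Γ) E) (p : E))
    (hR : ∀ z : E, ‖z‖ ≤ 1 → ∃ a : E, (∀ g : Γ, g • a = a) ∧ ‖z - a‖ < 1) {H : Subgroup Γ}
    (hH : ∀ g, g ^ p ∈ H) {s : Γ} (h1 : c ∉ H) (h3 : s ∉ H ⊔ zpowers c)
    (h4 : H ⊔ zpowers c ⊔ zpowers s = ⊤) {ϖ : E} (h : Uni (FixedPoints.subfield H E) ϖ) :
    ‖ϖ‖ ^ 2 ≤ ‖s • ϖ - ϖ‖ := by
  by_contra h5
  push Not at h5
  have L := lay hR (hH c) h1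
  have L' := lay hR (mem_sup_left (hH s)) h3
  rw [h4] at L'
  have hr := norm_pos_iff.2 h.2.1
  obtain ⟨ϖ', h'⟩ := L'.uni hp.ne_zero hiso hA
  have h6 := L.ram hp hiso h h'
  have h7 := L.coeff_mem hp.ne_zero h.1
  have h8 := norm_coeff_zero (c := c) (p := p) hiso ϖ
  set g := ∏ j ∈ range p, (X - C (c ^ j • ϖ)) with hg
  have h9 : Uni _ (g.coeff 0) := ⟨h7 0, norm_pos_iff.1 (by rw [h8]; positivity),
    by rw [h8, h6]; exact h'.2.2.1, by rw [h8, h6]; exact h'.2.2.2⟩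
  have hd : g.natDegree = p := by rw [hg, natDegree_finsetProd_X_sub_C_eq_card, card_range]
  have hm : g.coeff p = 1 := hd ▸ (monic_prod_X_sub_C _ _).coeff_natDegree
  have h10 := (L'.jump hp h2 hiso h9 hA).trans (by
    simpa using orth (p := p) h.2.1 h.2.2.1 (fun j => s • g.coeff j - g.coeff j) (fun j hj => by
      rw [h6]
      exact h'.val (sub_mem (L'.st _ (h7 j)) (h7 j)) hj) hp.pos)
  have e : ∑ j ∈ range p, (s • g.coeff j - g.coeff j) * ϖ ^ j =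
      ∏ j ∈ range p, (ϖ - (s * c ^ j) • ϖ) := by
    have e1 := eval_eq_sum_range' (hd ▸ p.lt_succ_self : g.natDegree < p + 1) ϖ
    have e2 := eval_eq_sum_range' (p := g.map (MulSemiringAction.toRingHom Γ E s)) (n := p + 1)
      (natDegree_map_le.trans_lt (hd ▸ p.lt_succ_self)) ϖ
    rw [sum_range_succ] at e1 e2
    simp only [coeff_map, hm, map_one, MulSemiringAction.toRingHom_apply] at e1 e2
    rw [hg, eval_prod, prod_eq_zero (mem_range.2 hp.pos) (by simp), ← hg] at e1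
    simp only [sub_mul, sum_sub_distrib, mul_smul]
    rw [hg] at e2
    simp only [Polynomial.map_prod, eval_prod, Polynomial.map_sub, map_X, map_C, eval_sub, eval_X,
      eval_C, MulSemiringAction.toRingHom_apply] at e2
    rw [e2, hg]
    linear_combination e1
  rw [e, h8, norm_prod, ← pow_mul, mul_comm, pow_mul, ← card_range p, ← prod_const,
    card_range] at h10
  refine absurd h10 (not_le.2 ?_)
  obtain ⟨q, rfl⟩ := Nat.exists_eq_succ_of_ne_zero hp.ne_zero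
  rw [prod_range_succ', prod_range_succ', pow_zero, mul_one, norm_sub_rev]
  refine mul_lt_mul' (prod_le_prod (fun _ _ => norm_nonneg _) fun j _ => ?_) h5 (norm_nonneg _)
    (by positivity)
  rw [norm_sub_rev]
  refine h.wild hp hA.2.2.1 hiso (hI _) (fun k => ?_) (mem_fx.1 h.1 (hH _))
  change (k : Γ) • (s * c ^ (j + 1)) • ϖ = _
  rw [smul_comm, mem_fx.1 h.1 k.2]

theorem no_pp (hp : p.Prime) (h2 : p ≠ 2) (hiso : ∀ (g : Γ) (x : E), ‖g • x‖ = ‖x‖)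
    (hI : ∀ (g : Γ) (z : E), ‖z‖ ≤ 1 → ‖g • z - z‖ < 1)
    (hA : Uni (FixedPoints.subfield (⊤ : Subgroup Γ) E) (p : E))
    (hR : ∀ z : E, ‖z‖ ≤ 1 → ∃ a : E, (∀ g : Γ, g • a = a) ∧ ‖z - a‖ < 1) (τ : E →+* E)
    (t1 : ∀ x, ‖τ x‖ = ‖x‖) (t2 : ∀ (g : Γ) x, τ (g • x) = g • τ x)
    (t3 : ∀ z, ‖z‖ ≤ 1 → ‖τ z - z ^ p‖ < 1) {H : Subgroup Γ} (hH : ∀ g, g ^ p ∈ H) {s t : Γ}
    (h1 : s ∉ H ⊔ zpowers t) (h3 : t ∉ H ⊔ zpowers s) (h4 : H ⊔ zpowers s ⊔ zpowers t = ⊤) :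
    False := by
  have hs : s ∉ H := fun h => h1 (mem_sup_left h)
  have L' := lay hR (mem_sup_left (hH t)) h3
  rw [h4] at L'
  obtain ⟨ϖ', h'⟩ := L'.uni hp.ne_zero hiso hA
  obtain ⟨ϖ, h⟩ := (lay hR (hH s) hs).uni hp.ne_zero hiso h'
  have h0 := h.2.1
  have hr := norm_pos_iff.2 h0
  have hS : ∀ (g : Γ) x, x ∈ FixedPoints.subfield H E → g • x ∈ FixedPoints.subfield H E :=
    fun g x hx k => by
      change (k : Γ) • g • x = _
      rw [smul_comm, mem_fx.1 hx k.2]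
  have hw := fun g : Γ => h.wild hp hA.2.2.1 hiso (hI g) (hS g _ h.1) (mem_fx.1 h.1 (hH g))
  let θ : Γ → E := fun g => (g • ϖ - ϖ) / ϖ ^ 2
  have a0 : ∀ g, ‖θ g‖ = ‖g • ϖ - ϖ‖ / ‖ϖ‖ ^ 2 := fun g => by rw [norm_div, norm_pow]
  have a1 : ∀ g, ‖θ g‖ ≤ 1 := fun g => by
    rw [a0, div_le_one (by positivity)]
    exact hw g
  have g0 : ∀ g : Γ, g • ϖ ≠ 0 := fun g => (smul_ne_zero_iff_ne g).2 h0
  have n1 : ∀ g : Γ, ‖g • ϖ / ϖ‖ = 1 := fun g => by rw [norm_div, hiso, div_self hr.ne']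
  have a2 : ∀ g k, ‖θ (g * k) - (θ g + θ k)‖ < 1 := fun g k => by
    have e : θ (g * k) - (θ g + θ k) = (g • θ k - θ k) +
        ϖ * (θ g * (g • θ k * (g • ϖ / ϖ + 1))) := by
      have := g0 g
      simp only [θ, smul_div₀', smul_sub, smul_pow', mul_smul]
      field_simp
      ring
    rw [e]
    refine lt_add (hI g _ (a1 k)) (lt_mul h.2.2.1 ?_)
    rw [norm_mul, norm_mul, hiso]
    exact mul_le_one₀ (a1 g) (by positivity)
      (mul_le_one₀ (a1 k) (norm_nonneg _) (le_add (n1 g).le norm_one.le))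
  have τ0 : τ ϖ ≠ 0 := (map_ne_zero τ).2 h0
  obtain ⟨u, hu⟩ : ∃ u, u = τ ϖ / ϖ := ⟨_, rfl⟩
  have u1 : ‖u‖ = 1 := by rw [hu, norm_div, t1, div_self hr.ne']
  have u0 : u ≠ 0 := norm_pos_iff.1 (by rw [u1]; exact one_pos)
  have u2 : u ∈ FixedPoints.subfield H E := hu ▸ div_mem (fun k => by
    change (k : Γ) • τ ϖ = _
    rw [← t2, mem_fx.1 h.1 k.2]) h.1
  have a3 : ∀ g, ‖u * θ g ^ p - θ g‖ < 1 := fun g => by
    have h5 : ‖(g • u - u) / ϖ‖ < 1 := by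
      have h5 := (h.move (MulSemiringAction.toRingHom Γ E g) (hiso g) (fun z _ hz => by
        obtain ⟨a, ha, h5⟩ := hR z hz
        exact ⟨a, fun k => ha k, ha g, h5⟩) u2 u1.le).trans (hw g)
      rw [norm_div, div_lt_one hr]
      exact h5.trans_lt (by nlinarith [h.2.2.1])
    have e : u * θ g ^ p - θ g = -(τ (θ g) - θ g ^ p) * u +
        (g • u - u) / ϖ * (u⁻¹ * (g • ϖ / ϖ)) := by
      have e1 : τ ϖ = u * ϖ := by rw [hu, div_mul_cancel₀ _ h0]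
      generalize θ g ^ p = y
      simp only [θ, map_div₀, map_sub, map_pow, t2, e1, smul_mul']
      field_simp
      ring
    rw [e]
    exact lt_add (lt_mul (by rw [norm_neg]; exact t3 _ (a1 g)) u1.le)
      (lt_mul h5 (by simp [u1, hiso, hr.ne']))
  have a4 : ‖θ s‖ = 1 := le_antisymm (a1 s) (by
    rw [a0, one_le_div (by positivity)]
    exact wild_key hp h2 hiso hI hA hR hH (fun h => h3 (mem_sup_left h)) h1
      (by rw [sup_right_comm, h4]) h)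
  have s0 : θ s ≠ 0 := norm_pos_iff.1 (by rw [a4]; exact one_pos)
  obtain ⟨n, hn⟩ := (res_lem hp hA.2.2.1 (w := -θ t / θ s) (by simpa [a4] using a1 t)).2 (by
    have e : (-θ t / θ s) ^ p - -θ t / θ s = ((u * θ s ^ p - θ s) * θ t +
        -(u * θ t ^ p - θ t) * θ s) * (u * θ s ^ p * θ s)⁻¹ := by
      rw [div_pow, (hp.odd_of_ne_two h2).neg_pow]
      field_simp
      ring
    rw [e]
    exact lt_mul (lt_add (lt_mul (a3 s) (a1 t)) (lt_mul (by rw [norm_neg]; exact a3 t) (a1 s)))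
      (by simp [u1, a4]))
  have a5 : ∀ n : ℕ, ‖θ (t * s ^ n) - (θ t + n * θ s)‖ < 1 := fun n => by
    induction n with
    | zero => simp
    | succ n ih =>
      rw [show θ (t * s ^ (n + 1)) - (θ t + (n + 1 : ℕ) * θ s) =
        (θ (t * s ^ n * s) - (θ (t * s ^ n) + θ s)) + (θ (t * s ^ n) - (θ t + n * θ s)) by
          rw [pow_succ, mul_assoc]; push_cast; ring]
      exact lt_add (a2 _ _) ih
  have a6 : ‖θ (t * s ^ n)‖ < 1 := by
    rw [show θ (t * s ^ n) = (θ (t * s ^ n) - (θ t + n * θ s)) + -(-θ t / θ s - n) * θ s by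
      field_simp; ring]
    exact lt_add (a5 n) (lt_mul (by rwa [norm_neg]) (a1 s))
  have hsn : s ^ n ∈ H ⊔ zpowers s := mem_sup_right (npow_mem_zpowers s n)
  rw [a0, div_lt_one (by positivity)] at a6
  refine absurd (wild_key hp h2 hiso hI hA hR hH hs
    (fun h => h3 ((Subgroup.mul_mem_cancel_right _ hsn).1 h)) ?_ h) (not_le.2 a6)
  rw [eq_top_iff, ← h4]
  refine sup_le le_sup_left (zpowers_le.2 ?_)
  exact (Subgroup.mul_mem_cancel_right _ (mem_sup_left hsn)).1 (mem_sup_right (mem_zpowers _))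

end

/-- the wild inertia group of an abelian action over an unramified base is cyclic -/
theorem wild_cyc {E G : Type*} [NormedField E] [IsUltrametricDist E] [CommGroup G] [Fintype G]
    [MulSemiringAction G E] [FaithfulSMul G E] {p : ℕ} (hp : p.Prime) (h2 : p ≠ 2)
    (hiso : ∀ (g : G) (x : E), ‖g • x‖ = ‖x‖) (hpn : ‖(p : E)‖ < 1) (hp0 : (p : E) ≠ 0) (τ : G)
    (hτ : ∀ z : E, ‖z‖ ≤ 1 → ‖τ • z - z ^ p‖ < 1) (I : Subgroup G)
    (hI : ∀ g ∈ I, ∀ z : E, ‖z‖ ≤ 1 → ‖g • z - z‖ < 1)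
    (hA : ∀ x : E, (∀ g ∈ I, g • x = x) → ‖x‖ < 1 → ‖x‖ ≤ ‖(p : E)‖)
    (hR : ∀ z : E, ‖z‖ ≤ 1 → ∃ a : E, (∀ g ∈ I, g • a = a) ∧ ‖z - a‖ < 1) :
    ∃ (σ : I) (j : ℕ), orderOf σ = p ^ j ∧ ¬ p ∣ (Subgroup.zpowers σ).index := by
  refine (grp_alt (Γ := I) hp).resolve_right ?_
  rintro ⟨s, t, H, h1, h3, h4, h5⟩
  refine no_pp (E := E) (Γ := I) hp h2 (fun g => hiso g) (fun g => hI g g.2)
    ⟨natCast_mem _ p, hp0, hpn, fun x hx => hA x fun g hg => hx ⟨⟨g, hg⟩, mem_top _⟩⟩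
    (fun z hz => ?_) (MulSemiringAction.toRingHom G E τ) (hiso τ)
    (fun g x => smul_comm τ (g : G) x) hτ h1 h3 h4 h5
  obtain ⟨a, ha, h6⟩ := hR z hz
  exact ⟨a, fun g => ha g g.2, h6⟩

end Pool.Agent.P.MP_8d2e9f_nt.AO
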