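import Pool.Agent.P.MP_8d2e9f_nt.G.Base

/-! Linear conjugacy and the points coming from roots of unity. -/

namespace Pool.Agent.P.MP_8d2e9f_nt.AO

open Polynomial Pool.Agent.P.MP_8d2e9f_nt.G

/-- `f` is conjugate to `g` by the linear map `l = a X + b`: `f ∘ l = l ∘ g`. -/
def LinConj (f : Qbar[X]) (a b : Qbar) (g : Qbar[X]) : Prop :=
  f.comp (C a * X + C b) = C a * g + C b

/-- `z` is `b` or `a ζ + b` with `ζ` a root of unity. -/
def PowerPt (a b z : Qbar) : Prop := z = b ∨ ∃ ζ : Qbar, IsOfFinOrder ζ ∧ z = a * ζ + b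

/-- `z` is `a (ζ + ζ⁻¹) + b` with `ζ` a root of unity. -/
def ChebPt (a b z : Qbar) : Prop := ∃ ζ : Qbar, IsOfFinOrder ζ ∧ z = a * (ζ + ζ⁻¹) + b

end Pool.Agent.P.MP_8d2e9f_nt.AO
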