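import Pool.Agent.P.MP_8d2e9f_nt.G.Defs

/-! Property (USB) restricted to polynomial maps. -/

namespace Pool.Agent.P.MP_8d2e9f_nt.AO

open Pool.Agent.P.MP_8d2e9f_nt.G

/-- (SB) relative to the canonical height of every polynomial of degree at least 2. -/
def PolyUSB (F : Subfield Qbar) : Prop :=
  ∀ f : Polynomial Qbar, 2 ≤ f.natDegree → ∀ H : ProjLine → ℝ,
    IsCanonicalHeight (algebraMap (Polynomial Qbar) (RatFunc Qbar) f) H →
      StrongBogomolov F (algebraMap (Polynomial Qbar) (RatFunc Qbar) f) H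

end Pool.Agent.P.MP_8d2e9f_nt.AO
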