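import Pool.Agent.P.MP_8d2e9f_nt.G.Defs

/-! Finite extensions and finiteness of preperiodic points. -/

namespace Pool.Agent.P.MP_8d2e9f_nt.AO

open Pool.Agent.P.MP_8d2e9f_nt.G

/-- Every finite extension of `L` inside `Qbar` (`L` itself included) has the property `P`. -/
def AllFinExt (L : Subfield Qbar) (P : Subfield Qbar → Prop) : Prop :=
  ∀ E : IntermediateField L Qbar, FiniteDimensional L E → P E.toSubfield

/-- Every rational map of degree at least 2 has only finitely many preperiodic points defined
over `F`. -/
def FinPrePer (F : Subfield Qbar) : Prop :=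
  ∀ f : RatFunc Qbar, 2 ≤ ratDegree f → (pointsOver F ∩ PrePer f).Finite

end Pool.Agent.P.MP_8d2e9f_nt.AO
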