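import Pool.Agent.P.MP_8d2e9f_nt.AO.Iface

/-! Means of conjugates of roots of unity, and descent of linear conjugacies. -/

set_option autoImplicit false

namespace Pool.Agent.P.MP_8d2e9f_nt.AO

open Polynomial NumberField Pool.Agent.P.MP_8d2e9f_nt.G Filter Topology Finset
open scoped IntermediateField

lemma DESC_tot (n : ℕ) : n ^ 2 ≤ n.totient ^ 3 * (Nat.gcd 6 n) ^ 2 := by
  induction n using Nat.recOnPosPrimePosCoprime with
  | zero => simp
  | one => simp
  | prime_pow p k hp hk =>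
    obtain ⟨k, rfl⟩ := Nat.exists_eq_succ_of_ne_zero hk.ne'
    have h2 := hp.two_le
    have h1 : p ^ 2 ≤ (p - 1) ^ 3 * (Nat.gcd 6 (p ^ (k + 1))) ^ 2 := by
      have hg : 0 < Nat.gcd 6 (p ^ (k + 1)) := Nat.gcd_pos_of_pos_left _ (by norm_num)
      by_cases h6 : p ∣ 6
      · have : p ≤ Nat.gcd 6 (p ^ (k + 1)) :=
          Nat.le_of_dvd hg (Nat.dvd_gcd h6 (dvd_pow_self p k.succ_ne_zero))
        exact (Nat.pow_le_pow_left this 2).trans
          (Nat.le_mul_of_pos_left _ (pow_pos (by omega) 3))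
      · have h5 : 5 ≤ p := by
          by_contra h
          have : p = 2 ∨ p = 3 ∨ p = 4 := by omega
          rcases this with rfl | rfl | rfl
          · exact h6 (by norm_num)
          · exact h6 (by norm_num)
          · exact absurd hp (by norm_num)
        obtain ⟨q, rfl⟩ := Nat.exists_eq_add_of_le h5
        refine le_trans ?_ (Nat.le_mul_of_pos_right _ (pow_pos hg 2))
        rw [show 5 + q - 1 = 4 + q by omega]
        nlinarith [Nat.zero_le q, Nat.zero_le (q ^ 2), Nat.zero_le (q ^ 3)]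
    rw [Nat.succ_eq_add_one, Nat.totient_prime_pow_succ hp]
    calc (p ^ (k + 1)) ^ 2 = (p ^ k) ^ 2 * p ^ 2 := by ring
      _ ≤ (p ^ k) ^ 3 * ((p - 1) ^ 3 * (Nat.gcd 6 (p ^ (k + 1))) ^ 2) :=
        Nat.mul_le_mul (Nat.pow_le_pow_right (pow_pos hp.pos k) (by norm_num)) h1
      _ = _ := by ring
  | coprime a b _ _ hab ha hb =>
    rw [Nat.totient_mul hab, Nat.Coprime.gcd_mul 6 hab]
    calc (a * b) ^ 2 = a ^ 2 * b ^ 2 := by ring
      _ ≤ _ := Nat.mul_le_mul ha hb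
      _ = _ := by ring

lemma DESC_geo {w : ℂ} {n : ℕ} (h : w ^ n = 1) :
    ∑ c ∈ range n, w ^ c = if w = 1 then (n : ℂ) else 0 := by
  split_ifs with e
  · simp [e]
  · rw [geom_sum_eq e, h, sub_self, zero_div]

lemma DESC_pars {n : ℕ} (hn : n ≠ 0) (O : Finset ℂ) (h : ∀ z ∈ O, z ^ n = 1) :
    ∑ c ∈ range n, ‖∑ z ∈ O, z ^ c‖ ^ 2 = n * O.card := by
  have hu : ∀ z ∈ O, (starRingEnd ℂ) z = z⁻¹ := fun z hz =>
    (Complex.inv_eq_conj (Complex.norm_eq_one_of_pow_eq_one (h z hz) hn)).symm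
  have h0 : ∀ z ∈ O, z ≠ 0 := fun z hz e => by
    have := h z hz
    rw [e, zero_pow hn] at this
    exact zero_ne_one this
  apply Complex.ofReal_injective
  push_cast
  calc ∑ c ∈ range n, ((‖∑ z ∈ O, z ^ c‖ : ℝ) : ℂ) ^ 2
      = ∑ c ∈ range n, ∑ z ∈ O, ∑ y ∈ O, (z * y⁻¹) ^ c := by
        refine sum_congr rfl fun c _ => ?_
        rw [← Complex.mul_conj', map_sum, sum_mul_sum]
        refine sum_congr rfl fun z _ => sum_congr rfl fun y hy => ?_
        rw [map_pow, hu y hy, mul_pow]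
    _ = ∑ z ∈ O, ∑ y ∈ O, ∑ c ∈ range n, (z * y⁻¹) ^ c := by
        rw [sum_comm]
        exact sum_congr rfl fun z _ => sum_comm
    _ = ∑ z ∈ O, (n : ℂ) := by
        refine sum_congr rfl fun z hz => ?_
        rw [sum_eq_single_of_mem z hz fun y hy e => ?_]
        · simp [mul_inv_cancel₀ (h0 z hz)]
        · rw [DESC_geo (by rw [mul_pow, inv_pow, h z hz, h y hy]; simp), if_neg]
          exact fun e' => e ((mul_inv_eq_one₀ (h0 y hy)).1 e').symm
    _ = _ := by simp [mul_comm]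

lemma DESC_avg (K : IF) (hK : Fd K) (ψ : Qbar →+* ℂ) {n : ℕ} (hn : n ≠ 0) {ζ : Qbar}
    (hζ : IsPrimitiveRoot ζ n) :
    ‖ψ (Algebra.normalizedTrace K Qbar ζ : K)‖ ^ 2 * (n.totient : ℝ) ^ 2 ≤
      (Module.finrank ℚ K : ℝ) ^ 2 * n := by
  classical
  have : NeZero n := ⟨hn⟩
  have hi : IsIntegral K ζ := (int_Q ζ).tower_top
  set P := minpoly K ζ with hP
  have hs : (P.map (algebraMap K Qbar)).Splits := IsAlgClosed.splits _
  have hnd : (P.aroots Qbar).Nodup :=
    nodup_roots (Polynomial.Separable.map (Algebra.IsSeparable.isSeparable K ζ))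
  set O := (P.aroots Qbar).toFinset with hO
  have hc : O.card = P.natDegree := by
    rw [hO, Multiset.toFinset_card_of_nodup hnd, aroots, ← hs.natDegree_eq_card_roots, natDegree_map]
  set A : K := Algebra.trace K K⟮ζ⟯ (IntermediateField.AdjoinSimple.gen K ζ) with hA
  have hsum : (A : Qbar) = ∑ z ∈ O, z := by
    have := IntermediateField.AdjoinSimple.trace_gen_eq_sum_roots ζ hs
    rw [hO, Finset.sum, Multiset.toFinset_val, hnd.dedup, Multiset.map_id']
    exact this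
  have hσ : ∀ z ∈ O, ∃ σ : GK K, σ ζ = z := fun z hz =>
    minpoly.exists_algEquiv_of_root' hi.isAlgebraic (mem_aroots.1 (Multiset.mem_toFinset.1 hz)).2
  have hp : ∀ z ∈ O, z ^ n = 1 := fun z hz => by
    obtain ⟨σ, rfl⟩ := hσ z hz
    rw [← map_pow, hζ.pow_eq_one, map_one]
  have hS : ∀ c, ζ ^ c ∈ O → ∑ z ∈ O.image ψ, z ^ c = ψ A := fun c hz => by
    obtain ⟨σ, e⟩ := hσ _ hz
    rw [sum_image fun _ _ _ _ h => ψ.injective h, ← show σ A = A from σ.commutes A, hsum, map_sum,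
      map_sum]
    refine sum_congr rfl fun z hz => ?_
    obtain ⟨i, -, rfl⟩ := hζ.eq_pow_of_pow_eq_one (hp z hz)
    rw [map_pow σ, e, ← map_pow, ← pow_mul, ← pow_mul, mul_comm]
  have h1 := DESC_pars hn (O.image ψ) fun z hz => by
    obtain ⟨y, hy, rfl⟩ := mem_image.1 hz
    rw [← map_pow, hp y hy, map_one]
  rw [card_image_of_injective _ ψ.injective] at h1
  have h2 : O.card ≤ ((range n).filter fun c => ζ ^ c ∈ O).card := by
    refine le_trans (card_le_card fun z hz => ?_) (card_image_le (f := fun c => ζ ^ c))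
    obtain ⟨i, hi, rfl⟩ := hζ.eq_pow_of_pow_eq_one (hp z hz)
    exact mem_image.2 ⟨i, mem_filter.2 ⟨mem_range.2 hi, hz⟩, rfl⟩
  have hd : (0 : ℝ) < P.natDegree := Nat.cast_pos.2 (minpoly.natDegree_pos hi)
  have h3 : ‖ψ A‖ ^ 2 ≤ n := by
    refine le_of_mul_le_mul_right ?_ hd
    rw [← hc, ← h1]
    calc ‖ψ A‖ ^ 2 * (O.card : ℝ)
        ≤ ‖ψ A‖ ^ 2 * ((range n).filter fun c => ζ ^ c ∈ O).card := by gcongr
      _ = ∑ c ∈ (range n).filter fun c => ζ ^ c ∈ O, ‖∑ z ∈ O.image ψ, z ^ c‖ ^ 2 := by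
        rw [sum_congr rfl fun c hc => by rw [hS c (mem_filter.1 hc).2]]
        simp [mul_comm]
      _ ≤ _ := sum_le_sum_of_subset_of_nonneg (filter_subset _ _) fun _ _ _ => by positivity
  have h4 : n.totient ≤ Module.finrank ℚ K * P.natDegree := by
    have : FiniteDimensional K K⟮ζ⟯ := IntermediateField.adjoin.finiteDimensional hi
    have : FiniteDimensional ℚ K⟮ζ⟯ := Module.Finite.trans K _
    rw [← natDegree_cyclotomic n ℚ, cyclotomic_eq_minpoly_rat hζ (Nat.pos_of_ne_zero hn),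
      ← IntermediateField.adjoin.finrank hi, Module.finrank_mul_finrank,
      show ζ = algebraMap K⟮ζ⟯ Qbar (IntermediateField.AdjoinSimple.gen K ζ) from rfl,
      minpoly.algebraMap_eq (algebraMap K⟮ζ⟯ Qbar).injective]
    exact minpoly.natDegree_le _
  have h5 : ‖ψ (Algebra.normalizedTrace K Qbar ζ : K)‖ * P.natDegree = ‖ψ A‖ := by
    rw [Algebra.normalizedTrace_def, IntermediateField.adjoin.finrank hi, ← hA, ← hP, smul_eq_mul]
    push_cast
    rw [map_mul, map_inv₀, map_natCast, norm_mul, norm_inv, Complex.norm_natCast]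
    field_simp
  have h6 : (n.totient : ℝ) ≤ Module.finrank ℚ K * P.natDegree := by exact_mod_cast h4
  calc _ ≤ ‖ψ (Algebra.normalizedTrace K Qbar ζ : K)‖ ^ 2 *
        ((Module.finrank ℚ K : ℝ) * P.natDegree) ^ 2 := by gcongr
    _ = (Module.finrank ℚ K : ℝ) ^ 2 * ‖ψ A‖ ^ 2 := by rw [← h5]; ring
    _ ≤ _ := by gcongr

lemma DESC_lim (K : IF) (hK : Fd K) (ψ : Qbar →+* ℂ) {l : Filter Qbar} {g : Qbar → Qbar}
    (h1 : Tendsto g l cofinite) (h2 : ∀ᶠ z in l, IsOfFinOrder (g z)) :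
    Tendsto (fun z => ψ (Algebra.normalizedTrace K Qbar (g z) : K)) l (𝓝 0) := by
  refine NormedAddGroup.tendsto_nhds_zero.2 fun ε hε => ?_
  obtain ⟨N, hN⟩ := exists_nat_ge (36 ^ 2 * ((Module.finrank ℚ K : ℝ) ^ 2 / ε ^ 2) ^ 3)
  have hf : {z : Qbar | z ^ N.factorial = 1}.Finite :=
    ((X ^ N.factorial - 1 : Qbar[X]).rootSet_finite Qbar).subset fun z hz => by
      rw [mem_rootSet]
      exact ⟨X_pow_sub_C_ne_zero N.factorial_pos 1, by simpa [sub_eq_zero] using hz⟩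
  filter_upwards [h2, h1.eventually hf.compl_mem_cofinite] with z hz hz'
  by_contra hc
  have hn := hz.orderOf_pos
  have h3 := DESC_avg K hK ψ hn.ne' (IsPrimitiveRoot.orderOf (g z))
  refine hz' (orderOf_dvd_iff_pow_eq_one.1 (Nat.dvd_factorial hn ?_))
  have h4 : (orderOf (g z)) ^ 2 ≤ (orderOf (g z)).totient ^ 3 * 6 ^ 2 :=
    (DESC_tot _).trans (Nat.mul_le_mul_left _
      (Nat.pow_le_pow_left (Nat.gcd_le_left _ (by norm_num)) 2))
  generalize orderOf (g z) = n at *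
  have h5 : (n : ℝ) ^ 2 ≤ (n.totient : ℝ) ^ 3 * 6 ^ 2 := by exact_mod_cast h4
  have hn' : (0 : ℝ) < n := Nat.cast_pos.2 hn
  have h6 : (n.totient : ℝ) ^ 2 ≤ (Module.finrank ℚ K : ℝ) ^ 2 / ε ^ 2 * n := by
    rw [div_mul_eq_mul_div, le_div_iff₀ (by positivity), mul_comm]
    refine le_trans ?_ h3
    gcongr
    exact not_lt.1 hc
  generalize (Module.finrank ℚ K : ℝ) ^ 2 / ε ^ 2 = c at *
  refine Nat.cast_le.1 (le_trans (le_of_mul_le_mul_right ?_ (pow_pos hn' 3)) hN)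
  calc (n : ℝ) * n ^ 3 = (n ^ 2) ^ 2 := by ring
    _ ≤ ((n.totient : ℝ) ^ 3 * 6 ^ 2) ^ 2 := by gcongr
    _ = 36 ^ 2 * ((n.totient : ℝ) ^ 2) ^ 3 := by ring
    _ ≤ 36 ^ 2 * (c * n) ^ 3 := by gcongr
    _ = _ := by ring

/-- A linear relation between roots of unity of large orders has no constant term. -/
lemma DESC_rel {l : Filter Qbar} [l.NeBot] {I : Type} [Fintype I] (a : I → Qbar) (c : Qbar)
    (g : I → Qbar → Qbar) (h1 : ∀ i, Tendsto (g i) l cofinite)
    (h2 : ∀ i, ∀ᶠ z in l, IsOfFinOrder (g i z)) (h : ∀ᶠ z in l, ∑ i, a i * g i z = c) : c = 0 := by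
  let K : IF := IntermediateField.adjoin ℚ (insert c (Set.range a))
  have : Finite (insert c (Set.range a) : Set Qbar) := ((Set.finite_range a).insert c).to_subtype
  have hK : Fd K := IntermediateField.finiteDimensional_adjoin fun x _ => int_Q x
  let ψ : Qbar →+* ℂ := (IsAlgClosed.lift : Qbar →ₐ[ℚ] ℂ).toRingHom
  let a' : I → K := fun i => ⟨a i, IntermediateField.subset_adjoin _ _ (Or.inr ⟨i, rfl⟩)⟩
  let c' : K := ⟨c, IntermediateField.subset_adjoin _ _ (Or.inl rfl)⟩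
  have h3 := tendsto_finsetSum univ fun i _ => (DESC_lim K hK ψ (h1 i) (h2 i)).const_mul (ψ (a i))
  simp only [mul_zero, sum_const_zero] at h3
  refine (map_eq_zero ψ).1 (tendsto_nhds_unique (tendsto_const_nhds.congr' ?_) h3)
  filter_upwards [h] with z hz
  have h4 : ∑ i, a' i • g i z = algebraMap K Qbar c' := hz
  have h5 := congrArg (fun x => ψ (Algebra.normalizedTrace K Qbar x : K)) h4
  simp only [map_sum, map_smul, Algebra.normalizedTrace_algebraMap_apply_eq_self, smul_eq_mul] at h5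
  push_cast at h5
  simp only [map_sum, map_mul] at h5
  exact h5.symm

lemma DESC_sq (c : Qbar) : {z : Qbar | z ^ 2 = c}.Finite :=
  ((X ^ 2 - C c : Qbar[X]).rootSet_finite Qbar).subset fun z hz => by
    rw [mem_rootSet]
    exact ⟨X_pow_sub_C_ne_zero two_pos c, by simpa [sub_eq_zero] using hz⟩

lemma DESC_jk (c : Qbar) : {z : Qbar | z + z⁻¹ = c}.Finite := by
  refine (((DESC_sq (c ^ 2 - 4)).image fun w => (w + c) / 2).insert 0).subset fun z hz => ?_
  by_cases h : z = 0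
  · exact Or.inl h
  · refine Or.inr ⟨2 * z - c, ?_, by ring⟩
    rw [Set.mem_ofPred_eq, ← show z + z⁻¹ = c from hz]
    field_simp
    ring

/-- If infinitely many points `a ζ + b`, or infinitely many points `a (ζ + ζ⁻¹) + b`, lie in `F`,
then `F` contains infinitely many numbers `ζ + ζ⁻¹`. -/
theorem desc (F : Subfield Qbar) (a b : Qbar) (ha : a ≠ 0)
    (h : {y ∈ F | ∃ ζ : Qbar, IsOfFinOrder ζ ∧ y = a * ζ + b}.Infinite ∨
      {y ∈ F | ∃ ζ : Qbar, IsOfFinOrder ζ ∧ y = a * (ζ + ζ⁻¹) + b}.Infinite) :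
    (cyc F).Infinite := by
  let E : IF := F.toIntermediateField fun q => by simp
  have fx : ∀ x : Qbar, (∀ σ : GK E, σ x = x) → x ∈ F := fun x hx => by
    obtain ⟨y, rfl⟩ := (InfiniteGalois.mem_range_algebraMap_iff_fixed x).2 hx
    exact y.2
  have xf : ∀ (σ : GK E), ∀ x ∈ F, σ x = x := fun σ x hx => σ.commutes (⟨x, hx⟩ : E)
  have ti : Tendsto (fun z : Qbar => z⁻¹) cofinite cofinite := inv_injective.tendsto_cofinite
  have ts : Tendsto (fun z : Qbar => z ^ 2) cofinite cofinite :=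
    Tendsto.cofinite_of_finite_preimage_singleton fun c => (DESC_sq c).to_subtype
  have fo : ∀ (σ : GK E) (z : Qbar), IsOfFinOrder z → IsOfFinOrder (σ z) := fun σ z hz =>
    (σ : Qbar →* Qbar).isOfFinOrder hz
  have fi : ∀ z : Qbar, IsOfFinOrder z → IsOfFinOrder z⁻¹ := fun z hz => by
    obtain ⟨n, hn, e⟩ := isOfFinOrder_iff_pow_eq_one.1 hz
    exact isOfFinOrder_iff_pow_eq_one.2 ⟨n, hn, by rw [inv_pow, e, inv_one]⟩
  have f0 : ∀ z : Qbar, IsOfFinOrder z → z ≠ 0 := fun z hz => hz.isUnit.ne_zero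
  intro hf
  rcases h with h | h
  · have hZ : {ζ : Qbar | IsOfFinOrder ζ ∧ a * ζ + b ∈ F}.Infinite := fun hZ =>
      h ((hZ.image fun ζ => a * ζ + b).subset fun y ⟨hy, ζ, h1, e⟩ => ⟨ζ, ⟨h1, e ▸ hy⟩, e.symm⟩)
    set Z := {ζ : Qbar | IsOfFinOrder ζ ∧ a * ζ + b ∈ F}
    have : (cofinite ⊓ 𝓟 Z).NeBot := cofinite_inf_principal_neBot_iff.2 hZ
    have ev : ∀ᶠ z in cofinite ⊓ 𝓟 Z, z ∈ Z := mem_inf_of_right (mem_principal_self Z)
    have hb : b ∈ F := fx b fun σ => sub_eq_zero.1 <|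
      DESC_rel (l := cofinite ⊓ 𝓟 Z) ![a, -σ a] _ ![id, σ]
        (Fin.forall_fin_two.2 ⟨tendsto_id'.2 inf_le_left,
          σ.injective.tendsto_cofinite.mono_left inf_le_left⟩)
        (Fin.forall_fin_two.2 ⟨ev.mono fun z hz => hz.1, ev.mono fun z hz => fo σ z hz.1⟩)
        (ev.mono fun z hz => by
          have := xf σ _ hz.2
          rw [map_add, map_mul] at this
          simp only [Fin.sum_univ_two, Matrix.cons_val_zero, Matrix.cons_val_one, id]
          linear_combination -this)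
    obtain ⟨ξ, hξ⟩ := hZ.nonempty
    refine hZ (((hf.preimage' (f := fun z : Qbar => z + z⁻¹) fun c _ => DESC_jk c).image
      fun z => z * ξ).subset fun ζ hζ => ⟨ζ * ξ⁻¹, ?_, inv_mul_cancel_right₀ (f0 ξ hξ.1) ζ⟩)
    have : ζ * ξ⁻¹ ∈ F := by
      have := F.div_mem (F.sub_mem hζ.2 hb) (F.sub_mem hξ.2 hb)
      rwa [add_sub_cancel_right, add_sub_cancel_right, mul_div_mul_left _ _ ha, div_eq_mul_inv]
        at this
    exact ⟨F.add_mem this (F.inv_mem this), _, hζ.1.mul (fi ξ hξ.1), rfl⟩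
  · have hZ : {ζ : Qbar | IsOfFinOrder ζ ∧ a * (ζ + ζ⁻¹) + b ∈ F}.Infinite := fun hZ =>
      h ((hZ.image fun ζ => a * (ζ + ζ⁻¹) + b).subset fun y ⟨hy, ζ, h1, e⟩ =>
        ⟨ζ, ⟨h1, e ▸ hy⟩, e.symm⟩)
    set Z := {ζ : Qbar | IsOfFinOrder ζ ∧ a * (ζ + ζ⁻¹) + b ∈ F}
    have : (cofinite ⊓ 𝓟 Z).NeBot := cofinite_inf_principal_neBot_iff.2 hZ
    have ev : ∀ᶠ z in cofinite ⊓ 𝓟 Z, z ∈ Z := mem_inf_of_right (mem_principal_self Z)
    have rel : ∀ (σ : GK E) (u c : Qbar) (g : Qbar → Qbar), Tendsto g cofinite cofinite →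
        (∀ z ∈ Z, IsOfFinOrder (g z) ∧
          u * (g z + (g z)⁻¹) - σ u * (σ (g z) + (σ (g z))⁻¹) = c) → c = 0 := fun σ u c g hg h => by
      have t1 := hg.mono_left (inf_le_left (b := 𝓟 Z))
      have t2 := σ.injective.tendsto_cofinite.comp t1
      refine DESC_rel (l := cofinite ⊓ 𝓟 Z) ![u, u, -σ u, -σ u] _
        ![g, fun z => (g z)⁻¹, fun z => σ (g z), fun z => (σ (g z))⁻¹] (fun i => ?_) (fun i => ?_)
        (ev.mono fun z hz => ?_)
      · fin_cases i
        exacts [t1, ti.comp t1, t2, ti.comp t2]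
      · fin_cases i
        exacts [ev.mono fun z hz => (h z hz).1, ev.mono fun z hz => fi _ (h z hz).1,
          ev.mono fun z hz => fo σ _ (h z hz).1, ev.mono fun z hz => fi _ (fo σ _ (h z hz).1)]
      · rw [← (h z hz).2, Fin.sum_univ_four]
        simp
        ring
    have hb : b ∈ F := fx b fun σ => sub_eq_zero.1 <| rel σ a _ id tendsto_id fun z hz => ⟨hz.1, by
      have := xf σ _ hz.2
      rw [map_add, map_mul, map_add, map_inv₀] at this
      simp only [id]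
      linear_combination -this⟩
    have sq : ∀ z ∈ Z, a ^ 2 * (z ^ 2 + (z ^ 2)⁻¹ + 2) ∈ F := fun z hz => by
      have := F.pow_mem (F.sub_mem hz.2 hb) 2
      convert this using 1
      have := f0 z hz.1
      field_simp
      ring
    have h2 : a ^ 2 ∈ F := fx _ fun σ => by
      have := rel σ (a ^ 2) (2 * (σ (a ^ 2) - a ^ 2)) (fun z => z ^ 2) ts fun z hz =>
        ⟨hz.1.pow, by
          have := xf σ _ (sq z hz)
          rw [map_mul, map_add, map_add, map_inv₀, map_ofNat] at this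
          linear_combination -this⟩
      exact sub_eq_zero.1 ((mul_eq_zero.1 this).resolve_left two_ne_zero)
    refine hZ (((hf.preimage' (f := fun z : Qbar => z + z⁻¹) fun c _ => DESC_jk c).preimage'
      (f := fun z : Qbar => z ^ 2) fun c _ => DESC_sq c).subset fun ζ hζ =>
        ⟨?_, _, hζ.1.pow, rfl⟩)
    have := F.sub_mem (F.div_mem (sq ζ hζ) h2) (ofNat_mem F 2)
    rwa [mul_div_cancel_left₀ _ (pow_ne_zero 2 ha), add_sub_cancel_right] at this

end Pool.Agent.P.MP_8d2e9f_nt.AO
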