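import Pool.Agent.P.MP_8d2e9f_nt.AO.Defs

/-! The intermediate statements. -/

namespace Pool.Agent.P.MP_8d2e9f_nt.AO

open Polynomial NumberField Pool.Agent.P.MP_8d2e9f_nt.G
open scoped IntermediateField

noncomputable section

/-- The absolute Galois group of `K`. -/
abbrev GK (K : IF) : Type := Qbar ≃ₐ[K] Qbar

/-- `z` lies in the maximal abelian extension of `K`. -/
def Ab (K : IF) (z : Qbar) : Prop := ∀ σ ρ : GK K, σ (ρ z) = ρ (σ z)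

/-- The embedding `j` restricts to `φ` on `K`. -/
def Loc {K : IF} {p : ℕ} [Fact p.Prime] (φ : K →+* ℚ_[p]) (j : Qbar →+* Om p) : Prop :=
  ∀ c : K, j (c : Qbar) = algebraMap ℚ_[p] (Om p) (φ c)

/-- `D` is the decomposition group at `j` and `τ` is a Frobenius element. -/
def Dec (K : IF) {p : ℕ} [Fact p.Prime] (j : Qbar →+* Om p) (D : Subgroup (GK K)) (τ : GK K) :
    Prop :=
  (∀ ρ ∈ D, ∀ x, ‖j (ρ x)‖ = ‖j x‖) ∧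
    (∀ x, (∀ ρ ∈ D, ρ x = x) → ∃ c : ℚ_[p], j x = algebraMap ℚ_[p] (Om p) c) ∧
      τ ∈ D ∧ ∀ x, ‖j x‖ ≤ 1 → ‖j (τ x) - j x ^ p‖ < 1

/-- The inertia group of `K(z) / K` at `j` has no element of order `p` coming from `D`. -/
def Tame (K : IF) {p : ℕ} [Fact p.Prime] (j : Qbar →+* Om p) (D : Subgroup (GK K)) (z : Qbar) :
    Prop :=
  ∀ σ ∈ D, (∀ x ∈ K⟮z⟯, ‖j x‖ ≤ 1 → ‖j (σ x) - j x‖ < 1) → (σ ^ p) z = z → σ z = z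

/-- `N z` is integral and all complex conjugates of `z` have absolute value at most `H`. -/
def Bd (N : ℕ) (H : ℝ) (z : Qbar) : Prop :=
  IsIntegral ℤ ((N : Qbar) * z) ∧ ∀ ψ : Qbar →+* ℂ, ‖ψ z‖ ≤ H

/-- An infinite, Galois stable, almost forward invariant, bounded set. -/
structure Orb (K : IF) (f : K[X]) (Y : Set Qbar) : Prop where
  inf : Y.Infinite
  gal : ∀ σ : GK K, ∀ z ∈ Y, σ z ∈ Y
  fwd : {z ∈ Y | aeval z f ∉ Y}.Finite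
  bdd : ∃ (N : ℕ) (H : ℝ), 0 < N ∧ ∀ z ∈ Y, Bd N H z

/-- All points of `Y` are tame at all places above all large primes. -/
def TameSet (K : IF) (Y : Set Qbar) : Prop :=
  ∃ N : ℕ, ∀ (p : ℕ) [Fact p.Prime] (j : Qbar →+* Om p), N < p → ∀ z ∈ Y, Tame K j ⊤ z

/-- Both projections of `P` are finite-to-one. -/
def Fib {T : Type} (P : Set (T × T)) : Prop :=
  (∀ z, {w | (z, w) ∈ P}.Finite) ∧ ∀ w, {z | (z, w) ∈ P}.Finite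

section biv

variable {R : Type} [CommRing R]

/-- The derivative in the inner variable. -/
def dX (A : R[X][X]) : R[X][X] := A.sum fun i a => monomial i (derivative a)

/-- `A(f(X), f(Y))`. -/
def sub (f : R[X]) (A : R[X][X]) : R[X][X] := (A.map (compRingHom f)).comp (f.map C)

/-- `A` cuts out a reduced curve without horizontal components that is mapped into itself
by `(f, f)`. -/
def Crv (f : R[X]) (A : R[X][X]) : Prop :=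
  (∃ r B, r ≠ 0 ∧ C r * sub f A = A * B) ∧
    (∃ U V r, r ≠ 0 ∧ U * A + V * derivative A = C r) ∧
      ∃ U V r, r ≠ 0 ∧ U * A + V * dX A = C r

/-- `d a (d ^ 2 (f ^ 2 + w) - (X ^ 2 + w) f' ^ 2)` for `w = 4 b / (d a)`, where `a`, `b` are the
coefficients of `f` in degrees `d`, `d - 2`. -/
def cheb (f : R[X]) (d : ℕ) : R[X] :=
  C ((d : R) ^ 2) * (C (d * f.coeff d) * f ^ 2 + C (4 * f.coeff (d - 2))) -
    (C (d * f.coeff d) * X ^ 2 + C (4 * f.coeff (d - 2))) * derivative f ^ 2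

/-- `f` has an invariant form of positive weight. -/
def Form (f : R[X]) : Prop :=
  ∃ (P Q : R[X]) (N : ℕ), P ≠ 0 ∧ Q ≠ 0 ∧ 0 < N ∧ P.comp f * Q = P * Q.comp f * derivative f ^ N

end biv

/-- The inclusion of `ℤ_[p]` in `ℚ_[p]`. -/
abbrev zq (p : ℕ) [Fact p.Prime] : ℤ_[p] →+* ℚ_[p] := algebraMap ℤ_[p] ℚ_[p]

/-- Reduction modulo `p`. -/
abbrev zr (p : ℕ) [Fact p.Prime] : ℤ_[p] →+* ZMod p := PadicInt.toZMod

/-- A valued field over `ℚ_[p][X]` with its Gauss norm, an isometry `σ` over `X ↦ f` and a set `Γ`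
of isometries whose invariants are approximated by rational functions. -/
def IsGF {p : ℕ} [Fact p.Prime] (f : ℤ_[p][X]) {F : Type} [NormedField F]
    (e : ℚ_[p][X] →+* F) (σ : F →+* F) (Γ : Set (F ≃+* F)) : Prop :=
  Function.Injective e ∧ (∀ c : ℚ_[p], ‖e (C c)‖ = ‖c‖) ∧
    (∀ g : ℤ_[p][X], ‖e (g.map (zq p))‖ ≤ 1 ∧ (‖e (g.map (zq p))‖ < 1 ↔ g.map (zr p) = 0)) ∧
      (∀ x, ‖σ x‖ = ‖x‖) ∧ (∀ g, σ (e g) = e (g.comp (f.map (zq p)))) ∧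
        (∀ γ ∈ Γ, (∀ x, ‖γ x‖ = ‖x‖) ∧ ∀ g, γ (e g) = e g) ∧
          ∀ x, x ≠ 0 → (∀ γ ∈ Γ, γ x = x) → ∃ a b, b ≠ 0 ∧ ‖x - e a / e b‖ < ‖x‖

/-- The reduction of `f` has an invariant form at every place of degree one and good reduction
above every large prime. -/
def Forms (K : IF) (f : K[X]) : Prop :=
  ∃ N : ℕ, ∀ (p : ℕ) [Fact p.Prime] (φ : K →+* ℚ_[p]) (j : Qbar →+* Om p) (f₀ : ℤ_[p][X]), N < p →
    Loc φ j → f₀.map (zq p) = f.map φ → (f₀.map (zr p)).natDegree = f.natDegree →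
      Form (f₀.map (zr p))

/-- The shape of the conjugacy: `b ∈ K`, and `a ^ 2 ∈ K` in the Chebyshev case. -/
def Shape (K : IF) (f : Qbar[X]) (a b : Qbar) : Prop :=
  a ≠ 0 ∧ b ∈ K ∧ (LinConj f a b (X ^ f.natDegree) ∨ a ^ 2 ∈ K ∧
    (LinConj f a b (Chebyshev.C Qbar f.natDegree) ∨ LinConj f a b (-Chebyshev.C Qbar f.natDegree)))

/-- The shape of the conjugacy together with the shape of the points of `S`. -/
def Par (K : IF) (f : Qbar[X]) (a b : Qbar) (S : Set Qbar) : Prop :=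
  a ≠ 0 ∧ b ∈ K ∧ Ab K a ∧
    ((LinConj f a b (X ^ f.natDegree) ∧ ∀ z ∈ S, ∃ ζ : Qbar, IsOfFinOrder ζ ∧ z = a * ζ + b) ∨
      a ^ 2 ∈ K ∧ (LinConj f a b (Chebyshev.C Qbar f.natDegree) ∨
          LinConj f a b (-Chebyshev.C Qbar f.natDegree)) ∧
        ∀ z ∈ S, ∃ ζ : Qbar, IsOfFinOrder ζ ∧ z = a * (ζ + ζ⁻¹) + b)

/-! ### Algebra -/

-- deps:
def S_DX : Prop := ∀ (R : Type) [CommRing R],
  (∀ (A : R[X][X]) (i : ℕ), (dX A).coeff i = derivative (A.coeff i)) ∧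
    (∀ A B : R[X][X], dX (A + B) = dX A + dX B ∧ dX (A * B) = dX A * B + A * dX B) ∧
      (∀ r : R[X], dX (C r) = C (derivative r)) ∧
        ∀ (f : R[X]) (A : R[X][X]), dX (sub f A) = sub f (dX A) * C (derivative f) ∧
          derivative (sub f A) = sub f (derivative A) * (derivative f).map C

-- deps: DX
def S_CRV : Prop :=
  (∀ (k k' : Type) [Field k] [Field k'] (φ : k →+* k') (f : k[X]) (A : k[X][X]), Crv f A →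
    Crv (f.map φ) (A.map (mapRingHom φ))) ∧
  ∀ (k : Type) [Field k] (f : k[X]) (A : k[X][X]) (c : k), c ≠ 0 → Crv f (C (C c) * A) → Crv f A

-- deps:
def S_ABG : Prop := ∀ K : IF,
  (∀ z, Ab K z → IsGalois K K⟮z⟯ ∧ (∀ x ∈ K⟮z⟯, Ab K x) ∧ ∀ σ : GK K, σ z ∈ K⟮z⟯) ∧
    (∀ a b, Ab K a → Ab K b → IsAbelianGalois K K⟮a, b⟯ ∧ ∀ x ∈ K⟮a, b⟯, Ab K x) ∧
      (∀ K' : IF, K ≤ K' → ∀ z, Ab K z → Ab K' z) ∧
        (∀ (L : IntermediateField K Qbar), IsAbelianGalois K L →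
          ∀ z ∈ L, Ab K z ∧ ∀ σ : GK K, σ z ∈ L) ∧
          (∀ ζ : Qbar, IsOfFinOrder ζ → Ab K ζ) ∧ ∀ a : Qbar, a ^ 2 ∈ K → Ab K a

-- deps:
def S_PRIM : Prop := ∀ (p : ℕ) [Fact p.Prime] (A : ℚ_[p][X][X]), A ≠ 0 →
  ∃ (c : ℚ_[p]) (A₀ : ℤ_[p][X][X]), c ≠ 0 ∧ A = C (C c) * A₀.map (mapRingHom (zq p)) ∧
    A₀.map (mapRingHom (zr p)) ≠ 0

/-! ### Places -/

-- deps:
def S_PLACE : Prop := ∀ (K : IF) (N : ℕ) (s : Finset K), Fd K →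
  ∃ (p : ℕ) (_ : Fact p.Prime) (φ : K →+* ℚ_[p]) (j : Qbar →+* Om p), N < p ∧ Loc φ j ∧
    ∀ c ∈ s, c ≠ 0 → ‖φ c‖ = 1

-- deps:
def S_FROB : Prop := ∀ (K : IF) (p : ℕ) [Fact p.Prime] (φ : K →+* ℚ_[p]) (j : Qbar →+* Om p),
  Loc φ j → ∃ D τ, Dec K j D τ

-- deps: ABG
def S_RAM : Prop := ∀ (K : IF) (p : ℕ) [Fact p.Prime] (j : Qbar →+* Om p) (D : Subgroup (GK K))
  (τ : GK K), Dec K j D τ → ∀ z, Ab K z → Tame K j D z → ∀ w ∈ K⟮z⟯, ‖j w‖ < 1 →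
    ‖j w‖ ^ (p - 1) ≤ (p : ℝ)⁻¹

-- deps: ABG
def S_WILD : Prop := ∀ (K : IF) (p : ℕ) [Fact p.Prime] (j : Qbar →+* Om p) (D : Subgroup (GK K))
  (τ : GK K), Dec K j D τ → 3 ≤ p → ∃ δ : ℝ, δ < 1 ∧ ∀ z, Ab K z → ¬ Tame K j D z →
    ∃ s : GK K, s z ≠ z ∧ ∀ x ∈ K⟮z⟯, ‖j x‖ ≤ 1 → ‖j (s x) - j x‖ ≤ δ

-- deps:
def S_TAMEB : Prop := ∀ (K : IF) (f : K[X]) (y : Qbar), 0 < f.natDegree →
  TameSet K {z | ∃ (n : ℕ) (σ : GK K), (fun x => aeval x f)^[n] z = σ y}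

-- deps:
def S_NORM : Prop := ∀ (K : IF) (p : ℕ) [Fact p.Prime] (j : Qbar →+* Om p) (w : Qbar) (δ H : ℝ),
  Fd K → IsIntegral ℤ w → 1 ≤ H → (∀ σ : GK K, ‖j (σ w)‖ ≤ δ) → (∀ ψ : Qbar →+* ℂ, ‖ψ w‖ ≤ H) →
    H ^ Module.finrank ℚ K * δ < 1 → w = 0

/-! ### Auxiliary polynomials -/

-- deps:
def S_BT : Prop := ∀ (f : Qbar[X]) (y : Qbar), 2 ≤ f.natDegree → ∃ (N : ℕ) (H : ℝ), 0 < N ∧
  ∀ (n : ℕ) (z : Qbar), (fun x => f.eval x)^[n] z = y → Bd N H z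

-- deps:
def S_BP : Prop := ∀ f : Qbar[X], 2 ≤ f.natDegree → ∃ (N : ℕ) (H : ℝ), 0 < N ∧
  ∀ z ∈ Function.periodicPts fun x => f.eval x, Bd N H z

-- deps:
def S_PH : Prop := ∀ (p : ℕ) [Fact p.Prime] (I J : Type) [Fintype I] [Fintype J]
  (v : J → I → ℚ_[p]) (M : ℕ), (∀ s i, ‖v s i‖ ≤ 1) → 0 < Fintype.card J →
    M * Fintype.card I ≤ Fintype.card J → ∃ a : J → ℤ, a ≠ 0 ∧ (∀ s, |a s| ≤ p) ∧
      ∀ i, ‖∑ s, (a s : ℚ_[p]) * v s i‖ ≤ (p : ℝ)⁻¹ ^ M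

-- deps:
def S_NUM : Prop := ∀ (p d e Q : ℕ) (H δ : ℝ), 2 ≤ d → 1 ≤ H → 0 ≤ δ → δ < 1 →
  ∃ k M : ℕ, M * (M * Q) ≤ d ^ k ∧ (((d : ℝ) ^ k) ^ 2 * p * H ^ k) ^ e * δ ^ M < 1

-- deps:
def S_BAS : Prop := ∀ (K : IF) (f : K[X]) (Y : Set Qbar), 2 ≤ f.natDegree → Orb K f Y →
  ∃ H : ℝ, 1 ≤ H ∧ ∀ k : ℕ, ∃ b : Fin (f.natDegree ^ k) → K[X],
    (∀ i, b i ≠ 0 ∧ (b i).natDegree = i) ∧
      (∀ (p : ℕ) [Fact p.Prime] (φ : K →+* ℚ_[p]), (∀ l, ‖φ (f.coeff l)‖ ≤ 1) →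
        ∀ i l, ‖φ ((b i).coeff l)‖ ≤ 1) ∧
          {z ∈ Y | ¬ ∀ i, Bd 1 (H ^ k) (aeval z (b i))}.Finite

-- deps: NORM PH NUM BAS
def S_AUX1 : Prop := ∀ (K : IF) (f : K[X]) (Y : Set Qbar) (p : ℕ) [Fact p.Prime]
  (φ : K →+* ℚ_[p]) (j : Qbar →+* Om p) (δ : ℝ) (G : ℤ[X]), Fd K → 2 ≤ f.natDegree → Orb K f Y →
    Loc φ j → (∀ l, ‖φ (f.coeff l)‖ ≤ 1) → (∀ z ∈ Y, ‖j z‖ ≤ 1) → δ < 1 → G.Monic →
      {z ∈ Y | ¬ ‖aeval (j z) G‖ ≤ δ}.Infinite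

-- deps: NORM PH NUM BAS
def S_AUX2 : Prop := ∀ (K : IF) (f : K[X]) (Y : Set Qbar) (p : ℕ) [Fact p.Prime]
  (φ : K →+* ℚ_[p]) (j : Qbar →+* Om p) (δ : ℝ) (q : ℕ) (P : Set (Qbar × Qbar)), Fd K →
    2 ≤ f.natDegree → Orb K f Y → Loc φ j → (∀ l, ‖φ (f.coeff l)‖ ≤ 1) → (∀ z ∈ Y, ‖j z‖ ≤ 1) →
      δ < 1 → P ⊆ Y ×ˢ Y → Fib P → (∀ σ : GK K, ∀ x ∈ P, (σ x.1, σ x.2) ∈ P) →
        (∀ x ∈ P, ‖j x.2 - j x.1 ^ q‖ ≤ δ) →
          ∃ A : K[X][X], A ≠ 0 ∧ {x ∈ P | aevalAeval x.1 x.2 A ≠ 0}.Finite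

-- deps: AUX1
def S_RED : Prop := ∀ (K : IF) (f : K[X]) (Y : Set Qbar) (p : ℕ) [Fact p.Prime]
  (φ : K →+* ℚ_[p]) (j : Qbar →+* Om p) (δ : ℝ) (q : ℕ) (P : Set (Qbar × Qbar)) (A : K[X][X])
  (c : ℚ_[p]) (A₀ : ℤ_[p][X][X]), Fd K → 2 ≤ f.natDegree → Orb K f Y → Loc φ j →
    (∀ l, ‖φ (f.coeff l)‖ ≤ 1) → (∀ z ∈ Y, ‖j z‖ ≤ 1) → δ < 1 → P ⊆ Y ×ˢ Y →
      (∀ z ∈ Y, ∃ w, (z, w) ∈ P) → (∀ x ∈ P, ‖j x.2 - j x.1 ^ q‖ ≤ δ) →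
        {x ∈ P | aevalAeval x.1 x.2 A ≠ 0}.Finite → c ≠ 0 →
          A.map (mapRingHom φ) = C (C c) * A₀.map (mapRingHom (zq p)) →
            (A₀.eval (X ^ q)).map (zr p) = 0

/-! ### The curve and the invariant form -/

-- deps: DX
def S_CURVE : Prop := ∀ (k Ω : Type) [Field k] [CharZero k] [Field Ω] [Algebra k Ω] (f : k[X])
  (P : Set (Ω × Ω)) (A₀ : k[X][X]), 0 < f.natDegree → P.Infinite → Fib P →
    {x ∈ P | (aeval x.1 f, aeval x.2 f) ∉ P}.Finite → A₀ ≠ 0 →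
      {x ∈ P | aevalAeval x.1 x.2 A₀ ≠ 0}.Finite →
        ∃ A : k[X][X], {x ∈ P | aevalAeval x.1 x.2 A ≠ 0}.Finite ∧ Crv f A ∧
          ∀ A' : k[X][X], A' ≠ 0 → {x ∈ P | aevalAeval x.1 x.2 A' ≠ 0}.Finite →
            A.natDegree ≤ A'.natDegree

-- deps:
def S_GF : Prop := ∀ (p : ℕ) [Fact p.Prime] (f : ℤ_[p][X]), 0 < (f.map (zr p)).natDegree →
  ∃ (F : Type) (_ : NormedField F) (_ : IsUltrametricDist F) (_ : IsAlgClosed F)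
    (e : ℚ_[p][X] →+* F) (σ : F →+* F) (Γ : Set (F ≃+* F)), IsGF f e σ Γ

-- deps:
def S_PERM : Prop := ∀ (p : ℕ) [Fact p.Prime] (f : ℤ_[p][X]) (F : Type) [NormedField F]
  [IsUltrametricDist F] [IsAlgClosed F] (e : ℚ_[p][X] →+* F) (σ : F →+* F) (Γ : Set (F ≃+* F))
  (q : ℕ) (A₀ : ℤ_[p][X][X]) (r : ℚ_[p][X]) (B : ℚ_[p][X][X]), IsGF f e σ Γ → 0 < q →
    (f.map (zr p)).comp (X ^ q) = f.map (zr p) ^ q →
    derivative (f.map (zr p)) ≠ 0 → A₀.map (mapRingHom (zr p)) ≠ 0 →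
      (A₀.eval (X ^ q)).map (zr p) = 0 → r ≠ 0 →
        C r * sub (f.map (zq p)) (A₀.map (mapRingHom (zq p))) = A₀.map (mapRingHom (zq p)) * B →
          ∃ (Z : Finset F) (π : F → F), Z.Nonempty ∧
            (∀ x, x ∈ Z ↔ (A₀.map (mapRingHom (zq p))).eval₂ e x = 0 ∧ ‖x - e X ^ q‖ < 1) ∧
              Set.BijOn π Z Z ∧ ∀ x ∈ Z, σ (π x) = (f.map (zq p)).eval₂ (e.comp C) x

-- deps: PRIM
def S_APPR : Prop := ∀ (p : ℕ) [Fact p.Prime] (f g : ℤ_[p][X]) (F : Type) [NormedField F]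
  [IsUltrametricDist F] (e : ℚ_[p][X] →+* F) (σ : F →+* F) (Γ : Set (F ≃+* F)) (H u : F),
    IsGF f e σ Γ → H ≠ 0 → (∀ γ ∈ Γ, γ H = H) → σ H = H * u → ‖u - e (g.map (zq p))‖ < 1 →
      ∃ P Q : (ZMod p)[X], P ≠ 0 ∧ Q ≠ 0 ∧
        P.comp (f.map (zr p)) * Q = P * Q.comp (f.map (zr p)) * g.map (zr p)

-- deps: DX GF PERM APPR
def S_INV : Prop := ∀ (p : ℕ) [Fact p.Prime] (f : ℤ_[p][X]) (A₀ : ℤ_[p][X][X]),
  derivative (f.map (zr p)) ≠ 0 → A₀.map (mapRingHom (zr p)) ≠ 0 →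
    (A₀.eval (X ^ p)).map (zr p) = 0 → Crv (f.map (zq p)) (A₀.map (mapRingHom (zq p))) →
      Form (f.map (zr p))

-- deps: GF PERM APPR
def S_INVW : Prop := ∀ (p : ℕ) [Fact p.Prime] (f : ℤ_[p][X]) (A₀ : ℤ_[p][X][X]),
  derivative (f.map (zr p)) ≠ 0 → A₀.map (mapRingHom (zr p)) ≠ 0 →
    (A₀.eval X).map (zr p) = 0 → A₀.eval X ≠ 0 →
      Crv (f.map (zq p)) (A₀.map (mapRingHom (zq p))) → Form (f.map (zr p))

-- deps: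
def S_ORB : Prop := ∀ (k : Type) [Field k] [IsAlgClosed k] (f : k[X]), 2 ≤ f.natDegree →
  (∀ i : ℕ, 0 < i → i ≤ f.natDegree → (i : k) ≠ 0) → Form f →
    ∃ s t : k, C ((f.natDegree : k) ^ 2) * ((f - C s) * (f - C t)) =
      (X - C s) * (X - C t) * derivative f ^ 2

-- deps:
def S_COEF : Prop := ∀ (k : Type) [Field k] (f : k[X]) (s t : k), 2 ≤ f.natDegree →
  (∀ i : ℕ, 0 < i → i ≤ 2 * f.natDegree → (i : k) ≠ 0) → f.coeff (f.natDegree - 1) = 0 →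
    C ((f.natDegree : k) ^ 2) * ((f - C s) * (f - C t)) =
      (X - C s) * (X - C t) * derivative f ^ 2 → cheb f f.natDegree = 0

-- deps: CRV ABG PRIM RAM AUX2 RED CURVE INV
def S_LOCT : Prop := ∀ (K : IF) (f : K[X]) (Y : Set Qbar) (p : ℕ) [Fact p.Prime]
  (φ : K →+* ℚ_[p]) (j : Qbar →+* Om p) (D : Subgroup (GK K)) (τ : GK K) (f₀ : ℤ_[p][X]), Fd K →
    2 ≤ f.natDegree → Orb K f Y → (∀ z ∈ Y, Ab K z) → Loc φ j → Dec K j D τ →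
      f₀.map (zq p) = f.map φ → derivative (f₀.map (zr p)) ≠ 0 → (∀ z ∈ Y, ‖j z‖ ≤ 1) →
        (∀ z ∈ Y, Tame K j D z) → Form (f₀.map (zr p))

-- deps: CRV ABG PRIM WILD AUX2 RED CURVE INVW
def S_LOCW : Prop := ∀ (K : IF) (f : K[X]) (Y : Set Qbar) (p : ℕ) [Fact p.Prime]
  (φ : K →+* ℚ_[p]) (j : Qbar →+* Om p) (D : Subgroup (GK K)) (τ : GK K) (f₀ : ℤ_[p][X]), Fd K →
    2 ≤ f.natDegree → Orb K f Y → (∀ z ∈ Y, Ab K z) → Loc φ j → Dec K j D τ →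
      f₀.map (zq p) = f.map φ → derivative (f₀.map (zr p)) ≠ 0 → (∀ z ∈ Y, ‖j z‖ ≤ 1) → 3 ≤ p →
        Y ⊆ Function.periodicPts (fun x => aeval x f) → (∀ z ∈ Y, ¬ Tame K j D z) →
          Form (f₀.map (zr p))

-- deps: FROB LOCT
def S_FORMT : Prop := ∀ (K : IF) (f : K[X]) (Y : Set Qbar), Fd K → 2 ≤ f.natDegree → Orb K f Y →
  (∀ z ∈ Y, Ab K z) → TameSet K Y → Forms K f

-- deps: ABG FROB BP LOCT LOCW
def S_FORMP : Prop := ∀ (K : IF) (f : K[X]), Fd K → 2 ≤ f.natDegree →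
  {z ∈ Function.periodicPts (fun x : Qbar => aeval x f) | Ab K z}.Infinite → Forms K f

-- deps: PLACE ORB COEF
def S_LIFT : Prop := ∀ (K : IF) (f : K[X]) (s : K), Fd K → 2 ≤ f.natDegree → Forms K f →
  (f.comp (X + C s)).coeff (f.natDegree - 1) = 0 → cheb (f.comp (X + C s) - C s) f.natDegree = 0

/-! ### Exceptional polynomials -/

-- deps:
def S_CLS : Prop := ∀ f : Qbar[X], 2 ≤ f.natDegree → cheb f f.natDegree = 0 →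
  ∃ a : Qbar, a ≠ 0 ∧ (LinConj f a 0 (X ^ f.natDegree) ∨
    a ^ 2 * (f.natDegree * f.coeff f.natDegree) = -f.coeff (f.natDegree - 2) ∧
      (LinConj f a 0 (Chebyshev.C Qbar f.natDegree) ∨ LinConj f a 0 (-Chebyshev.C Qbar f.natDegree)))

-- deps: LIFT CLS
def S_EXC : Prop := ∀ (K : IF) (f : K[X]), Fd K → 2 ≤ f.natDegree → Forms K f →
  ∃ a b, Shape K (f.map (algebraMap K Qbar)) a b

-- deps: PLACE FROB
def S_KUM : Prop := ∀ (K : IF) (d : ℕ) (γ : Qbar) (z : ℕ → Qbar), Fd K → 2 ≤ d → γ ∈ K → γ ≠ 0 →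
  (∀ n, z n ^ d ^ n = γ) → (∀ n, Ab K (z n)) → IsOfFinOrder γ

-- deps: ABG KUM
def S_BASE : Prop := ∀ (K : IF) (f : Qbar[X]) (a b : Qbar) (y : ℕ → Qbar), Fd K →
  2 ≤ f.natDegree → Shape K f a b → (∀ n, f.eval (y (n + 1)) = y n) → (∀ n, Ab K (y n)) →
    (Set.range y).Infinite → Par K f a b (Set.range y)

-- deps: ABG
def S_PPAR : Prop := ∀ (K : IF) (f : Qbar[X]) (a b : Qbar) (S : Set Qbar), 2 ≤ f.natDegree →
  Shape K f a b → S ⊆ Function.periodicPts (fun x => f.eval x) → (∀ z ∈ S, Ab K z) → S.Infinite →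
    Par K f a b (S \ {b})

-- deps: ABG TAMEB BT FORMT EXC BASE
def S_SEQ : Prop := ∀ (K : IF) (f : K[X]) (y : ℕ → Qbar), Fd K → 2 ≤ f.natDegree →
  (∀ n, aeval (y (n + 1)) f = y n) → (∀ n, Ab K (y n)) → (Set.range y).Infinite →
    ∃ a b, Par K (f.map (algebraMap K Qbar)) a b (Set.range y)

-- deps:
def S_CHAIN : Prop := ∀ (T : Type) (g : T → T),
  (∀ S : Set T, S.Infinite → (∀ x ∈ S, ∃ z ∈ S, g z = x) →
    (S ∩ Function.periodicPts g).Infinite ∨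
      ∃ y : ℕ → T, (∀ n, y n ∈ S ∧ g (y (n + 1)) = y n) ∧ (Set.range y).Infinite) ∧
    ∀ S : Set T, (∀ x ∈ S, g x ∈ S) → (∀ x, {z | g z = x}.Finite) →
      (∀ α : T, {z ∈ S | ∃ n : ℕ, g^[n] z = α}.Infinite →
        ∃ y : ℕ → T, y 0 = α ∧ (∀ n, y n ∈ S ∧ g (y (n + 1)) = y n) ∧ (Set.range y).Infinite) ∧
      ({z ∈ S | ∃ n : ℕ, g^[n] z ∈ Function.periodicPts g}.Infinite →
        (S ∩ Function.periodicPts g).Infinite ∨ ∃ α : T, {z ∈ S | ∃ n : ℕ, g^[n] z = α}.Infinite)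

/-- The numbers `ζ + ζ⁻¹`, `ζ` a root of unity, in `F`. -/
def cyc (F : Subfield Qbar) : Set Qbar := {x ∈ F | ∃ ζ : Qbar, IsOfFinOrder ζ ∧ x = ζ + ζ⁻¹}

-- deps:
def S_NOTP : Prop := ∀ F : Subfield Qbar, (cyc F).Infinite → ¬ PropertyP F

-- deps:
def S_MANY : Prop := ∀ (F : Subfield Qbar) (K : IF) (f : Qbar[X]) (a b : Qbar) (S : Set Qbar),
  (∀ x ∈ K, x ∈ F) → Par K f a b S → S.Infinite → (∀ x ∈ S, x ∈ F) → (cyc F).Infinite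

-- deps: ABG FORMP EXC PPAR SEQ CHAIN MANY
def S_HASP : Prop := ∀ (K : IF) (L : IntermediateField K Qbar), Fd K → IsAbelianGalois K L →
  (cyc L.toSubfield).Finite → PropertyP L.toSubfield

end

end Pool.Agent.P.MP_8d2e9f_nt.AO
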