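import Pool.Agent.P.MP_8d2e9f_nt.AO.Iface
import Pool.Agent.P.MP_8d2e9f_nt.AO.DefsB

/-! The intermediate statements for small points. -/

namespace Pool.Agent.P.MP_8d2e9f_nt.AO

open Polynomial NumberField Pool.Agent.P.MP_8d2e9f_nt.G
open scoped IntermediateField

noncomputable section

/-- The Weil height of an algebraic number. -/
def wh (z : Qbar) : ℝ := weilHeight (some z)

/-- `h` is the canonical height of the polynomial `f` on affine points. -/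
def Can (f : Qbar[X]) (h : Qbar → ℝ) : Prop :=
  (∀ z, h (f.eval z) = f.natDegree * h z) ∧ ∃ C : ℝ, ∀ z, |h z - wh z| ≤ C

/-- `Q` holds for all but finitely many points of `P` of small height. -/
def AA {T : Type} (h : T → ℝ) (P : Set T) (Q : T → Prop) : Prop :=
  ∃ ε : ℝ, 0 < ε ∧ {x ∈ P | h x < ε ∧ ¬ Q x}.Finite

/-- `P` has infinitely many points below every positive height. -/
def Lots {T : Type} (h : T → ℝ) (P : Set T) : Prop :=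
  ∀ ε : ℝ, 0 < ε → {x ∈ P | h x < ε}.Infinite

/-- `v` is close to `u ^ q` on the projective line. -/
def Cl {F : Type} [NormedField F] (q : ℕ) (δ : ℝ) (u v : F) : Prop :=
  ‖v - u ^ q‖ ≤ δ * max 1 ‖u‖ ^ q * max 1 ‖v‖ ∧ ‖v‖ = ‖u‖

/-- `s` is an isometry at `j` and acts on the integers of `K(z)` like the `q`-th power. -/
def Acts (K : IF) {p : ℕ} [Fact p.Prime] (j : Qbar →+* Om p) (q : ℕ) (δ : ℝ) (s : GK K)
    (z : Qbar) : Prop :=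
  (∀ x, ‖j (s x)‖ = ‖j x‖) ∧ ∀ x ∈ K⟮z⟯, ‖j x‖ ≤ 1 → ‖j (s x) - j x ^ q‖ ≤ δ

/-- Good reduction of `f` at `φ`. -/
def Good {K : IF} {p : ℕ} [Fact p.Prime] (φ : K →+* ℚ_[p]) (f : K[X]) : Prop :=
  (∀ l, ‖φ (f.coeff l)‖ ≤ 1) ∧ ‖φ f.leadingCoeff‖ = 1

/-! ### Heights -/

-- deps:
def S_WH : Prop :=
  (∀ (K : IF) (σ : GK K) (z : Qbar), wh (σ z) = wh z) ∧
    (∀ g : Qbar[X], 0 < g.natDegree → ∃ C : ℝ, ∀ z, |wh (g.eval z) - g.natDegree * wh z| ≤ C) ∧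
      (∀ z, 0 ≤ wh z) ∧ (∀ (K : IF) (B : ℝ), Fd K → {z ∈ K | wh z ≤ B}.Finite) ∧
        ∀ f : Qbar[X], 2 ≤ f.natDegree → ∃ H : ProjLine → ℝ,
          IsCanonicalHeight (algebraMap Qbar[X] (RatFunc Qbar) f) H

-- deps: WH
def S_CANB : Prop :=
  (∀ (f : Qbar[X]) (h : Qbar → ℝ), 2 ≤ f.natDegree → Can f h →
    (∀ z, 0 ≤ h z) ∧ (∀ z, h z = 0 ↔ (Set.range fun n : ℕ => (fun x => f.eval x)^[n] z).Finite) ∧
      (∀ g : Qbar[X], 0 < g.natDegree → (∀ z, g.eval (f.eval z) = f.eval (g.eval z)) →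
        ∀ z, h (g.eval z) = g.natDegree * h z) ∧
        ∀ (a b : Qbar) (g : Qbar[X]), a ≠ 0 → LinConj f a b g →
          g.natDegree = f.natDegree ∧ Can g fun x => h (a * x + b)) ∧
    ∀ (K : IF) (f : K[X]) (h : Qbar → ℝ), 2 ≤ f.natDegree → Can (f.map (algebraMap K Qbar)) h →
      ∀ (σ : GK K) (z : Qbar), h (σ z) = h z

-- deps:
def S_LINK : Prop := ∀ (K : IF) (L : IntermediateField K Qbar) [NumberField L] (p : ℕ)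
  [Fact p.Prime] (j : Qbar →+* Om p), Fd K → IsGalois K L →
    ∃ U : Finset (FinitePlace L),
      (∀ u ∈ U, ∃ (σ : GK K) (t : ℝ), 0 < t ∧ ∀ x : L, u x = ‖j (σ x)‖ ^ t) ∧
        (∏ u ∈ U, u (p : L)) ^ Module.finrank ℚ K ≤ (p : ℝ)⁻¹ ^ Module.finrank ℚ L

-- deps: LINK
def S_PF : Prop := ∀ (K : IF) (p : ℕ) [Fact p.Prime] (j : Qbar →+* Om p) (ι J : Type) [Fintype ι]
  [Fintype J] (x : ι → Qbar) (D : ι → ℕ) (a : J → ℤ) (m : J → ι → ℕ) (δ : ℝ), Fd K →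
    (∀ t i, m t i ≤ D i) → ∑ t, (a t : Qbar) * ∏ i, x i ^ m t i ≠ 0 → δ ≤ 1 →
      (∀ σ : GK K, ‖j (σ (∑ t, (a t : Qbar) * ∏ i, x i ^ m t i))‖ ≤
        δ * ∏ i, max 1 ‖j (σ (x i))‖ ^ D i) →
          1 ≤ ((∑ t, |(a t : ℝ)|) * Real.exp (∑ i, D i * wh (x i))) ^ Module.finrank ℚ K * δ

-- deps:
def S_GOOD : Prop := ∀ (K : IF) (f : K[X]) (p : ℕ) [Fact p.Prime] (φ : K →+* ℚ_[p])
  (j : Qbar →+* Om p), 0 < f.natDegree → Loc φ j → Good φ f →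
    ∀ (n : ℕ) (z : Qbar),
      max 1 ‖j ((fun x => aeval x f)^[n] z)‖ = max 1 ‖j z‖ ^ f.natDegree ^ n

-- deps:
def S_BASB : Prop := ∀ (K : IF) (f : K[X]) (k : ℕ), 2 ≤ f.natDegree →
  ∃ (b : Fin (f.natDegree ^ k) → K[X]) (m : Fin (f.natDegree ^ k) → Fin k → ℕ),
    (∀ s, b s ≠ 0 ∧ (b s).natDegree = s) ∧ (∀ s i, m s i ≤ f.natDegree) ∧
      (∀ s (z : Qbar), aeval z (b s) = ∏ i : Fin k, (fun x => aeval x f)^[i] z ^ m s i) ∧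
        ∀ (p : ℕ) [Fact p.Prime] (φ : K →+* ℚ_[p]), (∀ l, ‖φ (f.coeff l)‖ ≤ 1) →
          ∀ s l, ‖φ ((b s).coeff l)‖ ≤ 1

/-! ### Auxiliary polynomials at small points -/

-- deps: PH NUM CANB PF GOOD BASB
def S_AUXA : Prop := ∀ (K : IF) (f : K[X]) (h : Qbar → ℝ) (Y : Set Qbar) (p : ℕ) [Fact p.Prime]
  (φ : K →+* ℚ_[p]) (j : Qbar →+* Om p) (δ : ℝ) (G : ℤ[X]) (D : ℕ), Fd K → 2 ≤ f.natDegree →
    Can (f.map (algebraMap K Qbar)) h → (∀ σ : GK K, ∀ z ∈ Y, σ z ∈ Y) → Loc φ j → Good φ f →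
      δ < 1 → G.Monic → AA h Y (fun z => ‖aeval (j z) G‖ ≤ δ * max 1 ‖j z‖ ^ D) →
        AA h Y fun _ => False

-- deps: PH NUM CANB PF GOOD BASB
def S_AUXB : Prop := ∀ (K : IF) (f : K[X]) (h : Qbar → ℝ) (p : ℕ) [Fact p.Prime]
  (φ : K →+* ℚ_[p]) (j : Qbar →+* Om p) (δ : ℝ) (q : ℕ) (P : Set (Qbar × Qbar)), Fd K →
    2 ≤ f.natDegree → Can (f.map (algebraMap K Qbar)) h → Loc φ j → Good φ f → δ < 1 →
      (∀ σ : GK K, ∀ x ∈ P, (σ x.1, σ x.2) ∈ P) → (∀ x ∈ P, h x.2 = h x.1) →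
        (∀ x ∈ P, Cl q δ (j x.1) (j x.2)) →
          ∃ (A : K[X][X]) (ε : ℝ), A ≠ 0 ∧ 0 < ε ∧
            ∀ x ∈ P, h x.1 < ε → aevalAeval x.1 x.2 A = 0

-- deps: AUXA
def S_GAPG : Prop := ∀ (K : IF) (f : K[X]) (h : Qbar → ℝ) (Y : Set Qbar) (p : ℕ) [Fact p.Prime]
  (φ : K →+* ℚ_[p]) (j : Qbar →+* Om p) (δ : ℝ) (g : ℤ_[p][X]) (D : ℕ), Fd K → 2 ≤ f.natDegree →
    Can (f.map (algebraMap K Qbar)) h → (∀ σ : GK K, ∀ z ∈ Y, σ z ∈ Y) → Loc φ j → Good φ f →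
      δ < 1 → g.map (zr p) ≠ 0 →
        AA h Y (fun z => ‖g.eval₂ (zo p) (j z)‖ ≤ δ * max 1 ‖j z‖ ^ D) → AA h Y fun _ => False

-- deps: GAPG
def S_REDB : Prop := ∀ (K : IF) (f : K[X]) (h : Qbar → ℝ) (p : ℕ) [Fact p.Prime]
  (φ : K →+* ℚ_[p]) (j : Qbar →+* Om p) (δ : ℝ) (q : ℕ) (P : Set (Qbar × Qbar)) (A : K[X][X])
  (c : ℚ_[p]) (A₀ : ℤ_[p][X][X]), Fd K → 2 ≤ f.natDegree → Can (f.map (algebraMap K Qbar)) h →
    Loc φ j → Good φ f → δ < 1 → (∀ σ : GK K, ∀ x ∈ P, (σ x.1, σ x.2) ∈ P) → Fib P →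
      Lots (fun x => h x.1) P → (∀ x ∈ P, Cl q δ (j x.1) (j x.2)) →
        AA (fun x => h x.1) P (fun x => aevalAeval x.1 x.2 A = 0) → c ≠ 0 →
          A.map (mapRingHom φ) = C (C c) * A₀.map (mapRingHom (zq p)) →
            (A₀.eval (X ^ q)).map (zr p) = 0

-- deps: DX
def S_CURVF : Prop := ∀ (k Ω : Type) [Field k] [CharZero k] [Field Ω] [Algebra k Ω] (f : k[X])
  (F : Filter (Ω × Ω)) (A₀ : k[X][X]), F.NeBot → (∀ z, ∀ᶠ x in F, x.1 ≠ z ∧ x.2 ≠ z) →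
    Filter.Tendsto (fun x : Ω × Ω => (aeval x.1 f, aeval x.2 f)) F F → A₀ ≠ 0 →
      (∀ᶠ x in F, aevalAeval x.1 x.2 A₀ = 0) →
        ∃ A : k[X][X], (∀ᶠ x in F, aevalAeval x.1 x.2 A = 0) ∧ Crv f A ∧
          ∀ A' : k[X][X], A' ≠ 0 → (∀ᶠ x in F, aevalAeval x.1 x.2 A' = 0) →
            A.natDegree ≤ A'.natDegree

-- deps: CURVF
def S_CURVB : Prop := ∀ (K : IF) (f : K[X]) (h : Qbar → ℝ) (P : Set (Qbar × Qbar)) (A₀ : K[X][X]),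
  0 < f.natDegree → (∀ z, h (aeval z f) = f.natDegree * h z) → Lots (fun x => h x.1) P → Fib P →
    AA (fun x => h x.1) P (fun x => (aeval x.1 f, aeval x.2 f) ∈ P) → A₀ ≠ 0 →
      AA (fun x => h x.1) P (fun x => aevalAeval x.1 x.2 A₀ = 0) →
        ∃ A : K[X][X], AA (fun x => h x.1) P (fun x => aevalAeval x.1 x.2 A = 0) ∧ Crv f A ∧
          ∀ A' : K[X][X], A' ≠ 0 → AA (fun x => h x.1) P (fun x => aevalAeval x.1 x.2 A' = 0) →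
            A.natDegree ≤ A'.natDegree

/-! ### Local steps -/

-- deps: ABG RAM
def S_DICH : Prop := ∀ (K : IF) (p : ℕ) [Fact p.Prime] (j : Qbar →+* Om p) (D : Subgroup (GK K))
  (τ : GK K), Dec K j D τ → 3 ≤ p → ∃ δ : ℝ, 0 ≤ δ ∧ δ < 1 ∧ ∀ z, Ab K z →
    Acts K j p δ τ z ∨ ∃ s : GK K, s z ≠ z ∧ (s ^ p) z = z ∧ Acts K j 1 δ s z

-- deps: ABG
def S_ACT : Prop := ∀ (K : IF) (p : ℕ) [Fact p.Prime] (j : Qbar →+* Om p) (q : ℕ) (δ : ℝ)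
  (s : GK K) (z : Qbar), Ab K z → Acts K j q δ s z →
    (∀ x ∈ K⟮z⟯, Acts K j q δ s x ∧ Cl q δ (j x) (j (s x))) ∧ ∀ σ : GK K, σ z ∈ K⟮z⟯

-- deps: CRV ABG PRIM INV CANB AUXB REDB CURVB ACT
def S_LOCA : Prop := ∀ (K : IF) (f : K[X]) (h : Qbar → ℝ) (p : ℕ) [Fact p.Prime]
  (φ : K →+* ℚ_[p]) (j : Qbar →+* Om p) (δ : ℝ) (τ : GK K) (f₀ : ℤ_[p][X]), Fd K →
    2 ≤ f.natDegree → Can (f.map (algebraMap K Qbar)) h → Loc φ j → Good φ f →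
      f₀.map (zq p) = f.map φ → derivative (f₀.map (zr p)) ≠ 0 → δ < 1 →
        Lots h {z | Ab K z ∧ Acts K j p δ τ z} → Form (f₀.map (zr p))

-- deps: ABG GAPG ACT
def S_COLL : Prop := ∀ (K : IF) (f : K[X]) (h : Qbar → ℝ) (p : ℕ) [Fact p.Prime]
  (φ : K →+* ℚ_[p]) (j : Qbar →+* Om p) (δ : ℝ) (f₀ : ℤ_[p][X]), Fd K →
    2 ≤ f.natDegree → Can (f.map (algebraMap K Qbar)) h → Loc φ j → Good φ f →
      f₀.map (zq p) = f.map φ → derivative (f₀.map (zr p)) ≠ 0 → δ < 1 →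
        AA h {z | Ab K z ∧ ∃ s : GK K, s z ≠ z ∧ Acts K j 1 δ s z ∧ s (aeval z f) = aeval z f}
          fun _ => False

-- deps: CRV ABG PRIM INVW CANB AUXB REDB CURVB ACT COLL
def S_LOCB : Prop := ∀ (K : IF) (f : K[X]) (h : Qbar → ℝ) (p : ℕ) [Fact p.Prime]
  (φ : K →+* ℚ_[p]) (j : Qbar →+* Om p) (δ : ℝ) (f₀ : ℤ_[p][X]), Fd K →
    2 ≤ f.natDegree → Can (f.map (algebraMap K Qbar)) h → Loc φ j → Good φ f →
      f₀.map (zq p) = f.map φ → derivative (f₀.map (zr p)) ≠ 0 → δ < 1 →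
        Lots h {z | Ab K z ∧ ∃ s : GK K, s z ≠ z ∧ Acts K j 1 δ s z} → Form (f₀.map (zr p))

-- deps: FROB DICH LOCA LOCB
def S_FORMB : Prop := ∀ (K : IF) (f : K[X]) (h : Qbar → ℝ), Fd K → 2 ≤ f.natDegree →
  Can (f.map (algebraMap K Qbar)) h → Lots h {z | Ab K z} → Forms K f

/-! ### Exceptional maps -/

-- deps: ABG WH PF ACT
def S_AMP : Prop := ∀ (K : IF) (p : ℕ) [Fact p.Prime] (j : Qbar →+* Om p) (δ B : ℝ) (T : ℤ[X]),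
  Fd K → δ < 1 → T.Monic → T.natDegree = p → T.map (Int.castRingHom (ZMod p)) = X ^ p →
    ∃ k : ℕ, ∀ (s : GK K) (z : Qbar), Ab K z →
      (Acts K j p δ s z → wh ((fun x => aeval x T)^[k] z) ≤ B →
        wh ((fun x => aeval x T)^[k + 1] z) ≤ B →
          s ((fun x => aeval x T)^[k] z) = (fun x => aeval x T)^[k + 1] z) ∧
      (Acts K j 1 δ s z → wh ((fun x => aeval x T)^[k] z) ≤ B →
        s ((fun x => aeval x T)^[k] z) = (fun x => aeval x T)^[k] z)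

-- deps:
def S_OMEGA : Prop := ∀ (K : IF) (L : Subfield Qbar) (p k : ℕ) (s : GK K) (a b x : Qbar),
  p.Prime → 3 ≤ p → a ≠ 0 → s a = a → s b = b → (∀ y ∈ L, s y ∈ L) → s x ≠ x → (s ^ p) x = x →
    (∀ ω : Qbar, IsPrimitiveRoot ω p → ω + ω⁻¹ ∉ L) → a * x + b ∈ L →
      (s (x ^ p ^ k) = x ^ p ^ k → False) ∧
        (s ((Chebyshev.C Qbar (p ^ k : ℕ)).eval x) = (Chebyshev.C Qbar (p ^ k : ℕ)).eval x →
          ∃ ζ : Qbar, IsOfFinOrder ζ ∧ x = ζ + ζ⁻¹)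

-- deps:
def S_DESC : Prop := ∀ (F : Subfield Qbar) (a b : Qbar), a ≠ 0 →
  ({y ∈ F | PowerPt a b y}.Infinite ∨ {y ∈ F | ChebPt a b y}.Infinite) → (cyc F).Infinite

-- deps: ABG PLACE FROB CANB DICH AMP OMEGA
def S_EXG : Prop := ∀ (K K' : IF) (L : IntermediateField K Qbar) (f : Qbar[X]) (h : Qbar → ℝ)
  (a b : Qbar), Fd K → Fd K' → IsAbelianGalois K L → (cyc L.toSubfield).Finite → 2 ≤ f.natDegree →
    Can f h → Shape K' f a b → ∃ ε : ℝ, 0 < ε ∧ ∀ z ∈ L, h z < ε → h z = 0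

-- deps: CANB
def S_TOR : Prop := ∀ (K : IF) (f : Qbar[X]) (h : Qbar → ℝ) (a b : Qbar), 2 ≤ f.natDegree →
  Can f h → Shape K f a b → (∀ z, h z = 0 → PowerPt a b z) ∨ ∀ z, h z = 0 → ChebPt a b z

-- deps: ABG EXC CANB FORMB DESC EXG TOR
def S_USB : Prop := ∀ (K : IF) (L : IntermediateField K Qbar), Fd K → IsAbelianGalois K L →
  (cyc L.toSubfield).Finite → PolyUSB L.toSubfield

-- deps: WH
def S_NUSB : Prop := ∀ F : Subfield Qbar, (cyc F).Infinite → ¬ PolyUSB F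

end

end Pool.Agent.P.MP_8d2e9f_nt.AO
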