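import Pool.Agent.P.MP_8d2e9f_nt.AO.BaseC

/-! The intermediate statements for rational maps. -/

namespace Pool.Agent.P.MP_8d2e9f_nt.AO

open Polynomial NumberField Pool.Agent.P.MP_8d2e9f_nt.G
open scoped IntermediateField Classical

noncomputable section

/-! ### Algebra of rational maps -/

-- deps:
def S_CHN : Prop :=
  (∀ (R : Type) [CommRing R] (a b P : R[X]) (d n : ℕ), a.natDegree ≤ d → b.natDegree ≤ d →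
    (∀ v, hv (homg a b n P) (n * d) v = hv P n (vm a b d v)) ∧
      (∀ a' b' : R[X], homg a' b' (n * d) (homg a b n P) =
        homg (homg a' b' d a) (homg a' b' d b) n P) ∧ (wr a b).natDegree ≤ 2 * d - 2) ∧
  ∀ (k : Type) [Field k] (a b a' b' : k[X]) (d : ℕ), 0 < d → a.natDegree ≤ d → b.natDegree ≤ d →
    wr (homg a' b' d a) (homg a' b' d b) = homg a' b' (2 * d - 2) (wr a b) * wr a' b'

-- deps:
def S_PRN : Prop :=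
  (∀ (k : Type) [Field k] (d : ℕ) (a b : k[X]), Nrm d a b →
    Pr d a b ∧ im a b d none = none ∧ b ≠ 0 ∧ ((d : k) ≠ 0 → wr a b ≠ 0)) ∧
  ∀ (k : Type) [Field k] [IsAlgClosed k] (d : ℕ) (a b : k[X]), 2 ≤ d → Pr d a b →
    (∃ c, im a b d c = c) ∧ (im a b d none = none → Nrm d a b ∧
      ((∀ x, im a b d x = none → x = none) → b.natDegree = 0))

-- deps: CHN
def S_PCOMP : Prop := ∀ (k : Type) [Field k] (d d' : ℕ) (a b a' b' : k[X]), 0 < d → Pr d a b →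
  Pr d' a' b' → Pr (d * d') (homg a' b' d a) (homg a' b' d b) ∧
    (∀ x, im (homg a' b' d a) (homg a' b' d b) (d * d') x = im a b d (im a' b' d' x)) ∧
      (∀ P P' P'' : k[X], P'.natDegree ≤ 24 → Pb a b P P' → Pb a' b' P' P'' →
        Pb (homg a' b' d a) (homg a' b' d b) P P'') ∧
        ∀ (Q : k[X]) (c c' : k), Q.natDegree ≤ 3 → Ode 2 Q c a b → Ode 2 Q c' a' b' →
          Ode 2 Q (c * c') (homg a' b' d a) (homg a' b' d b)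

-- deps:
def S_IND : Prop := ∀ (k : Type) [Field k] (d n : ℕ) (a b : k[X]), Nrm d a b →
  (∀ T : Fin d → k[X], (∀ s, (T s).natDegree ≤ n) →
    ∑ s : Fin d, X ^ (s : ℕ) * homg a b n (T s) = 0 → ∀ s, T s = 0) ∧
    ∀ P : k[X], P ≠ 0 → P.natDegree ≤ n → homg a b n P ≠ 0

-- deps:
def S_GOODR : Prop :=
  (∀ (p : ℕ) [Fact p.Prime] (d : ℕ) (a b : ℤ_[p][X]), GdZ d a b →
    Nrm d (a.map (zr p)) (b.map (zr p)) ∧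
      ∀ (F : Type) [NormedField F] [IsUltrametricDist F] (ι : ℤ_[p] →+* F), (∀ c, ‖ι c‖ ≤ 1) →
        ∀ u, max ‖a.eval₂ ι u‖ ‖b.eval₂ ι u‖ = max 1 ‖u‖ ^ d) ∧
  ∀ (K : IF) (d : ℕ) (a b : K[X]), Nrm d a b → ∃ s : Finset K,
    ∀ (p : ℕ) [Fact p.Prime] (φ : K →+* ℚ_[p]), (∀ c ∈ s, c ≠ 0 → ‖φ c‖ = 1) →
      ∃ a₀ b₀ : ℤ_[p][X], GdZ d a₀ b₀ ∧ a₀.map (zq p) = a.map φ ∧ b₀.map (zq p) = b.map φ

/-! ### Heights -/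

-- deps:
def S_CANH : Prop := ∀ (d : ℕ) (φ : ProjLine → ProjLine), 2 ≤ d → RM ⊤ d φ →
  (∃ H, CanH d φ H) ∧ ∀ H, CanH d φ H → (∀ α, 0 ≤ H α) ∧ (∀ α, H α = 0 ↔ α ∈ PP φ) ∧
    (∀ r, CanH (d ^ r) φ^[r] H) ∧
      ∀ (e : ℕ) (θ ψ : ProjLine → ProjLine) (H' : ProjLine → ℝ), 0 < e → RM ⊤ e θ →
        (∀ α, θ (φ α) = ψ (θ α)) → CanH d ψ H' → ∀ α, H' (θ α) = e * H α

-- deps: WH
def S_CANR : Prop := ∀ (K : IF) (d : ℕ) (a b : K[X]), Nrm d a b →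
  (∀ h, CanR d a b h → (∀ z, 0 ≤ h z) ∧ (∀ (σ : GK K) z, h (σ z) = h z) ∧
    ∀ z, 0 < h z → ∀ n : ℕ, aeval ((rm a b)^[n] z) b ≠ 0 ∧ h ((rm a b)^[n] z) = d ^ n * h z) ∧
    (∀ H, CanH d (im (a.map (algebraMap K Qbar)) (b.map (algebraMap K Qbar)) d) H →
      H none = 0 ∧ CanR d a b fun z => H (some z)) ∧
      ∀ c, {z : Qbar | aeval z b ≠ 0 ∧ rm a b z = c}.Finite

-- deps: CANH
def S_TRANS : Prop :=
  (∀ φ ψ χ : ProjLine → ProjLine, Sc φ ψ → Sc ψ χ → Sc φ χ) ∧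
  ∀ (L : IF) (d : ℕ) (φ : ProjLine → ProjLine), 2 ≤ d → RM ⊤ d φ →
    (∀ ψ, RM ⊤ d ψ → Sc φ ψ → GapA L d ψ → GapA L d φ) ∧
      ∀ r, GapA L (d ^ r) φ^[r] → GapA L d φ

/-! ### Auxiliary polynomials -/

-- deps: IND GOODR
def S_BASR : Prop := ∀ (K : IF) (d k : ℕ) (a b : K[X]), Nrm d a b →
  ∃ (B : (Fin k → Fin d) → K[X]) (β : K[X]), LinearIndependent K B ∧
    (∀ s, (B s).natDegree ≤ d ^ k - 1) ∧
      (∀ z : Qbar, (∀ n : ℕ, aeval ((rm a b)^[n] z) b ≠ 0) → aeval z β ≠ 0 ∧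
        ∀ s, aeval z (B s) = aeval z β * ∏ i : Fin k, (rm a b)^[i] z ^ (s i : ℕ)) ∧
        ∀ (p : ℕ) [Fact p.Prime] (φ : K →+* ℚ_[p]) (j : Qbar →+* Om p) (a₀ b₀ : ℤ_[p][X]),
          Loc φ j → GdZ d a₀ b₀ → a₀.map (zq p) = a.map φ → b₀.map (zq p) = b.map φ →
            (∀ s, ∃ B₀ : ℤ_[p][X], B₀.map (zq p) = (B s).map φ) ∧
              ∀ z : Qbar, (∀ n : ℕ, aeval ((rm a b)^[n] z) b ≠ 0) →
                ‖j (aeval z β)‖ * ∏ i : Fin k, max 1 ‖j ((rm a b)^[i] z)‖ ^ (d - 1) =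
                  max 1 ‖j z‖ ^ (d ^ k - 1)

-- deps: PH
def S_SIEG1 : Prop := ∀ (p : ℕ) [Fact p.Prime] (J : Type) [Fintype J] (n M : ℕ)
  (B : J → ℤ_[p][X]) (G : ℤ[X]), (∀ s, (B s).natDegree ≤ n) → G.Monic → 0 < Fintype.card J →
    M * (M * (G.natDegree + 1)) ≤ Fintype.card J →
      ∃ a : J → ℤ, a ≠ 0 ∧ (∀ s, |a s| ≤ p) ∧ ∀ (ε : ℝ) (u : Om p), (p : ℝ)⁻¹ ≤ ε → ε ≤ 1 →
        ((‖u‖ ≤ 1 ∧ ‖aeval u G‖ ≤ ε) ∨ 1 ≤ ε * ‖u‖) →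
          ‖∑ s, (a s : Om p) * (B s).eval₂ (zo p) u‖ ≤ ε ^ M * max 1 ‖u‖ ^ n

-- deps: PH
def S_SIEG2 : Prop := ∀ (p : ℕ) [Fact p.Prime] (J : Type) [Fintype J] (n M q : ℕ)
  (B : J → ℤ_[p][X]), (∀ s, (B s).natDegree ≤ n) → Fintype.card J = n + 1 →
    M * (M * (2 * (q + 1))) ≤ n + 1 →
      ∃ a : J × J → ℤ, a ≠ 0 ∧ (∀ s, |a s| ≤ p) ∧ ∀ (δ : ℝ) (u v : Om p), (p : ℝ)⁻¹ ≤ δ → δ ≤ 1 →
        Cl q δ u v →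
          ‖∑ s, (a s : Om p) * ((B s.1).eval₂ (zo p) u * (B s.2).eval₂ (zo p) v)‖ ≤
            δ ^ M * max 1 ‖u‖ ^ n * max 1 ‖v‖ ^ n

-- deps: NUM PF CANR BASR SIEG1
def S_AUXAR : Prop := ∀ (K : IF) (d : ℕ) (a b : K[X]) (h : Qbar → ℝ) (p : ℕ) [Fact p.Prime]
  (φ : K →+* ℚ_[p]) (j : Qbar →+* Om p) (a₀ b₀ : ℤ_[p][X]) (Y : Set Qbar) (ε : ℝ) (G : ℤ[X]),
    St K d a b h φ j a₀ b₀ → (∀ σ : GK K, ∀ z ∈ Y, σ z ∈ Y) → (∀ z ∈ Y, 0 < h z) → ε < 1 →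
      G.Monic → AA h Y (fun z => (‖j z‖ ≤ 1 ∧ ‖aeval (j z) G‖ ≤ ε) ∨ 1 ≤ ε * ‖j z‖) →
        AA h Y fun _ => False

-- deps: NUM PF CANR BASR SIEG2
def S_AUXBR : Prop := ∀ (K : IF) (d : ℕ) (a b : K[X]) (h : Qbar → ℝ) (p : ℕ) [Fact p.Prime]
  (φ : K →+* ℚ_[p]) (j : Qbar →+* Om p) (a₀ b₀ : ℤ_[p][X]) (δ : ℝ) (q : ℕ)
  (P : Set (Qbar × Qbar)), St K d a b h φ j a₀ b₀ → δ < 1 →
    (∀ σ : GK K, ∀ x ∈ P, (σ x.1, σ x.2) ∈ P) → (∀ x ∈ P, 0 < h x.1 ∧ h x.2 = h x.1) →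
      (∀ x ∈ P, Cl q δ (j x.1) (j x.2)) →
        ∃ (A : K[X][X]) (ε : ℝ), A ≠ 0 ∧ 0 < ε ∧ ∀ x ∈ P, h x.1 < ε → aevalAeval x.1 x.2 A = 0

-- deps: AUXAR
def S_GAPGR : Prop := ∀ (K : IF) (d : ℕ) (a b : K[X]) (h : Qbar → ℝ) (p : ℕ) [Fact p.Prime]
  (φ : K →+* ℚ_[p]) (j : Qbar →+* Om p) (a₀ b₀ : ℤ_[p][X]) (Y : Set Qbar) (δ : ℝ) (g : ℤ_[p][X])
  (D : ℕ), St K d a b h φ j a₀ b₀ → (∀ σ : GK K, ∀ z ∈ Y, σ z ∈ Y) → (∀ z ∈ Y, 0 < h z) → δ < 1 →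
    g.map (zr p) ≠ 0 → AA h Y (fun z => ‖g.eval₂ (zo p) (j z)‖ ≤ δ * max 1 ‖j z‖ ^ D) →
      AA h Y fun _ => False

-- deps: GAPGR
def S_REDBR : Prop := ∀ (K : IF) (d : ℕ) (a b : K[X]) (h : Qbar → ℝ) (p : ℕ) [Fact p.Prime]
  (φ : K →+* ℚ_[p]) (j : Qbar →+* Om p) (a₀ b₀ : ℤ_[p][X]) (δ : ℝ) (q : ℕ)
  (P : Set (Qbar × Qbar)) (A : K[X][X]) (c : ℚ_[p]) (A₀ : ℤ_[p][X][X]),
    St K d a b h φ j a₀ b₀ → δ < 1 → (∀ σ : GK K, ∀ x ∈ P, (σ x.1, σ x.2) ∈ P) →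
      (∀ x ∈ P, 0 < h x.1) → Fib P → Lots (fun x => h x.1) P →
        (∀ x ∈ P, Cl q δ (j x.1) (j x.2)) →
          AA (fun x => h x.1) P (fun x => aevalAeval x.1 x.2 A = 0) → c ≠ 0 →
            A.map (mapRingHom φ) = C (C c) * A₀.map (mapRingHom (zq p)) →
              (A₀.eval (X ^ q)).map (zr p) = 0

-- deps: CURVF CANR
def S_CURVR : Prop := ∀ (K : IF) (d : ℕ) (a b : K[X]) (h : Qbar → ℝ) (P : Set (Qbar × Qbar))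
  (A₀ : K[X][X]), Nrm d a b → CanR d a b h → (∀ x ∈ P, 0 < h x.1 ∧ h x.2 = h x.1) →
    Lots (fun x => h x.1) P → Fib P →
      AA (fun x => h x.1) P (fun x => (rm a b x.1, rm a b x.2) ∈ P) → A₀ ≠ 0 →
        AA (fun x => h x.1) P (fun x => aevalAeval x.1 x.2 A₀ = 0) →
          ∃ A : K[X][X], A ≠ 0 ∧ AA (fun x => h x.1) P (fun x => aevalAeval x.1 x.2 A = 0) ∧
            InvC a b A ∧
              (∃ (U V : K[X][X]) (r : K[X]), r ≠ 0 ∧ U * A + V * derivative A = C r) ∧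
              ∀ A' : K[X][X], A' ≠ 0 →
                AA (fun x => h x.1) P (fun x => aevalAeval x.1 x.2 A' = 0) →
                  A.natDegree ≤ A'.natDegree

/-! ### The tame case -/

-- deps:
def S_ROOTV : Prop := ∀ (F : Type) [Field F] [IsAlgClosed F] (O : ValuationSubring F) (G : F[X])
  (ξ : F), (∀ i, G.coeff i ∈ O) → ξ ∈ O →
    ((∃ i, O.valuation (G.coeff i) = 1) → O.valuation (G.eval ξ) < 1 →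
      ∃ x, G.eval x = 0 ∧ O.valuation (x - ξ) < 1) ∧
      (O.valuation ((derivative G).eval ξ) = 1 → ∀ x y, G.eval x = 0 → G.eval y = 0 →
        O.valuation (x - ξ) < 1 → O.valuation (y - ξ) < 1 → x = y) ∧
        ∀ x, O.valuation (x - ξ) < 1 → O.valuation (G.eval x - G.eval ξ) < 1

-- deps:
def S_DEF : Prop := ∀ (A : Qbar[X][X]) (m : ℕ) (W : ℕ → ℕ → Qbar), 0 < m →
  (∀ n i, W n (i + m) = W n i) → (∀ n i, ev2 (RingHom.id _) (W n i) (W n (i + 1)) A = 0) →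
    Function.Injective (fun n => W n 0) → ∃ n, HasD A (W n)

-- deps: ROOTV
def S_LIFTD : Prop := ∀ (d : ℕ) (a b r : Qbar[X]) (A U V : Qbar[X][X]) (w : ℕ → Qbar) (m n : ℕ),
  Nrm d a b → InvC a b A → U * A + V * derivative A = C r → 0 < m → (∀ i, w (i + m) = w i) →
    (∀ i, ev2 (RingHom.id _) (w i) (w (i + 1)) A = 0) →
      (∀ i l : ℕ, b.eval ((rv (RingHom.id _) a b)^[l] (w i)) ≠ 0) → (∀ i, r.eval (w i) ≠ 0) →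
        (∀ i, r.eval ((rv (RingHom.id _) a b)^[n] (w i)) ≠ 0) →
          HasD A (fun i => (rv (RingHom.id _) a b)^[n] (w i)) → HasD A w

-- deps:
def S_KRA : Prop := ∀ (S : Type) [CommRing S] [IsDomain S] (p : ℕ) (G : Set S) (P Q : Ideal S),
  p.Prime → G.Finite → Subring.closure G = ⊤ → P.IsPrime → Q.IsPrime → P ≠ ⊥ → P < Q →
    (p : S) ∈ Q → ¬ ∀ R : Ideal S, R.IsPrime → (p : S) ∈ R → R ≤ Q → ∀ g ∈ G,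
      ∃ f : ℤ[X], f.map (Int.castRingHom (ZMod p)) ≠ 0 ∧ aeval g f ∈ R

-- deps: KRA
def S_KRULL : Prop := ∀ (p : ℕ) [Fact p.Prime] (j : Qbar →+* Om p) (B A₂ : Qbar[X][X]) (N : ℕ)
  (w : ℕ → Qbar), (∀ i l, ‖j ((B.coeff i).coeff l)‖ ≤ 1) → (∀ i l, ‖j ((A₂.coeff i).coeff l)‖ ≤ 1) →
    (∀ i, ‖j (w i)‖ ≤ 1) → (∀ i, ‖j (ev2 (RingHom.id _) (w i) (w (i + 1)) B)‖ = 1) →
      ¬ HasD ((X - C (X ^ p)) ^ N * B + C (C (p : Qbar)) * A₂) w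

-- deps:
def S_FACT : Prop := ∀ (K : IF) (p : ℕ) [Fact p.Prime] (φ : K →+* ℚ_[p]) (A : K[X][X]), A ≠ 0 →
  ∃ (c : K) (N : ℕ) (B : ℤ[X][X]) (A₂ : K[X][X]), (∀ i l, ‖φ ((A₂.coeff i).coeff l)‖ ≤ 1) ∧
    (B.eval (X ^ p)).map (Int.castRingHom (ZMod p)) ≠ 0 ∧
      C (C c) * A = (X - C (X ^ p)) ^ N * B.map (mapRingHom (Int.castRingHom K)) +
        C (C (p : K)) * A₂

-- deps: ABG ACT CANR GAPGR
def S_TAMA : Prop := ∀ (K : IF) (d : ℕ) (a b : K[X]) (h : Qbar → ℝ) (p : ℕ) [Fact p.Prime]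
  (φ : K →+* ℚ_[p]) (j : Qbar →+* Om p) (a₀ b₀ : ℤ_[p][X]) (δ : ℝ) (τ : GK K) (g : ℤ[X])
  (Q : Qbar → Prop), St K d a b h φ j a₀ b₀ → δ < 1 → g.map (Int.castRingHom (ZMod p)) ≠ 0 →
    Lots h {z | 0 < h z ∧ Ab K z ∧ Acts K j p δ τ z} →
      AA h {z | 0 < h z ∧ Ab K z ∧ Acts K j p δ τ z} Q →
        ∃ z, (0 < h z ∧ Ab K z ∧ Acts K j p δ τ z) ∧ Q z ∧ ‖j z‖ ≤ 1 ∧ ‖j (aeval z g)‖ = 1

-- deps: ABG CANR DEF LIFTD KRULL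
def S_TAMB : Prop := ∀ (K : IF) (d : ℕ) (a b r : K[X]) (h : Qbar → ℝ) (p : ℕ) [Fact p.Prime]
  (φ : K →+* ℚ_[p]) (j : Qbar →+* Om p) (δ : ℝ) (τ : GK K) (A U V A₂ : K[X][X]) (c : K) (N : ℕ)
  (B : ℤ[X][X]) (z : Qbar), Nrm d a b → CanR d a b h → Loc φ j → δ < 1 → InvC a b A →
    U * A + V * derivative A = C r → (∀ i l, ‖φ ((A₂.coeff i).coeff l)‖ ≤ 1) →
      C (C c) * A = (X - C (X ^ p)) ^ N * B.map (mapRingHom (Int.castRingHom K)) +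
        C (C (p : K)) * A₂ → 0 < h z → Ab K z → Acts K j p δ τ z → aevalAeval z (τ z) A = 0 →
          aeval z r ≠ 0 → ‖j z‖ ≤ 1 → ‖j (aeval z (B.eval (X ^ p)))‖ ≠ 1

-- deps: ABG ACT CANR AUXBR CURVR FACT TAMA TAMB
def S_TAME : Prop := ∀ (K : IF) (d : ℕ) (a b : K[X]) (h : Qbar → ℝ) (p : ℕ) [Fact p.Prime]
  (φ : K →+* ℚ_[p]) (j : Qbar →+* Om p) (a₀ b₀ : ℤ_[p][X]) (δ : ℝ) (τ : GK K),
    St K d a b h φ j a₀ b₀ → δ < 1 → ¬ Lots h {z | 0 < h z ∧ Ab K z ∧ Acts K j p δ τ z}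

-- deps: FROB DICH TAME
def S_WLD : Prop := ∀ (K : IF) (d : ℕ) (a b : K[X]) (h : Qbar → ℝ) (p : ℕ) [Fact p.Prime]
  (φ : K →+* ℚ_[p]) (j : Qbar →+* Om p) (a₀ b₀ : ℤ_[p][X]), St K d a b h φ j a₀ b₀ → 3 ≤ p →
    ∃ δ : ℝ, 0 ≤ δ ∧ δ < 1 ∧
      AA h {z | 0 < h z ∧ Ab K z} fun z => ∃ s : GK K, s z ≠ z ∧ Acts K j 1 δ s z

/-! ### The wild case -/

-- deps: IND GOODR
def S_GFR : Prop := ∀ (p : ℕ) [Fact p.Prime] (d : ℕ) (a b : ℤ_[p][X]), GdZ d a b →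
  ∃ (F : Type) (_ : NormedField F) (_ : IsUltrametricDist F) (_ : IsAlgClosed F)
    (e : ℚ_[p][X] →+* F) (σ : F →+* F) (Γ : Set (F ≃+* F)), IsGFR a b e σ Γ

-- deps: PRN GOODR
def S_PERMR : Prop := ∀ (p : ℕ) [Fact p.Prime] (d : ℕ) (a b : ℤ_[p][X]) (F : Type) [NormedField F]
  [IsUltrametricDist F] [IsAlgClosed F] (e : ℚ_[p][X] →+* F) (σ : F →+* F) (Γ : Set (F ≃+* F))
  (A₀ : ℤ_[p][X][X]), GdZ d a b → IsGFR a b e σ Γ → wr (a.map (zr p)) (b.map (zr p)) ≠ 0 →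
    A₀.map (mapRingHom (zr p)) ≠ 0 → (A₀.eval X).map (zr p) = 0 →
      InvC (a.map (zq p)) (b.map (zq p)) (A₀.map (mapRingHom (zq p))) →
        ∃ (Z : Finset F) (π : F → F), Z.Nonempty ∧
          (∀ x, x ∈ Z ↔ (A₀.map (mapRingHom (zq p))).eval₂ e x = 0 ∧ ‖x - e X‖ < 1) ∧
            Set.BijOn π Z Z ∧
              ∀ x ∈ Z, σ (π x) = rv (e.comp C) (a.map (zq p)) (b.map (zq p)) x

-- deps: PRIM PRN GOODR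
def S_APPRR : Prop := ∀ (p : ℕ) [Fact p.Prime] (d : ℕ) (a b g₁ g₂ : ℤ_[p][X]) (F : Type)
  [NormedField F] [IsUltrametricDist F] (e : ℚ_[p][X] →+* F) (σ : F →+* F) (Γ : Set (F ≃+* F))
  (H u : F), GdZ d a b → IsGFR a b e σ Γ → H ≠ 0 → (∀ γ ∈ Γ, γ H = H) → σ H = H * u →
    g₂.map (zr p) ≠ 0 → ‖u - e (g₁.map (zq p)) / e (g₂.map (zq p))‖ < 1 →
      ∃ (P Q : (ZMod p)[X]) (n : ℕ), P ≠ 0 ∧ Q ≠ 0 ∧ P.natDegree ≤ n ∧ Q.natDegree ≤ n ∧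
        homg (a.map (zr p)) (b.map (zr p)) n P * Q * g₂.map (zr p) =
          P * homg (a.map (zr p)) (b.map (zr p)) n Q * g₁.map (zr p)

-- deps: PRN GOODR GFR PERMR APPRR
def S_INVWR : Prop := ∀ (p : ℕ) [Fact p.Prime] (d : ℕ) (a b : ℤ_[p][X]) (A₀ : ℤ_[p][X][X]),
  GdZ d a b → wr (a.map (zr p)) (b.map (zr p)) ≠ 0 → A₀.map (mapRingHom (zr p)) ≠ 0 →
    (A₀.eval X).map (zr p) = 0 → A₀.eval X ≠ 0 →
      InvC (a.map (zq p)) (b.map (zq p)) (A₀.map (mapRingHom (zq p))) →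
        FormR (a.map (zr p)) (b.map (zr p))

-- deps: ABG ACT CANR GAPGR
def S_COLLR : Prop := ∀ (K : IF) (d : ℕ) (a b : K[X]) (h : Qbar → ℝ) (p : ℕ) [Fact p.Prime]
  (φ : K →+* ℚ_[p]) (j : Qbar →+* Om p) (a₀ b₀ : ℤ_[p][X]) (δ : ℝ), St K d a b h φ j a₀ b₀ →
    wr (a₀.map (zr p)) (b₀.map (zr p)) ≠ 0 → δ < 1 →
      AA h {z | 0 < h z ∧ Ab K z ∧
        ∃ s : GK K, s z ≠ z ∧ Acts K j 1 δ s z ∧ s (rm a b z) = rm a b z} fun _ => False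

-- deps: ABG ACT PRIM CANR AUXBR REDBR CURVR COLLR INVWR
def S_LOCBR : Prop := ∀ (K : IF) (d : ℕ) (a b : K[X]) (h : Qbar → ℝ) (p : ℕ) [Fact p.Prime]
  (φ : K →+* ℚ_[p]) (j : Qbar →+* Om p) (a₀ b₀ : ℤ_[p][X]) (δ : ℝ), St K d a b h φ j a₀ b₀ →
    wr (a₀.map (zr p)) (b₀.map (zr p)) ≠ 0 → δ < 1 →
      Lots h {z | 0 < h z ∧ Ab K z ∧ ∃ s : GK K, s z ≠ z ∧ Acts K j 1 δ s z} →
        FormR (a₀.map (zr p)) (b₀.map (zr p))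

-- deps: PRN GOODR WLD LOCBR
def S_FORMR : Prop := ∀ (K : IF) (d : ℕ) (a b : K[X]) (h : Qbar → ℝ), Fd K → Nrm d a b →
  CanR d a b h → Lots h {z | 0 < h z ∧ Ab K z} → FormsR K d a b

/-! ### The orbifold -/

-- deps:
def S_MUB : Prop := ∀ (k : Type) [Field k] [IsAlgClosed k],
  (∀ (P Q : k[X]) (n m : ℕ), P ≠ 0 → Q ≠ 0 → P.natDegree ≤ n → Q.natDegree ≤ m →
    ∀ x, mu (n + m) (P * Q) x = mu n P x + mu m Q x) ∧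
    (∀ (P : k[X]) (n N : ℕ), P ≠ 0 → P.natDegree ≤ n → (∀ x, mu (N * n) (P ^ N) x = N * mu n P x) ∧
      (∀ c : k, c ≠ 0 → mu n (C c * P) = mu n P) ∧ {x | mu n P x ≠ 0}.Finite ∧
        ∀ s : Finset (Option k), (∀ x ∉ s, mu n P x = 0) → ∑ x ∈ s, mu n P x = n) ∧
      (∀ (P Q : k[X]) (n : ℕ), P ≠ 0 → Q ≠ 0 → (∀ x, mu n P x = mu n Q x) →
        ∃ c : k, c ≠ 0 ∧ P = C c * Q) ∧
        ∀ (s : Finset (Option k)) (m : Option k → ℕ), (∀ x ∉ s, m x = 0) →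
          ∃ P : k[X], P ≠ 0 ∧ P.natDegree ≤ ∑ x ∈ s, m x ∧ ∀ x, mu (∑ x ∈ s, m x) P x = m x

-- deps: MUB
def S_MULT : Prop := ∀ (k : Type) [Field k] [IsAlgClosed k] (d : ℕ) (a b : k[X]), 0 < d →
  Pr d a b → (∀ c, 0 < ld d a b c) ∧
    (∀ y, ∃ s : Finset (Option k), (∀ x, x ∈ s ↔ im a b d x = y) ∧ ∑ x ∈ s, ld d a b x = d) ∧
      ∀ (n : ℕ) (P : k[X]), P ≠ 0 → P.natDegree ≤ n → homg a b n P ≠ 0 ∧
        ∀ x, mu (n * d) (homg a b n P) x = ld d a b x * mu n P (im a b d x)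

-- deps:
def S_RMW : Prop := ∀ (k : Type) [Field k] (a b : k[X]),
  (∀ x : k, a ≠ 0 → a.eval x = 0 → b.eval x ≠ 0 → ((rootMultiplicity x a : ℕ) : k) ≠ 0 →
    wr a b ≠ 0 ∧ rootMultiplicity x (wr a b) + 1 = rootMultiplicity x a) ∧
    (∀ x : k, b ≠ 0 → b.eval x = 0 → a.eval x ≠ 0 → ((rootMultiplicity x b : ℕ) : k) ≠ 0 →
      wr a b ≠ 0 ∧ rootMultiplicity x (wr a b) + 1 = rootMultiplicity x b) ∧
      (b ≠ 0 → b.natDegree < a.natDegree → (a.natDegree : k) ≠ b.natDegree →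
        wr a b ≠ 0 ∧ (wr a b).natDegree + 1 = a.natDegree + b.natDegree ∧
          (wr a b).leadingCoeff =
            ((a.natDegree : k) - b.natDegree) * a.leadingCoeff * b.leadingCoeff)

-- deps: PRN RMW
def S_MULTW : Prop := ∀ (k : Type) [Field k] (d : ℕ) (a b : k[X]), Nrm d a b →
  (∀ i : ℕ, 0 < i → i ≤ d → (i : k) ≠ 0) → wr a b ≠ 0 ∧ (wr a b).natDegree ≤ 2 * d - 2 ∧
    ∀ x, mu (2 * d - 2) (wr a b) x + 1 = ld d a b x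

-- deps:
def S_WGT1 : Prop := ∀ (T : Type) (φ : T → T) (e : T → ℕ) (d : ℕ) (μ : T → ℤ) (N : ℤ)
  (s : Finset T), 2 ≤ d → (∀ x, 0 < e x) →
    (∀ y, ∃ t : Finset T, (∀ x, x ∈ t ↔ φ x = y) ∧ ∑ x ∈ t, e x = d) → (∀ x ∉ s, μ x = N) →
      (∀ x, μ x = e x * μ (φ x)) → ∀ y,
        (μ y = 0 ∧ ∃ r, 0 < r ∧ ∀ x, φ^[r] x = y ↔ x = y) ∨ ∃ w : ℕ, 0 < w ∧ μ y * w = N

-- deps:
def S_WGT2 : Prop := ∀ (T : Type) (s : Finset T) (μ : T → ℤ) (N : ℤ), 0 < N →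
  (∀ x ∈ s, μ x = 0 ∨ ∃ w : ℕ, 0 < w ∧ μ x * w = N) → ∑ x ∈ s, (N - μ x) = 2 * N →
    ∀ x ∈ s, N ∣ 12 * μ x

-- deps: PRN MUB MULT MULTW WGT1 WGT2
def S_ORB1 : Prop := ∀ (k : Type) [Field k] [IsAlgClosed k] (d : ℕ) (a b : k[X]), Nrm d a b →
  (∀ i : ℕ, 0 < i → i ≤ d → (i : k) ≠ 0) → FormR a b → ∃ P, Eig a b P

-- deps:
def S_NULL : Prop := ∀ (K : IF) (σ ι : Type) [Finite σ] (f : ι → MvPolynomial σ K),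
  (∀ x : σ → Qbar, ∃ i, MvPolynomial.eval₂ (algebraMap K Qbar) x (f i) ≠ 0) → ∃ s : Finset K,
    ∀ (p : ℕ) [Fact p.Prime] (φ : K →+* ℚ_[p]) (f₀ : ι → MvPolynomial σ ℤ_[p]),
      (∀ c ∈ s, c ≠ 0 → ‖φ c‖ = 1) →
        (∀ i, MvPolynomial.map (zq p) (f₀ i) = MvPolynomial.map φ (f i)) →
          ∀ (k : Type) [Field k] (ψ : ℤ_[p] →+* k) (x : σ → k),
            ∃ i, MvPolynomial.eval₂ ψ x (f₀ i) ≠ 0

-- deps: PLACE GOODR ORB1 NULL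
def S_LIFTR : Prop := ∀ (K : IF) (d : ℕ) (a b : K[X]), Fd K → Nrm d a b → FormsR K d a b →
  ∃ P, Eig (a.map (algebraMap K Qbar)) (b.map (algebraMap K Qbar)) P

-- deps: PRN MUB MULT MULTW WGT1
def S_ORB2 : Prop := ∀ (d : ℕ) (a b P : Qbar[X]), Nrm d a b → Eig a b P →
  ∃ (c : ProjLine) (r : ℕ), 0 < r ∧ (im a b d)^[r] c = c ∧
    ((∀ x, (im a b d)^[r] x = c → x = c) ∨
      ((∀ x, mu 24 P x ≤ mu 24 P c) ∧ ∀ x, mu 24 P x ∈ ({0, 6, 8, 9, 10, 11} : Finset ℕ)))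

-- deps: CHN PCOMP
def S_CJ : Prop := ∀ (d : ℕ) (a b : Qbar[X]) (α β γ δ : Qbar), 0 < d → Pr d a b →
  α * δ - β * γ ≠ 0 → Pr 1 (C α * X + C β) (C γ * X + C δ) ∧ Function.Bijective (mob α β γ δ) ∧
    ∃ a' b', Pr d a' b' ∧ (∀ x, mob α β γ δ (im a' b' d x) = im a b d (mob α β γ δ x)) ∧
      Sc (im a b d) (im a' b' d) ∧
        ∀ P, Eig a b P → Eig a' b' (homg (C α * X + C β) (C γ * X + C δ) 24 P)

-- deps: PRN PCOMP MULT CJ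
def S_CONJ : Prop := ∀ (d r : ℕ) (a b : Qbar[X]) (c : ProjLine), 2 ≤ d → Pr d a b → 0 < r →
  (im a b d)^[r] c = c → ∃ (a' b' : Qbar[X]) (m : ProjLine → ProjLine), Nrm (d ^ r) a' b' ∧
    Sc (im a b d)^[r] (im a' b' (d ^ r)) ∧ m none = c ∧ Function.Injective m ∧
      (∀ x, m (im a' b' (d ^ r) x) = (im a b d)^[r] (m x)) ∧
        ∀ P, Eig a b P → ∃ P', Eig a' b' P' ∧ ∀ x, mu 24 P' x = mu 24 P (m x)

-- deps: MUB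
def S_SHAPE : Prop := ∀ P : Qbar[X], P ≠ 0 → P.natDegree ≤ 24 →
  (∀ x, mu 24 P x ≤ mu 24 P none) → (∀ x, mu 24 P x ∈ ({0, 6, 8, 9, 10, 11} : Finset ℕ)) →
    ∃ (s t c : Qbar) (P₀ : Qbar[X]), s ≠ 0 ∧ c ≠ 0 ∧ NF P₀ ∧ P.comp (C s * X + C t) = C c * P₀

-- deps: PRN TRANS ORB2 CJ CONJ SHAPE
def S_NORMF : Prop := ∀ (d : ℕ) (a b P : Qbar[X]), Nrm d a b → Eig a b P →
  ∃ (r : ℕ) (a' b' : Qbar[X]), 0 < r ∧ Nrm (d ^ r) a' b' ∧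
    Sc (im a b d)^[r] (im a' b' (d ^ r)) ∧ (b'.natDegree = 0 ∨ ∃ P₀, NF P₀ ∧ Eig a' b' P₀)

-- deps:
def S_KPOW : Prop :=
  (∀ (P : Qbar[X]) (e : ℕ), P ≠ 0 → 0 < e → (∀ x, x ≠ 0 → e ∣ rootMultiplicity x P) →
    ∃ g, P.comp (X ^ e) = g ^ e) ∧
  (∀ (d e : ℕ) (a b g₁ g₂ : Qbar[X]), 0 < e → Nrm d a b → a.comp (X ^ e) = g₁ ^ e →
    b.comp (X ^ e) = g₂ ^ e → Nrm d g₁ g₂ ∧
      (wr a b).comp (X ^ e) * X ^ (e - 1) = g₁ ^ (e - 1) * g₂ ^ (e - 1) * wr g₁ g₂) ∧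
  ∀ (U V : Qbar[X]) (c : Qbar) (n : ℕ), 0 < n → c ≠ 0 → U ^ n = C c * V ^ n →
    ∃ c', c' ≠ 0 ∧ U = C c' * V

-- deps: KPOW
def S_ROOTX : Prop := ∀ a b : Qbar[X],
  (∀ α β, Eig a b (cub α β ^ 6) → ∃ c, c ≠ 0 ∧ Ode 2 (cub α β) c a b) ∧
    (Eig a b ((X ^ 2 - 1) ^ 8) → ∃ c, c ≠ 0 ∧ Ode 3 ((X ^ 2 - 1) ^ 2) c a b) ∧
      (Eig a b (X ^ 9 * (X + 1) ^ 6) → Rel4 a b) ∧ (Eig a b (X ^ 8 * (X + 1) ^ 6) → Rel6 a b)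

-- deps: PRN RMW KPOW
def S_LAT2 : Prop := ∀ (d : ℕ) (a b : Qbar[X]), Nrm d a b → Rel4 a b →
  ∃ g₁ g₂, Lat d a b 2 1 0 g₁ g₂

-- deps: PRN RMW KPOW
def S_LAT3 : Prop := ∀ (d : ℕ) (a b : Qbar[X]), Nrm d a b → Rel6 a b →
  ∃ g₁ g₂, Lat d a b 3 0 1 g₁ g₂

-- deps: RMW
def S_UNIQ : Prop := ∀ (m : ℕ) (Q a b a' b' : Qbar[X]) (c : Qbar), m = 2 ∨ m = 3 → Q.Monic →
  Q.natDegree = m + 1 → c ≠ 0 → b ≠ 0 → b' ≠ 0 → b.natDegree < a.natDegree →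
    b'.natDegree < a'.natDegree → Ode m Q c a b → Ode m Q c a' b' → a * b' = a' * b

-- deps: PRN UNIQ
def S_LAT4 : Prop := ∀ (d : ℕ) (a b : Qbar[X]) (c : Qbar), Nrm d a b → c ≠ 0 →
  Ode 3 ((X ^ 2 - 1) ^ 2) c a b →
    ∃ a' b', Nrm d a' b' ∧ Rel6 a' b' ∧ Sc (im a b d) (im a' b' d)

-- deps: TRANS NORMF ROOTX LAT2 LAT3 LAT4
def S_CLASS : Prop := ∀ (d : ℕ) (a b P : Qbar[X]), Nrm d a b → Eig a b P →
  ∃ (r : ℕ) (a' b' : Qbar[X]), 0 < r ∧ Nrm (d ^ r) a' b' ∧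
    Sc (im a b d)^[r] (im a' b' (d ^ r)) ∧
      (b'.natDegree = 0 ∨ ∃ e α β g₁ g₂, Lat (d ^ r) a' b' e α β g₁ g₂)

/-! ### Elliptic curves -/

-- deps: PRN PCOMP UNIQ
def S_COMM : Prop := ∀ α β : Qbar, 4 * α ^ 3 + 27 * β ^ 2 ≠ 0 → Nrm 4 (dbn α β) (dbd α β) ∧
  ∀ (d : ℕ) (g₁ g₂ : Qbar[X]) (c : Qbar), Nrm d g₁ g₂ → c ≠ 0 → Ode 2 (cub α β) c g₁ g₂ →
    ∀ x, im g₁ g₂ d (dbl α β x) = dbl α β (im g₁ g₂ d x)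

-- deps: PRN CANH COMM
def S_LHT : Prop := ∀ (d e : ℕ) (a b g₁ g₂ : Qbar[X]) (α β : Qbar) (H H' : ProjLine → ℝ),
  Nrm d a b → Lat d a b e α β g₁ g₂ → CanH d (im a b d) H → CanH 4 (dbl α β) H' →
    ∀ x, H (some (x ^ e)) = e * H' (some x)

-- deps:
def S_ETW : Prop := ∀ (α β : Qbar) (σ : Qbar →+* Qbar) (u : Qbar), Tw α β σ u →
  (∀ P Q : (ec α β).Point, twp σ u (P + Q) = twp σ u P + twp σ u Q) ∧
    (∀ (x y : Qbar) (h : (ec α β).Nonsingular x y),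
      ∃ h' : (ec α β).Nonsingular (u ^ 2 * σ x) (u ^ 3 * σ y),
        twp σ u (.some x y h) = .some _ _ h') ∧
      (∀ P : (ec α β).Point, xp (twp σ u P) = (xp P).map fun x => u ^ 2 * σ x) ∧
        ∀ (σ' : Qbar →+* Qbar) (u' : Qbar), Tw α β σ' u' → Tw α β (σ.comp σ') (u * σ u') ∧
          ∀ P : (ec α β).Point, twp σ u (twp σ' u' P) = twp (σ.comp σ') (u * σ u') P

-- deps: ETW
def S_ETX : Prop := ∀ (α β : Qbar) (e : ℕ), Typ e α β →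
  (∀ u : Qbar, u ^ (2 * e) = 1 → Tw α β (RingHom.id _) u ∧
    (u ≠ 1 → {P : (ec α β).Point | twp (RingHom.id _) u P = P}.Finite)) ∧
    (∀ x : Qbar, ∃ P : (ec α β).Point, xp P = some x) ∧
      (∀ P : (ec α β).Point, twp (RingHom.id _) 1 P = P ∧ twp (RingHom.id _) (-1) P = -P ∧
        xp (-P) = xp P ∧ (xp P = none ↔ P = 0)) ∧
        ∀ (P Q : (ec α β).Point) (x y : Qbar), xp P = some x → xp Q = some y → y ^ e = x ^ e →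
          ∃ u : Qbar, u ^ (2 * e) = 1 ∧ Q = twp (RingHom.id _) u P

-- deps:
def S_EDB : Prop := ∀ α β : Qbar, 4 * α ^ 3 + 27 * β ^ 2 ≠ 0 →
  ∀ P : (ec α β).Point, xp (P + P) = dbl α β (xp P)

-- deps:
def S_EWK : Prop := ∀ α β : Qbar, 4 * α ^ 3 + 27 * β ^ 2 ≠ 0 → ∃ C : ℝ, ∀ P Q : (ec α β).Point,
  weilHeight (xp (P + Q)) ≤ 2 * weilHeight (xp P) + 2 * weilHeight (xp Q) + C

-- deps: WH ETW EDB EWK
def S_EHT : Prop := ∀ (α β : Qbar) (H : ProjLine → ℝ), 4 * α ^ 3 + 27 * β ^ 2 ≠ 0 →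
  CanH 4 (dbl α β) H → (∀ P : (ec α β).Point, 0 ≤ H (xp P)) ∧
    (∀ P Q : (ec α β).Point, H (xp (P + Q)) ≤ 2 * H (xp P) + 2 * H (xp Q)) ∧
      (∀ (K : IF) (σ : GK K) (u : Qbar), Tw α β σ u →
        ∀ P : (ec α β).Point, H (xp (twp σ u P)) = H (xp P)) ∧
        ∀ P : (ec α β).Point, IsOfFinAddOrder P → H (xp P) = 0

-- deps:
def S_ETA : Prop := ∀ (α β : Qbar) (p : ℕ) [Fact p.Prime] (j : Qbar →+* Om p) (r : ℝ),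
  4 * α ^ 3 + 27 * β ^ 2 ≠ 0 → ‖j α‖ ≤ 1 → ‖j β‖ ≤ 1 → 1 < r → ∀ P Q : (ec α β).Point,
    Nr j r P → Nr j r Q → Nr j r (P + Q) ∧ r ^ 3 * ‖j (tp (P + Q) - tp P - tp Q)‖ ^ 2 ≤ 1

-- deps: ETA
def S_ECON : Prop := ∀ (α β : Qbar) (p : ℕ) [Fact p.Prime] (j : Qbar →+* Om p) (r : ℝ),
  4 * α ^ 3 + 27 * β ^ 2 ≠ 0 → ‖j α‖ ≤ 1 → ‖j β‖ ≤ 1 → 1 < r → ∀ (n : ℕ) (T : (ec α β).Point),
    Nr j r T → Nr j (r * min r p ^ n) (p ^ n • T)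

-- deps: ETW ETX
def S_ENEAR : Prop := ∀ (α β : Qbar) (e p : ℕ) [Fact p.Prime] (j : Qbar →+* Om p) (δ : ℝ),
  Typ e α β → 3 ≤ p → ‖j α‖ ≤ 1 → ‖j β‖ ≤ 1 → ‖j (4 * α ^ 3 + 27 * β ^ 2)‖ = 1 → δ < 1 →
    ∃ r : ℝ, 1 < r ∧ ∀ (P Q : (ec α β).Point) (x y : Qbar), xp P = some x → xp Q = some y →
      Cl 1 δ (j (x ^ e)) (j (y ^ e)) →
        ∃ u : Qbar, u ^ (2 * e) = 1 ∧ Nr j r (Q - twp (RingHom.id _) u P)

-- deps: PF ETW ETX EHT ECON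
def S_EAMP : Prop := ∀ (K : IF) (α β : Qbar) (e p : ℕ) [Fact p.Prime] (j : Qbar →+* Om p) (r : ℝ)
  (H : ProjLine → ℝ), Fd K → α ∈ K → β ∈ K → (∀ u : Qbar, u ^ (2 * e) = 1 → u ∈ K) → Typ e α β →
    ‖j α‖ ≤ 1 → ‖j β‖ ≤ 1 → 1 < r → CanH 4 (dbl α β) H →
      ∃ (n : ℕ) (ε : ℝ), 0 < ε ∧ ∀ (P : (ec α β).Point) (s : GK K), H (xp P) < ε →
        (∀ σ : GK K, ∃ u : Qbar, u ^ (2 * e) = 1 ∧
          Nr j r (twp σ 1 (twp s 1 P) - twp (RingHom.id _) u (twp σ 1 P))) →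
          ∃ u : Qbar, u ^ (2 * e) = 1 ∧ p ^ n • (twp s 1 P - twp (RingHom.id _) u P) = 0

-- deps: ABG ETW ETX
def S_ETORS : Prop := ∀ (K E : IF) (α β : Qbar) (e : ℕ) (P : (ec α β).Point) (x y u : Qbar)
  (s : GK K), AbE K E → α ∈ K → β ∈ K → (∀ u : Qbar, u ^ (2 * e) = 1 → u ∈ K) → Typ e α β →
    xp P = some x → x ^ e ∈ E → ¬ IsOfFinAddOrder P → u ^ (2 * e) = 1 →
      IsOfFinAddOrder (twp s 1 P - twp (RingHom.id _) u P) →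
        xp (twp s 1 P - twp (RingHom.id _) u P) = some y → y ^ e ∈ E

-- deps: PLACE ABG ACT GOODR WLD ETW ETX EHT ENEAR EAMP ETORS
def S_LATP : Prop := ∀ (K E : IF) (d e : ℕ) (a b : K[X]) (h : Qbar → ℝ) (α β : Qbar)
  (H : ProjLine → ℝ), Fd K → AbE K E → Nrm d a b → CanR d a b h → α ∈ K → β ∈ K →
    (∀ u : Qbar, u ^ (2 * e) = 1 → u ∈ K) → Typ e α β → CanH 4 (dbl α β) H →
      (∀ x, h (x ^ e) = e * H (some x)) → (∀ c : ℝ, 0 < c → ∃ z ∈ E, 0 < h z ∧ h z < c) →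
        ∀ N : ℕ, ∃ (p n : ℕ) (T : (ec α β).Point) (y : Qbar), p.Prime ∧ N < p ∧ p ^ n • T = 0 ∧
          xp T = some y ∧ y ^ e ∈ E

/-! ### Fields and assembly -/

-- deps: ABG
def S_COMPO : Prop :=
  (∀ K L K' : IF, AbE K L → AbE (K ⊔ K') (L ⊔ K')) ∧
  (∀ K L : IF, AbE K L →
    ∃ L' : IntermediateField K Qbar, IsAbelianGalois K L' ∧ L'.toSubfield = L.toSubfield) ∧
  ∀ (K : IF) (L : IntermediateField K Qbar),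
    (IsAbelianGalois K L → AbE K (L.restrictScalars ℚ)) ∧
      (∀ E : IntermediateField L Qbar, FiniteDimensional L E →
        ∃ K' : IF, Fd K' ∧ E.toSubfield = (L.restrictScalars ℚ ⊔ K').toSubfield) ∧
        ∀ K' : IF, Fd K' → ∃ E : IntermediateField L Qbar, FiniteDimensional L E ∧
          E.toSubfield = (L.restrictScalars ℚ ⊔ K').toSubfield

-- deps: PRN CANH CANR COMM LHT ETW ETX EHT LATP COMPO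
def S_LATT : Prop := ∀ (K L : IF) (d e : ℕ) (a b g₁ g₂ : Qbar[X]) (α β : Qbar), Fd K → AbE K L →
  FinAll L → Nrm d a b → Lat d a b e α β g₁ g₂ → GapA L d (im a b d)

-- deps: USB PRN CANH COMPO
def S_POLY : Prop := ∀ (K L : IF) (d : ℕ) (a b : Qbar[X]), Fd K → AbE K L → FinAll L →
  Nrm d a b → b.natDegree = 0 → GapA L d (im a b d)

-- deps: CANR FORMR LIFTR COMPO
def S_EIG : Prop := ∀ (K L : IF) (d : ℕ) (a b : Qbar[X]), Fd K → AbE K L → Nrm d a b →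
  ¬ GapA L d (im a b d) → ∃ P, Eig a b P

-- deps: PRN TRANS CONJ CLASS LATT POLY EIG
def S_MAING : Prop := ∀ (K L : IF) (d : ℕ) (φ : ProjLine → ProjLine), Fd K → AbE K L → FinAll L →
  2 ≤ d → RM ⊤ d φ → GapA L d φ

-- deps:
def S_RMF : Prop := ∀ (E : IF) (d : ℕ) (φ : ProjLine → ProjLine), 0 < d → RM E d φ →
  ∃ f : RatFunc Qbar, DefinedOver E.toSubfield f ∧ ratDegree f = d ∧ ratMap f = φ

-- deps: CHAIN CANH RMF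
def S_RFIN : Prop := ∀ L : IF, (∀ K : IF, Fd K → PropertyR (L ⊔ K).toSubfield) → FinAll L

-- deps: CANH
def S_USBR : Prop := ∀ F : Subfield Qbar, PropertyUSB F → PropertyR F

end

end Pool.Agent.P.MP_8d2e9f_nt.AO
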