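import Pool.Agent.P.MP_8d2e9f_nt.AO.BaseD

/-! The intermediate statements for the unconditional height gap. -/

namespace Pool.Agent.P.MP_8d2e9f_nt.AO

open Polynomial NumberField Pool.Agent.P.MP_8d2e9f_nt.G
open scoped IntermediateField Classical

noncomputable section

/-! ### The multiplicative group -/

-- deps: WH
def S_WHX : Prop :=
  (∀ z w, wh (z * w) ≤ wh z + wh w) ∧ (∀ z, wh z⁻¹ = wh z) ∧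
    (∀ (z : Qbar) (n : ℕ), wh (z ^ n) = n * wh z) ∧ (∀ z, wh (-z) = wh z) ∧ wh 0 = 0 ∧
      (∀ z, z ≠ 0 → wh z = 0 → IsOfFinOrder z) ∧ ∀ z, IsOfFinOrder z → wh z = 0

-- deps: WH
def S_NORS : Prop := ∀ (K : IF) (S : Set Qbar) (B : ℝ), Fd K → S.Finite →
  {y | wh y ≤ B ∧ ∀ ρ : GK K, (∀ u ∈ S, ρ u = u) → ρ y = y}.Finite

-- deps:
def S_CYC : Prop := ∀ K : IF, Fd K → ∃ r : ℕ, 0 < r ∧ ∀ n : ℕ, Odd n →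
  ∃ σ : GK K, ∀ ζ : Qbar, ζ ^ n = 1 → σ ζ = ζ ^ 2 ^ r

-- deps: WH WHX
def S_HID : Prop := ∀ (d : ℕ) (h : Qbar → ℝ), 2 ≤ d →
  (Can (X ^ d) h → ∀ z, h z = wh z) ∧
    (Can (Chebyshev.C Qbar d) h ∨ Can (-Chebyshev.C Qbar d) h →
      ∀ u, u ≠ 0 → h (u + u⁻¹) = 2 * wh u)

-- deps: ABG PLACE FROB DICH AMP WH WHX NORS CYC
def S_GM : Prop := ∀ K : IF, Fd K → ∃ c : ℝ, 0 < c ∧ ∀ u, Ab K u → wh u < c → wh u = 0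

-- deps: ABG PLACE FROB DICH AMP WH CANB HID GM
def S_CHB : Prop := ∀ K : IF, Fd K →
  ∃ c : ℝ, 0 < c ∧ ∀ u, u ≠ 0 → Ab K (u + u⁻¹) → wh u < c → wh u = 0

-- deps: ABG CANB HID GM CHB
def S_EXG2 : Prop := ∀ (K K' : IF) (f : Qbar[X]) (h : Qbar → ℝ) (a b : Qbar), Fd K →
  2 ≤ f.natDegree → Can f h → Shape K' f a b → ∃ ε : ℝ, 0 < ε ∧ ∀ z, Ab K z → h z < ε → h z = 0

-- deps: EXC FORMB PRN CANH COMPO EXG2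
def S_POLY2 : Prop := ∀ (K L : IF) (d : ℕ) (a b : Qbar[X]), Fd K → AbE K L →
  Nrm d a b → b.natDegree = 0 → GapA L d (im a b d)

/-! ### Inertia -/

-- deps:
def S_INF : Prop := ∀ (K : IF) (p : ℕ) [Fact p.Prime] (j : Qbar →+* Om p) (G : Subgroup (GK K))
  (s : GK K) (S : Finset Qbar), (∀ g ∈ G, Iso j g) → Iso j s →
    (∀ a, (∀ g ∈ G, g a = a) → ‖j a‖ ≤ 1 → ‖j (s a) - j a‖ < 1) →
      ∃ g ∈ G, ∀ x ∈ S, ‖j x‖ ≤ 1 → ‖j (g x) - j (s x)‖ < 1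

-- deps:
def S_INA : Prop := ∀ (K : IF) (p : ℕ) [Fact p.Prime] (φ : K →+* ℚ_[p]) (j : Qbar →+* Om p)
  (z a : Qbar), Loc φ j → (∀ ρ : GK K, Iso j ρ → ρ z = z → ρ a = a) →
    ∃ b ∈ K⟮z⟯, ‖j a - j b‖ < 1

-- deps: ABG INF INA
def S_INERT : Prop := ∀ (K : IF) (p : ℕ) [Fact p.Prime] (φ : K →+* ℚ_[p]) (j : Qbar →+* Om p)
  (s : GK K) (z : Qbar) (S : Finset Qbar), Loc φ j → Ab K z → Iso j s →
    (∀ x ∈ K⟮z⟯, ‖j x‖ ≤ 1 → ‖j (s x) - j x‖ < 1) →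
      ∃ s' : GK K, (∀ x ∈ K⟮z⟯, s' x = s x) ∧ Iso j s' ∧
        ∀ x ∈ S, ‖j x‖ ≤ 1 → ‖j (s' x) - j x‖ < 1

/-! ### Algebra -/

-- deps:
def S_EFIX : Prop := ∀ (A : Type) [AddCommGroup A] (p : ℕ) (M : AddSubgroup A) (F : Set (A →+ A)),
  p.Prime → (M : Set A).Finite → M ≠ ⊥ → (∀ v ∈ M, p • v = 0) → (∀ f ∈ F, ∀ v ∈ M, f v ∈ M) →
    (∀ f ∈ F, ∀ g ∈ F, ∀ v ∈ M, f (g v) = g (f v)) →
      ∃ v ∈ M, v ≠ 0 ∧ ∀ f ∈ F, f^[p] v = v → f v = v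

-- deps:
def S_ECYC : Prop := ∀ (A : Type) [AddCommGroup A] (p : ℕ) (M : AddSubgroup A), p.Prime →
  (∀ T₀ ∈ M, ∀ T ∈ M, p • T₀ = 0 → p • T = 0 → T₀ ≠ 0 → T ∈ AddSubgroup.zmultiples T₀) →
    ∀ (a : ℕ), ∀ T₀ ∈ M, ∀ T ∈ M, p ^ (a + 1) • T₀ = 0 → p ^ a • T₀ ≠ 0 → p ^ (a + 1) • T = 0 →
      T ∈ AddSubgroup.zmultiples T₀

-- deps:
def S_ZP : Prop := ∀ (p n : ℕ) (c A : ℤ), p.Prime → 3 ≤ p → 0 < n → (p : ℤ) ^ n ∣ c - 1 →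
  ¬ (p : ℤ) ^ (n + 1) ∣ c - 1 → (p : ℤ) ^ n ∣ A - 1 → ∀ a : ℕ, ∃ i : ℕ, (p : ℤ) ^ a ∣ c ^ i - A

-- deps: ECYC ZP
def S_ESC1 : Prop := ∀ (A : Type) [AddCommGroup A] (p n : ℕ) (M : AddSubgroup A) (f : A →+ A)
  (T₁ : A), p.Prime → 3 ≤ p →
    (∀ T₀ ∈ M, ∀ T ∈ M, p • T₀ = 0 → p • T = 0 → T₀ ≠ 0 → T ∈ AddSubgroup.zmultiples T₀) →
      (∀ T ∈ M, f T ∈ M) → T₁ ∈ M → p ^ n • T₁ = 0 → f T₁ ≠ T₁ → f^[p] T₁ = T₁ →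
        ∃ r : ℕ, 0 < r ∧ ∀ a : ℕ, ∃ i : ℕ, ∀ T ∈ M, p ^ a • T = 0 → f^[i] T = 2 ^ r • T

-- deps:
def S_RFA : Prop :=
  (∀ P : Qbar[X], RFn fun x => P.eval x) ∧
    (∀ f g, RFn f → RFn g → RFn (fun x => f x + g x) ∧ RFn (fun x => f x - g x) ∧
      RFn (fun x => f x * g x) ∧ RFn fun x => f x / g x) ∧
      (∀ f, RFn f → (∀ᶠ x in Filter.cofinite, f x = 0) ∨ ∀ᶠ x in Filter.cofinite, f x ≠ 0) ∧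
        ∀ f, RFn f → RFn fun x => f x⁻¹

-- deps:
def S_SCH1 : Prop := ∀ (p : ℕ) [Fact p.Prime] (j : Qbar →+* Om p) (N : Qbar[X]) (E : Set Qbar)
  (Z : Finset Qbar) (m : ℝ), E.Finite → (∀ z ∈ Z, ‖j z‖ < 1 ∧ N.eval z = 0) →
    (∀ s ∉ E, ‖j s‖ < 1 → ‖j (N.eval s)‖ ≤ m) →
      ∀ s, ‖j s‖ < 1 → ‖j (N.eval s)‖ ≤ m * ∏ z ∈ Z, ‖j (s - z)‖

-- deps: SCH1
def S_SCHW : Prop := ∀ (p : ℕ) [Fact p.Prime] (j : Qbar →+* Om p) (g : Qbar → Qbar)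
  (Z : Finset Qbar), RFn g → (∀ᶠ s in Filter.cofinite, ‖j s‖ < 1 → ‖j (g s)‖ ≤ 1) →
    (∀ z ∈ Z, ‖j z‖ < 1 ∧ ∀ η : ℝ, 0 < η → {s | ‖j (s - z)‖ < η ∧ ‖j (g s)‖ ≤ η}.Infinite) →
      ∀ᶠ s in Filter.cofinite, ‖j s‖ < 1 → ‖j (g s)‖ ≤ ∏ z ∈ Z, ‖j (s - z)‖

/-! ### The kernel of reduction -/

-- deps: ETA
def S_ELOC : Prop := ∀ (α β : Qbar) (p : ℕ) [Fact p.Prime] (j : Qbar →+* Om p), Ei j α β →
  (∀ P Q : (ec α β).Point, Ker j P → Ker j Q → Ker j (P + Q) ∧ Ker j (-P) ∧ Ker j (P - Q) ∧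
    (tp P = tp Q → P = Q)) ∧
    (∀ (P : (ec α β).Point) (x : Qbar), Ker j P → xp P = some x →
      ‖j (tp P)‖ ^ 2 * ‖j x‖ = 1 ∧ ‖j (tp P)‖ < 1 ∧ tp P ≠ 0) ∧
      ∀ (r : ℝ) (P : (ec α β).Point), 1 < r → Nr j r P → r * ‖j (tp P)‖ ^ 2 ≤ 1 ∧
        (∀ n : ℤ, Nr j r (n • P)) ∧
          ∀ m : ℕ, Nr j r (m • P) ∧ r ^ 3 * ‖j (tp (m • P) - m * tp P)‖ ^ 2 ≤ 1

-- deps: ECON ELOC
def S_EKILL : Prop := ∀ (α β : Qbar) (p : ℕ) [Fact p.Prime] (j : Qbar →+* Om p), Ei j α β →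
  (∀ (T : (ec α β).Point) (x : Qbar), xp T = some x → (p : ℝ) < ‖j x‖ →
    ‖j (tp (p • T))‖ = ‖j (tp T)‖ / p ∧ ¬ IsOfFinAddOrder T) ∧
    (∀ T : (ec α β).Point, Ker j T → IsOfFinAddOrder T → ∃ a : ℕ, p ^ a • T = 0) ∧
      ∀ r : ℝ, 1 < r → ∃ a : ℕ, ∀ T : (ec α β).Point, Nr j r T → IsOfFinAddOrder T →
        p ^ a • T = 0

-- deps:
def S_ECLO : Prop := ∀ (α β : Qbar) (p : ℕ) [Fact p.Prime] (j : Qbar →+* Om p) (r : ℝ),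
  Ei j α β → 1 ≤ r → ∀ (T R : (ec α β).Point) (x x' : Qbar), Nr j r R → xp T = some x →
    xp (R + T) = some x' → r * ‖j (x' - x)‖ ^ 2 ≤ max 1 ‖j x‖ ^ 2 * max 1 ‖j x'‖ ^ 2

-- deps: PLACE EKILL
def S_ENT : Prop := ∀ α β : Qbar, 4 * α ^ 3 + 27 * β ^ 2 ≠ 0 →
  {x : Qbar | ∀ P : (ec α β).Point, xp P = some x → ¬ IsOfFinAddOrder P}.Infinite

-- deps: RFA ENT
def S_EMUL : Prop := ∀ (α β : Qbar) (n : ℕ), 4 * α ^ 3 + 27 * β ^ 2 ≠ 0 → 0 < n →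
  {P : (ec α β).Point | n • P = 0}.Finite ∧
    ∃ R S : Qbar → Qbar, RFn R ∧ RFn S ∧ ∀ᶠ x in Filter.cofinite,
      ∀ (y : Qbar) (h : (ec α β).Nonsingular x y),
        ∃ h' : (ec α β).Nonsingular (R x) (y * S x), n • (.some x y h : (ec α β).Point) = .some _ _ h'

-- deps: RFA EMUL
def S_EG : Prop := ∀ (α β : Qbar) (n : ℕ), 4 * α ^ 3 + 27 * β ^ 2 ≠ 0 → 0 < n →
  ∃ g : Qbar → Qbar, RFn g ∧ ∀ᶠ s in Filter.cofinite,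
    ∀ Q : (ec α β).Point, xp Q = some s⁻¹ → tp (n • Q) = g s * tp Q

-- deps: ELOC ECLO
def S_ESZ : Prop := ∀ (α β : Qbar) (p : ℕ) [Fact p.Prime] (j : Qbar →+* Om p), Ei j α β →
  ∀ (T : (ec α β).Point) (x : Qbar) (η : ℝ), Ker j T → xp T = some x → p • T = 0 → 0 < η →
    {s | ‖j (s - x⁻¹)‖ < η ∧ ∃ Q : (ec α β).Point, xp Q = some s⁻¹ ∧ tp Q ≠ 0 ∧
      ‖j (tp (p • Q))‖ ≤ η * ‖j (tp Q)‖}.Infinite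

-- deps: SCHW ELOC EKILL EG ESZ
def S_ESCH : Prop := ∀ (α β : Qbar) (p : ℕ) [Fact p.Prime] (j : Qbar →+* Om p), Ei j α β →
  ∀ T₀ T : (ec α β).Point, Ker j T₀ → Ker j T → p • T₀ = 0 → p • T = 0 → T₀ ≠ 0 →
    T ∉ AddSubgroup.zmultiples T₀ → (p : ℝ)⁻¹ < ‖j (tp T₀)‖ ^ (p - 1)

-- deps: FROB RAM EFIX ELOC EMUL ESCH
def S_ERK1 : Prop := ∀ (K : IF) (α β : Qbar) (p : ℕ) [Fact p.Prime] (φ : K →+* ℚ_[p])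
  (j : Qbar →+* Om p), Es K α β φ j → ∀ T₀ T : (ec α β).Point, Ker j T₀ → AbP K T₀ → Ker j T →
    AbP K T → p • T₀ = 0 → p • T = 0 → T₀ ≠ 0 → T ∈ AddSubgroup.zmultiples T₀

-- deps: FROB RAM ESC1 ELOC EKILL ERK1
def S_ESCAL : Prop := ∀ (K : IF) (α β : Qbar) (p : ℕ) [Fact p.Prime] (φ : K →+* ℚ_[p])
  (j : Qbar →+* Om p), Es K α β φ j → ∃ r m : ℕ, 0 < r ∧ 0 < m ∧ ∀ a : ℕ, ∃ σ : GK K,
    ∀ T : (ec α β).Point, Ker j T → AbP K T → p ^ a • T = 0 → m • (ga σ T - 2 ^ r • T) = 0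

-- deps: ENEAR ELOC
def S_EKER : Prop := ∀ (K : IF) (α β : Qbar) (p : ℕ) [Fact p.Prime] (j : Qbar →+* Om p)
  (s : GK K) (P : (ec α β).Point), α ∈ K → β ∈ K → Ei j α β →
    ‖j (4 * α ^ 3 + 27 * β ^ 2)‖ = 1 → Iso j s →
      (∀ x, xp P = some x → ‖j x‖ ≤ 1 → ‖j (s x) - j x‖ < 1) → Ker j (ga (s ^ 2) P - P)

/-! ### Small abelian points on the curve -/

-- deps: FROB DICH TAME
def S_WLD2 : Prop := ∀ (K : IF) (d : ℕ) (a b : K[X]) (h : Qbar → ℝ) (p : ℕ) [Fact p.Prime]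
  (φ : K →+* ℚ_[p]) (j : Qbar →+* Om p) (a₀ b₀ : ℤ_[p][X]), St K d a b h φ j a₀ b₀ → 3 ≤ p →
    ∃ δ ε : ℝ, δ < 1 ∧ 0 < ε ∧ ∀ z, Ab K z → 0 < h z → h z < ε →
      ∃ s : GK K, s z ≠ z ∧ (s ^ p) z = z ∧ Acts K j 1 δ s z

-- deps: PLACE GOODR CANR COMM WLD2
def S_EW1 : Prop := ∀ (K : IF) (α β : Qbar) (H : ProjLine → ℝ), Fd K → α ∈ K → β ∈ K →
  4 * α ^ 3 + 27 * β ^ 2 ≠ 0 → CanH 4 (dbl α β) H →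
    ∃ (p : ℕ) (_ : Fact p.Prime) (φ : K →+* ℚ_[p]) (j : Qbar →+* Om p) (δ ε : ℝ),
      Es K α β φ j ∧ ‖j (4 * α ^ 3 + 27 * β ^ 2)‖ = 1 ∧ δ < 1 ∧ 0 < ε ∧ H none = 0 ∧
        ∀ z, Ab K z → 0 < H (some z) → H (some z) < ε →
          ∃ s : GK K, s z ≠ z ∧ (s ^ p) z = z ∧ Acts K j 1 δ s z

-- deps: ABG ACT ENEAR EAMP INERT EKER EW1
def S_EW : Prop := ∀ (K : IF) (α β : Qbar) (H : ProjLine → ℝ), Fd K → α ∈ K → β ∈ K →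
  4 * α ^ 3 + 27 * β ^ 2 ≠ 0 → CanH 4 (dbl α β) H →
    ∃ (p : ℕ) (_ : Fact p.Prime) (φ : K →+* ℚ_[p]) (j : Qbar →+* Om p) (ε : ℝ),
      Es K α β φ j ∧ 0 < ε ∧ ∀ W P : (ec α β).Point, AbP K W → 0 < H (xp W) → H (xp W) < ε →
        ∃ s : GK K, Ker j (ga s P - P) ∧ ga s W ≠ W ∧ IsOfFinAddOrder (ga s W - W)

-- deps: PRN CANH COMM EDB EHT NORS
def S_EHZ : Prop := ∀ (K : IF) (α β : Qbar) (H : ProjLine → ℝ), Fd K → α ∈ K → β ∈ K →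
  4 * α ^ 3 + 27 * β ^ 2 ≠ 0 → CanH 4 (dbl α β) H →
    (∀ P : (ec α β).Point, H (xp P) = 0 → IsOfFinAddOrder P) ∧
      (∀ (σ : GK K) (r m : ℕ) (P : (ec α β).Point),
        H (xp (m • (ga σ P - 2 ^ r • P))) ≤ 4 ^ m * (2 + 2 * 4 ^ r) * H (xp P) ∧
          (0 < r → 0 < m → IsOfFinAddOrder (m • (ga σ P - 2 ^ r • P)) → IsOfFinAddOrder P)) ∧
        ∀ P : (ec α β).Point,
          {T : (ec α β).Point | IsOfFinAddOrder T ∧ ∀ ρ : GK K, ga ρ P = P → ga ρ T = T}.Finite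

-- deps: EHT EKILL ESCAL EW EHZ
def S_EAB : Prop := ∀ (K : IF) (α β : Qbar) (H : ProjLine → ℝ), Fd K → α ∈ K → β ∈ K →
  4 * α ^ 3 + 27 * β ^ 2 ≠ 0 → CanH 4 (dbl α β) H →
    ∃ c : ℝ, 0 < c ∧ ∀ P : (ec α β).Point, AbP K P → H (xp P) < c → H (xp P) = 0

/-! ### Lattes maps -/

-- deps: ETW ETX
def S_EFX : Prop := ∀ (α β : Qbar) (e : ℕ), Typ e α β → ∃ N : ℕ,
  ∀ (p n : ℕ) (T : (ec α β).Point) (v : Qbar), p.Prime → N < p → p ^ n • T = 0 → T ≠ 0 →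
    v ^ (2 * e) = 1 → v ≠ 1 → twp (RingHom.id _) v T ≠ T

-- deps: ETW ETX
def S_EBASE : Prop := ∀ (K K₁ : IF) (α β : Qbar) (e : ℕ) (P : (ec α β).Point) (x u : Qbar)
  (s : GK K), K ≤ K₁ → α ∈ K → β ∈ K → (∀ u : Qbar, u ^ (2 * e) = 1 → u ∈ K) → Typ e α β →
    xp P = some x → Ab K (x ^ e) → ¬ IsOfFinAddOrder P → u ^ (2 * e) = 1 →
      IsOfFinAddOrder (ga s P - twp (RingHom.id _) u P) →
        (∀ ρ : GK K₁, ga ρ (ga s P - twp (RingHom.id _) u P) = ga s P - twp (RingHom.id _) u P) →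
          (∀ v : Qbar, v ^ (2 * e) = 1 → v ≠ 1 →
            twp (RingHom.id _) v (ga s P - twp (RingHom.id _) u P) ≠
              ga s P - twp (RingHom.id _) u P) → AbP K₁ P

-- deps: PLACE ACT GOODR ETW ETX ENEAR EAMP WLD2
def S_LATR : Prop := ∀ (K : IF) (d e : ℕ) (a b : K[X]) (h : Qbar → ℝ) (α β : Qbar)
  (H : ProjLine → ℝ), Fd K → Nrm d a b → CanR d a b h → α ∈ K → β ∈ K →
    (∀ u : Qbar, u ^ (2 * e) = 1 → u ∈ K) → Typ e α β → CanH 4 (dbl α β) H →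
      (∀ x, h (x ^ e) = e * H (some x)) → ∀ N : ℕ, ∃ (p n : ℕ) (c : ℝ), p.Prime ∧ N < p ∧ 0 < c ∧
        ∀ (P : (ec α β).Point) (x : Qbar), xp P = some x → Ab K (x ^ e) → 0 < H (some x) →
          H (some x) < c → ∃ (s : GK K) (u : Qbar), u ^ (2 * e) = 1 ∧
            ga s P - twp (RingHom.id _) u P ≠ 0 ∧ p ^ n • (ga s P - twp (RingHom.id _) u P) = 0

-- deps: EHT EMUL EAB EFX EBASE LATR
def S_LATQ : Prop := ∀ (K : IF) (d e : ℕ) (a b : K[X]) (h : Qbar → ℝ) (α β : Qbar)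
  (H : ProjLine → ℝ), Fd K → Nrm d a b → CanR d a b h → α ∈ K → β ∈ K →
    (∀ u : Qbar, u ^ (2 * e) = 1 → u ∈ K) → Typ e α β → CanH 4 (dbl α β) H →
      (∀ x, h (x ^ e) = e * H (some x)) → ∃ c : ℝ, 0 < c ∧ ∀ z, Ab K z → 0 < h z → c ≤ h z

-- deps: PRN CANH CANR COMM LHT COMPO LATQ
def S_LATT2 : Prop := ∀ (K L : IF) (d e : ℕ) (a b g₁ g₂ : Qbar[X]) (α β : Qbar), Fd K → AbE K L →
  Nrm d a b → Lat d a b e α β g₁ g₂ → GapA L d (im a b d)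

-- deps: PRN TRANS CONJ CLASS EIG POLY2 LATT2
def S_MAING2 : Prop := ∀ (K L : IF) (d : ℕ) (φ : ProjLine → ProjLine), Fd K → AbE K L →
  2 ≤ d → RM ⊤ d φ → GapA L d φ

end

end Pool.Agent.P.MP_8d2e9f_nt.AO
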