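import Pool.Agent.P.MP_8d2e9f_nt.AO.BaseG

/-! The intermediate statements for an abelian field without the Northcott property. -/

namespace Pool.Agent.P.MP_8d2e9f_nt.AO

open Polynomial NumberField Pool.Agent.P.MP_8d2e9f_nt.G
open scoped IntermediateField Classical

noncomputable section

/-! ### Torsion points are rigid -/

-- deps:
def S_ROU : Prop := ∀ (p : ℕ) [Fact p.Prime] (j : Qbar →+* Om p) (ω : Qbar), IsOfFinOrder ω →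
  ω ≠ 1 → (p : ℝ)⁻¹ ≤ ‖j (ω - 1)‖ ^ (p - 1)

-- deps: ROU
def S_RIGC : Prop := ∀ (K : IF) (S : Set Qbar) (ξ : Qbar), IsOfFinOrder ξ → Rig K S (ξ + ξ⁻¹)

-- deps: ETW ETX
def S_ENEAR2 : Prop := ∀ (α β : Qbar) (e p : ℕ) [Fact p.Prime] (j : Qbar →+* Om p) (d : ℝ),
  Typ e α β → 3 ≤ p → ‖j α‖ ≤ 1 → ‖j β‖ ≤ 1 → ‖j (4 * α ^ 3 + 27 * β ^ 2)‖ = 1 → 0 < d → d < 1 →
    ∀ (P Q : (ec α β).Point) (x y : Qbar), xp P = some x → xp Q = some y →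
      Cl 1 (d ^ 3) (j (x ^ e)) (j (y ^ e)) →
        ∃ u : Qbar, u ^ (2 * e) = 1 ∧ Nr j d⁻¹ (Q - twp (RingHom.id _) u P)

-- deps: SCHW ELOC EKILL EG ESZ
def S_ESCH0 : Prop := ∀ (α β : Qbar) (p : ℕ) [Fact p.Prime] (j : Qbar →+* Om p), Ei j α β →
  ∀ T : (ec α β).Point, Ker j T → IsOfFinAddOrder T → T ≠ 0 → (p : ℝ)⁻¹ ≤ ‖j (tp T)‖ ^ (p - 1)

-- deps: ETW ETX ELOC ENEAR2 ESCH0
def S_RIGE : Prop := ∀ (K : IF) (α β : Qbar) (e : ℕ) (P : (ec α β).Point) (x : Qbar), α ∈ K →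
  β ∈ K → Typ e α β → IsOfFinAddOrder P → xp P = some x →
    Rig K {α, β, 4 * α ^ 3 + 27 * β ^ 2} (x ^ e)

/-! ### One level of the tower -/

-- deps:
def S_PIN : Prop := ∀ (p : ℕ) [Fact p.Prime] (j : Qbar →+* Om p) (ζ : Qbar), IsPrimitiveRoot ζ p →
  ‖j (1 - ζ)‖ ^ (p - 1) = (p : ℝ)⁻¹ ∧ 0 < ‖j (1 - ζ)‖ ∧ ‖j (1 - ζ)‖ < 1 ∧
    ∀ g k : ℕ, ‖j ((1 - ζ ^ g) ^ k) - (g : Om p) ^ k * j ((1 - ζ) ^ k)‖ < ‖j (1 - ζ)‖ ^ k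

-- deps: FROB PIN
def S_SURJ : Prop := ∀ (l : Lv) (g : ℕ), ¬ l.p ∣ g → ∃ s : GK l.M, Iso l.j s ∧ s l.ζ = l.ζ ^ g

-- deps: PIN
def S_EXPA : Prop := ∀ l : Lv, ∀ w ∈ l.M⟮l.ζ⟯, w ≠ 0 → ∃ (c : Qbar) (a : ℤ) (k : ℕ), c ∈ l.M ∧
  ‖l.j c‖ = (l.p : ℝ) ^ (-a) ∧ k < l.p - 1 ∧ ‖l.j (w - c * (1 - l.ζ) ^ k)‖ < ‖l.j w‖

-- deps: PIN EXPA
def S_GAPN : Prop := ∀ l : Lv, ∀ w ∈ l.M⟮l.ζ⟯,
  (∀ s : GK l.M, Iso l.j s → s l.ζ = l.ζ ^ l.h → s w = w → ‖l.j w‖ < 1 →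
    ‖l.j w‖ ^ (l.p - 1) ≤ (l.p : ℝ)⁻¹ ^ 7) ∧
    ∀ s : GK l.M, Iso l.j s → ‖l.j w‖ ≤ 1 → ‖l.j (s w - w)‖ < 1

-- deps: ABG ACT GAPN
def S_LOCN : Prop := ∀ (l : Lv) (s₀ s : GK l.M) (δ : ℝ), Iso l.j s₀ → s₀ l.ζ = l.ζ ^ l.h →
  Iso l.j s → 0 < δ → δ ^ (l.p - 1) = (l.p : ℝ)⁻¹ ^ 7 →
    ∀ z ∈ l.M⟮l.ζ⟯, s₀ z = z → Cl 1 δ (l.j z) (l.j (s z))

-- deps: SURJ LOCN
def S_STEP : Prop := ∀ (l : Lv) (K N : IF) (S : Set Qbar), K ≤ N → N ≤ l.M →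
  (∀ c ∈ S, c ≠ 0 → ‖l.j c‖ = 1) → ∀ z ∈ N ⊔ ℚ⟮l.u⟯, Rig K S z → z ∈ N

/-! ### The tower -/

-- deps: PLACE
def S_LEV : Prop := ∀ S : Set Qbar, S.Finite →
  ∃ l : Lv, ∀ x ∈ S, x ∈ l.M ∧ (x ≠ 0 → ‖l.j x‖ = 1)

-- deps: LEV
def S_TOWER : Prop := ∃ l : ℕ → Lv, Tw7 l

-- deps: STEP
def S_DSC : Prop := ∀ l : ℕ → Lv, Tw7 l → Dsc (LL l)

-- deps: WH WHX PIN
def S_NOTN : Prop := ∀ l : ℕ → Lv, Tw7 l → ¬ PropertyN (LL l).toSubfield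

-- deps: ABG
def S_ABQ : Prop :=
  (∀ l : ℕ → Lv, AbE ⊥ (LL l)) ∧ ∀ L : IF, (AbE ⊥ L → IsAbelianGalois ℚ L) ∧
    ∀ E : IntermediateField L Qbar, FiniteDimensional L E →
      ∃ K : IF, Fd K ∧ E.toSubfield = (L ⊔ K).toSubfield

/-! ### Preperiodic points -/

-- deps: WH WHX RIGC
def S_CYF : Prop := ∀ L K : IF, Dsc L → Fd K → (cyc (L ⊔ K).toSubfield).Finite

-- deps: USB PRN CANH COMPO CYF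
def S_FPOL : Prop := ∀ (K L : IF) (d : ℕ) (a b : Qbar[X]), Fd K → AbE K L → Dsc L → Nrm d a b →
  b.natDegree = 0 → FinA L (im a b d)

-- deps: WH PRN CANH COMM LHT EHZ RIGE
def S_FLAT : Prop := ∀ (L : IF) (d e : ℕ) (a b g₁ g₂ : Qbar[X]) (α β : Qbar), Dsc L → Nrm d a b →
  Lat d a b e α β g₁ g₂ → FinA L (im a b d)

-- deps:
def S_TRF : Prop := ∀ (L : IF) (φ : ProjLine → ProjLine),
  (∀ ψ, Sc φ ψ → FinA L ψ → FinA L φ) ∧ ∀ r, FinA L φ^[r] → FinA L φ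

-- deps: PRN PCOMP CONJ CLASS COMPO PER2 EXM1 FPOL FLAT TRF
def S_MAINF : Prop := ∀ K L : IF, Fd K → AbE K L → Dsc L → FinAll L

end

end Pool.Agent.P.MP_8d2e9f_nt.AO
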