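import Pool.Agent.P.MP_8d2e9f_nt.AO.IfaceC

/-! Step BASR. -/

set_option autoImplicit false

namespace Pool.Agent.P.MP_8d2e9f_nt.AO

open Polynomial NumberField Pool.Agent.P.MP_8d2e9f_nt.G
open scoped IntermediateField Classical

/-- The adapted basis. -/
noncomputable def basr_B {R : Type} [CommRing R] (a b : R[X]) (d : ℕ) :
    (k : ℕ) → (Fin k → Fin d) → R[X]
  | 0, _ => 1
  | k + 1, s => X ^ (s 0 : ℕ) * homg a b (d ^ k - 1) (basr_B a b d k (Fin.tail s))

/-- The common denominator. -/
noncomputable def basr_b {R : Type} [CommRing R] (a b : R[X]) (d : ℕ) : ℕ → R[X]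
  | 0 => 1
  | k + 1 => homg a b (d ^ k - 1) (basr_b a b d k)

theorem basr_B_map {R S : Type} [CommRing R] [CommRing S] (f : R →+* S) (a b : R[X]) (d k : ℕ) :
    ∀ s, (basr_B a b d k s).map f = basr_B (a.map f) (b.map f) d k s := by
  induction k with
  | zero => intro s; simp [basr_B]
  | succ k ih => intro s; simp [basr_B, homg_map, ih]

theorem basr_ar {d : ℕ} (hd : 2 ≤ d) (k : ℕ) : d - 1 + (d ^ k - 1) * d = d ^ (k + 1) - 1 := by
  obtain ⟨m, hm⟩ : ∃ m, d ^ k = m + 1 := ⟨d ^ k - 1, by
    have := Nat.one_le_pow k d (by omega)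
    omega⟩
  rw [pow_succ, hm, Nat.add_sub_cancel, add_mul, one_mul]
  omega

theorem basr_B_deg {R : Type} [CommRing R] {a b : R[X]} {d : ℕ} (h : Nrm d a b) (k : ℕ)
    (s : Fin k → Fin d) : (basr_B a b d k s).natDegree ≤ d ^ k - 1 := by
  cases k with
  | zero => simp [basr_B]
  | succ k =>
    rw [basr_B, ← basr_ar h.1]
    refine natDegree_mul_le_of_le ((natDegree_X_pow_le _).trans ?_)
      (homg_deg h.2.1.le h.2.2.1.le _ _)
    have := (s 0).2
    omega

theorem basr_b_deg {R : Type} [CommRing R] {a b : R[X]} {d : ℕ} (h : Nrm d a b) (k : ℕ) :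
    (basr_b a b d k).natDegree ≤ d ^ k - 1 := by
  cases k with
  | zero => simp [basr_b]
  | succ k =>
    rw [basr_b, ← basr_ar h.1]
    exact (homg_deg h.2.1.le h.2.2.1.le _ _).trans (Nat.le_add_left _ _)

theorem basr_ev {K : IF} {a b P : K[X]} {n : ℕ} {z : Qbar} (hb : aeval z b ≠ 0)
    (hP : P.natDegree ≤ n) :
    aeval z (homg a b n P) = aeval z b ^ n * aeval (rm a b z) P :=
  homg_rv (algebraMap K Qbar) a hb hP

theorem basr_ind (hIND : S_IND) {F : Type} [Field F] {a b : F[X]} {d : ℕ} (h : Nrm d a b)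
    (k : ℕ) : LinearIndependent F (basr_B a b d k) := by
  induction k with
  | zero => exact linearIndependent_unique_iff.2 (by simp [basr_B])
  | succ k ih =>
    rw [Fintype.linearIndependent_iff] at ih ⊢
    intro g hg s
    have h1 := (hIND F d (d ^ k - 1) a b h).1
      (fun i => ∑ t : Fin k → Fin d, g (Fin.cons i t) • basr_B a b d k t)
      (fun i => natDegree_sum_le_of_forall_le _ _ fun t _ =>
        (natDegree_smul_le _ _).trans (basr_B_deg h k t)) (by
        rw [← hg, ← (Fin.consEquiv fun _ => Fin d).sum_comp, Fintype.sum_prod_type]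
        refine Finset.sum_congr rfl fun i _ => ?_
        rw [homg_sum, Finset.mul_sum]
        refine Finset.sum_congr rfl fun t _ => ?_
        change _ = g (Fin.cons i t) • basr_B a b d (k + 1) (Fin.cons i t)
        simp only [smul_eq_C_mul, homg_C_mul, basr_B, Fin.cons_zero, Fin.tail_cons]
        ring)
    simpa using ih _ (h1 (s 0)) (Fin.tail s)

theorem basr_zo {p : ℕ} [Fact p.Prime] (c : ℤ_[p]) : ‖zo p c‖ ≤ 1 := by
  rw [zo_apply, norm_algebraMap']
  exact c.2

theorem p_BASR (hIND : S_IND) (hGOODR : S_GOODR) :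
    S_BASR := by
  intro K d k a b h
  refine ⟨basr_B a b d k, basr_b a b d k, basr_ind hIND h k, basr_B_deg h k, ?_,
    fun p _ φ j a₀ b₀ hl hg ea eb => ⟨fun s => ⟨basr_B a₀ b₀ d k s, by
      rw [basr_B_map, basr_B_map, ea, eb]⟩, ?_⟩⟩
  · induction k with
    | zero => intro z _; simp [basr_B, basr_b]
    | succ k ih =>
      intro z hz
      obtain ⟨h1, h2⟩ := ih (rm a b z) fun n => hz (n + 1)
      have h0 : aeval z b ≠ 0 := hz 0
      rw [basr_b, basr_ev h0 (basr_b_deg h k)]
      refine ⟨mul_ne_zero (pow_ne_zero _ h0) h1, fun s => ?_⟩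
      rw [basr_B, map_mul, basr_ev h0 (basr_B_deg h k _), h2, Fin.prod_univ_succ]
      simp only [map_pow, aeval_X, Fin.val_zero, Function.iterate_zero, id, Fin.val_succ,
        Function.iterate_succ_apply, Fin.tail]
      ring
  · induction k with
    | zero => intro z _; simp [basr_b]
    | succ k ih =>
      intro z hz
      have h1 := ih (rm a b z) fun n => hz (n + 1)
      have h0 : aeval z b ≠ 0 := hz 0
      have h2 : ‖j (aeval z b)‖ * max 1 ‖j (rm a b z)‖ = max 1 ‖j z‖ ^ d := by
        have h3 : 0 < ‖j (aeval z b)‖ := norm_pos_iff.2 ((map_ne_zero j).2 h0)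
        rw [← (hGOODR.1 p d a₀ b₀ hg).2 (Om p) (zo p) basr_zo (j z), ← loc_eval hl ea,
          ← loc_eval hl eb, mul_max_of_nonneg _ _ h3.le, mul_one, rm, map_div₀, norm_div,
          mul_div_cancel₀ _ h3.ne', max_comm]
      rw [basr_b, basr_ev h0 (basr_b_deg h k), Fin.prod_univ_succ, map_mul, map_pow, norm_mul,
        norm_pow, ← basr_ar h.1, pow_add, mul_comm _ d, pow_mul, ← h2, mul_pow, ← h1]
      simp only [Fin.val_zero, Function.iterate_zero, id, Fin.val_succ,
        Function.iterate_succ_apply]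
      ring

end Pool.Agent.P.MP_8d2e9f_nt.AO
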