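import Pool.Agent.P.MP_8d2e9f_nt.AO.Iface

/-! Step BT. -/

set_option autoImplicit false

namespace Pool.Agent.P.MP_8d2e9f_nt.AO

open Polynomial NumberField Pool.Agent.P.MP_8d2e9f_nt.G
open scoped IntermediateField

theorem bt_fin (x : Qbar) : (Set.range fun ψ : Qbar →+* ℂ => ψ x).Finite :=
  (rootSet_finite (minpoly ℚ x) ℂ).subset <| by
    rintro _ ⟨ψ, rfl⟩
    refine (mem_rootSet.2 ⟨minpoly.ne_zero (int_Q x), ?_⟩)
    have := aeval_algHom_apply ψ.toRatAlgHom x (minpoly ℚ x)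
    rw [minpoly.aeval, map_zero] at this
    exact this

theorem bt_finp (f : Qbar[X]) : (Set.range fun ψ : Qbar →+* ℂ => f.map ψ).Finite := by
  induction f using Polynomial.induction_on' with
  | add p q hp hq =>
    refine (hp.image2 (· + ·) hq).subset ?_
    rintro _ ⟨ψ, rfl⟩
    exact ⟨_, ⟨ψ, rfl⟩, _, ⟨ψ, rfl⟩, (Polynomial.map_add ψ).symm⟩
  | monomial n a =>
    refine ((bt_fin a).image (monomial n)).subset ?_
    rintro _ ⟨ψ, rfl⟩
    exact ⟨_, ⟨ψ, rfl⟩, (Polynomial.map_monomial ψ).symm⟩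

theorem bt_esc (f : Qbar[X]) (hd : 2 ≤ f.natDegree) :
    ∃ R : ℝ, ∀ (ψ : Qbar →+* ℂ) (z : Qbar), R ≤ ‖ψ z‖ → ‖ψ z‖ ≤ ‖ψ (f.eval z)‖ := by
  have h : ∀ g : ℂ[X], ∃ R : ℝ, 2 ≤ g.natDegree → ∀ z : ℂ, R ≤ ‖z‖ → ‖z‖ ≤ ‖g.eval z‖ := fun g => by
    by_cases c : 2 ≤ g.natDegree
    · exact (exists_escape_radius g c).imp fun _ h _ => h
    · exact ⟨0, fun k => absurd k c⟩
  choose R hR using h
  obtain ⟨B, hB⟩ := ((bt_finp f).image R).bddAbove
  refine ⟨B, fun ψ z hz => ?_⟩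
  have := hR (f.map ψ) (by rwa [natDegree_map]) (ψ z) ((hB ⟨_, ⟨ψ, rfl⟩, rfl⟩).trans hz)
  rwa [eval_map, eval₂_at_apply] at this

theorem bt_int (g : Qbar[X]) (hd : 2 ≤ g.natDegree) (y : Qbar) :
    ∃ D : ℕ, 0 < D ∧ IsIntegral ℤ ((D : Qbar) * y) ∧
      ∀ z, IsIntegral ℤ ((D : Qbar) * g.eval z) → IsIntegral ℤ ((D : Qbar) * z) := by
  classical
  have hg0 : g ≠ 0 := by rintro rfl; simp at hd
  set g₁ : Qbar[X] := g * C g.leadingCoeff⁻¹ with hg₁
  have hmon : g₁.Monic := monic_mul_leadingCoeff_inv hg0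
  have hdeg : g₁.natDegree = g.natDegree := natDegree_mul_leadingCoeff_inv _ hg0
  obtain ⟨D, hD0, hD⟩ := exists_common_denominator (insert y (insert g.leadingCoeff⁻¹ g₁.coeffs))
  have hDint : IsIntegral ℤ (D : Qbar) := isIntegral_natCast D
  refine ⟨D, Nat.pos_of_ne_zero hD0, hD _ (by simp), fun z ih => ?_⟩
  refine IsIntegral.of_aeval_monic_of_isIntegral_coeff (p := g₁.scaleRoots D)
    ((monic_scaleRoots_iff _).2 hmon) (by rw [natDegree_scaleRoots, hdeg]; omega) ?_ fun j => ?_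
  · rw [scaleRoots_eval_mul, hdeg, hg₁, eval_mul, eval_C]
    obtain ⟨e, he⟩ : ∃ e, g.natDegree = e + 2 := ⟨g.natDegree - 2, by omega⟩
    have : (D : Qbar) ^ g.natDegree * (g.eval z * g.leadingCoeff⁻¹) =
        (D : Qbar) ^ e * (((D : Qbar) * g.eval z) * ((D : Qbar) * g.leadingCoeff⁻¹)) := by
      rw [he]; ring
    rw [this]
    exact (hDint.pow e).mul (ih.mul (hD _ (by simp)))
  · rw [coeff_scaleRoots]
    rcases lt_trichotomy j g₁.natDegree with h | h | h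
    · obtain ⟨e, he⟩ : ∃ e, g₁.natDegree - j = e + 1 := ⟨g₁.natDegree - j - 1, by omega⟩
      by_cases hc : g₁.coeff j = 0
      · rw [hc, zero_mul]; exact isIntegral_zero
      · have : g₁.coeff j * (D : Qbar) ^ (g₁.natDegree - j) =
            (D : Qbar) ^ e * ((D : Qbar) * g₁.coeff j) := by
          rw [he]; ring
        rw [this]
        refine (hDint.pow e).mul (hD _ ?_)
        exact Finset.mem_insert_of_mem (Finset.mem_insert_of_mem (coeff_mem_coeffs hc))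
    · rw [h, hmon.coeff_natDegree, Nat.sub_self, pow_zero, one_mul]; exact isIntegral_one
    · rw [coeff_eq_zero_of_natDegree_lt h, zero_mul]; exact isIntegral_zero

theorem p_BT :
    S_BT := by
  intro f y hd
  obtain ⟨D, D0, hy, hD⟩ := bt_int f hd y
  obtain ⟨R, hR⟩ := bt_esc f hd
  obtain ⟨B, hB⟩ := ((bt_fin y).image norm).bddAbove
  refine ⟨D, max R B, D0, fun n => ?_⟩
  induction n with
  | zero =>
    rintro z rfl
    exact ⟨hy, fun ψ => (hB ⟨_, ⟨ψ, rfl⟩, rfl⟩).trans (le_max_right _ _)⟩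
  | succ n ih =>
    intro z hz
    obtain ⟨a, b⟩ := ih (f.eval z) hz
    refine ⟨hD z a, fun ψ => ?_⟩
    rcases le_total R ‖ψ z‖ with h | h
    · exact (hR ψ z h).trans (b ψ)
    · exact h.trans (le_max_left _ _)

end Pool.Agent.P.MP_8d2e9f_nt.AO
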