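import Pool.Agent.P.MP_8d2e9f_nt.AO.IfaceB
import Pool.Agent.P.MP_8d2e9f_nt.AO.Desc

/-! Step DESC. -/

set_option autoImplicit false

namespace Pool.Agent.P.MP_8d2e9f_nt.AO

open Polynomial NumberField Pool.Agent.P.MP_8d2e9f_nt.G
open scoped IntermediateField

theorem p_DESC :
    S_DESC := by
  intro F a b ha h
  refine desc F a b ha (h.imp (fun h => ?_) id)
  refine (h.sdiff (Set.finite_singleton b)).mono fun y hy => ⟨hy.1.1, hy.1.2.resolve_left hy.2⟩

end Pool.Agent.P.MP_8d2e9f_nt.AO
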