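import Pool.Agent.P.MP_8d2e9f_nt.AO.Iface

/-! Step DX. -/

set_option autoImplicit false

namespace Pool.Agent.P.MP_8d2e9f_nt.AO

open Polynomial NumberField Pool.Agent.P.MP_8d2e9f_nt.G
open scoped IntermediateField

section

variable {R : Type} [CommRing R]

theorem dx_coeff (A : R[X][X]) (i : ℕ) : (dX A).coeff i = derivative (A.coeff i) := by
  rw [dX, Polynomial.sum_def, finsetSum_coeff]
  simp only [coeff_monomial, Finset.sum_ite_eq']
  split_ifs with h
  · rfl
  · rw [notMem_support_iff.1 h, derivative_zero]

theorem dx_add (A B : R[X][X]) : dX (A + B) = dX A + dX B := by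
  ext1 i
  simp only [dx_coeff, coeff_add, derivative_add]

theorem dx_mul (A B : R[X][X]) : dX (A * B) = dX A * B + A * dX B := by
  ext1 i
  simp only [dx_coeff, coeff_add, coeff_mul, derivative_sum, derivative_mul,
    Finset.sum_add_distrib]

theorem dx_mono (n : ℕ) (r : R[X]) : dX (monomial n r) = monomial n (derivative r) := by
  ext1 i
  simp only [dx_coeff, coeff_monomial]
  split_ifs <;> simp

theorem dx_C (r : R[X]) : dX (C r) = C (derivative r) := dx_mono 0 r

theorem dx_pow (f : R[X]) (n : ℕ) : dX (f.map C ^ n) = 0 := by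
  ext1 i
  rw [← Polynomial.map_pow, dx_coeff, coeff_map, derivative_C, coeff_zero]

theorem dx_sub_mono (f : R[X]) (n : ℕ) (r : R[X]) :
    sub f (monomial n r) = C (r.comp f) * f.map C ^ n := by
  rw [sub, Polynomial.map_monomial, monomial_comp]
  rfl

theorem dx_sub_add (f : R[X]) (A B : R[X][X]) : sub f (A + B) = sub f A + sub f B := by
  simp only [sub, Polynomial.map_add, add_comp]

end

theorem p_DX :
    S_DX := by
  intro R _
  refine ⟨dx_coeff, fun A B => ⟨dx_add A B, dx_mul A B⟩, dx_C, fun f A => ⟨?_, ?_⟩⟩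
  · induction A using Polynomial.induction_on' with
    | add A B hA hB => rw [dx_sub_add, dx_add, dx_add, dx_sub_add, hA, hB, add_mul]
    | monomial n r =>
      rw [dx_mono, dx_sub_mono, dx_sub_mono, dx_mul, dx_pow, dx_C, derivative_comp, C_mul]
      ring
  · rw [sub, sub, derivative_comp, derivative_map, derivative_map, mul_comm]

end Pool.Agent.P.MP_8d2e9f_nt.AO
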