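import Pool.Agent.P.MP_8d2e9f_nt.AO.IfaceD

/-! Step EKILL. -/

set_option autoImplicit false

namespace Pool.Agent.P.MP_8d2e9f_nt.AO

open Polynomial NumberField Pool.Agent.P.MP_8d2e9f_nt.G
open scoped IntermediateField Classical

lemma ekill_d_cube (hELOC : S_ELOC) {α β : Qbar} {p : ℕ} [Fact p.Prime] {j : Qbar →+* Om p}
    (hE : Ei j α β) {T : (ec α β).Point} {x : Qbar} (hx : xp T = some x) (h1 : 1 < ‖j x‖)
    (m : ℕ) : ‖j (tp T)‖ ^ 2 * ‖j x‖ = 1 ∧ 0 < ‖j (tp T)‖ ∧ Nr j ‖j x‖ (m • T) ∧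
      ‖j (tp (m • T) - m * tp T)‖ * ‖j x‖ ≤ ‖j (tp T)‖ := by
  obtain ⟨-, h2, h3⟩ := hELOC α β p j hE
  have hN : Nr j ‖j x‖ T := fun y hy => by
    rw [hx] at hy
    rw [Option.some.inj hy]
  have hK : Ker j T := fun y hy => h1.trans_le (hN y hy)
  obtain ⟨e1, -, e3⟩ := h2 T x hK hx
  obtain ⟨f1, f2⟩ := (h3 _ T h1 hN).2.2 m
  have t0 : 0 < ‖j (tp T)‖ := norm_pos_iff.2 ((map_ne_zero j).2 e3)
  refine ⟨e1, t0, f1, ?_⟩
  have h0 : 0 < ‖j x‖ := zero_lt_one.trans h1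
  refine (pow_le_pow_iff_left₀ (by positivity) t0.le two_ne_zero).1 ?_
  refine le_of_mul_le_mul_right ?_ h0
  rw [e1]
  calc (‖j (tp (m • T) - m * tp T)‖ * ‖j x‖) ^ 2 * ‖j x‖
      = ‖j x‖ ^ 3 * ‖j (tp (m • T) - m * tp T)‖ ^ 2 := by ring
    _ ≤ 1 := f2

lemma ekill_d_unit (hELOC : S_ELOC) {α β : Qbar} {p : ℕ} [hp : Fact p.Prime] {j : Qbar →+* Om p}
    (hE : Ei j α β) {T : (ec α β).Point} (hK : Ker j T) {m : ℕ} (hm : ¬ p ∣ m)
    (h : m • T = 0) : T = 0 := by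
  by_contra h0
  obtain ⟨x, hx⟩ := xp_ex h0
  have h1 := hK x hx
  obtain ⟨-, e2, -, e4⟩ := ekill_d_cube hELOC hE hx h1 m
  have hmn : ‖j m‖ = 1 := by
    rw [map_natCast, ← map_natCast (algebraMap ℚ_[p] (Om p)), norm_algebraMap',
      Padic.norm_natCast_eq_one_iff]
    exact (Nat.Prime.coprime_iff_not_dvd hp.out).2 hm
  have e0 : tp (0 : (ec α β).Point) = 0 := rfl
  rw [h, e0, zero_sub, map_neg, norm_neg, map_mul, norm_mul, hmn, one_mul] at e4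
  nlinarith

lemma ekill_d_step (hELOC : S_ELOC) {α β : Qbar} {p : ℕ} [hp : Fact p.Prime] {j : Qbar →+* Om p}
    (hE : Ei j α β) {T : (ec α β).Point} {x : Qbar} (hx : xp T = some x) (h1 : (p : ℝ) < ‖j x‖) :
    ‖j (tp (p • T))‖ = ‖j (tp T)‖ / p ∧ ∃ y, xp (p • T) = some y ∧ (p : ℝ) < ‖j y‖ := by
  have hp1 : (1 : ℝ) < p := by exact_mod_cast hp.out.one_lt
  have hp0 : (0 : ℝ) < p := zero_lt_one.trans hp1
  obtain ⟨-, e2, e3, e4⟩ := ekill_d_cube hELOC hE hx (hp1.trans h1) p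
  have hpn : ‖j p‖ = (p : ℝ)⁻¹ := by
    rw [map_natCast, ← map_natCast (algebraMap ℚ_[p] (Om p)), norm_algebraMap', Padic.norm_p]
  have e5 : ‖j (p * tp T)‖ = ‖j (tp T)‖ / p := by
    rw [map_mul, norm_mul, hpn, inv_mul_eq_div]
  have e6 : ‖j (tp (p • T) - p * tp T)‖ < ‖j (p * tp T)‖ := by
    rw [e5, lt_div_iff₀ hp0]
    rcases (norm_nonneg (j (tp (p • T) - p * tp T))).eq_or_lt with h | h
    · rw [← h, zero_mul]
      exact e2
    · exact (mul_lt_mul_of_pos_left h1 h).trans_le e4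
  have e7 : ‖j (tp (p • T))‖ = ‖j (tp T)‖ / p := by
    have e : tp (p • T) = (tp (p • T) - p * tp T) + p * tp T := by ring
    rw [e, map_add, IsUltrametricDist.norm_add_eq_max_of_norm_ne_norm e6.ne, max_eq_right e6.le,
      e5]
  refine ⟨e7, ?_⟩
  have h0 : p • T ≠ 0 := fun h => by
    have e0 : tp (0 : (ec α β).Point) = 0 := rfl
    rw [h, e0, map_zero, norm_zero] at e7
    exact (div_pos e2 hp0).ne e7
  obtain ⟨y, hy⟩ := xp_ex h0
  exact ⟨y, hy, h1.trans_le (e3 y hy)⟩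

lemma ekill_d_two (hELOC : S_ELOC) {α β : Qbar} {p : ℕ} [hp : Fact p.Prime] {j : Qbar →+* Om p}
    (hE : Ei j α β) {T : (ec α β).Point} (hK : Ker j T) (hT : IsOfFinAddOrder T) :
    ∃ a : ℕ, p ^ a • T = 0 := by
  obtain ⟨n, hn, h⟩ := isOfFinAddOrder_iff_nsmul_eq_zero.1 hT
  obtain ⟨a, m, hm, rfl⟩ := Nat.exists_eq_pow_mul_and_not_dvd hn.ne' p hp.out.ne_one
  refine ⟨a, ekill_d_unit hELOC hE ?_ hm (by rw [← mul_smul, mul_comm, h])⟩
  by_cases h0 : T = 0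
  · rw [h0, nsmul_zero]
    exact fun y hy => by cases hy
  · obtain ⟨x, hx⟩ := xp_ex h0
    have h1 := hK x hx
    exact fun y hy => h1.trans_le ((ekill_d_cube hELOC hE hx h1 (p ^ a)).2.2.1 y hy)

lemma ekill_d_inf (hELOC : S_ELOC) {α β : Qbar} {p : ℕ} [hp : Fact p.Prime] {j : Qbar →+* Om p}
    (hE : Ei j α β) {T : (ec α β).Point} {x : Qbar} (hx : xp T = some x) (h1 : (p : ℝ) < ‖j x‖) :
    ¬ IsOfFinAddOrder T := by
  have hp1 : (1 : ℝ) < p := by exact_mod_cast hp.out.one_lt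
  have key : ∀ a : ℕ, ∃ y, xp (p ^ a • T) = some y ∧ (p : ℝ) < ‖j y‖ := by
    intro a
    induction a with
    | zero => exact ⟨x, by rwa [pow_zero, one_nsmul], h1⟩
    | succ a ih =>
      obtain ⟨y, hy, h2⟩ := ih
      rw [pow_succ', mul_smul]
      exact (ekill_d_step hELOC hE hy h2).2
  intro hT
  have hK : Ker j T := fun y hy => by
    rw [hx] at hy
    rw [← Option.some.inj hy]
    exact hp1.trans h1
  obtain ⟨a, ha⟩ := ekill_d_two hELOC hE hK hT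
  obtain ⟨y, hy, -⟩ := key a
  rw [ha] at hy
  cases hy

theorem p_EKILL (hECON : S_ECON) (hELOC : S_ELOC) :
    S_EKILL := by
  intro α β p hp j hE
  have hp1 : (1 : ℝ) < p := by exact_mod_cast hp.out.one_lt
  refine ⟨fun T x hx h1 => ⟨(ekill_d_step hELOC hE hx h1).1, ekill_d_inf hELOC hE hx h1⟩,
    fun T hK hT => ekill_d_two hELOC hE hK hT, fun r hr => ?_⟩
  obtain ⟨a, ha⟩ := pow_unbounded_of_one_lt (p : ℝ) (lt_min hr hp1)
  refine ⟨a, fun T hN hT => ?_⟩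
  by_contra h0
  obtain ⟨x, hx⟩ := xp_ex h0
  have h2 := hECON α β p j r hE.1 hE.2.1 hE.2.2.1 hr a T hN x hx
  refine ekill_d_inf hELOC hE hx (ha.trans_le (le_trans ?_ h2)) hT.nsmul
  exact le_mul_of_one_le_left (by positivity) hr.le

end Pool.Agent.P.MP_8d2e9f_nt.AO
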