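import Pool.Agent.P.MP_8d2e9f_nt.AO.IfaceD
import Pool.Agent.P.MP_8d2e9f_nt.AO.TLATP

/-! Step EW1. -/

set_option autoImplicit false

namespace Pool.Agent.P.MP_8d2e9f_nt.AO

open Polynomial NumberField Pool.Agent.P.MP_8d2e9f_nt.G
open scoped IntermediateField Classical

theorem p_EW1 (hPLACE : S_PLACE) (hGOODR : S_GOODR) (hCANR : S_CANR) (hCOMM : S_COMM) (hWLD2 : S_WLD2) :
    S_EW1 := by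
  intro K α β H hK hα hβ hΔ hH
  have e1 : (dbn (⟨α, hα⟩ : K) ⟨β, hβ⟩).map (algebraMap K Qbar) = dbn α β := by
    simp [dbn, map_ofNat]
  have e2 : (dbd (⟨α, hα⟩ : K) ⟨β, hβ⟩).map (algebraMap K Qbar) = dbd α β := by
    simp [dbd, cub, map_ofNat]
  have hn : Nrm 4 (dbn (⟨α, hα⟩ : K) ⟨β, hβ⟩) (dbd (⟨α, hα⟩ : K) ⟨β, hβ⟩) :=
    nrm_of_map (by rw [e1, e2]; exact (hCOMM α β hΔ).1)
  obtain ⟨h0, hc⟩ := (hCANR K 4 _ _ hn).2.1 H (by rw [e1, e2]; exact hH)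
  obtain ⟨s₀, hs₀⟩ := hGOODR.2 K 4 _ _ hn
  obtain ⟨p, _, φ, j, hp, hl, hφ, jα, jβ, jΔ⟩ := latp_place hPLACE hK 3 s₀ hα hβ hΔ
  obtain ⟨a₀, b₀, hg, ea, eb⟩ := hs₀ p φ hφ
  obtain ⟨δ, ε, hδ, hε, h⟩ := hWLD2 K 4 _ _ _ p φ j a₀ b₀ ⟨hK, hn, hc, hl, hg, ea, eb⟩ hp.le
  exact ⟨p, inferInstance, φ, j, δ, ε, ⟨hK, hα, hβ, hl, hΔ, jα, jβ, hp.le⟩, jΔ, hδ, hε, h0, h⟩

end Pool.Agent.P.MP_8d2e9f_nt.AO
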