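import Pool.Agent.P.MP_8d2e9f_nt.AO.Iface

/-! Step EXC. -/

set_option autoImplicit false

namespace Pool.Agent.P.MP_8d2e9f_nt.AO

open Polynomial NumberField Pool.Agent.P.MP_8d2e9f_nt.G
open scoped IntermediateField

lemma exc_conj {F g : Qbar[X]} {a s : Qbar} (h : LinConj (F.comp (X + C s) - C s) a 0 g) :
    LinConj F a s g := by
  unfold LinConj at *
  rw [sub_comp, comp_assoc, add_comp, X_comp, C_comp, C_0, add_zero, add_zero] at h
  exact sub_eq_iff_eq_add.1 h

lemma exc_coeff {k : Type} [Field k] (f : k[X]) (s : k) (d : ℕ) (hd : f.natDegree = d + 1) :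
    (f.comp (X + C s)).coeff d = f.coeff d + (d + 1) * f.coeff (d + 1) * s := by
  have h : (hasseDeriv d f).natDegree < 2 := (natDegree_hasseDeriv_le f d).trans_lt (by omega)
  rw [← taylor_apply, taylor_coeff, eval_eq_sum_range' h, Finset.sum_range_succ,
    Finset.sum_range_one, hasseDeriv_coeff, hasseDeriv_coeff, Nat.zero_add, Nat.choose_self,
    Nat.add_comm 1 d, Nat.choose_succ_self_right]
  simp

lemma exc_cheb {R S : Type} [CommRing R] [CommRing S] (φ : R →+* S) (f : R[X]) (d : ℕ) :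
    cheb (f.map φ) d = (cheb f d).map φ := by
  simp [cheb, derivative_map, map_ofNat]

theorem p_EXC (hLIFT : S_LIFT) (hCLS : S_CLS) :
    S_EXC := by
  intro K f hK hd hF
  obtain ⟨d, e⟩ : ∃ d, f.natDegree = d + 1 := ⟨f.natDegree - 1, by omega⟩
  have h0 : f.coeff (d + 1) ≠ 0 := by
    rw [← e, coeff_natDegree, leadingCoeff_ne_zero]
    rintro rfl
    simp at hd
  have h1 : ((d : K) + 1) ≠ 0 := Nat.cast_add_one_ne_zero d
  obtain ⟨s, hs⟩ : ∃ s : K, s = -f.coeff d / ((d + 1) * f.coeff (d + 1)) := ⟨_, rfl⟩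
  have h2 := hLIFT K f s hK hd hF (by
    rw [e, Nat.add_sub_cancel, exc_coeff f s d e, hs]
    field_simp
    ring)
  have h3 : ((f.comp (X + C s) - C s).map (algebraMap K Qbar)).natDegree = f.natDegree := by
    rw [natDegree_map, natDegree_sub_C, ← taylor_apply, natDegree_taylor]
  have h4 : (f.comp (X + C s) - C s).map (algebraMap K Qbar) =
      (f.map (algebraMap K Qbar)).comp (X + C (s : Qbar)) - C (s : Qbar) := by
    simp [map_comp]
  obtain ⟨a, ha, h⟩ := hCLS _ (h3 ▸ hd) (by rw [h3, exc_cheb, h2, Polynomial.map_zero])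
  rw [h3] at h
  refine ⟨a, s, ha, s.2, ?_⟩
  rw [natDegree_map]
  rcases h with h | ⟨h5, h⟩
  · exact Or.inl (exc_conj (h4 ▸ h))
  · refine Or.inr ⟨?_, h.imp (fun h => exc_conj (h4 ▸ h)) fun h => exc_conj (h4 ▸ h)⟩
    have h6 : ((f.comp (X + C s) - C s).map (algebraMap K Qbar)).coeff f.natDegree ≠ 0 := by
      rw [← h3, h3, ← h3, coeff_natDegree, leadingCoeff_ne_zero]
      intro h6
      rw [h6, natDegree_zero] at h3
      omega
    have h7 : (f.natDegree : Qbar) ≠ 0 := Nat.cast_ne_zero.2 (by omega)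
    rw [(eq_div_iff (mul_ne_zero h7 h6)).2 h5, coeff_map, coeff_map]
    exact div_mem (neg_mem (Subtype.prop _)) (mul_mem (natCast_mem K _) (Subtype.prop _))

end Pool.Agent.P.MP_8d2e9f_nt.AO
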