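import Pool.Agent.P.MP_8d2e9f_nt.AO.IfaceE

/-! Step EXMA. -/

set_option autoImplicit false

namespace Pool.Agent.P.MP_8d2e9f_nt.AO

open Polynomial NumberField Pool.Agent.P.MP_8d2e9f_nt.G
open scoped IntermediateField Classical

lemma exma_e_cross {a b a' b' : Qbar[X]} {d : ℕ} (h : Pr d a b) (h' : Pr d a' b')
    (e : ∀ x, im a' b' d x = im a b d x) : a * b' = a' * b := by
  refine Polynomial.funext fun x => ?_
  have := (pt_eq_iff (h'.2.2 _ (lf_ne (some x))) (h.2.2 _ (lf_ne (some x)))).1 (e (some x))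
  simp only [vm, lf, hv_one h.1, hv_one h.2.1, hv_one h'.1, hv_one h'.2.1] at this
  rw [eval_mul, eval_mul, this, mul_comm]

lemma exma_e_wr {a b a' b' : Qbar[X]} (e : a * b' = a' * b) :
    wr a b * b' ^ 2 = wr a' b' * b ^ 2 := by
  have e' := congrArg derivative e
  rw [derivative_mul, derivative_mul] at e'
  unfold wr
  linear_combination (b * b') * e' - (derivative b' * b + derivative b * b') * e

lemma exma_e_val {n m : Qbar[X]} {x : Qbar} (hx : m.eval x ≠ 0) {P : Qbar[X]} {k : ℕ}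
    (hP : P.natDegree ≤ k) :
    (homg n m k P).eval x = m.eval x ^ k * P.eval (n.eval x / m.eval x) := by
  simpa [rv, eval₂_id] using homg_rv (RingHom.id Qbar) n (by simpa [eval₂_id] using hx) hP

theorem p_EXMA (hCHN : S_CHN) (hPCOMP : S_PCOMP) (hRTF : S_RTF) :
    S_EXMA := by
  rintro f hd ⟨a, b, P, hab, hφ, hP0, hP, c, hc, hE⟩
  obtain ⟨hPr, hmap, -, hT⟩ := hRTF f hd
  obtain ⟨h3, him, -⟩ := hPCOMP Qbar _ _ _ _ _ _ hd hPr hPr
  have e := exma_e_cross hab h3 fun x => by rw [him, ← hφ, hmap]; rfl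
  have hw := exma_e_wr e
  rw [hCHN.2 Qbar _ _ _ _ _ hd hPr.1 hPr.2.1] at hw
  have hW := (hCHN.1 Qbar f.num f.denom 0 _ 0 hPr.1 hPr.2.1).2.2
  have hm : ∀ᶠ x in Filter.cofinite, f.denom.eval x ≠ 0 :=
    eventually_cofinite_not_isRoot f.denom_ne_zero
  refine ⟨P, c, hP0, hP, hc, ?_⟩
  filter_upwards [hm, hT.eventually hm] with x hx hy
  have e1 := congrArg (eval x) e
  have e2 := congrArg (eval x) hw
  simp only [eval_mul, eval_pow, exma_e_val hx hPr.1, exma_e_val hx hPr.2.1,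
    exma_e_val hx hW] at e1 e2
  change _ * (_ * eval (ratVal f x) _) = _ * eval (ratVal f x) _ * _ at e1
  change _ * (_ * eval (ratVal f x) _) ^ 2 = _ * eval (ratVal f x) _ * _ * _ at e2
  have hb : b.eval x ≠ 0 := fun h0 => by
    rw [h0, mul_zero] at e1
    have ha := (mul_eq_zero.1 e1).resolve_right (mul_ne_zero (pow_ne_zero _ hx) hy)
    exact hab.2.2 _ (lf_ne (some x)) (by simp [vm, lf, hv_one hab.1, hv_one hab.2.1, ha, h0])
  have e3 := congrArg (eval x) hE
  simp only [eval_mul, eval_pow, eval_C, exma_e_val hb hP] at e3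
  have e4 : a.eval x / b.eval x = ratVal f (ratVal f x) := by
    rw [ratVal, div_eq_div_iff hb hy]
    refine mul_left_cancel₀ (pow_ne_zero (ratDegree f) hx) ?_
    linear_combination e1
  have e5 : (wr a b).eval x = b.eval x ^ 2 * (ratDer f (ratVal f x) * ratDer f x) := by
    obtain ⟨k, hk⟩ := Nat.exists_eq_add_one_of_ne_zero hd.ne'
    rw [hk, show 2 * (k + 1) - 2 = 2 * k by omega] at e2
    change _ = _ * ((wr f.num f.denom).eval _ / _ * ((wr f.num f.denom).eval _ / _))
    field_simp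
    refine mul_left_cancel₀ (pow_ne_zero (2 * k) hx) ?_
    linear_combination e2
  rw [e4, e5] at e3
  refine mul_left_cancel₀ (pow_ne_zero 24 hb) ?_
  linear_combination e3

end Pool.Agent.P.MP_8d2e9f_nt.AO
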