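import Pool.Agent.P.MP_8d2e9f_nt.AO.IfaceF

/-! Step GAPN. -/

set_option autoImplicit false

namespace Pool.Agent.P.MP_8d2e9f_nt.AO

open Polynomial NumberField Pool.Agent.P.MP_8d2e9f_nt.G
open scoped IntermediateField Classical

lemma gapn_f1 {F : Type} [NormedField F] [IsUltrametricDist F] {a b : F} {m : ℝ} (ha : ‖a‖ < m)
    (hb : ‖b‖ < m) : ‖a + b‖ < m :=
  (IsUltrametricDist.norm_add_le_max a b).trans_lt (max_lt ha hb)

lemma gapn_f2 {F : Type} [NormedField F] [IsUltrametricDist F] {a b : F} {m : ℝ} (ha : ‖a‖ < m)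
    (hb : ‖b‖ < m) : ‖a - b‖ < m := by
  rw [sub_eq_add_neg]
  exact gapn_f1 ha (by rwa [norm_neg])

lemma gapn_f3 {F : Type} [NormedField F] [IsUltrametricDist F] {a b : F} (h : ‖a - b‖ < ‖a‖) :
    ‖a‖ = ‖b‖ := by
  rcases lt_trichotomy ‖a‖ ‖b‖ with h1 | h1 | h1
  · have := gapn_f2 h1 (h.trans h1)
    rw [sub_sub_cancel] at this
    exact absurd this (lt_irrefl _)
  · exact h1
  · have := gapn_f1 h h1
    rw [sub_add_cancel] at this
    exact absurd this (lt_irrefl _)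

lemma gapn_f4 {p : ℕ} [Fact p.Prime] {h k : ℕ} (hn : ‖1 - (h : Om p) ^ k‖ < 1) :
    (h : ZMod p) ^ k = 1 := by
  have e : (1 - (h : Om p) ^ k) = algebraMap ℚ_[p] (Om p) (((1 - (h : ℤ) ^ k : ℤ)) : ℚ_[p]) := by
    rw [map_intCast]; push_cast; rfl
  rw [e, norm_algebraMap'] at hn
  have := (ZMod.intCast_zmod_eq_zero_iff_dvd _ p).2 (Padic.norm_intCast_lt_one_iff.1 hn)
  push_cast at this
  exact (sub_eq_zero.1 this).symm

theorem p_GAPN (hPIN : S_PIN) (hEXPA : S_EXPA) :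
    S_GAPN := by
  intro l w hw
  have h3 := l.three
  have hp1 : (1 : ℝ) < l.p := by exact_mod_cast l.hp.out.one_lt
  have hp0 : (0 : ℝ) < l.p := one_pos.trans hp1
  by_cases h0 : w = 0
  · subst h0
    refine ⟨fun s _ _ _ _ => ?_, fun s _ _ => by simp⟩
    rw [map_zero, norm_zero, zero_pow (by omega)]
    positivity
  obtain ⟨c, a, k, hc, hca, hk, hr⟩ := hEXPA l w hw h0
  obtain ⟨q1, q2, q3, q4⟩ := hPIN l.p l.j l.ζ l.prim
  have hN : ‖l.j w‖ = ‖l.j c‖ * ‖l.j (1 - l.ζ)‖ ^ k := by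
    rw [map_sub] at hr
    rw [gapn_f3 hr, map_mul, map_pow, norm_mul, norm_pow]
  have hc0 : 0 < ‖l.j c‖ := by rw [hca]; positivity
  have hw0 : 0 < ‖l.j w‖ := by rw [hN]; positivity
  have hpow : ‖l.j w‖ ^ (l.p - 1) = (l.p : ℝ) ^ (-(a * ((l.p - 1 : ℕ) : ℤ) + k)) := by
    rw [hN, mul_pow, ← pow_mul, mul_comm k, pow_mul, q1, hca, ← zpow_natCast, ← zpow_mul,
      inv_pow, ← zpow_natCast, ← zpow_neg, ← zpow_add₀ hp0.ne']
    congr 1
    ring
  have hsc : ∀ s : GK l.M, s c = c := fun s => s.commutes ⟨c, hc⟩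
  refine ⟨fun s hs hz hsw hlt => ?_, fun s hs hle => ?_⟩
  · have e : (1 - (l.h : Om l.p) ^ k) * l.j w =
        l.j c * (l.j ((1 - l.ζ ^ l.h) ^ k) - (l.h : Om l.p) ^ k * l.j ((1 - l.ζ) ^ k)) +
          (l.j (s (w - c * (1 - l.ζ) ^ k)) -
            (l.h : Om l.p) ^ k * l.j (w - c * (1 - l.ζ) ^ k)) := by
      simp only [map_sub, map_mul, map_pow, map_one, hsw, hsc, hz]
      ring
    have hh : ‖(l.h : Om l.p) ^ k‖ ≤ 1 := by
      rw [norm_pow]
      exact pow_le_one₀ (norm_nonneg _) (IsUltrametricDist.norm_natCast_le_one _ _)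
    have hb : ‖(1 - (l.h : Om l.p) ^ k) * l.j w‖ < ‖l.j w‖ := by
      rw [e]
      refine gapn_f1 ?_ (gapn_f2 ?_ ?_)
      · rw [norm_mul, hN]
        exact mul_lt_mul_of_pos_left (q4 _ _) hc0
      · rw [hs]; exact hr
      · rw [norm_mul]
        exact (mul_le_of_le_one_left (norm_nonneg _) hh).trans_lt hr
    rw [norm_mul, mul_lt_iff_lt_one_left hw0] at hb
    have h7 : 7 ∣ k := l.ord ▸ orderOf_dvd_of_pow_eq_one (gapn_f4 hb)
    have h1 : ‖l.j w‖ ^ (l.p - 1) < 1 := pow_lt_one₀ hw0.le hlt (by omega)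
    rw [hpow] at h1 ⊢
    rw [zpow_lt_one_iff_right₀ hp1] at h1
    rw [inv_pow, ← zpow_natCast, ← zpow_neg, zpow_le_zpow_iff_right₀ hp1]
    have hd : (7 : ℤ) ∣ a * ((l.p - 1 : ℕ) : ℤ) + k :=
      dvd_add (Dvd.dvd.mul_left (by exact_mod_cast l.dvd) a) (by exact_mod_cast h7)
    have := Int.le_of_dvd (by omega) hd
    push_cast at this ⊢
    omega
  · rcases hle.lt_or_eq with hlt | heq
    · rw [map_sub]
      exact gapn_f2 (by rw [hs]; exact hlt) hlt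
    · rw [heq, one_pow, eq_comm, zpow_eq_one_iff_right₀ hp0.le hp1.ne'] at hpow
      have hk0 : k = 0 := by
        have hd : ((l.p - 1 : ℕ) : ℤ) ∣ (k : ℤ) := ⟨-a, by linarith⟩
        exact Nat.eq_zero_of_dvd_of_lt (Int.natCast_dvd_natCast.1 hd) hk
      subst hk0
      rw [pow_zero, mul_one, heq] at hr
      have e : s w - w = s (w - c) - (w - c) := by rw [map_sub, hsc]; ring
      rw [e, map_sub]
      exact gapn_f2 (by rw [hs]; exact hr) hr

end Pool.Agent.P.MP_8d2e9f_nt.AO
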