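import Pool.Agent.P.MP_8d2e9f_nt.AO.IfaceD

/-! Step INF. -/

set_option autoImplicit false

namespace Pool.Agent.P.MP_8d2e9f_nt.AO

section

open Finset MvPolynomial

/-- an element of the group with the same residues as `s` on finitely many integers -/
theorem inf_d_fin {E G ι : Type*} [NormedField E] [IsUltrametricDist E] [Group G] [Fintype ι]
    [MulSemiringAction G E] (hiso : ∀ (g : G) (x : E), ‖g • x‖ = ‖x‖) (s : E →+* E)
    (hs : ∀ x, ‖s x‖ = ‖x‖) (hfix : ∀ a : E, (∀ g : G, g • a = a) → ‖a‖ ≤ 1 → ‖s a - a‖ < 1)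
    (z : ι → E) (hz : ∀ i, ‖z i‖ ≤ 1) (hfin : (MulAction.orbit G z).Finite) :
    ∃ g : G, ∀ i, ‖g • z i - s (z i)‖ < 1 := by
  classical
  let O := (NormedField.valuation (K := E)).valuationSubring
  have mO : ∀ z : E, z ∈ O ↔ ‖z‖ ≤ 1 := fun z => by
    rw [Valuation.mem_valuationSubring_iff]
    exact NNReal.coe_le_coe.symm
  let res := IsLocalRing.residue O
  have r0 : ∀ a : O, res a = 0 ↔ ‖(a : E)‖ < 1 := fun a => by
    rw [IsLocalRing.residue_eq_zero_iff, Valuation.mem_maximalIdeal_iff]
    exact NNReal.coe_lt_coe.symm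
  let act : G → O →+* O := fun g => ((MulSemiringAction.toRingHom G E g).comp O.subtype).codRestrict
    O fun a => (mO _).2 ((hiso g a).le.trans ((mO _).1 a.2))
  have ha : ∀ g (a : O), (act g a : E) = g • (a : E) := fun _ _ => rfl
  let sO : O →+* O := (s.comp O.subtype).codRestrict O
    fun a => (mO _).2 ((hs a).le.trans ((mO _).1 a.2))
  have := hfin.fintype
  let val : MulAction.orbit G z → ι → O := fun y i => ⟨y.1 i, (mO _).2 (by
    obtain ⟨g, hg⟩ := y.2
    rw [← hg]
    exact (hiso g _).le.trans (hz i))⟩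
  let W : MvPolynomial (Option ι) O := ∏ y, (X none - ∑ i, X (some i) * C (val y i))
  have h1 : ∀ g, map (act g) W = W := fun g => by
    rw [map_prod]
    refine Fintype.prod_equiv (MulAction.toPerm g) _ _ fun y => ?_
    simp only [map_sub, map_sum, map_mul, map_X, map_C]
    rfl
  have h2 : map res (map sO W) = map res W := by
    ext m
    rw [coeff_map, coeff_map, coeff_map, ← sub_eq_zero, ← map_sub, r0]
    refine hfix (coeff m W : O) (fun g => ?_) ((mO _).1 (Subtype.prop _))
    rw [← ha, ← coeff_map, h1]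
  let o : MulAction.orbit G z := ⟨z, MulAction.mem_orbit_self z⟩
  have h3 := congrArg (aeval fun j : Option ι => j.elim
    (∑ i, X i * C (res (sO (val o i))) : MvPolynomial ι (IsLocalRing.ResidueField O)) X) h2
  simp only [W, map_prod, map_sub, map_sum, map_mul, map_X, map_C, aeval_X, aeval_C,
    Option.elim_none, Option.elim_some, algebraMap_eq] at h3
  rw [prod_eq_zero (mem_univ o) (sub_self _), eq_comm, prod_eq_zero_iff] at h3
  obtain ⟨y, -, h4⟩ := h3
  obtain ⟨g, hg⟩ := y.2
  refine ⟨g, fun i => ?_⟩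
  have h5 := congrArg (eval (Pi.single i 1)) (sub_eq_zero.1 h4)
  simp only [map_sum, map_mul, eval_X, eval_C, Pi.single_apply, ite_mul, one_mul, zero_mul,
    sum_ite_eq', mem_univ, if_true] at h5
  rw [eq_comm, ← sub_eq_zero, ← map_sub, r0] at h5
  have e : g • z i = y.1 i := congrFun hg i
  rw [e]
  exact h5

end

open Polynomial NumberField Pool.Agent.P.MP_8d2e9f_nt.G
open scoped IntermediateField Classical

theorem p_INF :
    S_INF := by
  intro K p _ j G s S hG hs hfix
  let : NormedField Qbar := NormedField.induced Qbar (Om p) j j.injective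
  have e : ∀ x : Qbar, ‖x‖ = ‖j x‖ := fun _ => rfl
  have : IsUltrametricDist Qbar :=
    IsUltrametricDist.isUltrametricDist_of_forall_norm_add_le_max_norm fun x y => by
      simp only [e, map_add]
      exact IsUltrametricDist.norm_add_le_max _ _
  obtain ⟨g, hg⟩ := inf_d_fin (E := Qbar) (G := G) (ι := {x // x ∈ S.filter fun x => ‖j x‖ ≤ 1})
    (fun g x => hG g.1 g.2 x) (s : Qbar →+* Qbar) hs
    (fun a ha h => by
      rw [e, map_sub]
      exact hfix a (fun g hg => ha ⟨g, hg⟩) h)
    (fun i => i.1) (fun i => (Finset.mem_filter.1 i.2).2) (by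
      refine (Set.Finite.pi' fun i : {x // x ∈ S.filter fun x => ‖j x‖ ≤ 1} =>
        (minpoly K i.1).rootSet_finite Qbar).subset ?_
      rintro _ ⟨g, rfl⟩ i
      rw [Polynomial.mem_rootSet]
      refine ⟨minpoly.ne_zero (int_Q i.1).tower_top, ?_⟩
      change Polynomial.aeval (g.1 i.1) _ = 0
      rw [Polynomial.aeval_algHom_apply, minpoly.aeval, map_zero])
  refine ⟨g.1, g.2, fun x hx h => ?_⟩
  have := hg ⟨x, Finset.mem_filter.2 ⟨hx, h⟩⟩
  rw [e, map_sub] at this
  exact this

end Pool.Agent.P.MP_8d2e9f_nt.AO
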