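import Pool.Agent.P.MP_8d2e9f_nt.AO.IfaceC

/-! Step KRA. -/

set_option autoImplicit false

namespace Pool.Agent.P.MP_8d2e9f_nt.AO

open Polynomial NumberField Pool.Agent.P.MP_8d2e9f_nt.G
open scoped IntermediateField Classical

theorem p_KRA :
    S_KRA := by
  intro S _ _ p G P Q hp hG hcl hP hQ hP0 hlt hpQ hall
  have : Fact p.Prime := ⟨hp⟩
  have : IsNoetherianRing S := by
    have h := is_noetherian_subring_closure G hG
    rw [hcl] at h
    exact isNoetherianRing_of_ringEquiv _ Subring.topEquiv
  have hm : Q ∈ (Ideal.span {(p : S)}).minimalPrimes := by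
    refine ⟨⟨hQ, (Ideal.span_singleton_le_iff_mem _).2 hpQ⟩, ?_⟩
    intro R hR hRQ
    have hRp := hR.1
    have hpR : (p : S) ∈ R := (Ideal.span_singleton_le_iff_mem _).1 hR.2
    have : CharP (S ⧸ R) p := by
      refine (CharP.charP_iff_prime_eq_zero hp).2 ?_
      rw [← map_natCast (Ideal.Quotient.mk R)]
      exact Ideal.Quotient.eq_zero_iff_mem.2 hpR
    let : Algebra (ZMod p) (S ⧸ R) := ZMod.algebra _ p
    have hint : ∀ s ∈ Subring.closure G, IsIntegral (ZMod p) (Ideal.Quotient.mk R s) := by
      intro s hs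
      induction hs using Subring.closure_induction with
      | mem x hx =>
        obtain ⟨f, hf, h0⟩ := hall R hRp hpR hRQ x hx
        refine IsAlgebraic.isIntegral ⟨f.map (algebraMap ℤ (ZMod p)), hf, ?_⟩
        rw [aeval_map_algebraMap]
        exact (aeval_algHom_apply (Ideal.Quotient.mkₐ ℤ R) x f).trans
          (Ideal.Quotient.eq_zero_iff_mem.2 h0)
      | zero => rw [map_zero]; exact isIntegral_zero
      | one => rw [map_one]; exact isIntegral_one
      | add x y _ _ hx hy => rw [map_add]; exact hx.add hy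
      | neg x _ hx => rw [map_neg]; exact hx.neg
      | mul x y _ _ hx hy => rw [map_mul]; exact hx.mul hy
    have : Algebra.IsIntegral (ZMod p) (S ⧸ R) := ⟨fun x => by
      obtain ⟨s, rfl⟩ := Ideal.Quotient.mk_surjective x
      exact hint s (hcl ▸ Subring.mem_top s)⟩
    have hF : IsField (S ⧸ R) := isField_of_isIntegral_of_isField' (Field.toIsField (ZMod p))
    exact ((Ideal.Quotient.maximal_of_isField R hF).eq_of_le hQ.ne_top hRQ).ge
  have h1 := Ideal.height_le_one_of_isPrincipal_of_mem_minimalPrimes _ Q hm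
  have h2 := Ideal.height_strict_mono_of_isPrime hlt
  have h3 : (⊥ : Ideal S).height < P.height :=
    Ideal.height_strict_mono_of_isPrime (bot_lt_iff_ne_bot.2 hP0)
  have h4 : P.height < 1 := lt_of_lt_of_le h2 h1
  have h5 : P.height = 0 := by
    rcases eq_or_ne P.height 0 with h0 | h0
    · exact h0
    · exact absurd h4 (not_lt.2 (Order.one_le_iff_ne_zero.2 h0))
  rw [h5] at h3
  exact absurd h3 (by simp)

end Pool.Agent.P.MP_8d2e9f_nt.AO
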