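import Pool.Agent.P.MP_8d2e9f_nt.AO.IfaceC

/-! Step LAT4. -/

set_option autoImplicit false

namespace Pool.Agent.P.MP_8d2e9f_nt.AO

open Polynomial NumberField Pool.Agent.P.MP_8d2e9f_nt.G
open scoped IntermediateField Classical

theorem lat4_homg (a b : Qbar[X]) : homg a b 4 ((X ^ 2 - 1) ^ 2) = (a ^ 2 - b ^ 2) ^ 2 := by
  have h : (X ^ 2 - 1 : Qbar[X]).natDegree ≤ 2 := by compute_degree
  have := homg_pow a b h 2
  rw [homg_sub, homg_X_pow a b le_rfl, homg_one] at this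
  simpa using this

theorem lat4_even {p : Qbar[X]} (h : p.comp (-X) = p) : ∃ P : Qbar[X], P.comp (X ^ 2) = p := by
  refine ⟨contract 2 p, ?_⟩
  rw [← expand_eq_comp_X_pow]
  ext n
  rw [coeff_expand two_pos]
  split_ifs with hn
  · rw [coeff_contract two_ne_zero, Nat.div_mul_cancel hn]
  · have h1 := comp_C_mul_X_coeff (p := p) (r := -1) (n := n)
    have e : (C (-1) * X : Qbar[X]) = -X := by simp
    rw [e, h, Odd.neg_one_pow (Nat.odd_iff.2 (by omega))] at h1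
    linear_combination (-1 / 2 : Qbar) * h1

theorem lat4_neg (p : Qbar[X]) : (p.comp (-X)).comp (-X) = p := by
  rw [comp_assoc]
  simp

theorem lat4_deg (p : Qbar[X]) : (p.comp (-X)).natDegree = p.natDegree := by
  rw [natDegree_comp]
  simp

theorem lat4_T : (X ^ 2 - 1 : Qbar[X]).natDegree = 2 := by compute_degree!

theorem lat4_inj {p q : Qbar[X]} (h : p.comp (X ^ 2 - 1) = q.comp (X ^ 2 - 1)) : p = q := by
  have h1 : (p - q).comp (X ^ 2 - 1) = 0 := by rw [sub_comp, h, sub_self]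
  rcases comp_eq_zero_iff.1 h1 with h2 | ⟨-, h2⟩
  · exact sub_eq_zero.1 h2
  · have h3 := lat4_T
    rw [h2, natDegree_C] at h3
    omega

theorem lat4_sq (hUNIQ : S_UNIQ) {d : ℕ} {a b : Qbar[X]} {c : Qbar} (hn : Nrm d a b) (hb : b ≠ 0)
    (hc : c ≠ 0) (ho : Ode 3 ((X ^ 2 - 1) ^ 2) c a b) :
    (a ^ 2).comp (-X) = a ^ 2 ∧ (b ^ 2).comp (-X) = b ^ 2 := by
  obtain ⟨-, h1, h2, h3⟩ := hn
  have hw : wr (-a.comp (-X)) (b.comp (-X)) = (wr a b).comp (-X) := by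
    simp only [wr, derivative_neg, derivative_comp, derivative_X, sub_comp, mul_comp]
    ring
  have ho' : Ode 3 ((X ^ 2 - 1) ^ 2) c (-a.comp (-X)) (b.comp (-X)) := by
    unfold Ode at ho ⊢
    rw [show 3 + 1 = 4 from rfl, lat4_homg] at ho ⊢
    have := congrArg (fun p : Qbar[X] => p.comp (-X)) ho
    simp only [mul_comp, pow_comp, sub_comp, X_comp, one_comp, C_comp] at this
    rw [hw]
    linear_combination this
  have hb' : b.comp (-X) ≠ 0 := fun h => hb (by rw [← lat4_neg b, h, zero_comp])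
  have hm : ((X ^ 2 - 1 : Qbar[X]) ^ 2).Monic := Monic.pow (by monicity!) 2
  have hu := hUNIQ 3 _ a b _ _ c (Or.inr rfl) hm (by rw [natDegree_pow, lat4_T]) hc hb hb'
    (by omega) (by rw [natDegree_neg, lat4_deg, lat4_deg]; omega) ho ho'
  obtain ⟨e, he⟩ : b ∣ b.comp (-X) :=
    h3.symm.dvd_of_dvd_mul_left ⟨-a.comp (-X), by rw [hu]; ring⟩
  have h4 : e * e.comp (-X) = 1 := by
    have h5 := lat4_neg b
    rw [he, mul_comp, he] at h5
    exact mul_left_cancel₀ hb (by linear_combination h5)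
  obtain ⟨r, -, rfl⟩ := Polynomial.isUnit_iff.1 (IsUnit.of_mul_eq_one _ h4)
  rw [C_comp] at h4
  have h6 : -a.comp (-X) = a * C r := mul_right_cancel₀ hb (by rw [← hu, he]; ring)
  refine ⟨?_, ?_⟩
  · rw [pow_comp, ← neg_sq, h6]
    linear_combination a ^ 2 * h4
  · rw [pow_comp, he]
    linear_combination b ^ 2 * h4

theorem p_LAT4 (hPRN : S_PRN) (hUNIQ : S_UNIQ) :
    S_LAT4 := by
  intro d a b c hn hc ho
  obtain ⟨p1, p2, hb, -⟩ := hPRN.1 Qbar d a b hn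
  obtain ⟨e1, e2⟩ := lat4_sq hUNIQ hn hb hc ho
  obtain ⟨A, hA⟩ := lat4_even e1
  obtain ⟨B, hB⟩ := lat4_even e2
  have hT : (X + 1 : Qbar[X]).comp (X ^ 2 - 1) = X ^ 2 := by simp
  obtain ⟨a', ha'⟩ : ∃ a' : Qbar[X], a'.comp (X ^ 2 - 1) = a ^ 2 - b ^ 2 :=
    ⟨(A - B).comp (X + 1), by rw [comp_assoc, hT, sub_comp, hA, hB]⟩
  obtain ⟨b', hb'⟩ : ∃ b' : Qbar[X], b'.comp (X ^ 2 - 1) = b ^ 2 :=
    ⟨B.comp (X + 1), by rw [comp_assoc, hT, hB]⟩
  have va : ∀ x : Qbar, a'.eval (x ^ 2 - 1) = a.eval x ^ 2 - b.eval x ^ 2 := fun x => by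
    simpa [eval_comp] using congrArg (eval x) ha'
  have vb : ∀ x : Qbar, b'.eval (x ^ 2 - 1) = b.eval x ^ 2 := fun x => by
    simpa [eval_comp] using congrArg (eval x) hb'
  obtain ⟨n0, n1, n2, n3⟩ := id hn
  have hn' : Nrm d a' b' := by
    refine ⟨n0, ?_, ?_, ?_⟩
    · have h1 := congrArg natDegree ha'
      rw [natDegree_comp, lat4_T, natDegree_sub_eq_left_of_natDegree_lt
        (by rw [natDegree_pow, natDegree_pow]; omega), natDegree_pow] at h1
      omega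
    · have h1 := congrArg natDegree hb'
      rw [natDegree_comp, lat4_T, natDegree_pow] at h1
      omega
    · rw [isCoprime_iff_aeval_ne_zero_of_isAlgClosed Qbar Qbar] at n3 ⊢
      intro y
      obtain ⟨x, hx⟩ := IsAlgClosed.exists_pow_nat_eq (y + 1) two_pos
      obtain rfl : y = x ^ 2 - 1 := by rw [hx]; ring
      have h1 := n3 x
      simp only [coe_aeval_eq_eval] at h1 ⊢
      rw [va, vb]
      by_cases h2 : b.eval x = 0
      · left
        rw [h2]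
        simpa using h1.resolve_right (not_not.2 h2)
      · exact Or.inr (pow_ne_zero _ h2)
  have hw : X * (wr a' b').comp (X ^ 2 - 1) = a * b * wr a b := by
    have d1 := congrArg derivative ha'
    have d2 := congrArg derivative hb'
    simp only [derivative_comp, derivative_sub, derivative_one, derivative_sq, derivative_X,
      sub_zero, mul_one] at d1 d2
    have h2 : (C 2 : Qbar[X]) ≠ 0 := C_ne_zero.2 two_ne_zero
    refine mul_left_cancel₀ h2 ?_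
    simp only [wr, sub_comp, mul_comp, ha', hb']
    linear_combination b ^ 2 * d1 - (a ^ 2 - b ^ 2) * d2
  have hθ : Nrm 2 (X ^ 2 - 1 : Qbar[X]) 1 := ⟨le_rfl, lat4_T, by simp, isCoprime_one_right⟩
  obtain ⟨q1, q2, -, -⟩ := hPRN.1 Qbar 2 _ _ hθ
  obtain ⟨r1, r2, -, -⟩ := hPRN.1 Qbar d _ _ hn'
  have ts : ∀ x : Qbar, im (X ^ 2 - 1) 1 2 (some x) = some (x ^ 2 - 1) := fun x => by
    rw [im_some q1.1 q1.2.1]
    simp
  refine ⟨a', b', hn', ⟨(c ^ 2)⁻¹, inv_ne_zero (pow_ne_zero _ hc), lat4_inj ?_⟩,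
    2, im (X ^ 2 - 1) 1 2, two_pos, q1.rm, fun x => ?_⟩
  · unfold Ode at ho
    rw [show 3 + 1 = 4 from rfl, show 3 - 1 = 2 from rfl, lat4_homg] at ho
    have hcc : (C (c ^ 2)⁻¹ : Qbar[X]) * C c ^ 2 = 1 := by
      rw [← C_pow, ← C_mul, inv_mul_cancel₀ (pow_ne_zero _ hc), C_1]
    simp only [mul_comp, pow_comp, C_comp, hT, X_comp]
    rw [add_comp, ha', hb']
    have h1 : (X ^ 2 - 1) ^ 4 * (X ^ 2) ^ 3 * (wr a' b').comp (X ^ 2 - 1) ^ 6 =
        (a * b) ^ 6 * (wr a b ^ 3 * (X ^ 2 - 1) ^ 2) ^ 2 := by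
      rw [show (X ^ 2 - 1) ^ 4 * (X ^ 2) ^ 3 * (wr a' b').comp (X ^ 2 - 1) ^ 6 =
        (X ^ 2 - 1) ^ 4 * (X * (wr a' b').comp (X ^ 2 - 1)) ^ 6 by ring, hw]
      ring
    rw [h1, ho]
    linear_combination (-(a * b) ^ 6 * (b ^ 2 * (a ^ 2 - b ^ 2) ^ 2) ^ 2) * hcc
  · cases x with
    | none => rw [p2, q2, r2]
    | some x =>
      rw [ts, im_some p1.1 p1.2.1, im_some r1.1 r1.2.1, va, vb]
      by_cases h : b.eval x = 0
      · rw [if_pos h, if_pos (by rw [h]; ring), q2]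
      · rw [if_neg h, if_neg (pow_ne_zero _ h), ts]
        congr 1
        field_simp

end Pool.Agent.P.MP_8d2e9f_nt.AO
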