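import Pool.Agent.P.MP_8d2e9f_nt.AO.IfaceC

/-! Step LIFTR. -/

set_option autoImplicit false

namespace Pool.Agent.P.MP_8d2e9f_nt.AO

open Polynomial NumberField Pool.Agent.P.MP_8d2e9f_nt.G
open scoped IntermediateField Classical

section

variable {R S : Type} [CommRing R] [CommRing S]

/-- The polynomial with the unknown coefficients. -/
noncomputable def liftr_P (x : Option (Fin 25 ⊕ Fin 25) → R) : R[X] :=
  ∑ i : Fin 25, C (x (some (.inl i))) * X ^ (i : ℕ)

/-- The equations of an eigenform. -/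
noncomputable def liftr_eq (a b : R[X]) (x : Option (Fin 25 ⊕ Fin 25) → R) : Option ℕ → R
  | none => x none * ∑ i : Fin 25, x (some (.inr i)) * x (some (.inl i)) - 1
  | some n => (homg a b 24 (liftr_P x) - C (x none) * liftr_P x * wr a b ^ 12).coeff n

/-- The equations as polynomials in the unknowns. -/
noncomputable def liftr_U (a b : R[X]) (i : Option ℕ) : MvPolynomial (Option (Fin 25 ⊕ Fin 25)) R :=
  liftr_eq (a.map MvPolynomial.C) (b.map MvPolynomial.C) MvPolynomial.X i

lemma liftr_map (f : R →+* S) (a b : R[X]) (x : Option (Fin 25 ⊕ Fin 25) → R) (i : Option ℕ) :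
    f (liftr_eq a b x i) = liftr_eq (a.map f) (b.map f) (fun s => f (x s)) i := by
  have h : (liftr_P x).map f = liftr_P fun s => f (x s) := by
    simp only [liftr_P, Polynomial.map_sum, Polynomial.map_mul, map_C, Polynomial.map_pow, map_X]
  rcases i with _ | n
  · simp only [liftr_eq, map_sub, map_mul, map_sum, map_one]
  · simp only [liftr_eq]
    rw [← coeff_map, Polynomial.map_sub, homg_map, Polynomial.map_mul, Polynomial.map_mul, map_C,
      Polynomial.map_pow, wr_map, h]

lemma liftr_eval (ψ : R →+* S) (a b : R[X]) (x : Option (Fin 25 ⊕ Fin 25) → S) (i : Option ℕ) :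
    MvPolynomial.eval₂ ψ x (liftr_U a b i) = liftr_eq (a.map ψ) (b.map ψ) x i := by
  have h : (MvPolynomial.eval₂Hom ψ x).comp MvPolynomial.C = ψ := RingHom.ext fun c => by simp
  have := liftr_map (MvPolynomial.eval₂Hom ψ x) (a.map MvPolynomial.C) (b.map MvPolynomial.C)
    MvPolynomial.X i
  rw [Polynomial.map_map, Polynomial.map_map, h] at this
  simpa only [MvPolynomial.coe_eval₂Hom, MvPolynomial.eval₂_X, liftr_U] using this

lemma liftr_mapU (φ : R →+* S) (a b : R[X]) (i : Option ℕ) :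
    MvPolynomial.map φ (liftr_U a b i) = liftr_U (a.map φ) (b.map φ) i := by
  have h : (MvPolynomial.map (σ := Option (Fin 25 ⊕ Fin 25)) φ).comp MvPolynomial.C =
      MvPolynomial.C.comp φ := RingHom.ext fun c => by simp
  rw [liftr_U, liftr_map, liftr_U, Polynomial.map_map, Polynomial.map_map, Polynomial.map_map,
    Polynomial.map_map, h]
  simp only [MvPolynomial.map_X]

lemma liftr_coeff (x : Option (Fin 25 ⊕ Fin 25) → R) (i : Fin 25) :
    (liftr_P x).coeff i = x (some (.inl i)) := by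
  simp only [liftr_P, finsetSum_coeff, coeff_C_mul_X_pow, Fin.val_inj, Finset.sum_ite_eq,
    Finset.mem_univ, if_true]

lemma liftr_form {a b : R[X]} (h : FormR a b) {f : R →+* S} (hf : Function.Injective f) :
    FormR (a.map f) (b.map f) := by
  obtain ⟨P, Q, n, N, h1, h2, h3, h4, h5, e⟩ := h
  refine ⟨P.map f, Q.map f, n, N, (Polynomial.map_ne_zero_iff hf).2 h1,
    (Polynomial.map_ne_zero_iff hf).2 h2, natDegree_map_le.trans h3, natDegree_map_le.trans h4, h5,
    ?_⟩
  simpa only [Polynomial.map_mul, Polynomial.map_pow, homg_map, wr_map] using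
    congrArg (Polynomial.map f) e

end

lemma liftr_iff {k : Type} [Field k] (a b : k[X]) :
    (∃ x, ∀ i, liftr_eq a b x i = 0) ↔ ∃ P, Eig a b P := by
  constructor
  · rintro ⟨x, h⟩
    have h0 := sub_eq_zero.1 (h none)
    refine ⟨liftr_P x, fun e => ?_, natDegree_sum_le_of_forall_le _ _ fun i _ =>
      (natDegree_C_mul_X_pow_le _ _).trans (Nat.lt_succ_iff.1 i.2), x none,
      left_ne_zero_of_mul_eq_one h0, sub_eq_zero.1 (Polynomial.ext fun n => h (some n))⟩
    simp only [← liftr_coeff, e, coeff_zero, mul_zero, Finset.sum_const_zero] at h0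
    exact zero_ne_one h0
  · rintro ⟨P, h0, h1, c, hc, e⟩
    let i₀ : Fin 25 := ⟨P.natDegree, Nat.lt_succ_of_le h1⟩
    let x : Option (Fin 25 ⊕ Fin 25) → k := fun s => s.elim c (Sum.elim (fun i => P.coeff i)
      fun i => if i = i₀ then (c * P.leadingCoeff)⁻¹ else 0)
    have h2 : liftr_P x = P := by
      rw [P.as_sum_range_C_mul_X_pow' (Nat.lt_succ_of_le h1), Finset.sum_range]
      rfl
    refine ⟨x, fun i => ?_⟩
    rcases i with _ | n
    · have h3 := mul_ne_zero hc (leadingCoeff_ne_zero.2 h0)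
      simp only [liftr_eq, x, Option.elim, Sum.elim_inl, Sum.elim_inr, ite_mul, zero_mul,
        Finset.sum_ite_eq', Finset.mem_univ, if_true, i₀, coeff_natDegree]
      rw [mul_left_comm, inv_mul_cancel₀ h3, sub_self]
    · rw [liftr_eq, h2, e, show x none = c from rfl, sub_self, coeff_zero]

theorem p_LIFTR (hPLACE : S_PLACE) (hGOODR : S_GOODR) (hORB1 : S_ORB1) (hNULL : S_NULL) :
    S_LIFTR := by
  intro K d a b hK hn ⟨N, hN⟩
  by_contra h
  obtain ⟨s₁, h1⟩ := hNULL K _ _ (liftr_U a b) fun x => by_contra fun h1 =>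
    h ((liftr_iff _ _).1 ⟨x, fun i => by_contra fun h2 => h1 ⟨i, by rwa [liftr_eval]⟩⟩)
  obtain ⟨s₂, h2⟩ := hGOODR.2 K d a b hn
  obtain ⟨p, _, φ, j, hp, hl, hs⟩ := hPLACE K (max N d) (s₁ ∪ s₂) hK
  obtain ⟨a₀, b₀, hg, ea, eb⟩ := h2 p φ fun c hc => hs c (Finset.mem_union_right _ hc)
  have hι := (algebraMap (ZMod p) (AlgebraicClosure (ZMod p))).injective
  obtain ⟨x, hx⟩ := (liftr_iff _ _).2 (hORB1 (AlgebraicClosure (ZMod p)) d _ _
    ((hGOODR.1 p d a₀ b₀ hg).1.map hι) (fun i h3 h4 h5 => absurd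
      (Nat.le_of_dvd h3 ((CharP.cast_eq_zero_iff _ p i).1 h5))
        (not_le.2 (h4.trans_lt ((le_max_right _ _).trans_lt hp))))
    (liftr_form (hN p φ j a₀ b₀ ((le_max_left _ _).trans_lt hp) hl hg ea eb) hι))
  obtain ⟨i, hi⟩ := h1 p φ (liftr_U a₀ b₀) (fun c hc => hs c (Finset.mem_union_left _ hc))
    (fun i => by rw [liftr_mapU, liftr_mapU, ea, eb]) _
    ((algebraMap (ZMod p) (AlgebraicClosure (ZMod p))).comp (zr p)) x
  rw [liftr_eval, ← Polynomial.map_map, ← Polynomial.map_map] at hi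
  exact hi (hx i)

end Pool.Agent.P.MP_8d2e9f_nt.AO
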