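import Pool.Agent.P.MP_8d2e9f_nt.AO.IfaceF
import Pool.Agent.P.MP_8d2e9f_nt.G.All

/-! Step TRF. -/

set_option autoImplicit false

namespace Pool.Agent.P.MP_8d2e9f_nt.AO

open Polynomial NumberField Pool.Agent.P.MP_8d2e9f_nt.G
open scoped IntermediateField Classical

theorem p_TRF :
    S_TRF := by
  refine fun L φ => ⟨?_, fun r h K hK => (h K hK).subset fun x hx => ⟨hx.1, hx.2.subset ?_⟩⟩
  · rintro ψ ⟨e, θ, he, hθ, h⟩ hψ K hK
    obtain ⟨E, hE, hθE⟩ := all_MOD.2 e θ hθ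
    have hKE : Fd (K ⊔ E) := IntermediateField.finiteDimensional_sup _ _
    have fib : ∀ y, (θ ⁻¹' {y}).Finite := fun y => by
      obtain ⟨s, -, hs⟩ := (all_FIB ⊤ e θ hθ).1 he y
      refine ((s.finite_toSet.image some).insert none).subset ?_
      rintro (_ | t) ht
      · exact Or.inl rfl
      · exact Or.inr ⟨t, hs t ht, rfl⟩
    refine ((hψ (K ⊔ E) hKE).preimage' fun y _ => fib y).subset fun x hx => ⟨?_, ?_⟩
    · exact (hθE.mono (le_sup_right.trans le_sup_right)).mem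
        (pts_mono (sup_le_sup_left le_sup_left L) hx.1)
    · refine (Set.Finite.image θ hx.2).subset ?_
      rintro _ ⟨n, rfl⟩
      exact ⟨_, ⟨n, rfl⟩, Function.Semiconj.iterate_right (f := θ) (ga := φ) (gb := ψ) h n x⟩
  · rintro _ ⟨n, rfl⟩
    exact ⟨r * n, congrFun (Function.iterate_mul φ r n) x⟩

end Pool.Agent.P.MP_8d2e9f_nt.AO
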