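import Pool.Agent.P.MP_8d2e9f_nt.AO.IfaceC
import Pool.Agent.P.MP_8d2e9f_nt.G.All

/-! Step USBR. -/

set_option autoImplicit false

namespace Pool.Agent.P.MP_8d2e9f_nt.AO

open Polynomial NumberField Pool.Agent.P.MP_8d2e9f_nt.G
open scoped IntermediateField Classical

theorem p_USBR (hCANH : S_CANH) :
    S_USBR := by
  rintro F hU f - ⟨S, hS, hi, he⟩
  have rf : RM ⊤ (ratDegree f) (ratMap f) := all_RF ⊤ f fun _ => ⟨trivial, trivial⟩
  have hi' : (some '' S).Infinite := hi.image (Option.some_injective Qbar).injOn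
  by_contra h1
  rcases Nat.lt_or_ge (ratDegree f) 2 with h2 | h2
  · have h0 : ratDegree f = 0 := by omega
    rw [h0] at rf
    obtain ⟨a, b, -, e⟩ := rm_pr rf
    refine hi' ((Set.finite_singleton (pt (a.coeff 0, b.coeff 0))).subset ?_)
    rw [← he, e]
    rintro _ ⟨x, -, rfl⟩
    simp [im, vm, hv]
  obtain ⟨⟨H, hH⟩, hC⟩ := hCANH _ _ h2 rf
  obtain ⟨k1, k2, -⟩ := hC H hH
  obtain ⟨⟨c, c0, h3⟩, h4⟩ := hU f h2 H hH
  have hp : ∀ x ∈ some '' S, x ∈ pointsOver F := by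
    rintro _ ⟨x, hx, rfl⟩
    exact Or.inr ⟨x, hS hx, rfl⟩
  obtain ⟨x, hx, hx'⟩ := (hi'.sdiff h4).nonempty
  have x0 : H x ≠ 0 := fun e => hx' ⟨hp x hx, (k2 x).1 e⟩
  have ch : ∀ n : ℕ, ∃ y ∈ some '' S, H x = (ratDegree f : ℝ) ^ n * H y := fun n => by
    induction n with
    | zero => exact ⟨x, hx, by simp⟩
    | succ n ih =>
      obtain ⟨y, hy, e⟩ := ih
      rw [← he] at hy
      obtain ⟨z, hz, rfl⟩ := hy
      exact ⟨z, hz, by rw [e, hH.1, pow_succ, mul_assoc]⟩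
  have d1 : (1 : ℝ) < ratDegree f := by exact_mod_cast h2
  obtain ⟨n, hn⟩ := pow_unbounded_of_one_lt (H x / c) d1
  obtain ⟨y, hy, e⟩ := ch n
  have h5 := h3 y (hp y hy) fun h => x0 (by rw [e, (k2 y).2 h, mul_zero])
  rw [div_lt_iff₀ c0, e] at hn
  exact absurd (mul_le_mul_of_nonneg_left h5 (by positivity)) hn.not_ge

end Pool.Agent.P.MP_8d2e9f_nt.AO
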